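import Mathlib

/-!
# Abstract slow continued fraction policies

A policy `(L, U)` uses `x ↦ x + 1` on `L`, `x ↦ x - 1` on `U` and `x ↦ -1/x` elsewhere.
-/

namespace Q66.Ab

open Classical in
/-- The policy map. -/
noncomputable def F (L U : Set ℝ) (x : ℝ) : ℝ :=
  if x ∈ L then x + 1 else if x ∈ U then x - 1 else -1 / x

/-- Axioms of a policy with cut points `a ≤ 0 ≤ b`. -/
structure Pol (a b : ℝ) (L U : Set ℝ) : Prop where
  ha : a ≤ 0
  hb : 0 ≤ b
  l1 : ∀ x, x < a → x ∈ L
  l2 : ∀ x ∈ L, x ≤ a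
  u1 : ∀ x, b < x → x ∈ U
  u2 : ∀ x ∈ U, b ≤ x
  t1 : ∀ x ∈ L, x + 1 ∉ U
  s1 : ∀ x, x < 0 → x ∉ L → -1 / x ∈ U

/-- A good policy: `1 ∈ U` and `-1/2 ∉ L`. -/
structure Good (a b : ℝ) (L U : Set ℝ) : Prop extends Pol a b L U where
  g1 : (1 : ℝ) ∈ U
  g2 : (-1 / 2 : ℝ) ∉ L

/-- `hit L U n x`: the orbit of `x` reaches `0` within `n` steps. -/
def hit (L U : Set ℝ) (n : ℕ) (x : ℝ) : Prop := ∃ j ≤ n, (F L U)^[j] x = 0

section basic

variable {a b : ℝ} {L U : Set ℝ}

theorem hit_zero_iff {x : ℝ} : hit L U 0 x ↔ x = 0 := by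
  unfold hit
  constructor
  · rintro ⟨j, hj, h⟩
    have : j = 0 := by omega
    subst this
    simpa using h
  · intro h
    exact ⟨0, le_refl _, by simpa using h⟩

theorem hit_of_zero (n : ℕ) : hit L U n 0 := ⟨0, Nat.zero_le _, rfl⟩

theorem hit_mono {m n : ℕ} (h : m ≤ n) {x : ℝ} (hx : hit L U m x) : hit L U n x := by
  obtain ⟨j, hj, h2⟩ := hx
  exact ⟨j, hj.trans h, h2⟩

theorem hit_succ {n : ℕ} {x : ℝ} (h : hit L U n (F L U x)) : hit L U (n + 1) x := by
  obtain ⟨j, hj, h2⟩ := h
  exact ⟨j + 1, by omega, by rw [Function.iterate_succ_apply]; exact h2⟩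

theorem hit_pred {n : ℕ} {x : ℝ} (hx : x ≠ 0) (h : hit L U n x) :
    ∃ m, n = m + 1 ∧ hit L U m (F L U x) := by
  obtain ⟨j, hj, h2⟩ := h
  rcases j with _ | j
  · exact absurd (by simpa using h2) hx
  · refine ⟨n - 1, by omega, j, by omega, ?_⟩
    rw [Function.iterate_succ_apply] at h2
    exact h2

theorem hit_succ_iff {n : ℕ} {x : ℝ} : hit L U (n + 1) x ↔ x = 0 ∨ hit L U n (F L U x) := by
  constructor
  · intro h
    by_cases hx : x = 0
    · exact Or.inl hx
    · obtain ⟨m, hm, h2⟩ := hit_pred hx h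
      have : m = n := by omega
      subst this
      exact Or.inr h2
  · rintro (h | h)
    · subst h; exact hit_of_zero _
    · exact hit_succ h

theorem F_L {x : ℝ} (h : x ∈ L) : F L U x = x + 1 := by
  unfold F; rw [if_pos h]

theorem F_U {x : ℝ} (h1 : x ∉ L) (h : x ∈ U) : F L U x = x - 1 := by
  unfold F; rw [if_neg h1, if_pos h]

theorem F_S {x : ℝ} (h1 : x ∉ L) (h : x ∉ U) : F L U x = -1 / x := by
  unfold F; rw [if_neg h1, if_neg h]

namespace Pol

variable (P : Pol a b L U)
include P

theorem lowerL {x y : ℝ} (hx : x ∈ L) (h : y < x) : y ∈ L :=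
  P.l1 y (lt_of_lt_of_le h (P.l2 x hx))

theorem upperU {x y : ℝ} (hx : x ∈ U) (h : x < y) : y ∈ U :=
  P.u1 y (lt_of_le_of_lt (P.u2 x hx) h)

theorem notL_pos {x : ℝ} (h : 0 < x) : x ∉ L := fun h2 => by
  have := P.l2 x h2; have := P.ha; linarith

theorem notU_neg {x : ℝ} (h : x < 0) : x ∉ U := fun h2 => by
  have := P.u2 x h2; have := P.hb; linarith

theorem s2 {x : ℝ} (h : 0 < x) (hU : x ∉ U) : -1 / x ∈ L := by
  by_contra hc
  have h1 : -1 / x < 0 := div_neg_of_neg_of_pos (by norm_num) h
  have h2 := P.s1 _ h1 hc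
  have h3 : -1 / (-1 / x) = x := by field_simp
  rw [h3] at h2
  exact hU h2

theorem FU {x : ℝ} (h : 0 < x) (hU : x ∈ U) : F L U x = x - 1 := F_U (P.notL_pos h) hU

theorem FSpos {x : ℝ} (h : 0 < x) (hU : x ∉ U) : F L U x = -1 / x := F_S (P.notL_pos h) hU

theorem FSneg {x : ℝ} (h : x < 0) (hL : x ∉ L) : F L U x = -1 / x := F_S hL (P.notU_neg h)

/-- disjointness -/
theorem disj {x : ℝ} (h : x ∈ L) : x ∉ U := by
  intro h2
  have h3 := P.t1 x h
  exact h3 (P.upperU h2 (by linarith))

theorem t2 {x : ℝ} (h : x ∈ U) : x - 1 ∉ L := by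
  intro h2
  have := P.t1 _ h2
  rw [sub_add_cancel] at this
  exact this h

end Pol

namespace Good

variable (P : Good a b L U)
include P

theorem one_le {x : ℝ} (h : 1 ≤ x) : x ∈ U := by
  rcases eq_or_lt_of_le h with h | h
  · rw [← h]; exact P.g1
  · exact P.upperU P.g1 h

theorem lt_one {x : ℝ} (h : x ∉ U) : x < 1 := by
  by_contra hc
  exact h (P.one_le (not_lt.mp hc))

theorem lt_neg_half {x : ℝ} (h : x ∈ L) : x < -1 / 2 := by
  by_contra hc
  rcases eq_or_lt_of_le (not_lt.mp hc) with h2 | h2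
  · rw [← h2] at h; exact P.g2 h
  · exact P.g2 (P.lowerL h h2)

/-- three steps of the slow branch: from `v ∈ U`, `0 < v < 1` to `v/(1-v)`. -/
theorem slow {n : ℕ} {v : ℝ} (h0 : 0 < v) (h1 : v < 1) (hU : v ∈ U) (h : hit L U n v) :
    ∃ m, n = m + 3 ∧ hit L U m (v / (1 - v)) := by
  obtain ⟨n1, e1, h2⟩ := hit_pred (ne_of_gt h0) h
  rw [P.FU h0 hU] at h2
  have hv1 : v - 1 < 0 := by linarith
  obtain ⟨n2, e2, h3⟩ := hit_pred (ne_of_lt hv1) h2
  rw [P.FSneg hv1 (P.t2 hU)] at h3
  have h4 : (1 : ℝ) < -1 / (v - 1) := by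
    rw [show -1 / (v - 1) = 1 / (1 - v) by rw [← neg_sub v 1, div_neg, neg_div]]
    rw [lt_div_iff₀ (by linarith)]; linarith
  obtain ⟨n3, e3, h5⟩ := hit_pred (by linarith) h3
  rw [P.FU (by linarith) (P.one_le h4.le)] at h5
  have h6 : -1 / (v - 1) - 1 = v / (1 - v) := by
    have : v - 1 ≠ 0 := by linarith
    have : 1 - v ≠ 0 := by linarith
    field_simp
    ring
  rw [h6] at h5
  exact ⟨n3, by omega, h5⟩

/-- `τ(-1/v) ≤ τ(v) + 1` for `v > 0`. -/
theorem splus (n : ℕ) : ∀ v : ℝ, 0 < v → hit L U n v → hit L U (n + 1) (-1 / v) := by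
  induction n using Nat.strong_induction_on with
  | _ n ih =>
  intro v hv h
  have hneg : -1 / v < 0 := div_neg_of_neg_of_pos (by norm_num) hv
  have hinv : -1 / (-1 / v) = v := by field_simp
  obtain ⟨n1, e1, h1⟩ := hit_pred (ne_of_gt hv) h
  by_cases hU : v ∈ U
  · rw [P.FU hv hU] at h1
    by_cases hL : -1 / v ∈ L
    · apply hit_succ
      rw [F_L hL]
      rcases lt_trichotomy v 1 with h2 | h2 | h2
      · obtain ⟨m, e2, h3⟩ := P.slow hv h2 hU h
        have hu : 0 < v / (1 - v) := div_pos hv (by linarith)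
        have h4 := ih m (by omega) _ hu h3
        have h5 : -1 / (v / (1 - v)) = -1 / v + 1 := by
          have : v ≠ 0 := ne_of_gt hv
          have : 1 - v ≠ 0 := by linarith
          field_simp
          ring
        rw [h5] at h4
        exact hit_mono (by omega) h4
      · subst h2
        norm_num
        exact hit_of_zero _
      · -- v > 1
        have hx0 : 0 < -1 / v + 1 := by
          have : -1 / v + 1 = (v - 1) / v := by field_simp; ring
          rw [this]; exact div_pos (by linarith) hv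
        have hxU : -1 / v + 1 ∉ U := P.t1 _ hL
        have hxL := P.s2 hx0 hxU
        have hv1 : 0 < v - 1 := by linarith
        have e3 : -1 / (-1 / v + 1) + 1 = -1 / (v - 1) := by
          have : v ≠ 0 := ne_of_gt hv
          have : v - 1 ≠ 0 := ne_of_gt hv1
          have h7 : -1 / v + 1 ≠ 0 := ne_of_gt hx0
          have h8 : -1 + v ≠ 0 := by linarith
          field_simp
          ring
        have key : ∀ k, hit L U k (-1 / (v - 1)) → hit L U (k + 2) (-1 / v + 1) := by
          intro k hk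
          apply hit_succ
          rw [P.FSpos hx0 hxU]
          apply hit_succ
          rw [F_L hxL, e3]
          exact hk
        obtain ⟨n2, e4, h3⟩ := hit_pred (ne_of_gt hv1) h1
        by_cases hwU : v - 1 ∈ U
        · have hv2 : v - 1 < 1 := by
            have := P.lt_neg_half hL
            rw [div_lt_div_iff₀ hv (by norm_num)] at this
            linarith
          obtain ⟨m, e5, h6⟩ := P.slow hv1 hv2 hwU h1
          have hu : 0 < (v - 1) / (1 - (v - 1)) := div_pos hv1 (by linarith)
          have h7 := ih m (by omega) _ hu h6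
          have h8 : -1 / ((v - 1) / (1 - (v - 1))) = -1 / (v - 1) + 1 := by
            have : v - 1 ≠ 0 := ne_of_gt hv1
            have : 1 - (v - 1) ≠ 0 := by linarith
            field_simp
            ring
          rw [h8] at h7
          have h9 : -1 / (v - 1) ∈ L := by
            apply P.lowerL hL
            rw [div_lt_div_iff₀ hv1 hv]
            linarith
          have h10 : hit L U (m + 2) (-1 / (v - 1)) := by
            apply hit_succ
            rw [F_L h9]
            exact h7
          exact hit_mono (by omega) (key _ h10)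
        · rw [P.FSpos hv1 hwU] at h3
          exact hit_mono (by omega) (key _ h3)
    · apply hit_succ
      rw [P.FSneg hneg hL, hinv]
      exact h
  · rw [P.FSpos hv hU] at h1
    exact hit_mono (by omega) h1

/-- (P2): for `0 < y`, `y ∉ U`: `τ(-1/y) ≤ τ(y-1)`. -/
theorem p2 {n : ℕ} {y : ℝ} (hy : 0 < y) (hU : y ∉ U) (h : hit L U n (y - 1)) :
    hit L U n (-1 / y) := by
  have hy1 : y < 1 := P.lt_one hU
  have hneg : y - 1 < 0 := by linarith
  have hL := P.s2 hy hU
  obtain ⟨n1, e1, h1⟩ := hit_pred (ne_of_lt hneg) h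
  by_cases hc : y - 1 ∈ L
  · rw [F_L hc, sub_add_cancel] at h1
    obtain ⟨n2, e2, h2⟩ := hit_pred (ne_of_gt hy) h1
    rw [P.FSpos hy hU] at h2
    exact hit_mono (by omega) h2
  · rw [P.FSneg hneg hc] at h1
    have h4 : (1 : ℝ) < -1 / (y - 1) := by
      rw [show -1 / (y - 1) = 1 / (1 - y) by rw [← neg_sub y 1, div_neg, neg_div]]
      rw [lt_div_iff₀ (by linarith)]; linarith
    obtain ⟨n2, e2, h2⟩ := hit_pred (by linarith) h1
    rw [P.FU (by linarith) (P.one_le h4.le)] at h2
    have h6 : -1 / (y - 1) - 1 = y / (1 - y) := by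
      have : y - 1 ≠ 0 := by linarith
      have : 1 - y ≠ 0 := by linarith
      field_simp
      ring
    rw [h6] at h2
    have h7 := P.splus n2 _ (div_pos hy (by linarith)) h2
    have h5 : -1 / (y / (1 - y)) = -1 / y + 1 := by
      have : y ≠ 0 := ne_of_gt hy
      have : 1 - y ≠ 0 := by linarith
      field_simp
      ring
    rw [h5] at h7
    have h8 : hit L U (n2 + 2) (-1 / y) := by
      apply hit_succ
      rw [F_L hL]
      exact h7
    exact hit_mono (by omega) h8

/-- (P1): for `x ∈ L`: `τ(x+1) ≤ τ(-1/x)`. -/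
theorem p1 (n : ℕ) : ∀ x : ℝ, x < 0 → x ∈ L → hit L U n (-1 / x) → hit L U n (x + 1) := by
  induction n using Nat.strong_induction_on with
  | _ n ih =>
  intro x hx hL h
  have hpos : 0 < -1 / x := div_pos_of_neg_of_neg (by norm_num) hx
  have hinv : -1 / (-1 / x) = x := by
    have : x ≠ 0 := ne_of_lt hx
    field_simp
  by_cases hU : -1 / x ∈ U
  · rcases lt_trichotomy x (-1) with h2 | h2 | h2
    · -- x < -1
      have hv1 : -1 / x < 1 := by
        rw [show -1 / x = 1 / (-x) by rw [div_neg, neg_div]]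
        rw [div_lt_one (by linarith)]; linarith
      obtain ⟨m, e, h3⟩ := P.slow hpos hv1 hU h
      have e2 : (-1 / x) / (1 - -1 / x) = -1 / (x + 1) := by
        have : x ≠ 0 := ne_of_lt hx
        have : x + 1 ≠ 0 := by linarith
        have h9 : 1 - -1 / x = (x + 1) / x := by field_simp; ring
        rw [h9]
        field_simp
      rw [e2] at h3
      have hw : x + 1 < 0 := by linarith
      by_cases hwL : x + 1 ∈ L
      · have h4 := ih m (by omega) _ hw hwL h3
        have h5 : hit L U (m + 1) (x + 1) := by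
          apply hit_succ; rw [F_L hwL]; exact h4
        exact hit_mono (by omega) h5
      · have h5 : hit L U (m + 1) (x + 1) := by
          apply hit_succ; rw [P.FSneg hw hwL]; exact h3
        exact hit_mono (by omega) h5
    · subst h2
      norm_num
      exact hit_of_zero _
    · -- -1 < x < 0
      have hxh : x < -1 / 2 := P.lt_neg_half hL
      have hx1 : 0 < x + 1 := by linarith
      have hx1U := P.t1 x hL
      have hx1L := P.s2 hx1 hx1U
      have e3 : -1 / (x + 1) + 1 = x / (x + 1) := by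
        have : x + 1 ≠ 0 := ne_of_gt hx1
        field_simp
        ring
      -- v = -1/x - 1
      have hbig : 1 < -1 / x := by
        rw [show -1 / x = 1 / (-x) by rw [div_neg, neg_div]]
        rw [lt_div_iff₀ (by linarith)]; linarith
      obtain ⟨n1, e1, h1⟩ := hit_pred (ne_of_gt hpos) h
      rw [P.FU hpos hU] at h1
      have hv : 0 < -1 / x - 1 := by linarith
      have hv1 : -1 / x - 1 < 1 := by
        have : -1 / x < 2 := by
          rw [show -1 / x = 1 / (-x) by rw [div_neg, neg_div]]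
          rw [div_lt_iff₀ (by linarith)]; linarith
        linarith
      have e4 : -1 / (-1 / x - 1) = x / (x + 1) := by
        have h8 : x ≠ 0 := ne_of_lt hx
        have h9 : x + 1 ≠ 0 := ne_of_gt hx1
        have : -1 / x - 1 = -(x + 1) / x := by field_simp; ring
        rw [this]
        field_simp
      have key : ∀ k, hit L U k (x / (x + 1)) → hit L U (k + 2) (x + 1) := by
        intro k hk
        apply hit_succ
        rw [P.FSpos hx1 hx1U]
        apply hit_succ
        rw [F_L hx1L, e3]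
        exact hk
      by_cases hvU : -1 / x - 1 ∈ U
      · obtain ⟨m, e5, h6⟩ := P.slow hv hv1 hvU h1
        have h7 := P.splus m _ (div_pos hv (by linarith)) h6
        have e6 : -1 / ((-1 / x - 1) / (1 - (-1 / x - 1))) = -1 / (-1 / x - 1) + 1 := by
          have h8 : -1 / x - 1 ≠ 0 := ne_of_gt hv
          have h9 : 1 - (-1 / x - 1) ≠ 0 := by linarith
          generalize -1 / x - 1 = t at h8 h9 ⊢
          field_simp
          ring
        rw [e6, e4] at h7
        have h9 : x / (x + 1) ∈ L := by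
          apply P.lowerL hL
          rw [div_lt_iff₀ hx1]
          nlinarith
        have h10 : hit L U (m + 2) (x / (x + 1)) := by
          apply hit_succ
          rw [F_L h9]
          exact h7
        exact hit_mono (by omega) (key _ h10)
      · obtain ⟨n2, e2, h3⟩ := hit_pred (ne_of_gt hv) h1
        rw [P.FSpos hv hvU, e4] at h3
        exact hit_mono (by omega) (key _ h3)
  · obtain ⟨n1, e1, h1⟩ := hit_pred (ne_of_gt hpos) h
    rw [P.FSpos hpos hU, hinv] at h1
    obtain ⟨n2, e2, h2⟩ := hit_pred (ne_of_lt hx) h1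
    rw [F_L hL] at h2
    exact hit_mono (by omega) h2

end Good

/-- Policy comparison: enlarging `L` and shrinking `U` can only reduce hitting times, if the
larger policy is good. -/
theorem compare {a b a' b' : ℝ} {L U L' U' : Set ℝ} (P : Pol a b L U) (Q : Good a' b' L' U')
    (hL : L ⊆ L') (hU : U' ⊆ U) (n : ℕ) : ∀ x : ℝ, hit L U n x → hit L' U' n x := by
  induction n with
  | zero => intro x h; rw [hit_zero_iff] at h ⊢; exact h
  | succ n ih =>
    intro x h
    by_cases hx : x = 0
    · subst hx; exact hit_of_zero _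
    obtain ⟨m, e, h1⟩ := hit_pred hx h
    have e' : m = n := by omega
    subst e'
    apply hit_succ
    have h2 := ih _ h1
    rcases lt_or_gt_of_ne hx with hneg | hpos
    · by_cases hxL : x ∈ L
      · rw [F_L hxL] at h2; rw [F_L (hL hxL)]; exact h2
      · rw [P.FSneg hneg hxL] at h2
        by_cases hxL' : x ∈ L'
        · rw [F_L hxL']; exact Q.p1 _ x hneg hxL' h2
        · rw [Q.FSneg hneg hxL']; exact h2
    · by_cases hxU : x ∈ U
      · rw [P.FU hpos hxU] at h2
        by_cases hxU' : x ∈ U'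
        · rw [Q.FU hpos hxU']; exact h2
        · rw [Q.FSpos hpos hxU']; exact Q.p2 hpos hxU' h2
      · rw [P.FSpos hpos hxU] at h2
        rw [Q.FSpos hpos (fun h3 => hxU (hU h3))]; exact h2

end basic

end Q66.Ab
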