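import Mathlib
import Pool.Agent.Q66.Ab1

/-!
# Laps of the iterates of a policy map, submultiplicativity
-/

namespace Q66.Ab

open Set Filter Topology

variable {a b : ℝ} {L U : Set ℝ}

/-- points whose orbit meets a cut point before time `n`. -/
def DD (a b : ℝ) (L U : Set ℝ) (n : ℕ) : Set ℝ :=
  {x | ∃ j < n, (F L U)^[j] x = a ∨ (F L U)^[j] x = 0 ∨ (F L U)^[j] x = b}

/-- points whose orbit hits `0` within `n` steps. -/
def ZZ (L U : Set ℝ) (n : ℕ) : Set ℝ := {x | hit L U n x}

theorem DD_zero : DD a b L U 0 = ∅ := by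
  ext x; simp [DD]

theorem mem_DD_succ {n : ℕ} {x : ℝ} :
    x ∈ DD a b L U (n + 1) ↔ (x = a ∨ x = 0 ∨ x = b) ∨ F L U x ∈ DD a b L U n := by
  constructor
  · rintro ⟨j, hj, h⟩
    rcases j with _ | j
    · left; simpa using h
    · right
      refine ⟨j, by omega, ?_⟩
      rw [Function.iterate_succ_apply] at h
      exact h
  · rintro (h | ⟨j, hj, h⟩)
    · exact ⟨0, by omega, by simpa using h⟩
    · refine ⟨j + 1, by omega, ?_⟩
      rw [Function.iterate_succ_apply]
      exact h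

theorem DD_mono {m n : ℕ} (h : m ≤ n) : DD a b L U m ⊆ DD a b L U n := by
  rintro x ⟨j, hj, h2⟩
  exact ⟨j, by omega, h2⟩

theorem DD_add {m n : ℕ} {x : ℝ} (h : x ∈ DD a b L U (m + n)) (h2 : x ∉ DD a b L U m) :
    (F L U)^[m] x ∈ DD a b L U n := by
  obtain ⟨j, hj, h3⟩ := h
  have hmj : m ≤ j := by
    by_contra hc
    exact h2 ⟨j, by omega, h3⟩
  refine ⟨j - m, by omega, ?_⟩
  rw [← Function.iterate_add_apply, Nat.sub_add_cancel hmj]
  exact h3

theorem ZZ_subset_DD (n : ℕ) : ZZ L U n ⊆ DD a b L U (n + 1) := by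
  rintro x ⟨j, hj, h⟩
  exact ⟨j, by omega, Or.inr (Or.inl h)⟩

theorem F_cases (x : ℝ) : F L U x = x + 1 ∨ F L U x = x - 1 ∨ F L U x = -1 / x := by
  unfold F
  split_ifs
  · exact Or.inl rfl
  · exact Or.inr (Or.inl rfl)
  · exact Or.inr (Or.inr rfl)

theorem neg_one_div_invol (x : ℝ) : -1 / (-1 / x) = x := by
  rcases eq_or_ne x 0 with h | h
  · subst h; simp
  · field_simp

theorem preimage_finite {S : Set ℝ} (hS : S.Finite) : {x | F L U x ∈ S}.Finite := by
  have h1 : {x | F L U x ∈ S} ⊆ ((fun x => x - 1) '' S) ∪ ((fun x => x + 1) '' S) ∪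
      ((fun x => -1 / x) '' S) := by
    intro x hx
    have hx' : F L U x ∈ S := hx
    rcases F_cases (L := L) (U := U) x with h | h | h
    · left; left
      exact ⟨x + 1, h ▸ hx', by ring⟩
    · left; right
      exact ⟨x - 1, h ▸ hx', by ring⟩
    · right
      exact ⟨-1 / x, h ▸ hx', neg_one_div_invol x⟩
  exact (((hS.image _).union (hS.image _)).union (hS.image _)).subset h1

theorem DD_finite (n : ℕ) : (DD a b L U n).Finite := by
  induction n with
  | zero => rw [DD_zero]; exact Set.finite_empty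
  | succ n ih =>
    have : DD a b L U (n + 1) ⊆ {a, 0, b} ∪ {x | F L U x ∈ DD a b L U n} := by
      intro x hx
      rw [mem_DD_succ] at hx
      rcases hx with h | h
      · left; simpa using h
      · right; exact h
    exact ((Set.toFinite _).union (preimage_finite ih)).subset this

theorem ZZ_finite (n : ℕ) : (ZZ L U n).Finite :=
  (DD_finite (a := 0) (b := 0) (n + 1)).subset (ZZ_subset_DD n)

theorem ZZ_mono {m n : ℕ} (h : m ≤ n) : ZZ L U m ⊆ ZZ L U n := fun _ hx => hit_mono h hx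

/-- On a compact interval free of cut points the policy map is increasing and continuous. -/
theorem F_lap (P : Pol a b L U) {x y : ℝ}
    (h : ∀ z ∈ Icc x y, ¬ (z = a ∨ z = 0 ∨ z = b)) :
    StrictMonoOn (F L U) (Icc x y) ∧ ContinuousOn (F L U) (Icc x y) := by
  have ha := P.ha
  have hb := P.hb
  have nota : ¬ (x ≤ a ∧ a ≤ y) := fun hc => h a ⟨hc.1, hc.2⟩ (Or.inl rfl)
  have not0 : ¬ (x ≤ 0 ∧ 0 ≤ y) := fun hc => h 0 ⟨hc.1, hc.2⟩ (Or.inr (Or.inl rfl))
  have notb : ¬ (x ≤ b ∧ b ≤ y) := fun hc => h b ⟨hc.1, hc.2⟩ (Or.inr (Or.inr rfl))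
  rcases lt_or_ge y a with h1 | h1
  · have e : EqOn (F L U) (fun z => z + 1) (Icc x y) := fun z hz =>
      F_L (P.l1 z (lt_of_le_of_lt hz.2 h1))
    refine ⟨?_, (continuousOn_id.add continuousOn_const).congr e⟩
    intro z hz w hw hzw
    rw [e hz, e hw]
    simpa using hzw
  have hax : a < x := by
    by_contra hc; exact nota ⟨not_lt.mp hc, h1⟩
  rcases lt_or_ge b x with h2 | h2
  · have e : EqOn (F L U) (fun z => z - 1) (Icc x y) := fun z hz =>
      P.FU (lt_of_le_of_lt hb (lt_of_lt_of_le h2 hz.1)) (P.u1 z (lt_of_lt_of_le h2 hz.1))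
    refine ⟨?_, (continuousOn_id.sub continuousOn_const).congr e⟩
    intro z hz w hw hzw
    rw [e hz, e hw]
    simpa using hzw
  have hyb : y < b := by
    by_contra hc; exact notb ⟨h2, not_lt.mp hc⟩
  have e : EqOn (F L U) (fun z => -1 / z) (Icc x y) := fun z hz => by
    apply F_S
    · intro hc; have := P.l2 z hc; linarith [hz.1]
    · intro hc; have := P.u2 z hc; linarith [hz.2]
  have hne : ∀ z ∈ Icc x y, z ≠ 0 := fun z hz hc => by
    subst hc; exact not0 ⟨hz.1, hz.2⟩
  refine ⟨?_, (continuousOn_const.div continuousOn_id hne).congr e⟩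
  intro z hz w hw hzw
  rw [e hz, e hw]
  have hs : 0 < z * w := by
    rcases lt_or_ge y 0 with h3 | h3
    · exact mul_pos_of_neg_of_neg (lt_of_le_of_lt hz.2 h3) (lt_of_le_of_lt hw.2 h3)
    · have hx0 : 0 < x := by
        by_contra hc; exact not0 ⟨not_lt.mp hc, h3⟩
      exact mul_pos (lt_of_lt_of_le hx0 hz.1) (lt_of_lt_of_le hx0 hw.1)
  have : -1 / w - -1 / z = (w - z) / (z * w) := by
    have := hne z hz
    have := hne w hw
    field_simp
    ring
  have h5 : 0 < (w - z) / (z * w) := div_pos (by linarith) hs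
  show -1 / z < -1 / w
  linarith

theorem lap (P : Pol a b L U) (n : ℕ) : ∀ {x y : ℝ}, x < y →
    (∀ z ∈ Icc x y, z ∉ DD a b L U n) →
    StrictMonoOn (F L U)^[n] (Icc x y) ∧ ContinuousOn (F L U)^[n] (Icc x y) := by
  induction n with
  | zero =>
    intro x y _ _
    exact ⟨strictMonoOn_id, continuousOn_id⟩
  | succ n ih =>
    intro x y hxy h
    have h0 : ∀ z ∈ Icc x y, ¬ (z = a ∨ z = 0 ∨ z = b) := fun z hz hc =>
      h z hz (mem_DD_succ.mpr (Or.inl hc))
    obtain ⟨h1, h2⟩ := F_lap P h0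
    have hx : x ∈ Icc x y := ⟨le_refl _, hxy.le⟩
    have hy : y ∈ Icc x y := ⟨hxy.le, le_refl _⟩
    have h3 : F L U x < F L U y := h1 hx hy hxy
    have h4 : ∀ w ∈ Icc (F L U x) (F L U y), w ∉ DD a b L U n := by
      intro w hw hc
      obtain ⟨z, hz, hzw⟩ := intermediate_value_Icc hxy.le h2 hw
      apply h z hz
      rw [mem_DD_succ]
      right; rw [hzw]; exact hc
    obtain ⟨h5, h6⟩ := ih h3 h4
    have h7 : MapsTo (F L U) (Icc x y) (Icc (F L U x) (F L U y)) := by
      intro z hz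
      exact ⟨h1.monotoneOn hx hz hz.1, h1.monotoneOn hz hy hz.2⟩
    rw [Function.iterate_succ]
    exact ⟨h5.comp h1 h7, h6.comp h2 h7⟩

/-- interleaving bound -/
theorem interleave {S E : Set ℝ} (hE : E.Finite)
    (h : ∀ x ∈ S, ∀ y ∈ S, x < y → ∃ e ∈ E, x < e ∧ e < y) : S.ncard ≤ E.ncard + 1 := by
  classical
  have h1 : ∀ x, (E ∩ Iio x).Finite := fun x => hE.subset inter_subset_left
  have h2 : ∀ x ∈ S, (fun x => (E ∩ Iio x).ncard) x ∈ (Finset.range (E.ncard + 1) : Set ℕ) := by
    intro x _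
    simp only [Finset.coe_range, mem_Iio]
    have := Set.ncard_le_ncard (inter_subset_left : E ∩ Iio x ⊆ E) hE
    omega
  have h3 : InjOn (fun x => (E ∩ Iio x).ncard) S := by
    have key : ∀ x ∈ S, ∀ y ∈ S, x < y → (E ∩ Iio x).ncard < (E ∩ Iio y).ncard := by
      intro x hx y hy hxy
      obtain ⟨e, he, h4, h5⟩ := h x hx y hy hxy
      apply Set.ncard_lt_ncard _ (h1 y)
      rw [Set.ssubset_iff_of_subset]
      · exact ⟨e, ⟨he, h5⟩, fun hc => absurd hc.2 (not_lt.mpr h4.le)⟩
      · exact inter_subset_inter_right _ (Iio_subset_Iio hxy.le)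
    intro x hx y hy hxy
    rcases lt_trichotomy x y with h4 | h4 | h4
    · exact absurd hxy (ne_of_lt (key x hx y hy h4))
    · exact h4
    · exact absurd hxy (ne_of_gt (key y hy x hx h4))
  have h4 := Set.ncard_le_ncard_of_injOn _ h2 h3 (Finset.finite_toSet _)
  rw [Set.ncard_coe_finset, Finset.card_range] at h4
  exact h4

/-- number of laps of `F^n` -/
noncomputable def ell (a b : ℝ) (L U : Set ℝ) (n : ℕ) : ℕ := (DD a b L U n).ncard + 1

theorem ell_zero : ell a b L U 0 = 1 := by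
  unfold ell; rw [DD_zero]; simp

theorem ell_pos (n : ℕ) : 1 ≤ ell a b L U n := by unfold ell; omega

theorem same_lap {m : ℕ} {x y : ℝ} (hxy : x < y) (hx : x ∉ DD a b L U m)
    (hy : y ∉ DD a b L U m)
    (h : (DD a b L U m ∩ Iio x).ncard = (DD a b L U m ∩ Iio y).ncard) :
    ∀ z ∈ Icc x y, z ∉ DD a b L U m := by
  intro z hz hc
  have h1 : x < z := lt_of_le_of_ne hz.1 (fun e => hx (e ▸ hc))
  have h2 : z < y := lt_of_le_of_ne hz.2 (fun e => hy (e ▸ hc))
  have : (DD a b L U m ∩ Iio x).ncard < (DD a b L U m ∩ Iio y).ncard := by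
    apply Set.ncard_lt_ncard _ ((DD_finite m).subset inter_subset_left)
    rw [Set.ssubset_iff_of_subset]
    · exact ⟨z, ⟨hc, h2⟩, fun hc2 => absurd hc2.2 (not_lt.mpr h1.le)⟩
    · exact inter_subset_inter_right _ (Iio_subset_Iio hxy.le)
  omega

theorem ell_mul (P : Pol a b L U) (m n : ℕ) :
    ell a b L U (m + n) ≤ ell a b L U m * ell a b L U n := by
  classical
  set S := DD a b L U (m + n) \ DD a b L U m with hS
  have h0 : (DD a b L U (m + n)).ncard = (DD a b L U m).ncard + S.ncard := by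
    rw [← Set.ncard_union_eq disjoint_sdiff_right (DD_finite m)
      ((DD_finite (m + n)).subset sdiff_subset)]
    rw [union_sdiff_cancel (DD_mono (by omega))]
  have h1 : S.ncard ≤ ((Finset.range ((DD a b L U m).ncard + 1) : Set ℕ) ×ˢ
      DD a b L U n).ncard := by
    refine Set.ncard_le_ncard_of_injOn
      (fun x => (((DD a b L U m) ∩ Iio x).ncard, (F L U)^[m] x)) ?_ ?_
      ((Finset.finite_toSet _).prod (DD_finite n))
    · intro x hx
      refine ⟨?_, DD_add hx.1 hx.2⟩
      simp only [Finset.coe_range, mem_Iio]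
      have := Set.ncard_le_ncard (inter_subset_left : DD a b L U m ∩ Iio x ⊆ DD a b L U m)
        (DD_finite m)
      omega
    · have key : ∀ x ∈ S, ∀ y ∈ S, x < y →
          ((DD a b L U m) ∩ Iio x).ncard = ((DD a b L U m) ∩ Iio y).ncard →
          (F L U)^[m] x ≠ (F L U)^[m] y := by
        intro x hx y hy hxy he
        have h2 := same_lap hxy hx.2 hy.2 he
        have h3 := (lap P m hxy h2).1 ⟨le_refl _, hxy.le⟩ ⟨hxy.le, le_refl _⟩ hxy
        exact ne_of_lt h3
      intro x hx y hy hxy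
      simp only [Prod.mk.injEq] at hxy
      rcases lt_trichotomy x y with h4 | h4 | h4
      · exact absurd hxy.2 (key x hx y hy h4 hxy.1)
      · exact h4
      · exact absurd hxy.2.symm (key y hy x hx h4 hxy.1.symm)
  rw [Set.ncard_prod, Set.ncard_coe_finset, Finset.card_range] at h1
  unfold ell
  rw [h0]
  nlinarith

theorem log_ell_subadd (P : Pol a b L U) :
    Subadditive (fun n => Real.log (ell a b L U n)) := by
  intro m n
  have h1 := ell_pos (a := a) (b := b) (L := L) (U := U) m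
  have h2 := ell_pos (a := a) (b := b) (L := L) (U := U) n
  have h3 := ell_pos (a := a) (b := b) (L := L) (U := U) (m + n)
  rw [← Real.log_mul (by positivity) (by positivity)]
  apply Real.log_le_log (by positivity)
  exact_mod_cast ell_mul P m n

theorem log_ell_bdd :
    BddBelow (range fun n : ℕ => Real.log (ell a b L U n) / n) := by
  refine ⟨0, ?_⟩
  rintro _ ⟨n, rfl⟩
  have h1 := ell_pos (a := a) (b := b) (L := L) (U := U) n
  exact div_nonneg (Real.log_nonneg (by exact_mod_cast h1)) (Nat.cast_nonneg _)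

/-- The entropy of a policy. -/
noncomputable def ent (a b : ℝ) (L U : Set ℝ) (P : Pol a b L U) : ℝ := (log_ell_subadd P).lim

theorem ent_tendsto (P : Pol a b L U) :
    Tendsto (fun n : ℕ => Real.log (ell a b L U n) / n) atTop (𝓝 (ent a b L U P)) :=
  (log_ell_subadd P).tendsto_lim log_ell_bdd

theorem ent_le (P : Pol a b L U) {n : ℕ} (hn : n ≠ 0) :
    ent a b L U P ≤ Real.log (ell a b L U n) / n :=
  (log_ell_subadd P).lim_le_div log_ell_bdd hn

theorem ent_nonneg (P : Pol a b L U) : 0 ≤ ent a b L U P := by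
  apply ge_of_tendsto' (ent_tendsto P)
  intro n
  have h1 := ell_pos (a := a) (b := b) (L := L) (U := U) n
  exact div_nonneg (Real.log_nonneg (by exact_mod_cast h1)) (Nat.cast_nonneg _)

end Q66.Ab
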