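import Mathlib
import Pool.Agent.Q66.Ab2

/-!
# Rational points hit zero; hitting points of zero and laps grow at the same rate
-/

namespace Q66.Ab

open Set Filter Topology

variable {a b : ℝ} {L U : Set ℝ}

/-- reflection of a set -/
def mir (S : Set ℝ) : Set ℝ := {x | -x ∈ S}

theorem Pol.mirror (P : Pol a b L U) : Pol (-b) (-a) (mir U) (mir L) where
  ha := by have := P.hb; linarith
  hb := by have := P.ha; linarith
  l1 x hx := P.u1 (-x) (by linarith)
  l2 x hx := by have := P.u2 (-x) hx; linarith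
  u1 x hx := P.l1 (-x) (by linarith)
  u2 x hx := by have := P.l2 (-x) hx; linarith
  t1 x hx := by
    show ¬ (-(x + 1) ∈ L)
    rw [show -(x + 1) = -x - 1 by ring]
    exact P.t2 hx
  s1 x hx h2 := by
    show -(-1 / x) ∈ L
    have h3 := P.s2 (show 0 < -x by linarith) h2
    rw [show -(-1 / x) = -1 / -x by rw [div_neg]]
    exact h3

theorem F_mirror (P : Pol a b L U) (x : ℝ) : F (mir U) (mir L) (-x) = -F L U x := by
  have hm1 : (-x ∈ mir U) ↔ x ∈ U := by unfold mir; simp
  have hm2 : (-x ∈ mir L) ↔ x ∈ L := by unfold mir; simp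
  by_cases h1 : x ∈ L
  · have h2 : x ∉ U := P.disj h1
    rw [F_L h1, F_U (fun h => h2 (hm1.mp h)) (hm2.mpr h1)]
    ring
  · by_cases h2 : x ∈ U
    · rw [F_U h1 h2, F_L (hm1.mpr h2)]
      ring
    · rw [F_S h1 h2, F_S (fun h => h2 (hm1.mp h)) (fun h => h1 (hm2.mp h)), div_neg]

theorem hit_mirror (P : Pol a b L U) (n : ℕ) : ∀ x : ℝ,
    hit (mir U) (mir L) n (-x) ↔ hit L U n x := by
  induction n with
  | zero => intro x; rw [hit_zero_iff, hit_zero_iff, neg_eq_zero]
  | succ n ih => intro x; rw [hit_succ_iff, hit_succ_iff, F_mirror P, ih, neg_eq_zero]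

/-- Every positive rational point with numerator plus denominator at most `N` reaches zero,
assuming the same for all points with smaller value (of either sign). -/
theorem hit_rat_pos (P : Pol a b L U) {N : ℕ}
    (ih : ∀ (p : ℤ) (q : ℕ), 0 < q → p.natAbs + q < N → ∃ n, hit L U n ((p : ℝ) / q))
    (p q : ℕ) (hp : 0 < p) (hq : 0 < q) (hN : p + q = N) :
    ∃ n, hit L U n ((p : ℝ) / q) := by
  have hp' : (0 : ℝ) < p := by exact_mod_cast hp
  have hq' : (0 : ℝ) < q := by exact_mod_cast hq
  have hx : (0 : ℝ) < (p : ℝ) / q := div_pos hp' hq'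
  by_cases hU : (p : ℝ) / q ∈ U
  · rcases le_or_gt q p with h1 | h1
    · obtain ⟨n, hn⟩ := ih ((p : ℤ) - q) q hq (by omega)
      refine ⟨n + 1, hit_succ ?_⟩
      rw [P.FU hx hU]
      have : (p : ℝ) / q - 1 = (((p : ℤ) - q : ℤ) : ℝ) / q := by
        push_cast
        field_simp
      rw [this]; exact hn
    · have h1' : (p : ℝ) < q := by exact_mod_cast h1
      obtain ⟨n, hn⟩ := ih (p : ℤ) (q - p) (by omega) (by omega)
      have e1 : (p : ℝ) / q - 1 < 0 := by
        have : (p : ℝ) / q < 1 := by rw [div_lt_one hq']; exact h1'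
        linarith
      have e2 : -1 / ((p : ℝ) / q - 1) = q / (q - p) := by
        have : (q : ℝ) - p ≠ 0 := by linarith
        have : (p : ℝ) - q ≠ 0 := by linarith
        have : (p : ℝ) / q - 1 = (p - q) / q := by field_simp
        rw [this]
        field_simp
        ring
      have e3 : (p : ℝ) / q < q / (q - p) := by
        rw [div_lt_div_iff₀ hq' (by linarith)]
        nlinarith
      refine ⟨n + 3, hit_succ (hit_succ (hit_succ ?_))⟩
      rw [P.FU hx hU, P.FSneg e1 (P.t2 hU), e2, P.FU (lt_trans hx e3) (P.upperU hU e3)]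
      have e4 : (q : ℝ) / (q - p) - 1 = ((p : ℤ) : ℝ) / ((q - p : ℕ) : ℝ) := by
        rw [Nat.cast_sub h1.le]
        push_cast
        have : (q : ℝ) - p ≠ 0 := by linarith
        field_simp
        ring
      rw [e4]; exact hn
  · have hL := P.s2 hx hU
    have e1 : -1 / ((p : ℝ) / q) + 1 = (p - q) / p := by
      field_simp
      ring
    rcases le_or_gt p q with h1 | h1
    · obtain ⟨n, hn⟩ := ih ((p : ℤ) - q) p hp (by omega)
      refine ⟨n + 2, hit_succ (hit_succ ?_)⟩
      rw [P.FSpos hx hU, F_L hL, e1]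
      have : ((p : ℝ) - q) / p = (((p : ℤ) - q : ℤ) : ℝ) / p := by push_cast; ring
      rw [this]; exact hn
    · have h1' : (q : ℝ) < p := by exact_mod_cast h1
      obtain ⟨n, hn⟩ := ih (-(q : ℤ)) (p - q) (by omega) (by omega)
      have hy : 0 < -1 / ((p : ℝ) / q) + 1 := by
        rw [e1]; exact div_pos (by linarith) hp'
      have hyU := P.t1 _ hL
      refine ⟨n + 4, hit_succ (hit_succ (hit_succ (hit_succ ?_)))⟩
      rw [P.FSpos hx hU, F_L hL, P.FSpos hy hyU, F_L (P.s2 hy hyU), e1]
      have : -1 / (((p : ℝ) - q) / p) + 1 = ((-(q : ℤ) : ℤ) : ℝ) / ((p - q : ℕ) : ℝ) := by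
        rw [Nat.cast_sub h1.le]
        push_cast
        have : (p : ℝ) - q ≠ 0 := by linarith
        field_simp
        ring
      rw [this]; exact hn

theorem hit_rat_aux (N : ℕ) : ∀ {a b : ℝ} {L U : Set ℝ}, Pol a b L U →
    ∀ (p : ℤ) (q : ℕ), 0 < q → p.natAbs + q < N → ∃ n, hit L U n ((p : ℝ) / q) := by
  induction N with
  | zero => intro a b L U P p q hq h; omega
  | succ N ih =>
    intro a b L U P p q hq h
    rcases lt_trichotomy p 0 with hp | hp | hp
    · have h1 := hit_rat_pos (N := p.natAbs + q) P.mirror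
        (fun p' q' hq' h' => ih P.mirror p' q' hq' (by omega)) p.natAbs q (by omega) hq rfl
      obtain ⟨n, hn⟩ := h1
      refine ⟨n, ?_⟩
      rw [← hit_mirror P]
      have : (p.natAbs : ℝ) = -(p : ℝ) := by
        rw [Nat.cast_natAbs, abs_of_neg hp]; push_cast; ring
      rw [this, neg_div] at hn
      exact hn
    · subst hp
      exact ⟨0, by rw [hit_zero_iff]; simp⟩
    · have h1 := hit_rat_pos (N := p.natAbs + q) P
        (fun p' q' hq' h' => ih P p' q' hq' (by omega)) p.natAbs q (by omega) hq rfl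
      obtain ⟨n, hn⟩ := h1
      refine ⟨n, ?_⟩
      have : (p.natAbs : ℝ) = (p : ℝ) := by
        rw [Nat.cast_natAbs, abs_of_pos hp]
      rw [this] at hn
      exact hn

theorem hit_rat (P : Pol a b L U) (x : ℚ) : ∃ n, hit L U n (x : ℝ) := by
  obtain ⟨n, hn⟩ := hit_rat_aux (x.num.natAbs + x.den + 1) P x.num x.den x.den_pos (by omega)
  refine ⟨n, ?_⟩
  rw [Rat.cast_def]
  exact hn

theorem hit_btwn (P : Pol a b L U) {u v : ℝ} (h : u < v) : ∃ n q, u < q ∧ q < v ∧ hit L U n q := by
  obtain ⟨q, h1, h2⟩ := exists_rat_btwn h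
  obtain ⟨n, hn⟩ := hit_rat P q
  exact ⟨n, q, h1, h2, hn⟩

theorem exists_unif (P : Pol a b L U) {S : Set ℝ} (hS : S.Finite) :
    ∃ m, ∀ u ∈ S, ∀ v ∈ S, u < v → ∃ q, u < q ∧ q < v ∧ hit L U m q := by
  classical
  have h1 : ∀ p : ℝ × ℝ, ∃ n : ℕ, p.1 < p.2 → ∃ q, p.1 < q ∧ q < p.2 ∧ hit L U n q := by
    intro p
    by_cases h : p.1 < p.2
    · obtain ⟨n, q, h2⟩ := hit_btwn P h
      exact ⟨n, fun _ => ⟨q, h2⟩⟩
    · exact ⟨0, fun h2 => absurd h2 h⟩
  choose f hf using h1
  obtain ⟨m, hm⟩ := ((hS.prod hS).image f).bddAbove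
  refine ⟨m, fun u hu v hv huv => ?_⟩
  obtain ⟨q, h2, h3, h4⟩ := hf (u, v) huv
  exact ⟨q, h2, h3, hit_mono (hm ⟨(u, v), ⟨hu, hv⟩, rfl⟩) h4⟩

/-- number of points hitting zero within `n` steps -/
noncomputable def zz (L U : Set ℝ) (n : ℕ) : ℕ := (ZZ L U n).ncard

theorem zz_mono {m n : ℕ} (h : m ≤ n) : zz L U m ≤ zz L U n :=
  Set.ncard_le_ncard (ZZ_mono h) (ZZ_finite n)

theorem one_le_zz (n : ℕ) : 1 ≤ zz L U n := by
  have : 0 < (ZZ L U n).ncard := by
    rw [Set.ncard_pos (ZZ_finite n)]
    exact ⟨0, hit_of_zero n⟩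
  exact this

theorem zz_le_ell (n : ℕ) : zz L U n ≤ ell a b L U (n + 1) := by
  have := Set.ncard_le_ncard (ZZ_subset_DD (a := a) (b := b) (L := L) (U := U) n)
    (DD_finite (n + 1))
  unfold zz ell
  omega

theorem hit_of_iterate {n m : ℕ} {x : ℝ} (h : hit L U m ((F L U)^[n] x)) :
    hit L U (n + m) x := by
  obtain ⟨j, hj, h2⟩ := h
  refine ⟨j + n, by omega, ?_⟩
  rw [Function.iterate_add_apply]
  exact h2

theorem ell_step (P : Pol a b L U) (t : ℕ) :
    ∃ m, ∀ n, ell a b L U (n + t) ≤ 2 * ell a b L U n + zz L U (n + m) := by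
  obtain ⟨m, hm⟩ := exists_unif P (DD_finite (a := a) (b := b) (L := L) (U := U) t)
  refine ⟨m, fun n => ?_⟩
  have h1 : (DD a b L U (n + t) \ DD a b L U n).ncard ≤
      (DD a b L U n ∪ ZZ L U (n + m)).ncard + 1 := by
    apply interleave ((DD_finite n).union (ZZ_finite _))
    intro x hx y hy hxy
    by_cases hc : ∃ z ∈ Icc x y, z ∈ DD a b L U n
    · obtain ⟨z, hz, hz2⟩ := hc
      refine ⟨z, Or.inl hz2, ?_, ?_⟩
      · exact lt_of_le_of_ne hz.1 (fun e => hx.2 (e ▸ hz2))
      · exact lt_of_le_of_ne hz.2 (fun e => hy.2 (e ▸ hz2))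
    · push Not at hc
      obtain ⟨h2, h3⟩ := lap P n hxy hc
      have h4 := h2 ⟨le_refl _, hxy.le⟩ ⟨hxy.le, le_refl _⟩ hxy
      obtain ⟨q, h5, h6, h7⟩ := hm _ (DD_add hx.1 hx.2) _ (DD_add hy.1 hy.2) h4
      obtain ⟨z, hz, hzq⟩ := intermediate_value_Icc hxy.le h3 ⟨h5.le, h6.le⟩
      refine ⟨z, Or.inr ?_, ?_, ?_⟩
      · apply hit_of_iterate
        rw [hzq]; exact h7
      · apply lt_of_le_of_ne hz.1
        intro e
        rw [← e] at hzq
        linarith
      · apply lt_of_le_of_ne hz.2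
        intro e
        rw [e] at hzq
        linarith
  have h2 : (DD a b L U (n + t)).ncard ≤
      (DD a b L U n).ncard + (DD a b L U (n + t) \ DD a b L U n).ncard := by
    have : DD a b L U (n + t) = DD a b L U n ∪ (DD a b L U (n + t) \ DD a b L U n) := by
      rw [union_sdiff_cancel (DD_mono (by omega))]
    calc (DD a b L U (n + t)).ncard
        = (DD a b L U n ∪ (DD a b L U (n + t) \ DD a b L U n)).ncard := by rw [← this]
      _ ≤ _ := Set.ncard_union_le _ _
  have h3 := Set.ncard_union_le (DD a b L U n) (ZZ L U (n + m))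
  unfold ell zz
  omega

theorem ell_pow (P : Pol a b L U) (t : ℕ) :
    ∃ m, ∀ k, ell a b L U (k * t) ≤ 2 ^ k * (1 + zz L U (k * t + m)) := by
  obtain ⟨m, hm⟩ := ell_step P t
  refine ⟨m, fun k => ?_⟩
  have key : ∀ j ≤ k, ell a b L U (j * t) + zz L U (k * t + m) ≤
      2 ^ j * (1 + zz L U (k * t + m)) := by
    intro j
    induction j with
    | zero => intro _; simp [ell_zero]
    | succ j ih =>
      intro hj
      have h1 := ih (by omega)
      have h2 := hm (j * t)
      have h3 : zz L U (j * t + m) ≤ zz L U (k * t + m) := by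
        apply zz_mono
        have : j * t ≤ k * t := Nat.mul_le_mul_right _ (by omega)
        omega
      have h4 : (j + 1) * t = j * t + t := by ring
      rw [h4, pow_succ]
      nlinarith
  have := key k (le_refl _)
  omega

theorem exp_ent_le (P : Pol a b L U) (n : ℕ) :
    Real.exp (ent a b L U P * n) ≤ ell a b L U n := by
  have h0 : (0 : ℝ) < ell a b L U n := by
    have := ell_pos (a := a) (b := b) (L := L) (U := U) n
    exact_mod_cast this
  rcases Nat.eq_zero_or_pos n with h | h
  · subst h; rw [ell_zero]; simp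
  · rw [← Real.le_log_iff_exp_le h0]
    have := ent_le P (n := n) (by omega)
    rwa [le_div_iff₀ (by exact_mod_cast h)] at this

/-- lower bound for the hitting counts -/
theorem log_zz_lower (P : Pol a b L U) {ε : ℝ} (hε : 0 < ε) :
    ∀ᶠ n : ℕ in atTop, (ent a b L U P - ε) * n ≤ Real.log (zz L U n) := by
  set h := ent a b L U P with hh
  have hh0 : 0 ≤ h := ent_nonneg P
  -- choose t
  obtain ⟨t, ht⟩ := exists_nat_gt (2 * Real.log 2 / ε)
  have hlog2 : 0 < Real.log 2 := Real.log_pos (by norm_num)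
  have ht0 : (0 : ℝ) < t := lt_trans (by positivity) ht
  have ht1 : Real.log 2 / t < ε / 2 := by
    rw [div_lt_iff₀ ht0]
    rw [div_lt_iff₀ hε] at ht
    linarith
  have htN : 0 < t := by exact_mod_cast ht0
  obtain ⟨m, hm⟩ := ell_pow P t
  set c := h - Real.log 2 / t with hc
  have hzpos : ∀ n, 0 ≤ Real.log (zz L U n) := fun n =>
    Real.log_nonneg (by exact_mod_cast one_le_zz n)
  rcases le_or_gt c 0 with hc0 | hc0
  · filter_upwards with n
    apply le_trans _ (hzpos n)
    have : h - ε ≤ 0 := by linarith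
    exact mul_nonpos_of_nonpos_of_nonneg this (Nat.cast_nonneg n)
  · obtain ⟨N, hN⟩ := exists_nat_gt (((m + t) * c + Real.log 2) / (ε / 2))
    rw [div_lt_iff₀ (by positivity)] at hN
    filter_upwards [eventually_ge_atTop (max N m)] with n hn
    have hnN : N ≤ n := le_trans (le_max_left _ _) hn
    have hnm : m ≤ n := le_trans (le_max_right _ _) hn
    set k := (n - m) / t with hk
    have hk1 : k * t + m ≤ n := by
      have h3 : k * t ≤ n - m := Nat.div_mul_le_self (n - m) t
      omega
    have hk2 : n < k * t + m + t := by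
      have h3 : n - m < k * t + t := Nat.lt_div_mul_add (a := n - m) htN
      omega
    have h1 := hm k
    have h2 := exp_ent_le P (k * t)
    rw [← hh] at h2
    have h3 : (zz L U (k * t + m) : ℝ) ≤ zz L U n := by exact_mod_cast zz_mono hk1
    have h4 : (1 : ℝ) ≤ zz L U n := by exact_mod_cast one_le_zz n
    have h5 : Real.exp (h * (k * t : ℕ)) ≤ 2 ^ (k + 1) * zz L U n := by
      calc Real.exp (h * (k * t : ℕ)) ≤ (ell a b L U (k * t) : ℝ) := h2
        _ ≤ 2 ^ k * (1 + zz L U (k * t + m)) := by exact_mod_cast h1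
        _ ≤ 2 ^ k * (2 * zz L U n) := by
            apply mul_le_mul_of_nonneg_left _ (by positivity)
            linarith
        _ = 2 ^ (k + 1) * zz L U n := by ring
    have h6 : h * (k * t : ℕ) ≤ (k + 1) * Real.log 2 + Real.log (zz L U n) := by
      have h7 := Real.log_le_log (Real.exp_pos _) h5
      rw [Real.log_exp, Real.log_mul (by positivity) (by positivity), Real.log_pow] at h7
      push_cast at h7 ⊢
      exact h7
    push_cast at h6
    have h8 : (n : ℝ) < k * t + m + t := by exact_mod_cast hk2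
    have h9 : (k : ℝ) * Real.log 2 = (k * t) * (Real.log 2 / t) := by
      field_simp
    have h10 : (k * t : ℝ) * c ≤ Real.log 2 + Real.log (zz L U n) := by
      rw [hc, mul_sub]
      linarith
    have h11 : ((n : ℝ) - m - t) * c ≤ (k * t : ℝ) * c := by
      apply mul_le_mul_of_nonneg_right _ hc0.le
      linarith
    have h12 : (N : ℝ) ≤ n := by exact_mod_cast hnN
    have h13 : (N : ℝ) * (ε / 2) ≤ n * (ε / 2) := by
      apply mul_le_mul_of_nonneg_right h12 (by positivity)
    have h14 : (h - ε) * n = n * c - n * (ε - Real.log 2 / t) := by rw [hc]; ring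
    have h15 : (n : ℝ) * (ε / 2) ≤ n * (ε - Real.log 2 / t) := by
      apply mul_le_mul_of_nonneg_left _ (Nat.cast_nonneg n)
      linarith
    nlinarith

/-! ### Limits -/

theorem tendsto_shift {f : ℕ → ℝ} {h : ℝ} (c : ℕ)
    (hf : Tendsto (fun n : ℕ => f n / n) atTop (𝓝 h)) :
    Tendsto (fun n : ℕ => f (n + c) / n) atTop (𝓝 h) := by
  have h1 : Tendsto (fun n : ℕ => f (n + c) / ((n + c : ℕ) : ℝ)) atTop (𝓝 h) :=
    hf.comp (tendsto_add_atTop_nat c)
  have h2 : Tendsto (fun n : ℕ => ((n + c : ℕ) : ℝ) / n) atTop (𝓝 1) := by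
    have h3 : Tendsto (fun n : ℕ => 1 + (c : ℝ) / n) atTop (𝓝 (1 + 0)) :=
      tendsto_const_nhds.add (tendsto_const_div_atTop_nhds_zero_nat (c : ℝ))
    rw [add_zero] at h3
    apply h3.congr'
    filter_upwards [eventually_gt_atTop 0] with n hn
    have : (n : ℝ) ≠ 0 := by positivity
    push_cast
    field_simp
  have h3 := h1.mul h2
  rw [mul_one] at h3
  apply h3.congr'
  filter_upwards [eventually_gt_atTop 0] with n hn
  have h4 : (n : ℝ) ≠ 0 := by positivity
  have h5 : ((n + c : ℕ) : ℝ) ≠ 0 := by positivity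
  field_simp

/-- Any sequence squeezed between the hitting counts and the lap counts, up to a shift and a
constant, has the same growth rate. -/
theorem tendsto_squeeze (P : Pol a b L U) {u : ℕ → ℕ} (c C : ℕ) (hC : 0 < C)
    (h1 : ∀ n, zz L U n ≤ C * u (n + c)) (h2 : ∀ n, u n ≤ C * ell a b L U (n + c)) :
    Tendsto (fun n : ℕ => Real.log (u n) / n) atTop (𝓝 (ent a b L U P)) := by
  have hu : ∀ n, 1 ≤ u (n + c) := by
    intro n
    have h3 := h1 n
    have h4 := one_le_zz (L := L) (U := U) n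
    by_contra hc
    have h5 : u (n + c) = 0 := by omega
    rw [h5, mul_zero] at h3
    omega
  have hup : Tendsto (fun n : ℕ => (Real.log C + Real.log (ell a b L U (n + c))) / n) atTop
      (𝓝 (ent a b L U P)) := by
    have h3 := (tendsto_const_div_atTop_nhds_zero_nat (Real.log C)).add
      (tendsto_shift c (ent_tendsto P))
    rw [zero_add] at h3
    apply h3.congr
    intro n
    rw [add_div]
  rw [Metric.tendsto_atTop]
  intro ε hε
  have hlow := log_zz_lower P (show 0 < ε / 4 by linarith)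
  rw [Metric.tendsto_atTop] at hup
  obtain ⟨N1, hN1⟩ := hup (ε / 2) (by linarith)
  rw [eventually_atTop] at hlow
  obtain ⟨N2, hN2⟩ := hlow
  obtain ⟨N3, hN3⟩ := exists_nat_gt ((Real.log C + (ent a b L U P) * c) / (ε / 4))
  rw [div_lt_iff₀ (by positivity)] at hN3
  refine ⟨max (max N1 (N2 + c)) (max N3 (c + 1)), fun n hn => ?_⟩
  have hn1 : N1 ≤ n := by omega
  have hn2 : N2 + c ≤ n := by omega
  have hn3 : N3 ≤ n := by omega
  have hn4 : c + 1 ≤ n := by omega
  have hn0 : (0 : ℝ) < n := by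
    have : 0 < n := by omega
    exact_mod_cast this
  have hlogC : 0 ≤ Real.log C := Real.log_nonneg (by exact_mod_cast hC)
  obtain ⟨i, hi⟩ : ∃ i, n = i + c := ⟨n - c, by omega⟩
  have hui : 1 ≤ u n := by rw [hi]; exact hu i
  have hui' : (1 : ℝ) ≤ u n := by exact_mod_cast hui
  rw [Real.dist_eq, abs_lt]
  constructor
  · -- lower
    have h5 := hN2 i (by omega)
    have h6 : Real.log (zz L U i) ≤ Real.log C + Real.log (u n) := by
      rw [← Real.log_mul (by positivity) (by positivity)]
      apply Real.log_le_log (by exact_mod_cast one_le_zz i)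
      rw [hi]; exact_mod_cast h1 i
    have h7 : (i : ℝ) = n - c := by rw [hi]; push_cast; ring
    rw [h7] at h5
    have h8 : (N3 : ℝ) ≤ n := by exact_mod_cast hn3
    have h10 := ent_nonneg P
    have h9 : (ent a b L U P - ε / 2) * n ≤ Real.log (u n) := by
      have hc0 : (0 : ℝ) ≤ c := Nat.cast_nonneg c
      nlinarith
    have h11 : ent a b L U P - ε / 2 ≤ Real.log (u n) / n := by
      rw [le_div_iff₀ hn0]; exact h9
    linarith
  · have h5 := hN1 n hn1
    rw [Real.dist_eq, abs_lt] at h5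
    have h6 : Real.log (u n) ≤ Real.log C + Real.log (ell a b L U (n + c)) := by
      have := ell_pos (a := a) (b := b) (L := L) (U := U) (n + c)
      rw [← Real.log_mul (by positivity) (by positivity)]
      apply Real.log_le_log (by linarith)
      exact_mod_cast h2 n
    have h7 : Real.log (u n) / n ≤ (Real.log C + Real.log (ell a b L U (n + c))) / n :=
      div_le_div_of_nonneg_right h6 hn0.le
    linarith [h5.2]

theorem zz_tendsto (P : Pol a b L U) :
    Tendsto (fun n : ℕ => Real.log (zz L U n) / n) atTop (𝓝 (ent a b L U P)) :=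
  tendsto_squeeze P 1 1 one_pos (fun n => by rw [one_mul]; exact zz_mono (by omega))
    (fun n => by rw [one_mul]; exact zz_le_ell n)

/-- monotonicity of entropy from inclusion of hitting sets -/
theorem ent_le_of_zz {a b a' b' : ℝ} {L U L' U' : Set ℝ} (P : Pol a b L U)
    (Q : Pol a' b' L' U') (c C : ℕ) (hC : 0 < C) (h : ∀ n, zz L U n ≤ C * zz L' U' (n + c)) :
    ent a b L U P ≤ ent a' b' L' U' Q := by
  have h1 := zz_tendsto P
  have h2 : Tendsto (fun n : ℕ => (Real.log C + Real.log (zz L' U' (n + c))) / n) atTop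
      (𝓝 (ent a' b' L' U' Q)) := by
    have h3 := (tendsto_const_div_atTop_nhds_zero_nat (Real.log C)).add
      (tendsto_shift c (zz_tendsto Q))
    rw [zero_add] at h3
    apply h3.congr
    intro n
    rw [add_div]
  apply le_of_tendsto_of_tendsto' h1 h2
  intro n
  apply div_le_div_of_nonneg_right _ (Nat.cast_nonneg n)
  have h4 := one_le_zz (L := L) (U := U) n
  have h5 := one_le_zz (L := L') (U := U') (n + c)
  rw [← Real.log_mul (by positivity) (by positivity)]
  apply Real.log_le_log (by positivity)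
  exact_mod_cast h n

theorem zz_mirror (P : Pol a b L U) (n : ℕ) : zz (mir U) (mir L) n = zz L U n := by
  unfold zz
  have : ZZ (mir U) (mir L) n = (fun x : ℝ => -x) '' ZZ L U n := by
    ext x
    constructor
    · intro hx
      refine ⟨-x, ?_, by simp⟩
      have hx' : hit (mir U) (mir L) n x := hx
      rw [← neg_neg x, hit_mirror P] at hx'
      exact hx'
    · rintro ⟨y, hy, rfl⟩
      exact (hit_mirror P n y).mpr hy
  rw [this, Set.ncard_image_of_injective _ neg_injective]

theorem ent_mirror (P : Pol a b L U) : ent (-b) (-a) (mir U) (mir L) P.mirror = ent a b L U P := by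
  apply tendsto_nhds_unique (zz_tendsto P.mirror)
  simp_rw [zz_mirror P]
  exact zz_tendsto P

end Q66.Ab
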