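import Mathlib

/-!
# (a,b)-continued fraction maps: definitions

The parameter set `𝒫`, the slow map `f_{a,b}`, the interval map `k ∘ f_{a,b} ∘ k⁻¹` of `[-1,1]`
and the two notions of laps used in the literature.
-/

namespace Q66.Ab

open Filter Topology

/-- The parameter set `𝒫 = {(a,b) : a ≤ 0 ≤ b, b - a ≥ 1, -ab ≤ 1}`. -/
def InP (a b : ℝ) : Prop := a ≤ 0 ∧ 0 ≤ b ∧ 1 ≤ b - a ∧ -(a * b) ≤ 1

/-- `k(x) = x/(1+|x|)`, a homeomorphism from `ℝ` onto `(-1,1)`; `∞` corresponds to `±1`. -/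
noncomputable def kk (x : ℝ) : ℝ := x / (1 + |x|)

/-- The inverse `y/(1-|y|)` of `k` on `(-1,1)`. -/
noncomputable def kinv (y : ℝ) : ℝ := y / (1 - |y|)

/-- The slow `(a,b)`-continued fraction map. -/
noncomputable def fab (a b x : ℝ) : ℝ :=
  if x < a then x + 1 else if x < b then -1 / x else x - 1

/-- The interval map `k ∘ f_{a,b} ∘ k⁻¹` of `[-1,1]`. The two end points stand for `∞`, which is
fixed. For `0 < b` one has `f_{a,b}(0) = -1/0 = ∞`, which may be read as `-1` or `1`; the value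
chosen at this single point is the parameter `e`. -/
noncomputable def ftil (e a b y : ℝ) : ℝ :=
  if y ≤ -1 then -1 else if 1 ≤ y then 1
  else if y = 0 ∧ 0 < b then e
  else kk (fab a b (kinv y))

/-- A lap of `g : [-1,1] → [-1,1]`: a maximal interval on which `g` is monotone. -/
def IsLap (g : ℝ → ℝ) (J : Set ℝ) : Prop :=
  Maximal (fun I : Set ℝ => I ⊆ Set.Icc (-1) 1 ∧ I.OrdConnected ∧
    (MonotoneOn g I ∨ AntitoneOn g I)) J

/-- `h = lim (1/n) log #(laps of g^n)`: all the iterates have finitely many laps and the limit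
exists and equals `h`. -/
def HasTopEntropy (g : ℝ → ℝ) (h : ℝ) : Prop :=
  (∀ n : ℕ, {J | IsLap (g^[n]) J}.Finite) ∧
  Tendsto (fun n : ℕ => Real.log ({J | IsLap (g^[n]) J}.ncard : ℝ) / n) atTop (𝓝 h)

/-- The set `D_n` of the points of `(-1,1)` whose orbit meets `k(a)`, `0` or `k(b)` at some
time `j < n`. -/
def Dset (e a b : ℝ) (n : ℕ) : Set ℝ :=
  {y | y ∈ Set.Ioo (-1 : ℝ) 1 ∧
    ∃ j < n, (ftil e a b)^[j] y = kk a ∨ (ftil e a b)^[j] y = 0 ∨ (ftil e a b)^[j] y = kk b}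

/-- The connected components of `(-1,1) ∖ D_n`: maximal intervals of continuity and
monotonicity of the `n`-th iterate. -/
def contLaps (e a b : ℝ) (n : ℕ) : Set (Set ℝ) :=
  {C | ∃ y ∈ Set.Ioo (-1 : ℝ) 1 \ Dset e a b n,
    C = connectedComponentIn (Set.Ioo (-1 : ℝ) 1 \ Dset e a b n) y}

/-- `h = lim (1/n) log ℓ_n`, where `ℓ_n` is the number of connected components of
`(-1,1) ∖ D_n`. -/
def HasContLapEntropy (e a b h : ℝ) : Prop :=
  (∀ n : ℕ, (contLaps e a b n).Finite) ∧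
  Tendsto (fun n : ℕ => Real.log ((contLaps e a b n).ncard : ℝ) / n) atTop (𝓝 h)

end Q66.Ab
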