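import Mathlib
import Pool.Agent.Q66.AbDefs
import Pool.Agent.Q66.Ab3

/-!
# The interval map of an `(a,b)`-continued fraction and its policy
-/

namespace Q66.Ab

open Set Filter Topology

variable {a b e : ℝ}

theorem fab_eq (a b x : ℝ) : fab a b x = F (Iio a) (Ici b) x := by
  unfold fab F
  by_cases h1 : x < a
  · rw [if_pos h1, if_pos (show x ∈ Iio a from h1)]
  · rw [if_neg h1, if_neg (show x ∉ Iio a from h1)]
    by_cases h2 : x < b
    · rw [if_pos h2, if_neg (show x ∉ Ici b from not_le.mpr h2)]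
    · rw [if_neg h2, if_pos (show x ∈ Ici b from not_lt.mp h2)]

theorem InP.pol (h : InP a b) : Pol a b (Iio a) (Ici b) where
  ha := h.1
  hb := h.2.1
  l1 x hx := hx
  l2 x hx := le_of_lt hx
  u1 x hx := le_of_lt hx
  u2 x hx := hx
  t1 x hx := by
    have h1 := h.2.2.1
    have h2 : x < a := hx
    simp only [mem_Ici, not_le]
    linarith
  s1 x hx h2 := by
    have h3 : a ≤ x := not_lt.mp h2
    have h4 := h.2.1
    have h5 := h.2.2.2
    simp only [mem_Ici]
    rw [le_div_iff_of_neg hx]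
    nlinarith

theorem InP.good (h : InP a b) (h1 : b ≤ 1) (h2 : a ≤ -1 / 2) : Good a b (Iio a) (Ici b) :=
  { h.pol with
    g1 := h1
    g2 := by simpa using h2 }

/-! ### The homeomorphism `k` -/

theorem kk_zero : kk 0 = 0 := by unfold kk; simp

theorem kinv_kk (x : ℝ) : kinv (kk x) = x := by
  unfold kinv kk
  have h : 0 < 1 + |x| := by positivity
  rw [abs_div, abs_of_pos h]
  have : 1 - |x| / (1 + |x|) = 1 / (1 + |x|) := by field_simp; ring
  rw [this]
  field_simp

theorem abs_kk_lt (x : ℝ) : |kk x| < 1 := by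
  unfold kk
  have h : 0 < 1 + |x| := by positivity
  rw [abs_div, abs_of_pos h, div_lt_one h]
  linarith

theorem kk_mem (x : ℝ) : kk x ∈ Ioo (-1 : ℝ) 1 := by
  have := abs_lt.mp (abs_kk_lt x)
  exact this

theorem kk_kinv {y : ℝ} (hy : y ∈ Ioo (-1 : ℝ) 1) : kk (kinv y) = y := by
  unfold kinv kk
  have h1 : |y| < 1 := abs_lt.mpr ⟨hy.1, hy.2⟩
  have h : 0 < 1 - |y| := by linarith
  rw [abs_div, abs_of_pos h]
  have : 1 + |y| / (1 - |y|) = 1 / (1 - |y|) := by field_simp; ring
  rw [this]
  field_simp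

theorem kk_strictMono : StrictMono kk := by
  intro x y hxy
  unfold kk
  have hx : 0 < 1 + |x| := by positivity
  have hy : 0 < 1 + |y| := by positivity
  rw [div_lt_div_iff₀ hx hy]
  rcases le_or_gt 0 x with h1 | h1
  · rw [abs_of_nonneg h1, abs_of_nonneg (by linarith)]; nlinarith
  · rcases le_or_gt 0 y with h2 | h2
    · rw [abs_of_neg h1, abs_of_nonneg h2]
      nlinarith [mul_nonneg h2 (neg_nonneg.mpr h1.le)]
    · rw [abs_of_neg h1, abs_of_neg h2]; nlinarith

theorem kk_inj {x y : ℝ} (h : kk x = kk y) : x = y := kk_strictMono.injective h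

theorem exists_kk {y : ℝ} (hy : y ∈ Ioo (-1 : ℝ) 1) : ∃ x, kk x = y := ⟨kinv y, kk_kinv hy⟩

/-! ### Orbits -/

theorem ftil_kk {x : ℝ} (h : x ≠ 0 ∨ b ≤ 0) :
    ftil e a b (kk x) = kk (F (Iio a) (Ici b) x) := by
  have h1 := kk_mem x
  unfold ftil
  rw [if_neg (not_le.mpr h1.1), if_neg (not_le.mpr h1.2), kinv_kk, fab_eq, if_neg]
  rintro ⟨h2, h3⟩
  rcases h with h | h
  · exact h (kk_inj (h2.trans kk_zero.symm))
  · linarith

theorem ftil_zero (h : 0 < b) : ftil e a b 0 = e := by
  unfold ftil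
  rw [if_neg (by norm_num), if_neg (by norm_num), if_pos ⟨rfl, h⟩]

theorem ftil_one : ftil e a b 1 = 1 := by
  unfold ftil
  rw [if_neg (by norm_num), if_pos (le_refl _)]

theorem ftil_neg_one : ftil e a b (-1) = -1 := by
  unfold ftil
  rw [if_pos (le_refl _)]

theorem ftil_e (he : e = 1 ∨ e = -1) : ftil e a b e = e := by
  rcases he with rfl | rfl
  · exact ftil_one
  · exact ftil_neg_one

theorem ftil_iter (n : ℕ) : ∀ x : ℝ, (∀ j < n, (F (Iio a) (Ici b))^[j] x ≠ 0 ∨ b ≤ 0) →
    (ftil e a b)^[n] (kk x) = kk ((F (Iio a) (Ici b))^[n] x) := by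
  induction n with
  | zero => intro x _; rfl
  | succ n ih =>
    intro x h
    have h0 : x ≠ 0 ∨ b ≤ 0 := h 0 (by omega)
    rw [Function.iterate_succ_apply, Function.iterate_succ_apply, ftil_kk h0]
    apply ih
    intro j hj
    have := h (j + 1) (by omega)
    rwa [Function.iterate_succ_apply] at this

theorem ftil_iter_hit (hb : 0 < b) (he : e = 1 ∨ e = -1) (n : ℕ) : ∀ x : ℝ,
    hit (Iio a) (Ici b) n x → (ftil e a b)^[n + 1] (kk x) = e := by
  have key : ∀ m, (ftil e a b)^[m] e = e := fun m => Function.iterate_fixed (ftil_e he) m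
  induction n with
  | zero =>
    intro x h
    rw [hit_zero_iff] at h
    subst h
    rw [kk_zero]
    simpa using ftil_zero hb
  | succ n ih =>
    intro x h
    by_cases hx : x = 0
    · subst hx
      rw [Function.iterate_succ_apply, kk_zero, ftil_zero hb]
      exact key _
    · rw [hit_succ_iff] at h
      rcases h with h | h
      · exact absurd h hx
      · rw [Function.iterate_succ_apply, ftil_kk (Or.inl hx)]
        exact ih _ h

theorem ftil_iter_not_hit {n : ℕ} {x : ℝ} (h : ¬ hit (Iio a) (Ici b) n x) :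
    (ftil e a b)^[n + 1] (kk x) = kk ((F (Iio a) (Ici b))^[n + 1] x) := by
  apply ftil_iter
  intro j hj
  left
  intro hc
  exact h ⟨j, by omega, hc⟩

/-! ### The sets `D_n` -/

theorem Dset_iff (n : ℕ) : ∀ x : ℝ,
    (∃ j < n, (ftil e a b)^[j] (kk x) = kk a ∨ (ftil e a b)^[j] (kk x) = 0 ∨
      (ftil e a b)^[j] (kk x) = kk b) ↔ x ∈ DD a b (Iio a) (Ici b) n := by
  induction n with
  | zero => intro x; rw [DD_zero]; simp
  | succ n ih =>
    intro x
    rw [mem_DD_succ]
    by_cases hx : x = 0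
    · subst hx
      refine ⟨fun _ => Or.inl (Or.inr (Or.inl rfl)), fun _ => ⟨0, by omega, ?_⟩⟩
      right; left
      simpa using kk_zero
    · have h0 : ftil e a b (kk x) = kk (F (Iio a) (Ici b) x) := ftil_kk (Or.inl hx)
      constructor
      · rintro ⟨j, hj, h⟩
        rcases j with _ | j
        · left
          rcases h with h | h | h
          · left; exact kk_inj h
          · right; left
            exact kk_inj (h.trans kk_zero.symm)
          · right; right; exact kk_inj h
        · right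
          rw [← ih]
          refine ⟨j, by omega, ?_⟩
          rw [Function.iterate_succ_apply, h0] at h
          exact h
      · rintro (h | h)
        · refine ⟨0, by omega, ?_⟩
          rcases h with h | h | h
          · left; rw [h]; rfl
          · exact absurd h hx
          · right; right; rw [h]; rfl
        · rw [← ih] at h
          obtain ⟨j, hj, h⟩ := h
          refine ⟨j + 1, by omega, ?_⟩
          rw [Function.iterate_succ_apply, h0]
          exact h

theorem Dset_eq (n : ℕ) :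
    Dset e a b n = kk '' DD a b (Iio a) (Ici b) n := by
  ext y
  constructor
  · rintro ⟨hy, h⟩
    obtain ⟨x, rfl⟩ := exists_kk hy
    exact ⟨x, (Dset_iff n x).mp h, rfl⟩
  · rintro ⟨x, hx, rfl⟩
    exact ⟨kk_mem x, (Dset_iff n x).mpr hx⟩

theorem Dset_finite (n : ℕ) : (Dset e a b n).Finite := by
  rw [Dset_eq]
  exact (DD_finite n).image _

theorem Dset_ncard (n : ℕ) :
    (Dset e a b n).ncard + 1 = ell a b (Iio a) (Ici b) n := by
  rw [Dset_eq, Set.ncard_image_of_injective _ kk_strictMono.injective]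
  rfl

/-! ### Counting components of an interval minus a finite set -/

theorem exists_right {D : Set ℝ} (hD : D.Finite) {d : ℝ} (hd : d < 1) :
    ∃ r, d < r ∧ r < 1 ∧ ∀ x ∈ D, d < x → r < x := by
  have h1 : ∀ᶠ r in 𝓝[>] d, d < r := eventually_mem_nhdsWithin
  have h2 : ∀ᶠ r in 𝓝[>] d, r < 1 := (eventually_lt_nhds hd).filter_mono nhdsWithin_le_nhds
  have h3 : ∀ᶠ r in 𝓝[>] d, ∀ x ∈ D, d < x → r < x := by
    rw [Filter.eventually_all_finite hD]
    intro x _
    by_cases hx : d < x
    · exact ((eventually_lt_nhds hx).filter_mono nhdsWithin_le_nhds).mono (fun r hr _ => hr)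
    · exact Eventually.of_forall (fun r h => absurd h hx)
  obtain ⟨r, hr⟩ := (h1.and (h2.and h3)).exists
  exact ⟨r, hr.1, hr.2.1, hr.2.2⟩

theorem component_count {D : Set ℝ} (hD : D.Finite) (hsub : D ⊆ Ioo (-1 : ℝ) 1) :
    {C | ∃ y ∈ Ioo (-1 : ℝ) 1 \ D, C = connectedComponentIn (Ioo (-1 : ℝ) 1 \ D) y}.Finite ∧
    {C | ∃ y ∈ Ioo (-1 : ℝ) 1 \ D, C = connectedComponentIn (Ioo (-1 : ℝ) 1 \ D) y}.ncard =
      D.ncard + 1 := by
  classical
  set A := Ioo (-1 : ℝ) 1 \ D with hA
  set E : Set ℝ := insert (-1) D with hE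
  have hEfin : E.Finite := hD.insert _
  have hElt : ∀ d ∈ E, d < 1 := by
    rintro d (rfl | hd)
    · norm_num
    · exact (hsub hd).2
  have hEge : ∀ d ∈ E, -1 ≤ d := by
    rintro d (rfl | hd)
    · exact le_refl _
    · exact (hsub hd).1.le
  have h0 : ∀ d : ℝ, ∃ r, d ∈ E → d < r ∧ r < 1 ∧ ∀ x ∈ D, d < x → r < x := by
    intro d
    by_cases hd : d ∈ E
    · obtain ⟨r, hr⟩ := exists_right hD (hElt d hd)
      exact ⟨r, fun _ => hr⟩
    · exact ⟨0, fun h => absurd h hd⟩
  choose r hr using h0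
  have hrA : ∀ d ∈ E, r d ∈ A := by
    intro d hd
    obtain ⟨h1, h2, h3⟩ := hr d hd
    refine ⟨⟨lt_of_le_of_lt (hEge d hd) h1, h2⟩, fun hc => ?_⟩
    exact lt_irrefl _ (h3 _ hc h1)
  have same : ∀ y ∈ A, ∀ z ∈ A, y ≤ z → (∀ d ∈ D, ¬ (y ≤ d ∧ d ≤ z)) →
      connectedComponentIn A y = connectedComponentIn A z := by
    intro y hy z hz hyz h
    have h1 : Icc y z ⊆ A := by
      intro w hw
      refine ⟨⟨lt_of_lt_of_le hy.1.1 hw.1, lt_of_le_of_lt hw.2 hz.1.2⟩, fun hc => h w hc hw⟩
    have h2 : Icc y z ⊆ connectedComponentIn A y :=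
      isPreconnected_Icc.subset_connectedComponentIn ⟨le_refl _, hyz⟩ h1
    exact connectedComponentIn_eq (h2 ⟨hyz, le_refl _⟩)
  have diff : ∀ y ∈ A, ∀ z ∈ A, (∃ d ∈ D, y < d ∧ d < z) →
      connectedComponentIn A y ≠ connectedComponentIn A z := by
    rintro y hy z hz ⟨d, hd, h1, h2⟩ he
    have h3 : y ∈ connectedComponentIn A y := mem_connectedComponentIn hy
    have h4 : z ∈ connectedComponentIn A y := by rw [he]; exact mem_connectedComponentIn hz
    have h5 : (connectedComponentIn A y).OrdConnected :=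
      isPreconnected_connectedComponentIn.ordConnected
    have h6 := h5.out h3 h4 ⟨h1.le, h2.le⟩
    exact (connectedComponentIn_subset A y h6).2 hd
  have himg : {C | ∃ y ∈ A, C = connectedComponentIn A y} =
      (fun d => connectedComponentIn A (r d)) '' E := by
    ext C
    constructor
    · rintro ⟨y, hy, rfl⟩
      have hne : (E ∩ Iio y).Nonempty := ⟨-1, Or.inl rfl, hy.1.1⟩
      obtain ⟨d, hd, hmax⟩ := Set.exists_max_image (E ∩ Iio y) id
        (hEfin.subset inter_subset_left) hne
      refine ⟨d, hd.1, ?_⟩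
      obtain ⟨h1, h2, h3⟩ := hr d hd.1
      have hdy : d < y := hd.2
      rcases le_total (r d) y with h4 | h4
      · apply same _ (hrA d hd.1) _ hy h4
        rintro x hx ⟨h5, h6⟩
        have h7 : x < y := lt_of_le_of_ne h6 (fun hh => hy.2 (hh ▸ hx))
        have h8 := hmax x ⟨Or.inr hx, h7⟩
        simp only [id] at h8
        linarith
      · refine (same _ hy _ (hrA d hd.1) h4 ?_).symm
        rintro x hx ⟨h5, h6⟩
        have := h3 x hx (by linarith)
        linarith
    · rintro ⟨d, hd, rfl⟩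
      exact ⟨r d, hrA d hd, rfl⟩
  have hinj : InjOn (fun d => connectedComponentIn A (r d)) E := by
    have key : ∀ d ∈ E, ∀ d' ∈ E, d < d' →
        connectedComponentIn A (r d) ≠ connectedComponentIn A (r d') := by
      intro d hd d' hd' hlt
      obtain ⟨h1, h2, h3⟩ := hr d hd
      obtain ⟨h4, h5, h6⟩ := hr d' hd'
      apply diff _ (hrA d hd) _ (hrA d' hd')
      rcases hd' with hd' | hd'
      · have := hEge d hd
        rw [hd'] at hlt
        linarith
      · exact ⟨d', hd', h3 d' hd' hlt, h4⟩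
    intro d hd d' hd' he
    rcases lt_trichotomy d d' with h | h | h
    · exact absurd he (key d hd d' hd' h)
    · exact h
    · exact absurd he.symm (key d' hd' d hd h)
  rw [himg]
  refine ⟨hEfin.image _, ?_⟩
  rw [hinj.ncard_image, hE, Set.ncard_insert_of_notMem _ hD]
  intro hc
  have := (hsub hc).1
  exact lt_irrefl _ this

theorem contLaps_finite (n : ℕ) : (contLaps e a b n).Finite :=
  (component_count (Dset_finite n) (fun _ hx => hx.1)).1

theorem contLaps_ncard (n : ℕ) :
    (contLaps e a b n).ncard = ell a b (Iio a) (Ici b) n := by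
  rw [← Dset_ncard (e := e) (a := a) (b := b) n]
  exact (component_count (Dset_finite n) (fun _ hx => hx.1)).2

theorem hasContLapEntropy (h : InP a b) :
    HasContLapEntropy e a b (ent a b (Iio a) (Ici b) h.pol) := by
  refine ⟨fun n => contLaps_finite n, ?_⟩
  simp_rw [contLaps_ncard]
  exact ent_tendsto h.pol

end Q66.Ab
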