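import Mathlib
import Pool.Agent.Q66.Ab4

/-!
# Maximal intervals of monotonicity
-/

namespace Q66.Ab

open Set Filter Topology

variable {a b e : ℝ}

theorem interleave_finite {S E : Set ℝ} (hE : E.Finite)
    (h : ∀ x ∈ S, ∀ y ∈ S, x < y → ∃ e ∈ E, x < e ∧ e < y) : S.Finite := by
  classical
  have h1 : ∀ x, (E ∩ Iio x).Finite := fun x => hE.subset inter_subset_left
  have h2 : MapsTo (fun x => (E ∩ Iio x).ncard) S (Finset.range (E.ncard + 1) : Set ℕ) := by
    intro x _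
    simp only [Finset.coe_range, mem_Iio]
    have := Set.ncard_le_ncard (inter_subset_left : E ∩ Iio x ⊆ E) hE
    omega
  have h3 : InjOn (fun x => (E ∩ Iio x).ncard) S := by
    have key : ∀ x ∈ S, ∀ y ∈ S, x < y → (E ∩ Iio x).ncard < (E ∩ Iio y).ncard := by
      intro x hx y hy hxy
      obtain ⟨e, he, h4, h5⟩ := h x hx y hy hxy
      apply Set.ncard_lt_ncard _ (h1 y)
      rw [Set.ssubset_iff_of_subset]
      · exact ⟨e, ⟨he, h5⟩, fun hc => absurd hc.2 (not_lt.mpr h4.le)⟩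
      · exact inter_subset_inter_right _ (Iio_subset_Iio hxy.le)
    intro x hx y hy hxy
    rcases lt_trichotomy x y with h4 | h4 | h4
    · exact absurd hxy (ne_of_lt (key x hx y hy h4))
    · exact h4
    · exact absurd hxy (ne_of_gt (key y hy x hx h4))
  exact Set.Finite.of_injOn h2 h3 (Finset.finite_toSet _)

/-- abbreviation for the points whose orbit meets a cut point -/
def DDs (a b : ℝ) (n : ℕ) : Set ℝ := DD a b (Iio a) (Ici b) n

theorem g_strict (P : Pol a b (Iio a) (Ici b)) {n : ℕ} {x y : ℝ} (hxy : x < y)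
    (h : ∀ z ∈ Icc x y, z ∉ DDs a b n) :
    StrictMonoOn (ftil e a b)^[n] (Icc (kk x) (kk y)) := by
  have h1 := (lap P n hxy h).1
  have h2 : ∀ z ∈ Icc x y, (ftil e a b)^[n] (kk z) = kk ((F (Iio a) (Ici b))^[n] z) := by
    intro z hz
    apply ftil_iter
    intro j hj
    left
    intro hc
    exact h z hz ⟨j, hj, Or.inr (Or.inl hc)⟩
  have h3 : ∀ w ∈ Icc (kk x) (kk y), ∃ z ∈ Icc x y, kk z = w := by
    intro w hw
    obtain ⟨z, rfl⟩ := exists_kk (y := w)
      ⟨lt_of_lt_of_le (kk_mem x).1 hw.1, lt_of_le_of_lt hw.2 (kk_mem y).2⟩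
    exact ⟨z, ⟨kk_strictMono.le_iff_le.mp hw.1, kk_strictMono.le_iff_le.mp hw.2⟩, rfl⟩
  intro u hu v hv huv
  obtain ⟨z, hz, rfl⟩ := h3 u hu
  obtain ⟨w, hw, rfl⟩ := h3 v hv
  rw [h2 z hz, h2 w hw]
  exact kk_strictMono (h1 hz hw (kk_strictMono.lt_iff_lt.mp huv))

theorem exists_gap (n : ℕ) {u v : ℝ} (hu : -1 ≤ u) (huv : u < v) (hv : v ≤ 1) :
    ∃ x y, x < y ∧ u < kk x ∧ kk y < v ∧ ∀ z ∈ Icc x y, z ∉ DDs a b n := by
  obtain ⟨r, h1, h2, h3⟩ := exists_right
    (((DD_finite (a := a) (b := b) (L := Iio a) (U := Ici b) n).image kk).insert v)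
    (lt_of_lt_of_le huv hv)
  have hrv : r < v := h3 v (Or.inl rfl) huv
  obtain ⟨x, hx⟩ := exists_kk (y := (u + r) / 2) ⟨by linarith, by linarith⟩
  obtain ⟨y, hy⟩ := exists_kk (y := r) ⟨by linarith, h2⟩
  refine ⟨x, y, ?_, by rw [hx]; linarith, by rw [hy]; exact hrv, ?_⟩
  · rw [← kk_strictMono.lt_iff_lt, hx, hy]; linarith
  · intro z hz hc
    have h4 : kk x ≤ kk z := kk_strictMono.monotone hz.1
    have h5 : kk z ≤ kk y := kk_strictMono.monotone hz.2
    rw [hx] at h4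
    rw [hy] at h5
    have := h3 (kk z) (Or.inr ⟨z, hc, rfl⟩) (by linarith)
    linarith

/-- the admissible sets in the definition of laps -/
def Adm (g : ℝ → ℝ) (I : Set ℝ) : Prop :=
  I ⊆ Icc (-1) 1 ∧ I.OrdConnected ∧ (MonotoneOn g I ∨ AntitoneOn g I)

theorem Adm.mono (P : Pol a b (Iio a) (Ici b)) {n : ℕ} {I : Set ℝ}
    (h : Adm (ftil e a b)^[n] I) : MonotoneOn (ftil e a b)^[n] I := by
  obtain ⟨h1, h2, h3 | h3⟩ := h
  · exact h3
  · intro u hu v hv huv
    rcases eq_or_lt_of_le huv with h4 | h4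
    · rw [h4]
    · exfalso
      obtain ⟨x, y, h5, h6, h7, h8⟩ := exists_gap (a := a) (b := b) n (h1 hu).1 h4 (h1 hv).2
      have h9 : kk x < kk y := kk_strictMono h5
      have h10 := g_strict (e := e) P h5 h8 ⟨le_refl _, h9.le⟩ ⟨h9.le, le_refl _⟩ h9
      have h11 := h3 (h2.out hu hv ⟨h6.le, by linarith⟩) (h2.out hu hv ⟨by linarith, h7.le⟩) h9.le
      linarith

/-- the lap containing a point -/
def JJ (g : ℝ → ℝ) (p : ℝ) : Set ℝ :=
  ⋃₀ {I | I ⊆ Icc (-1) 1 ∧ I.OrdConnected ∧ MonotoneOn g I ∧ p ∈ I}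

theorem mem_JJ {g : ℝ → ℝ} {p : ℝ} (hp : p ∈ Icc (-1 : ℝ) 1) : p ∈ JJ g p :=
  ⟨{p}, ⟨by simpa using hp, Set.ordConnected_singleton, by
    intro x hx y hy _
    rw [mem_singleton_iff.mp hx, mem_singleton_iff.mp hy], rfl⟩, rfl⟩

theorem JJ_mono {g : ℝ → ℝ} {p : ℝ} : MonotoneOn g (JJ g p) := by
  rintro u ⟨I1, ⟨h1, h2, h3, h4⟩, hu⟩ v ⟨I2, ⟨k1, k2, k3, k4⟩, hv⟩ huv
  rcases le_total v p with h5 | h5
  · exact h3 hu (h2.out hu h4 ⟨huv, h5⟩) huv
  · rcases le_total p u with h6 | h6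
    · exact k3 (k2.out k4 hv ⟨h6, huv⟩) hv huv
    · exact (h3 hu h4 h6).trans (k3 k4 hv h5)

theorem JJ_ord {g : ℝ → ℝ} {p : ℝ} : (JJ g p).OrdConnected := by
  constructor
  rintro u ⟨I1, ⟨h1, h2, h3, h4⟩, hu⟩ v ⟨I2, ⟨k1, k2, k3, k4⟩, hv⟩ w hw
  rcases le_total w p with h5 | h5
  · exact ⟨I1, ⟨h1, h2, h3, h4⟩, h2.out hu h4 ⟨hw.1, h5⟩⟩
  · exact ⟨I2, ⟨k1, k2, k3, k4⟩, k2.out k4 hv ⟨h5, hw.2⟩⟩

theorem JJ_sub {g : ℝ → ℝ} {p : ℝ} : JJ g p ⊆ Icc (-1) 1 := by
  rintro u ⟨I1, ⟨h1, h2, h3, h4⟩, hu⟩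
  exact h1 hu

theorem JJ_adm {g : ℝ → ℝ} {p : ℝ} : Adm g (JJ g p) := ⟨JJ_sub, JJ_ord, Or.inl JJ_mono⟩

theorem JJ_lap (P : Pol a b (Iio a) (Ici b)) {n : ℕ} {p : ℝ} (hp : p ∈ Icc (-1 : ℝ) 1) :
    IsLap (ftil e a b)^[n] (JJ (ftil e a b)^[n] p) := by
  refine ⟨JJ_adm, fun I hI hle => ?_⟩
  intro x hx
  exact ⟨I, ⟨hI.1, hI.2.1, Adm.mono P hI, hle (mem_JJ hp)⟩, hx⟩

theorem lap_eq_JJ (P : Pol a b (Iio a) (Ici b)) {n : ℕ} {p : ℝ} {J : Set ℝ}
    (hJ : IsLap (ftil e a b)^[n] J) (hp : p ∈ J) : J = JJ (ftil e a b)^[n] p := by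
  have h1 : J ⊆ JJ (ftil e a b)^[n] p := fun x hx =>
    ⟨J, ⟨hJ.1.1, hJ.1.2.1, Adm.mono P hJ.1, hp⟩, hx⟩
  exact subset_antisymm h1 (hJ.2 JJ_adm h1)

theorem laps_eq (P : Pol a b (Iio a) (Ici b)) (n : ℕ) :
    {J | IsLap (ftil e a b)^[n] J} = JJ (ftil e a b)^[n] '' Icc (-1 : ℝ) 1 := by
  ext J
  constructor
  · intro hJ
    have hJ' : IsLap (ftil e a b)^[n] J := hJ
    rcases J.eq_empty_or_nonempty with h | ⟨p, hp⟩
    · exfalso
      have h0 : (0 : ℝ) ∈ Icc (-1 : ℝ) 1 := ⟨by norm_num, by norm_num⟩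
      have h1 : J ≤ JJ (ftil e a b)^[n] 0 := by rw [h]; exact empty_subset _
      have h2 := hJ'.2 JJ_adm h1 (mem_JJ h0)
      rw [h] at h2
      exact h2
    · exact ⟨p, hJ'.1.1 hp, (lap_eq_JJ P hJ' hp).symm⟩
  · rintro ⟨p, hp, rfl⟩
    exact JJ_lap P hp

theorem laps_upper (P : Pol a b (Iio a) (Ici b)) (n : ℕ) :
    {J | IsLap (ftil e a b)^[n] J}.Finite ∧
    {J | IsLap (ftil e a b)^[n] J}.ncard ≤ 5 * ell a b (Iio a) (Ici b) n := by
  rw [laps_eq P]
  obtain ⟨S, hS, hbij⟩ := (surjOn_image (JJ (ftil e a b)^[n]) (Icc (-1 : ℝ) 1)).exists_subset_injOn_image_eq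
  obtain ⟨hinj, himg⟩ := hbij
  set E : Set ℝ := insert (-1) (insert 1 (kk '' DDs a b n)) with hE
  have hD : (DDs a b n).Finite := DD_finite n
  have hEfin : E.Finite := ((hD.image _).insert _).insert _
  have key : ∀ x ∈ S \ E, ∀ y ∈ S \ E, x < y → ∃ d ∈ E, x < d ∧ d < y := by
    intro x hx y hy hxy
    by_contra hc
    push Not at hc
    have hx1 := hS hx.1
    have hy1 := hS hy.1
    have hx2 : -1 < x := lt_of_le_of_ne hx1.1 (fun h => hx.2 (h ▸ Or.inl rfl))
    have hy2 : y < 1 := lt_of_le_of_ne hy1.2 (fun h => hy.2 (h ▸ Or.inr (Or.inl rfl)))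
    obtain ⟨x', rfl⟩ := exists_kk (y := x) ⟨hx2, by linarith⟩
    obtain ⟨y', rfl⟩ := exists_kk (y := y) ⟨by linarith, hy2⟩
    have hxy' : x' < y' := kk_strictMono.lt_iff_lt.mp hxy
    have h1 : ∀ z ∈ Icc x' y', z ∉ DDs a b n := by
      intro z hz hzD
      have hzE : kk z ∈ E := Or.inr (Or.inr ⟨z, hzD, rfl⟩)
      have h2 : kk x' < kk z := lt_of_le_of_ne (kk_strictMono.monotone hz.1)
        (fun h => hx.2 (h ▸ hzE))
      have h3 : kk z < kk y' := lt_of_le_of_ne (kk_strictMono.monotone hz.2)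
        (fun h => hy.2 (h ▸ hzE))
      have := hc (kk z) hzE h2
      linarith
    have h2 := (g_strict (e := e) P hxy' h1).monotoneOn
    have h3 : kk y' ∈ JJ (ftil e a b)^[n] (kk x') := by
      refine ⟨Icc (kk x') (kk y'), ⟨?_, ordConnected_Icc, h2, ⟨le_refl _, hxy.le⟩⟩,
        ⟨hxy.le, le_refl _⟩⟩
      intro w hw
      exact ⟨hx1.1.trans hw.1, hw.2.trans hy1.2⟩
    have h4 := lap_eq_JJ P (JJ_lap P hx1) h3
    exact (ne_of_lt hxy) (hinj hx.1 hy.1 h4)
  have hfin1 : (S \ E).Finite := interleave_finite hEfin key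
  have hSfin : S.Finite := by
    apply (hfin1.union hEfin).subset
    intro x hx
    by_cases h : x ∈ E
    · exact Or.inr h
    · exact Or.inl ⟨hx, h⟩
  have hle1 : (S \ E).ncard ≤ E.ncard + 1 := interleave hEfin key
  have hle2 : S.ncard ≤ (S \ E).ncard + E.ncard := by
    calc S.ncard ≤ ((S \ E) ∪ E).ncard := by
          apply Set.ncard_le_ncard _ (hfin1.union hEfin)
          intro x hx
          by_cases h : x ∈ E
          · exact Or.inr h
          · exact Or.inl ⟨hx, h⟩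
      _ ≤ _ := Set.ncard_union_le _ _
  have hle3 : E.ncard ≤ (DDs a b n).ncard + 2 := by
    have h1 := Set.ncard_insert_le (-1 : ℝ) (insert 1 (kk '' DDs a b n))
    have h2 := Set.ncard_insert_le (1 : ℝ) (kk '' DDs a b n)
    have h3 := Set.ncard_image_le hD (f := kk)
    rw [hE]
    omega
  rw [← himg]
  refine ⟨hSfin.image _, ?_⟩
  have hle4 := Set.ncard_image_le hSfin (f := JJ (ftil e a b)^[n])
  unfold ell
  unfold DDs at hle3
  omega

/-- lower bound, `0 < b` -/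
theorem laps_lower_pos (P : Pol a b (Iio a) (Ici b)) (hb : 0 < b) (he : e = 1 ∨ e = -1)
    (n : ℕ) : zz (Iio a) (Ici b) n ≤ {J | IsLap (ftil e a b)^[n + 1] J}.ncard := by
  have hfin := (laps_upper (e := e) P (n + 1)).1
  rw [laps_eq P] at hfin ⊢
  have hmem : ∀ x : ℝ, kk x ∈ Icc (-1 : ℝ) 1 := fun x => ⟨(kk_mem x).1.le, (kk_mem x).2.le⟩
  have key : ∀ x ∈ ZZ (Iio a) (Ici b) n, ∀ y ∈ ZZ (Iio a) (Ici b) n, x < y →
      JJ (ftil e a b)^[n + 1] (kk x) ≠ JJ (ftil e a b)^[n + 1] (kk y) := by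
    intro x hx y hy hxy hc
    have h1 : kk y ∈ JJ (ftil e a b)^[n + 1] (kk x) := by rw [hc]; exact mem_JJ (hmem y)
    have h2 : kk x ∈ JJ (ftil e a b)^[n + 1] (kk x) := mem_JJ (hmem x)
    have h3 : kk x < kk y := kk_strictMono hxy
    obtain ⟨w, hw1, hw2⟩ := (Set.Ioo_infinite hxy).exists_notMem_finite
      (ZZ_finite (L := Iio a) (U := Ici b) n)
    have h4 : kk x < kk w := kk_strictMono hw1.1
    have h5 : kk w < kk y := kk_strictMono hw1.2
    have h6 : kk w ∈ JJ (ftil e a b)^[n + 1] (kk x) := JJ_ord.out h2 h1 ⟨h4.le, h5.le⟩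
    have h7 := JJ_mono h2 h6 h4.le
    have h8 := JJ_mono h6 h1 h5.le
    rw [ftil_iter_hit hb he n x hx] at h7
    rw [ftil_iter_hit hb he n y hy] at h8
    rw [ftil_iter_not_hit hw2] at h7 h8
    have h9 := kk_mem ((F (Iio a) (Ici b))^[n + 1] w)
    rcases he with rfl | rfl
    · linarith [h9.2]
    · linarith [h9.1]
  apply Set.ncard_le_ncard_of_injOn (fun x => JJ (ftil e a b)^[n + 1] (kk x)) _ _ hfin
  · intro x _
    exact ⟨kk x, hmem x, rfl⟩
  · intro x hx y hy hxy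
    rcases lt_trichotomy x y with h | h | h
    · exact absurd hxy (key x hx y hy h)
    · exact h
    · exact absurd hxy.symm (key y hy x hx h)

theorem sub_iter (P : Pol a 0 (Iio a) (Ici 0)) (j : ℕ) : ∀ y : ℝ, (j : ℝ) ≤ y →
    (F (Iio a) (Ici 0))^[j] y = y - j := by
  induction j with
  | zero => intro y _; simp
  | succ j ih =>
    intro y hy
    push_cast at hy
    have hj : (0 : ℝ) ≤ j := Nat.cast_nonneg j
    rw [Function.iterate_succ_apply, P.FU (by linarith) (show (0 : ℝ) ≤ y by linarith),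
      ih _ (by linarith)]
    push_cast
    ring

theorem left_blow (P : Good a 0 (Iio a) (Ici 0)) (ha : a ≤ -1) (m : ℕ) :
    ∀ c : ℝ, hit (Iio a) (Ici 0) m c → ∀ n, m < n → ∀ M δ : ℝ, 0 < δ →
      ∃ x, c - δ < x ∧ x < c ∧ M < (F (Iio a) (Ici 0))^[n] x := by
  induction m using Nat.strong_induction_on with
  | _ m ih =>
  intro c hc n hn M δ hδ
  obtain ⟨n', rfl⟩ : ∃ n', n = n' + 1 := ⟨n - 1, by omega⟩
  have step : ∀ x : ℝ, (F (Iio a) (Ici 0))^[n' + 1] x =
      (F (Iio a) (Ici 0))^[n'] (F (Iio a) (Ici 0) x) := fun x => Function.iterate_succ_apply _ _ _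
  by_cases hc0 : c = 0
  · subst hc0
    obtain ⟨K, hK⟩ := exists_nat_gt (max (1 / δ) (M + n' + 1))
    have hK1 : 1 / δ < K := lt_of_le_of_lt (le_max_left _ _) hK
    have hK2 : M + n' + 1 < K := lt_of_le_of_lt (le_max_right _ _) hK
    obtain ⟨K', hK'⟩ := exists_nat_ge (max (K : ℝ) (n' + 1))
    have hKK : (K : ℝ) ≤ K' := le_trans (le_max_left _ _) hK'
    have hKn : (n' : ℝ) + 1 ≤ K' := le_trans (le_max_right _ _) hK'
    have hn0 : (0 : ℝ) ≤ n' := Nat.cast_nonneg n'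
    have hKpos : (0 : ℝ) < K' := by linarith
    have hneg : -1 / (K' : ℝ) < 0 := div_neg_of_neg_of_pos (by norm_num) hKpos
    refine ⟨-1 / K', ?_, hneg, ?_⟩
    · have h1 : 1 / δ < K' := by linarith
      rw [div_lt_iff₀ hδ] at h1
      have h2 : 1 / (K' : ℝ) < δ := by rw [div_lt_iff₀ hKpos]; linarith
      rw [neg_div]; linarith
    · have hL : -1 / (K' : ℝ) ∉ Iio a := by
        simp only [mem_Iio, not_lt]
        have : 1 / (K' : ℝ) ≤ 1 := by rw [div_le_one hKpos]; linarith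
        rw [neg_div]; linarith
      rw [step, P.FSneg hneg hL, neg_one_div_invol, sub_iter P.toPol n' _ (by linarith)]
      linarith
  · obtain ⟨m', e, h1⟩ := hit_pred hc0 hc
    rcases lt_trichotomy c a with h2 | h2 | h2
    · rw [F_L (show c ∈ Iio a from h2)] at h1
      obtain ⟨y, h3, h4, h5⟩ := ih m' (by omega) _ h1 n' (by omega) M δ hδ
      refine ⟨y - 1, by linarith, by linarith, ?_⟩
      rw [step, F_L (show y - 1 ∈ Iio a by simp only [mem_Iio]; linarith), sub_add_cancel]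
      exact h5
    · -- c = a
      subst h2
      have key : ∀ m'' < m, hit (Iio c) (Ici 0) m'' (c + 1) → m'' < n' →
          ∃ x, c - δ < x ∧ x < c ∧ M < (F (Iio c) (Ici 0))^[n' + 1] x := by
        intro m'' hm h3 h4
        obtain ⟨y, h5, h6, h7⟩ := ih m'' hm _ h3 n' h4 M δ hδ
        refine ⟨y - 1, by linarith, by linarith, ?_⟩
        rw [step, F_L (show y - 1 ∈ Iio c by simp only [mem_Iio]; linarith), sub_add_cancel]
        exact h7
      rcases eq_or_lt_of_le ha with h3 | h3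
      · apply key 0 (by omega) _ (by omega)
        rw [h3, hit_zero_iff]; norm_num
      · have hcneg : c < 0 := by linarith
        have hcL : c ∉ Iio c := lt_irrefl c
        rw [P.FSneg hcneg hcL] at h1
        have hv : 0 < -1 / c := div_pos_of_neg_of_neg (by norm_num) hcneg
        have hv1 : -1 / c < 1 := by
          rw [show -1 / c = 1 / (-c) by rw [div_neg, neg_div]]
          rw [div_lt_one (by linarith)]; linarith
        obtain ⟨m'', e2, h4⟩ := P.slow hv hv1 (le_of_lt hv) h1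
        have e3 : (-1 / c) / (1 - -1 / c) = -1 / (c + 1) := by
          have : c ≠ 0 := ne_of_lt hcneg
          have : c + 1 ≠ 0 := by linarith
          have h9 : 1 - -1 / c = (c + 1) / c := by field_simp; ring
          rw [h9]
          field_simp
        rw [e3] at h4
        apply key (m'' + 1) (by omega) _ (by omega)
        apply hit_succ
        rw [P.FSneg (show c + 1 < 0 by linarith)
          (show c + 1 ∉ Iio c by simp only [mem_Iio, not_lt]; linarith)]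
        exact h4
    · rcases lt_or_gt_of_ne hc0 with h3 | h3
      · -- a < c < 0
        rw [P.FSneg h3 (show c ∉ Iio a from not_lt.mpr h2.le)] at h1
        set r := max (c - δ) a with hr
        have hrc : r < c := max_lt (by linarith) h2
        have hr0 : r < 0 := by linarith
        have h4 : -1 / r < -1 / c := by
          rw [show -1 / r = 1 / (-r) by rw [div_neg, neg_div],
            show -1 / c = 1 / (-c) by rw [div_neg, neg_div]]
          exact one_div_lt_one_div_of_lt (by linarith) (by linarith)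
        obtain ⟨y, h5, h6, h7⟩ := ih m' (by omega) _ h1 n' (by omega) M (-1 / c - -1 / r)
          (by linarith)
        have h5' : -1 / r < y := by linarith
        have hr1 : 0 < -1 / r := div_pos_of_neg_of_neg (by norm_num) hr0
        have hy : 0 < y := by linarith
        have h8 : r < -1 / y := by
          rw [lt_div_iff₀ hy]
          rw [div_lt_iff_of_neg hr0] at h5'
          linarith
        have h9 : -1 / y < c := by
          rw [div_lt_iff₀ hy]
          rw [lt_div_iff_of_neg h3] at h6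
          linarith
        refine ⟨-1 / y, lt_of_le_of_lt (le_max_left _ _) h8, h9, ?_⟩
        have h10 : a < -1 / y := lt_of_le_of_lt (le_max_right _ _) h8
        rw [step, P.FSneg (by linarith) (show -1 / y ∉ Iio a from not_lt.mpr h10.le),
          neg_one_div_invol]
        exact h7
      · rw [P.FU h3 (show (0 : ℝ) ≤ c from h3.le)] at h1
        obtain ⟨y, h5, h6, h7⟩ := ih m' (by omega) _ h1 n' (by omega) M (min δ c)
          (lt_min hδ h3)
        have h8 := min_le_left δ c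
        have h9 := min_le_right δ c
        refine ⟨y + 1, by linarith, by linarith, ?_⟩
        rw [step, P.FU (show 0 < y + 1 by linarith) (show (0 : ℝ) ≤ y + 1 by linarith),
          add_sub_cancel_right]
        exact h7

/-- lower bound, `b = 0` -/
theorem laps_lower_zero (P : Good a 0 (Iio a) (Ici 0)) (ha : a ≤ -1)
    (n : ℕ) : zz (Iio a) (Ici 0) n ≤ {J | IsLap (ftil e a 0)^[n + 1] J}.ncard := by
  have hfin := (laps_upper (e := e) P.toPol (n + 1)).1
  rw [laps_eq P.toPol] at hfin ⊢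
  have hmem : ∀ x : ℝ, kk x ∈ Icc (-1 : ℝ) 1 := fun x => ⟨(kk_mem x).1.le, (kk_mem x).2.le⟩
  have hit0 : ∀ x : ℝ, (ftil e a 0)^[n + 1] (kk x) = kk ((F (Iio a) (Ici 0))^[n + 1] x) :=
    fun x => ftil_iter (n + 1) x (fun j _ => Or.inr (le_refl _))
  have key : ∀ x ∈ ZZ (Iio a) (Ici 0) n, ∀ y ∈ ZZ (Iio a) (Ici 0) n, x < y →
      JJ (ftil e a 0)^[n + 1] (kk x) ≠ JJ (ftil e a 0)^[n + 1] (kk y) := by
    intro x hx y hy hxy hc
    have h1 : kk y ∈ JJ (ftil e a 0)^[n + 1] (kk x) := by rw [hc]; exact mem_JJ (hmem y)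
    have h2 : kk x ∈ JJ (ftil e a 0)^[n + 1] (kk x) := mem_JJ (hmem x)
    obtain ⟨w, hw1, hw2, hw3⟩ := left_blow P ha n y hy (n + 1) (by omega)
      ((F (Iio a) (Ici 0))^[n + 1] y) (y - x) (by linarith)
    have h4 : kk x < kk w := kk_strictMono (by linarith)
    have h5 : kk w < kk y := kk_strictMono hw2
    have h6 : kk w ∈ JJ (ftil e a 0)^[n + 1] (kk x) := JJ_ord.out h2 h1 ⟨h4.le, h5.le⟩
    have h8 := JJ_mono h6 h1 h5.le
    rw [hit0, hit0, kk_strictMono.le_iff_le] at h8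
    linarith
  apply Set.ncard_le_ncard_of_injOn (fun x => JJ (ftil e a 0)^[n + 1] (kk x)) _ _ hfin
  · intro x _
    exact ⟨kk x, hmem x, rfl⟩
  · intro x hx y hy hxy
    rcases lt_trichotomy x y with h | h | h
    · exact absurd hxy (key x hx y hy h)
    · exact h
    · exact absurd hxy.symm (key y hy x hx h)

theorem laps_lower (h : InP a b) (he : e = 1 ∨ e = -1) (n : ℕ) :
    zz (Iio a) (Ici b) n ≤ {J | IsLap (ftil e a b)^[n + 1] J}.ncard := by
  rcases eq_or_lt_of_le h.2.1 with hb | hb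
  · subst hb
    have ha : a ≤ -1 := by have := h.2.2.1; linarith
    exact laps_lower_zero (h.good (by norm_num) (by linarith)) ha n
  · exact laps_lower_pos h.pol hb he n

theorem hasTopEntropy (h : InP a b) (he : e = 1 ∨ e = -1) :
    HasTopEntropy (ftil e a b) (ent a b (Iio a) (Ici b) h.pol) := by
  refine ⟨fun n => (laps_upper h.pol n).1, ?_⟩
  apply tendsto_squeeze h.pol 1 5 (by norm_num)
  · intro n
    have := laps_lower h he n
    omega
  · intro n
    have h1 := (laps_upper (e := e) h.pol n).2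
    have h2 : ell a b (Iio a) (Ici b) n ≤ ell a b (Iio a) (Ici b) (n + 1) := by
      unfold ell
      have := Set.ncard_le_ncard (DD_mono (a := a) (b := b) (L := Iio a) (U := Ici b)
        (show n ≤ n + 1 by omega)) (DD_finite (n + 1))
      omega
    omega

end Q66.Ab
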