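import Mathlib
import Pool.Agent.Q66.Ab5

/-!
# Monotonicity and the plateau
-/

namespace Q66.Ab

open Set Filter Topology

theorem ent_mono {a b a' b' : ℝ} {L U L' U' : Set ℝ} (P : Pol a b L U) (Q : Good a' b' L' U')
    (hL : L ⊆ L') (hU : U' ⊆ U) : ent a b L U P ≤ ent a' b' L' U' Q.toPol := by
  apply ent_le_of_zz P Q.toPol 0 1 one_pos
  intro n
  rw [one_mul, add_zero]
  exact Set.ncard_le_ncard (fun x hx => compare P Q hL hU n x hx) (ZZ_finite n)

theorem mono_region {a b a' b' : ℝ} (h : InP a b) (h' : InP a' b') (ha : a ≤ a') (hb : b ≤ b')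
    (ha' : a' ≤ -1 / 2) (hb' : b' ≤ 1) :
    ent a b (Iio a) (Ici b) h.pol ≤ ent a' b' (Iio a') (Ici b') h'.pol :=
  ent_mono h.pol (h'.good hb' ha') (Iio_subset_Iio ha) (Ici_subset_Ici.mpr hb)

/-- the converse comparison on the plateau -/
theorem plateau_hit {a b : ℝ} (hb0 : 0 < b) (hb : b ≤ 1 / 2) (h1 : -1 ≤ a)
    (h2 : a ≤ -1 / (b + 1)) (n : ℕ) : ∀ x : ℝ,
    hit (Iio a) (Ici b) n x → hit (Iio (-1)) (Ici b) (n + 1) x := by
  have hbb : 0 < b + 1 := by linarith
  have ha1 : (a + 1) * (b + 1) ≤ b := by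
    rw [le_div_iff₀ hbb] at h2
    linarith
  have haneg : a < 0 := lt_of_le_of_lt h2 (div_neg_of_neg_of_pos (by norm_num) hbb)
  have hab : a + 1 < b := by nlinarith
  induction n using Nat.strong_induction_on with
  | _ n ih =>
  intro x h
  by_cases hx0 : x = 0
  · subst hx0; exact hit_of_zero _
  obtain ⟨n1, e1, h3⟩ := hit_pred hx0 h
  rcases lt_trichotomy x (-1) with hx | hx | hx
  · have hxa : x ∈ Iio a := by simp only [mem_Iio]; linarith
    have h4 := ih n1 (by omega) _ h3
    rw [F_L hxa] at h4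
    apply hit_succ
    rw [F_L (show x ∈ Iio (-1 : ℝ) from hx)]
    exact hit_mono (by omega) h4
  · subst hx
    have h4 : hit (Iio (-1)) (Ici b) (0 + 1 + 1) (-1) := by
      have g1 : (-1 : ℝ) ∉ Iio (-1 : ℝ) := by simp
      have g2 : (-1 : ℝ) ∉ Ici b := by simp only [mem_Ici, not_le]; linarith
      apply hit_succ
      rw [F_S g1 g2]
      apply hit_succ
      rw [F_U (by simp only [mem_Iio]; norm_num) (by simp only [mem_Ici]; norm_num; linarith)]
      rw [hit_zero_iff]
      norm_num
    exact hit_mono (by omega) h4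
  · rcases lt_or_ge x a with hxa | hxa
    · rw [F_L (show x ∈ Iio a from hxa)] at h3
      have hx1 : 0 < x + 1 := by linarith
      obtain ⟨n2, e2, h4⟩ := hit_pred (ne_of_gt hx1) h3
      rw [F_S (by simp only [mem_Iio, not_lt]; linarith)
        (by simp only [mem_Ici, not_le]; linarith)] at h4
      have h5 : -1 / (x + 1) < -1 := by
        rw [div_lt_iff₀ hx1]; linarith
      obtain ⟨n3, e3, h6⟩ := hit_pred (by linarith) h4
      rw [F_L (show -1 / (x + 1) ∈ Iio a by simp only [mem_Iio]; linarith)] at h6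
      have e4 : -1 / (x + 1) + 1 = x / (x + 1) := by
        have : x + 1 ≠ 0 := ne_of_gt hx1
        field_simp
        ring
      rw [e4] at h6
      have h7 := ih n3 (by omega) _ h6
      have hxneg : x < 0 := by linarith
      have h8 : 1 < -1 / x := by
        rw [lt_div_iff_of_neg hxneg]; linarith
      have h9 : -1 / x < b + 1 := by
        rw [div_lt_iff_of_neg hxneg]
        have : (b + 1) * x < (b + 1) * (-1 / (b + 1)) := by
          apply mul_lt_mul_of_pos_left _ hbb
          linarith
        rw [mul_div_cancel₀ _ (ne_of_gt hbb)] at this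
        exact this
      have e5 : -1 / (-1 / x - 1) = x / (x + 1) := by
        have h10 : x ≠ 0 := ne_of_lt hxneg
        have h11 : x + 1 ≠ 0 := ne_of_gt hx1
        have : -1 / x - 1 = -(x + 1) / x := by field_simp; ring
        rw [this]
        field_simp
      have h12 : hit (Iio (-1)) (Ici b) (n3 + 1 + 1 + 1 + 1) x := by
        apply hit_succ
        rw [F_S (by simp only [mem_Iio, not_lt]; linarith)
          (by simp only [mem_Ici, not_le]; linarith)]
        apply hit_succ
        rw [F_U (by simp only [mem_Iio, not_lt]; linarith)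
          (by simp only [mem_Ici]; linarith)]
        apply hit_succ
        rw [F_S (by simp only [mem_Iio, not_lt]; linarith)
          (by simp only [mem_Ici, not_le]; linarith), e5]
        exact h7
      exact hit_mono (by omega) h12
    · have h4 := ih n1 (by omega) _ h3
      have e6 : F (Iio (-1)) (Ici b) x = F (Iio a) (Ici b) x := by
        have g1 : x ∉ Iio (-1 : ℝ) := by simp only [mem_Iio, not_lt]; linarith
        have g2 : x ∉ Iio a := not_lt.mpr hxa
        by_cases g3 : x ∈ Ici b
        · rw [F_U g1 g3, F_U g2 g3]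
        · rw [F_S g1 g3, F_S g2 g3]
      apply hit_succ
      rw [e6]
      exact hit_mono (by omega) h4

theorem plateau_inP {a b : ℝ} (hb0 : 0 ≤ b) (hb : b ≤ 1 / 2) (h1 : -1 ≤ a)
    (h2 : a ≤ -1 / (b + 1)) : InP a b := by
  have hbb : 0 < b + 1 := by linarith
  have h3 : a * (b + 1) ≤ -1 := by rwa [le_div_iff₀ hbb] at h2
  have haneg : a < 0 := lt_of_le_of_lt h2 (div_neg_of_neg_of_pos (by norm_num) hbb)
  refine ⟨haneg.le, hb0, ?_, ?_⟩
  · nlinarith
  · nlinarith

theorem plateau_ent {a b : ℝ} (hb0 : 0 ≤ b) (hb : b ≤ 1 / 2) (h1 : -1 ≤ a)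
    (h2 : a ≤ -1 / (b + 1)) (h : InP a b) (h' : InP (-1) b) :
    ent a b (Iio a) (Ici b) h.pol = ent (-1) b (Iio (-1)) (Ici b) h'.pol := by
  have ha12 : a ≤ -1 / 2 := by have := h.2.2.1; linarith
  apply le_antisymm
  · rcases eq_or_lt_of_le hb0 with h3 | h3
    · subst h3
      have : a = -1 := by
        apply le_antisymm _ h1
        rw [zero_add, div_one] at h2
        exact h2
      subst this
      exact le_refl _
    · apply ent_le_of_zz h.pol h'.pol 1 1 one_pos
      intro n
      rw [one_mul]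
      exact Set.ncard_le_ncard (fun x hx => plateau_hit h3 hb h1 h2 n x hx) (ZZ_finite _)
  · exact mono_region h' h h1 (le_refl _) ha12 (by linarith)

end Q66.Ab
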