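import Mathlib
import Pool.Agent.Q66.Ab6

/-!
# Universal bounds for the entropy
-/

namespace Q66.Ab

open Set Filter Topology

variable {a b : ℝ} {L U : Set ℝ}

theorem good_or_mirror (h : InP a b) :
    Good a b (Iio a) (Ici b) ∨ Good (-b) (-a) (mir (Ici b)) (mir (Iio a)) := by
  by_cases hc : a ≤ -1 / 2 ∧ b ≤ 1
  · exact Or.inl (h.good hc.2 hc.1)
  · right
    have h1 := h.2.2.1
    have h2 := h.2.2.2
    have h3 := h.1
    have h4 : -1 < a ∧ 1 / 2 < b := by
      rcases not_and_or.mp hc with h5 | h5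
      · push Not at h5
        constructor <;> linarith
      · push Not at h5
        constructor
        · by_contra h6
          push Not at h6
          nlinarith
        · linarith
    exact { h.pol.mirror with
      g1 := by
        show -(1 : ℝ) < a
        exact h4.1
      g2 := by
        show ¬ (b ≤ -(-1 / 2 : ℝ))
        push Not
        linarith [h4.2] }

/-! ### Lower bound -/

/-- the hitting points larger than one -/
def AA (L U : Set ℝ) (n : ℕ) : Set ℝ := {x | 1 < x ∧ hit L U n x}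

theorem AA_finite (n : ℕ) : (AA L U n).Finite := (ZZ_finite n).subset fun _ hx => hx.2

theorem Good.hit_neg_inv (P : Good a b L U) {n : ℕ} {x : ℝ} (hx : 0 < x) (h : hit L U n x) :
    hit L U (n + 1) (-1 / x) := P.splus n x hx h

theorem Good.hit_block (P : Good a b L U) {n : ℕ} {x : ℝ} (hx : 1 < x) (h : hit L U n x) :
    hit L U (n + 3) (2 - 1 / x) := by
  have hx0 : 0 < x := by linarith
  have h1 : hit L U (n + 1) (-1 / x) := P.hit_neg_inv hx0 h
  have hlt : 1 / x < 1 := by rw [div_lt_one hx0]; exact hx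
  have hw : 0 < 1 - 1 / x := by linarith
  have e1 : (1 - 1 / x) - 1 = -1 / x := by ring
  have h2 : hit L U (n + 2) (1 - 1 / x) := by
    apply hit_succ
    by_cases hU : (1 - 1 / x) ∈ U
    · rw [P.FU hw hU, e1]; exact h1
    · rw [P.FSpos hw hU]
      apply P.p2 hw hU
      rw [e1]; exact h1
  apply hit_succ
  have hpos : 0 < 1 / x := by positivity
  rw [P.FU (show 0 < 2 - 1 / x by linarith) (P.one_le (by linarith))]
  rw [show 2 - 1 / x - 1 = 1 - 1 / x by ring]
  exact h2

theorem Good.hit_add_one (P : Good a b L U) {n : ℕ} {x : ℝ} (hx : 0 < x) (h : hit L U n x) :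
    hit L U (n + 1) (x + 1) := by
  apply hit_succ
  rw [P.FU (show 0 < x + 1 by linarith) (P.one_le (by linarith)), add_sub_cancel_right]
  exact h

theorem AA_rec (P : Good a b L U) (n : ℕ) :
    (AA L U (n + 2)).ncard + (AA L U n).ncard ≤ (AA L U (n + 3)).ncard := by
  have h1 : ((fun x : ℝ => x + 1) '' AA L U (n + 2)).ncard = (AA L U (n + 2)).ncard :=
    Set.ncard_image_of_injective _ (add_left_injective 1)
  have h2 : ((fun x : ℝ => 2 - 1 / x) '' AA L U n).ncard = (AA L U n).ncard := by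
    apply Set.InjOn.ncard_image
    intro x hx y hy hxy
    have h3 : 1 / x = 1 / y := by
      have : 2 - 1 / x = 2 - 1 / y := hxy
      linarith
    have hx0 : x ≠ 0 := by have := hx.1; linarith
    have hy0 : y ≠ 0 := by have := hy.1; linarith
    field_simp at h3
    exact h3.symm
  rw [← h1, ← h2, ← Set.ncard_union_eq _ ((AA_finite _).image _) ((AA_finite _).image _)]
  · apply Set.ncard_le_ncard _ (AA_finite _)
    rintro _ (⟨x, hx, rfl⟩ | ⟨x, hx, rfl⟩)
    · exact ⟨by have := hx.1; simp only; linarith, P.hit_add_one (by linarith [hx.1]) hx.2⟩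
    · refine ⟨?_, P.hit_block hx.1 hx.2⟩
      have : 1 / x < 1 := by rw [div_lt_one (by linarith [hx.1])]; exact hx.1
      simp only
      linarith
  · rw [Set.disjoint_left]
    rintro _ ⟨x, hx, rfl⟩ ⟨y, hy, hxy⟩
    have h3 : 0 < 1 / y := by have := hy.1; positivity
    have h4 := hx.1
    simp only at hxy
    linarith

theorem AA_nonempty (P : Good a b L U) (n : ℕ) : 1 ≤ (AA L U (n + 2)).ncard := by
  have : 0 < (AA L U (n + 2)).ncard := by
    rw [Set.ncard_pos (AA_finite _)]
    refine ⟨2, by norm_num, hit_mono (m := 2) (by omega) ?_⟩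
    apply hit_succ
    rw [P.FU (by norm_num) (P.one_le (by norm_num))]
    apply hit_succ
    rw [P.FU (by norm_num) (P.one_le (by norm_num)), hit_zero_iff]
    norm_num
  exact this

theorem kappa_gt {κ : ℝ} (hκ : κ ^ 3 - κ ^ 2 - 1 = 0) : 1 < κ := by
  by_contra hc
  push Not at hc
  nlinarith [sq_nonneg κ, mul_nonneg (sq_nonneg κ) (sub_nonneg.mpr hc)]

theorem AA_lower (P : Good a b L U) {κ : ℝ} (hκ : κ ^ 3 - κ ^ 2 - 1 = 0) (n : ℕ) :
    κ ^ n ≤ κ ^ 2 * (AA L U (n + 2)).ncard := by
  have h1 := kappa_gt hκ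
  have key : ∀ n, κ ^ n ≤ κ ^ 2 * (AA L U (n + 2)).ncard ∧
      κ ^ (n + 1) ≤ κ ^ 2 * (AA L U (n + 1 + 2)).ncard ∧
      κ ^ (n + 2) ≤ κ ^ 2 * (AA L U (n + 2 + 2)).ncard := by
    intro n
    induction n with
    | zero =>
      have e0 : (1 : ℝ) ≤ (AA L U (0 + 2)).ncard := by exact_mod_cast AA_nonempty P 0
      have e1 : (1 : ℝ) ≤ (AA L U (0 + 1 + 2)).ncard := by exact_mod_cast AA_nonempty P 1
      have e2 : (1 : ℝ) ≤ (AA L U (0 + 2 + 2)).ncard := by exact_mod_cast AA_nonempty P 2
      have k2 : κ ^ (0 + 1) ≤ κ ^ 2 := pow_le_pow_right₀ h1.le (by norm_num)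
      have k0 : κ ^ 0 ≤ κ ^ 2 := pow_le_pow_right₀ h1.le (by norm_num)
      have k3 : (0 : ℝ) ≤ κ ^ 2 := by positivity
      refine ⟨?_, ?_, ?_⟩
      · nlinarith
      · nlinarith
      · rw [zero_add]; nlinarith
    | succ n ih =>
      obtain ⟨i1, i2, i3⟩ := ih
      refine ⟨i2, by convert i3 using 2, ?_⟩
      have h2 := AA_rec P (n + 2)
      have h3 : ((AA L U (n + 2 + 2)).ncard : ℝ) + (AA L U (n + 2)).ncard ≤
          (AA L U (n + 2 + 3)).ncard := by exact_mod_cast h2
      have h4 : κ ^ (n + 1 + 2) = κ ^ (n + 2) + κ ^ n := by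
        have : κ ^ 3 = κ ^ 2 + 1 := by linarith
        calc κ ^ (n + 1 + 2) = κ ^ n * κ ^ 3 := by ring
          _ = κ ^ n * (κ ^ 2 + 1) := by rw [this]
          _ = _ := by ring
      rw [h4, show n + 1 + 2 + 2 = n + 2 + 3 by ring]
      have h5 : (0 : ℝ) ≤ κ ^ 2 := by positivity
      nlinarith
  exact (key n).1

theorem Good.ent_lower (P : Good a b L U) {κ : ℝ} (hκ : κ ^ 3 - κ ^ 2 - 1 = 0) :
    Real.log κ ≤ ent a b L U P.toPol := by
  have h1 := kappa_gt hκ
  have h2 := tendsto_shift 2 (zz_tendsto P.toPol)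
  have h3 : Tendsto (fun n : ℕ => Real.log κ - (2 * Real.log κ) / n) atTop
      (𝓝 (Real.log κ - 0)) :=
    tendsto_const_nhds.sub (tendsto_const_div_atTop_nhds_zero_nat _)
  rw [sub_zero] at h3
  apply le_of_tendsto_of_tendsto h3 h2
  filter_upwards [eventually_gt_atTop 0] with n hn
  have hn' : (0 : ℝ) < n := by exact_mod_cast hn
  rw [le_div_iff₀ hn', sub_mul, div_mul_cancel₀ _ (ne_of_gt hn')]
  have h4 := AA_lower P hκ n
  have h5 : ((AA L U (n + 2)).ncard : ℝ) ≤ zz L U (n + 2) := by
    exact_mod_cast Set.ncard_le_ncard (show AA L U (n + 2) ⊆ ZZ L U (n + 2) from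
      fun _ hx => hx.2) (ZZ_finite _)
  have h6 : (1 : ℝ) ≤ (AA L U (n + 2)).ncard := by exact_mod_cast AA_nonempty P n
  have h7 : κ ^ n ≤ κ ^ 2 * zz L U (n + 2) := h4.trans
    (mul_le_mul_of_nonneg_left h5 (by positivity))
  have hκ0 : 0 < κ := by linarith
  have hz0 : (zz L U (n + 2) : ℝ) ≠ 0 := by
    have := one_le_zz (L := L) (U := U) (n + 2)
    positivity
  have h8 := Real.log_le_log (by positivity) h7
  rw [Real.log_pow, Real.log_mul (by positivity) hz0, Real.log_pow] at h8
  push_cast at h8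
  linarith

/-! ### Upper bound: the distance policy -/

theorem DPol : Good (-1) 1 (Iic (-1)) (Ici 1) where
  ha := by norm_num
  hb := by norm_num
  l1 x hx := le_of_lt hx
  l2 x hx := hx
  u1 x hx := le_of_lt hx
  u2 x hx := hx
  t1 x hx := by
    have : x ≤ -1 := hx
    simp only [mem_Ici, not_le]
    linarith
  s1 x hx h2 := by
    have : -1 < x := not_le.mp h2
    simp only [mem_Ici]
    rw [le_div_iff_of_neg hx]
    linarith
  g1 := le_refl (1 : ℝ)
  g2 := by simp only [mem_Iic, not_le]; norm_num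

theorem mir_Ici (c : ℝ) : mir (Ici c) = Iic (-c) := by
  ext x
  simp only [mir, Set.mem_ofPred_eq, mem_Ici, mem_Iic]
  constructor <;> intro h <;> linarith

theorem mir_Iic (c : ℝ) : mir (Iic c) = Ici (-c) := by
  ext x
  simp only [mir, Set.mem_ofPred_eq, mem_Ici, mem_Iic]
  constructor <;> intro h <;> linarith

/-- hitting for the distance policy -/
def dh (n : ℕ) (x : ℝ) : Prop := hit (Iic (-1)) (Ici 1) n x

theorem dh_neg {n : ℕ} {x : ℝ} (h : dh n x) : dh n (-x) := by
  have h1 := (hit_mirror DPol.toPol n x).mpr h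
  rw [mir_Ici, mir_Iic, neg_neg] at h1
  exact h1

theorem dh_S {n : ℕ} {x : ℝ} (h : dh n x) : dh (n + 1) (-1 / x) := by
  rcases lt_trichotomy x 0 with hx | hx | hx
  · have h1 := DPol.splus n (-x) (by linarith) (dh_neg h)
    have h2 := dh_neg h1
    rwa [div_neg, neg_neg] at h2
  · subst hx
    simp only [div_zero]
    exact hit_of_zero _
  · exact DPol.splus n x hx h

theorem dh_T {n : ℕ} {x : ℝ} (h : dh n x) : dh (n + 1) (x + 1) := by
  rcases le_or_gt 0 x with hx | hx
  · apply hit_succ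
    rw [DPol.FU (show 0 < x + 1 by linarith) (show (1 : ℝ) ≤ x + 1 by linarith),
      add_sub_cancel_right]
    exact h
  · obtain ⟨n1, e1, h1⟩ := hit_pred (ne_of_lt hx) h
    rcases le_or_gt x (-1) with hx1 | hx1
    · rw [F_L (show x ∈ Iic (-1 : ℝ) from hx1)] at h1
      exact hit_mono (by omega) h1
    · have hL : x ∉ Iic (-1 : ℝ) := not_le.mpr hx1
      rw [DPol.FSneg hx hL] at h1
      have h2 : 1 < -1 / x := by rw [lt_div_iff_of_neg hx]; linarith
      obtain ⟨n2, e2, h3⟩ := hit_pred (by linarith) h1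
      rw [DPol.FU (by linarith) (show (1 : ℝ) ≤ -1 / x from h2.le)] at h3
      have h4 := dh_S h3
      have hx1' : 0 < x + 1 := by linarith
      have e5 : -1 / (-1 / x - 1) = x / (x + 1) := by
        have h10 : x ≠ 0 := ne_of_lt hx
        have h11 : x + 1 ≠ 0 := ne_of_gt hx1'
        have : -1 / x - 1 = -(x + 1) / x := by field_simp; ring
        rw [this]
        field_simp
      rw [e5] at h4
      have h5 : -1 / (x + 1) < -1 := by
        rw [div_lt_iff₀ hx1']; linarith
      have e4 : -1 / (x + 1) + 1 = x / (x + 1) := by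
        have : x + 1 ≠ 0 := ne_of_gt hx1'
        field_simp
        ring
      have h6 : dh (n2 + 1 + 1 + 1) (x + 1) := by
        apply hit_succ
        rw [DPol.FSpos hx1' (show x + 1 ∉ Ici (1 : ℝ) by simp only [mem_Ici, not_le]; linarith)]
        apply hit_succ
        rw [F_L (show -1 / (x + 1) ∈ Iic (-1 : ℝ) from h5.le), e4]
        exact h4
      exact hit_mono (by omega) h6

theorem dh_T' {n : ℕ} {x : ℝ} (h : dh n x) : dh (n + 1) (x - 1) := by
  have h1 := dh_neg (dh_T (dh_neg h))
  rwa [show -(-x + 1) = x - 1 by ring] at h1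

/-- Every policy is at most as fast as the distance policy. -/
theorem hit_le_dh (n : ℕ) : ∀ x : ℝ, hit L U n x → dh n x := by
  induction n with
  | zero => intro x h; rw [hit_zero_iff] at h; subst h; exact hit_of_zero _
  | succ n ih =>
    intro x h
    rw [hit_succ_iff] at h
    rcases h with h | h
    · subst h; exact hit_of_zero _
    · have h1 := ih _ h
      rcases F_cases (L := L) (U := U) x with h2 | h2 | h2
      · rw [h2] at h1
        have := dh_T' h1
        rwa [add_sub_cancel_right] at this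
      · rw [h2] at h1
        have := dh_T h1
        rwa [sub_add_cancel] at this
      · rw [h2] at h1
        have := dh_S h1
        rwa [neg_one_div_invol] at this

/-- counts of the distance policy -/
theorem dh_count (n : ℕ) : ∃ α β : ℕ, (ZZ (Iic (-1 : ℝ)) (Ici 1) n).ncard ≤ α + β ∧
    ({x | dh n x ∧ 1 ≤ |x|}).ncard ≤ α ∧ ({x | dh n x ∧ |x| < 1}).ncard ≤ β ∧
    (α : ℝ) + 2 ≤ 4 * Real.goldenRatio ^ n ∧ (β : ℝ) ≤ 4 * Real.goldenRatio ^ n ∧
    (α : ℝ) + β + 3 ≤ 4 * Real.goldenRatio ^ (n + 1) := by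
  have hφ := Real.one_lt_goldenRatio
  have hφ2 := Real.goldenRatio_sq
  have split : ∀ n, (ZZ (Iic (-1 : ℝ)) (Ici 1) n).ncard ≤
      ({x | dh n x ∧ 1 ≤ |x|}).ncard + ({x | dh n x ∧ |x| < 1}).ncard := by
    intro n
    have : ZZ (Iic (-1 : ℝ)) (Ici 1) n = {x | dh n x ∧ 1 ≤ |x|} ∪ {x | dh n x ∧ |x| < 1} := by
      ext x
      constructor
      · intro hx
        rcases le_or_gt 1 |x| with h | h
        · exact Or.inl ⟨hx, h⟩
        · exact Or.inr ⟨hx, h⟩
      · rintro (hx | hx)
        · exact hx.1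
        · exact hx.1
    rw [this]
    exact Set.ncard_union_le _ _
  induction n with
  | zero =>
    refine ⟨0, 1, ?_, ?_, ?_, ?_, ?_, ?_⟩
    · have : ZZ (Iic (-1 : ℝ)) (Ici 1) 0 ⊆ {0} := fun x hx => hit_zero_iff.mp hx
      have := Set.ncard_le_ncard this (Set.toFinite _)
      rw [Set.ncard_singleton] at this
      omega
    · have : {x : ℝ | dh 0 x ∧ 1 ≤ |x|} = ∅ := by
        rw [Set.eq_empty_iff_forall_notMem]
        rintro x ⟨h1, h2⟩
        rw [hit_zero_iff.mp h1] at h2
        norm_num at h2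
      rw [this, Set.ncard_empty]
    · have : {x : ℝ | dh 0 x ∧ |x| < 1} ⊆ {0} := fun x hx => hit_zero_iff.mp hx.1
      have := Set.ncard_le_ncard this (Set.toFinite _)
      rwa [Set.ncard_singleton] at this
    · norm_num
    · norm_num
    · norm_num
      linarith
  | succ n ih =>
    obtain ⟨α, β, h0, h1, h2, h3, h4, h5⟩ := ih
    have hZ : (ZZ (Iic (-1 : ℝ)) (Ici 1) n).Finite := ZZ_finite n
    have hA : ({x | dh (n + 1) x ∧ 1 ≤ |x|}).ncard ≤ α + β + 1 := by
      have hsub : {x | dh (n + 1) x ∧ 1 ≤ |x|} ⊆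
          insert (-1) ((fun y : ℝ => if 0 ≤ y then y + 1 else y - 1) ''
            ZZ (Iic (-1 : ℝ)) (Ici 1) n) := by
        rintro x ⟨hx1, hx2⟩
        have hx0 : x ≠ 0 := by rintro rfl; norm_num at hx2
        obtain ⟨m, e, hm⟩ := hit_pred hx0 hx1
        have e' : m = n := by omega
        subst e'
        rcases le_or_gt 0 x with hx | hx
        · rw [abs_of_nonneg hx] at hx2
          rw [DPol.FU (by linarith) (show (1 : ℝ) ≤ x from hx2)] at hm
          right
          refine ⟨x - 1, hm, ?_⟩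
          simp only
          rw [if_pos (by linarith)]; ring
        · rw [abs_of_neg hx] at hx2
          rw [F_L (show x ∈ Iic (-1 : ℝ) by simp only [mem_Iic]; linarith)] at hm
          rcases eq_or_lt_of_le (show x ≤ -1 by linarith) with h | h
          · left; exact h
          · right
            refine ⟨x + 1, hm, ?_⟩
            simp only
            rw [if_neg (by linarith)]; ring
      have g1 := Set.ncard_le_ncard hsub ((hZ.image _).insert _)
      have g2 := Set.ncard_insert_le (-1 : ℝ) ((fun y : ℝ => if 0 ≤ y then y + 1 else y - 1) ''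
            ZZ (Iic (-1 : ℝ)) (Ici 1) n)
      have g3 := Set.ncard_image_le hZ (f := fun y : ℝ => if 0 ≤ y then y + 1 else y - 1)
      omega
    have hB : ({x | dh (n + 1) x ∧ |x| < 1}).ncard ≤ α + 1 := by
      have hfin : ({x | dh n x ∧ 1 ≤ |x|}).Finite := hZ.subset fun _ hx => hx.1
      have hsub : {x | dh (n + 1) x ∧ |x| < 1} ⊆
          insert 0 ((fun y : ℝ => -1 / y) '' {x | dh n x ∧ 1 ≤ |x|}) := by
        rintro x ⟨hx1, hx2⟩
        by_cases hx0 : x = 0
        · left; exact hx0
        obtain ⟨m, e, hm⟩ := hit_pred hx0 hx1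
        have e' : m = n := by omega
        subst e'
        rw [abs_lt] at hx2
        rw [F_S (show x ∉ Iic (-1 : ℝ) from not_le.mpr hx2.1)
          (show x ∉ Ici (1 : ℝ) from not_le.mpr hx2.2)] at hm
        right
        refine ⟨-1 / x, ⟨hm, ?_⟩, neg_one_div_invol x⟩
        rw [abs_div, abs_neg, abs_one, le_div_iff₀ (abs_pos.mpr hx0), one_mul]
        exact (abs_lt.mpr hx2).le
      have g1 := Set.ncard_le_ncard hsub ((hfin.image _).insert _)
      have g2 := Set.ncard_insert_le (0 : ℝ) ((fun y : ℝ => -1 / y) '' {x | dh n x ∧ 1 ≤ |x|})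
      have g3 := Set.ncard_image_le hfin (f := fun y : ℝ => -1 / y)
      omega
    refine ⟨α + β + 1, α + 1, ?_, hA, hB, ?_, ?_, ?_⟩
    · have := split (n + 1)
      omega
    · push_cast; linarith
    · push_cast
      have : Real.goldenRatio ^ n ≤ Real.goldenRatio ^ (n + 1) :=
        pow_le_pow_right₀ hφ.le (by omega)
      linarith
    · push_cast
      have : Real.goldenRatio ^ (n + 1 + 1) = Real.goldenRatio ^ (n + 1) + Real.goldenRatio ^ n := by
        calc Real.goldenRatio ^ (n + 1 + 1) = Real.goldenRatio ^ n * Real.goldenRatio ^ 2 := by ring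
          _ = Real.goldenRatio ^ n * (Real.goldenRatio + 1) := by rw [hφ2]
          _ = _ := by ring
      rw [this]
      linarith

theorem ent_upper (P : Pol a b L U) : ent a b L U P ≤ Real.log Real.goldenRatio := by
  have hφ := Real.one_lt_goldenRatio
  have h2 := zz_tendsto P
  have h3 : Tendsto (fun n : ℕ => Real.log Real.goldenRatio + Real.log 8 / n) atTop
      (𝓝 (Real.log Real.goldenRatio + 0)) :=
    tendsto_const_nhds.add (tendsto_const_div_atTop_nhds_zero_nat _)
  rw [add_zero] at h3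
  apply le_of_tendsto_of_tendsto h2 h3
  filter_upwards [eventually_gt_atTop 0] with n hn
  have hn' : (0 : ℝ) < n := by exact_mod_cast hn
  rw [div_le_iff₀ hn', add_mul, div_mul_cancel₀ _ (ne_of_gt hn')]
  obtain ⟨α, β, h4, -, -, h5, h6, -⟩ := dh_count n
  have h7 : zz L U n ≤ α + β := by
    refine le_trans ?_ h4
    exact Set.ncard_le_ncard (fun x hx => hit_le_dh n x hx) (ZZ_finite n)
  have h8 : (zz L U n : ℝ) ≤ 8 * Real.goldenRatio ^ n := by
    have : (zz L U n : ℝ) ≤ α + β := by exact_mod_cast h7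
    linarith
  have h9 : (1 : ℝ) ≤ zz L U n := by exact_mod_cast one_le_zz n
  have h10 := Real.log_le_log (by linarith) h8
  rw [Real.log_mul (by norm_num) (by positivity), Real.log_pow] at h10
  linarith

theorem InP.ent_bounds (h : InP a b) {κ : ℝ} (hκ : κ ^ 3 - κ ^ 2 - 1 = 0) :
    Real.log κ ≤ ent a b (Iio a) (Ici b) h.pol ∧
      ent a b (Iio a) (Ici b) h.pol ≤ Real.log Real.goldenRatio := by
  refine ⟨?_, ent_upper h.pol⟩
  rcases good_or_mirror h with h1 | h1
  · exact h1.ent_lower hκ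
  · rw [← ent_mirror h.pol]
    exact h1.ent_lower hκ

end Q66.Ab
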