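import Mathlib
import Pool.Agent.Q66.Ab7

/-!
# Left companions and almost submultiplicativity of the hitting counts
-/

namespace Q66.Ab

open Set Filter Topology

variable {a b : ℝ} {L U : Set ℝ}

/-- offset of the end point of a path -/
noncomputable def sf (y : ℝ) : ℝ :=
  if y < -1 then -1 / y else if y < 0 then y + 1 else if y < 1 then y else y - 1

/-- companion data -/
structure Comp (L U : Set ℝ) (m : ℕ) (x s : ℝ) (p q α γ : ℤ) : Prop where
  det : α * q - γ * p = 1
  pos : 0 < (q : ℝ) + s * γ
  eq : x * ((q : ℝ) + s * γ) = p + s * α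
  bα : |α| ≤ m * |p| + 1
  bγ : |γ| ≤ m * |q| + 1
  hq : (q = 0 ∧ p = -1) ∨ (0 < q ∧ hit L U (m + 2) ((p : ℝ) / q))
  c1 : 0 < x → 0 < q ∧ 0 ≤ p
  c2 : 1 ≤ x → q ≤ p
  c3 : x ∉ L → -1 ≤ x → x < 0 → 0 < q ∧ -q ≤ p
  sn : 0 ≤ s

theorem bound_step {m : ℕ} {p q α γ : ℤ} (det : α * q - γ * p = 1)
    (hγ : |γ| ≤ m * |q| + 1) (hα0 : q = 0 → |α| ≤ (m + 1) * |p| + 1) :
    |α| ≤ (m + 1) * |p| + 1 := by
  by_cases hq : q = 0
  · exact hα0 hq
  · have hq1 : 1 ≤ |q| := Int.one_le_abs hq
    have h1 : |α| * |q| ≤ 1 + |γ| * |p| := by
      rw [← abs_mul, ← abs_mul]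
      have : α * q = 1 + γ * p := by linarith
      rw [this]
      calc |1 + γ * p| ≤ |(1 : ℤ)| + |γ * p| := abs_add_le _ _
        _ = 1 + |γ * p| := by simp
    have h2 : |γ| * |p| ≤ (m * |q| + 1) * |p| := mul_le_mul_of_nonneg_right hγ (abs_nonneg _)
    have h3 : |α| * |q| ≤ ((m + 1) * |p| + 1) * |q| := by
      have h4 : 0 ≤ |p| := abs_nonneg p
      nlinarith
    exact le_of_mul_le_mul_right h3 (by linarith)

theorem hit_one (P : Good a b L U) : hit L U 1 1 := by
  apply hit_succ
  rw [P.FU (by norm_num) (P.one_le (le_refl _)), hit_zero_iff]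
  norm_num

theorem hit_neg_one (P : Good a b L U) : hit L U 2 (-1) := by
  have := P.splus 1 1 (by norm_num) (hit_one P)
  norm_num at this
  exact this

theorem comp_base (P : Good a b L U) {x : ℝ} (hx : x ≠ 0) :
    ∃ p q α γ, Comp L U 0 x (sf x) p q α γ := by
  unfold sf
  rcases lt_or_ge x (-1) with h1 | h1
  · rw [if_pos h1]
    have hx0 : x < 0 := by linarith
    have hs : 0 < -1 / x := div_pos_of_neg_of_neg (by norm_num) hx0
    refine ⟨-1, 0, 0, 1, ?_⟩
    constructor
    · norm_num
    · push_cast; linarith
    · push_cast; field_simp; ring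
    · norm_num
    · norm_num
    · left; exact ⟨rfl, rfl⟩
    · intro h; linarith
    · intro h; linarith
    · intro _ h; linarith
    · exact hs.le
  · rw [if_neg (not_lt.mpr h1)]
    rcases lt_or_ge x 0 with h2 | h2
    · rw [if_pos h2]
      refine ⟨-1, 1, 1, 0, ?_⟩
      constructor
      · norm_num
      · push_cast; linarith
      · push_cast; ring
      · norm_num
      · norm_num
      · right
        refine ⟨by norm_num, ?_⟩
        have := hit_neg_one P
        norm_num
        exact this
      · intro h; linarith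
      · intro h; linarith
      · intro _ _ _; norm_num
      · linarith
    · rw [if_neg (not_lt.mpr h2)]
      have h3 : 0 < x := lt_of_le_of_ne h2 (Ne.symm hx)
      rcases lt_or_ge x 1 with h4 | h4
      · rw [if_pos h4]
        refine ⟨0, 1, 1, 0, ?_⟩
        constructor
        · norm_num
        · push_cast; linarith
        · push_cast; ring
        · norm_num
        · norm_num
        · right
          refine ⟨by norm_num, ?_⟩
          norm_num
          exact hit_of_zero _
        · intro _; norm_num
        · intro h; linarith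
        · intro _ _ h; linarith
        · exact h2
      · rw [if_neg (not_lt.mpr h4)]
        refine ⟨1, 1, 1, 0, ?_⟩
        constructor
        · norm_num
        · push_cast; linarith
        · push_cast; ring
        · norm_num
        · norm_num
        · right
          refine ⟨by norm_num, ?_⟩
          norm_num
          exact hit_mono (by norm_num) (hit_one P)
        · intro _; norm_num
        · intro _; norm_num
        · intro _ _ h; linarith
        · linarith

/-- the companion is to the left -/
theorem Comp.le {m : ℕ} {x s : ℝ} {p q α γ : ℤ} (C : Comp L U m x s p q α γ) (hq : 0 < q) :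
    (p : ℝ) / q ≤ x := by
  have hq' : (0 : ℝ) < q := by exact_mod_cast hq
  rw [div_le_iff₀ hq']
  have h1 := C.pos
  have h2 := C.eq
  have h3 : (α : ℝ) * q - γ * p = 1 := by exact_mod_cast C.det
  have h4 := C.sn
  have h5 : (x * q - p) * (q + s * γ) = s := by
    have : (x * q - p) * (q + s * γ) = x * (q + s * γ) * q - p * (q + s * γ) := by ring
    rw [this, h2]
    have : (p + s * α) * q - p * (q + s * γ) = s * (α * q - γ * p) := by ring
    rw [this, h3, mul_one]
  by_contra hc
  push Not at hc
  have : (x * q - p) * (q + s * γ) < 0 := mul_neg_of_neg_of_pos (by linarith) h1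
  linarith

theorem comp_step (P : Good a b L U) {m : ℕ} {x s : ℝ} (hx : x ≠ 0) {p q α γ : ℤ}
    (hx1 : F L U x ≠ 0) (C : Comp L U m (F L U x) s p q α γ) :
    ∃ p' q' α' γ', Comp L U (m + 1) x s p' q' α' γ' := by
  have det := C.det
  have pos := C.pos
  have eq := C.eq
  have bα := C.bα
  have bγ := C.bγ
  have bγ' : |γ| ≤ ((m + 1 : ℕ) : ℤ) * |q| + 1 := by
    push_cast
    nlinarith [abs_nonneg q]
  have bα' : |α| ≤ ((m + 1 : ℕ) : ℤ) * |p| + 1 := by
    push_cast
    nlinarith [abs_nonneg p]
  rcases lt_or_gt_of_ne hx with hneg | hpos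
  · by_cases hL : x ∈ L
    · -- T step
      rw [F_L hL] at C eq hx1
      refine ⟨p - q, q, α - γ, γ, ?_⟩
      constructor
      · linarith
      · exact pos
      · push_cast; linarith
      · push_cast
        apply bound_step (m := m) (q := q) (γ := γ) _ bγ
        · intro hq
          rcases C.hq with ⟨h1, h2⟩ | ⟨h1, h2⟩
          · subst h1 h2
            simp only [abs_neg, abs_one] at bα
            have h3 : |α - γ| ≤ |α| + |γ| := abs_sub _ _
            have h4 : |γ| ≤ 1 := by simpa using bγ
            simp only [sub_zero, abs_neg, abs_one]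
            linarith
          · omega
        · linarith
      · exact bγ'
      · rcases C.hq with ⟨h1, h2⟩ | ⟨h1, h2⟩
        · left
          subst h1 h2
          exact ⟨rfl, rfl⟩
        · right
          refine ⟨h1, ?_⟩
          have hq' : (0 : ℝ) < q := by exact_mod_cast h1
          have hle := C.le h1
          have e1 : ((p - q : ℤ) : ℝ) / q = (p : ℝ) / q - 1 := by
            push_cast; field_simp
          have hzL : ((p - q : ℤ) : ℝ) / q ∈ L := by
            rw [e1]
            rcases eq_or_lt_of_le (show (p : ℝ) / q - 1 ≤ x by linarith) with h | h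
            · rw [h]; exact hL
            · exact P.lowerL hL h
          rw [show m + 1 + 2 = (m + 2) + 1 by ring]
          apply hit_succ
          rw [F_L hzL, e1, sub_add_cancel]
          exact h2
      · intro h; linarith
      · intro h; linarith
      · intro h; exact absurd hL h
      · exact C.sn
    · -- S step from a negative point
      rw [P.FSneg hneg hL] at C eq hx1
      have hx1pos : 0 < -1 / x := div_pos_of_neg_of_neg (by norm_num) hneg
      obtain ⟨hq0, hp0⟩ := C.c1 hx1pos
      have hq' : (0 : ℝ) < q := by exact_mod_cast hq0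
      have hD : 0 < (p : ℝ) + s * α := by rw [← eq]; exact mul_pos hx1pos pos
      refine ⟨-q, p, -γ, α, ?_⟩
      constructor
      · linarith
      · exact hD
      · push_cast
        rw [← eq]
        field_simp
        ring
      · rw [abs_neg, abs_neg]; exact bγ'
      · exact bα'
      · rcases eq_or_lt_of_le hp0 with h1 | h1
        · left
          subst h1
          refine ⟨rfl, ?_⟩
          have h2 : α * q = 1 := by linarith
          have h3 : q ∣ 1 := ⟨α, by linarith⟩
          have h4 := Int.eq_one_of_dvd_one hq0.le h3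
          omega
        · right
          refine ⟨h1, ?_⟩
          have hp' : (0 : ℝ) < p := by exact_mod_cast h1
          have hz : ((-q : ℤ) : ℝ) / p < 0 := by
            push_cast
            exact div_neg_of_neg_of_pos (by linarith) hp'
          have e1 : -1 / (((-q : ℤ) : ℝ) / p) = (p : ℝ) / q := by
            push_cast
            field_simp
          have h2 : hit L U (m + 2) ((p : ℝ) / q) := by
            rcases C.hq with ⟨h3, h4⟩ | ⟨h3, h4⟩
            · omega
            · exact h4
          rw [show m + 1 + 2 = (m + 2) + 1 by ring]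
          apply hit_succ
          by_cases hzL : ((-q : ℤ) : ℝ) / p ∈ L
          · rw [F_L hzL]
            apply P.p1 _ _ hz hzL
            rw [e1]; exact h2
          · rw [P.FSneg hz hzL, e1]; exact h2
      · intro h; linarith
      · intro h; linarith
      · intro _ h1 _
        have h2 : 1 ≤ -1 / x := by rw [le_div_iff_of_neg hneg]; linarith
        have h3 := C.c2 h2
        constructor
        · omega
        · omega
      · exact C.sn
  · by_cases hU : x ∈ U
    · rw [P.FU hpos hU] at C eq hx1
      -- companion of the image is at least -1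
      have hkey : 0 < q ∧ -q ≤ p := by
        rcases le_or_gt 1 x with h1 | h1
        · have h2 : 0 < x - 1 := lt_of_le_of_ne (by linarith) (Ne.symm hx1)
          obtain ⟨h3, h4⟩ := C.c1 h2
          constructor <;> omega
        · exact C.c3 (P.t2 hU) (by linarith) (by linarith)
      obtain ⟨hq0, hpq⟩ := hkey
      have hq' : (0 : ℝ) < q := by exact_mod_cast hq0
      refine ⟨p + q, q, α + γ, γ, ?_⟩
      constructor
      · linarith
      · exact pos
      · push_cast; linarith
      · push_cast
        apply bound_step (m := m) (q := q) (γ := γ) _ bγ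
        · intro hq; omega
        · linarith
      · exact bγ'
      · right
        refine ⟨hq0, ?_⟩
        have h2 : hit L U (m + 2) ((p : ℝ) / q) := by
          rcases C.hq with ⟨h3, h4⟩ | ⟨h3, h4⟩
          · omega
          · exact h4
        have e1 : ((p + q : ℤ) : ℝ) / q = (p : ℝ) / q + 1 := by
          push_cast; field_simp
        rw [show m + 1 + 2 = (m + 2) + 1 by ring]
        rcases eq_or_lt_of_le (show 0 ≤ p + q by omega) with h3 | h3
        · rw [← h3]
          push_cast
          rw [zero_div]
          exact hit_of_zero _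
        · have hz : 0 < ((p + q : ℤ) : ℝ) / q := by
            apply div_pos _ hq'
            exact_mod_cast h3
          apply hit_succ
          by_cases hzU : ((p + q : ℤ) : ℝ) / q ∈ U
          · rw [P.FU hz hzU, e1, add_sub_cancel_right]; exact h2
          · rw [P.FSpos hz hzU]
            apply P.p2 hz hzU
            rw [e1, add_sub_cancel_right]; exact h2
      · intro _
        constructor <;> omega
      · intro h1
        rcases eq_or_lt_of_le h1 with h2 | h2
        · exfalso
          apply hx1
          rw [← h2]; norm_num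
        · obtain ⟨h3, h4⟩ := C.c1 (by linarith)
          omega
      · intro _ _ h; linarith
      · exact C.sn
    · -- S step from a positive point
      rw [P.FSpos hpos hU] at C eq hx1
      have hx1neg : -1 / x < 0 := div_neg_of_neg_of_pos (by norm_num) hpos
      have hD : (p : ℝ) + s * α < 0 := by rw [← eq]; exact mul_neg_of_neg_of_pos hx1neg pos
      have hp0 : p < 0 := by
        rcases C.hq with ⟨h1, h2⟩ | ⟨h1, h2⟩
        · omega
        · have h3 := C.le h1
          have hq' : (0 : ℝ) < q := by exact_mod_cast h1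
          have h4 : (p : ℝ) / q < 0 := by linarith
          rw [div_lt_iff₀ hq', zero_mul] at h4
          exact_mod_cast h4
      have hp' : (p : ℝ) < 0 := by exact_mod_cast hp0
      refine ⟨q, -p, γ, -α, ?_⟩
      have hx1L : x < 1 := P.lt_one hU
      constructor
      · linarith
      · push_cast; linarith
      · push_cast
        have : (q : ℝ) + s * γ = -x * (p + s * α) := by
          rw [← eq]; field_simp
        rw [this]
        ring
      · exact bγ'
      · rw [abs_neg, abs_neg]; exact bα'
      · right
        refine ⟨by omega, ?_⟩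
        rw [show m + 1 + 2 = (m + 2) + 1 by ring]
        rcases C.hq with ⟨h1, h2⟩ | ⟨h1, h2⟩
        · subst h1
          push_cast
          rw [zero_div]
          exact hit_of_zero _
        · have hq' : (0 : ℝ) < q := by exact_mod_cast h1
          have hz : 0 < (q : ℝ) / ((-p : ℤ) : ℝ) := by
            push_cast
            exact div_pos hq' (by linarith)
          have e1 : -1 / ((q : ℝ) / ((-p : ℤ) : ℝ)) = (p : ℝ) / q := by
            push_cast
            have : (p : ℝ) ≠ 0 := ne_of_lt hp'
            field_simp
          have hle := C.le h1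
          have hzx : (q : ℝ) / ((-p : ℤ) : ℝ) ≤ x := by
            push_cast
            rw [div_le_iff₀ (by linarith)]
            rw [div_le_div_iff₀ hq' hpos] at hle
            linarith
          have hzU : (q : ℝ) / ((-p : ℤ) : ℝ) ∉ U := by
            intro hc
            rcases eq_or_lt_of_le hzx with h | h
            · rw [h] at hc; exact hU hc
            · exact hU (P.upperU hc h)
          apply hit_succ
          rw [P.FSpos hz hzU, e1]
          exact h2
      · intro _
        refine ⟨by omega, ?_⟩
        rcases C.hq with ⟨h1, h2⟩ | ⟨h1, h2⟩ <;> omega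
      · intro h; linarith
      · intro _ _ h; linarith
      · exact C.sn

theorem exists_comp (P : Good a b L U) (m : ℕ) : ∀ x : ℝ, (∀ i ≤ m, (F L U)^[i] x ≠ 0) →
    ∃ p q α γ, Comp L U m x (sf ((F L U)^[m] x)) p q α γ := by
  induction m with
  | zero =>
    intro x h
    exact comp_base P (h 0 (le_refl _))
  | succ m ih =>
    intro x h
    have h0 : x ≠ 0 := h 0 (by omega)
    have h1 : F L U x ≠ 0 := h 1 (by omega)
    obtain ⟨p, q, α, γ, C⟩ := ih (F L U x) (fun i hi => by
      have := h (i + 1) (by omega)
      rwa [Function.iterate_succ_apply] at this)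
    rw [Function.iterate_succ_apply]
    exact comp_step P h0 h1 C

theorem hit_iterate {m n : ℕ} {x : ℝ} (h : hit L U (m + n) x) (h2 : ¬ hit L U m x) :
    hit L U n ((F L U)^[m] x) := by
  obtain ⟨j, hj, h3⟩ := h
  have hmj : m ≤ j := by
    by_contra hc
    exact h2 ⟨j, by omega, h3⟩
  refine ⟨j - m, by omega, ?_⟩
  rw [← Function.iterate_add_apply, Nat.sub_add_cancel hmj]
  exact h3

theorem coprime_of_det {p q α γ : ℤ} (h : α * q - γ * p = 1) : IsCoprime p q :=
  ⟨-γ, α, by linarith⟩

/-- a point is determined by its companion, the column index and the offset -/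
theorem comp_inj {m : ℕ} {x x' s : ℝ} {p q α γ α' γ' : ℤ} (C : Comp L U m x s p q α γ)
    (C' : Comp L U m x' s p q α' γ') (hα : α = α') (hγ : γ = γ') : x = x' := by
  subst hα hγ
  have h1 := C.eq
  have h2 := C'.eq
  have h3 := C.pos
  have h4 : (x - x') * ((q : ℝ) + s * γ) = 0 := by linarith
  rcases mul_eq_zero.mp h4 with h5 | h5
  · linarith
  · linarith

open Classical in
theorem zz_submul (P : Good a b L U) (m n : ℕ) :
    zz L U (m + n) ≤ (4 * m + 7) * zz L U (m + 2) * zz L U n := by
  set W : Set ℝ := ZZ L U (m + n) \ ZZ L U m with hW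
  have hWfin : W.Finite := (ZZ_finite (m + n)).subset sdiff_subset
  have hcomp : ∀ x : ℝ, ∃ c : ℤ × ℤ × ℤ × ℤ, x ∈ W →
      Comp L U m x (sf ((F L U)^[m] x)) c.1 c.2.1 c.2.2.1 c.2.2.2 := by
    intro x
    by_cases hx : x ∈ W
    · obtain ⟨p, q, α, γ, C⟩ := exists_comp P m x (fun i hi hc => hx.2 ⟨i, hi, hc⟩)
      exact ⟨(p, q, α, γ), fun _ => C⟩
    · exact ⟨(0, 0, 0, 0), fun h => absurd h hx⟩
  choose c hc using hcomp
  have hy : ∀ x ∈ W, (F L U)^[m] x ∈ ZZ L U n := fun x hx => hit_iterate hx.1 hx.2
  set K : Set ℤ := ((Finset.Icc (-((m : ℤ) + 1)) (m + 1) : Finset ℤ) : Set ℤ) with hK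
  have hKfin : K.Finite := Finset.finite_toSet _
  have hKcard : K.ncard = 2 * m + 3 := by
    rw [hK, Set.ncard_coe_finset, Int.card_Icc]
    omega
  -- first part: companion at infinity
  have h1 : {x ∈ W | (c x).2.1 = 0}.ncard ≤ (2 * m + 3) * zz L U n := by
    have : {x ∈ W | (c x).2.1 = 0}.ncard ≤ (K ×ˢ ZZ L U n).ncard := by
      refine Set.ncard_le_ncard_of_injOn (fun x => ((c x).2.2.1, (F L U)^[m] x)) ?_ ?_
        (hKfin.prod (ZZ_finite n))
      · rintro x ⟨hx, hx0⟩
        have C := hc x hx
        refine ⟨?_, hy x hx⟩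
        have hp : (c x).1 = -1 := by
          rcases C.hq with ⟨_, h2⟩ | ⟨h2, _⟩
          · exact h2
          · omega
        have h3 := C.bα
        rw [hp] at h3
        simp only [abs_neg, abs_one, mul_one] at h3
        rw [hK, Finset.mem_coe, Finset.mem_Icc]
        exact abs_le.mp h3
      · rintro x ⟨hx, hx0⟩ x' ⟨hx', hx0'⟩ he
        simp only [Prod.mk.injEq] at he
        obtain ⟨he1, he2⟩ := he
        have C := hc x hx
        have C' := hc x' hx'
        rw [he2] at C
        have hp : (c x).1 = -1 := by
          rcases C.hq with ⟨_, h2⟩ | ⟨h2, _⟩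
          · exact h2
          · omega
        have hp' : (c x').1 = -1 := by
          rcases C'.hq with ⟨_, h2⟩ | ⟨h2, _⟩
          · exact h2
          · omega
        have d := C.det
        have d' := C'.det
        rw [hp, hx0] at C d
        rw [hp', hx0'] at C' d'
        exact comp_inj C C' he1 (by linarith)
    rwa [Set.ncard_prod, hKcard] at this
  -- second part
  have h2 : {x ∈ W | 0 < (c x).2.1}.ncard ≤ zz L U (m + 2) * (2 * m + 3) * zz L U n := by
    have : {x ∈ W | 0 < (c x).2.1}.ncard ≤ ((ZZ L U (m + 2) ×ˢ K) ×ˢ ZZ L U n).ncard := by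
      refine Set.ncard_le_ncard_of_injOn
        (fun x => ((((c x).1 : ℝ) / (c x).2.1, (c x).2.2.2 / (c x).2.1), (F L U)^[m] x)) ?_ ?_
        (((ZZ_finite _).prod hKfin).prod (ZZ_finite n))
      · rintro x ⟨hx, hx0⟩
        have C := hc x hx
        refine ⟨⟨?_, ?_⟩, hy x hx⟩
        · rcases C.hq with ⟨h2, _⟩ | ⟨_, h2⟩
          · omega
          · exact h2
        · have h3 := abs_le.mp C.bγ
          rw [abs_of_pos hx0] at h3
          show (c x).2.2.2 / (c x).2.1 ∈ K
          rw [hK, Finset.mem_coe, Finset.mem_Icc]
          constructor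
          · rw [Int.le_ediv_iff_mul_le hx0]
            nlinarith [h3.1]
          · apply Int.le_of_lt_add_one
            rw [Int.ediv_lt_iff_lt_mul hx0]
            nlinarith [h3.2]
      · rintro x ⟨hx, hx0⟩ x' ⟨hx', hx0'⟩ he
        simp only [Prod.mk.injEq] at he
        obtain ⟨⟨he1, he2⟩, he3⟩ := he
        have C := hc x hx
        have C' := hc x' hx'
        rw [he3] at C
        have d := C.det
        have d' := C'.det
        have hpq : (c x).1 = (c x').1 ∧ (c x).2.1 = (c x').2.1 := by
          apply Rat.div_int_inj hx0 hx0'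
          · exact Int.isCoprime_iff_gcd_eq_one.mp (coprime_of_det d)
          · exact Int.isCoprime_iff_gcd_eq_one.mp (coprime_of_det d')
          · have : (((c x).1 : ℚ) / ((c x).2.1 : ℚ) : ℝ) = (((c x').1 : ℚ) / ((c x').2.1 : ℚ) : ℝ) := by
              push_cast
              exact he1
            exact_mod_cast this
        rw [hpq.1, hpq.2] at C d
        rw [hpq.2] at he2
        have hdvd : (c x').2.1 ∣ ((c x).2.2.2 - (c x').2.2.2) := by
          apply (coprime_of_det d').symm.dvd_of_dvd_mul_right
          refine ⟨(c x).2.2.1 - (c x').2.2.1, ?_⟩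
          linarith
        have hmod : (c x).2.2.2 % (c x').2.1 = (c x').2.2.2 % (c x').2.1 :=
          (Int.emod_eq_emod_iff_emod_sub_eq_zero.mpr (Int.emod_eq_zero_of_dvd hdvd))
        have hγ : (c x).2.2.2 = (c x').2.2.2 := by
          rw [← Int.mul_ediv_add_emod (c x).2.2.2 (c x').2.1, he2, hmod,
            Int.mul_ediv_add_emod]
        have hα : (c x).2.2.1 = (c x').2.2.1 := by
          have h5 : ((c x).2.2.1 - (c x').2.2.1) * (c x').2.1 = 0 := by
            rw [hγ] at d
            linarith
          rcases mul_eq_zero.mp h5 with h6 | h6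
          · linarith
          · omega
        exact comp_inj C C' hα hγ
    rwa [Set.ncard_prod, Set.ncard_prod, hKcard] at this
  have h3 : W.ncard ≤ {x ∈ W | (c x).2.1 = 0}.ncard + {x ∈ W | 0 < (c x).2.1}.ncard := by
    calc W.ncard ≤ ({x ∈ W | (c x).2.1 = 0} ∪ {x ∈ W | 0 < (c x).2.1}).ncard := by
          apply Set.ncard_le_ncard
          · intro x hx
            rcases (hc x hx).hq with ⟨h4, _⟩ | ⟨h4, _⟩
            · exact Or.inl ⟨hx, h4⟩
            · exact Or.inr ⟨hx, h4⟩
          · exact (hWfin.subset (fun _ h => h.1)).union (hWfin.subset (fun _ h => h.1))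
      _ ≤ _ := Set.ncard_union_le _ _
  have h4 : zz L U (m + n) ≤ zz L U m + W.ncard := by
    have : ZZ L U (m + n) = ZZ L U m ∪ W := by
      rw [hW, union_sdiff_cancel (ZZ_mono (by omega))]
    unfold zz
    rw [this]
    exact Set.ncard_union_le _ _
  have h5 : zz L U m ≤ zz L U (m + 2) := zz_mono (by omega)
  have h6 := one_le_zz (L := L) (U := U) n
  have h7 := one_le_zz (L := L) (U := U) (m + 2)
  have h8 : zz L U (m + 2) ≤ zz L U (m + 2) * zz L U n := Nat.le_mul_of_pos_right _ h6
  have h9 : zz L U n ≤ zz L U (m + 2) * zz L U n := Nat.le_mul_of_pos_left _ h7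
  have h10 : (2 * m + 3) * zz L U n ≤ (2 * m + 3) * (zz L U (m + 2) * zz L U n) :=
    Nat.mul_le_mul_left _ h9
  calc zz L U (m + n) ≤ zz L U m + W.ncard := h4
    _ ≤ zz L U (m + 2) * zz L U n + ((2 * m + 3) * (zz L U (m + 2) * zz L U n) +
        zz L U (m + 2) * (2 * m + 3) * zz L U n) := by
        apply Nat.add_le_add (h5.trans h8)
        exact h3.trans (Nat.add_le_add (h1.trans h10) h2)
    _ = (4 * m + 7) * zz L U (m + 2) * zz L U n := by ring

theorem zz_pow (P : Good a b L U) (m j : ℕ) :
    zz L U (j * m) ≤ ((4 * m + 7) * zz L U (m + 2)) ^ j := by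
  induction j with
  | zero =>
    rw [zero_mul, pow_zero]
    have : ZZ L U 0 ⊆ {0} := fun x hx => hit_zero_iff.mp hx
    have := Set.ncard_le_ncard this (Set.toFinite _)
    rwa [Set.ncard_singleton] at this
  | succ j ih =>
    have h1 := zz_submul P m (j * m)
    rw [show (j + 1) * m = m + j * m by ring, pow_succ]
    calc zz L U (m + j * m) ≤ (4 * m + 7) * zz L U (m + 2) * zz L U (j * m) := h1
      _ ≤ (4 * m + 7) * zz L U (m + 2) * ((4 * m + 7) * zz L U (m + 2)) ^ j :=
          Nat.mul_le_mul_left _ ih
      _ = _ := by ring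

/-- uniform upper bound for the entropy -/
theorem ent_le_finite (P : Good a b L U) {m : ℕ} (hm : 0 < m) :
    ent a b L U P.toPol ≤ (Real.log (4 * m + 7) + Real.log (zz L U (m + 2))) / m := by
  have hm' : (0 : ℝ) < m := by exact_mod_cast hm
  have h1 : Tendsto (fun j : ℕ => j * m) atTop atTop :=
    tendsto_id.atTop_mul_const' hm
  have h2 := (zz_tendsto P.toPol).comp h1
  apply le_of_tendsto h2
  filter_upwards [eventually_gt_atTop 0] with j hj
  have hj' : (0 : ℝ) < j := by exact_mod_cast hj
  have h3 : (zz L U (j * m) : ℝ) ≤ ((4 * m + 7) * zz L U (m + 2)) ^ j := by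
    exact_mod_cast zz_pow P m j
  have h4 : (1 : ℝ) ≤ zz L U (j * m) := by exact_mod_cast one_le_zz _
  have h5 : (1 : ℝ) ≤ zz L U (m + 2) := by exact_mod_cast one_le_zz _
  have h6 := Real.log_le_log (by linarith) h3
  rw [Real.log_pow, Real.log_mul (by positivity) (by positivity)] at h6
  simp only [Function.comp]
  push_cast
  rw [div_le_div_iff₀ (by positivity) hm']
  nlinarith

end Q66.Ab
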