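import Mathlib
import Pool.Agent.Q66.Ab8

/-!
# Concatenation of paths and a uniform lower bound
-/

namespace Q66.Ab

open Set Filter Topology

variable {a b : ℝ} {L U : Set ℝ}

theorem Good.hit_neg (P : Good a b L U) {n : ℕ} {z : ℝ} (hz : z < 0) (h : hit L U n (-1 / z)) :
    hit L U (n + 1) z := by
  apply hit_succ
  by_cases hL : z ∈ L
  · rw [F_L hL]; exact P.p1 n z hz hL h
  · rw [P.FSneg hz hL]; exact h

theorem Good.hit_pos (P : Good a b L U) {n : ℕ} {z : ℝ} (hz : 0 < z) (h : hit L U n (z - 1)) :
    hit L U (n + 1) z := by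
  apply hit_succ
  by_cases hU : z ∈ U
  · rw [P.FU hz hU]; exact h
  · rw [P.FSpos hz hU]; exact P.p2 hz hU h

theorem hit_int (P : Good a b L U) {n : ℕ} {X : ℝ} (hX : 1 < X) (hn : hit L U n X) (k : ℕ) :
    ∀ m, hit L U m (k : ℝ) → hit L U (m + n + 1) ((k : ℝ) - 1 / X) := by
  have hX1 : 1 / X < 1 := by rw [div_lt_one (by linarith)]; exact hX
  induction k with
  | zero =>
    intro m _
    have h1 := P.splus n X (by linarith) hn
    rw [Nat.cast_zero, zero_sub, ← neg_div]
    exact hit_mono (by omega) h1
  | succ k ih =>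
    intro m hm
    have hk : (0 : ℝ) ≤ k := Nat.cast_nonneg k
    push_cast at hm ⊢
    obtain ⟨m', e, h1⟩ := hit_pred (show (k : ℝ) + 1 ≠ 0 by positivity) hm
    rw [P.FU (by positivity) (P.one_le (by linarith)), add_sub_cancel_right] at h1
    have h2 := ih m' h1
    have h3 : hit L U (m' + n + 1 + 1) ((k : ℝ) + 1 - 1 / X) := by
      apply P.hit_pos (by linarith)
      rw [show (k : ℝ) + 1 - 1 / X - 1 = (k : ℝ) - 1 / X by ring]
      exact h2
    exact hit_mono (by omega) h3

/-- left neighbours follow the path of `p/q` -/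
theorem concat (P : Good a b L U) {n : ℕ} {X : ℝ} (hX : 1 < X) (hn : hit L U n X) (m : ℕ) :
    ∀ p q P' Q' : ℤ, 0 < q → 0 ≤ Q' → Q' < q → p * Q' - P' * q = 1 →
      hit L U m ((p : ℝ) / q) → hit L U (m + n + 2) ((p * X + P') / (q * X + Q')) := by
  induction m with
  | zero =>
    intro p q P' Q' hq hQ0 hQq det h
    have hq' : (0 : ℝ) < q := by exact_mod_cast hq
    rw [hit_zero_iff, div_eq_zero_iff] at h
    have hp : p = 0 := by
      rcases h with h | h
      · exact_mod_cast h
      · exact absurd h (ne_of_gt hq')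
    subst hp
    have h1 : q ∣ 1 := ⟨-P', by linarith⟩
    have h2 := Int.eq_one_of_dvd_one hq.le h1
    subst h2
    have h3 : Q' = 0 := by omega
    subst h3
    have h4 : P' = -1 := by omega
    subst h4
    have h5 := P.splus n X (by linarith) hn
    push_cast
    rw [show ((0 : ℝ) * X + -1) / (1 * X + 0) = -1 / X by ring_nf]
    exact hit_mono (by omega) h5
  | succ m ih =>
    intro p q P' Q' hq hQ0 hQq det h
    have hq' : (0 : ℝ) < q := by exact_mod_cast hq
    have hQ' : (0 : ℝ) ≤ Q' := by exact_mod_cast hQ0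
    have hX0 : 0 < X := by linarith
    have hD : 0 < (q : ℝ) * X + Q' := by positivity
    have det' : (p : ℝ) * Q' - P' * q = 1 := by exact_mod_cast det
    have hzx : (p * X + P') / (q * X + Q') < (p : ℝ) / q := by
      rw [div_lt_div_iff₀ hD hq']
      nlinarith
    by_cases hp0 : p = 0
    · subst hp0
      have h1 : q ∣ 1 := ⟨-P', by linarith⟩
      have h2 := Int.eq_one_of_dvd_one hq.le h1
      subst h2
      have h3 : Q' = 0 := by omega
      subst h3
      have h4 : P' = -1 := by omega
      subst h4
      have h5 := P.splus n X (by linarith) hn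
      push_cast
      rw [show ((0 : ℝ) * X + -1) / (1 * X + 0) = -1 / X by ring_nf]
      exact hit_mono (by omega) h5
    have hx0 : (p : ℝ) / q ≠ 0 := by
      apply div_ne_zero _ (ne_of_gt hq')
      exact_mod_cast hp0
    obtain ⟨m', e, h1⟩ := hit_pred hx0 h
    have e' : m' = m := by omega
    subst e'
    rcases lt_or_gt_of_ne hp0 with hp | hp
    · have hp' : (p : ℝ) < 0 := by exact_mod_cast hp
      have hx : (p : ℝ) / q < 0 := div_neg_of_neg_of_pos hp' hq'
      have hz : (p * X + P') / (q * X + Q') < 0 := by linarith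
      have hnum : (p : ℝ) * X + P' < 0 := by
        by_contra hc
        push Not at hc
        have := div_nonneg hc hD.le
        linarith
      by_cases hL : (p : ℝ) / q ∈ L
      · rw [F_L hL] at h1
        have e1 : (p : ℝ) / q + 1 = ((p + q : ℤ) : ℝ) / q := by push_cast; field_simp
        rw [e1] at h1
        have h2 := ih (p + q) q (P' + Q') Q' hq hQ0 hQq (by linarith) h1
        have e2 : (((p + q : ℤ) : ℝ) * X + ((P' + Q' : ℤ) : ℝ)) / (q * X + Q') =
            (p * X + P') / (q * X + Q') + 1 := by
          push_cast; field_simp; ring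
        rw [e2] at h2
        rw [show m' + 1 + n + 2 = (m' + n + 2) + 1 by ring]
        apply hit_succ
        rw [F_L (P.lowerL hL hzx)]
        exact h2
      · rw [P.FSneg hx hL] at h1
        have e1 : -1 / ((p : ℝ) / q) = (q : ℝ) / ((-p : ℤ) : ℝ) := by
          push_cast
          have : (p : ℝ) ≠ 0 := ne_of_lt hp'
          field_simp
        rw [e1] at h1
        have e2 : -1 / ((p * X + P') / (q * X + Q')) =
            ((q : ℝ) * X + Q') / (((-p : ℤ) : ℝ) * X + ((-P' : ℤ) : ℝ)) := by
          push_cast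
          have h3 : (p : ℝ) * X + P' ≠ 0 := ne_of_lt hnum
          have h4 : -(p : ℝ) * X + -P' ≠ 0 := by
            intro hc; apply h3; linarith
          rw [div_div_eq_mul_div, div_eq_div_iff h3 h4]
          ring
        rw [show m' + 1 + n + 2 = (m' + n + 2) + 1 by ring]
        apply P.hit_neg hz
        rw [e2]
        by_cases hp1 : p = -1
        · subst hp1
          have h5 : P' = -1 := by
            have h6 : P' * q = -(1 + Q') := by linarith
            have h7 : P' < 0 := by
              by_contra hc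
              push Not at hc
              have := mul_nonneg hc hq.le
              omega
            by_contra hc
            have h8 : P' ≤ -2 := by omega
            nlinarith
          subst h5
          have h6 : Q' = q - 1 := by omega
          subst h6
          have hqn : ((q.toNat : ℕ) : ℤ) = q := Int.toNat_of_nonneg hq.le
          have hqr : ((q.toNat : ℕ) : ℝ) = (q : ℝ) := by exact_mod_cast hqn
          have h7 : hit L U m' ((q.toNat : ℕ) : ℝ) := by
            rw [hqr]
            push_cast at h1
            rw [div_one] at h1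
            exact h1
          have h8 : hit L U (n + 1) (X + 1) := P.hit_add_one hX0 hn
          have h9 := hit_int P (show 1 < X + 1 by linarith) h8 q.toNat m' h7
          rw [hqr] at h9
          have e3 : ((q : ℝ) * X + ((q - 1 : ℤ) : ℝ)) /
              (((- -1 : ℤ) : ℝ) * X + ((- -1 : ℤ) : ℝ)) = (q : ℝ) - 1 / (X + 1) := by
            push_cast
            have : X + 1 ≠ 0 := by linarith
            rw [one_mul]
            field_simp
            ring
          rw [e3]
          exact hit_mono (by omega) h9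
        · have h2 : hit L U (m' + n + 2) _ := ih q (-p) Q' (-P') (by omega) (by
            have h6 : P' * q = p * Q' - 1 := by linarith
            by_contra hc
            push Not at hc
            have h7 : 0 < P' := by omega
            have h8 := mul_pos h7 hq
            have h9 : p * Q' ≤ 0 := mul_nonpos_of_nonpos_of_nonneg hp.le hQ0
            omega) (by
            by_contra hc
            push Not at hc
            have h7 : P' ≤ p := by omega
            have h8 : P' * q ≤ p * q := mul_le_mul_of_nonneg_right h7 hq.le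
            have h9 : p * Q' ≤ p * q + 1 := by linarith
            have h10 : p ≤ -2 := by omega
            nlinarith) (by linarith) h1
          exact h2
    · have hp' : (0 : ℝ) < p := by exact_mod_cast hp
      have hx : 0 < (p : ℝ) / q := div_pos hp' hq'
      have hP1 : -1 ≤ P' := by
        by_contra hc
        push Not at hc
        have h8 : P' ≤ -2 := by omega
        have h9 : 0 ≤ p * Q' := mul_nonneg hp.le hQ0
        nlinarith
      have hnum : 0 < (p : ℝ) * X + P' := by
        have h3 : (-1 : ℝ) ≤ P' := by exact_mod_cast hP1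
        have h4 : (1 : ℝ) ≤ p := by exact_mod_cast hp
        nlinarith
      have hz : 0 < (p * X + P') / (q * X + Q') := div_pos hnum hD
      by_cases hU : (p : ℝ) / q ∈ U
      · rw [P.FU hx hU] at h1
        have e1 : (p : ℝ) / q - 1 = ((p - q : ℤ) : ℝ) / q := by push_cast; field_simp
        rw [e1] at h1
        have h2 := ih (p - q) q (P' - Q') Q' hq hQ0 hQq (by linarith) h1
        have e2 : (((p - q : ℤ) : ℝ) * X + ((P' - Q' : ℤ) : ℝ)) / (q * X + Q') =
            (p * X + P') / (q * X + Q') - 1 := by
          push_cast; field_simp; ring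
        rw [e2] at h2
        rw [show m' + 1 + n + 2 = (m' + n + 2) + 1 by ring]
        exact P.hit_pos hz h2
      · rw [P.FSpos hx hU] at h1
        have hx1 := P.lt_one hU
        have hpq : p < q := by
          rw [div_lt_one hq'] at hx1
          exact_mod_cast hx1
        have e1 : -1 / ((p : ℝ) / q) = ((-q : ℤ) : ℝ) / p := by
          push_cast
          field_simp
        rw [e1] at h1
        have hQ1 : 1 ≤ Q' := by
          by_contra hc
          have h3 : Q' = 0 := by omega
          subst h3
          have h4 : q ∣ 1 := ⟨-P', by linarith⟩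
          have h5 := Int.eq_one_of_dvd_one hq.le h4
          omega
        have h6 : P' * q = p * Q' - 1 := by linarith
        have h2 := ih (-q) p (-Q') P' hp (by
          by_contra hc
          push Not at hc
          have h7 : P' ≤ -1 := by omega
          nlinarith) (by
          by_contra hc
          push Not at hc
          nlinarith) (by linarith) h1
        have e2 : -1 / ((p * X + P') / (q * X + Q')) =
            (((-q : ℤ) : ℝ) * X + ((-Q' : ℤ) : ℝ)) / (p * X + P') := by
          push_cast
          have h3 : (p : ℝ) * X + P' ≠ 0 := ne_of_gt hnum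
          rw [div_div_eq_mul_div, div_eq_div_iff h3 h3]
          ring
        rw [show m' + 1 + n + 2 = (m' + n + 2) + 1 by ring]
        apply hit_succ
        have hzU : (p * X + P') / (q * X + Q') ∉ U := fun hc => hU (P.upperU hc hzx)
        rw [P.FSpos hz hzU, e2]
        exact h2

/-! ### Words -/

/-- the inverse branch of a word of digit pairs, in the variable `θ = 1/X` -/
noncomputable def bw : List (ℕ × ℕ) → ℝ → ℝ
  | [], θ => θ
  | c :: w, θ => 1 / (c.1 + 1 / (c.2 + bw w θ))

/-- all digits are positive -/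
def Wd (w : List (ℕ × ℕ)) : Prop := ∀ c ∈ w, 1 ≤ c.1 ∧ 1 ≤ c.2

theorem bw_mem (w : List (ℕ × ℕ)) : Wd w → ∀ {θ : ℝ}, 0 < θ → θ < 1 →
    0 < bw w θ ∧ bw w θ < 1 := by
  induction w with
  | nil => intro _ θ h1 h2; exact ⟨h1, h2⟩
  | cons c w ih =>
    intro hw θ h1 h2
    have hw' : Wd w := fun d hd => hw d (List.mem_cons_of_mem _ hd)
    obtain ⟨h3, h4⟩ := ih hw' h1 h2
    obtain ⟨h5, h6⟩ := hw c List.mem_cons_self
    have h5' : (1 : ℝ) ≤ c.1 := by exact_mod_cast h5
    have h6' : (1 : ℝ) ≤ c.2 := by exact_mod_cast h6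
    show 0 < 1 / ((c.1 : ℝ) + 1 / (c.2 + bw w θ)) ∧ 1 / ((c.1 : ℝ) + 1 / (c.2 + bw w θ)) < 1
    have h7 : 0 < 1 / ((c.2 : ℝ) + bw w θ) := by positivity
    constructor
    · positivity
    · rw [div_lt_one (by positivity)]; linarith

theorem bw_inj (w : List (ℕ × ℕ)) : ∀ w' : List (ℕ × ℕ), Wd w → Wd w' → w.length = w'.length →
    ∀ {θ θ' : ℝ}, 0 < θ → θ < 1 → 0 < θ' → θ' < 1 → bw w θ = bw w' θ' → w = w' ∧ θ = θ' := by
  induction w with
  | nil =>
    intro w' _ _ hl θ θ' _ _ _ _ h
    have : w' = [] := List.length_eq_zero_iff.mp hl.symm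
    subst this
    exact ⟨rfl, h⟩
  | cons c w ih =>
    intro w' hw hw' hl θ θ' h1 h2 h3 h4 h
    rcases w' with _ | ⟨d, w'⟩
    · simp at hl
    have hw1 : Wd w := fun e he => hw e (List.mem_cons_of_mem _ he)
    have hw1' : Wd w' := fun e he => hw' e (List.mem_cons_of_mem _ he)
    obtain ⟨g1, g2⟩ := bw_mem w hw1 h1 h2
    obtain ⟨g3, g4⟩ := bw_mem w' hw1' h3 h4
    obtain ⟨h5, h6⟩ := hw c List.mem_cons_self
    obtain ⟨h7, h8⟩ := hw' d List.mem_cons_self
    have h5' : (1 : ℝ) ≤ c.1 := by exact_mod_cast h5
    have h6' : (1 : ℝ) ≤ c.2 := by exact_mod_cast h6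
    have h7' : (1 : ℝ) ≤ d.1 := by exact_mod_cast h7
    have h8' : (1 : ℝ) ≤ d.2 := by exact_mod_cast h8
    have k1 : 0 < 1 / ((c.2 : ℝ) + bw w θ) := by positivity
    have k2 : 1 / ((c.2 : ℝ) + bw w θ) < 1 := by rw [div_lt_one (by positivity)]; linarith
    have k3 : 0 < 1 / ((d.2 : ℝ) + bw w' θ') := by positivity
    have k4 : 1 / ((d.2 : ℝ) + bw w' θ') < 1 := by rw [div_lt_one (by positivity)]; linarith
    have h9 : (1 : ℝ) / (c.1 + 1 / (c.2 + bw w θ)) = 1 / (d.1 + 1 / (d.2 + bw w' θ')) := h
    have h10 : (c.1 : ℝ) + 1 / (c.2 + bw w θ) = d.1 + 1 / (d.2 + bw w' θ') := by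
      rw [div_eq_div_iff (by positivity) (by positivity)] at h9
      linarith
    have h11 : c.1 = d.1 := by
      rcases lt_trichotomy c.1 d.1 with h | h | h
      · exfalso
        have : (c.1 : ℝ) + 1 ≤ d.1 := by exact_mod_cast h
        linarith
      · exact h
      · exfalso
        have : (d.1 : ℝ) + 1 ≤ c.1 := by exact_mod_cast h
        linarith
    rw [h11] at h10
    have h12 : (c.2 : ℝ) + bw w θ = d.2 + bw w' θ' := by
      have h13 : 1 / ((c.2 : ℝ) + bw w θ) = 1 / (d.2 + bw w' θ') := by linarith
      rw [div_eq_div_iff (by positivity) (by positivity)] at h13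
      linarith
    have h14 : c.2 = d.2 := by
      rcases lt_trichotomy c.2 d.2 with h | h | h
      · exfalso
        have : (c.2 : ℝ) + 1 ≤ d.2 := by exact_mod_cast h
        linarith
      · exact h
      · exfalso
        have : (d.2 : ℝ) + 1 ≤ c.2 := by exact_mod_cast h
        linarith
    rw [h14] at h12
    have h15 : bw w θ = bw w' θ' := by linarith
    obtain ⟨h16, h17⟩ := ih w' hw1 hw1' (by simpa using hl) h1 h2 h3 h4 h15
    exact ⟨by rw [h16, Prod.ext h11 h14], h17⟩

/-- matrix form of a word -/
theorem bw_matrix (w : List (ℕ × ℕ)) : Wd w → w ≠ [] → ∃ p q P' Q' : ℤ, 0 < q ∧ 1 ≤ Q' ∧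
    Q' ≤ q ∧ 0 ≤ P' ∧ P' ≤ p ∧ p * Q' - P' * q = 1 ∧
    ∀ θ : ℝ, 0 ≤ θ → bw w θ = (q + Q' * θ) / (p + P' * θ) := by
  induction w with
  | nil => intro _ h; exact absurd rfl h
  | cons c w ih =>
    intro hw _
    have hw' : Wd w := fun d hd => hw d (List.mem_cons_of_mem _ hd)
    obtain ⟨h5, h6⟩ := hw c List.mem_cons_self
    have h5' : (1 : ℤ) ≤ c.1 := by exact_mod_cast h5
    have h6' : (1 : ℤ) ≤ c.2 := by exact_mod_cast h6
    have h5r : (1 : ℝ) ≤ c.1 := by exact_mod_cast h5
    have h6r : (1 : ℝ) ≤ c.2 := by exact_mod_cast h6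
    by_cases hnil : w = []
    · subst hnil
      refine ⟨c.1 * c.2 + 1, c.2, c.1, 1, by omega, le_refl _, h6', by omega, ?_, by ring, ?_⟩
      · nlinarith
      · intro θ hθ
        show 1 / ((c.1 : ℝ) + 1 / (c.2 + θ)) = _
        push_cast
        have h7 : (0 : ℝ) < c.2 + θ := by linarith
        have h8 : (0 : ℝ) < c.1 * c.2 + 1 + c.1 * θ := by positivity
        have h9 : (0 : ℝ) < c.1 + 1 / (c.2 + θ) := by positivity
        rw [div_eq_div_iff (ne_of_gt h9) (ne_of_gt h8)]
        field_simp
        ring
    · obtain ⟨p, q, P', Q', i1, i2, i3, i4, i5, i6, i7⟩ := ih hw' hnil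
      have hp : 0 < p := by
        by_contra hc
        have hp0 : p = 0 := by omega
        have hP0 : P' = 0 := by omega
        subst hp0 hP0
        omega
      refine ⟨c.1 * (c.2 * p + q) + p, c.2 * p + q, c.1 * (c.2 * P' + Q') + P', c.2 * P' + Q',
        by positivity, ?_, ?_, by positivity, ?_, by linear_combination i6, ?_⟩
      · nlinarith
      · nlinarith
      · nlinarith [mul_le_mul_of_nonneg_left i5 (show (0 : ℤ) ≤ c.1 * c.2 by positivity),
          mul_le_mul_of_nonneg_left i3 (show (0 : ℤ) ≤ c.1 by positivity)]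
      · intro θ hθ
        show 1 / ((c.1 : ℝ) + 1 / (c.2 + bw w θ)) = _
        rw [i7 θ hθ]
        have j1 : (0 : ℝ) < q := by exact_mod_cast i1
        have j2 : (1 : ℝ) ≤ Q' := by exact_mod_cast i2
        have j3 : (0 : ℝ) < p := by exact_mod_cast hp
        have j4 : (0 : ℝ) ≤ P' := by exact_mod_cast i4
        have k1 : (0 : ℝ) < p + P' * θ := by positivity
        have k2 : (0 : ℝ) < q + Q' * θ := by positivity
        have k3 : (0 : ℝ) < c.2 + (q + Q' * θ) / (p + P' * θ) := by positivity
        have k4 : (0 : ℝ) < c.1 + 1 / (c.2 + (q + Q' * θ) / (p + P' * θ)) := by positivity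
        push_cast
        have k5 : (0 : ℝ) < c.1 * (c.2 * p + q) + p + (c.1 * (c.2 * P' + Q') + P') * θ := by
          positivity
        have k6 : (c.2 : ℝ) + (q + Q' * θ) / (p + P' * θ) =
            (c.2 * p + q + (c.2 * P' + Q') * θ) / (p + P' * θ) := by
          field_simp
          ring
        have k7 : (0 : ℝ) < c.2 * p + q + (c.2 * P' + Q') * θ := by positivity
        rw [k6, one_div_div]
        rw [div_eq_div_iff (by positivity) (ne_of_gt k5)]
        field_simp
        ring

/-- following a word costs at most the hitting time of its end point, up to a constant -/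
theorem concat_word (P : Good a b L U) {m n : ℕ} {w : List (ℕ × ℕ)} (hw : Wd w) (hne : w ≠ [])
    (hm : hit L U m (1 / bw w 0)) {θ : ℝ} (h0 : 0 < θ) (h1 : θ < 1) (hn : hit L U n (1 / θ)) :
    hit L U (m + n + 2) (1 / bw w θ) := by
  obtain ⟨p, q, P', Q', i1, i2, i3, i4, i5, i6, i7⟩ := bw_matrix w hw hne
  have hX : 1 < 1 / θ := by rw [lt_div_iff₀ h0]; linarith
  have j1 : (0 : ℝ) < q := by exact_mod_cast i1
  have j2 : (1 : ℝ) ≤ Q' := by exact_mod_cast i2
  have j5 : (0 : ℝ) ≤ P' := by exact_mod_cast i4
  have hp : 0 < p := by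
    by_contra hc
    have hp0 : p = 0 := by omega
    have hP0 : P' = 0 := by omega
    subst hp0 hP0
    omega
  have j3 : (0 : ℝ) < p := by exact_mod_cast hp
  have e0 : 1 / bw w 0 = (p : ℝ) / q := by
    rw [i7 0 (le_refl _)]; simp
  have e1 : 1 / bw w θ = (p * (1 / θ) + P') / (q * (1 / θ) + Q') := by
    rw [i7 θ h0.le, one_div_div]
    have k1 : (0 : ℝ) < q + Q' * θ := by positivity
    have k2 : (0 : ℝ) < q * (1 / θ) + Q' := by positivity
    rw [div_eq_div_iff (ne_of_gt k1) (ne_of_gt k2)]
    field_simp
  rw [e0] at hm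
  rw [e1]
  rcases lt_or_eq_of_le i3 with h2 | h2
  · exact concat P hX hn m p q P' Q' i1 (by omega) h2 i6 hm
  · have h3 : q ∣ 1 := ⟨p - P', by rw [h2] at i6; linarith⟩
    have h4 := Int.eq_one_of_dvd_one i1.le h3
    subst h4
    subst h2
    have h5 : P' = p - 1 := by omega
    subst h5
    have hpn : ((p.toNat : ℕ) : ℤ) = p := Int.toNat_of_nonneg hp.le
    have hpr : ((p.toNat : ℕ) : ℝ) = (p : ℝ) := by exact_mod_cast hpn
    have h6 : hit L U m ((p.toNat : ℕ) : ℝ) := by
      rw [hpr]
      push_cast at hm
      rw [div_one] at hm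
      exact hm
    have h7 : hit L U (n + 1) (1 / θ + 1) := P.hit_add_one (by linarith) hn
    have h8 := hit_int P (show 1 < 1 / θ + 1 by linarith) h7 p.toNat m h6
    rw [hpr] at h8
    have e3 : ((p : ℝ) * (1 / θ) + ((p - 1 : ℤ) : ℝ)) / (((1 : ℤ) : ℝ) * (1 / θ) + ((1 : ℤ) : ℝ)) =
        (p : ℝ) - 1 / (1 / θ + 1) := by
      push_cast
      have : 1 / θ + 1 ≠ 0 := by linarith
      rw [one_mul]
      generalize 1 / θ = t at this ⊢
      field_simp
      ring
    rw [e3]
    exact hit_mono (by omega) h8

/-- every rational larger than one is the end point of a short word -/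
theorem exists_word (N : ℕ) : ∀ p q : ℕ, 0 < q → q < p → q < 2 ^ N →
    ∃ w : List (ℕ × ℕ), Wd w ∧ w ≠ [] ∧ w.length ≤ N ∧ bw w 0 = (q : ℝ) / p := by
  induction N with
  | zero => intro p q hq _ h; simp at h; omega
  | succ N ih =>
    intro p q hq hqp hN
    have hq' : (0 : ℝ) < q := by exact_mod_cast hq
    have hp' : (0 : ℝ) < p := by exact_mod_cast (lt_trans hq hqp)
    have hn1 : 1 ≤ p / q := (Nat.one_le_div_iff hq).mpr hqp.le
    have hpe : p = q * (p / q) + p % q := (Nat.div_add_mod p q).symm
    set n := p / q with hn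
    set r := p % q with hr
    have hrq : r < q := Nat.mod_lt _ hq
    have hpeR : (p : ℝ) = q * n + r := by exact_mod_cast hpe
    by_cases hr0 : r = 0
    · have hn2 : 2 ≤ n := by
        by_contra hc
        have : n = 1 := by omega
        rw [this, hr0] at hpe
        omega
      refine ⟨[(n - 1, 1)], ?_, by simp, by simp, ?_⟩
      · intro c hc
        simp only [List.mem_singleton] at hc
        subst hc
        constructor <;> simp <;> omega
      · show 1 / (((n - 1 : ℕ) : ℝ) + 1 / (((1 : ℕ) : ℝ) + 0)) = _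
        rw [Nat.cast_sub hn1]
        rw [hpeR, hr0]
        push_cast
        have hn0 : (0 : ℝ) < n := by exact_mod_cast (by omega : 0 < n)
        have e : (n : ℝ) - 1 + 1 / (1 + 0) = n := by norm_num
        rw [e, add_zero]
        field_simp
    · have hrpos : 0 < r := Nat.pos_of_ne_zero hr0
      have hr' : (0 : ℝ) < r := by exact_mod_cast hrpos
      have hk1 : 1 ≤ q / r := (Nat.one_le_div_iff hrpos).mpr hrq.le
      have hqe : q = r * (q / r) + q % r := (Nat.div_add_mod q r).symm
      set k := q / r with hk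
      set r2 := q % r with hr2
      have hr2r : r2 < r := Nat.mod_lt _ hrpos
      have hqeR : (q : ℝ) = r * k + r2 := by exact_mod_cast hqe
      have hk' : (0 : ℝ) < k := by exact_mod_cast (by omega : 0 < k)
      have hn' : (0 : ℝ) < n := by exact_mod_cast (by omega : 0 < n)
      by_cases hr20 : r2 = 0
      · refine ⟨[(n, k)], ?_, by simp, by simp, ?_⟩
        · intro c hc
          simp only [List.mem_singleton] at hc
          subst hc
          exact ⟨hn1, hk1⟩
        · show 1 / ((n : ℝ) + 1 / ((k : ℝ) + 0)) = _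
          rw [hpeR, hqeR, hr20]
          push_cast
          rw [add_zero, add_zero]
          field_simp
      · have hr2pos : 0 < r2 := Nat.pos_of_ne_zero hr20
        have hr2' : (0 : ℝ) < r2 := by exact_mod_cast hr2pos
        have h2r : r2 < 2 ^ N := by
          have h1 : r + r2 ≤ q := by
            have : r * 1 ≤ r * k := Nat.mul_le_mul_left _ hk1
            omega
          rw [pow_succ] at hN
          omega
        obtain ⟨w, hw1, hw2, hw3, hw4⟩ := ih r r2 hr2pos hr2r h2r
        refine ⟨(n, k) :: w, ?_, by simp, by simpa using hw3, ?_⟩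
        · intro c hc
          rw [List.mem_cons] at hc
          rcases hc with rfl | hc
          · exact ⟨hn1, hk1⟩
          · exact hw1 c hc
        · show 1 / ((n : ℝ) + 1 / ((k : ℝ) + bw w 0)) = _
          rw [hw4]
          have e1 : (k : ℝ) + r2 / r = q / r := by
            rw [hqeR]; field_simp
          rw [e1, one_div_div]
          have e2 : (n : ℝ) + r / q = p / q := by
            rw [hpeR]; field_simp
          rw [e2, one_div_div]

/-- size of the points of `ZZ n` -/
theorem hit_size (n : ℕ) : ∀ x : ℝ, hit L U n x → ∃ (p : ℤ) (q : ℕ), 0 < q ∧ x = (p : ℝ) / q ∧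
    p.natAbs + q ≤ 2 ^ n := by
  induction n with
  | zero =>
    intro x h
    rw [hit_zero_iff] at h
    exact ⟨0, 1, one_pos, by rw [h]; simp, by simp⟩
  | succ n ih =>
    intro x h
    rw [hit_succ_iff] at h
    rcases h with h | h
    · refine ⟨0, 1, one_pos, by rw [h]; simp, ?_⟩
      simp
      exact Nat.one_le_two_pow
    · obtain ⟨p, q, hq, hx, hs⟩ := ih _ h
      have hq' : (0 : ℝ) < q := by exact_mod_cast hq
      rw [pow_succ]
      rcases F_cases (L := L) (U := U) x with h2 | h2 | h2
      · rw [h2] at hx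
        refine ⟨p - q, q, hq, ?_, by omega⟩
        have : x = (p : ℝ) / q - 1 := by linarith
        rw [this]
        push_cast
        field_simp
      · rw [h2] at hx
        refine ⟨p + q, q, hq, ?_, by omega⟩
        have : x = (p : ℝ) / q + 1 := by linarith
        rw [this]
        push_cast
        field_simp
      · rw [h2] at hx
        have hx2 : x = -1 / ((p : ℝ) / q) := by rw [← hx, neg_one_div_invol]
        rcases lt_trichotomy p 0 with hp | hp | hp
        · refine ⟨q, p.natAbs, by omega, ?_, by omega⟩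
          have : (p.natAbs : ℝ) = -(p : ℝ) := by
            rw [Nat.cast_natAbs, abs_of_neg hp]; push_cast; ring
          rw [this, hx2]
          have : (p : ℝ) < 0 := by exact_mod_cast hp
          have : (p : ℝ) ≠ 0 := ne_of_lt this
          push_cast
          field_simp
        · subst hp
          refine ⟨0, 1, one_pos, ?_, ?_⟩
          · rw [hx2]; simp
          · simp
            have : 1 ≤ 2 ^ n := Nat.one_le_two_pow
            omega
        · refine ⟨-q, p.natAbs, by omega, ?_, by omega⟩
          have : (p.natAbs : ℝ) = (p : ℝ) := by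
            rw [Nat.cast_natAbs, abs_of_pos hp]
          rw [this, hx2]
          have : (0 : ℝ) < p := by exact_mod_cast hp
          push_cast
          field_simp

theorem exists_word_AA (m : ℕ) {x : ℝ} (hx : x ∈ AA L U m) :
    ∃ w : List (ℕ × ℕ), Wd w ∧ w ≠ [] ∧ w.length ≤ m + 1 ∧ 1 / bw w 0 = x := by
  obtain ⟨h1, h2⟩ := hx
  obtain ⟨p, q, hq, hx, hs⟩ := hit_size m x h2
  have hq' : (0 : ℝ) < q := by exact_mod_cast hq
  have hpq : (q : ℤ) < p := by
    rw [hx, lt_div_iff₀ hq', one_mul] at h1
    exact_mod_cast h1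
  have hp : (p.natAbs : ℝ) = p := by
    rw [Nat.cast_natAbs, abs_of_pos (by omega)]
  obtain ⟨w, hw1, hw2, hw3, hw4⟩ := exists_word (m + 1) p.natAbs q hq (by omega)
    (by rw [pow_succ]; omega)
  refine ⟨w, hw1, hw2, hw3, ?_⟩
  rw [hw4, one_div_div, hp, hx]

end Q66.Ab
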