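import Mathlib
import Pool.Agent.Q66.Ab9

/-!
# Uniform two-sided estimates of the entropy by hitting counts
-/

namespace Q66.Ab

open Set Filter Topology

variable {a b : ℝ} {L U : Set ℝ}

/-- lower bound from a family of points with words of one length -/
theorem ent_ge_of_family (P : Good a b L U) (m : ℕ) {A : Set ℝ} (hA : A ⊆ AA L U m)
    {r : ℕ} {w : ℝ → List (ℕ × ℕ)} (hw : ∀ x ∈ A, Wd (w x) ∧ w x ≠ [] ∧ 1 / bw (w x) 0 = x)
    (hr : ∀ x ∈ A, (w x).length = r) (hne : 1 ≤ A.ncard) :
    Real.log A.ncard / (m + 2) ≤ ent a b L U P.toPol := by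
  have hAfin : A.Finite := (AA_finite m).subset hA
  -- the sets `X_j`
  have key : ∀ j : ℕ, ∃ X : Set ℝ, X.Finite ∧ X.ncard = A.ncard ^ j ∧
      ∀ θ ∈ X, 0 < θ ∧ θ < 1 ∧ hit L U (j * (m + 2) + 2) (1 / θ) := by
    intro j
    induction j with
    | zero =>
      refine ⟨{1 / 2}, Set.toFinite _, by simp, ?_⟩
      intro θ hθ
      rw [mem_singleton_iff] at hθ
      subst hθ
      refine ⟨by norm_num, by norm_num, ?_⟩
      rw [show (1 : ℝ) / (1 / 2) = 2 by norm_num]
      apply hit_succ
      rw [P.FU (by norm_num) (P.one_le (by norm_num))]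
      rw [show (2 : ℝ) - 1 = 1 by norm_num]
      exact hit_mono (by omega) (hit_one P)
    | succ j ih =>
      obtain ⟨X, hX1, hX2, hX3⟩ := ih
      refine ⟨(fun c : ℝ × ℝ => bw (w c.1) c.2) '' (A ×ˢ X), (hAfin.prod hX1).image _, ?_, ?_⟩
      · rw [InjOn.ncard_image]
        · rw [Set.ncard_prod, hX2, pow_succ, mul_comm]
        · rintro ⟨x, θ⟩ ⟨hx, hθ⟩ ⟨x', θ'⟩ ⟨hx', hθ'⟩ he
          simp only at hx hθ hx' hθ' he
          obtain ⟨h1, h2, -⟩ := hX3 θ hθ
          obtain ⟨h3, h4, -⟩ := hX3 θ' hθ'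
          obtain ⟨h5, h6⟩ := bw_inj (w x) (w x') (hw x hx).1 (hw x' hx').1
            (by rw [hr x hx, hr x' hx']) h1 h2 h3 h4 he
          have h7 : x = x' := by rw [← (hw x hx).2.2, ← (hw x' hx').2.2, h5]
          rw [h7, h6]
      · rintro _ ⟨⟨x, θ⟩, ⟨hx, hθ⟩, rfl⟩
        simp only at hx hθ
        obtain ⟨h1, h2, h3⟩ := hX3 θ hθ
        obtain ⟨h4, h5, h6⟩ := hw x hx
        obtain ⟨h7, h8⟩ := bw_mem (w x) h4 h1 h2
        refine ⟨h7, h8, ?_⟩
        have h9 : hit L U m (1 / bw (w x) 0) := by rw [h6]; exact (hA hx).2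
        have h10 := concat_word P h4 h5 h9 h1 h2 h3
        exact hit_mono (by ring_nf; omega) h10
  have hA1 : (1 : ℝ) ≤ A.ncard := by exact_mod_cast hne
  have hlog : 0 ≤ Real.log A.ncard := Real.log_nonneg hA1
  have hbound : ∀ j : ℕ, (j : ℝ) * Real.log A.ncard ≤ Real.log (zz L U (j * (m + 2) + 2)) := by
    intro j
    obtain ⟨X, hX1, hX2, hX3⟩ := key j
    have h1 : X.ncard ≤ zz L U (j * (m + 2) + 2) := by
      apply Set.ncard_le_ncard_of_injOn (fun θ => 1 / θ) _ _ (ZZ_finite _)
      · intro θ hθ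
        exact (hX3 θ hθ).2.2
      · intro θ hθ θ' hθ' he
        have h2 := (hX3 θ hθ).1
        have h3 := (hX3 θ' hθ').1
        simp only at he
        rw [div_eq_div_iff (ne_of_gt h2) (ne_of_gt h3)] at he
        linarith
    rw [← Real.log_pow]
    apply Real.log_le_log (by positivity)
    rw [hX2] at h1
    exact_mod_cast h1
  have hm2 : (0 : ℝ) < m + 2 := by positivity
  have h1 : Tendsto (fun j : ℕ => j * (m + 2) + 2) atTop atTop :=
    tendsto_atTop_mono (fun j => by
      have : j * 1 ≤ j * (m + 2) := Nat.mul_le_mul_left _ (by omega)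
      simp only [id]
      omega) tendsto_id
  have h2 := (zz_tendsto P.toPol).comp h1
  have h3 : Tendsto (fun j : ℕ => ((m : ℝ) + 2) + 2 / j) atTop (𝓝 (((m : ℝ) + 2) + 0)) :=
    tendsto_const_nhds.add (tendsto_const_div_atTop_nhds_zero_nat _)
  rw [add_zero] at h3
  have h4 : Tendsto (fun j : ℕ => Real.log A.ncard / (((m : ℝ) + 2) + 2 / j)) atTop
      (𝓝 (Real.log A.ncard / ((m : ℝ) + 2))) :=
    tendsto_const_nhds.div h3 (ne_of_gt hm2)
  apply le_of_tendsto_of_tendsto h4 h2
  filter_upwards [eventually_gt_atTop 0] with j hj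
  have hj' : (0 : ℝ) < j := by exact_mod_cast hj
  have h5 := hbound j
  simp only [Function.comp]
  have h6 : (((m : ℝ) + 2) + 2 / j) = (((j * (m + 2) + 2 : ℕ)) : ℝ) / j := by
    push_cast
    field_simp
  rw [h6, div_div_eq_mul_div]
  apply div_le_div_of_nonneg_right _ (Nat.cast_nonneg _)
  linarith

open Classical in
theorem ent_ge_AA (P : Good a b L U) {m : ℕ} (hm : 2 ≤ m) :
    Real.log ((AA L U m).ncard / (m + 2)) / (m + 2) ≤ ent a b L U P.toPol := by
  have hex : ∀ x : ℝ, ∃ w : List (ℕ × ℕ), x ∈ AA L U m →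
      Wd w ∧ w ≠ [] ∧ w.length ≤ m + 1 ∧ 1 / bw w 0 = x := by
    intro x
    by_cases hx : x ∈ AA L U m
    · obtain ⟨w, hw⟩ := exists_word_AA m hx
      exact ⟨w, fun _ => hw⟩
    · exact ⟨[], fun h => absurd h hx⟩
  choose w hw using hex
  have hfin := AA_finite (L := L) (U := U) m
  set S := hfin.toFinset with hS
  have hScard : S.card = (AA L U m).ncard := (Set.ncard_eq_toFinset_card _ hfin).symm
  have hmaps : ∀ x ∈ S, (w x).length ∈ Finset.range (m + 2) := by
    intro x hx
    have hx' : x ∈ AA L U m := by simpa [hS] using hx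
    rw [Finset.mem_range]
    have := (hw x hx').2.2.1
    omega
  have hsum := Finset.card_eq_sum_card_fiberwise hmaps
  -- choose the most popular length
  obtain ⟨r, hr, hmax⟩ := Finset.exists_max_image (Finset.range (m + 2))
    (fun r => (S.filter (fun x => (w x).length = r)).card) ⟨0, by simp⟩
  have h1 : S.card ≤ (m + 2) * (S.filter (fun x => (w x).length = r)).card := by
    rw [hsum]
    calc ∑ i ∈ Finset.range (m + 2), (S.filter (fun x => (w x).length = i)).card
        ≤ ∑ i ∈ Finset.range (m + 2), (S.filter (fun x => (w x).length = r)).card :=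
          Finset.sum_le_sum hmax
      _ = _ := by rw [Finset.sum_const, Finset.card_range, smul_eq_mul]
  set A : Set ℝ := {x ∈ AA L U m | (w x).length = r} with hA
  have hAcard : A.ncard = (S.filter (fun x => (w x).length = r)).card := by
    rw [← Set.ncard_coe_finset]
    congr 1
    ext x
    simp [hA, hS]
  rw [← hAcard, hScard] at h1
  have hpos : 1 ≤ (AA L U m).ncard := by
    obtain ⟨k, rfl⟩ : ∃ k, m = k + 2 := ⟨m - 2, by omega⟩
    exact AA_nonempty P k
  have hA1 : 1 ≤ A.ncard := by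
    by_contra hc
    have : A.ncard = 0 := by omega
    rw [this, mul_zero] at h1
    omega
  have h2 := ent_ge_of_family P m (A := A) (fun x hx => hx.1) (r := r) (w := w)
    (fun x hx => ⟨(hw x hx.1).1, (hw x hx.1).2.1, (hw x hx.1).2.2.2⟩) (fun x hx => hx.2) hA1
  refine le_trans ?_ h2
  apply div_le_div_of_nonneg_right _ (by positivity)
  have h3 : ((AA L U m).ncard : ℝ) ≤ (m + 2) * A.ncard := by exact_mod_cast h1
  have h4 : (0 : ℝ) < (AA L U m).ncard := by exact_mod_cast hpos
  apply Real.log_le_log (by positivity)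
  rw [div_le_iff₀ (by positivity)]
  linarith

theorem zz_le_AA (P : Good a b L U) {m : ℕ} (hm : 1 ≤ m) :
    zz L U m ≤ 3 * (m + 1) * (AA L U (m + 1)).ncard := by
  have hpos : ∀ n, {x | 0 < x ∧ hit L U n x}.Finite := fun n =>
    (ZZ_finite (L := L) (U := U) n).subset fun _ h => h.2
  have hneg : ∀ n, {x | x < 0 ∧ hit L U n x}.Finite := fun n =>
    (ZZ_finite (L := L) (U := U) n).subset fun _ h => h.2
  have hpmono : ∀ n, n ≤ m → {x | 0 < x ∧ hit L U n x}.ncard ≤ {x | 0 < x ∧ hit L U m x}.ncard :=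
    fun n hn => Set.ncard_le_ncard (fun x hx => ⟨hx.1, hit_mono hn hx.2⟩) (hpos m)
  have h1 : {x | 0 < x ∧ hit L U m x}.ncard ≤ (AA L U (m + 1)).ncard := by
    apply Set.ncard_le_ncard_of_injOn (fun x => x + 1) _ _ (AA_finite _)
    · rintro x ⟨hx1, hx2⟩
      refine ⟨?_, P.hit_add_one hx1 hx2⟩
      linarith
    · exact (add_left_injective (1 : ℝ)).injOn
  have h2 : ∀ n ≤ m, {x | x < 0 ∧ hit L U n x}.ncard ≤
      n * (1 + 2 * {x | 0 < x ∧ hit L U m x}.ncard) := by
    intro n
    induction n with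
    | zero =>
      intro _
      have : {x : ℝ | x < 0 ∧ hit L U 0 x} = ∅ := by
        rw [Set.eq_empty_iff_forall_notMem]
        rintro x ⟨hx1, hx2⟩
        rw [hit_zero_iff] at hx2
        linarith
      rw [this, Set.ncard_empty, zero_mul]
    | succ n ih =>
      intro hn
      have h3 := ih (by omega)
      have h4 := hpmono n (by omega)
      have hsub : {x | x < 0 ∧ hit L U (n + 1) x} ⊆
          insert (-1) (((fun y => y - 1) '' {x | x < 0 ∧ hit L U n x}) ∪
            (((fun y => y - 1) '' {x | 0 < x ∧ hit L U n x}) ∪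
              ((fun y => -1 / y) '' {x | 0 < x ∧ hit L U n x}))) := by
        rintro x ⟨hx1, hx2⟩
        obtain ⟨n', e, h5⟩ := hit_pred (ne_of_lt hx1) hx2
        have e' : n' = n := by omega
        subst e'
        by_cases hL : x ∈ L
        · rw [F_L hL] at h5
          rcases lt_trichotomy (x + 1) 0 with h6 | h6 | h6
          · right; left
            exact ⟨x + 1, ⟨h6, h5⟩, by ring⟩
          · left; linarith
          · right; right; left
            exact ⟨x + 1, ⟨h6, h5⟩, by ring⟩
        · rw [P.FSneg hx1 hL] at h5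
          right; right; right
          exact ⟨-1 / x, ⟨div_pos_of_neg_of_neg (by norm_num) hx1, h5⟩, neg_one_div_invol x⟩
      have g1 := Set.ncard_le_ncard hsub
        ((((hneg n).image _).union (((hpos n).image _).union ((hpos n).image _))).insert _)
      have g2 := Set.ncard_insert_le (-1 : ℝ) (((fun y => y - 1) '' {x | x < 0 ∧ hit L U n x}) ∪
            (((fun y => y - 1) '' {x | 0 < x ∧ hit L U n x}) ∪
              ((fun y => -1 / y) '' {x | 0 < x ∧ hit L U n x})))
      have g3 := Set.ncard_union_le ((fun y => y - 1) '' {x | x < 0 ∧ hit L U n x})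
            (((fun y => y - 1) '' {x | 0 < x ∧ hit L U n x}) ∪
              ((fun y => -1 / y) '' {x | 0 < x ∧ hit L U n x}))
      have g4 := Set.ncard_union_le ((fun y => y - 1) '' {x | 0 < x ∧ hit L U n x})
              ((fun y => -1 / y) '' {x | 0 < x ∧ hit L U n x})
      have g5 := Set.ncard_image_le (hneg n) (f := fun y : ℝ => y - 1)
      have g6 := Set.ncard_image_le (hpos n) (f := fun y : ℝ => y - 1)
      have g7 := Set.ncard_image_le (hpos n) (f := fun y : ℝ => -1 / y)
      have g8 : (n + 1) * (1 + 2 * {x | 0 < x ∧ hit L U m x}.ncard) =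
          n * (1 + 2 * {x | 0 < x ∧ hit L U m x}.ncard) +
            (1 + 2 * {x | 0 < x ∧ hit L U m x}.ncard) := by ring
      omega
  have h3 : zz L U m ≤ 1 + ({x | x < 0 ∧ hit L U m x}.ncard + {x | 0 < x ∧ hit L U m x}.ncard) := by
    have hsub : ZZ L U m ⊆ {0} ∪ ({x | x < 0 ∧ hit L U m x} ∪ {x | 0 < x ∧ hit L U m x}) := by
      intro x hx
      rcases lt_trichotomy x 0 with h | h | h
      · exact Or.inr (Or.inl ⟨h, hx⟩)
      · exact Or.inl h
      · exact Or.inr (Or.inr ⟨h, hx⟩)
    have g1 := Set.ncard_le_ncard hsub ((Set.toFinite _).union ((hneg m).union (hpos m)))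
    have g2 := Set.ncard_union_le ({0} : Set ℝ)
      ({x | x < 0 ∧ hit L U m x} ∪ {x | 0 < x ∧ hit L U m x})
    have g3 := Set.ncard_union_le {x | x < 0 ∧ hit L U m x} {x | 0 < x ∧ hit L U m x}
    rw [Set.ncard_singleton] at g2
    unfold zz
    omega
  have h4 := h2 m (le_refl _)
  have h5 : 1 ≤ (AA L U (m + 1)).ncard := by
    obtain ⟨k, rfl⟩ : ∃ k, m = k + 1 := ⟨m - 1, by omega⟩
    exact AA_nonempty P k
  calc zz L U m ≤ 1 + (m * (1 + 2 * {x | 0 < x ∧ hit L U m x}.ncard) +
        {x | 0 < x ∧ hit L U m x}.ncard) := by omega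
    _ ≤ 1 + (m * (1 + 2 * (AA L U (m + 1)).ncard) + (AA L U (m + 1)).ncard) := by gcongr
    _ ≤ 3 * (m + 1) * (AA L U (m + 1)).ncard := by nlinarith

/-- uniform lower bound for the entropy -/
theorem ent_ge_finite (P : Good a b L U) {m : ℕ} (hm : 1 ≤ m) :
    (Real.log (zz L U m) - Real.log (3 * (m + 1) * (m + 3))) / (m + 3) ≤
      ent a b L U P.toPol := by
  have h1 := ent_ge_AA P (show 2 ≤ m + 1 by omega)
  refine le_trans ?_ h1
  push_cast
  rw [show (m : ℝ) + 1 + 2 = m + 3 by ring]
  apply div_le_div_of_nonneg_right _ (by positivity)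
  have h2 : (zz L U m : ℝ) ≤ 3 * (m + 1) * (AA L U (m + 1)).ncard := by
    exact_mod_cast zz_le_AA P hm
  have h3 : (1 : ℝ) ≤ zz L U m := by exact_mod_cast one_le_zz m
  have h5 : (1 : ℝ) ≤ (AA L U (m + 1)).ncard := by
    obtain ⟨k, rfl⟩ : ∃ k, m = k + 1 := ⟨m - 1, by omega⟩
    exact_mod_cast AA_nonempty P k
  have h4 : (0 : ℝ) < 3 * (m + 1) * (m + 3) := by positivity
  rw [← Real.log_div (by positivity) (by positivity)]
  apply Real.log_le_log (by positivity)
  rw [div_le_div_iff₀ h4 (by positivity)]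
  nlinarith

/-- the error term -/
noncomputable def err (m : ℕ) : ℝ :=
  (Real.log (4 * m + 7) + Real.log (3 * (m + 3) * (m + 5)) + 5 * Real.log 4) / m

theorem zz_le_pow (n : ℕ) : (zz L U n : ℝ) ≤ 2 * 3 ^ n := by
  have : zz L U n ≤ 2 * 3 ^ n - 1 := by
    induction n with
    | zero =>
      have : ZZ L U 0 ⊆ {0} := fun x hx => hit_zero_iff.mp hx
      have := Set.ncard_le_ncard this (Set.toFinite _)
      rw [Set.ncard_singleton] at this
      unfold zz
      simpa using this
    | succ n ih =>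
      have hsub : ZZ L U (n + 1) ⊆ insert 0 (((fun x => x - 1) '' ZZ L U n) ∪
          (((fun x => x + 1) '' ZZ L U n) ∪ ((fun x => -1 / x) '' ZZ L U n))) := by
        intro x hx
        have hx' : hit L U (n + 1) x := hx
        rw [hit_succ_iff] at hx'
        rcases hx' with h | h
        · left; exact h
        · right
          rcases F_cases (L := L) (U := U) x with h2 | h2 | h2
          · left; exact ⟨F L U x, h, by rw [h2]; ring⟩
          · right; left; exact ⟨F L U x, h, by rw [h2]; ring⟩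
          · right; right; exact ⟨F L U x, h, by rw [h2]; exact neg_one_div_invol x⟩
      have hZ := ZZ_finite (L := L) (U := U) n
      have g1 := Set.ncard_le_ncard hsub
        (((hZ.image _).union ((hZ.image _).union (hZ.image _))).insert _)
      have g2 := Set.ncard_insert_le (0 : ℝ) (((fun x => x - 1) '' ZZ L U n) ∪
          (((fun x => x + 1) '' ZZ L U n) ∪ ((fun x => -1 / x) '' ZZ L U n)))
      have g3 := Set.ncard_union_le ((fun x => x - 1) '' ZZ L U n)
          (((fun x => x + 1) '' ZZ L U n) ∪ ((fun x => -1 / x) '' ZZ L U n))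
      have g4 := Set.ncard_union_le ((fun x => x + 1) '' ZZ L U n)
        ((fun x => -1 / x) '' ZZ L U n)
      have g5 := Set.ncard_image_le hZ (f := fun y : ℝ => y - 1)
      have g6 := Set.ncard_image_le hZ (f := fun y : ℝ => y + 1)
      have g7 := Set.ncard_image_le hZ (f := fun y : ℝ => -1 / y)
      have h3 : 1 ≤ 3 ^ n := Nat.one_le_pow _ _ (by norm_num)
      unfold zz at ih ⊢
      rw [pow_succ]
      omega
  have h2 : zz L U n ≤ 2 * 3 ^ n := by omega
  exact_mod_cast h2

/-- uniform two-sided estimate -/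
theorem ent_est (P : Good a b L U) {m : ℕ} (hm : 1 ≤ m) :
    |ent a b L U P.toPol - Real.log (zz L U (m + 2)) / m| ≤ err m := by
  have hm' : (1 : ℝ) ≤ m := by exact_mod_cast hm
  have h1 := ent_le_finite P (show 0 < m by omega)
  have h2 := ent_ge_finite P (show 1 ≤ m + 2 by omega)
  push_cast at h2
  rw [show (m : ℝ) + 2 + 1 = m + 3 by ring, show (m : ℝ) + 2 + 3 = m + 5 by ring] at h2
  set Z := Real.log (zz L U (m + 2)) with hZ
  set A := Real.log (4 * m + 7) with hA
  set B := Real.log (3 * (m + 3) * (m + 5)) with hB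
  have hZ0 : 0 ≤ Z := Real.log_nonneg (by exact_mod_cast one_le_zz _)
  have hA0 : 0 ≤ A := Real.log_nonneg (by linarith)
  have hB0 : 0 ≤ B := Real.log_nonneg (by nlinarith)
  have hZ1 : Z ≤ (m + 5) * Real.log 4 := by
    have h3 : (zz L U (m + 2) : ℝ) ≤ 4 ^ (m + 5) := by
      refine (zz_le_pow (L := L) (U := U) (m + 2)).trans ?_
      have h4 : (3 : ℝ) ^ (m + 2) ≤ 4 ^ (m + 2) := pow_le_pow_left₀ (by norm_num) (by norm_num) _
      have h5 : (0 : ℝ) < 4 ^ (m + 2) := by positivity
      calc 2 * (3 : ℝ) ^ (m + 2) ≤ 64 * 4 ^ (m + 2) := by linarith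
        _ = 4 ^ (m + 5) := by ring
    have h4 := Real.log_le_log (by exact_mod_cast one_le_zz _) h3
    rw [Real.log_pow] at h4
    push_cast at h4
    exact h4
  have hl4 : 0 ≤ Real.log 4 := Real.log_nonneg (by norm_num)
  rw [abs_le]
  unfold err
  constructor
  · have h3 : Z / m - (A + B + 5 * Real.log 4) / m ≤ (Z - B) / (m + 5) := by
      rw [← sub_div, div_le_div_iff₀ (by linarith) (by linarith)]
      nlinarith [mul_nonneg hA0 (show (0 : ℝ) ≤ m + 5 by linarith)]
    linarith
  · have h3 : (A + Z) / m ≤ Z / m + (A + B + 5 * Real.log 4) / m := by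
      rw [← add_div]
      apply div_le_div_of_nonneg_right _ (by linarith)
      linarith
    linarith

theorem err_tendsto : Tendsto err atTop (𝓝 0) := by
  have hlog : Tendsto (fun n : ℕ => Real.log n / n) atTop (𝓝 0) := by
    have h := Real.isLittleO_log_id_atTop.tendsto_div_nhds_zero
    exact h.comp tendsto_natCast_atTop_atTop
  have h1 := tendsto_shift 5 hlog
  have h2 : Tendsto (fun n : ℕ => (5 * (Real.log ((n + 5 : ℕ) : ℝ) / n)) + (Real.log 48 + 5 * Real.log 4) / n) atTop
      (𝓝 (5 * 0 + 0)) :=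
    (h1.const_mul 5).add (tendsto_const_div_atTop_nhds_zero_nat _)
  rw [mul_zero, add_zero] at h2
  apply squeeze_zero' _ _ h2
  · filter_upwards with m
    unfold err
    have hm : (0 : ℝ) ≤ m := Nat.cast_nonneg m
    have hA0 : 0 ≤ Real.log (4 * m + 7) := Real.log_nonneg (by linarith)
    have hB0 : 0 ≤ Real.log (3 * (m + 3) * (m + 5)) := Real.log_nonneg (by nlinarith)
    have hl4 : 0 ≤ Real.log 4 := Real.log_nonneg (by norm_num)
    positivity
  · filter_upwards with m
    unfold err
    have hm : (0 : ℝ) ≤ m := Nat.cast_nonneg m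
    rw [← mul_div_assoc, ← add_div]
    apply div_le_div_of_nonneg_right _ hm
    push_cast
    have h5 : (0 : ℝ) < (m : ℝ) + 5 := by linarith
    have g1 : Real.log (4 * m + 7) ≤ Real.log 4 + Real.log (m + 5) := by
      rw [← Real.log_mul (by norm_num) (by positivity)]
      apply Real.log_le_log (by linarith)
      linarith
    have g2 : Real.log (3 * (m + 3) * (m + 5)) ≤ Real.log 3 + 2 * Real.log (m + 5) := by
      have : Real.log 3 + 2 * Real.log ((m : ℝ) + 5) = Real.log (3 * (m + 5) ^ 2) := by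
        rw [Real.log_mul (by norm_num) (by positivity), Real.log_pow]
        push_cast; ring
      rw [this]
      apply Real.log_le_log (by nlinarith)
      nlinarith
    have g3 : Real.log 48 = Real.log 4 + (Real.log 3 + Real.log 4) := by
      rw [← Real.log_mul (by norm_num) (by norm_num), ← Real.log_mul (by norm_num) (by norm_num)]
      norm_num
    have g4 : 0 ≤ Real.log ((m : ℝ) + 5) := Real.log_nonneg (by linarith)
    have g5 : 0 ≤ Real.log 4 := Real.log_nonneg (by norm_num)
    linarith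

end Q66.Ab
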