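import Mathlib
import Pool.Agent.Q66.Ab10

/-!
# Continuity of the entropy on the parameter set
-/

namespace Q66.Ab

open Set Filter Topology

variable {a b : ℝ} {L U L' U' : Set ℝ}

theorem DD_indep (P : Pol a b L U) (Q : Pol a b L' U') (n : ℕ) :
    DD a b L U n = DD a b L' U' n := by
  have hF : ∀ x, ¬ (x = a ∨ x = 0 ∨ x = b) → F L U x = F L' U' x := by
    intro x hx
    push Not at hx
    obtain ⟨h1, h2, h3⟩ := hx
    rcases lt_or_gt_of_ne h1 with h | h
    · rw [F_L (P.l1 x h), F_L (Q.l1 x h)]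
    · have hL : x ∉ L := fun hc => by have := P.l2 x hc; linarith
      have hL' : x ∉ L' := fun hc => by have := Q.l2 x hc; linarith
      rcases lt_or_gt_of_ne h3 with h4 | h4
      · have hU : x ∉ U := fun hc => by have := P.u2 x hc; linarith
        have hU' : x ∉ U' := fun hc => by have := Q.u2 x hc; linarith
        rw [F_S hL hU, F_S hL' hU']
      · rw [F_U hL (P.u1 x h4), F_U hL' (Q.u1 x h4)]
  induction n with
  | zero => rw [DD_zero, DD_zero]
  | succ n ih =>
    ext x
    rw [mem_DD_succ, mem_DD_succ, ih]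
    by_cases h : x = a ∨ x = 0 ∨ x = b
    · simp [h]
    · rw [hF x h]

/-- the entropy does not depend on the treatment of the cut points -/
theorem ent_indep (P : Pol a b L U) (Q : Pol a b L' U') : ent a b L U P = ent a b L' U' Q := by
  apply tendsto_nhds_unique (ent_tendsto P)
  have : ∀ n, ell a b L U n = ell a b L' U' n := fun n => by
    unfold ell; rw [DD_indep P Q n]
  simp_rw [this]
  exact ent_tendsto Q

theorem exists_sep {R : Set ℝ} (hR : R.Finite) (c : ℝ) :
    ∃ δ > 0, ∀ x ∈ R, x ≠ c → δ ≤ |x - c| := by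
  have h1 : (R \ {c}).Finite := hR.subset sdiff_subset
  have h2 : IsOpen (R \ {c})ᶜ := h1.isClosed.isOpen_compl
  obtain ⟨ε, hε, h3⟩ := Metric.isOpen_iff.mp h2 c (fun h => h.2 rfl)
  refine ⟨ε, hε, fun x hx hxc => ?_⟩
  by_contra h4
  push Not at h4
  exact h3 (show x ∈ Metric.ball c ε by rw [Metric.mem_ball, Real.dist_eq]; exact h4) ⟨hx, hxc⟩

theorem variant (h : InP a b) {k : ℕ} (hk : 3 ≤ k) : ∃ δ > 0, ∀ (a' b' : ℝ) (L' U' : Set ℝ),
    Good a' b' L' U' → |a' - a| < δ → |b' - b| < δ →
      ∃ L U : Set ℝ, Good a b L U ∧ zz L U k = zz L' U' k := by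
  have hRfin : (ZZ (Iic (-1 : ℝ)) (Ici 1) k).Finite := ZZ_finite k
  set R := ZZ (Iic (-1 : ℝ)) (Ici 1) k with hR
  obtain ⟨δ1, hδ1, h1⟩ := exists_sep hRfin a
  obtain ⟨δ2, hδ2, h2⟩ := exists_sep hRfin b
  refine ⟨min δ1 δ2, lt_min hδ1 hδ2, fun a' b' L' U' G ha hb => ?_⟩
  have ha' : |a' - a| < δ1 := lt_of_lt_of_le ha (min_le_left _ _)
  have hb' : |b' - b| < δ2 := lt_of_lt_of_le hb (min_le_right _ _)
  rw [abs_lt] at ha' hb'
  have hL1 : ∀ x ∈ R, x < a → x ∈ L' := by
    intro x hx hxa
    apply G.l1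
    have := h1 x hx (ne_of_lt hxa)
    rw [abs_of_neg (by linarith)] at this
    linarith [ha'.1]
  have hL2 : ∀ x ∈ R, a < x → x ∉ L' := by
    intro x hx hxa hc
    have := h1 x hx (ne_of_gt hxa)
    rw [abs_of_pos (by linarith)] at this
    have := G.l2 x hc
    linarith [ha'.2]
  have hU1 : ∀ x ∈ R, b < x → x ∈ U' := by
    intro x hx hxb
    apply G.u1
    have := h2 x hx (ne_of_gt hxb)
    rw [abs_of_pos (by linarith)] at this
    linarith [hb'.2]
  have hU2 : ∀ x ∈ R, x < b → x ∉ U' := by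
    intro x hx hxb hc
    have := h2 x hx (ne_of_lt hxb)
    rw [abs_of_neg (by linarith)] at this
    have := G.u2 x hc
    linarith [hb'.1]
  have hmL : ∀ x, x ∈ Iio a ∪ ({a} ∩ L') ↔ x < a ∨ (x = a ∧ a ∈ L') := by
    intro x
    constructor
    · rintro (h3 | ⟨h3, h4⟩)
      · exact Or.inl h3
      · rw [mem_singleton_iff] at h3
        subst h3
        exact Or.inr ⟨rfl, h4⟩
    · rintro (h3 | ⟨h3, h4⟩)
      · exact Or.inl h3
      · subst h3
        exact Or.inr ⟨rfl, h4⟩
  have hmU : ∀ x, x ∈ Ioi b ∪ ({b} ∩ U') ↔ b < x ∨ (x = b ∧ b ∈ U') := by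
    intro x
    constructor
    · rintro (h3 | ⟨h3, h4⟩)
      · exact Or.inl h3
      · rw [mem_singleton_iff] at h3
        subst h3
        exact Or.inr ⟨rfl, h4⟩
    · rintro (h3 | ⟨h3, h4⟩)
      · exact Or.inl h3
      · subst h3
        exact Or.inr ⟨rfl, h4⟩
  set V := Iio a ∪ ({a} ∩ L') with hV
  set W := Ioi b ∪ ({b} ∩ U') with hW
  have hin := h
  obtain ⟨k1, k2, k3, k4⟩ := h
  have pol : Pol a b V W :=
    { ha := k1
      hb := k2
      l1 := fun x hx => (hmL x).mpr (Or.inl hx)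
      l2 := fun x hx => by
        rcases (hmL x).mp hx with h3 | h3
        · exact h3.le
        · exact h3.1.le
      u1 := fun x hx => (hmU x).mpr (Or.inl hx)
      u2 := fun x hx => by
        rcases (hmU x).mp hx with h3 | h3
        · exact h3.le
        · exact h3.1.ge
      t1 := fun x hx hc => by
        rcases (hmL x).mp hx with h3 | ⟨h3, h4⟩
        · rcases (hmU _).mp hc with h5 | ⟨h5, _⟩ <;> linarith
        · subst h3
          rcases (hmU _).mp hc with h5 | ⟨h5, h6⟩
          · linarith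
          · have := G.t1 x h4
            rw [h5] at this
            exact this h6
      s1 := fun x hx hc => by
        rw [hmL] at hc
        push Not at hc
        obtain ⟨h3, h4⟩ := hc
        rw [hmU]
        have h5 : b ≤ -1 / x := by
          rw [le_div_iff_of_neg hx]
          nlinarith
        rcases eq_or_lt_of_le h5 with h6 | h6
        · right
          refine ⟨h6.symm, ?_⟩
          -- then `x = a`
          have hb0 : 0 < b := by rw [h6]; exact div_pos_of_neg_of_neg (by norm_num) hx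
          have hxne : x ≠ 0 := ne_of_lt hx
          have h7 : b * x = -1 := by rw [h6]; field_simp
          have h8 : x = a := by
            apply le_antisymm _ h3
            by_contra h9
            push Not at h9
            nlinarith
          subst h8
          have h9 := G.s1 x hx (h4 rfl)
          rwa [← h6] at h9
        · exact Or.inl h6 }
  have m1 : (1 : ℝ) ∈ R := hit_mono (by omega) (hit_one DPol)
  have m2 : (-1 / 2 : ℝ) ∈ R := by
    have h3 : dh (1 + 1) (1 + 1) := dh_T (hit_one DPol)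
    have h4 : dh (1 + 1 + 1) (-1 / (1 + 1)) := dh_S h3
    have h5 : dh k (-1 / (1 + 1)) := hit_mono (by omega) h4
    norm_num at h5 ⊢
    exact h5
  have good : Good a b V W :=
    { pol with
      g1 := by
        rw [hmU]
        rcases lt_trichotomy b 1 with h3 | h3 | h3
        · exact Or.inl h3
        · right; subst h3; exact ⟨rfl, G.g1⟩
        · exact absurd G.g1 (hU2 1 m1 h3)
      g2 := by
        rw [hmL]
        push Not
        constructor
        · by_contra h3
          push Not at h3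
          exact G.g2 (hL1 _ m2 h3)
        · intro h3 h4
          rw [← h3] at h4
          exact G.g2 h4 }
  refine ⟨V, W, good, ?_⟩
  have hF : ∀ x ∈ R, F V W x = F L' U' x := by
    intro x hx
    have e1 : x ∈ V ↔ x ∈ L' := by
      rw [hmL]
      rcases lt_trichotomy x a with h3 | h3 | h3
      · exact ⟨fun _ => hL1 x hx h3, fun _ => Or.inl h3⟩
      · subst h3
        constructor
        · rintro (h4 | h4)
          · exact absurd h4 (lt_irrefl _)
          · exact h4.2
        · intro h4; exact Or.inr ⟨rfl, h4⟩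
      · constructor
        · rintro (h4 | h4)
          · linarith
          · linarith [h4.1]
        · intro h4; exact absurd h4 (hL2 x hx h3)
    have e2 : x ∈ W ↔ x ∈ U' := by
      rw [hmU]
      rcases lt_trichotomy x b with h3 | h3 | h3
      · constructor
        · rintro (h4 | h4)
          · linarith
          · linarith [h4.1]
        · intro h4; exact absurd h4 (hU2 x hx h3)
      · subst h3
        constructor
        · rintro (h4 | h4)
          · exact absurd h4 (lt_irrefl _)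
          · exact h4.2
        · intro h4; exact Or.inr ⟨rfl, h4⟩
      · exact ⟨fun _ => hU1 x hx h3, fun _ => Or.inl h3⟩
    by_cases c1 : x ∈ V
    · rw [F_L c1, F_L (e1.mp c1)]
    · have c1' : x ∉ L' := fun hc => c1 (e1.mpr hc)
      by_cases c2 : x ∈ W
      · rw [F_U c1 c2, F_U c1' (e2.mp c2)]
      · rw [F_S c1 c2, F_S c1' (fun hc => c2 (e2.mpr hc))]
  have hhit : ∀ j ≤ k, ∀ x, hit V W j x ↔ hit L' U' j x := by
    intro j
    induction j with
    | zero => intro _ x; rw [hit_zero_iff, hit_zero_iff]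
    | succ j ih =>
      intro hj x
      by_cases hx : x ∈ R
      · rw [hit_succ_iff, hit_succ_iff, hF x hx, ih (by omega)]
      · constructor
        · intro h3; exact absurd (hit_mono hj (hit_le_dh _ _ h3)) hx
        · intro h3; exact absurd (hit_mono hj (hit_le_dh _ _ h3)) hx
  unfold zz
  congr 1
  ext x
  exact hhit k (le_refl _) x

theorem InP.mirror (h : InP a b) : InP (-b) (-a) := by
  obtain ⟨h1, h2, h3, h4⟩ := h
  refine ⟨by linarith, by linarith, by linarith, ?_⟩
  have : -b * -a = a * b := by ring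
  rw [this]
  exact h4

theorem ent_close (h : InP a b) {ε : ℝ} (hε : 0 < ε) : ∃ δ > 0, ∀ (a' b' : ℝ) (h' : InP a' b'),
    |a' - a| < δ → |b' - b| < δ →
      |ent a' b' (Iio a') (Ici b') h'.pol - ent a b (Iio a) (Ici b) h.pol| < ε := by
  have h1 : ∀ᶠ m in atTop, err m < ε / 2 := err_tendsto.eventually_lt_const (by linarith)
  obtain ⟨m, hm1, hm2⟩ := (h1.and (eventually_ge_atTop 1)).exists
  obtain ⟨δ1, hδ1, hv1⟩ := variant h (show 3 ≤ m + 2 by omega)
  obtain ⟨δ2, hδ2, hv2⟩ := variant h.mirror (show 3 ≤ m + 2 by omega)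
  refine ⟨min δ1 δ2, lt_min hδ1 hδ2, fun a' b' h' ha hb => ?_⟩
  rcases good_or_mirror h' with G | G
  · obtain ⟨L, U, V, hz⟩ := hv1 a' b' _ _ G (lt_of_lt_of_le ha (min_le_left _ _))
      (lt_of_lt_of_le hb (min_le_left _ _))
    have e1 := ent_est G hm2
    have e2 := ent_est V hm2
    rw [hz] at e2
    rw [ent_indep V.toPol h.pol] at e2
    have e3 : ent a' b' (Iio a') (Ici b') h'.pol = ent a' b' (Iio a') (Ici b') G.toPol := rfl
    rw [e3]
    rw [abs_le] at e1 e2
    rw [abs_lt]
    constructor <;> linarith [e1.1, e1.2, e2.1, e2.2]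
  · have ha2 : |-a' - -a| < δ2 := by
      rw [show -a' - -a = -(a' - a) by ring, abs_neg]
      exact lt_of_lt_of_le ha (min_le_right _ _)
    have hb2 : |-b' - -b| < δ2 := by
      rw [show -b' - -b = -(b' - b) by ring, abs_neg]
      exact lt_of_lt_of_le hb (min_le_right _ _)
    obtain ⟨L, U, V, hz⟩ := hv2 (-b') (-a') _ _ G hb2 ha2
    have e1 := ent_est G hm2
    have e2 := ent_est V hm2
    rw [hz] at e2
    rw [ent_indep V.toPol h.pol.mirror, ent_mirror h.pol] at e2
    have e3 : ent (-b') (-a') (mir (Ici b')) (mir (Iio a')) G.toPol =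
        ent a' b' (Iio a') (Ici b') h'.pol := ent_mirror h'.pol
    rw [e3] at e1
    rw [abs_le] at e1 e2
    rw [abs_lt]
    constructor <;> linarith [e1.1, e1.2, e2.1, e2.2]

open Classical in
/-- the entropy as a function of the parameters -/
noncomputable def HH (a b : ℝ) : ℝ :=
  if h : InP a b then ent a b (Iio a) (Ici b) h.pol else 0

theorem HH_eq (h : InP a b) : HH a b = ent a b (Iio a) (Ici b) h.pol := by
  unfold HH; rw [dif_pos h]

theorem HH_continuousOn : ContinuousOn (fun p : ℝ × ℝ => HH p.1 p.2) {p | InP p.1 p.2} := by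
  rw [Metric.continuousOn_iff]
  rintro ⟨a, b⟩ h ε hε
  have h' : InP a b := h
  obtain ⟨δ, hδ, h1⟩ := ent_close h' hε
  refine ⟨δ, hδ, ?_⟩
  rintro ⟨a', b'⟩ h2 hd
  have h2' : InP a' b' := h2
  rw [Prod.dist_eq, max_lt_iff, Real.dist_eq, Real.dist_eq] at hd
  simp only
  rw [HH_eq h2', HH_eq h', Real.dist_eq]
  exact h1 a' b' h2' hd.1 hd.2

/-! ### The two extreme values -/

/-- hitting points of the distance policy of modulus larger than one -/
def DA (n : ℕ) : Set ℝ := {x | 1 < |x| ∧ dh n x}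

theorem DA_finite (n : ℕ) : (DA n).Finite := (ZZ_finite n).subset fun _ hx => hx.2

theorem DA_rec (n : ℕ) : (DA (n + 1)).ncard + (DA n).ncard ≤ (DA (n + 2)).ncard := by
  have h1 : ((fun x : ℝ => if 0 < x then x + 1 else x - 1) '' DA (n + 1)).ncard =
      (DA (n + 1)).ncard := by
    apply InjOn.ncard_image
    intro x hx y hy hxy
    simp only at hxy
    split_ifs at hxy <;> linarith
  have h2 : ((fun x : ℝ => if 0 < x then -1 - 1 / x else 1 - 1 / x) '' DA n).ncard =
      (DA n).ncard := by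
    apply InjOn.ncard_image
    intro x hx y hy hxy
    have hx0 : x ≠ 0 := by rintro rfl; have := hx.1; norm_num at this
    have hy0 : y ≠ 0 := by rintro rfl; have := hy.1; norm_num at this
    simp only at hxy
    have key : 1 / x = 1 / y → x = y := by
      intro h
      field_simp at h
      exact h.symm
    split_ifs at hxy with h3 h4 h4
    · exact key (by linarith)
    · exfalso
      have g1 : 0 < 1 / x := by positivity
      have g2 : 1 / y < 0 := div_neg_of_pos_of_neg one_pos (lt_of_le_of_ne (not_lt.mp h4) hy0)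
      linarith
    · exfalso
      have g1 : 0 < 1 / y := by positivity
      have g2 : 1 / x < 0 := div_neg_of_pos_of_neg one_pos (lt_of_le_of_ne (not_lt.mp h3) hx0)
      linarith
    · exact key (by linarith)
  rw [← h1, ← h2, ← Set.ncard_union_eq _ ((DA_finite _).image _) ((DA_finite _).image _)]
  · apply Set.ncard_le_ncard _ (DA_finite _)
    rintro _ (⟨x, ⟨hx1, hx2⟩, rfl⟩ | ⟨x, ⟨hx1, hx2⟩, rfl⟩)
    · simp only
      split_ifs with h3
      · rw [abs_of_pos h3] at hx1
        refine ⟨by rw [abs_of_pos (by linarith)]; linarith, dh_T hx2⟩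
      · have h4 : x < 0 := by
          by_contra hc
          have : x = 0 := by linarith
          rw [this] at hx1; norm_num at hx1
        rw [abs_of_neg h4] at hx1
        refine ⟨by rw [abs_of_neg (by linarith)]; linarith, dh_T' hx2⟩
    · simp only
      have h5 := dh_S hx2
      split_ifs with h3
      · have g1 : 0 < 1 / x := by positivity
        refine ⟨by rw [abs_of_neg (by linarith)]; linarith, ?_⟩
        have := dh_T' h5
        rwa [show -1 / x - 1 = -1 - 1 / x by ring] at this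
      · have h4 : x < 0 := by
          by_contra hc
          have : x = 0 := by linarith
          rw [this] at hx1; norm_num at hx1
        have g1 : 1 / x < 0 := div_neg_of_pos_of_neg one_pos h4
        refine ⟨by rw [abs_of_pos (by linarith)]; linarith, ?_⟩
        have := dh_T h5
        rwa [show -1 / x + 1 = 1 - 1 / x by ring] at this
  · rw [Set.disjoint_left]
    rintro _ ⟨x, ⟨hx1, hx2⟩, rfl⟩ ⟨y, ⟨hy1, hy2⟩, hxy⟩
    simp only at hxy
    split_ifs at hxy with h3 h4 h4
    · have g1 : 0 < 1 / y := by positivity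
      linarith
    · rw [abs_of_pos h3] at hy1
      have g1 : 1 / y < 1 := by rw [div_lt_one h3]; exact hy1
      have h5 : x < 0 := by
        by_contra hc
        have : x = 0 := by linarith
        rw [this] at hx1; norm_num at hx1
      rw [abs_of_neg h5] at hx1
      linarith
    · have h5 : y < 0 := by
        by_contra hc
        have : y = 0 := by linarith
        rw [this] at hy1; norm_num at hy1
      rw [abs_of_neg h5] at hy1
      rw [abs_of_pos h4] at hx1
      have g1 : -1 < 1 / y := by rw [lt_div_iff_of_neg h5]; linarith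
      linarith
    · have h5 : y < 0 := by
        by_contra hc
        have : y = 0 := by linarith
        rw [this] at hy1; norm_num at hy1
      have g1 : 1 / y < 0 := div_neg_of_pos_of_neg one_pos h5
      linarith

theorem DA_nonempty (n : ℕ) : 1 ≤ (DA (n + 2)).ncard := by
  have : 0 < (DA (n + 2)).ncard := by
    rw [Set.ncard_pos (DA_finite _)]
    refine ⟨1 + 1, ?_, hit_mono (by omega) (dh_T (hit_one DPol))⟩
    norm_num
  exact this

theorem DA_lower (n : ℕ) : Real.goldenRatio ^ n ≤ Real.goldenRatio * (DA (n + 2)).ncard := by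
  have hφ := Real.one_lt_goldenRatio
  have hφ2 := Real.goldenRatio_sq
  have key : ∀ n, Real.goldenRatio ^ n ≤ Real.goldenRatio * (DA (n + 2)).ncard ∧
      Real.goldenRatio ^ (n + 1) ≤ Real.goldenRatio * (DA (n + 1 + 2)).ncard := by
    intro n
    induction n with
    | zero =>
      have e0 : (1 : ℝ) ≤ (DA (0 + 2)).ncard := by exact_mod_cast DA_nonempty 0
      have e1 : (1 : ℝ) ≤ (DA (0 + 1 + 2)).ncard := by exact_mod_cast DA_nonempty 1
      constructor
      · rw [pow_zero]; nlinarith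
      · rw [zero_add, pow_one]; nlinarith
    | succ n ih =>
      obtain ⟨i1, i2⟩ := ih
      refine ⟨i2, ?_⟩
      have h3 : ((DA (n + 2 + 1)).ncard : ℝ) + (DA (n + 2)).ncard ≤ (DA (n + 2 + 2)).ncard := by
        exact_mod_cast DA_rec (n + 2)
      have h4 : Real.goldenRatio ^ (n + 1 + 1) =
          Real.goldenRatio ^ (n + 1) + Real.goldenRatio ^ n := by
        calc Real.goldenRatio ^ (n + 1 + 1) = Real.goldenRatio ^ n * Real.goldenRatio ^ 2 := by ring
          _ = Real.goldenRatio ^ n * (Real.goldenRatio + 1) := by rw [hφ2]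
          _ = _ := by ring
      rw [h4, show n + 1 + 1 + 2 = n + 2 + 2 by ring]
      rw [show n + 1 + 2 = n + 2 + 1 by ring] at i2
      nlinarith
  exact (key n).1

theorem inP_path {c : ℝ} (h0 : 0 ≤ c) (h1 : c ≤ 1) : InP (-1) c :=
  ⟨by norm_num, h0, by linarith, by linarith⟩

theorem HH_right : Real.log Real.goldenRatio ≤ HH (-1) 1 := by
  have h := inP_path (c := 1) (by norm_num) (le_refl _)
  rw [HH_eq h, ent_indep h.pol DPol.toPol]
  have hφ := Real.one_lt_goldenRatio
  have h2 := tendsto_shift 2 (zz_tendsto DPol.toPol)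
  have h3 : Tendsto (fun n : ℕ => Real.log Real.goldenRatio - Real.log Real.goldenRatio / n) atTop
      (𝓝 (Real.log Real.goldenRatio - 0)) :=
    tendsto_const_nhds.sub (tendsto_const_div_atTop_nhds_zero_nat _)
  rw [sub_zero] at h3
  apply le_of_tendsto_of_tendsto h3 h2
  filter_upwards [eventually_gt_atTop 0] with n hn
  have hn' : (0 : ℝ) < n := by exact_mod_cast hn
  rw [le_div_iff₀ hn', sub_mul, div_mul_cancel₀ _ (ne_of_gt hn')]
  have h4 := DA_lower n
  have h5 : ((DA (n + 2)).ncard : ℝ) ≤ zz (Iic (-1 : ℝ)) (Ici 1) (n + 2) := by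
    exact_mod_cast Set.ncard_le_ncard (show DA (n + 2) ⊆ ZZ (Iic (-1 : ℝ)) (Ici 1) (n + 2) from
      fun _ hx => hx.2) (ZZ_finite _)
  have h7 : Real.goldenRatio ^ n ≤ Real.goldenRatio * zz (Iic (-1 : ℝ)) (Ici 1) (n + 2) :=
    h4.trans (mul_le_mul_of_nonneg_left h5 (by positivity))
  have hz0 : (zz (Iic (-1 : ℝ)) (Ici 1) (n + 2) : ℝ) ≠ 0 := by
    have := one_le_zz (L := Iic (-1 : ℝ)) (U := Ici 1) (n + 2)
    positivity
  have h8 := Real.log_le_log (by positivity) h7
  rw [Real.log_pow, Real.log_mul (by positivity) hz0] at h8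
  linarith

/-- counting for `f_{-1,0}` -/
theorem count_left {κ : ℝ} (hκ : κ ^ 3 - κ ^ 2 - 1 = 0) (n : ℕ) :
    (zz (Iio (-1 : ℝ)) (Ici 0) n : ℝ) ≤ 28 * κ ^ n := by
  have hP : Good (-1) 0 (Iio (-1 : ℝ)) (Ici 0) :=
    (inP_path (c := 0) (le_refl _) (by norm_num)).good (by norm_num) (by norm_num)
  have k1 := kappa_gt hκ
  have k2 : κ < 2 := by
    by_contra hc
    push Not at hc
    nlinarith [sq_nonneg κ, mul_nonneg (sq_nonneg κ) (sub_nonneg.mpr hc)]
  have k3 : 5 / 4 < κ := by
    by_contra hc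
    push Not at hc
    nlinarith [sq_nonneg κ, mul_nonneg (sq_nonneg κ) (sub_nonneg.mpr hc)]
  have k4 : κ ^ 3 = κ ^ 2 + 1 := by linarith
  set Z : ℕ → Set ℝ := fun n => ZZ (Iio (-1 : ℝ)) (Ici 0) n with hZ
  have hZfin : ∀ n, (Z n).Finite := fun n => ZZ_finite n
  set SA : ℕ → Set ℝ := fun n => {x | x ∈ Z n ∧ 1 ≤ x} with hSA
  set SB : ℕ → Set ℝ := fun n => {x | x ∈ Z n ∧ -1 ≤ x ∧ x < 0} with hSB
  set SC : ℕ → Set ℝ := fun n => {x | x ∈ Z n ∧ 0 ≤ x ∧ x < 1} with hSC
  set SN : ℕ → Set ℝ := fun n => {x | x ∈ Z n ∧ x < -1} with hSN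
  have fA : ∀ n, (SA n).Finite := fun n => (hZfin n).subset fun _ h => h.1
  have fB : ∀ n, (SB n).Finite := fun n => (hZfin n).subset fun _ h => h.1
  have fC : ∀ n, (SC n).Finite := fun n => (hZfin n).subset fun _ h => h.1
  have fN : ∀ n, (SN n).Finite := fun n => (hZfin n).subset fun _ h => h.1
  have step : ∀ n x, x ≠ 0 → x ∈ Z (n + 1) → F (Iio (-1 : ℝ)) (Ici 0) x ∈ Z n := by
    intro n x hx0 hx
    obtain ⟨m, e, hm⟩ := hit_pred hx0 hx
    have : m = n := by omega
    subst this
    exact hm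
  have rA : ∀ n, (SA (n + 1)).ncard ≤ (SA n).ncard + (SC n).ncard := by
    intro n
    have hsub : SA (n + 1) ⊆ (fun x => x + 1) '' (SA n ∪ SC n) := by
      rintro x ⟨hx1, hx2⟩
      have h1 := step n x (by linarith) hx1
      rw [hP.FU (by linarith) (show (0 : ℝ) ≤ x by linarith)] at h1
      refine ⟨x - 1, ?_, by ring⟩
      rcases le_or_gt 1 (x - 1) with h2 | h2
      · exact Or.inl ⟨h1, h2⟩
      · exact Or.inr ⟨h1, by linarith, h2⟩
    have g1 := Set.ncard_le_ncard hsub (((fA n).union (fC n)).image _)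
    have g2 := Set.ncard_image_le ((fA n).union (fC n)) (f := fun x : ℝ => x + 1)
    have g3 := Set.ncard_union_le (SA n) (SC n)
    omega
  have rB : ∀ n, (SB (n + 1)).ncard ≤ (SA n).ncard := by
    intro n
    have hsub : SB (n + 1) ⊆ (fun x => -1 / x) '' SA n := by
      rintro x ⟨hx1, hx2, hx3⟩
      have h1 := step n x (by linarith) hx1
      rw [hP.FSneg hx3 (show x ∉ Iio (-1 : ℝ) from not_lt.mpr hx2)] at h1
      refine ⟨-1 / x, ⟨h1, ?_⟩, neg_one_div_invol x⟩
      rw [le_div_iff_of_neg hx3]; linarith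
    have g1 := Set.ncard_le_ncard hsub ((fA n).image _)
    have g2 := Set.ncard_image_le (fA n) (f := fun x : ℝ => -1 / x)
    omega
  have rC : ∀ n, (SC (n + 1)).ncard ≤ (SB n).ncard + 1 := by
    intro n
    have hsub : SC (n + 1) ⊆ insert 0 ((fun x => x + 1) '' SB n) := by
      rintro x ⟨hx1, hx2, hx3⟩
      rcases eq_or_lt_of_le hx2 with h | h
      · left; exact h.symm
      · right
        have h1 := step n x (by linarith) hx1
        rw [hP.FU h (show (0 : ℝ) ≤ x from hx2)] at h1
        exact ⟨x - 1, ⟨h1, by linarith, by linarith⟩, by ring⟩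
    have g1 := Set.ncard_le_ncard hsub (((fB n).image _).insert _)
    have g2 := Set.ncard_image_le (fB n) (f := fun x : ℝ => x + 1)
    have g3 := Set.ncard_insert_le (0 : ℝ) ((fun x => x + 1) '' SB n)
    omega
  have rN : ∀ n, (SN (n + 1)).ncard ≤ (SN n).ncard + (SB n).ncard := by
    intro n
    have hsub : SN (n + 1) ⊆ (fun x => x - 1) '' (SN n ∪ SB n) := by
      rintro x ⟨hx1, hx2⟩
      have h1 := step n x (by linarith) hx1
      rw [F_L (show x ∈ Iio (-1 : ℝ) from hx2)] at h1
      refine ⟨x + 1, ?_, by ring⟩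
      rcases lt_or_ge (x + 1) (-1) with h2 | h2
      · exact Or.inl ⟨h1, h2⟩
      · exact Or.inr ⟨h1, h2, by linarith⟩
    have g1 := Set.ncard_le_ncard hsub (((fN n).union (fB n)).image _)
    have g2 := Set.ncard_image_le ((fN n).union (fB n)) (f := fun x : ℝ => x - 1)
    have g3 := Set.ncard_union_le (SN n) (SB n)
    omega
  have hZ0 : ∀ x ∈ Z 0, x = 0 := fun x hx => hit_zero_iff.mp hx
  have base : (SA 0).ncard = 0 ∧ (SB 0).ncard = 0 ∧ (SC 0).ncard ≤ 1 ∧ (SN 0).ncard = 0 := by
    refine ⟨?_, ?_, ?_, ?_⟩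
    · have : SA 0 = ∅ := by
        rw [Set.eq_empty_iff_forall_notMem]
        rintro x ⟨h1, h2⟩
        rw [hZ0 x h1] at h2; linarith
      rw [this, Set.ncard_empty]
    · have : SB 0 = ∅ := by
        rw [Set.eq_empty_iff_forall_notMem]
        rintro x ⟨h1, h2, h3⟩
        rw [hZ0 x h1] at h3; linarith
      rw [this, Set.ncard_empty]
    · have : SC 0 ⊆ {0} := fun x hx => hZ0 x hx.1
      have := Set.ncard_le_ncard this (Set.toFinite _)
      rwa [Set.ncard_singleton] at this
    · have : SN 0 = ∅ := by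
        rw [Set.eq_empty_iff_forall_notMem]
        rintro x ⟨h1, h2⟩
        rw [hZ0 x h1] at h2; linarith
      rw [this, Set.ncard_empty]
  have inv : ∀ n, ((SA n).ncard : ℝ) ≤ 4 * κ ^ n - 1 ∧ κ * (SB n).ncard ≤ 4 * κ ^ n - κ ∧
      κ ^ 2 * (SC n).ncard ≤ 4 * κ ^ n ∧ ((SN n).ncard : ℝ) ≤ 16 * κ ^ n := by
    intro n
    induction n with
    | zero =>
      obtain ⟨b1, b2, b3, b4⟩ := base
      have b3' : ((SC 0).ncard : ℝ) ≤ 1 := by exact_mod_cast b3
      rw [b1, b2, b4]
      refine ⟨?_, ?_, ?_, ?_⟩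
      · norm_num
      · norm_num; linarith
      · rw [pow_zero]; nlinarith
      · norm_num
    | succ n ih =>
      obtain ⟨i1, i2, i3, i4⟩ := ih
      have a1 : ((SA (n + 1)).ncard : ℝ) ≤ (SA n).ncard + (SC n).ncard := by exact_mod_cast rA n
      have a2 : ((SB (n + 1)).ncard : ℝ) ≤ (SA n).ncard := by exact_mod_cast rB n
      have a3 : ((SC (n + 1)).ncard : ℝ) ≤ (SB n).ncard + 1 := by exact_mod_cast rC n
      have a4 : ((SN (n + 1)).ncard : ℝ) ≤ (SN n).ncard + (SB n).ncard := by exact_mod_cast rN n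
      have p0 : 0 < κ ^ n := by positivity
      have p1 : κ ^ (n + 1) = κ ^ n * κ := pow_succ _ _
      have hB0 : (0 : ℝ) ≤ (SB n).ncard := Nat.cast_nonneg _
      refine ⟨?_, ?_, ?_, ?_⟩
      · have h5 : κ ^ 2 * ((SA (n + 1)).ncard : ℝ) ≤ κ ^ 2 * (4 * κ ^ (n + 1) - 1) := by
          have h6 : κ ^ 2 * (4 * κ ^ (n + 1) - 1) = 4 * κ ^ n * κ ^ 3 - κ ^ 2 := by ring
          rw [h6, k4]
          have : κ ^ 2 * ((SA (n + 1)).ncard : ℝ) ≤
              κ ^ 2 * (((SA n).ncard : ℝ) + (SC n).ncard) :=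
            mul_le_mul_of_nonneg_left a1 (by positivity)
          have : κ ^ 2 * ((SA n).ncard : ℝ) ≤ κ ^ 2 * (4 * κ ^ n - 1) :=
            mul_le_mul_of_nonneg_left i1 (by positivity)
          nlinarith
        exact le_of_mul_le_mul_left h5 (by positivity)
      · rw [p1]
        nlinarith
      · rw [p1]
        nlinarith
      · rw [p1]
        have h7 : ((SB n).ncard : ℝ) ≤ 4 * κ ^ n := by nlinarith
        nlinarith
  have tot : zz (Iio (-1 : ℝ)) (Ici 0) n ≤
      (SA n).ncard + (SB n).ncard + ((SC n).ncard + (SN n).ncard) := by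
    have hsub : Z n ⊆ (SA n ∪ SB n) ∪ (SC n ∪ SN n) := by
      intro x hx
      rcases lt_or_ge x (-1) with h1 | h1
      · exact Or.inr (Or.inr ⟨hx, h1⟩)
      · rcases lt_or_ge x 0 with h2 | h2
        · exact Or.inl (Or.inr ⟨hx, h1, h2⟩)
        · rcases lt_or_ge x 1 with h3 | h3
          · exact Or.inr (Or.inl ⟨hx, h2, h3⟩)
          · exact Or.inl (Or.inl ⟨hx, h3⟩)
    have g1 := Set.ncard_le_ncard hsub (((fA n).union (fB n)).union ((fC n).union (fN n)))
    have g2 := Set.ncard_union_le (SA n ∪ SB n) (SC n ∪ SN n)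
    have g3 := Set.ncard_union_le (SA n) (SB n)
    have g4 := Set.ncard_union_le (SC n) (SN n)
    have g5 : zz (Iio (-1 : ℝ)) (Ici 0) n = (Z n).ncard := rfl
    omega
  have tot' : (zz (Iio (-1 : ℝ)) (Ici 0) n : ℝ) ≤
      (SA n).ncard + (SB n).ncard + ((SC n).ncard + (SN n).ncard) := by exact_mod_cast tot
  obtain ⟨i1, i2, i3, i4⟩ := inv n
  have p0 : 0 < κ ^ n := by positivity
  have hB0 : (0 : ℝ) ≤ (SB n).ncard := Nat.cast_nonneg _
  have hC0 : (0 : ℝ) ≤ (SC n).ncard := Nat.cast_nonneg _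
  have j2 : ((SB n).ncard : ℝ) ≤ 4 * κ ^ n := by nlinarith
  have j3 : ((SC n).ncard : ℝ) ≤ 4 * κ ^ n := by
    have : 1 ≤ κ ^ 2 := by nlinarith
    nlinarith
  linarith

theorem HH_left {κ : ℝ} (hκ : κ ^ 3 - κ ^ 2 - 1 = 0) : HH (-1) 0 ≤ Real.log κ := by
  have h := inP_path (c := 0) (le_refl _) (by norm_num)
  rw [HH_eq h]
  have k1 := kappa_gt hκ
  have h2 := zz_tendsto h.pol
  have h3 : Tendsto (fun n : ℕ => Real.log κ + Real.log 28 / n) atTop
      (𝓝 (Real.log κ + 0)) :=
    tendsto_const_nhds.add (tendsto_const_div_atTop_nhds_zero_nat _)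
  rw [add_zero] at h3
  apply le_of_tendsto_of_tendsto h2 h3
  filter_upwards [eventually_gt_atTop 0] with n hn
  have hn' : (0 : ℝ) < n := by exact_mod_cast hn
  rw [div_le_iff₀ hn', add_mul, div_mul_cancel₀ _ (ne_of_gt hn')]
  have h8 := count_left hκ n
  have h9 : (1 : ℝ) ≤ zz (Iio (-1 : ℝ)) (Ici 0) n := by exact_mod_cast one_le_zz n
  have h10 := Real.log_le_log (by linarith) h8
  rw [Real.log_mul (by norm_num) (by positivity), Real.log_pow] at h10
  linarith

/-- every intermediate value is attained on the segment `a = -1`, `0 ≤ b ≤ 1` -/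
theorem HH_surj {κ : ℝ} (hκ : κ ^ 3 - κ ^ 2 - 1 = 0) {s : ℝ} (h1 : Real.log κ ≤ s)
    (h2 : s ≤ Real.log Real.goldenRatio) : ∃ c ∈ Icc (0 : ℝ) 1, HH (-1) c = s := by
  have hc : ContinuousOn (fun c : ℝ => HH (-1) c) (Icc 0 1) := by
    have hg : ContinuousOn (fun c : ℝ => ((-1 : ℝ), c)) (Icc 0 1) := by fun_prop
    have := HH_continuousOn.comp hg (fun c hc => inP_path hc.1 hc.2)
    exact this
  have h3 := intermediate_value_Icc (show (0 : ℝ) ≤ 1 by norm_num) hc
  obtain ⟨c, hc1, hc2⟩ := h3 (show s ∈ Icc (HH (-1) 0) (HH (-1) 1) from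
    ⟨(HH_left hκ).trans h1, h2.trans HH_right⟩)
  exact ⟨c, hc1, hc2⟩

end Q66.Ab
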