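import Pool.Agent.W714.Coin.Map
import Pool.Agent.W714.Coin.Meas
import Pool.Agent.W714.Coin.Leaf

/-!
# MP_61130f_an: leaves near the boundary and symmetric chords

If the map of the capped cylinder is integrable, there are arbitrarily short chords from every point
of the curve that make equal angles with it at both ends.
-/

set_option autoImplicit false

namespace Q66.Coin

open Pool.Agent.H738R2.Cyl Pool.Agent.W714.Coin Set Filter Topology Complex

variable {γ : ℝ → ℂ} {L : ℝ}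

theorem contr_Ioo : ContractibleSpace (Ioo (0 : ℝ) Real.pi) :=
  (convex_Ioo (0 : ℝ) Real.pi).contractibleSpace ⟨1, by norm_num, by linarith [Real.pi_gt_three]⟩

/-- There are leaves arbitrarily close to the lower boundary component. -/
theorem exists_low_leaf (hL : 0 < L) (F : Set (Set (PhaseCylinder L)))
    (hpart : ∀ z, ∃! Γ, Γ ∈ F ∧ z ∈ Γ)
    (htube : ∀ Γ ∈ F, ∃ φ : AddCircle (1 : ℝ) × ℝ → PhaseCylinder L, IsOpenEmbedding φ ∧
      (range fun u => φ (u, 0)) = Γ ∧ ∀ t, (range fun u => φ (u, t)) ∈ F)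
    {η : ℝ} (hη : 0 < η) : ∃ Γ ∈ F, ∀ z ∈ Γ, ((z.2 : ℝ)) < η := by
  have : Fact (0 < L) := ⟨hL⟩
  have hpi := Real.pi_pos
  set η' : ℝ := min η (Real.pi / 2) with hη'
  have hη'0 : 0 < η' := lt_min hη (by positivity)
  have hη'1 : η' < Real.pi := lt_of_le_of_lt (min_le_right _ _) (by linarith)
  set e : Ioo (0 : ℝ) Real.pi := ⟨η', hη'0, hη'1⟩ with he
  set K0 : Set (PhaseCylinder L) := range fun w : AddCircle L => (w, e) with hK0
  have hK0c : IsCompact K0 := isCompact_range (by fun_prop)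
  have htube' : ∀ z : PhaseCylinder L, ∃ φ : AddCircle (1 : ℝ) × ℝ → PhaseCylinder L,
      IsOpenEmbedding φ ∧ (∃ u, φ (u, 0) = z) ∧ ∀ t, (range fun u => φ (u, t)) ∈ F := by
    intro z
    obtain ⟨Γ, ⟨hΓ, hz⟩, -⟩ := hpart z
    obtain ⟨φ, h1, h2, h3⟩ := htube Γ hΓ
    rw [← h2] at hz
    exact ⟨φ, h1, hz, h3⟩
  choose φ hφ hφz hφF using htube'
  have hopen : ∀ z, IsOpen (φ z '' (univ ×ˢ Ioo (-1 : ℝ) 1)) := fun z =>
    (hφ z).isOpenMap _ (isOpen_univ.prod isOpen_Ioo)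
  obtain ⟨t, ht⟩ := hK0c.elim_finite_subcover (fun z => φ z '' (univ ×ˢ Ioo (-1 : ℝ) 1)) hopen
    (fun z _ => mem_iUnion.mpr ⟨z, by
      obtain ⟨u, hu⟩ := hφz z
      exact ⟨(u, 0), ⟨mem_univ _, by norm_num, by norm_num⟩, hu⟩⟩)
  set C : Set (PhaseCylinder L) := ⋃ z ∈ t, φ z '' (univ ×ˢ Icc (-1 : ℝ) 1) with hC
  have hCc : IsCompact C := by
    apply t.isCompact_biUnion
    intro z _
    exact (isCompact_univ.prod isCompact_Icc).image (hφ z).continuous
  have hK0C : K0 ⊆ C := by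
    intro y hy
    obtain ⟨z, hz, hyz⟩ := mem_iUnion₂.mp (ht hy)
    exact mem_iUnion₂.mpr ⟨z, hz, image_mono (prod_mono_right Ioo_subset_Icc_self) hyz⟩
  have hne : C.Nonempty := ⟨((0 : AddCircle L), e), hK0C ⟨0, rfl⟩⟩
  obtain ⟨y0, hy0, hmin⟩ := hCc.exists_isMinOn hne
    (f := fun z : PhaseCylinder L => (z.2 : ℝ)) (by fun_prop)
  set m : ℝ := (y0.2 : ℝ) with hm
  have hm0 : 0 < m := y0.2.2.1
  have hmη : m ≤ η' := hmin (hK0C ⟨(0 : AddCircle L), rfl⟩)
  set w : PhaseCylinder L := ((0 : AddCircle L), ⟨m / 2, by linarith, by linarith⟩) with hw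
  obtain ⟨Γ, ⟨hΓ, hwΓ⟩, -⟩ := hpart w
  have hdisj : ∀ y ∈ Γ, y ∉ K0 := by
    intro y hy hyK
    obtain ⟨z, hz, ⟨u, s⟩, ⟨-, hs⟩, hus⟩ := mem_iUnion₂.mp (ht hyK)
    have h1 : y ∈ range fun u => φ z (u, s) := ⟨u, hus⟩
    have h2 := (hpart y).unique ⟨hΓ, hy⟩ ⟨hφF z s, h1⟩
    rw [h2] at hwΓ
    obtain ⟨u', hu'⟩ := hwΓ
    have h3 : w ∈ C := mem_iUnion₂.mpr ⟨z, hz, ⟨(u', s), ⟨mem_univ _, Ioo_subset_Icc_self hs⟩, hu'⟩⟩
    have h4 : m ≤ m / 2 := hmin h3
    linarith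
  have hconn : IsPreconnected Γ := by
    obtain ⟨φ', h1, h2, -⟩ := htube Γ hΓ
    rw [← h2]
    have := h1.continuous
    exact isPreconnected_range (by fun_prop)
  refine ⟨Γ, hΓ, fun z hz => ?_⟩
  refine lt_of_lt_of_le ?_ (min_le_left η (Real.pi / 2))
  by_contra hcon
  push Not at hcon
  have h5 := hconn.intermediate_value hwΓ hz
    (f := fun z : PhaseCylinder L => (z.2 : ℝ)) (by fun_prop)
  have h6 : η' ∈ Icc (((w.2 : Ioo (0 : ℝ) Real.pi) : ℝ)) ((z.2 : ℝ)) := by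
    refine ⟨?_, hcon⟩
    show m / 2 ≤ η'
    linarith
  obtain ⟨y, hy, hyη⟩ := h5 h6
  apply hdisj y hy
  exact ⟨y.1, Prod.ext rfl (Subtype.ext hyη.symm)⟩

/-- A rotational invariant curve projects onto the circle. -/
theorem ric_surj {T : PhaseCylinder L → PhaseCylinder L} {Γ : Set (PhaseCylinder L)}
    (h : IsRotationalInvariantCurve T Γ) (w : AddCircle L) : ∃ z ∈ Γ, z.1 = w := by
  obtain ⟨c, -, hc, hr, -⟩ := h
  have hcontr := contr_Ioo
  obtain ⟨σ, κ, hσ, hκ, hper, hcoe⟩ := Pool.Agent.H738R2.lift_closed_curve c hc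
  obtain ⟨x, rfl⟩ := coe_surjL w
  -- `σ` is surjective
  have hn : ∀ n : ℤ, σ n = σ 0 + n * κ := by
    intro n
    have hp : Function.Periodic (fun x => σ x - κ * x) 1 := by
      intro x
      simp only [hper]; ring
    have h1 := hp.zsmul n 0
    simp only [zero_add, zsmul_eq_mul, mul_one, mul_zero, sub_zero] at h1
    linarith
  have hex : ∃ a b : ℝ, σ a ≤ x ∧ x ≤ σ b := by
    obtain ⟨N, hN⟩ := exists_nat_gt (|x - σ 0| / |κ|)
    have hκ' : 0 < |κ| := abs_pos.mpr hκ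
    rw [div_lt_iff₀ hκ'] at hN
    have h1 := hn N
    have h2 := hn (-(N : ℤ))
    push_cast at h1 h2
    rcases lt_or_gt_of_ne hκ with hneg | hpos
    · rw [abs_of_neg hneg] at hN
      refine ⟨N, -N, ?_, ?_⟩
      · rw [h1]; linarith [le_abs_self (x - σ 0), neg_abs_le (x - σ 0)]
      · rw [h2]; linarith [le_abs_self (x - σ 0), neg_abs_le (x - σ 0)]
    · rw [abs_of_pos hpos] at hN
      refine ⟨-N, N, ?_, ?_⟩
      · rw [h2]; linarith [le_abs_self (x - σ 0), neg_abs_le (x - σ 0)]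
      · rw [h1]; linarith [le_abs_self (x - σ 0), neg_abs_le (x - σ 0)]
  obtain ⟨a, b, ha, hb⟩ := hex
  have hsurj := mem_range_of_exists_le_of_exists_ge hσ ⟨a, ha⟩ ⟨b, hb⟩
  obtain ⟨y, hy⟩ := hsurj
  refine ⟨c (y : AddCircle (1 : ℝ)), by rw [← hr]; exact ⟨_, rfl⟩, ?_⟩
  rw [← hcoe, hy]

theorem cot_anti {x y : ℝ} (hx : 0 < x) (hxy : x ≤ y) (hy : y < Real.pi) :
    Real.cot y ≤ Real.cot x := by
  have h1 : 0 < Real.sin x := Real.sin_pos_of_pos_of_lt_pi hx (by linarith)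
  have h2 : 0 < Real.sin y := Real.sin_pos_of_pos_of_lt_pi (by linarith) hy
  rw [Real.cot_eq_cos_div_sin, Real.cot_eq_cos_div_sin, div_le_div_iff₀ h2 h1]
  have h3 : 0 ≤ Real.sin (y - x) :=
    Real.sin_nonneg_of_nonneg_of_le_pi (by linarith) (by linarith)
  rw [Real.sin_sub] at h3
  linarith

/-- Short symmetric chords. -/
theorem exists_sym_chord (h : StrictlyConvexCurve γ L) {d : ℝ} (hd : 0 < d)
    (hI : IsIntegrable (tmap h d)) (s : ℝ) {ε : ℝ} (hε : 0 < ε) :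
    ∃ x, 0 < x ∧ x < ε ∧ ZA h (s : AddCircle L) x = ZB h (s : AddCircle L) x := by
  have hL := h.length_pos
  have hFact : Fact (0 < L) := ⟨hL⟩
  have hcontr := contr_Ioo
  obtain ⟨F, hpart, hric, htube⟩ := hI
  obtain ⟨η, hη, hsmall⟩ := exists_small h hε
  -- a leaf
  obtain ⟨Γ₀, ⟨hΓ₀, hz₀⟩, -⟩ := hpart ((0 : AddCircle L), ⟨1, by norm_num, by linarith [Real.pi_gt_three]⟩)
  have hcomp : IsCompact Γ₀ := by
    obtain ⟨c, -, -, hr, -⟩ := hric Γ₀ hΓ₀
    rw [← hr]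
    exact isCompact_range c.continuous
  obtain ⟨y0, hy0, hmax⟩ := hcomp.exists_isMaxOn ⟨_, hz₀⟩ (continuous_disp h d).continuousOn
  -- choice of `K`
  set M : ℝ := max (disp h d y0) (L + d * Real.cot (min η 1)) with hM
  obtain ⟨N, hN⟩ := exists_nat_gt (M / L)
  have hNL : M < N * L := by rwa [div_lt_iff₀ hL] at hN
  obtain ⟨η₂, hη₂, hlarge⟩ := exists_disp_large h hd (N * L)
  obtain ⟨Γ₁, hΓ₁, hΓ₁'⟩ := exists_low_leaf hL F hpart htube hη₂
  obtain ⟨Γ, hΓ, hfix⟩ := exists_fixed_leaf (K := (N : ℤ)) hL (continuous_tmap h d)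
    (tmap_injective h d) (fun y : Ioo (0 : ℝ) Real.pi => (y : ℝ)) continuous_subtype_val
    Subtype.val_injective (continuous_disp h d) (tmap_fst h d) (recurrent h d) F hpart hric htube
    ⟨Γ₁, hΓ₁, fun z hz => by
      push_cast
      exact hlarge z (hΓ₁' z hz)⟩
    ⟨Γ₀, hΓ₀, fun z hz => by
      push_cast
      exact lt_of_le_of_lt ((hmax hz).trans (le_max_left _ _)) hNL⟩
  obtain ⟨z, hz, hzs⟩ := ric_surj (hric Γ hΓ) (s : AddCircle L)
  obtain ⟨hTz, hDz⟩ := hfix z hz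
  have hb : ((bmap h z).2) = z.2 := by
    rw [← tmap_snd h d z, hTz]
  have hlen := len_mem h z
  -- `z.2 < η`
  have hz2 : (z.2 : ℝ) < η := by
    by_contra hcon
    push Not at hcon
    have h1 : Real.cot (z.2 : ℝ) ≤ Real.cot (min η 1) :=
      cot_anti (lt_min hη one_pos) ((min_le_left _ _).trans hcon) z.2.2.2
    have h2 : disp h d z ≤ L + d * Real.cot (min η 1) := by
      rw [disp, hb]
      have := mul_le_mul_of_nonneg_left h1 hd.le
      linarith [hlen.2]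
    rw [hDz] at h2
    push_cast at h2
    have := le_max_right (disp h d y0) (L + d * Real.cot (min η 1))
    linarith
  refine ⟨len h z, hlen.1, (hsmall z hz2).2, ?_⟩
  rw [← hzs]
  obtain ⟨s', hs'⟩ := coe_surjL z.1
  have nA : ‖ZA h z.1 (len h z)‖ = ‖ZB h z.1 (len h z)‖ := by
    rw [← hs', ZA_coe, ZB_coe, norm_mul, norm_mul, Complex.norm_conj, Complex.norm_conj,
      h.unit_speed, h.unit_speed, one_mul, mul_one]
  have aA : arg (ZA h z.1 (len h z)) = arg (ZB h z.1 (len h z)) := by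
    have h1 : angA h z.1 (len h z) = z.2 := angA_len h z
    have h2 : angB h z.1 (len h z) = z.2 := by
      have := congrArg (fun y : Ioo (0 : ℝ) Real.pi => (y : ℝ)) hb
      exact this
    rw [← h2] at h1
    exact h1
  exact Complex.ext_norm_arg nA aA

end Q66.Coin
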