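import Pool.Agent.Q66.CoinA

/-!
# MP_61130f_an: short symmetric chords force constant curvature
-/

set_option autoImplicit false

namespace Q66.Coin

open Pool.Agent.H738R2.Cyl Pool.Agent.W714.Coin Set Filter Topology Complex

/-- Euclidean inner product -/
def dt (a b : ℂ) : ℝ := ((starRingEnd ℂ) a * b).re

theorem dt_eq (a b : ℂ) : dt a b = a.re * b.re + a.im * b.im := by
  simp [dt, Complex.mul_re]

theorem dt_comm (a b : ℂ) : dt a b = dt b a := by
  rw [dt_eq, dt_eq]; ring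

theorem hasDerivAt_dt {f g : ℝ → ℂ} {f' g' : ℂ} {x : ℝ} (hf : HasDerivAt f f' x)
    (hg : HasDerivAt g g' x) : HasDerivAt (fun y => dt (f y) (g y)) (dt f' (g x) + dt (f x) g') x := by
  have fr : HasDerivAt (fun y => (f y).re) f'.re x := by
    have := Complex.reCLM.hasFDerivAt.comp_hasDerivAt x hf
    exact this
  have fi : HasDerivAt (fun y => (f y).im) f'.im x := by
    have := Complex.imCLM.hasFDerivAt.comp_hasDerivAt x hf
    exact this
  have gr : HasDerivAt (fun y => (g y).re) g'.re x := by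
    have := Complex.reCLM.hasFDerivAt.comp_hasDerivAt x hg
    exact this
  have gi : HasDerivAt (fun y => (g y).im) g'.im x := by
    have := Complex.imCLM.hasFDerivAt.comp_hasDerivAt x hg
    exact this
  have h := (fr.mul gr).add (fi.mul gi)
  have e : (fun y => dt (f y) (g y)) = ((fun y => (f y).re) * fun y => (g y).re) +
      ((fun y => (f y).im) * fun y => (g y).im) := by
    funext y
    simp only [dt_eq, Pi.add_apply, Pi.mul_apply]
  rw [e]
  refine h.congr_deriv ?_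
  rw [dt_eq, dt_eq]
  ring

/-- `f` has zeros arbitrarily close to `0` on the right. -/
def Zr (f : ℝ → ℝ) : Prop := ∀ ε : ℝ, 0 < ε → ∃ x, 0 < x ∧ x < ε ∧ f x = 0

theorem Zr_deriv {f f' : ℝ → ℝ} (hf : ∀ x, HasDerivAt f (f' x) x) (h0 : f 0 = 0) (h : Zr f) :
    Zr f' := by
  intro ε hε
  obtain ⟨x, hx0, hxε, hfx⟩ := h ε hε
  obtain ⟨c, hc, hc'⟩ := exists_hasDerivAt_eq_zero hx0
    (fun y _ => (hf y).continuousAt.continuousWithinAt) (by rw [h0, hfx]) (fun y _ => hf y)
  exact ⟨c, hc.1, hc.2.trans hxε, hc'⟩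

theorem Zr_zero {f : ℝ → ℝ} (hf : ContinuousAt f 0) (h : Zr f) : f 0 = 0 := by
  by_contra hne
  have h1 : ∀ᶠ x in 𝓝 (0 : ℝ), f x ≠ 0 := hf.eventually_ne hne
  rw [Metric.eventually_nhds_iff] at h1
  obtain ⟨ε, hε, h2⟩ := h1
  obtain ⟨x, hx0, hxε, hfx⟩ := h ε hε
  exact h2 (y := x) (by rw [Real.dist_eq, sub_zero, abs_of_pos hx0]; exact hxε) hfx

/-- derivatives of the curve -/
noncomputable def D (γ : ℝ → ℂ) (k : ℕ) : ℝ → ℂ := iteratedDeriv k γ

variable {γ : ℝ → ℂ} {L : ℝ}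

theorem hasDerivAt_D (hγ : ContDiff ℝ (⊤ : ℕ∞) γ) (k : ℕ) (s : ℝ) :
    HasDerivAt (D γ k) (D γ (k + 1) s) s := by
  have h1 : Differentiable ℝ (iteratedDeriv k γ) := by
    apply hγ.differentiable_iteratedDeriv
    exact_mod_cast WithTop.coe_lt_top k
  have h2 := (h1 s).hasDerivAt
  rw [← iteratedDeriv_succ] at h2
  exact h2

theorem D_zero : D γ 0 = γ := by unfold D; exact iteratedDeriv_zero

theorem D_one : D γ 1 = deriv γ := by unfold D; exact iteratedDeriv_one

theorem hasDerivAt_D_shift (hγ : ContDiff ℝ (⊤ : ℕ∞) γ) (k : ℕ) (s x : ℝ) :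
    HasDerivAt (fun x => D γ k (s + x)) (D γ (k + 1) (s + x)) x := by
  exact (hasDerivAt_D hγ k (s + x)).comp_const_add s x

/-- unit speed relations -/
theorem dt11 (h : StrictlyConvexCurve γ L) (s : ℝ) : dt (D γ 1 s) (D γ 1 s) = 1 := by
  rw [D_one, dt, ← Complex.normSq_eq_conj_mul_self, Complex.normSq_eq_norm_sq, h.unit_speed]
  simp

theorem dt12 (h : StrictlyConvexCurve γ L) (s : ℝ) : dt (D γ 1 s) (D γ 2 s) = 0 := by
  have h1 := hasDerivAt_dt (hasDerivAt_D h.smooth 1 s) (hasDerivAt_D h.smooth 1 s)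
  have h2 : (fun y => dt (D γ 1 y) (D γ 1 y)) = fun _ => (1 : ℝ) := funext (dt11 h)
  rw [h2] at h1
  have h3 := h1.unique (hasDerivAt_const s (1 : ℝ))
  rw [dt_comm (D γ (1 + 1) s)] at h3
  have : dt (D γ 1 s) (D γ (1 + 1) s) = 0 := by linarith
  exact this

theorem dt13 (h : StrictlyConvexCurve γ L) (s : ℝ) :
    dt (D γ 2 s) (D γ 2 s) + dt (D γ 1 s) (D γ 3 s) = 0 := by
  have h1 := hasDerivAt_dt (hasDerivAt_D h.smooth 1 s) (hasDerivAt_D h.smooth 2 s)
  have h2 : (fun y => dt (D γ 1 y) (D γ 2 y)) = fun _ => (0 : ℝ) := funext (dt12 h)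
  rw [h2] at h1
  exact h1.unique (hasDerivAt_const s (0 : ℝ))

theorem dt14 (h : StrictlyConvexCurve γ L) (s : ℝ) :
    3 * dt (D γ 2 s) (D γ 3 s) + dt (D γ 1 s) (D γ 4 s) = 0 := by
  have h1 := (hasDerivAt_dt (hasDerivAt_D h.smooth 2 s) (hasDerivAt_D h.smooth 2 s)).add
    (hasDerivAt_dt (hasDerivAt_D h.smooth 1 s) (hasDerivAt_D h.smooth 3 s))
  have h2 : ((fun y => dt (D γ 2 y) (D γ 2 y)) + fun y => dt (D γ 1 y) (D γ 3 y))
      = fun _ => (0 : ℝ) := funext (dt13 h)
  rw [h2] at h1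
  have h3 := h1.unique (hasDerivAt_const s (0 : ℝ))
  rw [dt_comm (D γ (2 + 1) s)] at h3
  have e : dt (D γ 2 s) (D γ 3 s) + dt (D γ 2 s) (D γ 3 s) +
    (dt (D γ 2 s) (D γ 3 s) + dt (D γ 1 s) (D γ 4 s)) = 0 := h3
  linarith

theorem dt_zero_left (b : ℂ) : dt 0 b = 0 := by simp [dt]

theorem dt_zero_right (a : ℂ) : dt a 0 = 0 := by simp [dt]

/-- Arbitrarily short symmetric chords at `s` imply `⟨γ'', γ'''⟩ = 0`. -/
theorem dt23 (h : StrictlyConvexCurve γ L) (s : ℝ)
    (hc : ∀ ε : ℝ, 0 < ε → ∃ x, 0 < x ∧ x < ε ∧ ZA h (s : AddCircle L) x = ZB h (s : AddCircle L) x) :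
    dt (D γ 2 s) (D γ 3 s) = 0 := by
  set c := D γ 1 s with hcdef
  have g0 : ∀ x, HasDerivAt (fun x => D γ 0 (s + x) - D γ 0 s) (D γ 1 (s + x)) x := fun x =>
    (hasDerivAt_D_shift h.smooth 0 s x).sub_const _
  have g1 : ∀ x, HasDerivAt (fun x => D γ 1 (s + x) - c) (D γ 2 (s + x)) x := fun x =>
    (hasDerivAt_D_shift h.smooth 1 s x).sub_const _
  have gk : ∀ k x, HasDerivAt (fun x => D γ k (s + x)) (D γ (k + 1) (s + x)) x := fun k x =>
    hasDerivAt_D_shift h.smooth k s x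
  let F0 : ℝ → ℝ := fun x => dt (D γ 0 (s + x) - D γ 0 s) (D γ 1 (s + x) - c)
  let F1 : ℝ → ℝ := fun x => dt (D γ 1 (s + x)) (D γ 1 (s + x) - c) +
    dt (D γ 0 (s + x) - D γ 0 s) (D γ 2 (s + x))
  let F2 : ℝ → ℝ := fun x => dt (D γ 2 (s + x)) (D γ 1 (s + x) - c) +
    dt (D γ 0 (s + x) - D γ 0 s) (D γ 3 (s + x))
  let F3 : ℝ → ℝ := fun x => dt (D γ 3 (s + x)) (D γ 1 (s + x) - c) +
    dt (D γ 0 (s + x) - D γ 0 s) (D γ 4 (s + x))
  let F4 : ℝ → ℝ := fun x => (dt (D γ 4 (s + x)) (D γ 1 (s + x) - c) +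
    dt (D γ 3 (s + x)) (D γ 2 (s + x))) + (dt (D γ 1 (s + x)) (D γ 4 (s + x)) +
    dt (D γ 0 (s + x) - D γ 0 s) (D γ 5 (s + x)))
  have d0 : ∀ x, HasDerivAt F0 (F1 x) x := fun x => hasDerivAt_dt (g0 x) (g1 x)
  have d1 : ∀ x, HasDerivAt F1 (F2 x) x := by
    intro x
    have := (hasDerivAt_dt (gk 1 x) (g1 x)).add (hasDerivAt_dt (g0 x) (gk 2 x))
    refine this.congr_deriv ?_
    have e := dt12 h (s + x)
    show dt (D γ 2 (s + x)) (D γ 1 (s + x) - c) + dt (D γ 1 (s + x)) (D γ 2 (s + x)) +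
      (dt (D γ 1 (s + x)) (D γ 2 (s + x)) + dt (D γ 0 (s + x) - D γ 0 s) (D γ 3 (s + x))) = F2 x
    simp only [F2]
    linarith
  have d2 : ∀ x, HasDerivAt F2 (F3 x) x := by
    intro x
    have := (hasDerivAt_dt (gk 2 x) (g1 x)).add (hasDerivAt_dt (g0 x) (gk 3 x))
    refine this.congr_deriv ?_
    have e := dt13 h (s + x)
    show dt (D γ 3 (s + x)) (D γ 1 (s + x) - c) + dt (D γ 2 (s + x)) (D γ 2 (s + x)) +
      (dt (D γ 1 (s + x)) (D γ 3 (s + x)) + dt (D γ 0 (s + x) - D γ 0 s) (D γ 4 (s + x))) = F3 x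
    simp only [F3]
    linarith
  have d3 : ∀ x, HasDerivAt F3 (F4 x) x := by
    intro x
    exact (hasDerivAt_dt (gk 3 x) (g1 x)).add (hasDerivAt_dt (g0 x) (gk 4 x))
  have cont4 : ContinuousAt F4 0 := by
    have e : ∀ k, ContinuousAt (fun x => D γ k (s + x)) 0 := fun k => (gk k 0).continuousAt
    have e0 := e 0
    have e1 := e 1
    have e2 := e 2
    have e3 := e 3
    have e4 := e 4
    have e5 := e 5
    simp only [F4, dt]
    fun_prop
  have z0 : D γ 0 (s + 0) - D γ 0 s = 0 := by rw [add_zero, sub_self]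
  have z1 : D γ 1 (s + 0) - c = 0 := by rw [add_zero, sub_self]
  have Z0 : Zr F0 := by
    intro ε hε
    obtain ⟨x, hx0, hxε, hx⟩ := hc ε hε
    refine ⟨x, hx0, hxε, ?_⟩
    rw [ZA_coe, ZB_coe] at hx
    have e : F0 x = ((starRingEnd ℂ) (γ (s + x) - γ s) * deriv γ (s + x)).re
        - ((starRingEnd ℂ) (deriv γ s) * (γ (s + x) - γ s)).re := by
      simp only [F0, hcdef, D_zero, D_one]
      rw [← hx]
      rw [dt_eq]
      simp only [Complex.mul_re, Complex.conj_re, Complex.conj_im, Complex.sub_re, Complex.sub_im]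
      have hx' := congrArg Complex.re hx
      simp only [Complex.mul_re, Complex.conj_re, Complex.conj_im, Complex.sub_re,
        Complex.sub_im] at hx'
      linarith
    rw [e, hx, sub_self]
  have i0 : F0 0 = 0 := by simp only [F0]; rw [z1, dt_zero_right]
  have i1 : F1 0 = 0 := by simp only [F1]; rw [z1, z0, dt_zero_right, dt_zero_left, add_zero]
  have i2 : F2 0 = 0 := by simp only [F2]; rw [z1, z0, dt_zero_right, dt_zero_left, add_zero]
  have i3 : F3 0 = 0 := by simp only [F3]; rw [z1, z0, dt_zero_right, dt_zero_left, add_zero]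
  have Z4 : Zr F4 := Zr_deriv d3 i3 (Zr_deriv d2 i2 (Zr_deriv d1 i1 (Zr_deriv d0 i0 Z0)))
  have i4 := Zr_zero cont4 Z4
  simp only [F4] at i4
  rw [z1, z0, dt_zero_right, dt_zero_left, add_zero, zero_add, add_zero] at i4
  have e := dt14 h s
  rw [dt_comm (D γ 3 s)] at i4
  linarith

/-- constant norm of the second derivative -/
theorem norm_D2 (h : StrictlyConvexCurve γ L) (hc : ∀ s, dt (D γ 2 s) (D γ 3 s) = 0) (s : ℝ) :
    dt (D γ 2 s) (D γ 2 s) = dt (D γ 2 0) (D γ 2 0) := by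
  have h1 : ∀ s, HasDerivAt (fun s => dt (D γ 2 s) (D γ 2 s)) 0 s := by
    intro s
    refine (hasDerivAt_dt (hasDerivAt_D h.smooth 2 s) (hasDerivAt_D h.smooth 2 s)).congr_deriv ?_
    rw [dt_comm (D γ (2 + 1) s)]
    have : dt (D γ 2 s) (D γ (2 + 1) s) = 0 := hc s
    rw [this]; simp
  exact is_const_of_deriv_eq_zero (fun s => (h1 s).differentiableAt) (fun s => (h1 s).deriv) s 0

/-- Constant curvature: the curve is a circle. -/
theorem circle_of_const (h : StrictlyConvexCurve γ L) (hc : ∀ s, dt (D γ 2 s) (D γ 3 s) = 0) :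
    ∃ (m : ℂ) (r : ℝ), 0 < r ∧ range γ = Metric.sphere m r := by
  -- curvature
  set κ : ℝ → ℝ := fun s => ((starRingEnd ℂ) (D γ 1 s) * D γ 2 s).im with hκ
  have hκ1 : ∀ s, D γ 2 s = I * κ s * D γ 1 s := by
    intro s
    have e1 := dt11 h s
    have e2 := dt12 h s
    rw [dt_eq] at e1 e2
    simp only [hκ, Complex.mul_im, Complex.conj_re, Complex.conj_im]
    apply Complex.ext
    · simp only [Complex.mul_re, Complex.mul_im, Complex.I_re, Complex.I_im, Complex.ofReal_re,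
        Complex.ofReal_im]
      linear_combination (-(D γ 2 s).re) * e1 + (D γ 1 s).re * e2
    · simp only [Complex.mul_re, Complex.mul_im, Complex.I_re, Complex.I_im, Complex.ofReal_re,
        Complex.ofReal_im]
      linear_combination (-(D γ 2 s).im) * e1 + (D γ 1 s).im * e2
  have hκ2 : ∀ s, κ s ^ 2 = dt (D γ 2 s) (D γ 2 s) := by
    intro s
    have e1 := dt11 h s
    have e2 := hκ1 s
    rw [dt_eq] at e1 ⊢
    have e3 := congrArg Complex.re e2
    have e4 := congrArg Complex.im e2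
    simp only [Complex.mul_re, Complex.mul_im, Complex.I_re, Complex.I_im, Complex.ofReal_re,
      Complex.ofReal_im] at e3 e4
    rw [e3, e4]
    linear_combination (-(κ s) ^ 2) * e1
  have hκc : Continuous κ := by
    have c1 : Continuous (D γ 1) := continuous_iff_continuousAt.mpr fun s =>
      (hasDerivAt_D h.smooth 1 s).continuousAt
    have c2 : Continuous (D γ 2) := continuous_iff_continuousAt.mpr fun s =>
      (hasDerivAt_D h.smooth 2 s).continuousAt
    have c3 : Continuous fun s => (starRingEnd ℂ) (D γ 1 s) := Complex.continuous_conj.comp c1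
    simp only [hκ]
    fun_prop
  have hκ3 : ∀ s, κ s ^ 2 = κ 0 ^ 2 := fun s => by rw [hκ2, hκ2, norm_D2 h hc]
  -- the curvature does not vanish
  have hκ0 : κ 0 ≠ 0 := by
    intro h0
    have h1 : ∀ s, D γ 2 s = 0 := by
      intro s
      have h2 := hκ3 s
      rw [h0] at h2
      have h3 : κ s = 0 := by
        have : κ s ^ 2 = 0 := by rw [h2]; norm_num
        exact pow_eq_zero_iff two_ne_zero |>.mp this
      rw [hκ1, h3]; simp
    have h4 : ∀ s, D γ 1 s = D γ 1 0 := fun s =>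
      is_const_of_deriv_eq_zero (fun s => (hasDerivAt_D h.smooth 1 s).differentiableAt)
        (fun s => by rw [(hasDerivAt_D h.smooth 1 s).deriv]; exact h1 s) s 0
    have h5 : ∀ s : ℝ, HasDerivAt (fun s : ℝ => γ s - (s : ℂ) * D γ 1 0) 0 s := by
      intro s
      have e1 : HasDerivAt γ (D γ 1 s) s := by
        have := hasDerivAt_D h.smooth 0 s
        rwa [D_zero] at this
      have e2 : HasDerivAt (fun s : ℝ => (s : ℂ) * D γ 1 0) (1 * D γ 1 0) s :=
        (Complex.ofRealCLM.hasDerivAt (x := s)).mul_const _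
      refine (e1.sub e2).congr_deriv ?_
      rw [h4 s]; ring
    have h6 := is_const_of_deriv_eq_zero (fun s => (h5 s).differentiableAt)
      (fun s => (h5 s).deriv) L 0
    simp only [Complex.ofReal_zero, zero_mul, sub_zero] at h6
    have h7 := h.periodic 0
    rw [zero_add] at h7
    rw [h7] at h6
    have h8 : (L : ℂ) * D γ 1 0 = 0 := by linear_combination -h6
    rcases mul_eq_zero.mp h8 with h9 | h9
    · exact h.length_pos.ne' (by exact_mod_cast h9)
    · have := dt11 h 0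
      rw [h9, dt_zero_left] at this
      exact zero_ne_one this
  -- constant curvature
  have hκ4 : ∀ s, κ s = κ 0 := by
    intro s
    by_contra hne
    have h1 : κ s = -κ 0 := by
      rcases sq_eq_sq_iff_eq_or_eq_neg.mp (hκ3 s) with h2 | h2
      · exact absurd h2 hne
      · exact h2
    have h2 : (0 : ℝ) ∈ range κ := by
      rcases lt_or_gt_of_ne hκ0 with h3 | h3
      · exact mem_range_of_exists_le_of_exists_ge hκc ⟨0, h3.le⟩ ⟨s, by rw [h1]; linarith⟩
      · exact mem_range_of_exists_le_of_exists_ge hκc ⟨s, by rw [h1]; linarith⟩ ⟨0, h3.le⟩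
    obtain ⟨t, ht⟩ := h2
    have h3 := hκ3 t
    rw [ht] at h3
    exact hκ0 (pow_eq_zero_iff two_ne_zero |>.mp (by rw [← h3]; norm_num))
  set c : ℝ := κ 0 with hcdef
  have hcc : (c : ℂ) ≠ 0 := by exact_mod_cast hκ0
  -- the centre
  set m : ℂ := γ 0 - D γ 1 0 / (I * c) with hm
  have hIc : I * (c : ℂ) ≠ 0 := mul_ne_zero I_ne_zero hcc
  have h1 : ∀ s : ℝ, HasDerivAt (fun s : ℝ => γ s - D γ 1 s / (I * c)) 0 s := by
    intro s
    have e1 : HasDerivAt γ (D γ 1 s) s := by
      have := hasDerivAt_D h.smooth 0 s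
      rwa [D_zero] at this
    refine (e1.sub ((hasDerivAt_D h.smooth 1 s).div_const (I * c))).congr_deriv ?_
    have : D γ (1 + 1) s = I * κ s * D γ 1 s := hκ1 s
    rw [this, hκ4 s]
    field_simp
    ring
  have h2 : ∀ s, γ s - m = D γ 1 s / (I * c) := by
    intro s
    have := is_const_of_deriv_eq_zero (fun s => (h1 s).differentiableAt)
      (fun s => (h1 s).deriv) s 0
    rw [hm, ← this]; ring
  have hnorm : ∀ s, ‖γ s - m‖ = 1 / |c| := by
    intro s
    rw [h2, norm_div, norm_mul, Complex.norm_I, one_mul, Complex.norm_real, D_one, h.unit_speed,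
      Real.norm_eq_abs]
  have h3 : ∀ s : ℝ, HasDerivAt (fun s : ℝ => exp (-(I * c * s)) * (γ s - m)) 0 s := by
    intro s
    have e1 : HasDerivAt (fun s => γ s - m) (D γ 1 s) s := by
      have := hasDerivAt_D h.smooth 0 s
      rw [D_zero] at this
      exact this.sub_const m
    have e2 : HasDerivAt (fun s : ℝ => -(I * c * (s : ℂ))) (-(I * c * 1)) s :=
      ((Complex.ofRealCLM.hasDerivAt (x := s)).const_mul (I * (c : ℂ))).neg
    have e3 := e2.cexp.mul e1
    refine e3.congr_deriv ?_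
    have e4 := h2 s
    rw [eq_div_iff hIc] at e4
    rw [← e4]
    ring
  have h4 : ∀ s : ℝ, γ s = m + exp (I * c * s) * (γ 0 - m) := by
    intro s
    have h5 := is_const_of_deriv_eq_zero (fun s => (h3 s).differentiableAt)
      (fun s => (h3 s).deriv) s 0
    simp only [Complex.ofReal_zero, mul_zero, neg_zero, Complex.exp_zero, one_mul] at h5
    rw [← h5, ← mul_assoc, ← Complex.exp_add, add_neg_cancel, Complex.exp_zero, one_mul]
    ring
  refine ⟨m, 1 / |c|, by positivity, ?_⟩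
  apply subset_antisymm
  · rintro _ ⟨s, rfl⟩
    rw [mem_sphere_iff_norm]
    exact hnorm s
  · intro w hw
    rw [mem_sphere_iff_norm] at hw
    have h5 : γ 0 - m ≠ 0 := by
      intro h6
      have := hnorm 0
      rw [h6, norm_zero] at this
      have h7 : 0 < 1 / |c| := by positivity
      linarith
    -- `(w - m) / (γ 0 - m)` is a unit
    have h6 : ‖(w - m) / (γ 0 - m)‖ = 1 := by
      rw [norm_div, hw, hnorm 0, div_self (by positivity)]
    have h7 := Complex.norm_mul_exp_arg_mul_I ((w - m) / (γ 0 - m))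
    rw [h6] at h7
    refine ⟨arg ((w - m) / (γ 0 - m)) / c, ?_⟩
    rw [h4]
    have h8 : I * c * ((arg ((w - m) / (γ 0 - m)) / c : ℝ) : ℂ)
        = arg ((w - m) / (γ 0 - m)) * I := by
      push_cast
      field_simp
    rw [h8]
    have h9 : exp (arg ((w - m) / (γ 0 - m)) * I) = (w - m) / (γ 0 - m) := by
      simpa using h7
    rw [h9, div_mul_cancel₀ _ h5]
    ring

/-- If the map is integrable, the curve is a circle. -/
theorem circle_of_integrable (h : StrictlyConvexCurve γ L) {d : ℝ} (hd : 0 < d)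
    (hI : IsIntegrable (tmap h d)) : ∃ (m : ℂ) (r : ℝ), 0 < r ∧ range γ = Metric.sphere m r :=
  circle_of_const h fun s => dt23 h s fun _ hε => exists_sym_chord h hd hI s hε

end Q66.Coin
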