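import Pool.Agent.Q66.CoinB

/-!
# MP_61130f_an: for a circle the map is integrable
-/

set_option autoImplicit false

namespace Q66.Coin

open Pool.Agent.H738R2.Cyl Pool.Agent.W714.Coin Set Filter Topology Complex

variable {γ : ℝ → ℂ} {L : ℝ}

/-- the identity of the circle is not null-homotopic -/
theorem id_not_null : ¬ (ContinuousMap.id (AddCircle (1 : ℝ))).Nullhomotopic := by
  rintro ⟨y, ⟨H⟩⟩
  have hc : Continuous ((↑) : ℝ → AddCircle (1 : ℝ)) := continuous_coe
  obtain ⟨F, hF, hFf⟩ := exists_real_lift (p := (1 : ℝ)) (A := ℝ × ℝ)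
    (fun p => H (projIcc 0 1 zero_le_one p.1, (p.2 : AddCircle (1 : ℝ)))) (by
      refine H.continuous.comp ?_
      exact (continuous_projIcc.comp continuous_fst).prodMk (hc.comp continuous_snd))
  have f0 : ∀ t : ℝ, ((F (0, t) : ℝ) : AddCircle (1 : ℝ)) = (t : AddCircle (1 : ℝ)) := by
    intro t
    rw [hFf]
    show H (projIcc 0 1 zero_le_one 0, (t : AddCircle (1 : ℝ))) = _
    rw [projIcc_left]
    exact H.apply_zero _
  have f1 : ∀ t : ℝ, ((F (1, t) : ℝ) : AddCircle (1 : ℝ)) = y := by
    intro t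
    rw [hFf]
    show H (projIcc 0 1 zero_le_one 1, (t : AddCircle (1 : ℝ))) = _
    rw [projIcc_right]
    exact H.apply_one _
  have hcoe : ((1 : ℝ) : AddCircle (1 : ℝ)) = ((0 : ℝ) : AddCircle (1 : ℝ)) := by
    rw [coe_eq_iff]; exact ⟨-1, by simp⟩
  have h2 := const_of_coe_const (p := (1 : ℝ)) (fun s : ℝ => F (s, 1) - F (s, 0)) (by fun_prop) 0
    (by
      intro s
      rw [AddCircle.coe_sub, hFf, hFf]
      simp only [hcoe, sub_self]) 0 1
  have h3 := const_of_coe_const (p := (1 : ℝ)) (fun t : ℝ => F (0, t) - t) (by fun_prop) 0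
    (by
      intro t
      rw [AddCircle.coe_sub, f0, sub_self]) 1 0
  have h4 := const_of_coe_const (p := (1 : ℝ)) (fun t : ℝ => F (1, t)) (by fun_prop) y f1 1 0
  linarith

/-- The line is homeomorphic to `(0, π)`. -/
noncomputable def psi : ℝ ≃ₜ Ioo (0 : ℝ) Real.pi where
  toFun t := ⟨Real.pi / 2 + Real.arctan t, by
    have := Real.neg_pi_div_two_lt_arctan t; linarith, by
    have := Real.arctan_lt_pi_div_two t; linarith⟩
  invFun a := Real.tan ((a : ℝ) - Real.pi / 2)
  left_inv t := by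
    simp only
    rw [add_sub_cancel_left, Real.tan_arctan]
  right_inv a := by
    apply Subtype.ext
    simp only
    rw [Real.arctan_tan]
    · ring
    · linarith [a.2.1]
    · linarith [a.2.2]
  continuous_toFun := by
    apply Continuous.subtype_mk
    have := Real.continuous_arctan
    fun_prop
  continuous_invFun := by
    rw [continuous_iff_continuousAt]
    intro a
    have h1 : Real.cos ((a : ℝ) - Real.pi / 2) ≠ 0 :=
      (Real.cos_pos_of_mem_Ioo ⟨by linarith [a.2.1], by linarith [a.2.2]⟩).ne'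
    have h2 : ContinuousAt Real.tan ((a : ℝ) - Real.pi / 2) := Real.continuousAt_tan.mpr h1
    exact ContinuousAt.comp (f := fun a : Ioo (0 : ℝ) Real.pi => (a : ℝ) - Real.pi / 2) (x := a)
      h2 (by fun_prop)

theorem deriv_of_circle (h : StrictlyConvexCurve γ L) {m : ℂ} {r : ℝ} (hr : 0 < r)
    (hγ : range γ = Metric.sphere m r) (s : ℝ) : deriv γ s = I / r * (γ s - m) := by
  have hn : ∀ s, dt (γ s - m) (γ s - m) = r ^ 2 := by
    intro s
    have : γ s ∈ Metric.sphere m r := by rw [← hγ]; exact ⟨s, rfl⟩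
    rw [mem_sphere_iff_norm] at this
    rw [dt, ← Complex.normSq_eq_conj_mul_self, Complex.normSq_eq_norm_sq, this]
    exact_mod_cast rfl
  have hd : HasDerivAt (fun s => γ s - m) (deriv γ s) s := (hasDerivAt h s).sub_const m
  have h1 := hasDerivAt_dt hd hd
  have h2 : (fun y => dt (γ y - m) (γ y - m)) = fun _ => r ^ 2 := funext hn
  rw [h2] at h1
  have h3 := h1.unique (hasDerivAt_const s (r ^ 2))
  rw [dt_comm (deriv γ s)] at h3
  have h4 : dt (γ s - m) (deriv γ s) = 0 := by linarith
  -- strict convexity at the antipodal point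
  have h5 : 2 * m - γ s ∈ range γ := by
    rw [hγ, mem_sphere_iff_norm]
    have h6 : γ s ∈ Metric.sphere m r := by rw [← hγ]; exact ⟨s, rfl⟩
    rw [mem_sphere_iff_norm] at h6
    have e : 2 * m - γ s - m = -(γ s - m) := by ring
    rw [e, norm_neg]; exact h6
  obtain ⟨s', hs'⟩ := h5
  have hne : γ s' ≠ γ s := by
    intro he
    rw [hs'] at he
    have h6 : γ s - m = 0 := by linear_combination (-1 / 2 : ℂ) * he
    have h7 := hn s
    rw [h6, dt_zero_left] at h7
    have : 0 < r ^ 2 := by positivity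
    linarith
  have h6 := h.strictly_convex s s' hne
  rw [hs'] at h6
  have e1 := hn s
  have e2 : dt (deriv γ s) (deriv γ s) = 1 := by
    have := dt11 h s
    rwa [D_one] at this
  set a := γ s - m with ha
  set b := deriv γ s with hb
  have e3 : (2 * m - γ s - γ s) = -2 * a := by rw [ha]; ring
  rw [e3] at h6
  rw [dt_eq] at h4 e1 e2
  have h7 : 0 < 2 * (b.im * a.re - b.re * a.im) := by
    have e : ((starRingEnd ℂ) b * (-2 * a)).im = 2 * (b.im * a.re - b.re * a.im) := by
      simp [Complex.mul_im, Complex.mul_re]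
      ring
    rwa [e] at h6
  -- `b.im a.re - b.re a.im = r`
  have h8 : (b.im * a.re - b.re * a.im) ^ 2 = r ^ 2 := by
    have : (b.im * a.re - b.re * a.im) ^ 2 = (a.re * a.re + a.im * a.im) * (b.re * b.re + b.im * b.im)
        - (a.re * b.re + a.im * b.im) ^ 2 := by ring
    rw [this, e1, e2, h4]; ring
  have h9 : b.im * a.re - b.re * a.im = r := by
    rcases sq_eq_sq_iff_eq_or_eq_neg.mp h8 with h | h
    · exact h
    · linarith
  have hr' : (r : ℂ) ≠ 0 := by exact_mod_cast hr.ne'
  have h10 : (r : ℂ) * b = I * a := by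
    apply Complex.ext
    · simp only [Complex.mul_re, Complex.I_re, Complex.I_im, Complex.ofReal_re, Complex.ofReal_im]
      have : r * b.re = -a.im := by
        linear_combination (-b.re) * h9 + b.im * h4 - a.im * e2
      linarith
    · simp only [Complex.mul_im, Complex.I_re, Complex.I_im, Complex.ofReal_re, Complex.ofReal_im]
      have : r * b.im = a.re := by
        linear_combination (-b.im) * h9 - b.re * h4 + a.re * e2
      linarith
  field_simp
  linear_combination h10

theorem rot_of_circle (h : StrictlyConvexCurve γ L) {m : ℂ} {r : ℝ} (hr : 0 < r)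
    (hγ : range γ = Metric.sphere m r) (s x : ℝ) :
    γ (s + x) - m = exp (I * (x / r : ℝ)) * (γ s - m) := by
  have hr' : (r : ℂ) ≠ 0 := by exact_mod_cast hr.ne'
  have h3 : ∀ x : ℝ, HasDerivAt (fun x : ℝ => exp (-(I / r * x)) * (γ (s + x) - m)) 0 x := by
    intro x
    have e1 : HasDerivAt (fun x => γ (s + x) - m) (deriv γ (s + x)) x :=
      ((hasDerivAt h (s + x)).comp_const_add s x).sub_const m
    have e2 : HasDerivAt (fun x : ℝ => -(I / r * (x : ℂ))) (-(I / r * 1)) x :=
      ((Complex.ofRealCLM.hasDerivAt (x := x)).const_mul (I / (r : ℂ))).neg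
    refine (e2.cexp.mul e1).congr_deriv ?_
    rw [deriv_of_circle h hr hγ]
    ring
  have h5 := is_const_of_deriv_eq_zero (fun s => (h3 s).differentiableAt)
    (fun s => (h3 s).deriv) x 0
  simp only [Complex.ofReal_zero, mul_zero, neg_zero, Complex.exp_zero, one_mul, add_zero] at h5
  have e : I * ((x / r : ℝ) : ℂ) = I / r * x := by push_cast; ring
  rw [e, ← h5, ← mul_assoc, ← Complex.exp_add, add_neg_cancel, Complex.exp_zero, one_mul]

/-- the common value of `ZA` and `ZB` -/
noncomputable def W (r x : ℝ) : ℂ := (exp (I * (x / r : ℝ)) - 1) * (-(I * r))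

theorem conj_mul_self_circle {m : ℂ} {r : ℝ}
    (hγ : range γ = Metric.sphere m r) (s : ℝ) :
    (starRingEnd ℂ) (γ s - m) * (γ s - m) = (r : ℂ) ^ 2 := by
  have : γ s ∈ Metric.sphere m r := by rw [← hγ]; exact ⟨s, rfl⟩
  rw [mem_sphere_iff_norm] at this
  rw [← Complex.normSq_eq_conj_mul_self, Complex.normSq_eq_norm_sq, this]
  push_cast; rfl

theorem ZA_circle (h : StrictlyConvexCurve γ L) {m : ℂ} {r : ℝ} (hr : 0 < r)
    (hγ : range γ = Metric.sphere m r) (w : AddCircle L) (x : ℝ) : ZA h w x = W r x := by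
  obtain ⟨s, rfl⟩ := coe_surjL w
  have hr' : (r : ℂ) ≠ 0 := by exact_mod_cast hr.ne'
  rw [ZA_coe, deriv_of_circle h hr hγ, W]
  have e1 : γ (s + x) - γ s = (exp (I * (x / r : ℝ)) - 1) * (γ s - m) := by
    have := rot_of_circle h hr hγ s x
    linear_combination this
  have e2 := conj_mul_self_circle hγ s
  rw [e1, map_mul, map_div₀, Complex.conj_I, Complex.conj_ofReal]
  field_simp
  linear_combination (-(exp (I * (x / r : ℝ)) - 1)) * e2

theorem ZB_circle (h : StrictlyConvexCurve γ L) {m : ℂ} {r : ℝ} (hr : 0 < r)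
    (hγ : range γ = Metric.sphere m r) (w : AddCircle L) (x : ℝ) : ZB h w x = W r x := by
  obtain ⟨s, rfl⟩ := coe_surjL w
  have hr' : (r : ℂ) ≠ 0 := by exact_mod_cast hr.ne'
  rw [ZB_coe, deriv_of_circle h hr hγ, W]
  set E := exp (I * (x / r : ℝ)) with hE
  have e0 := rot_of_circle h hr hγ s x
  rw [← hE] at e0
  have e1 : γ (s + x) - γ s = (E - 1) * (γ s - m) := by linear_combination e0
  have e2 := conj_mul_self_circle hγ s
  have e3 : (starRingEnd ℂ) E * E = 1 := by
    rw [← Complex.normSq_eq_conj_mul_self, Complex.normSq_eq_norm_sq, hE, mul_comm I,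
      Complex.norm_exp_ofReal_mul_I]
    simp
  rw [e1, e0, map_mul, map_sub, map_one]
  field_simp
  linear_combination (((starRingEnd ℂ) E - 1) * E) * e2 + ((r : ℂ) ^ 2) * e3

/-- The map of a circle is a rotation on each horizontal circle. -/
theorem tmap_circle (h : StrictlyConvexCurve γ L) {m : ℂ} {r : ℝ} (hr : 0 < r)
    (hγ : range γ = Metric.sphere m r) (d : ℝ) :
    ∃ δ : Ioo (0 : ℝ) Real.pi → AddCircle L, ∀ z, tmap h d z = (z.1 + δ z.2, z.2) := by
  have hang : ∀ w w' x, angA h w x = angA h w' x := fun w w' x => by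
    rw [angA, angA, ZA_circle h hr hγ, ZA_circle h hr hγ]
  have hAB : ∀ w x, angB h w x = angA h w x := fun w x => by
    rw [angA, angB, ZA_circle h hr hγ, ZB_circle h hr hγ]
  have hlen : ∀ (w w' : AddCircle L) (a : Ioo (0 : ℝ) Real.pi), len h (w, a) = len h (w', a) := by
    intro w w' a
    apply len_eq h (len_mem h (w', a))
    show angA h w (len h (w', a)) = a
    rw [hang w w']
    exact angA_len h (w', a)
  have hb2 : ∀ z, (bmap h z).2 = z.2 := by
    intro z
    apply Subtype.ext
    show angB h z.1 (len h z) = z.2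
    rw [hAB, angA_len]
  refine ⟨fun a => ((len h ((0 : AddCircle L), a) + d * Real.cot a : ℝ) : AddCircle L), fun z => ?_⟩
  apply Prod.ext
  · rw [tmap_fst, disp, hb2, hlen z.1 0 z.2]
  · rw [tmap_snd, hb2]

theorem integrable_of_circle (h : StrictlyConvexCurve γ L) {m : ℂ} {r : ℝ} (hr : 0 < r)
    (hγ : range γ = Metric.sphere m r) (d : ℝ) : IsIntegrable (tmap h d) := by
  obtain ⟨δ, hδ⟩ := tmap_circle h hr hγ d
  have hL := h.length_pos
  let e : AddCircle (1 : ℝ) ≃ₜ AddCircle L := AddCircle.homeomorphAddCircle 1 L one_ne_zero hL.ne'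
  refine ⟨{Γ | ∃ a : Ioo (0 : ℝ) Real.pi, Γ = {z : PhaseCylinder L | z.2 = a}}, ?_, ?_, ?_⟩
  · intro z
    refine ⟨{z' | z'.2 = z.2}, ⟨⟨z.2, rfl⟩, rfl⟩, ?_⟩
    rintro _ ⟨⟨a, rfl⟩, hz⟩
    have : z.2 = a := hz
    rw [this]
  · rintro _ ⟨a, rfl⟩
    refine ⟨⟨fun u => (e u, a), by fun_prop⟩, ?_, ?_, ?_, ?_⟩
    · intro u v huv
      exact e.injective (congrArg Prod.fst huv)
    · intro hn
      have h1 := (hn.comp_right ⟨fun z : PhaseCylinder L => e.symm z.1, by fun_prop⟩)
      have h2 : (⟨fun z : PhaseCylinder L => e.symm z.1, by fun_prop⟩ :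
          C(PhaseCylinder L, AddCircle (1 : ℝ))).comp ⟨fun u => (e u, a), by fun_prop⟩
          = ContinuousMap.id (AddCircle (1 : ℝ)) := by
        ext1 u
        exact e.symm_apply_apply u
      rw [h2] at h1
      exact id_not_null h1
    · ext z
      constructor
      · rintro ⟨u, rfl⟩; rfl
      · intro hz
        have hz' : z.2 = a := hz
        exact ⟨e.symm z.1, Prod.ext (e.apply_symm_apply z.1) hz'.symm⟩
    · ext z
      constructor
      · rintro ⟨y, hy, rfl⟩
        rw [hδ]; exact hy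
      · intro hz
        have hz' : z.2 = a := hz
        refine ⟨(z.1 - δ z.2, z.2), hz, ?_⟩
        rw [hδ]
        exact Prod.ext (sub_add_cancel _ _) rfl
  · rintro _ ⟨a, rfl⟩
    let H : AddCircle (1 : ℝ) × ℝ ≃ₜ PhaseCylinder L :=
      e.prodCongr ((Homeomorph.addRight (psi.symm a)).trans psi)
    have hrange : ∀ t, (range fun u => H (u, t)) = {z | z.2 = psi (t + psi.symm a)} := by
      intro t
      ext z
      constructor
      · rintro ⟨u, rfl⟩; rfl
      · intro hz
        have hz' : z.2 = psi (t + psi.symm a) := hz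
        exact ⟨e.symm z.1, Prod.ext (e.apply_symm_apply z.1) hz'.symm⟩
    refine ⟨H, H.isOpenEmbedding, ?_, ?_⟩
    · rw [hrange, zero_add, Homeomorph.apply_symm_apply]
    · intro t
      rw [hrange]
      exact ⟨_, rfl⟩

end Q66.Coin
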