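import Mathlib

/-! Force field counterexample, part 1: calculus of `arctan √(y/t)` and midpoint sums. -/

namespace Q66.FF

open Real Finset Filter Topology

/-- `a_y(t) = arctan √(y/t)` -/
noncomputable def aa (y t : ℝ) : ℝ := Real.arctan (√y / √t)
/-- the kernel `√y / (√t (t + y))` -/
noncomputable def K (y t : ℝ) : ℝ := √y / (√t * (t + y))
/-- antiderivative of `aa y` -/
noncomputable def FF (y t : ℝ) : ℝ :=
  t * Real.arctan (√y / √t) + √y * √t - y * Real.arctan (√t / √y)
/-- antiderivative of `K y` -/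
noncomputable def Ph (y t : ℝ) : ℝ := 2 * Real.arctan (√t / √y)

lemma hasDeriv_aa {y t : ℝ} (hy : 0 < y) (ht : 0 < t) :
    HasDerivAt (aa y) (-(1/2) * K y t) t := by
  have hst : 0 < √t := Real.sqrt_pos.2 ht
  have hsy : 0 < √y := Real.sqrt_pos.2 hy
  have h1 : HasDerivAt (fun t => √y / √t) (-(√y * (1 / (2 * √t))) / (√t)^2) t :=
    ((hasDerivAt_const t (√y)).fun_div (Real.hasDerivAt_sqrt ht.ne') hst.ne').congr_deriv (by ring)
  have h2 := h1.arctan
  refine h2.congr_deriv ?_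
  unfold K
  have e1 : √t ^ 2 = t := Real.sq_sqrt ht.le
  have e2 : √y ^ 2 = y := Real.sq_sqrt hy.le
  rw [div_pow, e1, e2]
  field_simp

lemma hasDeriv_at2 {y t : ℝ} (hy : 0 < y) (ht : 0 < t) :
    HasDerivAt (fun t => Real.arctan (√t / √y)) ((1/2) * K y t) t := by
  have hst : 0 < √t := Real.sqrt_pos.2 ht
  have hsy : 0 < √y := Real.sqrt_pos.2 hy
  have h1 : HasDerivAt (fun t => √t / √y) ((1 / (2 * √t)) / √y) t :=
    (Real.hasDerivAt_sqrt ht.ne').div_const _
  have h2 := h1.arctan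
  refine h2.congr_deriv ?_
  unfold K
  have e1 : √t ^ 2 = t := Real.sq_sqrt ht.le
  have e2 : √y ^ 2 = y := Real.sq_sqrt hy.le
  rw [div_pow, e1, e2]
  field_simp
  rw [e2]
  ring

lemma hasDeriv_Ph {y t : ℝ} (hy : 0 < y) (ht : 0 < t) :
    HasDerivAt (Ph y) (K y t) t := by
  have h := (hasDeriv_at2 hy ht).const_mul 2
  exact h.congr_deriv (by ring)

lemma hasDeriv_FF {y t : ℝ} (hy : 0 < y) (ht : 0 < t) :
    HasDerivAt (FF y) (aa y t) t := by
  have hst : 0 < √t := Real.sqrt_pos.2 ht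
  have hsy : 0 < √y := Real.sqrt_pos.2 hy
  have h1 := (hasDerivAt_id t).fun_mul (hasDeriv_aa hy ht)
  have h2 := (Real.hasDerivAt_sqrt ht.ne').const_mul (√y)
  have h3 := (hasDeriv_at2 hy ht).const_mul y
  have h4 := (h1.fun_add h2).fun_sub h3
  refine h4.congr_deriv ?_
  unfold K
  have e1 : √t ^ 2 = t := Real.sq_sqrt ht.le
  have e2 : √y ^ 2 = y := Real.sq_sqrt hy.le
  have : 0 < t + y := by positivity
  simp only [id]
  field_simp
  ring

lemma K_nonneg {y t : ℝ} (hy : 0 ≤ y) (ht : 0 ≤ t) : 0 ≤ K y t := by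
  unfold K; positivity

lemma K_anti {y s t : ℝ} (hy : 0 ≤ y) (hs : 0 < s) (hst : s ≤ t) : K y t ≤ K y s := by
  unfold K
  apply div_le_div_of_nonneg_left (Real.sqrt_nonneg _)
  · have := Real.sqrt_pos.2 hs; positivity
  · have := Real.sqrt_le_sqrt hst
    have h2 : s + y ≤ t + y := by linarith
    exact mul_le_mul this h2 (by positivity) (Real.sqrt_nonneg _)

/-- midpoint inequality, abstract -/
lemma mid_le {f G : ℝ → ℝ} {m : ℝ}
    (hG : ∀ t ∈ Set.Icc (m - 1/2) (m + 1/2), HasDerivAt G (f t) t)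
    (hf : ∀ s ∈ Set.Icc (0:ℝ) (1/2), 2 * f m ≤ f (m + s) + f (m - s)) :
    f m ≤ G (m + 1/2) - G (m - 1/2) := by
  have hd : ∀ s ∈ Set.Icc (0:ℝ) (1/2), HasDerivAt (fun s => G (m + s) - G (m - s) - 2 * s * f m)
      (f (m + s) + f (m - s) - 2 * f m) s := by
    intro s hs
    have h1 : HasDerivAt (fun s => G (m + s)) (f (m+s)) s := by
      exact (hG (m + s) ⟨by linarith [hs.1], by linarith [hs.2]⟩).comp_const_add m s
    have h2 : HasDerivAt (fun s => G (m - s)) (-f (m-s)) s := by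
      exact (hG (m - s) ⟨by linarith [hs.2], by linarith [hs.1]⟩).comp_const_sub m s
    have h3 : HasDerivAt (fun s : ℝ => 2 * s * f m) (2 * f m) s := by
      exact (((hasDerivAt_id s).const_mul 2).mul_const (f m)).congr_deriv (by ring)
    exact ((h1.fun_sub h2).fun_sub h3).congr_deriv (by ring)
  have hmono : MonotoneOn (fun s => G (m + s) - G (m - s) - 2 * s * f m) (Set.Icc (0:ℝ) (1/2)) := by
    apply monotoneOn_of_deriv_nonneg (convex_Icc _ _)
    · intro s hs; exact (hd s hs).continuousAt.continuousWithinAt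
    · intro s hs; rw [interior_Icc] at hs
      exact (hd s ⟨hs.1.le, hs.2.le⟩).differentiableAt.differentiableWithinAt
    · intro s hs; rw [interior_Icc] at hs
      rw [(hd s ⟨hs.1.le, hs.2.le⟩).deriv]
      linarith [hf s ⟨hs.1.le, hs.2.le⟩]
  have := hmono (show (0:ℝ) ∈ Set.Icc (0:ℝ) (1/2) by constructor <;> norm_num)
    (show (1/2:ℝ) ∈ Set.Icc (0:ℝ) (1/2) by constructor <;> norm_num) (by norm_num)
  simp only [add_zero, sub_zero, sub_self, mul_zero, zero_mul] at this
  linarith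

lemma mid_ge {f G : ℝ → ℝ} {m C : ℝ}
    (hG : ∀ t ∈ Set.Icc (m - 1/2) (m + 1/2), HasDerivAt G (f t) t)
    (hf : ∀ s ∈ Set.Icc (0:ℝ) (1/2), f (m + s) + f (m - s) ≤ 2 * f m + C * s) :
    G (m + 1/2) - G (m - 1/2) ≤ f m + C / 8 := by
  have hd : ∀ s ∈ Set.Icc (0:ℝ) (1/2), HasDerivAt (fun s => 2 * s * f m + C * s^2 / 2 - (G (m + s) - G (m - s)))
      (2 * f m + C * s - (f (m + s) + f (m - s))) s := by
    intro s hs
    have h1 : HasDerivAt (fun s => G (m + s)) (f (m+s)) s := by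
      exact (hG (m + s) ⟨by linarith [hs.1], by linarith [hs.2]⟩).comp_const_add m s
    have h2 : HasDerivAt (fun s => G (m - s)) (-f (m-s)) s := by
      exact (hG (m - s) ⟨by linarith [hs.2], by linarith [hs.1]⟩).comp_const_sub m s
    have h3 : HasDerivAt (fun s : ℝ => 2 * s * f m) (2 * f m) s := by
      exact (((hasDerivAt_id s).const_mul 2).mul_const (f m)).congr_deriv (by ring)
    have h4 : HasDerivAt (fun s : ℝ => C * s^2 / 2) (C * s) s := by
      exact ((((hasDerivAt_id s).fun_pow 2).const_mul C).div_const 2).congr_deriv (by simp; ring)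
    exact ((h3.fun_add h4).fun_sub (h1.fun_sub h2)).congr_deriv (by ring)
  have hmono : MonotoneOn (fun s => 2 * s * f m + C * s^2 / 2 - (G (m + s) - G (m - s))) (Set.Icc (0:ℝ) (1/2)) := by
    apply monotoneOn_of_deriv_nonneg (convex_Icc _ _)
    · intro s hs; exact (hd s hs).continuousAt.continuousWithinAt
    · intro s hs; rw [interior_Icc] at hs
      exact (hd s ⟨hs.1.le, hs.2.le⟩).differentiableAt.differentiableWithinAt
    · intro s hs; rw [interior_Icc] at hs
      rw [(hd s ⟨hs.1.le, hs.2.le⟩).deriv]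
      linarith [hf s ⟨hs.1.le, hs.2.le⟩]
  have := hmono (show (0:ℝ) ∈ Set.Icc (0:ℝ) (1/2) by constructor <;> norm_num)
    (show (1/2:ℝ) ∈ Set.Icc (0:ℝ) (1/2) by constructor <;> norm_num) (by norm_num)
  simp only [add_zero, sub_zero, sub_self, mul_zero, zero_mul] at this
  norm_num at this
  linarith

lemma K_mid {y m : ℝ} (hy : 0 < y) (hm : 1/2 < m) : K y m ≤ Ph y (m + 1/2) - Ph y (m - 1/2) := by
  apply mid_le
  · intro t ht; exact hasDeriv_Ph hy (by linarith [ht.1])
  · intro s hs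
    have hm1 : 0 < m + s := by linarith [hs.1]
    have hm2 : 0 < m - s := by linarith [hs.2]
    have hm0 : 0 < m := by linarith
    have h1 : 0 ≤ K y (m+s) := K_nonneg hy.le hm1.le
    have h2 : 0 ≤ K y (m-s) := K_nonneg hy.le hm2.le
    have h0 : 0 ≤ K y m := K_nonneg hy.le hm0.le
    have key : (K y m)^2 ≤ K y (m+s) * K y (m-s) := by
      unfold K
      have e : √(m+s) * √(m-s) ≤ m := by
        rw [← Real.sqrt_mul hm1.le]
        apply Real.sqrt_le_iff.2
        constructor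
        · exact hm0.le
        · nlinarith [sq_nonneg s]
      have e2 : (m + s + y) * (m - s + y) ≤ (m+y)^2 := by nlinarith [sq_nonneg s]
      have e3 : (√(m+s) * (m+s+y)) * (√(m-s) * (m - s + y)) ≤ (√m * (m+y))^2 := by
        have : (√m * (m+y))^2 = m * (m+y)^2 := by rw [mul_pow, Real.sq_sqrt hm0.le]
        rw [this]
        calc (√(m+s) * (m+s+y)) * (√(m-s) * (m - s + y)) = (√(m+s) * √(m-s)) * ((m+s+y) * (m-s+y)) := by ring
          _ ≤ m * (m+y)^2 := by
            apply mul_le_mul e e2 (by positivity) hm0.le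
      rw [div_pow, div_mul_div_comm, ← pow_two]
      apply div_le_div_of_nonneg_left (by positivity) _ e3
      have := Real.sqrt_pos.2 hm1
      have := Real.sqrt_pos.2 hm2
      positivity
    nlinarith [sq_nonneg (K y (m+s) - K y (m-s)), sq_nonneg (K y (m+s) + K y (m-s) - 2 * K y m)]

lemma aa_second {y m s : ℝ} (hy : 0 < y) (hm : 1/2 < m) (hs0 : 0 ≤ s) (hs : s ≤ 1/2) :
    0 ≤ aa y (m+s) + aa y (m-s) - 2 * aa y m ∧
    aa y (m+s) + aa y (m-s) - 2 * aa y m ≤ (1/2) * (K y (m-1/2) - K y (m+1/2)) * s := by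
  rcases hs0.eq_or_lt with h0 | h0
  · subst h0; simp; ring_nf; simp
  · obtain ⟨ξ1, h1, e1⟩ := exists_hasDerivAt_eq_slope (aa y) (fun t => -(1/2) * K y t) (show m < m + s by linarith)
      (fun t ht => (hasDeriv_aa hy (by linarith [ht.1] : 0 < t)).continuousAt.continuousWithinAt)
      (fun t ht => hasDeriv_aa hy (by linarith [ht.1]))
    obtain ⟨ξ2, h2, e2⟩ := exists_hasDerivAt_eq_slope (aa y) (fun t => -(1/2) * K y t) (show m - s < m by linarith)
      (fun t ht => (hasDeriv_aa hy (by linarith [ht.1] : 0 < t)).continuousAt.continuousWithinAt)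
      (fun t ht => hasDeriv_aa hy (by linarith [ht.1]))
    have e1' : aa y (m+s) - aa y m = -(1/2) * K y ξ1 * s := by
      rw [e1, show m + s - m = s by ring, div_mul_cancel₀ _ h0.ne']
    have e2' : aa y m - aa y (m-s) = -(1/2) * K y ξ2 * s := by
      rw [e2, show m - (m - s) = s by ring, div_mul_cancel₀ _ h0.ne']
    have k1 : K y ξ1 ≤ K y ξ2 := K_anti hy.le (by linarith [h2.1]) (by linarith [h1.1, h2.2])
    have k2 : K y ξ2 ≤ K y (m-1/2) := K_anti hy.le (by linarith) (by linarith [h2.1])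
    have k3 : K y (m+1/2) ≤ K y ξ1 := K_anti hy.le (by linarith [h1.1]) (by linarith [h1.2])
    constructor
    · nlinarith
    · nlinarith

lemma aa_mid_le {y m : ℝ} (hy : 0 < y) (hm : 1/2 < m) : aa y m ≤ FF y (m+1/2) - FF y (m-1/2) := by
  apply mid_le
  · intro t ht; exact hasDeriv_FF hy (by linarith [ht.1])
  · intro s hs; linarith [(aa_second hy hm hs.1 hs.2).1]

lemma aa_mid_ge {y m : ℝ} (hy : 0 < y) (hm : 1/2 < m) :
    FF y (m+1/2) - FF y (m-1/2) ≤ aa y m + (1/16) * (K y (m-1/2) - K y (m+1/2)) := by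
  have := mid_ge (f := aa y) (G := FF y) (m := m) (C := (1/2) * (K y (m-1/2) - K y (m+1/2)))
    (fun t ht => hasDeriv_FF hy (by linarith [ht.1]))
    (fun s hs => by linarith [(aa_second hy hm hs.1 hs.2).2])
  linarith

end Q66.FF
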