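import Pool.Agent.Q66.FF9

/-! Force field counterexample, part 10: positivity of the derivative, moduli, zero set. -/

namespace Q66.FF

open Real Finset Filter Topology Complex

lemma MN_nonneg (x : ℕ → ℝ) (k N : ℕ) : 0 ≤ MN x k N := by
  unfold MN
  apply mul_nonneg (by positivity)
  exact prod_nonneg (fun j _ => by positivity)

/-- the phase equation makes the derivative real and nonnegative -/
theorem deriv_GG_nonneg {x : ℕ → ℝ} (h : Near x) (hp : ∀ k, AA x (x k) = π * x k / 2 - π * ((k:ℝ) + 1)) (k : ℕ) :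
    (deriv (GG x) (zk x k)).im = 0 ∧ 0 ≤ (deriv (GG x) (zk x k)).re := by
  have h1 := tendsto_deriv_GN h (zk x k)
  have hth : Tendsto (fun N => thN x k N) atTop (𝓝 0) := by
    have := (tendsto_AA h (h.pos k).le).const_add (π * ((k:ℝ) + 1) - π * x k / 2)
    rw [hp k] at this
    have e : π * ((k:ℝ) + 1) - π * x k / 2 + (π * x k / 2 - π * ((k:ℝ) + 1)) = 0 := by ring
    rw [e] at this
    exact this
  have h2 : Tendsto (fun N => Complex.exp (-((thN x k N : ℝ) * I))) atTop (𝓝 1) := by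
    have hc : Continuous (fun t : ℝ => Complex.exp (-((t : ℂ) * I))) := by fun_prop
    have h0 := hc.tendsto 0
    simp only [Complex.ofReal_zero, zero_mul, neg_zero, Complex.exp_zero] at h0
    exact h0.comp hth
  have h3 := h1.mul h2
  rw [mul_one] at h3
  have h4 : (fun N => deriv (GN x N) (zk x k) * Complex.exp (-((thN x k N : ℝ) * I))) =ᶠ[atTop]
      (fun N => ((MN x k N : ℝ) : ℂ)) := by
    filter_upwards [eventually_gt_atTop k] with N hN
    rw [deriv_GN_polar h hN, mul_assoc, ← Complex.exp_add]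
    simp
  have h5 := h3.congr' h4
  constructor
  · have h6 := (Complex.continuous_im.tendsto _).comp h5
    have : (Complex.im ∘ fun N => ((MN x k N : ℝ) : ℂ)) = fun _ => (0:ℝ) := by
      funext N; simp
    rw [this] at h6
    exact tendsto_nhds_unique h6 tendsto_const_nhds
  · have h6 := (Complex.continuous_re.tendsto _).comp h5
    apply ge_of_tendsto' h6
    intro N
    simp only [Function.comp, Complex.ofReal_re]
    exact MN_nonneg x k N

lemma norm_one_add_I (t : ℝ) : ‖(1 + (t:ℂ) * I)‖ = √(1 + t^2) := by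
  rw [polar t, norm_mul, Complex.norm_exp_ofReal_mul_I, mul_one, Complex.norm_real, Real.norm_eq_abs,
    abs_of_nonneg (Real.sqrt_nonneg _)]

lemma norm_one_sub_I (t : ℝ) : ‖(1 - (t:ℂ) * I)‖ = √(1 + t^2) := by
  have := norm_one_add_I (-t)
  simp only [Complex.ofReal_neg, neg_mul, even_two, Even.neg_pow] at this
  rw [sub_eq_add_neg]; exact this

lemma norm_zk {x : ℕ → ℝ} (k : ℕ) : ‖zk x k‖ = √(x k) := by
  unfold zk; rw [norm_mul, norm_om, mul_one, Complex.norm_real, Real.norm_eq_abs, abs_of_nonneg (Real.sqrt_nonneg _)]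

lemma norm_uu_neg {x : ℕ → ℝ} (h : Near x) (k j : ℕ) :
    ‖uu x j (-(zk x k))‖ = (1 + tt x k j) * √(1 + (tt x k j)^2) * Real.exp (-(dd j * √(x k))) := by
  have := uu_neg_ray x h j (√(x k))
  unfold zk
  rw [this]
  rw [norm_mul, norm_mul, norm_mul, Complex.norm_exp_ofReal_mul_I, mul_one]
  have e1 : ‖((1 + √(x k) / √(x j) : ℝ) : ℂ)‖ = 1 + tt x k j := by
    rw [Complex.norm_real, Real.norm_eq_abs]
    have := tt_pos h k j
    unfold tt at this ⊢
    rw [abs_of_pos (by linarith)]
  rw [e1, norm_one_sub_I, Complex.norm_exp, Complex.ofReal_re]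
  rfl

lemma norm_GN_neg {x : ℕ → ℝ} (h : Near x) (k N : ℕ) :
    ‖GN x N (-(zk x k))‖ = √(x k) * Real.exp (-(2 * √N * √(x k))) *
      ∏ j ∈ range N, ((1 + tt x k j) * √(1 + (tt x k j)^2)) := by
  unfold GN
  rw [norm_mul, norm_mul, norm_neg, norm_zk, norm_prod, prod_congr rfl (fun j _ => norm_uu_neg h k j),
    prod_mul_distrib, ← Real.exp_sum]
  have e0 : (-(zk x k))^2 = -(x k : ℂ) * I := by
    unfold zk
    rw [neg_sq, mul_pow, om_sq, ← Complex.ofReal_pow, Real.sq_sqrt (h.pos k).le]; ring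
  have e1 : ‖Complex.exp (π * (-(zk x k))^2 / 2)‖ = 1 := by
    rw [e0, Complex.norm_exp]
    have : (π * (-(x k : ℂ) * I) / 2).re = 0 := by
      have : (π * (-(x k : ℂ) * I) / 2) = (((-(π * x k / 2)) : ℝ) : ℂ) * I := by push_cast; ring
      rw [this]; simp
    rw [this, Real.exp_zero]
  have e2 : ∑ j ∈ range N, -(dd j * √(x k)) = -(2 * √N * √(x k)) := by
    rw [sum_neg_distrib, ← sum_mul, sum_dd]
  rw [e1, e2]
  ring

lemma norm_deriv_GN {x : ℕ → ℝ} (h : Near x) {k N : ℕ} (hk : k < N) : ‖deriv (GN x N) (zk x k)‖ = MN x k N := by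
  rw [deriv_GN_polar h hk, norm_mul, Complex.norm_exp_ofReal_mul_I, mul_one, Complex.norm_real, Real.norm_eq_abs,
    abs_of_nonneg (MN_nonneg x k N)]

/-- product formula for the moduli -/
lemma norm_mul_GN {x : ℕ → ℝ} (h : Near x) {k N : ℕ} (hk : k < N) :
    ‖deriv (GN x N) (zk x k)‖ * ‖GN x N (-(zk x k))‖ =
      4 * √(x k) * ∏ j ∈ (range N).erase k, |1 - (x k / x j)^2| := by
  rw [norm_deriv_GN h hk, norm_GN_neg h k N]
  unfold MN
  rw [← mul_prod_erase (range N) (fun j => (1 + tt x k j) * √(1 + (tt x k j)^2)) (mem_range.2 hk)]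
  have e1 : tt x k k = 1 := by unfold tt; exact div_self (Real.sqrt_pos.2 (h.pos k)).ne'
  rw [e1]
  have e2 : ∏ j ∈ (range N).erase k, |1 - (x k / x j)^2| =
      (∏ j ∈ (range N).erase k, (|1 - tt x k j| * √(1 + (tt x k j)^2))) *
      ∏ j ∈ (range N).erase k, ((1 + tt x k j) * √(1 + (tt x k j)^2)) := by
    rw [← prod_mul_distrib]
    apply prod_congr rfl
    intro j _
    have ht := tt_pos h k j
    have e3 : (tt x k j)^2 = x k / x j := by
      unfold tt; rw [div_pow, Real.sq_sqrt (h.pos k).le, Real.sq_sqrt (h.pos j).le]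
    have e4 : √(1 + (tt x k j)^2) * √(1 + (tt x k j)^2) = 1 + (tt x k j)^2 := Real.mul_self_sqrt (by positivity)
    have e5 : 1 - (x k / x j)^2 = (1 - tt x k j) * ((1 + tt x k j) * (1 + (tt x k j)^2)) := by
      rw [← e3]; ring
    rw [e5, abs_mul, abs_of_pos (by positivity : 0 < (1 + tt x k j) * (1 + (tt x k j)^2))]
    calc |1 - tt x k j| * ((1 + tt x k j) * (1 + (tt x k j)^2)) =
        |1 - tt x k j| * ((1 + tt x k j) * (√(1 + (tt x k j)^2) * √(1 + (tt x k j)^2))) := by rw [e4]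
      _ = _ := by ring
  rw [e2]
  have e6 : √2 * Real.exp (2 * √N * √(x k)) * (√(x k) * Real.exp (-(2 * √N * √(x k)))) * ((1+1) * √(1+1^2)) = 4 * √(x k) := by
    have a : Real.exp (2 * √N * √(x k)) * Real.exp (-(2 * √N * √(x k))) = 1 := by
      rw [← Real.exp_add]; simp
    have b : √(2:ℝ) * √2 = 2 := Real.mul_self_sqrt (by norm_num)
    norm_num
    calc √2 * Real.exp (2 * √N * √(x k)) * (√(x k) * Real.exp (-(2 * √N * √(x k)))) * (2 * √2)
        = 2 * (√2 * √2) * (Real.exp (2 * √N * √(x k)) * Real.exp (-(2 * √N * √(x k)))) * √(x k) := by ring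
      _ = 4 * √(x k) := by rw [a, b]; ring
  calc _ = (√2 * Real.exp (2 * √N * √(x k)) * (√(x k) * Real.exp (-(2 * √N * √(x k)))) * ((1+1) * √(1+1^2))) *
      ((∏ j ∈ (range N).erase k, (|1 - tt x k j| * √(1 + (tt x k j)^2))) *
      ∏ j ∈ (range N).erase k, ((1 + tt x k j) * √(1 + (tt x k j)^2))) := by ring
    _ = _ := by rw [e6]

/-- factorisation of the quadratic factor -/
lemma quad_factor (w : ℂ) : 1 + ((√2 : ℝ) : ℂ) * w + w^2 = (w - om) * (w - (starRingEnd ℂ) om) := by
  have e1 : om + (starRingEnd ℂ) om = -((√2 : ℝ) : ℂ) := by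
    unfold om
    rw [map_div₀, Complex.conj_ofReal, ← add_div, div_eq_iff r2_ne]
    simp only [map_add, map_neg, map_one, Complex.conj_I]
    have := r2_sq
    linear_combination this
  have e2 : om * (starRingEnd ℂ) om = 1 := by
    rw [Complex.mul_conj, Complex.normSq_eq_norm_sq, norm_om]; norm_num
  linear_combination w * e1 - e2

lemma uu_eq_zero_iff {x : ℕ → ℝ} (h : Near x) (j : ℕ) (z : ℂ) :
    uu x j z = 0 ↔ z = zk x j ∨ z = (starRingEnd ℂ) (zk x j) := by
  have hx : ((√(x j) : ℝ) : ℂ) ≠ 0 := by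
    rw [Complex.ofReal_ne_zero]; exact (Real.sqrt_pos.2 (h.pos j)).ne'
  unfold uu
  rw [mul_eq_zero, or_iff_left (Complex.exp_ne_zero _), quad_factor, mul_eq_zero]
  have e : (starRingEnd ℂ) (zk x j) = ((√(x j) : ℝ) : ℂ) * (starRingEnd ℂ) om := by
    unfold zk; rw [map_mul, Complex.conj_ofReal]
  rw [e]
  unfold zk
  constructor
  · rintro (h1 | h1)
    · left; rw [sub_eq_zero, div_eq_iff hx] at h1; rw [h1]; ring
    · right; rw [sub_eq_zero, div_eq_iff hx] at h1; rw [h1]; ring
  · rintro (h1 | h1)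
    · left; rw [sub_eq_zero, div_eq_iff hx, h1]; ring
    · right; rw [sub_eq_zero, div_eq_iff hx, h1]; ring

/-- zero set of `G` -/
lemma GG_eq_zero_iff {x : ℕ → ℝ} (h : Near x) (z : ℂ) :
    GG x z = 0 ↔ z = 0 ∨ ∃ k, z = zk x k ∨ z = (starRingEnd ℂ) (zk x k) := by
  constructor
  · intro h0
    by_contra hc
    push Not at hc
    obtain ⟨h1, h2⟩ := hc
    have h3 : ∀ j, uu x j z ≠ 0 := fun j hj => by
      rcases (uu_eq_zero_iff h j z).1 hj with h4 | h4
      · exact (h2 j).1 h4
      · exact (h2 j).2 h4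
    obtain ⟨C, hC⟩ := uu_bound h (norm_nonneg z)
    have hs : Summable (fun j : ℕ => ‖uu x j z - 1‖) :=
      Summable.of_nonneg_of_le (fun _ => norm_nonneg _) (fun j => hC j z le_rfl) (summable_pow32.mul_left _)
    have h5 : ∏' j, (1 + (uu x j z - 1)) ≠ 0 :=
      tprod_one_add_ne_zero_of_summable (fun j => by simpa using h3 j) hs
    unfold GG at h0
    simp only [add_sub_cancel] at h5
    rcases mul_eq_zero.1 h0 with h6 | h6
    · rcases mul_eq_zero.1 h6 with h7 | h7
      · exact h1 h7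
      · exact Complex.exp_ne_zero _ h7
    · exact h5 h6
  · rintro (h1 | ⟨k, h1⟩)
    · subst h1; unfold GG; simp
    · have h2 := tendsto_GN h z
      have h3 : (fun N => GN x N z) =ᶠ[atTop] fun _ => (0:ℂ) := by
        filter_upwards [eventually_gt_atTop k] with N hN
        unfold GN
        rw [prod_eq_zero (mem_range.2 hN) ((uu_eq_zero_iff h k z).2 h1), mul_zero]
      exact tendsto_nhds_unique (h2.congr' h3) tendsto_const_nhds

/-- conjugation symmetry -/
lemma GG_conj {x : ℕ → ℝ} (h : Near x) (z : ℂ) : GG x ((starRingEnd ℂ) z) = (starRingEnd ℂ) (GG x z) := by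
  have h1 : ∀ N, GN x N ((starRingEnd ℂ) z) = (starRingEnd ℂ) (GN x N z) := by
    intro N
    unfold GN uu
    have c2 : (starRingEnd ℂ) 2 = 2 := Complex.conj_ofNat 2
    simp only [map_mul, map_prod, ← Complex.exp_conj, map_div₀, map_pow, Complex.conj_ofReal, map_add, map_one,
      map_neg, c2]
  have h2 := tendsto_GN h ((starRingEnd ℂ) z)
  simp only [h1] at h2
  have h3 := (Complex.continuous_conj.tendsto _).comp (tendsto_GN h z)
  exact tendsto_nhds_unique h2 h3

lemma deriv_GG_conj {x : ℕ → ℝ} (h : Near x) (z : ℂ) :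
    deriv (GG x) ((starRingEnd ℂ) z) = (starRingEnd ℂ) (deriv (GG x) z) := by
  have h1 := ((differentiable_GG h) z).hasDerivAt.conj_conj
  have e : (starRingEnd ℂ) ∘ GG x ∘ (starRingEnd ℂ) = GG x := by
    funext w
    simp only [Function.comp]
    rw [GG_conj h, Complex.conj_conj]
  rw [e] at h1
  exact h1.deriv

lemma deriv_GG_zero {x : ℕ → ℝ} (h : Near x) : deriv (GG x) 0 = 1 := by
  have h1 := tendsto_deriv_GN h 0
  have h2 : ∀ N, deriv (GN x N) 0 = 1 := by
    intro N
    set R : ℂ → ℂ := fun z => Complex.exp (π * z^2 / 2) * ∏ j ∈ range N, uu x j z with hR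
    have hRd : Differentiable ℂ R := by
      have h1 : Differentiable ℂ (fun z : ℂ => Complex.exp (π * z^2 / 2)) := by fun_prop
      exact h1.mul (Differentiable.fun_finsetProd (fun j _ => differentiable_uu x j))
    have e : GN x N = fun z => id z * R z := by
      funext z; unfold GN; rw [hR]; simp only [id]; ring
    have h3 := (hasDerivAt_id (0:ℂ)).fun_mul (hRd 0).hasDerivAt
    rw [e, h3.deriv, hR]
    simp [uu]
  simp only [h2] at h1
  exact (tendsto_nhds_unique h1 tendsto_const_nhds)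

end Q66.FF
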