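import Pool.Agent.Q66.FF10

/-! Force field counterexample, part 11: comparison of sums of logarithms with integrals. -/

namespace Q66.FF

open Real Finset Filter Topology Complex

/-- the sector condition -/
structure Sec (ζ : ℂ) : Prop where
  one : 1 ≤ ‖ζ‖
  sec : ∀ v : ℝ, 0 ≤ v → (1/10) * (v + ‖ζ‖) ≤ ‖(v:ℂ) + ζ‖

lemma Sec.pos {ζ : ℂ} (h : Sec ζ) {v : ℝ} (hv : 0 ≤ v) : 0 < ‖(v:ℂ) + ζ‖ := by
  have := h.sec v hv; have := h.one; linarith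

lemma Sec.ne {ζ : ℂ} (h : Sec ζ) {v : ℝ} (hv : 0 ≤ v) : (v:ℂ) + ζ ≠ 0 := norm_pos_iff.1 (h.pos hv)

lemma Sec.slit {ζ : ℂ} (h : Sec ζ) {v : ℝ} (hv : 0 ≤ v) : (v:ℂ) + ζ ∈ slitPlane := by
  rw [mem_slitPlane_iff]
  by_contra hc
  push Not at hc
  obtain ⟨h1, h2⟩ := hc
  have h3 := h.pos (v := v - ((v:ℂ)+ζ).re) (by linarith)
  have h4 : (((v - ((v:ℂ)+ζ).re : ℝ)) : ℂ) + ζ = 0 := by
    apply Complex.ext
    · simp
    · simp at h2 ⊢; exact h2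
  rw [h4] at h3; simp at h3

noncomputable def bb (ζ : ℂ) (t : ℝ) : ℂ := Complex.log ((√t : ℝ) + ζ) - ((Real.log t / 2 : ℝ) : ℂ)
noncomputable def b1 (ζ : ℂ) (t : ℝ) : ℂ := -ζ / (2 * t * ((√t : ℝ) + ζ))
noncomputable def b2 (ζ : ℂ) (t : ℝ) : ℂ := ζ * (3 * (√t : ℝ) + 2 * ζ) / (4 * t^2 * ((√t : ℝ) + ζ)^2)
noncomputable def BL (ζ : ℂ) (t : ℝ) : ℂ := t * bb ζ t + ζ * (√t : ℝ) - ζ^2 * Complex.log ((√t : ℝ) + ζ)

lemma hasDeriv_sqrtC {t : ℝ} (ht : 0 < t) (ζ : ℂ) :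
    HasDerivAt (fun t : ℝ => ((√t : ℝ) : ℂ) + ζ) (1 / (2 * (√t : ℝ))) t := by
  have := (Real.hasDerivAt_sqrt ht.ne').ofReal_comp
  refine (this.add_const ζ).congr_deriv ?_
  push_cast; ring

lemma hasDeriv_logC {ζ : ℂ} (h : Sec ζ) {t : ℝ} (ht : 0 < t) :
    HasDerivAt (fun t : ℝ => Complex.log ((√t : ℝ) + ζ)) (1 / (2 * (√t : ℝ)) / ((√t : ℝ) + ζ)) t :=
  (hasDeriv_sqrtC ht ζ).clog_real (h.slit (Real.sqrt_nonneg _))

lemma hasDeriv_bb {ζ : ℂ} (h : Sec ζ) {t : ℝ} (ht : 0 < t) : HasDerivAt (bb ζ) (b1 ζ t) t := by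
  have h1 : HasDerivAt (fun t : ℝ => ((Real.log t / 2 : ℝ) : ℂ)) ((t⁻¹ / 2 : ℝ) : ℂ) t :=
    ((Real.hasDerivAt_log ht.ne').div_const 2).ofReal_comp
  refine ((hasDeriv_logC h ht).fun_sub h1).congr_deriv ?_
  unfold b1
  have hs : ((√t : ℝ) : ℂ) ≠ 0 := by rw [Complex.ofReal_ne_zero]; exact (Real.sqrt_pos.2 ht).ne'
  have ht' : (t : ℂ) ≠ 0 := by rw [Complex.ofReal_ne_zero]; exact ht.ne'
  have hn := h.ne (Real.sqrt_nonneg t)
  have e : (t : ℂ) = ((√t : ℝ) : ℂ)^2 := by rw [← Complex.ofReal_pow, Real.sq_sqrt ht.le]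
  push_cast
  rw [e]
  field_simp
  ring

lemma hasDeriv_BB {ζ : ℂ} (h : Sec ζ) {t : ℝ} (ht : 0 < t) : HasDerivAt (BL ζ) (bb ζ t) t := by
  have h0 : HasDerivAt (fun t : ℝ => (t : ℂ)) 1 t := Complex.ofRealCLM.hasDerivAt
  have h1 := h0.fun_mul (hasDeriv_bb h ht)
  have h2 : HasDerivAt (fun t : ℝ => ζ * ((√t : ℝ) : ℂ)) (ζ * (1 / (2 * (√t : ℝ)))) t := by
    have := (Real.hasDerivAt_sqrt ht.ne').ofReal_comp
    exact (this.const_mul ζ).congr_deriv (by push_cast; ring)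
  have h3 := (hasDeriv_logC h ht).const_mul (ζ^2)
  refine ((h1.fun_add h2).fun_sub h3).congr_deriv ?_
  unfold b1
  have hs : ((√t : ℝ) : ℂ) ≠ 0 := by rw [Complex.ofReal_ne_zero]; exact (Real.sqrt_pos.2 ht).ne'
  have ht' : (t : ℂ) ≠ 0 := by rw [Complex.ofReal_ne_zero]; exact ht.ne'
  have hn := h.ne (Real.sqrt_nonneg t)
  have e : (t : ℂ) = ((√t : ℝ) : ℂ)^2 := by rw [← Complex.ofReal_pow, Real.sq_sqrt ht.le]
  rw [e]
  field_simp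
  ring

lemma hasDeriv_b1 {ζ : ℂ} (h : Sec ζ) {t : ℝ} (ht : 0 < t) : HasDerivAt (b1 ζ) (b2 ζ t) t := by
  have hs : ((√t : ℝ) : ℂ) ≠ 0 := by rw [Complex.ofReal_ne_zero]; exact (Real.sqrt_pos.2 ht).ne'
  have ht' : (t : ℂ) ≠ 0 := by rw [Complex.ofReal_ne_zero]; exact ht.ne'
  have hn := h.ne (Real.sqrt_nonneg t)
  have h0 : HasDerivAt (fun t : ℝ => (t : ℂ)) 1 t := Complex.ofRealCLM.hasDerivAt
  have h1 := (h0.const_mul 2).fun_mul (hasDeriv_sqrtC ht ζ)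
  have h2 := (hasDerivAt_const t (-ζ)).fun_div h1 (by
    apply mul_ne_zero (mul_ne_zero two_ne_zero ht') hn)
  refine h2.congr_deriv ?_
  unfold b2
  have e : (t : ℂ) = ((√t : ℝ) : ℂ)^2 := by rw [← Complex.ofReal_pow, Real.sq_sqrt ht.le]
  rw [e]
  field_simp
  ring

lemma norm_b2_le {ζ : ℂ} (h : Sec ζ) {t : ℝ} (ht : 0 < t) : ‖b2 ζ t‖ ≤ 75 / t^2 := by
  unfold b2
  have hp := h.pos (Real.sqrt_nonneg t)
  have hsec := h.sec _ (Real.sqrt_nonneg t)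
  have hr := Real.sqrt_nonneg t
  set r := √t
  have h1 : ‖3 * (r:ℂ) + 2 * ζ‖ ≤ 3 * (r + ‖ζ‖) := by
    calc ‖3 * (r:ℂ) + 2 * ζ‖ ≤ ‖3 * (r:ℂ)‖ + ‖2 * ζ‖ := norm_add_le _ _
      _ = 3 * r + 2 * ‖ζ‖ := by
        rw [norm_mul, norm_mul, Complex.norm_real, Real.norm_eq_abs, abs_of_nonneg hr]; simp
      _ ≤ _ := by linarith [norm_nonneg ζ]
  rw [norm_div, norm_mul, norm_mul, norm_mul, norm_pow, norm_pow, Complex.norm_real, Real.norm_eq_abs, abs_of_pos ht]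
  have h2 : ‖(4:ℂ)‖ = 4 := by simp
  rw [h2, div_le_div_iff₀ (by positivity) (by positivity)]
  set q := ‖(r:ℂ) + ζ‖
  have ha : 0 ≤ ‖ζ‖ := norm_nonneg _
  have h3 : ((1/10) * (r + ‖ζ‖))^2 ≤ q^2 := by gcongr
  have h4 : ‖ζ‖ * ‖3 * (r:ℂ) + 2 * ζ‖ ≤ 3 * (r + ‖ζ‖)^2 := by
    calc ‖ζ‖ * ‖3 * (r:ℂ) + 2 * ζ‖ ≤ (r + ‖ζ‖) * (3 * (r + ‖ζ‖)) := by
          apply mul_le_mul (by linarith) h1 (norm_nonneg _) (by linarith)
      _ = _ := by ring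
  have h5 : 0 < t^2 := by positivity
  nlinarith

/-- complex midpoint estimate -/
lemma cmid {ζ : ℂ} (h : Sec ζ) {m : ℝ} (hm : 1/2 < m) :
    ‖bb ζ m - (BL ζ (m+1/2) - BL ζ (m-1/2))‖ ≤ 75 / (m-1/2)^2 := by
  set M : ℝ := 75 / (m-1/2)^2 with hM
  have hM0 : 0 ≤ M := by positivity
  have hb2 : ∀ t ∈ Set.Icc (m-1/2) (m+1/2), ‖b2 ζ t‖ ≤ M := by
    intro t ht
    refine (norm_b2_le h (by linarith [ht.1])).trans ?_
    have h0 : 0 < m - 1/2 := by linarith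
    apply div_le_div_of_nonneg_left (by norm_num) (by positivity)
    exact pow_le_pow_left₀ h0.le ht.1 2
  have hlip : ∀ s ∈ Set.Icc (0:ℝ) (1/2), ‖b1 ζ (m+s) - b1 ζ (m-s)‖ ≤ M := by
    intro s hs
    have := (convex_Icc (m-1/2) (m+1/2)).norm_image_sub_le_of_norm_hasDerivWithin_le
      (f := b1 ζ) (f' := b2 ζ) (C := M) (x := m-s) (y := m+s)
      (fun u hu => (hasDeriv_b1 h (by linarith [hu.1])).hasDerivWithinAt) hb2
      ⟨by linarith [hs.2], by linarith [hs.1]⟩ ⟨by linarith [hs.1], by linarith [hs.2]⟩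
    refine this.trans ?_
    rw [show m + s - (m - s) = 2 * s by ring, Real.norm_eq_abs, abs_of_nonneg (by linarith [hs.1])]
    nlinarith [hs.2]
  -- k(s) = b(m+s) + b(m-s) - 2 b(m)
  have hkd : ∀ s ∈ Set.Icc (0:ℝ) (1/2), HasDerivAt (fun s => bb ζ (m+s) + bb ζ (m-s)) (b1 ζ (m+s) - b1 ζ (m-s)) s := by
    intro s hs
    have h1 : HasDerivAt (fun s => bb ζ (m + s)) (b1 ζ (m+s)) s :=
      (hasDeriv_bb h (by linarith [hs.1])).comp_const_add m s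
    have h2 : HasDerivAt (fun s => bb ζ (m - s)) (-(b1 ζ (m-s))) s :=
      (hasDeriv_bb h (by linarith [hs.2])).comp_const_sub m s
    exact (h1.fun_add h2).congr_deriv (by ring)
  have hk : ∀ s ∈ Set.Icc (0:ℝ) (1/2), ‖bb ζ (m+s) + bb ζ (m-s) - 2 * bb ζ m‖ ≤ M := by
    intro s hs
    have := (convex_Icc (0:ℝ) (1/2)).norm_image_sub_le_of_norm_hasDerivWithin_le
      (f := fun s => bb ζ (m+s) + bb ζ (m-s)) (f' := fun s => b1 ζ (m+s) - b1 ζ (m-s)) (C := M) (x := 0) (y := s)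
      (fun u hu => (hkd u hu).hasDerivWithinAt) hlip ⟨le_rfl, by norm_num⟩ hs
    simp only [add_zero, sub_zero] at this
    have e : bb ζ (m+s) + bb ζ (m-s) - 2 * bb ζ m = bb ζ (m+s) + bb ζ (m-s) - (bb ζ m + bb ζ m) := by ring
    rw [e]
    refine this.trans ?_
    rw [Real.norm_eq_abs, abs_of_nonneg hs.1]
    nlinarith [hs.2]
  have hhd : ∀ s ∈ Set.Icc (0:ℝ) (1/2), HasDerivAt (fun s => BL ζ (m+s) - BL ζ (m-s) - 2 * s * bb ζ m)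
      (bb ζ (m+s) + bb ζ (m-s) - 2 * bb ζ m) s := by
    intro s hs
    have h1 : HasDerivAt (fun s => BL ζ (m + s)) (bb ζ (m+s)) s :=
      (hasDeriv_BB h (by linarith [hs.1])).comp_const_add m s
    have h2 : HasDerivAt (fun s => BL ζ (m - s)) (-(bb ζ (m-s))) s :=
      (hasDeriv_BB h (by linarith [hs.2])).comp_const_sub m s
    have h3 : HasDerivAt (fun s : ℝ => 2 * (s : ℂ) * bb ζ m) (2 * bb ζ m) s := by
      have h0 : HasDerivAt (fun t : ℝ => (t : ℂ)) 1 s := Complex.ofRealCLM.hasDerivAt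
      exact ((h0.const_mul 2).mul_const (bb ζ m)).congr_deriv (by ring)
    exact ((h1.fun_sub h2).fun_sub h3).congr_deriv (by ring)
  have := (convex_Icc (0:ℝ) (1/2)).norm_image_sub_le_of_norm_hasDerivWithin_le
      (f := fun s => BL ζ (m+s) - BL ζ (m-s) - 2 * s * bb ζ m)
      (f' := fun s => bb ζ (m+s) + bb ζ (m-s) - 2 * bb ζ m) (C := M) (x := 0) (y := 1/2)
      (fun u hu => (hhd u hu).hasDerivWithinAt) hk ⟨le_rfl, by norm_num⟩ ⟨by norm_num, le_rfl⟩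
  have e : (BL ζ (m+1/2) - BL ζ (m-1/2) - 2 * ((1/2 : ℝ) : ℂ) * bb ζ m) -
      (BL ζ (m+0) - BL ζ (m-0) - 2 * ((0 : ℝ) : ℂ) * bb ζ m) = -(bb ζ m - (BL ζ (m+1/2) - BL ζ (m-1/2))) := by
    simp
  rw [e, norm_neg] at this
  refine this.trans ?_
  rw [sub_zero, Real.norm_eq_abs, abs_of_pos (by norm_num)]
  linarith

end Q66.FF
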