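import Pool.Agent.Q66.FF11

/-! Force field counterexample, part 12: asymptotics of the logarithmic sums in a sector. -/

namespace Q66.FF

open Real Finset Filter Topology Complex

lemma E1 : ∃ C : ℝ, ∀ ζ : ℂ, Sec ζ → ∀ N : ℕ,
    ‖∑ j ∈ range N, bb ζ (x0 j) - (BL ζ (N + 1/3) - BL ζ (1/3))‖ ≤ C := by
  have hs : Summable (fun j : ℕ => 75 / ((j:ℝ) + 1/3)^2) := by
    have h1 : Summable (fun j : ℕ => 75 * 9 * (1 / ((j:ℝ)+1)^(3/2:ℝ))) := summable_pow32.mul_left _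
    refine Summable.of_nonneg_of_le (fun j => by positivity) (fun j => ?_) h1
    have hn : (0:ℝ) ≤ j := Nat.cast_nonneg j
    rw [mul_one_div, div_le_div_iff₀ (by positivity) (by positivity)]
    have h2 : ((j:ℝ)+1)^(3/2:ℝ) ≤ ((j:ℝ)+1)^(2:ℝ) := Real.rpow_le_rpow_of_exponent_le (by linarith) (by norm_num)
    rw [Real.rpow_two] at h2
    nlinarith
  refine ⟨∑' j : ℕ, 75 / ((j:ℝ) + 1/3)^2, fun ζ h N => ?_⟩
  have e : BL ζ (N + 1/3) - BL ζ (1/3) = ∑ j ∈ range N, (BL ζ ((j:ℝ) + 5/6 + 1/2) - BL ζ ((j:ℝ) + 5/6 - 1/2)) := by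
    induction N with
    | zero => simp
    | succ n ih =>
      rw [sum_range_succ, ← ih]
      have e1 : (n:ℝ) + 5/6 + 1/2 = ((n+1 : ℕ):ℝ) + 1/3 := by push_cast; ring
      have e2 : (n:ℝ) + 5/6 - 1/2 = (n:ℝ) + 1/3 := by ring
      rw [e1, e2]; ring
  rw [e, ← sum_sub_distrib]
  refine (norm_sum_le _ _).trans ?_
  refine le_trans (sum_le_sum (g := fun j : ℕ => 75 / ((j:ℝ) + 1/3)^2) ?_) (hs.sum_le_tsum _ (fun j _ => by positivity))
  intro j _
  have hn : (0:ℝ) ≤ j := Nat.cast_nonneg j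
  have := cmid h (m := (j:ℝ) + 5/6) (by linarith)
  have e2 : (j:ℝ) + 5/6 - 1/2 = (j:ℝ) + 1/3 := by ring
  rw [e2] at this
  rw [e2]
  exact this

noncomputable def bet (a t : ℝ) : ℝ := a / (2 * √t^2 * (√t + a)) + 20 * a / (√t * (√t + a)^2)
noncomputable def Xi (a t : ℝ) : ℝ := Real.log √t - Real.log (√t + a) - 40 * a / (√t + a)

lemma hasDeriv_Xi {a t : ℝ} (ha : 0 < a) (ht : 0 < t) : HasDerivAt (Xi a) (bet a t) t := by
  have hs : 0 < √t := Real.sqrt_pos.2 ht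
  have h0 := Real.hasDerivAt_sqrt ht.ne'
  have h1 := h0.log hs.ne'
  have h2 := (h0.add_const a).log (by positivity)
  have h3 := (hasDerivAt_const t (40 * a)).fun_div (h0.add_const a) (by positivity)
  refine ((h1.fun_sub h2).fun_sub h3).congr_deriv ?_
  unfold bet
  field_simp
  ring

lemma bet_anti {a s t : ℝ} (ha : 0 < a) (hs : 0 < s) (hst : s ≤ t) : bet a t ≤ bet a s := by
  have h1 : √s ≤ √t := Real.sqrt_le_sqrt hst
  have h0 : 0 < √s := Real.sqrt_pos.2 hs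
  unfold bet
  gcongr

lemma norm_b1_le {ζ : ℂ} (h : Sec ζ) {t : ℝ} (ht : 0 < t) : ‖b1 ζ t‖ ≤ bet ‖ζ‖ t := by
  have hr : 0 < √t := Real.sqrt_pos.2 ht
  have ha : 1 ≤ ‖ζ‖ := h.one
  have hsec := h.sec _ hr.le
  have hq := h.pos hr.le
  have hq2 : √t - ‖ζ‖ ≤ ‖((√t:ℝ):ℂ) + ζ‖ := by
    have := norm_sub_le (((√t:ℝ):ℂ) + ζ) ζ
    rw [add_sub_cancel_right, Complex.norm_real, Real.norm_eq_abs, abs_of_pos hr] at this
    linarith
  have hq3 : ‖ζ‖ - √t ≤ ‖((√t:ℝ):ℂ) + ζ‖ := by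
    have := norm_sub_le (((√t:ℝ):ℂ) + ζ) ((√t:ℝ):ℂ)
    rw [add_sub_cancel_left, Complex.norm_real, Real.norm_eq_abs, abs_of_pos hr] at this
    linarith
  have et : √t^2 = t := Real.sq_sqrt ht.le
  unfold b1 bet
  rw [norm_div, norm_neg, norm_mul, norm_mul, Complex.norm_real, Real.norm_eq_abs, abs_of_pos ht]
  have h2 : ‖(2:ℂ)‖ = 2 := by simp
  rw [h2, et]
  set r := √t
  set a := ‖ζ‖
  set q := ‖(r:ℂ) + ζ‖
  have hra : 0 < r + a := by linarith
  -- (r + a - q)(r+a) ≤ 4 r a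
  have key : (r + a - q) * (r + a) ≤ 4 * r * a := by
    rcases le_total r a with hle | hle
    · have : r + a - q ≤ 2 * r := by linarith
      have h3 : (r + a - q) * (r + a) ≤ 2 * r * (r + a) := mul_le_mul_of_nonneg_right this hra.le
      nlinarith
    · have : r + a - q ≤ 2 * a := by linarith
      have h3 : (r + a - q) * (r + a) ≤ 2 * a * (r + a) := mul_le_mul_of_nonneg_right this hra.le
      nlinarith
  have k2 : a / q ≤ a / (r + a) + 40 * r * a / (r + a)^2 := by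
    rw [div_add_div _ _ hra.ne' (by positivity), div_le_div_iff₀ hq (by positivity)]
    have h5 : (r + a - q) * (r+a) * (r+a) ≤ 4 * r * a * (10 * q) := by
      have : r + a ≤ 10 * q := by linarith
      calc (r + a - q) * (r+a) * (r+a) ≤ 4 * r * a * (r + a) := mul_le_mul_of_nonneg_right key hra.le
        _ ≤ 4 * r * a * (10 * q) := by gcongr
    have h6 : 0 ≤ a * (r + a) := by positivity
    nlinarith [mul_le_mul_of_nonneg_left h5 h6, mul_nonneg (mul_nonneg hr.le (by linarith : (0:ℝ) ≤ a)) (mul_nonneg hr.le hq.le), mul_nonneg h6 (mul_nonneg hr.le hq.le)]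
  have e1 : a / (2 * t * q) = (a / q) / (2 * t) := by field_simp
  have e2 : a / (2 * t * (r + a)) + 20 * a / (r * (r + a)^2) = (a / (r + a) + 40 * r * a / (r + a)^2) / (2 * t) := by
    rw [← et]; field_simp; ring
  rw [e1, e2]
  gcongr

lemma sum_bet {a : ℝ} (ha : 0 < a) (N : ℕ) :
    ∑ j ∈ range (N+1), bet a ((j:ℝ) + 17/24) ≤ bet a (17/24) + Xi a ((N:ℝ) + 17/24) - Xi a (17/24) := by
  induction N with
  | zero => simp
  | succ n ih =>
    rw [sum_range_succ]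
    have hn : (0:ℝ) ≤ n := Nat.cast_nonneg n
    obtain ⟨ξ, h1, e1⟩ := exists_hasDerivAt_eq_slope (Xi a) (bet a) (show (n:ℝ) + 17/24 < (n:ℝ) + 1 + 17/24 by linarith)
      (fun t ht => (hasDeriv_Xi ha (by linarith [ht.1] : 0 < t)).continuousAt.continuousWithinAt)
      (fun t ht => hasDeriv_Xi ha (by linarith [ht.1]))
    have e2 : Xi a ((n:ℝ) + 1 + 17/24) - Xi a ((n:ℝ) + 17/24) = bet a ξ := by
      rw [e1]; ring
    have h3 : bet a ((n:ℝ) + 1 + 17/24) ≤ bet a ξ := bet_anti ha (by linarith [h1.1]) h1.2.le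
    push_cast
    linarith

lemma sum_bet_le {a : ℝ} (ha : 1 ≤ a) (N : ℕ) :
    ∑ j ∈ range N, bet a ((j:ℝ) + 17/24) ≤ Real.log a + 80 := by
  have ha0 : 0 < a := by linarith
  have hmono : ∑ j ∈ range N, bet a ((j:ℝ) + 17/24) ≤ ∑ j ∈ range (N+1), bet a ((j:ℝ) + 17/24) := by
    rw [sum_range_succ]
    have : 0 ≤ bet a ((N:ℝ) + 17/24) := by unfold bet; positivity
    linarith
  refine hmono.trans ((sum_bet ha0 N).trans ?_)
  have hXi : Xi a ((N:ℝ) + 17/24) ≤ 0 := by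
    unfold Xi
    have hs : 0 < √((N:ℝ) + 17/24) := Real.sqrt_pos.2 (by positivity)
    have h1 : Real.log √((N:ℝ) + 17/24) ≤ Real.log (√((N:ℝ) + 17/24) + a) := Real.log_le_log hs (by linarith)
    have h2 : 0 ≤ 40 * a / (√((N:ℝ) + 17/24) + a) := by positivity
    linarith
  have hr1 : (0.84:ℝ) ≤ √(17/24) := by apply Real.le_sqrt_of_sq_le; norm_num
  have hr2 : √(17/24) ≤ (1:ℝ) := by apply Real.sqrt_le_iff.2; constructor <;> norm_num
  have hr0 : 0 < √(17/24 : ℝ) := by linarith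
  have et : √(17/24:ℝ)^2 = 17/24 := Real.sq_sqrt (by norm_num)
  have hb : bet a (17/24) ≤ 30 := by
    unfold bet
    rw [et]
    set r := √(17/24:ℝ)
    have h1 : a / (2 * (17/24) * (r + a)) ≤ 1 := by
      rw [div_le_one (by positivity)]; nlinarith
    have h2 : 20 * a / (r * (r + a)^2) ≤ 29 := by
      rw [div_le_iff₀ (by positivity)]
      have : 20 * a ≤ 29 * (0.84 * a^2) := by nlinarith
      have h3 : 0.84 * a^2 ≤ r * (r+a)^2 := by
        apply mul_le_mul hr1 _ (by positivity) hr0.le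
        nlinarith
      linarith
    linarith
  have hx : -Xi a (17/24) ≤ Real.log a + 50 := by
    unfold Xi
    have h1 : Real.log (√(17/24) + a) ≤ Real.log (2 * a) := Real.log_le_log (by positivity) (by linarith)
    rw [Real.log_mul (by norm_num) ha0.ne'] at h1
    have h2 : Real.log 2 ≤ 1 := by have := Real.log_two_lt_d9; linarith
    have h3 : -1 ≤ Real.log √(17/24) := by
      have := Real.one_sub_inv_le_log_of_pos hr0
      have h4 : (√(17/24:ℝ))⁻¹ ≤ 2 := by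
        rw [inv_le_comm₀ hr0 (by norm_num)]; linarith
      linarith
    have h4 : 40 * a / (√(17/24) + a) ≤ 40 := by
      rw [div_le_iff₀ (by positivity)]; nlinarith
    linarith
  linarith

lemma E2 {ζ : ℂ} (h : Sec ζ) {x : ℕ → ℝ} (hx : Near x) (N : ℕ) :
    ‖∑ j ∈ range N, bb ζ (x j) - ∑ j ∈ range N, bb ζ (x0 j)‖ ≤ (1/8) * (Real.log ‖ζ‖ + 80) := by
  rw [← sum_sub_distrib]
  refine (norm_sum_le _ _).trans ?_
  have h1 : ∀ j ∈ range N, ‖bb ζ (x j) - bb ζ (x0 j)‖ ≤ (1/8) * bet ‖ζ‖ ((j:ℝ) + 17/24) := by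
    intro j _
    have hn : (0:ℝ) ≤ j := Nat.cast_nonneg j
    have := (convex_Icc ((j:ℝ) + 17/24) ((j:ℝ) + 23/24)).norm_image_sub_le_of_norm_hasDerivWithin_le
      (f := bb ζ) (f' := b1 ζ) (C := bet ‖ζ‖ ((j:ℝ) + 17/24)) (x := x0 j) (y := x j)
      (fun u hu => (hasDeriv_bb h (by linarith [hu.1])).hasDerivWithinAt)
      (fun u hu => (norm_b1_le h (by linarith [hu.1])).trans (bet_anti (by linarith [h.one]) (by linarith) hu.1))
      ⟨near_x0.lo j, near_x0.hi j⟩ ⟨hx.lo j, hx.hi j⟩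
    refine this.trans ?_
    rw [mul_comm]
    have h2 : ‖x j - x0 j‖ ≤ 1/8 := hx j
    have h3 : 0 ≤ bet ‖ζ‖ ((j:ℝ) + 17/24) := by unfold bet; positivity
    gcongr
  refine (sum_le_sum h1).trans ?_
  rw [← mul_sum]
  have := sum_bet_le h.one N
  gcongr

end Q66.FF
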