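import Pool.Agent.Q66.FF12

/-! Force field counterexample, part 13: end terms. -/

namespace Q66.FF

open Real Finset Filter Topology Complex

lemma log_near {ζ : ℂ} (h : Sec ζ) {v : ℝ} (hv : 0 ≤ v) :
    ‖Complex.log ((v:ℂ) + ζ) - Complex.log ζ - v / ζ‖ ≤ 10 * v^2 / ‖ζ‖^2 := by
  have ha := h.one
  have hζ : ζ ≠ 0 := by rw [← norm_pos_iff]; linarith
  have hd : ∀ t ∈ Set.Icc (0:ℝ) v, HasDerivWithinAt (fun t : ℝ => Complex.log ((t:ℂ) + ζ) - (t:ℂ) / ζ)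
      (1 / ((t:ℂ) + ζ) - 1 / ζ) (Set.Icc (0:ℝ) v) t := by
    intro t ht
    have h0 : HasDerivAt (fun t : ℝ => (t : ℂ)) 1 t := Complex.ofRealCLM.hasDerivAt
    have h1 : HasDerivAt (fun t : ℝ => Complex.log ((t:ℂ) + ζ)) (1 / ((t:ℂ) + ζ)) t :=
      (h0.add_const ζ).clog_real (h.slit ht.1)
    exact (h1.fun_sub (h0.div_const ζ)).hasDerivWithinAt
  have hb : ∀ t ∈ Set.Icc (0:ℝ) v, ‖(1 / ((t:ℂ) + ζ) - 1 / ζ)‖ ≤ 10 * v / ‖ζ‖^2 := by
    intro t ht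
    have hne := h.ne ht.1
    have hsec := h.sec t ht.1
    have e : (1 / ((t:ℂ) + ζ) - 1 / ζ) = -(t:ℂ) / (((t:ℂ) + ζ) * ζ) := by field_simp; ring
    rw [e, norm_div, norm_neg, norm_mul, Complex.norm_real, Real.norm_eq_abs, abs_of_nonneg ht.1]
    have hq := h.pos ht.1
    rw [div_le_div_iff₀ (by positivity) (by positivity)]
    have h1 : ‖ζ‖ ≤ 10 * ‖(t:ℂ) + ζ‖ := by linarith [ht.1]
    calc t * ‖ζ‖^2 = t * ‖ζ‖ * ‖ζ‖ := by ring
      _ ≤ v * (10 * ‖(t:ℂ) + ζ‖) * ‖ζ‖ := by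
        have := ht.2; have := ht.1; gcongr
      _ = _ := by ring
  have := (convex_Icc (0:ℝ) v).norm_image_sub_le_of_norm_hasDerivWithin_le hd hb
    (x := 0) (y := v) ⟨le_rfl, hv⟩ ⟨hv, le_rfl⟩
  simp only [Complex.ofReal_zero, zero_add, zero_div, sub_zero] at this
  have e : Complex.log ((v:ℂ) + ζ) - Complex.log ζ - v / ζ = Complex.log ((v:ℂ) + ζ) - v / ζ - Complex.log ζ := by ring
  rw [e]
  refine this.trans ?_
  rw [Real.norm_eq_abs, abs_of_nonneg hv]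
  apply le_of_eq; ring

lemma E3 {ζ : ℂ} (h : Sec ζ) : ‖-(BL ζ (1/3)) - (ζ^2 * Complex.log ζ - (1/3) * Complex.log ζ)‖ ≤ 10 := by
  have ha := h.one
  have hζ : ζ ≠ 0 := by rw [← norm_pos_iff]; linarith
  set v : ℝ := √(1/3) with hv
  have hv0 : 0 ≤ v := Real.sqrt_nonneg _
  have hv2 : v^2 = 1/3 := Real.sq_sqrt (by norm_num)
  have hv1 : v ≤ 1 := by apply Real.sqrt_le_iff.2; constructor <;> norm_num
  have hln := log_near h hv0
  rw [hv2] at hln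
  set D := Complex.log ((v:ℂ) + ζ) - Complex.log ζ - v / ζ with hD
  have e : -(BL ζ (1/3)) - (ζ^2 * Complex.log ζ - (1/3) * Complex.log ζ)
      = -(1/3) * (D + v/ζ) + ((Real.log (1/3) / 6 : ℝ) : ℂ) + ζ^2 * D := by
    unfold BL bb
    rw [← hv, hD]
    push_cast
    field_simp
    ring
  have n1 : ‖D‖ ≤ 4 / ‖ζ‖^2 := hln.trans (by gcongr; norm_num)
  have n1' : ‖D‖ ≤ 4 := n1.trans (by rw [div_le_iff₀ (by positivity)]; nlinarith)
  have n2 : ‖(v:ℂ)/ζ‖ ≤ 1 := by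
    rw [norm_div, Complex.norm_real, Real.norm_eq_abs, abs_of_nonneg hv0, div_le_one (by linarith)]; linarith
  have n3 : ‖ζ^2 * D‖ ≤ 4 := by
    rw [norm_mul, norm_pow]
    rw [le_div_iff₀ (by positivity)] at n1
    linarith
  have n4 : ‖((Real.log (1/3) / 6 : ℝ) : ℂ)‖ ≤ 1 := by
    rw [Complex.norm_real, Real.norm_eq_abs, abs_le]
    have e3 : Real.log (1/3) = -Real.log 3 := by rw [one_div, Real.log_inv]
    have h3 : Real.log 3 ≤ 3 - 1 := Real.log_le_sub_one_of_pos (by norm_num)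
    have h4 : 0 ≤ Real.log 3 := Real.log_nonneg (by norm_num)
    rw [e3]; constructor <;> linarith
  rw [e]
  calc _ ≤ ‖-(1/3) * (D + v/ζ)‖ + ‖((Real.log (1/3) / 6 : ℝ) : ℂ)‖ + ‖ζ^2 * D‖ := norm_add₃_le
    _ ≤ (1/3) * (4 + 1) + 1 + 4 := by
      have : ‖(-(1/3 : ℂ)) * (D + v/ζ)‖ ≤ (1/3) * (4 + 1) := by
        rw [norm_mul]
        have : ‖(-(1/3 : ℂ))‖ = 1/3 := by rw [norm_neg]; simp
        rw [this]
        have := norm_add_le D ((v:ℂ)/ζ)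
        nlinarith
      linarith
    _ ≤ 10 := by norm_num

lemma logTaylor3 (w : ℂ) : Complex.logTaylor 3 w = w - w^2/2 := by
  unfold Complex.logTaylor
  rw [sum_range_succ, sum_range_succ, sum_range_succ, sum_range_zero]
  norm_num
  ring

lemma E4 {ζ : ℂ} (h : Sec ζ) :
    Tendsto (fun N : ℕ => BL ζ ((N:ℝ) + 1/3) - 2 * ζ * (√(N:ℝ) : ℝ) + ζ^2/2 * ((Real.log (N:ℝ) : ℝ) : ℂ) + ζ^2/2)
      atTop (𝓝 0) := by
  have ha := h.one
  have hζ : ζ ≠ 0 := by rw [← norm_pos_iff]; linarith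
  -- w_N = ζ/√T
  set T : ℕ → ℝ := fun N => (N:ℝ) + 1/3 with hT
  have hTpos : ∀ N, 0 < T N := fun N => by have : (0:ℝ) ≤ N := Nat.cast_nonneg N; simp only [hT]; linarith
  set w : ℕ → ℂ := fun N => ζ / ((√(T N) : ℝ) : ℂ) with hw
  have hsT : ∀ N, 0 < √(T N) := fun N => Real.sqrt_pos.2 (hTpos N)
  have hwn : ∀ N, ‖w N‖ = ‖ζ‖ / √(T N) := fun N => by
    rw [hw]; simp only; rw [norm_div, Complex.norm_real, Real.norm_eq_abs, abs_of_pos (hsT N)]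
  have hwt : Tendsto w atTop (𝓝 0) := by
    rw [tendsto_zero_iff_norm_tendsto_zero]
    simp only [hwn]
    exact (tendsto_sqrt_nat' (1/3)).const_div_atTop _
  -- key identity
  have hid : ∀ N, BL ζ (T N) = T N * Complex.log (1 + w N) + ζ * (√(T N) : ℝ)
      - ζ^2 * (((Real.log (T N) / 2 : ℝ) : ℂ) + Complex.log (1 + w N)) := by
    intro N
    have hne : ((√(T N) : ℝ) : ℂ) ≠ 0 := by rw [Complex.ofReal_ne_zero]; exact (hsT N).ne'
    have e1 : ((√(T N) : ℝ) : ℂ) + ζ = ((√(T N) : ℝ) : ℂ) * (1 + w N) := by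
      rw [hw]; simp only; field_simp
    have hne2 : 1 + w N ≠ 0 := by
      intro h0
      have := h.ne (hsT N).le
      rw [e1, h0, mul_zero] at this; exact this rfl
    have e2 : Complex.log (((√(T N) : ℝ) : ℂ) + ζ) = ((Real.log (T N) / 2 : ℝ) : ℂ) + Complex.log (1 + w N) := by
      rw [e1, Complex.log_ofReal_mul (hsT N) hne2, Real.log_sqrt (hTpos N).le]
    unfold BL bb
    rw [e2]; ring
  -- term 1
  have t1 : Tendsto (fun N => (T N : ℂ) * (Complex.log (1 + w N) - (w N - (w N)^2/2))) atTop (𝓝 0) := by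
    rw [tendsto_zero_iff_norm_tendsto_zero]
    have hb : Tendsto (fun N => ‖ζ‖^3 / √(T N)) atTop (𝓝 0) := (tendsto_sqrt_nat' (1/3)).const_div_atTop _
    refine squeeze_zero' (Eventually.of_forall fun _ => norm_nonneg _) ?_ hb
    have hsm : ∀ᶠ N in atTop, ‖w N‖ < 1/2 := by
      have := (tendsto_zero_iff_norm_tendsto_zero.1 hwt)
      exact this.eventually_lt_const (by norm_num)
    filter_upwards [hsm] with N hN
    have h1 := Complex.norm_log_sub_logTaylor_le 2 (z := w N) (by linarith)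
    rw [logTaylor3] at h1
    rw [norm_mul, Complex.norm_real, Real.norm_eq_abs, abs_of_pos (hTpos N)]
    have h2 : (1 - ‖w N‖)⁻¹ ≤ 2 := by
      rw [inv_le_comm₀ (by linarith) (by norm_num)]; linarith
    have h3 : ‖Complex.log (1 + w N) - (w N - (w N)^2/2)‖ ≤ ‖w N‖^3 := by
      refine h1.trans ?_
      have h4 : ‖w N‖^(2+1) * (1 - ‖w N‖)⁻¹ ≤ ‖w N‖^(2+1) * 2 := by gcongr
      norm_num at h4 ⊢
      have : 0 ≤ ‖w N‖^3 := by positivity
      linarith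
    calc T N * ‖Complex.log (1 + w N) - (w N - (w N)^2/2)‖ ≤ T N * ‖w N‖^3 := by
          have := (hTpos N).le; gcongr
      _ = ‖ζ‖^3 / √(T N) := by
          rw [hwn, div_pow]
          have e : T N = √(T N)^2 := (Real.sq_sqrt (hTpos N).le).symm
          have hs := hsT N
          generalize √(T N) = r at *
          rw [e]; field_simp
  have t2 : Tendsto (fun N => ζ^2 * Complex.log (1 + w N)) atTop (𝓝 0) := by
    have h1 : Tendsto (fun N => 1 + w N) atTop (𝓝 1) := by simpa using hwt.const_add 1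
    have h2 : Tendsto (fun N => Complex.log (1 + w N)) atTop (𝓝 (Complex.log 1)) :=
      (continuousAt_clog (by simp)).tendsto.comp h1
    simpa using h2.const_mul (ζ^2)
  have t3 : Tendsto (fun N : ℕ => 2 * ζ * (((√(T N) - √(N:ℝ) : ℝ)) : ℂ)) atTop (𝓝 0) := by
    have h1 : Tendsto (fun N : ℕ => (((√(T N) - √(N:ℝ) : ℝ)) : ℂ)) atTop (𝓝 ((0:ℝ):ℂ)) :=
      (Complex.continuous_ofReal.tendsto _).comp (tendsto_sqrt_diff (c := 1/3) (by norm_num))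
    simpa using h1.const_mul (2 * ζ)
  have t4 : Tendsto (fun N : ℕ => ζ^2/2 * (((Real.log (T N) - Real.log (N:ℝ) : ℝ)) : ℂ)) atTop (𝓝 0) := by
    have h0 : Tendsto (fun N : ℕ => Real.log (T N) - Real.log (N:ℝ)) atTop (𝓝 0) := by
      have h1 : Tendsto (fun N : ℕ => 1 + (1/3)/(N:ℝ)) atTop (𝓝 1) := by
        have : Tendsto (fun N : ℕ => (1/3)/(N:ℝ)) atTop (𝓝 0) := tendsto_const_div_atTop_nhds_zero_nat _
        simpa using this.const_add 1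
      have h2 : Tendsto (fun N : ℕ => Real.log (1 + (1/3)/(N:ℝ))) atTop (𝓝 (Real.log 1)) :=
        (Real.continuousAt_log (by norm_num)).tendsto.comp h1
      rw [Real.log_one] at h2
      refine h2.congr' ?_
      filter_upwards [eventually_gt_atTop 0] with N hN
      have hN' : (0:ℝ) < N := by exact_mod_cast hN
      rw [← Real.log_div (hTpos N).ne' hN'.ne']
      congr 1
      simp only [hT]; field_simp
    have h1 : Tendsto (fun N : ℕ => (((Real.log (T N) - Real.log (N:ℝ) : ℝ)) : ℂ)) atTop (𝓝 ((0:ℝ):ℂ)) :=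
      (Complex.continuous_ofReal.tendsto _).comp h0
    simpa using h1.const_mul (ζ^2/2)
  have t5 := ((t1.sub t2).add t3).sub t4
  simp only [sub_zero, add_zero] at t5
  refine t5.congr ?_
  intro N
  have hw2 : (T N : ℂ) * w N = ζ * (√(T N) : ℝ) := by
    have e : (T N : ℂ) = ((√(T N) : ℝ) : ℂ)^2 := by rw [← Complex.ofReal_pow, Real.sq_sqrt (hTpos N).le]
    have hne : ((√(T N) : ℝ) : ℂ) ≠ 0 := by rw [Complex.ofReal_ne_zero]; exact (hsT N).ne'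
    rw [e, hw]; simp only; field_simp
  have hw3 : (T N : ℂ) * (w N)^2 = ζ^2 := by
    have e : (T N : ℂ) = ((√(T N) : ℝ) : ℂ)^2 := by rw [← Complex.ofReal_pow, Real.sq_sqrt (hTpos N).le]
    have hne : ((√(T N) : ℝ) : ℂ) ≠ 0 := by rw [Complex.ofReal_ne_zero]; exact (hsT N).ne'
    rw [e, hw]; simp only; field_simp
  have : BL ζ ((N:ℝ) + 1/3) = BL ζ (T N) := rfl
  rw [this, hid]
  push_cast
  linear_combination (-1:ℂ) * hw2 + (1/2 : ℂ) * hw3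

/-- main estimate -/
theorem sec_est : ∃ C : ℝ, 0 ≤ C ∧ ∀ ζ : ℂ, Sec ζ → ∀ x : ℕ → ℝ, Near x → ∀ᶠ N : ℕ in atTop,
    ‖∑ j ∈ range N, bb ζ (x j) - 2 * ζ * (√(N:ℝ) : ℝ) + ζ^2/2 * ((Real.log (N:ℝ) : ℝ) : ℂ) + ζ^2/2
      - (ζ^2 * Complex.log ζ - (1/3) * Complex.log ζ)‖ ≤ (1/8) * Real.log ‖ζ‖ + C := by
  obtain ⟨C, hC⟩ := E1
  refine ⟨|C| + 10 + 10 + 1, by positivity, fun ζ h x hx => ?_⟩
  have h4 : ∀ᶠ N : ℕ in atTop, ‖BL ζ ((N:ℝ) + 1/3) - 2 * ζ * (√(N:ℝ) : ℝ) + ζ^2/2 * ((Real.log (N:ℝ) : ℝ) : ℂ) + ζ^2/2‖ < 1 := by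
    have := tendsto_zero_iff_norm_tendsto_zero.1 (E4 h)
    exact this.eventually_lt_const (by norm_num)
  filter_upwards [h4] with N hN
  have a1 := hC ζ h N
  have a2 := E2 h hx N
  have a3 := E3 h
  have e : ∑ j ∈ range N, bb ζ (x j) - 2 * ζ * (√(N:ℝ) : ℝ) + ζ^2/2 * ((Real.log (N:ℝ) : ℝ) : ℂ) + ζ^2/2
      - (ζ^2 * Complex.log ζ - (1/3) * Complex.log ζ)
      = (∑ j ∈ range N, bb ζ (x j) - ∑ j ∈ range N, bb ζ (x0 j))
      + (∑ j ∈ range N, bb ζ (x0 j) - (BL ζ (N + 1/3) - BL ζ (1/3)))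
      + (-(BL ζ (1/3)) - (ζ^2 * Complex.log ζ - (1/3) * Complex.log ζ))
      + (BL ζ ((N:ℝ) + 1/3) - 2 * ζ * (√(N:ℝ) : ℝ) + ζ^2/2 * ((Real.log (N:ℝ) : ℝ) : ℂ) + ζ^2/2) := by ring
  rw [e]
  refine (norm_add_le _ _).trans ?_
  have b1 := norm_add₃_le (a := (∑ j ∈ range N, bb ζ (x j) - ∑ j ∈ range N, bb ζ (x0 j)))
    (b := (∑ j ∈ range N, bb ζ (x0 j) - (BL ζ (N + 1/3) - BL ζ (1/3))))
    (c := (-(BL ζ (1/3)) - (ζ^2 * Complex.log ζ - (1/3) * Complex.log ζ)))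
  have := le_abs_self C
  linarith

end Q66.FF
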