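import Pool.Agent.Q66.FF13

/-! Force field counterexample, part 14: two-sided estimate of `G` in the sector `|arg z| ≤ 2π/3`. -/

namespace Q66.FF

open Real Finset Filter Topology Complex

lemma sec_of_re {ζ : ℂ} (h1 : 1 ≤ ‖ζ‖) (h2 : -(0.976 * ‖ζ‖) ≤ ζ.re) : Sec ζ := by
  refine ⟨h1, fun v hv => ?_⟩
  have e : ‖(v:ℂ) + ζ‖^2 = v^2 + 2 * v * ζ.re + ‖ζ‖^2 := by
    rw [← Complex.normSq_eq_norm_sq, ← Complex.normSq_eq_norm_sq, Complex.normSq_apply, Complex.normSq_apply]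
    simp; ring
  apply le_of_sq_le_sq _ (norm_nonneg _)
  rw [e]
  set a := ‖ζ‖
  have ha : 0 ≤ a := norm_nonneg _
  norm_num at h2
  have h3 : v * (-(122/125 * a)) ≤ v * ζ.re := mul_le_mul_of_nonneg_left h2 hv
  nlinarith [sq_nonneg (v - a)]

lemma sector_sum {X Y a : ℝ} (ha : 0 ≤ a) (h : X^2 + Y^2 = a^2) (hX : -(a/2) ≤ X) : -(1.37 * a) ≤ X + Y := by
  by_contra hc
  push Not at hc
  norm_num at hc
  have hs : (137/100 * a)^2 < (X+Y)^2 := by
    have : 137/100 * a < -(X+Y) := by linarith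
    have h2 : 0 ≤ 137/100 * a := by positivity
    nlinarith
  have hxy : 0.43845 * a^2 < X * Y := by norm_num; nlinarith
  have hY : Y < 0 := by linarith
  have hX0 : X < 0 := by
    by_contra h0
    push Not at h0
    have : X * Y ≤ 0 := mul_nonpos_of_nonneg_of_nonpos h0 hY.le
    norm_num at hxy
    nlinarith [sq_nonneg a]
  have hX2 : X^2 ≤ a^2/4 := by nlinarith
  have hp : (X*Y)^2 ≤ (3/16) * a^4 := by
    have e : (X*Y)^2 = X^2 * (a^2 - X^2) := by rw [← h]; ring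
    rw [e]
    nlinarith [sq_nonneg X, sq_nonneg a]
  have hp2 : (0.43845 * a^2)^2 < (X*Y)^2 := by
    have h0 : 0 ≤ 0.43845 * a^2 := by positivity
    nlinarith
  norm_num at hp2
  nlinarith [sq_nonneg (a^2)]

lemma r2_bounds : (1.4142:ℝ) ≤ √2 := by apply Real.le_sqrt_of_sq_le; norm_num

lemma om_re : om.re = -(1/√2) ∧ om.im = 1/√2 := by
  have e : om = ((-(1/√2) : ℝ) : ℂ) + ((1/√2 : ℝ) : ℂ) * I := by
    unfold om; push_cast; field_simp
  constructor
  · rw [e, Complex.add_re, Complex.ofReal_re, Complex.re_ofReal_mul, Complex.I_re]; ring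
  · rw [e, Complex.add_im, Complex.ofReal_im, Complex.im_ofReal_mul, Complex.I_im]; ring

lemma sec1 {z : ℂ} (h1 : 1 ≤ ‖z‖) (h2 : -(‖z‖/2) ≤ z.re) : Sec (-(om * z)) := by
  have hn : ‖-(om * z)‖ = ‖z‖ := by rw [norm_neg, norm_mul, norm_om, one_mul]
  apply sec_of_re (by rw [hn]; exact h1)
  rw [hn]
  have hz : z.re^2 + z.im^2 = ‖z‖^2 := by
    rw [← Complex.normSq_eq_norm_sq, Complex.normSq_apply]; ring
  have h3 := sector_sum (norm_nonneg z) hz h2
  have e : (-(om * z)).re = (z.re + z.im) * (1/√2) := by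
    rw [Complex.neg_re, Complex.mul_re, om_re.1, om_re.2]; ring
  rw [e, mul_one_div, le_div_iff₀ (by positivity)]
  have := r2_bounds
  norm_num at h3 this ⊢
  nlinarith [norm_nonneg z]

lemma sec2 {z : ℂ} (h1 : 1 ≤ ‖z‖) (h2 : -(‖z‖/2) ≤ z.re) : Sec (-((starRingEnd ℂ) om * z)) := by
  have hn : ‖-((starRingEnd ℂ) om * z)‖ = ‖z‖ := by rw [norm_neg, norm_mul, Complex.norm_conj, norm_om, one_mul]
  apply sec_of_re (by rw [hn]; exact h1)
  rw [hn]
  have hz : z.re^2 + (-z.im)^2 = ‖z‖^2 := by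
    rw [← Complex.normSq_eq_norm_sq, Complex.normSq_apply]; ring
  have h3 := sector_sum (norm_nonneg z) hz h2
  have e : (-((starRingEnd ℂ) om * z)).re = (z.re + -z.im) * (1/√2) := by
    rw [Complex.neg_re, Complex.mul_re, Complex.conj_re, Complex.conj_im, om_re.1, om_re.2]; ring
  rw [e, mul_one_div, le_div_iff₀ (by positivity)]
  have := r2_bounds
  norm_num at h3 this ⊢
  nlinarith [norm_nonneg z]

lemma arg_bd {z : ℂ} (h1 : z ≠ 0) (h2 : -(‖z‖/2) ≤ z.re) : |arg z| ≤ 2 * π / 3 := by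
  by_contra hc
  push Not at hc
  have hpi := Real.pi_pos
  have h3 : Real.cos |arg z| < Real.cos (2 * π / 3) :=
    Real.strictAntiOn_cos ⟨by positivity, by linarith⟩ ⟨by positivity, Complex.abs_arg_le_pi z⟩ hc
  have h4 : Real.cos (2 * π / 3) = -1/2 := by
    rw [show 2 * π / 3 = π - π/3 by ring, Real.cos_pi_sub, Real.cos_pi_div_three]; norm_num
  rw [Real.cos_abs, Complex.cos_arg h1, h4] at h3
  have hn : 0 < ‖z‖ := norm_pos_iff.2 h1
  rw [div_lt_iff₀ hn] at h3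
  linarith

lemma neg_om_exp : -om = Complex.exp (((-(π/4) : ℝ) : ℂ) * I) := by
  rw [Complex.exp_mul_I, ← Complex.ofReal_cos, ← Complex.ofReal_sin, Real.cos_neg, Real.sin_neg,
    Real.cos_pi_div_four, Real.sin_pi_div_four]
  unfold om
  have := r2_sq
  have hne := r2_ne
  push_cast
  field_simp
  linear_combination (-1 + I) * this

lemma neg_omc_exp : -(starRingEnd ℂ) om = Complex.exp (((π/4 : ℝ) : ℂ) * I) := by
  have := congrArg (starRingEnd ℂ) neg_om_exp
  rw [← Complex.exp_conj] at this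
  simp only [map_neg, map_mul, Complex.conj_ofReal, Complex.conj_I] at this
  rw [this]; congr 1; push_cast; ring

lemma log_z1 {z : ℂ} (h1 : z ≠ 0) (h2 : -(‖z‖/2) ≤ z.re) :
    Complex.log (-(om * z)) = Complex.log z - (π/4) * I := by
  have hpi := Real.pi_pos
  have ha := abs_le.1 (arg_bd h1 h2)
  have e : -(om * z) = Complex.exp (((-(π/4) : ℝ) : ℂ) * I) * z := by rw [← neg_om_exp]; ring
  have hl : Complex.log (Complex.exp (((-(π/4) : ℝ) : ℂ) * I)) = ((-(π/4) : ℝ) : ℂ) * I := by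
    apply Complex.log_exp
    · rw [Complex.im_ofReal_mul, Complex.I_im]; linarith
    · rw [Complex.im_ofReal_mul, Complex.I_im]; linarith
  have harg : arg (Complex.exp (((-(π/4) : ℝ) : ℂ) * I)) = -(π/4) := by
    rw [← Complex.log_im, hl]; simp
  rw [e, (Complex.log_mul_eq_add_log_iff (Complex.exp_ne_zero _) h1).2 (by rw [harg]; constructor <;> linarith [ha.1, ha.2]), hl]
  push_cast; ring

lemma log_z2 {z : ℂ} (h1 : z ≠ 0) (h2 : -(‖z‖/2) ≤ z.re) :
    Complex.log (-((starRingEnd ℂ) om * z)) = Complex.log z + (π/4) * I := by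
  have hpi := Real.pi_pos
  have ha := abs_le.1 (arg_bd h1 h2)
  have e : -((starRingEnd ℂ) om * z) = Complex.exp (((π/4 : ℝ) : ℂ) * I) * z := by rw [← neg_omc_exp]; ring
  have hl : Complex.log (Complex.exp (((π/4 : ℝ) : ℂ) * I)) = ((π/4 : ℝ) : ℂ) * I := by
    apply Complex.log_exp
    · rw [Complex.im_ofReal_mul, Complex.I_im]; linarith
    · rw [Complex.im_ofReal_mul, Complex.I_im]; linarith
  have harg : arg (Complex.exp (((π/4 : ℝ) : ℂ) * I)) = π/4 := by
    rw [← Complex.log_im, hl]; simp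
  rw [e, (Complex.log_mul_eq_add_log_iff (Complex.exp_ne_zero _) h1).2 (by rw [harg]; constructor <;> linarith [ha.1, ha.2]), hl]
  push_cast; ring

lemma om_conj : om * (starRingEnd ℂ) om = 1 := by
  rw [Complex.mul_conj, Complex.normSq_eq_norm_sq, norm_om]; norm_num

lemma om_add_conj : om + (starRingEnd ℂ) om = -((√2 : ℝ) : ℂ) := by
  unfold om
  rw [map_div₀, Complex.conj_ofReal, ← add_div, div_eq_iff r2_ne]
  simp only [map_add, map_neg, map_one, Complex.conj_I]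
  have := r2_sq
  linear_combination this

lemma norm_factor {x : ℕ → ℝ} (h : Near x) (j : ℕ) (z : ℂ) :
    ‖uu x j z‖ = ‖((√(x j) : ℝ) : ℂ) + -(om * z)‖ * ‖((√(x j) : ℝ) : ℂ) + -((starRingEnd ℂ) om * z)‖ / x j *
      Real.exp (-(√2 * dd j * z.re)) := by
  have hs : 0 < √(x j) := Real.sqrt_pos.2 (h.pos j)
  have hne : ((√(x j) : ℝ) : ℂ) ≠ 0 := by rw [Complex.ofReal_ne_zero]; exact hs.ne'
  unfold uu
  rw [norm_mul, quad_factor, norm_mul, Complex.norm_exp]
  congr 1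
  · have e1 : ‖z / ((√(x j) : ℝ) : ℂ) - om‖ = ‖((√(x j) : ℝ) : ℂ) + -((starRingEnd ℂ) om * z)‖ / √(x j) := by
      have : ((√(x j) : ℝ) : ℂ) + -((starRingEnd ℂ) om * z) =
          -(starRingEnd ℂ) om * (((√(x j) : ℝ) : ℂ) * (z / ((√(x j) : ℝ) : ℂ) - om)) := by
        have h1 := om_conj
        field_simp
        linear_combination (-((√(x j) : ℝ) : ℂ)) * h1
      rw [this, norm_mul, norm_mul, norm_neg, Complex.norm_conj, norm_om, Complex.norm_real, Real.norm_eq_abs,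
        abs_of_pos hs]
      field_simp
    have e2 : ‖z / ((√(x j) : ℝ) : ℂ) - (starRingEnd ℂ) om‖ = ‖((√(x j) : ℝ) : ℂ) + -(om * z)‖ / √(x j) := by
      have : ((√(x j) : ℝ) : ℂ) + -(om * z) =
          -om * (((√(x j) : ℝ) : ℂ) * (z / ((√(x j) : ℝ) : ℂ) - (starRingEnd ℂ) om)) := by
        have h1 := om_conj
        field_simp
        linear_combination (-((√(x j) : ℝ) : ℂ)) * h1
      rw [this, norm_mul, norm_mul, norm_neg, norm_om, Complex.norm_real, Real.norm_eq_abs,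
        abs_of_pos hs]
      field_simp
    rw [e1, e2, div_mul_div_comm, Real.mul_self_sqrt (h.pos j).le, mul_comm]
  · congr 1
    have : -(((√2 : ℝ) : ℂ) * (dd j : ℝ) * z) = ((-(√2 * dd j) : ℝ) : ℂ) * z := by push_cast; ring
    rw [this, Complex.re_ofReal_mul]; ring

lemma log_norm_uu {x : ℕ → ℝ} (h : Near x) (j : ℕ) {z : ℂ} (h1 : 1 ≤ ‖z‖) (h2 : -(‖z‖/2) ≤ z.re) :
    uu x j z ≠ 0 ∧ Real.log ‖uu x j z‖ = (bb (-(om * z)) (x j)).re + (bb (-((starRingEnd ℂ) om * z)) (x j)).re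
      - √2 * dd j * z.re := by
  have s1 := (sec1 h1 h2).pos (Real.sqrt_nonneg (x j))
  have s2 := (sec2 h1 h2).pos (Real.sqrt_nonneg (x j))
  have hx := h.pos j
  have hn := norm_factor h j z
  constructor
  · rw [← norm_pos_iff, hn]; positivity
  · rw [hn, Real.log_mul (by positivity) (by positivity), Real.log_exp, Real.log_div (by positivity) (by positivity),
      Real.log_mul s1.ne' s2.ne']
    unfold bb
    rw [Complex.sub_re, Complex.sub_re, Complex.log_re, Complex.log_re, Complex.ofReal_re]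
    ring

lemma log_norm_GN {x : ℕ → ℝ} (h : Near x) (N : ℕ) {z : ℂ} (h1 : 1 ≤ ‖z‖) (h2 : -(‖z‖/2) ≤ z.re) :
    GN x N z ≠ 0 ∧ Real.log ‖GN x N z‖ = Real.log ‖z‖ + (π * z^2/2).re +
      (∑ j ∈ range N, bb (-(om * z)) (x j)).re + (∑ j ∈ range N, bb (-((starRingEnd ℂ) om * z)) (x j)).re
      - 2 * √2 * √N * z.re := by
  have hz : z ≠ 0 := by rw [← norm_pos_iff]; linarith
  have hp : ∏ j ∈ range N, uu x j z ≠ 0 := prod_ne_zero_iff.2 (fun j _ => (log_norm_uu h j h1 h2).1)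
  constructor
  · unfold GN; exact mul_ne_zero (mul_ne_zero hz (Complex.exp_ne_zero _)) hp
  · unfold GN
    have hz' : ‖z‖ ≠ 0 := by rw [norm_ne_zero_iff]; exact hz
    have he' : ‖Complex.exp (π * z^2 / 2)‖ ≠ 0 := by rw [norm_ne_zero_iff]; exact Complex.exp_ne_zero _
    have hp' : ‖∏ j ∈ range N, uu x j z‖ ≠ 0 := by rw [norm_ne_zero_iff]; exact hp
    rw [norm_mul, norm_mul, Real.log_mul (mul_ne_zero hz' he') hp', Real.log_mul hz' he',
      norm_prod, Real.log_prod (fun j _ => (norm_pos_iff.2 (log_norm_uu h j h1 h2).1).ne'), Complex.norm_exp, Real.log_exp]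
    rw [sum_congr rfl (fun j _ => (log_norm_uu h j h1 h2).2)]
    rw [sum_sub_distrib, sum_add_distrib, Complex.re_sum, Complex.re_sum]
    have e : ∑ j ∈ range N, √2 * dd j * z.re = 2 * √2 * √N * z.re := by
      rw [← sum_mul, ← mul_sum, sum_dd]; ring
    rw [e]; ring

theorem sector_bound : ∃ C : ℝ, 0 ≤ C ∧ ∀ x : ℕ → ℝ, Near x → ∀ z : ℂ, 1 ≤ ‖z‖ → -(‖z‖/2) ≤ z.re →
    GG x z ≠ 0 ∧ |Real.log ‖GG x z‖ - (1/3) * Real.log ‖z‖| ≤ (1/4) * Real.log ‖z‖ + C := by
  obtain ⟨C, hC0, hC⟩ := sec_est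
  refine ⟨2 * C, by positivity, fun x h z h1 h2 => ?_⟩
  have hz : z ≠ 0 := by rw [← norm_pos_iff]; linarith
  have hzn : 0 < ‖z‖ := norm_pos_iff.2 hz
  have n1 : ‖-(om * z)‖ = ‖z‖ := by rw [norm_neg, norm_mul, norm_om, one_mul]
  have n2 : ‖-((starRingEnd ℂ) om * z)‖ = ‖z‖ := by rw [norm_neg, norm_mul, Complex.norm_conj, norm_om, one_mul]
  have key : ∀ᶠ N in atTop, |Real.log ‖GN x N z‖ - (1/3) * Real.log ‖z‖| ≤ (1/4) * Real.log ‖z‖ + 2 * C := by
    filter_upwards [hC _ (sec1 h1 h2) x h, hC _ (sec2 h1 h2) x h] with N a1 a2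
    rw [n1] at a1
    rw [n2] at a2
    have l1 := log_z1 hz h2
    have l2 := log_z2 hz h2
    rw [(log_norm_GN h N h1 h2).2]
    rw [l1] at a1
    rw [l2] at a2
    set S1 := ∑ j ∈ range N, bb (-(om * z)) (x j)
    set S2 := ∑ j ∈ range N, bb (-((starRingEnd ℂ) om * z)) (x j)
    have q1 := om_sq
    have q2 : ((starRingEnd ℂ) om)^2 = I := by
      have := congrArg (starRingEnd ℂ) om_sq
      simpa using this
    have q3 := om_add_conj
    have q4 := Complex.I_sq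
    set oc := (starRingEnd ℂ) om
    set LN : ℂ := ((Real.log (N:ℝ) : ℝ) : ℂ)
    have e : (S1 - 2 * (-(om * z)) * (√(N:ℝ) : ℝ) + (-(om * z))^2/2 * LN + (-(om * z))^2/2
      - ((-(om * z))^2 * (Complex.log z - (π/4) * I) - (1/3) * (Complex.log z - (π/4) * I)))
      + (S2 - 2 * (-(oc * z)) * (√(N:ℝ) : ℝ) + (-(oc * z))^2/2 * LN + (-(oc * z))^2/2
      - ((-(oc * z))^2 * (Complex.log z + (π/4) * I) - (1/3) * (Complex.log z + (π/4) * I)))
      = S1 + S2 - ((2 * √2 * √(N:ℝ) : ℝ) : ℂ) * z + π * z^2/2 + (2/3) * Complex.log z := by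
      push_cast
      linear_combination (z^2/2 * LN + z^2/2 - z^2 * (Complex.log z - (π/4) * I)) * q1 +
        (z^2/2 * LN + z^2/2 - z^2 * (Complex.log z + (π/4) * I)) * q2 +
        (2 * z * ((√(N:ℝ) : ℝ) : ℂ)) * q3 - (z^2 * π/2) * q4
    have hre := congrArg Complex.re e
    simp only [Complex.add_re, Complex.sub_re] at hre
    have r1 := Complex.abs_re_le_norm (S1 - 2 * (-(om * z)) * (√(N:ℝ) : ℝ) + (-(om * z))^2/2 * LN + (-(om * z))^2/2
      - ((-(om * z))^2 * (Complex.log z - (π/4) * I) - (1/3) * (Complex.log z - (π/4) * I)))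
    have r2 := Complex.abs_re_le_norm (S2 - 2 * (-(oc * z)) * (√(N:ℝ) : ℝ) + (-(oc * z))^2/2 * LN + (-(oc * z))^2/2
      - ((-(oc * z))^2 * (Complex.log z + (π/4) * I) - (1/3) * (Complex.log z + (π/4) * I)))
    simp only [Complex.add_re, Complex.sub_re] at r1 r2
    have r3 : (((2 * √2 * √(N:ℝ) : ℝ) : ℂ) * z).re = 2 * √2 * √N * z.re := Complex.re_ofReal_mul _ _
    have r4 : ((2/3 : ℂ) * Complex.log z).re = (2/3) * Real.log ‖z‖ := by
      have : (2/3 : ℂ) = ((2/3 : ℝ) : ℂ) := by push_cast; rfl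
      rw [this, Complex.re_ofReal_mul, Complex.log_re]
    rw [r3, r4] at hre
    have r1' := abs_le.1 (r1.trans a1)
    have r2' := abs_le.1 (r2.trans a2)
    rw [abs_le]
    constructor
    · linarith [r1'.1, r2'.1]
    · linarith [r1'.2, r2'.2]
  -- nonvanishing of the limit
  have hT := tendsto_GN h z
  have hlow : ∀ᶠ N in atTop, Real.exp ((1/3) * Real.log ‖z‖ - ((1/4) * Real.log ‖z‖ + 2 * C)) ≤ ‖GN x N z‖ := by
    filter_upwards [key] with N hN
    have hne := norm_pos_iff.2 (log_norm_GN h N h1 h2).1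
    have := (abs_le.1 hN).1
    calc Real.exp ((1/3) * Real.log ‖z‖ - ((1/4) * Real.log ‖z‖ + 2 * C)) ≤ Real.exp (Real.log ‖GN x N z‖) :=
          Real.exp_le_exp.2 (by linarith)
      _ = ‖GN x N z‖ := Real.exp_log hne
  have hpos : 0 < ‖GG x z‖ := (Real.exp_pos _).trans_le (ge_of_tendsto hT.norm hlow)
  refine ⟨norm_pos_iff.1 hpos, ?_⟩
  have h5 : Tendsto (fun N => |Real.log ‖GN x N z‖ - (1/3) * Real.log ‖z‖|) atTop
      (𝓝 |Real.log ‖GG x z‖ - (1/3) * Real.log ‖z‖|) := by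
    apply Tendsto.abs
    apply Tendsto.sub_const
    exact (Real.continuousAt_log hpos.ne').tendsto.comp hT.norm
  exact le_of_tendsto h5 key

end Q66.FF
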