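import Pool.Agent.Q66.FF14

/-! Force field counterexample, part 15: lower bound for the product over the other zeros. -/

namespace Q66.FF

open Real Finset Filter Topology

noncomputable def Po (c : ℝ) (L : ℕ) : ℝ := ∏ i ∈ range L, (c + i + 1)

lemma Po_pos {c : ℝ} (hc : 0 ≤ c) (L : ℕ) : 0 < Po c L := by
  unfold Po; exact prod_pos (fun i _ => by positivity)

lemma Po_add (c : ℝ) (L M : ℕ) : Po c (L + M) = Po c L * Po (c + L) M := by
  unfold Po
  rw [prod_range_add]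
  congr 1
  apply prod_congr rfl
  intro i _
  push_cast; ring

lemma Po_mono {c d : ℝ} (hc : 0 ≤ c) (h : c ≤ d) (L : ℕ) : Po c L ≤ Po d L := by
  unfold Po
  exact prod_le_prod (fun i _ => by positivity) (fun i _ => by linarith)

/-- reference product is at least 1/2 -/
lemma ref_ge (k L : ℕ) : (1/2 : ℝ) ≤ Po ((k:ℝ)+1) k / Po 0 k * (Po 0 L * Po (2*((k:ℝ)+1)) L / (Po ((k:ℝ)+1) L)^2) := by
  have hk : (0:ℝ) ≤ k := Nat.cast_nonneg k
  set n : ℝ := (k:ℝ) + 1 with hn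
  have hn0 : 0 < n := by linarith
  have e1 : Po n (k+1) = Po n k * (2 * n) := by
    rw [Po_add]; congr 1; unfold Po; simp; rw [hn]; ring
  have e2 : Po 0 (k+1) = Po 0 k * n := by
    rw [Po_add]; congr 1; unfold Po; simp [hn]
  have e3 : Po n ((k+1)+L) = Po n (k+1) * Po (2*n) L := by
    rw [Po_add]; congr 2; push_cast; rw [hn]; ring
  have e4 : Po n (L+(k+1)) = Po n L * Po (n + L) (k+1) := Po_add _ _ _
  have e5 : Po 0 ((k+1)+L) = Po 0 (k+1) * Po n L := by
    rw [Po_add]; congr 2; push_cast; rw [hn]; ring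
  have e6 : Po 0 (L+(k+1)) = Po 0 L * Po (L:ℝ) (k+1) := by
    rw [Po_add]; congr 2; ring
  rw [add_comm L (k+1)] at e4 e6
  have p1 := Po_pos (c := n) hn0.le k
  have p2 := Po_pos (c := 0) le_rfl k
  have p3 := Po_pos (c := 0) le_rfl L
  have p4 := Po_pos (c := 2*n) (by positivity) L
  have p5 := Po_pos (c := n) hn0.le L
  have p6 := Po_pos (c := (L:ℝ)) (Nat.cast_nonneg L) (k+1)
  have p7 : Po (L:ℝ) (k+1) ≤ Po (n + L) (k+1) := Po_mono (Nat.cast_nonneg L) (by linarith) _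
  -- identities
  have i1 : Po n k * (2 * n) * Po (2*n) L = Po n L * Po (n + L) (k+1) := by rw [← e1, ← e3, e4]
  have i2 : Po 0 k * n * Po n L = Po 0 L * Po (L:ℝ) (k+1) := by rw [← e2, ← e5, e6]
  rw [div_mul_div_comm, div_le_div_iff₀ (by norm_num) (by positivity)]
  -- 1 * (P0k * Pn L^2) ≤ Pnk * (P0L * P2nL) * 2
  have h1 : (Po 0 k * (Po n L)^2) * n = Po 0 L * Po (L:ℝ) (k+1) * Po n L := by rw [← i2]; ring
  have h2 : (Po n k * (Po 0 L * Po (2*n) L) * 2) * n = Po n L * Po (n + L) (k+1) * Po 0 L := by rw [← i1]; ring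
  have h3 : (Po 0 k * (Po n L)^2) * n ≤ (Po n k * (Po 0 L * Po (2*n) L) * 2) * n := by
    rw [h1, h2]
    nlinarith [mul_pos p3 p5]
  have := le_of_mul_le_mul_right h3 hn0
  linarith

/-- `(c/(c+1))^s ≤ 1 - s/(c+1)` -/
lemma bern_lo {c s : ℝ} (hc : 0 < c) (hs0 : 0 ≤ s) (hs1 : s ≤ 1) : (c/(c+1))^s ≤ 1 - s/(c+1) := by
  have h := rpow_one_add_le_one_add_mul_self (s := -(1/(c+1))) (p := s)
    (by rw [neg_le_neg_iff, div_le_one (by linarith)]; linarith) hs0 hs1
  have e1 : 1 + -(1/(c+1)) = c/(c+1) := by field_simp; ring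
  have e2 : 1 + s * -(1/(c+1)) = 1 - s/(c+1) := by ring
  rw [e1, e2] at h; exact h

lemma bern_hi {c s : ℝ} (hc : 0 < c) (hs0 : 0 ≤ s) (hs1 : s ≤ 1) : 1 - s/c ≤ (c/(c+1))^s := by
  have h := rpow_one_add_le_one_add_mul_self (s := 1/c) (p := s)
    (by have : 0 < 1/c := by positivity
        linarith) hs0 hs1
  have h1 : (c/(c+1)) = (1 + 1/c)⁻¹ := by field_simp
  have h0 : 0 < 1 + 1/c := by positivity
  rw [h1, Real.inv_rpow h0.le]
  have h2 : 0 < (1+1/c)^s := Real.rpow_pos_of_pos h0 s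
  rcases le_or_gt (1 - s/c) 0 with hneg | hpos
  · exact hneg.trans (by positivity)
  · rw [le_inv_comm₀ hpos h2]
    have e2 : (1 + s * (1/c)) = 1 + s/c := by ring
    rw [e2] at h
    refine h.trans ?_
    rw [← one_div, le_div_iff₀ hpos]
    have : 0 ≤ (s/c)^2 := sq_nonneg _
    nlinarith

lemma P1' {s : ℝ} (hs0 : 0 ≤ s) (hs1 : s ≤ 1) (L : ℕ) :
    (1 - s) * (1/((L:ℝ)+1))^s ≤ ∏ i ∈ range (L+1), (1 - s/((i:ℝ)+1)) := by
  induction L with
  | zero => simp
  | succ n ih =>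
    rw [prod_range_succ]
    have hn : (0:ℝ) ≤ n := Nat.cast_nonneg n
    have h1 := bern_lo (c := (n:ℝ)+1) (s := s) (by linarith) hs0 hs1
    have e : (1/(((n+1:ℕ):ℝ)+1))^s = (1/((n:ℝ)+1))^s * (((n:ℝ)+1)/((n:ℝ)+1+1))^s := by
      rw [← Real.mul_rpow (by positivity) (by positivity)]
      congr 1; push_cast; field_simp
    rw [e, ← mul_assoc]
    push_cast
    have h3 : 0 ≤ 1 - s := by linarith
    have h2 : 0 ≤ (1 - s) * (1/((n:ℝ)+1))^s := by positivity
    exact mul_le_mul ih h1 (by positivity) (h2.trans ih)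

lemma P1 {s : ℝ} (hs0 : 0 ≤ s) (hs1 : s ≤ 1) (L : ℕ) :
    (1 - s) * (1/((L:ℝ)+1))^s ≤ ∏ i ∈ range L, (1 - s/((i:ℝ)+1)) := by
  have h3 : 0 ≤ 1 - s := by linarith
  cases L with
  | zero => simp; linarith
  | succ m =>
    refine le_trans ?_ (P1' hs0 hs1 m)
    apply mul_le_mul_of_nonneg_left _ h3
    apply Real.rpow_le_rpow (by positivity) _ hs0
    apply one_div_le_one_div_of_le (by positivity)
    push_cast; linarith

lemma P2 {s c : ℝ} (hs0 : 0 ≤ s) (hs1 : s ≤ 1) (hc : 0 < c) (L : ℕ) :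
    (c/(c + L))^s ≤ ∏ i ∈ range L, (1 - s/(c + i + 1)) := by
  induction L with
  | zero => simp [div_self hc.ne']
  | succ n ih =>
    rw [prod_range_succ]
    have hn : (0:ℝ) ≤ n := Nat.cast_nonneg n
    have h1 := bern_lo (c := c + n) (s := s) (by linarith) hs0 hs1
    have e : (c/(c + ((n+1:ℕ):ℝ)))^s = (c/(c+n))^s * ((c+n)/(c+n+1))^s := by
      rw [← Real.mul_rpow (by positivity) (by positivity)]
      congr 1; push_cast; field_simp; ring
    rw [e]
    have h2 : 0 ≤ (c/(c+n))^s := by positivity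
    exact mul_le_mul ih h1 (by positivity) (h2.trans ih)

lemma P3 {s c : ℝ} (hs0 : 0 ≤ s) (hs1 : s ≤ 1) (hc : 0 ≤ c) (L : ℕ) :
    ∏ i ∈ range L, (1 - s/(c + i + 1)) ≤ ((c+1)/(c + L + 1))^s := by
  induction L with
  | zero =>
    have : c + 1 ≠ 0 := by positivity
    simp [div_self this]
  | succ n ih =>
    rw [prod_range_succ]
    have hn : (0:ℝ) ≤ n := Nat.cast_nonneg n
    have h1 := bern_hi (c := c + n + 1) (s := s) (by linarith) hs0 hs1
    have e : ((c+1)/(c + ((n+1:ℕ):ℝ) + 1))^s = ((c+1)/(c+n+1))^s * ((c+n+1)/(c+n+1+1))^s := by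
      rw [← Real.mul_rpow (by positivity) (by positivity)]
      congr 1; push_cast; field_simp; ring
    rw [e]
    have h0 : 0 ≤ 1 - s/(c+n+1) := by
      have : s/(c+n+1) ≤ 1 := by rw [div_le_one (by positivity)]; linarith
      linarith
    exact mul_le_mul ih h1 h0 (by positivity)

lemma P3_pos {s c : ℝ} (hs1 : s < 1) (hc : 0 ≤ c) (L : ℕ) :
    0 < ∏ i ∈ range L, (1 - s/(c + i + 1)) := by
  apply prod_pos
  intro i _
  have : s/(c+i+1) < 1 := by
    rw [div_lt_one (by positivity)]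
    have : (0:ℝ) ≤ i := Nat.cast_nonneg i
    linarith
  linarith

/-- perturbation product, upper part -/
lemma upper_pert (k L : ℕ) : (17/24 : ℝ) * (1/((k:ℝ)+2))^(7/24:ℝ) ≤
    (∏ i ∈ range L, (1 - (7/24)/((i:ℝ)+1))) * (∏ i ∈ range L, (1 - (7/24)/(2*((k:ℝ)+1) + i + 1)))
      / (∏ i ∈ range L, (1 - (7/24)/(((k:ℝ)+1) + i + 1)))^2 := by
  have hk : (0:ℝ) ≤ k := Nat.cast_nonneg k
  have hL : (0:ℝ) ≤ L := Nat.cast_nonneg L
  set n : ℝ := (k:ℝ) + 1 with hn
  have a1 := P1 (s := 7/24) (by norm_num) (by norm_num) L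
  have a2 := P2 (s := 7/24) (c := 2*n) (by norm_num) (by norm_num) (by positivity) L
  have a3 := P3 (s := 7/24) (c := n) (by norm_num) (by norm_num) (by positivity) L
  have a4 := P3_pos (s := 7/24) (c := n) (by norm_num) (by positivity) L
  rw [le_div_iff₀ (by positivity)]
  calc (17/24 : ℝ) * (1/((k:ℝ)+2))^(7/24:ℝ) * (∏ i ∈ range L, (1 - (7/24)/(n + i + 1)))^2
      ≤ (17/24 : ℝ) * (1/((k:ℝ)+2))^(7/24:ℝ) * (((n+1)/(n + L + 1))^(7/24:ℝ))^2 := by gcongr
    _ = (17/24) * ((1/((k:ℝ)+2)) * ((n+1)/(n + L + 1))^2)^(7/24:ℝ) := by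
        rw [Real.mul_rpow (by positivity) (by positivity), mul_assoc]
        congr 2
        rw [← Real.rpow_natCast, ← Real.rpow_natCast, ← Real.rpow_mul (by positivity), ← Real.rpow_mul (by positivity)]
        congr 1; ring
    _ ≤ (17/24) * ((1/((L:ℝ)+1)) * (2*n/(2*n + L)))^(7/24:ℝ) := by
        gcongr (17/24) * ?_
        apply Real.rpow_le_rpow (by positivity) _ (by norm_num)
        have e : (k:ℝ) + 2 = n + 1 := by rw [hn]; ring
        rw [e, div_pow, div_mul_div_comm, div_mul_div_comm, div_le_div_iff₀ (by positivity) (by positivity)]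
        have h1 : (L+1) * (2*n + L) ≤ (n+L+1)^2 := by nlinarith
        have h2 : n + 1 ≤ 2 * n := by linarith
        calc 1 * (n+1)^2 * ((L+1) * (2*n+L)) = (n+1) * ((n+1) * ((L+1) * (2*n+L))) := by ring
          _ ≤ (n+1) * ((2 * n) * ((n+L+1)^2)) := by gcongr
          _ = 1 * (2 * n) * ((n+1) * (n+L+1)^2) := by ring
    _ = ((1 - 7/24) * (1/((L:ℝ)+1))^(7/24:ℝ)) * (2*n/(2*n + L))^(7/24:ℝ) := by
        rw [Real.mul_rpow (by positivity) (by positivity)]; ring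
    _ ≤ _ := by
        apply mul_le_mul a1 a2 (by positivity)
        exact le_trans (by positivity) a1

end Q66.FF
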