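import Pool.Agent.Q66.FF15

/-! Force field counterexample, part 16: lower bound for `|G'(z_k)|`. -/

namespace Q66.FF

open Real Finset Filter Topology

lemma lowA {x : ℕ → ℝ} (h : Near x) {j k : ℕ} (hj : j < k) :
    (((k:ℝ) - j) * (1 - (1/4)/((k:ℝ) - j))) * ((((k:ℝ)+1) + j + 1) * (1 - (7/12)/(((k:ℝ)+1) + j + 1))) / ((j:ℝ)+1)^2
      ≤ |1 - (x k / x j)^2| := by
  have hjk : (j:ℝ) + 1 ≤ k := by exact_mod_cast hj
  have hj0 : (0:ℝ) ≤ j := Nat.cast_nonneg j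
  have hxj := h.pos j
  have hxk := h.pos k
  have h1 := h.hi j
  have h2 := h.lo k
  have h3 := h.lo j
  have e1 : ((k:ℝ) - j) * (1 - (1/4)/((k:ℝ) - j)) = (k:ℝ) - j - 1/4 := by
    have : (k:ℝ) - j ≠ 0 := by linarith
    field_simp
  have e2 : (((k:ℝ)+1) + j + 1) * (1 - (7/12)/(((k:ℝ)+1) + j + 1)) = (k:ℝ) + j + 17/12 := by
    have : ((k:ℝ)+1) + j + 1 ≠ 0 := by positivity
    field_simp; ring
  rw [e1, e2]
  have e3 : |1 - (x k / x j)^2| = (x k - x j) * (x k + x j) / (x j)^2 := by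
    have : 1 - (x k / x j)^2 = -((x k - x j) * (x k + x j) / (x j)^2) := by field_simp; ring
    rw [this, abs_neg, abs_of_nonneg]
    have : 0 ≤ x k - x j := by linarith
    positivity
  rw [e3]
  apply div_le_div₀
  · have : 0 ≤ x k - x j := by linarith
    positivity
  · apply mul_le_mul (by linarith) (by linarith) (by linarith) (by linarith)
  · positivity
  · exact pow_le_pow_left₀ hxj.le (by linarith) 2

lemma lowB {x : ℕ → ℝ} (h : Near x) (k i : ℕ) :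
    (((i:ℝ)+1) * (2*((k:ℝ)+1) + i + 1) / (((k:ℝ)+1) + i + 1)^2) *
      ((1 - (7/24)/((i:ℝ)+1)) * (1 - (7/24)/(2*((k:ℝ)+1) + i + 1)) / (1 - (7/24)/(((k:ℝ)+1) + i + 1))^2)
      ≤ |1 - (x k / x (k+1+i))^2| := by
  have hi : (0:ℝ) ≤ i := Nat.cast_nonneg i
  have hk : (0:ℝ) ≤ k := Nat.cast_nonneg k
  have hxj := h.pos (k+1+i)
  have hxk := h.pos k
  have h1 := h.hi k
  have h2 := h.lo (k+1+i)
  push_cast at h2
  set n : ℝ := (k:ℝ)+1 with hn
  have hm : 0 < n + i + 1 - 7/24 := by linarith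
  have e1 : (((i:ℝ)+1) * (2*n + i + 1) / (n + i + 1)^2) *
      ((1 - (7/24)/((i:ℝ)+1)) * (1 - (7/24)/(2*n + i + 1)) / (1 - (7/24)/(n + i + 1))^2)
      = 1 - (n / (n + i + 1 - 7/24))^2 := by
    have a1 : (i:ℝ) + 1 ≠ 0 := by positivity
    have a2 : 2*n + i + 1 ≠ 0 := by positivity
    have a3 : n + i + 1 ≠ 0 := by positivity
    have a4 : 1 - (7/24)/(n + i + 1) = (n + i + 1 - 7/24)/(n+i+1) := by field_simp
    have a5 : 1 - (7/24)/((i:ℝ) + 1) = (i + 1 - 7/24)/(i+1) := by field_simp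
    have a6 : 1 - (7/24)/(2*n + i + 1) = (2*n + i + 1 - 7/24)/(2*n+i+1) := by field_simp
    rw [a4, a5, a6]
    have a7 : n + i + 1 - 7/24 ≠ 0 := hm.ne'
    have a8 : 2*n + i + 1 - 7/24 = (n + i + 1 - 7/24) + n := by ring
    have a9 : (i:ℝ) + 1 - 7/24 = (n + i + 1 - 7/24) - n := by ring
    rw [a8, a9]
    generalize n + i + 1 - 7/24 = q at *
    field_simp
    ring
  rw [e1]
  have h3 : x k / x (k+1+i) ≤ n / (n + i + 1 - 7/24) := by
    apply div_le_div₀ (by positivity) (by linarith) hm (by linarith)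
  have h4 : 0 ≤ x k / x (k+1+i) := by positivity
  have h5 : (x k / x (k+1+i))^2 ≤ (n / (n + i + 1 - 7/24))^2 := pow_le_pow_left₀ h4 h3 2
  refine le_trans ?_ (le_abs_self _)
  linarith

lemma Po_reflect (k : ℕ) : ∏ j ∈ range k, ((k:ℝ) - j) = Po 0 k := by
  unfold Po
  rw [← prod_range_reflect]
  apply prod_congr rfl
  intro j hj
  have hj' := mem_range.1 hj
  rw [Nat.cast_sub (by omega), Nat.cast_sub (by omega)]
  push_cast; ring

lemma sq_prod (k : ℕ) : ∏ j ∈ range k, ((j:ℝ)+1)^2 = (Po 0 k)^2 := by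
  unfold Po
  rw [← prod_pow]
  apply prod_congr rfl
  intro j _
  ring

lemma prodA {x : ℕ → ℝ} (h : Near x) (k : ℕ) :
    (Po ((k:ℝ)+1) k / Po 0 k) * ((3/8) * (1/((k:ℝ)+1))^(1/4:ℝ)) ≤ ∏ j ∈ range k, |1 - (x k / x j)^2| := by
  have hk : (0:ℝ) ≤ k := Nat.cast_nonneg k
  have p0 := Po_pos (c := 0) le_rfl k
  have h1 : ∏ j ∈ range k, ((((k:ℝ) - j) * (1 - (1/4)/((k:ℝ) - j))) * ((((k:ℝ)+1) + j + 1) *
      (1 - (7/12)/(((k:ℝ)+1) + j + 1))) / ((j:ℝ)+1)^2) ≤ ∏ j ∈ range k, |1 - (x k / x j)^2| := by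
    apply Finset.prod_le_prod
    · intro j hj
      have hj' := mem_range.1 hj
      have hjk : (j:ℝ) + 1 ≤ k := by exact_mod_cast hj'
      have hj0 : (0:ℝ) ≤ j := Nat.cast_nonneg j
      have a : 0 ≤ 1 - (1/4)/((k:ℝ) - j) := by
        rw [sub_nonneg, div_le_one (by linarith)]; linarith
      have b : 0 ≤ 1 - (7/12)/(((k:ℝ)+1) + j + 1) := by
        rw [sub_nonneg, div_le_one (by positivity)]; linarith
      have c : 0 ≤ (k:ℝ) - j := by linarith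
      positivity
    · intro j hj; exact lowA h (mem_range.1 hj)
  refine le_trans ?_ h1
  rw [prod_div_distrib, prod_mul_distrib, prod_mul_distrib, prod_mul_distrib, Po_reflect, sq_prod]
  have e2 : ∏ j ∈ range k, (1 - (1/4)/((k:ℝ) - j)) = ∏ i ∈ range k, (1 - (1/4)/((i:ℝ)+1)) := by
    rw [← prod_range_reflect]
    apply prod_congr rfl
    intro j hj
    have hj' := mem_range.1 hj
    rw [Nat.cast_sub (by omega), Nat.cast_sub (by omega)]
    congr 2; push_cast; ring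
  rw [e2]
  have a1 := P1 (s := 1/4) (by norm_num) (by norm_num) k
  have a2 := P2 (s := 7/12) (c := (k:ℝ)+1) (by norm_num) (by norm_num) (by positivity) k
  have a3 : (1/2:ℝ) ≤ (((k:ℝ)+1)/((k:ℝ)+1+k))^(7/12:ℝ) := by
    have b1 : (1/2:ℝ) ≤ ((k:ℝ)+1)/((k:ℝ)+1+k) := by
      rw [div_le_div_iff₀ (by norm_num) (by positivity)]; linarith
    have b2 : ((k:ℝ)+1)/((k:ℝ)+1+k) ≤ 1 := by
      rw [div_le_one (by positivity)]; linarith
    calc (1/2:ℝ) ≤ (((k:ℝ)+1)/((k:ℝ)+1+k))^(1:ℝ) := by rw [Real.rpow_one]; exact b1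
      _ ≤ _ := Real.rpow_le_rpow_of_exponent_ge (by positivity) b2 (by norm_num)
  have a4 : ∏ j ∈ range k, (((k:ℝ)+1) + j + 1) = Po ((k:ℝ)+1) k := rfl
  rw [a4]
  set X := ∏ i ∈ range k, (1 - (1/4)/((i:ℝ)+1))
  set Y := ∏ j ∈ range k, (1 - (7/12)/(((k:ℝ)+1) + j + 1))
  have hX : (3/4) * (1/((k:ℝ)+1))^(1/4:ℝ) ≤ X := by
    refine le_trans (le_of_eq ?_) a1
    norm_num
  have hY : 1/2 ≤ Y := a3.trans a2
  have hp := Po_pos (c := (k:ℝ)+1) (by positivity) k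
  have hr : 0 ≤ (1/((k:ℝ)+1))^(1/4:ℝ) := by positivity
  have e5 : Po 0 k * X * (Po ((k:ℝ)+1) k * Y) / (Po 0 k)^2 = (Po ((k:ℝ)+1) k / Po 0 k) * (X * Y) := by
    field_simp
  rw [e5]
  apply mul_le_mul_of_nonneg_left _ (by positivity)
  calc (3/8) * (1/((k:ℝ)+1))^(1/4:ℝ) = ((3/4) * (1/((k:ℝ)+1))^(1/4:ℝ)) * (1/2) := by ring
    _ ≤ X * Y := mul_le_mul hX hY (by norm_num) (le_trans (by positivity) hX)

lemma prodB {x : ℕ → ℝ} (h : Near x) (k L : ℕ) :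
    (Po 0 L * Po (2*((k:ℝ)+1)) L / (Po ((k:ℝ)+1) L)^2) * ((17/24) * (1/((k:ℝ)+2))^(7/24:ℝ))
      ≤ ∏ i ∈ range L, |1 - (x k / x (k+1+i))^2| := by
  have hk : (0:ℝ) ≤ k := Nat.cast_nonneg k
  refine le_trans ?_ (Finset.prod_le_prod (f := fun i : ℕ => (((i:ℝ)+1) * (2*((k:ℝ)+1) + i + 1) / (((k:ℝ)+1) + i + 1)^2) *
      ((1 - (7/24)/((i:ℝ)+1)) * (1 - (7/24)/(2*((k:ℝ)+1) + i + 1)) / (1 - (7/24)/(((k:ℝ)+1) + i + 1))^2)) ?_
      (fun i _ => lowB h k i))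
  · rw [prod_mul_distrib, prod_div_distrib, prod_div_distrib, prod_mul_distrib, prod_mul_distrib]
    have a1 := upper_pert k L
    have e1 : ∏ i ∈ range L, ((i:ℝ)+1) = Po 0 L := by unfold Po; apply prod_congr rfl; intro i _; ring
    have e2 : ∏ i ∈ range L, (((k:ℝ)+1) + i + 1)^2 = (Po ((k:ℝ)+1) L)^2 := by unfold Po; rw [prod_pow]
    have e3 : ∏ i ∈ range L, (1 - (7/24)/(((k:ℝ)+1) + i + 1))^2 = (∏ i ∈ range L, (1 - (7/24)/(((k:ℝ)+1) + i + 1)))^2 := by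
      rw [prod_pow]
    have e4 : ∏ i ∈ range L, (2*((k:ℝ)+1) + i + 1) = Po (2*((k:ℝ)+1)) L := rfl
    rw [e1, e2, e3, e4]
    have p1 := Po_pos (c := 0) le_rfl L
    have p2 := Po_pos (c := 2*((k:ℝ)+1)) (by positivity) L
    have p3 := Po_pos (c := (k:ℝ)+1) (by positivity) L
    exact mul_le_mul_of_nonneg_left a1 (by positivity)
  · intro i _
    have hi : (0:ℝ) ≤ i := Nat.cast_nonneg i
    have a : 0 ≤ 1 - (7/24)/((i:ℝ)+1) := by rw [sub_nonneg, div_le_one (by linarith)]; linarith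
    have b : 0 ≤ 1 - (7/24)/(2*((k:ℝ)+1) + i + 1) := by rw [sub_nonneg, div_le_one (by linarith)]; linarith
    positivity

/-- lower bound for the finite products -/
lemma prod_ge {x : ℕ → ℝ} (h : Near x) {k N : ℕ} (hk : k < N) :
    (1/8) * (1/((k:ℝ)+2))^(13/24:ℝ) ≤ ∏ j ∈ (range N).erase k, |1 - (x k / x j)^2| := by
  have hk0 : (0:ℝ) ≤ k := Nat.cast_nonneg k
  obtain ⟨L, rfl⟩ : ∃ L, N = k + 1 + L := ⟨N - (k+1), by omega⟩
  have e : ∏ j ∈ (range (k+1+L)).erase k, |1 - (x k / x j)^2| =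
      (∏ j ∈ range k, |1 - (x k / x j)^2|) * ∏ i ∈ range L, |1 - (x k / x (k+1+i))^2| := by
    set f' : ℕ → ℝ := fun j => if j = k then 1 else |1 - (x k / x j)^2| with hf'
    have h1 : ∏ j ∈ (range (k+1+L)).erase k, |1 - (x k / x j)^2| = ∏ j ∈ (range (k+1+L)).erase k, f' j := by
      apply prod_congr rfl
      intro j hj
      rw [hf']; simp only; rw [if_neg (mem_erase.1 hj).1]
    have h2 := mul_prod_erase (range (k+1+L)) f' (a := k) (by simp; omega)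
    have h3 : f' k = 1 := by rw [hf']; simp
    rw [h3, one_mul] at h2
    rw [h1, h2, prod_range_add, prod_range_succ, h3, mul_one]
    congr 1
    · apply prod_congr rfl
      intro j hj
      have := mem_range.1 hj
      rw [hf']; simp only; rw [if_neg (by omega)]
    · apply prod_congr rfl
      intro i _
      rw [hf']; simp only; rw [if_neg (by omega)]
  rw [e]
  have a1 := prodA h k
  have a2 := prodB h k L
  have a3 := ref_ge k L
  set RA := Po ((k:ℝ)+1) k / Po 0 k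
  set RB := Po 0 L * Po (2*((k:ℝ)+1)) L / (Po ((k:ℝ)+1) L)^2
  have p1 : 0 < RA := div_pos (Po_pos (by positivity) _) (Po_pos le_rfl _)
  have p2 : 0 < RB := div_pos (mul_pos (Po_pos le_rfl _) (Po_pos (by positivity) _)) (pow_pos (Po_pos (by positivity) _) 2)
  have b1 : (1/((k:ℝ)+2))^(1/4:ℝ) ≤ (1/((k:ℝ)+1))^(1/4:ℝ) := by
    apply Real.rpow_le_rpow (by positivity) _ (by norm_num)
    apply one_div_le_one_div_of_le (by positivity); linarith
  have b2 : (1/((k:ℝ)+2))^(13/24:ℝ) = (1/((k:ℝ)+2))^(1/4:ℝ) * (1/((k:ℝ)+2))^(7/24:ℝ) := by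
    rw [← Real.rpow_add (by positivity)]; norm_num
  set u := (1/((k:ℝ)+2))^(1/4:ℝ)
  set w := (1/((k:ℝ)+2))^(7/24:ℝ)
  have hu : 0 ≤ u := by positivity
  have hw : 0 ≤ w := by positivity
  rw [b2]
  calc (1/8) * (u * w) ≤ (1/2) * (3/8) * (17/24) * (u * w) := by
        have : 0 ≤ u * w := by positivity
        nlinarith
    _ ≤ (RA * RB) * ((3/8) * (17/24) * (u * w)) := by
        have : 0 ≤ (3/8) * (17/24) * (u * w) := by positivity
        nlinarith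
    _ = (RA * ((3/8) * u)) * (RB * ((17/24) * w)) := by ring
    _ ≤ (RA * ((3/8) * (1/((k:ℝ)+1))^(1/4:ℝ))) * (RB * ((17/24) * w)) := by gcongr
    _ ≤ _ := by
        apply mul_le_mul a1 a2 (by positivity)
        exact le_trans (by positivity) a1

end Q66.FF
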