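import Pool.Agent.Q66.FF16

/-! Force field counterexample, part 17: the masses. -/

namespace Q66.FF

open Real Finset Filter Topology Complex

/-- the masses -/
noncomputable def ak (x : ℕ → ℝ) (k : ℕ) : ℝ := 1 / ‖deriv (GG x) (zk x k)‖

lemma zk_re {x : ℕ → ℝ} (k : ℕ) : (zk x k).re = -(√(x k)/√2) ∧ (zk x k).im = √(x k)/√2 := by
  unfold zk
  rw [Complex.re_ofReal_mul, Complex.im_ofReal_mul, om_re.1, om_re.2]
  constructor <;> ring

lemma prod_limit_ge {x : ℕ → ℝ} (h : Near x) (k : ℕ) :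
    (1/2) * √(x k) * (1/((k:ℝ)+2))^(13/24:ℝ) ≤ ‖deriv (GG x) (zk x k)‖ * ‖GG x (-(zk x k))‖ := by
  have h1 := (tendsto_deriv_GN h (zk x k)).norm.mul (tendsto_GN h (-(zk x k))).norm
  apply ge_of_tendsto h1
  filter_upwards [eventually_gt_atTop k] with N hN
  rw [norm_mul_GN h hN]
  have h2 := prod_ge h hN
  have h3 : 0 ≤ √(x k) := Real.sqrt_nonneg _
  calc (1/2) * √(x k) * (1/((k:ℝ)+2))^(13/24:ℝ) = 4 * √(x k) * ((1/8) * (1/((k:ℝ)+2))^(13/24:ℝ)) := by ring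
    _ ≤ _ := by gcongr

lemma deriv_ne {x : ℕ → ℝ} (h : Near x) (k : ℕ) : deriv (GG x) (zk x k) ≠ 0 := by
  intro h0
  have h1 := prod_limit_ge h k
  rw [h0, norm_zero, zero_mul] at h1
  have h2 : 0 < (1/2) * √(x k) * (1/((k:ℝ)+2))^(13/24:ℝ) := by
    have := Real.sqrt_pos.2 (h.pos k)
    positivity
  linarith

lemma ak_pos {x : ℕ → ℝ} (h : Near x) (k : ℕ) : 0 < ak x k := by
  unfold ak
  have := norm_pos_iff.2 (deriv_ne h k)
  positivity

lemma deriv_eq {x : ℕ → ℝ} (h : Near x) (hp : ∀ k, AA x (x k) = π * x k / 2 - π * ((k:ℝ) + 1)) (k : ℕ) :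
    deriv (GG x) (zk x k) = ((1 / ak x k : ℝ) : ℂ) := by
  obtain ⟨h1, h2⟩ := deriv_GG_nonneg h hp k
  have e : ‖deriv (GG x) (zk x k)‖ = (deriv (GG x) (zk x k)).re := by
    have : deriv (GG x) (zk x k) = (((deriv (GG x) (zk x k)).re : ℝ) : ℂ) := by
      apply Complex.ext <;> simp [h1]
    rw [this, Complex.norm_real, Complex.ofReal_re, Real.norm_eq_abs, abs_of_nonneg h2]
  unfold ak
  rw [one_div_one_div, e]
  apply Complex.ext <;> simp [h1]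

lemma norm_zk_ge {x : ℕ → ℝ} (h : Near x) {k : ℕ} (hk : 1 ≤ k) : 1 ≤ ‖zk x k‖ := by
  rw [norm_zk]
  have hk' : (1:ℝ) ≤ k := by exact_mod_cast hk
  apply Real.le_sqrt_of_sq_le
  linarith [h.lo k]

/-- growth of the masses -/
lemma ak_le : ∃ C : ℝ, 0 < C ∧ ∀ x : ℕ → ℝ, Near x → ∀ k : ℕ, 1 ≤ k → ak x k ≤ C * ((k:ℝ)+2)^(1/3:ℝ) := by
  obtain ⟨C, hC0, hC⟩ := sector_bound
  refine ⟨8 * Real.exp C, by positivity, fun x h k hk => ?_⟩
  have hn1 := norm_zk_ge h hk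
  have hre := (zk_re (x := x) k).1
  have hs := Real.sqrt_pos.2 (h.pos k)
  have h1 := hC x h (-(zk x k)) (by rw [norm_neg]; exact hn1) (by
    rw [norm_neg, Complex.neg_re, hre]
    have : 0 ≤ √(x k)/√2 := by positivity
    have := norm_nonneg (zk x k)
    linarith)
  obtain ⟨hne, hb⟩ := h1
  rw [norm_neg] at hb
  have hb2 := (abs_le.1 hb).2
  have hgp : 0 < ‖GG x (-(zk x k))‖ := norm_pos_iff.2 hne
  have hzp : 0 < ‖zk x k‖ := by linarith
  have hub : ‖GG x (-(zk x k))‖ ≤ Real.exp C * ‖zk x k‖^(7/12:ℝ) := by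
    calc ‖GG x (-(zk x k))‖ = Real.exp (Real.log ‖GG x (-(zk x k))‖) := (Real.exp_log hgp).symm
      _ ≤ Real.exp (C + Real.log ‖zk x k‖ * (7/12)) := Real.exp_le_exp.2 (by linarith)
      _ = Real.exp C * ‖zk x k‖^(7/12:ℝ) := by rw [Real.exp_add, Real.rpow_def_of_pos hzp]
  have hlow := prod_limit_ge h k
  have hd := norm_pos_iff.2 (deriv_ne h k)
  unfold ak
  rw [div_le_iff₀ hd]
  set d := ‖deriv (GG x) (zk x k)‖
  rw [norm_zk] at hub
  set K : ℝ := (k:ℝ) + 2 with hK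
  have hk0 : (0:ℝ) ≤ k := Nat.cast_nonneg k
  have hK0 : 0 < K := by linarith
  -- (1/2) √x K^{-13/24} ≤ d e^C (√x)^{7/12}
  have h5 : (1/2) * √(x k) * (1/K)^(13/24:ℝ) ≤ d * (Real.exp C * √(x k)^(7/12:ℝ)) := hlow.trans (by gcongr)
  have e1 : √(x k) = √(x k)^(7/12:ℝ) * √(x k)^(5/12:ℝ) := by
    rw [← Real.rpow_add hs]; norm_num
  have e2 : (1/K)^(13/24:ℝ) = (K^(13/24:ℝ))⁻¹ := by
    rw [one_div, Real.inv_rpow hK0.le]
  have h6 : (1/2) * √(x k)^(5/12:ℝ) ≤ d * Real.exp C * K^(13/24:ℝ) := by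
    have hr : 0 < √(x k)^(7/12:ℝ) := Real.rpow_pos_of_pos hs _
    have hKr : 0 < K^(13/24:ℝ) := Real.rpow_pos_of_pos hK0 _
    rw [e2] at h5
    rw [mul_assoc] at h5
    have h7 : √(x k)^(7/12:ℝ) * ((1/2) * √(x k)^(5/12:ℝ)) ≤ √(x k)^(7/12:ℝ) * (d * Real.exp C * K^(13/24:ℝ)) := by
      calc √(x k)^(7/12:ℝ) * ((1/2) * √(x k)^(5/12:ℝ)) = ((1/2) * (√(x k) * (K^(13/24:ℝ))⁻¹)) * K^(13/24:ℝ) := by
            rw [mul_assoc (1/2), mul_assoc (√(x k)), inv_mul_cancel₀ hKr.ne', mul_one]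
            nth_rewrite 3 [e1]; ring
        _ ≤ (d * (Real.exp C * √(x k)^(7/12:ℝ))) * K^(13/24:ℝ) := by gcongr
        _ = _ := by ring
    exact le_of_mul_le_mul_left h7 hr
  -- √x^{5/12} ≥ (K/4)^{5/24} ≥ (1/4) K^{5/24}
  have h8 : (1/4) * K^(5/24:ℝ) ≤ √(x k)^(5/12:ℝ) := by
    have hx : K/4 ≤ x k := by have := h.lo k; rw [hK]; linarith
    have e3 : √(x k)^(5/12:ℝ) = (x k)^(5/24:ℝ) := by
      rw [Real.sqrt_eq_rpow, ← Real.rpow_mul (h.pos k).le]; norm_num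
    rw [e3]
    calc (1/4) * K^(5/24:ℝ) ≤ (1/4)^(5/24:ℝ) * K^(5/24:ℝ) := by
          gcongr
          calc (1/4:ℝ) = (1/4:ℝ)^(1:ℝ) := by rw [Real.rpow_one]
            _ ≤ _ := Real.rpow_le_rpow_of_exponent_ge (by norm_num) (by norm_num) (by norm_num)
      _ = (K/4)^(5/24:ℝ) := by rw [← Real.mul_rpow (by norm_num) hK0.le]; congr 1; ring
      _ ≤ _ := Real.rpow_le_rpow (by positivity) hx (by norm_num)
  have e4 : K^(13/24:ℝ) = K^(5/24:ℝ) * K^(1/3:ℝ) := by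
    rw [← Real.rpow_add hK0]; norm_num
  have hKr : 0 < K^(5/24:ℝ) := Real.rpow_pos_of_pos hK0 _
  rw [e4] at h6
  have h9 : K^(5/24:ℝ) * 1 ≤ K^(5/24:ℝ) * (8 * Real.exp C * K^(1/3:ℝ) * d) := by nlinarith
  exact le_of_mul_le_mul_left h9 hKr

lemma summable_a3 {x : ℕ → ℝ} (h : Near x) : Summable (fun k => ak x k / (x k * √(x k))) := by
  obtain ⟨C, hC0, hC⟩ := ak_le
  rw [← summable_nat_add_iff 1]
  have hs : Summable (fun k : ℕ => C * 27 * (1 / ((k:ℝ)+3)^(7/6:ℝ))) := by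
    apply Summable.mul_left
    have := (summable_nat_add_iff (f := fun j : ℕ => 1 / (j:ℝ)^(7/6:ℝ)) 3).2
      (Real.summable_one_div_nat_rpow.2 (by norm_num))
    simpa using this
  refine Summable.of_nonneg_of_le (fun k => ?_) (fun k => ?_) hs
  · have := ak_pos h (k+1); have := h.pos (k+1); positivity
  · have h1 := hC x h (k+1) (by omega)
    push_cast at h1
    have hk0 : (0:ℝ) ≤ k := Nat.cast_nonneg k
    have e0 : (k:ℝ) + 1 + 2 = (k:ℝ) + 3 := by ring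
    rw [e0] at h1
    set K : ℝ := (k:ℝ) + 3 with hK
    have hK0 : 0 < K := by linarith
    have hx : K/3 ≤ x (k+1) := by have := h.lo (k+1); push_cast at this; linarith
    have hxp := h.pos (k+1)
    have hsq : √K/3 ≤ √(x (k+1)) := by
      rw [show √K/3 = √(K/9) by rw [Real.sqrt_div' _ (by norm_num)]; congr 1; rw [show (9:ℝ) = 3^2 by norm_num, Real.sqrt_sq (by norm_num)]]
      exact Real.sqrt_le_sqrt (by linarith)
    have hKs : 0 < √K := Real.sqrt_pos.2 hK0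
    have h2 : K * √K / 9 ≤ x (k+1) * √(x (k+1)) := by
      calc K * √K / 9 = (K/3) * (√K/3) := by ring
        _ ≤ _ := mul_le_mul hx hsq (by positivity) hxp.le
    have e1 : K^(7/6:ℝ) * K^(1/3:ℝ) = K * √K := by
      rw [← Real.rpow_add hK0, Real.sqrt_eq_rpow]
      nth_rewrite 2 [← Real.rpow_one K]
      rw [← Real.rpow_add hK0]; norm_num
    have hK76 : 0 < K^(7/6:ℝ) := Real.rpow_pos_of_pos hK0 _
    have hK13 : 0 < K^(1/3:ℝ) := Real.rpow_pos_of_pos hK0 _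
    rw [mul_one_div, div_le_div_iff₀ (by have := Real.sqrt_pos.2 hxp; positivity) hK76]
    calc ak x (k+1) * K^(7/6:ℝ) ≤ (C * K^(1/3:ℝ)) * K^(7/6:ℝ) := by gcongr
      _ = C * (K * √K) := by rw [← e1]; ring
      _ ≤ C * (27 * (x (k+1) * √(x (k+1)))) := by
          apply mul_le_mul_of_nonneg_left _ hC0.le
          have : 0 ≤ K * √K := by positivity
          linarith
      _ = C * 27 * (x (k+1) * √(x (k+1))) := by ring

end Q66.FF
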