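import Pool.Agent.Q66.FF17

/-! Force field counterexample, part 18: the interpolation function and the quotient. -/

namespace Q66.FF

open Real Finset Filter Topology Complex

/-- quotient of an entire function by an entire function with simple zeros -/
noncomputable def quo (E g : ℂ → ℂ) (z : ℂ) : ℂ := if g z = 0 then deriv E z / deriv g z else E z / g z

lemma differentiable_dslope {f : ℂ → ℂ} (hf : Differentiable ℂ f) (c : ℂ) : Differentiable ℂ (dslope f c) := by
  rw [← differentiableOn_univ]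
  exact (Complex.differentiableOn_dslope Filter.univ_mem).2 hf.differentiableOn

lemma differentiable_quo {E g : ℂ → ℂ} (hE : Differentiable ℂ E) (hg : Differentiable ℂ g)
    (h : ∀ z, g z = 0 → E z = 0 ∧ deriv g z ≠ 0) : Differentiable ℂ (quo E g) := by
  intro z0
  by_cases h0 : g z0 = 0
  · obtain ⟨hE0, hg0⟩ := h z0 h0
    have hdg := differentiable_dslope hg z0
    have hdE := differentiable_dslope hE z0
    have hne : dslope g z0 z0 ≠ 0 := by rw [dslope_same]; exact hg0
    have hev : ∀ᶠ z in 𝓝 z0, dslope g z0 z ≠ 0 := hdg.continuous.continuousAt.eventually_ne hne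
    have heq : quo E g =ᶠ[𝓝 z0] fun z => dslope E z0 z / dslope g z0 z := by
      filter_upwards [hev] with z hz
      by_cases hzz : z = z0
      · subst hzz
        unfold quo
        rw [if_pos h0, dslope_same, dslope_same]
      · have e1 : g z = (z - z0) * dslope g z0 z := by
          have := sub_smul_dslope g z0 z
          rw [h0, sub_zero, smul_eq_mul] at this; exact this.symm
        have e2 : E z = (z - z0) * dslope E z0 z := by
          have := sub_smul_dslope E z0 z
          rw [hE0, sub_zero, smul_eq_mul] at this; exact this.symm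
        have hs : z - z0 ≠ 0 := sub_ne_zero.2 hzz
        have hgz : g z ≠ 0 := by rw [e1]; exact mul_ne_zero hs hz
        unfold quo
        rw [if_neg hgz, e1, e2]
        rw [mul_div_mul_left _ _ hs]
    exact ((hdE z0).fun_div (hdg z0) hne).congr_of_eventuallyEq heq
  · have hev : ∀ᶠ z in 𝓝 z0, g z ≠ 0 := hg.continuous.continuousAt.eventually_ne h0
    have heq : quo E g =ᶠ[𝓝 z0] fun z => E z / g z := by
      filter_upwards [hev] with z hz
      unfold quo; rw [if_neg hz]
    exact ((hE z0).fun_div (hg z0) h0).congr_of_eventuallyEq heq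

/-- bound for divided differences on a ball -/
lemma dslope_bound {g : ℂ → ℂ} (hg : Differentiable ℂ g) {R : ℝ} (hR : 0 < R) :
    ∃ C : ℝ, 0 ≤ C ∧ ∀ w : ℂ, w ≠ 0 → g w = 0 → ∀ z : ℂ, ‖z‖ ≤ R → ‖dslope g w z‖ ≤ C / ‖w‖ := by
  have hc1 : ContinuousOn g (Metric.closedBall 0 R) := hg.continuous.continuousOn
  have hc2 : ContinuousOn (deriv g) (Metric.closedBall 0 (2*R)) := by
    have : Continuous (deriv g) := (hg.contDiff (n := 1)).continuous_deriv le_rfl
    exact this.continuousOn
  obtain ⟨M1, hM1⟩ := (isCompact_closedBall (0:ℂ) R).exists_bound_of_continuousOn hc1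
  obtain ⟨M2, hM2⟩ := (isCompact_closedBall (0:ℂ) (2*R)).exists_bound_of_continuousOn hc2
  have hM2' : 0 ≤ M2 := (norm_nonneg _).trans (hM2 0 (by simp; positivity))
  have hM1' : 0 ≤ M1 := (norm_nonneg _).trans (hM1 0 (by simp; positivity))
  refine ⟨2 * M1 + 2 * R * M2, by positivity, fun w hw0 hw z hz => ?_⟩
  have hwp : 0 < ‖w‖ := norm_pos_iff.2 hw0
  have hz' : z ∈ Metric.closedBall (0:ℂ) R := by simpa using hz
  rw [le_div_iff₀ hwp]
  rcases le_or_gt ‖w‖ (2*R) with h1 | h1
  · have hb : ‖dslope g w z‖ ≤ M2 := by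
      by_cases hzw : z = w
      · subst hzw; rw [dslope_same]; exact hM2 z (by simpa using h1)
      · rw [dslope_of_ne _ hzw, slope_def_field, norm_div]
        have hp : 0 < ‖z - w‖ := norm_pos_iff.2 (sub_ne_zero.2 hzw)
        rw [div_le_iff₀ hp]
        exact (convex_closedBall (0:ℂ) (2*R)).norm_image_sub_le_of_norm_hasDerivWithin_le
          (f := g) (f' := deriv g) (C := M2) (x := w) (y := z)
          (fun u _ => (hg u).hasDerivAt.hasDerivWithinAt) hM2 (by simpa using h1) (by simp; linarith)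
    calc ‖dslope g w z‖ * ‖w‖ ≤ M2 * (2 * R) := by gcongr
      _ ≤ _ := by linarith
  · have hzw : z ≠ w := by
      intro h; rw [h] at hz; linarith
    rw [dslope_of_ne _ hzw, slope_def_field, hw, sub_zero, norm_div]
    have hd : ‖w‖/2 ≤ ‖z - w‖ := by
      have := norm_sub_norm_le w z
      rw [norm_sub_rev] at this
      linarith
    have hp : 0 < ‖z - w‖ := by linarith
    rw [div_mul_eq_mul_div, div_le_iff₀ hp]
    have := hM1 z hz'
    calc ‖g z‖ * ‖w‖ ≤ M1 * (2 * ‖z - w‖) := by
          apply mul_le_mul this (by linarith) hwp.le hM1'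
      _ ≤ (2 * M1 + 2 * R * M2) * ‖z - w‖ := by
          have : 0 ≤ 2 * R * M2 * ‖z - w‖ := by positivity
          linarith

lemma zk_ne {x : ℕ → ℝ} (h : Near x) (k : ℕ) : zk x k ≠ 0 := by
  rw [← norm_pos_iff, norm_zk]; exact Real.sqrt_pos.2 (h.pos k)

/-- terms of the interpolation series -/
noncomputable def TT (x : ℕ → ℝ) (k : ℕ) (z : ℂ) : ℂ :=
  (ak x k : ℂ) * (z^2 / (zk x k)^2 * dslope (GG x) (zk x k) z +
    z^2 / ((starRingEnd ℂ) (zk x k))^2 * dslope (GG x) ((starRingEnd ℂ) (zk x k)) z)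

noncomputable def EE (x : ℕ → ℝ) (z : ℂ) : ℂ := 1 - dslope (GG x) 0 z - ∑' k, TT x k z

lemma GG_zk {x : ℕ → ℝ} (h : Near x) (k : ℕ) : GG x (zk x k) = 0 := (GG_eq_zero_iff h _).2 (Or.inr ⟨k, Or.inl rfl⟩)
lemma GG_zkc {x : ℕ → ℝ} (h : Near x) (k : ℕ) : GG x ((starRingEnd ℂ) (zk x k)) = 0 :=
  (GG_eq_zero_iff h _).2 (Or.inr ⟨k, Or.inr rfl⟩)
lemma GG_0 {x : ℕ → ℝ} (h : Near x) : GG x 0 = 0 := (GG_eq_zero_iff h _).2 (Or.inl rfl)

lemma TT_bound {x : ℕ → ℝ} (h : Near x) {R : ℝ} (hR : 0 < R) : ∃ C : ℝ, 0 ≤ C ∧ ∀ k : ℕ, ∀ z : ℂ, ‖z‖ ≤ R →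
    ‖TT x k z‖ ≤ C * (ak x k / (x k * √(x k))) := by
  obtain ⟨C, hC0, hC⟩ := dslope_bound (differentiable_GG h) hR
  refine ⟨2 * R^2 * C, by positivity, fun k z hz => ?_⟩
  have hn := norm_zk (x := x) k
  have hx := h.pos k
  have hs := Real.sqrt_pos.2 hx
  have h1 := hC _ (zk_ne h k) (GG_zk h k) z hz
  have h2 := hC ((starRingEnd ℂ) (zk x k)) (by rw [← norm_pos_iff, Complex.norm_conj, hn]; exact hs) (GG_zkc h k) z hz
  rw [Complex.norm_conj] at h2
  rw [hn] at h1 h2
  have ha := ak_pos h k
  unfold TT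
  rw [norm_mul, Complex.norm_real, Real.norm_eq_abs, abs_of_pos ha]
  have e2 : √(x k)^2 = x k := Real.sq_sqrt hx.le
  have b1 : ‖z^2 / (zk x k)^2 * dslope (GG x) (zk x k) z‖ ≤ R^2 / x k * (C / √(x k)) := by
    rw [norm_mul, norm_div, norm_pow, norm_pow, hn, e2]
    gcongr
  have b2 : ‖z^2 / ((starRingEnd ℂ) (zk x k))^2 * dslope (GG x) ((starRingEnd ℂ) (zk x k)) z‖ ≤ R^2 / x k * (C / √(x k)) := by
    rw [norm_mul, norm_div, norm_pow, norm_pow, Complex.norm_conj, hn, e2]
    gcongr
  calc _ ≤ ak x k * (R^2 / x k * (C / √(x k)) + R^2 / x k * (C / √(x k))) := by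
        gcongr
        exact (norm_add_le _ _).trans (add_le_add b1 b2)
    _ = _ := by field_simp; ring

lemma differentiable_EE {x : ℕ → ℝ} (h : Near x) : Differentiable ℂ (EE x) := by
  have hT : Differentiable ℂ (fun z => ∑' k, TT x k z) := by
    intro z0
    obtain ⟨C, hC0, hC⟩ := TT_bound h (show 0 < ‖z0‖ + 1 by positivity)
    have hs : Summable (fun k => C * (ak x k / (x k * √(x k)))) := (summable_a3 h).mul_left C
    have := differentiableOn_tsum_of_summable_norm hs (F := fun k z => TT x k z) (U := Metric.ball (0:ℂ) (‖z0‖+1))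
      (fun k => by
        have d1 := differentiable_dslope (differentiable_GG h) (zk x k)
        have d2 := differentiable_dslope (differentiable_GG h) ((starRingEnd ℂ) (zk x k))
        have : Differentiable ℂ (fun z => TT x k z) := by
          unfold TT
          fun_prop
        exact this.differentiableOn) Metric.isOpen_ball
      (fun k z hz => hC k z (by
        have := (Metric.mem_ball.1 hz).le
        rwa [dist_zero_right] at this))
    exact this.differentiableAt (Metric.isOpen_ball.mem_nhds (by simp))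
  unfold EE
  have d0 := differentiable_dslope (differentiable_GG h) 0
  fun_prop

end Q66.FF
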