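import Pool.Agent.Q66.FF18

/-! Force field counterexample, part 19: the entire function `D = 1/G - 1/z - S₂`. -/

namespace Q66.FF

open Real Finset Filter Topology Complex

/-- phase equations -/
def Phase (x : ℕ → ℝ) : Prop := ∀ k, AA x (x k) = π * x k / 2 - π * ((k:ℝ) + 1)

lemma zk_im_pos {x : ℕ → ℝ} (h : Near x) (k : ℕ) : 0 < (zk x k).im := by
  rw [(zk_re k).2]; have := Real.sqrt_pos.2 (h.pos k); positivity

lemma zk_inj {x : ℕ → ℝ} (h : Near x) {j k : ℕ} (hjk : zk x j = zk x k) : j = k := by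
  by_contra hne
  have h1 : ‖zk x j‖ = ‖zk x k‖ := by rw [hjk]
  rw [norm_zk, norm_zk] at h1
  rcases lt_or_gt_of_ne hne with h2 | h2
  · have := Real.sqrt_lt_sqrt (h.pos j).le (h.strict h2); linarith
  · have := Real.sqrt_lt_sqrt (h.pos k).le (h.strict h2); linarith

lemma zk_ne_conj {x : ℕ → ℝ} (h : Near x) (j k : ℕ) : zk x j ≠ (starRingEnd ℂ) (zk x k) := by
  intro h1
  have h2 := congrArg Complex.im h1
  rw [Complex.conj_im] at h2
  have := zk_im_pos h j; have := zk_im_pos h k; linarith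

lemma dslope_zero_of_ne {g : ℂ → ℂ} {c z : ℂ} (hne : z ≠ c) (h1 : g c = 0) (h2 : g z = 0) : dslope g c z = 0 := by
  rw [dslope_of_ne _ hne, slope_def_field, h1, h2]; simp

lemma deriv_conj_zk {x : ℕ → ℝ} (h : Near x) (hp : Phase x) (k : ℕ) :
    deriv (GG x) ((starRingEnd ℂ) (zk x k)) = ((1 / ak x k : ℝ) : ℂ) := by
  rw [deriv_GG_conj h, deriv_eq h hp, Complex.conj_ofReal]

lemma EE_zero {x : ℕ → ℝ} (h : Near x) (hp : Phase x) {z : ℂ} (hz : GG x z = 0) : EE x z = 0 := by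
  unfold EE
  rcases (GG_eq_zero_iff h z).1 hz with h0 | ⟨k, h1 | h1⟩
  · subst h0
    have : ∀ k, TT x k 0 = 0 := by intro k; unfold TT; simp
    simp only [this, tsum_zero, dslope_same, deriv_GG_zero h]
    ring
  · subst h1
    have e0 : dslope (GG x) 0 (zk x k) = 0 := dslope_zero_of_ne (zk_ne h k) (GG_0 h) hz
    have e1 : ∀ j, j ≠ k → TT x j (zk x k) = 0 := by
      intro j hj
      unfold TT
      rw [dslope_zero_of_ne (fun h2 => hj (zk_inj h h2).symm) (GG_zk h j) hz,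
        dslope_zero_of_ne (zk_ne_conj h k j) (GG_zkc h j) hz]
      simp
    rw [e0, tsum_eq_single k e1]
    unfold TT
    rw [dslope_zero_of_ne (zk_ne_conj h k k) (GG_zkc h k) hz, dslope_same, deriv_eq h hp]
    have a := (ak_pos h k).ne'
    have b := zk_ne h k
    have a' : (ak x k : ℂ) ≠ 0 := by exact_mod_cast a
    push_cast
    field_simp
    ring
  · subst h1
    have hcne : (starRingEnd ℂ) (zk x k) ≠ 0 := by
      rw [← norm_pos_iff, Complex.norm_conj, norm_zk]; exact Real.sqrt_pos.2 (h.pos k)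
    have e0 : dslope (GG x) 0 ((starRingEnd ℂ) (zk x k)) = 0 := dslope_zero_of_ne hcne (GG_0 h) hz
    have e1 : ∀ j, j ≠ k → TT x j ((starRingEnd ℂ) (zk x k)) = 0 := by
      intro j hj
      unfold TT
      rw [dslope_zero_of_ne (fun h2 => zk_ne_conj h j k h2.symm) (GG_zk h j) hz,
        dslope_zero_of_ne (fun h2 => hj (zk_inj h ((starRingEnd ℂ).injective h2)).symm) (GG_zkc h j) hz]
      simp
    rw [e0, tsum_eq_single k e1]
    unfold TT
    rw [dslope_zero_of_ne (fun h2 => zk_ne_conj h k k h2.symm) (GG_zk h k) hz, dslope_same, deriv_conj_zk h hp]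
    have a := (ak_pos h k).ne'
    have a' : (ak x k : ℂ) ≠ 0 := by exact_mod_cast a
    push_cast
    field_simp
    ring

lemma deriv_ne_zero {x : ℕ → ℝ} (h : Near x) {z : ℂ} (hz : GG x z = 0) : deriv (GG x) z ≠ 0 := by
  rcases (GG_eq_zero_iff h z).1 hz with h0 | ⟨k, h1 | h1⟩
  · subst h0; rw [deriv_GG_zero h]; exact one_ne_zero
  · subst h1; exact deriv_ne h k
  · subst h1; rw [deriv_GG_conj h]
    intro h2
    exact deriv_ne h k ((map_eq_zero (starRingEnd ℂ)).1 h2)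

noncomputable def DD (x : ℕ → ℝ) : ℂ → ℂ := quo (EE x) (GG x)

lemma differentiable_DD {x : ℕ → ℝ} (h : Near x) (hp : Phase x) : Differentiable ℂ (DD x) :=
  differentiable_quo (differentiable_EE h) (differentiable_GG h) (fun _ hz => ⟨EE_zero h hp hz, deriv_ne_zero h hz⟩)

/-- terms of `S₂` -/
noncomputable def S2t (x : ℕ → ℝ) (k : ℕ) (z : ℂ) : ℂ :=
  (ak x k : ℂ) * (z^2 / ((zk x k)^2 * (z - zk x k)) +
    z^2 / (((starRingEnd ℂ) (zk x k))^2 * (z - (starRingEnd ℂ) (zk x k))))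

lemma DD_eq {x : ℕ → ℝ} (h : Near x) {z : ℂ} (hz : GG x z ≠ 0) :
    DD x z = 1 / GG x z - 1 / z - ∑' k, S2t x k z := by
  have hz' : ¬ (z = 0 ∨ ∃ k, z = zk x k ∨ z = (starRingEnd ℂ) (zk x k)) := fun hc => hz ((GG_eq_zero_iff h z).2 hc)
  push Not at hz'
  obtain ⟨h0, h1⟩ := hz'
  unfold DD quo
  rw [if_neg hz]
  unfold EE
  rw [sub_div, sub_div, ← tsum_div_const]
  congr 1
  · congr 1
    rw [dslope_of_ne _ h0, slope_def_field, GG_0 h]
    field_simp
    ring
  · congr 1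
    funext k
    obtain ⟨h2, h3⟩ := h1 k
    unfold TT S2t
    rw [dslope_of_ne _ h2, dslope_of_ne _ h3, slope_def_field, slope_def_field, GG_zk h, GG_zkc h]
    have hk := zk_ne h k
    have hkc : (starRingEnd ℂ) (zk x k) ≠ 0 := by
      rw [← norm_pos_iff, Complex.norm_conj, norm_zk]; exact Real.sqrt_pos.2 (h.pos k)
    have a1 : z - zk x k ≠ 0 := sub_ne_zero.2 h2
    have a2 : z - (starRingEnd ℂ) (zk x k) ≠ 0 := sub_ne_zero.2 h3
    rw [sub_zero]
    field_simp

end Q66.FF
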