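import Pool.Agent.Q66.FF1

/-! Force field counterexample, part 2: bounds for the finite sums. -/

namespace Q66.FF

open Real Finset Filter Topology

/-- the sequence `x` is close to `j + 5/6` -/
def Near (x : ℕ → ℝ) : Prop := ∀ j : ℕ, |x j - (j + 5/6)| ≤ 1/8

lemma Near.lo {x : ℕ → ℝ} (h : Near x) (j : ℕ) : (j:ℝ) + 17/24 ≤ x j := by
  have := (abs_le.1 (h j)).1; linarith

lemma Near.hi {x : ℕ → ℝ} (h : Near x) (j : ℕ) : x j ≤ (j:ℝ) + 23/24 := by
  have := (abs_le.1 (h j)).2; linarith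

lemma Near.pos {x : ℕ → ℝ} (h : Near x) (j : ℕ) : 0 < x j := by
  have := h.lo j; have : (0:ℝ) ≤ j := Nat.cast_nonneg j; linarith

lemma sumK_le {x : ℕ → ℝ} (h : Near x) {y : ℝ} (hy : 0 < y) (N : ℕ) :
    ∑ j ∈ range N, K y (x j) ≤ Ph y (N + 5/24) - Ph y (5/24) := by
  induction N with
  | zero => simp
  | succ n ih =>
    rw [sum_range_succ]
    have hn : (0:ℝ) ≤ n := Nat.cast_nonneg n
    have h1 : K y (x n) ≤ K y (n + 17/24) := K_anti hy.le (by linarith) (h.lo n)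
    have h2 := K_mid (y := y) (m := n + 17/24) hy (by linarith)
    have e1 : (n:ℝ) + 17/24 + 1/2 = ((n+1 : ℕ):ℝ) + 5/24 := by push_cast; ring
    have e2 : (n:ℝ) + 17/24 - 1/2 = (n:ℝ) + 5/24 := by ring
    rw [e1, e2] at h2
    linarith

lemma K_le_diff {y m : ℝ} (hy : 0 < y) (hm : 0 < m) : Ph y (m + 1) - Ph y m ≤ K y m := by
  obtain ⟨ξ, h1, e1⟩ := exists_hasDerivAt_eq_slope (Ph y) (fun t => K y t) (show m < m + 1 by linarith)
      (fun t ht => (hasDeriv_Ph hy (by linarith [ht.1] : 0 < t)).continuousAt.continuousWithinAt)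
      (fun t ht => hasDeriv_Ph hy (by linarith [ht.1]))
  have e2 : Ph y (m+1) - Ph y m = K y ξ := by rw [e1]; ring
  rw [e2]; exact K_anti hy.le hm h1.1.le

lemma sumK_ge {x : ℕ → ℝ} (h : Near x) {y : ℝ} (hy : 0 < y) (N : ℕ) :
    Ph y (N + 23/24) - Ph y (23/24) ≤ ∑ j ∈ range N, K y (x j) := by
  induction N with
  | zero => simp
  | succ n ih =>
    rw [sum_range_succ]
    have hn : (0:ℝ) ≤ n := Nat.cast_nonneg n
    have h1 : K y (n + 23/24) ≤ K y (x n) := K_anti hy.le (h.pos n) (h.hi n)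
    have h2 := K_le_diff (y := y) (m := n + 23/24) hy (by linarith)
    have e1 : (n:ℝ) + 23/24 + 1 = ((n+1 : ℕ):ℝ) + 23/24 := by push_cast; ring
    rw [e1] at h2
    linarith

lemma inv_sqrt_anti {s t : ℝ} (hs : 0 < s) (h : s ≤ t) : 1 / √t ≤ 1 / √s :=
  one_div_le_one_div_of_le (Real.sqrt_pos.2 hs) (Real.sqrt_le_sqrt h)

lemma trap {m : ℝ} (hm : 0 < m) : 2 * (√(m+1) - √m) ≤ (1/2) * (1/√m + 1/√(m+1)) := by
  have hp : 0 < √m := Real.sqrt_pos.2 hm
  have hq : 0 < √(m+1) := Real.sqrt_pos.2 (by linarith)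
  have e1 : √m ^ 2 = m := Real.sq_sqrt hm.le
  have e2 : √(m+1) ^ 2 = m+1 := Real.sq_sqrt (by linarith)
  set p := √m
  set q := √(m+1)
  have h1 : (q - p) * (q + p) = 1 := by nlinarith
  have h2 : 0 < q - p := by
    by_contra hc
    push Not at hc
    nlinarith
  rw [div_add_div _ _ hp.ne' hq.ne', mul_div_assoc', le_div_iff₀ (by positivity)]
  have h3 : 4 * (p * q) ≤ (p+q)^2 := by nlinarith [sq_nonneg (p - q)]
  have h4 : (q-p) * (4 * (p * q)) ≤ (q-p)*(p+q)^2 := mul_le_mul_of_nonneg_left h3 h2.le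
  nlinarith

lemma midinv {m : ℝ} (hm : 1/2 < m) : 1/√m ≤ 2 * (√(m+1/2) - √(m-1/2)) := by
  have hm0 : 0 < m := by linarith
  have hp : 0 < √(m-1/2) := Real.sqrt_pos.2 (by linarith)
  have hq : 0 < √(m+1/2) := Real.sqrt_pos.2 (by linarith)
  have hr : 0 < √m := Real.sqrt_pos.2 hm0
  have e1 : √(m-1/2) ^ 2 = m-1/2 := Real.sq_sqrt (by linarith)
  have e2 : √(m+1/2) ^ 2 = m+1/2 := Real.sq_sqrt (by linarith)
  have e3 : √m^2 = m := Real.sq_sqrt hm0.le
  set p := √(m-1/2)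
  set q := √(m+1/2)
  set r := √m
  have h1 : (q - p) * (q + p) = 1 := by nlinarith
  have h2 : (q + p) ≤ 2 * r := by
    apply le_of_sq_le_sq _ (by positivity)
    nlinarith [sq_nonneg (q - p)]
  have h3 : 0 < q - p := by
    by_contra hc
    push Not at hc
    nlinarith
  rw [div_le_iff₀ hr]
  nlinarith

lemma sum_inv_ge_aux (N : ℕ) : 2 * √(N + 23/24) - 2 * √(23/24) + (1/2) * (1/√(23/24)) - (1/2) * (1/√(N+23/24))
    ≤ ∑ j ∈ range N, 1 / √((j:ℝ) + 23/24) := by
  induction N with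
  | zero => simp
  | succ n ih =>
    rw [sum_range_succ]
    have hn : (0:ℝ) ≤ n := Nat.cast_nonneg n
    have h2 := trap (m := n + 23/24) (by linarith)
    have e1 : (n:ℝ) + 23/24 + 1 = ((n+1 : ℕ):ℝ) + 23/24 := by push_cast; ring
    rw [e1] at h2
    linarith

lemma sum_inv_ge {x : ℕ → ℝ} (h : Near x) (N : ℕ) :
    -1.4472 ≤ ∑ j ∈ range N, 1 / √(x j) - 2 * √N := by
  have h1 : ∑ j ∈ range N, 1 / √((j:ℝ) + 23/24) ≤ ∑ j ∈ range N, 1 / √(x j) :=
    sum_le_sum (fun j _ => inv_sqrt_anti (h.pos j) (h.hi j))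
  have h2 := sum_inv_ge_aux N
  have hN : (0:ℝ) ≤ N := Nat.cast_nonneg N
  have ha : √(23/24 : ℝ) ≤ 0.97895 := by
    apply Real.sqrt_le_iff.2; constructor <;> norm_num
  have ha' : 0 < √(23/24 : ℝ) := Real.sqrt_pos.2 (by norm_num)
  have ha2 : 1/0.97895 ≤ 1/√(23/24 : ℝ) := one_div_le_one_div_of_le ha' ha
  have h3 : (1/2) * (1/√(N+23/24)) ≤ 2 * √((N:ℝ)+23/24) - 2 * √N := by
    have hq : 0 < √((N:ℝ)+23/24) := Real.sqrt_pos.2 (by linarith)
    have hp : 0 ≤ √(N:ℝ) := Real.sqrt_nonneg _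
    have e1 : √(N:ℝ) ^ 2 = N := Real.sq_sqrt hN
    have e2 : √((N:ℝ)+23/24) ^ 2 = N+23/24 := Real.sq_sqrt (by linarith)
    have hle : √(N:ℝ) ≤ √((N:ℝ)+23/24) := Real.sqrt_le_sqrt (by linarith)
    set p := √(N:ℝ)
    set q := √((N:ℝ)+23/24)
    rw [mul_one_div, div_le_iff₀ hq]
    nlinarith
  have h4 : (1/0.97895 : ℝ) * (1/2) - 2 * 0.97895 ≥ -1.4472 := by norm_num
  linarith

lemma sum_inv_le {x : ℕ → ℝ} (h : Near x) (N : ℕ) :
    ∑ j ∈ range N, 1 / √(x j) ≤ 2 * √(N + 5/24) - 2 * √(5/24) := by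
  induction N with
  | zero => simp
  | succ n ih =>
    rw [sum_range_succ]
    have hn : (0:ℝ) ≤ n := Nat.cast_nonneg n
    have h1 : 1/√(x n) ≤ 1/√((n:ℝ) + 17/24) := inv_sqrt_anti (by linarith) (h.lo n)
    have h2 := midinv (m := n + 17/24) (by linarith)
    have e1 : (n:ℝ) + 17/24 + 1/2 = ((n+1 : ℕ):ℝ) + 5/24 := by push_cast; ring
    have e2 : (n:ℝ) + 17/24 - 1/2 = (n:ℝ) + 5/24 := by ring
    rw [e1, e2] at h2
    linarith

lemma arctan_le_self' {t : ℝ} (ht : 0 ≤ t) : Real.arctan t ≤ t := by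
  have h : MonotoneOn (fun t => t - Real.arctan t) (Set.Ici 0) := by
    apply monotoneOn_of_deriv_nonneg (convex_Ici _)
    · exact (continuous_id.sub Real.continuous_arctan).continuousOn
    · exact (differentiable_id.sub Real.differentiable_arctan).differentiableOn
    · intro s hs
      have : HasDerivAt (fun t => t - Real.arctan t) (1 - 1/(1+s^2)) s :=
        (hasDerivAt_id s).fun_sub (Real.hasDerivAt_arctan s)
      rw [this.deriv]
      have : 1/(1+s^2) ≤ 1 := by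
        rw [div_le_one (by positivity)]; nlinarith [sq_nonneg s]
      linarith
  have := h (show (0:ℝ) ∈ Set.Ici 0 by simp) (show t ∈ Set.Ici (0:ℝ) from ht) ht
  simp at this
  linarith

lemma arctan_ge {t : ℝ} (ht : 0 ≤ t) : t - t^3/3 ≤ Real.arctan t := by
  have h : MonotoneOn (fun t => Real.arctan t - (t - t^3/3)) (Set.Ici 0) := by
    have hd : ∀ s : ℝ, HasDerivAt (fun t => Real.arctan t - (t - t^3/3)) (1/(1+s^2) - (1 - s^2)) s := by
      intro s
      have h3 : HasDerivAt (fun t : ℝ => t^3/3) (s^2) s :=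
        (((hasDerivAt_id s).fun_pow 3).div_const 3).congr_deriv (by simp)
      exact (Real.hasDerivAt_arctan s).fun_sub ((hasDerivAt_id s).fun_sub h3)
    apply monotoneOn_of_deriv_nonneg (convex_Ici _)
    · intro s _; exact (hd s).continuousAt.continuousWithinAt
    · intro s _; exact (hd s).differentiableAt.differentiableWithinAt
    · intro s hs
      rw [(hd s).deriv]
      have : 1/(1+s^2) - (1 - s^2) = s^4/(1+s^2) := by
        field_simp; ring
      rw [this]; positivity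
  have := h (show (0:ℝ) ∈ Set.Ici 0 by simp) (show t ∈ Set.Ici (0:ℝ) from ht) ht
  simp at this
  linarith

lemma arctan_le5 {t : ℝ} (ht : 0 ≤ t) : Real.arctan t ≤ t - t^3/3 + t^5/5 := by
  have h : MonotoneOn (fun t => (t - t^3/3 + t^5/5) - Real.arctan t) (Set.Ici 0) := by
    have hd : ∀ s : ℝ, HasDerivAt (fun t => (t - t^3/3 + t^5/5) - Real.arctan t) ((1 - s^2 + s^4) - 1/(1+s^2)) s := by
      intro s
      have h3 : HasDerivAt (fun t : ℝ => t^3/3) (s^2) s :=
        (((hasDerivAt_id s).fun_pow 3).div_const 3).congr_deriv (by simp)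
      have h5 : HasDerivAt (fun t : ℝ => t^5/5) (s^4) s :=
        (((hasDerivAt_id s).fun_pow 5).div_const 5).congr_deriv (by simp)
      exact (((hasDerivAt_id s).fun_sub h3).fun_add h5).fun_sub (Real.hasDerivAt_arctan s)
    apply monotoneOn_of_deriv_nonneg (convex_Ici _)
    · intro s _; exact (hd s).continuousAt.continuousWithinAt
    · intro s _; exact (hd s).differentiableAt.differentiableWithinAt
    · intro s hs
      rw [(hd s).deriv]
      have : (1 - s^2 + s^4) - 1/(1+s^2) = s^6/(1+s^2) := by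
        field_simp; ring
      rw [this]; positivity
  have := h (show (0:ℝ) ∈ Set.Ici 0 by simp) (show t ∈ Set.Ici (0:ℝ) from ht) ht
  simp at this
  linarith

lemma arctan_tan1 {u : ℝ} (hu : 0 ≤ u) : Real.arctan u ≤ π/4 + (u - 1)/2 := by
  rcases lt_trichotomy u 1 with h | h | h
  · obtain ⟨ξ, h1, e1⟩ := exists_hasDerivAt_eq_slope Real.arctan (fun t => 1/(1+t^2)) h
      Real.continuous_arctan.continuousOn (fun t _ => Real.hasDerivAt_arctan t)
    have e2 : Real.arctan 1 - Real.arctan u = (1/(1+ξ^2)) * (1 - u) := by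
      rw [e1, div_mul_cancel₀ _ (by linarith)]
    have hξ : 1/2 ≤ 1/(1+ξ^2) := by
      apply one_div_le_one_div_of_le (by positivity)
      nlinarith [h1.1, h1.2]
    rw [Real.arctan_one] at e2
    nlinarith
  · subst h; rw [Real.arctan_one]; linarith
  · obtain ⟨ξ, h1, e1⟩ := exists_hasDerivAt_eq_slope Real.arctan (fun t => 1/(1+t^2)) h
      Real.continuous_arctan.continuousOn (fun t _ => Real.hasDerivAt_arctan t)
    have e2 : Real.arctan u - Real.arctan 1 = (1/(1+ξ^2)) * (u - 1) := by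
      rw [e1, div_mul_cancel₀ _ (by linarith)]
    have hξ : 1/(1+ξ^2) ≤ 1/2 := by
      apply one_div_le_one_div_of_le (by positivity)
      nlinarith [h1.1, h1.2]
    rw [Real.arctan_one] at e2
    nlinarith

end Q66.FF
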