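import Pool.Agent.Q66.FF19

/-! Force field counterexample, part 20: bounds for the series `S₂`. -/

namespace Q66.FF

open Real Finset Filter Topology Complex

/-- points well separated from the two rays carrying the zeros -/
structure Good (z : ℂ) : Prop where
  s1 : Sec (-(om * z))
  s2 : Sec (-((starRingEnd ℂ) om * z))

lemma good_of_re {z : ℂ} (h1 : 1 ≤ ‖z‖) (h2 : -(‖z‖/2) ≤ z.re) : Good z := ⟨sec1 h1 h2, sec2 h1 h2⟩

lemma Good.one {z : ℂ} (h : Good z) : 1 ≤ ‖z‖ := by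
  have := h.s1.one
  rwa [norm_neg, norm_mul, norm_om, one_mul] at this

lemma good_neg {r : ℝ} (hr : 1 ≤ r) : Good (-(r:ℂ)) := by
  have hs : (1/√2 : ℝ) ≤ 0.976 := by
    rw [div_le_iff₀ (by positivity)]
    have := r2_bounds
    nlinarith
  have hs0 : (0:ℝ) < 1/√2 := by positivity
  have hn : ‖(r:ℂ)‖ = r := by rw [Complex.norm_real, Real.norm_eq_abs, abs_of_pos (by linarith)]
  constructor
  · have hn' : ‖-(om * -(r:ℂ))‖ = r := by rw [norm_neg, norm_mul, norm_om, norm_neg, hn, one_mul]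
    apply sec_of_re
    · rw [hn']; exact hr
    · rw [hn']
      have : (-(om * -(r:ℂ))).re = om.re * r := by simp
      rw [this, om_re.1]
      nlinarith
  · have hn' : ‖-((starRingEnd ℂ) om * -(r:ℂ))‖ = r := by
      rw [norm_neg, norm_mul, Complex.norm_conj, norm_om, norm_neg, hn, one_mul]
    apply sec_of_re
    · rw [hn']; exact hr
    · rw [hn']
      have : (-((starRingEnd ℂ) om * -(r:ℂ))).re = om.re * r := by simp
      rw [this, om_re.1]
      nlinarith

lemma norm_sub_zk (x : ℕ → ℝ) (k : ℕ) (z : ℂ) :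
    ‖z - zk x k‖ = ‖((√(x k) : ℝ) : ℂ) + -((starRingEnd ℂ) om * z)‖ := by
  have e : ((√(x k) : ℝ) : ℂ) + -((starRingEnd ℂ) om * z) = -((starRingEnd ℂ) om) * (z - zk x k) := by
    unfold zk
    have := om_conj
    linear_combination (-((√(x k) : ℝ) : ℂ)) * this
  rw [e, norm_mul, norm_neg, Complex.norm_conj, norm_om, one_mul]

lemma norm_sub_zkc (x : ℕ → ℝ) (k : ℕ) (z : ℂ) :
    ‖z - (starRingEnd ℂ) (zk x k)‖ = ‖((√(x k) : ℝ) : ℂ) + -(om * z)‖ := by
  have e : ((√(x k) : ℝ) : ℂ) + -(om * z) = -om * (z - (starRingEnd ℂ) (zk x k)) := by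
    unfold zk
    rw [map_mul, Complex.conj_ofReal]
    have := om_conj
    linear_combination (-((√(x k) : ℝ) : ℂ)) * this
  rw [e, norm_mul, norm_neg, norm_om, one_mul]

lemma Good.dist {z : ℂ} (h : Good z) (x : ℕ → ℝ) (k : ℕ) :
    (1/10) * (√(x k) + ‖z‖) ≤ ‖z - zk x k‖ ∧ (1/10) * (√(x k) + ‖z‖) ≤ ‖z - (starRingEnd ℂ) (zk x k)‖ := by
  have h1 := h.s1.sec (√(x k)) (Real.sqrt_nonneg _)
  have h2 := h.s2.sec (√(x k)) (Real.sqrt_nonneg _)
  rw [norm_neg, norm_mul, norm_om, one_mul, ← norm_sub_zkc] at h1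
  rw [norm_neg, norm_mul, Complex.norm_conj, norm_om, one_mul, ← norm_sub_zk] at h2
  exact ⟨h2, h1⟩

lemma S2t_le {x : ℕ → ℝ} (h : Near x) (k : ℕ) {z : ℂ} {δ : ℝ} (hδ : 0 < δ) (h1 : δ ≤ ‖z - zk x k‖)
    (h2 : δ ≤ ‖z - (starRingEnd ℂ) (zk x k)‖) : ‖S2t x k z‖ ≤ 2 * ‖z‖^2 * (ak x k / (x k * δ)) := by
  have hx := h.pos k
  have hn := norm_zk (x := x) k
  have e2 : √(x k)^2 = x k := Real.sq_sqrt hx.le
  unfold S2t
  rw [norm_mul, Complex.norm_real, Real.norm_eq_abs, abs_of_pos (ak_pos h k)]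
  have ha := ak_pos h k
  have b1 : ‖z^2 / ((zk x k)^2 * (z - zk x k))‖ ≤ ‖z‖^2 / (x k * δ) := by
    rw [norm_div, norm_mul, norm_pow, norm_pow, hn, e2]
    gcongr
  have b2 : ‖z^2 / (((starRingEnd ℂ) (zk x k))^2 * (z - (starRingEnd ℂ) (zk x k)))‖ ≤ ‖z‖^2 / (x k * δ) := by
    rw [norm_div, norm_mul, norm_pow, norm_pow, Complex.norm_conj, hn, e2]
    gcongr
  calc _ ≤ ak x k * (‖z‖^2 / (x k * δ) + ‖z‖^2 / (x k * δ)) := by
        gcongr
        exact (norm_add_le _ _).trans (add_le_add b1 b2)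
    _ = _ := by ring

lemma S2t_good {x : ℕ → ℝ} (h : Near x) (k : ℕ) {z : ℂ} (hz : Good z) :
    ‖S2t x k z‖ ≤ 20 * ‖z‖^2 * (ak x k / (x k * (√(x k) + ‖z‖))) := by
  have hd := hz.dist x k
  have h1 := hz.one
  have hp : 0 < (1/10) * (√(x k) + ‖z‖) := by have := Real.sqrt_nonneg (x k); positivity
  have := S2t_le h k hp hd.1 hd.2
  refine this.trans (le_of_eq ?_)
  have hx := (h.pos k).ne'
  have hs : √(x k) + ‖z‖ ≠ 0 := by have := Real.sqrt_nonneg (x k); positivity
  field_simp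
  ring

lemma S2_good {x : ℕ → ℝ} (h : Near x) : ∃ C : ℝ, 0 ≤ C ∧ ∀ z : ℂ, Good z →
    ‖∑' k, S2t x k z‖ ≤ C * ‖z‖^2 := by
  have hs := summable_a3 h
  refine ⟨20 * ∑' k, ak x k / (x k * √(x k)), ?_, fun z hz => ?_⟩
  · have : 0 ≤ ∑' k, ak x k / (x k * √(x k)) := tsum_nonneg (fun k => by
      have := ak_pos h k; have := h.pos k; positivity)
    positivity
  · have hb : ∀ k, ‖S2t x k z‖ ≤ (20 * ‖z‖^2) * (ak x k / (x k * √(x k))) := by
      intro k
      refine (S2t_good h k hz).trans ?_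
      have := ak_pos h k; have hx := h.pos k; have := Real.sqrt_pos.2 hx
      gcongr
      linarith [norm_nonneg z]
    have := tsum_of_norm_bounded ((hs.mul_left (20 * ‖z‖^2)).hasSum) hb
    rw [tsum_mul_left] at this
    linarith

lemma good_pos {t : ℝ} (ht : 1 ≤ t) : Good (t:ℂ) := by
  have hn : ‖(t:ℂ)‖ = t := by rw [Complex.norm_real, Real.norm_eq_abs, abs_of_pos (by linarith)]
  apply good_of_re
  · rw [hn]; exact ht
  · rw [hn, Complex.ofReal_re]; linarith

lemma S2_little {x : ℕ → ℝ} (h : Near x) :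
    Tendsto (fun t : ℝ => (∑' k, S2t x k (t:ℂ)) / ((t:ℂ)^2)) atTop (𝓝 0) := by
  have hs := summable_a3 h
  have h1 : Tendsto (fun t : ℝ => ∑' k, S2t x k (t:ℂ) / ((t:ℂ)^2)) atTop (𝓝 (∑' _ : ℕ, (0:ℂ))) := by
    apply tendsto_tsum_of_dominated_convergence (bound := fun k => 20 * (ak x k / (x k * √(x k)))) (hs.mul_left 20)
    · intro k
      have hx := h.pos k
      have ha := ak_pos h k
      have hu : Tendsto (fun t : ℝ => 20 * (ak x k / (x k * (√(x k) + t)))) atTop (𝓝 0) := by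
        have : Tendsto (fun t : ℝ => ak x k / (x k * (√(x k) + t))) atTop (𝓝 0) :=
          tendsto_const_nhds.div_atTop ((tendsto_atTop_add_const_left _ _ tendsto_id).const_mul_atTop hx)
        simpa using this.const_mul 20
      apply squeeze_zero_norm' _ hu
      filter_upwards [eventually_ge_atTop (1:ℝ)] with t ht
      have hn : ‖(t:ℂ)‖ = t := by rw [Complex.norm_real, Real.norm_eq_abs, abs_of_pos (by linarith)]
      have := S2t_good h k (good_pos ht)
      rw [norm_div, norm_pow, hn] at *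
      rw [div_le_iff₀ (by positivity)]
      linarith
    · filter_upwards [eventually_ge_atTop (1:ℝ)] with t ht k
      have hn : ‖(t:ℂ)‖ = t := by rw [Complex.norm_real, Real.norm_eq_abs, abs_of_pos (by linarith)]
      have h2 := S2t_good h k (good_pos ht)
      have hx := h.pos k
      have ha := ak_pos h k
      have hsx := Real.sqrt_pos.2 hx
      rw [norm_div, norm_pow, hn] at *
      rw [div_le_iff₀ (by positivity)]
      refine h2.trans ?_
      have : ak x k / (x k * (√(x k) + t)) ≤ ak x k / (x k * √(x k)) := by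
        gcongr; linarith
      nlinarith [sq_nonneg t]
  rw [tsum_zero] at h1
  refine h1.congr (fun t => ?_)
  rw [tsum_div_const]

end Q66.FF
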