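import Pool.Agent.Q66.FF20

/-! Force field counterexample, part 21: crude lower bounds for `G`. -/

namespace Q66.FF

open Real Finset Filter Topology Complex

lemma uu_mul_neg {x : ℕ → ℝ} (h : Near x) (j : ℕ) (z : ℂ) :
    uu x j z * uu x j (-z) = 1 + z^4 / (x j : ℂ)^2 := by
  have hs : ((√(x j) : ℝ) : ℂ) ≠ 0 := by
    rw [Complex.ofReal_ne_zero]; exact (Real.sqrt_pos.2 (h.pos j)).ne'
  have hx : (x j : ℂ) = ((√(x j) : ℝ) : ℂ)^2 := by
    rw [← Complex.ofReal_pow, Real.sq_sqrt (h.pos j).le]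
  unfold uu
  have e : Complex.exp (-((√2 : ℝ) * (dd j : ℝ) * z)) * Complex.exp (-((√2 : ℝ) * (dd j : ℝ) * -z)) = 1 := by
    rw [← Complex.exp_add]
    rw [show -((√2 : ℝ) * (dd j : ℝ) * z : ℂ) + -((√2 : ℝ) * (dd j : ℝ) * -z : ℂ) = 0 by ring, Complex.exp_zero]
  have e2 := r2_sq
  calc _ = ((1 + (√2 : ℝ) * (z / (√(x j) : ℝ)) + (z / (√(x j) : ℝ))^2) *
        (1 + (√2 : ℝ) * (-z / (√(x j) : ℝ)) + (-z / (√(x j) : ℝ))^2)) *
        (Complex.exp (-((√2 : ℝ) * (dd j : ℝ) * z)) * Complex.exp (-((√2 : ℝ) * (dd j : ℝ) * -z))) := by ring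
    _ = _ := by
      rw [e, mul_one, hx]
      have : (z / (√(x j) : ℝ) : ℂ)^4 = z^4 / (((√(x j) : ℝ) : ℂ)^2)^2 := by
        rw [div_pow]; ring
      rw [← this, neg_div]
      linear_combination (-(z / (√(x j) : ℝ) : ℂ)^2) * e2

lemma GN_mul_neg {x : ℕ → ℝ} (h : Near x) (N : ℕ) (z : ℂ) :
    GN x N z * GN x N (-z) = -(z^2) * Complex.exp (π * z^2) * ∏ j ∈ range N, (1 + z^4 / (x j : ℂ)^2) := by
  unfold GN
  have e : Complex.exp (π * z^2) = Complex.exp (π * z^2 / 2) * Complex.exp (π * (-z)^2 / 2) := by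
    rw [← Complex.exp_add]; congr 1; ring
  rw [e]
  calc _ = -(z^2) * (Complex.exp (π * z^2 / 2) * Complex.exp (π * (-z)^2 / 2)) *
        ((∏ j ∈ range N, uu x j z) * (∏ j ∈ range N, uu x j (-z))) := by ring
    _ = _ := by
      rw [← prod_mul_distrib]
      congr 1
      exact prod_congr rfl (fun j _ => uu_mul_neg h j z)

/-- lower bound for the product `G(z)G(-z)` from a lower bound for the finite products -/
lemma GG_mul_neg_ge {x : ℕ → ℝ} (h : Near x) {z : ℂ} {P : ℝ}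
    (hP : ∀ N, P ≤ ∏ j ∈ range N, ‖1 + z^4 / (x j : ℂ)^2‖) :
    ‖z‖^2 * Real.exp (π * (z^2).re) * P ≤ ‖GG x z‖ * ‖GG x (-z)‖ := by
  have h1 : Tendsto (fun N => ‖GN x N z‖ * ‖GN x N (-z)‖) atTop (𝓝 (‖GG x z‖ * ‖GG x (-z)‖)) :=
    (tendsto_GN h z).norm.mul (tendsto_GN h (-z)).norm
  apply ge_of_tendsto' h1
  intro N
  rw [← norm_mul, GN_mul_neg h N z, norm_mul, norm_mul, norm_neg, norm_pow, Complex.norm_exp, norm_prod]
  have : (π * z^2 : ℂ).re = π * (z^2).re := by rw [Complex.re_ofReal_mul]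
  rw [this]
  have := hP N
  gcongr

/-- upper and lower bounds in the good sector -/
lemma GG_sector {x : ℕ → ℝ} (h : Near x) : ∃ C : ℝ, 0 ≤ C ∧ ∀ z : ℂ, 1 ≤ ‖z‖ → -(‖z‖/2) ≤ z.re →
    GG x z ≠ 0 ∧ ‖GG x z‖ ≤ Real.exp C * ‖z‖ ∧ Real.exp (-C) * ‖z‖^(1/12:ℝ) ≤ ‖GG x z‖ := by
  obtain ⟨C, hC0, hC⟩ := sector_bound
  refine ⟨C, hC0, fun z h1 h2 => ?_⟩
  obtain ⟨hne, hb⟩ := hC x h z h1 h2
  have hz : 0 < ‖z‖ := by linarith
  have hg : 0 < ‖GG x z‖ := norm_pos_iff.2 hne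
  have hl : 0 ≤ Real.log ‖z‖ := Real.log_nonneg h1
  have hb' := abs_le.1 hb
  refine ⟨hne, ?_, ?_⟩
  · have e : Real.exp C * ‖z‖ = Real.exp (C + Real.log ‖z‖) := by rw [Real.exp_add, Real.exp_log hz]
    rw [e, ← Real.exp_log hg]
    apply Real.exp_le_exp.2
    linarith
  · rw [← Real.exp_log hg]
    rw [Real.rpow_def_of_pos hz, ← Real.exp_add]
    apply Real.exp_le_exp.2
    linarith

/-- lower bound on the negative ray -/
lemma GG_negray {x : ℕ → ℝ} (h : Near x) : ∃ C : ℝ, 0 ≤ C ∧ ∀ r : ℝ, 1 ≤ r →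
    Real.exp (-C) * r ≤ ‖GG x (-(r:ℂ))‖ := by
  obtain ⟨C, hC0, hC⟩ := GG_sector h
  refine ⟨C, hC0, fun r hr => ?_⟩
  have hn : ‖(r:ℂ)‖ = r := by rw [Complex.norm_real, Real.norm_eq_abs, abs_of_pos (by linarith)]
  obtain ⟨hne, hu, hl⟩ := hC (r:ℂ) (by rw [hn]; exact hr) (by rw [hn, Complex.ofReal_re]; linarith)
  have h1 := GG_mul_neg_ge h (z := (r:ℂ)) (P := 1) (fun N => by
    have : ∀ j ∈ range N, (1:ℝ) ≤ ‖1 + (r:ℂ)^4 / (x j : ℂ)^2‖ := by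
      intro j _
      have e : (1 + (r:ℂ)^4 / (x j : ℂ)^2) = ((1 + r^4 / (x j)^2 : ℝ) : ℂ) := by push_cast; ring
      rw [e, Complex.norm_real, Real.norm_eq_abs, abs_of_pos (by have := h.pos j; positivity)]
      have : 0 ≤ r^4 / (x j)^2 := by positivity
      linarith
    calc (1:ℝ) = ∏ j ∈ range N, (1:ℝ) := by simp
      _ ≤ _ := Finset.prod_le_prod (fun j _ => zero_le_one) this)
  rw [hn, mul_one] at h1
  have e2 : ((r:ℂ)^2).re = r^2 := by rw [← Complex.ofReal_pow, Complex.ofReal_re]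
  rw [e2] at h1
  rw [hn] at hu
  have h3 : r^2 ≤ Real.exp C * r * ‖GG x (-(r:ℂ))‖ := by
    calc r^2 = r^2 * 1 := by ring
      _ ≤ r^2 * Real.exp (π * r^2) := by
          gcongr
          exact Real.one_le_exp (by positivity)
      _ ≤ _ := h1
      _ ≤ _ := by gcongr
  have hr0 : 0 < r := by linarith
  have h4 : r ≤ Real.exp C * ‖GG x (-(r:ℂ))‖ := by
    have : r * r ≤ r * (Real.exp C * ‖GG x (-(r:ℂ))‖) := by nlinarith
    exact le_of_mul_le_mul_left this hr0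
  rw [Real.exp_neg]
  rw [inv_mul_le_iff₀ (Real.exp_pos _)]
  exact h4

end Q66.FF
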