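import Pool.Agent.Q66.FF21

/-! Force field counterexample, part 22: circles avoiding the zeros. -/

namespace Q66.FF

open Real Finset Filter Topology Complex

lemma circ_sep {x : ℕ → ℝ} (h : Near x) (m j : ℕ) : 3/8 ≤ |((m:ℝ) + 4/3) - x j| := by
  have h1 := h.lo j
  have h2 := h.hi j
  rcases le_or_gt j m with h3 | h3
  · have : (j:ℝ) ≤ m := by exact_mod_cast h3
    rw [abs_of_nonneg (by linarith)]
    linarith
  · have : (m:ℝ) + 1 ≤ j := by exact_mod_cast h3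
    rw [abs_of_nonpos (by linarith)]
    linarith

lemma exp_neg_two_le {u : ℝ} (h0 : 0 ≤ u) (h1 : u ≤ 1/2) : Real.exp (-(2*u)) ≤ 1 - u := by
  rw [Real.exp_neg, inv_le_comm₀ (Real.exp_pos _) (by linarith)]
  have := Real.add_one_le_exp (2*u)
  refine le_trans ?_ this
  rw [inv_le_iff_one_le_mul₀ (by linarith)]
  nlinarith

lemma circ_fac {y X : ℝ} (hy : 4/3 ≤ y) (hX : 0 < X) (hs : 3/8 ≤ |y - X|) :
    Real.exp (-(2*Real.log (6*y)*(2*y/X)^(5/4:ℝ))) ≤ |1 - y^2/X^2| := by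
  have hy0 : 0 < y := by linarith
  have hl : 1 ≤ Real.log (6*y) := by
    rw [Real.le_log_iff_exp_le (by positivity)]
    have := Real.exp_one_lt_d9
    linarith
  rcases lt_or_ge X (2*y) with h1 | h1
  · have h2 : 1 ≤ (2*y/X)^(5/4:ℝ) := Real.one_le_rpow (by rw [le_div_iff₀ hX]; linarith) (by norm_num)
    have h3 : Real.exp (-(2*Real.log (6*y)*(2*y/X)^(5/4:ℝ))) ≤ Real.exp (-(2*Real.log (6*y))) := by
      apply Real.exp_le_exp.2
      nlinarith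
    have h4 : Real.exp (-(2*Real.log (6*y))) = 1/(6*y)^2 := by
      have : -(2*Real.log (6*y)) = -(Real.log ((6*y)^2)) := by rw [Real.log_pow]; push_cast; ring
      rw [this, Real.exp_neg, Real.exp_log (by positivity), one_div]
    have h5 : |1 - y^2/X^2| = |y - X| * (X + y) / X^2 := by
      have e : 1 - y^2/X^2 = -((y - X) * (X + y) / X^2) := by field_simp; ring
      rw [e, abs_neg, abs_div, abs_mul, abs_of_pos (show 0 < X + y by linarith), abs_of_pos (show 0 < X^2 by positivity)]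
    rw [h5]
    refine h3.trans ?_
    rw [h4]
    have hX2 : X^2 ≤ (2*y)^2 := by gcongr
    have h6 : 1/(6*y)^2 ≤ (3/8) * y / (2*y)^2 := by
      rw [div_le_div_iff₀ (by positivity) (by positivity)]
      nlinarith [mul_pos hy0 hy0, mul_pos (mul_pos hy0 hy0) hy0]
    refine h6.trans ?_
    have : (3/8) * y ≤ |y - X| * (X + y) := by nlinarith [abs_nonneg (y - X)]
    gcongr
  · have hu : y^2/X^2 ≤ 1/4 := by
      rw [div_le_iff₀ (by positivity)]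
      nlinarith
    have hu0 : 0 ≤ y^2/X^2 := by positivity
    rw [abs_of_nonneg (by linarith)]
    refine le_trans ?_ (exp_neg_two_le hu0 (by linarith))
    apply Real.exp_le_exp.2
    have ht0 : 0 < 2*y/X := by positivity
    have ht1 : 2*y/X ≤ 1 := by rw [div_le_one hX]; exact h1
    have h2 : (2*y/X)^(2:ℝ) ≤ (2*y/X)^(5/4:ℝ) := Real.rpow_le_rpow_of_exponent_ge ht0 ht1 (by norm_num)
    have h3 : (2*y/X)^(2:ℝ) = 4 * (y^2/X^2) := by
      rw [show (2:ℝ) = ((2:ℕ):ℝ) by norm_num, Real.rpow_natCast]; push_cast; ring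
    rw [h3] at h2
    have h4 : 0 ≤ (2*y/X)^(5/4:ℝ) := by positivity
    have h5 := mul_nonneg (sub_nonneg.2 hl) h4
    linarith

lemma summable_54 : Summable (fun j : ℕ => (1 / ((j:ℝ)+1))^(5/4:ℝ)) := by
  have h := (summable_nat_add_iff 1).2 (Real.summable_one_div_nat_rpow.2 (show (1:ℝ) < 5/4 by norm_num))
  refine h.congr (fun j => ?_)
  rw [Real.div_rpow zero_le_one (by positivity), Real.one_rpow]
  push_cast
  rfl

lemma circ_prod {x : ℕ → ℝ} (h : Near x) : ∃ B : ℝ, 0 ≤ B ∧ ∀ m : ℕ, ∀ z : ℂ, ‖z‖^2 = (m:ℝ) + 4/3 → ∀ N,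
    Real.exp (-(B * ((m:ℝ) + 4/3)^(11/8:ℝ))) ≤ ∏ j ∈ range N, ‖1 + z^4 / (x j : ℂ)^2‖ := by
  set S : ℝ := ∑' j : ℕ, (1 / ((j:ℝ)+1))^(5/4:ℝ) with hS
  have hS0 : 0 ≤ S := tsum_nonneg (fun j => by positivity)
  refine ⟨2 * (8 * 6^(1/8:ℝ)) * (4^(5/4:ℝ) * S), by positivity, fun m z hz N => ?_⟩
  set y : ℝ := (m:ℝ) + 4/3 with hy
  have hm : (0:ℝ) ≤ m := Nat.cast_nonneg m
  have hy1 : 4/3 ≤ y := by rw [hy]; linarith
  have hy0 : 0 < y := by linarith
  have hl : Real.log (6*y) ≤ 8 * 6^(1/8:ℝ) * y^(1/8:ℝ) := by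
    have := Real.log_le_rpow_div (x := 6*y) (by positivity) (show (0:ℝ) < 1/8 by norm_num)
    rw [Real.mul_rpow (by norm_num) hy0.le] at this
    linarith
  have hl0 : 0 ≤ Real.log (6*y) := Real.log_nonneg (by linarith)
  have h1 : ∀ j ∈ range N, Real.exp (-(2*Real.log (6*y)*(2*y/x j)^(5/4:ℝ))) ≤ ‖1 + z^4 / (x j : ℂ)^2‖ := by
    intro j _
    refine (circ_fac hy1 (h.pos j) (circ_sep h m j)).trans ?_
    have h2 := abs_norm_sub_norm_le (1:ℂ) (-(z^4 / (x j : ℂ)^2))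
    rw [sub_neg_eq_add, norm_neg, norm_one, norm_div, norm_pow, norm_pow, Complex.norm_real, Real.norm_eq_abs,
      abs_of_pos (h.pos j)] at h2
    have h3 : ‖z‖^4 = y^2 := by rw [show ‖z‖^4 = (‖z‖^2)^2 by ring, hz]
    rw [h3] at h2
    exact h2
  refine le_trans ?_ (Finset.prod_le_prod (fun j _ => (Real.exp_pos _).le) h1)
  rw [← Real.exp_sum]
  apply Real.exp_le_exp.2
  rw [Finset.sum_neg_distrib, neg_le_neg_iff]
  have h2 : ∀ j ∈ range N, 2*Real.log (6*y)*(2*y/x j)^(5/4:ℝ) ≤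
      2 * Real.log (6*y) * ((4*y)^(5/4:ℝ) * (1 / ((j:ℝ)+1))^(5/4:ℝ)) := by
    intro j _
    rw [← Real.mul_rpow (by positivity) (by positivity)]
    have hx := h.lo j
    have hj : (0:ℝ) ≤ j := Nat.cast_nonneg j
    have hx' := h.pos j
    have : 2*y/x j ≤ 4 * y * (1/((j:ℝ)+1)) := by
      rw [mul_one_div, div_le_div_iff₀ hx' (by positivity)]
      nlinarith
    gcongr
  refine (Finset.sum_le_sum h2).trans ?_
  rw [← Finset.mul_sum, ← Finset.mul_sum]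
  have h3 : ∑ j ∈ range N, (1 / ((j:ℝ)+1))^(5/4:ℝ) ≤ S := summable_54.sum_le_tsum _ (fun j _ => by positivity)
  have h4 : (4*y)^(5/4:ℝ) = 4^(5/4:ℝ) * y^(5/4:ℝ) := Real.mul_rpow (by norm_num) hy0.le
  rw [h4]
  have h5 : y^(11/8:ℝ) = y^(1/8:ℝ) * y^(5/4:ℝ) := by rw [← Real.rpow_add hy0]; norm_num
  rw [h5]
  calc 2 * Real.log (6*y) * (4^(5/4:ℝ) * y^(5/4:ℝ) * ∑ j ∈ range N, (1 / ((j:ℝ)+1))^(5/4:ℝ))
      ≤ 2 * (8 * 6^(1/8:ℝ) * y^(1/8:ℝ)) * (4^(5/4:ℝ) * y^(5/4:ℝ) * S) := by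
        have : 0 ≤ ∑ j ∈ range N, (1 / ((j:ℝ)+1))^(5/4:ℝ) := Finset.sum_nonneg (fun j _ => by positivity)
        gcongr
    _ = _ := by ring

end Q66.FF
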