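import Pool.Agent.Q66.FF22

/-! Force field counterexample, part 23: growth of `D`. -/

namespace Q66.FF

open Real Finset Filter Topology Complex

/-- `1/G` on the circles -/
lemma circ_inv {x : ℕ → ℝ} (h : Near x) : ∃ A B : ℝ, 0 ≤ A ∧ 0 ≤ B ∧ ∀ m : ℕ, ∀ z : ℂ, ‖z‖^2 = (m:ℝ) + 4/3 →
    GG x z ≠ 0 ∧ ‖1 / GG x z‖ ≤ A * Real.exp (B * ((m:ℝ) + 4/3)^(11/8:ℝ)) := by
  obtain ⟨C, hC0, hC⟩ := GG_sector h
  obtain ⟨B, hB0, hB⟩ := circ_prod h
  refine ⟨Real.exp C, π + B, (Real.exp_pos _).le, by positivity, fun m z hz => ?_⟩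
  set y : ℝ := (m:ℝ) + 4/3 with hy
  have hm : (0:ℝ) ≤ m := Nat.cast_nonneg m
  have hy1 : 1 ≤ y := by rw [hy]; linarith
  have hy0 : 0 < y := by linarith
  have hn : 1 ≤ ‖z‖ := by
    by_contra hc
    push Not at hc
    nlinarith [norm_nonneg z]
  have hz0 : 0 < ‖z‖ := by linarith
  have hyy : y ≤ y^(11/8:ℝ) := by
    calc y = y^(1:ℝ) := (Real.rpow_one y).symm
      _ ≤ _ := Real.rpow_le_rpow_of_exponent_le hy1 (by norm_num)
  have hE : 1 ≤ Real.exp ((π + B) * y^(11/8:ℝ)) := Real.one_le_exp (by positivity)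
  rcases le_or_gt (-(‖z‖/2)) z.re with h1 | h1
  · obtain ⟨hne, hu, hl⟩ := hC z hn h1
    refine ⟨hne, ?_⟩
    have h2 : Real.exp (-C) ≤ ‖GG x z‖ := by
      refine le_trans ?_ hl
      have : 1 ≤ ‖z‖^(1/12:ℝ) := Real.one_le_rpow hn (by norm_num)
      nlinarith [Real.exp_pos (-C)]
    rw [norm_div, norm_one, div_le_iff₀ (norm_pos_iff.2 hne)]
    calc (1:ℝ) = Real.exp C * 1 * Real.exp (-C) := by rw [mul_one, ← Real.exp_add]; simp
      _ ≤ _ := by gcongr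
  · have h2 : -(‖-z‖/2) ≤ (-z).re := by
      rw [norm_neg, Complex.neg_re]; linarith
    obtain ⟨hne, hu, hl⟩ := hC (-z) (by rw [norm_neg]; exact hn) h2
    rw [norm_neg] at hu
    have h3 := GG_mul_neg_ge h (fun N => hB m z hz N)
    have h4 : -y ≤ (z^2).re := by
      have := Complex.abs_re_le_norm (z^2)
      rw [norm_pow, hz] at this
      exact (abs_le.1 this).1
    have h5 : Real.exp (-(π * y)) ≤ Real.exp (π * (z^2).re) := by
      apply Real.exp_le_exp.2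
      nlinarith [Real.pi_pos]
    have h6 : ‖z‖ * (‖z‖ * (Real.exp (-(π*y)) * Real.exp (-(B * y^(11/8:ℝ))))) ≤ ‖z‖ * (Real.exp C * ‖GG x z‖) := by
      calc ‖z‖ * (‖z‖ * (Real.exp (-(π*y)) * Real.exp (-(B * y^(11/8:ℝ)))))
          = ‖z‖^2 * Real.exp (-(π*y)) * Real.exp (-(B * y^(11/8:ℝ))) := by ring
        _ ≤ ‖z‖^2 * Real.exp (π * (z^2).re) * Real.exp (-(B * y^(11/8:ℝ))) := by gcongr
        _ ≤ _ := h3
        _ ≤ ‖GG x z‖ * (Real.exp C * ‖z‖) := by gcongr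
        _ = _ := by ring
    have h7 := le_of_mul_le_mul_left h6 hz0
    have h8 : Real.exp (-(π*y)) * Real.exp (-(B * y^(11/8:ℝ))) ≤ Real.exp C * ‖GG x z‖ := by
      refine le_trans ?_ h7
      have : 0 ≤ Real.exp (-(π*y)) * Real.exp (-(B * y^(11/8:ℝ))) := by positivity
      nlinarith
    have hgp : 0 < ‖GG x z‖ := by
      by_contra hc
      have h0 : ‖GG x z‖ = 0 := le_antisymm (not_lt.1 hc) (norm_nonneg _)
      rw [h0, mul_zero] at h8
      have : 0 < Real.exp (-(π*y)) * Real.exp (-(B * y^(11/8:ℝ))) := by positivity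
      linarith
    refine ⟨norm_pos_iff.1 hgp, ?_⟩
    rw [norm_div, norm_one, div_le_iff₀ hgp]
    have h9 : Real.exp ((π + B) * y^(11/8:ℝ)) * (Real.exp (-(π*y)) * Real.exp (-(B * y^(11/8:ℝ)))) ≥ 1 := by
      rw [← Real.exp_add, ← Real.exp_add]
      apply Real.one_le_exp
      nlinarith [Real.pi_pos]
    calc (1:ℝ) ≤ Real.exp ((π + B) * y^(11/8:ℝ)) * (Real.exp (-(π*y)) * Real.exp (-(B * y^(11/8:ℝ)))) := h9
      _ ≤ Real.exp ((π + B) * y^(11/8:ℝ)) * (Real.exp C * ‖GG x z‖) := by gcongr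
      _ = _ := by ring

/-- distance to the zeros on the circles -/
lemma circ_dist {x : ℕ → ℝ} (h : Near x) (m k : ℕ) {z w : ℂ} (hz : ‖z‖^2 = (m:ℝ) + 4/3) (hw : ‖w‖ = √(x k)) :
    √(x k) / (16 * ((m:ℝ) + 4/3)) ≤ ‖z - w‖ := by
  set y : ℝ := (m:ℝ) + 4/3 with hy
  have hm : (0:ℝ) ≤ m := Nat.cast_nonneg m
  have hy1 : 4/3 ≤ y := by rw [hy]; linarith
  have hy0 : 0 < y := by linarith
  have hsep := circ_sep h m k
  rw [← hy] at hsep
  have hx := h.pos k
  set s := √(x k) with hs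
  have hs0 : 0 < s := Real.sqrt_pos.2 hx
  have hs2 : s^2 = x k := Real.sq_sqrt hx.le
  set t := ‖z‖ with ht
  have ht0 : 0 ≤ t := norm_nonneg z
  have htp : 0 < t := by
    rcases ht0.eq_or_lt with h0 | h0
    · rw [← h0] at hz; nlinarith
    · exact h0
  have h1 : |t - s| ≤ ‖z - w‖ := by
    have := abs_norm_sub_norm_le z w
    rwa [hw] at this
  refine le_trans ?_ h1
  have h2 : |t - s| * (t + s) = |y - x k| := by
    rw [← hz, ← hs2]
    rw [show t^2 - s^2 = (t - s) * (t + s) by ring, abs_mul, abs_of_pos (show 0 < t + s by positivity)]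
  rcases le_or_gt s (2*t) with h3 | h3
  · have h4 : 3/8 ≤ |t - s| * (3 * t) := by
      calc 3/8 ≤ |t - s| * (t + s) := by rw [h2]; exact hsep
        _ ≤ _ := by gcongr; linarith
    rw [div_le_iff₀ (by positivity)]
    have h5 : 1 ≤ |t - s| * (8 * t) := by linarith
    rw [← hz]
    nlinarith
  · have h4 : s/2 ≤ |t - s| := by
      rw [abs_of_nonpos (by linarith)]; linarith
    refine le_trans ?_ h4
    rw [div_le_div_iff₀ (by positivity) (by norm_num)]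
    nlinarith

lemma DD_circ {x : ℕ → ℝ} (h : Near x) : ∃ A B : ℝ, 0 ≤ A ∧ 0 ≤ B ∧ ∀ m : ℕ, ∀ z : ℂ, ‖z‖^2 = (m:ℝ) + 4/3 →
    ‖DD x z‖ ≤ A * Real.exp (B * ((m:ℝ) + 4/3)^(11/8:ℝ)) := by
  obtain ⟨A, B, hA0, hB0, hAB⟩ := circ_inv h
  have hsum := summable_a3 h
  set S : ℝ := ∑' k, ak x k / (x k * √(x k)) with hS
  have hS0 : 0 ≤ S := tsum_nonneg (fun k => by
      have := ak_pos h k; have := h.pos k; positivity)
  refine ⟨A + 1 + 64 * S, B + 1, by positivity, by positivity, fun m z hz => ?_⟩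
  obtain ⟨hne, hb⟩ := hAB m z hz
  set y : ℝ := (m:ℝ) + 4/3 with hy
  have hm : (0:ℝ) ≤ m := Nat.cast_nonneg m
  have hy1 : 4/3 ≤ y := by rw [hy]; linarith
  have hy0 : 0 < y := by linarith
  have hn : 1 ≤ ‖z‖ := by
    by_contra hc
    push Not at hc
    nlinarith [norm_nonneg z]
  have hyy : y ≤ y^(11/8:ℝ) := by
    calc y = y^(1:ℝ) := (Real.rpow_one y).symm
      _ ≤ _ := Real.rpow_le_rpow_of_exponent_le (by linarith) (by norm_num)
  rw [DD_eq h hne]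
  have hS2 : ‖∑' k, S2t x k z‖ ≤ 32 * y^2 * S := by
    have hb : ∀ k, ‖S2t x k z‖ ≤ (32 * y^2) * (ak x k / (x k * √(x k))) := by
      intro k
      have hx := h.pos k
      have hsx := Real.sqrt_pos.2 hx
      have ha := ak_pos h k
      have d1 := circ_dist h m k hz (norm_zk (x := x) k)
      have d2 := circ_dist h m k (w := (starRingEnd ℂ) (zk x k)) hz (by rw [Complex.norm_conj]; exact norm_zk (x := x) k)
      rw [← hy] at d1 d2
      refine (S2t_le h k (by positivity) d1 d2).trans (le_of_eq ?_)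
      rw [hz]
      field_simp
      norm_num
    have := tsum_of_norm_bounded ((hsum.mul_left (32 * y^2)).hasSum) hb
    rw [tsum_mul_left] at this
    exact this
  have e1 : ‖(1:ℂ) / z‖ ≤ 1 := by
    rw [norm_div, norm_one, div_le_one (by linarith)]; exact hn
  have hq : y^2 ≤ 2 * Real.exp y := by
    have := Real.quadratic_le_exp_of_nonneg hy0.le
    nlinarith
  set E := Real.exp ((B+1) * y^(11/8:ℝ)) with hE
  have hE1 : 1 ≤ E := Real.one_le_exp (by positivity)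
  have hE2 : Real.exp y ≤ E := by
    apply Real.exp_le_exp.2
    nlinarith [mul_nonneg hB0 (Real.rpow_nonneg hy0.le (11/8))]
  have hE3 : Real.exp (B * y^(11/8:ℝ)) ≤ E := by
    apply Real.exp_le_exp.2
    nlinarith [Real.rpow_nonneg hy0.le (11/8)]
  calc ‖1 / GG x z - 1 / z - ∑' k, S2t x k z‖ ≤ ‖1 / GG x z‖ + ‖(1:ℂ) / z‖ + ‖∑' k, S2t x k z‖ :=
        (norm_sub_le _ _).trans (add_le_add_left (norm_sub_le _ _) _)
    _ ≤ A * E + 1 * E + 32 * (2 * E) * S := by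
        have a1 : ‖1 / GG x z‖ ≤ A * E := hb.trans (by gcongr)
        have a2 : ‖(1:ℂ) / z‖ ≤ 1 * E := by linarith
        have a3 : ‖∑' k, S2t x k z‖ ≤ 32 * (2 * E) * S := hS2.trans (by gcongr; linarith)
        linarith
    _ = _ := by ring

lemma DD_growth {x : ℕ → ℝ} (h : Near x) (hp : Phase x) : ∃ A B : ℝ, 0 ≤ A ∧ 0 ≤ B ∧ ∀ z : ℂ,
    ‖DD x z‖ ≤ A * Real.exp (B * (‖z‖^2 + 7/3)^(11/8:ℝ)) := by
  obtain ⟨A, B, hA0, hB0, hAB⟩ := DD_circ h
  refine ⟨A, B, hA0, hB0, fun z => ?_⟩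
  set m : ℕ := ⌈‖z‖^2⌉₊ with hm
  have h1 : ‖z‖^2 ≤ m := Nat.le_ceil _
  have h2 : (m:ℝ) < ‖z‖^2 + 1 := Nat.ceil_lt_add_one (by positivity)
  set y : ℝ := (m:ℝ) + 4/3 with hy
  have hy0 : 0 < y := by positivity
  have h3 : ‖DD x z‖ ≤ A * Real.exp (B * y^(11/8:ℝ)) := by
    apply Complex.norm_le_of_forall_mem_frontier_norm_le (U := Metric.ball (0:ℂ) (√y)) Metric.isBounded_ball
      (differentiable_DD h hp).diffContOnCl
    · intro w hw
      rw [frontier_ball _ (Real.sqrt_pos.2 hy0).ne', Metric.mem_sphere, dist_zero_right] at hw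
      exact hAB m w (by rw [hw, Real.sq_sqrt hy0.le])
    · apply subset_closure
      rw [Metric.mem_ball, dist_zero_right]
      apply Real.lt_sqrt_of_sq_lt
      rw [hy]; linarith
  refine h3.trans ?_
  have : y ≤ ‖z‖^2 + 7/3 := by rw [hy]; linarith
  gcongr

end Q66.FF
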