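import Pool.Agent.Q66.FF23

/-! Force field counterexample, part 24: `D` is a polynomial of degree at most two. -/

namespace Q66.FF

open Real Finset Filter Topology Complex

noncomputable def HH (x : ℕ → ℝ) : ℂ → ℂ := dslope (dslope (DD x) 0) 0

lemma differentiable_HH {x : ℕ → ℝ} (h : Near x) (hp : Phase x) : Differentiable ℂ (HH x) :=
  differentiable_dslope (differentiable_dslope (differentiable_DD h hp) 0) 0

lemma DD_expand (x : ℕ → ℝ) (z : ℂ) : DD x z = DD x 0 + deriv (DD x) 0 * z + z^2 * HH x z := by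
  have h1 := sub_smul_dslope (DD x) 0 z
  have h2 := sub_smul_dslope (dslope (DD x) 0) 0 z
  rw [sub_zero, smul_eq_mul] at h1 h2
  rw [dslope_same] at h2
  unfold HH
  linear_combination (-1) * h1 - z * h2

lemma HH_le (x : ℕ → ℝ) {z : ℂ} (hz : 1 ≤ ‖z‖) :
    ‖HH x z‖ ≤ ‖DD x z‖ / ‖z‖^2 + (‖DD x 0‖ + ‖deriv (DD x) 0‖) := by
  have h1 := DD_expand x z
  have hz0 : 0 < ‖z‖ := by linarith
  have hzz : z ≠ 0 := norm_pos_iff.1 hz0
  have e : HH x z = (DD x z - DD x 0 - deriv (DD x) 0 * z) / z^2 := by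
    rw [eq_div_iff (pow_ne_zero 2 hzz)]
    linear_combination (-1) * h1
  rw [e, norm_div, norm_pow]
  rw [div_le_iff₀ (by positivity), add_mul, div_mul_cancel₀ _ (by positivity)]
  have h2 : ‖DD x z - DD x 0 - deriv (DD x) 0 * z‖ ≤ ‖DD x z‖ + ‖DD x 0‖ + ‖deriv (DD x) 0‖ * ‖z‖ := by
    refine (norm_sub_le _ _).trans ?_
    rw [norm_mul]
    have := norm_sub_le (DD x z) (DD x 0)
    linarith
  refine h2.trans ?_
  have h3 : 1 ≤ ‖z‖^2 := by nlinarith
  have h4 : ‖z‖ ≤ ‖z‖^2 := by nlinarith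
  have h5 : ‖DD x 0‖ ≤ ‖DD x 0‖ * ‖z‖^2 := by nlinarith [norm_nonneg (DD x 0)]
  have h6 : ‖deriv (DD x) 0‖ * ‖z‖ ≤ ‖deriv (DD x) 0‖ * ‖z‖^2 := by gcongr
  linarith

lemma HH_sector {x : ℕ → ℝ} (h : Near x) (hp : Phase x) : ∃ K : ℝ, 0 ≤ K ∧ ∀ z : ℂ,
    (‖z‖ ≤ 1 ∨ -(‖z‖/2) ≤ z.re ∨ ∃ r : ℝ, 1 ≤ r ∧ z = -(r:ℂ)) → ‖HH x z‖ ≤ K := by
  obtain ⟨C, hC0, hC⟩ := GG_sector h
  obtain ⟨C', hC0', hC'⟩ := GG_negray h
  obtain ⟨S, hS0, hS⟩ := S2_good h
  obtain ⟨M, hM⟩ := (isCompact_closedBall (0:ℂ) 1).exists_bound_of_continuousOn (differentiable_HH h hp).continuous.continuousOn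
  set T := ‖DD x 0‖ + ‖deriv (DD x) 0‖ with hT
  have hT0 : 0 ≤ T := by positivity
  -- common estimate
  have key : ∀ (E : ℝ), 0 ≤ E → ∀ z : ℂ, Good z → GG x z ≠ 0 → ‖1 / GG x z‖ ≤ E → ‖HH x z‖ ≤ E + 1 + S + T := by
    intro E hE z hz hne hb
    have h1 := hz.one
    refine (HH_le x h1).trans ?_
    have h2 : ‖DD x z‖ ≤ E + 1 + S * ‖z‖^2 := by
      rw [DD_eq h hne]
      have e1 : ‖(1:ℂ) / z‖ ≤ 1 := by
        rw [norm_div, norm_one, div_le_one (by linarith)]; exact h1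
      have e2 := hS z hz
      calc ‖1 / GG x z - 1 / z - ∑' k, S2t x k z‖ ≤ ‖1 / GG x z‖ + ‖(1:ℂ) / z‖ + ‖∑' k, S2t x k z‖ :=
            (norm_sub_le _ _).trans (add_le_add_left (norm_sub_le _ _) _)
        _ ≤ _ := by linarith
    have h3 : 1 ≤ ‖z‖^2 := by nlinarith
    have h4 : ‖DD x z‖ / ‖z‖^2 ≤ E + 1 + S := by
      rw [div_le_iff₀ (by positivity)]
      nlinarith
    linarith
  refine ⟨|M| + (Real.exp C + 1 + S + T) + (Real.exp C' + 1 + S + T), by positivity, fun z hz => ?_⟩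
  by_cases hz1 : ‖z‖ ≤ 1
  · have := hM z (by simpa using hz1)
    have h2 := le_abs_self M
    have := Real.exp_pos C
    have := Real.exp_pos C'
    linarith
  · push Not at hz1
    rcases hz with h0 | h0 | ⟨r, hr, h0⟩
    · linarith
    · obtain ⟨hne, hu, hl⟩ := hC z hz1.le h0
      have hb : ‖1 / GG x z‖ ≤ Real.exp C := by
        have h2 : Real.exp (-C) ≤ ‖GG x z‖ := by
          refine le_trans ?_ hl
          have : 1 ≤ ‖z‖^(1/12:ℝ) := Real.one_le_rpow hz1.le (by norm_num)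
          nlinarith [Real.exp_pos (-C)]
        rw [norm_div, norm_one, div_le_iff₀ (norm_pos_iff.2 hne)]
        calc (1:ℝ) = Real.exp C * Real.exp (-C) := by rw [← Real.exp_add]; simp
          _ ≤ _ := by gcongr
      have := key _ (Real.exp_pos C).le z (good_of_re hz1.le h0) hne hb
      have h2 := abs_nonneg M
      have := Real.exp_pos C
      have := Real.exp_pos C'
      linarith
    · have h1 := hC' r hr
      rw [← h0] at h1
      have hgood : Good z := by rw [h0]; exact good_neg hr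
      have h2 : Real.exp (-C') ≤ ‖GG x z‖ := by
        refine le_trans ?_ h1
        nlinarith [Real.exp_pos (-C')]
      have hgp : 0 < ‖GG x z‖ := lt_of_lt_of_le (Real.exp_pos _) h2
      have hb : ‖1 / GG x z‖ ≤ Real.exp C' := by
        rw [norm_div, norm_one, div_le_iff₀ hgp]
        calc (1:ℝ) = Real.exp C' * Real.exp (-C') := by rw [← Real.exp_add]; simp
          _ ≤ _ := by gcongr
      have := key _ (Real.exp_pos C').le z hgood (norm_pos_iff.1 hgp) hb
      have h2 := abs_nonneg M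
      have := Real.exp_pos C
      have := Real.exp_pos C'
      linarith

lemma HH_growth {x : ℕ → ℝ} (h : Near x) (hp : Phase x) : ∃ A B : ℝ, 0 ≤ A ∧ 0 ≤ B ∧ ∀ z : ℂ,
    ‖HH x z‖ ≤ A * Real.exp (B * (‖z‖^2 + 7/3)^(11/8:ℝ)) := by
  obtain ⟨A, B, hA0, hB0, hAB⟩ := DD_growth h hp
  obtain ⟨M, hM⟩ := (isCompact_closedBall (0:ℂ) 1).exists_bound_of_continuousOn (differentiable_HH h hp).continuous.continuousOn
  set T := ‖DD x 0‖ + ‖deriv (DD x) 0‖ with hT
  have hT0 : 0 ≤ T := by positivity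
  refine ⟨A + T + |M|, B, by positivity, hB0, fun z => ?_⟩
  have hE : 1 ≤ Real.exp (B * (‖z‖^2 + 7/3)^(11/8:ℝ)) := Real.one_le_exp (by positivity)
  set E := Real.exp (B * (‖z‖^2 + 7/3)^(11/8:ℝ)) with hEdef
  rcases le_or_gt ‖z‖ 1 with h1 | h1
  · have h2 := hM z (by simpa using h1)
    have h3 := le_abs_self M
    nlinarith [abs_nonneg M]
  · have h2 := HH_le x h1.le
    have h3 : ‖DD x z‖ / ‖z‖^2 ≤ A * E := by
      have h4 : 1 ≤ ‖z‖^2 := by nlinarith
      rw [div_le_iff₀ (by positivity)]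
      have h5 := hAB z
      have : 0 ≤ A * E := by positivity
      nlinarith
    nlinarith [abs_nonneg M]

lemma PLstrip {H : ℂ → ℂ} (hH : Differentiable ℂ H) {a b K : ℝ} (hab : b - a = π/3)
    (hg : ∃ A B : ℝ, 0 ≤ A ∧ 0 ≤ B ∧ ∀ z : ℂ, ‖H z‖ ≤ A * Real.exp (B * (‖z‖^2 + 7/3)^(11/8:ℝ)))
    (ha : ∀ w : ℂ, w.im = a → ‖H (Complex.exp w)‖ ≤ K) (hb : ∀ w : ℂ, w.im = b → ‖H (Complex.exp w)‖ ≤ K)
    {w : ℂ} (h1 : a ≤ w.im) (h2 : w.im ≤ b) : ‖H (Complex.exp w)‖ ≤ K := by
  obtain ⟨A, B, hA0, hB0, hAB⟩ := hg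
  apply PhragmenLindelof.horizontal_strip (a := a) (b := b) (f := fun w => H (Complex.exp w)) _ _ ha hb h1 h2
  · have : Differentiable ℂ (fun w => H (Complex.exp w)) := hH.comp Complex.differentiable_exp
    exact this.diffContOnCl
  · refine ⟨11/4, ?_, B * (10/3)^(11/8:ℝ), ?_⟩
    · rw [hab]
      have := Real.pi_pos
      rw [show π / (π/3) = 3 by field_simp]
      norm_num
    · apply Asymptotics.IsBigO.of_bound A
      apply Eventually.of_forall
      intro w
      refine (hAB _).trans ?_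
      rw [Real.norm_eq_abs, abs_of_pos (Real.exp_pos _)]
      have h3 : (‖Complex.exp w‖^2 + 7/3)^(11/8:ℝ) ≤ (10/3)^(11/8:ℝ) * Real.exp (11/4 * |w.re|) := by
        have e1 : ‖Complex.exp w‖ ≤ Real.exp |w.re| := by
          rw [Complex.norm_exp]; exact Real.exp_le_exp.2 (le_abs_self _)
        have e2 : 1 ≤ Real.exp |w.re| := Real.one_le_exp (abs_nonneg _)
        have e3 : ‖Complex.exp w‖^2 + 7/3 ≤ (10/3) * Real.exp (2 * |w.re|) := by
          have e4 : Real.exp (2 * |w.re|) = Real.exp |w.re|^2 := by rw [← Real.exp_nat_mul]; norm_num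
          rw [e4]
          have : ‖Complex.exp w‖^2 ≤ Real.exp |w.re|^2 := by gcongr
          nlinarith
        calc (‖Complex.exp w‖^2 + 7/3)^(11/8:ℝ) ≤ ((10/3) * Real.exp (2 * |w.re|))^(11/8:ℝ) := by gcongr
          _ = (10/3)^(11/8:ℝ) * Real.exp (2 * |w.re| * (11/8)) := by
              rw [Real.mul_rpow (by norm_num) (Real.exp_pos _).le, ← Real.exp_mul]
          _ = _ := by congr 2; ring
      calc A * Real.exp (B * (‖Complex.exp w‖^2 + 7/3)^(11/8:ℝ))
          ≤ A * Real.exp (B * ((10/3)^(11/8:ℝ) * Real.exp (11/4 * |w.re|))) := by gcongr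
        _ = _ := by rw [mul_assoc]

lemma exp_re_im (w : ℂ) : (Complex.exp w).re = ‖Complex.exp w‖ * Real.cos w.im := by
  rw [Complex.exp_re, Complex.norm_exp]

lemma HH_bounded {x : ℕ → ℝ} (h : Near x) (hp : Phase x) : ∃ K : ℝ, 0 ≤ K ∧ ∀ z : ℂ, ‖HH x z‖ ≤ K := by
  obtain ⟨K, hK0, hK⟩ := HH_sector h hp
  have hgr := HH_growth h hp
  have hH := differentiable_HH h hp
  refine ⟨K, hK0, fun z => ?_⟩
  have hcos : Real.cos (2 * π / 3) = -(1/2) := by
    rw [show 2 * π / 3 = π - π/3 by ring, Real.cos_pi_sub, Real.cos_pi_div_three]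
  -- values on the rays
  have ray1 : ∀ w : ℂ, Real.cos w.im = -(1/2) → ‖HH x (Complex.exp w)‖ ≤ K := by
    intro w hw
    apply hK
    right; left
    rw [exp_re_im, hw]
    linarith
  have ray2 : ∀ w : ℂ, (w.im = π ∨ w.im = -π) → ‖HH x (Complex.exp w)‖ ≤ K := by
    intro w hw
    have e : Complex.exp w = -((Real.exp w.re : ℝ) : ℂ) := by
      apply Complex.ext
      · rw [Complex.exp_re, Complex.neg_re, Complex.ofReal_re]
        rcases hw with hw | hw
        · rw [hw, Real.cos_pi]; ring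
        · rw [hw, Real.cos_neg, Real.cos_pi]; ring
      · rw [Complex.exp_im, Complex.neg_im, Complex.ofReal_im]
        rcases hw with hw | hw
        · rw [hw, Real.sin_pi]; ring
        · rw [hw, Real.sin_neg, Real.sin_pi]; ring
    apply hK
    rcases le_or_gt 1 (Real.exp w.re) with h1 | h1
    · right; right
      exact ⟨Real.exp w.re, h1, e⟩
    · left
      rw [Complex.norm_exp]; exact h1.le
  by_cases hz : -(‖z‖/2) ≤ z.re
  · exact hK z (Or.inr (Or.inl hz))
  · push Not at hz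
    have hz0 : z ≠ 0 := by
      rintro rfl
      simp at hz
    have hzp : 0 < ‖z‖ := norm_pos_iff.2 hz0
    have harg : 2 * π / 3 ≤ |Complex.arg z| := by
      by_contra hc
      push Not at hc
      have h3 : Real.cos (2 * π / 3) < Real.cos |arg z| :=
        Real.cos_lt_cos_of_nonneg_of_le_pi (abs_nonneg _) (by linarith [Real.pi_pos]) hc
      rw [Real.cos_abs, hcos, Complex.cos_arg hz0] at h3
      rw [lt_div_iff₀ hzp] at h3
      linarith
    have hlog : Complex.exp (Complex.log z) = z := Complex.exp_log hz0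
    have him : (Complex.log z).im = Complex.arg z := Complex.log_im z
    rw [← hlog]
    rcases le_or_gt 0 (Complex.arg z) with h4 | h4
    · rw [abs_of_nonneg h4] at harg
      apply PLstrip hH (a := 2 * π / 3) (b := π) (by ring) hgr
      · intro w hw; exact ray1 w (by rw [hw, hcos])
      · intro w hw; exact ray2 w (Or.inl hw)
      · rw [him]; exact harg
      · rw [him]; exact Complex.arg_le_pi z
    · rw [abs_of_neg h4] at harg
      apply PLstrip hH (a := -π) (b := -(2 * π / 3)) (by ring) hgr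
      · intro w hw; exact ray2 w (Or.inr hw)
      · intro w hw; exact ray1 w (by rw [hw, Real.cos_neg, hcos])
      · rw [him]; exact (Complex.neg_pi_lt_arg z).le
      · rw [him]; linarith

/-- `D` is a quadratic polynomial -/
lemma DD_quadratic {x : ℕ → ℝ} (h : Near x) (hp : Phase x) : ∃ c₂ : ℂ, ∀ z : ℂ,
    DD x z = DD x 0 + deriv (DD x) 0 * z + c₂ * z^2 := by
  obtain ⟨K, hK0, hK⟩ := HH_bounded h hp
  refine ⟨HH x 0, fun z => ?_⟩
  have hb : Bornology.IsBounded (Set.range (HH x)) := by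
    rw [isBounded_iff_forall_norm_le]
    refine ⟨K, ?_⟩
    rintro _ ⟨w, rfl⟩
    exact hK w
  have := (differentiable_HH h hp).apply_eq_apply_of_bounded hb z 0
  rw [DD_expand x z, this]
  ring

end Q66.FF
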