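import Pool.Agent.Q66.FF24

/-! Force field counterexample, part 25: descent to genus zero. -/

namespace Q66.FF

open Real Finset Filter Topology Complex

lemma inv_GG_tendsto {x : ℕ → ℝ} (h : Near x) : Tendsto (fun t : ℝ => 1 / GG x (t:ℂ)) atTop (𝓝 0) := by
  obtain ⟨C, hC0, hC⟩ := GG_sector h
  have hu : Tendsto (fun t : ℝ => Real.exp C * t^(-(1/12):ℝ)) atTop (𝓝 0) := by
    have := (tendsto_rpow_neg_atTop (show (0:ℝ) < 1/12 by norm_num)).const_mul (Real.exp C)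
    simpa using this
  apply squeeze_zero_norm' _ hu
  filter_upwards [eventually_ge_atTop (1:ℝ)] with t ht
  have hn : ‖(t:ℂ)‖ = t := by rw [Complex.norm_real, Real.norm_eq_abs, abs_of_pos (by linarith)]
  obtain ⟨hne, hu, hl⟩ := hC (t:ℂ) (by rw [hn]; exact ht) (by rw [hn, Complex.ofReal_re]; linarith)
  rw [hn] at hl
  have ht0 : 0 < t := by linarith
  rw [norm_div, norm_one, div_le_iff₀ (norm_pos_iff.2 hne)]
  have e : t^(-(1/12):ℝ) * t^(1/12:ℝ) = 1 := by rw [← Real.rpow_add ht0]; norm_num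
  calc (1:ℝ) = (Real.exp C * Real.exp (-C)) * (t^(-(1/12):ℝ) * t^(1/12:ℝ)) := by
        rw [e, ← Real.exp_add]; simp
    _ = Real.exp C * t^(-(1/12):ℝ) * (Real.exp (-C) * t^(1/12:ℝ)) := by ring
    _ ≤ _ := by gcongr

lemma inv_t_tendsto : Tendsto (fun t : ℝ => 1 / (t:ℂ)) atTop (𝓝 0) := by
  have hu : Tendsto (fun t : ℝ => t⁻¹) atTop (𝓝 (0:ℝ)) := tendsto_inv_atTop_zero
  apply squeeze_zero_norm' _ hu
  filter_upwards [eventually_ge_atTop (1:ℝ)] with t ht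
  rw [norm_div, norm_one, Complex.norm_real, Real.norm_eq_abs, abs_of_pos (by linarith), one_div]

lemma DD_linear {x : ℕ → ℝ} (h : Near x) (hp : Phase x) : ∀ z : ℂ,
    DD x z = DD x 0 + deriv (DD x) 0 * z := by
  obtain ⟨c₂, hc⟩ := DD_quadratic h hp
  obtain ⟨C, hC0, hC⟩ := GG_sector h
  have hc2 : c₂ = 0 := by
    have hi := inv_t_tendsto
    have h1 : Tendsto (fun t : ℝ => (1 / GG x (t:ℂ)) * (1/(t:ℂ))^2 - (1/(t:ℂ))^3 - (∑' k, S2t x k (t:ℂ)) / ((t:ℂ)^2)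
        - DD x 0 * (1/(t:ℂ))^2 - deriv (DD x) 0 * (1/(t:ℂ))) atTop (𝓝 (0 * 0^2 - 0^3 - 0 - DD x 0 * 0^2 - deriv (DD x) 0 * 0)) :=
      (((((inv_GG_tendsto h).mul (hi.pow 2)).sub (hi.pow 3)).sub (S2_little h)).sub ((hi.pow 2).const_mul _)).sub
        (hi.const_mul _)
    have h2 : (fun t : ℝ => (1 / GG x (t:ℂ)) * (1/(t:ℂ))^2 - (1/(t:ℂ))^3 - (∑' k, S2t x k (t:ℂ)) / ((t:ℂ)^2)
        - DD x 0 * (1/(t:ℂ))^2 - deriv (DD x) 0 * (1/(t:ℂ))) =ᶠ[atTop] fun _ => c₂ := by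
      filter_upwards [eventually_ge_atTop (1:ℝ)] with t ht
      have hn : ‖(t:ℂ)‖ = t := by rw [Complex.norm_real, Real.norm_eq_abs, abs_of_pos (by linarith)]
      obtain ⟨hne, hu, hl⟩ := hC (t:ℂ) (by rw [hn]; exact ht) (by rw [hn, Complex.ofReal_re]; linarith)
      have ht0 : (t:ℂ) ≠ 0 := by rw [Complex.ofReal_ne_zero]; linarith
      have e1 := hc (t:ℂ)
      rw [DD_eq h hne] at e1
      have e2 : c₂ = (1 / GG x (t:ℂ) - 1 / (t:ℂ) - ∑' k, S2t x k (t:ℂ) - DD x 0 - deriv (DD x) 0 * (t:ℂ)) / (t:ℂ)^2 := by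
        rw [eq_div_iff (pow_ne_zero 2 ht0)]
        linear_combination (-1) * e1
      rw [e2]
      field_simp
    have h3 := tendsto_nhds_unique (h1.congr' h2) tendsto_const_nhds
    simpa using h3.symm
  intro z
  rw [hc z, hc2]; ring

lemma alg_gen {a T A B p q : ℂ} (hA : A ≠ 0) (hB : B ≠ 0) (hp : p ≠ 0) (hq : q ≠ 0) :
    a * (T / (A * p) + T / (B * q)) = a * T * (B * q + A * p) / (A * B * (p * q)) := by
  field_simp

lemma alg_S2 {a t s o c r : ℂ} (hs : s ≠ 0) (ho : o ≠ 0) (hc : c ≠ 0) (h1 : o * c = 1) (h2 : o^2 = -I)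
    (h3 : c^2 = I) (h4 : I * c - I * o = r) (hp : t - s * o ≠ 0) (hq : t - s * c ≠ 0) :
    a * (t^2 / ((s * o)^2 * (t - s * o)) + t^2 / ((s * c)^2 * (t - s * c))) =
      -(r * a * t^2) / (s * ((t - s * o) * (t - s * c))) := by
  rw [alg_gen (pow_ne_zero 2 (mul_ne_zero hs ho)) (pow_ne_zero 2 (mul_ne_zero hs hc)) hp hq]
  have e2 : (s * o)^2 * (s * c)^2 = s^4 := by
    have : (s * o)^2 * (s * c)^2 = s^4 * (o * c)^2 := by ring
    rw [this, h1]; ring
  have e3 : (s * c)^2 * (t - s * c) + (s * o)^2 * (t - s * o) = -r * s^3 := by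
    have a1 : c^3 = I * c := by rw [show c^3 = c^2 * c by ring, h3]
    have a2 : o^3 = -I * o := by rw [show o^3 = o^2 * o by ring, h2]
    calc (s * c)^2 * (t - s * c) + (s * o)^2 * (t - s * o)
        = s^2 * t * (c^2 + o^2) - s^3 * (c^3 + o^3) := by ring
      _ = _ := by
        rw [h3, h2, a1, a2]
        linear_combination (-s^3) * h4
  rw [e2, e3]
  rw [div_eq_div_iff (mul_ne_zero (pow_ne_zero 4 hs) (mul_ne_zero hp hq)) (mul_ne_zero hs (mul_ne_zero hp hq))]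
  ring

lemma I_om : I * (starRingEnd ℂ) om - I * om = ((√2:ℝ):ℂ) := by
  have b1 : om = ((-(1/√2) : ℝ) : ℂ) + ((1/√2 : ℝ) : ℂ) * I := by
    unfold om; push_cast; field_simp
  have b2 : (starRingEnd ℂ) om = ((-(1/√2) : ℝ) : ℂ) - ((1/√2 : ℝ) : ℂ) * I := by
    rw [b1, map_add, map_mul, Complex.conj_I, Complex.conj_ofReal, Complex.conj_ofReal]; ring
  rw [b1] at *
  rw [b2]
  have b3 : ((1/√2 : ℝ) : ℂ) * 2 = ((√2:ℝ):ℂ) := by
    rw [← Complex.ofReal_ofNat, ← Complex.ofReal_mul]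
    congr 1
    have : √2 * √2 = (2:ℝ) := Real.mul_self_sqrt (by norm_num)
    field_simp
    rw [sq]; exact this.symm
  have := Complex.I_sq
  linear_combination b3 - 2 * ((1/√2 : ℝ) : ℂ) * this

/-- the terms on the real axis -/
lemma S2t_real {x : ℕ → ℝ} (h : Near x) (k : ℕ) (t : ℝ) :
    S2t x k (t:ℂ) = ((-(√2 * ak x k * t^2 / (√(x k) * ‖(t:ℂ) - zk x k‖^2)) : ℝ) : ℂ) := by
  have hx := h.pos k
  have hs0 : 0 < √(x k) := Real.sqrt_pos.2 hx
  have hne : (t:ℂ) - zk x k ≠ 0 := by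
    intro hc
    have := congrArg Complex.im hc
    rw [Complex.sub_im, Complex.ofReal_im, Complex.zero_im] at this
    have := zk_im_pos h k
    linarith
  have hnec : (t:ℂ) - (starRingEnd ℂ) (zk x k) ≠ 0 := by
    intro hc
    have := congrArg Complex.im hc
    rw [Complex.sub_im, Complex.ofReal_im, Complex.zero_im, Complex.conj_im] at this
    have := zk_im_pos h k
    linarith
  have hzk : zk x k = ((√(x k) : ℝ) : ℂ) * om := rfl
  have hzc : (starRingEnd ℂ) (zk x k) = ((√(x k) : ℝ) : ℂ) * (starRingEnd ℂ) om := by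
    rw [hzk, map_mul, Complex.conj_ofReal]
  have hn : ((‖(t:ℂ) - zk x k‖^2 : ℝ) : ℂ) = ((t:ℂ) - zk x k) * ((t:ℂ) - (starRingEnd ℂ) (zk x k)) := by
    have : (t:ℂ) - (starRingEnd ℂ) (zk x k) = (starRingEnd ℂ) ((t:ℂ) - zk x k) := by
      rw [map_sub, Complex.conj_ofReal]
    rw [this, Complex.mul_conj, Complex.normSq_eq_norm_sq]
  have hsC : ((√(x k) : ℝ) : ℂ) ≠ 0 := by rw [Complex.ofReal_ne_zero]; exact hs0.ne'
  have hc2 : ((starRingEnd ℂ) om)^2 = I := by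
    have := congrArg (starRingEnd ℂ) om_sq
    rw [map_pow, map_neg, Complex.conj_I, neg_neg] at this
    exact this
  have hcne : (starRingEnd ℂ) om ≠ 0 := by
    intro h0
    have := om_conj
    rw [h0, mul_zero] at this; exact zero_ne_one this
  have key := alg_S2 (a := (ak x k : ℂ)) (t := (t:ℂ)) hsC om_ne hcne om_conj om_sq hc2 I_om
    (by rw [← hzk]; exact hne) (by rw [← hzc]; exact hnec)
  rw [← hzk, ← hzc] at key
  unfold S2t
  rw [key, ← hn]
  push_cast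
  ring

end Q66.FF
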