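import Pool.Agent.Q66.FF25

/-! Force field counterexample, part 26: summability and the final representation. -/

namespace Q66.FF

open Real Finset Filter Topology Complex

/-- absolute values of the terms on the real axis -/
noncomputable def rr (x : ℕ → ℝ) (k : ℕ) (t : ℝ) : ℝ := √2 * ak x k * t^2 / (√(x k) * ‖(t:ℂ) - zk x k‖^2)

lemma rr_nonneg {x : ℕ → ℝ} (h : Near x) (k : ℕ) (t : ℝ) : 0 ≤ rr x k t := by
  have := ak_pos h k
  have := Real.sqrt_nonneg (x k)
  unfold rr; positivity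

lemma S2_real {x : ℕ → ℝ} (h : Near x) (t : ℝ) : ∑' k, S2t x k (t:ℂ) = ((-(∑' k, rr x k t) : ℝ) : ℂ) := by
  rw [Complex.ofReal_neg, Complex.ofReal_tsum, ← tsum_neg]
  congr 1
  funext k
  rw [S2t_real h]
  unfold rr
  rw [Complex.ofReal_neg]

lemma rr_eq_norm {x : ℕ → ℝ} (h : Near x) (k : ℕ) (t : ℝ) : rr x k t = ‖S2t x k (t:ℂ)‖ := by
  rw [S2t_real h, Complex.norm_real, Real.norm_eq_abs, abs_neg]
  rw [abs_of_nonneg]
  · rfl
  · exact rr_nonneg h k t

lemma rr_summable {x : ℕ → ℝ} (h : Near x) {t : ℝ} (ht : Good (t:ℂ)) : Summable (fun k => rr x k t) := by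
  have hs := summable_a3 h
  refine Summable.of_nonneg_of_le (fun k => rr_nonneg h k t) (fun k => ?_) (hs.mul_left (20 * ‖(t:ℂ)‖^2))
  rw [rr_eq_norm h]
  refine (S2t_good h k ht).trans ?_
  have := ak_pos h k; have hx := h.pos k; have := Real.sqrt_pos.2 hx
  gcongr
  linarith [norm_nonneg (t:ℂ)]

lemma rr_tsum_bdd {x : ℕ → ℝ} (h : Near x) (hp : Phase x) : ∃ K : ℝ, ∀ t : ℝ, 1 ≤ t → ∑' k, rr x k t ≤ K := by
  obtain ⟨C, hC0, hC⟩ := GG_sector h
  obtain ⟨C', hC0', hC'⟩ := GG_negray h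
  have hlin := DD_linear h hp
  -- estimates for 1/G
  have inv1 : ∀ t : ℝ, 1 ≤ t → GG x (t:ℂ) ≠ 0 ∧ ‖1 / GG x (t:ℂ)‖ ≤ Real.exp C := by
    intro t ht
    have hn : ‖(t:ℂ)‖ = t := by rw [Complex.norm_real, Real.norm_eq_abs, abs_of_pos (by linarith)]
    obtain ⟨hne, hu, hl⟩ := hC (t:ℂ) (by rw [hn]; exact ht) (by rw [hn, Complex.ofReal_re]; linarith)
    refine ⟨hne, ?_⟩
    have h2 : Real.exp (-C) ≤ ‖GG x (t:ℂ)‖ := by
      refine le_trans ?_ hl
      have : 1 ≤ ‖(t:ℂ)‖^(1/12:ℝ) := Real.one_le_rpow (by rw [hn]; exact ht) (by norm_num)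
      nlinarith [Real.exp_pos (-C)]
    rw [norm_div, norm_one, div_le_iff₀ (norm_pos_iff.2 hne)]
    calc (1:ℝ) = Real.exp C * Real.exp (-C) := by rw [← Real.exp_add]; simp
      _ ≤ _ := by gcongr
  have inv2 : ∀ t : ℝ, 1 ≤ t → GG x (-(t:ℂ)) ≠ 0 ∧ ‖1 / GG x (-(t:ℂ))‖ ≤ Real.exp C' := by
    intro t ht
    have h1 := hC' t ht
    have h2 : Real.exp (-C') ≤ ‖GG x (-(t:ℂ))‖ := by
      refine le_trans ?_ h1
      nlinarith [Real.exp_pos (-C')]
    have hgp : 0 < ‖GG x (-(t:ℂ))‖ := lt_of_lt_of_le (Real.exp_pos _) h2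
    refine ⟨norm_pos_iff.1 hgp, ?_⟩
    rw [norm_div, norm_one, div_le_iff₀ hgp]
    calc (1:ℝ) = Real.exp C' * Real.exp (-C') := by rw [← Real.exp_add]; simp
      _ ≤ _ := by gcongr
  -- identity on the real axis
  have id1 : ∀ t : ℝ, 1 ≤ t → (1 / GG x (t:ℂ)).re - 1/t + ∑' k, rr x k t = (DD x 0).re + (deriv (DD x) 0).re * t := by
    intro t ht
    have e := hlin (t:ℂ)
    rw [DD_eq h (inv1 t ht).1, S2_real h] at e
    have e' := congrArg Complex.re e
    rw [Complex.sub_re, Complex.sub_re, Complex.ofReal_re, Complex.add_re, mul_comm (deriv (DD x) 0),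
      Complex.re_ofReal_mul] at e'
    have e2 : (1 / (t:ℂ)).re = 1/t := by
      rw [← Complex.ofReal_one, ← Complex.ofReal_div, Complex.ofReal_re]
    rw [e2] at e'
    linarith
  have id2 : ∀ t : ℝ, 1 ≤ t → (1 / GG x (-(t:ℂ))).re + 1/t + ∑' k, rr x k (-t) = (DD x 0).re - (deriv (DD x) 0).re * t := by
    intro t ht
    have e := hlin (((-t : ℝ)) : ℂ)
    have e3 : (((-t : ℝ)) : ℂ) = -(t:ℂ) := by push_cast; rfl
    rw [DD_eq h (by rw [e3]; exact (inv2 t ht).1), S2_real h] at e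
    have e' := congrArg Complex.re e
    rw [Complex.sub_re, Complex.sub_re, Complex.ofReal_re, Complex.add_re, mul_comm (deriv (DD x) 0),
      Complex.re_ofReal_mul] at e'
    have e2 : (1 / (((-t : ℝ)) : ℂ)).re = -(1/t) := by
      rw [← Complex.ofReal_one, ← Complex.ofReal_div, Complex.ofReal_re]
      rw [div_neg]
    rw [e2, e3] at e'
    linarith
  have hD1 : 0 ≤ (deriv (DD x) 0).re := by
    by_contra hc
    push Not at hc
    set d := (deriv (DD x) 0).re with hd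
    have : Tendsto (fun t : ℝ => (DD x 0).re + d * t) atTop atBot :=
      tendsto_atBot_add_const_left _ _ (tendsto_id.const_mul_atTop_of_neg hc)
    obtain ⟨t, ht1, ht2⟩ := ((this.eventually_lt_atBot (-(Real.exp C) - 1)).and (eventually_ge_atTop (1:ℝ))).exists
    have e := id1 t ht2
    have h1 := (inv1 t ht2).2
    have h2 := (abs_le.1 ((Complex.abs_re_le_norm _).trans h1)).1
    have h3 : 0 ≤ ∑' k, rr x k t := tsum_nonneg (fun k => rr_nonneg h k t)
    have h4 : 1/t ≤ 1 := by rw [div_le_one (by linarith)]; exact ht2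
    linarith
  have hD2 : (deriv (DD x) 0).re ≤ 0 := by
    by_contra hc
    push Not at hc
    set d := (deriv (DD x) 0).re with hd
    have : Tendsto (fun t : ℝ => (DD x 0).re + (-d) * t) atTop atBot :=
      tendsto_atBot_add_const_left _ _ (tendsto_id.const_mul_atTop_of_neg (by linarith))
    obtain ⟨t, ht1, ht2⟩ := ((this.eventually_lt_atBot (-(Real.exp C') - 1)).and (eventually_ge_atTop (1:ℝ))).exists
    have e := id2 t ht2
    have h1 := (inv2 t ht2).2
    have h2 := (abs_le.1 ((Complex.abs_re_le_norm _).trans h1)).1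
    have h3 : 0 ≤ ∑' k, rr x k (-t) := tsum_nonneg (fun k => rr_nonneg h k _)
    have h4 : 0 ≤ 1/t := by positivity
    linarith
  have hD : (deriv (DD x) 0).re = 0 := le_antisymm hD2 hD1
  refine ⟨(DD x 0).re + Real.exp C + 1, fun t ht => ?_⟩
  have e := id1 t ht
  rw [hD] at e
  have h1 := (inv1 t ht).2
  have h2 := (abs_le.1 ((Complex.abs_re_le_norm _).trans h1)).1
  have h4 : 1/t ≤ 1 := by rw [div_le_one (by linarith)]; exact ht
  linarith

/-- the masses are summable against the distances -/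
lemma summable_a1 {x : ℕ → ℝ} (h : Near x) (hp : Phase x) : Summable (fun k => ak x k / √(x k)) := by
  obtain ⟨K, hK⟩ := rr_tsum_bdd h hp
  apply summable_of_sum_le (c := 4 * K)
  · intro k
    have := ak_pos h k; have := Real.sqrt_nonneg (x k); positivity
  · intro F
    set t : ℝ := 1 + ∑ k ∈ F, √(x k) with ht
    have ht1 : 1 ≤ t := by
      have : 0 ≤ ∑ k ∈ F, √(x k) := sum_nonneg (fun k _ => Real.sqrt_nonneg _)
      linarith
    have ht0 : 0 < t := by linarith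
    have hn : ‖(t:ℂ)‖ = t := by rw [Complex.norm_real, Real.norm_eq_abs, abs_of_pos ht0]
    have h1 : ∑ k ∈ F, rr x k t ≤ K :=
      ((rr_summable h (good_pos ht1)).sum_le_tsum F (fun k _ => rr_nonneg h k t)).trans (hK t ht1)
    have h2 : ∀ k ∈ F, ak x k / √(x k) ≤ 4 * rr x k t := by
      intro k hk
      have ha := ak_pos h k
      have hs := Real.sqrt_pos.2 (h.pos k)
      have hle : √(x k) ≤ t := by
        have := single_le_sum (fun k _ => Real.sqrt_nonneg (x k)) hk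
        linarith
      have hd : ‖(t:ℂ) - zk x k‖ ≤ 2 * t := by
        refine (norm_sub_le _ _).trans ?_
        rw [hn, norm_zk]; linarith
      have hdp : 0 < ‖(t:ℂ) - zk x k‖ := by
        have := ((good_pos ht1).dist x k).1
        have : 0 < 1/10 * (√(x k) + ‖(t:ℂ)‖) := by positivity
        linarith
      unfold rr
      have h2' : (1:ℝ) ≤ √2 := by
        have := r2_bounds; linarith
      calc ak x k / √(x k) = 4 * (1 * ak x k * t^2 / (√(x k) * (2 * t)^2)) := by field_simp; norm_num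
        _ ≤ _ := by gcongr
    calc ∑ k ∈ F, ak x k / √(x k) ≤ ∑ k ∈ F, 4 * rr x k t := sum_le_sum h2
      _ = 4 * ∑ k ∈ F, rr x k t := by rw [mul_sum]
      _ ≤ _ := by gcongr

/-- terms of the genus zero series -/
noncomputable def S0t (x : ℕ → ℝ) (k : ℕ) (z : ℂ) : ℂ :=
  (ak x k : ℂ) / (z - zk x k) + (ak x k : ℂ) / (z - (starRingEnd ℂ) (zk x k))

lemma S2t_eq {x : ℕ → ℝ} (h : Near x) (k : ℕ) {z : ℂ} (h1 : z ≠ zk x k) (h2 : z ≠ (starRingEnd ℂ) (zk x k)) :
    S2t x k z = S0t x k z - ((√2 * (ak x k / √(x k)) : ℝ) : ℂ) := by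
  have hx := h.pos k
  have hs0 : 0 < √(x k) := Real.sqrt_pos.2 hx
  have hsC : ((√(x k) : ℝ) : ℂ) ≠ 0 := by rw [Complex.ofReal_ne_zero]; exact hs0.ne'
  have p1 : z - zk x k ≠ 0 := sub_ne_zero.2 h1
  have p2 : z - (starRingEnd ℂ) (zk x k) ≠ 0 := sub_ne_zero.2 h2
  have hk := zk_ne h k
  have hkc : (starRingEnd ℂ) (zk x k) ≠ 0 := by
    rw [← norm_pos_iff, Complex.norm_conj, norm_zk]; exact hs0
  have part : ∀ w : ℂ, w ≠ 0 → z - w ≠ 0 → z^2 / (w^2 * (z - w)) = 1 / (z - w) + 1 / w + z / w^2 := by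
    intro w hw hzw
    field_simp
    ring
  have hzc : (starRingEnd ℂ) (zk x k) = ((√(x k) : ℝ) : ℂ) * (starRingEnd ℂ) om := by
    unfold zk; rw [map_mul, Complex.conj_ofReal]
  have hzk : zk x k = ((√(x k) : ℝ) : ℂ) * om := rfl
  have hc2 : ((starRingEnd ℂ) om)^2 = I := by
    have := congrArg (starRingEnd ℂ) om_sq
    rw [map_pow, map_neg, Complex.conj_I, neg_neg] at this
    exact this
  have hcne : (starRingEnd ℂ) om ≠ 0 := by
    intro h0
    have := om_conj
    rw [h0, mul_zero] at this; exact zero_ne_one this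
  have e1 : z / (zk x k)^2 + z / ((starRingEnd ℂ) (zk x k))^2 = 0 := by
    rw [hzc, hzk, mul_pow, mul_pow, om_sq, hc2]
    have := Complex.I_ne_zero
    field_simp
    ring
  have e2 : 1 / zk x k + 1 / (starRingEnd ℂ) (zk x k) = -((√2 : ℝ) : ℂ) / ((√(x k) : ℝ) : ℂ) := by
    have a := om_add_conj
    have b := om_conj
    have c : 1 / zk x k + 1 / (starRingEnd ℂ) (zk x k) = (zk x k + (starRingEnd ℂ) (zk x k)) / (zk x k * (starRingEnd ℂ) (zk x k)) := by
      field_simp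
      ring
    rw [c, hzc, hzk]
    have d : ((√(x k) : ℝ) : ℂ) * om * (((√(x k) : ℝ) : ℂ) * (starRingEnd ℂ) om) = ((√(x k) : ℝ) : ℂ)^2 := by
      linear_combination ((√(x k) : ℝ) : ℂ)^2 * b
    rw [d, ← mul_add, a]
    field_simp
  unfold S2t S0t
  rw [part _ hk p1, part _ hkc p2]
  push_cast
  have e3 : (√2 : ℂ) = ((√2 : ℝ) : ℂ) := rfl
  linear_combination (ak x k : ℂ) * e1 + (ak x k : ℂ) * e2

end Q66.FF
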