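import Pool.Agent.Q66.FF26

/-! Force field counterexample, part 27: expansion of genus zero for `1/G`. -/

namespace Q66.FF

open Real Finset Filter Topology Complex

lemma tendsto_sqrt_x {x : ℕ → ℝ} (h : Near x) : Tendsto (fun k => √(x k)) atTop atTop := by
  apply Real.tendsto_sqrt_atTop.comp
  apply tendsto_atTop_mono (f := fun k : ℕ => (k:ℝ)) (fun k => ?_) tendsto_natCast_atTop_atTop
  have := h.lo k; linarith

lemma S0t_norm_le {x : ℕ → ℝ} (h : Near x) (k : ℕ) {z : ℂ} {δ : ℝ} (hδ : 0 < δ) (h1 : δ ≤ ‖z - zk x k‖)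
    (h2 : δ ≤ ‖z - (starRingEnd ℂ) (zk x k)‖) : ‖S0t x k z‖ ≤ 2 * (ak x k / δ) := by
  have ha := ak_pos h k
  unfold S0t
  refine (norm_add_le _ _).trans ?_
  rw [norm_div, norm_div, Complex.norm_real, Real.norm_eq_abs, abs_of_pos ha]
  have b1 : ak x k / ‖z - zk x k‖ ≤ ak x k / δ := by gcongr
  have b2 : ak x k / ‖z - (starRingEnd ℂ) (zk x k)‖ ≤ ak x k / δ := by gcongr
  linarith

lemma eventually_far {x : ℕ → ℝ} (h : Near x) (z : ℂ) : ∀ᶠ k in atTop, √(x k)/2 ≤ ‖z - zk x k‖ ∧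
    √(x k)/2 ≤ ‖z - (starRingEnd ℂ) (zk x k)‖ := by
  filter_upwards [(tendsto_sqrt_x h).eventually_ge_atTop (2 * ‖z‖)] with k hk
  constructor
  · have := norm_sub_norm_le (zk x k) z
    rw [norm_zk, norm_sub_rev] at this
    linarith
  · have := norm_sub_norm_le ((starRingEnd ℂ) (zk x k)) z
    rw [Complex.norm_conj, norm_zk, norm_sub_rev] at this
    linarith

lemma summable_S0 {x : ℕ → ℝ} (h : Near x) (hp : Phase x) (z : ℂ) : Summable (fun k => S0t x k z) := by
  have hs := (summable_a1 h hp).mul_left 4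
  apply Summable.of_norm_bounded_eventually_nat hs
  filter_upwards [eventually_far h z] with k hk
  have hsx := Real.sqrt_pos.2 (h.pos k)
  refine (S0t_norm_le h k (by positivity) hk.1 hk.2).trans (le_of_eq ?_)
  field_simp
  ring

lemma S0_tendsto {x : ℕ → ℝ} (h : Near x) (hp : Phase x) :
    Tendsto (fun t : ℝ => ∑' k, S0t x k (t:ℂ)) atTop (𝓝 0) := by
  have hs := (summable_a1 h hp).mul_left 20
  have h1 : Tendsto (fun t : ℝ => ∑' k, S0t x k (t:ℂ)) atTop (𝓝 (∑' _ : ℕ, (0:ℂ))) := by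
    apply tendsto_tsum_of_dominated_convergence (bound := fun k => 20 * (ak x k / √(x k))) hs
    · intro k
      have ha := ak_pos h k
      have hu : Tendsto (fun t : ℝ => 20 * (ak x k / t)) atTop (𝓝 0) := by
        have : Tendsto (fun t : ℝ => ak x k / t) atTop (𝓝 0) := tendsto_const_nhds.div_atTop tendsto_id
        simpa using this.const_mul 20
      apply squeeze_zero_norm' _ hu
      filter_upwards [eventually_ge_atTop (1:ℝ)] with t ht
      have hn : ‖(t:ℂ)‖ = t := by rw [Complex.norm_real, Real.norm_eq_abs, abs_of_pos (by linarith)]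
      have hd := (good_pos ht).dist x k
      rw [hn] at hd
      have hsx := Real.sqrt_nonneg (x k)
      have ht0 : 0 < t := by linarith
      refine (S0t_norm_le h k (δ := t/10) (by positivity) (by linarith) (by linarith)).trans (le_of_eq ?_)
      field_simp
      try norm_num
      try ring
    · filter_upwards [eventually_ge_atTop (1:ℝ)] with t ht k
      have hn : ‖(t:ℂ)‖ = t := by rw [Complex.norm_real, Real.norm_eq_abs, abs_of_pos (by linarith)]
      have hd := (good_pos ht).dist x k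
      rw [hn] at hd
      have hsx := Real.sqrt_pos.2 (h.pos k)
      refine (S0t_norm_le h k (δ := √(x k)/10) (by positivity) (by linarith) (by linarith)).trans (le_of_eq ?_)
      field_simp
      ring
  rwa [tsum_zero] at h1

/-- the simple fraction expansion of `1/G` -/
theorem inv_GG_eq {x : ℕ → ℝ} (h : Near x) (hp : Phase x) : ∀ z : ℂ, GG x z ≠ 0 →
    1 / GG x z = 1 / z + ∑' k, S0t x k z := by
  have hs := (summable_a1 h hp).mul_left (√2)
  set P : ℝ := ∑' k, √2 * (ak x k / √(x k)) with hP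
  have hPc : Summable (fun k => ((√2 * (ak x k / √(x k)) : ℝ) : ℂ)) := Complex.ofRealCLM.summable hs
  have key : ∀ z : ℂ, GG x z ≠ 0 →
      1 / GG x z = 1 / z + ∑' k, S0t x k z + (DD x 0 - (P:ℂ)) + deriv (DD x) 0 * z := by
    intro z hz
    have hz' : ¬ (z = 0 ∨ ∃ k, z = zk x k ∨ z = (starRingEnd ℂ) (zk x k)) := fun hc => hz ((GG_eq_zero_iff h z).2 hc)
    push Not at hz'
    obtain ⟨h0, h1⟩ := hz'
    have e := DD_linear h hp z
    rw [DD_eq h hz] at e
    have e2 : ∑' k, S2t x k z = ∑' k, S0t x k z - (P:ℂ) := by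
      have : (fun k => S2t x k z) = fun k => S0t x k z - ((√2 * (ak x k / √(x k)) : ℝ) : ℂ) := by
        funext k; exact S2t_eq h k (h1 k).1 (h1 k).2
      rw [this, (summable_S0 h hp z).tsum_sub hPc, hP, Complex.ofReal_tsum]
    rw [e2] at e
    linear_combination e
  obtain ⟨C, hC0, hC⟩ := GG_sector h
  have hlin : Tendsto (fun t : ℝ => (DD x 0 - (P:ℂ)) + deriv (DD x) 0 * (t:ℂ)) atTop (𝓝 0) := by
    have h1 : Tendsto (fun t : ℝ => 1 / GG x (t:ℂ) - 1 / (t:ℂ) - ∑' k, S0t x k (t:ℂ)) atTop (𝓝 (0 - 0 - 0)) :=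
      ((inv_GG_tendsto h).sub inv_t_tendsto).sub (S0_tendsto h hp)
    rw [sub_zero, sub_zero] at h1
    refine h1.congr' ?_
    filter_upwards [eventually_ge_atTop (1:ℝ)] with t ht
    have hn : ‖(t:ℂ)‖ = t := by rw [Complex.norm_real, Real.norm_eq_abs, abs_of_pos (by linarith)]
    obtain ⟨hne, hu, hl⟩ := hC (t:ℂ) (by rw [hn]; exact ht) (by rw [hn, Complex.ofReal_re]; linarith)
    rw [key _ hne]
    ring
  have hd : deriv (DD x) 0 = 0 := by
    have h1 : Tendsto (fun t : ℝ => ((DD x 0 - (P:ℂ)) + deriv (DD x) 0 * (t:ℂ)) * (1/(t:ℂ)) - (DD x 0 - (P:ℂ)) * (1/(t:ℂ)))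
        atTop (𝓝 (0 * 0 - (DD x 0 - (P:ℂ)) * 0)) := (hlin.mul inv_t_tendsto).sub (inv_t_tendsto.const_mul _)
    have h2 : (fun t : ℝ => ((DD x 0 - (P:ℂ)) + deriv (DD x) 0 * (t:ℂ)) * (1/(t:ℂ)) - (DD x 0 - (P:ℂ)) * (1/(t:ℂ)))
        =ᶠ[atTop] fun _ => deriv (DD x) 0 := by
      filter_upwards [eventually_ge_atTop (1:ℝ)] with t ht
      have ht0 : (t:ℂ) ≠ 0 := by rw [Complex.ofReal_ne_zero]; linarith
      field_simp
      ring
    have h3 := tendsto_nhds_unique (h1.congr' h2) tendsto_const_nhds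
    simpa using h3.symm
  have hc : DD x 0 - (P:ℂ) = 0 := by
    rw [hd] at hlin
    simp only [zero_mul, add_zero] at hlin
    exact tendsto_nhds_unique tendsto_const_nhds hlin
  intro z hz
  rw [key z hz, hd, hc]
  ring

theorem force_ne_zero {x : ℕ → ℝ} (h : Near x) (hp : Phase x) {z : ℂ} (hz : GG x z ≠ 0) :
    1 / z + ∑' k, S0t x k z ≠ 0 := by
  rw [← inv_GG_eq h hp z hz]
  exact one_div_ne_zero hz

end Q66.FF
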