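import Pool.Agent.Q66.FF27

/-! Force field counterexample, part 28: the configuration in the complex plane. -/

namespace Q66.FF

open Real Finset Filter Topology Complex

/-- the points `-1`, `z_k - 1`, `conj z_k - 1` in one list -/
noncomputable def pts (x : ℕ → ℝ) : ℕ → ℂ
  | 0 => -1
  | (i+1) => if i % 2 = 0 then zk x (i/2) - 1 else (starRingEnd ℂ) (zk x (i/2)) - 1

/-- the masses -/
noncomputable def mss (x : ℕ → ℝ) : ℕ → ℝ
  | 0 => 1
  | (i+1) => ak x (i/2)

lemma pts_zero (x : ℕ → ℝ) : pts x 0 = -1 := rfl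
lemma mss_zero (x : ℕ → ℝ) : mss x 0 = 1 := rfl

lemma pts_even (x : ℕ → ℝ) (k : ℕ) : pts x (2*k+1) = zk x k - 1 := by
  have h1 : (2*k) % 2 = 0 := by omega
  have h2 : (2*k)/2 = k := by omega
  show (if (2*k) % 2 = 0 then zk x ((2*k)/2) - 1 else (starRingEnd ℂ) (zk x ((2*k)/2)) - 1) = _
  rw [if_pos h1, h2]

lemma pts_odd (x : ℕ → ℝ) (k : ℕ) : pts x (2*k+1+1) = (starRingEnd ℂ) (zk x k) - 1 := by
  have h1 : ¬ ((2*k+1) % 2 = 0) := by omega
  have h2 : (2*k+1)/2 = k := by omega
  show (if (2*k+1) % 2 = 0 then zk x ((2*k+1)/2) - 1 else (starRingEnd ℂ) (zk x ((2*k+1)/2)) - 1) = _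
  rw [if_neg h1, h2]

lemma mss_even (x : ℕ → ℝ) (k : ℕ) : mss x (2*k+1) = ak x k := by
  have h2 : (2*k)/2 = k := by omega
  show ak x ((2*k)/2) = _
  rw [h2]

lemma mss_odd (x : ℕ → ℝ) (k : ℕ) : mss x (2*k+1+1) = ak x k := by
  have h2 : (2*k+1)/2 = k := by omega
  show ak x ((2*k+1)/2) = _
  rw [h2]

lemma idx (i : ℕ) : i = 0 ∨ (∃ k, i = 2*k+1) ∨ (∃ k, i = 2*k+1+1) := by
  rcases Nat.eq_zero_or_pos i with h | h
  · exact Or.inl h
  · rcases Nat.even_or_odd' (i-1) with ⟨k, hk | hk⟩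
    · exact Or.inr (Or.inl ⟨k, by omega⟩)
    · exact Or.inr (Or.inr ⟨k, by omega⟩)

lemma mss_pos {x : ℕ → ℝ} (h : Near x) (i : ℕ) : 0 < mss x i := by
  rcases idx i with h0 | ⟨k, h0⟩ | ⟨k, h0⟩
  · rw [h0, mss_zero]; exact one_pos
  · rw [h0, mss_even]; exact ak_pos h k
  · rw [h0, mss_odd]; exact ak_pos h k

lemma zkc_ne {x : ℕ → ℝ} (h : Near x) (k : ℕ) : (starRingEnd ℂ) (zk x k) ≠ 0 := by
  rw [← norm_pos_iff, Complex.norm_conj, norm_zk]; exact Real.sqrt_pos.2 (h.pos k)

lemma zk_re_neg {x : ℕ → ℝ} (h : Near x) (k : ℕ) : (zk x k).re < 0 := by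
  rw [(zk_re k).1]; have := Real.sqrt_pos.2 (h.pos k)
  have h2 : 0 < √(x k) / √2 := by positivity
  linarith

lemma pts_ne_zero {x : ℕ → ℝ} (h : Near x) (i : ℕ) : pts x i ≠ 0 := by
  rcases idx i with h0 | ⟨k, h0⟩ | ⟨k, h0⟩
  · rw [h0, pts_zero]; norm_num
  · rw [h0, pts_even]
    intro hc
    have := congrArg Complex.re hc
    rw [Complex.sub_re, Complex.one_re, Complex.zero_re] at this
    have := zk_re_neg h k
    linarith
  · rw [h0, pts_odd]
    intro hc
    have := congrArg Complex.re hc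
    rw [Complex.sub_re, Complex.one_re, Complex.zero_re, Complex.conj_re] at this
    have := zk_re_neg h k
    linarith

lemma pts_inj {x : ℕ → ℝ} (h : Near x) : Function.Injective (pts x) := by
  intro i j hij
  rcases idx i with h0 | ⟨k, h0⟩ | ⟨k, h0⟩ <;> rcases idx j with h1 | ⟨l, h1⟩ | ⟨l, h1⟩
  · rw [h0, h1]
  · rw [h0, h1, pts_zero, pts_even] at hij
    exact absurd (by linear_combination -hij) (zk_ne h l)
  · rw [h0, h1, pts_zero, pts_odd] at hij
    exact absurd (by linear_combination -hij) (zkc_ne h l)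
  · rw [h0, h1, pts_zero, pts_even] at hij
    exact absurd (by linear_combination hij) (zk_ne h k)
  · rw [h0, h1, pts_even, pts_even] at hij
    have : zk x k = zk x l := by linear_combination hij
    rw [h0, h1, zk_inj h this]
  · rw [h0, h1, pts_even, pts_odd] at hij
    exact absurd (by linear_combination hij) (zk_ne_conj h k l)
  · rw [h0, h1, pts_zero, pts_odd] at hij
    exact absurd (by linear_combination hij) (zkc_ne h k)
  · rw [h0, h1, pts_odd, pts_even] at hij
    exact absurd (by linear_combination -hij) (zk_ne_conj h l k)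
  · rw [h0, h1, pts_odd, pts_odd] at hij
    have : (starRingEnd ℂ) (zk x k) = (starRingEnd ℂ) (zk x l) := by linear_combination hij
    rw [h0, h1, zk_inj h ((starRingEnd ℂ).injective this)]

/-- norms of the points -/
lemma norm_pts_ge {x : ℕ → ℝ} (h : Near x) (k : ℕ) :
    √(x k) ≤ ‖pts x (2*k+1)‖ ∧ √(x k) ≤ ‖pts x (2*k+1+1)‖ := by
  have gen : ∀ w : ℂ, w.re < 0 → ‖w‖ ≤ ‖w - 1‖ := by
    intro w hw
    have h1 : ‖w‖^2 ≤ ‖w - 1‖^2 := by
      rw [← Complex.normSq_eq_norm_sq, ← Complex.normSq_eq_norm_sq, Complex.normSq_apply, Complex.normSq_apply]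
      simp only [Complex.sub_re, Complex.one_re, Complex.sub_im, Complex.one_im]
      nlinarith
    exact (sq_le_sq₀ (norm_nonneg _) (norm_nonneg _)).1 h1
  constructor
  · rw [pts_even, ← norm_zk (x := x) k]; exact gen _ (zk_re_neg h k)
  · rw [pts_odd, ← norm_zk (x := x) k, ← Complex.norm_conj]
    exact gen _ (by rw [Complex.conj_re]; exact zk_re_neg h k)

lemma summable_split {f : ℕ → ℝ} (h1 : Summable (fun k => f (2*k+1))) (h2 : Summable (fun k => f (2*k+1+1))) :
    Summable f := by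
  rw [← summable_nat_add_iff 1]
  exact (HasSum.even_add_odd (f := fun i => f (i+1)) h1.hasSum h2.hasSum).summable

lemma summable_cond {x : ℕ → ℝ} (h : Near x) (hp : Phase x) : Summable (fun i => mss x i / ‖pts x i‖) := by
  apply summable_split
  · refine Summable.of_nonneg_of_le (fun k => ?_) (fun k => ?_) (summable_a1 h hp)
    · have := mss_pos h (2*k+1); positivity
    · rw [mss_even]
      have := ak_pos h k
      have := Real.sqrt_pos.2 (h.pos k)
      have := (norm_pts_ge h k).1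
      gcongr
  · refine Summable.of_nonneg_of_le (fun k => ?_) (fun k => ?_) (summable_a1 h hp)
    · have := mss_pos h (2*k+1+1); positivity
    · rw [mss_odd]
      have := ak_pos h k
      have := Real.sqrt_pos.2 (h.pos k)
      have := (norm_pts_ge h k).2
      gcongr

lemma finite_ball {x : ℕ → ℝ} (h : Near x) (R : ℝ) : {i : ℕ | ‖pts x i‖ ≤ R}.Finite := by
  obtain ⟨M, hM⟩ := eventually_atTop.1 ((tendsto_sqrt_x h).eventually_gt_atTop R)
  apply (Set.finite_Iio (2*M+3)).subset
  intro i hi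
  rw [Set.mem_ofPred_eq] at hi
  rw [Set.mem_Iio]
  by_contra hc
  push Not at hc
  rcases idx i with h0 | ⟨k, h0⟩ | ⟨k, h0⟩
  · omega
  · have h1 := hM k (by omega)
    have h2 := (norm_pts_ge h k).1
    rw [h0] at hi
    linarith
  · have h1 := hM k (by omega)
    have h2 := (norm_pts_ge h k).2
    rw [h0] at hi
    linarith

/-- the complex field at a point off the configuration -/
lemma hasSum_field {x : ℕ → ℝ} (h : Near x) (hp : Phase x) {w : ℂ} (hw : w ∉ Set.range (pts x)) :
    ∃ S : ℂ, S ≠ 0 ∧ HasSum (fun i => (mss x i : ℂ) / (w - pts x i)) S := by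
  have hz : GG x (w + 1) ≠ 0 := by
    intro h0
    apply hw
    rcases (GG_eq_zero_iff h _).1 h0 with h1 | ⟨k, h1 | h1⟩
    · exact ⟨0, by rw [pts_zero]; linear_combination -h1⟩
    · exact ⟨2*k+1, by rw [pts_even]; linear_combination -h1⟩
    · exact ⟨2*k+1+1, by rw [pts_odd]; linear_combination -h1⟩
  have hne := force_ne_zero h hp hz
  refine ⟨_, hne, ?_⟩
  -- separate summability
  have hs := (summable_a1 h hp).mul_left 2
  have s1 : Summable (fun k => (ak x k : ℂ) / (w + 1 - zk x k)) := by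
    apply Summable.of_norm_bounded_eventually_nat hs
    filter_upwards [eventually_far h (w+1)] with k hk
    have hsx := Real.sqrt_pos.2 (h.pos k)
    have ha := ak_pos h k
    rw [norm_div, Complex.norm_real, Real.norm_eq_abs, abs_of_pos ha]
    have hk1 := hk.1
    calc ak x k / ‖w + 1 - zk x k‖ ≤ ak x k / (√(x k)/2) := by gcongr
      _ = _ := by field_simp
  have s2 : Summable (fun k => (ak x k : ℂ) / (w + 1 - (starRingEnd ℂ) (zk x k))) := by
    apply Summable.of_norm_bounded_eventually_nat hs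
    filter_upwards [eventually_far h (w+1)] with k hk
    have hsx := Real.sqrt_pos.2 (h.pos k)
    have ha := ak_pos h k
    rw [norm_div, Complex.norm_real, Real.norm_eq_abs, abs_of_pos ha]
    have hk1 := hk.2
    calc ak x k / ‖w + 1 - (starRingEnd ℂ) (zk x k)‖ ≤ ak x k / (√(x k)/2) := by gcongr
      _ = _ := by field_simp
  set f : ℕ → ℂ := fun i => (mss x i : ℂ) / (w - pts x i) with hf
  have f0 : f 0 = 1 / (w + 1) := by
    rw [hf]; simp only [mss_zero, pts_zero]; push_cast; congr 1; ring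
  have f1 : ∀ k, f (2*k+1) = (ak x k : ℂ) / (w + 1 - zk x k) := by
    intro k; rw [hf]; simp only [mss_even, pts_even]; congr 1; ring
  have f2 : ∀ k, f (2*k+1+1) = (ak x k : ℂ) / (w + 1 - (starRingEnd ℂ) (zk x k)) := by
    intro k; rw [hf]; simp only [mss_odd, pts_odd]; congr 1; ring
  have h1 : HasSum (fun i => f (i+1)) (∑' k, S0t x k (w+1)) := by
    have e : ∑' k, S0t x k (w+1) = ∑' k, (ak x k : ℂ) / (w + 1 - zk x k) + ∑' k, (ak x k : ℂ) / (w + 1 - (starRingEnd ℂ) (zk x k)) := by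
      rw [← s1.tsum_add s2]; rfl
    rw [e]
    apply HasSum.even_add_odd (f := fun i => f (i+1))
    · simp only [f1]; exact s1.hasSum
    · simp only [f2]; exact s2.hasSum
  have h2 := (hasSum_nat_add_iff (f := f) 1).1 h1
  rw [sum_range_one, f0, add_comm] at h2
  exact h2

end Q66.FF
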