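import Pool.Agent.Q66.FF2

/-! Force field counterexample, part 3: the phase function and its variation. -/

namespace Q66.FF

open Real Finset Filter Topology

/-- `d_j = 2(√(j+1) - √j)` -/
noncomputable def dd (j : ℕ) : ℝ := 2 * (√((j:ℝ)+1) - √j)

/-- terms of the phase series -/
noncomputable def trm (y t : ℝ) (j : ℕ) : ℝ := aa y t - √y * dd j

/-- phase function -/
noncomputable def AA (x : ℕ → ℝ) (y : ℝ) : ℝ := ∑' j, trm y (x j) j

lemma sum_dd (N : ℕ) : ∑ j ∈ range N, dd j = 2 * √N := by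
  induction N with
  | zero => simp
  | succ n ih => rw [sum_range_succ, ih]; unfold dd; push_cast; ring

lemma sum_trm (x : ℕ → ℝ) (y : ℝ) (N : ℕ) :
    ∑ j ∈ range N, trm y (x j) j = ∑ j ∈ range N, aa y (x j) - 2 * √y * √N := by
  unfold trm
  rw [sum_sub_distrib, ← mul_sum, sum_dd]; ring

/-- comparison `|1/√x - d_j|` -/
lemma inv_sub_dd {x : ℕ → ℝ} (h : Near x) (j : ℕ) : |1/√(x j) - dd j| ≤ 4 / ((j:ℝ)+1)^(3/2:ℝ) := by
  have hn : (0:ℝ) ≤ j := Nat.cast_nonneg j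
  have e : dd j = 2 / (√((j:ℝ)+1) + √j) := by
    unfold dd
    have hq : 0 < √((j:ℝ)+1) := Real.sqrt_pos.2 (by linarith)
    have e1 : √(j:ℝ) ^ 2 = j := Real.sq_sqrt hn
    have e2 : √((j:ℝ)+1) ^ 2 = j+1 := Real.sq_sqrt (by linarith)
    have : 0 < √((j:ℝ)+1) + √j := by positivity
    rw [eq_div_iff this.ne']
    nlinarith
  have hq : 0 < √((j:ℝ)+1) := Real.sqrt_pos.2 (by linarith)
  have hjq : √(j:ℝ) ≤ √((j:ℝ)+1) := Real.sqrt_le_sqrt (by linarith)
  have hd1 : 1/√((j:ℝ)+1) ≤ dd j := by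
    rw [e, div_le_div_iff₀ hq (by positivity)]
    linarith
  have hv1 : 1/√((j:ℝ)+1) ≤ 1/√(x j) := inv_sqrt_anti (h.pos j) (by linarith [h.hi j])
  have hpow : ((j:ℝ)+1)^(3/2:ℝ) = ((j:ℝ)+1) * √((j:ℝ)+1) := by
    rw [Real.sqrt_eq_rpow, show (3/2:ℝ) = 1 + 1/2 by norm_num, Real.rpow_add (by linarith), Real.rpow_one]
  rw [hpow]
  rcases Nat.eq_zero_or_pos j with h0 | h0
  · subst h0
    have a1 : 1/√(x 0) ≤ 2 := by
      have := inv_sqrt_anti (s := 1/4) (t := x 0) (by norm_num) (by have := h.lo 0; norm_num at this; linarith)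
      have e : √(1/4:ℝ) = 1/2 := by
        rw [show (1/4:ℝ) = (1/2)^2 by norm_num, Real.sqrt_sq (by norm_num)]
      rw [e] at this; norm_num at this; simpa using this
    have a2 : 0 < 1/√(x 0) := by have := Real.sqrt_pos.2 (h.pos 0); positivity
    have a3 : dd 0 = 2 := by unfold dd; simp
    rw [a3, abs_le]
    simp only [Nat.cast_zero, zero_add, Real.sqrt_one, mul_one, div_one]
    constructor <;> linarith
  · have hj1 : (1:ℝ) ≤ j := by exact_mod_cast h0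
    have hp : 0 < √(j:ℝ) := Real.sqrt_pos.2 (by linarith)
    have hd2 : dd j ≤ 1/√(j:ℝ) := by
      rw [e, div_le_div_iff₀ (by positivity) hp]
      linarith
    have hv2 : 1/√(x j) ≤ 1/√(j:ℝ) := inv_sqrt_anti (by linarith) (by linarith [h.lo j])
    have hdiff : 1/√(j:ℝ) - 1/√((j:ℝ)+1) ≤ 4 / (((j:ℝ)+1) * √((j:ℝ)+1)) := by
      have e1 : √(j:ℝ) ^ 2 = j := Real.sq_sqrt hn
      have e2 : √((j:ℝ)+1) ^ 2 = j+1 := Real.sq_sqrt (by linarith)
      set p := √(j:ℝ)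
      set q := √((j:ℝ)+1)
      have h2p : q ≤ 2 * p := by
        apply le_of_sq_le_sq _ (by positivity)
        nlinarith
      rw [← e2]
      rw [div_sub_div _ _ hp.ne' hq.ne', div_le_div_iff₀ (by positivity) (by positivity)]
      have h3 : (q - p) * (q + p) = 1 := by nlinarith
      have h4 : (q - p) * q ≤ 1 := by nlinarith
      have h5 : (1 * q - p * 1) * (q^2 * q) = ((q-p)*q) * q * q := by ring
      rw [h5]
      nlinarith [mul_pos hq hq, mul_pos hp hq]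
    rw [abs_le]
    constructor <;> linarith

lemma summable_pow32 : Summable (fun j : ℕ => 1 / ((j:ℝ)+1)^(3/2:ℝ)) := by
  have := (summable_nat_add_iff (f := fun j : ℕ => 1 / (j:ℝ)^(3/2:ℝ)) 1).2
    (Real.summable_one_div_nat_rpow.2 (by norm_num))
  simpa using this

lemma aa_sub_le {y t : ℝ} (hy : 0 ≤ y) (ht : 0 < t) : |aa y t - √y/√t| ≤ (√y/√t)^3/3 := by
  have h0 : 0 ≤ √y/√t := by positivity
  have h1 := arctan_le_self' h0
  have h2 := arctan_ge h0
  unfold aa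
  rw [abs_le]; constructor
  · linarith
  · have : 0 ≤ (√y/√t)^3/3 := by positivity
    linarith

lemma trm_bound {x : ℕ → ℝ} (h : Near x) {y : ℝ} (hy : 0 ≤ y) (j : ℕ) :
    |trm y (x j) j| ≤ (3 * √y^3 + 4 * √y) * (1 / ((j:ℝ)+1)^(3/2:ℝ)) := by
  have hn : (0:ℝ) ≤ j := Nat.cast_nonneg j
  have e : trm y (x j) j = (aa y (x j) - √y/√(x j)) + √y * (1/√(x j) - dd j) := by
    unfold trm; ring
  rw [e]
  have h1 := aa_sub_le hy (h.pos j)
  have h2 := inv_sub_dd h j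
  have hpow : ((j:ℝ)+1)^(3/2:ℝ) = ((j:ℝ)+1) * √((j:ℝ)+1) := by
    rw [Real.sqrt_eq_rpow, show (3/2:ℝ) = 1 + 1/2 by norm_num, Real.rpow_add (by linarith), Real.rpow_one]
  have h3 : (√y/√(x j))^3/3 ≤ 3 * √y^3 * (1 / ((j:ℝ)+1)^(3/2:ℝ)) := by
    rw [hpow, div_pow]
    have hx : ((j:ℝ)+1)/2 ≤ x j := by linarith [h.lo j]
    have hxp := h.pos j
    have hs : 0 < √(x j) := Real.sqrt_pos.2 hxp
    have hq : 0 < √((j:ℝ)+1) := Real.sqrt_pos.2 (by linarith)
    have e2 : √((j:ℝ)+1) ^ 2 = j+1 := Real.sq_sqrt (by linarith)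
    have e3 : √(x j) ^ 2 = x j := Real.sq_sqrt hxp.le
    have h4 : √((j:ℝ)+1) ≤ 3/2 * √(x j) := by
      apply le_of_sq_le_sq _ (by positivity)
      nlinarith
    have h5 : ((j:ℝ)+1) * √((j:ℝ)+1) ≤ 9 * √(x j)^3 := by
      calc ((j:ℝ)+1) * √((j:ℝ)+1) = √((j:ℝ)+1)^3 := by rw [← e2]; simp; ring
        _ ≤ (3/2 * √(x j))^3 := by gcongr
        _ ≤ 9 * √(x j)^3 := by nlinarith [pow_pos hs 3]
    rw [mul_one_div, div_div, div_le_div_iff₀ (by positivity) (by positivity)]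
    have hy3 : 0 ≤ √y^3 := by positivity
    nlinarith
  calc |(aa y (x j) - √y/√(x j)) + √y * (1/√(x j) - dd j)|
      ≤ |aa y (x j) - √y/√(x j)| + |√y * (1/√(x j) - dd j)| := abs_add_le _ _
    _ ≤ (√y/√(x j))^3/3 + √y * (4 / ((j:ℝ)+1)^(3/2:ℝ)) := by
        rw [abs_mul, abs_of_nonneg (Real.sqrt_nonneg y)]
        gcongr
    _ ≤ (3 * √y^3 + 4 * √y) * (1 / ((j:ℝ)+1)^(3/2:ℝ)) := by
        rw [add_mul]
        have : √y * (4 / ((j:ℝ)+1)^(3/2:ℝ)) = 4 * √y * (1 / ((j:ℝ)+1)^(3/2:ℝ)) := by ring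
        linarith

lemma summable_trm {x : ℕ → ℝ} (h : Near x) {y : ℝ} (hy : 0 ≤ y) : Summable (fun j => trm y (x j) j) :=
  Summable.of_norm_bounded (summable_pow32.mul_left _) (fun j => trm_bound h hy j)

lemma tendsto_AA {x : ℕ → ℝ} (h : Near x) {y : ℝ} (hy : 0 ≤ y) :
    Tendsto (fun N : ℕ => ∑ j ∈ range N, aa y (x j) - 2 * √y * √N) atTop (𝓝 (AA x y)) := by
  have := (summable_trm h hy).hasSum.tendsto_sum_nat
  simp only [sum_trm] at this
  exact this

/-- variation in the sequence -/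
lemma aa_lip {y s t m : ℝ} (hy : 0 < y) (hm : 0 < m) (hs : m ≤ s) (ht : m ≤ t) :
    |aa y s - aa y t| ≤ (1/2) * K y m * |s - t| := by
  wlog hst : s ≤ t with H
  · have := H hy hm ht hs (le_of_not_ge hst)
    rw [abs_sub_comm, abs_sub_comm s t]; exact this
  rcases hst.eq_or_lt with h0 | h0
  · subst h0; simp
  · obtain ⟨ξ, h1, e1⟩ := exists_hasDerivAt_eq_slope (aa y) (fun t => -(1/2) * K y t) h0
      (fun u hu => (hasDeriv_aa hy (by linarith [hu.1] : 0 < u)).continuousAt.continuousWithinAt)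
      (fun u hu => hasDeriv_aa hy (by linarith [hu.1]))
    have e2 : aa y t - aa y s = -(1/2) * K y ξ * (t - s) := by
      rw [e1, div_mul_cancel₀ _ (by linarith)]
    have h2 : K y ξ ≤ K y m := K_anti hy.le hm (by linarith [h1.1])
    have h3 : 0 ≤ K y ξ := K_nonneg hy.le (by linarith [h1.1])
    rw [abs_sub_comm, e2, abs_mul, abs_sub_comm s t, abs_mul, abs_of_nonneg h3]
    gcongr
    norm_num [abs_of_neg]

lemma Ph_le_pi (y t : ℝ) : Ph y t ≤ π := by
  unfold Ph; linarith [Real.arctan_lt_pi_div_two (√t/√y)]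

lemma Ph_nonneg (y t : ℝ) : 0 ≤ Ph y t := by
  unfold Ph
  have := Real.arctan_nonneg.2 (show 0 ≤ √t/√y by positivity)
  linarith

lemma AA_var {x x' : ℕ → ℝ} (h : Near x) (h' : Near x') {ρ : ℝ}
    (hρ : ∀ j, |x j - x' j| ≤ ρ) {y : ℝ} (hy : 0 < y) : |AA x y - AA x' y| ≤ π/2 * ρ := by
  have hρ0 : 0 ≤ ρ := (abs_nonneg _).trans (hρ 0)
  have h1 := (tendsto_AA h hy.le).sub (tendsto_AA h' hy.le)
  have h2 := h1.abs
  apply le_of_tendsto h2
  filter_upwards with N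
  have e : (∑ j ∈ range N, aa y (x j) - 2 * √y * √N) - (∑ j ∈ range N, aa y (x' j) - 2 * √y * √N)
      = ∑ j ∈ range N, (aa y (x j) - aa y (x' j)) := by rw [sum_sub_distrib]; ring
  rw [e]
  have hmid : Near (fun j : ℕ => (j:ℝ) + 17/24) := by
    intro j; simp only; rw [abs_le]; constructor <;> linarith
  calc |∑ j ∈ range N, (aa y (x j) - aa y (x' j))| ≤ ∑ j ∈ range N, |aa y (x j) - aa y (x' j)| :=
        abs_sum_le_sum_abs _ _
    _ ≤ ∑ j ∈ range N, (ρ/2) * K y ((j:ℝ) + 17/24) := by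
        apply sum_le_sum; intro j _
        have hn : (0:ℝ) ≤ j := Nat.cast_nonneg j
        have := aa_lip (y := y) (s := x j) (t := x' j) (m := j + 17/24) hy (by linarith) (h.lo j) (h'.lo j)
        have hK : 0 ≤ K y ((j:ℝ) + 17/24) := K_nonneg hy.le (by linarith)
        nlinarith [hρ j]
    _ = (ρ/2) * ∑ j ∈ range N, K y ((j:ℝ) + 17/24) := by rw [mul_sum]
    _ ≤ (ρ/2) * π := by
        apply mul_le_mul_of_nonneg_left _ (by linarith)
        have := sumK_le hmid hy N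
        linarith [Ph_le_pi y (N + 5/24), Ph_nonneg y (5/24)]
    _ = π/2 * ρ := by ring

end Q66.FF
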