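import Pool.Agent.Q66.FF3

/-! Force field counterexample, part 4: variation of the phase function in its argument. -/

namespace Q66.FF

open Real Finset Filter Topology

/-- `s/2 + A_N(s)/π` -/
noncomputable def gN (x : ℕ → ℝ) (N : ℕ) (s : ℝ) : ℝ :=
  s/2 + (∑ j ∈ range N, aa s (x j) - 2 * √s * √N) / π

lemma K_swap {t s : ℝ} (ht : 0 < t) (hs : 0 < s) :
    (1/2) * K t s = (1/(2*√s)) * (1/√t) - (1/2) * K s t := by
  unfold K
  have hst : 0 < √t := Real.sqrt_pos.2 ht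
  have hss : 0 < √s := Real.sqrt_pos.2 hs
  have e1 : √t ^ 2 = t := Real.sq_sqrt ht.le
  have e2 : √s ^ 2 = s := Real.sq_sqrt hs.le
  have : 0 < s + t := by positivity
  have : 0 < t + s := by positivity
  field_simp
  rw [e1, e2]
  ring

lemma hasDeriv_gN {x : ℕ → ℝ} (h : Near x) (N : ℕ) {s : ℝ} (hs : 0 < s) :
    HasDerivAt (gN x N) (1/2 + ((1/(2*√s)) * (∑ j ∈ range N, 1/√(x j) - 2 * √N)
      - (1/2) * ∑ j ∈ range N, K s (x j)) / π) s := by
  have h1 : HasDerivAt (fun s => ∑ j ∈ range N, aa s (x j)) (∑ j ∈ range N, (1/2) * K (x j) s) s := by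
    apply HasDerivAt.fun_sum
    intro j _
    exact hasDeriv_at2 (h.pos j) hs
  have h2 : HasDerivAt (fun s => 2 * √s * √N) (2 * (1/(2*√s)) * √N) s :=
    ((Real.hasDerivAt_sqrt hs.ne').const_mul 2).mul_const _
  have h3 := (((hasDerivAt_id s).div_const 2).fun_add ((h1.fun_sub h2).div_const π))
  refine h3.congr_deriv ?_
  have e : ∑ j ∈ range N, (1/2) * K (x j) s = (1/(2*√s)) * ∑ j ∈ range N, 1/√(x j) - (1/2) * ∑ j ∈ range N, K s (x j) := by
    rw [mul_sum, mul_sum, ← sum_sub_distrib]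
    apply sum_congr rfl
    intro j _
    exact K_swap (h.pos j) hs
  rw [e]
  ring

lemma tau_bd {s : ℝ} (hs : 17/24 ≤ s) : 1/√s ≤ 1.1882 := by
  have h0 : 0 < √s := Real.sqrt_pos.2 (by linarith)
  have h1 : (0.84161:ℝ) ≤ √s := by
    apply Real.le_sqrt_of_sq_le
    norm_num; linarith
  rw [div_le_iff₀ h0]
  nlinarith

lemma lower_num {τ : ℝ} (h0 : 0 ≤ τ) (h1 : τ ≤ 1.1882) :
    -0.3769 ≤ Real.arctan (√(5/24) * τ) - 0.7236 * τ := by
  have ha : 0 ≤ √(5/24:ℝ) * τ := by positivity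
  have h2 := arctan_ge ha
  have e1 : √(5/24:ℝ)^2 = 5/24 := Real.sq_sqrt (by norm_num)
  have b1 : (0.4564:ℝ) ≤ √(5/24) := by
    apply Real.le_sqrt_of_sq_le; norm_num
  have b2 : √(5/24:ℝ) ≤ 0.4565 := by
    apply Real.sqrt_le_iff.2; constructor <;> norm_num
  have e3 : (√(5/24:ℝ) * τ)^3 = √(5/24) * (5/24) * τ^3 := by
    rw [mul_pow, pow_succ, e1]; ring
  rw [e3] at h2
  have h3 : τ^3 ≤ 1.1882^3 := by gcongr
  have h4 : √(5/24:ℝ) * (5/24) * τ^3 ≤ 0.4565 * (5/24) * 1.1882^3 := by gcongr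
  have h5 : (0.4564:ℝ) * τ ≤ √(5/24) * τ := by gcongr
  generalize √(5/24:ℝ) * τ = w at *
  generalize √(5/24:ℝ) = a at *
  norm_num at h4 h5 h1 ⊢
  linarith

lemma upper_num {τ : ℝ} (h0 : 0 ≤ τ) (h1 : τ ≤ 1.1882) :
    Real.arctan (√(23/24) * τ) - √(5/24) * τ ≤ 0.325 := by
  have ha : 0 ≤ √(23/24:ℝ) * τ := by positivity
  have h2 := arctan_tan1 ha
  have b1 : (0.4564:ℝ) ≤ √(5/24) := by
    apply Real.le_sqrt_of_sq_le; norm_num
  have b2 : √(23/24:ℝ) ≤ 0.97895 := by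
    apply Real.sqrt_le_iff.2; constructor <;> norm_num
  have h5 : (0.4564:ℝ) * τ ≤ √(5/24) * τ := by gcongr
  have h6 : √(23/24:ℝ) * τ ≤ 0.97895 * τ := by gcongr
  have h7 := Real.pi_lt_d4
  generalize √(5/24:ℝ) * τ = w at *
  generalize √(23/24:ℝ) * τ = w' at *
  norm_num at h1 h5 h6 h7 ⊢
  linarith

lemma gN_deriv_bd {x : ℕ → ℝ} (h : Near x) {Y : ℝ} (hY : 1 ≤ Y) {N : ℕ} (hN : 10000 * Y ^ 2 ≤ N) {s : ℝ}
    (hs : 17/24 ≤ s) (hsY : s ≤ Y) :
    |1/2 + ((1/(2*√s)) * (∑ j ∈ range N, 1/√(x j) - 2 * √N)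
      - (1/2) * ∑ j ∈ range N, K s (x j)) / π| ≤ 0.12 := by
  have hs0 : 0 < s := by linarith
  have hss : 0 < √s := Real.sqrt_pos.2 hs0
  set τ := 1/√s with hτ
  have hτ0 : 0 < τ := by positivity
  have hτ1 : τ ≤ 1.1882 := tau_bd hs
  have hpi := Real.pi_gt_d4
  have hpi0 := Real.pi_pos
  have hN1 : 100 * Y ≤ √(N:ℝ) := by
    apply Real.le_sqrt_of_sq_le
    nlinarith
  have hN0 : 0 < √(N:ℝ) := by nlinarith
  have e0 : 1/(2*√s) = τ/2 := by rw [hτ]; ring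
  have P1 := sum_inv_ge h N
  have P2 := sum_inv_le h N
  have Q1 := sumK_le h hs0 N
  have Q2 := sumK_ge h hs0 N
  have eP1 : Ph s (5/24) = 2 * Real.arctan (√(5/24) * τ) := by unfold Ph; rw [hτ]; ring_nf
  have eP2 : Ph s (23/24) = 2 * Real.arctan (√(23/24) * τ) := by unfold Ph; rw [hτ]; ring_nf
  have eP3 : π - 2 * (√s/√N) ≤ Ph s (N + 23/24) := by
    unfold Ph
    have hq : 0 < √((N:ℝ) + 23/24) := Real.sqrt_pos.2 (by have : (0:ℝ) ≤ N := Nat.cast_nonneg N; linarith)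
    have h1 : √((N:ℝ) + 23/24) / √s = (√s / √((N:ℝ) + 23/24))⁻¹ := by rw [inv_div]
    rw [h1, Real.arctan_inv_of_pos (by positivity)]
    have h2 := arctan_le_self' (show 0 ≤ √s / √((N:ℝ) + 23/24) by positivity)
    have h3 : √s / √((N:ℝ) + 23/24) ≤ √s/√N := by
      apply div_le_div_of_nonneg_left hss.le hN0
      exact Real.sqrt_le_sqrt (by linarith)
    linarith
  have h4 : √s/√N ≤ 0.01 := by
    rw [div_le_iff₀ hN0]
    have : √s ≤ Y := by
      apply Real.sqrt_le_iff.2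
      constructor <;> nlinarith
    norm_num; linarith
  have h5 : 2 * √((N:ℝ) + 5/24) - 2 * √N ≤ 0.01 := by
    have hp : 0 ≤ √((N:ℝ) + 5/24) := Real.sqrt_nonneg _
    have e1 : √(N:ℝ) ^ 2 = N := Real.sq_sqrt (Nat.cast_nonneg N)
    have : √((N:ℝ) + 5/24) ≤ √N + 0.005 := by
      apply Real.sqrt_le_iff.2
      constructor
      · positivity
      · norm_num
        nlinarith
    linarith
  have L := lower_num hτ0.le hτ1
  have U := upper_num hτ0.le hτ1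
  rw [e0]
  set S := ∑ j ∈ range N, 1/√(x j) - 2 * √N with hS
  set T := ∑ j ∈ range N, K s (x j) with hT
  rw [eP1] at Q1
  rw [eP2] at Q2
  have eS : S ≤ 0.01 - 2 * √(5/24) := by linarith
  have hT1 : T ≤ π - 2 * Real.arctan (√(5/24) * τ) := by
    linarith [Ph_le_pi s (N + 5/24)]
  have hT2 : π - 0.02 - 2 * Real.arctan (√(23/24) * τ) ≤ T := by
    linarith
  have hS2 : τ/2 * S ≤ 0.005 * τ - √(5/24) * τ := by nlinarith
  clear_value S T
  clear P2 Q1 Q2 eP1 eP2 eS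
  generalize Real.arctan (√(5/24) * τ) = A1 at *
  generalize Real.arctan (√(23/24) * τ) = A2 at *
  generalize √(5/24:ℝ) * τ = w at *
  rw [abs_le]
  constructor
  · have hS1 : -1.4472 * (τ/2) ≤ τ/2 * S := by nlinarith
    have : -0.3769 - π/2 ≤ τ/2 * S - 1/2 * T := by
      norm_num at L hS1 ⊢
      linarith
    have h6 : (-0.3769 - π/2)/π ≤ (τ/2 * S - 1/2 * T)/π := by gcongr
    have h7 : (-0.3769 - π/2)/π = -0.3769/π - 1/2 := by field_simp
    have h8 : -0.12 ≤ -0.3769/π := by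
      rw [le_div_iff₀ hpi0]; norm_num at hpi ⊢; linarith
    linarith
  · have : τ/2 * S - 1/2 * T ≤ 0.325 + 0.005 * 1.1882 + 0.01 - π/2 := by
      norm_num at U hS2 hT2 hτ1 ⊢
      linarith
    have h6 : (τ/2 * S - 1/2 * T)/π ≤ (0.325 + 0.005 * 1.1882 + 0.01 - π/2)/π := by gcongr
    have h7 : (0.325 + 0.005 * 1.1882 + 0.01 - π/2)/π = (0.325 + 0.005 * 1.1882 + 0.01)/π - 1/2 := by field_simp
    have h8 : (0.325 + 0.005 * 1.1882 + 0.01)/π ≤ 0.12 := by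
      rw [div_le_iff₀ hpi0]; norm_num at hpi ⊢; linarith
    linarith

lemma gN_lip {x : ℕ → ℝ} (h : Near x) {Y : ℝ} (hY : 1 ≤ Y) {N : ℕ} (hN : 10000 * Y ^ 2 ≤ N) {s t : ℝ}
    (hs : 17/24 ≤ s) (hsY : s ≤ Y) (ht : 17/24 ≤ t) (htY : t ≤ Y) :
    |gN x N s - gN x N t| ≤ 0.12 * |s - t| := by
  have := (convex_Icc (17/24:ℝ) Y).norm_image_sub_le_of_norm_hasDerivWithin_le
    (f := gN x N) (f' := fun s => (1/2 + ((1/(2*√s)) * (∑ j ∈ range N, 1/√(x j) - 2 * √N)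
      - (1/2) * ∑ j ∈ range N, K s (x j)) / π)) (C := 0.12)
    (fun u hu => (hasDeriv_gN h N (by linarith [hu.1])).hasDerivWithinAt)
    (fun u hu => gN_deriv_bd h hY hN hu.1 hu.2) ⟨ht, htY⟩ ⟨hs, hsY⟩
  simpa using this

lemma AA_var2 {x : ℕ → ℝ} (h : Near x) {s t : ℝ} (hs : 17/24 ≤ s) (ht : 17/24 ≤ t) :
    |(s/2 + AA x s / π) - (t/2 + AA x t / π)| ≤ 0.12 * |s - t| := by
  have h1 : Tendsto (fun N : ℕ => |gN x N s - gN x N t|) atTop
      (𝓝 |(s/2 + AA x s / π) - (t/2 + AA x t / π)|) := by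
    apply Tendsto.abs
    apply Tendsto.sub
    · exact tendsto_const_nhds.add ((tendsto_AA h (by linarith)).div_const π)
    · exact tendsto_const_nhds.add ((tendsto_AA h (by linarith)).div_const π)
  apply le_of_tendsto h1
  set Y := max 1 (max s t)
  have h2 : ∀ᶠ N : ℕ in atTop, 10000 * Y^2 ≤ (N:ℝ) := by
    exact (tendsto_natCast_atTop_atTop (R := ℝ)).eventually_ge_atTop _
  filter_upwards [h2] with N hN
  exact gN_lip h (le_max_left _ _) hN hs ((le_max_left _ _).trans (le_max_right _ _)) ht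
    ((le_max_right _ _).trans (le_max_right _ _))

end Q66.FF
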