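import Pool.Agent.Q66.FF4

/-! Force field counterexample, part 5: the initial error and the fixed point. -/

namespace Q66.FF

open Real Finset Filter Topology

/-- base sequence -/
noncomputable def x0 (j : ℕ) : ℝ := (j:ℝ) + 5/6

lemma near_x0 : Near x0 := by
  intro j; simp [x0]

lemma sum_x0_le {y : ℝ} (hy : 0 < y) (N : ℕ) :
    ∑ j ∈ range N, aa y (x0 j) ≤ FF y (N + 1/3) - FF y (1/3) := by
  induction N with
  | zero => simp
  | succ n ih =>
    rw [sum_range_succ]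
    have hn : (0:ℝ) ≤ n := Nat.cast_nonneg n
    have h2 := aa_mid_le (y := y) (m := n + 5/6) hy (by linarith)
    have e1 : (n:ℝ) + 5/6 + 1/2 = ((n+1 : ℕ):ℝ) + 1/3 := by push_cast; ring
    have e2 : (n:ℝ) + 5/6 - 1/2 = (n:ℝ) + 1/3 := by ring
    rw [e1, e2] at h2
    have : aa y (x0 n) = aa y (n + 5/6) := rfl
    linarith

lemma sum_x0_ge {y : ℝ} (hy : 0 < y) (N : ℕ) :
    FF y (N + 1/3) - FF y (1/3) - (1/16) * (K y (1/3) - K y (N + 1/3)) ≤ ∑ j ∈ range N, aa y (x0 j) := by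
  induction N with
  | zero => simp
  | succ n ih =>
    rw [sum_range_succ]
    have hn : (0:ℝ) ≤ n := Nat.cast_nonneg n
    have h2 := aa_mid_ge (y := y) (m := n + 5/6) hy (by linarith)
    have e1 : (n:ℝ) + 5/6 + 1/2 = ((n+1 : ℕ):ℝ) + 1/3 := by push_cast; ring
    have e2 : (n:ℝ) + 5/6 - 1/2 = (n:ℝ) + 1/3 := by ring
    rw [e1, e2] at h2
    have : aa y (x0 n) = aa y (n + 5/6) := rfl
    linarith

lemma tendsto_sqrt_nat : Tendsto (fun N : ℕ => √(N:ℝ)) atTop atTop :=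
  Real.tendsto_sqrt_atTop.comp tendsto_natCast_atTop_atTop

lemma tendsto_sqrt_nat' (c : ℝ) : Tendsto (fun N : ℕ => √((N:ℝ) + c)) atTop atTop :=
  Real.tendsto_sqrt_atTop.comp (tendsto_atTop_add_const_right _ _ tendsto_natCast_atTop_atTop)

lemma tendsto_sqrt_diff {c : ℝ} (hc : 0 ≤ c) : Tendsto (fun N : ℕ => √((N:ℝ) + c) - √N) atTop (𝓝 0) := by
  have h1 : Tendsto (fun N : ℕ => c / √(N:ℝ)) atTop (𝓝 0) := tendsto_sqrt_nat.const_div_atTop c
  refine squeeze_zero' ?_ ?_ h1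
  · filter_upwards with N
    have := Real.sqrt_le_sqrt (show (N:ℝ) ≤ N + c by linarith)
    linarith
  · filter_upwards [eventually_gt_atTop 0] with N hN
    have hN' : (0:ℝ) < N := by exact_mod_cast hN
    have hp : 0 < √(N:ℝ) := Real.sqrt_pos.2 hN'
    rw [le_div_iff₀ hp]
    have e1 : √(N:ℝ) ^ 2 = N := Real.sq_sqrt hN'.le
    have e2 : √((N:ℝ) + c) ^ 2 = N + c := Real.sq_sqrt (by linarith)
    have h3 := Real.sqrt_le_sqrt (show (N:ℝ) ≤ N + c by linarith)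
    nlinarith

lemma tendsto_FF {y : ℝ} (hy : 0 < y) :
    Tendsto (fun N : ℕ => FF y (N + 1/3) - 2 * √y * √N) atTop (𝓝 (-(π * y / 2))) := by
  have hsy : 0 < √y := Real.sqrt_pos.2 hy
  -- first piece
  have h1 : Tendsto (fun N : ℕ => ((N:ℝ)+1/3) * Real.arctan (√y / √((N:ℝ)+1/3)) - √y * √((N:ℝ)+1/3)) atTop (𝓝 0) := by
    have hlim : Tendsto (fun N : ℕ => (√y^3/3) / √((N:ℝ)+1/3)) atTop (𝓝 0) :=
      (tendsto_sqrt_nat' _).const_div_atTop _
    apply squeeze_zero_norm _ hlim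
    intro N
    have ht : (0:ℝ) < (N:ℝ) + 1/3 := by have : (0:ℝ) ≤ N := Nat.cast_nonneg N; linarith
    have hst : 0 < √((N:ℝ)+1/3) := Real.sqrt_pos.2 ht
    have e1 : √((N:ℝ)+1/3) ^ 2 = (N:ℝ)+1/3 := Real.sq_sqrt ht.le
    have h := aa_sub_le hy.le ht
    unfold aa at h
    have e : ((N:ℝ)+1/3) * Real.arctan (√y / √((N:ℝ)+1/3)) - √y * √((N:ℝ)+1/3)
        = ((N:ℝ)+1/3) * (Real.arctan (√y / √((N:ℝ)+1/3)) - √y/√((N:ℝ)+1/3)) := by
      rw [mul_sub]; congr 1
      rw [mul_div_assoc', eq_div_iff hst.ne']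
      rw [mul_assoc, ← pow_two, e1]; ring
    rw [e, Real.norm_eq_abs, abs_mul, abs_of_pos ht]
    calc ((N:ℝ)+1/3) * |Real.arctan (√y / √((N:ℝ)+1/3)) - √y/√((N:ℝ)+1/3)|
        ≤ ((N:ℝ)+1/3) * ((√y/√((N:ℝ)+1/3))^3/3) := by gcongr
      _ = (√y^3/3) / √((N:ℝ)+1/3) := by
          rw [← e1]
          simp only [Real.sqrt_sq hst.le]
          field_simp
  have h2 : Tendsto (fun N : ℕ => 2 * √y * (√((N:ℝ)+1/3) - √N)) atTop (𝓝 0) := by
    simpa using (tendsto_sqrt_diff (c := 1/3) (by norm_num)).const_mul (2 * √y)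
  have h3 : Tendsto (fun N : ℕ => y * Real.arctan (√((N:ℝ)+1/3) / √y)) atTop (𝓝 (y * (π/2))) := by
    apply Tendsto.const_mul
    have : Tendsto Real.arctan atTop (𝓝 (π/2)) := tendsto_nhds_of_tendsto_nhdsWithin Real.tendsto_arctan_atTop
    exact this.comp ((tendsto_sqrt_nat' _).atTop_div_const hsy)
  have h4 := (h1.add h2).sub h3
  have e : (fun N : ℕ => FF y (N + 1/3) - 2 * √y * √N) = (fun N : ℕ =>
      ((N:ℝ)+1/3) * Real.arctan (√y / √((N:ℝ)+1/3)) - √y * √((N:ℝ)+1/3) + 2 * √y * (√((N:ℝ)+1/3) - √N)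
      - y * Real.arctan (√((N:ℝ)+1/3) / √y)) := by
    funext N; unfold FF; ring
  rw [e]
  convert h4 using 2
  ring

lemma FF_third {y : ℝ} (hy : 5/6 ≤ y) : π/6 - FF y (1/3) ≤ 0.1406 ∧
    0 ≤ π/6 - FF y (1/3) ∧ (1/16) * K y (1/3) ≤ 0.1406 := by
  have hy0 : 0 < y := by linarith
  have hsy : 0 < √y := Real.sqrt_pos.2 hy0
  have h3 : 0 < √(1/3:ℝ) := Real.sqrt_pos.2 (by norm_num)
  set t := √(1/3:ℝ)/√y with ht
  have ht0 : 0 < t := by positivity
  have e1 : √(1/3:ℝ)^2 = 1/3 := Real.sq_sqrt (by norm_num)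
  have e2 : √y^2 = y := Real.sq_sqrt hy0.le
  have et : t^2 * (3*y) = 1 := by
    rw [ht, div_pow, e1, e2]; field_simp
  have et2 : t^2 ≤ 0.4 := by
    norm_num; nlinarith [sq_nonneg t]
  have et3 : t ≤ 0.6325 := by
    norm_num at et2 ⊢; nlinarith
  have ei : √y / √(1/3:ℝ) = t⁻¹ := by rw [ht, inv_div]
  have em : √y * √(1/3:ℝ) = y * t := by
    rw [ht, mul_div_assoc', eq_div_iff hsy.ne']
    calc √y * √(1/3:ℝ) * √y = √y^2 * √(1/3:ℝ) := by ring
      _ = y * √(1/3:ℝ) := by rw [e2]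
  have eF : π/6 - FF y (1/3) = (y + 1/3) * Real.arctan t - y * t := by
    unfold FF
    rw [ei, em, ← ht, Real.arctan_inv_of_pos ht0]; ring
  have hu := arctan_le5 ht0.le
  have hl := arctan_ge ht0.le
  refine ⟨?_, ?_, ?_⟩
  · rw [eF]
    have h1 : (y + 1/3) * Real.arctan t ≤ (y+1/3) * (t - t^3/3 + t^5/5) := by gcongr
    have h2 : (y+1/3) * (t - t^3/3 + t^5/5) - y * t = (2/9) * t - (2/45) * t^3 + t^5/15
        + (t^2 * (3*y) - 1) * (-t/9 + t^3/15) := by ring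
    rw [et] at h2
    have h3' : t^5/15 ≤ (2/45) * t^3 := by
      have : t^5 = t^2 * t^3 := by ring
      rw [this]
      have : 0 < t^3 := by positivity
      norm_num at et2; nlinarith
    norm_num at et3 ⊢
    linarith
  · rw [eF]
    have h1 : (y + 1/3) * (t - t^3/3) ≤ (y+1/3) * Real.arctan t := by gcongr
    have h2 : (y+1/3) * (t - t^3/3) - y * t = (2/9) * t - (1/9) * t^3
        + (t^2 * (3*y) - 1) * (-t/9) := by ring
    rw [et] at h2
    have h3' : t^3 ≤ t := by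
      have : t^3 = t^2 * t := by ring
      rw [this]; norm_num at et2; nlinarith
    linarith
  · have eK : K y (1/3) = 3 * t / (1 + t^2) := by
      unfold K
      rw [← div_div, ei]
      have : (1:ℝ)/3 + y = (1 + t^2)/(3*t^2) := by
        rw [eq_div_iff (by positivity)]; nlinarith
      rw [this]; field_simp
    have : K y (1/3) ≤ 3 * t := by
      rw [eK, div_le_iff₀ (by positivity)]; nlinarith [pow_pos ht0 3]
    norm_num at et3 ⊢
    linarith

lemma AA_x0 {y : ℝ} (hy : 5/6 ≤ y) : |AA x0 y + π * y / 2 + π/6| ≤ 0.1406 := by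
  have hy0 : 0 < y := by linarith
  obtain ⟨b1, b2, b3⟩ := FF_third hy
  have hT := tendsto_AA near_x0 hy0.le
  have hF := tendsto_FF hy0
  have hle : AA x0 y ≤ -(π * y/2) - FF y (1/3) := by
    apply le_of_tendsto_of_tendsto hT (hF.sub_const (FF y (1/3)))
    filter_upwards with N
    linarith [sum_x0_le hy0 N]
  have hge : -(π * y/2) - FF y (1/3) - (1/16) * K y (1/3) ≤ AA x0 y := by
    apply le_of_tendsto_of_tendsto ((hF.sub_const (FF y (1/3))).sub_const _) hT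
    filter_upwards with N
    have := sum_x0_ge hy0 N
    have hK : 0 ≤ K y (N + 1/3) := K_nonneg hy0.le (by positivity)
    linarith
  rw [abs_le]
  constructor <;> linarith

end Q66.FF
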