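import Pool.Agent.Q66.FF5

/-! Force field counterexample, part 6: the fixed point (existence of the phase-locked sequence). -/

namespace Q66.FF

open Real Finset Filter Topology

/-- the map whose fixed point solves the phase equations -/
noncomputable def Tf (x : ℕ → ℝ) (k : ℕ) : ℝ := (x k / 2 + AA x (x k) / π) + ((k:ℝ) + 1)

lemma Tf_lip {x x' : ℕ → ℝ} (h : Near x) (h' : Near x') {ρ : ℝ} (hρ : ∀ j, |x j - x' j| ≤ ρ) (k : ℕ) :
    |Tf x k - Tf x' k| ≤ 0.62 * ρ := by
  have hk : (0:ℝ) ≤ k := Nat.cast_nonneg k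
  have h1 := AA_var2 h (s := x k) (t := x' k) (by linarith [h.lo k]) (by linarith [h'.lo k])
  have h2 := AA_var h h' hρ (h'.pos k)
  have h3 : |AA x (x' k) / π - AA x' (x' k) / π| ≤ (1/2) * ρ := by
    rw [← sub_div, abs_div, abs_of_pos Real.pi_pos, div_le_iff₀ Real.pi_pos]
    linarith
  have e : Tf x k - Tf x' k = ((x k / 2 + AA x (x k) / π) - (x' k / 2 + AA x (x' k) / π))
     + (AA x (x' k) / π - AA x' (x' k) / π) := by unfold Tf; ring
  rw [e]
  refine (abs_add_le _ _).trans ?_
  have := hρ k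
  norm_num at h1 ⊢
  linarith

lemma Tf_x0 (k : ℕ) : |Tf x0 k - x0 k| ≤ 0.0448 := by
  have hk : (0:ℝ) ≤ k := Nat.cast_nonneg k
  have h := AA_x0 (y := x0 k) (by unfold x0; linarith)
  have e : Tf x0 k - x0 k = (AA x0 (x0 k) + π * x0 k / 2 + π/6) / π := by
    have hpi := Real.pi_pos
    unfold Tf
    rw [add_div, add_div]
    have : (k:ℝ) = x0 k - 5/6 := by unfold x0; ring
    rw [this]
    field_simp
    ring
  rw [e, abs_div, abs_of_pos Real.pi_pos, div_le_iff₀ Real.pi_pos]
  have := Real.pi_gt_d4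
  norm_num at h this ⊢
  linarith

lemma Tf_near {x : ℕ → ℝ} (h : Near x) : Near (Tf x) := by
  intro k
  have h1 := Tf_lip h near_x0 (ρ := 1/8) (fun j => h j) k
  have h2 := Tf_x0 k
  have e : Tf x k - ((k:ℝ) + 5/6) = (Tf x k - Tf x0 k) + (Tf x0 k - x0 k) := by unfold x0; ring
  rw [e]
  refine (abs_add_le _ _).trans ?_
  norm_num at h1 h2 ⊢
  linarith

/-- the closed set of perturbations -/
abbrev BB : Type := {η : BoundedContinuousFunction ℕ ℝ // ∀ j, |η j| ≤ 1/8}

noncomputable def xof (η : BB) : ℕ → ℝ := fun j => x0 j + η.1 j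

lemma near_xof (η : BB) : Near (xof η) := by
  intro j
  have := η.2 j
  have e : xof η j - ((j:ℝ)+5/6) = η.1 j := by unfold xof x0; ring
  rw [e]; exact this

noncomputable def TB (η : BB) : BB :=
  ⟨BoundedContinuousFunction.ofNormedAddCommGroupDiscrete (fun k => Tf (xof η) k - x0 k) (1/8)
    (fun k => by
      have := Tf_near (near_xof η) k
      rw [Real.norm_eq_abs]; exact this),
   fun k => Tf_near (near_xof η) k⟩

lemma isClosed_BB : IsClosed {η : BoundedContinuousFunction ℕ ℝ | ∀ j, |η j| ≤ 1/8} := by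
  have : {η : BoundedContinuousFunction ℕ ℝ | ∀ j, |η j| ≤ 1/8} = ⋂ j, {η | |η j| ≤ 1/8} := by
    ext η; simp
  rw [this]
  apply isClosed_iInter
  intro j
  have hc : Continuous (fun η : BoundedContinuousFunction ℕ ℝ => η j) := by
    apply LipschitzWith.continuous (K := 1)
    apply LipschitzWith.of_dist_le_mul
    intro f g
    simpa using BoundedContinuousFunction.dist_coe_le_dist (f := f) (g := g) j
  exact isClosed_le hc.abs continuous_const

instance : CompleteSpace BB := isClosed_BB.completeSpace_coe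

instance : Nonempty BB := ⟨⟨0, fun j => by simp⟩⟩

lemma TB_contr : ContractingWith (⟨0.62, by norm_num⟩ : NNReal) TB := by
  constructor
  · have : ((⟨0.62, by norm_num⟩ : NNReal) : ℝ) < ((1:NNReal):ℝ) := by
      show (0.62:ℝ) < 1
      norm_num
    exact_mod_cast this
  · apply LipschitzWith.of_dist_le_mul
    intro a b
    rw [Subtype.dist_eq, Subtype.dist_eq]
    rw [BoundedContinuousFunction.dist_le (by positivity)]
    intro k
    have h := Tf_lip (near_xof a) (near_xof b) (ρ := dist a.1 b.1) (fun j => by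
      have := BoundedContinuousFunction.dist_coe_le_dist (f := a.1) (g := b.1) j
      have e : xof a j - xof b j = a.1 j - b.1 j := by unfold xof; ring
      rw [e]; rw [Real.dist_eq] at this; exact this) k
    rw [Real.dist_eq]
    have e : (TB a).1 k - (TB b).1 k = Tf (xof a) k - Tf (xof b) k := by
      show (Tf (xof a) k - x0 k) - (Tf (xof b) k - x0 k) = _
      ring
    rw [e]
    exact h

/-- existence of the phase-locked sequence -/
theorem exists_seq : ∃ x : ℕ → ℝ, Near x ∧ ∀ k, AA x (x k) = π * x k / 2 - π * ((k:ℝ) + 1) := by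
  obtain ⟨η, hη⟩ : ∃ η : BB, TB η = η := ⟨_, TB_contr.fixedPoint_isFixedPt⟩
  refine ⟨xof η, near_xof η, fun k => ?_⟩
  have h1 : (TB η).1 k = η.1 k := by rw [hη]
  have h2 : Tf (xof η) k - x0 k = η.1 k := h1
  have h3 : Tf (xof η) k = xof η k := by
    show _ = x0 k + η.1 k
    linarith
  unfold Tf at h3
  have hpi := Real.pi_pos
  have h4 : AA (xof η) (xof η k) / π = xof η k / 2 - ((k:ℝ)+1) := by linarith
  rw [div_eq_iff hpi.ne'] at h4
  rw [h4]; ring

end Q66.FF
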