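import Pool.Agent.Q66.FF6

/-! Force field counterexample, part 7: the entire function. -/

namespace Q66.FF

open Real Finset Filter Topology Complex

/-- factor of the product -/
noncomputable def uu (x : ℕ → ℝ) (j : ℕ) (z : ℂ) : ℂ :=
  (1 + (√2 : ℝ) * (z / (√(x j) : ℝ)) + (z / (√(x j) : ℝ))^2) * Complex.exp (-((√2 : ℝ) * (dd j : ℝ) * z))

noncomputable def GN (x : ℕ → ℝ) (N : ℕ) (z : ℂ) : ℂ :=
  z * Complex.exp (π * z^2 / 2) * ∏ j ∈ range N, uu x j z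

noncomputable def GG (x : ℕ → ℝ) (z : ℂ) : ℂ :=
  z * Complex.exp (π * z^2 / 2) * ∏' j, uu x j z

noncomputable def ff (w : ℂ) : ℂ := (1 + (√2 : ℝ) * w + w^2) * Complex.exp (-((√2 : ℝ) * w))

lemma hasDeriv_ff (w : ℂ) : HasDerivAt ff (-((√2 : ℝ) * w^2 * Complex.exp (-((√2 : ℝ) * w)))) w := by
  have h1 : HasDerivAt (fun w : ℂ => 1 + (√2 : ℝ) * w + w^2) ((√2 : ℝ) + 2 * w) w := by
    have a := (hasDerivAt_id w).const_mul ((√2 : ℝ) : ℂ)
    have b := (hasDerivAt_id w).fun_pow 2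
    exact ((a.const_add 1).fun_add b).congr_deriv (by simp)
  have h2 : HasDerivAt (fun w : ℂ => Complex.exp (-((√2 : ℝ) * w))) (Complex.exp (-((√2 : ℝ) * w)) * (-(√2 : ℝ))) w := by
    have a := ((hasDerivAt_id w).const_mul ((√2 : ℝ) : ℂ)).fun_neg
    exact (a.cexp).congr_deriv (by simp)
  refine (h1.fun_mul h2).congr_deriv ?_
  have e : ((√2 : ℝ) : ℂ)^2 = 2 := by
    rw [← Complex.ofReal_pow, Real.sq_sqrt (by norm_num)]; norm_num
  linear_combination (-(w * Complex.exp (-((√2 : ℝ) * w)))) * e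

lemma norm_sqrt2 : ‖((√2 : ℝ) : ℂ)‖ = √2 := by
  rw [Complex.norm_real, Real.norm_eq_abs, abs_of_nonneg (Real.sqrt_nonneg _)]

lemma sqrt2_le : √2 ≤ (2:ℝ) := by
  apply Real.sqrt_le_iff.2; constructor <;> norm_num

lemma ff_bound (w : ℂ) : ‖ff w - 1‖ ≤ 2 * ‖w‖^3 * Real.exp (2 * ‖w‖) := by
  have h0 : ff 0 = 1 := by simp [ff]
  have := (convex_closedBall (0:ℂ) ‖w‖).norm_image_sub_le_of_norm_hasDerivWithin_le
    (f := ff) (f' := fun w => -((√2 : ℝ) * w^2 * Complex.exp (-((√2 : ℝ) * w)))) (C := 2 * ‖w‖^2 * Real.exp (2 * ‖w‖))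
    (x := 0) (y := w)
    (fun u _ => (hasDeriv_ff u).hasDerivWithinAt)
    (fun u hu => by
      have hu' : ‖u‖ ≤ ‖w‖ := by simpa using hu
      rw [norm_neg, norm_mul, norm_mul, norm_sqrt2, norm_pow, Complex.norm_exp]
      have h1 : (-(((√2 : ℝ):ℂ) * u)).re ≤ 2 * ‖w‖ := by
        calc (-(((√2 : ℝ):ℂ) * u)).re ≤ ‖-(((√2 : ℝ):ℂ) * u)‖ := Complex.re_le_norm _
          _ = √2 * ‖u‖ := by rw [norm_neg, norm_mul, norm_sqrt2]
          _ ≤ 2 * ‖w‖ := by gcongr; exact sqrt2_le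
      have h2 := Real.exp_le_exp.2 h1
      gcongr
      exact sqrt2_le)
    (by simp) (by simp)
  rw [h0, sub_zero] at this
  calc ‖ff w - 1‖ ≤ 2 * ‖w‖^2 * Real.exp (2 * ‖w‖) * ‖w‖ := this
    _ = _ := by ring

lemma exp_sub_one_bd (q : ℂ) : ‖Complex.exp q - 1‖ ≤ ‖q‖ * Real.exp ‖q‖ := by
  have := Complex.norm_exp_sub_sum_le_norm_mul_exp q 1
  simpa using this

lemma uu_eq (x : ℕ → ℝ) (j : ℕ) (z : ℂ) : uu x j z =
    ff (z / (√(x j) : ℝ)) * Complex.exp ((√2 : ℝ) * (((1/√(x j) - dd j : ℝ)) : ℂ) * z) := by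
  have e : Complex.exp (-((√2 : ℝ) * (dd j : ℝ) * z)) = Complex.exp (-((√2 : ℝ) * (z / (√(x j) : ℝ)))) *
      Complex.exp ((√2 : ℝ) * (((1/√(x j) - dd j : ℝ)) : ℂ) * z) := by
    rw [← Complex.exp_add]
    congr 1
    push_cast
    ring
  unfold uu ff
  rw [e]; ring

lemma uu_bound {x : ℕ → ℝ} (h : Near x) {R : ℝ} (hR : 0 ≤ R) : ∃ C : ℝ, ∀ j : ℕ, ∀ z : ℂ, ‖z‖ ≤ R →
    ‖uu x j z - 1‖ ≤ C * (1 / ((j:ℝ)+1)^(3/2:ℝ)) := by
  refine ⟨54 * R^3 * Real.exp (4 * R) * Real.exp (8*R) + 8 * R * Real.exp (8 * R), fun j z hz => ?_⟩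
  have hn : (0:ℝ) ≤ j := Nat.cast_nonneg j
  have hxp := h.pos j
  have hs : 0 < √(x j) := Real.sqrt_pos.2 hxp
  have hpow : ((j:ℝ)+1)^(3/2:ℝ) = ((j:ℝ)+1) * √((j:ℝ)+1) := by
    rw [Real.sqrt_eq_rpow, show (3/2:ℝ) = 1 + 1/2 by norm_num, Real.rpow_add (by linarith), Real.rpow_one]
  have hq : 0 < √((j:ℝ)+1) := Real.sqrt_pos.2 (by linarith)
  have e2 : √((j:ℝ)+1) ^ 2 = j+1 := Real.sq_sqrt (by linarith)
  have e3 : √(x j) ^ 2 = x j := Real.sq_sqrt hxp.le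
  have h4 : √((j:ℝ)+1) ≤ 3/2 * √(x j) := by
    apply le_of_sq_le_sq _ (by positivity)
    nlinarith [h.lo j]
  have hq1 : 1 ≤ √((j:ℝ)+1) := by
    apply Real.le_sqrt_of_sq_le; linarith
  set w := z / ((√(x j) : ℝ) : ℂ) with hw
  have hwn : ‖w‖ = ‖z‖ / √(x j) := by
    rw [hw, norm_div, Complex.norm_real, Real.norm_eq_abs, abs_of_pos hs]
  have hw1 : ‖w‖ ≤ (3/2) * R / √((j:ℝ)+1) := by
    rw [hwn, div_le_div_iff₀ hs hq]
    calc ‖z‖ * √((j:ℝ)+1) ≤ R * (3/2 * √(x j)) := by gcongr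
      _ = 3/2 * R * √(x j) := by ring
  have hw2 : ‖w‖ ≤ 2 * R := by
    refine hw1.trans ?_
    rw [div_le_iff₀ hq]; nlinarith
  have hw3 : ‖w‖^3 ≤ 27 * R^3 * (1 / ((j:ℝ)+1)^(3/2:ℝ)) := by
    rw [hpow]
    calc ‖w‖^3 ≤ ((3/2) * R / √((j:ℝ)+1))^3 := by gcongr
      _ = (27/8) * R^3 * (1/(√((j:ℝ)+1)^2 * √((j:ℝ)+1))) := by field_simp; ring
      _ = (27/8) * R^3 * (1/(((j:ℝ)+1) * √((j:ℝ)+1))) := by rw [e2]
      _ ≤ 27 * R^3 * (1/(((j:ℝ)+1) * √((j:ℝ)+1))) := by gcongr; norm_num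
  set P : ℝ := 1 / ((j:ℝ)+1)^(3/2:ℝ) with hP
  have hP0 : 0 ≤ P := by positivity
  have hP1 : P ≤ 1 := by
    rw [hP, div_le_one (by positivity)]
    exact Real.one_le_rpow (by linarith) (by norm_num)
  set q : ℂ := (√2 : ℝ) * (((1/√(x j) - dd j : ℝ)) : ℂ) * z with hqd
  have hqn : ‖q‖ ≤ 8 * R * P := by
    rw [hqd, norm_mul, norm_mul, norm_sqrt2, Complex.norm_real, Real.norm_eq_abs]
    have := inv_sub_dd h j
    calc √2 * |1/√(x j) - dd j| * ‖z‖ ≤ 2 * (4 / ((j:ℝ)+1)^(3/2:ℝ)) * R := by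
          gcongr; exact sqrt2_le
      _ = 8 * R * P := by rw [hP]; ring
  have hqn2 : ‖q‖ ≤ 8 * R := by nlinarith
  have E1 : ‖Complex.exp q - 1‖ ≤ 8 * R * P * Real.exp (8*R) :=
    (exp_sub_one_bd q).trans (by gcongr)
  have E2 : ‖Complex.exp q‖ ≤ Real.exp (8*R) := by
    rw [Complex.norm_exp]; exact Real.exp_le_exp.2 ((Complex.re_le_norm q).trans hqn2)
  have E3 : ‖ff w - 1‖ ≤ 2 * (27 * R^3 * P) * Real.exp (4 * R) :=
    (ff_bound w).trans (by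
      have : Real.exp (2 * ‖w‖) ≤ Real.exp (4 * R) := Real.exp_le_exp.2 (by linarith)
      gcongr)
  rw [uu_eq]
  have e : ff w * Complex.exp q - 1 = (ff w - 1) * Complex.exp q + (Complex.exp q - 1) := by ring
  rw [e]
  calc ‖(ff w - 1) * Complex.exp q + (Complex.exp q - 1)‖
      ≤ ‖ff w - 1‖ * ‖Complex.exp q‖ + ‖Complex.exp q - 1‖ := by
        refine (norm_add_le _ _).trans ?_; rw [norm_mul]
    _ ≤ (2 * (27 * R^3 * P) * Real.exp (4 * R)) * Real.exp (8*R) + 8 * R * P * Real.exp (8*R) := by gcongr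
    _ = _ := by ring

lemma differentiable_uu (x : ℕ → ℝ) (j : ℕ) : Differentiable ℂ (uu x j) := by
  unfold uu
  fun_prop

lemma tendstoLU {x : ℕ → ℝ} (h : Near x) (R : ℝ) :
    TendstoLocallyUniformlyOn (fun N z => ∏ j ∈ range N, uu x j z) (fun z => ∏' j, uu x j z) atTop
      (Metric.ball (0:ℂ) R) := by
  rcases le_or_gt R 0 with hR | hR
  · rw [Metric.ball_eq_empty.2 hR]
    intro u hu y hy; simp at hy
  obtain ⟨C, hC⟩ := uu_bound h hR.le
  have hs : Summable (fun j : ℕ => C * (1 / ((j:ℝ)+1)^(3/2:ℝ))) := summable_pow32.mul_left _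
  have := (hs.hasProdLocallyUniformlyOn_nat_one_add (f := fun j z => uu x j z - 1) (K := Metric.ball (0:ℂ) R)
    Metric.isOpen_ball
    (Eventually.of_forall (fun j z hz => hC j z (by simpa using (Metric.mem_ball.1 hz).le)))
    (fun j => ((differentiable_uu x j).continuous.sub continuous_const).continuousOn)).tendstoLocallyUniformlyOn_finsetRange
  simpa using this

lemma tendstoLU_GN {x : ℕ → ℝ} (h : Near x) (R : ℝ) :
    TendstoLocallyUniformlyOn (fun N z => GN x N z) (GG x) atTop (Metric.ball (0:ℂ) R) := by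
  have hc : Continuous (fun z : ℂ => z * Complex.exp (π * z^2 / 2)) := by fun_prop
  have h2 := tendstoLU h R
  rw [tendstoLocallyUniformlyOn_iff_forall_isCompact Metric.isOpen_ball] at h2 ⊢
  intro K hK hKc
  have h3 := h2 K hK hKc
  obtain ⟨M, hM⟩ := (hKc.image hc).isBounded.exists_norm_le
  have hM' : ∀ z ∈ K, ‖z * Complex.exp (π * z^2 / 2)‖ ≤ |M| + 1 := fun z hz =>
    (hM _ ⟨z, hz, rfl⟩).trans ((le_abs_self M).trans (by linarith))
  rw [Metric.tendstoUniformlyOn_iff] at h3 ⊢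
  intro ε hε
  filter_upwards [h3 (ε / (|M|+1)) (by positivity)] with N hN z hz
  have h5 := hN z hz
  rw [dist_eq_norm] at h5 ⊢
  have e : GG x z - GN x N z = z * Complex.exp (π * z^2 / 2) * ((∏' j, uu x j z) - ∏ j ∈ range N, uu x j z) := by
    unfold GG GN; ring
  rw [e, norm_mul]
  have hpos : 0 < |M| + 1 := by positivity
  calc ‖z * Complex.exp (π * z^2 / 2)‖ * ‖(∏' j, uu x j z) - ∏ j ∈ range N, uu x j z‖
      ≤ (|M|+1) * ‖(∏' j, uu x j z) - ∏ j ∈ range N, uu x j z‖ := by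
        gcongr; exact hM' z hz
    _ < (|M|+1) * (ε / (|M|+1)) := by gcongr
    _ = ε := by field_simp

lemma differentiable_GN (x : ℕ → ℝ) (N : ℕ) : Differentiable ℂ (GN x N) := by
  unfold GN
  have h1 : Differentiable ℂ (fun z : ℂ => z * Complex.exp (π * z^2 / 2)) := by fun_prop
  have h2 : Differentiable ℂ (fun z : ℂ => ∏ j ∈ range N, uu x j z) :=
    Differentiable.fun_finsetProd (fun j _ => differentiable_uu x j)
  exact h1.mul h2

lemma differentiable_GG {x : ℕ → ℝ} (h : Near x) : Differentiable ℂ (GG x) := by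
  intro z
  have := (tendstoLU_GN h (‖z‖+1)).differentiableOn
    (Eventually.of_forall fun N => (differentiable_GN x N).differentiableOn) Metric.isOpen_ball
  exact this.differentiableAt (Metric.isOpen_ball.mem_nhds (by simp))

lemma tendsto_GN {x : ℕ → ℝ} (h : Near x) (z : ℂ) : Tendsto (fun N => GN x N z) atTop (𝓝 (GG x z)) :=
  (tendstoLU_GN h (‖z‖+1)).tendsto_at (by simp)

lemma tendsto_deriv_GN {x : ℕ → ℝ} (h : Near x) (z : ℂ) :
    Tendsto (fun N => deriv (GN x N) z) atTop (𝓝 (deriv (GG x) z)) := by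
  have := (tendstoLU_GN h (‖z‖+1)).deriv
    (Eventually.of_forall fun N => (differentiable_GN x N).differentiableOn) Metric.isOpen_ball
  exact this.tendsto_at (by simp)

end Q66.FF
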