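import Pool.Agent.Q66.FF7

/-! Force field counterexample, part 8: values on the rays. -/

namespace Q66.FF

open Real Finset Filter Topology Complex

/-- direction `e^{3πi/4}` -/
noncomputable def om : ℂ := (-1 + I) / ((√2 : ℝ) : ℂ)

lemma r2_sq : ((√2 : ℝ) : ℂ)^2 = 2 := by
  rw [← Complex.ofReal_pow, Real.sq_sqrt (by norm_num)]; norm_num

lemma r2_ne : ((√2 : ℝ) : ℂ) ≠ 0 := by
  rw [Complex.ofReal_ne_zero]; positivity

lemma r2_om : ((√2 : ℝ) : ℂ) * om = -1 + I := by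
  unfold om; rw [mul_div_cancel₀ _ r2_ne]

lemma om_sq : om^2 = -I := by
  unfold om; rw [div_pow, r2_sq]
  have := Complex.I_sq
  linear_combination (1/2 : ℂ) * this

lemma om_ne : om ≠ 0 := by
  intro h
  have := om_sq
  rw [h] at this; simp at this

lemma norm_om : ‖om‖ = 1 := by
  have h : ‖om‖^2 = 1 := by
    rw [← norm_pow, om_sq]; simp
  nlinarith [norm_nonneg om]

/-- the zeros -/
noncomputable def zk (x : ℕ → ℝ) (k : ℕ) : ℂ := ((√(x k) : ℝ) : ℂ) * om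

/-- value on the ray, `s = √y` -/
lemma uu_ray (x : ℕ → ℝ) (h : Near x) (j : ℕ) (s : ℝ) :
    uu x j ((s:ℂ) * om) = ((1 - s/√(x j) : ℝ) : ℂ) * (1 + ((s/√(x j) : ℝ) : ℂ) * I) *
      (Complex.exp ((dd j * s : ℝ)) * Complex.exp (-((dd j * s : ℝ) * I))) := by
  unfold uu
  rw [← Complex.exp_add]
  congr 1
  · have e1 := om_sq
    have e2 := r2_om
    have hx : ((√(x j) : ℝ) : ℂ) ≠ 0 := by
      rw [Complex.ofReal_ne_zero]; exact (Real.sqrt_pos.2 (h.pos j)).ne'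
    push_cast
    have e3 : (s:ℂ) * om / ((√(x j) : ℝ) : ℂ) = (s / ((√(x j) : ℝ) : ℂ)) * om := by ring
    rw [e3]
    generalize (s:ℂ) / ((√(x j) : ℝ) : ℂ) = t
    linear_combination t * e2 + t^2 * e1
  · congr 1
    have e2 := r2_om
    push_cast
    linear_combination (-(dd j : ℂ) * s) * e2

lemma uu_neg_ray (x : ℕ → ℝ) (h : Near x) (j : ℕ) (s : ℝ) :
    uu x j (-((s:ℂ) * om)) = ((1 + s/√(x j) : ℝ) : ℂ) * (1 - ((s/√(x j) : ℝ) : ℂ) * I) *
      (Complex.exp ((-(dd j * s) : ℝ)) * Complex.exp ((dd j * s : ℝ) * I)) := by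
  unfold uu
  rw [← Complex.exp_add]
  congr 1
  · have e1 := om_sq
    have e2 := r2_om
    have hx : ((√(x j) : ℝ) : ℂ) ≠ 0 := by
      rw [Complex.ofReal_ne_zero]; exact (Real.sqrt_pos.2 (h.pos j)).ne'
    push_cast
    have e3 : -((s:ℂ) * om) / ((√(x j) : ℝ) : ℂ) = -((s / ((√(x j) : ℝ) : ℂ)) * om) := by ring
    rw [e3]
    generalize (s:ℂ) / ((√(x j) : ℝ) : ℂ) = t
    linear_combination -t * e2 + t^2 * e1
  · congr 1
    have e2 := r2_om
    push_cast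
    linear_combination ((dd j : ℂ) * s) * e2

lemma polar (t : ℝ) : (1 + (t : ℂ) * I) = ((√(1+t^2) : ℝ) : ℂ) * Complex.exp ((Real.arctan t : ℝ) * I) := by
  have hs : 0 < √(1+t^2) := Real.sqrt_pos.2 (by positivity)
  rw [Complex.exp_mul_I, ← Complex.ofReal_cos, ← Complex.ofReal_sin, Real.cos_arctan, Real.sin_arctan]
  have : ((√(1+t^2) : ℝ) : ℂ) ≠ 0 := by rw [Complex.ofReal_ne_zero]; exact hs.ne'
  push_cast
  field_simp

/-- derivative of the `k`-th factor at `z_k` -/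
lemma hasDeriv_uu_zk (x : ℕ → ℝ) (h : Near x) (k : ℕ) :
    HasDerivAt (uu x k) (((√2 : ℝ) : ℂ) * I / ((√(x k) : ℝ) : ℂ) * Complex.exp (-((√2 : ℝ) * (dd k : ℝ) * zk x k))) (zk x k) := by
  have hx : ((√(x k) : ℝ) : ℂ) ≠ 0 := by
    rw [Complex.ofReal_ne_zero]; exact (Real.sqrt_pos.2 (h.pos k)).ne'
  have h0 := (hasDerivAt_id (zk x k)).div_const ((√(x k) : ℝ) : ℂ)
  have h1 := ((h0.const_mul ((√2 : ℝ) : ℂ)).const_add 1).fun_add (h0.fun_pow 2)
  have h2 : HasDerivAt (fun z : ℂ => Complex.exp (-((√2 : ℝ) * (dd k : ℝ) * z)))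
     (Complex.exp (-((√2 : ℝ) * (dd k : ℝ) * (zk x k))) * (-((√2 : ℝ) * (dd k : ℝ)))) (zk x k) := by
    have a := ((hasDerivAt_id (zk x k)).const_mul (((√2 : ℝ) : ℂ) * (dd k : ℝ))).fun_neg
    exact (a.cexp).congr_deriv (by simp)
  refine (h1.fun_mul h2).congr_deriv ?_
  have e0 : id (zk x k) / ((√(x k) : ℝ) : ℂ) = om := by
    unfold zk; simp only [id]; field_simp
  rw [e0]
  have e1 := om_sq
  have e2 := r2_om
  have e3 := r2_sq
  have key : (1 + ((√2 : ℝ) : ℂ) * om + om^2) = 0 := by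
    linear_combination e2 + e1
  rw [key]
  have key2 : (((√2 : ℝ) : ℂ) * (1 / ((√(x k) : ℝ) : ℂ)) + ((2:ℕ):ℂ) * om ^ (2-1) * (1 / ((√(x k) : ℝ) : ℂ)))
      = ((√2 : ℝ) : ℂ) * I / ((√(x k) : ℝ) : ℂ) := by
    norm_num
    field_simp
    have : om = (-1 + I) / ((√2 : ℝ) : ℂ) := rfl
    rw [this]
    field_simp
    rw [e3]; ring
  rw [key2]
  ring

/-- derivative of `G_N` at `z_k` -/
lemma deriv_GN_zk (x : ℕ → ℝ) (h : Near x) {k N : ℕ} (hk : k < N) :
    deriv (GN x N) (zk x k) = -(1 + I) * Complex.exp (-((√2 : ℝ) * (dd k : ℝ) * zk x k)) *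
      Complex.exp (π * (zk x k)^2 / 2) * ∏ j ∈ (range N).erase k, uu x j (zk x k) := by
  have hx : ((√(x k) : ℝ) : ℂ) ≠ 0 := by
    rw [Complex.ofReal_ne_zero]; exact (Real.sqrt_pos.2 (h.pos k)).ne'
  set R : ℂ → ℂ := fun z => z * Complex.exp (π * z^2 / 2) * ∏ j ∈ (range N).erase k, uu x j z with hR
  have hRd : Differentiable ℂ R := by
    have h1 : Differentiable ℂ (fun z : ℂ => z * Complex.exp (π * z^2 / 2)) := by fun_prop
    exact h1.mul (Differentiable.fun_finsetProd (fun j _ => differentiable_uu x j))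
  have e : GN x N = fun z => uu x k z * R z := by
    funext z
    unfold GN
    rw [← mul_prod_erase (range N) (fun j => uu x j z) (mem_range.2 hk), hR]
    ring
  have h1 := (hasDeriv_uu_zk x h k).fun_mul (hRd (zk x k)).hasDerivAt
  rw [e, h1.deriv]
  have h0 : uu x k (zk x k) = 0 := by
    unfold zk
    rw [uu_ray x h k]
    rw [div_self (Real.sqrt_pos.2 (h.pos k)).ne']; simp
  rw [h0, hR]
  simp only [zero_mul, add_zero]
  have e2 := r2_om
  have : ((√2 : ℝ) : ℂ) * I / ((√(x k) : ℝ) : ℂ) * zk x k = -(1+I) := by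
    unfold zk
    have : ((√2 : ℝ) : ℂ) * I / ((√(x k) : ℝ) : ℂ) * (((√(x k) : ℝ) : ℂ) * om) = I * (((√2 : ℝ) : ℂ) * om) := by
      field_simp
    rw [this, e2]
    linear_combination Complex.I_sq
  calc _ = (((√2 : ℝ) : ℂ) * I / ((√(x k) : ℝ) : ℂ) * zk x k) * Complex.exp (-((√2 : ℝ) * (dd k : ℝ) * zk x k)) *
      Complex.exp (π * (zk x k)^2 / 2) * ∏ j ∈ (range N).erase k, uu x j (zk x k) := by ring
    _ = _ := by rw [this]

end Q66.FF
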