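import Pool.Agent.Q66.FF8

/-! Force field counterexample, part 9: the derivative at the zeros is positive. -/

namespace Q66.FF

open Real Finset Filter Topology Complex

/-- ratio `√x_k/√x_j` -/
noncomputable def tt (x : ℕ → ℝ) (k j : ℕ) : ℝ := √(x k) / √(x j)

noncomputable def MN (x : ℕ → ℝ) (k N : ℕ) : ℝ :=
  √2 * Real.exp (2 * √N * √(x k)) * ∏ j ∈ (range N).erase k, (|1 - tt x k j| * √(1 + (tt x k j)^2))

noncomputable def thN (x : ℕ → ℝ) (k N : ℕ) : ℝ :=
  π * ((k:ℝ) + 1) - π * x k / 2 + (∑ j ∈ range N, aa (x k) (x j) - 2 * √(x k) * √N)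

lemma Near.strict {x : ℕ → ℝ} (h : Near x) {i j : ℕ} (hij : i < j) : x i < x j := by
  have h1 := h.hi i
  have h2 := h.lo j
  have h3 : (i:ℝ) + 1 ≤ j := by exact_mod_cast hij
  linarith

lemma tt_pos {x : ℕ → ℝ} (h : Near x) (k j : ℕ) : 0 < tt x k j := by
  unfold tt; exact div_pos (Real.sqrt_pos.2 (h.pos k)) (Real.sqrt_pos.2 (h.pos j))

lemma tt_gt {x : ℕ → ℝ} (h : Near x) {k j : ℕ} (hj : j < k) : 1 < tt x k j := by
  unfold tt; rw [one_lt_div (Real.sqrt_pos.2 (h.pos j))]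
  exact Real.sqrt_lt_sqrt (h.pos j).le (h.strict hj)

lemma tt_lt {x : ℕ → ℝ} (h : Near x) {k j : ℕ} (hj : k < j) : tt x k j < 1 := by
  unfold tt; rw [div_lt_one (Real.sqrt_pos.2 (h.pos j))]
  exact Real.sqrt_lt_sqrt (h.pos k).le (h.strict hj)

lemma prod_sign {x : ℕ → ℝ} (h : Near x) {k N : ℕ} (hk : k < N) :
    ∏ j ∈ (range N).erase k, (1 - tt x k j) = (-1)^k * ∏ j ∈ (range N).erase k, |1 - tt x k j| := by
  have e : ∀ j ∈ (range N).erase k, (1 - tt x k j) = (if j < k then (-1:ℝ) else 1) * |1 - tt x k j| := by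
    intro j hj
    rw [mem_erase] at hj
    rcases lt_or_gt_of_ne hj.1 with hjk | hjk
    · have := tt_gt h hjk
      rw [if_pos hjk, abs_of_neg (by linarith)]; ring
    · have := tt_lt h hjk
      rw [if_neg (by omega), abs_of_pos (by linarith)]; ring
  rw [prod_congr rfl e, prod_mul_distrib]
  congr 1
  rw [prod_ite, prod_const, prod_const, one_pow, mul_one]
  congr 1
  have : ((range N).erase k).filter (fun j => j < k) = range k := by
    ext j
    simp only [mem_filter, mem_erase, mem_range]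
    omega
  rw [this, card_range]

lemma polar_prod (s : Finset ℕ) (t : ℕ → ℝ) :
    ∏ j ∈ s, (1 + ((t j : ℝ) : ℂ) * I) = ((∏ j ∈ s, √(1+(t j)^2) : ℝ) : ℂ) *
      Complex.exp (((∑ j ∈ s, Real.arctan (t j) : ℝ) : ℂ) * I) := by
  induction s using Finset.induction_on with
  | empty => simp
  | insert a s ha ih =>
    rw [prod_insert ha, prod_insert ha, sum_insert ha, ih, polar (t a)]
    push_cast
    rw [add_mul, Complex.exp_add]
    ring

lemma exp_prod (s : Finset ℕ) (c : ℕ → ℝ) (q : ℝ) :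
    ∏ j ∈ s, (Complex.exp ((c j * q : ℝ)) * Complex.exp (-((c j * q : ℝ) * I)))
      = Complex.exp (((∑ j ∈ s, c j) * q : ℝ)) * Complex.exp (-(((∑ j ∈ s, c j) * q : ℝ) * I)) := by
  induction s using Finset.induction_on with
  | empty => simp
  | insert a s ha ih =>
    rw [prod_insert ha, sum_insert ha, ih]
    rw [← Complex.exp_add, ← Complex.exp_add, ← Complex.exp_add, ← Complex.exp_add]
    congr 1
    push_cast
    ring

lemma one_add_I_polar : (1 + I : ℂ) = ((√2 : ℝ) : ℂ) * Complex.exp ((π/4 : ℝ) * I) := by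
  have := polar 1
  rw [Real.arctan_one] at this
  norm_num at this ⊢
  exact this

/-- polar form of `G_N'(z_k)` -/
lemma deriv_GN_polar {x : ℕ → ℝ} (h : Near x) {k N : ℕ} (hk : k < N) :
    deriv (GN x N) (zk x k) = ((MN x k N : ℝ) : ℂ) * Complex.exp ((thN x k N : ℝ) * I) := by
  rw [deriv_GN_zk x h hk]
  have hxk := h.pos k
  have hsx : 0 < √(x k) := Real.sqrt_pos.2 hxk
  have e0 : (zk x k)^2 = -(x k : ℂ) * I := by
    unfold zk
    rw [mul_pow, om_sq, ← Complex.ofReal_pow, Real.sq_sqrt hxk.le]; ring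
  have e1 : ∀ j ∈ (range N).erase k, uu x j (zk x k) = ((1 - tt x k j : ℝ) : ℂ) * (1 + ((tt x k j : ℝ) : ℂ) * I) *
      (Complex.exp ((dd j * √(x k) : ℝ)) * Complex.exp (-((dd j * √(x k) : ℝ) * I))) := by
    intro j _
    exact uu_ray x h j (√(x k))
  rw [prod_congr rfl e1, prod_mul_distrib, prod_mul_distrib, ← Complex.ofReal_prod, prod_sign h hk,
    polar_prod, exp_prod]
  have e2 : Complex.exp (-((√2 : ℝ) * (dd k : ℝ) * zk x k)) =
      Complex.exp ((dd k * √(x k) : ℝ)) * Complex.exp (-((dd k * √(x k) : ℝ) * I)) := by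
    rw [← Complex.exp_add]
    congr 1
    have := r2_om
    unfold zk
    push_cast
    linear_combination (-(dd k : ℂ) * ((√(x k) : ℝ) : ℂ)) * this
  have e3 : ∑ j ∈ (range N).erase k, dd j = 2 * √N - dd k := by
    have := add_sum_erase (range N) dd (mem_range.2 hk)
    rw [sum_dd] at this
    linarith
  have e4 : ∑ j ∈ (range N).erase k, Real.arctan (tt x k j) = ∑ j ∈ range N, aa (x k) (x j) - π/4 := by
    have := add_sum_erase (range N) (fun j => aa (x k) (x j)) (mem_range.2 hk)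
    have e5 : aa (x k) (x k) = π/4 := by
      unfold aa; rw [div_self hsx.ne', Real.arctan_one]
    have e6 : ∑ j ∈ (range N).erase k, Real.arctan (tt x k j) = ∑ j ∈ (range N).erase k, aa (x k) (x j) := rfl
    rw [e6]
    simp only [e5] at this
    linarith
  have e7 : ((-1:ℝ)^k : ℝ) = (-1)^k := rfl
  have e8 : (((-1:ℝ)^k : ℝ) : ℂ) = Complex.exp ((π * k : ℝ) * I) := by
    push_cast
    rw [← Complex.exp_pi_mul_I, ← Complex.exp_nat_mul]
    congr 1; ring
  have e9 : (-(1 + I) : ℂ) = ((√2 : ℝ) : ℂ) * Complex.exp ((π + π/4 : ℝ) * I) := by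
    have : Complex.exp ((π + π/4 : ℝ) * I) = Complex.exp (π * I) * Complex.exp ((π/4 : ℝ) * I) := by
      rw [← Complex.exp_add]; congr 1; push_cast; ring
    rw [this, Complex.exp_pi_mul_I, one_add_I_polar]; ring
  rw [e0, e2, e3, e4, e9]
  unfold MN thN
  rw [prod_mul_distrib]
  push_cast
  push_cast at e8
  rw [e8]
  have e10 : Complex.exp ((dd k : ℂ) * ((√(x k) : ℝ) : ℂ)) * Complex.exp ((2 * ((√(N:ℝ) : ℝ) : ℂ) - (dd k : ℂ)) * ((√(x k) : ℝ) : ℂ))
      = Complex.exp (2 * ((√(N:ℝ) : ℝ) : ℂ) * ((√(x k) : ℝ) : ℂ)) := by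
    rw [← Complex.exp_add]; congr 1; ring
  rw [← e10]
  have e11 : Complex.exp ((π * ((k:ℂ) + 1) - π * (x k : ℂ) / 2 + (((∑ j ∈ range N, (aa (x k) (x j) : ℂ))) - 2 * ((√(x k) : ℝ) : ℂ) * ((√(N:ℝ) : ℝ) : ℂ))) * I)
     = Complex.exp ((π + π/4) * I) * Complex.exp (-((dd k : ℂ) * ((√(x k) : ℝ) : ℂ) * I)) * Complex.exp (π * (-(x k : ℂ) * I) / 2)
       * Complex.exp (π * k * I) * Complex.exp (((∑ j ∈ range N, (aa (x k) (x j) : ℂ)) - π/4) * I)
       * Complex.exp (-((2 * ((√(N:ℝ) : ℝ) : ℂ) - (dd k : ℂ)) * ((√(x k) : ℝ) : ℂ) * I)) := by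
    rw [← Complex.exp_add, ← Complex.exp_add, ← Complex.exp_add, ← Complex.exp_add, ← Complex.exp_add]
    congr 1; ring
  rw [e11]
  ring

end Q66.FF
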