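import Pool.Agent.Q66.FrDefs

set_option autoImplicit false
open Set Filter Topology
open scoped RealInnerProductSpace ContDiff

namespace Q66.Fronts

variable {E : Type*} [NormedAddCommGroup E] [InnerProductSpace ℝ E]

lemma hit' {Ω : Set E} {P v : E} {t s t' : ℝ} {x u ν x' u' : E} (h : Bounce Ω P v t x u)
    (hs : 0 < s) (hf : ∀ r ∈ Ioo 0 s, x + r • u ∈ Ω) (hx : x + s • u = x') (hν : IsNormal Ω x' ν)
    (hp : 0 < ⟪u, ν⟫) (ht : t + s = t') (hu : u - (2 * ⟪u, ν⟫) • ν = u') :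
    Bounce Ω P v t' x' u' := by
  subst hx ht hu
  exact Bounce.hit h hs hf hν hp

/-- Unit complex numbers. -/
noncomputable def ee (θ : ℝ) : ℂ := Complex.exp (θ * Complex.I)

lemma ee_add (a b : ℝ) : ee (a + b) = ee a * ee b := by
  unfold ee
  rw [← Complex.exp_add]
  congr 1
  push_cast
  ring

lemma ee_re (a : ℝ) : (ee a).re = Real.cos a := by
  unfold ee; exact Complex.exp_ofReal_mul_I_re a

lemma ee_im (a : ℝ) : (ee a).im = Real.sin a := by
  unfold ee; exact Complex.exp_ofReal_mul_I_im a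

lemma ee_norm (a : ℝ) : ‖ee a‖ = 1 := Complex.norm_exp_ofReal_mul_I a

lemma ee_neg_mul (a : ℝ) : ee (-a) * ee a = 1 := by
  rw [← ee_add, neg_add_cancel]; simp [ee]

lemma normal_ball (L : ℂ →ₗᵢ[ℝ] E) (c : E) {R : ℝ} (hR : 0 < R) {z : ℂ} (hz : ‖z‖ = 1) :
    IsNormal (Metric.ball c R) (c + L (R * z)) (L z) := by
  refine ⟨by rw [L.norm_map, hz], fun y => ‖y - c‖ ^ 2 - R ^ 2, ?_, ?_, ?_, 2 * R, by positivity, ?_⟩
  · exact (((contDiff_id.sub contDiff_const).norm_sq ℝ).sub contDiff_const).contDiffAt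
  · simp only [add_sub_cancel_left, L.norm_map, norm_mul, hz, mul_one]
    rw [Complex.norm_real, Real.norm_eq_abs, abs_of_pos hR, sub_self]
  · refine Eventually.of_forall fun y => ?_
    rw [Metric.mem_ball, dist_eq_norm, sub_neg, sq_lt_sq₀ (norm_nonneg _) hR.le]
  · intro w
    have h1 : HasFDerivAt (fun y : E => ‖y - c‖ ^ 2 - R ^ 2)
        (2 • (innerSL ℝ (L (R * z)))) (c + L (R * z)) := by
      have h2 := (hasStrictFDerivAt_norm_sq (F := E) (c + L (R * z) - c)).hasFDerivAt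
      have h3 : HasFDerivAt (fun y : E => y - c) (ContinuousLinearMap.id ℝ E) (c + L (R * z)) :=
        (hasFDerivAt_id _).sub_const c
      have h4 := (h2.comp (c + L (R * z)) h3).sub_const (R ^ 2)
      simp only [add_sub_cancel_left] at h4
      exact h4
    rw [h1.fderiv]
    have h5 : L ((R:ℂ) * z) = R • L z := by
      rw [← L.map_smul]; congr 1
    show (2 : ℕ) • ⟪L (R * z), w⟫ = _
    rw [h5, inner_smul_left, nsmul_eq_mul]
    simp only [conj_trivial]
    push_cast
    ring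

lemma ball_iff (L : ℂ →ₗᵢ[ℝ] E) (c : E) {R : ℝ} (z : ℂ) : c + L z ∈ Metric.ball c R ↔ ‖z‖ < R := by
  rw [Metric.mem_ball, dist_eq_norm, add_sub_cancel_left, L.norm_map]

lemma fly_eq (L : ℂ →ₗᵢ[ℝ] E) (c : E) (z w : ℂ) (s : ℝ) : c + L z + s • L w = c + L (z + s * w) := by
  rw [← L.map_smul, add_assoc, ← map_add]
  rfl

/-- chord inside -/
lemma chord_norm (R s β : ℝ) (θ : ℝ) :
    ‖(R : ℂ) * ee θ + s * (Complex.I * ee (θ + β))‖ ^ 2 = R ^ 2 - 2 * R * s * Real.sin β + s ^ 2 := by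
  have h1 : (R : ℂ) * ee θ + s * (Complex.I * ee (θ + β)) = ee θ * (R + s * Complex.I * ee β) := by
    rw [ee_add]; ring
  rw [h1, norm_mul, ee_norm, one_mul, Complex.sq_norm, Complex.normSq_apply]
  have h2 : ((R : ℂ) + s * Complex.I * ee β).re = R - s * Real.sin β := by
    simp [Complex.add_re, Complex.mul_re, ee_re, ee_im]
    ring
  have h3 : ((R : ℂ) + s * Complex.I * ee β).im = s * Real.cos β := by
    simp [Complex.add_im, Complex.mul_im, ee_re, ee_im]
  rw [h2, h3]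
  nlinarith [Real.sin_sq_add_cos_sq β]

lemma inner_dir (L : ℂ →ₗᵢ[ℝ] E) (φ β : ℝ) :
    ⟪L (Complex.I * ee (φ + β)), L (ee (φ + 2 * β))⟫ = Real.sin β := by
  rw [L.inner_map_map, Complex.inner]
  have h1 : ee (φ + 2 * β) * (starRingEnd ℂ) (Complex.I * ee (φ + β)) = -Complex.I * ee β := by
    have h2 : (starRingEnd ℂ) (ee (φ + β)) = ee (-(φ + β)) := by
      apply Complex.ext
      · rw [Complex.conj_re, ee_re, ee_re, Real.cos_neg]
      · rw [Complex.conj_im, ee_im, ee_im, Real.sin_neg]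
    rw [map_mul, h2, Complex.conj_I, mul_left_comm, ← ee_add]
    congr 2
    ring
  rw [h1]
  simp [Complex.mul_re, ee_re, ee_im]

lemma reflect_dir (L : ℂ →ₗᵢ[ℝ] E) (φ β : ℝ) :
    L (Complex.I * ee (φ + β)) -
      (2 * ⟪L (Complex.I * ee (φ + β)), L (ee (φ + 2 * β))⟫) • L (ee (φ + 2 * β)) =
      L (Complex.I * ee (φ + 2 * β + β)) := by
  rw [inner_dir, ← L.map_smul, ← map_sub]
  congr 1
  have e1 : ee (φ + β) = ee (φ + 2 * β) * ee (-β) := by rw [← ee_add]; congr 1; ring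
  have e2 : ee (φ + 2 * β + β) = ee (φ + 2 * β) * ee β := ee_add _ _
  rw [e1, e2]
  have e3 : Complex.I * ee (-β) - ((2 * Real.sin β : ℝ) : ℂ) = Complex.I * ee β := by
    apply Complex.ext
    · simp [-Complex.ofReal_sin, -Complex.ofReal_mul, Complex.mul_re, ee_re, ee_im]
      ring
    · simp [-Complex.ofReal_sin, -Complex.ofReal_mul, Complex.mul_im, ee_re, ee_im]
  show Complex.I * (ee (φ + 2 * β) * ee (-β)) - (2 * Real.sin β) • ee (φ + 2 * β) = _
  rw [Complex.real_smul]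
  calc Complex.I * (ee (φ + 2 * β) * ee (-β)) - ((2 * Real.sin β : ℝ) : ℂ) * ee (φ + 2 * β)
      = ee (φ + 2 * β) * (Complex.I * ee (-β) - ((2 * Real.sin β : ℝ) : ℂ)) := by ring
    _ = ee (φ + 2 * β) * (Complex.I * ee β) := by rw [e3]
    _ = _ := by ring

/-- The bounces of the photon. -/
lemma bounces (L : ℂ →ₗᵢ[ℝ] E) (c : E) {R r β ψ : ℝ} (hR : 0 < R) (hr : 0 < r) (hrR : r < R)
    (hβ : 0 < Real.sin β) (hc : R * Real.cos β = r * Real.cos ψ) (n : ℕ) :
    Bounce (Metric.ball c R) (c + L r) (L (Complex.I * ee ψ))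
      (R * Real.sin β + r * Real.sin ψ + n * (2 * R * Real.sin β))
      (c + L (R * ee (ψ + β + n * (2 * β)))) (L (Complex.I * ee (ψ + β + n * (2 * β) + β))) := by
  have hs : (r * Real.sin ψ) ^ 2 < (R * Real.sin β) ^ 2 := by
    have h1 : r ^ 2 < R ^ 2 := by nlinarith
    have h2 := Real.sin_sq_add_cos_sq β
    have h3 := Real.sin_sq_add_cos_sq ψ
    have h4 : (R * Real.cos β) ^ 2 = (r * Real.cos ψ) ^ 2 := by rw [hc]
    nlinarith
  have hs2 : |r * Real.sin ψ| < R * Real.sin β := by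
    have := sq_lt_sq.1 hs
    rwa [abs_of_pos (mul_pos hR hβ)] at this
  obtain ⟨hs3, hs4⟩ := abs_lt.1 hs2
  induction n with
  | zero =>
    have e0 : (r : ℂ) + ((R * Real.sin β + r * Real.sin ψ : ℝ) : ℂ) * (Complex.I * ee ψ) =
        R * ee (ψ + β) := by
      apply Complex.ext
      · simp [-Complex.ofReal_sin, -Complex.ofReal_mul, -Complex.ofReal_add, Complex.mul_re, Complex.mul_im, ee_re, ee_im, Real.cos_add]
        have h3 := Real.sin_sq_add_cos_sq ψ
        linear_combination (-(Real.cos ψ)) * hc - r * h3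
      · simp [-Complex.ofReal_sin, -Complex.ofReal_mul, -Complex.ofReal_add, Complex.mul_re, Complex.mul_im, ee_re, ee_im, Real.sin_add]
        linear_combination (-(Real.sin ψ)) * hc
    have hν := normal_ball L c hR (z := ee (ψ - β + 2 * β)) (ee_norm _)
    refine hit' (t := 0) (s := R * Real.sin β + r * Real.sin ψ) (ν := L (ee (ψ - β + 2 * β)))
      Bounce.start (by linarith) ?_ ?_ ?_ ?_ ?_ ?_
    · intro x hx
      rw [fly_eq, ball_iff]
      have h1 : ‖(r : ℂ) + x * (Complex.I * ee ψ)‖ ^ 2 < R ^ 2 := by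
        rw [Complex.sq_norm, Complex.normSq_apply]
        simp [-Complex.ofReal_sin, -Complex.ofReal_mul, -Complex.ofReal_add, Complex.mul_re, Complex.mul_im, ee_re, ee_im]
        have h3 := Real.sin_sq_add_cos_sq ψ
        have h4 := Real.sin_sq_add_cos_sq β
        have h5 : (R * Real.cos β) ^ 2 = (r * Real.cos ψ) ^ 2 := by rw [hc]
        have h6 : (x - r * Real.sin ψ) ^ 2 < (R * Real.sin β) ^ 2 := by
          apply sq_lt_sq.2
          rw [abs_of_pos (mul_pos hR hβ), abs_lt]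
          exact ⟨by linarith [hx.1], by linarith [hx.2]⟩
        have h7 : (r + -(x * Real.sin ψ)) * (r + -(x * Real.sin ψ)) +
            x * Real.cos ψ * (x * Real.cos ψ) = (x - r * Real.sin ψ) ^ 2 + (r * Real.cos ψ) ^ 2 := by
          linear_combination (x ^ 2 - r ^ 2) * h3
        have h8 : (R * Real.sin β) ^ 2 + (R * Real.cos β) ^ 2 = R ^ 2 := by
          linear_combination R ^ 2 * h4
        rw [h7]
        linarith
      exact (sq_lt_sq₀ (norm_nonneg _) hR.le).1 h1
    · rw [fly_eq, e0]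
      simp
    · have e1 : ψ - β + 2 * β = ψ + β + ((0:ℕ):ℝ) * (2 * β) := by push_cast; ring
      rw [← e1]
      exact hν
    · have e1 : ψ = ψ - β + β := by ring
      nth_rewrite 1 [e1]
      rw [inner_dir]
      exact hβ
    · push_cast; ring
    · have e1 : ψ = ψ - β + β := by ring
      nth_rewrite 1 [e1]
      nth_rewrite 2 [e1]
      rw [reflect_dir]
      congr 3
      push_cast
      ring
  | succ n ih =>
    set φ := ψ + β + n * (2 * β) with hφ
    have e1 : ψ + β + ((n + 1 : ℕ) : ℝ) * (2 * β) = φ + 2 * β := by rw [hφ]; push_cast; ring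
    rw [e1]
    have hν := normal_ball L c hR (z := ee (φ + 2 * β)) (ee_norm _)
    refine hit' (s := 2 * R * Real.sin β) (ν := L (ee (φ + 2 * β))) ih (by positivity) ?_ ?_ hν ?_ ?_ ?_
    · intro x hx
      rw [fly_eq, ball_iff]
      have h1 := chord_norm R x β φ
      have h2 : R ^ 2 - 2 * R * x * Real.sin β + x ^ 2 < R ^ 2 := by nlinarith [hx.1, hx.2]
      rw [← h1] at h2
      exact (sq_lt_sq₀ (norm_nonneg _) hR.le).1 h2
    · rw [fly_eq]
      congr 2
      have e2 : ee (φ + β) = ee (φ + 2 * β) * ee (-β) := by rw [← ee_add]; congr 1; ring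
      have e3 : ee φ = ee (φ + 2 * β) * (ee (-β) * ee (-β)) := by
        rw [← ee_add, ← ee_add]; congr 1; ring
      rw [e2, e3]
      have e4 : ee (-β) * ee (-β) + (2 * Real.sin β : ℝ) * (Complex.I * ee (-β)) = 1 := by
        have h3 := Real.sin_sq_add_cos_sq β
        apply Complex.ext
        · simp [-Complex.ofReal_sin, -Complex.ofReal_mul, -Complex.ofReal_add, Complex.mul_re, Complex.mul_im, ee_re, ee_im]
          linear_combination h3
        · simp [-Complex.ofReal_sin, -Complex.ofReal_mul, -Complex.ofReal_add, Complex.mul_re, Complex.mul_im, ee_re, ee_im]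
          ring
      have e5 : (((2 * R * Real.sin β : ℝ)) : ℂ) = R * ((2 * Real.sin β : ℝ) : ℂ) := by
        push_cast; ring
      rw [e5]
      calc (R:ℂ) * (ee (φ + 2 * β) * (ee (-β) * ee (-β))) + R * ((2 * Real.sin β : ℝ) : ℂ) *
            (Complex.I * (ee (φ + 2 * β) * ee (-β)))
          = R * ee (φ + 2 * β) * (ee (-β) * ee (-β) + (2 * Real.sin β : ℝ) * (Complex.I * ee (-β))) := by
            ring
        _ = _ := by rw [e4, mul_one]
    · rw [inner_dir]; exact hβ
    · push_cast; ring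
    · exact reflect_dir L φ β

/-- Points of the front. -/
lemma mem_front (L : ℂ →ₗᵢ[ℝ] E) (c : E) {R r β ψ : ℝ} (hR : 0 < R) (hr : 0 < r) (hrR : r < R)
    (hβ : 0 < Real.sin β) (hc : R * Real.cos β = r * Real.cos ψ) (n : ℕ) {s : ℝ} (hs0 : 0 ≤ s)
    (hs1 : s ≤ 2 * R * Real.sin β) :
    c + L (ee (ψ + (2 * n + 1) * β) * (R + s * Complex.I * ee β)) ∈ Front (Metric.ball c R) (c + L r)
      ((2 * n + 1) * (R * Real.sin β) + r * Real.sin ψ + s) := by
  refine ⟨_, _, s, _, _, ?_, bounces L c hR hr hrR hβ hc n, hs0, ?_, ?_, ?_⟩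
  · rw [L.norm_map, norm_mul, Complex.norm_I, ee_norm, one_mul]
  · ring
  · intro x hx
    rw [fly_eq, ball_iff]
    have h1 := chord_norm R x β (ψ + β + n * (2 * β))
    have h2 : R ^ 2 - 2 * R * x * Real.sin β + x ^ 2 < R ^ 2 := by nlinarith [hx.1, hx.2]
    rw [← h1] at h2
    exact (sq_lt_sq₀ (norm_nonneg _) hR.le).1 h2
  · rw [fly_eq]
    have e1 : ψ + (2 * (n:ℝ) + 1) * β = ψ + β + n * (2 * β) := by ring
    rw [e1, ee_add (ψ + β + n * (2 * β)) β]
    congr 2
    ring

end Q66.Fronts
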