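import Pool.Agent.Q66.FrA

set_option autoImplicit false
open Set Filter Topology
open scoped RealInnerProductSpace ContDiff

namespace Q66.Fronts

/-- distance of the perpendicular foot -/
noncomputable def wf (R r β : ℝ) : ℝ := Real.sqrt (r ^ 2 - (R * Real.cos β) ^ 2)
/-- number of half chords as a function of the angle -/
noncomputable def Nf (R r τ β : ℝ) : ℝ := (τ - wf R r β) / (R * Real.sin β)
/-- initial direction -/
noncomputable def psf (R r β : ℝ) : ℝ := Real.arccos (R * Real.cos β / r)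
/-- total phase -/
noncomputable def Tf (R r τ β : ℝ) : ℝ := psf R r β + Nf R r τ β * β
/-- derivative of `Nf` -/
noncomputable def Nd' (R r τ β : ℝ) : ℝ :=
  -(Real.cos β * (R / wf R r β + Nf R r τ β / Real.sin β))

/-- admissible angles -/
structure Good (R r β : ℝ) : Prop where
  pos : 0 < β
  lt : β < Real.pi / 2
  cos : R * Real.cos β < r

lemma Good.sin_pos {R r β : ℝ} (h : Good R r β) : 0 < Real.sin β :=
  Real.sin_pos_of_pos_of_lt_pi h.pos (by linarith [h.lt, Real.pi_pos])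

lemma Good.cos_pos {R r β : ℝ} (h : Good R r β) : 0 < Real.cos β :=
  Real.cos_pos_of_mem_Ioo ⟨by linarith [h.pos, Real.pi_pos], h.lt⟩

lemma Good.w_arg {R r β : ℝ} (hR : 0 < R) (h : Good R r β) :
    0 < r ^ 2 - (R * Real.cos β) ^ 2 := by
  have h1 : 0 < R * Real.cos β := mul_pos hR h.cos_pos
  nlinarith [h.cos]

lemma Good.w_pos {R r β : ℝ} (hR : 0 < R) (h : Good R r β) : 0 < wf R r β :=
  Real.sqrt_pos.2 (h.w_arg hR)

lemma sin_psf {R r β : ℝ} (hr : 0 < r) (hR : 0 < R) (h : Good R r β) :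
    r * Real.sin (psf R r β) = wf R r β := by
  unfold psf wf
  rw [Real.sin_arccos]
  have h1 : 1 - (R * Real.cos β / r) ^ 2 = (r ^ 2 - (R * Real.cos β) ^ 2) / r ^ 2 := by
    field_simp
  rw [h1, Real.sqrt_div (h.w_arg hR).le, Real.sqrt_sq hr.le]
  field_simp

lemma cos_psf {R r β : ℝ} (hr : 0 < r) (hR : 0 < R) (h : Good R r β) :
    R * Real.cos β = r * Real.cos (psf R r β) := by
  unfold psf
  have h1 : 0 < R * Real.cos β := mul_pos hR h.cos_pos
  have h2 := h.cos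
  rw [Real.cos_arccos]
  · field_simp
  · have : 0 ≤ R * Real.cos β / r := by positivity
    linarith
  · rw [div_le_one hr]; exact h2.le

lemma deriv_w {R r β : ℝ} (hR : 0 < R) (h : Good R r β) :
    HasDerivAt (wf R r) (R * Real.cos β * (R * Real.sin β) / wf R r β) β := by
  have h1 : HasDerivAt (fun β : ℝ => r ^ 2 - (R * Real.cos β) ^ 2)
      (-(2 * (R * Real.cos β) * (R * -Real.sin β))) β := by
    have h2 := ((Real.hasDerivAt_cos β).const_mul R).pow 2
    have h3 := h2.const_sub (r ^ 2)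
    refine h3.congr_deriv ?_
    push_cast
    ring
  have h4 := h1.sqrt (h.w_arg hR).ne'
  refine h4.congr_deriv ?_
  have h5 := (h.w_pos hR).ne'
  unfold wf at h5 ⊢
  field_simp

lemma deriv_psf {R r β : ℝ} (hr : 0 < r) (hR : 0 < R) (h : Good R r β) :
    HasDerivAt (psf R r) (R * Real.sin β / wf R r β) β := by
  have h0 : 0 < R * Real.cos β := mul_pos hR h.cos_pos
  have hx1 : R * Real.cos β / r < 1 := by rw [div_lt_one hr]; exact h.cos
  have hx0 : 0 < R * Real.cos β / r := by positivity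
  have h1 : HasDerivAt (fun β : ℝ => R * Real.cos β / r) (R * -Real.sin β / r) β :=
    ((Real.hasDerivAt_cos β).const_mul R).div_const r
  have h2 := (Real.hasDerivAt_arccos (x := R * Real.cos β / r) (by linarith) hx1.ne).comp β h1
  refine h2.congr_deriv ?_
  have h3 : Real.sqrt (1 - (R * Real.cos β / r) ^ 2) = wf R r β / r := by
    rw [← sin_psf hr hR h]
    unfold psf
    rw [Real.sin_arccos]
    field_simp
  rw [h3]
  have h5 := (h.w_pos hR).ne'
  field_simp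

lemma deriv_N {R r τ β : ℝ} (hR : 0 < R) (h : Good R r β) :
    HasDerivAt (Nf R r τ) (Nd' R r τ β) β := by
  have hs := h.sin_pos
  have hw := h.w_pos hR
  have h1 := (deriv_w hR h).const_sub τ
  have h2 := (Real.hasDerivAt_sin β).const_mul R
  have h3 := h1.div h2 (mul_pos hR hs).ne'
  refine h3.congr_deriv ?_
  unfold Nd' Nf
  field_simp
  ring

lemma deriv_T {R r τ β : ℝ} (hr : 0 < r) (hR : 0 < R) (h : Good R r β) :
    HasDerivAt (Tf R r τ) ((β - Real.tan β) * Nd' R r τ β) β := by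
  have hs := h.sin_pos
  have hw := h.w_pos hR
  have hc := h.cos_pos
  have h1 := (deriv_psf hr hR h).add ((deriv_N (τ := τ) hR h).mul (hasDerivAt_id β))
  refine h1.congr_deriv ?_
  simp only [id]
  rw [Real.tan_eq_sin_div_cos]
  unfold Nd'
  field_simp
  ring

lemma cauchy {R r τ a b : ℝ} (hr : 0 < r) (hR : 0 < R) (hab : a ≤ b)
    (hg : ∀ β ∈ Icc a b, Good R r β ∧ 0 < Nf R r τ β) :
    ∃ ξ ∈ Icc a b, Tf R r τ b - Tf R r τ a = (Nf R r τ b - Nf R r τ a) * (ξ - Real.tan ξ) := by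
  rcases hab.eq_or_lt with rfl | hlt
  · exact ⟨a, ⟨le_rfl, le_rfl⟩, by simp⟩
  · have hg' : ∀ β ∈ Ioo a b, Good R r β ∧ 0 < Nf R r τ β := fun β hβ => hg β ⟨hβ.1.le, hβ.2.le⟩
    obtain ⟨ξ, hξ, h⟩ := exists_ratio_hasDerivAt_eq_ratio_slope (Tf R r τ)
      (fun β => (β - Real.tan β) * Nd' R r τ β) hlt
      (fun β hβ => (deriv_T hr hR (hg β hβ).1).continuousAt.continuousWithinAt)
      (fun β hβ => deriv_T hr hR (hg' β hβ).1) (Nf R r τ) (Nd' R r τ)
      (fun β hβ => (deriv_N hR (hg β hβ).1).continuousAt.continuousWithinAt)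
      (fun β hβ => deriv_N hR (hg' β hβ).1)
    obtain ⟨g1, g2⟩ := hg' ξ hξ
    have hne : Nd' R r τ ξ ≠ 0 := by
      unfold Nd'
      have := g1.cos_pos
      have := g1.sin_pos
      have := g1.w_pos hR
      have h3 : 0 < Real.cos ξ * (R / wf R r ξ + Nf R r τ ξ / Real.sin ξ) := by positivity
      linarith
    refine ⟨ξ, ⟨hξ.1.le, hξ.2.le⟩, ?_⟩
    have h4 : (Tf R r τ b - Tf R r τ a) * Nd' R r τ ξ =
        ((Nf R r τ b - Nf R r τ a) * (ξ - Real.tan ξ)) * Nd' R r τ ξ := by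
      rw [← h]; ring
    exact mul_right_cancel₀ hne h4

lemma cauchy' {R r τ a b x y : ℝ} (hr : 0 < r) (hR : 0 < R)
    (hg : ∀ β ∈ Icc a b, Good R r β ∧ 0 < Nf R r τ β) (hx : x ∈ Icc a b) (hy : y ∈ Icc a b) :
    ∃ ξ ∈ Icc a b, Tf R r τ y - Tf R r τ x = (Nf R r τ y - Nf R r τ x) * (ξ - Real.tan ξ) := by
  rcases le_total x y with h | h
  · obtain ⟨ξ, hξ, he⟩ := cauchy hr hR h (fun β hβ => hg β ⟨hx.1.trans hβ.1, hβ.2.trans hy.2⟩)
    exact ⟨ξ, ⟨hx.1.trans hξ.1, hξ.2.trans hy.2⟩, he⟩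
  · obtain ⟨ξ, hξ, he⟩ := cauchy hr hR h (fun β hβ => hg β ⟨hy.1.trans hβ.1, hβ.2.trans hx.2⟩)
    exact ⟨ξ, ⟨hy.1.trans hξ.1, hξ.2.trans hx.2⟩, by linarith⟩

/-- a good angle with irrational phase shift -/
lemma exists_angle {R m : ℝ} (hR : 0 < R) (hm : 0 < m) (hmR : m < R) :
    ∃ β, 0 < β ∧ β < Real.pi / 2 ∧ R * Real.cos β < m ∧
      Irrational ((Real.tan β - β) / Real.pi) := by
  have hpi := Real.pi_pos
  have h0 : 0 < m / R := div_pos hm hR
  have h1 : m / R < 1 := (div_lt_one hR).2 hmR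
  set a0 := Real.arccos (m / R) with ha0
  have ha1 : a0 < Real.pi / 2 := Real.arccos_lt_pi_div_two.2 h0
  have ha2 : 0 < a0 := Real.arccos_pos.2 h1
  set a := (a0 + Real.pi / 2) / 2 with ha
  have haI : a0 < a ∧ a < Real.pi / 2 := ⟨by rw [ha]; linarith, by rw [ha]; linarith⟩
  have htan := Real.tendsto_tan_pi_div_two
  have e1 : ∀ᶠ b in 𝓝[<] (Real.pi / 2), Real.tan a + Real.pi < Real.tan b :=
    htan.eventually (eventually_gt_atTop _)
  have e2 : ∀ᶠ b in 𝓝[<] (Real.pi / 2), b ∈ Ioo a (Real.pi / 2) :=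
    Ioo_mem_nhdsLT haI.2
  obtain ⟨b, hb1, hb2⟩ := (e1.and e2).exists
  have hcont : ContinuousOn (fun β => (Real.tan β - β) / Real.pi) (Icc a b) := by
    refine ContinuousOn.div_const (ContinuousOn.sub ?_ continuousOn_id) _
    refine Real.continuousOn_tan_Ioo.mono fun x hx => ?_
    exact ⟨by linarith [hx.1, haI.1], by linarith [hx.2, hb2.2]⟩
  have hlt : (Real.tan a - a) / Real.pi < (Real.tan b - b) / Real.pi := by
    refine div_lt_div_of_pos_right ?_ hpi
    linarith [hb2.2, haI.1]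
  obtain ⟨y, hy, hy1, hy2⟩ := exists_irrational_btwn hlt
  obtain ⟨β, hβ, hβy⟩ := intermediate_value_Icc hb2.1.le hcont ⟨hy1.le, hy2.le⟩
  simp only at hβy
  refine ⟨β, by linarith [hβ.1, haI.1], by linarith [hβ.2, hb2.2], ?_, by rw [hβy]; exact hy⟩
  have h3 : Real.cos β < Real.cos a0 :=
    Real.cos_lt_cos_of_nonneg_of_le_pi ha2.le (by linarith [hβ.2, hb2.2]) (by linarith [hβ.1, haI.1])
  rw [ha0, Real.cos_arccos (by linarith) h1.le] at h3
  calc R * Real.cos β < R * (m / R) := by gcongr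
    _ = m := by field_simp

/-- uniform density of multiples -/
lemma exists_K {κ : ℝ} (hκ : Irrational (κ / Real.pi)) {ε : ℝ} (hε : 0 < ε) :
    ∃ K : ℕ, ∀ x : ℝ, ∃ j : ℤ, |j| ≤ K ∧ ∃ m : ℤ, |x - j * (2 * κ) - m * (2 * Real.pi)| < ε := by
  have hpi := Real.pi_pos
  have hd : Dense (AddSubgroup.closure {2 * κ, 2 * Real.pi} : Set ℝ) := by
    rw [dense_addSubgroupClosure_pair_iff]
    have : 2 * κ / (2 * Real.pi) = κ / Real.pi := by field_simp
    rw [this]
    exact hκ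
  set V : ℕ → Set ℝ := fun K => {x | ∃ j : ℤ, |j| ≤ K ∧ ∃ m : ℤ, |x - j * (2 * κ) - m * (2 * Real.pi)| < ε}
    with hV
  have hopen : ∀ K, IsOpen (V K) := by
    intro K
    have : V K = ⋃ (j : ℤ) (_ : |j| ≤ K) (m : ℤ), {x | |x - j * (2 * κ) - m * (2 * Real.pi)| < ε} := by
      ext x
      simp only [hV, mem_ofPred_eq, mem_iUnion, exists_prop]
    rw [this]
    refine isOpen_iUnion fun j => isOpen_iUnion fun _ => isOpen_iUnion fun m => ?_
    exact isOpen_lt (by fun_prop) continuous_const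
  have hmono : ∀ K K', K ≤ K' → V K ⊆ V K' := by
    rintro K K' h x ⟨j, hj, hm⟩
    exact ⟨j, hj.trans (by exact_mod_cast h), hm⟩
  have hcover : Icc 0 (2 * Real.pi) ⊆ ⋃ K, V K := by
    intro x _
    obtain ⟨y, hy, hxy⟩ := hd.exists_dist_lt x hε
    have hy' : y ∈ AddSubgroup.closure {2 * κ, 2 * Real.pi} := hy
    rw [AddSubgroup.mem_closure_pair] at hy'
    obtain ⟨j, m, rfl⟩ := hy'
    rw [mem_iUnion]
    refine ⟨j.natAbs, j, by simp, m, ?_⟩
    rw [Real.dist_eq] at hxy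
    simp only [zsmul_eq_mul] at hxy
    have e : x - j * (2 * κ) - m * (2 * Real.pi) = x - (j * (2 * κ) + m * (2 * Real.pi)) := by ring
    rw [e]
    exact hxy
  obtain ⟨K, hK⟩ := isCompact_Icc.elim_directed_cover V hopen hcover
    (directed_of_isDirected_le fun K K' h => hmono K K' h)
  refine ⟨K, fun x => ?_⟩
  have h2 : x - ⌊x / (2 * Real.pi)⌋ * (2 * Real.pi) ∈ Icc 0 (2 * Real.pi) := by
    have h3 := Int.floor_le (x / (2 * Real.pi))
    have h4 := Int.lt_floor_add_one (x / (2 * Real.pi))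
    rw [le_div_iff₀ (by positivity)] at h3
    rw [div_lt_iff₀ (by positivity)] at h4
    constructor
    · linarith
    · linarith
  obtain ⟨j, hj, m, hm⟩ := hK h2
  refine ⟨j, hj, m + ⌊x / (2 * Real.pi)⌋, ?_⟩
  push_cast
  have e : x - j * (2 * κ) - (m + ⌊x / (2 * Real.pi)⌋) * (2 * Real.pi) =
    x - ⌊x / (2 * Real.pi)⌋ * (2 * Real.pi) - j * (2 * κ) - m * (2 * Real.pi) := by ring
  rw [e]
  exact hm

lemma ee_sub_le (a b : ℝ) : ‖ee a - ee b‖ ≤ |a - b| := by
  have h1 : ee a - ee b = ee b * (ee (a - b) - 1) := by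
    have : ee a = ee b * ee (a - b) := by rw [← ee_add]; congr 1; ring
    rw [this]; ring
  rw [h1, norm_mul, ee_norm, one_mul]
  have h2 := Real.norm_exp_I_mul_ofReal_sub_one_le (x := a - b)
  unfold ee
  rw [mul_comm]
  exact h2

lemma ee_int (a : ℝ) (m : ℤ) : ee (a + m * (2 * Real.pi)) = ee a := by
  unfold ee
  rw [Complex.exp_eq_exp_iff_exists_int]
  exact ⟨m, by push_cast; ring⟩

/-- The main density statement, in the plane. -/
theorem plane {R r : ℝ} (hR : 0 < R) (hr : 0 < r) (hrR : r < R) {q : ℂ} (hq0 : 0 < ‖q‖)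
    (hqR : ‖q‖ < R) {ε : ℝ} (hε : 0 < ε) :
    ∃ T : ℝ, ∀ t ≥ T, ∃ (n : ℕ) (β ψ s : ℝ), 0 < Real.sin β ∧ R * Real.cos β = r * Real.cos ψ ∧
      0 ≤ s ∧ s ≤ 2 * R * Real.sin β ∧
      (2 * n + 1) * (R * Real.sin β) + r * Real.sin ψ + s = t ∧
      ‖ee (ψ + (2 * n + 1) * β) * (R + s * Complex.I * ee β) - q‖ < ε := by
  set ρ := ‖q‖ with hρ
  obtain ⟨β₀, hβ1, hβ2, hβ3, hirr⟩ := exists_angle hR (lt_min hr hq0) ((min_le_left _ _).trans_lt hrR)
  have hcr : R * Real.cos β₀ < r := hβ3.trans_le (min_le_left _ _)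
  have hcρ : R * Real.cos β₀ < ρ := hβ3.trans_le (min_le_right _ _)
  have hG0 : Good R r β₀ := ⟨hβ1, hβ2, hcr⟩
  have hsin0 := hG0.sin_pos
  have hcos0 := hG0.cos_pos
  -- the radial position
  have harg : 0 < ρ ^ 2 - (R * Real.cos β₀) ^ 2 := by
    have : 0 < R * Real.cos β₀ := mul_pos hR hcos0
    nlinarith
  set σ := Real.sqrt (ρ ^ 2 - (R * Real.cos β₀) ^ 2) with hσ
  have hσ0 : 0 < σ := Real.sqrt_pos.2 harg
  have hσ2 : σ ^ 2 = ρ ^ 2 - (R * Real.cos β₀) ^ 2 := Real.sq_sqrt harg.le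
  have hσR : σ < R * Real.sin β₀ := by
    have h1 : σ ^ 2 < (R * Real.sin β₀) ^ 2 := by
      rw [hσ2]
      have h1 := Real.sin_sq_add_cos_sq β₀
      have h2 : (R * Real.sin β₀) ^ 2 + (R * Real.cos β₀) ^ 2 = R ^ 2 := by
        linear_combination R ^ 2 * h1
      have h3 : ρ ^ 2 < R ^ 2 := by
        have : ρ < R := hqR
        nlinarith
      linarith
    exact lt_of_pow_lt_pow_left₀ 2 (by positivity) h1
  set s := R * Real.sin β₀ - σ with hs
  have hs0 : 0 < s := by rw [hs]; linarith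
  have hs2 : s < 2 * R * Real.sin β₀ := by rw [hs]; nlinarith [mul_pos hR hsin0]
  set A : ℂ := R + s * Complex.I * ee β₀ with hA
  have hAnorm : ‖A‖ = ρ := by
    have h1 := chord_norm R s β₀ 0
    have h2 : (R:ℂ) * ee 0 + s * (Complex.I * ee (0 + β₀)) = A := by
      rw [hA, zero_add]; simp [ee]; ring
    rw [h2] at h1
    have h3 : R ^ 2 - 2 * R * s * Real.sin β₀ + s ^ 2 = ρ ^ 2 := by
      have := Real.sin_sq_add_cos_sq β₀
      rw [hs]
      nlinarith
    rw [h3] at h1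
    exact (sq_eq_sq₀ (norm_nonneg _) hq0.le).1 h1
  have hA0 : A ≠ 0 := by rw [← norm_ne_zero_iff, hAnorm]; exact hq0.ne'
  set θ := Complex.arg (q / A) with hθ
  have hθA : ee θ * A = q := by
    have h1 := Complex.norm_mul_exp_arg_mul_I (q / A)
    have h2 : ‖q / A‖ = 1 := by rw [norm_div, hAnorm]; exact div_self hq0.ne'
    rw [h2, Complex.ofReal_one, one_mul] at h1
    have h3 : ee θ = q / A := h1
    rw [h3, div_mul_cancel₀ _ hA0]
  -- the phase shift
  set κ := β₀ - Real.tan β₀ with hκ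
  have hκirr : Irrational (κ / Real.pi) := by
    have : κ / Real.pi = -((Real.tan β₀ - β₀) / Real.pi) := by rw [hκ]; ring
    rw [this]
    exact hirr.neg
  set ε1 := ε / (4 * R) with hε1
  have hε1pos : 0 < ε1 := by positivity
  obtain ⟨K, hK⟩ := exists_K hκirr hε1pos
  -- a neighbourhood of the angle
  have e1 : ∀ᶠ β in 𝓝 β₀, (0 < β ∧ β < Real.pi / 2) ∧ R * Real.cos β < r ∧
      s < 2 * R * Real.sin β ∧ |β - Real.tan β - κ| < ε1 / (2 * K + 1) ∧
      s * ‖ee β - ee β₀‖ < ε / 4 := by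
    have a1 : ∀ᶠ β in 𝓝 β₀, 0 < β ∧ β < Real.pi / 2 := Ioo_mem_nhds hβ1 hβ2
    have a2 : ∀ᶠ β in 𝓝 β₀, R * Real.cos β < r := by
      have h : Continuous fun β : ℝ => R * Real.cos β := by fun_prop
      exact h.continuousAt.eventually (gt_mem_nhds hcr)
    have a3 : ∀ᶠ β in 𝓝 β₀, s < 2 * R * Real.sin β := by
      have h : Continuous fun β : ℝ => 2 * R * Real.sin β := by fun_prop
      exact h.continuousAt.eventually (lt_mem_nhds hs2)
    have a4 : ∀ᶠ β in 𝓝 β₀, |β - Real.tan β - κ| < ε1 / (2 * K + 1) := by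
      have h : ContinuousAt (fun β : ℝ => |β - Real.tan β - κ|) β₀ := by
        have ht : ContinuousAt Real.tan β₀ := Real.continuousAt_tan.2 hcos0.ne'
        exact ((continuousAt_id.sub ht).sub continuousAt_const).abs
      have h0 : |β₀ - Real.tan β₀ - κ| = 0 := by rw [hκ, sub_self, abs_zero]
      have h1 : (fun β : ℝ => |β - Real.tan β - κ|) β₀ < ε1 / (2 * K + 1) := by
        simp only [h0]; positivity
      exact h.eventually (gt_mem_nhds h1)
    have a5 : ∀ᶠ β in 𝓝 β₀, s * ‖ee β - ee β₀‖ < ε / 4 := by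
      have h : Continuous fun β : ℝ => s * ‖ee β - ee β₀‖ := by unfold ee; fun_prop
      have h1 : s * ‖ee β₀ - ee β₀‖ < ε / 4 := by simp; positivity
      exact h.continuousAt.eventually (gt_mem_nhds h1)
    exact a1.and (a2.and (a3.and (a4.and a5)))
  obtain ⟨η, hη, hI⟩ := Metric.eventually_nhds_iff.1 e1
  set a := β₀ - η / 2 with ha
  set b := β₀ + η / 2 with hb
  have hI' : ∀ β ∈ Icc a b, (0 < β ∧ β < Real.pi / 2) ∧ R * Real.cos β < r ∧
      s < 2 * R * Real.sin β ∧ |β - Real.tan β - κ| < ε1 / (2 * K + 1) ∧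
      s * ‖ee β - ee β₀‖ < ε / 4 := by
    intro β hβ
    refine hI ?_
    rw [Real.dist_eq, abs_lt]
    constructor
    · linarith [hβ.1]
    · linarith [hβ.2]
  have hab : a < b := by rw [ha, hb]; linarith
  have haI : a ∈ Icc a b := ⟨le_rfl, hab.le⟩
  have hbI : b ∈ Icc a b := ⟨hab.le, le_rfl⟩
  have hGood : ∀ β ∈ Icc a b, Good R r β := fun β hβ =>
    ⟨(hI' β hβ).1.1, (hI' β hβ).1.2, (hI' β hβ).2.1⟩
  have hsa := (hGood a haI).sin_pos
  have hsb := (hGood b hbI).sin_pos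
  have hsab : Real.sin a < Real.sin b :=
    Real.sin_lt_sin_of_lt_of_le_pi_div_two (by linarith [(hI' a haI).1.1, Real.pi_pos])
      (hI' b hbI).1.2.le hab
  -- large τ
  have hwr : ∀ β ∈ Icc a b, wf R r β ≤ r := fun β hβ => by
    unfold wf
    rw [Real.sqrt_le_left hr.le]
    nlinarith [sq_nonneg (R * Real.cos β)]
  have hlim1 : Tendsto (fun τ : ℝ => (τ - r) / R) atTop atTop :=
    (tendsto_atTop_add_const_right _ (-r) tendsto_id).atTop_div_const hR
  have hlim2 : Tendsto (fun τ : ℝ => Nf R r τ a - Nf R r τ b) atTop atTop := by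
    have h1 : (fun τ : ℝ => Nf R r τ a - Nf R r τ b) = fun τ => τ * (1 / (R * Real.sin a) -
        1 / (R * Real.sin b)) + -(wf R r a / (R * Real.sin a) - wf R r b / (R * Real.sin b)) := by
      funext τ
      unfold Nf
      field_simp
      ring
    rw [h1]
    refine tendsto_atTop_add_const_right _ _ (tendsto_id.atTop_mul_const ?_)
    have : 1 / (R * Real.sin b) < 1 / (R * Real.sin a) := by gcongr
    linarith
  obtain ⟨T1, hT1⟩ := (hlim1.eventually (eventually_ge_atTop (2 * (K:ℝ) + 3))).exists_forall_of_atTop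
  obtain ⟨T2, hT2⟩ := (hlim2.eventually (eventually_ge_atTop (4 * (K:ℝ) + 6))).exists_forall_of_atTop
  refine ⟨max T1 T2 + s, fun t ht => ?_⟩
  set τ := t - s with hτ
  have hτ1 := hT1 τ (by have := le_max_left T1 T2; linarith)
  have hτ2 := hT2 τ (by have := le_max_right T1 T2; linarith)
  have hτr : r < τ := by
    have h1 : 0 < (τ - r) / R := by
      have : (0:ℝ) ≤ K := Nat.cast_nonneg K
      linarith
    have := (div_pos_iff_of_pos_right hR).1 h1
    linarith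
  have hNbig : ∀ β ∈ Icc a b, 2 * (K:ℝ) + 3 ≤ Nf R r τ β := by
    intro β hβ
    refine hτ1.trans ?_
    unfold Nf
    have h1 := hwr β hβ
    have h2 := (hGood β hβ).sin_pos
    have h3 := Real.sin_le_one β
    calc (τ - r) / R ≤ (τ - wf R r β) / R := by gcongr
      _ ≤ (τ - wf R r β) / (R * Real.sin β) := by
        apply div_le_div_of_nonneg_left (by linarith) (by positivity)
        nlinarith
  have hNpos : ∀ β ∈ Icc a b, Good R r β ∧ 0 < Nf R r τ β := fun β hβ =>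
    ⟨hGood β hβ, by have := hNbig β hβ; have : (0:ℝ) ≤ K := Nat.cast_nonneg K; linarith⟩
  have hcontN : ContinuousOn (Nf R r τ) (Icc a b) := fun β hβ =>
    (deriv_N hR (hGood β hβ)).continuousAt.continuousWithinAt
  have hivt : ∀ N : ℝ, Nf R r τ b ≤ N → N ≤ Nf R r τ a → ∃ β ∈ Icc a b, Nf R r τ β = N := by
    intro N h1 h2
    obtain ⟨β, hβ, he⟩ := intermediate_value_Icc' hab.le hcontN ⟨h1, h2⟩
    exact ⟨β, hβ, he⟩
  -- the central integer
  set n0 : ℤ := ⌈(Nf R r τ b + 2 * K) / 2⌉ with hn0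
  have hn1 : (Nf R r τ b + 2 * K) / 2 ≤ n0 := Int.le_ceil _
  have hn2 : (n0 : ℝ) < (Nf R r τ b + 2 * K) / 2 + 1 := Int.ceil_lt_add_one _
  have hKn : (0:ℝ) ≤ K := Nat.cast_nonneg K
  have hfind : ∀ j : ℤ, |j| ≤ K → ∃ β ∈ Icc a b, Nf R r τ β = 2 * (n0 + j : ℝ) + 1 := by
    intro j hj
    have hj' : |(j:ℝ)| ≤ K := by exact_mod_cast hj
    obtain ⟨h1, h2⟩ := abs_le.1 hj'
    refine hivt _ ?_ ?_
    · linarith
    · linarith
  obtain ⟨βc, hβc, hNc⟩ := hfind 0 (by simp)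
  obtain ⟨j, hj, m, hm⟩ := hK (θ - Tf R r τ βc)
  obtain ⟨β, hβ, hN⟩ := hfind j hj
  obtain ⟨ξ, hξ, hT⟩ := cauchy' hr hR hNpos hβc hβ
  have hNdiff : Nf R r τ β - Nf R r τ βc = 2 * j := by rw [hN, hNc]; push_cast; ring
  rw [hNdiff] at hT
  have hj' : |(j:ℝ)| ≤ K := by exact_mod_cast hj
  have hnn : 0 ≤ n0 + j := by
    have h1 := hNbig b hbI
    obtain ⟨h2, h3⟩ := abs_le.1 hj'
    have : (0:ℝ) ≤ ((n0 + j : ℤ) : ℝ) := by push_cast; linarith
    exact_mod_cast this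
  obtain ⟨n, hn⟩ := Int.eq_ofNat_of_zero_le hnn
  have hnR : (n0 + j : ℝ) = n := by exact_mod_cast hn
  rw [hnR] at hN
  have hphase : |Tf R r τ β - θ + m * (2 * Real.pi)| < 2 * ε1 := by
    have h1 := (hI' ξ hξ).2.2.2.1
    have h2 : Tf R r τ β - θ + m * (2 * Real.pi) =
        2 * j * (ξ - Real.tan ξ - κ) - (θ - Tf R r τ βc - j * (2 * κ) - m * (2 * Real.pi)) := by
      linear_combination hT
    rw [h2]
    have h3 : |2 * (j:ℝ) * (ξ - Real.tan ξ - κ)| ≤ ε1 := by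
      rw [abs_mul, abs_mul, abs_two]
      calc 2 * |(j:ℝ)| * |ξ - Real.tan ξ - κ| ≤ (2 * K + 1) * (ε1 / (2 * K + 1)) := by
            apply mul_le_mul _ h1.le (abs_nonneg _) (by positivity)
            linarith
        _ = ε1 := by field_simp
    calc |2 * (j:ℝ) * (ξ - Real.tan ξ - κ) - (θ - Tf R r τ βc - j * (2 * κ) - m * (2 * Real.pi))|
        ≤ |2 * (j:ℝ) * (ξ - Real.tan ξ - κ)| + |θ - Tf R r τ βc - j * (2 * κ) - m * (2 * Real.pi)| :=
          abs_sub _ _
      _ < ε1 + ε1 := by linarith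
      _ = 2 * ε1 := by ring
  have hGβ := hGood β hβ
  refine ⟨n, β, psf R r β, s, hGβ.sin_pos, cos_psf hr hR hGβ, hs0.le, (hI' β hβ).2.2.1.le, ?_, ?_⟩
  · rw [sin_psf hr hR hGβ, ← hN]
    unfold Nf
    have := hGβ.sin_pos
    field_simp
    rw [hτ]
    ring
  · have hTf : psf R r β + (2 * (n:ℝ) + 1) * β = Tf R r τ β := by
      unfold Tf
      rw [hN]
    rw [hTf]
    have hAβ : (R : ℂ) + s * Complex.I * ee β = A + s * Complex.I * (ee β - ee β₀) := by
      rw [hA]; ring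
    rw [hAβ, ← hθA]
    have h1 : ee (Tf R r τ β) * (A + s * Complex.I * (ee β - ee β₀)) - ee θ * A =
        (ee (Tf R r τ β) - ee θ) * A + ee (Tf R r τ β) * (s * Complex.I * (ee β - ee β₀)) := by ring
    rw [h1]
    have h2 : ‖ee (Tf R r τ β) - ee θ‖ ≤ 2 * ε1 := by
      rw [← ee_int (Tf R r τ β) m]
      refine (ee_sub_le _ _).trans ?_
      have : Tf R r τ β + m * (2 * Real.pi) - θ = Tf R r τ β - θ + m * (2 * Real.pi) := by ring
      rw [this]
      exact hphase.le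
    have h3 : ‖ee (Tf R r τ β) * (s * Complex.I * (ee β - ee β₀))‖ < ε / 4 := by
      rw [norm_mul, ee_norm, one_mul, norm_mul, norm_mul, Complex.norm_I, mul_one,
        Complex.norm_real, Real.norm_eq_abs, abs_of_pos hs0]
      exact (hI' β hβ).2.2.2.2
    calc ‖(ee (Tf R r τ β) - ee θ) * A + ee (Tf R r τ β) * (s * Complex.I * (ee β - ee β₀))‖
        ≤ ‖(ee (Tf R r τ β) - ee θ) * A‖ + ‖ee (Tf R r τ β) * (s * Complex.I * (ee β - ee β₀))‖ :=
          norm_add_le _ _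
      _ < 2 * ε1 * R + ε / 4 := by
        have : ‖(ee (Tf R r τ β) - ee θ) * A‖ ≤ 2 * ε1 * R := by
          rw [norm_mul, hAnorm]
          exact mul_le_mul h2 hqR.le hq0.le (by positivity)
        linarith
      _ ≤ ε := by
        rw [hε1]
        have : 2 * (ε / (4 * R)) * R = ε / 2 := by field_simp; norm_num
        rw [this]
        linarith

end Q66.Fronts
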