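import Pool.Agent.Q66.FrB

set_option autoImplicit false
open Set Filter Topology
open scoped RealInnerProductSpace ContDiff

namespace Q66.Fronts

variable {E : Type*} [NormedAddCommGroup E] [InnerProductSpace ℝ E]

/-- planes -/
noncomputable def planeL {e1 e2 : E} (h1 : ‖e1‖ = 1) (h2 : ‖e2‖ = 1) (h : ⟪e1, e2⟫ = 0) : ℂ →ₗᵢ[ℝ] E where
  toFun z := z.re • e1 + z.im • e2
  map_add' x y := by
    simp only [Complex.add_re, Complex.add_im, add_smul]
    abel
  map_smul' r x := by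
    simp only [Complex.real_smul, Complex.mul_re, Complex.mul_im, Complex.ofReal_re,
      Complex.ofReal_im, zero_mul, sub_zero, add_zero, RingHom.id_apply, smul_add, smul_smul]
  norm_map' z := by
    have h3 : ‖z.re • e1 + z.im • e2‖ ^ 2 = ‖z‖ ^ 2 := by
      rw [norm_add_sq_real, norm_smul, norm_smul, h1, h2, inner_smul_left, inner_smul_right, h,
        Complex.sq_norm, Complex.normSq_apply]
      simp
      ring
    exact (sq_eq_sq₀ (norm_nonneg _) (norm_nonneg _)).1 h3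

lemma planeL_apply {e1 e2 : E} (h1 : ‖e1‖ = 1) (h2 : ‖e2‖ = 1) (h : ⟪e1, e2⟫ = 0) (z : ℂ) :
    planeL h1 h2 h z = z.re • e1 + z.im • e2 := rfl

lemma exists_orth (hE : 2 ≤ Module.finrank ℝ E) (e1 : E) :
    ∃ e2 : E, ‖e2‖ = 1 ∧ ⟪e1, e2⟫ = 0 := by
  have : FiniteDimensional ℝ E := Module.finite_of_finrank_pos (by omega)
  have h2 : (Submodule.span ℝ {e1})ᗮ ≠ ⊥ := by
    intro h
    have h3 := Submodule.finrank_add_finrank_orthogonal (Submodule.span ℝ {e1})
    rw [h, finrank_bot] at h3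
    have h4 : Module.finrank ℝ (Submodule.span ℝ {e1}) ≤ 1 := by
      have := finrank_span_le_card (R := ℝ) ({e1} : Set E)
      simpa using this
    omega
  obtain ⟨w, hw, hw0⟩ := Submodule.exists_mem_ne_zero_of_ne_bot h2
  refine ⟨‖w‖⁻¹ • w, ?_, ?_⟩
  · rw [norm_smul, norm_inv, norm_norm, inv_mul_cancel₀ (norm_ne_zero_iff.2 hw0)]
  · rw [inner_smul_right]
    have := (Submodule.mem_orthogonal _ _).1 hw e1 (Submodule.mem_span_singleton_self e1)
    rw [this, mul_zero]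

lemma exists_plane (hE : 2 ≤ Module.finrank ℝ E) {p w : E} (hp : p ≠ 0) :
    ∃ (L : ℂ →ₗᵢ[ℝ] E) (q : ℂ), L (‖p‖ : ℂ) = p ∧ L q = w := by
  set e1 : E := ‖p‖⁻¹ • p with he1
  have hn : ‖p‖ ≠ 0 := norm_ne_zero_iff.2 hp
  have h1 : ‖e1‖ = 1 := by rw [he1, norm_smul, norm_inv, norm_norm, inv_mul_cancel₀ hn]
  have hpe : ‖p‖ • e1 = p := by rw [he1, smul_smul, mul_inv_cancel₀ hn, one_smul]
  have key : ∃ (e2 : E) (a b : ℝ), ‖e2‖ = 1 ∧ ⟪e1, e2⟫ = 0 ∧ w = a • e1 + b • e2 := by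
    by_cases hw : w - ⟪e1, w⟫ • e1 = 0
    · obtain ⟨e2, h2, h3⟩ := exists_orth hE e1
      exact ⟨e2, ⟪e1, w⟫, 0, h2, h3, by rw [zero_smul, add_zero]; exact sub_eq_zero.1 hw⟩
    · have hw' : ‖w - ⟪e1, w⟫ • e1‖ ≠ 0 := norm_ne_zero_iff.2 hw
      refine ⟨‖w - ⟪e1, w⟫ • e1‖⁻¹ • (w - ⟪e1, w⟫ • e1), ⟪e1, w⟫, ‖w - ⟪e1, w⟫ • e1‖, ?_, ?_, ?_⟩
      · rw [norm_smul, norm_inv, norm_norm, inv_mul_cancel₀ hw']
      · rw [inner_smul_right, inner_sub_right, inner_smul_right, real_inner_self_eq_norm_sq, h1]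
        simp
      · have h5 := smul_inv_smul₀ hw' (w - ⟪e1, w⟫ • e1)
        rw [h5]
        abel
  obtain ⟨e2, a, b, h2, h3, h4⟩ := key
  refine ⟨planeL h1 h2 h3, ⟨a, b⟩, ?_, ?_⟩
  · rw [planeL_apply]
    simp [hpe]
  · rw [planeL_apply, h4]

theorem ball_dense (hE : 2 ≤ Module.finrank ℝ E) {c P : E} {R : ℝ} (hP : P ∈ Metric.ball c R)
    (hPc : P ≠ c) : FrontsBecomeDense (Metric.ball c R) P := by
  intro U hU hne
  have : Nontrivial E := Module.nontrivial_of_finrank_pos (R := ℝ) (by omega)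
  have hnb : (𝓝[≠] c).NeBot := Module.punctured_nhds_neBot ℝ E c
  obtain ⟨y, ⟨hyU, hyB⟩, hyc⟩ := (dense_compl_singleton c).inter_open_nonempty _
    (hU.inter Metric.isOpen_ball) hne
  have hyc' : y ≠ c := hyc
  obtain ⟨ε, hε, hball⟩ := Metric.isOpen_iff.1 hU y hyU
  have hp0 : P - c ≠ 0 := sub_ne_zero.2 hPc
  obtain ⟨L, q, hL1, hL2⟩ := exists_plane hE (p := P - c) (w := y - c) hp0
  have hr : 0 < ‖P - c‖ := norm_pos_iff.2 hp0
  have hrR : ‖P - c‖ < R := by rwa [← dist_eq_norm]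
  have hR : 0 < R := hr.trans hrR
  have hq : ‖q‖ = ‖y - c‖ := by rw [← hL2, L.norm_map]
  have hq0 : 0 < ‖q‖ := by rw [hq]; exact norm_pos_iff.2 (sub_ne_zero.2 hyc')
  have hqR : ‖q‖ < R := by rw [hq, ← dist_eq_norm]; exact hyB
  obtain ⟨T, hT⟩ := plane hR hr hrR hq0 hqR hε
  refine ⟨T, fun t ht => ?_⟩
  obtain ⟨n, β, ψ, s, h1, h2, h3, h4, h5, h6⟩ := hT t ht
  have h7 := mem_front L c hR hr hrR h1 h2 n h3 h4
  rw [h5, hL1, add_sub_cancel] at h7
  refine ⟨_, h7, hball ?_⟩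
  rw [Metric.mem_ball, dist_eq_norm]
  have h8 : y = c + L q := by rw [hL2]; abel
  rw [h8, add_sub_add_left_eq_sub, ← map_sub, L.norm_map]
  exact h6

/-! ### The centre -/

lemma normal_unique {c p ν : E} {R : ℝ} (hR : 0 < R) (hp : ‖p - c‖ = R)
    (h : IsNormal (Metric.ball c R) p ν) : ν = R⁻¹ • (p - c) := by
  obtain ⟨hν, ρ, hρ, hρ0, hloc, k, hk, hd⟩ := h
  set n := R⁻¹ • (p - c) with hn
  have hn1 : ‖n‖ = 1 := by
    rw [hn, norm_smul, norm_inv, Real.norm_eq_abs, abs_of_pos hR, hp, inv_mul_cancel₀ hR.ne']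
  -- inward directions
  have key : ∀ w : E, ⟪n, w⟫ < 0 → ⟪ν, w⟫ ≤ 0 := by
    intro w hw
    have hdiff : DifferentiableAt ℝ ρ p := hρ.differentiableAt (by simp)
    have h1 : HasDerivAt (fun t : ℝ => ρ (p + t • w)) (k * ⟪ν, w⟫) 0 := by
      have h2 : HasDerivAt (fun t : ℝ => p + t • w) w 0 := by
        simpa using ((hasDerivAt_id (0:ℝ)).smul_const w).const_add p
      have h3 : HasFDerivAt ρ (fderiv ℝ ρ p) (p + (0:ℝ) • w) := by
        rw [zero_smul, add_zero]; exact hdiff.hasFDerivAt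
      have h4 := h3.comp_hasDerivAt (0:ℝ) h2
      rw [hd] at h4
      exact h4
    have hcont : Tendsto (fun t : ℝ => p + t • w) (𝓝 0) (𝓝 p) := by
      have : Continuous fun t : ℝ => p + t • w := by fun_prop
      simpa using this.tendsto 0
    have e1 := hcont.eventually hloc
    have e2 : ∀ᶠ t in 𝓝[>] (0:ℝ), p + t • w ∈ Metric.ball c R := by
      have e3 : ∀ᶠ t in 𝓝 (0:ℝ), 2 * R * ⟪n, w⟫ + t * ‖w‖ ^ 2 < 0 := by
        have h5 : Continuous fun t : ℝ => 2 * R * ⟪n, w⟫ + t * ‖w‖ ^ 2 := by fun_prop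
        refine h5.continuousAt.eventually (gt_mem_nhds ?_)
        have : 2 * R * ⟪n, w⟫ < 0 := mul_neg_of_pos_of_neg (by positivity) hw
        simpa using this
      filter_upwards [e3.filter_mono nhdsWithin_le_nhds, self_mem_nhdsWithin] with t ht ht0
      have ht0' : 0 < t := ht0
      rw [Metric.mem_ball, dist_eq_norm]
      have h6 : ‖p + t • w - c‖ ^ 2 < R ^ 2 := by
        have h7 : p + t • w - c = (p - c) + t • w := by abel
        have h8 : p - c = R • n := by rw [hn, smul_smul, mul_inv_cancel₀ hR.ne', one_smul]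
        rw [h7, norm_add_sq_real, hp, h8, norm_smul, inner_smul_left, inner_smul_right,
          Real.norm_eq_abs, abs_of_pos ht0']
        simp only [conj_trivial]
        nlinarith
      exact (sq_lt_sq₀ (norm_nonneg _) hR.le).1 h6
    by_contra hcon
    push Not at hcon
    have hpos : 0 < k * ⟪ν, w⟫ := mul_pos hk hcon
    have e4 : ∀ᶠ t in 𝓝[>] (0:ℝ), 0 < ρ (p + t • w) := by
      have h9 := (hasDerivAt_iff_tendsto_slope_zero.1 h1).mono_left
        (nhdsWithin_mono 0 (fun x (hx : (0:ℝ) < x) => hx.ne' : Ioi (0:ℝ) ⊆ {0}ᶜ))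
      filter_upwards [h9.eventually (lt_mem_nhds hpos), self_mem_nhdsWithin] with t ht ht0
      have ht0' : 0 < t := ht0
      simp only [zero_add, zero_smul, add_zero, hρ0, sub_zero, smul_eq_mul] at ht
      exact (pos_iff_pos_of_mul_pos ht).1 (inv_pos.2 ht0')
    obtain ⟨t, ht1, ht2, ht3⟩ := ((e1.filter_mono (nhdsWithin_le_nhds (s := Ioi (0:ℝ)))).and
      (e2.and e4)).exists
    exact absurd (ht1.1 ht2) (not_lt.2 ht3.le)
  have h1 : 0 ≤ ⟪ν, n⟫ := by
    have := key (-n) (by rw [inner_neg_right, real_inner_self_eq_norm_sq, hn1]; norm_num)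
    rw [inner_neg_right] at this
    linarith
  have h2 : 1 ≤ ⟪ν, n⟫ := by
    by_contra hcon
    push Not at hcon
    set a := ⟪ν, n⟫ with ha
    have h3 := key (ν - (a + (1 - a) / 2) • n) (by
      rw [inner_sub_right, inner_smul_right, real_inner_self_eq_norm_sq, hn1, real_inner_comm, ← ha]
      linarith)
    rw [inner_sub_right, inner_smul_right, real_inner_self_eq_norm_sq, hν, ← ha] at h3
    nlinarith
  have h4 : ‖ν - n‖ ^ 2 ≤ 0 := by
    rw [norm_sub_sq_real, hν, hn1]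
    linarith
  have h5 : ‖ν - n‖ = 0 := by nlinarith [norm_nonneg (ν - n)]
  exact sub_eq_zero.1 (norm_eq_zero.1 h5)

lemma normal_frontier {Ω : Set E} {p ν : E} (h : IsNormal Ω p ν) : p ∉ Ω := by
  obtain ⟨-, ρ, -, hρ0, hloc, -⟩ := h
  intro hp
  have := hloc.self_of_nhds.1 hp
  rw [hρ0] at this
  exact lt_irrefl _ this

lemma fly_le {c u : E} {R s d : ℝ} (hs : 0 < s) (hu : ‖u‖ = 1) (hd : 0 ≤ d) (hdR : d ≤ R)
    (h : ∀ r ∈ Ioo 0 s, c - d • u + r • u ∈ Metric.ball c R) : s ≤ R + d := by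
  by_contra hcon
  push Not at hcon
  have h1 := h ((R + d + s) / 2 ) ⟨by linarith, by linarith⟩
  rw [Metric.mem_ball, dist_eq_norm] at h1
  have h2 : c - d • u + ((R + d + s) / 2) • u - c = ((R + d + s) / 2 - d) • u := by
    rw [sub_smul]; abel
  rw [h2, norm_smul, hu, mul_one, Real.norm_eq_abs, abs_of_pos (by linarith)] at h1
  linarith

lemma centre_bounce {c v : E} {R : ℝ} (hR : 0 < R) (hv : ‖v‖ = 1) {t : ℝ} {x u : E}
    (h : Bounce (Metric.ball c R) c v t x u) : (t = 0 ∧ x = c ∧ u = v) ∨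
      ∃ k : ℕ, t = (2 * k + 1) * R ∧ x = c - R • u ∧ ‖u‖ = 1 := by
  -- a flight of the ray from distance `d` behind the centre
  have step : ∀ (d s : ℝ) (u ν : E), ‖u‖ = 1 → 0 ≤ d → d ≤ R → (d = 0 ∨ d = R) → 0 < s →
      (∀ r ∈ Ioo 0 s, c - d • u + r • u ∈ Metric.ball c R) →
      IsNormal (Metric.ball c R) (c - d • u + s • u) ν →
      s = R + d ∧ c - d • u + s • u = c - R • (u - (2 * ⟪u, ν⟫) • ν) ∧
        ‖u - (2 * ⟪u, ν⟫) • ν‖ = 1 := by
    intro d s u ν hu hd0 hdR hd hs hfree hν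
    have h1 := fly_le hs hu hd0 hdR hfree
    have h2 := normal_frontier hν
    have h3 : s = R + d := by
      refine le_antisymm h1 ?_
      by_contra hcon
      push Not at hcon
      apply h2
      rw [Metric.mem_ball, dist_eq_norm]
      have h4 : c - d • u + s • u - c = (s - d) • u := by rw [sub_smul]; abel
      rw [h4, norm_smul, hu, mul_one, Real.norm_eq_abs, abs_lt]
      rcases hd with rfl | rfl
      · exact ⟨by linarith, by linarith⟩
      · exact ⟨by linarith, by linarith⟩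
    have h5 : c - d • u + s • u = c + R • u := by
      rw [h3, add_smul]; abel
    rw [h5] at hν ⊢
    have h6 : ν = u := by
      rw [normal_unique hR (by rw [add_sub_cancel_left, norm_smul, hu, mul_one, Real.norm_eq_abs,
        abs_of_pos hR]) hν, add_sub_cancel_left, smul_smul, inv_mul_cancel₀ hR.ne', one_smul]
    have h7 : u - (2 * ⟪u, ν⟫) • ν = -u := by
      rw [h6, real_inner_self_eq_norm_sq, hu]
      norm_num
      rw [two_smul]
      abel
    refine ⟨h3, ?_, ?_⟩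
    · rw [h7, smul_neg, sub_neg_eq_add]
    · rw [h7, norm_neg, hu]
  induction h with
  | start => exact Or.inl ⟨rfl, rfl, rfl⟩
  | @hit t s x u ν hb hs hfree hν hpos ih =>
    right
    rcases ih with ⟨rfl, rfl, rfl⟩ | ⟨k, rfl, rfl, hu⟩
    · obtain ⟨h1, h2, h3⟩ := step 0 s u ν hv le_rfl hR.le (Or.inl rfl) hs
        (fun r hr => by rw [zero_smul, sub_zero]; exact hfree r hr)
        (by rw [zero_smul, sub_zero]; exact hν)
      rw [zero_smul, sub_zero] at h2
      exact ⟨0, by rw [h1]; simp, h2, h3⟩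
    · obtain ⟨h1, h2, h3⟩ := step R s u ν hu hR.le le_rfl (Or.inr rfl) hs hfree hν
      exact ⟨k + 1, by rw [h1]; push_cast; ring, h2, h3⟩

theorem centre_not_dense {c : E} [Nontrivial E] {R : ℝ} (hR : 0 < R) :
    ¬ FrontsBecomeDense (Metric.ball c R) c := by
  intro h
  obtain ⟨T, hT⟩ := h (Metric.ball c R) Metric.isOpen_ball ⟨c, Metric.mem_ball_self hR,
    Metric.mem_ball_self hR⟩
  obtain ⟨k, hk⟩ := exists_nat_ge (T / R)
  rw [div_le_iff₀ hR] at hk
  obtain ⟨q, ⟨v, t₀, s, x, u, hv, hb, hs, hts, hfree, rfl⟩, hq⟩ := hT ((2 * k + 1) * R) (by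
    have : (0:ℝ) ≤ k := Nat.cast_nonneg k
    nlinarith)
  rw [Metric.mem_ball, dist_eq_norm] at hq
  rcases centre_bounce hR hv hb with ⟨rfl, rfl, rfl⟩ | ⟨m, rfl, rfl, hu⟩
  · have hs' : s = (2 * k + 1) * R := by linarith
    have hs0 : 0 < s := by rw [hs']; positivity
    have h1 := fly_le (d := 0) hs0 hv le_rfl hR.le
      (fun r hr => by rw [zero_smul, sub_zero]; exact hfree r hr)
    rw [add_sub_cancel_left, norm_smul, hv, mul_one, Real.norm_eq_abs, abs_of_pos hs0, hs'] at hq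
    have : (0:ℝ) ≤ k := Nat.cast_nonneg k
    nlinarith
  · rcases hs.eq_or_lt with h0 | hs0
    · rw [← h0, zero_smul, add_zero] at hq
      have : c - R • u - c = -(R • u) := by abel
      rw [this, norm_neg, norm_smul, hu, mul_one, Real.norm_eq_abs, abs_of_pos hR] at hq
      exact lt_irrefl _ hq
    · have h1 := fly_le hs0 hu hR.le le_rfl hfree
      -- `s` is a positive even multiple of `R`, hence `2 R`
      have h2 : s = 2 * ((k:ℝ) - m) * R := by linarith
      have h3 : (0:ℝ) < (k:ℝ) - m := by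
        by_contra hcon
        push Not at hcon
        nlinarith
      have h4 : (1:ℝ) ≤ (k:ℝ) - m := by
        have h5 : m < k := by
          have : (m:ℝ) < k := by linarith
          exact_mod_cast this
        have h6 : (m:ℝ) + 1 ≤ k := by exact_mod_cast h5
        linarith
      have h5 : s = 2 * R := by
        refine le_antisymm (by linarith) ?_
        rw [h2]
        nlinarith
      have h6 : c - R • u + s • u - c = R • u := by
        rw [h5, two_mul, add_smul]; abel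
      rw [h6, norm_smul, hu, mul_one, Real.norm_eq_abs, abs_of_pos hR] at hq
      exact lt_irrefl _ hq

end Q66.Fronts
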