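import Mathlib

set_option autoImplicit false
open Set Filter Topology
open scoped RealInnerProductSpace ContDiff

namespace Q66.Fronts

variable {E : Type*} [NormedAddCommGroup E] [InnerProductSpace ℝ E]

/-- `ν` is the outward unit normal of the domain `Ω` at the boundary point `p`: near `p`, the domain
is given by `ρ < 0` for a smooth function `ρ` with `ρ p = 0`, and the gradient of `ρ` at `p` is a
positive multiple of the unit vector `ν`. -/
def IsNormal (Ω : Set E) (p ν : E) : Prop :=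
  ‖ν‖ = 1 ∧ ∃ ρ : E → ℝ, ContDiffAt ℝ ∞ ρ p ∧ ρ p = 0 ∧ (∀ᶠ y in 𝓝 p, y ∈ Ω ↔ ρ y < 0) ∧
    ∃ c > 0, ∀ w, fderiv ℝ ρ p w = c * ⟪ν, w⟫

/-- `Bounce Ω P v t x u`: the photon that starts at `P` with velocity `v` and is reflected optically
at the boundary of `Ω` has at time `t` just left the point `x` with velocity `u` (either `t = 0`, or
it was reflected at `x` at time `t`). Between the reflections the photon flies straight inside `Ω`,
and it hits the boundary transversally. -/
inductive Bounce (Ω : Set E) (P v : E) : ℝ → E → E → Prop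
  | start : Bounce Ω P v 0 P v
  | hit {t s : ℝ} {x u ν : E} : Bounce Ω P v t x u → 0 < s → (∀ r ∈ Ioo 0 s, x + r • u ∈ Ω) →
      IsNormal Ω (x + s • u) ν → 0 < ⟪u, ν⟫ →
      Bounce Ω P v (t + s) (x + s • u) (u - (2 * ⟪u, ν⟫) • ν)

/-- The front `F_t(P)`: the positions at time `t` of the photons that start at `P` at time `0` with
some unit velocity `v`. -/
def Front (Ω : Set E) (P : E) (t : ℝ) : Set E :=
  {q | ∃ (v : E) (t₀ s : ℝ) (x u : E), ‖v‖ = 1 ∧ Bounce Ω P v t₀ x u ∧ 0 ≤ s ∧ t₀ + s = t ∧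
    (∀ r ∈ Ioo 0 s, x + r • u ∈ Ω) ∧ q = x + s • u}

/-- The fronts `F_t(P)` become dense in `Ω` as `t → ∞`: every nonempty open subset of `Ω` meets
`F_t(P)` for all sufficiently large `t`. -/
def FrontsBecomeDense (Ω : Set E) (P : E) : Prop :=
  ∀ U : Set E, IsOpen U → (U ∩ Ω).Nonempty → ∃ T : ℝ, ∀ t ≥ T, (Front Ω P t ∩ U).Nonempty

end Q66.Fronts
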