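import Mathlib

/-!
# Nonlinear solutions of `φ (∑ j < k², φ (x - j)) = x` (problem MP_39cb5d_an)

`G y = y / k² + c₀ + ε sin (2 π y / k²)`; `W` is the homeomorphism with `W (z + 1) = W z + 1` and
`G (W (k² z)) = W z`; the solution is `φ = W ∘ (· / k) ∘ W⁻¹`.
-/

set_option autoImplicit false

open Real Filter Topology

namespace Q66.GL

noncomputable def c0 (k : ℕ) : ℝ := ((k : ℝ) ^ 2 - 1) / (2 * k)

noncomputable def G (k : ℕ) (ε : ℝ) (y : ℝ) : ℝ :=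
  y / (k : ℝ) ^ 2 + c0 k + ε * sin (2 * π * y / (k : ℝ) ^ 2)

section
variable {k : ℕ} {ε : ℝ}

theorem G_add (hk : 2 ≤ k) (y : ℝ) (m : ℕ) :
    G k ε (y + (k : ℝ) ^ 2 * m) = G k ε y + m := by
  have hk0 : (k : ℝ) ≠ 0 := by positivity
  unfold G
  have h1 : 2 * π * (y + (k : ℝ) ^ 2 * m) / (k : ℝ) ^ 2
      = 2 * π * y / (k : ℝ) ^ 2 + (m : ℕ) * (2 * π) := by
    field_simp
  rw [h1, Real.sin_add_nat_mul_two_pi]
  field_simp
  ring

theorem sin_diff (hk : 2 ≤ k) (x y : ℝ) :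
    |sin (2 * π * x / (k : ℝ) ^ 2) - sin (2 * π * y / (k : ℝ) ^ 2)| ≤
      6.3 * |x - y| / (k : ℝ) ^ 2 := by
  have hk0 : (0 : ℝ) < (k : ℝ) ^ 2 := by positivity
  have h := Real.abs_sin_sub_sin_le (2 * π * x / (k : ℝ) ^ 2) (2 * π * y / (k : ℝ) ^ 2)
  refine h.trans ?_
  have h2 : 2 * π * x / (k : ℝ) ^ 2 - 2 * π * y / (k : ℝ) ^ 2
      = (2 * π) * (x - y) / (k : ℝ) ^ 2 := by ring
  rw [h2, abs_div, abs_mul, abs_of_pos hk0, abs_of_pos (by positivity : (0:ℝ) < 2 * π)]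
  have := Real.pi_lt_d2
  gcongr
  linarith

theorem G_mono (hk : 2 ≤ k) (h0 : 0 ≤ ε) (h1 : ε ≤ 1 / 10) : StrictMono (G k ε) := by
  intro x y hxy
  have hk0 : (0 : ℝ) < (k : ℝ) ^ 2 := by positivity
  have h := sin_diff (k := k) hk x y
  unfold G
  have h2 := abs_le.1 h
  have h3 : |x - y| = y - x := by rw [abs_sub_comm]; exact abs_of_pos (by linarith)
  rw [h3] at h2
  have h4 : ε * (sin (2 * π * x / (k : ℝ) ^ 2) - sin (2 * π * y / (k : ℝ) ^ 2)) ≤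
      0.63 * ((y - x) / (k : ℝ) ^ 2) := by
    have h5 : 6.3 * (y - x) / (k : ℝ) ^ 2 = 6.3 * ((y - x) / (k : ℝ) ^ 2) := by ring
    rw [h5] at h2
    have h6 : 0 ≤ (y - x) / (k : ℝ) ^ 2 := div_nonneg (by linarith) hk0.le
    calc ε * (sin (2 * π * x / (k : ℝ) ^ 2) - sin (2 * π * y / (k : ℝ) ^ 2))
        ≤ ε * (6.3 * ((y - x) / (k : ℝ) ^ 2)) := by
          apply mul_le_mul_of_nonneg_left h2.2 h0
      _ ≤ 1 / 10 * (6.3 * ((y - x) / (k : ℝ) ^ 2)) := by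
          apply mul_le_mul_of_nonneg_right h1 (by positivity)
      _ = 0.63 * ((y - x) / (k : ℝ) ^ 2) := by ring
  have h7 : 0 < (y - x) / (k : ℝ) ^ 2 := div_pos (by linarith) hk0
  have h8 : y / (k : ℝ) ^ 2 = x / (k : ℝ) ^ 2 + (y - x) / (k : ℝ) ^ 2 := by ring
  rw [h8]
  linarith

theorem G_lip (hk : 2 ≤ k) (h0 : 0 ≤ ε) (h1 : ε ≤ 1 / 10) (x y : ℝ) :
    |G k ε x - G k ε y| ≤ 1 / 2 * |x - y| := by
  have hk0 : (0 : ℝ) < (k : ℝ) ^ 2 := by positivity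
  have hk4 : (4 : ℝ) ≤ (k : ℝ) ^ 2 := by
    have : (2 : ℝ) ≤ k := by exact_mod_cast hk
    nlinarith
  have h := sin_diff (k := k) hk x y
  have e1 : G k ε x - G k ε y = (x - y) / (k : ℝ) ^ 2
      + ε * (sin (2 * π * x / (k : ℝ) ^ 2) - sin (2 * π * y / (k : ℝ) ^ 2)) := by
    unfold G; ring
  rw [e1]
  have h2 : |(x - y) / (k : ℝ) ^ 2| = |x - y| / (k : ℝ) ^ 2 := by
    rw [abs_div, abs_of_pos hk0]
  have h3 : |ε * (sin (2 * π * x / (k : ℝ) ^ 2) - sin (2 * π * y / (k : ℝ) ^ 2))| ≤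
      1 / 10 * (6.3 * |x - y| / (k : ℝ) ^ 2) := by
    rw [abs_mul, abs_of_nonneg h0]
    exact mul_le_mul h1 h (abs_nonneg _) (by norm_num)
  have h4 : |x - y| / (k : ℝ) ^ 2 ≤ |x - y| / 4 := by
    apply div_le_div_of_nonneg_left (abs_nonneg _) (by norm_num) hk4
  calc |(x - y) / (k : ℝ) ^ 2
      + ε * (sin (2 * π * x / (k : ℝ) ^ 2) - sin (2 * π * y / (k : ℝ) ^ 2))|
      ≤ |(x - y) / (k : ℝ) ^ 2|
        + |ε * (sin (2 * π * x / (k : ℝ) ^ 2) - sin (2 * π * y / (k : ℝ) ^ 2))| := abs_add_le _ _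
    _ ≤ |x - y| / (k : ℝ) ^ 2 + 1 / 10 * (6.3 * |x - y| / (k : ℝ) ^ 2) := by
        rw [h2]; linarith
    _ = 1.63 * (|x - y| / (k : ℝ) ^ 2) := by ring
    _ ≤ 1.63 * (|x - y| / 4) := by linarith
    _ ≤ 1 / 2 * |x - y| := by
        have := abs_nonneg (x - y); linarith

theorem G_cont : Continuous (G k ε) := by
  unfold G; fun_prop

theorem iter_lip (hk : 2 ≤ k) (h0 : 0 ≤ ε) (h1 : ε ≤ 1 / 10) (n : ℕ) (x y : ℝ) :
    |(G k ε)^[n] x - (G k ε)^[n] y| ≤ (1 / 2) ^ n * |x - y| := by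
  induction n with
  | zero => simp
  | succ n ih =>
    rw [Function.iterate_succ_apply', Function.iterate_succ_apply']
    refine (G_lip hk h0 h1 _ _).trans ?_
    rw [pow_succ]
    calc 1 / 2 * |(G k ε)^[n] x - (G k ε)^[n] y| ≤ 1 / 2 * ((1 / 2) ^ n * |x - y|) := by
          linarith
      _ = (1 / 2) ^ n * (1 / 2) * |x - y| := by ring

/-- the approximants of `W` -/
noncomputable def A (k : ℕ) (ε : ℝ) (n : ℕ) (z : ℝ) : ℝ := (G k ε)^[n] ((k : ℝ) ^ (2 * n) * z)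

noncomputable def C (k : ℕ) : ℝ := c0 k + 1

theorem c0_nonneg (hk : 2 ≤ k) : 0 ≤ c0 k := by
  unfold c0
  have : (2 : ℝ) ≤ k := by exact_mod_cast hk
  apply div_nonneg
  · nlinarith
  · positivity

theorem G_sub (hk : 2 ≤ k) (h0 : 0 ≤ ε) (h1 : ε ≤ 1 / 10) (w : ℝ) :
    |G k ε ((k : ℝ) ^ 2 * w) - w| ≤ C k := by
  have hk0 : (k : ℝ) ≠ 0 := by positivity
  unfold G
  have e1 : (k : ℝ) ^ 2 * w / (k : ℝ) ^ 2 = w := by field_simp
  rw [e1]
  have e2 : w + c0 k + ε * sin (2 * π * ((k : ℝ) ^ 2 * w) / (k : ℝ) ^ 2) - w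
      = c0 k + ε * sin (2 * π * ((k : ℝ) ^ 2 * w) / (k : ℝ) ^ 2) := by ring
  rw [e2]
  have hs := Real.abs_sin_le_one (2 * π * ((k : ℝ) ^ 2 * w) / (k : ℝ) ^ 2)
  refine (abs_add_le _ _).trans ?_
  rw [abs_of_nonneg (c0_nonneg hk), abs_mul, abs_of_nonneg h0]
  unfold C
  have : ε * |sin (2 * π * ((k : ℝ) ^ 2 * w) / (k : ℝ) ^ 2)| ≤ 1 := by
    have := mul_le_mul h1 hs (abs_nonneg _) (by norm_num)
    linarith
  linarith

theorem A_step (hk : 2 ≤ k) (h0 : 0 ≤ ε) (h1 : ε ≤ 1 / 10) (n : ℕ) (z : ℝ) :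
    dist (A k ε n z) (A k ε (n + 1) z) ≤ C k * (1 / 2) ^ n := by
  unfold A
  rw [Function.iterate_succ_apply, Real.dist_eq]
  have e1 : (k : ℝ) ^ (2 * (n + 1)) * z = (k : ℝ) ^ 2 * ((k : ℝ) ^ (2 * n) * z) := by ring
  rw [e1]
  refine (iter_lip hk h0 h1 n _ _).trans ?_
  rw [abs_sub_comm, mul_comm]
  exact mul_le_mul_of_nonneg_right (G_sub hk h0 h1 _) (by positivity)

theorem A_cauchy (hk : 2 ≤ k) (h0 : 0 ≤ ε) (h1 : ε ≤ 1 / 10) (z : ℝ) :
    CauchySeq (fun n => A k ε n z) :=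
  cauchySeq_of_le_geometric (1 / 2) (C k) (by norm_num) (fun n => A_step hk h0 h1 n z)

noncomputable def W (k : ℕ) (ε : ℝ) (z : ℝ) : ℝ := limUnder atTop (fun n => A k ε n z)

theorem W_tend (hk : 2 ≤ k) (h0 : 0 ≤ ε) (h1 : ε ≤ 1 / 10) (z : ℝ) :
    Tendsto (fun n => A k ε n z) atTop (𝓝 (W k ε z)) :=
  (A_cauchy hk h0 h1 z).tendsto_limUnder

theorem A_dist (hk : 2 ≤ k) (h0 : 0 ≤ ε) (h1 : ε ≤ 1 / 10) (n : ℕ) (z : ℝ) :
    dist (A k ε n z) (W k ε z) ≤ C k * (1 / 2) ^ n / (1 - 1 / 2) :=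
  dist_le_of_le_geometric_of_tendsto (1 / 2) (C k) (by norm_num) (fun n => A_step hk h0 h1 n z)
    (W_tend hk h0 h1 z) n

theorem A_cont (n : ℕ) : Continuous (A k ε n) := by
  unfold A
  exact (G_cont.iterate n).comp (by fun_prop)

theorem W_cont (hk : 2 ≤ k) (h0 : 0 ≤ ε) (h1 : ε ≤ 1 / 10) : Continuous (W k ε) := by
  have hu : TendstoUniformly (fun n z => A k ε n z) (W k ε) atTop := by
    rw [Metric.tendstoUniformly_iff]
    intro δ hδ
    have ht : Tendsto (fun n : ℕ => C k * (1 / 2 : ℝ) ^ n / (1 - 1 / 2)) atTop (𝓝 0) := by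
      have := (tendsto_pow_atTop_nhds_zero_of_lt_one (r := (1 / 2 : ℝ)) (by norm_num)
        (by norm_num)).const_mul (C k) |>.div_const (1 - 1 / 2 : ℝ)
      simpa using this
    filter_upwards [ht.eventually (gt_mem_nhds hδ)] with n hn z
    rw [dist_comm]
    exact (A_dist hk h0 h1 n z).trans_lt hn
  exact hu.continuous (Frequently.of_forall fun n => A_cont n)

theorem W_near (hk : 2 ≤ k) (h0 : 0 ≤ ε) (h1 : ε ≤ 1 / 10) (z : ℝ) :
    |z - W k ε z| ≤ 2 * C k := by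
  have h := A_dist (k := k) (ε := ε) hk h0 h1 0 z
  simp only [A, Function.iterate_zero, id, mul_zero, pow_zero, one_mul, mul_one] at h
  rw [Real.dist_eq] at h
  refine h.trans (le_of_eq ?_)
  ring

theorem iter_add (hk : 2 ≤ k) (n m : ℕ) (y : ℝ) :
    (G k ε)^[n] (y + (k : ℝ) ^ (2 * n) * m) = (G k ε)^[n] y + m := by
  induction n generalizing y with
  | zero => simp
  | succ n ih =>
    rw [Function.iterate_succ_apply, Function.iterate_succ_apply]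
    have e1 : y + (k : ℝ) ^ (2 * (n + 1)) * m
        = y + (k : ℝ) ^ 2 * ((k ^ (2 * n) * m : ℕ) : ℝ) := by
      push_cast; ring
    rw [e1, G_add hk]
    push_cast
    exact ih _

theorem W_add_one (hk : 2 ≤ k) (h0 : 0 ≤ ε) (h1 : ε ≤ 1 / 10) (z : ℝ) :
    W k ε (z + 1) = W k ε z + 1 := by
  refine tendsto_nhds_unique (W_tend hk h0 h1 (z + 1)) ?_
  have h := (W_tend hk h0 h1 z).add_const 1
  refine h.congr fun n => ?_
  unfold A
  have := iter_add (ε := ε) hk n 1 ((k : ℝ) ^ (2 * n) * z)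
  rw [Nat.cast_one, mul_one] at this
  rw [mul_add, mul_one, this]

theorem W_add_nat (hk : 2 ≤ k) (h0 : 0 ≤ ε) (h1 : ε ≤ 1 / 10) (z : ℝ) (m : ℕ) :
    W k ε (z + m) = W k ε z + m := by
  induction m with
  | zero => simp
  | succ m ih => push_cast; rw [← add_assoc, W_add_one hk h0 h1, ih, add_assoc]

theorem W_sub_nat (hk : 2 ≤ k) (h0 : 0 ≤ ε) (h1 : ε ≤ 1 / 10) (z : ℝ) (m : ℕ) :
    W k ε (z - m) = W k ε z - m := by
  have := W_add_nat hk h0 h1 (z - m) m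
  rw [sub_add_cancel] at this
  linarith

theorem W_scale (hk : 2 ≤ k) (h0 : 0 ≤ ε) (h1 : ε ≤ 1 / 10) (z : ℝ) :
    G k ε (W k ε ((k : ℝ) ^ 2 * z)) = W k ε z := by
  have h := (W_tend hk h0 h1 ((k : ℝ) ^ 2 * z))
  have h2 := (G_cont (k := k) (ε := ε)).continuousAt.tendsto.comp h
  refine tendsto_nhds_unique h2 ?_
  have h3 := (W_tend hk h0 h1 z).comp (tendsto_add_atTop_nat 1)
  refine h3.congr fun n => ?_
  simp only [Function.comp, A]
  rw [Function.iterate_succ_apply']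
  congr 2
  ring

theorem W_monotone (hk : 2 ≤ k) (h0 : 0 ≤ ε) (h1 : ε ≤ 1 / 10) : Monotone (W k ε) := by
  intro a b hab
  refine le_of_tendsto_of_tendsto' (W_tend hk h0 h1 a) (W_tend hk h0 h1 b) fun n => ?_
  unfold A
  apply ((G_mono hk h0 h1).monotone.iterate n)
  exact mul_le_mul_of_nonneg_left hab (by positivity)

theorem W_strict (hk : 2 ≤ k) (h0 : 0 ≤ ε) (h1 : ε ≤ 1 / 10) : StrictMono (W k ε) := by
  refine (W_monotone hk h0 h1).strictMono_of_injective fun a b hab => ?_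
  by_contra hne
  -- equality propagates to all `k ^ (2 n)` multiples
  have key : ∀ n : ℕ, W k ε ((k : ℝ) ^ (2 * n) * a) = W k ε ((k : ℝ) ^ (2 * n) * b) := by
    intro n
    induction n with
    | zero => simpa using hab
    | succ n ih =>
      apply (G_mono hk h0 h1).injective
      have e : ∀ c : ℝ, (k : ℝ) ^ (2 * (n + 1)) * c = (k : ℝ) ^ 2 * ((k : ℝ) ^ (2 * n) * c) := by
        intro c; ring
      rw [e, e, W_scale hk h0 h1, W_scale hk h0 h1, ih]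
  have hk4 : (1 : ℝ) < (k : ℝ) ^ 2 := by
    have : (2 : ℝ) ≤ k := by exact_mod_cast hk
    nlinarith
  have gen : ∀ a b : ℝ, a < b → (∀ n : ℕ, W k ε ((k : ℝ) ^ (2 * n) * a)
      = W k ε ((k : ℝ) ^ (2 * n) * b)) → False := by
    intro a b hab key
    obtain ⟨n, hn⟩ := pow_unbounded_of_one_lt (1 / (b - a)) hk4
    have h1' : 1 < (k : ℝ) ^ (2 * n) * (b - a) := by
      rw [pow_mul]
      rwa [div_lt_iff₀ (by linarith)] at hn
    have h2 := W_monotone hk h0 h1 (show (k : ℝ) ^ (2 * n) * a + 1 ≤ (k : ℝ) ^ (2 * n) * b by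
      nlinarith)
    rw [W_add_one hk h0 h1, ← key n] at h2
    linarith
  rcases lt_or_gt_of_ne hne with h | h
  · exact gen a b h key
  · exact gen b a h fun n => (key n).symm

theorem W_surj (hk : 2 ≤ k) (h0 : 0 ≤ ε) (h1 : ε ≤ 1 / 10) : Function.Surjective (W k ε) := by
  have hn := W_near (k := k) (ε := ε) hk h0 h1
  refine (W_cont hk h0 h1).surjective ?_ ?_
  · refine tendsto_atTop_mono (f := fun z => z - 2 * C k) (fun z => ?_) ?_
    · have := (abs_le.1 (hn z)).2; linarith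
    · exact tendsto_atTop_add_const_right _ _ tendsto_id
  · refine tendsto_atBot_mono (fun z => (?_ : W k ε z ≤ z + 2 * C k)) ?_
    · have := (abs_le.1 (hn z)).1; linarith
    · exact tendsto_atBot_add_const_right _ _ tendsto_id

/-- the sum of the sines vanishes -/
theorem sin_sum (hk : 2 ≤ k) (θ : ℝ) :
    ∑ j ∈ Finset.range (k ^ 2), sin (θ - 2 * π * j / k) = 0 := by
  have hk0 : (0 : ℝ) < k := by positivity
  have hk2 : (2 : ℝ) ≤ k := by exact_mod_cast hk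
  have hs : 0 < sin (π / k) := by
    apply Real.sin_pos_of_pos_of_lt_pi
    · positivity
    · rw [div_lt_iff₀ hk0]; nlinarith [Real.pi_pos]
  have tel : ∀ j : ℕ, 2 * sin (π / k) * sin (θ - 2 * π * j / k)
      = cos (θ + π / k - 2 * π * (j + 1 : ℕ) / k) - cos (θ + π / k - 2 * π * j / k) := by
    intro j
    have e1 : θ + π / k - 2 * π * (j + 1 : ℕ) / k = (θ - 2 * π * j / k) - π / k := by
      push_cast; ring
    have e2 : θ + π / k - 2 * π * j / k = (θ - 2 * π * j / k) + π / k := by ring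
    rw [e1, e2, Real.cos_sub, Real.cos_add]
    ring
  have hsum : 2 * sin (π / k) * ∑ j ∈ Finset.range (k ^ 2), sin (θ - 2 * π * j / k) = 0 := by
    rw [Finset.mul_sum, Finset.sum_congr rfl fun j _ => tel j,
      Finset.sum_range_sub (fun j : ℕ => cos (θ + π / k - 2 * π * j / k))]
    have e3 : θ + π / k - 2 * π * ((k ^ 2 : ℕ) : ℝ) / k = θ + π / k - (k : ℕ) * (2 * π) := by
      push_cast; field_simp
    rw [e3, Real.cos_sub_nat_mul_two_pi]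
    simp
  rcases mul_eq_zero.1 hsum with h | h
  · linarith [h]
  · exact h

theorem G_sum (hk : 2 ≤ k) (y : ℝ) :
    ∑ j ∈ Finset.range (k ^ 2), G k ε (y - k * j) = y := by
  have hk0 : (k : ℝ) ≠ 0 := by positivity
  unfold G
  rw [Finset.sum_add_distrib, Finset.sum_add_distrib, ← Finset.mul_sum]
  have e1 : ∀ j : ℕ, 2 * π * (y - k * j) / (k : ℝ) ^ 2 = 2 * π * y / (k : ℝ) ^ 2 - 2 * π * j / k := by
    intro j; field_simp
  have e0 : ∑ j ∈ Finset.range (k ^ 2), sin (2 * π * (y - k * j) / (k : ℝ) ^ 2) = 0 := by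
    rw [← sin_sum hk (2 * π * y / (k : ℝ) ^ 2)]
    exact Finset.sum_congr rfl fun j _ => by rw [e1 j]
  rw [e0]
  have e2 : ∑ j ∈ Finset.range (k ^ 2), (y - (k : ℝ) * j) / (k : ℝ) ^ 2
      = y - (k : ℝ) * (∑ j ∈ Finset.range (k ^ 2), (j : ℝ)) / (k : ℝ) ^ 2 := by
    rw [← Finset.sum_div, Finset.sum_sub_distrib, ← Finset.mul_sum]
    simp only [Finset.sum_const, Finset.card_range, nsmul_eq_mul]
    push_cast
    field_simp
  have e3 : (∑ j ∈ Finset.range (k ^ 2), (j : ℝ)) = (k : ℝ) ^ 2 * ((k : ℝ) ^ 2 - 1) / 2 := by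
    have := Finset.sum_range_id_mul_two (k ^ 2)
    have h1 : 1 ≤ k ^ 2 := Nat.one_le_pow _ _ (by omega)
    have h2 : ((∑ j ∈ Finset.range (k ^ 2), j : ℕ) : ℝ) * 2 = (k : ℝ) ^ 2 * ((k : ℝ) ^ 2 - 1) := by
      have h3 : (((∑ j ∈ Finset.range (k ^ 2), j) * 2 : ℕ) : ℝ)
          = ((k ^ 2 * (k ^ 2 - 1) : ℕ) : ℝ) := by rw [this]
      push_cast [Nat.cast_sub h1] at h3
      push_cast
      exact h3
    push_cast at h2
    linarith
  rw [e2, e3]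
  simp only [Finset.sum_const, Finset.card_range, nsmul_eq_mul, mul_zero, add_zero]
  unfold c0
  push_cast
  field_simp
  ring

theorem W_sum (hk : 2 ≤ k) (h0 : 0 ≤ ε) (h1 : ε ≤ 1 / 10) (z : ℝ) :
    ∑ j ∈ Finset.range (k ^ 2), W k ε ((z - j) / k) = W k ε (k * z) := by
  have hk0 : (k : ℝ) ≠ 0 := by positivity
  rw [← G_sum (ε := ε) hk (W k ε (k * z))]
  refine Finset.sum_congr rfl fun j _ => ?_
  rw [← W_scale hk h0 h1 ((z - j) / k)]
  have e : (k : ℝ) ^ 2 * ((z - j) / k) = k * z - ((k * j : ℕ) : ℝ) := by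
    push_cast; field_simp
  rw [e, W_sub_nat hk h0 h1]
  push_cast
  rfl

/-- the order isomorphism `W` -/
noncomputable def Wiso (hk : 2 ≤ k) (h0 : 0 ≤ ε) (h1 : ε ≤ 1 / 10) : ℝ ≃o ℝ :=
  (W_strict hk h0 h1).orderIsoOfSurjective _ (W_surj hk h0 h1)

/-- the solution -/
noncomputable def phi (hk : 2 ≤ k) (h0 : 0 ≤ ε) (h1 : ε ≤ 1 / 10) (x : ℝ) : ℝ :=
  W k ε ((Wiso hk h0 h1).symm x / k)

theorem phi_W (hk : 2 ≤ k) (h0 : 0 ≤ ε) (h1 : ε ≤ 1 / 10) (z : ℝ) :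
    phi hk h0 h1 (W k ε z) = W k ε (z / k) := by
  unfold phi
  congr 2
  exact (Wiso hk h0 h1).symm_apply_apply z

theorem phi_cont (hk : 2 ≤ k) (h0 : 0 ≤ ε) (h1 : ε ≤ 1 / 10) : Continuous (phi hk h0 h1) := by
  unfold phi
  exact (W_cont hk h0 h1).comp ((Wiso hk h0 h1).symm.continuous.div_const _)

theorem phi_strict (hk : 2 ≤ k) (h0 : 0 ≤ ε) (h1 : ε ≤ 1 / 10) : StrictMono (phi hk h0 h1) := by
  have hk0 : (0 : ℝ) < k := by positivity
  intro a b hab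
  unfold phi
  apply W_strict hk h0 h1
  exact div_lt_div_of_pos_right ((Wiso hk h0 h1).symm.strictMono hab) hk0

theorem phi_eq (hk : 2 ≤ k) (h0 : 0 ≤ ε) (h1 : ε ≤ 1 / 10) (x : ℝ) :
    phi hk h0 h1 (∑ j ∈ Finset.range (k ^ 2), phi hk h0 h1 (x - j)) = x := by
  have hk0 : (k : ℝ) ≠ 0 := by positivity
  obtain ⟨z, rfl⟩ := W_surj hk h0 h1 x
  have e : ∀ j : ℕ, phi hk h0 h1 (W k ε z - j) = W k ε ((z - j) / k) := by
    intro j
    rw [← W_sub_nat hk h0 h1, phi_W]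
  rw [Finset.sum_congr rfl fun j _ => e j, W_sum hk h0 h1, phi_W]
  congr 1
  field_simp

theorem phi_phi (hk : 2 ≤ k) (h0 : 0 ≤ ε) (h1 : ε ≤ 1 / 10) (x : ℝ) :
    phi hk h0 h1 (phi hk h0 h1 x) = G k ε x := by
  have hk0 : (k : ℝ) ≠ 0 := by positivity
  obtain ⟨z, rfl⟩ := W_surj hk h0 h1 x
  rw [phi_W, phi_W, ← W_scale hk h0 h1 (z / k / k)]
  congr 2
  field_simp

theorem G_quarter (hk : 2 ≤ k) :
    G k ε ((k : ℝ) ^ 2 / 4) = 1 / 4 + c0 k + ε := by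
  have hk0 : (k : ℝ) ≠ 0 := by positivity
  unfold G
  have e1 : 2 * π * ((k : ℝ) ^ 2 / 4) / (k : ℝ) ^ 2 = π / 2 := by field_simp; ring
  rw [e1, Real.sin_pi_div_two]
  field_simp

theorem phi_inj (hk : 2 ≤ k) {ε' : ℝ} (h0 : 0 ≤ ε) (h1 : ε ≤ 1 / 10) (h0' : 0 ≤ ε')
    (h1' : ε' ≤ 1 / 10) (h : phi hk h0 h1 = phi hk h0' h1') : ε = ε' := by
  have h2 := phi_phi hk h0 h1 ((k : ℝ) ^ 2 / 4)
  rw [h, phi_phi hk h0' h1', G_quarter hk, G_quarter hk] at h2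
  linarith

end

end Q66.GL
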