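import Mathlib

open Real Filter Topology

namespace Q66HC

/-- `s(x) = e^{-x}/(1+e^{-x})^2`. -/
noncomputable def s (x : ℝ) : ℝ := exp (-x) / (1 + exp (-x)) ^ 2

/-- `h(x) = 1/(1+e^{-x})`. -/
noncomputable def h (x : ℝ) : ℝ := 1 / (1 + exp (-x))

/-- the derivative of `s`. -/
noncomputable def s1 (x : ℝ) : ℝ := -(exp (-x) * (1 - exp (-x)) / (1 + exp (-x)) ^ 3)

lemma s_pos (x : ℝ) : 0 < s x := by
  unfold s; positivity

lemma h_pos (x : ℝ) : 0 < h x := by
  unfold h; positivity

lemma exp_neg_le_one' {x : ℝ} (hx : 0 ≤ x) : exp (-x) ≤ 1 := by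
  rw [exp_le_one_iff]; linarith

lemma s_antitone {x y : ℝ} (hx : 0 ≤ x) (hxy : x ≤ y) : s y ≤ s x := by
  unfold s
  have h1 : exp (-x) ≤ 1 := exp_neg_le_one' hx
  have h2 : exp (-y) ≤ exp (-x) := by rw [exp_le_exp]; linarith
  have h3 : 0 < exp (-x) := exp_pos _
  have h4 : 0 < exp (-y) := exp_pos _
  rw [div_le_div_iff₀ (by positivity) (by positivity)]
  have h5 : exp (-x) * exp (-y) ≤ 1 := by
    calc exp (-x) * exp (-y) ≤ 1 * 1 := by
          apply mul_le_mul h1 (h2.trans h1) h4.le (by norm_num)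
      _ = 1 := by norm_num
  nlinarith [mul_nonneg (sub_nonneg.2 h2) (sub_nonneg.2 h5)]

lemma s_ge {x : ℝ} (hx : 0 ≤ x) : exp (-x) / 4 ≤ s x := by
  unfold s
  have h1 : exp (-x) ≤ 1 := exp_neg_le_one' hx
  have h3 : 0 < exp (-x) := exp_pos _
  apply div_le_div_of_nonneg_left h3.le (by positivity)
  nlinarith

lemma hasDerivAt_h (x : ℝ) : HasDerivAt h (s x) x := by
  have h0 : HasDerivAt (fun x : ℝ => exp (-x)) (-exp (-x)) x := by
    have := (hasDerivAt_neg x).exp
    simpa using this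
  have h1 : HasDerivAt (fun x : ℝ => 1 + exp (-x)) (-exp (-x)) x := by
    simpa using h0.const_add 1
  have h2 := h1.inv (by positivity)
  have h3 : h = fun x : ℝ => (1 + exp (-x))⁻¹ := by
    funext x; unfold h; rw [one_div]
  rw [h3]
  refine h2.congr_deriv ?_
  unfold s; ring

lemma hasDerivAt_s (x : ℝ) : HasDerivAt s (s1 x) x := by
  have h0 : HasDerivAt (fun x : ℝ => exp (-x)) (-exp (-x)) x := by
    have := (hasDerivAt_neg x).exp
    simpa using this
  have h1 : HasDerivAt (fun x : ℝ => 1 + exp (-x)) (-exp (-x)) x := by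
    simpa using h0.const_add 1
  have h2 := h0.fun_div (h1.fun_pow 2) (by positivity)
  refine (h2.congr_deriv ?_)
  unfold s1
  have : (1 + exp (-x)) ≠ 0 := by positivity
  field_simp
  ring

/-- the rational function which controls the convexity. -/
lemma Q_mono {v w : ℝ} (hv : 0 ≤ v) (hvw : v ≤ w) (hw : w ≤ 1) :
    v * (1 - v) / (1 + v) ^ 3 + v / 4 ≤ w * (1 - w) / (1 + w) ^ 3 + w / 4 := by
  have hd : ∀ t : ℝ, 0 ≤ t → HasDerivAt (fun v : ℝ => v * (1 - v) / (1 + v) ^ 3 + v / 4)
      ((1 - 4 * t + t ^ 2) / (1 + t) ^ 4 + 1 / 4) t := by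
    intro t ht
    have a1 : HasDerivAt (fun v : ℝ => v * (1 - v)) (1 * (1 - t) + t * (-1)) t := by
      have := (hasDerivAt_id' t).fun_mul ((hasDerivAt_id' t).const_sub 1)
      simpa using this
    have a2 : HasDerivAt (fun v : ℝ => 1 + v) 1 t := by
      simpa using (hasDerivAt_id t).const_add 1
    have a3 := (a1.fun_div (a2.fun_pow 3) (by positivity)).fun_add ((hasDerivAt_id' t).div_const 4)
    refine a3.congr_deriv ?_
    have : (1 + t) ≠ 0 := by positivity
    field_simp
    ring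
  have hm : MonotoneOn (fun v : ℝ => v * (1 - v) / (1 + v) ^ 3 + v / 4) (Set.Icc 0 1) := by
    apply monotoneOn_of_deriv_nonneg (convex_Icc 0 1)
    · intro t ht
      exact (hd t ht.1).continuousAt.continuousWithinAt
    · intro t ht
      rw [interior_Icc] at ht
      exact (hd t ht.1.le).differentiableAt.differentiableWithinAt
    · intro t ht
      rw [interior_Icc] at ht
      rw [(hd t ht.1.le).deriv]
      have hp : 0 < (1 + t) ^ 4 := by have := ht.1; positivity
      rw [div_add_div _ _ hp.ne' (by norm_num)]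
      apply div_nonneg _ (by positivity)
      nlinarith [sq_nonneg (t - 1), sq_nonneg (t), sq_nonneg (t^2), sq_nonneg (1 - 2 * t), ht.1, ht.2,
        mul_pos ht.1 ht.1, mul_pos (mul_pos ht.1 ht.1) ht.1]
  exact hm ⟨hv, hvw.trans hw⟩ ⟨hv.trans hvw, hw⟩ hvw

lemma g1_mono {a b : ℝ} (ha : 0 ≤ a) (hab : a ≤ b) :
    s1 a - exp (-a) / 4 ≤ s1 b - exp (-b) / 4 := by
  have h1 : exp (-a) ≤ 1 := exp_neg_le_one' ha
  have h2 : exp (-b) ≤ exp (-a) := by rw [exp_le_exp]; linarith
  have h3 := Q_mono (exp_pos (-b)).le h2 h1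
  unfold s1
  linarith

/-- trapezoid inequality -/
lemma trap {x y : ℝ} (hy : 0 ≤ y) (hyx : y ≤ x) :
    h (x + y) - h (x - y) ≤ y * (s (x - y) + s (x + y)) +
      (1 / 2) * exp (-x) * (y * cosh y - sinh y) := by
  set Φ : ℝ → ℝ := fun y => y * (s (x - y) + s (x + y)) +
      (1 / 2) * exp (-x) * (y * cosh y - sinh y) - (h (x + y) - h (x - y)) with hΦ
  have hd : ∀ t : ℝ, HasDerivAt Φ (t * ((s1 (x + t) - exp (-(x + t)) / 4)
      - (s1 (x - t) - exp (-(x - t)) / 4))) t := by
    intro t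
    have p1 : HasDerivAt (fun t : ℝ => x + t) 1 t := by
      simpa using (hasDerivAt_id t).const_add x
    have p2 : HasDerivAt (fun t : ℝ => x - t) (-1) t := by
      simpa using (hasDerivAt_id t).const_sub x
    have q1 : HasDerivAt (fun t : ℝ => s (x + t)) (s1 (x + t) * 1) t :=
      (hasDerivAt_s (x + t)).comp t p1
    have q2 : HasDerivAt (fun t : ℝ => s (x - t)) (s1 (x - t) * (-1)) t :=
      (hasDerivAt_s (x - t)).comp t p2
    have r1 : HasDerivAt (fun t : ℝ => h (x + t)) (s (x + t) * 1) t :=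
      (hasDerivAt_h (x + t)).comp t p1
    have r2 : HasDerivAt (fun t : ℝ => h (x - t)) (s (x - t) * (-1)) t :=
      (hasDerivAt_h (x - t)).comp t p2
    have u1 := (hasDerivAt_id t).mul (q2.add q1)
    have u2 := (((hasDerivAt_id t).mul (Real.hasDerivAt_cosh t)).sub
      (Real.hasDerivAt_sinh t)).const_mul ((1 / 2) * exp (-x))
    have u3 := (u1.add u2).sub (r1.sub r2)
    refine (u3.congr_deriv ?_)
    simp only [id, Pi.add_apply]
    have e1 : exp (-(x + t)) = exp (-x) * exp (-t) := by rw [← exp_add]; ring_nf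
    have e2 : exp (-(x - t)) = exp (-x) * exp (t) := by rw [← exp_add]; ring_nf
    rw [e1, e2, Real.sinh_eq]
    ring
  have hx : 0 ≤ x := hy.trans hyx
  have hm : MonotoneOn Φ (Set.Icc 0 x) := by
    apply monotoneOn_of_deriv_nonneg (convex_Icc 0 x)
    · intro t ht
      exact (hd t).continuousAt.continuousWithinAt
    · intro t ht
      exact (hd t).differentiableAt.differentiableWithinAt
    · intro t ht
      rw [interior_Icc] at ht
      rw [(hd t).deriv]
      apply mul_nonneg ht.1.le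
      have := g1_mono (a := x - t) (b := x + t) (by linarith [ht.2]) (by linarith [ht.1])
      linarith
  have h0 : Φ 0 = 0 := by simp [hΦ]
  have h1 := hm ⟨le_refl 0, hx⟩ ⟨hy, hyx⟩ hy
  rw [h0] at h1
  simp only [hΦ] at h1
  linarith

end Q66HC
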