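import Mathlib
import Pool.Agent.Q66.HC1

open Real Filter Topology

namespace Q66HC

noncomputable def tt (y : ℝ) (j : ℕ) : ℝ := (j : ℝ) * exp (-(2 * (j : ℝ) * y))

lemma tt_nonneg (y : ℝ) (j : ℕ) : 0 ≤ tt y j := by
  unfold tt; positivity

lemma tt_sub (y : ℝ) (m : ℕ) : tt y m - tt y (m + 1) =
    exp (-((2 * (m : ℝ) + 1) * y)) * ((2 * (m : ℝ) + 1) * sinh y - cosh y) := by
  unfold tt
  have e1 : exp (-(2 * (m : ℝ) * y)) = exp (-((2 * (m : ℝ) + 1) * y)) * exp y := by
    rw [← exp_add]; ring_nf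
  have e2 : exp (-(2 * ((m + 1 : ℕ) : ℝ) * y)) = exp (-((2 * (m : ℝ) + 1) * y)) * exp (-y) := by
    rw [← exp_add]; push_cast; ring_nf
  rw [e1, e2, Real.sinh_eq, Real.cosh_eq]
  push_cast
  ring

lemma tt_add (y : ℝ) (m : ℕ) : tt y m + tt y (m + 1) =
    exp (-((2 * (m : ℝ) + 1) * y)) * ((2 * (m : ℝ) + 1) * cosh y - sinh y) := by
  unfold tt
  have e1 : exp (-(2 * (m : ℝ) * y)) = exp (-((2 * (m : ℝ) + 1) * y)) * exp y := by
    rw [← exp_add]; ring_nf
  have e2 : exp (-(2 * ((m + 1 : ℕ) : ℝ) * y)) = exp (-((2 * (m : ℝ) + 1) * y)) * exp (-y) := by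
    rw [← exp_add]; push_cast; ring_nf
  rw [e1, e2, Real.sinh_eq, Real.cosh_eq]
  push_cast
  ring

/-- the value `(2m+1) y`. -/
noncomputable def nd (y : ℝ) (m : ℕ) : ℝ := (2 * (m : ℝ) + 1) * y

noncomputable def PA (y : ℝ) (N : ℕ) : ℝ :=
  ∑ m ∈ Finset.range N, (2 * (m : ℝ) + 1) * exp (-nd y m) * s (nd y m)

noncomputable def PB (y : ℝ) (N : ℕ) : ℝ :=
  ∑ m ∈ Finset.range N, ((2 * (m : ℝ) + 1) * sinh y - cosh y) * exp (-nd y m) * h (nd y m)

noncomputable def PW (y : ℝ) (N : ℕ) : ℝ :=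
  ∑ m ∈ Finset.range N, exp (-nd y m) * s (nd y m)

/-- partial sums -/
noncomputable def SN (N : ℕ) (y : ℝ) : ℝ :=
  2 * sinh y * ∑ m ∈ Finset.range N, 1 / (exp (nd y m) + 1)

lemma hasDerivAt_f (x : ℝ) : HasDerivAt (fun x : ℝ => 1 / (exp x + 1))
    (exp (-x) * s x - exp (-x) * h x) x := by
  have h1 : HasDerivAt (fun x : ℝ => exp x + 1) (exp x) x := by
    simpa using (Real.hasDerivAt_exp x).add_const 1
  have h2 := h1.fun_inv (by positivity)
  have h3 : (fun x : ℝ => 1 / (exp x + 1)) = fun x : ℝ => (exp x + 1)⁻¹ := by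
    funext x; rw [one_div]
  rw [h3]
  refine h2.congr_deriv ?_
  unfold s h
  have e : exp x = (exp (-x))⁻¹ := by rw [exp_neg, inv_inv]
  rw [e]
  have hp := exp_pos (-x)
  set v := exp (-x)
  have : v⁻¹ + 1 ≠ 0 := by positivity
  have : 1 + v ≠ 0 := by positivity
  field_simp
  ring

lemma f_eq (x : ℝ) : 1 / (exp x + 1) = exp (-x) * h x := by
  unfold h
  have e : exp x = (exp (-x))⁻¹ := by rw [exp_neg, inv_inv]
  rw [e]
  have hp := exp_pos (-x)
  set v := exp (-x)
  have : v⁻¹ + 1 ≠ 0 := by positivity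
  have : 1 + v ≠ 0 := by positivity
  field_simp

lemma hasDerivAt_SN (N : ℕ) (y : ℝ) :
    HasDerivAt (SN N) (2 * (sinh y * PA y N - PB y N)) y := by
  have h1 : ∀ m ∈ Finset.range N, HasDerivAt (fun y : ℝ => 1 / (exp (nd y m) + 1))
      ((exp (-nd y m) * s (nd y m) - exp (-nd y m) * h (nd y m)) * (2 * (m : ℝ) + 1)) y := by
    intro m _
    have p : HasDerivAt (fun y : ℝ => nd y m) (2 * (m : ℝ) + 1) y := by
      unfold nd
      simpa using (hasDerivAt_id y).const_mul (2 * (m : ℝ) + 1)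
    exact (hasDerivAt_f (nd y m)).comp y p
  have h2 := HasDerivAt.fun_sum h1
  have h3 := ((Real.hasDerivAt_sinh y).const_mul 2).fun_mul h2
  refine h3.congr_deriv ?_
  unfold PA PB
  rw [Finset.mul_sum, Finset.mul_sum, Finset.mul_sum, ← Finset.sum_add_distrib,
    ← Finset.sum_sub_distrib, Finset.mul_sum]
  apply Finset.sum_congr rfl
  intro m _
  rw [f_eq]
  ring

/-- Abel summation for `PB`. -/
lemma PB_eq (y : ℝ) (N : ℕ) : PB y (N + 1) =
    ∑ j ∈ Finset.range N, tt y (j + 1) * (h (nd y (j + 1)) - h (nd y j)) - tt y (N + 1) * h (nd y N) := by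
  have key : ∀ m : ℕ, ((2 * (m : ℝ) + 1) * sinh y - cosh y) * exp (-nd y m) * h (nd y m) =
      (tt y m - tt y (m + 1)) * h (nd y m) := by
    intro m; rw [tt_sub]; unfold nd; ring
  unfold PB
  rw [Finset.sum_congr rfl (fun m _ => key m)]
  induction N with
  | zero => simp [tt]
  | succ N ih =>
    rw [Finset.sum_range_succ, ih, Finset.sum_range_succ]
    ring

lemma nd_pos {y : ℝ} (hy : 0 < y) (m : ℕ) : 0 < nd y m := by
  unfold nd; positivity

lemma nd_mono {y : ℝ} (hy : 0 < y) (m : ℕ) : nd y m ≤ nd y (m + 1) := by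
  unfold nd; push_cast; nlinarith

lemma trap_nd {y : ℝ} (hy : 0 < y) (j : ℕ) : h (nd y (j + 1)) - h (nd y j) ≤
    y * (s (nd y j) + s (nd y (j + 1))) +
      (1 / 2) * exp (-(2 * ((j + 1 : ℕ) : ℝ) * y)) * (y * cosh y - sinh y) := by
  have h1 := trap (x := 2 * ((j + 1 : ℕ) : ℝ) * y) (y := y) hy.le (by
    push_cast
    nlinarith [mul_nonneg (Nat.cast_nonneg (α := ℝ) j) hy.le])
  have e1 : 2 * ((j + 1 : ℕ) : ℝ) * y + y = nd y (j + 1) := by unfold nd; push_cast; ring
  have e2 : 2 * ((j + 1 : ℕ) : ℝ) * y - y = nd y j := by unfold nd; push_cast; ring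
  rw [e1, e2] at h1
  exact h1

/-- Chebyshev. -/
lemma cheb {y : ℝ} (hy : 0 < y) (N : ℕ) :
    ∑ m ∈ Finset.range (N + 1), (tt y m - tt y (m + 1)) * s (nd y m) ≤ - tt y (N + 1) * s (nd y N) := by
  induction N with
  | zero => simp [tt]
  | succ N ih =>
    rw [Finset.sum_range_succ]
    have h1 : s (nd y (N + 1)) ≤ s (nd y N) := s_antitone (nd_pos hy N).le (nd_mono hy N)
    have h2 := mul_le_mul_of_nonneg_left h1 (tt_nonneg y (N + 1))
    nlinarith

lemma geom_bound {z : ℝ} (N : ℕ) (hz : 0 < z) (hz1 : z < 1) :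
    ∑ j ∈ Finset.range N, ((j + 1 : ℕ) : ℝ) * z ^ (j + 1) ≤ z / (1 - z) ^ 2 := by
  have h1 : ∑ j ∈ Finset.range N, ((j + 1 : ℕ) : ℝ) * z ^ (j + 1) =
      (z - (N + 1) * z ^ (N + 1) + N * z ^ (N + 2)) / (1 - z) ^ 2 := by
    have hne : (1 - z) ≠ 0 := by linarith
    induction N with
    | zero => simp
    | succ N ih =>
      rw [Finset.sum_range_succ, ih]
      field_simp
      push_cast
      ring
  rw [h1]
  apply div_le_div_of_nonneg_right _ (by positivity)
  have h2 : z ^ (N + 2) ≤ z ^ (N + 1) := pow_le_pow_of_le_one hz.le hz1.le (by omega)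
  have h3 : 0 < z ^ (N + 1) := by positivity
  have h4 : (N : ℝ) * z ^ (N + 2) ≤ N * z ^ (N + 1) := mul_le_mul_of_nonneg_left h2 (by positivity)
  nlinarith

lemma PW_ge {y : ℝ} (hy : 0 < y) (N : ℕ) :
    (1 - exp (-(4 * y)) ^ N) / (8 * sinh (2 * y)) ≤ PW y N := by
  have h1 : (1 - exp (-(4 * y)) ^ N) / (8 * sinh (2 * y)) =
      ∑ m ∈ Finset.range N, exp (-nd y m) * (exp (-nd y m) / 4) := by
    have hs : 0 < sinh (2 * y) := Real.sinh_pos_iff.2 (by positivity)
    induction N with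
    | zero => simp
    | succ N ih =>
      rw [Finset.sum_range_succ, ← ih]
      have e1 : exp (-nd y N) * (exp (-nd y N) / 4) = exp (-(4 * y)) ^ N * exp (-(2 * y)) / 4 := by
        have : exp (-nd y N) * exp (-nd y N) = exp (-(4 * y)) ^ N * exp (-(2 * y)) := by
          rw [← exp_add, ← exp_nat_mul, ← exp_add]
          unfold nd; ring_nf
        rw [← this]; ring
      rw [e1]
      have e2 : exp (-(4 * y)) = exp (-(2 * y)) * exp (-(2 * y)) := by
        rw [← exp_add]; ring_nf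
      have e3 : 1 - exp (-(4 * y)) = 2 * sinh (2 * y) * exp (-(2 * y)) := by
        rw [Real.sinh_eq, e2]
        have : exp (2 * y) * exp (-(2 * y)) = 1 := by rw [← exp_add]; simp
        linear_combination -this
      rw [div_add_div _ _ (by positivity) (by norm_num), div_eq_div_iff (by positivity) (by positivity)]
      rw [pow_succ]
      linear_combination (exp (-(4 * y)) ^ N * 4 * (8 * sinh (2 * y))) * e3
  rw [h1]
  unfold PW
  apply Finset.sum_le_sum
  intro m _
  apply mul_le_mul_of_nonneg_left (s_ge (nd_pos hy m).le) (exp_pos _).le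

/-- the lower bound function -/
noncomputable def lb (y : ℝ) : ℝ :=
  (cosh y * (sinh y * cosh y - y) - (y * cosh y - sinh y)) / (8 * sinh (2 * y) ^ 2)

lemma sinh_gt {y : ℝ} (hy : 0 < y) : y < sinh y := Real.self_lt_sinh_iff.2 hy

lemma c_pos {y : ℝ} (hy : 0 < y) : 0 < y * cosh y - sinh y := by
  have hd : ∀ t : ℝ, HasDerivAt (fun t : ℝ => t * cosh t - sinh t) (t * sinh t) t := by
    intro t
    have h1 := ((hasDerivAt_id' t).fun_mul (Real.hasDerivAt_cosh t)).fun_sub
      (Real.hasDerivAt_sinh t)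
    refine h1.congr_deriv ?_
    ring
  have hm : StrictMonoOn (fun t : ℝ => t * cosh t - sinh t) (Set.Ici 0) := by
    apply strictMonoOn_of_deriv_pos (convex_Ici 0)
    · intro t ht
      exact (hd t).continuousAt.continuousWithinAt
    · intro t ht
      rw [interior_Ici] at ht
      rw [(hd t).deriv]
      exact mul_pos ht (Real.sinh_pos_iff.2 ht)
  have := hm (Set.mem_Ici.2 (le_refl (0 : ℝ))) (Set.mem_Ici.2 hy.le) hy
  simpa using this

/-- the main lower bound for the derivative of the partial sums. -/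
lemma main_bound {y : ℝ} (hy : 0 < y) (N : ℕ) (hN : exp (-(4 * y)) ^ (N + 1) ≤ 1 / 2) :
    lb y ≤ sinh y * PA y (N + 1) - PB y (N + 1) := by
  have hc := c_pos hy
  have hs1 : 0 < sinh y := Real.sinh_pos_iff.2 hy
  have hs2 : 0 < sinh (2 * y) := Real.sinh_pos_iff.2 (by positivity)
  have hsy := sinh_gt hy
  have hcosh : 1 < cosh y := Real.one_lt_cosh.2 hy.ne'
  set c := y * cosh y - sinh y with hcdef
  -- upper bound for PB
  have hB : PB y (N + 1) ≤ ∑ j ∈ Finset.range N, tt y (j + 1) *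
      (y * (s (nd y j) + s (nd y (j + 1))) +
      (1 / 2) * exp (-(2 * ((j + 1 : ℕ) : ℝ) * y)) * c) := by
    rw [PB_eq]
    have h1 : ∑ j ∈ Finset.range N, tt y (j + 1) * (h (nd y (j + 1)) - h (nd y j)) ≤
      ∑ j ∈ Finset.range N, tt y (j + 1) *
      (y * (s (nd y j) + s (nd y (j + 1))) +
      (1 / 2) * exp (-(2 * ((j + 1 : ℕ) : ℝ) * y)) * c) := by
      apply Finset.sum_le_sum
      intro j _
      exact mul_le_mul_of_nonneg_left (trap_nd hy j) (tt_nonneg y _)
    have h2 : 0 ≤ tt y (N + 1) * h (nd y N) := mul_nonneg (tt_nonneg _ _) (h_pos _).le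
    linarith
  -- rearrangement of the s part
  have hR : ∑ j ∈ Finset.range N, tt y (j + 1) * (s (nd y j) + s (nd y (j + 1))) ≤
      ∑ m ∈ Finset.range (N + 1), (tt y m + tt y (m + 1)) * s (nd y m) := by
    have h1 : ∀ N : ℕ, ∑ j ∈ Finset.range N, tt y (j + 1) * (s (nd y j) + s (nd y (j + 1)))
        + tt y (N + 1) * s (nd y N) =
        ∑ m ∈ Finset.range (N + 1), (tt y m + tt y (m + 1)) * s (nd y m) := by
      intro N
      induction N with
      | zero => simp [tt]
      | succ N ih =>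
        rw [Finset.sum_range_succ _ (N + 1), ← ih, Finset.sum_range_succ]
        ring
    rw [← h1 N]
    have h2 : 0 ≤ tt y (N + 1) * s (nd y N) := mul_nonneg (tt_nonneg _ _) (s_pos _).le
    linarith
  -- the error part
  have hE : ∑ j ∈ Finset.range N, tt y (j + 1) * exp (-(2 * ((j + 1 : ℕ) : ℝ) * y)) ≤
      1 / (4 * sinh (2 * y) ^ 2) := by
    have hz : 0 < exp (-(4 * y)) := exp_pos _
    have hz1 : exp (-(4 * y)) < 1 := by rw [exp_lt_one_iff]; linarith
    have h1 := geom_bound N hz hz1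
    have h2 : exp (-(4 * y)) / (1 - exp (-(4 * y))) ^ 2 = 1 / (4 * sinh (2 * y) ^ 2) := by
      have e2 : exp (-(4 * y)) = exp (-(2 * y)) ^ 2 := by
        rw [← exp_nat_mul]; ring_nf
      have e3 : 1 - exp (-(4 * y)) = 2 * sinh (2 * y) * exp (-(2 * y)) := by
        rw [Real.sinh_eq, e2]
        have : exp (2 * y) * exp (-(2 * y)) = 1 := by rw [← exp_add]; simp
        linear_combination -this
      rw [e3, e2]
      have := exp_pos (-(2 * y))
      field_simp
      ring
    rw [h2] at h1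
    refine le_trans (le_of_eq ?_) h1
    apply Finset.sum_congr rfl
    intro j _
    unfold tt
    rw [mul_assoc, ← exp_add, ← exp_nat_mul]
    ring_nf
  have hB2 : PB y (N + 1) ≤ y * (∑ m ∈ Finset.range (N + 1), (tt y m + tt y (m + 1)) * s (nd y m))
      + c / 2 * (1 / (4 * sinh (2 * y) ^ 2)) := by
    refine hB.trans ?_
    have h1 : ∑ j ∈ Finset.range N, tt y (j + 1) *
      (y * (s (nd y j) + s (nd y (j + 1))) +
      (1 / 2) * exp (-(2 * ((j + 1 : ℕ) : ℝ) * y)) * c) =
      y * (∑ j ∈ Finset.range N, tt y (j + 1) * (s (nd y j) + s (nd y (j + 1)))) +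
      c / 2 * (∑ j ∈ Finset.range N, tt y (j + 1) * exp (-(2 * ((j + 1 : ℕ) : ℝ) * y))) := by
      rw [Finset.mul_sum, Finset.mul_sum, ← Finset.sum_add_distrib]
      apply Finset.sum_congr rfl
      intro j _
      ring
    rw [h1]
    exact add_le_add (mul_le_mul_of_nonneg_left hR hy.le)
      (mul_le_mul_of_nonneg_left hE (by positivity))
  -- express everything through `s`
  have hT : ∑ m ∈ Finset.range (N + 1), (tt y m + tt y (m + 1)) * s (nd y m) =
      cosh y * PA y (N + 1) - sinh y * PW y (N + 1) := by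
    unfold PA PW
    rw [Finset.mul_sum, Finset.mul_sum, ← Finset.sum_sub_distrib]
    apply Finset.sum_congr rfl
    intro m _
    rw [tt_add]; unfold nd; ring
  have hC : sinh y * PA y (N + 1) ≤ cosh y * PW y (N + 1) := by
    have h1 := cheb hy N
    have h2 : ∑ m ∈ Finset.range (N + 1), (tt y m - tt y (m + 1)) * s (nd y m) =
        sinh y * PA y (N + 1) - cosh y * PW y (N + 1) := by
      unfold PA PW
      rw [Finset.mul_sum, Finset.mul_sum, ← Finset.sum_sub_distrib]
      apply Finset.sum_congr rfl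
      intro m _
      rw [tt_sub]; unfold nd; ring
    rw [h2] at h1
    have h3 : 0 ≤ tt y (N + 1) * s (nd y N) := mul_nonneg (tt_nonneg _ _) (s_pos _).le
    linarith
  have hW := PW_ge hy (N + 1)
  have hWpos : 1 / (16 * sinh (2 * y)) ≤ PW y (N + 1) := by
    refine le_trans ?_ hW
    rw [div_le_div_iff₀ (by positivity) (by positivity)]
    nlinarith
  rw [hT] at hB2
  -- `sinh y * PA - PB ≥ - c PA + y sinh y PW - error`
  have hD : -(c * PA y (N + 1)) + y * sinh y * PW y (N + 1) - c / 2 * (1 / (4 * sinh (2 * y) ^ 2)) ≤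
      sinh y * PA y (N + 1) - PB y (N + 1) := by
    have : y * (cosh y * PA y (N + 1) - sinh y * PW y (N + 1)) =
      (c + sinh y) * PA y (N + 1) - y * sinh y * PW y (N + 1) := by rw [hcdef]; ring
    rw [this] at hB2
    linarith
  refine le_trans ?_ hD
  have hPA : PA y (N + 1) ≤ cosh y * PW y (N + 1) / sinh y := by
    rw [le_div_iff₀ hs1]; linarith
  have hkey : 0 < sinh y * cosh y - y := by nlinarith
  have h5 : (sinh y * cosh y - y) / sinh y * PW y (N + 1) ≤
      -(c * PA y (N + 1)) + y * sinh y * PW y (N + 1) := by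
    have h6 : c * PA y (N + 1) ≤ c * (cosh y * PW y (N + 1) / sinh y) :=
      mul_le_mul_of_nonneg_left hPA hc.le
    have h7 : (sinh y * cosh y - y) / sinh y * PW y (N + 1) =
        -(c * (cosh y * PW y (N + 1) / sinh y)) + y * sinh y * PW y (N + 1) := by
      rw [hcdef]
      field_simp
      have := Real.cosh_sq y
      linear_combination (y * PW y (N + 1)) * this
    rw [h7]; linarith
  have h8 : (sinh y * cosh y - y) / sinh y * (1 / (16 * sinh (2 * y))) ≤
      (sinh y * cosh y - y) / sinh y * PW y (N + 1) :=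
    mul_le_mul_of_nonneg_left hWpos (by positivity)
  have h9 : lb y = (sinh y * cosh y - y) / sinh y * (1 / (16 * sinh (2 * y)))
      - c / 2 * (1 / (4 * sinh (2 * y) ^ 2)) := by
    unfold lb
    rw [← hcdef]
    have h2y : sinh (2 * y) = 2 * sinh y * cosh y := Real.sinh_two_mul y
    have : 0 < cosh y := by linarith
    rw [h2y]
    field_simp
    ring
  rw [h9]
  linarith

lemma lb_pos {y : ℝ} (hy : 0 < y) : 0 < lb y := by
  unfold lb
  have h1 := sinh_gt hy
  have h2 : 1 < cosh y := Real.one_lt_cosh.2 hy.ne'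
  have hs : 0 < sinh (2 * y) := Real.sinh_pos_iff.2 (by positivity)
  apply div_pos _ (by positivity)
  have h3 : 0 < (sinh y - y) * (cosh y + 1) := mul_pos (by linarith) (by linarith)
  have h4 : 0 < sinh y * cosh y - y := by nlinarith
  nlinarith [mul_pos (sub_pos.2 h2) h4]

end Q66HC
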