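import Mathlib
import Pool.Agent.Q66.HC2

open Real Filter Topology

namespace Q66HC

/-- the terms of the double series -/
noncomputable def dbl (y : ℝ) (k m : ℕ) : ℝ := (-1 : ℝ) ^ k * exp (-y) ^ ((k + 1) * (2 * m + 1))

lemma dbl_summable {y : ℝ} (hy : 0 < y) : Summable (Function.uncurry (dbl y)) := by
  have hq : 0 < exp (-y) := exp_pos _
  have hq1 : exp (-y) < 1 := by rw [exp_lt_one_iff]; linarith
  have hg : Summable fun n : ℕ => exp (-y) ^ n := summable_geometric_of_lt_one hq.le hq1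
  have h2 : Summable fun p : ℕ × ℕ => exp (-y) ^ p.1 * exp (-y) ^ p.2 :=
    hg.mul_of_nonneg hg (fun n => by positivity) (fun n => by positivity)
  apply Summable.of_norm_bounded h2
  rintro ⟨k, m⟩
  simp only [Function.uncurry_apply_pair, dbl, norm_mul, norm_pow, norm_neg, norm_one, one_pow,
    one_mul, Real.norm_eq_abs, abs_of_pos hq]
  rw [← pow_add]
  apply pow_le_pow_of_le_one hq.le hq1.le
  nlinarith

lemma dbl_row {y : ℝ} (hy : 0 < y) (k : ℕ) :
    HasSum (fun m => dbl y k m) ((-1 : ℝ) ^ k / (2 * sinh (((k : ℝ) + 1) * y))) := by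
  have hq : 0 < exp (-y) := exp_pos _
  have hq1 : exp (-y) < 1 := by rw [exp_lt_one_iff]; linarith
  have h1 : exp (-y) ^ (2 * (k + 1)) < 1 := pow_lt_one₀ hq.le hq1 (by omega)
  have h0 : 0 < exp (-y) ^ (2 * (k + 1)) := by positivity
  have h2 := (hasSum_geometric_of_lt_one h0.le h1).mul_left ((-1 : ℝ) ^ k * exp (-y) ^ (k + 1))
  have hs : 0 < sinh (((k : ℝ) + 1) * y) := Real.sinh_pos_iff.2 (by positivity)
  have hf : (fun m => dbl y k m) =
      fun i => (-1 : ℝ) ^ k * exp (-y) ^ (k + 1) * (exp (-y) ^ (2 * (k + 1))) ^ i := by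
    funext m
    unfold dbl
    rw [mul_assoc, ← pow_mul, ← pow_add]
    congr 2
    ring
  have hv : (-1 : ℝ) ^ k / (2 * sinh (((k : ℝ) + 1) * y)) =
      (-1) ^ k * exp (-y) ^ (k + 1) * (1 - exp (-y) ^ (2 * (k + 1)))⁻¹ := by
    have e1 : exp (-y) ^ (k + 1) = exp (-(((k : ℝ) + 1) * y)) := by
      rw [← exp_nat_mul]; push_cast; ring_nf
    have e2 : exp (-y) ^ (2 * (k + 1)) = exp (-(((k : ℝ) + 1) * y)) ^ 2 := by
      rw [← e1, ← pow_mul]; ring_nf
    have e3 : 1 - exp (-(((k : ℝ) + 1) * y)) ^ 2 =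
        2 * sinh (((k : ℝ) + 1) * y) * exp (-(((k : ℝ) + 1) * y)) := by
      rw [Real.sinh_eq]
      have : exp (((k : ℝ) + 1) * y) * exp (-(((k : ℝ) + 1) * y)) = 1 := by rw [← exp_add]; simp
      linear_combination -this
    rw [e1, e2, e3]
    have := exp_pos (-(((k : ℝ) + 1) * y))
    field_simp
  rw [hf, hv]
  exact h2

lemma dbl_col {y : ℝ} (hy : 0 < y) (m : ℕ) :
    HasSum (fun k => dbl y k m) (1 / (exp (nd y m) + 1)) := by
  have hq : 0 < exp (-y) := exp_pos _
  have hq1 : exp (-y) < 1 := by rw [exp_lt_one_iff]; linarith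
  have h1 : exp (-y) ^ (2 * m + 1) < 1 := pow_lt_one₀ hq.le hq1 (by omega)
  have h0 : 0 < exp (-y) ^ (2 * m + 1) := by positivity
  have h2 := (hasSum_geometric_of_norm_lt_one (ξ := -(exp (-y) ^ (2 * m + 1))) (by
    rw [norm_neg, Real.norm_eq_abs, abs_of_pos h0]; exact h1)).mul_left (exp (-y) ^ (2 * m + 1))
  have hf : (fun k => dbl y k m) =
      fun i => exp (-y) ^ (2 * m + 1) * (-(exp (-y) ^ (2 * m + 1))) ^ i := by
    funext k
    unfold dbl
    rw [neg_pow (exp (-y) ^ (2 * m + 1)), ← pow_mul, mul_left_comm, ← pow_add]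
    congr 2
    ring
  have hv : 1 / (exp (nd y m) + 1) =
      exp (-y) ^ (2 * m + 1) * (1 - -(exp (-y) ^ (2 * m + 1)))⁻¹ := by
    have e1 : exp (-y) ^ (2 * m + 1) = exp (-(nd y m)) := by
      rw [← exp_nat_mul]; unfold nd; push_cast; ring_nf
    rw [e1, f_eq]
    unfold h
    rw [sub_neg_eq_add, one_div]
  rw [hf, hv]
  exact h2

/-- the series in the variable `y`. -/
noncomputable def F (y : ℝ) : ℝ :=
  ∑' k : ℕ, (-1 : ℝ) ^ k * (sinh y / sinh (((k : ℝ) + 1) * y))

lemma term_eq {y : ℝ} (k : ℕ) :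
    (-1 : ℝ) ^ k * (sinh y / sinh (((k : ℝ) + 1) * y)) =
      2 * sinh y * ((-1 : ℝ) ^ k / (2 * sinh (((k : ℝ) + 1) * y))) := by
  rw [div_eq_mul_inv, div_eq_mul_inv, mul_inv]
  ring

lemma term_summable {y : ℝ} (hy : 0 < y) :
    Summable fun k : ℕ => (-1 : ℝ) ^ k * (sinh y / sinh (((k : ℝ) + 1) * y)) := by
  have h1 := (dbl_summable hy).prod
  have h2 : (fun k : ℕ => ∑' m : ℕ, Function.uncurry (dbl y) (k, m)) =
      fun k : ℕ => (-1 : ℝ) ^ k / (2 * sinh (((k : ℝ) + 1) * y)) := by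
    funext k
    exact (dbl_row hy k).tsum_eq
  rw [h2] at h1
  simp only [term_eq]
  exact h1.mul_left _

lemma f_summable {y : ℝ} (hy : 0 < y) : Summable fun m : ℕ => 1 / (exp (nd y m) + 1) := by
  have h1 := (dbl_summable hy).prod_symm.prod
  refine h1.congr ?_
  intro m
  exact (dbl_col hy m).tsum_eq

lemma F_eq {y : ℝ} (hy : 0 < y) : F y = 2 * sinh y * ∑' m : ℕ, 1 / (exp (nd y m) + 1) := by
  unfold F
  simp only [term_eq]
  rw [tsum_mul_left]
  congr 1
  have h1 := (dbl_summable hy).tsum_comm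
  rw [tsum_congr (fun k => (dbl_row hy k).tsum_eq), tsum_congr (fun k => (dbl_col hy k).tsum_eq)] at h1
  exact h1.symm

lemma SN_tendsto {y : ℝ} (hy : 0 < y) : Tendsto (fun N => SN N y) atTop (𝓝 (F y)) := by
  rw [F_eq hy]
  unfold SN
  exact ((f_summable hy).hasSum.tendsto_sum_nat).const_mul _

lemma F_pos {y : ℝ} (hy : 0 < y) : 0 < F y := by
  rw [F_eq hy]
  have hs1 : 0 < sinh y := Real.sinh_pos_iff.2 hy
  apply mul_pos (by positivity)
  exact (f_summable hy).tsum_pos (fun m => by positivity) 0 (by positivity)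

lemma lb_continuousOn {a b : ℝ} (ha : 0 < a) : ContinuousOn lb (Set.Icc a b) := by
  unfold lb
  apply ContinuousOn.div
  · fun_prop
  · fun_prop
  · intro x hx
    have hs : 0 < sinh (2 * x) := Real.sinh_pos_iff.2 (by linarith [hx.1])
    positivity

lemma F_strictMono {a b : ℝ} (ha : 0 < a) (hab : a < b) : F a < F b := by
  obtain ⟨y0, hy0, hmin⟩ := isCompact_Icc.exists_isMinOn (Set.nonempty_Icc.2 hab.le)
    (lb_continuousOn (b := b) ha)
  have hd : 0 < lb y0 := lb_pos (ha.trans_le hy0.1)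
  have hq : 0 < exp (-(4 * a)) := exp_pos _
  have hq1 : exp (-(4 * a)) < 1 := by rw [exp_lt_one_iff]; linarith
  have h1 : ∀ᶠ N : ℕ in atTop, exp (-(4 * a)) ^ N < 1 / 2 :=
    (tendsto_pow_atTop_nhds_zero_of_lt_one hq.le hq1).eventually_lt_const (by norm_num)
  have h2 : ∀ᶠ N : ℕ in atTop, 2 * lb y0 * (b - a) ≤ SN N b - SN N a := by
    filter_upwards [h1, eventually_ge_atTop 1] with N hN hN1
    obtain ⟨M, rfl⟩ : ∃ M, N = M + 1 := ⟨N - 1, by omega⟩
    apply Convex.mul_sub_le_image_sub_of_le_deriv (convex_Icc a b) (f := SN (M + 1))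
    · intro t ht
      exact (hasDerivAt_SN (M + 1) t).continuousAt.continuousWithinAt
    · intro t ht
      exact (hasDerivAt_SN (M + 1) t).differentiableAt.differentiableWithinAt
    · intro t ht
      rw [interior_Icc] at ht
      rw [(hasDerivAt_SN (M + 1) t).deriv]
      have ht0 : 0 < t := ha.trans ht.1
      have h3 : exp (-(4 * t)) ^ (M + 1) ≤ 1 / 2 := by
        refine le_trans ?_ hN.le
        apply pow_le_pow_left₀ (exp_pos _).le
        rw [exp_le_exp]; linarith [ht.1]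
      have h4 := main_bound ht0 M h3
      have h5 : lb y0 ≤ lb t := hmin ⟨ht.1.le, ht.2.le⟩
      linarith
    · exact Set.left_mem_Icc.2 hab.le
    · exact Set.right_mem_Icc.2 hab.le
    · exact hab.le
  have h3 : Tendsto (fun N => SN N b - SN N a) atTop (𝓝 (F b - F a)) :=
    (SN_tendsto (ha.trans hab)).sub (SN_tendsto ha)
  have h4 := ge_of_tendsto h3 h2
  have h5 : 0 < 2 * lb y0 * (b - a) := mul_pos (by linarith) (by linarith)
  linarith

end Q66HC
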