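import Pool.Agent.Q66.IetDefs

/-!
# Interval exchanges preserve Lebesgue measure; irrational rotations are ergodic
-/

open MeasureTheory Set Matrix

namespace Q66.Iet

theorem IsIET.exists_mem {d : ℕ} {c : Fin (d + 1) → ℝ} {T : ℝ → ℝ} (h : IsIET d c T) {x : ℝ}
    (hx : x ∈ Ico (0 : ℝ) 1) : ∃ j : Fin d, x ∈ Ico (c j.castSucc) (c j.succ) := by
  classical
  by_contra hne
  push Not at hne
  have key : ∀ i : Fin (d + 1), c i ≤ x := by
    intro i
    induction i using Fin.induction with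
    | zero => rw [h.zero]; exact hx.1
    | succ j ih =>
      by_contra hlt
      exact hne j ⟨ih, not_le.1 hlt⟩
  have := key (Fin.last d)
  rw [h.one] at this
  exact absurd hx.2 (not_lt.2 this)

theorem IsIET.subset {d : ℕ} {c : Fin (d + 1) → ℝ} {T : ℝ → ℝ} (h : IsIET d c T) (j : Fin d) :
    Ico (c j.castSucc) (c j.succ) ⊆ Ico (0 : ℝ) 1 := by
  intro x hx
  refine ⟨?_, ?_⟩
  · rw [← h.zero]
    exact (h.mono.monotone (Fin.zero_le _)).trans hx.1
  · rw [← h.one]
    exact hx.2.trans_le (h.mono.monotone (Fin.le_last _))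

theorem IsIET.disj {d : ℕ} {c : Fin (d + 1) → ℝ} {T : ℝ → ℝ} (h : IsIET d c T) {i j : Fin d}
    (hij : i ≠ j) : Disjoint (Ico (c i.castSucc) (c i.succ)) (Ico (c j.castSucc) (c j.succ)) := by
  rw [Set.disjoint_left]
  intro x hi hj
  rcases lt_or_gt_of_ne hij with hlt | hlt
  · have h1 : c i.succ ≤ c j.castSucc := h.mono.monotone (by
      rw [Fin.le_iff_val_le_val]; simp only [Fin.val_succ, Fin.val_castSucc]
      exact hlt)
    exact absurd (hi.2.trans_le h1) (not_lt.2 hj.1)
  · have h1 : c j.succ ≤ c i.castSucc := h.mono.monotone (by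
      rw [Fin.le_iff_val_le_val]; simp only [Fin.val_succ, Fin.val_castSucc]
      exact hlt)
    exact absurd (hj.2.trans_le h1) (not_lt.2 hi.1)

/-- interval exchanges preserve Lebesgue measure -/
theorem IsIET.measurePreserving {d : ℕ} {c : Fin (d + 1) → ℝ} {T : ℝ → ℝ} (h : IsIET d c T)
    (hT : Measurable T) : MeasurePreserving T μ μ := by
  refine ⟨hT, ?_⟩
  ext A hA
  rw [Measure.map_apply hT hA]
  unfold μ
  rw [Measure.restrict_apply (hT hA), Measure.restrict_apply hA]
  choose t ht using h.trans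
  set I : Fin d → Set ℝ := fun j => Ico (c j.castSucc) (c j.succ) with hI
  have e1 : T ⁻¹' A ∩ Ico 0 1 = ⋃ j, (T ⁻¹' A ∩ I j) := by
    ext x
    simp only [mem_inter_iff, mem_iUnion]
    constructor
    · rintro ⟨h1, h2⟩
      obtain ⟨j, hj⟩ := h.exists_mem h2
      exact ⟨j, h1, hj⟩
    · rintro ⟨j, h1, h2⟩
      exact ⟨h1, h.subset j h2⟩
  have e2 : A ∩ Ico 0 1 = ⋃ j, (A ∩ (fun x => x + t j) '' I j) := by
    ext y
    simp only [mem_inter_iff, mem_iUnion]
    constructor
    · rintro ⟨h1, h2⟩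
      obtain ⟨x, hx, rfl⟩ := h.bij.surjOn h2
      obtain ⟨j, hj⟩ := h.exists_mem hx
      exact ⟨j, h1, x, hj, (ht j x hj).symm⟩
    · rintro ⟨j, h1, x, hx, rfl⟩
      refine ⟨h1, ?_⟩
      have := h.bij.mapsTo (h.subset j hx)
      rwa [ht j x hx] at this
  rw [e1, e2, measure_iUnion, measure_iUnion]
  · refine tsum_congr fun j => ?_
    have e3 : T ⁻¹' A ∩ I j = (fun x => x + t j) ⁻¹' (A ∩ (fun x => x + t j) '' I j) := by
      ext x
      simp only [mem_inter_iff, mem_preimage]
      constructor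
      · rintro ⟨h1, h2⟩
        rw [ht j x h2] at h1
        exact ⟨h1, x, h2, rfl⟩
      · rintro ⟨h1, z, hz, hzx⟩
        have : z = x := by simpa using hzx
        subst this
        exact ⟨by rw [ht j z hz]; exact h1, hz⟩
    rw [e3]
    exact measure_preimage_add_right volume (t j) _
  · intro i j hij
    rw [Function.onFun, Set.disjoint_left]
    rintro y ⟨_, x, hx, hxy⟩ ⟨_, z, hz, hzy⟩
    have h1 : T x = T z := by
      rw [ht i x hx, ht j z hz]; exact hxy.trans hzy.symm
    have h2 : x = z := h.bij.injOn (h.subset i hx) (h.subset j hz) h1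
    subst h2
    exact (Set.disjoint_left.1 (h.disj hij)) hx hz
  · intro j
    refine hA.inter ?_
    have : (fun x => x + t j) '' I j = Ico (c j.castSucc + t j) (c j.succ + t j) := by
      simp [hI]
    rw [this]
    exact measurableSet_Ico
  · intro i j hij
    exact ((h.disj hij).mono inter_subset_right inter_subset_right)
  · intro j
    exact (hT hA).inter measurableSet_Ico

instance : Fact ((0 : ℝ) < 1) := ⟨one_pos⟩

theorem irrational_addOrderOf {α : ℝ} (hα : Irrational α) :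
    addOrderOf ((α : ℝ) : AddCircle (1 : ℝ)) = 0 := by
  rw [addOrderOf_eq_zero_iff', ]
  intro n hn h0
  have h1 : ((n * α : ℝ) : AddCircle (1 : ℝ)) = 0 := by
    rw [← h0, ← AddCircle.coe_nsmul, nsmul_eq_mul]
  rw [AddCircle.coe_eq_zero_iff] at h1
  obtain ⟨m, hm⟩ := h1
  have h2 : (n : ℝ) * α = m := by rw [← hm]; simp
  exact (hα.natCast_mul hn.ne').ne_int m h2

/-- an a.e. invariant set of an irrational rotation of `[0,1)` is null or conull -/
theorem rot_ae {α : ℝ} (hα : Irrational α) {S : Set ℝ} (hS : MeasurableSet S)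
    (hinv : ∀ᵐ x ∂μ, (x ∈ S ↔ Int.fract (x + α) ∈ S)) :
    (∀ᵐ x ∂μ, x ∈ S) ∨ (∀ᵐ x ∂μ, x ∉ S) := by
  -- the circle version of `S`
  let S' : Set (AddCircle (1 : ℝ)) := {y | ((AddCircle.equivIco 1 0 y : ℝ)) ∈ S}
  have hS' : MeasurableSet S' := by
    have h1 : Measurable fun y : AddCircle (1 : ℝ) => ((AddCircle.measurableEquivIco 1 0 y : ℝ)) :=
      measurable_subtype_coe.comp (AddCircle.measurableEquivIco (1 : ℝ) 0).measurable
    exact h1 hS
  have hmp := AddCircle.measurePreserving_mk 1 0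
  have hμ : (volume.restrict (Ioc (0 : ℝ) (0 + 1))) = μ := by
    unfold μ
    rw [zero_add]
    exact (restrict_Ico_eq_restrict_Ioc).symm
  rw [hμ] at hmp
  have hval : ∀ x : ℝ, ((AddCircle.equivIco (1 : ℝ) 0 (x : AddCircle (1 : ℝ)) : ℝ)) =
      Int.fract x := by
    intro x
    rw [AddCircle.coe_equivIco_mk_apply]
    simp
  have hmem : ∀ x : ℝ, ((x : AddCircle (1 : ℝ)) ∈ S' ↔ Int.fract x ∈ S) := by
    intro x
    show ((AddCircle.equivIco (1 : ℝ) 0 (x : AddCircle (1 : ℝ)) : ℝ)) ∈ S ↔ _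
    rw [hval]
  have herg : Ergodic (((α : ℝ) : AddCircle (1 : ℝ)) + ·) :=
    AddCircle.ergodic_add_left.2 (irrational_addOrderOf hα)
  have hx01 : ∀ᵐ x ∂μ, x ∈ Ico (0 : ℝ) 1 := by
    unfold μ; exact ae_restrict_mem measurableSet_Ico
  have hinv' : (((α : ℝ) : AddCircle (1 : ℝ)) + ·) ⁻¹' S' =ᵐ[volume] S' := by
    rw [Filter.eventuallyEq_set]
    rw [← hmp.map_eq]
    rw [ae_map_iff hmp.measurable.aemeasurable]
    · filter_upwards [hinv, hx01] with x hx hx1
      rw [mem_preimage, ← AddCircle.coe_add, hmem, hmem, add_comm α x,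
        Int.fract_eq_self.2 ⟨hx1.1, hx1.2⟩]
      exact hx.symm
    · have h1 : MeasurableSet ((((α : ℝ) : AddCircle (1 : ℝ)) + ·) ⁻¹' S') :=
        (measurable_const_add _) hS'
      exact (h1.inter hS').union (h1.compl.inter hS'.compl) |>.congr (by
        ext y
        simp only [mem_union, mem_inter_iff, mem_compl_iff, mem_ofPred_eq]
        tauto)
  have := herg.quasiErgodic.ae_mem_or_ae_notMem₀ hS'.nullMeasurableSet hinv'
  rcases this with h | h
  · left
    rw [← hmp.map_eq, ae_map_iff hmp.measurable.aemeasurable (by exact hS')] at h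
    filter_upwards [h, hx01] with x hx hx1
    rw [hmem, Int.fract_eq_self.2 ⟨hx1.1, hx1.2⟩] at hx
    exact hx
  · right
    rw [← hmp.map_eq, ae_map_iff hmp.measurable.aemeasurable (by exact hS'.compl)] at h
    filter_upwards [h, hx01] with x hx hx1
    rw [hmem, Int.fract_eq_self.2 ⟨hx1.1, hx1.2⟩] at hx
    exact hx

end Q66.Iet
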