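import Mathlib

/-!
# Interval exchanges of `[0,1)` and piecewise constant `SL(2,ℝ)` cocycles over them
-/

open MeasureTheory Set Matrix

namespace Q66.Iet

/-- The group `SL(2,ℝ)`. -/
abbrev SL2 := SpecialLinearGroup (Fin 2) ℝ

/-- Lebesgue measure on `[0,1)`, viewed as a measure on `ℝ`. -/
noncomputable def μ : Measure ℝ := volume.restrict (Ico 0 1)

/-- `T` (as a map of `[0,1)`) is an interval exchange transformation on the `d ≥ 2` intervals
`[c j, c (j+1))` of `[0,1)`, where `0 = c 0 < c 1 < ⋯ < c d = 1`: it translates each of them, and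
the images again tile `[0,1)`. -/
structure IsIET (d : ℕ) (c : Fin (d + 1) → ℝ) (T : ℝ → ℝ) : Prop where
  two_le : 2 ≤ d
  zero : c 0 = 0
  one : c (Fin.last d) = 1
  mono : StrictMono c
  trans : ∀ j : Fin d, ∃ t : ℝ, ∀ x ∈ Ico (c j.castSucc) (c j.succ), T x = x + t
  bij : BijOn T (Ico 0 1) (Ico 0 1)

/-- `ρ` is the piecewise constant cocycle with value `M j` on the interval `[c j, c (j+1))`. -/
def IsPiecewise {d : ℕ} (c : Fin (d + 1) → ℝ) (M : Fin d → SL2) (ρ : ℝ → SL2) : Prop :=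
  ∀ j : Fin d, ∀ x ∈ Ico (c j.castSucc) (c j.succ), ρ x = M j

/-- A subgroup of `SL(2,ℝ)` is Zariski dense if every real polynomial in the four matrix entries
that vanishes on it vanishes on all of `SL(2,ℝ)`. -/
def ZariskiDense (Γ : Subgroup SL2) : Prop :=
  ∀ P : MvPolynomial (Fin 2 × Fin 2) ℝ,
    (∀ γ ∈ Γ, MvPolynomial.eval (fun ij => γ.1 ij.1 ij.2) P = 0) →
      ∀ γ : SL2, MvPolynomial.eval (fun ij => γ.1 ij.1 ij.2) P = 0

/-- The cocycle with values `M` is non-elementary if the values generate a Zariski dense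
subgroup. -/
def NonElementary {d : ℕ} (M : Fin d → SL2) : Prop :=
  ZariskiDense (Subgroup.closure (range M))

/-- A map into `SL(2,ℝ)` is measurable if its four entries are. -/
def MeasSL (B : ℝ → SL2) : Prop := ∀ i j, Measurable fun x => (B x).1 i j

/-- Hyperbolic data aside, `(T, ρ)` is of parabolic type if `ρ` is measurably conjugate over `T`
to an upper triangular cocycle with positive diagonal entries `v, 1/v` with `∫ log v = 0`. -/
def ParabolicType (T : ℝ → ℝ) (ρ : ℝ → SL2) : Prop :=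
  ∃ B : ℝ → SL2, MeasSL B ∧ ∃ v m : ℝ → ℝ, Measurable v ∧ Measurable m ∧ (∀ x, 0 < v x) ∧
    Integrable (fun x => Real.log (v x)) μ ∧ ∫ x, Real.log (v x) ∂μ = 0 ∧
    ∀ᵐ x ∂μ, (B (T x) * ρ x * (B x)⁻¹).1 = !![v x, m x; 0, 1 / v x]

/-- `(T, ρ)` is of elliptic type if `ρ` is measurably conjugate over `T` to a cocycle of
rotations. -/
def EllipticType (T : ℝ → ℝ) (ρ : ℝ → SL2) : Prop :=
  ∃ B : ℝ → SL2, MeasSL B ∧ ∃ θ : ℝ → ℝ, Measurable θ ∧
    ∀ᵐ x ∂μ, (B (T x) * ρ x * (B x)⁻¹).1 =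
      !![Real.cos (θ x), -Real.sin (θ x); Real.sin (θ x), Real.cos (θ x)]

end Q66.Iet
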