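import Pool.Agent.Q66.IetDefs

/-!
# A criterion for Zariski density in `SL(2,ℝ)`
-/

open Set Matrix

namespace Q66.Iet

/-- evaluation of a complex polynomial in the entries at a complex matrix -/
noncomputable def evC (P : MvPolynomial (Fin 2 × Fin 2) ℂ) (A : Matrix (Fin 2) (Fin 2) ℂ) : ℂ :=
  MvPolynomial.eval (fun ij => A ij.1 ij.2) P

/-- the complex matrix of an element of `SL(2,ℝ)` -/
noncomputable def toC (γ : SL2) : Matrix (Fin 2) (Fin 2) ℂ := γ.1.map (algebraMap ℝ ℂ)

theorem toC_mul (a b : SL2) : toC (a * b) = toC a * toC b := by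
  unfold toC
  rw [← Matrix.map_mul]
  rfl

/-- the Zariski closure among complex matrices -/
def Zc (Γ : Subgroup SL2) : Set (Matrix (Fin 2) (Fin 2) ℂ) :=
  {A | ∀ P : MvPolynomial (Fin 2 × Fin 2) ℂ, (∀ γ ∈ Γ, evC P (toC γ) = 0) → evC P A = 0}

theorem toC_mem {Γ : Subgroup SL2} {γ : SL2} (h : γ ∈ Γ) : toC γ ∈ Zc Γ := fun _ hP => hP γ h

/-- left multiplication of the variables -/
noncomputable def lsub (A : Matrix (Fin 2) (Fin 2) ℂ) (P : MvPolynomial (Fin 2 × Fin 2) ℂ) :
    MvPolynomial (Fin 2 × Fin 2) ℂ :=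
  MvPolynomial.bind₁ (fun ij => ∑ k, MvPolynomial.C (A ij.1 k) * MvPolynomial.X (k, ij.2)) P

/-- right multiplication of the variables -/
noncomputable def rsub (B : Matrix (Fin 2) (Fin 2) ℂ) (P : MvPolynomial (Fin 2 × Fin 2) ℂ) :
    MvPolynomial (Fin 2 × Fin 2) ℂ :=
  MvPolynomial.bind₁ (fun ij => ∑ k, MvPolynomial.X (ij.1, k) * MvPolynomial.C (B k ij.2)) P

theorem evC_lsub (A B : Matrix (Fin 2) (Fin 2) ℂ) (P : MvPolynomial (Fin 2 × Fin 2) ℂ) :
    evC (lsub A P) B = evC P (A * B) := by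
  induction P using MvPolynomial.induction_on with
  | C a => simp [evC, lsub]
  | add p q hp hq =>
    simp only [evC, lsub, map_add] at hp hq ⊢
    rw [hp, hq]
  | mul_X p n hp =>
    simp only [evC, lsub, map_mul, MvPolynomial.bind₁_X_right] at hp ⊢
    rw [hp]
    simp [Matrix.mul_apply]

theorem evC_rsub (A B : Matrix (Fin 2) (Fin 2) ℂ) (P : MvPolynomial (Fin 2 × Fin 2) ℂ) :
    evC (rsub B P) A = evC P (A * B) := by
  induction P using MvPolynomial.induction_on with
  | C a => simp [evC, rsub]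
  | add p q hp hq =>
    simp only [evC, rsub, map_add] at hp hq ⊢
    rw [hp, hq]
  | mul_X p n hp =>
    simp only [evC, rsub, map_mul, MvPolynomial.bind₁_X_right] at hp ⊢
    rw [hp]
    simp [Matrix.mul_apply]

theorem Zc_mul {Γ : Subgroup SL2} {A B : Matrix (Fin 2) (Fin 2) ℂ} (hA : A ∈ Zc Γ)
    (hB : B ∈ Zc Γ) : A * B ∈ Zc Γ := by
  intro P hP
  rw [← evC_rsub]
  refine hA _ fun γ hγ => ?_
  rw [evC_rsub, ← evC_lsub]
  refine hB _ fun δ hδ => ?_
  rw [evC_lsub, ← toC_mul]
  exact hP _ (mul_mem hγ hδ)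

/-- the diagonal matrix `diag(s, 1/s)` -/
noncomputable def dg (s : ℂ) : Matrix (Fin 2) (Fin 2) ℂ := !![s, 0; 0, s⁻¹]

theorem dg_mul (s t : ℂ) : dg s * dg t = dg (s * t) := by
  unfold dg
  ext i j
  fin_cases i <;> fin_cases j <;> simp [Matrix.mul_apply, mul_comm]

theorem dg_pow (s : ℂ) (n : ℕ) : dg s ^ n = dg (s ^ n) := by
  induction n with
  | zero => simp [dg, Matrix.one_fin_two]
  | succ n ih => rw [pow_succ, ih, dg_mul, pow_succ]

/-- polynomials along a conjugated torus are Laurent polynomials -/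
theorem laurent (C C' : Matrix (Fin 2) (Fin 2) ℂ) (P : MvPolynomial (Fin 2 × Fin 2) ℂ) :
    ∃ (N : ℕ) (r : Polynomial ℂ), ∀ s : ℂ, s ≠ 0 → s ^ N * evC P (C * dg s * C') = r.eval s := by
  induction P using MvPolynomial.induction_on with
  | C a => exact ⟨0, Polynomial.C a, fun s _ => by simp [evC]⟩
  | add P Q hP hQ =>
    obtain ⟨N, r, hr⟩ := hP
    obtain ⟨N', r', hr'⟩ := hQ
    refine ⟨N + N', Polynomial.X ^ N' * r + Polynomial.X ^ N * r', fun s hs => ?_⟩
    simp only [Polynomial.eval_add, Polynomial.eval_mul, Polynomial.eval_pow, Polynomial.eval_X,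
      ← hr s hs, ← hr' s hs, evC, map_add]
    ring
  | mul_X P p hP =>
    obtain ⟨N, r, hr⟩ := hP
    refine ⟨N + 1, r * (Polynomial.C (C p.1 0 * C' 0 p.2) * Polynomial.X ^ 2 +
      Polynomial.C (C p.1 1 * C' 1 p.2)), fun s hs => ?_⟩
    have h1 : evC (P * MvPolynomial.X p) (C * dg s * C') =
        evC P (C * dg s * C') * (C * dg s * C') p.1 p.2 := by
      simp only [evC, map_mul, MvPolynomial.eval_X]
    have h2 : (C * dg s * C') p.1 p.2 = C p.1 0 * C' 0 p.2 * s + C p.1 1 * C' 1 p.2 * s⁻¹ := by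
      simp [Matrix.mul_apply, dg, Fin.sum_univ_two]
      ring
    rw [h1, h2, Polynomial.eval_mul, ← hr s hs]
    simp only [Polynomial.eval_add, Polynomial.eval_mul, Polynomial.eval_pow, Polynomial.eval_X,
      Polynomial.eval_C]
    field_simp
    ring

/-- the closure contains the torus through an element of infinite order -/
theorem torus_mem {Γ : Subgroup SL2} {h : SL2} (hh : h ∈ Γ) {C C' : Matrix (Fin 2) (Fin 2) ℂ}
    (hC : C' * C = 1) {l : ℂ} (hinj : Function.Injective fun n : ℕ => l ^ n) (hl : l ≠ 0)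
    (he : toC h = C * dg l * C') {s : ℂ} (hs : s ≠ 0) : C * dg s * C' ∈ Zc Γ := by
  intro P hP
  obtain ⟨N, r, hr⟩ := laurent C C' P
  have hpow : ∀ n : ℕ, (toC h) ^ (n + 1) = C * dg (l ^ (n + 1)) * C' := by
    intro n
    induction n with
    | zero => simpa using he
    | succ n ih =>
      rw [pow_succ, ih, he]
      calc C * dg (l ^ (n + 1)) * C' * (C * dg l * C') =
          C * (dg (l ^ (n + 1)) * (C' * C) * dg l) * C' := by simp only [Matrix.mul_assoc]
        _ = _ := by rw [hC, Matrix.mul_one, dg_mul, ← pow_succ]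
  have hpow' : ∀ n : ℕ, toC (h ^ n) = (toC h) ^ n := by
    intro n
    induction n with
    | zero => unfold toC; ext i j; fin_cases i <;> fin_cases j <;> simp
    | succ n ih => rw [pow_succ, toC_mul, ih, pow_succ]
  have hz : r = 0 := by
    apply Polynomial.eq_zero_of_infinite_isRoot
    have : Set.range (fun n : ℕ => l ^ (n + 1)) ⊆ {x | Polynomial.IsRoot r x} := by
      rintro x ⟨n, rfl⟩
      show r.eval _ = 0
      rw [← hr _ (pow_ne_zero _ hl), ← hpow, ← hpow', hP _ (pow_mem hh _), mul_zero]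
    refine Set.Infinite.mono this (Set.infinite_range_of_injective ?_)
    intro m n hmn
    have := hinj hmn
    omega
  have := hr s hs
  rw [hz, Polynomial.eval_zero] at this
  exact (mul_eq_zero.1 this).resolve_left (pow_ne_zero _ hs)

theorem exists_sq (z : ℂ) : ∃ w : ℂ, w ^ 2 = z := by
  obtain ⟨w, hw⟩ := IsAlgClosed.exists_pow_nat_eq z (n := 2) (by norm_num)
  exact ⟨w, hw⟩

/-- the products `diag · g · diag · g⁻¹ · diag` fill all matrices with nonzero entries -/
theorem double_coset {a b c d p q r w : ℂ} (hdet : a * d - b * c = 1) (ha : a ≠ 0) (hb : b ≠ 0)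
    (hc : c ≠ 0) (hd : d ≠ 0) (hY : p * w - q * r = 1) (hp : p ≠ 0) (hq : q ≠ 0) (hr : r ≠ 0)
    (hw : w ≠ 0) : ∃ s t u : ℂ, s ≠ 0 ∧ t ≠ 0 ∧ u ≠ 0 ∧
      dg s * (!![a, b; c, d] * dg t * !![d, -b; -c, a]) * dg u = !![p, q; r, w] := by
  have habcd : a * b * c * d ≠ 0 := mul_ne_zero (mul_ne_zero (mul_ne_zero ha hb) hc) hd
  obtain ⟨τ, hτ⟩ := exists_sq (-(q * r) / (a * b * c * d))
  have hτ0 : τ ≠ 0 := by
    rintro rfl
    have h1 : -(q * r) / (a * b * c * d) ≠ 0 :=
      div_ne_zero (neg_ne_zero.2 (mul_ne_zero hq hr)) habcd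
    exact h1 (by rw [← hτ]; ring)
  obtain ⟨ρ, hρ⟩ := exists_sq (τ ^ 2 + 4)
  set t : ℂ := (τ + ρ) / 2 with ht
  have ht2 : t ^ 2 = τ * t + 1 := by rw [ht]; linear_combination (1 / 4 : ℂ) * hρ
  have ht0 : t ≠ 0 := by
    intro h0
    rw [h0] at ht2
    norm_num at ht2
  have htt : t - t⁻¹ = τ := by
    field_simp
    linear_combination ht2
  have hτ' : τ ^ 2 * (a * b * c * d) = -(q * r) := by
    rw [hτ]; field_simp
  set x11 : ℂ := a * d * t - b * c * t⁻¹ with hx11
  set x12 : ℂ := -(a * b) * τ with hx12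
  set x21 : ℂ := c * d * τ with hx21
  set x22 : ℂ := a * d * t⁻¹ - b * c * t with hx22
  have h12 : x12 * x21 = q * r := by rw [hx12, hx21]; linear_combination -hτ'
  have hti : t * t⁻¹ = 1 := mul_inv_cancel₀ ht0
  have h11 : x11 * x22 = p * w := by
    have e1 : x11 * x22 - x12 * x21 = 1 := by
      rw [hx11, hx12, hx21, hx22, ← htt]
      have e2 : a * d * t - b * c * t⁻¹ = t + b * c * (t - t⁻¹) := by
        linear_combination t * hdet
      have e3 : a * d * t⁻¹ - b * c * t = t⁻¹ - b * c * (t - t⁻¹) := by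
        linear_combination t⁻¹ * hdet
      rw [e2, e3]
      linear_combination (1 : ℂ) * hti + (b * c * (t - t⁻¹) ^ 2) * hdet
    linear_combination e1 + h12 - hY
  have hx11' : x11 ≠ 0 := by
    intro h0; rw [h0, zero_mul] at h11
    exact (mul_ne_zero hp hw) h11.symm
  have hx22' : x22 ≠ 0 := by
    intro h0; rw [h0, mul_zero] at h11
    exact (mul_ne_zero hp hw) h11.symm
  have hx12' : x12 ≠ 0 := by
    intro h0; rw [h0, zero_mul] at h12
    exact (mul_ne_zero hq hr) h12.symm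
  have hx21' : x21 ≠ 0 := by
    intro h0; rw [h0, mul_zero] at h12
    exact (mul_ne_zero hq hr) h12.symm
  obtain ⟨s, hs⟩ := exists_sq (p / x11 * (q / x12))
  have hs0 : s ≠ 0 := by
    rintro rfl
    have h1 : p / x11 * (q / x12) ≠ 0 := mul_ne_zero (div_ne_zero hp hx11') (div_ne_zero hq hx12')
    exact h1 (by rw [← hs]; ring)
  set u : ℂ := p / x11 / s with hu
  have hu0 : u ≠ 0 := div_ne_zero (div_ne_zero hp hx11') hs0
  refine ⟨s, t, u, hs0, ht0, hu0, ?_⟩
  have hsu : s * u = p / x11 := by rw [hu]; field_simp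
  have hsu' : s * u⁻¹ = q / x12 := by
    rw [hu]
    field_simp
    have : s ^ 2 * (x11 * x12) = p * q := by rw [hs]; field_simp
    linear_combination this
  have hus : s⁻¹ * u = x12 / q := by
    have : s⁻¹ * u = (s * u⁻¹)⁻¹ := by rw [mul_inv, inv_inv]
    rw [this, hsu', inv_div]
  have huu : s⁻¹ * u⁻¹ = x11 / p := by
    rw [← mul_inv, hsu, inv_div]
  have hX : !![a, b; c, d] * dg t * !![d, -b; -c, a] = !![x11, x12; x21, x22] := by
    unfold dg
    rw [hx11, hx12, hx21, hx22, ← htt]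
    ext i j
    fin_cases i <;> fin_cases j <;> simp [Matrix.mul_apply, Fin.sum_univ_two] <;> ring
  rw [hX]
  unfold dg
  ext i j
  fin_cases i <;> fin_cases j <;> simp [Matrix.mul_apply, Fin.sum_univ_two]
  · calc s * x11 * u = x11 * (s * u) := by ring
      _ = p := by rw [hsu]; field_simp
  · calc s * x12 * u⁻¹ = x12 * (s * u⁻¹) := by ring
      _ = q := by rw [hsu']; field_simp
  · calc s⁻¹ * x21 * u = x21 * (s⁻¹ * u) := by ring
      _ = x12 * x21 / q := by rw [hus]; ring
      _ = r := by rw [h12]; field_simp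
  · calc s⁻¹ * x22 * u⁻¹ = x22 * (s⁻¹ * u⁻¹) := by ring
      _ = x11 * x22 / p := by rw [huu]; ring
      _ = w := by rw [h11]; field_simp

/-- for each linear function that is not identically zero, all but one value is nonzero -/
theorem lin_fin (α β : ℂ) (h : α ≠ 0 ∨ β ≠ 0) : {x : ℂ | α + β * x = 0}.Finite := by
  by_cases hβ : β = 0
  · have hα : α ≠ 0 := by
      rcases h with h | h
      · exact h
      · exact absurd hβ h
    convert Set.finite_empty
    ext x
    simp [hβ, hα]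
  · refine (Set.finite_singleton (-α / β)).subset fun x hx => ?_
    have hx' : α + β * x = 0 := hx
    rw [Set.mem_singleton_iff]
    field_simp
    linear_combination hx'

theorem generic {p q r w : ℂ} (hY : p * w - q * r = 1) : ∃ x y : ℂ, x ≠ 0 ∧ y ≠ 0 ∧
    1 + x * y ≠ 0 ∧ p + q * x ≠ 0 ∧ r + w * x ≠ 0 ∧ p * y + q * (1 + x * y) ≠ 0 ∧
    r * y + w * (1 + x * y) ≠ 0 := by
  have h1 : p ≠ 0 ∨ q ≠ 0 := by
    by_contra h; push Not at h; rw [h.1, h.2] at hY; norm_num at hY
  have h2 : r ≠ 0 ∨ w ≠ 0 := by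
    by_contra h; push Not at h; rw [h.1, h.2] at hY; norm_num at hY
  have hf := ((lin_fin 0 1 (Or.inr one_ne_zero)).union (lin_fin p q h1)).union (lin_fin r w h2)
  obtain ⟨x, hx⟩ := hf.exists_notMem
  simp only [Set.mem_union, Set.mem_ofPred_eq, not_or] at hx
  obtain ⟨⟨hx0, hx1⟩, hx2⟩ := hx
  have hf2 := (((lin_fin 0 1 (Or.inr one_ne_zero)).union (lin_fin 1 x (Or.inl one_ne_zero))).union
    (lin_fin q (p + q * x) (Or.inr hx1))).union (lin_fin w (r + w * x) (Or.inr hx2))
  obtain ⟨y, hy⟩ := hf2.exists_notMem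
  simp only [Set.mem_union, Set.mem_ofPred_eq, not_or] at hy
  obtain ⟨⟨⟨hy0, hy1⟩, hy2⟩, hy3⟩ := hy
  refine ⟨x, y, by simpa using hx0, by simpa using hy0, hy1, hx1, hx2, ?_, ?_⟩
  · intro h; exact hy2 (by linear_combination h)
  · intro h; exact hy3 (by linear_combination h)

theorem evC_map (P : MvPolynomial (Fin 2 × Fin 2) ℝ) (δ : SL2) :
    evC (P.map (algebraMap ℝ ℂ)) (toC δ) =
      algebraMap ℝ ℂ (MvPolynomial.eval (fun ij => δ.1 ij.1 ij.2) P) := by
  induction P using MvPolynomial.induction_on with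
  | C a => simp [evC]
  | add p q hp hq =>
    simp only [evC, map_add] at hp hq ⊢
    rw [hp, hq]
  | mul_X p n hp =>
    simp only [evC, map_mul] at hp ⊢
    rw [hp]
    simp [toC]

/-- **Zariski density criterion**: an element diagonalised by `C` whose eigenvalue has infinite
order, and a second element all of whose entries in that eigenbasis are nonzero. -/
theorem zariskiDense_of {Γ : Subgroup SL2} {h g : SL2} (hh : h ∈ Γ) (hg : g ∈ Γ)
    {C C' : Matrix (Fin 2) (Fin 2) ℂ} (hC : C' * C = 1) {l : ℂ}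
    (hinj : Function.Injective fun n : ℕ => l ^ n) (hl : l ≠ 0) (he : toC h = C * dg l * C')
    {a b c d : ℂ} (hg' : C' * toC g * C = !![a, b; c, d]) (ha : a ≠ 0) (hb : b ≠ 0) (hc : c ≠ 0)
    (hd : d ≠ 0) : ZariskiDense Γ := by
  have hC' : C * C' = 1 := mul_eq_one_comm.1 hC
  have hdetC : C'.det * C.det = 1 := by rw [← Matrix.det_mul, hC, Matrix.det_one]
  have hdetg : ∀ γ : SL2, (toC γ).det = 1 := by
    intro γ
    unfold toC
    rw [← RingHom.mapMatrix_apply, ← RingHom.map_det, γ.2, map_one]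
  have hdet : a * d - b * c = 1 := by
    have h1 : (C' * toC g * C).det = 1 := by
      rw [Matrix.det_mul, Matrix.det_mul, hdetg, mul_one, hdetC]
    rw [hg', Matrix.det_fin_two_of] at h1
    exact h1
  -- the conjugated closure
  let K : Set (Matrix (Fin 2) (Fin 2) ℂ) := {X | C * X * C' ∈ Zc Γ}
  have Kmul : ∀ X ∈ K, ∀ Y ∈ K, X * Y ∈ K := by
    intro X hX Y hY
    have := Zc_mul hX hY
    show C * (X * Y) * C' ∈ Zc Γ
    have e : C * X * C' * (C * Y * C') = C * (X * Y) * C' := by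
      calc C * X * C' * (C * Y * C') = C * X * (C' * C) * Y * C' := by
            simp only [Matrix.mul_assoc]
        _ = _ := by rw [hC, Matrix.mul_one]; simp only [Matrix.mul_assoc]
    rwa [e] at this
  have Kconj : ∀ γ ∈ Γ, C' * toC γ * C ∈ K := by
    intro γ hγ
    show C * (C' * toC γ * C) * C' ∈ Zc Γ
    have e : C * (C' * toC γ * C) * C' = toC γ := by
      calc C * (C' * toC γ * C) * C' = (C * C') * toC γ * (C * C') := by
            simp only [Matrix.mul_assoc]
        _ = _ := by rw [hC', Matrix.one_mul, Matrix.mul_one]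
    rw [e]; exact toC_mem hγ
  have Kdg : ∀ s : ℂ, s ≠ 0 → dg s ∈ K := fun s hs => torus_mem hh hC hinj hl he hs
  have Kg : !![a, b; c, d] ∈ K := by rw [← hg']; exact Kconj g hg
  have Kg' : !![d, -b; -c, a] ∈ K := by
    have h1 := Kconj g⁻¹ (inv_mem hg)
    have h2 : toC g⁻¹ * toC g = 1 := by
      rw [← toC_mul, inv_mul_cancel]
      unfold toC; ext i j; fin_cases i <;> fin_cases j <;> simp
    have h3 : (C' * toC g⁻¹ * C) * !![a, b; c, d] = 1 := by
      rw [← hg']
      calc C' * toC g⁻¹ * C * (C' * toC g * C) = C' * toC g⁻¹ * (C * C') * toC g * C := by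
            simp only [Matrix.mul_assoc]
        _ = C' * (toC g⁻¹ * toC g) * C := by rw [hC', Matrix.mul_one]; simp only [Matrix.mul_assoc]
        _ = 1 := by rw [h2, Matrix.mul_one, hC]
    have h4 : !![a, b; c, d] * !![d, -b; -c, a] = 1 := by
      ext i j
      fin_cases i <;> fin_cases j <;> simp [Matrix.mul_apply, Fin.sum_univ_two]
      · linear_combination hdet
      · ring
      · ring
      · linear_combination hdet
    have h5 : C' * toC g⁻¹ * C = !![d, -b; -c, a] := by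
      calc C' * toC g⁻¹ * C = C' * toC g⁻¹ * C * (!![a, b; c, d] * !![d, -b; -c, a]) := by
            rw [h4, Matrix.mul_one]
        _ = (C' * toC g⁻¹ * C * !![a, b; c, d]) * !![d, -b; -c, a] :=
            (Matrix.mul_assoc _ _ _).symm
        _ = _ := by rw [h3, Matrix.one_mul]
    rw [← h5]; exact h1
  have Kgen : ∀ p q r w : ℂ, p * w - q * r = 1 → p ≠ 0 → q ≠ 0 → r ≠ 0 → w ≠ 0 →
      !![p, q; r, w] ∈ K := by
    intro p q r w hY hp hq hr hw
    obtain ⟨s, t, u, hs, ht, hu, hst⟩ := double_coset hdet ha hb hc hd hY hp hq hr hw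
    rw [← hst]
    exact Kmul _ (Kmul _ (Kdg s hs) _ (Kmul _ (Kmul _ Kg _ (Kdg t ht)) _ Kg')) _ (Kdg u hu)
  have Kall : ∀ p q r w : ℂ, p * w - q * r = 1 → !![p, q; r, w] ∈ K := by
    intro p q r w hY
    obtain ⟨x, y, hx, hy, hxy, h1, h2, h3, h4⟩ := generic hY
    have hA : !![p + q * x, p * y + q * (1 + x * y); r + w * x, r * y + w * (1 + x * y)] ∈ K :=
      Kgen _ _ _ _ (by linear_combination hY) h1 h3 h2 h4
    have hB : !![1 + x * y, -y; -x, 1] ∈ K :=
      Kgen _ _ _ _ (by ring) hxy (neg_ne_zero.2 hy) (neg_ne_zero.2 hx) one_ne_zero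
    have := Kmul _ hA _ hB
    convert this using 1
    ext i j
    fin_cases i <;> fin_cases j <;> simp [Matrix.mul_apply, Fin.sum_univ_two] <;> ring
  intro P hP γ
  have h1 : toC γ ∈ Zc Γ := by
    have h2 : C' * toC γ * C ∈ K := by
      have h3 : (C' * toC γ * C).det = 1 := by
        rw [Matrix.det_mul, Matrix.det_mul, hdetg, mul_one, hdetC]
      rw [Matrix.eta_fin_two (C' * toC γ * C)]
      apply Kall
      rw [Matrix.det_fin_two] at h3
      exact h3
    have e : C * (C' * toC γ * C) * C' = toC γ := by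
      calc C * (C' * toC γ * C) * C' = (C * C') * toC γ * (C * C') := by
            simp only [Matrix.mul_assoc]
        _ = _ := by rw [hC', Matrix.one_mul, Matrix.mul_one]
    have h4 : C * (C' * toC γ * C) * C' ∈ Zc Γ := h2
    rwa [e] at h4
  have key := fun δ : SL2 => evC_map P δ
  have h5 := h1 (P.map (algebraMap ℝ ℂ)) (fun δ hδ => by rw [key, hP δ hδ, map_zero])
  rw [key] at h5
  exact (map_eq_zero _).1 h5

end Q66.Iet
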