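import Pool.Agent.Q66.IetBasic
import Pool.Agent.Q66.IetZar

/-!
# A non-elementary cocycle of parabolic type over the golden rotation
-/

open MeasureTheory Set Matrix Filter Topology

namespace Q66.Iet

/-- the inverse golden ratio `0.618…` -/
noncomputable def gs : ℝ := (Real.sqrt 5 - 1) / 2

theorem gs_sq : gs ^ 2 = 1 - gs := by
  unfold gs
  have := Real.sq_sqrt (show (0 : ℝ) ≤ 5 by norm_num)
  linear_combination (1 / 4 : ℝ) * this

theorem gs_lo : (3 : ℝ) / 5 < gs := by
  unfold gs
  have h1 : (11 / 5 : ℝ) < Real.sqrt 5 := Real.lt_sqrt_of_sq_lt (by norm_num)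
  linarith

theorem gs_hi : gs < 2 / 3 := by
  unfold gs
  have h1 : Real.sqrt 5 < 7 / 3 := by
    rw [Real.sqrt_lt' (by norm_num)]
    norm_num
  linarith

theorem gs_pos : 0 < gs := by linarith [gs_lo]

theorem gs_lt : gs < 1 := by linarith [gs_hi]

theorem gs_cube : gs ^ 3 = 2 * gs - 1 := by
  have := gs_sq
  calc gs ^ 3 = gs * gs ^ 2 := by ring
    _ = gs * (1 - gs) := by rw [this]
    _ = gs - gs ^ 2 := by ring
    _ = _ := by rw [this]; ring

theorem gs_irr : Irrational gs := by
  have h : gs = -Real.goldenConj := by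
    unfold gs Real.goldenConj
    ring
  rw [h]
  exact Real.goldenConj_irrational.neg

/-- the rotation of `[0,1)` by `gs²`, as a two-interval exchange -/
noncomputable def gT (x : ℝ) : ℝ := if x < gs then x + (1 - gs) else x - gs

/-- the renormalization -/
noncomputable def gS (x : ℝ) : ℝ :=
  if x < 2 * gs - 1 then x / (1 - gs) else if x < gs then (x - (2 * gs - 1)) / (1 - gs)
  else (x - gs) / (1 - gs)

/-- the three contractions -/
noncomputable def gf (x t : ℝ) : ℝ :=
  if x < 2 * gs - 1 then (6 + 6 * t) / (13 + t) else if x < gs then (6 + 3 * t) / (16 - 4 * t)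
  else (2 + 5 * t) / (14 - t)

theorem gf_mem (x : ℝ) {t : ℝ} (h0 : 0 ≤ t) (h1 : t ≤ 1) : 0 ≤ gf x t ∧ gf x t ≤ 1 := by
  unfold gf
  split_ifs
  · refine ⟨by positivity, ?_⟩
    rw [div_le_one (by linarith)]; linarith
  · refine ⟨div_nonneg (by linarith) (by linarith), ?_⟩
    rw [div_le_one (by linarith)]; linarith
  · refine ⟨div_nonneg (by linarith) (by linarith), ?_⟩
    rw [div_le_one (by linarith)]; linarith

theorem aux_contr {D E d : ℝ} (hD : 12 ≤ D) (hE : 12 ≤ E) : |72 * d / (D * E)| ≤ |d| / 2 := by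
  have hDE : 144 ≤ D * E := by nlinarith
  rw [abs_div, abs_mul, abs_of_pos (by linarith : (0 : ℝ) < D * E), abs_of_pos (by norm_num),
    div_le_div_iff₀ (by linarith) (by norm_num)]
  nlinarith [abs_nonneg d]

theorem gf_contr (x : ℝ) {t u : ℝ} (h0 : 0 ≤ t) (h1 : t ≤ 1) (h2 : 0 ≤ u) (h3 : u ≤ 1) :
    |gf x t - gf x u| ≤ |t - u| / 2 := by
  unfold gf
  split_ifs
  · have e : (6 + 6 * t) / (13 + t) - (6 + 6 * u) / (13 + u) =
        72 * (t - u) / ((13 + t) * (13 + u)) := by
      have : (13 + t) ≠ 0 := by positivity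
      have : (13 + u) ≠ 0 := by positivity
      field_simp; ring
    rw [e]; exact aux_contr (by linarith) (by linarith)
  · have e : (6 + 3 * t) / (16 - 4 * t) - (6 + 3 * u) / (16 - 4 * u) =
        72 * (t - u) / ((16 - 4 * t) * (16 - 4 * u)) := by
      have h4 : (16 - 4 * t) ≠ 0 := by linarith
      have h5 : (16 - 4 * u) ≠ 0 := by linarith
      rw [div_sub_div _ _ h4 h5]; congr 1; ring
    rw [e]; exact aux_contr (by linarith) (by linarith)
  · have e : (2 + 5 * t) / (14 - t) - (2 + 5 * u) / (14 - u) =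
        72 * (t - u) / ((14 - t) * (14 - u)) := by
      have h4 : (14 - t) ≠ 0 := by linarith
      have h5 : (14 - u) ≠ 0 := by linarith
      rw [div_sub_div _ _ h4 h5]; congr 1; ring
    rw [e]; exact aux_contr (by linarith) (by linarith)

/-- the approximations of the invariant slope -/
noncomputable def gt : ℕ → ℝ → ℝ
  | 0, _ => 0
  | n + 1, x => gf x (gt n (gS x))

theorem gt_mem (n : ℕ) : ∀ x, 0 ≤ gt n x ∧ gt n x ≤ 1 := by
  induction n with
  | zero => intro x; simp [gt]
  | succ n ih => intro x; exact gf_mem x (ih _).1 (ih _).2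

theorem gt_dist (n : ℕ) : ∀ x, |gt (n + 1) x - gt n x| ≤ (1 / 2) ^ n := by
  induction n with
  | zero =>
    intro x
    have h1 := gt_mem 1 x
    have h0 : gt 0 x = 0 := rfl
    rw [h0, sub_zero, abs_of_nonneg h1.1]
    simpa using h1.2
  | succ n ih =>
    intro x
    have h1 := gf_contr x (gt_mem (n + 1) (gS x)).1 (gt_mem (n + 1) (gS x)).2
      (gt_mem n (gS x)).1 (gt_mem n (gS x)).2
    have h2 := ih (gS x)
    show |gf x (gt (n + 1) (gS x)) - gf x (gt n (gS x))| ≤ _
    rw [pow_succ]
    linarith

theorem exists_lim (x : ℝ) : ∃ y, Tendsto (fun n => gt n x) atTop (𝓝 y) := by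
  apply cauchySeq_tendsto_of_complete
  apply cauchySeq_of_le_geometric (1 / 2) 1 (by norm_num)
  intro n
  rw [dist_comm, Real.dist_eq, one_mul]
  exact gt_dist n x

/-- the invariant slope -/
noncomputable def sl (x : ℝ) : ℝ := (exists_lim x).choose

theorem sl_lim (x : ℝ) : Tendsto (fun n => gt n x) atTop (𝓝 (sl x)) := (exists_lim x).choose_spec

theorem sl_mem (x : ℝ) : 0 ≤ sl x ∧ sl x ≤ 1 :=
  ⟨ge_of_tendsto' (sl_lim x) fun n => (gt_mem n x).1,
    le_of_tendsto' (sl_lim x) fun n => (gt_mem n x).2⟩

theorem sl_fix (x : ℝ) : sl x = gf x (sl (gS x)) := by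
  have h1 : Tendsto (fun n => gt (n + 1) x) atTop (𝓝 (sl x)) :=
    (sl_lim x).comp (tendsto_add_atTop_nat 1)
  have h2 : Tendsto (fun n => gt (n + 1) x) atTop (𝓝 (gf x (sl (gS x)))) := by
    rw [tendsto_iff_norm_sub_tendsto_zero]
    have h3 := (tendsto_iff_norm_sub_tendsto_zero.1 (sl_lim (gS x)))
    refine squeeze_zero (fun n => norm_nonneg _) (fun n => ?_) h3
    have h4 := gf_contr x (gt_mem n (gS x)).1 (gt_mem n (gS x)).2 (sl_mem (gS x)).1 (sl_mem (gS x)).2
    rw [Real.norm_eq_abs, Real.norm_eq_abs]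
    refine h4.trans ?_
    have := abs_nonneg (gt n (gS x) - sl (gS x))
    linarith
  exact tendsto_nhds_unique h1 h2

theorem meas_gT : Measurable gT := by
  unfold gT
  exact Measurable.ite measurableSet_Iio (by fun_prop) (by fun_prop)

theorem meas_gS : Measurable gS := by
  unfold gS
  exact Measurable.ite measurableSet_Iio (by fun_prop)
    (Measurable.ite measurableSet_Iio (by fun_prop) (by fun_prop))

theorem meas_gt (n : ℕ) : Measurable (gt n) := by
  induction n with
  | zero => exact measurable_const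
  | succ n ih =>
    have h1 : Measurable fun x => gt n (gS x) := ih.comp meas_gS
    show Measurable fun x => gf x (gt n (gS x))
    unfold gf
    exact Measurable.ite measurableSet_Iio (by fun_prop)
      (Measurable.ite measurableSet_Iio (by fun_prop) (by fun_prop))

theorem meas_sl : Measurable sl :=
  measurable_of_tendsto_metrizable meas_gt (tendsto_pi_nhds.2 sl_lim)

/-- the slope is mapped to the slope -/
def Good (x : ℝ) : Prop :=
  sl (gT x) = if x < gs then (-3 + 11 * sl x) / (6 + 5 * sl x) else (2 + 10 * sl x) / (7 + 3 * sl x)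

theorem good_step {x : ℝ} (h0 : 0 ≤ x) (h1 : x < 1) :
    Good x ∨ (gS x ∈ Ico (0 : ℝ) 1 ∧ (Good (gS x) → Good x) ∧
      gT x = (2 * gs - 1) + (1 - gs) * gT (gS x)) := by
  have hs := gs_sq
  have hlo := gs_lo
  have hhi := gs_hi
  have hg1 : (0 : ℝ) < 1 - gs := by linarith
  have hne : (1 - gs) ≠ 0 := hg1.ne'
  by_cases hA : x < 2 * gs - 1
  · -- branch 2
    right
    have hxs : x < gs := by linarith
    have hSx : gS x = x / (1 - gs) := by unfold gS; rw [if_pos hA]
    have hSlt : gS x < gs := by
      rw [hSx, div_lt_iff₀ hg1]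
      nlinarith
    have hS0 : 0 ≤ gS x := by rw [hSx]; positivity
    have hT : gT x = x + (1 - gs) := by unfold gT; rw [if_pos hxs]
    have hTS : gT (gS x) = gS x + (1 - gs) := by unfold gT; rw [if_pos hSlt]
    have hx : x = (1 - gs) * gS x := by rw [hSx]; field_simp
    have hTx : gT x = (2 * gs - 1) + (1 - gs) * gT (gS x) := by
      rw [hT, hTS]; nlinarith
    refine ⟨⟨hS0, by linarith⟩, ?_, hTx⟩
    intro hG
    unfold Good at hG ⊢
    rw [if_pos hSlt] at hG
    rw [if_pos hxs]
    have h2 : ¬ gT x < 2 * gs - 1 := by rw [hT]; linarith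
    have h3 : gT x < gs := by rw [hT]; linarith
    have hSTx : gS (gT x) = gT (gS x) := by
      unfold gS
      rw [if_neg h2, if_pos h3, div_eq_iff hne, hTx]
      unfold gS; ring
    have e1 := sl_fix (gT x)
    rw [hSTx, hG] at e1
    have e2 := sl_fix x
    unfold gf at e1 e2
    rw [if_neg h2, if_pos h3] at e1
    rw [if_pos hA] at e2
    rw [e1, e2]
    obtain ⟨m0, m1⟩ := sl_mem (gS x)
    set t := sl (gS x)
    have n1 : (6 + 5 * t) ≠ 0 := by positivity
    have n2 : (13 + t) ≠ 0 := by positivity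
    have n3 : 6 + 5 * ((6 + 6 * t) / (13 + t)) ≠ 0 := by positivity
    have n4 : 16 - 4 * ((-3 + 11 * t) / (6 + 5 * t)) ≠ 0 := by
      have : (-3 + 11 * t) / (6 + 5 * t) ≤ 1 := by
        rw [div_le_one (by positivity)]; linarith
      linarith
    rw [div_eq_div_iff n4 n3]
    field_simp
    ring
  · by_cases hB : x < gs
    · left
      unfold Good
      rw [if_pos hB]
      have hT : gT x = x + (1 - gs) := by unfold gT; rw [if_pos hB]
      have h2 : ¬ gT x < 2 * gs - 1 := by rw [hT]; linarith
      have h3 : ¬ gT x < gs := by rw [hT]; linarith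
      have hSTx : gS (gT x) = gS x := by
        unfold gS
        rw [if_neg h2, if_neg h3, if_neg hA, if_pos hB, hT]
        congr 1; ring
      have e1 := sl_fix (gT x)
      have e2 := sl_fix x
      rw [hSTx] at e1
      unfold gf at e1 e2
      rw [if_neg h2, if_neg h3] at e1
      rw [if_neg hA, if_pos hB] at e2
      rw [e1, e2]
      obtain ⟨m0, m1⟩ := sl_mem (gS x)
      set t := sl (gS x)
      have n1 : (14 - t) ≠ 0 := by linarith
      have n2 : (16 - 4 * t) ≠ 0 := by linarith
      have n2' : (0 : ℝ) < 16 - 4 * t := by linarith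
      have n3 : 6 + 5 * ((6 + 3 * t) / (16 - 4 * t)) ≠ 0 := by positivity
      rw [div_eq_div_iff n1 n3]
      have hu : (6 + 3 * t) / (16 - 4 * t) * (16 - 4 * t) = 6 + 3 * t := div_mul_cancel₀ _ n2
      linear_combination (-9 : ℝ) * hu
    · by_cases hC : x < 3 * gs - 1
      · left
        unfold Good
        rw [if_neg hB]
        have hT : gT x = x - gs := by unfold gT; rw [if_neg hB]
        have h2 : gT x < 2 * gs - 1 := by rw [hT]; linarith
        have hSTx : gS (gT x) = gS x := by
          unfold gS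
          rw [if_pos h2, if_neg hA, if_neg hB, hT]
        have e1 := sl_fix (gT x)
        have e2 := sl_fix x
        rw [hSTx] at e1
        unfold gf at e1 e2
        rw [if_pos h2] at e1
        rw [if_neg hA, if_neg hB] at e2
        rw [e1, e2]
        obtain ⟨m0, m1⟩ := sl_mem (gS x)
        set t := sl (gS x)
        have n1 : (13 + t) ≠ 0 := by linarith
        have n2 : (14 - t) ≠ 0 := by linarith
        have n2' : (0 : ℝ) < 14 - t := by linarith
        have n3 : 7 + 3 * ((2 + 5 * t) / (14 - t)) ≠ 0 := by positivity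
        rw [div_eq_div_iff n1 n3]
        field_simp
        ring
      · right
        have hSx : gS x = (x - gs) / (1 - gs) := by unfold gS; rw [if_neg hA, if_neg hB]
        have hSge : ¬ gS x < gs := by
          rw [hSx, not_lt, le_div_iff₀ hg1]
          nlinarith
        have hS1 : gS x < 1 := by rw [hSx, div_lt_one hg1]; linarith
        have hT : gT x = x - gs := by unfold gT; rw [if_neg hB]
        have hTS : gT (gS x) = gS x - gs := by unfold gT; rw [if_neg hSge]
        have hx : x - gs = (1 - gs) * gS x := by rw [hSx]; field_simp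
        have hTx : gT x = (2 * gs - 1) + (1 - gs) * gT (gS x) := by
          rw [hT, hTS]; nlinarith
        refine ⟨⟨by linarith, hS1⟩, ?_, hTx⟩
        intro hG
        unfold Good at hG ⊢
        rw [if_neg hSge] at hG
        rw [if_neg hB]
        have h2 : ¬ gT x < 2 * gs - 1 := by rw [hT]; linarith
        have h3 : gT x < gs := by rw [hT]; linarith
        have hSTx : gS (gT x) = gT (gS x) := by
          unfold gS
          rw [if_neg h2, if_pos h3, div_eq_iff hne, hTx]
          unfold gS; ring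
        have e1 := sl_fix (gT x)
        rw [hSTx, hG] at e1
        have e2 := sl_fix x
        unfold gf at e1 e2
        rw [if_neg h2, if_pos h3] at e1
        rw [if_neg hA, if_neg hB] at e2
        rw [e1, e2]
        obtain ⟨m0, m1⟩ := sl_mem (gS x)
        set t := sl (gS x)
        have n1 : (7 + 3 * t) ≠ 0 := by positivity
        have n2 : (14 - t) ≠ 0 := by linarith
        have n2' : (0 : ℝ) < 14 - t := by linarith
        have n3 : 7 + 3 * ((2 + 5 * t) / (14 - t)) ≠ 0 := by positivity
        have n4 : 16 - 4 * ((2 + 10 * t) / (7 + 3 * t)) ≠ 0 := by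
          have : (2 + 10 * t) / (7 + 3 * t) ≤ 2 := by
            rw [div_le_iff₀ (by positivity)]; linarith
          linarith
        rw [div_eq_div_iff n4 n3]
        field_simp
        ring

theorem gT_mem {x : ℝ} (h0 : 0 ≤ x) (h1 : x < 1) : gT x ∈ Ico (0 : ℝ) 1 := by
  have := gs_lo; have := gs_hi
  unfold gT
  split_ifs with h
  · exact ⟨by linarith, by linarith⟩
  · push Not at h; exact ⟨by linarith, by linarith⟩

theorem bad_close (n : ℕ) : ∀ x, 0 ≤ x → x < 1 → ¬ Good x → |gT x - (1 - gs)| ≤ (1 - gs) ^ n := by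
  have hlo := gs_lo
  have hhi := gs_hi
  have hs := gs_sq
  induction n with
  | zero =>
    intro x h0 h1 _
    have := gT_mem h0 h1
    rw [pow_zero, abs_le]
    constructor <;> linarith [this.1, this.2]
  | succ n ih =>
    intro x h0 h1 hb
    rcases good_step h0 h1 with h | ⟨h2, h3, h4⟩
    · exact absurd h hb
    · have hb' : ¬ Good (gS x) := fun h => hb (h3 h)
      have h5 := ih _ h2.1 h2.2 hb'
      have h6 : gT x - (1 - gs) = (1 - gs) * (gT (gS x) - (1 - gs)) := by
        rw [h4]; nlinarith
      rw [h6, abs_mul, abs_of_pos (by linarith : (0 : ℝ) < 1 - gs), pow_succ, mul_comm]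
      exact mul_le_mul_of_nonneg_right h5 (by linarith)

theorem good_of_pos {x : ℝ} (h0 : 0 < x) (h1 : x < 1) : Good x := by
  by_contra hb
  have hlo := gs_lo
  have hhi := gs_hi
  have h2 : |gT x - (1 - gs)| ≤ 0 := by
    refine le_of_tendsto_of_tendsto' tendsto_const_nhds
      (tendsto_pow_atTop_nhds_zero_of_lt_one (by linarith : (0 : ℝ) ≤ 1 - gs) (by linarith))
      fun n => bad_close n x h0.le h1 hb
  have h3 : gT x = 1 - gs := by
    have := abs_eq_zero.1 (le_antisymm h2 (abs_nonneg _))
    linarith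
  unfold gT at h3
  split_ifs at h3 <;> linarith

end Q66.Iet
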