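import Pool.Agent.Q66.IetGold

/-!
# The golden example: the integral, ergodicity, Zariski density
-/

open MeasureTheory Set Matrix Filter Topology intervalIntegral

namespace Q66.Iet

/-- the multiplier of the invariant slope -/
noncomputable def vv (x : ℝ) : ℝ := if x < gs then (6 + 5 * sl x) / 9 else (7 + 3 * sl x) / 8

theorem meas_vv : Measurable vv := by
  have := meas_sl
  unfold vv
  exact Measurable.ite measurableSet_Iio (by fun_prop) (by fun_prop)

theorem vv_bd (x : ℝ) : 2 / 3 ≤ vv x ∧ vv x ≤ 5 / 4 := by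
  have := sl_mem x
  unfold vv
  split_ifs <;> constructor <;> linarith

theorem vv_pos (x : ℝ) : 0 < vv x := by linarith [(vv_bd x).1]

theorem ii {F : ℝ → ℝ} (hF : Measurable F) {C : ℝ} (hb : ∀ x, |F x| ≤ C) (a b : ℝ) :
    IntervalIntegrable F volume a b := by
  rw [intervalIntegrable_iff]
  exact Measure.integrableOn_of_bounded (by simp) hF.aestronglyMeasurable
    (Eventually.of_forall fun x => by rw [Real.norm_eq_abs]; exact hb x)

theorem log_bd {w : ℝ} (h1 : 1 / 2 ≤ w) (h2 : w ≤ 16) : |Real.log w| ≤ 16 := by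
  rw [abs_le]
  constructor
  · have := Real.one_sub_inv_le_log_of_pos (by linarith : 0 < w)
    have h3 : w⁻¹ ≤ 2 := by
      rw [inv_le_comm₀ (by linarith) (by norm_num)]; linarith
    linarith
  · have := Real.log_le_sub_one_of_pos (by linarith : 0 < w)
    linarith

noncomputable def W0 (z : ℝ) : ℝ := Real.log (16 - 4 * sl z)
noncomputable def W1 (z : ℝ) : ℝ := Real.log (14 - sl z)
noncomputable def W2 (z : ℝ) : ℝ := Real.log (13 + sl z)
noncomputable def W3 (z : ℝ) : ℝ := Real.log (12 + 4 * sl z)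

theorem meas_W0 : Measurable W0 := by have := meas_sl; unfold W0; fun_prop
theorem meas_W1 : Measurable W1 := by have := meas_sl; unfold W1; fun_prop
theorem meas_W2 : Measurable W2 := by have := meas_sl; unfold W2; fun_prop
theorem meas_W3 : Measurable W3 := by have := meas_sl; unfold W3; fun_prop

theorem W0_bd (z : ℝ) : |W0 z| ≤ 16 := by
  have := sl_mem z; exact log_bd (by linarith) (by linarith)
theorem W1_bd (z : ℝ) : |W1 z| ≤ 16 := by
  have := sl_mem z; exact log_bd (by linarith) (by linarith)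
theorem W2_bd (z : ℝ) : |W2 z| ≤ 16 := by
  have := sl_mem z; exact log_bd (by linarith) (by linarith)
theorem W3_bd (z : ℝ) : |W3 z| ≤ 16 := by
  have := sl_mem z; exact log_bd (by linarith) (by linarith)

theorem logv_bd (z : ℝ) : |Real.log (vv z)| ≤ 16 := by
  have := vv_bd z; exact log_bd (by linarith) (by linarith)

theorem e_a {x : ℝ} (h : x < 2 * gs - 1) :
    Real.log (vv x) = W3 (x / (1 - gs)) - W2 (x / (1 - gs)) := by
  have hhi := gs_hi
  have hS : gS x = x / (1 - gs) := by unfold gS; rw [if_pos h]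
  have e := sl_fix x
  unfold gf at e
  rw [if_pos h, hS] at e
  unfold vv W3 W2
  rw [if_pos (by linarith), e]
  obtain ⟨m0, m1⟩ := sl_mem (x / (1 - gs))
  set t := sl (x / (1 - gs))
  rw [← Real.log_div (by positivity) (by positivity)]
  congr 1
  have n2 : (13 + t) ≠ 0 := by positivity
  field_simp
  ring

theorem e_b {x : ℝ} (h1 : ¬ x < 2 * gs - 1) (h : x < gs) :
    Real.log (vv x) = W1 ((x - (2 * gs - 1)) / (1 - gs)) - W0 ((x - (2 * gs - 1)) / (1 - gs)) := by
  have hhi := gs_hi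
  have hS : gS x = (x - (2 * gs - 1)) / (1 - gs) := by unfold gS; rw [if_neg h1, if_pos h]
  have e := sl_fix x
  unfold gf at e
  rw [if_neg h1, if_pos h, hS] at e
  unfold vv W1 W0
  rw [if_pos h, e]
  obtain ⟨m0, m1⟩ := sl_mem ((x - (2 * gs - 1)) / (1 - gs))
  set t := sl ((x - (2 * gs - 1)) / (1 - gs))
  have n1 : (14 - t) ≠ 0 := by linarith
  have n2 : (16 - 4 * t) ≠ 0 := by linarith
  rw [← Real.log_div n1 n2]
  congr 1
  have hu : (6 + 3 * t) / (16 - 4 * t) * (16 - 4 * t) = 6 + 3 * t := div_mul_cancel₀ _ n2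
  rw [eq_div_iff n2]
  linear_combination (5 / 9 : ℝ) * hu

theorem e_c {x : ℝ} (h : ¬ x < gs) :
    Real.log (vv x) = W2 ((x - gs) / (1 - gs)) - W1 ((x - gs) / (1 - gs)) := by
  have hhi := gs_hi
  have h1 : ¬ x < 2 * gs - 1 := fun h' => h (by linarith)
  have hS : gS x = (x - gs) / (1 - gs) := by unfold gS; rw [if_neg h1, if_neg h]
  have e := sl_fix x
  unfold gf at e
  rw [if_neg h1, if_neg h, hS] at e
  unfold vv W2 W1
  rw [if_neg h, e]
  obtain ⟨m0, m1⟩ := sl_mem ((x - gs) / (1 - gs))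
  set t := sl ((x - gs) / (1 - gs))
  have n1 : (13 + t) ≠ 0 := by linarith
  have n2 : (14 - t) ≠ 0 := by linarith
  rw [← Real.log_div n1 n2]
  congr 1
  have hu : (2 + 5 * t) / (14 - t) * (14 - t) = 2 + 5 * t := div_mul_cancel₀ _ n2
  rw [eq_div_iff n2]
  linear_combination (3 / 8 : ℝ) * hu

theorem e_d {z : ℝ} (h0 : 0 < z) (h : z < gs) : W3 z = Real.log (vv z) + W0 (gT z) := by
  have hhi := gs_hi
  have hG := good_of_pos h0 (by linarith)
  unfold Good at hG
  rw [if_pos h] at hG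
  obtain ⟨m0, m1⟩ := sl_mem z
  unfold W3 vv W0
  rw [if_pos h, hG]
  set t := sl z
  have n1 : (6 + 5 * t) ≠ 0 := by positivity
  have n4 : (0 : ℝ) < 16 - 4 * ((-3 + 11 * t) / (6 + 5 * t)) := by
    have : (-3 + 11 * t) / (6 + 5 * t) ≤ 1 := by
      rw [div_le_one (by positivity)]; linarith
    linarith
  rw [← Real.log_mul (by positivity) n4.ne']
  congr 1
  field_simp
  ring

theorem e_e {z : ℝ} (h1 : z < 1) (h : ¬ z < gs) : W2 z = Real.log (vv z) + W0 (gT z) := by
  have hlo := gs_lo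
  have hG := good_of_pos (by linarith [not_lt.1 h]) h1
  unfold Good at hG
  rw [if_neg h] at hG
  obtain ⟨m0, m1⟩ := sl_mem z
  unfold W2 vv W0
  rw [if_neg h, hG]
  set t := sl z
  have n1 : (7 + 3 * t) ≠ 0 := by positivity
  have n4 : (0 : ℝ) < 16 - 4 * ((2 + 10 * t) / (7 + 3 * t)) := by
    have : (2 + 10 * t) / (7 + 3 * t) ≤ 2 := by
      rw [div_le_iff₀ (by positivity)]; linarith
    linarith
  rw [← Real.log_mul (by positivity) n4.ne']
  congr 1
  field_simp
  ring

theorem gold_iet : IsIET 2 ![0, gs, 1] gT := by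
  have hlo := gs_lo
  have hhi := gs_hi
  refine ⟨le_refl _, rfl, rfl, ?_, ?_, ?_⟩
  · rw [Fin.strictMono_iff_lt_succ]
    intro i
    fin_cases i
    · show (0 : ℝ) < gs; linarith
    · show gs < (1 : ℝ); linarith
  · intro j
    fin_cases j
    · refine ⟨1 - gs, fun x hx => ?_⟩
      have h : x < gs := hx.2
      unfold gT; rw [if_pos h]
    · refine ⟨-gs, fun x hx => ?_⟩
      have h : gs ≤ x := hx.1
      unfold gT; rw [if_neg (not_lt.2 h)]; ring
  · refine ⟨fun x hx => gT_mem hx.1 hx.2, ?_, ?_⟩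
    · intro x hx y hy hxy
      unfold gT at hxy
      split_ifs at hxy with h1 h2 h2
      · linarith
      · linarith [hx.1, hy.2]
      · linarith [hy.1, hx.2]
      · linarith
    · intro y hy
      by_cases h : y < 1 - gs
      · refine ⟨y + gs, ⟨by linarith [hy.1], by linarith⟩, ?_⟩
        unfold gT; rw [if_neg (by linarith [hy.1])]; ring
      · refine ⟨y - (1 - gs), ⟨by linarith, by linarith [hy.2]⟩, ?_⟩
        unfold gT; rw [if_pos (by linarith [hy.2])]; ring

theorem gT_fract {x : ℝ} (hx : x ∈ Ico (0 : ℝ) 1) : gT x = Int.fract (x + (1 - gs)) := by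
  have hlo := gs_lo
  have hhi := gs_hi
  unfold gT
  split_ifs with h
  · rw [Int.fract_eq_self.2 ⟨by linarith [hx.1], by linarith⟩]
  · have : x + (1 - gs) = (x - gs) + 1 := by ring
    rw [this, Int.fract_add_one, Int.fract_eq_self.2 ⟨by linarith [not_lt.1 h], by linarith [hx.2]⟩]

theorem ae_mem01 : ∀ᵐ x ∂μ, x ∈ Ico (0 : ℝ) 1 := by
  unfold μ; exact ae_restrict_mem measurableSet_Ico

theorem gold_ergodic : Ergodic gT μ := by
  have hmp := gold_iet.measurePreserving meas_gT
  refine ⟨hmp, ⟨?_⟩⟩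
  intro S hS hinv
  rw [eventuallyConst_set]
  refine rot_ae (α := 1 - gs) ?_ hS ?_
  · have := gs_irr.natCast_sub 1
    simpa using this
  · filter_upwards [ae_mem01] with x hx
    rw [← gT_fract hx]
    have : x ∈ gT ⁻¹' S ↔ x ∈ S := by rw [hinv]
    exact this.symm

theorem mu_int (F : ℝ → ℝ) : ∫ x, F x ∂μ = ∫ x in (0 : ℝ)..1, F x := by
  unfold μ
  rw [integral_of_le zero_le_one, restrict_Ico_eq_restrict_Ioc]

theorem cov (G : ℝ → ℝ) (a b c : ℝ) : ∫ x in a..b, G ((x - c) / (1 - gs)) =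
    (1 - gs) * ∫ z in ((a - c) / (1 - gs))..((b - c) / (1 - gs)), G z := by
  have hg : (1 - gs) ≠ 0 := by linarith [gs_hi]
  have h := intervalIntegral.integral_comp_div_sub (a := a) (b := b) (f := G) hg (c / (1 - gs))
  rw [smul_eq_mul, ← sub_div, ← sub_div] at h
  rw [← h]
  congr 1
  ext x
  rw [sub_div]

theorem int_zero : ∫ x in (0 : ℝ)..1, Real.log (vv x) = 0 := by
  have hlo := gs_lo
  have hhi := gs_hi
  have hs := gs_sq
  have hg : (1 - gs) ≠ 0 := by linarith
  set F : ℝ → ℝ := fun x => Real.log (vv x) with hF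
  have mF : Measurable F := Real.measurable_log.comp meas_vv
  have iF : ∀ a b, IntervalIntegrable F volume a b := ii mF logv_bd
  have i0 := ii meas_W0 W0_bd
  have i1 := ii meas_W1 W1_bd
  have i2 := ii meas_W2 W2_bd
  have i3 := ii meas_W3 W3_bd
  have s1 : ∫ x in (0 : ℝ)..1, F x = (∫ x in (0 : ℝ)..(2 * gs - 1), F x) +
      (∫ x in (2 * gs - 1)..gs, F x) + ∫ x in gs..1, F x := by
    rw [integral_add_adjacent_intervals (iF _ _) (iF _ _),
      integral_add_adjacent_intervals (iF _ _) (iF _ _)]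
  have p1 : ∫ x in (0 : ℝ)..(2 * gs - 1), F x = (1 - gs) * ((∫ z in (0 : ℝ)..gs, W3 z) -
      ∫ z in (0 : ℝ)..gs, W2 z) := by
    have h1 : ∫ x in (0 : ℝ)..(2 * gs - 1), F x =
        ∫ x in (0 : ℝ)..(2 * gs - 1), (fun z => W3 z - W2 z) ((x - 0) / (1 - gs)) := by
      apply integral_congr_Ioo_of_le (by linarith)
      intro x hx
      show F x = W3 ((x - 0) / (1 - gs)) - W2 ((x - 0) / (1 - gs))
      rw [sub_zero]
      exact e_a hx.2
    have e1 : (2 * gs - 1 - 0) / (1 - gs) = gs := by rw [div_eq_iff hg]; nlinarith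
    rw [h1, cov (fun z => W3 z - W2 z), e1, sub_zero, zero_div, integral_sub (i3 _ _) (i2 _ _)]
  have p2 : ∫ x in (2 * gs - 1)..gs, F x = (1 - gs) * ((∫ z in (0 : ℝ)..1, W1 z) -
      ∫ z in (0 : ℝ)..1, W0 z) := by
    have h1 : ∫ x in (2 * gs - 1)..gs, F x =
        ∫ x in (2 * gs - 1)..gs, (fun z => W1 z - W0 z) ((x - (2 * gs - 1)) / (1 - gs)) := by
      apply integral_congr_Ioo_of_le (by linarith)
      intro x hx
      exact e_b (not_lt.2 hx.1.le) hx.2
    have e1 : (gs - (2 * gs - 1)) / (1 - gs) = 1 := by rw [div_eq_iff hg]; ring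
    rw [h1, cov (fun z => W1 z - W0 z), e1, sub_self, zero_div, integral_sub (i1 _ _) (i0 _ _)]
  have p3 : ∫ x in gs..1, F x = (1 - gs) * ((∫ z in (0 : ℝ)..1, W2 z) -
      ∫ z in (0 : ℝ)..1, W1 z) := by
    have h1 : ∫ x in gs..1, F x =
        ∫ x in gs..1, (fun z => W2 z - W1 z) ((x - gs) / (1 - gs)) := by
      apply integral_congr_Ioo_of_le (by linarith)
      intro x hx
      exact e_c (not_lt.2 hx.1.le)
    have e1 : (1 - gs) / (1 - gs) = 1 := div_self hg
    rw [h1, cov (fun z => W2 z - W1 z), e1, sub_self, zero_div, integral_sub (i2 _ _) (i1 _ _)]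
  have mWT : Measurable fun z => W0 (gT z) := meas_W0.comp meas_gT
  have iWT := ii mWT (fun z => W0_bd (gT z))
  have q1 : ∫ z in (0 : ℝ)..gs, W3 z = (∫ z in (0 : ℝ)..gs, F z) + ∫ z in (0 : ℝ)..gs, W0 (gT z) := by
    rw [← integral_add (iF _ _) (iWT _ _)]
    apply integral_congr_Ioo_of_le (by linarith)
    intro x hx
    exact e_d hx.1 hx.2
  have q2 : ∫ z in gs..1, W2 z = (∫ z in gs..1, F z) + ∫ z in gs..1, W0 (gT z) := by
    rw [← integral_add (iF _ _) (iWT _ _)]
    apply integral_congr_Ioo_of_le (by linarith)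
    intro x hx
    exact e_e hx.2 (not_lt.2 hx.1.le)
  have q3 : ∫ z in (0 : ℝ)..1, W0 (gT z) = ∫ z in (0 : ℝ)..1, W0 z := by
    rw [← mu_int, ← mu_int]
    have hmp := gold_iet.measurePreserving meas_gT
    conv_rhs => rw [← hmp.map_eq]
    rw [integral_map meas_gT.aemeasurable meas_W0.aestronglyMeasurable]
  have r1 := integral_add_adjacent_intervals (iF 0 gs) (iF gs 1)
  have r2 := integral_add_adjacent_intervals (iWT 0 gs) (iWT gs 1)
  have r3 := integral_add_adjacent_intervals (i2 0 gs) (i2 gs 1)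
  have : ∫ x in (0 : ℝ)..1, F x = (1 - gs) * ∫ x in (0 : ℝ)..1, F x := by
    calc ∫ x in (0 : ℝ)..1, F x = (1 - gs) * ((∫ z in (0 : ℝ)..gs, W3 z) - (∫ z in (0 : ℝ)..gs, W2 z) +
          (∫ z in (0 : ℝ)..1, W2 z) - ∫ z in (0 : ℝ)..1, W0 z) := by
          rw [s1, p1, p2, p3]; ring
      _ = _ := by
          rw [← r3, q1, q2, ← q3, ← r2, ← r1]; ring
  have h2 : gs * ∫ x in (0 : ℝ)..1, F x = 0 := by linarith
  exact (mul_eq_zero.1 h2).resolve_left (by linarith)

/-- first matrix -/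
noncomputable def mA : SL2 := ⟨!![2 / 3, 5 / 9; -1 / 3, 11 / 9], by
  rw [Matrix.det_fin_two_of]; norm_num⟩

/-- second matrix -/
noncomputable def mB : SL2 := ⟨!![7 / 8, 3 / 8; 1 / 4, 5 / 4], by
  rw [Matrix.det_fin_two_of]; norm_num⟩

theorem toC_mA : toC mA = !![2 / 3, 5 / 9; -1 / 3, 11 / 9] := by
  unfold toC mA
  ext i j
  fin_cases i <;> fin_cases j <;> simp [Matrix.map_apply]

theorem toC_mB : toC mB = !![7 / 8, 3 / 8; 1 / 4, 5 / 4] := by
  unfold toC mB
  ext i j
  fin_cases i <;> fin_cases j <;> simp [Matrix.map_apply]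

theorem gold_dense {Γ : Subgroup SL2} (hA : mA ∈ Γ) (hB : mB ∈ Γ) : ZariskiDense Γ := by
  set w : ℝ := Real.sqrt 33 with hw
  have hw2 : w ^ 2 = 33 := Real.sq_sqrt (by norm_num)
  have hw5 : 5 < w := Real.lt_sqrt_of_sq_lt (by norm_num)
  have hwc : (w : ℂ) ^ 2 = 33 := by exact_mod_cast hw2
  have hw0 : (w : ℂ) ≠ 0 := by
    have : w ≠ 0 := by linarith
    exact_mod_cast this
  have hl : ((17 + w) / 16 : ℂ) ≠ 0 := by
    have : (17 + w) / 16 ≠ 0 := by positivity
    exact_mod_cast this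
  have hli : ((17 + w) / 16 : ℂ)⁻¹ = (17 - w) / 16 := by
    apply inv_eq_of_mul_eq_one_right
    linear_combination (-1 / 256 : ℂ) * hwc
  obtain ⟨k, hk⟩ : ∃ k : ℂ, w * k = 1 := ⟨(w : ℂ)⁻¹, mul_inv_cancel₀ hw0⟩
  have hk0 : k ≠ 0 := by rintro rfl; simp at hk
  refine zariskiDense_of hB hA (C := !![6, 6; 3 + w, 3 - w])
    (C' := !![(w - 3) * k / 12, k / 2; (3 + w) * k / 12, -k / 2])
    (l := (17 + w) / 16) ?_ ?_ hl ?_
    (a := (102 + 102 * w) * k / 108) (b := -228 * k / 108) (c := 228 * k / 108)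
    (d := (102 * w - 102) * k / 108) ?_ ?_ ?_ ?_ ?_
  · ext i j
    fin_cases i <;> fin_cases j <;> simp [Matrix.mul_apply, Fin.sum_univ_two]
    · linear_combination hk
    · ring
    · ring
    · linear_combination hk
  · intro m n hmn
    have h1 : ‖((17 + w) / 16 : ℂ)‖ = (17 + w) / 16 := by
      have : ((17 + w) / 16 : ℂ) = (((17 + w) / 16 : ℝ) : ℂ) := by push_cast; ring
      rw [this, Complex.norm_real, Real.norm_of_nonneg (by positivity)]
    have h2 := congrArg norm hmn
    simp only [norm_pow, h1] at h2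
    exact pow_right_injective₀ (by positivity) (by
      intro h; linarith) h2
  · rw [toC_mB]
    unfold dg
    rw [hli]
    ext i j
    fin_cases i <;> fin_cases j <;> simp [Matrix.mul_apply, Fin.sum_univ_two]
    · linear_combination (-14 / 16 : ℂ) * hk
    · linear_combination (-3 / 8 : ℂ) * hk
    · linear_combination (-(1 / 4) : ℂ) * hk - (k * w / 96) * hwc
    · linear_combination (-(20 / 16) : ℂ) * hk
  · rw [toC_mA]
    ext i j
    fin_cases i <;> fin_cases j <;> simp [Matrix.mul_apply, Fin.sum_univ_two]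
    · linear_combination (5 / 108 * k) * hwc
    · linear_combination (-5 / 108 * k) * hwc
    · linear_combination (5 / 108 * k) * hwc
    · linear_combination (-5 / 108 * k) * hwc
  · have h1 : (102 + 102 * (w : ℂ)) ≠ 0 := by
      have : (102 + 102 * w) ≠ 0 := by positivity
      exact_mod_cast this
    exact div_ne_zero (mul_ne_zero h1 hk0) (by norm_num)
  · exact div_ne_zero (mul_ne_zero (by norm_num) hk0) (by norm_num)
  · exact div_ne_zero (mul_ne_zero (by norm_num) hk0) (by norm_num)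
  · have h1 : (102 * (w : ℂ) - 102) ≠ 0 := by
      have : 102 * w - 102 ≠ 0 := by
        have : 0 < 102 * w - 102 := by linarith
        exact this.ne'
      exact_mod_cast this
    exact div_ne_zero (mul_ne_zero h1 hk0) (by norm_num)

/-- the lower unipotent matrix with slope `-t` -/
def lowU (t : ℝ) : SL2 := ⟨!![1, 0; -t, 1], by rw [Matrix.det_fin_two_of]; ring⟩

/-- conjugating by the slopes makes the cocycle upper triangular -/
theorem conj_upper {p q r w t t' v : ℝ} (M : SL2) (hM : M.1 = !![p, q; r, w]) (hv : v ≠ 0)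
    (hv' : p + q * t = v) (ht : t' * v = r + w * t) :
    (lowU t' * M * (lowU t)⁻¹).1 = !![v, q; 0, 1 / v] := by
  have hdet : p * w - q * r = 1 := by
    have := M.2
    rw [hM, Matrix.det_fin_two_of] at this
    exact this
  have e : (lowU t' * M * (lowU t)⁻¹).1 =
      !![1, 0; -t', 1] * !![p, q; r, w] * !![1, 0; t, 1] := by
    rw [← hM]
    have h1 : ((lowU t)⁻¹).1 = !![1, 0; t, 1] := by
      unfold lowU
      rw [Matrix.SpecialLinearGroup.coe_inv]
      ext i j
      fin_cases i <;> fin_cases j <;> simp [Matrix.adjugate_fin_two]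
    rw [← h1]
    rfl
  rw [e]
  ext i j
  fin_cases i <;> fin_cases j <;> simp [Matrix.mul_apply, Fin.sum_univ_two]
  · linear_combination hv'
  · linear_combination (-t') * hv' - ht
  · rw [eq_comm, inv_eq_iff_eq_inv, eq_comm, inv_eq_iff_eq_inv, ← eq_comm]
    rw [eq_comm, inv_eq_of_mul_eq_one_right]
    linear_combination hdet - (q) * ht + w * (-hv')

end Q66.Iet
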