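import Pool.Agent.Q66.IetBasic

/-!
# One step of the construction of a coboundary over a Liouville rotation
-/

open MeasureTheory Set Filter Topology

namespace Q66.Iet

section Group

variable {G : Type*} [Group G]

/-- position of `x` in the `j`-th translate of the window starting at `w` -/
noncomputable def vp (α w : ℝ) (j : ℕ) (x : ℝ) : ℝ := Int.fract (x - w - j * α)

theorem vp_shift (α w : ℝ) (j : ℕ) (x : ℝ) : vp α w (j + 1) (x + α) = vp α w j x := by
  unfold vp
  congr 1
  push_cast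
  ring

open Classical in
/-- the value as a function of the position -/
noncomputable def qv (θ : ℝ) (g : G) (v : ℝ) : G := if v < θ then g else if v < 2 * θ then g ^ 2 else 1

/-- the ordered product of the corrections -/
noncomputable def Kp (α w θ : ℝ) (J g : G) : ℕ → ℝ → G
  | 0, _ => 1
  | n + 1, x => Kp α w θ J g n x * (J ^ n * qv θ g (vp α w (n + 1) x) * (J ^ n)⁻¹)

theorem Kp_shift (α w θ : ℝ) (J g : G) (n : ℕ) (x : ℝ) :
    Kp α w θ J g (n + 1) (x + α) = qv θ g (vp α w 0 x) * (J * Kp α w θ J g n x * J⁻¹) := by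
  induction n with
  | zero =>
    simp only [Kp, pow_zero, one_mul, inv_one, mul_one, mul_inv_cancel]
    rw [vp_shift]
  | succ n ih =>
    rw [Kp, ih, vp_shift, Kp, pow_succ']
    group

theorem Kp_one {α w θ : ℝ} {J g : G} {n : ℕ} {x : ℝ}
    (h : ∀ j, 0 < j → j ≤ n → 2 * θ ≤ vp α w j x) (hθ : 0 < θ) : Kp α w θ J g n x = 1 := by
  induction n with
  | zero => rfl
  | succ n ih =>
    rw [Kp, ih fun j h1 h2 => h j h1 (h2.trans (Nat.le_succ n))]
    have h1 := h (n + 1) (Nat.succ_pos n) le_rfl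
    unfold qv
    rw [if_neg (by linarith), if_neg (by linarith)]
    group

/-- separation of the window from its translates -/
theorem vp_sep {α w θ : ℝ} {j : ℕ} (hsep : ∀ m : ℤ, 3 * θ ≤ |j * α - m|) {x : ℝ}
    (h0 : vp α w 0 x < 3 * θ) : 3 * θ ≤ vp α w j x := by
  by_contra h
  push Not at h
  unfold vp at h0 h
  have e0 := Int.self_sub_floor (x - w - (0 : ℕ) * α)
  have e1 := Int.self_sub_floor (x - w - j * α)
  have p0 := Int.fract_nonneg (x - w - (0 : ℕ) * α)
  have p1 := Int.fract_nonneg (x - w - j * α)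
  have h2 := hsep (⌊x - w - (0 : ℕ) * α⌋ - ⌊x - w - j * α⌋)
  have h3 : (j : ℝ) * α - ((⌊x - w - (0 : ℕ) * α⌋ - ⌊x - w - j * α⌋ : ℤ) : ℝ) =
      Int.fract (x - w - (0 : ℕ) * α) - Int.fract (x - w - j * α) := by
    rw [← e0, ← e1]
    push_cast
    ring
  rw [h3] at h2
  have h4 : |Int.fract (x - w - (0 : ℕ) * α) - Int.fract (x - w - j * α)| < 3 * θ := by
    rw [abs_lt]; constructor <;> linarith
  linarith

/-- the cocycle identity of one step -/
theorem step_id {α w θ : ℝ} {J g : G} {N : ℕ} {p : ℤ} (hN : 0 < N) (hJ : J ^ N = 1)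
    (hg : g ^ 3 = 1) (hθ : 0 < θ) (hθ1 : 3 * θ ≤ 1) (hNα : N * α = p + θ)
    (hsep : ∀ j : ℕ, 0 < j → j < N → ∀ m : ℤ, 3 * θ ≤ |j * α - m|) (x : ℝ) :
    Kp α w θ J g N (x + α) * J * (Kp α w θ J g N x)⁻¹ =
      (if vp α w 0 x < 3 * θ then g else 1) * J := by
  obtain ⟨n, rfl⟩ : ∃ n, N = n + 1 := ⟨N - 1, by omega⟩
  have hJn : J ^ n = J⁻¹ := by
    rw [eq_inv_iff_mul_eq_one, ← pow_succ]; exact hJ
  have hvN : vp α w (n + 1) x = Int.fract (vp α w 0 x - θ) := by
    unfold vp
    have : x - w - ((n + 1 : ℕ) : ℝ) * α = (x - w - ((0 : ℕ) : ℝ) * α - θ) - p := by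
      rw [hNα]; push_cast; ring
    have h5 : Int.fract (x - w - ((0 : ℕ) : ℝ) * α) - θ =
        (x - w - ((0 : ℕ) : ℝ) * α - θ) - (⌊x - w - ((0 : ℕ) : ℝ) * α⌋ : ℤ) := by
      rw [← Int.self_sub_floor (x - w - ((0 : ℕ) : ℝ) * α)]; ring
    rw [this, Int.fract_sub_intCast, h5, Int.fract_sub_intCast]
  rw [Kp_shift, Kp, hJn]
  set v0 := vp α w 0 x with hv0
  have hv00 : 0 ≤ v0 := Int.fract_nonneg _
  have hv01 : v0 < 1 := Int.fract_lt_one _
  set K := Kp α w θ J g n x with hK
  by_cases h3 : v0 < 3 * θ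
  · rw [if_pos h3]
    have hK1 : K = 1 := by
      apply Kp_one _ hθ
      intro j h1 h2
      have := vp_sep (hsep j h1 (by omega)) (hv0 ▸ h3)
      linarith
    rw [hK1]
    by_cases h1 : v0 < θ
    · have h4 : vp α w (n + 1) x = v0 - θ + 1 := by
        rw [hvN, ← Int.fract_add_one, Int.fract_eq_self.2 ⟨by linarith, by linarith⟩]
      have e1 : qv θ g v0 = g := by unfold qv; rw [if_pos h1]
      have e2 : qv θ g (vp α w (n + 1) x) = 1 := by
        unfold qv; rw [h4, if_neg (by linarith), if_neg (by linarith)]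
      rw [e1, e2]; group
    · have h4 : vp α w (n + 1) x = v0 - θ := by
        rw [hvN, Int.fract_eq_self.2 ⟨by linarith, by linarith⟩]
      by_cases h2 : v0 < 2 * θ
      · have e1 : qv θ g v0 = g ^ 2 := by unfold qv; rw [if_neg h1, if_pos h2]
        have e2 : qv θ g (vp α w (n + 1) x) = g := by
          unfold qv; rw [h4, if_pos (by linarith)]
        rw [e1, e2, pow_two]; group
      · have e1 : qv θ g v0 = 1 := by unfold qv; rw [if_neg h1, if_neg h2]
        have e2 : qv θ g (vp α w (n + 1) x) = g ^ 2 := by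
          unfold qv; rw [h4, if_neg (by linarith), if_pos (by linarith)]
        have e3 : (g ^ 2)⁻¹ = g := by
          rw [inv_eq_iff_mul_eq_one, ← pow_succ]; exact hg
        rw [e1, e2]
        calc 1 * (J * 1 * J⁻¹) * J * (1 * (J⁻¹ * g ^ 2 * (J⁻¹)⁻¹))⁻¹ = (g ^ 2)⁻¹ * J := by group
          _ = g * J := by rw [e3]
  · rw [if_neg h3]
    have h4 : vp α w (n + 1) x = v0 - θ := by
      rw [hvN, Int.fract_eq_self.2 ⟨by linarith, by linarith⟩]
    have e1 : qv θ g v0 = 1 := by
      unfold qv; rw [if_neg (by linarith), if_neg (by linarith)]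
    have e2 : qv θ g (vp α w (n + 1) x) = 1 := by
      unfold qv; rw [h4, if_neg (by linarith), if_neg (by linarith)]
    rw [e1, e2]; group

/-- right local constancy -/
def RLC {H : Type*} (f : ℝ → H) : Prop := ∀ x, ∀ᶠ y in 𝓝[≥] x, f y = f x

theorem fract_right (x c : ℝ) : ∀ᶠ y in 𝓝[≥] x, Int.fract (y - c) = Int.fract (x - c) + (y - x) := by
  have h1 : 0 < 1 - Int.fract (x - c) := by linarith [Int.fract_lt_one (x - c)]
  have h2 : Iio (x + (1 - Int.fract (x - c))) ∈ 𝓝 x := Iio_mem_nhds (by linarith)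
  filter_upwards [self_mem_nhdsWithin, mem_nhdsWithin_of_mem_nhds h2] with y hy1 hy2
  have hy1' : x ≤ y := hy1
  have hy2' : y < x + (1 - Int.fract (x - c)) := hy2
  have h3 : y - c = (Int.fract (x - c) + (y - x)) + ⌊x - c⌋ := by
    rw [← Int.self_sub_floor]; ring
  rw [h3, Int.fract_add_intCast, Int.fract_eq_self.2 ⟨by linarith [Int.fract_nonneg (x - c)],
    by linarith⟩]

theorem rlc_qv (α w θ : ℝ) (g : G) (j : ℕ) : RLC fun x => qv θ g (vp α w j x) := by
  intro x
  have h1 := fract_right x (w + j * α)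
  have hlt : ∀ t : ℝ, ∀ᶠ y in 𝓝[≥] x, (vp α w j y < t ↔ vp α w j x < t) := by
    intro t
    by_cases ht : vp α w j x < t
    · have h2 : Iio (x + (t - vp α w j x)) ∈ 𝓝 x := Iio_mem_nhds (by linarith)
      filter_upwards [h1, mem_nhdsWithin_of_mem_nhds h2] with y hy hy2
      have hy2' : y < x + (t - vp α w j x) := hy2
      have e : vp α w j y = vp α w j x + (y - x) := by
        unfold vp; rw [sub_sub, sub_sub]; exact hy
      constructor
      · intro _; exact ht
      · intro _; rw [e]; linarith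
    · filter_upwards [h1, self_mem_nhdsWithin] with y hy hy2
      have hy2' : x ≤ y := hy2
      have e : vp α w j y = vp α w j x + (y - x) := by
        unfold vp; rw [sub_sub, sub_sub]; exact hy
      constructor
      · intro h; rw [e] at h; linarith
      · intro h; exact absurd h ht
  filter_upwards [hlt θ, hlt (2 * θ)] with y h2 h3
  unfold qv
  simp only [h2, h3]

theorem rlc_Kp (α w θ : ℝ) (J g : G) (n : ℕ) : RLC (Kp α w θ J g n) := by
  induction n with
  | zero => intro x; exact Eventually.of_forall fun _ => rfl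
  | succ n ih =>
    intro x
    filter_upwards [ih x, rlc_qv α w θ g (n + 1) x] with y h1 h2
    have h2' : qv θ g (vp α w (n + 1) y) = qv θ g (vp α w (n + 1) x) := h2
    rw [Kp, Kp, h1, h2']

theorem vp_per (α w : ℝ) (j : ℕ) (x : ℝ) : vp α w j (x + 1) = vp α w j x := by
  unfold vp
  have : x + 1 - w - j * α = (x - w - j * α) + 1 := by ring
  rw [this, Int.fract_add_one]

theorem Kp_per (α w θ : ℝ) (J g : G) (n : ℕ) (x : ℝ) :
    Kp α w θ J g n (x + 1) = Kp α w θ J g n x := by
  induction n with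
  | zero => rfl
  | succ n ih => rw [Kp, Kp, ih, vp_per]

end Group

/-- fast one-sided rational approximation with denominators divisible by `4` -/
def GoodA (α : ℝ) : Prop := ∀ ε : ℝ, 0 < ε → ∃ N p : ℕ, 0 < N ∧ 4 ∣ N ∧ N.Coprime p ∧
  0 < N * α - p ∧ N * α - p < ε / N

theorem sep_of_coprime {α θ : ℝ} {N p : ℕ} (hcop : N.Coprime p) (hθ : 0 < θ)
    (h4 : 4 * N * θ ≤ 1) (hNα : N * α = p + θ) {j : ℕ} (hj : 0 < j) (hjN : j < N) (m : ℤ) :
    3 * θ ≤ |j * α - m| := by
  by_contra h
  push Not at h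
  have hN : (0 : ℝ) < N := by
    have : 0 < N := by omega
    exact_mod_cast this
  have hjN' : (j : ℝ) < N := by exact_mod_cast hjN
  have hj' : (0 : ℝ) < j := by exact_mod_cast hj
  have h1 : ((j * p - m * N : ℤ) : ℝ) = N * (j * α - m) - j * θ := by
    push_cast
    linear_combination (-(j : ℝ)) * hNα
  have h2 : |((j * p - m * N : ℤ) : ℝ)| < 1 := by
    rw [h1]
    rw [abs_lt] at h ⊢
    constructor <;> nlinarith
  have h3 : (j * p - m * N : ℤ) = 0 := by
    rw [← Int.cast_abs] at h2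
    have : |(j * p - m * N : ℤ)| < 1 := by exact_mod_cast h2
    exact Int.abs_lt_one_iff.1 this
  have h4 : (N : ℤ) ∣ j * p := ⟨m, by linarith⟩
  have h5 : N ∣ j * p := by exact_mod_cast h4
  have h6 : N ∣ j := hcop.dvd_of_dvd_mul_right h5
  exact absurd (Nat.le_of_dvd hj h6) (by omega)

open LiouvilleNumber Nat in
/-- the Liouville number to the base `4` has such approximations -/
theorem goodA_liouville : GoodA (liouvilleNumber 4) := by
  intro ε hε
  obtain ⟨k0, hk0⟩ := exists_nat_gt (1 / ε)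
  set n := k0 + 2 with hn
  have hodd : ∃ p : ℕ, Odd p ∧ partialSum 4 (n + 1) = p / ((4 ^ (n + 1)! : ℕ) : ℝ) := by
    obtain ⟨q, hq⟩ := partialSum_eq_rat (m := 4) (by norm_num) n
    refine ⟨q * 4 ^ ((n + 1)! - n !) + 1, ?_, ?_⟩
    · have h1 : 0 < (n + 1)! - n ! := by
        have : n ! < (n + 1)! := Nat.factorial_lt (by omega) |>.2 (by omega)
        omega
      have h2 : Even (4 ^ ((n + 1)! - n !)) := (Nat.even_pow.2 ⟨by decide, h1.ne'⟩)
      exact (h2.mul_left q).add_one
    · have h3 : (4 : ℝ) ^ (n + 1)! = 4 ^ ((n + 1)! - n !) * 4 ^ n ! := by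
        rw [← pow_add]
        congr 1
        have := Nat.factorial_le (show n ≤ n + 1 by omega)
        omega
      have hq' : partialSum 4 n = q / (4 : ℝ) ^ n ! := by
        have := hq
        push_cast at this
        exact this
      rw [partialSum_succ, hq']
      push_cast
      rw [h3]
      field_simp
  obtain ⟨p, hp, hps⟩ := hodd
  have hrem := remainder_pos (m := 4) (by norm_num) (n + 1)
  have hlt := remainder_lt (n + 1) (m := 4) (by norm_num)
  have hsum := partialSum_add_remainder (m := 4) (by norm_num) (n + 1)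
  have hNpos : (0 : ℝ) < 4 ^ (n + 1)! := by positivity
  have hNα : ((4 ^ (n + 1)! : ℕ) : ℝ) * liouvilleNumber 4 - p =
      4 ^ (n + 1)! * remainder 4 (n + 1) := by
    rw [← hsum, hps]
    push_cast
    field_simp
    ring
  refine ⟨4 ^ (n + 1)!, p, by positivity, ?_, ?_, ?_, ?_⟩
  · exact dvd_pow_self 4 (Nat.factorial_ne_zero _)
  · have h4 : (4 : ℕ) = 2 ^ 2 := by norm_num
    rw [h4, ← pow_mul]
    exact Nat.Coprime.pow_left _ ((Nat.coprime_two_left).2 hp)
  · rw [hNα]; positivity
  · rw [hNα]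
    push_cast
    rw [lt_div_iff₀ hNpos]
    set X : ℝ := 4 ^ (n + 1)! with hX
    have hX1 : (k0 : ℝ) < X := by
      have h1 : k0 < 4 ^ (n + 1)! := by
        calc k0 < n + 1 := by omega
          _ ≤ (n + 1)! := Nat.self_le_factorial _
          _ < 4 ^ (n + 1)! := Nat.lt_pow_self (by norm_num)
      have h2 : ((k0 : ℕ) : ℝ) < ((4 ^ (n + 1)! : ℕ) : ℝ) := Nat.cast_lt.2 h1
      rw [hX]
      push_cast at h2
      exact h2
    have hX2 : 1 / ε < X := hk0.trans hX1
    have hX3 : 1 < X * ε := by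
      rw [div_lt_iff₀ hε] at hX2; exact hX2
    have hX0 : 1 ≤ X := one_le_pow₀ (by norm_num)
    have h5 : remainder 4 (n + 1) < 1 / X ^ 3 := by
      refine hlt.trans_le ?_
      exact one_div_le_one_div_of_le (by positivity) (pow_le_pow_right₀ hX0 (by omega))
    calc X * remainder 4 (n + 1) * X < X * (1 / X ^ 3) * X := by gcongr
      _ = 1 / X := by field_simp
      _ < ε := by
        rw [div_lt_iff₀ (by positivity)]; linarith

theorem liou_bounds : 1 / 2 < liouvilleNumber 4 ∧ liouvilleNumber 4 < 3 / 4 := by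
  have hrem := LiouvilleNumber.remainder_pos (m := 4) (by norm_num) 1
  have hlt := LiouvilleNumber.remainder_lt 1 (m := 4) (by norm_num)
  have hsum := LiouvilleNumber.partialSum_add_remainder (m := 4) (by norm_num) 1
  have hp : LiouvilleNumber.partialSum 4 1 = 1 / 2 := by
    unfold LiouvilleNumber.partialSum
    simp [Finset.sum_range_succ]
    norm_num
  rw [hp] at hsum
  norm_num at hlt
  constructor <;> linarith

theorem liou_irr : Irrational (liouvilleNumber 4) := by
  have := liouville_liouvilleNumber (m := 4) (by norm_num)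
  exact_mod_cast this.irrational

end Q66.Iet
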