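import Pool.Agent.Q66.IetLiou1

/-!
# The limit coboundary over a Liouville rotation
-/

open MeasureTheory Set Filter Topology

namespace Q66.Iet

/-- the rotation by a quarter turn -/
def J4 : SL2 := ⟨!![0, -1; 1, 0], by rw [Matrix.det_fin_two_of]; ring⟩

/-- the elementary unipotent matrix -/
def L1 : SL2 := ⟨!![1, 1; 0, 1], by rw [Matrix.det_fin_two_of]; ring⟩

theorem J4_sq : J4 * J4 = -1 := by
  ext i j
  fin_cases i <;> fin_cases j <;> simp [J4, Matrix.mul_apply, Fin.sum_univ_two]

theorem J4_four : J4 ^ 4 = 1 := by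
  have : J4 ^ 4 = (J4 * J4) * (J4 * J4) := by
    rw [pow_succ, pow_succ, pow_two, ← mul_assoc]
  rw [this, J4_sq]
  simp

theorem J4_inv : (J4⁻¹).1 = !![0, 1; -1, 0] := by
  rw [Matrix.SpecialLinearGroup.coe_inv]
  ext i j
  fin_cases i <;> fin_cases j <;> simp [J4, Matrix.adjugate_fin_two]

/-- the element of order three turning `J4` into `L1` -/
noncomputable def P3 : SL2 := L1 * J4⁻¹

theorem P3_J4 : P3 * J4 = L1 := by unfold P3; group

theorem P3_coe : P3.1 = !![-1, 1; -1, 0] := by
  have : P3.1 = L1.1 * (J4⁻¹).1 := rfl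
  rw [this, J4_inv]
  ext i j
  fin_cases i <;> fin_cases j <;> simp [L1, Matrix.mul_apply, Fin.sum_univ_two]

theorem P3_cube : P3 ^ 3 = 1 := by
  apply Subtype.ext
  have : (P3 ^ 3).1 = P3.1 * P3.1 * P3.1 := by
    rw [pow_succ, pow_two]; rfl
  rw [this, P3_coe]
  ext i j
  fin_cases i <;> fin_cases j <;> simp [Matrix.mul_apply, Fin.sum_univ_two]

theorem MeasSL.mul {B C : ℝ → SL2} (hB : MeasSL B) (hC : MeasSL C) :
    MeasSL fun x => B x * C x := by
  intro i j
  have h1 := hB i 0
  have h2 := hB i 1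
  have h3 := hC 0 j
  have h4 := hC 1 j
  have e : (fun x => (B x * C x).1 i j) = fun x =>
      (B x).1 i 0 * (C x).1 0 j + (B x).1 i 1 * (C x).1 1 j := by
    ext x
    have : (B x * C x).1 = (B x).1 * (C x).1 := rfl
    rw [this, Matrix.mul_apply, Fin.sum_univ_two]
  rw [e]
  exact (h1.mul h3).add (h2.mul h4)

theorem measSL_const (g : SL2) : MeasSL fun _ => g := fun _ _ => measurable_const

theorem MeasSL.inv {B : ℝ → SL2} (hB : MeasSL B) : MeasSL fun x => (B x)⁻¹ := by
  intro i j
  have e : ∀ x, ((B x)⁻¹).1 = !![(B x).1 1 1, -(B x).1 0 1; -(B x).1 1 0, (B x).1 0 0] := by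
    intro x
    rw [Matrix.SpecialLinearGroup.coe_inv, Matrix.adjugate_fin_two]
  have h00 := hB 0 0
  have h01 := hB 0 1
  have h10 := hB 1 0
  have h11 := hB 1 1
  simp only [e]
  fin_cases i <;> fin_cases j
  · exact h11
  · exact h01.neg
  · exact h10.neg
  · exact h00

theorem meas_vp (α w : ℝ) (j : ℕ) : Measurable (vp α w j) := by
  unfold vp
  exact measurable_fract.comp (by fun_prop)

theorem measSL_qv (α w θ : ℝ) (g : SL2) (j : ℕ) : MeasSL fun x => qv θ g (vp α w j x) := by
  intro i k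
  have h1 : MeasurableSet {x | vp α w j x < θ} := measurableSet_lt (meas_vp α w j) measurable_const
  have h2 : MeasurableSet {x | vp α w j x < 2 * θ} :=
    measurableSet_lt (meas_vp α w j) measurable_const
  have e : (fun x => (qv θ g (vp α w j x)).1 i k) = fun x =>
      if vp α w j x < θ then g.1 i k else if vp α w j x < 2 * θ then (g ^ 2).1 i k
      else (1 : SL2).1 i k := by
    ext x
    unfold qv
    split_ifs <;> rfl
  rw [e]
  exact Measurable.ite h1 measurable_const (Measurable.ite h2 measurable_const measurable_const)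

theorem measSL_Kp (α w θ : ℝ) (J g : SL2) (n : ℕ) : MeasSL (Kp α w θ J g n) := by
  induction n with
  | zero => exact measSL_const 1
  | succ n ih =>
    exact ih.mul (((measSL_const (J ^ n)).mul (measSL_qv α w θ g (n + 1))).mul
      (measSL_const (J ^ n)⁻¹))

/-- a stage of the construction -/
structure St (α : ℝ) where
  B : ℝ → SL2
  β : ℝ
  u : ℝ
  β0 : 0 ≤ β
  βu : β < u
  u1 : u ≤ 1 / 8
  meas : MeasSL B
  per : ∀ x, B (x + 1) = B x
  rlc : RLC B
  coh : ∀ x, B (x + α) * J4 * (B x)⁻¹ = if Int.fract x < β then L1 else J4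

theorem per_int {B : ℝ → SL2} (h : ∀ x, B (x + 1) = B x) (x : ℝ) (m : ℤ) : B (x + m) = B x := by
  have hp : Function.Periodic B 1 := h
  have := hp.int_mul m x
  simpa using this

theorem mu_le_of_subset {A : Set ℝ} {a b c d : ℝ} (h : A ∩ Ico 0 1 ⊆ Ico a b ∪ Ico c d)
    {t : ℝ} (h1 : b - a ≤ t) (h2 : d - c ≤ t) (ht : 0 ≤ t) : μ A ≤ ENNReal.ofReal (2 * t) := by
  unfold μ
  rw [Measure.restrict_apply' measurableSet_Ico]
  refine (measure_mono h).trans ((measure_union_le _ _).trans ?_)
  rw [Real.volume_Ico, Real.volume_Ico, two_mul, ENNReal.ofReal_add ht ht]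
  exact add_le_add (ENNReal.ofReal_le_ofReal h1) (ENNReal.ofReal_le_ofReal h2)

theorem mu_vp {α w θ : ℝ} (hθ : 0 < θ) (j : ℕ) :
    μ {x | vp α w j x < 2 * θ} ≤ ENNReal.ofReal (4 * θ) := by
  set c := Int.fract (w + j * α) with hc
  have e : ∀ x, vp α w j x = Int.fract (x - c) := by
    intro x
    unfold vp
    have : x - w - j * α = (x - c) - (⌊w + j * α⌋ : ℤ) := by
      rw [hc, ← Int.self_sub_floor]; ring
    rw [this, Int.fract_sub_intCast]
  have c0 : 0 ≤ c := Int.fract_nonneg _
  have c1 : c < 1 := Int.fract_lt_one _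
  have h := mu_le_of_subset (A := {x | vp α w j x < 2 * θ}) (a := c) (b := c + 2 * θ)
    (c := c - 1) (d := c - 1 + 2 * θ) (t := 2 * θ) ?_ (by linarith) (by linarith) (by linarith)
  · convert h using 2; ring
  · rintro x ⟨hx, hx0, hx1⟩
    have hx' : vp α w j x < 2 * θ := hx
    rw [e] at hx'
    by_cases hcx : c ≤ x
    · left
      rw [Int.fract_eq_self.2 ⟨by linarith, by linarith⟩] at hx'
      exact ⟨hcx, by linarith⟩
    · right
      push Not at hcx
      have h2 : Int.fract (x - c) = x - c + 1 := by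
        rw [← Int.fract_add_one, Int.fract_eq_self.2 ⟨by linarith, by linarith⟩]
      rw [h2] at hx'
      exact ⟨by linarith, by linarith⟩

theorem mu_Kp {α w θ : ℝ} (hθ : 0 < θ) (J g : SL2) (n : ℕ) :
    μ {x | Kp α w θ J g n x ≠ 1} ≤ ENNReal.ofReal (4 * n * θ) := by
  induction n with
  | zero =>
    have : {x | Kp α w θ J g 0 x ≠ 1} = ∅ := by
      ext x; simp [Kp]
    rw [this]; simp
  | succ n ih =>
    have hsub : {x | Kp α w θ J g (n + 1) x ≠ 1} ⊆
        {x | Kp α w θ J g n x ≠ 1} ∪ {x | vp α w (n + 1) x < 2 * θ} := by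
      intro x hx
      by_contra hno
      simp only [mem_union, mem_ofPred_eq, not_or, not_not, not_lt] at hno
      apply hx
      rw [Kp, hno.1]
      unfold qv
      rw [if_neg (by linarith [hno.2]), if_neg (by linarith [hno.2])]
      group
    refine (measure_mono hsub).trans ((measure_union_le _ _).trans ?_)
    have e : (4 : ℝ) * ((n + 1 : ℕ) : ℝ) * θ = 4 * n * θ + 4 * θ := by push_cast; ring
    rw [e, ENNReal.ofReal_add (by positivity) (by positivity)]
    exact add_le_add ih (mu_vp hθ _)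

/-- one step of the construction -/
theorem step {α : ℝ} (hα : GoodA α) (s : St α) (e : ℝ) {η : ℝ} (hη : 0 < η) :
    ∃ s' : St α, s.β < s'.β ∧ s'.u < s.u ∧ (e ≤ s'.β ∨ s'.u ≤ e) ∧
      μ {x | s'.B x ≠ s.B x} ≤ ENNReal.ofReal η := by
  set w := s.β with hw
  have hr := s.rlc (w + α)
  obtain ⟨δ', hδ', hδ⟩ := mem_nhdsGE_iff_exists_Ico_subset.1 hr
  have hδ'' : w + α < δ' := hδ'
  set δ := δ' - (w + α) with hδdef
  have hδ0 : 0 < δ := by linarith
  have hβu := s.βu
  have hu1 := s.u1
  have hβ0 := s.β0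
  rw [← hw] at hβu hβ0
  set ε := min (δ / 3) (min ((s.u - w) / 3) (min (1 / 4) (η / 4))) with hε
  have hε0 : 0 < ε := by
    rw [hε]
    refine lt_min (by linarith) (lt_min (by linarith) (lt_min (by norm_num) (by linarith)))
  have hε1 : ε ≤ δ / 3 := min_le_left _ _
  have hε2 : ε ≤ (s.u - w) / 3 := (min_le_right _ _).trans (min_le_left _ _)
  have hε3 : ε ≤ 1 / 4 := (min_le_right _ _).trans ((min_le_right _ _).trans (min_le_left _ _))
  have hε4 : ε ≤ η / 4 := (min_le_right _ _).trans ((min_le_right _ _).trans (min_le_right _ _))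
  obtain ⟨N, p, hN, h4N, hcop, hθ, hθε⟩ := hα ε hε0
  set θ := N * α - p with hθdef
  have hNα : N * α = p + θ := by rw [hθdef]; ring
  have hN' : (1 : ℝ) ≤ N := by exact_mod_cast hN
  have hNθ : N * θ < ε := by
    rw [lt_div_iff₀ (by linarith)] at hθε; linarith
  have hθε' : θ < ε := by nlinarith
  have h4 : 4 * N * θ ≤ 1 := by nlinarith
  set b' := s.B (w + α) with hb'
  set g : SL2 := b'⁻¹ * P3 * b' with hg
  have hg3 : g ^ 3 = 1 := by
    have : g ^ 3 = b'⁻¹ * P3 ^ 3 * b' := by
      rw [hg, pow_succ, pow_two, pow_succ, pow_two]; group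
    rw [this, P3_cube]; group
  have hJN : J4 ^ N = 1 := by
    obtain ⟨k, rfl⟩ := h4N
    rw [pow_mul, J4_four, one_pow]
  have hsep : ∀ j : ℕ, 0 < j → j < N → ∀ m : ℤ, 3 * θ ≤ |j * α - m| :=
    fun j h1 h2 m => sep_of_coprime hcop hθ h4 hNα h1 h2 m
  have hid := step_id (α := α) (w := w) (J := J4) (g := g) (p := (p : ℤ)) hN hJN hg3 hθ
    (by linarith) (by push_cast; exact hNα) hsep
  -- position in the window
  have hv0 : ∀ x, (vp α w 0 x < 3 * θ ↔ w ≤ Int.fract x ∧ Int.fract x < w + 3 * θ) := by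
    intro x
    have h0 : vp α w 0 x = Int.fract (Int.fract x - w) := by
      unfold vp
      have : x - w - ((0 : ℕ) : ℝ) * α = (Int.fract x - w) + (⌊x⌋ : ℤ) := by
        rw [← Int.self_sub_floor]; push_cast; ring
      rw [this, Int.fract_add_intCast]
    have f0 := Int.fract_nonneg x
    have f1 := Int.fract_lt_one x
    rw [h0]
    by_cases hwx : w ≤ Int.fract x
    · rw [Int.fract_eq_self.2 ⟨by linarith, by linarith⟩]
      constructor
      · intro h; exact ⟨hwx, by linarith⟩
      · intro h; linarith [h.2]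
    · push Not at hwx
      have h2 : Int.fract (Int.fract x - w) = Int.fract x - w + 1 := by
        rw [← Int.fract_add_one, Int.fract_eq_self.2 ⟨by linarith, by linarith⟩]
      rw [h2]
      constructor
      · intro h; exfalso; linarith
      · intro h; linarith [h.1]
  set C := Kp α w θ J4 g N with hC
  set β' := w + 3 * θ with hβ'
  have hβ'u : β' < s.u := by rw [hβ']; linarith
  set u' := if e ≤ β' then (β' + s.u) / 2 else min ((β' + s.u) / 2) e with hu'
  have hu'1 : β' < u' := by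
    rw [hu']
    split_ifs with h
    · linarith
    · exact lt_min (by linarith) (not_le.1 h)
  have hu'2 : u' < s.u := by
    rw [hu']
    split_ifs with h
    · linarith
    · exact (min_le_left _ _).trans_lt (by linarith)
  have hB' : ∀ x, w ≤ Int.fract x → Int.fract x < w + 3 * θ → s.B (x + α) = b' := by
    intro x h1 h2
    have h3 : s.B (x + α) = s.B (Int.fract x + α) := by
      have : x + α = (Int.fract x + α) + (⌊x⌋ : ℤ) := by
        rw [← Int.self_sub_floor]; ring
      rw [this, per_int s.per]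
    rw [h3]
    exact hδ ⟨by linarith, by linarith⟩
  refine ⟨⟨fun x => s.B x * C x, β', u', by linarith, hu'1, by linarith, s.meas.mul
    (measSL_Kp _ _ _ _ _ _), ?_, ?_, ?_⟩, ?_, hu'2, ?_, ?_⟩
  · intro x
    show s.B (x + 1) * C (x + 1) = _
    rw [s.per, hC, Kp_per]
  · intro x
    filter_upwards [s.rlc x, rlc_Kp α w θ J4 g N x] with y h1 h2
    show s.B y * C y = s.B x * C x
    rw [h1, hC, h2]
  · intro x
    show s.B (x + α) * C (x + α) * J4 * (s.B x * C x)⁻¹ = _
    have e1 : s.B (x + α) * C (x + α) * J4 * (s.B x * C x)⁻¹ =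
        s.B (x + α) * (C (x + α) * J4 * (C x)⁻¹) * (s.B x)⁻¹ := by group
    rw [e1, hC, hid x]
    by_cases h1 : vp α w 0 x < 3 * θ
    · rw [if_pos h1]
      obtain ⟨h2, h3⟩ := (hv0 x).1 h1
      have h4 := s.coh x
      rw [if_neg (by rw [← hw]; exact not_lt.2 h2)] at h4
      rw [if_pos h3]
      have h5 := hB' x h2 h3
      rw [h5] at h4
      rw [h5]
      calc b' * (g * J4) * (s.B x)⁻¹ = P3 * (b' * J4 * (s.B x)⁻¹) := by rw [hg]; group
        _ = L1 := by rw [h4, P3_J4]
    · rw [if_neg h1, one_mul, s.coh x]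
      have h2 := (not_congr (hv0 x)).1 h1
      by_cases h3 : Int.fract x < w
      · rw [if_pos (by rw [← hw]; exact h3), if_pos (by linarith)]
      · rw [if_neg (by rw [← hw]; exact h3), if_neg]
        intro h4
        exact h2 ⟨not_lt.1 h3, h4⟩
  · show w < β'
    linarith
  · show e ≤ β' ∨ u' ≤ e
    by_cases h : e ≤ β'
    · left; exact h
    · right
      rw [hu', if_neg h]
      exact min_le_right _ _
  · have hsub : {x | (fun x => s.B x * C x) x ≠ s.B x} ⊆ {x | Kp α w θ J4 g N x ≠ 1} := by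
      intro x hx h1
      apply hx
      show s.B x * C x = s.B x
      rw [hC, h1, mul_one]
    refine (measure_mono hsub).trans ((mu_Kp hθ J4 g N).trans ?_)
    exact ENNReal.ofReal_le_ofReal (by nlinarith)

/-- the initial stage -/
noncomputable def st0 (α : ℝ) : St α where
  B := fun _ => 1
  β := 0
  u := 1 / 8
  β0 := le_rfl
  βu := by norm_num
  u1 := le_rfl
  meas := measSL_const 1
  per := fun _ => rfl
  rlc := fun _ => Eventually.of_forall fun _ => rfl
  coh := fun x => by
    rw [if_neg (not_lt.2 (Int.fract_nonneg x))]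
    simp

/-- the sequence of stages -/
noncomputable def sq {α : ℝ} (hα : GoodA α) (e : ℕ → ℝ) : ℕ → St α
  | 0 => st0 α
  | n + 1 => (step hα (sq hα e n) (e n) (η := (1 / 2) ^ n) (by positivity)).choose

theorem sq_spec {α : ℝ} (hα : GoodA α) (e : ℕ → ℝ) (n : ℕ) :
    (sq hα e n).β < (sq hα e (n + 1)).β ∧ (sq hα e (n + 1)).u < (sq hα e n).u ∧
      (e n ≤ (sq hα e (n + 1)).β ∨ (sq hα e (n + 1)).u ≤ e n) ∧
      μ {x | (sq hα e (n + 1)).B x ≠ (sq hα e n).B x} ≤ ENNReal.ofReal ((1 / 2) ^ n) :=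
  (step hα (sq hα e n) (e n) (η := (1 / 2) ^ n) (by positivity)).choose_spec

theorem exists_limit {α : ℝ} (hα : GoodA α) (hmp : MeasurePreserving (fun x => Int.fract (x + α)) μ μ)
    (e : ℕ → ℝ) :
    ∃ (B : ℝ → SL2) (β : ℝ), MeasSL B ∧ 0 < β ∧ β < 1 / 8 ∧ (∀ n, β ≠ e n) ∧
      ∀ᵐ x ∂μ, B (Int.fract (x + α)) * J4 * (B x)⁻¹ = if x < β then L1 else J4 := by
  classical
  set s := sq hα e with hs
  have hsp := sq_spec hα e
  rw [← hs] at hsp
  have hβm : StrictMono fun n => (s n).β := strictMono_nat_of_lt_succ fun n => (hsp n).1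
  have hum : StrictAnti fun n => (s n).u := strictAnti_nat_of_succ_lt fun n => (hsp n).2.1
  have hβu : ∀ m n, (s m).β < (s n).u := by
    intro m n
    rcases le_total m n with h | h
    · exact (hβm.monotone h).trans_lt (s n).βu
    · exact (s m).βu.trans_le (hum.antitone h)
  have hbdd : BddAbove (range fun n => (s n).β) := ⟨(s 0).u, by rintro _ ⟨m, rfl⟩; exact (hβu m 0).le⟩
  set β := ⨆ n, (s n).β with hβ
  have hβ1 : ∀ n, (s n).β < β := fun n => (hβm (Nat.lt_succ_self n)).trans_le
    (le_ciSup hbdd (n + 1))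
  have hβ2 : ∀ n, β < (s n).u := fun n => (ciSup_le fun m => (hβu m (n + 1)).le).trans_lt
    (hum (Nat.lt_succ_self n))
  -- eventual constancy
  have hsum : ∑' n, μ {x | (s (n + 1)).B x ≠ (s n).B x} ≠ ⊤ := by
    refine ne_top_of_le_ne_top ?_ (ENNReal.tsum_le_tsum fun n => (hsp n).2.2.2)
    rw [← ENNReal.ofReal_tsum_of_nonneg (fun n => by positivity) summable_geometric_two]
    exact ENNReal.ofReal_ne_top
  have hev : ∀ᵐ x ∂μ, ∀ᶠ n in atTop, (s (n + 1)).B x = (s n).B x := by
    have := ae_eventually_notMem hsum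
    filter_upwards [this] with x hx
    filter_upwards [hx] with n hn
    by_contra h
    exact hn h
  let E : ℝ → ℕ → Prop := fun x m => ∀ n, m ≤ n → (s (n + 1)).B x = (s n).B x
  have hevE : ∀ᵐ x ∂μ, ∃ m, E x m := by
    filter_upwards [hev] with x hx
    exact eventually_atTop.1 hx
  have hE_eq : ∀ x m, E x m → ∀ n, m ≤ n → (s n).B x = (s m).B x := by
    intro x m h n hn
    induction n, hn using Nat.le_induction with
    | base => rfl
    | succ n hn ih => rw [h n hn, ih]
  have hmeasEq : ∀ n, MeasurableSet {x | (s (n + 1)).B x = (s n).B x} := by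
    intro n
    have e1 : {x | (s (n + 1)).B x = (s n).B x} =
        ⋂ i : Fin 2, ⋂ j : Fin 2, {x | ((s (n + 1)).B x).1 i j = ((s n).B x).1 i j} := by
      ext x
      simp only [mem_iInter, mem_ofPred_eq]
      constructor
      · intro h i j; rw [h]
      · intro h; apply Subtype.ext; ext i j; exact h i j
    rw [e1]
    refine MeasurableSet.iInter fun i => MeasurableSet.iInter fun j => ?_
    exact measurableSet_eq_fun ((s (n + 1)).meas i j) ((s n).meas i j)
  have hmeasE : ∀ m, MeasurableSet {x | E x m} := by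
    intro m
    have e1 : {x | E x m} = ⋂ n, {x | m ≤ n → (s (n + 1)).B x = (s n).B x} := by
      ext x; simp [E]
    rw [e1]
    refine MeasurableSet.iInter fun n => ?_
    by_cases h : m ≤ n
    · simpa [h] using hmeasEq n
    · simp [h]
  -- the index from which on the sequence is constant
  let p : ℝ → ℕ → Prop := fun x m => E x m ∨ ∀ k, ¬ E x k
  have hp : ∀ x, ∃ m, p x m := by
    intro x
    by_cases h : ∃ m, E x m
    · obtain ⟨m, hm⟩ := h; exact ⟨m, Or.inl hm⟩
    · push Not at h; exact ⟨0, Or.inr h⟩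
  have hpm : ∀ m, MeasurableSet {x | p x m} := by
    intro m
    have e1 : {x | p x m} = {x | E x m} ∪ ⋂ k, {x | E x k}ᶜ := by
      ext x; simp [p]
    rw [e1]
    exact (hmeasE m).union (MeasurableSet.iInter fun k => (hmeasE k).compl)
  have hfind : Measurable fun x => Nat.find (hp x) := measurable_find hp hpm
  let B : ℝ → SL2 := fun x => (s (Nat.find (hp x))).B x
  have hBm : MeasSL B := by
    intro i j
    have h1 : Measurable (fun q : ℕ × ℝ => ((s q.1).B q.2).1 i j) :=
      measurable_from_prod_countable_right fun n => (s n).meas i j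
    exact h1.comp (hfind.prodMk measurable_id)
  have hBE : ∀ x, (∃ m, E x m) → ∃ m, ∀ n, m ≤ n → (s n).B x = B x := by
    intro x ⟨m, hm⟩
    have h1 := Nat.find_spec (hp x)
    have h2 : E x (Nat.find (hp x)) := by
      rcases h1 with h | h
      · exact h
      · exact absurd hm (h m)
    exact ⟨_, hE_eq x _ h2⟩
  refine ⟨B, β, hBm, (s 0).β0.trans_lt (hβ1 0), (hβ2 0).trans_le (s 0).u1, ?_, ?_⟩
  · intro n h
    rcases (hsp n).2.2.1 with h1 | h1
    · have := hβ1 (n + 1); rw [h] at this; linarith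
    · have := hβ2 (n + 1); rw [h] at this; linarith
  · have h1 := hmp.quasiMeasurePreserving.ae hevE
    have h2 : ∀ᵐ x ∂μ, x ∈ Ico (0 : ℝ) 1 := by
      unfold μ; exact ae_restrict_mem measurableSet_Ico
    filter_upwards [hevE, h1, h2] with x hx hx' hx01
    obtain ⟨m1, hm1⟩ := hBE x hx
    obtain ⟨m2, hm2⟩ := hBE _ hx'
    -- the stage where the window decision is final
    obtain ⟨m3, hm3⟩ : ∃ m3, ∀ n, m3 ≤ n → (x < (s n).β ↔ x < β) := by
      by_cases hxβ : x < β
      · obtain ⟨k, hk⟩ := exists_lt_of_lt_ciSup hxβ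
        refine ⟨k, fun n hn => ⟨fun _ => hxβ, fun _ => hk.trans_le (hβm.monotone hn)⟩⟩
      · exact ⟨0, fun n _ => ⟨fun h => h.trans (hβ1 n), fun h => absurd h hxβ⟩⟩
    set n := max m1 (max m2 m3) with hn
    have e1 := hm1 n (le_max_left _ _)
    have e2 := hm2 n ((le_max_left _ _).trans (le_max_right _ _))
    have e3 := hm3 n ((le_max_right _ _).trans (le_max_right _ _))
    have h3 := (s n).coh x
    rw [Int.fract_eq_self.2 ⟨hx01.1, hx01.2⟩] at h3
    rw [← e1, ← e2]
    have e4 : (s n).B (Int.fract (x + α)) = (s n).B (x + α) := by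
      have : x + α = Int.fract (x + α) + (⌊x + α⌋ : ℤ) := by
        rw [← Int.self_sub_floor]; ring
      conv_rhs => rw [this]
      rw [per_int (s n).per]
    rw [e4, h3]
    by_cases hxβ : x < β
    · rw [if_pos hxβ, if_pos (e3.2 hxβ)]
    · rw [if_neg hxβ, if_neg (fun h => hxβ (e3.1 h))]

end Q66.Iet
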