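import Pool.Agent.Q66.IetLiou2
import Pool.Agent.Q66.IetZar

/-!
# The three-interval exchange of elliptic type
-/

open MeasureTheory Set Filter Topology Matrix

namespace Q66.Iet

theorem sl2z_dense {Γ : Subgroup SL2} (hL : L1 ∈ Γ) (hJ : J4 ∈ Γ) : ZariskiDense Γ := by
  set r : ℝ := Real.sqrt 5 with hr
  have hr2 : r ^ 2 = 5 := Real.sq_sqrt (by norm_num)
  have hr5 : 2 < r := Real.lt_sqrt_of_sq_lt (by norm_num)
  have hr3 : r < 3 := by rw [hr, Real.sqrt_lt' (by norm_num)]; norm_num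
  have hrc : (r : ℂ) ^ 2 = 5 := by exact_mod_cast hr2
  have hr0 : (r : ℂ) ≠ 0 := by
    have : r ≠ 0 := by linarith
    exact_mod_cast this
  have hl : ((3 + r) / 2 : ℂ) ≠ 0 := by
    have : (3 + r) / 2 ≠ 0 := by positivity
    exact_mod_cast this
  have hli : ((3 + r) / 2 : ℂ)⁻¹ = (3 - r) / 2 := by
    apply inv_eq_of_mul_eq_one_right
    linear_combination (-1 / 4 : ℂ) * hrc
  obtain ⟨k, hk⟩ : ∃ k : ℂ, r * k = 1 := ⟨(r : ℂ)⁻¹, mul_inv_cancel₀ hr0⟩
  have hk0 : k ≠ 0 := by rintro rfl; simp at hk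
  have hh : L1 * (J4 * L1⁻¹ * J4⁻¹) ∈ Γ :=
    mul_mem hL (mul_mem (mul_mem hJ (inv_mem hL)) (inv_mem hJ))
  have hL' : (L1⁻¹).1 = !![1, -1; 0, 1] := by
    rw [Matrix.SpecialLinearGroup.coe_inv]
    ext i j
    fin_cases i <;> fin_cases j <;> simp [L1, Matrix.adjugate_fin_two]
  have hcoe : (L1 * (J4 * L1⁻¹ * J4⁻¹)).1 = !![2, 1; 1, 1] := by
    have : (L1 * (J4 * L1⁻¹ * J4⁻¹)).1 = L1.1 * (J4.1 * (L1⁻¹).1 * (J4⁻¹).1) := rfl
    rw [this, hL', J4_inv]
    ext i j
    fin_cases i <;> fin_cases j <;> simp [L1, J4, Matrix.mul_apply, Fin.sum_univ_two]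
    norm_num
  have htoC : toC (L1 * (J4 * L1⁻¹ * J4⁻¹)) = !![2, 1; 1, 1] := by
    unfold toC
    rw [hcoe]
    ext i j
    fin_cases i <;> fin_cases j <;> simp [Matrix.map_apply]
  have htoCL : toC L1 = !![1, 1; 0, 1] := by
    unfold toC L1
    ext i j
    fin_cases i <;> fin_cases j <;> simp [Matrix.map_apply]
  refine zariskiDense_of hh hL (C := !![2, 2; r - 1, -r - 1])
    (C' := !![(r + 1) * k / 4, k / 2; (r - 1) * k / 4, -k / 2])
    (l := (3 + r) / 2) ?_ ?_ hl ?_
    (a := (1 + r) * k) (b := -((3 + r) * k / 2)) (c := (3 - r) * k / 2)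
    (d := (r - 1) * k) ?_ ?_ ?_ ?_ ?_
  · ext i j
    fin_cases i <;> fin_cases j <;> simp [Matrix.mul_apply, Fin.sum_univ_two]
    · linear_combination hk
    · ring
    · ring
    · linear_combination hk
  · intro m n hmn
    have h1 : ‖((3 + r) / 2 : ℂ)‖ = (3 + r) / 2 := by
      have : ((3 + r) / 2 : ℂ) = (((3 + r) / 2 : ℝ) : ℂ) := by push_cast; ring
      rw [this, Complex.norm_real, Real.norm_of_nonneg (by positivity)]
    have h2 := congrArg norm hmn
    simp only [norm_pow, h1] at h2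
    exact pow_right_injective₀ (by positivity) (by
      intro h; linarith) h2
  · rw [htoC]
    unfold dg
    rw [hli]
    ext i j
    fin_cases i <;> fin_cases j <;> simp [Matrix.mul_apply, Fin.sum_univ_two]
    · linear_combination (-2 : ℂ) * hk
    · linear_combination (-1 : ℂ) * hk
    · linear_combination (-1 : ℂ) * hk - (r * k / 4) * hrc
    · linear_combination (-1 : ℂ) * hk
  · rw [htoCL]
    ext i j
    fin_cases i <;> fin_cases j <;> simp [Matrix.mul_apply, Fin.sum_univ_two]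
    · linear_combination (k / 4) * hrc
    · linear_combination (-k / 4) * hrc
    · linear_combination (k / 4) * hrc
    · linear_combination (-k / 4) * hrc
  · have h1 : (1 + (r : ℂ)) ≠ 0 := by
      have : (1 + r) ≠ 0 := by positivity
      exact_mod_cast this
    exact mul_ne_zero h1 hk0
  · have h1 : (3 + (r : ℂ)) ≠ 0 := by
      have : (3 + r) ≠ 0 := by positivity
      exact_mod_cast this
    exact neg_ne_zero.2 (div_ne_zero (mul_ne_zero h1 hk0) (by norm_num))
  · have h1 : (3 - (r : ℂ)) ≠ 0 := by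
      have : 3 - r ≠ 0 := by linarith
      exact_mod_cast this
    exact div_ne_zero (mul_ne_zero h1 hk0) (by norm_num)
  · have h1 : ((r : ℂ) - 1) ≠ 0 := by
      have : r - 1 ≠ 0 := by
        have : 0 < r - 1 := by linarith
        exact this.ne'
      exact_mod_cast this
    exact mul_ne_zero h1 hk0

/-- the exchange of three intervals of lengths `a`, `b`, `1 - a - b` in reverse order -/
noncomputable def iet3 (a b x : ℝ) : ℝ :=
  if x < a then x + (1 - a) else if x < a + b then x + (1 - a - b) - a else x - (a + b)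

theorem meas_iet3 (a b : ℝ) : Measurable (iet3 a b) := by
  unfold iet3
  exact Measurable.ite measurableSet_Iio (by fun_prop)
    (Measurable.ite measurableSet_Iio (by fun_prop) (by fun_prop))

theorem iet3_isIET {a b : ℝ} (ha : 0 < a) (hb : 0 < b) (hab : a + b < 1) :
    IsIET 3 ![0, a, a + b, 1] (iet3 a b) := by
  refine ⟨by norm_num, rfl, rfl, ?_, ?_, ?_⟩
  · rw [Fin.strictMono_iff_lt_succ]
    intro i
    fin_cases i
    · show (0 : ℝ) < a; exact ha
    · show a < a + b; linarith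
    · show a + b < 1; exact hab
  · intro j
    fin_cases j
    · refine ⟨1 - a, fun x hx => ?_⟩
      have h : x < a := hx.2
      unfold iet3; rw [if_pos h]
    · refine ⟨(1 - a - b) - a, fun x hx => ?_⟩
      have h1 : a ≤ x := hx.1
      have h2 : x < a + b := hx.2
      unfold iet3; rw [if_neg (not_lt.2 h1), if_pos h2]; ring
    · refine ⟨-(a + b), fun x hx => ?_⟩
      have h1 : a + b ≤ x := hx.1
      unfold iet3; rw [if_neg (by linarith), if_neg (by linarith)]; ring
  · refine ⟨?_, ?_, ?_⟩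
    · intro x hx
      unfold iet3
      obtain ⟨h0, h1⟩ := hx
      split_ifs with h2 h3
      · constructor <;> linarith
      · push Not at h2; constructor <;> linarith
      · push Not at h2 h3; constructor <;> linarith
    · intro x hx y hy hxy
      unfold iet3 at hxy
      obtain ⟨hx0, hx1⟩ := hx
      obtain ⟨hy0, hy1⟩ := hy
      split_ifs at hxy <;> linarith
    · intro y hy
      obtain ⟨hy0, hy1⟩ := hy
      by_cases h1 : y < 1 - a - b
      · refine ⟨y + (a + b), ⟨by linarith, by linarith⟩, ?_⟩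
        unfold iet3; rw [if_neg (by linarith), if_neg (by linarith)]; ring
      · by_cases h2 : y < 1 - a
        · refine ⟨y - (1 - a - b) + a, ⟨by linarith, by linarith⟩, ?_⟩
          unfold iet3; rw [if_neg (by linarith), if_pos (by linarith)]; ring
        · refine ⟨y - (1 - a), ⟨by linarith, by linarith⟩, ?_⟩
          unfold iet3; rw [if_pos (by linarith)]; ring

/-- the rotation by `α` as an exchange of two intervals -/
noncomputable def rotI (α x : ℝ) : ℝ := if x < 1 - α then x + α else x - (1 - α)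

theorem meas_rotI (α : ℝ) : Measurable (rotI α) := by
  unfold rotI
  exact Measurable.ite measurableSet_Iio (by fun_prop) (by fun_prop)

theorem rotI_isIET {α : ℝ} (h0 : 0 < α) (h1 : α < 1) : IsIET 2 ![0, 1 - α, 1] (rotI α) := by
  refine ⟨le_refl _, rfl, rfl, ?_, ?_, ?_⟩
  · rw [Fin.strictMono_iff_lt_succ]
    intro i
    fin_cases i
    · show (0 : ℝ) < 1 - α; linarith
    · show 1 - α < (1 : ℝ); linarith
  · intro j
    fin_cases j
    · refine ⟨α, fun x hx => ?_⟩
      have h : x < 1 - α := hx.2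
      unfold rotI; rw [if_pos h]
    · refine ⟨-(1 - α), fun x hx => ?_⟩
      have h : 1 - α ≤ x := hx.1
      unfold rotI; rw [if_neg (not_lt.2 h)]; ring
  · refine ⟨?_, ?_, ?_⟩
    · intro x hx
      obtain ⟨h2, h3⟩ := hx
      unfold rotI
      split_ifs with h
      · constructor <;> linarith
      · push Not at h; constructor <;> linarith
    · intro x hx y hy hxy
      unfold rotI at hxy
      obtain ⟨hx0, hx1⟩ := hx
      obtain ⟨hy0, hy1⟩ := hy
      split_ifs at hxy <;> linarith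
    · intro y hy
      obtain ⟨hy0, hy1⟩ := hy
      by_cases h : y < α
      · refine ⟨y + (1 - α), ⟨by linarith, by linarith⟩, ?_⟩
        unfold rotI; rw [if_neg (by linarith)]; ring
      · refine ⟨y - α, ⟨by linarith, by linarith⟩, ?_⟩
        unfold rotI; rw [if_pos (by linarith)]; ring

theorem rotI_fract {α : ℝ} (h0 : 0 < α) (h1 : α < 1) {x : ℝ} (hx : x ∈ Ico (0 : ℝ) 1) :
    rotI α x = Int.fract (x + α) := by
  obtain ⟨h2, h3⟩ := hx
  unfold rotI
  split_ifs with h
  · rw [Int.fract_eq_self.2 ⟨by linarith, by linarith⟩]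
  · have : x + α = (x - (1 - α)) + 1 := by ring
    rw [this, Int.fract_add_one, Int.fract_eq_self.2 ⟨by linarith, by linarith⟩]

theorem ae_mem : ∀ᵐ x ∂μ, x ∈ Ico (0 : ℝ) 1 := by
  unfold μ; exact ae_restrict_mem measurableSet_Ico

theorem fract_mp {α : ℝ} (h0 : 0 < α) (h1 : α < 1) :
    MeasurePreserving (fun x => Int.fract (x + α)) μ μ := by
  have h := (rotI_isIET h0 h1).measurePreserving (meas_rotI α)
  refine ⟨measurable_fract.comp (by fun_prop), ?_⟩
  have h2 : Measure.map (fun x => Int.fract (x + α)) μ = Measure.map (rotI α) μ := by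
    apply Measure.map_congr
    filter_upwards [ae_mem] with x hx
    exact (rotI_fract h0 h1 hx).symm
  rw [h2, h.map_eq]

theorem ae_mu {p : ℝ → Prop} : (∀ᵐ x ∂μ, p x) ↔ ∀ᵐ x, x ∈ Ico (0 : ℝ) 1 → p x := by
  unfold μ; exact ae_restrict_iff' measurableSet_Ico

theorem ae_scale {p : ℝ → Prop} {c : ℝ} (hc : c ≠ 0) (h : ∀ᵐ x : ℝ, p x) : ∀ᵐ x : ℝ, p (c * x) := by
  rw [ae_iff] at h ⊢
  have : {x | ¬ p (c * x)} = (c * ·) ⁻¹' {x | ¬ p x} := rfl
  rw [this, Real.volume_preimage_mul_left hc, h, mul_zero]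

theorem scale1 {p : ℝ → Prop} {l : ℝ} (h0 : 0 < l) (h1 : l < 1) (h : ∀ᵐ x ∂μ, p x) :
    ∀ᵐ y ∂μ, p (l * y) := by
  rw [ae_mu] at h ⊢
  filter_upwards [ae_scale h0.ne' h] with y hy hy1
  exact hy ⟨by nlinarith [hy1.1], by nlinarith [hy1.1, hy1.2]⟩

theorem scale2 {q : ℝ → Prop} {l : ℝ} (h0 : 0 < l) (h : ∀ᵐ x ∂μ, q x) :
    ∀ᵐ x ∂μ, x < l → q (x / l) := by
  rw [ae_mu] at h ⊢
  filter_upwards [ae_scale (inv_ne_zero h0.ne') h] with y hy hy1 hyl
  have e : y / l = l⁻¹ * y := by rw [div_eq_mul_inv]; ring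
  rw [e]
  refine hy ⟨by have := hy1.1; positivity, ?_⟩
  rw [← e, div_lt_one h0]
  exact hyl

/-- the data of the example -/
structure Ex (α β : ℝ) : Prop where
  α0 : 1 / 2 < α
  α1 : α < 3 / 4
  irr : Irrational α
  β0 : 0 < β
  β1 : β < 1 / 8
  ind : ∀ m n : ℤ, β ≠ m + n * α

variable {α β : ℝ}

/-- normalised lengths -/
noncomputable def la (α β : ℝ) : ℝ := β / (α + β)
noncomputable def lb (α β : ℝ) : ℝ := (1 - α - β) / (α + β)

theorem Ex.pos (h : Ex α β) : 0 < α + β := by have := h.α0; have := h.β0; linarith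
theorem Ex.lt (h : Ex α β) : α + β < 1 := by have := h.α1; have := h.β1; linarith

theorem Ex.la_mul (h : Ex α β) : (α + β) * la α β = β := by
  have := h.pos.ne'
  unfold la; field_simp

theorem Ex.lb_mul (h : Ex α β) : (α + β) * lb α β = 1 - α - β := by
  have := h.pos.ne'
  unfold lb; field_simp

theorem Ex.la_pos (h : Ex α β) : 0 < la α β := div_pos h.β0 h.pos
theorem Ex.lb_pos (h : Ex α β) : 0 < lb α β := div_pos (by linarith [h.lt]) h.pos

theorem Ex.lab (h : Ex α β) : la α β + lb α β < 1 := by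
  have h1 := h.la_mul
  have h2 := h.lb_mul
  have h3 := h.pos
  have h4 := h.α0
  by_contra hc
  push Not at hc
  nlinarith [h.β0]

/-- the three cases for a point of the exchange -/
theorem Ex.cases (h : Ex α β) {y : ℝ} (hy : y ∈ Ico (0 : ℝ) 1) :
    (y < la α β ∧ (α + β) * y < β ∧ (α + β) * iet3 (la α β) (lb α β) y = (α + β) * y + α) ∨
    (¬ y < la α β ∧ y < la α β + lb α β ∧ β ≤ (α + β) * y ∧ (α + β) * y < 1 - α ∧
      (α + β) * iet3 (la α β) (lb α β) y = (α + β) * y + 2 * α - 1) ∨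
    (¬ y < la α β ∧ ¬ y < la α β + lb α β ∧ 1 - α ≤ (α + β) * y ∧ (α + β) * y < α + β ∧
      (α + β) * iet3 (la α β) (lb α β) y = (α + β) * y + α - 1) := by
  have h1 := h.la_mul
  have h2 := h.lb_mul
  have h3 := h.pos
  obtain ⟨hy0, hy1⟩ := hy
  by_cases ha : y < la α β
  · left
    refine ⟨ha, by nlinarith, ?_⟩
    unfold iet3; rw [if_pos ha]; linear_combination -h1
  · right
    by_cases hb : y < la α β + lb α β
    · left
      refine ⟨ha, hb, by nlinarith, by nlinarith, ?_⟩
      unfold iet3; rw [if_neg ha, if_pos hb]; linear_combination (-2 : ℝ) * h1 - h2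
    · right
      refine ⟨ha, hb, by nlinarith, by nlinarith, ?_⟩
      unfold iet3; rw [if_neg ha, if_neg hb]; linear_combination -h1 - h2

theorem Ex.isIET (h : Ex α β) : IsIET 3 ![0, la α β, la α β + lb α β, 1]
    (iet3 (la α β) (lb α β)) := iet3_isIET h.la_pos h.lb_pos h.lab

/-- iterates of the exchange are rotations by larger multiples -/
theorem Ex.iter (h : Ex α β) (n : ℕ) {y : ℝ} (hy : y ∈ Ico (0 : ℝ) 1) :
    (iet3 (la α β) (lb α β))^[n] y ∈ Ico (0 : ℝ) 1 ∧ ∃ k : ℕ, n ≤ k ∧ ∃ m : ℤ,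
      (α + β) * (iet3 (la α β) (lb α β))^[n] y = (α + β) * y + k * α + m := by
  induction n with
  | zero => exact ⟨hy, 0, le_rfl, 0, by simp⟩
  | succ n ih =>
    obtain ⟨h1, k, hk, m, hm⟩ := ih
    rw [Function.iterate_succ_apply']
    refine ⟨h.isIET.bij.mapsTo h1, ?_⟩
    rcases h.cases h1 with ⟨_, _, h4⟩ | ⟨_, _, _, _, h4⟩ | ⟨_, _, _, _, h4⟩
    · exact ⟨k + 1, by omega, m, by rw [h4, hm]; push_cast; ring⟩
    · exact ⟨k + 2, by omega, m - 1, by rw [h4, hm]; push_cast; ring⟩
    · exact ⟨k + 1, by omega, m - 1, by rw [h4, hm]; push_cast; ring⟩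

theorem Ex.keane (h : Ex α β) (n : ℕ) (hn : 1 ≤ n) :
    (iet3 (la α β) (lb α β))^[n] (la α β) ≠ la α β ∧
    (iet3 (la α β) (lb α β))^[n] (la α β) ≠ la α β + lb α β ∧
    (iet3 (la α β) (lb α β))^[n] (la α β + lb α β) ≠ la α β ∧
    (iet3 (la α β) (lb α β))^[n] (la α β + lb α β) ≠ la α β + lb α β := by
  have h1 := h.la_mul
  have h2 := h.lb_mul
  have hm1 : la α β ∈ Ico (0 : ℝ) 1 := ⟨h.la_pos.le, by linarith [h.lb_pos, h.lab]⟩
  have hm2 : la α β + lb α β ∈ Ico (0 : ℝ) 1 := ⟨by linarith [h.la_pos, h.lb_pos], h.lab⟩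
  obtain ⟨_, k, hk, m, hkm⟩ := h.iter n hm1
  obtain ⟨_, k', hk', m', hkm'⟩ := h.iter n hm2
  have irr : ∀ (k : ℕ) (m : ℤ), 1 ≤ k → k * α + m ≠ 0 := by
    intro k m hk h0
    have h3 := (h.irr.natCast_mul (show k ≠ 0 by omega)).add_intCast m
    exact h3.ne_zero h0
  refine ⟨fun h0 => ?_, fun h0 => ?_, fun h0 => ?_, fun h0 => ?_⟩
  · rw [h0] at hkm; exact irr k m (by omega) (by linarith)
  · rw [h0] at hkm
    apply h.ind (1 - m) (-(k + 1))
    push_cast
    linear_combination h2 - hkm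
  · rw [h0] at hkm'
    apply h.ind (m' + 1) (k' - 1)
    push_cast
    linear_combination hkm' + h2
  · rw [h0] at hkm'; exact irr k' m' (by omega) (by linarith)

theorem Ex.rot (h : Ex α β) {x : ℝ} (hx : x ∈ Ico (0 : ℝ) 1) :
    Int.fract (x + α) = if x < 1 - α then x + α else x - (1 - α) := by
  have := rotI_fract (α := α) (by linarith [h.α0]) (by linarith [h.α1]) hx
  rw [← this]; rfl

/-- ergodicity of the exchange -/
theorem Ex.ergodic (h : Ex α β) : Ergodic (iet3 (la α β) (lb α β)) μ := by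
  have hmp := h.isIET.measurePreserving (meas_iet3 _ _)
  have hp := h.pos
  have hl := h.lt
  have hα0 := h.α0
  have hα1 := h.α1
  have hβ0 := h.β0
  have hβ1 := h.β1
  refine ⟨hmp, ⟨?_⟩⟩
  intro S hS hinv
  rw [eventuallyConst_set]
  have hS' : ∀ y, iet3 (la α β) (lb α β) y ∈ S ↔ y ∈ S := by
    intro y
    have : y ∈ iet3 (la α β) (lb α β) ⁻¹' S ↔ y ∈ S := by rw [hinv]
    exact this
  set S' : Set ℝ := {x | (x < α + β ∧ x / (α + β) ∈ S) ∨
    (¬ x < α + β ∧ (x + α - 1) / (α + β) ∈ S)} with hS'def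
  have hmeas : MeasurableSet S' := by
    have m1 : MeasurableSet {x : ℝ | x < α + β} := measurableSet_Iio
    have m2 : MeasurableSet {x : ℝ | x / (α + β) ∈ S} := (measurable_id.div_const _) hS
    have m3 : MeasurableSet {x : ℝ | (x + α - 1) / (α + β) ∈ S} := by
      have : Measurable fun x : ℝ => (x + α - 1) / (α + β) := by fun_prop
      exact this hS
    exact (m1.inter m2).union (m1.compl.inter m3)
  have hin : ∀ x, x ∈ Ico (0 : ℝ) 1 → (x ∈ S' ↔ Int.fract (x + α) ∈ S') := by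
    intro x hx
    rw [h.rot hx]
    by_cases hxl : x < α + β
    · have hy : x / (α + β) ∈ Ico (0 : ℝ) 1 := ⟨div_nonneg hx.1 hp.le, by
        rw [div_lt_one hp]; exact hxl⟩
      have hxy : (α + β) * (x / (α + β)) = x := by field_simp
      have hLHS : x ∈ S' ↔ x / (α + β) ∈ S := by
        rw [hS'def]; simp only [mem_ofPred_eq]; tauto
      rw [hLHS, ← hS']
      rcases h.cases hy with ⟨_, h3, h4⟩ | ⟨_, _, h2, h3, h4⟩ | ⟨_, _, h2, h3, h4⟩
      · rw [hxy] at h3 h4
        rw [if_pos (by linarith)]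
        have e : iet3 (la α β) (lb α β) (x / (α + β)) = (x + α) / (α + β) := by
          rw [eq_div_iff hp.ne', mul_comm]; exact h4
        have hlt : x + α < α + β := by linarith
        rw [hS'def]; simp only [mem_ofPred_eq]; rw [e]; tauto
      · rw [hxy] at h2 h3 h4
        rw [if_pos h3]
        have e : iet3 (la α β) (lb α β) (x / (α + β)) = (x + α + α - 1) / (α + β) := by
          rw [eq_div_iff hp.ne', mul_comm, h4]; ring
        have hlt : ¬ x + α < α + β := by linarith
        rw [hS'def]; simp only [mem_ofPred_eq]; rw [e]; tauto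
      · rw [hxy] at h2 h3 h4
        rw [if_neg (not_lt.2 h2)]
        have e : iet3 (la α β) (lb α β) (x / (α + β)) = (x - (1 - α)) / (α + β) := by
          rw [eq_div_iff hp.ne', mul_comm, h4]; ring
        have hlt : x - (1 - α) < α + β := by linarith
        rw [hS'def]; simp only [mem_ofPred_eq]; rw [e]; tauto
    · rw [if_neg (by linarith)]
      have hlt : x - (1 - α) < α + β := by linarith [hx.2]
      have e : x + α - 1 = x - (1 - α) := by ring
      rw [hS'def]; simp only [mem_ofPred_eq]; rw [e]; tauto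
  have hpull : ∀ y, y ∈ Ico (0 : ℝ) 1 → ((α + β) * y ∈ S' ↔ y ∈ S) := by
    intro y hy
    have h1 : (α + β) * y < α + β := by nlinarith [hy.2]
    have h2 : (α + β) * y / (α + β) = y := by field_simp
    rw [hS'def]; simp only [mem_ofPred_eq]; rw [h2]; tauto
  rcases rot_ae h.irr hmeas (by filter_upwards [ae_mem] with x hx; exact hin x hx) with h5 | h5
  · left
    filter_upwards [scale1 hp hl h5, ae_mem] with y hy hy1
    exact (hpull y hy1).1 hy
  · right
    filter_upwards [scale1 hp hl h5, ae_mem] with y hy hy1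
    exact fun h6 => hy ((hpull y hy1).2 h6)

/-- the cocycle of the example -/
noncomputable def rho3 (a b x : ℝ) : SL2 := if x < a then L1 else if x < a + b then -1 else J4

/-- the conjugated cocycle -/
noncomputable def con3 (a b x : ℝ) : SL2 := if x < a then J4 else if x < a + b then -1 else J4

theorem Ex.conj (h : Ex α β) {B : ℝ → SL2} (hco : ∀ᵐ x ∂μ, B (Int.fract (x + α)) * J4 * (B x)⁻¹ =
    if x < β then L1 else J4) :
    ∀ᵐ y ∂μ, (B ((α + β) * iet3 (la α β) (lb α β) y))⁻¹ * rho3 (la α β) (lb α β) y *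
      ((B ((α + β) * y))⁻¹)⁻¹ = con3 (la α β) (lb α β) y := by
  have hp := h.pos
  have hl := h.lt
  have hα0 := h.α0
  have hα1 := h.α1
  have hβ0 := h.β0
  have hmp := fract_mp (α := α) (by linarith) (by linarith)
  have h2 := scale1 hp hl (hmp.quasiMeasurePreserving.ae hco)
  have h1 := scale1 hp hl hco
  filter_upwards [h1, h2, ae_mem] with y e1 e2 hy
  have hx0 : (α + β) * y ∈ Ico (0 : ℝ) 1 := ⟨mul_nonneg hp.le hy.1, by nlinarith [hy.1, hy.2]⟩
  unfold rho3 con3
  rcases h.cases hy with ⟨h3, h4, h5⟩ | ⟨h3, h3', h4, h4', h5⟩ | ⟨h3, h3', h4, h4', h5⟩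
  · rw [if_pos h3, if_pos h3, h5]
    rw [h.rot hx0, if_pos (by linarith), if_pos h4] at e1
    rw [← e1]; group
  · rw [if_neg h3, if_neg h3, if_pos h3', h5]
    rw [h.rot hx0, if_pos h4', if_neg (not_lt.2 h4)] at e1
    have hx1 : (α + β) * y + α ∈ Ico (0 : ℝ) 1 := ⟨by linarith [hx0.1], by linarith⟩
    rw [h.rot hx0, if_pos h4', h.rot hx1, if_neg (by linarith), if_neg (by linarith)] at e2
    have e3 : (α + β) * y + α - (1 - α) = (α + β) * y + 2 * α - 1 := by ring
    rw [e3] at e2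
    have e4 : B ((α + β) * y + 2 * α - 1) = B ((α + β) * y) := by
      have f1 : B ((α + β) * y + α) = J4 * B ((α + β) * y) * J4⁻¹ := by
        calc B ((α + β) * y + α) = (B ((α + β) * y + α) * J4 * (B ((α + β) * y))⁻¹) *
              B ((α + β) * y) * J4⁻¹ := by group
          _ = _ := by rw [e1]
      have f2 : B ((α + β) * y + 2 * α - 1) = J4 * B ((α + β) * y + α) * J4⁻¹ := by
        calc B ((α + β) * y + 2 * α - 1) = (B ((α + β) * y + 2 * α - 1) * J4 *
              (B ((α + β) * y + α))⁻¹) * B ((α + β) * y + α) * J4⁻¹ := by group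
          _ = _ := by rw [e2]
      rw [f2, f1]
      calc J4 * (J4 * B ((α + β) * y) * J4⁻¹) * J4⁻¹ =
            (J4 * J4) * B ((α + β) * y) * (J4 * J4)⁻¹ := by group
        _ = _ := by rw [J4_sq]; simp
    rw [e4]
    simp
  · rw [if_neg h3, if_neg h3, if_neg h3', h5]
    rw [h.rot hx0, if_neg (not_lt.2 h4), if_neg (by linarith)] at e1
    have e3 : (α + β) * y - (1 - α) = (α + β) * y + α - 1 := by ring
    rw [e3] at e1
    calc (B ((α + β) * y + α - 1))⁻¹ * J4 * ((B ((α + β) * y))⁻¹)⁻¹ =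
          (B ((α + β) * y + α - 1))⁻¹ * (B ((α + β) * y + α - 1) * J4 * (B ((α + β) * y))⁻¹) *
            B ((α + β) * y) := by rw [e1]; group
      _ = J4 := by group

end Q66.Iet
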