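import Pool.Agent.Q66.IetLiou3

/-!
# The three-interval exchange: elliptic type, and not parabolic type
-/

open MeasureTheory Set Filter Topology Matrix

namespace Q66.Iet

variable {α β : ℝ}

theorem MeasSL.scale {B : ℝ → SL2} (hB : MeasSL B) (c : ℝ) : MeasSL fun y => B (c * y) :=
  fun i j => (hB i j).comp (measurable_const_mul c)

theorem Ex.elliptic (h : Ex α β) {B : ℝ → SL2} (hB : MeasSL B)
    (hco : ∀ᵐ x ∂μ, B (Int.fract (x + α)) * J4 * (B x)⁻¹ = if x < β then L1 else J4) :
    EllipticType (iet3 (la α β) (lb α β)) (rho3 (la α β) (lb α β)) := by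
  refine ⟨fun y => (B ((α + β) * y))⁻¹, (hB.scale _).inv,
    fun y => if y < la α β then Real.pi / 2 else if y < la α β + lb α β then Real.pi
      else Real.pi / 2, Measurable.ite measurableSet_Iio measurable_const
      (Measurable.ite measurableSet_Iio measurable_const measurable_const), ?_⟩
  filter_upwards [h.conj hco] with y hy
  rw [hy]
  unfold con3
  have hJ : J4.1 = !![Real.cos (Real.pi / 2), -Real.sin (Real.pi / 2); Real.sin (Real.pi / 2),
      Real.cos (Real.pi / 2)] := by
    rw [Real.cos_pi_div_two, Real.sin_pi_div_two]; rfl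
  have hI : (-1 : SL2).1 = !![Real.cos Real.pi, -Real.sin Real.pi; Real.sin Real.pi,
      Real.cos Real.pi] := by
    rw [Real.cos_pi, Real.sin_pi]
    ext i j
    fin_cases i <;> fin_cases j <;> simp
  by_cases h1 : y < la α β
  · simp only [if_pos h1]; exact hJ
  · by_cases h2 : y < la α β + lb α β
    · simp only [if_neg h1, if_pos h2]; exact hI
    · simp only [if_neg h1, if_neg h2]; exact hJ

/-- the half plane test -/
def half (d0 d1 : ℝ) : Prop := 0 < d0 * d1 ∨ d1 = 0

theorem half_scale {d0 d1 v : ℝ} (hv : 0 < v) : half (v * d0) (v * d1) ↔ half d0 d1 := by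
  unfold half
  have e : v * d0 * (v * d1) = (v * v) * (d0 * d1) := by ring
  rw [e, mul_pos_iff_of_pos_left (mul_pos hv hv), mul_eq_zero]
  constructor
  · rintro (h | h)
    · exact Or.inl h
    · exact Or.inr (h.resolve_left hv.ne')
  · rintro (h | h)
    · exact Or.inl h
    · exact Or.inr (Or.inr h)

theorem half_neg {d0 d1 : ℝ} : half (-d0) (-d1) ↔ half d0 d1 := by
  unfold half
  rw [neg_mul_neg, neg_eq_zero]

theorem half_rot {d0 d1 : ℝ} (h : d0 ≠ 0 ∨ d1 ≠ 0) : half (-d1) d0 ↔ ¬ half d0 d1 := by
  unfold half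
  push Not
  constructor
  · rintro (h1 | h1)
    · have : d0 * d1 < 0 := by nlinarith
      exact ⟨this.le, fun h2 => by rw [h2, mul_zero] at this; exact lt_irrefl _ this⟩
    · rw [h1]
      refine ⟨by simp, fun h2 => ?_⟩
      rcases h with h | h
      · exact h h1
      · exact h h2
  · rintro ⟨h1, h2⟩
    rcases h1.lt_or_eq with h3 | h3
    · left; nlinarith
    · right; exact (mul_eq_zero.1 h3).resolve_right h2

theorem Ex.not_parabolic (h : Ex α β) {B : ℝ → SL2} (hB : MeasSL B)
    (hco : ∀ᵐ x ∂μ, B (Int.fract (x + α)) * J4 * (B x)⁻¹ = if x < β then L1 else J4) :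
    ¬ ParabolicType (iet3 (la α β) (lb α β)) (rho3 (la α β) (lb α β)) := by
  rintro ⟨A, hA, v, m, hv, hm, hv0, -, -, hU⟩
  have hp := h.pos
  have hl := h.lt
  have hα0 := h.α0
  have hα1 := h.α1
  have hβ0 := h.β0
  have hβ1 := h.β1
  set D : ℝ → SL2 := fun y => (B ((α + β) * y))⁻¹ * (A y)⁻¹ with hD
  have hDm : MeasSL D := (hB.scale _).inv.mul hA.inv
  set T := iet3 (la α β) (lb α β) with hT
  set S : Set ℝ := {y | half ((D y).1 0 0) ((D y).1 1 0)} with hS
  have hSm : MeasurableSet S := by
    have h0 := hDm 0 0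
    have h1 := hDm 1 0
    have e : S = {y | 0 < (D y).1 0 0 * (D y).1 1 0} ∪ {y | (D y).1 1 0 = 0} := by
      ext y; rw [hS]; simp [half]
    rw [e]
    exact (measurableSet_lt measurable_const (h0.mul h1)).union
      (measurableSet_eq_fun h1 measurable_const)
  -- the basic relation
  have hrel : ∀ᵐ y ∂μ, (¬ y < la α β ∧ y < la α β + lb α β ∧ (T y ∈ S ↔ y ∈ S)) ∨
      ((y < la α β ∨ ¬ y < la α β + lb α β) ∧ (T y ∈ S ↔ y ∉ S)) := by
    filter_upwards [h.conj hco, hU] with y h1 h2
    have hcon : con3 (la α β) (lb α β) y * D y =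
        D (T y) * (A (T y) * rho3 (la α β) (lb α β) y * (A y)⁻¹) := by
      rw [← hT] at h1
      rw [← h1, hD]
      group
    have hcon1 : (con3 (la α β) (lb α β) y).1 * (D y).1 =
        (D (T y)).1 * !![v y, m y; 0, 1 / v y] := by
      rw [← h2]
      exact congrArg Subtype.val hcon
    have c0 := congrFun (congrFun hcon1 0) 0
    have c1 := congrFun (congrFun hcon1 1) 0
    simp only [Matrix.mul_apply, Fin.sum_univ_two] at c0 c1
    simp only [Matrix.of_apply, Matrix.cons_val', Matrix.cons_val_zero, Matrix.cons_val_one,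
      mul_zero, add_zero] at c0 c1
    have hne : (D y).1 0 0 ≠ 0 ∨ (D y).1 1 0 ≠ 0 := by
      by_contra hno
      push Not at hno
      have := (D y).2
      rw [Matrix.det_fin_two, hno.1, hno.2] at this
      simp at this
    have hsc : T y ∈ S ↔ half ((D (T y)).1 0 0 * v y) ((D (T y)).1 1 0 * v y) := by
      rw [mul_comm _ (v y), mul_comm _ (v y), half_scale (hv0 y)]
      rfl
    by_cases ha : y < la α β
    · right
      refine ⟨Or.inl ha, ?_⟩
      have e : con3 (la α β) (lb α β) y = J4 := by unfold con3; rw [if_pos ha]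
      rw [e] at c0 c1
      rw [hsc]
      have f0 : (D (T y)).1 0 0 * v y = -(D y).1 1 0 := by
        have := c0
        simp [J4] at this
        linarith
      have f1 : (D (T y)).1 1 0 * v y = (D y).1 0 0 := by
        have := c1
        simp [J4] at this
        linarith
      rw [f0, f1, half_rot hne]
      rfl
    · by_cases hb : y < la α β + lb α β
      · left
        refine ⟨ha, hb, ?_⟩
        have e : con3 (la α β) (lb α β) y = -1 := by unfold con3; rw [if_neg ha, if_pos hb]
        rw [e] at c0 c1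
        rw [hsc]
        have f0 : (D (T y)).1 0 0 * v y = -(D y).1 0 0 := by
          have := c0
          simp at this
          linarith
        have f1 : (D (T y)).1 1 0 * v y = -(D y).1 1 0 := by
          have := c1
          simp at this
          linarith
        rw [f0, f1, half_neg]
        rfl
      · right
        refine ⟨Or.inr hb, ?_⟩
        have e : con3 (la α β) (lb α β) y = J4 := by unfold con3; rw [if_neg ha, if_neg hb]
        rw [e] at c0 c1
        rw [hsc]
        have f0 : (D (T y)).1 0 0 * v y = -(D y).1 1 0 := by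
          have := c0
          simp [J4] at this
          linarith
        have f1 : (D (T y)).1 1 0 * v y = (D y).1 0 0 := by
          have := c1
          simp [J4] at this
          linarith
        rw [f0, f1, half_rot hne]
        rfl
  -- the corresponding set on the circle
  set S' : Set ℝ := {x | (x < α + β ∧ x / (α + β) ∈ S) ∨
    (¬ x < α + β ∧ (x + α - 1) / (α + β) ∉ S)} with hS'def
  have hmeas : MeasurableSet S' := by
    have m1 : MeasurableSet {x : ℝ | x < α + β} := measurableSet_Iio
    have m2 : MeasurableSet {x : ℝ | x / (α + β) ∈ S} := (measurable_id.div_const _) hSm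
    have m3 : MeasurableSet {x : ℝ | (x + α - 1) / (α + β) ∉ S} := by
      have : Measurable fun x : ℝ => (x + α - 1) / (α + β) := by fun_prop
      exact this hSm.compl
    exact (m1.inter m2).union (m1.compl.inter m3)
  have hS1 : ∀ x, x < α + β → (x ∈ S' ↔ x / (α + β) ∈ S) := by
    intro x hx
    rw [hS'def]
    simp only [mem_ofPred_eq, hx, true_and, not_true, false_and, or_false]
  have hS2 : ∀ x, ¬ x < α + β → (x ∈ S' ↔ (x + α - 1) / (α + β) ∉ S) := by
    intro x hx
    rw [hS'def]
    simp only [mem_ofPred_eq, hx, true_and, not_false_eq_true, false_and, false_or]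
  have hflip : ∀ᵐ x ∂μ, (Int.fract (x + α) ∈ S' ↔ x ∉ S') := by
    filter_upwards [scale2 hp hrel, ae_mem] with x h1 hx
    rw [h.rot hx]
    by_cases hxl : x < α + β
    · have hy : x / (α + β) ∈ Ico (0 : ℝ) 1 := ⟨div_nonneg hx.1 hp.le, by
        rw [div_lt_one hp]; exact hxl⟩
      have hxy : (α + β) * (x / (α + β)) = x := by field_simp
      rw [hS1 x hxl]
      have h1' := h1 hxl
      rcases h.cases hy with ⟨g1, h3, h4⟩ | ⟨g1, g2, h2, h3, h4⟩ | ⟨g1, g2, h2, h3, h4⟩
      · have h5 : T (x / (α + β)) ∈ S ↔ x / (α + β) ∉ S := by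
          rcases h1' with h6 | h6
          · exact absurd g1 h6.1
          · exact h6.2
        rw [hxy] at h3 h4
        rw [if_pos (by linarith), ← h5]
        have e : T (x / (α + β)) = (x + α) / (α + β) := by
          rw [eq_div_iff hp.ne', mul_comm]; exact h4
        have hlt : x + α < α + β := by linarith
        rw [hS1 _ hlt, e]
      · have h5 : T (x / (α + β)) ∈ S ↔ x / (α + β) ∈ S := by
          rcases h1' with h6 | h6
          · exact h6.2.2
          · rcases h6.1 with h7 | h7
            · exact absurd h7 g1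
            · exact absurd g2 h7
        rw [hxy] at h2 h3 h4
        rw [if_pos h3, ← h5]
        have e : T (x / (α + β)) = (x + α + α - 1) / (α + β) := by
          rw [eq_div_iff hp.ne', mul_comm, h4]; ring
        have hlt : ¬ x + α < α + β := by linarith
        rw [hS2 _ hlt, e]
      · have h5 : T (x / (α + β)) ∈ S ↔ x / (α + β) ∉ S := by
          rcases h1' with h6 | h6
          · exact absurd h6.2.1 g2
          · exact h6.2
        rw [hxy] at h2 h3 h4
        rw [if_neg (not_lt.2 h2), ← h5]
        have e : T (x / (α + β)) = (x - (1 - α)) / (α + β) := by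
          rw [eq_div_iff hp.ne', mul_comm, h4]; ring
        have hlt : x - (1 - α) < α + β := by linarith
        rw [hS1 _ hlt, e]
    · rw [if_neg (by linarith)]
      have hlt : x - (1 - α) < α + β := by linarith [hx.2]
      have e : x + α - 1 = x - (1 - α) := by ring
      rw [hS1 _ hlt, hS2 x hxl, e, not_not]
  have hmp := fract_mp (α := α) (by linarith) (by linarith)
  have hflip2 := hmp.quasiMeasurePreserving.ae hflip
  have hinv : ∀ᵐ x ∂μ, (x ∈ S' ↔ Int.fract (x + 2 * α) ∈ S') := by
    filter_upwards [hflip, hflip2] with x h1 h2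
    have e : Int.fract (Int.fract (x + α) + α) = Int.fract (x + 2 * α) := by
      have : x + 2 * α = (Int.fract (x + α) + α) + (⌊x + α⌋ : ℤ) := by
        rw [← Int.self_sub_floor]; ring
      rw [this, Int.fract_add_intCast]
    rw [e] at h2
    rw [h2, h1, not_not]
  have hirr : Irrational (2 * α) := by
    have := h.irr.natCast_mul (show (2 : ℕ) ≠ 0 by norm_num)
    exact_mod_cast this
  have hne : μ ≠ 0 := by
    intro h0
    have h1 : μ (Ico (0 : ℝ) 1) = 0 := by rw [h0]; rfl
    unfold μ at h1
    rw [Measure.restrict_apply_self, Real.volume_Ico] at h1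
    norm_num at h1
  have hfalse : ¬ ∀ᵐ x ∂μ, False := by
    intro h0
    have : (ae μ) = ⊥ := by
      rw [← Filter.eventually_false_iff_eq_bot]; exact h0
    exact hne (ae_eq_bot.1 this)
  rcases rot_ae hirr hmeas hinv with h5 | h5
  · have h6 := hmp.quasiMeasurePreserving.ae h5
    apply hfalse
    filter_upwards [h5, h6, hflip] with x a1 a2 a3
    exact (a3.1 a2) a1
  · have h6 := hmp.quasiMeasurePreserving.ae h5
    apply hfalse
    filter_upwards [h5, h6, hflip] with x a1 a2 a3
    exact a2 (a3.2 a1)

/-- existence of the parameters together with the transfer function -/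
theorem exists_ex : ∃ (α β : ℝ) (_ : Ex α β) (B : ℝ → SL2), MeasSL B ∧
    ∀ᵐ x ∂μ, B (Int.fract (x + α)) * J4 * (B x)⁻¹ = if x < β then L1 else J4 := by
  have hb := liou_bounds
  set α := liouvilleNumber 4 with hα
  let E : ℕ → ℝ := fun n => let q := (Denumerable.eqv (ℤ × ℤ)).symm n; (q.1 : ℝ) + q.2 * α
  obtain ⟨B, β, hB, h0, h1, h2, h3⟩ := exists_limit (α := α) goodA_liouville
    (fract_mp (by linarith) (by linarith)) E
  refine ⟨α, β, ⟨hb.1, hb.2, liou_irr, h0, h1, ?_⟩, B, hB, h3⟩
  intro m n hmn
  apply h2 (Denumerable.eqv (ℤ × ℤ) (m, n))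
  show β = (((Denumerable.eqv (ℤ × ℤ)).symm (Denumerable.eqv (ℤ × ℤ) (m, n))).1 : ℝ) +
    (((Denumerable.eqv (ℤ × ℤ)).symm (Denumerable.eqv (ℤ × ℤ) (m, n))).2 : ℝ) * α
  rw [Equiv.symm_apply_apply]
  exact hmn

end Q66.Iet
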