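import Pool.Agent.H535R3.JE

set_option autoImplicit false
open Set Filter Topology

namespace Q66.Jq
open H535R3

lemma cont_b (a ε x : ℝ) : Continuous fun b => P b a ε x :=
  continuous_P.comp (f := fun b : ℝ => (b, a, ε, x)) (by fun_prop)

lemma cont_a (b ε x : ℝ) : Continuous fun a => P b a ε x :=
  continuous_P.comp (f := fun a : ℝ => (b, a, ε, x)) (by fun_prop)

/-- A slice which is a single point gives the identity. -/
lemma id_of_slice {r : ℤ} {b a ε : ℝ} (h : ∀ b', (b', a) ∈ Ls r ε ↔ b' = b) (x : ℝ) :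
    P b a ε x = x + 2 * Real.pi * r := by
  obtain ⟨x0, hx0⟩ := (h b).2 rfl
  simp only at hx0
  rcases lt_trichotomy (P b a ε x) (x + 2 * Real.pi * r) with hlt | heq | hgt
  · exfalso
    have h2 : ∀ᶠ b' in 𝓝[>] b, P b' a ε x < x + 2 * Real.pi * r :=
      ((cont_b a ε x).continuousAt.eventually (gt_mem_nhds hlt)).filter_mono nhdsWithin_le_nhds
    obtain ⟨b', h3, h4⟩ := (h2.and self_mem_nhdsWithin).exists
    have h5 : x0 + 2 * Real.pi * r < P b' a ε x0 := hx0 ▸ P_lt_of_b h4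
    have h6 : (b', a) ∈ Ls r ε := mem_Ls_of (q := (b', a)) h5.le h3.le
    exact absurd ((h b').1 h6) (ne_of_gt h4)
  · exact heq
  · exfalso
    have h2 : ∀ᶠ b' in 𝓝[<] b, x + 2 * Real.pi * r < P b' a ε x :=
      ((cont_b a ε x).continuousAt.eventually (lt_mem_nhds hgt)).filter_mono nhdsWithin_le_nhds
    obtain ⟨b', h3, h4⟩ := (h2.and self_mem_nhdsWithin).exists
    have h5 : P b' a ε x0 < x0 + 2 * Real.pi * r := hx0 ▸ P_lt_of_b h4
    have h6 : (b', a) ∈ Ls r ε := mem_Ls_of (q := (b', a)) h3.le h5.le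
    exact absurd ((h b').1 h6) (ne_of_lt h4)

lemma slice_of_id {r : ℤ} {b a ε : ℝ} (h : ∀ x, P b a ε x = x + 2 * Real.pi * r) (b' : ℝ) :
    (b', a) ∈ Ls r ε ↔ b' = b := by
  constructor
  · intro h1
    by_contra hne
    rcases lt_or_gt_of_ne hne with h2 | h2
    · exact not_mem_of_gt h2 (fun x => (h x).le) h1
    · exact not_mem_of_lt h2 (fun x => (h x).ge) h1
  · rintro rfl
    exact ⟨0, h 0⟩

/-- Both symmetric points fixed. -/
lemma id_of_two {r : ℤ} {b a ε : ℝ} (h1 : P b a ε (Real.pi / 2) = Real.pi / 2 + 2 * Real.pi * r)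
    (h2 : P b a ε (-(Real.pi / 2)) = -(Real.pi / 2) + 2 * Real.pi * r) (x : ℝ) :
    P b a ε x = x + 2 * Real.pi * r := by
  have hne : Real.sin ((-(Real.pi / 2) - Real.pi / 2) / 2) ≠ 0 := by
    rw [show (-(Real.pi / 2) - Real.pi / 2) / 2 = -(Real.pi / 2) by ring, Real.sin_neg,
      Real.sin_pi_div_two]
    norm_num
  rcases dich h1 h2 hne with h | h
  · exact h.1 x
  · exact absurd (Kx_sym h1) h.1

lemma Kx_zero {r : ℤ} {b a ε : ℝ} (h : ∀ x, P b a ε x = x + 2 * Real.pi * r) (x : ℝ) :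
    Kx b a ε x = 0 := by
  have hpi := Real.pi_pos
  have h1 := K_add_zero (h (x + Real.pi / 2)) (h x)
    (Real.sin_pos_of_pos_of_lt_pi (by linarith) (by linarith)).ne'
  have h2 := K_add_zero (h (x + Real.pi)) (h x)
    (Real.sin_pos_of_pos_of_lt_pi (by linarith) (by linarith)).ne'
  have h3 := K_add_zero (h (x + Real.pi)) (h (x + Real.pi / 2))
    (Real.sin_pos_of_pos_of_lt_pi (by linarith) (by linarith)).ne'
  linarith

/-- Integrated equation. -/
lemma fl_int (b a ε x t : ℝ) : fl b a ε x t =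
    x + b * t + a * Real.sin t - ε * ∫ s in (0:ℝ)..t, Real.sin (fl b a ε x s) := by
  have hc : Continuous (fl b a ε x) := (fl_sol b a ε x).cont
  have hd : ∀ t, HasDerivAt (fun t => fl b a ε x t - (x + b * t + a * Real.sin t -
      ε * ∫ s in (0:ℝ)..t, Real.sin (fl b a ε x s))) 0 t := by
    intro t
    have h1 : HasDerivAt (fun t => ∫ s in (0:ℝ)..t, Real.sin (fl b a ε x s))
      (Real.sin (fl b a ε x t)) t :=
      (Real.continuous_sin.comp hc).integral_hasStrictDerivAt 0 t |>.hasDerivAt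
    have h2 := (fl_sol b a ε x t).sub (((((hasDerivAt_id t).const_mul b).const_add x).add
      ((Real.hasDerivAt_sin t).const_mul a)).sub (h1.const_mul ε))
    refine h2.congr_deriv ?_
    ring
  have := is_const_of_deriv_eq_zero (fun t => (hd t).differentiableAt) (fun t => (hd t).deriv) t 0
  simp only [fl_zero, mul_zero, Real.sin_zero, intervalIntegral.integral_same] at this
  linarith

lemma int_sin_bound (φ : ℝ → ℝ) {t : ℝ} (ht : 0 ≤ t) :
    |∫ s in (0:ℝ)..t, Real.sin (φ s)| ≤ t := by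
  have h := intervalIntegral.norm_integral_le_of_norm_le_const (a := 0) (b := t) (C := 1)
    (f := fun s => Real.sin (φ s)) (fun s _ => by rw [Real.norm_eq_abs]; exact Real.abs_sin_le_one _)
  rw [Real.norm_eq_abs, sub_zero, abs_of_nonneg ht, one_mul] at h
  exact h

lemma abs_sub_le {r : ℤ} {b a ε x : ℝ} (hε : 0 < ε) (h : P b a ε x = x + 2 * Real.pi * r) :
    |b - r| ≤ ε := by
  have hpi := Real.pi_pos
  have h1 := fl_int b a ε x (2 * Real.pi)
  rw [P] at h
  rw [h, Real.sin_two_pi] at h1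
  have h2 := int_sin_bound (fl b a ε x) (t := 2 * Real.pi) (by positivity)
  have h3 : (b - r) * (2 * Real.pi) = ε * ∫ s in (0:ℝ)..(2 * Real.pi), Real.sin (fl b a ε x s) := by
    linarith
  have h4 : |(b - r) * (2 * Real.pi)| ≤ ε * (2 * Real.pi) := by
    rw [h3, abs_mul, abs_of_pos hε]
    exact mul_le_mul_of_nonneg_left h2 hε.le
  rw [abs_mul, abs_of_pos (by positivity : (0:ℝ) < 2 * Real.pi)] at h4
  exact le_of_mul_le_mul_right h4 (by positivity)

end Q66.Jq
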