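import Pool.Agent.Q66.Jq1

set_option autoImplicit false
open Set Filter Topology Complex

namespace Q66.Jq
open H535R3

/-- Fourier coefficients of a derivative. -/
lemma cf_deriv {G G' : ℝ → ℂ} (hd : ∀ t, HasDerivAt G (G' t) t) (hc : Continuous G')
    (hper : ∀ t, G (t + 2 * Real.pi) = G t) (k : ℤ) : cf G' k = I * k * cf G k := by
  have hcont : Continuous G := continuous_iff_continuousAt.2 fun t => (hd t).continuousAt
  have hd2 : ∀ t : ℝ, HasDerivAt (fun t : ℝ => G t * exp (-(I * k * t)))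
      (G' t * exp (-(I * k * t)) + G t * (exp (-(I * k * t)) * (-(I * k)))) t := by
    intro t
    have h1 : HasDerivAt (fun t : ℝ => exp (-(I * k * (t : ℂ)))) (exp (-(I * k * t)) * (-(I * k))) t := by
      have h2 : HasDerivAt (fun t : ℝ => -(I * k * (t : ℂ))) (-(I * k * 1)) t :=
        ((ofRealCLM.hasDerivAt (x := t)).const_mul (I * k)).neg
      rw [mul_one] at h2
      exact h2.cexp
    exact (hd t).mul h1
  have hint := intervalIntegral.integral_eq_sub_of_hasDerivAt (a := -Real.pi) (b := Real.pi)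
    (fun t _ => hd2 t) (Continuous.intervalIntegrable (by fun_prop) _ _)
  have hbd : G Real.pi * exp (-(I * k * (Real.pi : ℝ))) =
      G (-Real.pi) * exp (-(I * k * ((-Real.pi : ℝ) : ℂ))) := by
    have h1 := hper (-Real.pi)
    have h2 := exp_per k (-Real.pi)
    rw [show -Real.pi + 2 * Real.pi = Real.pi by ring] at h1 h2
    rw [h1, h2]
  rw [hbd, sub_self] at hint
  have hint2 : ∫ t in (-Real.pi)..Real.pi, (G' t * exp (-(I * k * t)) -
      (I * k) * (G t * exp (-(I * k * t)))) = 0 := by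
    rw [← hint]
    congr 1
    funext t
    ring
  rw [intervalIntegral.integral_sub (Continuous.intervalIntegrable (by fun_prop) _ _)
    (Continuous.intervalIntegrable (by fun_prop) _ _),
    intervalIntegral.integral_const_mul] at hint2
  unfold cf
  linear_combination ((1 / (2 * Real.pi) : ℝ) : ℂ) * hint2

lemma cf_lin {G H : ℝ → ℂ} (hG : Continuous G) (hH : Continuous H) (c d : ℂ) (k : ℤ) :
    cf (fun t => c * G t + d * H t) k = c * cf G k + d * cf H k := by
  unfold cf
  have : ∀ t : ℝ, (c * G t + d * H t) * exp (-(I * k * t)) =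
    c * (G t * exp (-(I * k * t))) + d * (H t * exp (-(I * k * t))) := fun t => by ring
  simp_rw [this]
  rw [intervalIntegral.integral_add (Continuous.intervalIntegrable (by fun_prop) _ _)
    (Continuous.intervalIntegrable (by fun_prop) _ _), intervalIntegral.integral_const_mul,
    intervalIntegral.integral_const_mul]
  ring

lemma cos_mul_exp (k : ℤ) (t : ℝ) : (Real.cos t : ℂ) * exp (-(I * k * t)) =
    1 / 2 * exp (-(I * ((k - 1 : ℤ) : ℂ) * t)) + 1 / 2 * exp (-(I * ((k + 1 : ℤ) : ℂ) * t)) := by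
  have e1 : exp (-(I * ((k - 1 : ℤ) : ℂ) * t)) = exp (t * I) * exp (-(I * k * t)) := by
    rw [← exp_add]; congr 1; push_cast; ring
  have e2 : exp (-(I * ((k + 1 : ℤ) : ℂ) * t)) = exp (-t * I) * exp (-(I * k * t)) := by
    rw [← exp_add]; congr 1; push_cast; ring
  rw [e1, e2, ofReal_cos, Complex.cos]
  ring

lemma cf_cos {G : ℝ → ℂ} (hG : Continuous G) (k : ℤ) :
    cf (fun t => (Real.cos t : ℂ) * G t) k = 1 / 2 * (cf G (k - 1) + cf G (k + 1)) := by
  unfold cf
  have : ∀ t : ℝ, (Real.cos t : ℂ) * G t * exp (-(I * k * t)) =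
    1 / 2 * (G t * exp (-(I * ((k - 1 : ℤ) : ℂ) * t))) +
      1 / 2 * (G t * exp (-(I * ((k + 1 : ℤ) : ℂ) * t))) := fun t => by
    have := cos_mul_exp k t
    linear_combination (G t) * this
  simp_rw [this]
  rw [intervalIntegral.integral_add (Continuous.intervalIntegrable (by fun_prop) _ _)
    (Continuous.intervalIntegrable (by fun_prop) _ _), intervalIntegral.integral_const_mul,
    intervalIntegral.integral_const_mul]
  ring

lemma eq_zero_of_cf {G : ℝ → ℂ} (hG : Continuous G) (hper : ∀ t, G (t + 2 * Real.pi) = G t)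
    (h : ∀ k, cf G k = 0) (t : ℝ) : G t = 0 := by
  have h0 : cf G = fun _ => 0 := funext h
  have hs : Summable (cf G) := by rw [h0]; exact summable_zero
  have h1 := cf_expand hG hper hs t
  rw [h0] at h1
  simp only [zero_mul] at h1
  exact h1.unique hasSum_zero

/-- `∫ e^{iφ}`. -/
noncomputable def EE (φ : ℝ → ℝ) (t : ℝ) : ℂ := ∫ s in (0:ℝ)..t, exp (I * φ s)

lemma EE_deriv {φ : ℝ → ℝ} (h : Continuous φ) (t : ℝ) : HasDerivAt (EE φ) (exp (I * φ t)) t := by
  have hc : Continuous fun s : ℝ => exp (I * φ s) := by fun_prop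
  exact (hc.integral_hasStrictDerivAt 0 t).hasDerivAt

/-- First component. -/
noncomputable def Us (s ε : ℝ) (φ : ℝ → ℝ) (t : ℝ) : ℂ := exp (-(I * s * t) + ε / 2 * EE φ t)

/-- Second component. -/
noncomputable def Vs (s ε : ℝ) (φ : ℝ → ℝ) (t : ℝ) : ℂ := exp (I * φ t) * Us s ε φ t

lemma Us_deriv {s ε : ℝ} {φ : ℝ → ℝ} (h : Continuous φ) (t : ℝ) :
    HasDerivAt (Us s ε φ) (-(I * s) * Us s ε φ t + ε / 2 * Vs s ε φ t) t := by
  have h1 : HasDerivAt (fun t : ℝ => -(I * s * (t : ℂ)) + ε / 2 * EE φ t)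
      (-(I * s * 1) + ε / 2 * exp (I * φ t)) t :=
    ((ofRealCLM.hasDerivAt (x := t)).const_mul (I * s)).neg.add ((EE_deriv h t).const_mul _)
  refine h1.cexp.congr_deriv ?_
  rw [Vs, Us]
  ring

lemma Us_cont {s ε : ℝ} {φ : ℝ → ℝ} (h : Continuous φ) : Continuous (Us s ε φ) :=
  continuous_iff_continuousAt.2 fun t => (Us_deriv h t).continuousAt

lemma Vs_cont {s ε : ℝ} {φ : ℝ → ℝ} (h : Continuous φ) : Continuous (Vs s ε φ) := by
  unfold Vs
  have := Us_cont (s := s) (ε := ε) h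
  fun_prop

lemma Vs_deriv {s b a ε : ℝ} {φ : ℝ → ℝ} (h : Sol b a ε φ) (t : ℝ) :
    HasDerivAt (Vs s ε φ) ((I * (b - s)) * Vs s ε φ t + (I * a) * ((Real.cos t : ℂ) * Vs s ε φ t)
      + ε / 2 * Us s ε φ t) t := by
  have h1 : HasDerivAt (fun t : ℝ => exp (I * φ t))
      (exp (I * φ t) * (I * ((b + a * Real.cos t - ε * Real.sin (φ t) : ℝ) : ℂ))) t :=
    ((h t).ofReal_comp.const_mul I).cexp
  refine (h1.mul (Us_deriv h.cont t)).congr_deriv ?_
  rw [Vs]
  push_cast
  have e0 : exp (I * φ t) = Complex.cos (φ t) + Complex.sin (φ t) * I := by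
    rw [mul_comm, exp_mul_I]
  have e1 : Complex.cos (φ t) ^ 2 + Complex.sin (φ t) ^ 2 = 1 := Complex.cos_sq_add_sin_sq _
  have hI : I * I = -1 := I_mul_I
  rw [e0]
  have e2 : (Complex.cos (φ t) + Complex.sin (φ t) * I) * (Complex.cos (φ t) + Complex.sin (φ t) * I)
    - 1 - 2 * I * Complex.sin (φ t) * (Complex.cos (φ t) + Complex.sin (φ t) * I) = 0 := by
    linear_combination e1 - (Complex.sin (φ t)) ^ 2 * hI
  linear_combination (ε / 2 * Us s ε φ t) * e2

end Q66.Jq
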