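import Pool.Agent.Q66.Jq2

set_option autoImplicit false
open Set Filter Topology Complex

namespace Q66.Jq
open H535R3

lemma exp_shift_int (z : ℂ) (r : ℤ) : exp (z + 2 * Real.pi * r * I) = exp z := by
  rw [exp_eq_exp_iff_exists_int]
  exact ⟨r, by ring⟩

lemma EE_per {φ : ℝ → ℝ} (h : Continuous φ) {r : ℤ} (hp : ∀ t, φ (t + 2 * Real.pi) = φ t + 2 * Real.pi * r)
    (t : ℝ) : EE φ (t + 2 * Real.pi) = EE φ t + EE φ (2 * Real.pi) := by
  have hd : ∀ t, HasDerivAt (fun t => EE φ (t + 2 * Real.pi) - EE φ t) 0 t := by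
    intro t
    have h1 := ((EE_deriv h (t + 2 * Real.pi)).comp_add_const t (2 * Real.pi)).sub (EE_deriv h t)
    refine h1.congr_deriv ?_
    rw [hp]
    have : I * ((φ t + 2 * Real.pi * r : ℝ) : ℂ) = I * (φ t) + 2 * Real.pi * r * I := by
      push_cast; ring
    rw [this, exp_shift_int, sub_self]
  have h0 : EE φ 0 = 0 := by simp [EE]
  have := is_const_of_deriv_eq_zero (fun t => (hd t).differentiableAt) (fun t => (hd t).deriv) t 0
  simp only [zero_add, h0, sub_zero] at this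
  rw [← this]; ring

lemma EE_two_pi {b a ε x : ℝ} {r : ℤ} (h : P b a ε x = x + 2 * Real.pi * r)
    (hK : Kx b a ε x = 0) : (ε : ℂ) / 2 * EE (fl b a ε x) (2 * Real.pi) = I * (Real.pi * (b - r)) := by
  set φ := fl b a ε x with hφ
  have hc : Continuous φ := (fl_sol b a ε x).cont
  have h1 : EE φ (2 * Real.pi) = (Cc φ (2 * Real.pi) : ℂ) +
      ((∫ s in (0:ℝ)..(2 * Real.pi), Real.sin (φ s) : ℝ) : ℂ) * I := by
    rw [EE, Cc, ← intervalIntegral.integral_ofReal, ← intervalIntegral.integral_ofReal,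
      ← intervalIntegral.integral_mul_const, ← intervalIntegral.integral_add]
    · congr 1
      funext s
      rw [mul_comm, exp_mul_I]
      push_cast
      ring
    · exact Continuous.intervalIntegrable (by fun_prop) _ _
    · exact Continuous.intervalIntegrable (by fun_prop) _ _
  have h2 : ε / 2 * Cc φ (2 * Real.pi) = 0 := hK
  have h3 := fl_int b a ε x (2 * Real.pi)
  rw [Real.sin_two_pi, mul_zero, add_zero] at h3
  rw [P] at h
  rw [h, ← hφ] at h3
  have h4 : ε * ∫ s in (0:ℝ)..(2 * Real.pi), Real.sin (φ s) = 2 * Real.pi * (b - r) := by linarith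
  have h2' : (ε : ℂ) / 2 * (Cc φ (2 * Real.pi) : ℂ) = 0 := by exact_mod_cast h2
  have h4' : (ε : ℂ) * ((∫ s in (0:ℝ)..(2 * Real.pi), Real.sin (φ s) : ℝ) : ℂ) =
      2 * Real.pi * (b - r) := by exact_mod_cast h4
  rw [h1]
  linear_combination h2' + I / 2 * h4'

/-- `U` normalised. -/
noncomputable def fU (b a ε : ℝ) (r : ℤ) (x : ℝ) : ℝ → ℂ := Us ((b - r) / 2) ε (fl b a ε x)
/-- `V` normalised. -/
noncomputable def fV (b a ε : ℝ) (r : ℤ) (x : ℝ) : ℝ → ℂ := Vs ((b - r) / 2) ε (fl b a ε x)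

lemma fU_cont (b a ε : ℝ) (r : ℤ) (x : ℝ) : Continuous (fU b a ε r x) := Us_cont (fl_sol b a ε x).cont
lemma fV_cont (b a ε : ℝ) (r : ℤ) (x : ℝ) : Continuous (fV b a ε r x) := Vs_cont (fl_sol b a ε x).cont

lemma fU_per {b a ε : ℝ} {r : ℤ} (h : ∀ x, P b a ε x = x + 2 * Real.pi * r) (x t : ℝ) :
    fU b a ε r x (t + 2 * Real.pi) = fU b a ε r x t := by
  rw [fU, Us, Us, EE_per (fl_sol b a ε x).cont (fl_per (h x))]
  congr 1
  have := EE_two_pi (h x) (Kx_zero h x)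
  push_cast
  linear_combination this

lemma fV_per {b a ε : ℝ} {r : ℤ} (h : ∀ x, P b a ε x = x + 2 * Real.pi * r) (x t : ℝ) :
    fV b a ε r x (t + 2 * Real.pi) = fV b a ε r x t := by
  have h1 := fU_per h x t
  rw [fU] at h1
  rw [fV, Vs, Vs, h1, fl_per (h x)]
  congr 1
  have : I * ((fl b a ε x t + 2 * Real.pi * r : ℝ) : ℂ) = I * (fl b a ε x t) + 2 * Real.pi * r * I := by
    push_cast; ring
  rw [this, exp_shift_int]

lemma fU_zero (b a ε : ℝ) (r : ℤ) (x : ℝ) : fU b a ε r x 0 = 1 := by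
  simp [fU, Us, EE]

lemma fV_zero (b a ε : ℝ) (r : ℤ) (x : ℝ) : fV b a ε r x 0 = exp (I * x) := by
  simp [fV, Vs, Us, EE, fl_zero]

lemma rec1 {b a ε : ℝ} {r : ℤ} (h : ∀ x, P b a ε x = x + 2 * Real.pi * r) (x : ℝ) (n : ℤ) :
    I * (n + (b - r) / 2) * cf (fU b a ε r x) n = ε / 2 * cf (fV b a ε r x) n := by
  have h1 := cf_deriv (G := fU b a ε r x) (fun t => Us_deriv (fl_sol b a ε x).cont t)
    (by
      have := fU_cont b a ε r x
      have h2 := fV_cont b a ε r x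
      unfold fU at this
      unfold fV at h2
      fun_prop) (fU_per h x) n
  have h2 := cf_lin (fU_cont b a ε r x) (fV_cont b a ε r x) (-(I * (((b - r) / 2 : ℝ) : ℂ))) (ε / 2) n
  rw [fU, fV] at h2
  rw [h2] at h1
  rw [fU, fV]
  rw [fU] at h1
  push_cast at h1 ⊢
  linear_combination -h1

lemma rec2 {b a ε : ℝ} {r : ℤ} (h : ∀ x, P b a ε x = x + 2 * Real.pi * r) (x : ℝ) (n : ℤ) :
    I * (n - (b + r) / 2) * cf (fV b a ε r x) n =
      I * a / 2 * (cf (fV b a ε r x) (n - 1) + cf (fV b a ε r x) (n + 1)) +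
      ε / 2 * cf (fU b a ε r x) n := by
  have hU := fU_cont b a ε r x
  have hV := fV_cont b a ε r x
  have h1 := cf_deriv (G := fV b a ε r x) (fun t => Vs_deriv (fl_sol b a ε x) t)
    (by
      unfold fU at hU
      unfold fV at hV
      fun_prop) (fV_per h x) n
  have h2 := cf_lin (hV) (H := fun t => (Real.cos t : ℂ) * fV b a ε r x t) (by fun_prop)
    (I * (b - (((b - r) / 2 : ℝ) : ℂ))) (I * a) n
  have h3 := cf_lin (G := fun t => (I * (b - (((b - r) / 2 : ℝ) : ℂ))) * fV b a ε r x t +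
    (I * a) * ((Real.cos t : ℂ) * fV b a ε r x t)) (H := fU b a ε r x) (by fun_prop) hU 1 (ε / 2) n
  rw [h2, cf_cos hV] at h3
  simp only [one_mul] at h3
  rw [fU, fV] at h3
  rw [h3] at h1
  rw [fU, fV]
  rw [fV] at h1
  push_cast at h1 ⊢
  linear_combination -h1

lemma rec3 {b a ε : ℝ} {r : ℤ} (h : ∀ x, P b a ε x = x + 2 * Real.pi * r) (x : ℝ) (n : ℤ)
    (hn : (n : ℝ) + (b - r) / 2 ≠ 0) :
    (n - (b + r) / 2 + ε ^ 2 / (4 * (n + (b - r) / 2))) * cf (fV b a ε r x) n =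
      a / 2 * (cf (fV b a ε r x) (n - 1) + cf (fV b a ε r x) (n + 1)) := by
  have h1 := rec1 h x n
  have h2 := rec2 h x n
  have hn' : (n : ℂ) + (b - r) / 2 ≠ 0 := by exact_mod_cast hn
  generalize cf (fV b a ε r x) n = f at *
  generalize cf (fU b a ε r x) n = g at *
  generalize cf (fV b a ε r x) (n - 1) + cf (fV b a ε r x) (n + 1) = w at *
  have h3 : (n : ℂ) - (b + r) / 2 + ε ^ 2 / (4 * (n + (b - r) / 2)) =
    ((n - (b + r) / 2) * (n + (b - r) / 2) + ε ^ 2 / 4) / (n + (b - r) / 2) := by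
    generalize (n : ℂ) + (b - r) / 2 = q at hn'
    generalize (n : ℂ) - (b + r) / 2 = u
    rw [eq_div_iff hn']
    field_simp
  rw [h3, div_mul_eq_mul_div, div_eq_iff hn']
  have hI : I * I = -1 := I_mul_I
  linear_combination (-I * (n + (b - r) / 2)) * h2 - (ε / 2) * h1 +
    ((n - (b + r) / 2) * (n + (b - r) / 2) * f - a / 2 * w * (n + (b - r) / 2)) * hI

lemma decay {b a ε : ℝ} {r : ℤ} (h : ∀ x, P b a ε x = x + 2 * Real.pi * r) (x : ℝ) :
    ∃ C, ∀ n : ℤ, |(n : ℝ)| * ‖cf (fV b a ε r x) n‖ ≤ C := by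
  have hU := fU_cont b a ε r x
  have hV := fV_cont b a ε r x
  have hd : ∀ t, HasDerivAt (fV b a ε r x) ((I * (b - (((b - r) / 2 : ℝ) : ℂ))) * fV b a ε r x t +
      (I * a) * ((Real.cos t : ℂ) * fV b a ε r x t) + ε / 2 * fU b a ε r x t) t :=
    fun t => Vs_deriv (fl_sol b a ε x) t
  have h1 := cf_deriv hd (by fun_prop) (fV_per h x)
  set G' : ℝ → ℂ := fun t => (I * (b - (((b - r) / 2 : ℝ) : ℂ))) * fV b a ε r x t +
      (I * a) * ((Real.cos t : ℂ) * fV b a ε r x t) + ε / 2 * fU b a ε r x t with hG'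
  have hcont : Continuous G' := by fun_prop
  have hper : Function.Periodic G' (2 * Real.pi) := by
    intro t
    simp only [hG', fV_per h x, fU_per h x, Real.cos_add_two_pi]
  obtain ⟨C, hC⟩ := (hper.isBounded_of_continuous Real.two_pi_pos.ne' hcont).exists_norm_le
  refine ⟨C, fun n => ?_⟩
  have h2 := cf_bound (fun t => hC _ (mem_range_self t)) n
  rw [h1 n, norm_mul, norm_mul, norm_I, one_mul] at h2
  have h3 : ‖(n : ℂ)‖ = |(n : ℝ)| := by
    rw [show (n : ℂ) = ((n : ℝ) : ℂ) by push_cast; rfl, Complex.norm_real, Real.norm_eq_abs]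
  rwa [h3] at h2

end Q66.Jq
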