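import Pool.Agent.Q66.Jq3

set_option autoImplicit false
open Set Filter Topology Complex

namespace Q66.Jq
open H535R3

lemma zero_of_rec {c h : ℤ → ℂ} (hrec : ∀ n, h (n + 1) + h (n - 1) = c n * h n)
    (h0 : h 0 = 0) (h1 : h 1 = 0) (n : ℤ) : h n = 0 := by
  have hp : ∀ m : ℕ, h m = 0 ∧ h (m + 1) = 0 := by
    intro m
    induction m with
    | zero => simpa using ⟨h0, h1⟩
    | succ m ih =>
      refine ⟨by push_cast; exact ih.2, ?_⟩
      have := hrec (m + 1)
      rw [ih.2, mul_zero, add_sub_cancel_right, ih.1, add_zero] at this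
      push_cast
      exact this
  have hm : ∀ m : ℕ, h (-(m : ℤ)) = 0 ∧ h (-(m : ℤ) + 1) = 0 := by
    intro m
    induction m with
    | zero => simpa using ⟨h0, h1⟩
    | succ m ih =>
      have e : -((m + 1 : ℕ) : ℤ) + 1 = -(m : ℤ) := by push_cast; ring
      rw [e]
      refine ⟨?_, ih.1⟩
      have := hrec (-(m : ℤ))
      rw [ih.1, mul_zero, ih.2, zero_add] at this
      rw [← this]; congr 1; push_cast; ring
  rcases Int.le_total 0 n with hn | hn
  · obtain ⟨m, rfl⟩ := Int.eq_ofNat_of_zero_le hn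
    exact (hp m).1
  · obtain ⟨m, hm'⟩ := Int.eq_ofNat_of_zero_le (neg_nonneg.2 hn)
    have : n = -(m : ℤ) := by omega
    rw [this]
    exact (hm m).1

lemma exp_zero_pt : exp (I * ((0:ℝ) : ℂ)) = 1 := by simp
lemma exp_pi_pt : exp (I * (Real.pi : ℂ)) = -1 := by rw [mul_comm]; exact exp_pi_mul_I

/-- Linear relation of coefficients passes to `t = 0`. -/
lemma lin_V {b a ε : ℝ} {r : ℤ} (h : ∀ x, P b a ε x = x + 2 * Real.pi * r) (c d : ℂ)
    (hz : ∀ n, c * cf (fV b a ε r 0) n + d * cf (fV b a ε r Real.pi) n = 0) : c - d = 0 := by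
  have h1 := eq_zero_of_cf (G := fun t => c * fV b a ε r 0 t + d * fV b a ε r Real.pi t)
    (by
      have := fV_cont b a ε r 0
      have := fV_cont b a ε r Real.pi
      fun_prop) (fun t => by simp only [fV_per h])
    (fun k => by rw [cf_lin (fV_cont b a ε r 0) (fV_cont b a ε r Real.pi)]; exact hz k) 0
  simp only [fV_zero] at h1
  rw [exp_zero_pt, exp_pi_pt] at h1
  linear_combination h1

lemma lin_U {b a ε : ℝ} {r : ℤ} (h : ∀ x, P b a ε x = x + 2 * Real.pi * r) (c d : ℂ)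
    (hz : ∀ n, c * cf (fU b a ε r 0) n + d * cf (fU b a ε r Real.pi) n = 0) : c + d = 0 := by
  have h1 := eq_zero_of_cf (G := fun t => c * fU b a ε r 0 t + d * fU b a ε r Real.pi t)
    (by
      have := fU_cont b a ε r 0
      have := fU_cont b a ε r Real.pi
      fun_prop) (fun t => by simp only [fU_per h])
    (fun k => by rw [cf_lin (fU_cont b a ε r 0) (fU_cont b a ε r Real.pi)]; exact hz k) 0
  simp only [fU_zero] at h1
  linear_combination h1

lemma tendsto_zero_of_decay {f : ℤ → ℂ} {C : ℝ} (h : ∀ n : ℤ, |(n : ℝ)| * ‖f n‖ ≤ C) :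
    Tendsto (fun n : ℕ => f n) atTop (𝓝 0) := by
  rw [tendsto_zero_iff_norm_tendsto_zero]
  have h1 : Tendsto (fun n : ℕ => C / (n : ℝ)) atTop (𝓝 0) := tendsto_const_div_atTop_nhds_zero_nat C
  refine squeeze_zero' (Eventually.of_forall fun n => norm_nonneg _) ?_ h1
  filter_upwards [eventually_gt_atTop 0] with n hn
  have hn' : (0:ℝ) < n := by exact_mod_cast hn
  have := h n
  rw [le_div_iff₀ hn', mul_comm]
  simpa [abs_of_pos hn'] using this

/-- Quantization. -/
lemma quant {b a ε : ℝ} {r : ℤ} (ha : a ≠ 0) (h : ∀ x, P b a ε x = x + 2 * Real.pi * r) :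
    ∃ n : ℤ, (n : ℝ) + (b - r) / 2 = 0 := by
  by_contra hne
  push Not at hne
  have haC : (a : ℂ) ≠ 0 := by exact_mod_cast ha
  set f := cf (fV b a ε r 0) with hf
  set f' := cf (fV b a ε r Real.pi) with hf'
  set c : ℤ → ℂ := fun n => 2 / a * (n - (b + r) / 2 + ε ^ 2 / (4 * (n + (b - r) / 2))) with hc
  have hr1 : ∀ n, f (n + 1) + f (n - 1) = c n * f n := by
    intro n
    have := rec3 h 0 n (hne n)
    simp only [hc]
    rw [mul_assoc, this]
    field_simp
    ring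
  have hr2 : ∀ n, f' (n + 1) + f' (n - 1) = c n * f' n := by
    intro n
    have := rec3 h Real.pi n (hne n)
    simp only [hc]
    rw [mul_assoc, this]
    field_simp
    ring
  obtain ⟨C1, hC1⟩ := decay h 0
  obtain ⟨C2, hC2⟩ := decay h Real.pi
  have ht1 := tendsto_zero_of_decay hC1
  have ht2 := tendsto_zero_of_decay hC2
  have hW : ∀ n : ℕ, f n * f' (n + 1) - f (n + 1) * f' n = f 0 * f' 1 - f 1 * f' 0 := by
    intro n
    induction n with
    | zero => simp
    | succ n ih =>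
      have e1 := hr1 (n + 1)
      have e2 := hr2 (n + 1)
      rw [add_sub_cancel_right] at e1 e2
      rw [← ih]
      push_cast
      linear_combination (f (n + 1)) * e2 - (f' (n + 1)) * e1
  have hW0 : f 0 * f' 1 - f 1 * f' 0 = 0 := by
    have e1 : Tendsto (fun n : ℕ => f n * f' (n + 1) - f (n + 1) * f' n) atTop (𝓝 (0 * 0 - 0 * 0)) := by
      have e2 := (ht1.comp (tendsto_add_atTop_nat 1))
      have e3 := (ht2.comp (tendsto_add_atTop_nat 1))
      simp only [Function.comp_def] at e2 e3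
      push_cast at e2 e3
      exact (ht1.mul e3).sub (e2.mul ht2)
    have e4 : (fun n : ℕ => f n * f' (n + 1) - f (n + 1) * f' n) = fun _ => f 0 * f' 1 - f 1 * f' 0 :=
      funext hW
    rw [e4] at e1
    have := tendsto_nhds_unique e1 tendsto_const_nhds
    simpa using this.symm
  have hkey : ∀ i : ℤ, (i = 0 ∨ i = 1) → f i = 0 := by
    intro i hi
    have hz : ∀ n, f' i * f n + (-f i) * f' n = 0 := by
      refine zero_of_rec (c := c) (fun n => ?_) ?_ ?_
      · linear_combination (f' i) * hr1 n - (f i) * hr2 n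
      · rcases hi with rfl | rfl
        · ring
        · linear_combination hW0
      · rcases hi with rfl | rfl
        · linear_combination -hW0
        · ring
    have hV := lin_V h _ _ hz
    have hU := lin_U h (f' i) (-f i) (fun n => by
      have e1 := rec1 h 0 n
      have e2 := rec1 h Real.pi n
      have hn : I * ((n : ℂ) + (b - r) / 2) ≠ 0 :=
        mul_ne_zero I_ne_zero (by exact_mod_cast hne n)
      apply mul_left_cancel₀ hn
      have e3 := hz n
      rw [mul_zero]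
      linear_combination (f' i) * e1 - (f i) * e2 + (ε / 2 : ℂ) * e3)
    have : (2:ℂ) * f i = 0 := by linear_combination hV - hU
    simpa using this
  have hall := zero_of_rec hr1 (hkey 0 (Or.inl rfl)) (hkey 1 (Or.inr rfl))
  have := lin_V h 1 0 (fun n => by rw [← hf, hall n]; ring)
  norm_num at this

lemma b_eq {b a ε : ℝ} {r : ℤ} (ha : a ≠ 0) (hε : 0 < ε) (hε2 : ε < 2)
    (h : ∀ x, P b a ε x = x + 2 * Real.pi * r) : b = r := by
  obtain ⟨n, hn⟩ := quant ha h
  have h1 := abs_sub_le hε (h 0)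
  have h2 : |(n : ℝ)| < 1 := by
    have : (n : ℝ) = -((b - r) / 2) := by linarith
    rw [this, abs_neg, abs_div, abs_of_pos (by norm_num : (0:ℝ) < 2)]
    linarith
  have h3 : |n| < 1 := by exact_mod_cast h2
  have h4 : n = 0 := Int.abs_lt_one_iff.1 h3
  rw [h4] at hn
  push_cast at hn
  linarith

/-- Normalised recursion. -/
noncomputable def zz (a ε : ℝ) (r : ℤ) : ℕ → ℝ
  | 0 => 0
  | 1 => 1
  | (m + 2) => 2 / a * ((m + 1) + r + ε ^ 2 / (4 * (m + 1))) * zz a ε r (m + 1) - zz a ε r m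

lemma coef_zero {a ε : ℝ} {r : ℤ} (hε : 0 < ε) (h : ∀ x, P r a ε x = x + 2 * Real.pi * r) (x : ℝ) :
    cf (fV r a ε r x) 0 = 0 := by
  have := rec1 h x 0
  have hε' : (ε : ℂ) ≠ 0 := by exact_mod_cast hε.ne'
  simp at this
  exact this.resolve_left hε.ne'

lemma y_eq {a ε : ℝ} {r : ℤ} (ha : a ≠ 0) (hε : 0 < ε) (h : ∀ x, P r a ε x = x + 2 * Real.pi * r)
    (x : ℝ) (m : ℕ) : (-1) ^ m * cf (fV r a ε r x) (-(m : ℤ)) =
      -cf (fV r a ε r x) (-1) * (zz a ε r m : ℂ) ∧
      (-1) ^ (m + 1) * cf (fV r a ε r x) (-((m + 1 : ℕ) : ℤ)) =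
      -cf (fV r a ε r x) (-1) * (zz a ε r (m + 1) : ℂ) := by
  have haC : (a : ℂ) ≠ 0 := by exact_mod_cast ha
  induction m with
  | zero =>
    have := coef_zero hε h x
    constructor
    · simp [this, zz]
    · simp [zz]
  | succ m ih =>
    refine ⟨ih.2, ?_⟩
    have hne : ((-((m + 1 : ℕ) : ℤ) : ℤ) : ℝ) + ((r : ℝ) - r) / 2 ≠ 0 := by
      push_cast
      have : (0:ℝ) ≤ m := Nat.cast_nonneg m
      intro h0
      linarith
    have h1 := rec3 h x (-((m + 1 : ℕ) : ℤ)) hne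
    have e1 : -((m + 1 : ℕ) : ℤ) - 1 = -((m + 1 + 1 : ℕ) : ℤ) := by push_cast; ring
    have e2 : -((m + 1 : ℕ) : ℤ) + 1 = -(m : ℤ) := by push_cast; ring
    rw [e1, e2] at h1
    have hm1 : ((m : ℂ) + 1) ≠ 0 := by exact_mod_cast Nat.succ_ne_zero m
    have e3 : ((-((m + 1 : ℕ) : ℤ) : ℤ) : ℂ) - (((r : ℝ) : ℂ) + (r : ℤ)) / 2 +
      (ε : ℂ) ^ 2 / (4 * (((-((m + 1 : ℕ) : ℤ) : ℤ) : ℂ) + (((r : ℝ) : ℂ) - (r : ℤ)) / 2)) =
      -((m + 1) + r + ε ^ 2 / (4 * (m + 1))) := by
      push_cast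
      rw [show (-((m:ℂ) + 1) + ((r:ℂ) - r) / 2) = -((m:ℂ) + 1) by ring]
      field_simp
      ring
    rw [e3] at h1
    have h2 : cf (fV r a ε r x) (-((m + 1 + 1 : ℕ) : ℤ)) =
      -(2 / a * ((m + 1) + r + ε ^ 2 / (4 * (m + 1)))) * cf (fV r a ε r x) (-((m + 1 : ℕ) : ℤ)) -
      cf (fV r a ε r x) (-(m : ℤ)) := by
      have : -(2 / a * ((m + 1) + r + ε ^ 2 / (4 * (m + 1)))) * cf (fV r a ε r x) (-((m + 1 : ℕ) : ℤ)) =
        2 / a * (-((m + 1) + r + ε ^ 2 / (4 * (m + 1))) * cf (fV r a ε r x) (-((m + 1 : ℕ) : ℤ))) := by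
        ring
      rw [this, h1]
      field_simp
      ring
    rw [h2]
    have h3 : (zz a ε r (m + 1 + 1) : ℂ) =
      2 / a * ((m + 1) + r + ε ^ 2 / (4 * (m + 1))) * zz a ε r (m + 1) - zz a ε r m := by
      rw [zz]; push_cast; ring
    rw [h3]
    obtain ⟨i1, i2⟩ := ih
    linear_combination (2 / a * ((m + 1) + r + ε ^ 2 / (4 * (m + 1))) : ℂ) * i2 - i1

end Q66.Jq
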