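import Pool.Agent.Q66.Jq4

set_option autoImplicit false
open Set Filter Topology Complex

namespace Q66.Jq
open H535R3

lemma neg_zero_of {a ε : ℝ} {r : ℤ} (ha : a ≠ 0) (hε : 0 < ε)
    (h : ∀ x, P r a ε x = x + 2 * Real.pi * r) (x : ℝ) (h1 : cf (fV r a ε r x) (-1) = 0) (m : ℕ) :
    cf (fV r a ε r x) (-(m : ℤ)) = 0 := by
  have := (y_eq ha hε h x m).1
  rw [h1, neg_zero, zero_mul] at this
  exact (mul_eq_zero.1 this).resolve_left (pow_ne_zero _ (by norm_num))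

/-- Recursion on the positive side, in the form used below. -/
lemma pos_rec {a ε : ℝ} {r : ℤ} (ha : a ≠ 0) (h : ∀ x, P r a ε x = x + 2 * Real.pi * r) (x : ℝ)
    (m : ℕ) : cf (fV r a ε r x) ((m : ℤ) + 2) =
      2 / a * ((m : ℂ) + 1 - r + ε ^ 2 / (4 * ((m : ℂ) + 1))) * cf (fV r a ε r x) ((m : ℤ) + 1) -
      cf (fV r a ε r x) (m : ℤ) := by
  have haC : (a : ℂ) ≠ 0 := by exact_mod_cast ha
  have hne : (((m : ℤ) + 1 : ℤ) : ℝ) + ((r : ℝ) - r) / 2 ≠ 0 := by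
    push_cast
    have : (0:ℝ) ≤ m := Nat.cast_nonneg m
    intro h0
    linarith
  have h1 := rec3 h x ((m : ℤ) + 1) hne
  rw [add_sub_cancel_right, show (m : ℤ) + 1 + 1 = m + 2 by ring] at h1
  have e3 : (((m : ℤ) + 1 : ℤ) : ℂ) - (((r : ℝ) : ℂ) + (r : ℤ)) / 2 +
      (ε : ℂ) ^ 2 / (4 * ((((m : ℤ) + 1 : ℤ) : ℂ) + (((r : ℝ) : ℂ) - (r : ℤ)) / 2)) =
      ((m : ℂ) + 1 - r + ε ^ 2 / (4 * ((m : ℂ) + 1))) := by
    push_cast
    rw [show ((m:ℂ) + 1 + ((r:ℂ) - r) / 2) = (m:ℂ) + 1 by ring]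
    ring
  rw [e3] at h1
  have : 2 / (a : ℂ) * ((m : ℂ) + 1 - r + ε ^ 2 / (4 * ((m : ℂ) + 1))) *
      cf (fV r a ε r x) ((m : ℤ) + 1) = 2 / a * (((m : ℂ) + 1 - r + ε ^ 2 / (4 * ((m : ℂ) + 1))) *
      cf (fV r a ε r x) ((m : ℤ) + 1)) := by ring
  rw [this, h1]
  field_simp
  ring

lemma exists_ne {a ε : ℝ} {r : ℤ} (ha : a ≠ 0) (hε : 0 < ε)
    (h : ∀ x, P r a ε x = x + 2 * Real.pi * r) : ∃ x, cf (fV r a ε r x) (-1) ≠ 0 := by
  by_contra hcon
  push Not at hcon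
  have hn1 := neg_zero_of ha hε h 0 (hcon 0)
  have hn2 := neg_zero_of ha hε h Real.pi (hcon Real.pi)
  have hp1 := pos_rec ha h 0
  have hp2 := pos_rec ha h Real.pi
  set f := cf (fV r a ε r 0) with hf
  set f' := cf (fV r a ε r Real.pi) with hf'
  -- a combination vanishing at 0 and 1 vanishes
  have hcomb : ∀ c d : ℂ, c * f 1 + d * f' 1 = 0 → ∀ n, c * f n + d * f' n = 0 := by
    intro c d h1 n
    rcases Int.le_total 0 n with hn | hn
    · obtain ⟨m, rfl⟩ := Int.eq_ofNat_of_zero_le hn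
      have : ∀ m : ℕ, c * f m + d * f' m = 0 ∧ c * f ((m : ℤ) + 1) + d * f' ((m : ℤ) + 1) = 0 := by
        intro m
        induction m with
        | zero =>
          have e1 := hn1 0
          have e2 := hn2 0
          simp only [Nat.cast_zero, neg_zero] at e1 e2
          simp only [Nat.cast_zero, e1, e2, zero_add]
          exact ⟨by ring, h1⟩
        | succ m ih =>
          refine ⟨by push_cast; exact ih.2, ?_⟩
          have e1 := hp1 m
          have e2 := hp2 m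
          push_cast
          rw [show (m : ℤ) + 1 + 1 = m + 2 by ring, e1, e2]
          linear_combination (2 / a * ((m : ℂ) + 1 - r + ε ^ 2 / (4 * ((m : ℂ) + 1)))) * ih.2 - ih.1
      exact (this m).1
    · obtain ⟨m, hm'⟩ := Int.eq_ofNat_of_zero_le (neg_nonneg.2 hn)
      have : n = -(m : ℤ) := by omega
      rw [this, hn1, hn2]
      ring
  have h1 := lin_V h (f' 1) (-f 1) (hcomb _ _ (by ring))
  have h2 : ∀ n, f n + f' n = 0 := by
    intro n
    have := hcomb 1 1 (by linear_combination h1) n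
    linear_combination this
  have h3 := lin_U h 1 1 (fun n => by
    have e1 := rec2 h 0 n
    have e2 := rec2 h Real.pi n
    rw [← hf] at e1
    rw [← hf'] at e2
    have hε' : (ε : ℂ) ≠ 0 := by exact_mod_cast hε.ne'
    have e3 : (ε / 2 : ℂ) * (1 * cf (fU r a ε r 0) n + 1 * cf (fU r a ε r Real.pi) n) = 0 := by
      linear_combination (I * (n - (((r : ℝ) : ℂ) + r) / 2)) * h2 n - (I * a / 2) * h2 (n - 1) -
        (I * a / 2) * h2 (n + 1) - e1 - e2
    exact (mul_eq_zero.1 e3).resolve_left (div_ne_zero hε' two_ne_zero))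
  norm_num at h3

lemma zz_decay {a ε : ℝ} {r : ℤ} (ha : a ≠ 0) (hε : 0 < ε)
    (h : ∀ x, P r a ε x = x + 2 * Real.pi * r) : ∃ C, ∀ m : ℕ, m * |zz a ε r m| ≤ C := by
  obtain ⟨x, hx⟩ := exists_ne ha hε h
  obtain ⟨C, hC⟩ := decay h x
  have hpos : 0 < ‖cf (fV r a ε r x) (-1)‖ := norm_pos_iff.2 hx
  refine ⟨C / ‖cf (fV r a ε r x) (-1)‖, fun m => ?_⟩
  have h1 := congrArg norm (y_eq ha hε h x m).1
  rw [norm_mul, norm_mul, norm_pow, norm_neg, norm_neg, norm_one, one_pow, one_mul,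
    Complex.norm_real, Real.norm_eq_abs] at h1
  have h2 := hC (-(m : ℤ))
  rw [h1] at h2
  push_cast at h2
  rw [abs_neg, abs_of_nonneg (Nat.cast_nonneg m)] at h2
  rw [le_div_iff₀ hpos]
  linarith

lemma zz_succ {a ε : ℝ} {r : ℤ} (m : ℕ) : zz a ε r (m + 2) =
    2 / a * ((m + 1) + r + ε ^ 2 / (4 * (m + 1))) * zz a ε r (m + 1) - zz a ε r m := by
  rw [zz]

/-- lower bound for the coefficient -/
lemma coef_ge {a ε α : ℝ} {r : ℤ} (ha : 0 < a) (haα : a ≤ α) (hr : 0 ≤ r) (m : ℕ) :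
    2 * ((m : ℝ) + 1 + r) / α ≤ 2 / a * ((m + 1) + r + ε ^ 2 / (4 * (m + 1))) := by
  have hr' : (0:ℝ) ≤ r := by exact_mod_cast hr
  have h1 : (0:ℝ) ≤ ε ^ 2 / (4 * (m + 1)) := by positivity
  calc 2 * ((m : ℝ) + 1 + r) / α ≤ 2 * ((m : ℝ) + 1 + r) / a :=
        div_le_div_of_nonneg_left (by positivity) ha haα
    _ = 2 / a * ((m + 1) + r) := by ring
    _ ≤ _ := by
      apply mul_le_mul_of_nonneg_left _ (by positivity)
      linarith

/-- Growth. -/
lemma no_decay {a ε : ℝ} {r : ℤ} {M : ℕ} (ha : 0 < a) (hr : 0 ≤ r) (hM : a ≤ M + 1 + r)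
    (h0 : 0 < zz a ε r (M + 1)) (h1 : zz a ε r M ≤ zz a ε r (M + 1)) {C : ℝ}
    (hC : ∀ m : ℕ, m * |zz a ε r m| ≤ C) : False := by
  have hr' : (0:ℝ) ≤ r := by exact_mod_cast hr
  have hmono : ∀ j : ℕ, zz a ε r (M + j) ≤ zz a ε r (M + 1 + j) ∧
      zz a ε r (M + 1) ≤ zz a ε r (M + 1 + j) := by
    intro j
    induction j with
    | zero => exact ⟨h1, le_rfl⟩
    | succ j ih =>
      have e1 := zz_succ (a := a) (ε := ε) (r := r) (M + j)
      have e2 := coef_ge (a := a) (ε := ε) (α := a) ha le_rfl hr (M + j)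
      have e3 : 2 ≤ 2 * (((M + j : ℕ) : ℝ) + 1 + r) / a := by
        rw [le_div_iff₀ ha]
        push_cast
        have : (0:ℝ) ≤ j := Nat.cast_nonneg j
        linarith
      have e4 : zz a ε r (M + (j + 1)) = zz a ε r (M + 1 + j) := by
        congr 1; ring
      have e5 : zz a ε r (M + 1 + (j + 1)) = zz a ε r (M + j + 2) := by
        congr 1; ring
      have e6 : zz a ε r (M + j + 1) = zz a ε r (M + 1 + j) := by
        congr 1; ring
      rw [e4, e5, e1, e6]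
      have hp : 0 < zz a ε r (M + 1 + j) := lt_of_lt_of_le h0 ih.2
      have e7 : 2 * zz a ε r (M + 1 + j) ≤
          2 / a * (((M + j : ℕ) : ℝ) + 1 + r + ε ^ 2 / (4 * (((M + j : ℕ) : ℝ) + 1))) *
          zz a ε r (M + 1 + j) :=
        mul_le_mul_of_nonneg_right (e3.trans e2) hp.le
      constructor <;> linarith [ih.1, ih.2]
  obtain ⟨N, hN⟩ := exists_nat_gt (C / zz a ε r (M + 1))
  rw [div_lt_iff₀ h0] at hN
  have h2 := hC (M + 1 + N)
  have h3 := (hmono N).2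
  rw [abs_of_pos (lt_of_lt_of_le h0 h3)] at h2
  push_cast at h2
  have h4 : (N : ℝ) * zz a ε r (M + 1) ≤ ((M : ℝ) + 1 + N) * zz a ε r (M + 1 + N) := by
    apply mul_le_mul _ h3 h0.le (by positivity)
    have : (0:ℝ) ≤ M := Nat.cast_nonneg M
    linarith
  linarith

lemma zz_zero (a ε : ℝ) (r : ℤ) : zz a ε r 0 = 0 := by rw [zz]
lemma zz_one (a ε : ℝ) (r : ℤ) : zz a ε r 1 = 1 := by rw [zz]

/-- No adjacency with small `a`. -/
lemma no_adj_small {a ε : ℝ} {r : ℤ} (ha : 0 < a) (hε : 0 < ε) (hr : 0 ≤ r) (har : a ≤ 1 + r)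
    (h : ∀ x, P r a ε x = x + 2 * Real.pi * r) : False := by
  obtain ⟨C, hC⟩ := zz_decay ha.ne' hε h
  refine no_decay (M := 0) ha hr (by simpa using har) ?_ ?_ hC
  · rw [zero_add, zz_one]; norm_num
  · rw [zero_add, zz_one, zz_zero]; norm_num

/-- One step for the ratio bounds. -/
lemma step {a ε α ρ ρ' : ℝ} {r : ℤ} {m : ℕ} (ha : 0 < a) (haα : a ≤ α) (hr : 0 ≤ r)
    (hρ : 0 < ρ) (_ : 0 < ρ') (hle : ρ' ≤ 2 * ((m : ℝ) + 1 + r) / α - 1 / ρ)
    (h : 0 < zz a ε r m ∧ ρ * zz a ε r m ≤ zz a ε r (m + 1)) :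
    0 < zz a ε r (m + 1) ∧ ρ' * zz a ε r (m + 1) ≤ zz a ε r (m + 2) := by
  obtain ⟨h1, h2⟩ := h
  have h3 : 0 < zz a ε r (m + 1) := lt_of_lt_of_le (mul_pos hρ h1) h2
  refine ⟨h3, ?_⟩
  rw [zz_succ]
  have h4 := mul_le_mul_of_nonneg_right (coef_ge (a := a) (ε := ε) (α := α) ha haα hr m) h3.le
  have h5 := mul_le_mul_of_nonneg_right hle h3.le
  have h6 : zz a ε r m ≤ 1 / ρ * zz a ε r (m + 1) := by
    rw [div_mul_eq_mul_div, one_mul, le_div_iff₀ hρ]
    linarith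
  rw [sub_mul] at h5
  linarith

/-- No adjacency of `L_2` with `a ≤ 5.132`. -/
lemma no_adj_two {a ε : ℝ} (ha : 0 < a) (hε : 0 < ε) (har : a ≤ 5.132)
    (h : ∀ x, P (2 : ℤ) a ε x = x + 2 * Real.pi * (2 : ℤ)) : False := by
  obtain ⟨C, hC⟩ := zz_decay ha.ne' hε h
  have hr : (0 : ℤ) ≤ 2 := by norm_num
  have s1 : 0 < zz a ε 2 1 ∧ 1.169 * zz a ε 2 1 ≤ zz a ε 2 2 := by
    refine ⟨by rw [zz_one]; norm_num, ?_⟩
    rw [zz_succ (m := 0), zz_zero, zero_add, zz_one]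
    have := coef_ge (a := a) (ε := ε) (α := 5.132) (r := 2) ha har hr 0
    norm_num at this ⊢
    linarith
  have s2 := step (ρ' := 0.7033) ha har hr (by norm_num) (by norm_num) (by norm_num) s1
  have s3 := step (ρ' := 0.5266) ha har hr (by norm_num) (by norm_num) (by norm_num) s2
  have s4 := step (ρ' := 0.4392) ha har hr (by norm_num) (by norm_num) (by norm_num) s3
  have s5 := step (ρ' := 0.4511) ha har hr (by norm_num) (by norm_num) (by norm_num) s4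
  have s6 := step (ρ' := 0.9) ha har hr (by norm_num) (by norm_num) (by norm_num) s5
  have s7 := step (ρ' := 1) ha har hr (by norm_num) (by norm_num) (by norm_num) s6
  obtain ⟨s7a, s7b⟩ := s7
  norm_num at s7a s7b
  refine no_decay (M := 7) ha hr (by norm_num at har ⊢; linarith) ?_ ?_ hC
  · exact lt_of_lt_of_le s7a s7b
  · exact s7b

end Q66.Jq
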