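import Mathlib

set_option autoImplicit false
open Complex

namespace Q66.Jq

/-- `∫ cos (r t + a sin t)`. -/
noncomputable def CC (r : ℕ) (a : ℝ) : ℝ :=
  ∫ t in (0:ℝ)..(2 * Real.pi), Real.cos (r * t + a * Real.sin t)

lemma int_exp (k : ℤ) : ∫ t in (0:ℝ)..(2 * Real.pi), exp ((k * I) * t) =
    if k = 0 then 2 * (Real.pi : ℂ) else 0 := by
  split_ifs with hk
  · subst hk
    simp
  · have hc : (k : ℂ) * I ≠ 0 := mul_ne_zero (by exact_mod_cast hk) I_ne_zero
    rw [integral_exp_mul_complex hc]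
    have : exp (k * I * ((2 * Real.pi : ℝ) : ℂ)) = 1 := by
      rw [exp_eq_one_iff]
      exact ⟨k, by push_cast; ring⟩
    rw [this]
    simp

/-- The integral. -/
noncomputable def JJ (r m : ℕ) : ℂ := ∫ t in (0:ℝ)..(2 * Real.pi),
  exp (r * t * I) * (exp (t * I) - exp (-t * I)) ^ m

lemma JJ_sum (r m : ℕ) : JJ r m = ∑ j ∈ Finset.range (m + 1),
    (-1) ^ j * (m.choose j : ℂ) * (if (r : ℤ) + m - 2 * j = 0 then 2 * (Real.pi : ℂ) else 0) := by
  have h1 : ∀ t : ℝ, exp (r * t * I) * (exp (t * I) - exp (-t * I)) ^ m =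
      ∑ j ∈ Finset.range (m + 1), (-1) ^ j * (m.choose j : ℂ) *
        exp (((((r : ℤ) + m - 2 * j : ℤ) : ℂ) * I) * t) := by
    intro t
    rw [sub_eq_neg_add, add_pow, Finset.mul_sum]
    refine Finset.sum_congr rfl fun j hj => ?_
    have hj' : j ≤ m := Nat.lt_succ_iff.1 (Finset.mem_range.1 hj)
    have e1 : (-exp (-t * I)) ^ j = (-1) ^ j * exp (-(j * t * I)) := by
      rw [neg_pow, ← exp_nat_mul]
      congr 2; ring
    have e2 : exp (t * I) ^ (m - j) = exp ((m - j) * t * I) := by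
      rw [← exp_nat_mul]
      congr 1
      push_cast [hj']
      ring
    rw [e1, e2]
    have e3 : exp (((((r : ℤ) + m - 2 * j : ℤ) : ℂ) * I) * t) =
      exp (r * t * I) * exp (-(j * t * I)) * exp ((m - j) * t * I) := by
      rw [← exp_add, ← exp_add]
      congr 1
      push_cast
      ring
    rw [e3]
    ring
  unfold JJ
  simp_rw [h1]
  rw [intervalIntegral.integral_finsetSum]
  · refine Finset.sum_congr rfl fun j _ => ?_
    rw [intervalIntegral.integral_const_mul, int_exp]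
  · intro j _
    exact Continuous.intervalIntegrable (by fun_prop) _ _

lemma JJ_even (r k : ℕ) : JJ r (r + 2 * k) =
    (-1) ^ (r + k) * ((r + 2 * k).choose (r + k) : ℂ) * (2 * Real.pi) := by
  rw [JJ_sum, Finset.sum_eq_single (r + k)]
  · rw [if_pos (by push_cast; ring)]
  · intro j _ hj
    rw [if_neg, mul_zero]
    intro h
    apply hj
    push_cast at h
    omega
  · intro h
    exact absurd (Finset.mem_range.2 (by omega)) h

lemma JJ_odd (r k : ℕ) : JJ r (r + 2 * k + 1) = 0 := by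
  rw [JJ_sum]
  refine Finset.sum_eq_zero fun j _ => ?_
  rw [if_neg, mul_zero]
  intro h
  push_cast at h
  omega

lemma JJ_small {r m : ℕ} (h : m < r) : JJ r m = 0 := by
  rw [JJ_sum]
  refine Finset.sum_eq_zero fun j hj => ?_
  have := Finset.mem_range.1 hj
  rw [if_neg, mul_zero]
  intro h
  omega

/-- Partial sum. -/
noncomputable def SS (r K : ℕ) (a : ℝ) : ℝ :=
  ∑ k ∈ Finset.range K, (-1) ^ (r + k) * (a / 2) ^ (r + 2 * k) / (k.factorial * (r + k).factorial)

lemma sum_JJ (r K : ℕ) (a : ℝ) : ∑ m ∈ Finset.range (r + 2 * K),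
    ((a / 2 : ℝ) : ℂ) ^ m / (m.factorial : ℂ) * JJ r m = ((2 * Real.pi * SS r K a : ℝ) : ℂ) := by
  induction K with
  | zero =>
    rw [SS, Finset.range_zero, Finset.sum_empty, mul_zero, mul_zero, add_zero, ofReal_zero]
    refine Finset.sum_eq_zero fun m hm => ?_
    rw [JJ_small (Finset.mem_range.1 hm), mul_zero]
  | succ K ih =>
    rw [show r + 2 * (K + 1) = r + 2 * K + 1 + 1 by ring, Finset.sum_range_succ,
      Finset.sum_range_succ, ih, JJ_odd, JJ_even, SS, SS, Finset.sum_range_succ]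
    have h1 := Nat.add_choose_mul_factorial_mul_factorial K (r + K)
    rw [show K + (r + K) = r + 2 * K by ring] at h1
    have h2 : ((r + 2 * K).choose (r + K) : ℂ) * K.factorial * (r + K).factorial =
      (r + 2 * K).factorial := by exact_mod_cast h1
    have h3 : ((r + K).factorial : ℂ) ≠ 0 := by exact_mod_cast Nat.factorial_ne_zero _
    have h4 : (K.factorial : ℂ) ≠ 0 := by exact_mod_cast Nat.factorial_ne_zero _
    have h5 : ((r + 2 * K).choose (r + K) : ℂ) ≠ 0 := by
      exact_mod_cast (Nat.choose_pos (by omega)).ne'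
    rw [← h2]
    push_cast
    field_simp
    ring

lemma norm_w (a t : ℝ) : ‖(((a * Real.sin t : ℝ) : ℂ) * I)‖ ≤ |a| := by
  rw [norm_mul, norm_I, mul_one, Complex.norm_real, Real.norm_eq_abs, abs_mul]
  exact mul_le_of_le_one_right (abs_nonneg _) (Real.abs_sin_le_one t)

lemma w_eq (a t : ℝ) : (((a * Real.sin t : ℝ) : ℂ) * I) = ((a / 2 : ℝ) : ℂ) * (exp (t * I) - exp (-t * I)) := by
  push_cast
  rw [Complex.sin]
  have hI : I * I = -1 := I_mul_I
  linear_combination (a * (exp (-t * I) - exp (t * I)) / 2 : ℂ) * hI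

lemma CC_approx (r K : ℕ) {a : ℝ} (ha : 0 ≤ a) (hn : a / ((r + 2 * K : ℕ).succ : ℝ) ≤ 1 / 2) :
    |CC r a - 2 * Real.pi * SS r K a| ≤ 2 * Real.pi * (a ^ (r + 2 * K) / (r + 2 * K).factorial * 2) := by
  set n := r + 2 * K with hnd
  have hpi := Real.pi_pos
  have h1 : ((∫ t in (0:ℝ)..(2 * Real.pi), exp (r * t * I) * exp (((a * Real.sin t : ℝ) : ℂ) * I)) -
      ∫ t in (0:ℝ)..(2 * Real.pi), exp (r * t * I) *
        ∑ m ∈ Finset.range n, (((a * Real.sin t : ℝ) : ℂ) * I) ^ m / (m.factorial : ℂ)) =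
      ∫ t in (0:ℝ)..(2 * Real.pi), exp (r * t * I) * (exp (((a * Real.sin t : ℝ) : ℂ) * I) -
        ∑ m ∈ Finset.range n, (((a * Real.sin t : ℝ) : ℂ) * I) ^ m / (m.factorial : ℂ)) := by
    rw [← intervalIntegral.integral_sub (Continuous.intervalIntegrable (by fun_prop) _ _)
      (Continuous.intervalIntegrable (by fun_prop) _ _)]
    congr 1
    funext t
    ring
  have h2 : ‖∫ t in (0:ℝ)..(2 * Real.pi), exp (r * t * I) * (exp (((a * Real.sin t : ℝ) : ℂ) * I) -
        ∑ m ∈ Finset.range n, (((a * Real.sin t : ℝ) : ℂ) * I) ^ m / (m.factorial : ℂ))‖ ≤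
      (a ^ n / n.factorial * 2) * |2 * Real.pi - 0| := by
    refine intervalIntegral.norm_integral_le_of_norm_le_const fun t _ => ?_
    have e1 : ‖exp (r * t * I)‖ = 1 := by
      rw [show (r : ℂ) * t * I = ((r * t : ℝ) : ℂ) * I by push_cast; ring]
      exact norm_exp_ofReal_mul_I _
    rw [norm_mul, e1, one_mul]
    have e2 := norm_w a t
    rw [abs_of_nonneg ha] at e2
    refine (exp_bound' ?_).trans ?_
    · refine le_trans ?_ hn
      gcongr
    · gcongr
  rw [← h1, sub_zero, abs_of_pos (by positivity)] at h2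
  have h3 : ∫ t in (0:ℝ)..(2 * Real.pi), exp (r * t * I) *
        ∑ m ∈ Finset.range n, (((a * Real.sin t : ℝ) : ℂ) * I) ^ m / (m.factorial : ℂ) =
      ((2 * Real.pi * SS r K a : ℝ) : ℂ) := by
    rw [← sum_JJ]
    have e1 : ∀ t : ℝ, exp (r * t * I) *
        ∑ m ∈ Finset.range n, (((a * Real.sin t : ℝ) : ℂ) * I) ^ m / (m.factorial : ℂ) =
        ∑ m ∈ Finset.range n, ((a / 2 : ℝ) : ℂ) ^ m / (m.factorial : ℂ) *
          (exp (r * t * I) * (exp (t * I) - exp (-t * I)) ^ m) := by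
      intro t
      rw [Finset.mul_sum]
      refine Finset.sum_congr rfl fun m _ => ?_
      rw [w_eq, mul_pow]
      ring
    simp_rw [e1]
    rw [intervalIntegral.integral_finsetSum]
    · refine Finset.sum_congr rfl fun j _ => ?_
      rw [intervalIntegral.integral_const_mul, JJ]
    · intro j _
      exact Continuous.intervalIntegrable (by fun_prop) _ _
  have h4 : (∫ t in (0:ℝ)..(2 * Real.pi), exp (r * t * I) * exp (((a * Real.sin t : ℝ) : ℂ) * I)).re =
      CC r a := by
    have e1 : ∀ t : ℝ, exp (r * t * I) * exp (((a * Real.sin t : ℝ) : ℂ) * I) =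
      exp (((r * t + a * Real.sin t : ℝ) : ℂ) * I) := by
      intro t
      rw [← exp_add]; congr 1; push_cast; ring
    simp_rw [e1]
    have e2 : (∫ t in (0:ℝ)..(2 * Real.pi), exp (((r * t + a * Real.sin t : ℝ) : ℂ) * I)) =
      ((CC r a : ℝ) : ℂ) +
        ((∫ t in (0:ℝ)..(2 * Real.pi), Real.sin (r * t + a * Real.sin t) : ℝ) : ℂ) * I := by
      rw [CC, ← intervalIntegral.integral_ofReal, ← intervalIntegral.integral_ofReal,
        ← intervalIntegral.integral_mul_const, ← intervalIntegral.integral_add]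
      · congr 1
        funext t
        rw [exp_mul_I]
        push_cast
        ring
      · exact Continuous.intervalIntegrable (by fun_prop) _ _
      · exact Continuous.intervalIntegrable (by fun_prop) _ _
    rw [e2]
    simp
  rw [h3] at h2
  have h5 := abs_re_le_norm ((∫ t in (0:ℝ)..(2 * Real.pi), exp (r * t * I) *
    exp (((a * Real.sin t : ℝ) : ℂ) * I)) - ((2 * Real.pi * SS r K a : ℝ) : ℂ))
  rw [sub_re, h4, ofReal_re] at h5
  refine (h5.trans h2).trans (le_of_eq ?_)
  ring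

lemma CC_pos (r K : ℕ) {a : ℝ} (ha : 0 ≤ a) (hn : a / ((r + 2 * K : ℕ).succ : ℝ) ≤ 1 / 2)
    (h : a ^ (r + 2 * K) / (r + 2 * K).factorial * 2 < SS r K a) : 0 < CC r a := by
  have h1 := (abs_le.1 (CC_approx r K ha hn)).1
  have h2 := mul_lt_mul_of_pos_left h Real.two_pi_pos
  linarith

lemma CC_neg (r K : ℕ) {a : ℝ} (ha : 0 ≤ a) (hn : a / ((r + 2 * K : ℕ).succ : ℝ) ≤ 1 / 2)
    (h : a ^ (r + 2 * K) / (r + 2 * K).factorial * 2 < -SS r K a) : CC r a < 0 := by
  have h1 := (abs_le.1 (CC_approx r K ha hn)).2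
  have h2 := mul_lt_mul_of_pos_left h Real.two_pi_pos
  linarith

lemma CC_1a : CC 1 1 < 0 := by
  refine CC_neg 1 3 (by norm_num) (by norm_num) ?_
  norm_num [SS, Finset.sum_range_succ, Nat.factorial]

lemma CC_1b : 0 < CC 1 3.86 := by
  refine CC_pos 1 8 (by norm_num) (by norm_num) ?_
  norm_num [SS, Finset.sum_range_succ, Nat.factorial]

lemma CC_2a : 0 < CC 2 2 := by
  refine CC_pos 2 4 (by norm_num) (by norm_num) ?_
  norm_num [SS, Finset.sum_range_succ, Nat.factorial]

lemma CC_2b : CC 2 6 < 0 := by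
  refine CC_neg 2 9 (by norm_num) (by norm_num) ?_
  norm_num [SS, Finset.sum_range_succ, Nat.factorial]

lemma CC_3a : CC 3 2 < 0 := by
  refine CC_neg 3 3 (by norm_num) (by norm_num) ?_
  norm_num [SS, Finset.sum_range_succ, Nat.factorial]

lemma CC_3b : 0 < CC 3 6.4 := by
  refine CC_pos 3 10 (by norm_num) (by norm_num) ?_
  norm_num [SS, Finset.sum_range_succ, Nat.factorial]

end Q66.Jq
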