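import Pool.Agent.Q66.Jq5
import Pool.Agent.Q66.Jq6

set_option autoImplicit false
open Set Filter Topology

namespace Q66.Jq
open H535R3

lemma P_eq (b a ε x : ℝ) : P b a ε x = x + 2 * Real.pi * b -
    ε * ∫ s in (0:ℝ)..(2 * Real.pi), Real.sin (fl b a ε x s) := by
  have h := fl_int b a ε x (2 * Real.pi)
  rw [Real.sin_two_pi] at h
  rw [P, h]
  ring

lemma P_bd (b a x : ℝ) {ε : ℝ} (hε : 0 < ε) : |P b a ε x - (x + 2 * Real.pi * b)| ≤ ε * (2 * Real.pi) := by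
  rw [P_eq, show x + 2 * Real.pi * b - ε * (∫ s in (0:ℝ)..(2 * Real.pi), Real.sin (fl b a ε x s)) -
    (x + 2 * Real.pi * b) = -(ε * ∫ s in (0:ℝ)..(2 * Real.pi), Real.sin (fl b a ε x s)) by ring,
    abs_neg, abs_mul, abs_of_pos hε]
  exact mul_le_mul_of_nonneg_left (int_sin_bound _ Real.two_pi_pos.le) hε.le

lemma exists_b (r : ℤ) {ε : ℝ} (hε : 0 < ε) (x a : ℝ) : ∃ b, P b a ε x = x + 2 * Real.pi * r := by
  have h1 := (abs_le.1 (P_bd (r + ε) a x hε)).1
  have h2 := (abs_le.1 (P_bd (r - ε) a x hε)).2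
  have hc := cont_b a ε x
  obtain ⟨b, hb⟩ := mem_range_of_exists_le_of_exists_ge hc (c := x + 2 * Real.pi * r)
    ⟨r - ε, by linarith⟩ ⟨r + ε, by linarith⟩
  exact ⟨b, hb⟩

/-- The parameter for which `x` is fixed. -/
noncomputable def GB (r : ℤ) (ε x a : ℝ) : ℝ :=
  if hε : 0 < ε then Classical.choose (exists_b r hε x a) else 0

lemma GB_spec (r : ℤ) {ε : ℝ} (hε : 0 < ε) (x a : ℝ) :
    P (GB r ε x a) a ε x = x + 2 * Real.pi * r := by
  rw [GB, dif_pos hε]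
  exact Classical.choose_spec (exists_b r hε x a)

lemma lt_GB {r : ℤ} {ε x a b : ℝ} (hε : 0 < ε) (h : P b a ε x < x + 2 * Real.pi * r) :
    b < GB r ε x a := by
  by_contra hcon
  push Not at hcon
  have h1 := GB_spec r hε x a
  rcases hcon.lt_or_eq with h2 | h2
  · have := P_lt_of_b (a := a) (ε := ε) (x := x) h2
    linarith
  · rw [h2] at h1; linarith

lemma GB_lt {r : ℤ} {ε x a b : ℝ} (hε : 0 < ε) (h : x + 2 * Real.pi * r < P b a ε x) :
    GB r ε x a < b := by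
  by_contra hcon
  push Not at hcon
  have h1 := GB_spec r hε x a
  rcases hcon.lt_or_eq with h2 | h2
  · have := P_lt_of_b (a := a) (ε := ε) (x := x) h2
    linarith
  · rw [← h2] at h1; linarith

lemma GB_cont (r : ℤ) {ε : ℝ} (hε : 0 < ε) (x : ℝ) : Continuous (GB r ε x) := by
  rw [continuous_iff_continuousAt]
  intro a
  rw [ContinuousAt, tendsto_order]
  constructor
  · intro b hb
    have h1 : P b a ε x < x + 2 * Real.pi * r := by
      rw [← GB_spec r hε x a]; exact P_lt_of_b hb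
    filter_upwards [(cont_a b ε x).continuousAt.eventually (gt_mem_nhds h1)] with a' ha'
    exact lt_GB hε ha'
  · intro b hb
    have h1 : x + 2 * Real.pi * r < P b a ε x := by
      rw [← GB_spec r hε x a]; exact P_lt_of_b hb
    filter_upwards [(cont_a b ε x).continuousAt.eventually (lt_mem_nhds h1)] with a' ha'
    exact GB_lt hε ha'

lemma fl_close (b a x : ℝ) {ε t : ℝ} (hε : 0 < ε) (h0 : 0 ≤ t) (h1 : t ≤ 2 * Real.pi) :
    |fl b a ε x t - (x + b * t + a * Real.sin t)| ≤ ε * (2 * Real.pi) := by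
  have h := fl_int b a ε x t
  have e : fl b a ε x t - (x + b * t + a * Real.sin t) =
    -(ε * ∫ s in (0:ℝ)..t, Real.sin (fl b a ε x s)) := by rw [h]; ring
  rw [e, abs_neg, abs_mul, abs_of_pos hε]
  exact mul_le_mul_of_nonneg_left ((int_sin_bound _ h0).trans h1) hε.le

lemma int_close (b a x : ℝ) {ε : ℝ} (hε : 0 < ε) :
    |(∫ s in (0:ℝ)..(2 * Real.pi), Real.sin (fl b a ε x s)) -
      ∫ s in (0:ℝ)..(2 * Real.pi), Real.sin (x + b * s + a * Real.sin s)| ≤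
      ε * (2 * Real.pi) * (2 * Real.pi) := by
  have hc : Continuous (fl b a ε x) := (fl_sol b a ε x).cont
  rw [← intervalIntegral.integral_sub (Continuous.intervalIntegrable (by fun_prop) _ _)
      (Continuous.intervalIntegrable (by fun_prop) _ _)]
  have h := intervalIntegral.norm_integral_le_of_norm_le_const (a := 0) (b := 2 * Real.pi)
    (C := ε * (2 * Real.pi))
    (f := fun s => Real.sin (fl b a ε x s) - Real.sin (x + b * s + a * Real.sin s)) (fun s hs => by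
      rw [uIoc_of_le Real.two_pi_pos.le] at hs
      rw [Real.norm_eq_abs]
      exact (Real.abs_sin_sub_sin_le _ _).trans (fl_close b a x hε hs.1.le hs.2))
  rwa [Real.norm_eq_abs, sub_zero, abs_of_pos Real.two_pi_pos] at h

lemma int_plus (r : ℕ) (a : ℝ) :
    ∫ s in (0:ℝ)..(2 * Real.pi), Real.sin (Real.pi / 2 + (r:ℝ) * s + a * Real.sin s) = CC r a := by
  rw [CC]
  congr 1
  funext s
  rw [← Real.sin_pi_div_two_sub, show Real.pi / 2 - (r * s + a * Real.sin s) =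
    Real.pi - (Real.pi / 2 + (r:ℝ) * s + a * Real.sin s) by ring, Real.sin_pi_sub]

lemma int_minus (r : ℕ) (a : ℝ) :
    ∫ s in (0:ℝ)..(2 * Real.pi), Real.sin (-(Real.pi / 2) + (r:ℝ) * s + a * Real.sin s) = -CC r a := by
  rw [CC, ← intervalIntegral.integral_neg]
  congr 1
  funext s
  rw [← Real.sin_pi_div_two_sub, show Real.pi / 2 - (r * s + a * Real.sin s) =
    -(-(Real.pi / 2) + (r:ℝ) * s + a * Real.sin s) by ring, Real.sin_neg, neg_neg]

/-- Sign of `GB(π/2) - GB(-π/2)` when `CC` is positive. -/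
lemma D_pos (r : ℕ) {a ε : ℝ} (hε : 0 < ε) (h : ε * (2 * Real.pi) * (2 * Real.pi) < CC r a) :
    0 < GB r ε (Real.pi / 2) a - GB r ε (-(Real.pi / 2)) a := by
  have h1 := (abs_le.1 (int_close r a (Real.pi / 2) hε)).1
  have h2 := (abs_le.1 (int_close r a (-(Real.pi / 2)) hε)).2
  rw [int_plus] at h1
  rw [int_minus] at h2
  have h3 : (r : ℝ) < GB r ε (Real.pi / 2) a := by
    apply lt_GB hε
    rw [P_eq]
    have := mul_pos hε (show 0 < ∫ s in (0:ℝ)..(2 * Real.pi), Real.sin (fl r a ε (Real.pi / 2) s) by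
      linarith)
    push_cast
    linarith
  have h4 : GB r ε (-(Real.pi / 2)) a < (r : ℝ) := by
    apply GB_lt hε
    rw [P_eq]
    have := mul_pos hε (show 0 < -∫ s in (0:ℝ)..(2 * Real.pi), Real.sin (fl r a ε (-(Real.pi / 2)) s) by
      linarith)
    push_cast
    linarith
  linarith

lemma D_neg (r : ℕ) {a ε : ℝ} (hε : 0 < ε) (h : ε * (2 * Real.pi) * (2 * Real.pi) < -CC r a) :
    GB r ε (Real.pi / 2) a - GB r ε (-(Real.pi / 2)) a < 0 := by
  have h1 := (abs_le.1 (int_close r a (Real.pi / 2) hε)).2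
  have h2 := (abs_le.1 (int_close r a (-(Real.pi / 2)) hε)).1
  rw [int_plus] at h1
  rw [int_minus] at h2
  have h3 : GB r ε (Real.pi / 2) a < (r : ℝ) := by
    apply GB_lt hε
    rw [P_eq]
    have := mul_pos hε (show 0 < -∫ s in (0:ℝ)..(2 * Real.pi), Real.sin (fl r a ε (Real.pi / 2) s) by
      linarith)
    push_cast
    linarith
  have h4 : (r : ℝ) < GB r ε (-(Real.pi / 2)) a := by
    apply lt_GB hε
    rw [P_eq]
    have := mul_pos hε (show 0 < ∫ s in (0:ℝ)..(2 * Real.pi), Real.sin (fl r a ε (-(Real.pi / 2)) s) by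
      linarith)
    push_cast
    linarith
  linarith

/-- Existence of an adjacency between two values of `a` where `CC` has opposite signs. -/
lemma exists_adj (r : ℕ) {a1 a2 ε : ℝ} (hε : 0 < ε) (hε2 : ε < 2) (ha1 : 0 < a1) (ha : a1 ≤ a2)
    (h : (ε * (2 * Real.pi) * (2 * Real.pi) < -CC r a1 ∧ ε * (2 * Real.pi) * (2 * Real.pi) < CC r a2) ∨
      (ε * (2 * Real.pi) * (2 * Real.pi) < CC r a1 ∧ ε * (2 * Real.pi) * (2 * Real.pi) < -CC r a2)) :
    ∃ a, a1 ≤ a ∧ a ≤ a2 ∧ ∀ x, P r a ε x = x + 2 * Real.pi * (r : ℤ) := by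
  have hc : Continuous fun a => GB r ε (Real.pi / 2) a - GB r ε (-(Real.pi / 2)) a :=
    (GB_cont r hε _).sub (GB_cont r hε _)
  obtain ⟨a, ha3, ha4⟩ : ∃ a ∈ Icc a1 a2, GB r ε (Real.pi / 2) a - GB r ε (-(Real.pi / 2)) a = 0 := by
    rcases h with ⟨h1, h2⟩ | ⟨h1, h2⟩
    · exact intermediate_value_Icc ha hc.continuousOn ⟨(D_neg r hε h1).le, (D_pos r hε h2).le⟩
    · exact intermediate_value_Icc' ha hc.continuousOn ⟨(D_neg r hε h2).le, (D_pos r hε h1).le⟩
  refine ⟨a, ha3.1, ha3.2, ?_⟩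
  have h1 := GB_spec r hε (Real.pi / 2) a
  have h2 := GB_spec r hε (-(Real.pi / 2)) a
  rw [← sub_eq_zero.1 ha4] at h2
  have h3 := id_of_two h1 h2
  have h4 := b_eq (ne_of_gt (lt_of_lt_of_le ha1 ha3.1)) hε hε2 h3
  rw [h4] at h3
  intro x
  have := h3 x
  push_cast at this ⊢
  exact this

/-- Minimal adjacency. -/
lemma exists_min (r : ℕ) {ε : ℝ} (hε : 0 < ε) {a2 : ℝ} (ha2 : 0 < a2)
    (h : ∀ x, P r a2 ε x = x + 2 * Real.pi * (r : ℤ)) :
    ∃ a, 0 < a ∧ a ≤ a2 ∧ (∀ x, P r a ε x = x + 2 * Real.pi * (r : ℤ)) ∧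
      ∀ a', 0 < a' → a' < a → ¬ ∀ x, P r a' ε x = x + 2 * Real.pi * (r : ℤ) := by
  set S : Set ℝ := {a | 1 + (r : ℝ) ≤ a ∧ ∀ x, P r a ε x = x + 2 * Real.pi * (r : ℤ)} with hS
  have hcl : IsClosed S := by
    have : S = Ici (1 + (r : ℝ)) ∩ ⋂ x : ℝ, {a | P r a ε x = x + 2 * Real.pi * (r : ℤ)} := by
      ext a; simp [hS]
    rw [this]
    refine isClosed_Ici.inter (isClosed_iInter fun x => isClosed_eq (cont_a r ε x) continuous_const)
  have hlow : ∀ a, 0 < a → (∀ x, P r a ε x = x + 2 * Real.pi * (r : ℤ)) → 1 + (r : ℝ) ≤ a := by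
    intro a ha h1
    by_contra hcon
    push Not at hcon
    exact no_adj_small (r := (r : ℤ)) ha hε (by positivity) (by push_cast; exact hcon.le)
      (by push_cast at h1 ⊢; exact h1)
  have hne : S.Nonempty := ⟨a2, hlow a2 ha2 h, h⟩
  have hbd : BddBelow S := ⟨1 + (r : ℝ), fun a ha => ha.1⟩
  have hmem := hcl.csInf_mem hne hbd
  refine ⟨sInf S, ?_, csInf_le hbd ⟨hlow a2 ha2 h, h⟩, hmem.2, ?_⟩
  · have : (0:ℝ) ≤ r := Nat.cast_nonneg r
    linarith [hmem.1]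
  · intro a' h1 h2 h3
    have := csInf_le hbd (show a' ∈ S from ⟨hlow a' h1 h3, h3⟩)
    linarith

/-- Main statement in scaled variables. -/
theorem scaled : ∃ ε0 : ℝ, 0 < ε0 ∧ ε0 < 2 ∧ ∀ ε, 0 < ε → ε ≤ ε0 → ∃ a : ℕ → ℝ,
    (∀ r : ℕ, (r = 1 ∨ r = 2 ∨ r = 3) → 0 < a r ∧ (∀ x, P r (a r) ε x = x + 2 * Real.pi * (r : ℤ)) ∧
      ∀ a', 0 < a' → a' < a r → ¬ ∀ x, P r a' ε x = x + 2 * Real.pi * (r : ℤ)) ∧
    a 1 + a 3 < 2 * a 2 := by
  have hpi := Real.pi_pos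
  have c1 := CC_1a
  have c2 := CC_1b
  have c3 := CC_2a
  have c4 := CC_2b
  have c5 := CC_3a
  have c6 := CC_3b
  obtain ⟨m, hm0, hm1, hm2, hm3, hm4, hm5, hm6⟩ : ∃ m : ℝ, 0 < m ∧ m ≤ -CC 1 1 ∧ m ≤ CC 1 3.86 ∧
      m ≤ CC 2 2 ∧ m ≤ -CC 2 6 ∧ m ≤ -CC 3 2 ∧ m ≤ CC 3 6.4 := by
    refine ⟨min (-CC 1 1) (min (CC 1 3.86) (min (CC 2 2) (min (-CC 2 6) (min (-CC 3 2) (CC 3 6.4))))),
      ?_, ?_, ?_, ?_, ?_, ?_, ?_⟩
    · simp only [lt_min_iff]
      refine ⟨by linarith, by linarith, by linarith, by linarith, by linarith, by linarith⟩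
    all_goals simp
  refine ⟨min 1 (m / (2 * (2 * Real.pi) * (2 * Real.pi))), by positivity, lt_of_le_of_lt (min_le_left _ _) (by norm_num), ?_⟩
  intro ε hε hεm
  have hε1 : ε ≤ 1 := hεm.trans (min_le_left _ _)
  have hε2 : ε ≤ m / (2 * (2 * Real.pi) * (2 * Real.pi)) := hεm.trans (min_le_right _ _)
  have hεm : ε * (2 * Real.pi) * (2 * Real.pi) < m := by
    rw [le_div_iff₀ (by positivity)] at hε2
    nlinarith
  have hε' : ε < 2 := by linarith
  obtain ⟨b1, h11, h12, h13⟩ := exists_adj 1 (a1 := 1) (a2 := 3.86) hε hε' (by norm_num) (by norm_num)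
    (Or.inl ⟨by linarith, by linarith⟩)
  obtain ⟨b2, h21, h22, h23⟩ := exists_adj 2 (a1 := 2) (a2 := 6) hε hε' (by norm_num) (by norm_num)
    (Or.inr ⟨by linarith, by linarith⟩)
  obtain ⟨b3, h31, h32, h33⟩ := exists_adj 3 (a1 := 2) (a2 := 6.4) hε hε' (by norm_num) (by norm_num)
    (Or.inl ⟨by linarith, by linarith⟩)
  obtain ⟨d1, k11, k12, k13, k14⟩ := exists_min 1 hε (by linarith) h13
  obtain ⟨d2, k21, k22, k23, k24⟩ := exists_min 2 hε (by linarith) h23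
  obtain ⟨d3, k31, k32, k33, k34⟩ := exists_min 3 hε (by linarith) h33
  have hd2 : 5.132 < d2 := by
    by_contra hcon
    push Not at hcon
    exact no_adj_two k21 hε hcon (by
      intro x
      have := k23 x
      push_cast at this ⊢
      exact this)
  refine ⟨fun r => if r = 1 then d1 else if r = 2 then d2 else d3, ?_, ?_⟩
  · rintro r (rfl | rfl | rfl)
    · exact ⟨k11, k13, k14⟩
    · exact ⟨k21, k23, k24⟩
    · exact ⟨k31, k33, k34⟩
  · norm_num
    norm_num at hd2 h12 h32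
    linarith

end Q66.Jq
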