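import Mathlib

/-! # Statement-level definitions for MP_a275d8_an (smoothness of integrated Lyapunov exponents)

The closed manifold is a flat torus `T^d = R^d / Z^d`; maps of the torus are given together with
their lifts to `R^d`, derivatives are those of the lifts. -/

open Real Set MeasureTheory Filter Topology
open scoped ContDiff

noncomputable section

namespace Pool.Agent.Q66.LE

/-- `R^d` with its Euclidean structure. -/
abbrev V (d : ℕ) := EuclideanSpace ℝ (Fin d)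

/-- The torus `T^d = (R/Z)^d`. -/
abbrev Tor (d : ℕ) := Fin d → UnitAddCircle

/-- The covering projection `R^d → T^d`. -/
def proj {d : ℕ} (x : V d) : Tor d := fun i => ((x i : ℝ) : UnitAddCircle)

/-- The representative in `[0,1)^d` of a point of `T^d`. -/
def rep {d : ℕ} (p : Tor d) : V d :=
  WithLp.toLp 2 (fun i => ((AddCircle.equivIco (1 : ℝ) 0 (p i) : Set.Ico (0 : ℝ) (0 + 1)) : ℝ))

/-- A `C^∞` family `(f_t)`, `-1 < t < 1`, of `C^∞` diffeomorphisms of the torus `T^d`, with inverse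
maps `g_t` and with lifts `F_t`, `G_t` to `R^d`. The lifts are jointly `C^∞` in `(t, x)` and
inverse to each other. -/
structure TorusFamily (d : ℕ) where
  /-- the diffeomorphisms -/
  f : ℝ → Tor d → Tor d
  /-- the inverse diffeomorphisms -/
  g : ℝ → Tor d → Tor d
  /-- the lifts of the diffeomorphisms -/
  F : ℝ → V d → V d
  /-- the lifts of the inverses -/
  G : ℝ → V d → V d
  lift_f : ∀ t ∈ Ioo (-1 : ℝ) 1, ∀ x, f t (proj x) = proj (F t x)
  lift_g : ∀ t ∈ Ioo (-1 : ℝ) 1, ∀ x, g t (proj x) = proj (G t x)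
  smooth_F : ContDiffOn ℝ ∞ (fun q : ℝ × V d => F q.1 q.2) (Ioo (-1 : ℝ) 1 ×ˢ univ)
  smooth_G : ContDiffOn ℝ ∞ (fun q : ℝ × V d => G q.1 q.2) (Ioo (-1 : ℝ) 1 ×ˢ univ)
  left_inv : ∀ t ∈ Ioo (-1 : ℝ) 1, ∀ x, G t (F t x) = x
  right_inv : ∀ t ∈ Ioo (-1 : ℝ) 1, ∀ x, F t (G t x) = x

/-- The splitting `T(T^d) = E₁ ⊕ E₂` (subspaces `E₁ p, E₂ p` of `R^d` for `p` in the torus) is
continuous, invariant and dominated for the map of the torus with lift `F`. -/
structure DominatedSplitting {d : ℕ} (F : V d → V d) (E₁ E₂ : Tor d → Submodule ℝ (V d)) :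
    Prop where
  compl : ∀ p, IsCompl (E₁ p) (E₂ p)
  cont₁ : Continuous fun p => (E₁ p).starProjection
  cont₂ : Continuous fun p => (E₂ p).starProjection
  inv₁ : ∀ x, (E₁ (proj x)).map (fderiv ℝ F x).toLinearMap = E₁ (proj (F x))
  inv₂ : ∀ x, (E₂ (proj x)).map (fderiv ℝ F x).toLinearMap = E₂ (proj (F x))
  dom : ∃ C : ℝ, 0 < C ∧ ∃ τ : ℝ, 0 < τ ∧ τ < 1 ∧ ∀ (x : V d) (n : ℕ) (u v : V d),
    u ∈ E₁ (proj x) → v ∈ E₂ (proj x) → ‖u‖ = 1 → ‖v‖ = 1 →
      ‖fderiv ℝ (F^[n]) x u‖ ≤ C * τ ^ n * ‖fderiv ℝ (F^[n]) x v‖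

/-- `|det (L|_W)|`, the Jacobian of the restriction of `L` to the subspace `W`
(the square root of the Gram determinant). -/
def absDet {d : ℕ} (L : V d →L[ℝ] V d) (W : Submodule ℝ (V d)) : ℝ :=
  Real.sqrt (LinearMap.det
    ((L.toLinearMap ∘ₗ W.subtype).adjoint ∘ₗ (L.toLinearMap ∘ₗ W.subtype)))

/-- The integrated Lyapunov exponent `∫ log |det (Df|_{E(p)})| dμ(p)` of the bundle `E`. -/
def integratedExponent {d : ℕ} (F : V d → V d) (E : Tor d → Submodule ℝ (V d))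
    (μ : Measure (Tor d)) : ℝ :=
  ∫ p, Real.log (absDet (fderiv ℝ F (rep p)) (E p)) ∂μ

end Pool.Agent.Q66.LE
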