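import Pool.Agent.Q66.LEDefs

/-! # Definitions used in the final statement for MP_a275d8_an

They are written over an abstract Euclidean space `H` covering a space `T` by `pr`; in the theorem
`H = R^d`, `T` is the torus and `pr = proj`. -/

open Real Set MeasureTheory Filter Topology
open scoped ContDiff

noncomputable section

namespace Pool.Agent.Q66.LE

/-- The subspaces `E p` of `H` depend continuously on `p` (continuity of the orthogonal
projections). -/
def ContField {H T : Type} [NormedAddCommGroup H] [InnerProductSpace ℝ H]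
    [FiniteDimensional ℝ H] [TopologicalSpace T] (E : T → Submodule ℝ H) : Prop :=
  Continuous fun p => (E p).starProjection

/-- The field of subspaces `E` is invariant under the derivative of `F`. -/
def InvField {H T : Type} [NormedAddCommGroup H] [InnerProductSpace ℝ H]
    (pr : H → T) (F : H → H) (E : T → Submodule ℝ H) : Prop :=
  ∀ x, (E (pr x)).map (fderiv ℝ F x).toLinearMap = E (pr (F x))

/-- `‖DF^n u‖ ≤ C τ^n ‖DF^n v‖` for unit vectors `u ∈ E₁`, `v ∈ E₂` at the same point and all `n`,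
with some `C > 0` and `0 < τ < 1`. -/
def Dominated {H T : Type} [NormedAddCommGroup H] [InnerProductSpace ℝ H]
    (pr : H → T) (F : H → H) (E₁ E₂ : T → Submodule ℝ H) : Prop :=
  ∃ C : ℝ, 0 < C ∧ ∃ τ : ℝ, 0 < τ ∧ τ < 1 ∧ ∀ (x : H) (n : ℕ) (u v : H),
    u ∈ E₁ (pr x) → v ∈ E₂ (pr x) → ‖u‖ = 1 → ‖v‖ = 1 →
      ‖fderiv ℝ (F^[n]) x u‖ ≤ C * τ ^ n * ‖fderiv ℝ (F^[n]) x v‖

/-- The splitting `E₁ ⊕ E₂` (subspaces of `H` indexed by the points of `T`) is continuous,
invariant under the derivative of `F` and dominated. -/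
structure DomSplit {H T : Type} [NormedAddCommGroup H] [InnerProductSpace ℝ H]
    [FiniteDimensional ℝ H] [TopologicalSpace T] (pr : H → T) (F : H → H)
    (E₁ E₂ : T → Submodule ℝ H) : Prop where
  compl : ∀ p, IsCompl (E₁ p) (E₂ p)
  cont₁ : ContField E₁
  cont₂ : ContField E₂
  inv₁ : InvField pr F E₁
  inv₂ : InvField pr F E₂
  dom : Dominated pr F E₁ E₂

/-- A family of dominated splittings, `-1 < t < 1`: `E₁` is the line bundle spanned by the unit
vectors `e t p`, and `e t p` and `E₂ t p` depend continuously on `(t, p)`. -/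
structure SplittingFamily {H T : Type} [NormedAddCommGroup H] [InnerProductSpace ℝ H]
    [FiniteDimensional ℝ H] [TopologicalSpace T] (pr : H → T) (F : ℝ → H → H)
    (e : ℝ → T → H) (E₂ : ℝ → T → Submodule ℝ H) : Prop where
  unit : ∀ t ∈ Ioo (-1 : ℝ) 1, ∀ p, ‖e t p‖ = 1
  split : ∀ t ∈ Ioo (-1 : ℝ) 1, DomSplit pr (F t) (fun p => Submodule.span ℝ {e t p}) (E₂ t)
  cont_e : ContinuousOn (fun q : ℝ × T => e q.1 q.2) (Ioo (-1 : ℝ) 1 ×ˢ univ)
  cont_E : ContinuousOn (fun q : ℝ × T => (E₂ q.1 q.2).starProjection) (Ioo (-1 : ℝ) 1 ×ˢ univ)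

/-- The integrated Lyapunov exponent `∫ log ‖Df e(p)‖ dμ(p)` of the line bundle spanned by the unit
vectors `e p` (for a line bundle `|det (Df|_{E(p)})| = ‖Df e(p)‖`); `sec p` is a point over `p`. -/
def lineExponent {H T : Type} [NormedAddCommGroup H] [InnerProductSpace ℝ H]
    [MeasurableSpace T] (F : H → H) (sec : T → H) (e : T → H) (μ : Measure T) : ℝ :=
  ∫ p, Real.log ‖fderiv ℝ F (sec p) (e p)‖ ∂μ

end Pool.Agent.Q66.LE
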