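import Pool.Agent.Q66.LEDefs

/-! # The example for MP_a275d8_an: explicit maps of `T^6` -/

open Real Set MeasureTheory Filter Topology
open scoped ContDiff

noncomputable section

namespace Pool.Agent.Q66.LE


/-- smooth step: `0` for `u ≤ 3/4`, `1` for `u ≥ 7/8`. -/
def st (u : ℝ) : ℝ := Real.smoothTransition (8 * u - 6)
/-- bump supported in `(1/8,3/8)` mod 1, `= 1` on `[3/16,5/16]` -/
def c1 (x : ℝ) : ℝ := st (sin (2 * π * x))
/-- bump supported in `(5/8,7/8)` mod 1 -/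
def c2 (x : ℝ) : ℝ := st (-sin (2 * π * x))
/-- bump supported in `(3/8,5/8)` mod 1 -/
def al (x : ℝ) : ℝ := st (-cos (2 * π * x))
/-- bump supported in `(-1/8,1/8)` mod 1 -/
def v1 (x : ℝ) : ℝ := st (cos (2 * π * x))
/-- smooth 1-periodic, `pp x = x` for `|x| ≤ 1/16` -/
def pp (x : ℝ) : ℝ := st (cos (2 * π * x)) * arcsin (sin (2 * π * x)) / (2 * π)

theorem per_sin (x : ℝ) : sin (2 * π * (x + 1)) = sin (2 * π * x) := by
  rw [show 2 * π * (x + 1) = 2 * π * x + 2 * π by ring, sin_add_two_pi]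
theorem per_cos (x : ℝ) : cos (2 * π * (x + 1)) = cos (2 * π * x) := by
  rw [show 2 * π * (x + 1) = 2 * π * x + 2 * π by ring, cos_add_two_pi]
theorem per_c1 : Function.Periodic c1 1 := fun x => by simp only [c1, per_sin]
theorem per_c2 : Function.Periodic c2 1 := fun x => by simp only [c2, per_sin]
theorem per_al : Function.Periodic al 1 := fun x => by simp only [al, per_cos]
theorem per_v1 : Function.Periodic v1 1 := fun x => by simp only [v1, per_cos]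
theorem per_pp : Function.Periodic pp 1 := fun x => by simp only [pp, per_sin, per_cos]
theorem per_cosf : Function.Periodic (fun x : ℝ => cos (2 * π * x)) 1 := fun x => by
  simp only [per_cos]
theorem per_sinf : Function.Periodic (fun x : ℝ => sin (2 * π * x)) 1 := fun x => by
  simp only [per_sin]

/-- torus versions -/
def c1T : UnitAddCircle → ℝ := per_c1.lift
def c2T : UnitAddCircle → ℝ := per_c2.lift
def alT : UnitAddCircle → ℝ := per_al.lift
def v1T : UnitAddCircle → ℝ := per_v1.lift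
def ppT : UnitAddCircle → ℝ := per_pp.lift
def cosT : UnitAddCircle → ℝ := per_cosf.lift
def sinT : UnitAddCircle → ℝ := per_sinf.lift

/-! ## plane maps (lifts) -/

/-- horizontal shear `(a,b) ↦ (a + c p(b), b)` -/
def U (c : ℝ) (y : ℝ × ℝ) : ℝ × ℝ := (y.1 + c * pp y.2, y.2)
/-- vertical shear `(a,b) ↦ (a, b + c p(a))` -/
def Lo (c : ℝ) (y : ℝ × ℝ) : ℝ × ℝ := (y.1, y.2 + c * pp y.1)
/-- `psi l` is `(a,b) ↦ (l a, b/l)` near `0` -/
def psi (l : ℝ) (y : ℝ × ℝ) : ℝ × ℝ := Lo (-(l - 1) / l) (U 1 (Lo (l - 1) (U (-1 / l) y)))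
/-- the inverse of `psi l` -/
def psiInv (l : ℝ) (y : ℝ × ℝ) : ℝ × ℝ := U (1 / l) (Lo (-(l - 1)) (U (-1) (Lo ((l - 1) / l) y)))
/-- the fibre map over `x` at time `t` -/
def fib (t x : ℝ) (y : ℝ × ℝ) : ℝ × ℝ :=
  psi (1 + c2 x) ((psiInv (1 + c1 x) y).1 + t * al x, (psiInv (1 + c1 x) y).2)
/-- its inverse -/
def fibInv (t x : ℝ) (y : ℝ × ℝ) : ℝ × ℝ :=
  psi (1 + c1 x) ((psiInv (1 + c2 x) y).1 - t * al x, (psiInv (1 + c2 x) y).2)

/-! ## the same maps on the torus `UnitAddCircle × UnitAddCircle` -/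

def UT (c : ℝ) (y : UnitAddCircle × UnitAddCircle) : UnitAddCircle × UnitAddCircle := (y.1 + ((c * ppT y.2 : ℝ) : UnitAddCircle), y.2)
def LoT (c : ℝ) (y : UnitAddCircle × UnitAddCircle) : UnitAddCircle × UnitAddCircle := (y.1, y.2 + ((c * ppT y.1 : ℝ) : UnitAddCircle))
def psiT (l : ℝ) (y : UnitAddCircle × UnitAddCircle) : UnitAddCircle × UnitAddCircle := LoT (-(l - 1) / l) (UT 1 (LoT (l - 1) (UT (-1 / l) y)))
def psiInvT (l : ℝ) (y : UnitAddCircle × UnitAddCircle) : UnitAddCircle × UnitAddCircle :=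
  UT (1 / l) (LoT (-(l - 1)) (UT (-1) (LoT ((l - 1) / l) y)))
/-- translation in the first coordinate -/
def trT (c : ℝ) (y : UnitAddCircle × UnitAddCircle) : UnitAddCircle × UnitAddCircle := (y.1 + (c : UnitAddCircle), y.2)
def fibT (t : ℝ) (x : UnitAddCircle) (y : UnitAddCircle × UnitAddCircle) : UnitAddCircle × UnitAddCircle :=
  psiT (1 + c2T x) (trT (t * alT x) (psiInvT (1 + c1T x) y))
def fibInvT (t : ℝ) (x : UnitAddCircle) (y : UnitAddCircle × UnitAddCircle) : UnitAddCircle × UnitAddCircle :=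
  psiT (1 + c1T x) (trT (-(t * alT x)) (psiInvT (1 + c2T x) y))

/-! ## the family on `T^6` -/

/-- size of the coupling -/
def ep (N : ℕ) (δ t : ℝ) : ℝ := δ * t ^ (2 * N)

/-- the new last coordinate `x₅' = x₄ + ε v₁(x₀) cos(2πx₂) sin(2πx₅)/(2π)` -/
def zz (N : ℕ) (δ t : ℝ) (x : V 6) : ℝ :=
  x 4 + ep N δ t * (v1 (x 0) * cos (2 * π * x 2)) * (sin (2 * π * x 5) / (2 * π))

/-- lift of `f_t` -/
def FF (m N : ℕ) (δ t : ℝ) (x : V 6) : V 6 :=
  WithLp.toLp 2 ![x 0 + x 1, x 1, (fib t (x 0) (x 2, x 3)).1, (fib t (x 0) (x 2, x 3)).2,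
    (m : ℝ) * zz N δ t x - x 5, zz N δ t x]

/-- lift of the inverse of `f_t` -/
def GG (m N : ℕ) (δ t : ℝ) (x : V 6) : V 6 :=
  WithLp.toLp 2 ![x 0 - x 1, x 1, (fibInv t (x 0 - x 1) (x 2, x 3)).1,
    (fibInv t (x 0 - x 1) (x 2, x 3)).2,
    x 5 - ep N δ t * (v1 (x 0 - x 1) * cos (2 * π * (fibInv t (x 0 - x 1) (x 2, x 3)).1)) *
      (sin (2 * π * ((m : ℝ) * x 5 - x 4)) / (2 * π)),
    (m : ℝ) * x 5 - x 4]

def zzT (N : ℕ) (δ t : ℝ) (p : Tor 6) : UnitAddCircle :=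
  p 4 + ((ep N δ t * (v1T (p 0) * cosT (p 2)) * (sinT (p 5) / (2 * π)) : ℝ) : UnitAddCircle)

/-- `f_t` on the torus -/
def fT (m N : ℕ) (δ t : ℝ) (p : Tor 6) : Tor 6 :=
  ![p 0 + p 1, p 1, (fibT t (p 0) (p 2, p 3)).1, (fibT t (p 0) (p 2, p 3)).2,
    m • zzT N δ t p - p 5, zzT N δ t p]

/-- the inverse of `f_t` on the torus -/
def gT (m N : ℕ) (δ t : ℝ) (p : Tor 6) : Tor 6 :=
  ![p 0 - p 1, p 1, (fibInvT t (p 0 - p 1) (p 2, p 3)).1, (fibInvT t (p 0 - p 1) (p 2, p 3)).2,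
    p 5 - ((ep N δ t * (v1T (p 0 - p 1) * cosT (fibInvT t (p 0 - p 1) (p 2, p 3)).1) *
      (sinT (m • p 5 - p 4) / (2 * π)) : ℝ) : UnitAddCircle),
    m • p 5 - p 4]

/-! ## the base system -/

/-- base space `T^2 × T^2` -/
abbrev Bs := UnitAddCircle × UnitAddCircle × (UnitAddCircle × UnitAddCircle)

/-- base map -/
def bT (t : ℝ) (n : Bs) : Bs := (n.1 + n.2.1, n.2.1, fibT t n.1 n.2.2)

/-- the coupling function on the base -/
def vB (n : Bs) : ℝ := v1T n.1 * cosT n.2.2.1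

/-- zero section -/
def iota (n : Bs) : Tor 6 := ![n.1, n.2.1, n.2.2.1, n.2.2.2, 0, 0]

/-- period of the `r`-th orbit -/
def qq (r : ℕ) : ℕ := 16 * (r + 1)

/-- uniform measure on the `r`-th orbit times Lebesgue measure of the fibre -/
def nuq (r : ℕ) : Measure Bs :=
  ((qq r : ENNReal))⁻¹ • ∑ j ∈ Finset.range (qq r),
    (volume : Measure (UnitAddCircle × UnitAddCircle)).map
      (fun y => ((((j : ℝ) / (qq r : ℝ) : ℝ) : UnitAddCircle), (((1 : ℝ) / (qq r : ℝ) : ℝ) : UnitAddCircle), y))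

/-- the invariant measure of the base -/
def nu : Measure Bs := Measure.sum fun r : ℕ => ((2 : ENNReal)⁻¹ ^ (r + 1)) • nuq r

/-- the common invariant measure on `T^6` -/
def mu : Measure (Tor 6) := nu.map iota

/-- the correlations -/
def corr (k : ℕ) (t : ℝ) : ℝ := ∫ n, vB n * vB ((bT t)^[k] n) ∂nu

/-- the doubled `N`-th difference at `0` -/
def DD (N : ℕ) (φ : ℝ → ℝ) (t : ℝ) : ℝ :=
  ∑ i ∈ Finset.range (N + 1), ∑ j ∈ Finset.range (N + 1),
    (-1 : ℝ) ^ (i + j) * (N.choose i : ℝ) * (N.choose j : ℝ) * φ (((i : ℝ) - (j : ℝ)) * t)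

end Pool.Agent.Q66.LE
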