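import Pool.Agent.Q66.LEEx

/-! # Statements of the steps for MP_a275d8_an -/

open Real Set MeasureTheory Filter Topology
open scoped ContDiff

noncomputable section

namespace Pool.Agent.Q66.LE


/-- J1a: the invariant line field (scalar graph transform). -/
def S_sig : Prop :=
  ∀ (X : Type) [TopologicalSpace X] [CompactSpace X] (φ : X ≃ₜ X) (A B Γ Δ : X → ℝ)
    (a e D : ℝ), Continuous A → Continuous B → Continuous Γ → Continuous Δ →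
    0 ≤ a → 0 ≤ e → 0 < D → (∀ x, |A x| ≤ a) → (∀ x, |B x| ≤ e) → (∀ x, |Γ x| ≤ e) →
    (∀ x, 1 / D ≤ |Δ x|) → D * (a + 2 * e) < 1 →
    ∃ σ : X → ℝ, Continuous σ ∧ (∀ x, |σ x| ≤ 1) ∧ (∀ x, |σ x| * (1 - D * (a + e)) ≤ D * e) ∧
      ∀ x, Γ x + Δ x * σ x = σ (φ x) * (A x + B x * σ x)

/-- J1b: the invariant hyperplane field (graph transform for covectors). -/
def S_tht : Prop :=
  ∀ (X : Type) [TopologicalSpace X] [CompactSpace X] (φ : X ≃ₜ X)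
    (W : Type) [NormedAddCommGroup W] [NormedSpace ℝ W] [FiniteDimensional ℝ W]
    (A : X → ℝ) (B : X → (W →L[ℝ] ℝ)) (Γ : X → W) (Δ Δi : X → (W →L[ℝ] W))
    (a e D : ℝ), Continuous A → Continuous B → Continuous Γ → Continuous Δ → Continuous Δi →
    0 ≤ a → 0 ≤ e → 0 < D → (∀ x, |A x| ≤ a) → (∀ x, ‖B x‖ ≤ e) → (∀ x, ‖Γ x‖ ≤ e) →
    (∀ x, ‖Δi x‖ ≤ D) → (∀ x w, Δ x (Δi x w) = w) → (∀ x w, Δi x (Δ x w) = w) →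
    D * (a + 2 * e) < 1 →
    ∃ θ : X → (W →L[ℝ] ℝ), Continuous θ ∧ (∀ x, ‖θ x‖ < 1) ∧
      ∀ x w, A x * θ x w + B x w = θ (φ x) (θ x w • Γ x + Δ x w)

/-- the first four coordinates -/
def pr4 (h : V 6) : Fin 4 → ℝ := ![h 0, h 1, h 2, h 3]

/-- J2a: block form of the derivative of `FF`. -/
def S_blk : Prop :=
  ∃ K : ℝ, 1 ≤ K ∧ ∃ (Bd Bi : ℝ → Tor 6 → ((Fin 4 → ℝ) →L[ℝ] (Fin 4 → ℝ)))
    (h5 : Tor 6 → ℝ) (hw : Tor 6 → ((Fin 4 → ℝ) →L[ℝ] ℝ)),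
    Continuous (fun q : ℝ × Tor 6 => Bd q.1 q.2) ∧ Continuous (fun q : ℝ × Tor 6 => Bi q.1 q.2) ∧
    Continuous h5 ∧ Continuous hw ∧
    (∀ t p w, Bd t p (Bi t p w) = w) ∧ (∀ t p w, Bi t p (Bd t p w) = w) ∧
    (∀ t ∈ Icc (-1 : ℝ) 1, ∀ p, ‖Bi t p‖ ≤ K) ∧ (∀ p, |h5 p| ≤ 1) ∧ (∀ p, ‖hw p‖ ≤ K) ∧
    ∀ (m N : ℕ) (δ t : ℝ) (x h : V 6),
      fderiv ℝ (FF m N δ t) x h = WithLp.toLp 2
        ![Bd t (proj x) (pr4 h) 0, Bd t (proj x) (pr4 h) 1, Bd t (proj x) (pr4 h) 2,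
          Bd t (proj x) (pr4 h) 3,
          (m : ℝ) * (h 4 + ep N δ t * (h5 (proj x) * h 5 + hw (proj x) (pr4 h))) - h 5,
          h 4 + ep N δ t * (h5 (proj x) * h 5 + hw (proj x) (pr4 h))]

/-- J3: the maps form a `C^∞` family of diffeomorphisms of `T^6`. -/
def S_fam : Prop :=
  ∀ (m N : ℕ) (δ : ℝ),
    ContDiff ℝ ∞ (fun q : ℝ × V 6 => FF m N δ q.1 q.2) ∧
    ContDiff ℝ ∞ (fun q : ℝ × V 6 => GG m N δ q.1 q.2) ∧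
    (∀ t x, GG m N δ t (FF m N δ t x) = x) ∧ (∀ t x, FF m N δ t (GG m N δ t x) = x) ∧
    (∀ t x, fT m N δ t (proj x) = proj (FF m N δ t x)) ∧
    (∀ t x, gT m N δ t (proj x) = proj (GG m N δ t x)) ∧
    Continuous (fun q : ℝ × Tor 6 => fT m N δ q.1 q.2) ∧
    Continuous (fun q : ℝ × Tor 6 => gT m N δ q.1 q.2)

/-- J2b: the dominated splitting of the family, with a slope function. -/
def S_split : Prop :=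
  ∃ m : ℕ, 4 ≤ m ∧ ∃ δ : ℝ, 0 < δ ∧ δ ≤ 1 / 4 ∧ ∀ N : ℕ, 1 ≤ N →
    ∃ (E₁ E₂ : ℝ → Tor 6 → Submodule ℝ (V 6)) (sl : ℝ → Tor 6 → ℝ),
      (∀ t ∈ Ioo (-1 : ℝ) 1, DominatedSplitting (FF m N δ t) (E₁ t) (E₂ t)) ∧
      ContinuousOn (fun q : ℝ × Tor 6 => (E₁ q.1 q.2).starProjection) (Ioo (-1 : ℝ) 1 ×ˢ univ) ∧
      ContinuousOn (fun q : ℝ × Tor 6 => (E₂ q.1 q.2).starProjection) (Ioo (-1 : ℝ) 1 ×ˢ univ) ∧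
      (∀ t ∈ Ioo (-1 : ℝ) 1, ∀ p, E₁ t p =
        Submodule.span ℝ {(WithLp.toLp 2 ![0, 0, 0, 0, sl t p, 1] : V 6)}) ∧
      (∀ t ∈ Ioo (-1 : ℝ) 1, Continuous (sl t)) ∧
      (∀ t ∈ Ioo (-1 : ℝ) 1, ∀ p, |sl t p| ≤ 1 / 4)

/-- J4: the measure. -/
def S_mes : Prop :=
  IsProbabilityMeasure nu ∧ (∀ t, MeasurePreserving (bT t) nu nu) ∧
  Continuous iota ∧ Continuous (fun q : ℝ × Bs => bT q.1 q.2) ∧ Continuous vB ∧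
  (∀ n, |vB n| ≤ 1) ∧ (∀ k, Continuous (corr k)) ∧
  (∀ (m N : ℕ) (δ t : ℝ) (n : Bs), fT m N δ t (iota n) = iota (bT t n))

/-- J5: second order expansion of the exponent of a Schrödinger-type cocycle. -/
def S_exp : Prop :=
  ∀ (m : ℕ), 4 ≤ m → ∀ κ : ℝ, 0 < κ → κ ≤ 1 / 2 → κ ^ 2 - (m : ℝ) * κ + 1 = 0 →
  ∃ C c₁ c₂ : ℝ, 0 < c₂ ∧ ∀ (Ω : Type) [MeasurableSpace Ω] (ν : Measure Ω)
    [IsProbabilityMeasure ν] (b : Ω → Ω), MeasurePreserving b ν ν →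
    ∀ (v ρ : Ω → ℝ), Measurable v → Measurable ρ → (∀ o, |v o| ≤ 1) → (∀ o, |ρ o| ≤ 1 / 2) →
    ∀ ε : ℝ, 0 ≤ ε → ε ≤ 1 / 4 → (∀ o, ρ o * ((m : ℝ) + ε * v (b o) - ρ (b o)) = 1) →
    |∫ o, Real.log (ρ o) ∂ν - (Real.log κ + c₁ * ε * ∫ o, v o ∂ν +
      c₂ * ε ^ 2 * (∫ o, v o ^ 2 ∂ν +
        2 * ∑' k : ℕ, κ ^ (2 * (k + 1)) * ∫ o, v o * v (b^[k + 1] o) ∂ν))| ≤ C * ε ^ 3

/-- J6: if the exponent is smooth, the differences of `G` are small. -/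
def S_calc : Prop :=
  ∀ (N : ℕ), 1 ≤ N → ∀ (lam G : ℝ → ℝ) (c₀ c₁ c₂ c₃ C M : ℝ), c₂ ≠ 0 →
    ContDiffAt ℝ ((6 * N : ℕ) : ℕ∞) lam 0 → (∀ t, |G t| ≤ M) → ContinuousAt G 0 →
    (∀ t ∈ Ioo (-1 : ℝ) 1,
      |lam t - (c₀ + c₁ * t ^ (2 * N) + c₂ * t ^ (4 * N) * (c₃ + G t))| ≤ C * t ^ (6 * N)) →
    ∃ C' t₁ : ℝ, 0 < t₁ ∧ ∀ t, |t| ≤ t₁ → |DD N G t| ≤ C' * t ^ (2 * N)

/-- iterated fibre maps along the orbit `(j/q), ((j+1)/q), …` -/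
def FI (t : ℝ) (q j : ℕ) : ℕ → UnitAddCircle × UnitAddCircle → UnitAddCircle × UnitAddCircle
  | 0, y => y
  | k + 1, y => fibT t ((((j + k : ℕ) : ℝ) / (q : ℝ) : ℝ) : UnitAddCircle) (FI t q j k y)

/-- J7: the fibre maps over the `r`-th orbit. -/
def S_fib : Prop :=
  ∀ r : ℕ, ∃ (W : (UnitAddCircle × UnitAddCircle) ≃ᵐ (UnitAddCircle × UnitAddCircle)) (Θ Λ : ℝ) (w : ℕ → ℕ → ℕ),
    MeasurePreserving W volume volume ∧ 1 ≤ Θ ∧ (4 : ℝ) ^ (r + 1) ≤ Λ ∧ w 0 (qq r) = 1 ∧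
    (∀ a b : ℝ, |a| ≤ 1 / (128 * Λ) → |b| ≤ 1 / 128 →
      W.symm ((a : UnitAddCircle), (b : UnitAddCircle)) = (((Λ * a : ℝ) : UnitAddCircle), ((b / Λ : ℝ) : UnitAddCircle))) ∧
    ∀ j k : ℕ, v1 ((j : ℝ) / (qq r : ℝ)) ≠ 0 → v1 (((j + k : ℕ) : ℝ) / (qq r : ℝ)) ≠ 0 →
      ∀ (t : ℝ) (y : UnitAddCircle × UnitAddCircle), FI t (qq r) j k y = W.symm (trT ((w j k : ℝ) * (t * Θ)) (W y))

/-- J8: positivity of the doubled differences of the correlations and a lower bound. -/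
def S_pos : Prop :=
  (∀ (N k : ℕ) (t : ℝ), 0 ≤ DD N (corr k) t) ∧
  ∀ M : ℕ, 1 ≤ M → ∃ c : ℝ, 0 < c ∧ ∀ r : ℕ, ∃ Λ t : ℝ, (4 : ℝ) ^ (r + 1) ≤ Λ ∧ 0 < t ∧
    t ≤ 1 / Λ ∧ c / (2 ^ (r + 1) * (qq r : ℝ) * Λ) ≤ DD (4 * M) (corr (qq r)) t

end Pool.Agent.Q66.LE
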