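import Pool.Agent.Q66.LEStm

open Real Set MeasureTheory Filter Topology
open scoped ContDiff

noncomputable section

namespace Pool.Agent.Q66.LE


/-- Jacobian on a line. -/
theorem absDet_span {d : ℕ} (L : V d →L[ℝ] V d) (e : V d) (he : e ≠ 0) :
    absDet L (Submodule.span ℝ {e}) = ‖L e‖ / ‖e‖ := by
  set W := Submodule.span ℝ ({e} : Set (V d)) with hW
  set A : W →ₗ[ℝ] V d := L.toLinearMap ∘ₗ W.subtype with hA
  have heW : e ∈ W := Submodule.mem_span_singleton_self e
  have hfr : Module.finrank ℝ W = 1 := finrank_span_singleton he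
  have hne : 0 < ‖e‖ := norm_pos_iff.mpr he
  set T := A.adjoint ∘ₗ A with hT
  set eW : W := ⟨e, heW⟩ with heWd
  have heW0 : eW ≠ 0 := by
    intro h; exact he (congrArg Subtype.val h)
  obtain ⟨c, hc⟩ : ∃ c : ℝ, T eW = c • eW := by
    obtain ⟨c, hc⟩ := (Submodule.mem_span_singleton).mp (T eW).2
    exact ⟨c, by apply Subtype.ext; simpa using hc.symm⟩
  have hTc : T = c • LinearMap.id := by
    ext w
    obtain ⟨a, ha⟩ := (Submodule.mem_span_singleton).mp w.2
    have hw : w = a • eW := by apply Subtype.ext; simpa using ha.symm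
    rw [hw, map_smul, hc]
    simp [smul_smul, mul_comm]
  have hin : inner ℝ (T eW) eW = ‖L e‖ ^ 2 := by
    rw [hT, LinearMap.comp_apply, LinearMap.adjoint_inner_left, real_inner_self_eq_norm_sq]
    rfl
  have hc2 : c * ‖e‖ ^ 2 = ‖L e‖ ^ 2 := by
    rw [← hin, hc, Submodule.coe_inner]
    change c * ‖e‖ ^ 2 = inner ℝ (c • e) e
    rw [real_inner_smul_left, real_inner_self_eq_norm_sq]
  have hcv : c = (‖L e‖ / ‖e‖) ^ 2 := by
    rw [div_pow, eq_div_iff (by positivity), hc2]
  have hdet : LinearMap.det T = c := by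
    rw [hTc, LinearMap.det_smul, hfr]; simp
  unfold absDet
  rw [← hA, ← hT, hdet, hcv, Real.sqrt_sq (by positivity)]

theorem proj_surj {d : ℕ} (p : Tor d) : proj (rep p) = p := by
  funext i
  simp only [proj, rep]
  exact AddCircle.coe_equivIco

end Pool.Agent.Q66.LE
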