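import Pool.Agent.Q66.LEa1

open Real Set MeasureTheory Filter Topology
open scoped ContDiff

noncomputable section

namespace Pool.Agent.Q66.LE


/-- the vector `(0,0,0,0,s,1)` -/
def ev (s : ℝ) : V 6 := WithLp.toLp 2 ![0, 0, 0, 0, s, 1]

theorem ev4 (s : ℝ) : ev s 4 = s := rfl
theorem ev5 (s : ℝ) : ev s 5 = 1 := rfl
theorem pr4_ev (s : ℝ) : pr4 (ev s) = 0 := by
  ext i; fin_cases i <;> rfl

theorem ev_ne (s : ℝ) : ev s ≠ 0 := by
  intro h
  have : ev s 5 = 0 := by rw [h]; rfl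
  rw [ev5] at this; exact one_ne_zero this

theorem ev_norm_sq (s : ℝ) : ‖ev s‖ ^ 2 = s ^ 2 + 1 := by
  rw [EuclideanSpace.norm_sq_eq]
  simp [Fin.sum_univ_succ, ev]

theorem rep_zero {d : ℕ} (p : Tor d) (i : Fin d) (h : p i = 0) : rep p i = 0 := by
  simp only [rep]
  rw [h]
  have := AddCircle.coe_equivIco_mk_apply (p := (1:ℝ)) (x := (0:ℝ))
  have h2 : (((AddCircle.equivIco (1:ℝ) 0) ((0:ℝ) : AddCircle (1:ℝ)) : Ico (0:ℝ) (0+1)) : ℝ) = 0 := by
    rw [AddCircle.coe_equivIco_mk_apply]; simp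
  simpa using h2

theorem v1T_coe (x : ℝ) : v1T (x : UnitAddCircle) = v1 x := per_v1.lift_coe x
theorem cosT_coe (x : ℝ) : cosT (x : UnitAddCircle) = cos (2 * π * x) := per_cosf.lift_coe x

theorem h5_val (h5 : Tor 6 → ℝ) (hw : Tor 6 → ((Fin 4 → ℝ) →L[ℝ] ℝ))
    (Bd : ℝ → Tor 6 → ((Fin 4 → ℝ) →L[ℝ] (Fin 4 → ℝ)))
    (hd : Differentiable ℝ (FF 0 0 1 0))
    (hf : ∀ (m N : ℕ) (δ t : ℝ) (x h : V 6),
      fderiv ℝ (FF m N δ t) x h = WithLp.toLp 2
        ![Bd t (proj x) (pr4 h) 0, Bd t (proj x) (pr4 h) 1, Bd t (proj x) (pr4 h) 2,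
          Bd t (proj x) (pr4 h) 3,
          (m : ℝ) * (h 4 + ep N δ t * (h5 (proj x) * h 5 + hw (proj x) (pr4 h))) - h 5,
          h 4 + ep N δ t * (h5 (proj x) * h 5 + hw (proj x) (pr4 h))]) (x : V 6) :
    h5 (proj x) = v1 (x 0) * cos (2 * π * x 2) * cos (2 * π * x 5) := by
  set e : V 6 := WithLp.toLp 2 ![0, 0, 0, 0, 0, 1] with he
  have hpe : pr4 e = 0 := by ext i; fin_cases i <;> rfl
  have he4 : e 4 = 0 := rfl
  have he5 : e 5 = 1 := rfl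
  have he0 : e 0 = 0 := rfl
  have he2 : e 2 = 0 := rfl
  have hep : ep 0 1 0 = 1 := by simp [ep]
  have h1 : HasDerivAt (fun s : ℝ => FF 0 0 1 0 (x + s • e)) (fderiv ℝ (FF 0 0 1 0) x e) 0 := by
    have hx : HasFDerivAt (FF 0 0 1 0) (fderiv ℝ (FF 0 0 1 0) x) (x + (0:ℝ) • e) := by
      rw [zero_smul, add_zero]; exact (hd x).hasFDerivAt
    have hl : HasDerivAt (fun s : ℝ => x + s • e) e 0 := by
      simpa using ((hasDerivAt_id (0:ℝ)).smul_const e).const_add x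
    exact hx.comp_hasDerivAt (0:ℝ) hl
  have h2 : HasDerivAt (fun s : ℝ => FF 0 0 1 0 (x + s • e) 5) (fderiv ℝ (FF 0 0 1 0) x e 5) 0 := by
    have := (EuclideanSpace.proj (𝕜 := ℝ) (5 : Fin 6)).hasFDerivAt.comp_hasDerivAt (0:ℝ) h1
    exact this
  have h3 : fderiv ℝ (FF 0 0 1 0) x e 5 = h5 (proj x) := by
    rw [hf]
    change e 4 + ep 0 1 0 * (h5 (proj x) * e 5 + hw (proj x) (pr4 e)) = _
    rw [hpe, he4, he5, hep]; simp
  have h4 : (fun s : ℝ => FF 0 0 1 0 (x + s • e) 5) = fun s => x 4 +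
      (v1 (x 0) * cos (2 * π * x 2)) * (sin (2 * π * (x 5 + s)) / (2 * π)) := by
    funext s
    change zz 0 1 0 (x + s • e) = _
    have a4 : (x + s • e) 4 = x 4 := by simp [he4]
    have a0 : (x + s • e) 0 = x 0 := by simp [he0]
    have a2 : (x + s • e) 2 = x 2 := by simp [he2]
    have a5 : (x + s • e) 5 = x 5 + s := by simp [he5]
    simp only [zz, a4, a0, a2, a5, hep, one_mul]
  rw [h4, h3] at h2
  have h5' : HasDerivAt (fun s : ℝ => x 4 +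
      (v1 (x 0) * cos (2 * π * x 2)) * (sin (2 * π * (x 5 + s)) / (2 * π)))
      ((v1 (x 0) * cos (2 * π * x 2)) * (cos (2 * π * (x 5 + 0)) * (2 * π * 1) / (2 * π))) 0 := by
    have hi : HasDerivAt (fun s : ℝ => 2 * π * (x 5 + s)) (2 * π * 1) 0 :=
      ((hasDerivAt_id (0:ℝ)).const_add (x 5)).const_mul (2 * π)
    exact ((hi.sin.div_const (2 * π)).const_mul _).const_add _
  have h6 := h2.unique h5'
  rw [h6, add_zero]
  have hpi : (2 * π) ≠ 0 := by positivity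
  field_simp

end Pool.Agent.Q66.LE
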