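import Pool.Agent.Q66.LEa2

open Real Set MeasureTheory Filter Topology
open scoped ContDiff

noncomputable section

namespace Pool.Agent.Q66.LE


instance instSCT : SecondCountableTopology UnitAddCircle :=
  UniformSpace.secondCountable_of_separable _

instance instBS : BorelSpace Bs := inferInstance

/-- `ρ` over the zero section -/
def rho (N : ℕ) (δ t : ℝ) (s : Tor 6 → ℝ) (n : Bs) : ℝ := s (iota n) + ep N δ t * vB n

theorem proj_apply {d : ℕ} (x : V d) (i : Fin d) : proj x i = ((x i : ℝ) : UnitAddCircle) := rfl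

theorem vB_rep (n : Bs) :
    v1 (rep (iota n) 0) * cos (2 * π * rep (iota n) 2) = vB n := by
  have h := proj_surj (iota n)
  have h0 : ((rep (iota n) 0 : ℝ) : UnitAddCircle) = n.1 := by
    rw [← proj_apply, h]; rfl
  have h2 : ((rep (iota n) 2 : ℝ) : UnitAddCircle) = n.2.2.1 := by
    rw [← proj_apply, h]; rfl
  rw [vB, ← h0, ← h2, v1T_coe, cosT_coe]

theorem slope_eq (hblk : S_blk) (hfam : S_fam) (hmes : S_mes) (m N : ℕ) (δ t : ℝ)
    (E : Tor 6 → Submodule ℝ (V 6)) (s : Tor 6 → ℝ)
    (hE : ∀ p, E p = Submodule.span ℝ {(ev (s p) : V 6)})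
    (hinv : ∀ x, (E (proj x)).map (fderiv ℝ (FF m N δ t) x).toLinearMap
      = E (proj (FF m N δ t x))) (n : Bs) :
    fderiv ℝ (FF m N δ t) (rep (iota n)) (ev (s (iota n))) =
      rho N δ t s n • ev (s (iota (bT t n))) ∧
    rho N δ t s n * ((m : ℝ) - s (iota (bT t n))) = 1 := by
  obtain ⟨K, -, Bd, Bi, h5, hw, -, -, -, -, -, -, -, -, -, hf⟩ := hblk
  obtain ⟨-, -, -, -, -, -, -, hio⟩ := hmes
  have hdiff : Differentiable ℝ (FF 0 0 1 0) := by
    have h1 := (hfam 0 0 1).1
    have : FF 0 0 1 0 = (fun q : ℝ × V 6 => FF 0 0 1 q.1 q.2) ∘ (fun x => ((0:ℝ), x)) := rfl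
    rw [this]
    exact (h1.differentiable (by simp)).comp ((differentiable_const _).prodMk differentiable_id)
  set x := rep (iota n) with hx
  have hpx : proj x = iota n := proj_surj _
  have hx5 : x 5 = 0 := rep_zero _ _ rfl
  have h5v : h5 (proj x) = vB n := by
    rw [h5_val h5 hw Bd hdiff hf x, hx5, mul_zero, cos_zero, mul_one, hx, vB_rep]
  have hD : fderiv ℝ (FF m N δ t) x (ev (s (iota n))) = WithLp.toLp 2
      ![0, 0, 0, 0, (m : ℝ) * rho N δ t s n - 1, rho N δ t s n] := by
    rw [hf, pr4_ev]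
    have e4 := ev4 (s (iota n))
    have e5 := ev5 (s (iota n))
    rw [e4, e5, h5v]
    simp only [map_zero, Pi.zero_apply, mul_one, add_zero, rho]
  have hFx : proj (FF m N δ t x) = iota (bT t n) := by
    rw [← hio m N δ t n, ← hpx, (hfam m N δ).2.2.2.2.1]
  have hmem : fderiv ℝ (FF m N δ t) x (ev (s (iota n))) ∈
      Submodule.span ℝ {(ev (s (iota (bT t n))) : V 6)} := by
    rw [← hE, ← hFx, ← hinv x]
    refine Submodule.mem_map_of_mem ?_
    rw [hpx, hE]
    exact Submodule.mem_span_singleton_self _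
  obtain ⟨c, hc⟩ := Submodule.mem_span_singleton.mp hmem
  have hc5 : c = rho N δ t s n := by
    have := congrArg (fun v : V 6 => v 5) hc
    simp only [hD] at this
    have h2 : (c • ev (s (iota (bT t n)))) 5 = c := by
      change c * ev (s (iota (bT t n))) 5 = c
      rw [ev5, mul_one]
    rw [h2] at this
    exact this
  have hc4 : c * s (iota (bT t n)) = (m : ℝ) * rho N δ t s n - 1 := by
    have := congrArg (fun v : V 6 => v 4) hc
    simp only [hD] at this
    have h2 : (c • ev (s (iota (bT t n)))) 4 = c * s (iota (bT t n)) := by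
      change c * ev (s (iota (bT t n))) 4 = _
      rw [ev4]
    rw [h2] at this
    exact this
  refine ⟨by rw [← hc, hc5], ?_⟩
  rw [hc5] at hc4
  linarith

theorem iota_inj : Function.Injective iota := by
  intro a b h
  have h0 : a.1 = b.1 := congrFun h 0
  have h1 : a.2.1 = b.2.1 := congrFun h 1
  have h2 : a.2.2.1 = b.2.2.1 := congrFun h 2
  have h3 : a.2.2.2 = b.2.2.2 := congrFun h 3
  ext <;> assumption

/-- the integrated exponent as an integral over the base -/
theorem exponent_eq (hblk : S_blk) (hfam : S_fam) (hmes : S_mes) (m N : ℕ) (hm : 4 ≤ m) (δ t : ℝ)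
    (E : Tor 6 → Submodule ℝ (V 6)) (s : Tor 6 → ℝ) (hs : Continuous s) (hs4 : ∀ p, |s p| ≤ 1 / 4)
    (hE : ∀ p, E p = Submodule.span ℝ {(ev (s p) : V 6)})
    (hinv : ∀ x, (E (proj x)).map (fderiv ℝ (FF m N δ t) x).toLinearMap
      = E (proj (FF m N δ t x))) :
    integratedExponent (FF m N δ t) E mu = ∫ n, Real.log (rho N δ t s n) ∂nu := by
  have hS := slope_eq hblk hfam hmes m N δ t E s hE hinv
  obtain ⟨hprob, hbT, hic, hbc, hvc, -, -, hio⟩ := hmes
  have hemb : MeasurableEmbedding iota :=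
    (hic.isClosedEmbedding iota_inj).measurableEmbedding
  have hbTc : Continuous (bT t) := hbc.comp (continuous_const.prodMk continuous_id)
  have hrc : Continuous (rho N δ t s) := by
    unfold rho; exact (hs.comp hic).add (continuous_const.mul hvc)
  have hmR : (4:ℝ) ≤ m := by exact_mod_cast hm
  have hrpos : ∀ n, 0 < rho N δ t s n := by
    intro n
    have h1 := (hS n).2
    have h2 := abs_le.mp (hs4 (iota (bT t n)))
    have h3 : 0 < (m : ℝ) - s (iota (bT t n)) := by linarith [h2.2]
    by_contra h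
    push Not at h
    have := mul_nonpos_of_nonpos_of_nonneg h h3.le
    linarith
  have hnc : Continuous fun n : Bs => Real.log ‖ev (s (iota n))‖ := by
    have hc1 : Continuous fun n : Bs => ‖ev (s (iota n))‖ := by
      have : (fun n : Bs => ‖ev (s (iota n))‖) = fun n => Real.sqrt (s (iota n) ^ 2 + 1) := by
        funext n
        rw [← ev_norm_sq, Real.sqrt_sq (norm_nonneg _)]
      rw [this]
      exact (((hs.comp hic).pow 2).add continuous_const).sqrt
    exact hc1.log fun n => (norm_pos_iff.mpr (ev_ne _)).ne'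
  have hlc : Continuous fun n => Real.log (rho N δ t s n) := hrc.log fun n => (hrpos n).ne'
  have hcomp : CompactSpace Bs := inferInstance
  have hint1 : Integrable (fun n => Real.log (rho N δ t s n)) nu :=
    hlc.integrable_of_hasCompactSupport (HasCompactSupport.of_compactSpace _)
  have hint2 : Integrable (fun n : Bs => Real.log ‖ev (s (iota n))‖) nu :=
    hnc.integrable_of_hasCompactSupport (HasCompactSupport.of_compactSpace _)
  have hint3 : Integrable (fun n : Bs => Real.log ‖ev (s (iota (bT t n)))‖) nu :=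
    (hnc.comp hbTc).integrable_of_hasCompactSupport (HasCompactSupport.of_compactSpace _)
  unfold integratedExponent mu
  rw [hemb.integral_map]
  have hpt : ∀ n, Real.log (absDet (fderiv ℝ (FF m N δ t) (rep (iota n))) (E (iota n))) =
      Real.log (rho N δ t s n) + Real.log ‖ev (s (iota (bT t n)))‖ -
        Real.log ‖ev (s (iota n))‖ := by
    intro n
    rw [hE, absDet_span _ _ (ev_ne _), (hS n).1, norm_smul, Real.norm_of_nonneg (hrpos n).le,
      Real.log_div, Real.log_mul]
    · exact (hrpos n).ne'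
    · exact (norm_pos_iff.mpr (ev_ne _)).ne'
    · exact (mul_pos (hrpos n) (norm_pos_iff.mpr (ev_ne _))).ne'
    · exact (norm_pos_iff.mpr (ev_ne _)).ne'
  simp_rw [hpt]
  have hcob : ∫ n, Real.log ‖ev (s (iota (bT t n)))‖ ∂nu = ∫ n, Real.log ‖ev (s (iota n))‖ ∂nu := by
    have := (hbT t).map_eq
    conv_rhs => rw [← this]
    rw [integral_map (hbTc.measurable.aemeasurable) hnc.aestronglyMeasurable]
  have e1 : ∫ n, (Real.log (rho N δ t s n) + Real.log ‖ev (s (iota (bT t n)))‖ -
        Real.log ‖ev (s (iota n))‖) ∂nu = ∫ n, (Real.log (rho N δ t s n) +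
        Real.log ‖ev (s (iota (bT t n)))‖) ∂nu - ∫ n, Real.log ‖ev (s (iota n))‖ ∂nu :=
    integral_sub (hint1.add hint3) hint2
  have e2 : ∫ n, (Real.log (rho N δ t s n) + Real.log ‖ev (s (iota (bT t n)))‖) ∂nu =
      ∫ n, Real.log (rho N δ t s n) ∂nu + ∫ n, Real.log ‖ev (s (iota (bT t n)))‖ ∂nu :=
    integral_add hint1 hint3
  rw [e1, e2, hcob]
  ring

end Pool.Agent.Q66.LE
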