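import Pool.Agent.Q66.LEa3

open Real Set MeasureTheory Filter Topology
open scoped ContDiff

noncomputable section

namespace Pool.Agent.Q66.LE


/-- the generating function of the correlations -/
def Gf (κ : ℝ) (t : ℝ) : ℝ := ∑' k : ℕ, κ ^ (2 * (k + 1)) * corr (k + 1) t

theorem corr_le (hmes : S_mes) (k : ℕ) (t : ℝ) : |corr k t| ≤ 1 := by
  obtain ⟨hprob, hbT, hic, hbc, hvc, hv1, -, -⟩ := hmes
  unfold corr
  rw [← Real.norm_eq_abs]
  refine (norm_integral_le_of_norm_le_const (C := 1) (Eventually.of_forall fun n => ?_)).trans ?_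
  · rw [norm_mul]
    exact mul_le_one₀ (hv1 n) (norm_nonneg _) (hv1 _)
  · simp

theorem summ_k {κ : ℝ} (h0 : 0 < κ) (h1 : κ ≤ 1 / 2) :
    Summable fun k : ℕ => κ ^ (2 * (k + 1)) := by
  have : (fun k : ℕ => κ ^ (2 * (k + 1))) = fun k : ℕ => κ ^ 2 * (κ ^ 2) ^ k := by
    funext k; rw [← pow_mul, ← pow_add]; congr 1; ring
  rw [this]
  exact (summable_geometric_of_lt_one (by positivity) (by nlinarith)).mul_left _

theorem Gf_term_le (hmes : S_mes) {κ : ℝ} (h0 : 0 < κ) (k : ℕ) (t : ℝ) :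
    ‖κ ^ (2 * (k + 1)) * corr (k + 1) t‖ ≤ κ ^ (2 * (k + 1)) := by
  rw [norm_mul, Real.norm_of_nonneg (by positivity), Real.norm_eq_abs]
  exact mul_le_of_le_one_right (by positivity) (corr_le hmes _ _)

theorem Gf_summable (hmes : S_mes) {κ : ℝ} (h0 : 0 < κ) (h1 : κ ≤ 1 / 2) (t : ℝ) :
    Summable fun k : ℕ => κ ^ (2 * (k + 1)) * corr (k + 1) t :=
  Summable.of_norm_bounded (summ_k h0 h1) fun k => Gf_term_le hmes h0 k t

theorem Gf_cont (hmes : S_mes) {κ : ℝ} (h0 : 0 < κ) (h1 : κ ≤ 1 / 2) : Continuous (Gf κ) := by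
  unfold Gf
  refine continuous_tsum (fun k => ?_) (summ_k h0 h1) fun k t => Gf_term_le hmes h0 k t
  exact continuous_const.mul (hmes.2.2.2.2.2.2.1 _)

theorem Gf_bound (hmes : S_mes) {κ : ℝ} (h0 : 0 < κ) (h1 : κ ≤ 1 / 2) (t : ℝ) :
    |Gf κ t| ≤ ∑' k : ℕ, κ ^ (2 * (k + 1)) := by
  unfold Gf
  rw [← Real.norm_eq_abs]
  exact tsum_of_norm_bounded (summ_k h0 h1).hasSum fun k => Gf_term_le hmes h0 k t

/-- `DD` commutes with the sum -/
theorem DD_Gf (hmes : S_mes) {κ : ℝ} (h0 : 0 < κ) (h1 : κ ≤ 1 / 2) (N : ℕ) (t : ℝ) :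
    HasSum (fun k : ℕ => κ ^ (2 * (k + 1)) * DD N (corr (k + 1)) t) (DD N (Gf κ) t) := by
  unfold DD
  have : (fun k : ℕ => κ ^ (2 * (k + 1)) * ∑ i ∈ Finset.range (N + 1), ∑ j ∈ Finset.range (N + 1),
      (-1 : ℝ) ^ (i + j) * (N.choose i : ℝ) * (N.choose j : ℝ) *
        corr (k + 1) (((i : ℝ) - (j : ℝ)) * t)) =
      fun k : ℕ => ∑ i ∈ Finset.range (N + 1), ∑ j ∈ Finset.range (N + 1),
      (-1 : ℝ) ^ (i + j) * (N.choose i : ℝ) * (N.choose j : ℝ) *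
        (κ ^ (2 * (k + 1)) * corr (k + 1) (((i : ℝ) - (j : ℝ)) * t)) := by
    funext k
    rw [Finset.mul_sum]
    refine Finset.sum_congr rfl fun i _ => ?_
    rw [Finset.mul_sum]
    refine Finset.sum_congr rfl fun j _ => ?_
    ring
  rw [this]
  refine hasSum_sum fun i _ => hasSum_sum fun j _ => ?_
  exact ((Gf_summable hmes h0 h1 _).hasSum).mul_left _

theorem DD_Gf_ge (hmes : S_mes) (hpos : S_pos) {κ : ℝ} (h0 : 0 < κ) (h1 : κ ≤ 1 / 2) (N : ℕ)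
    (t : ℝ) (k : ℕ) : κ ^ (2 * (k + 1)) * DD N (corr (k + 1)) t ≤ DD N (Gf κ) t := by
  have h := DD_Gf hmes h0 h1 N t
  rw [← h.tsum_eq]
  exact h.summable.le_tsum k fun j _ => mul_nonneg (by positivity) (hpos.1 N (j + 1) t)

end Pool.Agent.Q66.LE
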