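import Pool.Agent.Q66.LEa4

open Real Set MeasureTheory Filter Topology
open scoped ContDiff

noncomputable section

namespace Pool.Agent.Q66.LE


theorem exists_M {κ : ℝ} (h0 : 0 < κ) : ∃ M : ℕ, 1 ≤ M ∧ 4 ≤ (4 : ℝ) ^ (8 * M - 1) * κ ^ 32 := by
  have hk : 0 < κ ^ 32 := by positivity
  obtain ⟨n, hn⟩ := pow_unbounded_of_one_lt (4 / κ ^ 32) (by norm_num : (1:ℝ) < 4)
  refine ⟨n + 1, by omega, ?_⟩
  have h1 : (4:ℝ) ^ n ≤ 4 ^ (8 * (n + 1) - 1) := pow_le_pow_right₀ (by norm_num) (by omega)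
  have h2 : 4 / κ ^ 32 < (4:ℝ) ^ (8 * (n + 1) - 1) := lt_of_lt_of_le hn h1
  rw [div_lt_iff₀ hk] at h2
  exact h2.le

theorem num_contra {κ c C' t₁ : ℝ} (h0 : 0 < κ) (hc : 0 < c) (ht₁ : 0 < t₁) {M : ℕ} (hM1 : 1 ≤ M)
    (hM : 4 ≤ (4 : ℝ) ^ (8 * M - 1) * κ ^ 32)
    (h : ∀ r : ℕ, ∃ Λ t : ℝ, (4 : ℝ) ^ (r + 1) ≤ Λ ∧ 0 < t ∧ t ≤ 1 / Λ ∧
      (t ≤ t₁ → κ ^ (2 * qq r) * (c / (2 ^ (r + 1) * (qq r : ℝ) * Λ)) ≤ C' * t ^ (8 * M))) :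
    False := by
  have hlim : Tendsto (fun n : ℕ => (n : ℝ) * (1 / 2 : ℝ) ^ n) atTop (𝓝 0) :=
    tendsto_self_mul_const_pow_of_lt_one (by norm_num) (by norm_num)
  have hCp : 0 < |C'| + 1 := by positivity
  have he1 : ∀ᶠ n : ℕ in atTop, (n : ℝ) * (1 / 2 : ℝ) ^ n < c / (16 * (|C'| + 1)) :=
    hlim.eventually (gt_mem_nhds (by positivity))
  have he2 : ∀ᶠ n : ℕ in atTop, (1 / 4 : ℝ) ^ n < t₁ :=
    (tendsto_pow_atTop_nhds_zero_of_lt_one (by norm_num) (by norm_num)).eventually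
      (gt_mem_nhds ht₁)
  obtain ⟨R, hR1, hR2, hR3⟩ := (he1.and (he2.and (eventually_ge_atTop 1))).exists
  obtain ⟨r, rfl⟩ : ∃ r, R = r + 1 := ⟨R - 1, by omega⟩
  obtain ⟨Λ, t, hΛ, ht0, htΛ, hh⟩ := h r
  have h4pos : (0:ℝ) < 4 ^ (r + 1) := by positivity
  have hΛ0 : 0 < Λ := lt_of_lt_of_le h4pos hΛ
  have htt : t ≤ t₁ := by
    refine htΛ.trans (le_trans ?_ hR2.le)
    rw [one_div_pow]
    exact one_div_le_one_div_of_le h4pos hΛ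
  have hm := hh htt
  have hq : (qq r : ℝ) = 16 * ((r:ℝ) + 1) := by simp [qq]
  have h1 : C' * t ^ (8 * M) ≤ (|C'| + 1) * (1 / Λ) ^ (8 * M) := by
    apply mul_le_mul
    · linarith [le_abs_self C']
    · exact pow_le_pow_left₀ ht0.le htΛ _
    · positivity
    · positivity
  have h2 := hm.trans h1
  -- clear denominators
  have hΛp : (0:ℝ) < Λ ^ (8 * M) := by positivity
  have h3 : κ ^ (32 * (r + 1)) * c * Λ ^ (8 * M - 1) ≤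
      (|C'| + 1) * (2 ^ (r + 1) * (16 * ((r:ℝ) + 1))) := by
    have e1 : κ ^ (2 * qq r) * (c / (2 ^ (r + 1) * (qq r : ℝ) * Λ)) =
        κ ^ (32 * (r + 1)) * c / (2 ^ (r + 1) * (16 * ((r:ℝ) + 1)) * Λ) := by
      rw [hq, show 2 * qq r = 32 * (r + 1) by simp [qq]; ring, mul_div_assoc]
    rw [e1, one_div_pow, mul_one_div, div_le_div_iff₀ (by positivity) hΛp] at h2
    have e2 : Λ ^ (8 * M) = Λ ^ (8 * M - 1) * Λ := by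
      rw [← pow_succ]; congr 1; omega
    rw [e2] at h2
    have h4 : κ ^ (32 * (r + 1)) * c * Λ ^ (8 * M - 1) * Λ ≤
      (|C'| + 1) * (2 ^ (r + 1) * (16 * ((r:ℝ) + 1))) * Λ := by nlinarith [h2]
    exact le_of_mul_le_mul_right h4 hΛ0
  have h5 : (4:ℝ) ^ (r + 1) * c ≤ κ ^ (32 * (r + 1)) * c * Λ ^ (8 * M - 1) := by
    have e3 : ((4:ℝ) ^ (r + 1)) ^ (8 * M - 1) ≤ Λ ^ (8 * M - 1) :=
      pow_le_pow_left₀ h4pos.le hΛ _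
    have e4 : (4:ℝ) ^ (r + 1) ≤ ((4 : ℝ) ^ (8 * M - 1) * κ ^ 32) ^ (r + 1) :=
      pow_le_pow_left₀ (by norm_num) hM _
    have e5 : ((4 : ℝ) ^ (8 * M - 1) * κ ^ 32) ^ (r + 1) =
        ((4:ℝ) ^ (r + 1)) ^ (8 * M - 1) * κ ^ (32 * (r + 1)) := by
      rw [mul_pow, ← pow_mul, ← pow_mul, ← pow_mul, mul_comm (8 * M - 1) (r + 1)]
    have e6 : (4:ℝ) ^ (r + 1) ≤ Λ ^ (8 * M - 1) * κ ^ (32 * (r + 1)) := by
      refine e4.trans (e5.le.trans ?_)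
      exact mul_le_mul_of_nonneg_right e3 (by positivity)
    nlinarith [mul_le_mul_of_nonneg_right e6 hc.le]
  have h6 := h5.trans h3
  have e7 : (4:ℝ) ^ (r + 1) = 2 ^ (r + 1) * 2 ^ (r + 1) := by
    rw [← mul_pow]; norm_num
  rw [e7] at h6
  have h2p : (0:ℝ) < 2 ^ (r + 1) := by positivity
  have h7 : 2 ^ (r + 1) * c ≤ (|C'| + 1) * (16 * ((r:ℝ) + 1)) := by
    have : (2 ^ (r + 1) * c) * 2 ^ (r + 1) ≤ ((|C'| + 1) * (16 * ((r:ℝ) + 1))) * 2 ^ (r + 1) := by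
      nlinarith [h6]
    exact le_of_mul_le_mul_right this h2p
  have h8 : ((r + 1 : ℕ) : ℝ) * (1 / 2 : ℝ) ^ (r + 1) < c / (16 * (|C'| + 1)) := hR1
  rw [one_div_pow, mul_one_div, div_lt_div_iff₀ h2p (by positivity)] at h8
  push_cast at h8
  nlinarith [h7, h8]

end Pool.Agent.Q66.LE
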