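import Pool.Agent.Q66.LEa5
import Pool.Agent.Q66.LEDefs2

open Real Set MeasureTheory Filter Topology
open scoped ContDiff

noncomputable section

namespace Pool.Agent.Q66.LE


/-- the unit vector field -/
def ue (sl : ℝ → Tor 6 → ℝ) (t : ℝ) (p : Tor 6) : V 6 := ‖ev (sl t p)‖⁻¹ • ev (sl t p)

theorem ue_norm (sl : ℝ → Tor 6 → ℝ) (t : ℝ) (p : Tor 6) : ‖ue sl t p‖ = 1 := by
  have h := norm_pos_iff.mpr (ev_ne (sl t p))
  unfold ue
  rw [norm_smul, norm_inv, norm_norm, inv_mul_cancel₀ h.ne']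

theorem ue_span (sl : ℝ → Tor 6 → ℝ) (t : ℝ) (p : Tor 6) :
    Submodule.span ℝ {ue sl t p} = Submodule.span ℝ {(ev (sl t p) : V 6)} := by
  have h := norm_pos_iff.mpr (ev_ne (sl t p))
  exact Submodule.span_singleton_smul_eq (IsUnit.mk0 _ (inv_ne_zero h.ne')) _

theorem ue_cont (E₁ : ℝ → Tor 6 → Submodule ℝ (V 6)) (sl : ℝ → Tor 6 → ℝ)
    (h : ContinuousOn (fun q : ℝ × Tor 6 => (E₁ q.1 q.2).starProjection)
      (Ioo (-1 : ℝ) 1 ×ˢ univ))
    (hs : ∀ t ∈ Ioo (-1 : ℝ) 1, ∀ p, E₁ t p = Submodule.span ℝ {(ev (sl t p) : V 6)}) :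
    ContinuousOn (fun q : ℝ × Tor 6 => ue sl q.1 q.2) (Ioo (-1 : ℝ) 1 ×ˢ univ) := by
  set e5 : V 6 := WithLp.toLp 2 ![0, 0, 0, 0, 0, 1] with he5
  have hin : ∀ s : ℝ, inner ℝ (ev s) e5 = 1 := by
    intro s
    rw [PiLp.inner_apply, Fin.sum_univ_six]
    simp [ev, he5]
  have hP : ∀ q ∈ Ioo (-1 : ℝ) 1 ×ˢ (univ : Set (Tor 6)),
      (E₁ q.1 q.2).starProjection e5 = (‖ev (sl q.1 q.2)‖ ^ 2)⁻¹ • ev (sl q.1 q.2) := by
    rintro ⟨t, p⟩ ⟨ht, -⟩
    simp only
    rw [show (E₁ t p).starProjection = (Submodule.span ℝ {(ev (sl t p) : V 6)}).starProjection by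
      simp only [hs t ht p], Submodule.starProjection_singleton, hin, one_div]
    rfl
  have hc : ContinuousOn (fun q : ℝ × Tor 6 => (E₁ q.1 q.2).starProjection e5)
      (Ioo (-1 : ℝ) 1 ×ˢ univ) := h.clm_apply continuousOn_const
  have hu : ∀ q ∈ Ioo (-1 : ℝ) 1 ×ˢ (univ : Set (Tor 6)), ue sl q.1 q.2 =
      ‖(E₁ q.1 q.2).starProjection e5‖⁻¹ • (E₁ q.1 q.2).starProjection e5 := by
    intro q hq
    rw [hP q hq]
    have h0 := norm_pos_iff.mpr (ev_ne (sl q.1 q.2))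
    unfold ue
    rw [norm_smul, norm_inv, norm_pow, norm_norm, smul_smul]
    congr 1
    field_simp
  refine ContinuousOn.congr ?_ hu
  refine ContinuousOn.smul (hc.norm.inv₀ ?_) hc
  intro q hq
  rw [hP q hq]
  have h0 := norm_pos_iff.mpr (ev_ne (sl q.1 q.2))
  rw [norm_smul, norm_inv, norm_pow, norm_norm]
  positivity

/-- Final statement: a smooth family of diffeomorphisms of a torus, with common invariant
probability measure and dominated splitting, whose integrated exponent is not smooth at `0`. -/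
def Final : Prop :=
  ∃ (d : ℕ) (Φ : TorusFamily d) (μ : Measure (Tor d)) (e : ℝ → Tor d → V d)
    (E₂ : ℝ → Tor d → Submodule ℝ (V d)),
    IsProbabilityMeasure μ ∧
    (∀ t ∈ Ioo (-1 : ℝ) 1, MeasurePreserving (Φ.f t) μ μ) ∧
    SplittingFamily proj Φ.F e E₂ ∧
    ∃ k : ℕ, ¬ ContDiffAt ℝ (k : ℕ∞) (fun t => lineExponent (Φ.F t) rep (e t) μ) 0

theorem final_of (hfam : S_fam) (hblk : S_blk) (hmes : S_mes) (hsplit : S_split) (hexp : S_exp)
    (hcalc : S_calc) (hpos : S_pos) : Final := by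
  obtain ⟨m, hm, δ, hδ0, hδ4, hN⟩ := hsplit
  have hmR : (4:ℝ) ≤ m := by exact_mod_cast hm
  -- the eigenvalue κ
  obtain ⟨κ, hκ0, hκ2, hκe⟩ : ∃ κ : ℝ, 0 < κ ∧ κ ≤ 1 / 2 ∧ κ ^ 2 - (m : ℝ) * κ + 1 = 0 := by
    have hd : 0 ≤ (m:ℝ) ^ 2 - 4 := by nlinarith
    have hs := Real.sq_sqrt hd
    have hs0 := Real.sqrt_nonneg ((m:ℝ) ^ 2 - 4)
    refine ⟨((m:ℝ) - Real.sqrt ((m:ℝ) ^ 2 - 4)) / 2, ?_, ?_, ?_⟩
    · have : Real.sqrt ((m:ℝ) ^ 2 - 4) < m := by
        rw [Real.sqrt_lt' (by linarith)]; linarith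
      linarith
    · have : (m:ℝ) - 1 ≤ Real.sqrt ((m:ℝ) ^ 2 - 4) := by
        apply Real.le_sqrt_of_sq_le; nlinarith
      linarith
    · nlinarith
  obtain ⟨C, c₁, c₂, hc₂, hE⟩ := hexp m hm κ hκ0 hκ2 hκe
  obtain ⟨M, hM1, hM⟩ := exists_M hκ0
  obtain ⟨E₁, E₂, sl, hdom, hco1, hco2, hspan, hslc, hsl4⟩ := hN (4 * M) (by omega)
  obtain ⟨hsF, hsG, hGF, hFG, hlF, hlG, -, -⟩ := hfam m (4 * M) δ
  have hmes' := hmes
  obtain ⟨hprob, hbT, hic, hbc, hvc, hv1, hcc, hio⟩ := hmes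
  let Φ : TorusFamily 6 :=
    { f := fT m (4 * M) δ
      g := gT m (4 * M) δ
      F := FF m (4 * M) δ
      G := GG m (4 * M) δ
      lift_f := fun t _ x => hlF t x
      lift_g := fun t _ x => hlG t x
      smooth_F := hsF.contDiffOn
      smooth_G := hsG.contDiffOn
      left_inv := fun t _ x => hGF t x
      right_inv := fun t _ x => hFG t x }
  have hbTc : ∀ t, Continuous (bT t) := fun t => hbc.comp (continuous_const.prodMk continuous_id)
  refine ⟨6, Φ, mu, ue sl, E₂, ?_, ?_, ⟨fun t _ p => ue_norm sl t p, ?_,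
    ue_cont E₁ sl hco1 hspan, hco2⟩, 6 * (4 * M), ?_⟩
  · exact Measure.isProbabilityMeasure_map hic.measurable.aemeasurable
  · intro t _
    have hfm : Measurable (fT m (4 * M) δ t) := by
      have h := (hfam m (4 * M) δ).2.2.2.2.2.2.1
      exact (h.comp (continuous_const.prodMk continuous_id)).measurable
    refine ⟨hfm, ?_⟩
    change Measure.map (fT m (4 * M) δ t) (Measure.map iota nu) = Measure.map iota nu
    rw [Measure.map_map hfm hic.measurable]
    have : fT m (4 * M) δ t ∘ iota = iota ∘ bT t := funext fun n => hio m (4 * M) δ t n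
    rw [this, ← Measure.map_map hic.measurable (hbTc t).measurable, (hbT t).map_eq]
  · intro t ht
    have h := hdom t ht
    have h1 : (fun p => Submodule.span ℝ {ue sl t p}) = E₁ t := by
      funext p; rw [ue_span]; exact (hspan t ht p).symm
    rw [h1]
    exact ⟨h.compl, h.cont₁, h.cont₂, h.inv₁, h.inv₂, h.dom⟩
  · intro hcd0
    -- expansion of the exponent
    set lam : ℝ → ℝ := fun t => integratedExponent (Φ.F t) (E₁ t) mu with hlam
    have hev : (fun t => lineExponent (Φ.F t) rep (ue sl t) mu) =ᶠ[𝓝 0] lam := by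
      have hn : Ioo (-1:ℝ) 1 ∈ 𝓝 (0:ℝ) := Ioo_mem_nhds (by norm_num) (by norm_num)
      filter_upwards [hn] with t ht
      rw [hlam]
      simp only
      unfold lineExponent integratedExponent
      congr 1
      funext p
      have hE : E₁ t p = Submodule.span ℝ {(ev (sl t p) : V 6)} := hspan t ht p
      rw [hE, absDet_span _ _ (ev_ne _)]
      unfold ue
      rw [map_smul, norm_smul, norm_inv, norm_norm, div_eq_inv_mul]
    have hcd : ContDiffAt ℝ ((6 * (4 * M) : ℕ) : ℕ∞) lam 0 := hcd0.congr_of_eventuallyEq hev.symm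
    set I1 : ℝ := ∫ n, vB n ∂nu with hI1
    set I2 : ℝ := ∫ n, vB n ^ 2 ∂nu with hI2
    have hkey : ∀ t ∈ Ioo (-1 : ℝ) 1,
        |lam t - (Real.log κ + (c₁ * δ * I1) * t ^ (2 * (4 * M)) +
          (2 * c₂ * δ ^ 2) * t ^ (4 * (4 * M)) * (I2 / 2 + Gf κ t))| ≤
          (C * δ ^ 3) * t ^ (6 * (4 * M)) := by
      intro t ht
      have hE1 : ∀ p, E₁ t p = Submodule.span ℝ {(ev (sl t p) : V 6)} := hspan t ht
      have hlt : lam t = ∫ n, Real.log (rho (4 * M) δ t (sl t) n) ∂nu :=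
        exponent_eq hblk hfam hmes' m (4 * M) hm δ t (E₁ t) (sl t) (hslc t ht) (hsl4 t ht) hE1
          (hdom t ht).inv₁
      have hS := slope_eq hblk hfam hmes' m (4 * M) δ t (E₁ t) (sl t) hE1 (hdom t ht).inv₁
      have hrc : Continuous (rho (4 * M) δ t (sl t)) := by
        unfold rho; exact ((hslc t ht).comp hic).add (continuous_const.mul hvc)
      have htp : t ^ (2 * (4 * M)) ≤ 1 := by
        rw [pow_mul]
        exact pow_le_one₀ (sq_nonneg t) (by nlinarith [ht.1, ht.2])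
      have htp0 : 0 ≤ t ^ (2 * (4 * M)) := by rw [pow_mul]; positivity
      have hep0 : 0 ≤ ep (4 * M) δ t := mul_nonneg hδ0.le htp0
      have hep4 : ep (4 * M) δ t ≤ 1 / 4 := by
        unfold ep; nlinarith
      have hr2 : ∀ n, |rho (4 * M) δ t (sl t) n| ≤ 1 / 2 := by
        intro n
        unfold rho
        refine (abs_add_le _ _).trans ?_
        have a1 := hsl4 t ht (iota n)
        have a2 : |ep (4 * M) δ t * vB n| ≤ 1 / 4 := by
          rw [abs_mul, abs_of_nonneg hep0]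
          calc ep (4 * M) δ t * |vB n| ≤ 1 / 4 * 1 :=
                mul_le_mul hep4 (hv1 n) (abs_nonneg _) (by norm_num)
            _ = 1 / 4 := by norm_num
        linarith
      have hrel : ∀ n, rho (4 * M) δ t (sl t) n *
          ((m : ℝ) + ep (4 * M) δ t * vB (bT t n) - rho (4 * M) δ t (sl t) (bT t n)) = 1 := by
        intro n
        have h2 := (hS n).2
        rw [show (m : ℝ) + ep (4 * M) δ t * vB (bT t n) - rho (4 * M) δ t (sl t) (bT t n) =
          (m : ℝ) - sl t (iota (bT t n)) by simp only [rho]; ring]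
        exact h2
      have hmain := hE Bs nu (bT t) (hbT t) vB (rho (4 * M) δ t (sl t)) hvc.measurable
        hrc.measurable hv1 hr2 (ep (4 * M) δ t) hep0 hep4 hrel
      have hG : ∑' k : ℕ, κ ^ (2 * (k + 1)) * ∫ o, vB o * vB ((bT t)^[k + 1] o) ∂nu = Gf κ t := rfl
      rw [hG, ← hlt] at hmain
      have e2 : t ^ (4 * (4 * M)) = (t ^ (2 * (4 * M))) ^ 2 := by
        rw [← pow_mul]; congr 1; ring
      have e3 : t ^ (6 * (4 * M)) = (t ^ (2 * (4 * M))) ^ 3 := by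
        rw [← pow_mul]; congr 1; ring
      rw [e2, e3]
      have e4 : Real.log κ + c₁ * δ * I1 * t ^ (2 * (4 * M)) +
          2 * c₂ * δ ^ 2 * (t ^ (2 * (4 * M))) ^ 2 * (I2 / 2 + Gf κ t) =
          Real.log κ + c₁ * ep (4 * M) δ t * I1 + c₂ * ep (4 * M) δ t ^ 2 *
            (I2 + 2 * Gf κ t) := by
        unfold ep; ring
      have e5 : C * δ ^ 3 * (t ^ (2 * (4 * M))) ^ 3 = C * ep (4 * M) δ t ^ 3 := by
        unfold ep; ring
      rw [e4, e5]
      exact hmain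
    obtain ⟨C', t₁, ht₁, hD⟩ := hcalc (4 * M) (by omega) lam (Gf κ) (Real.log κ) (c₁ * δ * I1)
      (2 * c₂ * δ ^ 2) (I2 / 2) (C * δ ^ 3) (∑' k : ℕ, κ ^ (2 * (k + 1))) (by positivity) hcd
      (Gf_bound hmes' hκ0 hκ2) (Gf_cont hmes' hκ0 hκ2).continuousAt hkey
    obtain ⟨hp1, hp2⟩ := id hpos
    obtain ⟨c, hc, hlow⟩ := hp2 M hM1
    refine num_contra hκ0 hc ht₁ hM1 hM (C' := C') fun r => ?_
    obtain ⟨Λ, t, hΛ, ht0, htΛ, hl⟩ := hlow r
    refine ⟨Λ, t, hΛ, ht0, htΛ, fun htt => ?_⟩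
    have h1 := DD_Gf_ge hmes' hpos hκ0 hκ2 (4 * M) t (qq r - 1)
    have hq : qq r - 1 + 1 = qq r := by unfold qq; omega
    rw [hq] at h1
    have h2 := hD t (by rw [abs_of_pos ht0]; exact htt)
    have h3 : κ ^ (2 * qq r) * (c / (2 ^ (r + 1) * (qq r : ℝ) * Λ)) ≤
        κ ^ (2 * qq r) * DD (4 * M) (corr (qq r)) t :=
      mul_le_mul_of_nonneg_left hl (by positivity)
    have h4 : 2 * (4 * M) = 8 * M := by ring
    rw [h4] at h2
    exact (h3.trans h1).trans ((le_abs_self _).trans h2)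

end Pool.Agent.Q66.LE
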