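import Pool.Agent.Q66.LEj3b

/-! J2a: block form of the derivative. -/

open Real Set MeasureTheory Filter Topology
open scoped ContDiff

noncomputable section

namespace Pool.Agent.Q66.LE


abbrev R4 := Fin 4 → ℝ

/-- base map -/
def bb (t : ℝ) (n : R4) : R4 :=
  ![n 0 + n 1, n 1, (fib t (n 0) (n 2, n 3)).1, (fib t (n 0) (n 2, n 3)).2]

/-- inverse of the base map -/
def bi (t : ℝ) (n : R4) : R4 :=
  ![n 0 - n 1, n 1, (fibInv t (n 0 - n 1) (n 2, n 3)).1, (fibInv t (n 0 - n 1) (n 2, n 3)).2]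

/-- coupling function -/
def ww (n : R4) : ℝ := v1 (n 0) * cos (2 * π * n 2)

theorem sm_c4 (i : Fin 4) : ContDiff ℝ ∞ fun q : ℝ × R4 => q.2 i :=
  (contDiff_apply ℝ ℝ i).comp contDiff_snd

theorem sm_bb : ContDiff ℝ ∞ fun q : ℝ × R4 => bb q.1 q.2 := by
  have hf : ContDiff ℝ ∞ fun q : ℝ × R4 => fib q.1 (q.2 0) (q.2 2, q.2 3) :=
    sm_fib contDiff_fst (sm_c4 0) ((sm_c4 2).prodMk (sm_c4 3))
  rw [contDiff_pi]
  intro i
  fin_cases i
  · exact (sm_c4 0).add (sm_c4 1)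
  · exact sm_c4 1
  · exact contDiff_fst.comp hf
  · exact contDiff_snd.comp hf

theorem sm_bi : ContDiff ℝ ∞ fun q : ℝ × R4 => bi q.1 q.2 := by
  have hf : ContDiff ℝ ∞ fun q : ℝ × R4 => fibInv q.1 (q.2 0 - q.2 1) (q.2 2, q.2 3) :=
    sm_fibInv contDiff_fst ((sm_c4 0).sub (sm_c4 1)) ((sm_c4 2).prodMk (sm_c4 3))
  rw [contDiff_pi]
  intro i
  fin_cases i
  · exact (sm_c4 0).sub (sm_c4 1)
  · exact sm_c4 1
  · exact contDiff_fst.comp hf
  · exact contDiff_snd.comp hf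

theorem sm_bbt (t : ℝ) : ContDiff ℝ ∞ (bb t) :=
  sm_bb.comp (contDiff_const.prodMk contDiff_id)

theorem sm_bit (t : ℝ) : ContDiff ℝ ∞ (bi t) :=
  sm_bi.comp (contDiff_const.prodMk contDiff_id)

theorem sm_ww : ContDiff ℝ ∞ ww := by
  unfold ww
  exact (smooth_v1.comp (contDiff_apply ℝ ℝ 0)).mul
    (Real.contDiff_cos.comp (contDiff_const.mul (contDiff_apply ℝ ℝ 2)))

theorem bi_bb (t : ℝ) (n : R4) : bi t (bb t n) = n := by
  have f0 : bb t n 0 = n 0 + n 1 := rfl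
  have f1 : bb t n 1 = n 1 := rfl
  have f2 : bb t n 2 = (fib t (n 0) (n 2, n 3)).1 := rfl
  have f3 : bb t n 3 = (fib t (n 0) (n 2, n 3)).2 := rfl
  have e0 : n 0 + n 1 - n 1 = n 0 := by ring
  unfold bi
  rw [f0, f1, f2, f3, e0, Prod.mk.eta, fibInv_fib]
  funext i
  fin_cases i <;> rfl

theorem bb_bi (t : ℝ) (n : R4) : bb t (bi t n) = n := by
  have f0 : bi t n 0 = n 0 - n 1 := rfl
  have f1 : bi t n 1 = n 1 := rfl
  have f2 : bi t n 2 = (fibInv t (n 0 - n 1) (n 2, n 3)).1 := rfl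
  have f3 : bi t n 3 = (fibInv t (n 0 - n 1) (n 2, n 3)).2 := rfl
  have e0 : n 0 - n 1 + n 1 = n 0 := by ring
  unfold bb
  rw [f0, f1, f2, f3, e0, Prod.mk.eta, fib_fibInv]
  funext i
  fin_cases i <;> rfl

/-- derivative of the base map -/
def D4 (t : ℝ) (n : R4) : R4 →L[ℝ] R4 := fderiv ℝ (bb t) n
/-- its inverse -/
def I4 (t : ℝ) (n : R4) : R4 →L[ℝ] R4 := fderiv ℝ (bi t) (bb t n)

theorem I4_D4 (t : ℝ) (n w : R4) : I4 t n (D4 t n w) = w := by
  have h1 : HasFDerivAt (bb t) (D4 t n) n :=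
    ((sm_bbt t).differentiable (by simp) n).hasFDerivAt
  have h2 : HasFDerivAt (bi t) (I4 t n) (bb t n) :=
    ((sm_bit t).differentiable (by simp) (bb t n)).hasFDerivAt
  have h3 := h2.comp n h1
  have h4 : bi t ∘ bb t = id := funext fun n => bi_bb t n
  rw [h4] at h3
  have h5 := h3.unique (hasFDerivAt_id n)
  exact congrArg (fun L : R4 →L[ℝ] R4 => L w) h5

theorem D4_I4 (t : ℝ) (n w : R4) : D4 t n (I4 t n w) = w := by
  have h1 : HasFDerivAt (bb t) (D4 t n) (bi t (bb t n)) := by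
    rw [bi_bb]; exact ((sm_bbt t).differentiable (by simp) n).hasFDerivAt
  have h2 : HasFDerivAt (bi t) (I4 t n) (bb t n) :=
    ((sm_bit t).differentiable (by simp) (bb t n)).hasFDerivAt
  have h3 := h1.comp (bb t n) h2
  have h4 : bb t ∘ bi t = id := funext fun n => bb_bi t n
  rw [h4] at h3
  have h5 := h3.unique (hasFDerivAt_id _)
  exact congrArg (fun L : R4 →L[ℝ] R4 => L w) h5

theorem cont_D4 : Continuous fun q : ℝ × R4 => D4 q.1 q.2 := by
  have h : ContDiff ℝ 0 fun q : ℝ × R4 => fderiv ℝ (bb q.1) q.2 :=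
    ContDiff.fderiv (m := ∞) (f := fun (q : ℝ × R4) (n : R4) => bb q.1 n) (g := fun q => q.2)
      (sm_bb.comp ((contDiff_fst.comp contDiff_fst).prodMk contDiff_snd)) contDiff_snd (by simp)
  exact h.continuous

theorem cont_I4 : Continuous fun q : ℝ × R4 => I4 q.1 q.2 := by
  have h : ContDiff ℝ 0 fun q : ℝ × R4 => fderiv ℝ (bi q.1) (bb q.1 q.2) :=
    ContDiff.fderiv (m := ∞) (f := fun (q : ℝ × R4) (n : R4) => bi q.1 n)
      (g := fun q => bb q.1 q.2)
      (sm_bi.comp ((contDiff_fst.comp contDiff_fst).prodMk contDiff_snd))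
      (sm_bb.of_le (by simp)) (by simp)
  exact h.continuous

/-! periodicity -/

theorem pp_int (x : ℝ) (k : ℤ) : pp (x + k) = pp x := by
  have := per_pp.int_mul k x
  rwa [mul_one] at this
theorem c1_int (x : ℝ) (k : ℤ) : c1 (x + k) = c1 x := by
  have := per_c1.int_mul k x
  rwa [mul_one] at this
theorem c2_int (x : ℝ) (k : ℤ) : c2 (x + k) = c2 x := by
  have := per_c2.int_mul k x
  rwa [mul_one] at this
theorem al_int (x : ℝ) (k : ℤ) : al (x + k) = al x := by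
  have := per_al.int_mul k x
  rwa [mul_one] at this
theorem v1_int (x : ℝ) (k : ℤ) : v1 (x + k) = v1 x := by
  have := per_v1.int_mul k x
  rwa [mul_one] at this
theorem cos_int (x : ℝ) (k : ℤ) : cos (2 * π * (x + k)) = cos (2 * π * x) := by
  have := per_cosf.int_mul k x
  rwa [mul_one] at this

/-- integer shift of the plane -/
def sh (k l : ℤ) (y : ℝ × ℝ) : ℝ × ℝ := (y.1 + k, y.2 + l)

theorem U_sh (c : ℝ) (k l : ℤ) (y : ℝ × ℝ) : U c (sh k l y) = sh k l (U c y) := by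
  unfold U sh; simp only [pp_int]; refine Prod.ext ?_ rfl; simp only []; ring
theorem Lo_sh (c : ℝ) (k l : ℤ) (y : ℝ × ℝ) : Lo c (sh k l y) = sh k l (Lo c y) := by
  unfold Lo sh; simp only [pp_int]; refine Prod.ext rfl ?_; simp only []; ring
theorem psi_sh (c : ℝ) (k l : ℤ) (y : ℝ × ℝ) : psi c (sh k l y) = sh k l (psi c y) := by
  unfold psi; rw [U_sh, Lo_sh, U_sh, Lo_sh]
theorem psiInv_sh (c : ℝ) (k l : ℤ) (y : ℝ × ℝ) : psiInv c (sh k l y) = sh k l (psiInv c y) := by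
  unfold psiInv; rw [Lo_sh, U_sh, Lo_sh, U_sh]
theorem fib_sh (t x : ℝ) (j k l : ℤ) (y : ℝ × ℝ) :
    fib t (x + j) (sh k l y) = sh k l (fib t x y) := by
  unfold fib
  rw [c1_int, c2_int, al_int, psiInv_sh]
  have : (((sh k l (psiInv (1 + c1 x) y)).1 + t * al x, (sh k l (psiInv (1 + c1 x) y)).2) : ℝ × ℝ) =
      sh k l ((psiInv (1 + c1 x) y).1 + t * al x, (psiInv (1 + c1 x) y).2) := by
    unfold sh; refine Prod.ext ?_ rfl; simp only []; ring
  rw [this, psi_sh]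

theorem bb_int (t : ℝ) (n : R4) (k : Fin 4 → ℤ) :
    bb t (n + fun i => (k i : ℝ)) = bb t n + ![(k 0 : ℝ) + k 1, k 1, k 2, k 3] := by
  have h := fib_sh t (n 0) (k 0) (k 2) (k 3) (n 2, n 3)
  funext i
  fin_cases i
  · change n 0 + (k 0 : ℝ) + (n 1 + (k 1 : ℝ)) = n 0 + n 1 + ((k 0 : ℝ) + k 1)
    ring
  · rfl
  · exact congrArg Prod.fst h
  · exact congrArg Prod.snd h

theorem D4_int (t : ℝ) (n : R4) (k : Fin 4 → ℤ) : D4 t (n + fun i => (k i : ℝ)) = D4 t n := by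
  have h1 : HasFDerivAt (fun m => bb t (m + fun i => (k i : ℝ)))
      (D4 t (n + fun i => (k i : ℝ))) n := by
    have h := ((sm_bbt t).differentiable (by simp) (n + fun i => (k i : ℝ))).hasFDerivAt
    have h' := h.comp n ((hasFDerivAt_id n).add_const (fun i => (k i : ℝ)))
    rw [ContinuousLinearMap.comp_id] at h'
    exact h'
  have h2 : HasFDerivAt (fun m => bb t (m + fun i => (k i : ℝ))) (D4 t n) n := by
    have h := ((sm_bbt t).differentiable (by simp) n).hasFDerivAt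
    have h3 := h.add_const (![(k 0 : ℝ) + k 1, k 1, k 2, k 3] : R4)
    simp_rw [bb_int]
    exact h3
  exact h1.unique h2

theorem ww_int (n : R4) (k : Fin 4 → ℤ) : ww (n + fun i => (k i : ℝ)) = ww n := by
  unfold ww
  change v1 (n 0 + (k 0 : ℝ)) * cos (2 * π * (n 2 + (k 2 : ℝ))) = _
  rw [v1_int, cos_int]

theorem Dww_int (n : R4) (k : Fin 4 → ℤ) :
    fderiv ℝ ww (n + fun i => (k i : ℝ)) = fderiv ℝ ww n := by
  have h1 : HasFDerivAt (fun m => ww (m + fun i => (k i : ℝ)))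
      (fderiv ℝ ww (n + fun i => (k i : ℝ))) n := by
    have h := (sm_ww.differentiable (by simp) (n + fun i => (k i : ℝ))).hasFDerivAt
    have h' := h.comp n ((hasFDerivAt_id n).add_const (fun i => (k i : ℝ)))
    rw [ContinuousLinearMap.comp_id] at h'
    exact h'
  have h2 : HasFDerivAt (fun m => ww (m + fun i => (k i : ℝ))) (fderiv ℝ ww n) n := by
    simp_rw [ww_int]
    exact (sm_ww.differentiable (by simp) n).hasFDerivAt
  exact h1.unique h2

theorem I4_int (t : ℝ) (n : R4) (k : Fin 4 → ℤ) : I4 t (n + fun i => (k i : ℝ)) = I4 t n := by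
  ext1 w
  have h1 := D4_I4 t (n + fun i => (k i : ℝ)) w
  rw [D4_int] at h1
  have h2 := congrArg (I4 t n) h1
  rwa [I4_D4] at h2

end Pool.Agent.Q66.LE
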