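import Pool.Agent.Q66.LEj2a

/-! J2a, second part: the statement `S_blk`. -/

open Real Set MeasureTheory Filter Topology
open scoped ContDiff

noncomputable section

namespace Pool.Agent.Q66.LE


theorem oq_proj {d : ℕ} : IsOpenQuotientMap (proj : V d → Tor d) := by
  have h1 : IsOpenQuotientMap (Pi.map (fun _ : Fin d => ((↑) : ℝ → UnitAddCircle))) :=
    IsOpenQuotientMap.piMap fun _ => QuotientAddGroup.isOpenQuotientMap_mk
  have h2 : IsOpenQuotientMap (fun x : V d => (WithLp.ofLp x : Fin d → ℝ)) := by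
    exact (PiLp.homeomorph 2 (fun _ : Fin d => ℝ)).isOpenQuotientMap
  exact h1.comp h2

/-- first four coordinates of the representative -/
def rep4 (p : Tor 6) : R4 := pr4 (rep p)

/-- a point over the same torus point differs by integers -/
theorem rep4_proj (x : V 6) : ∃ k : Fin 4 → ℤ, rep4 (proj x) = pr4 x + fun i => (k i : ℝ) := by
  have h : ∀ i : Fin 6, ∃ k : ℤ, rep (proj x) i = x i + k := by
    intro i
    have h1 : ((rep (proj x) i : ℝ) : UnitAddCircle) = ((x i : ℝ) : UnitAddCircle) := by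
      have h2 : proj (rep (proj x)) = proj x := by
        funext i
        simp only [proj, rep]
        exact AddCircle.coe_equivIco
      exact congrFun h2 i
    have h3 : ((rep (proj x) i - x i : ℝ) : UnitAddCircle) = 0 := by
      rw [AddCircle.coe_sub, h1, sub_self]
    rw [AddCircle.coe_eq_zero_iff] at h3
    obtain ⟨n, hn⟩ := h3
    refine ⟨n, ?_⟩
    rw [zsmul_eq_mul, mul_one] at hn
    linarith
  obtain ⟨k0, h0⟩ := h 0
  obtain ⟨k1, h1⟩ := h 1
  obtain ⟨k2, h2⟩ := h 2
  obtain ⟨k3, h3⟩ := h 3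
  refine ⟨![k0, k1, k2, k3], ?_⟩
  funext i
  fin_cases i
  · exact h0
  · exact h1
  · exact h2
  · exact h3

def pr4L : V 6 →L[ℝ] R4 :=
  ContinuousLinearMap.pi ![EuclideanSpace.proj 0, EuclideanSpace.proj 1, EuclideanSpace.proj 2,
    EuclideanSpace.proj 3]

theorem pr4L_apply (x : V 6) : pr4L x = pr4 x := by
  funext i
  fin_cases i <;> rfl

theorem continuous_pr4 : Continuous pr4 := by
  have : pr4 = fun x => pr4L x := funext fun x => (pr4L_apply x).symm
  rw [this]; exact pr4L.continuous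

/-- descent of periodic continuous functions -/
theorem descend {Y : Type*} [TopologicalSpace Y] (g : ℝ → R4 → Y)
    (hg : Continuous fun q : ℝ × R4 => g q.1 q.2)
    (hp : ∀ t n (k : Fin 4 → ℤ), g t (n + fun i => (k i : ℝ)) = g t n) :
    Continuous fun q : ℝ × Tor 6 => g q.1 (rep4 q.2) := by
  have hq : IsOpenQuotientMap (Prod.map (id : ℝ → ℝ) (proj : V 6 → Tor 6)) :=
    IsOpenQuotientMap.id.prodMap oq_proj
  rw [← hq.continuous_comp_iff]
  have : (fun q : ℝ × Tor 6 => g q.1 (rep4 q.2)) ∘ Prod.map (id : ℝ → ℝ) (proj : V 6 → Tor 6) =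
      fun q : ℝ × V 6 => g q.1 (pr4 q.2) := by
    funext q
    obtain ⟨k, hk⟩ := rep4_proj q.2
    change g q.1 (rep4 (proj q.2)) = _
    rw [hk, hp]
  rw [this]
  exact hg.comp (continuous_fst.prodMk (continuous_pr4.comp continuous_snd))

theorem blk : S_blk := by
  -- definitions
  set Bd : ℝ → Tor 6 → (R4 →L[ℝ] R4) := fun t p => D4 t (rep4 p) with hBd
  set Bi : ℝ → Tor 6 → (R4 →L[ℝ] R4) := fun t p => I4 t (rep4 p) with hBi
  set h5 : Tor 6 → ℝ := fun p => v1T (p 0) * cosT (p 2) * cosT (p 5) with hh5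
  set hw : Tor 6 → (R4 →L[ℝ] ℝ) := fun p => (sinT (p 5) / (2 * π)) • fderiv ℝ ww (rep4 p) with hhw
  have cBd : Continuous fun q : ℝ × Tor 6 => Bd q.1 q.2 :=
    descend (fun t n => D4 t n) cont_D4 D4_int
  have cBi : Continuous fun q : ℝ × Tor 6 => Bi q.1 q.2 :=
    descend (fun t n => I4 t n) cont_I4 I4_int
  have ca : ∀ i : Fin 6, Continuous fun p : Tor 6 => p i := fun i => continuous_apply i
  have ch5 : Continuous h5 :=
    ((continuous_v1T.comp (ca 0)).mul (continuous_cosT.comp (ca 2))).mul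
      (continuous_cosT.comp (ca 5))
  have cDw : Continuous fun p : Tor 6 => fderiv ℝ ww (rep4 p) := by
    have h := descend (fun _ n => fderiv ℝ ww n)
      ((sm_ww.continuous_fderiv (by simp)).comp continuous_snd) (fun _ n k => Dww_int n k)
    have h0 : Continuous fun p : Tor 6 => ((0:ℝ), p) := by fun_prop
    exact h.comp h0
  have chw : Continuous hw := ((continuous_sinT.comp (ca 5)).div_const _).smul cDw
  obtain ⟨K1, hK1⟩ := (isCompact_Icc.prod isCompact_univ :
    IsCompact (Icc (-1:ℝ) 1 ×ˢ (univ : Set (Tor 6)))).exists_bound_of_continuousOn cBi.continuousOn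
  obtain ⟨K2, hK2⟩ := (isCompact_univ : IsCompact (univ : Set (Tor 6))).exists_bound_of_continuousOn
    chw.continuousOn
  refine ⟨max 1 (max K1 K2), le_max_left _ _, Bd, Bi, h5, hw, cBd, cBi, ch5, chw, ?_, ?_, ?_, ?_, ?_,
    ?_⟩
  · intro t p w; exact D4_I4 t (rep4 p) w
  · intro t p w; exact I4_D4 t (rep4 p) w
  · intro t ht p
    exact (hK1 (t, p) ⟨ht, mem_univ _⟩).trans ((le_max_left _ _).trans (le_max_right _ _))
  · intro p
    have hv : |v1T (p 0)| ≤ 1 := by
      have key : ∀ z : UnitAddCircle, |v1T z| ≤ 1 := by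
        intro z
        induction z using QuotientAddGroup.induction_on with
        | H a =>
          change |v1 a| ≤ 1
          rw [abs_of_nonneg (v1_nonneg _)]; exact v1_le_one _
      exact key _
    rw [hh5]
    simp only
    rw [abs_mul, abs_mul]
    exact mul_le_one₀ (mul_le_one₀ hv (abs_nonneg _) (cosT_le _)) (abs_nonneg _) (cosT_le _)
  · intro p
    exact (hK2 p (mem_univ _)).trans ((le_max_right _ _).trans (le_max_right _ _))
  · intro m N δ t x h
    have hFt : ContDiff ℝ ∞ (FF m N δ t) := by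
      have := (sm_FF m N δ).comp (contDiff_const.prodMk contDiff_id : ContDiff ℝ ∞ fun x : V 6 => (t, x))
      exact this
    have hF : HasFDerivAt (FF m N δ t) (fderiv ℝ (FF m N δ t) x) x :=
      (hFt.differentiable (by simp) x).hasFDerivAt
    have hco : ∀ i : Fin 6, HasFDerivAt (fun y => FF m N δ t y i)
        ((EuclideanSpace.proj i : V 6 →L[ℝ] ℝ).comp (fderiv ℝ (FF m N δ t) x)) x := fun i =>
      (EuclideanSpace.proj (𝕜 := ℝ) i).hasFDerivAt.comp x hF
    have hxi : ∀ i : Fin 6, HasFDerivAt (fun y : V 6 => y i) (EuclideanSpace.proj i : V 6 →L[ℝ] ℝ) x :=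
      fun i => (EuclideanSpace.proj (𝕜 := ℝ) i).hasFDerivAt
    -- base part
    have hb : HasFDerivAt (fun y : V 6 => bb t (pr4 y)) ((D4 t (pr4 x)).comp pr4L) x := by
      have h1 : HasFDerivAt (bb t) (D4 t (pr4 x)) (pr4L x) := by
        rw [pr4L_apply]; exact ((sm_bbt t).differentiable (by simp) (pr4 x)).hasFDerivAt
      have h2 := h1.comp x pr4L.hasFDerivAt
      have h3 : (bb t ∘ fun y => pr4L y) = fun y : V 6 => bb t (pr4 y) := by
        funext y; simp only [Function.comp, pr4L_apply]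
      rw [← h3]; exact h2
    have hbi : ∀ i : Fin 4, HasFDerivAt (fun y : V 6 => bb t (pr4 y) i)
        ((ContinuousLinearMap.proj i : R4 →L[ℝ] ℝ).comp ((D4 t (pr4 x)).comp pr4L)) x := fun i =>
      (ContinuousLinearMap.proj (R := ℝ) (φ := fun _ : Fin 4 => ℝ) i).hasFDerivAt.comp x hb
    obtain ⟨k, hk⟩ := rep4_proj x
    have hBdx : Bd t (proj x) = D4 t (pr4 x) := by
      change D4 t (rep4 (proj x)) = _
      rw [hk, D4_int]
    have hDwx : fderiv ℝ ww (rep4 (proj x)) = fderiv ℝ ww (pr4 x) := by rw [hk, Dww_int]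
    -- coordinate i < 4
    have hci : ∀ (i : Fin 6) (j : Fin 4), (∀ y : V 6, FF m N δ t y i = bb t (pr4 y) j) →
        fderiv ℝ (FF m N δ t) x h i = Bd t (proj x) (pr4 h) j := by
      intro i j hij
      have h1 := hco i
      have h2 := hbi j
      have h3 : (fun y => FF m N δ t y i) = fun y : V 6 => bb t (pr4 y) j := funext hij
      rw [h3] at h1
      have h4 := congrArg (fun L : V 6 →L[ℝ] ℝ => L h) (h1.unique h2)
      have e : Bd t (proj x) (pr4 h) j = D4 t (pr4 x) (pr4L h) j := by rw [hBdx, pr4L_apply]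
      rw [e]
      exact h4
    -- last coordinate
    have hw1 : HasFDerivAt (fun y : V 6 => ww (pr4 y)) ((fderiv ℝ ww (pr4 x)).comp pr4L) x := by
      have h1 : HasFDerivAt ww (fderiv ℝ ww (pr4 x)) (pr4L x) := by
        rw [pr4L_apply]; exact (sm_ww.differentiable (by simp) (pr4 x)).hasFDerivAt
      have h2 := h1.comp x pr4L.hasFDerivAt
      have h3 : (ww ∘ fun y => pr4L y) = fun y : V 6 => ww (pr4 y) := by
        funext y; simp only [Function.comp, pr4L_apply]
      rw [← h3]; exact h2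
    have hs1 : HasFDerivAt (fun y : V 6 => sin (2 * π * y 5) / (2 * π))
        (cos (2 * π * x 5) • (EuclideanSpace.proj 5 : V 6 →L[ℝ] ℝ)) x := by
      have h1 := ((hxi 5).const_mul (2 * π)).sin.mul_const (2 * π)⁻¹
      have hpi : (2 * π) ≠ 0 := by positivity
      refine (h1.congr_fderiv ?_).congr_of_eventuallyEq (Eventually.of_forall fun y => ?_)
      · ext y
        simp only [_root_.smul_apply, smul_eq_mul]
        field_simp
      · simp only [div_eq_mul_inv]
    have hz5 : HasFDerivAt (fun y : V 6 => FF m N δ t y 5)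
        ((EuclideanSpace.proj 4 : V 6 →L[ℝ] ℝ) + ep N δ t •
          (ww (pr4 x) • (cos (2 * π * x 5) • (EuclideanSpace.proj 5 : V 6 →L[ℝ] ℝ)) +
            (sin (2 * π * x 5) / (2 * π)) • ((fderiv ℝ ww (pr4 x)).comp pr4L))) x := by
      have h1 := (hxi 4).add ((hw1.mul hs1).const_mul (ep N δ t))
      refine h1.congr_of_eventuallyEq (Eventually.of_forall fun y => ?_)
      change zz N δ t y = y 4 + ep N δ t * (ww (pr4 y) * (sin (2 * π * y 5) / (2 * π)))
      unfold zz ww
      change y 4 + ep N δ t * (v1 (y 0) * cos (2 * π * y 2)) * (sin (2 * π * y 5) / (2 * π)) =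
        y 4 + ep N δ t * (v1 (y 0) * cos (2 * π * y 2) * (sin (2 * π * y 5) / (2 * π)))
      ring
    set Z : ℝ := h 4 + ep N δ t * (h5 (proj x) * h 5 + hw (proj x) (pr4 h)) with hZ
    have hZe : (((EuclideanSpace.proj 4 : V 6 →L[ℝ] ℝ) + ep N δ t •
          (ww (pr4 x) • (cos (2 * π * x 5) • (EuclideanSpace.proj 5 : V 6 →L[ℝ] ℝ)) +
            (sin (2 * π * x 5) / (2 * π)) • ((fderiv ℝ ww (pr4 x)).comp pr4L))) : V 6 →L[ℝ] ℝ) h
          = Z := by
      have e1 : h5 (proj x) = ww (pr4 x) * cos (2 * π * x 5) := by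
        rw [hh5]
        change v1T ((x 0 : ℝ) : UnitAddCircle) * cosT ((x 2 : ℝ) : UnitAddCircle) * cosT ((x 5 : ℝ) : UnitAddCircle) = _
        rw [v1T_coe', cosT_coe', cosT_coe']; rfl
      have e2 : hw (proj x) (pr4 h) = sin (2 * π * x 5) / (2 * π) * fderiv ℝ ww (pr4 x) (pr4 h) := by
        rw [hhw]
        change ((sinT ((x 5 : ℝ) : UnitAddCircle) / (2 * π)) • fderiv ℝ ww (rep4 (proj x))) (pr4 h) = _
        rw [hDwx, sinT_coe]; rfl
      rw [hZ, e1, e2]
      change h 4 + ep N δ t * (ww (pr4 x) * (cos (2 * π * x 5) * h 5) +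
        sin (2 * π * x 5) / (2 * π) * fderiv ℝ ww (pr4 x) (pr4L h)) = _
      rw [pr4L_apply]; ring
    have hc5 : fderiv ℝ (FF m N δ t) x h 5 = Z := by
      have h4 := congrArg (fun L : V 6 →L[ℝ] ℝ => L h) ((hco 5).unique hz5)
      rw [← hZe]; exact h4
    have hc4 : fderiv ℝ (FF m N δ t) x h 4 = (m : ℝ) * Z - h 5 := by
      have h1 : HasFDerivAt (fun y : V 6 => FF m N δ t y 4) _ x :=
        ((hco 5).const_mul (m : ℝ)).sub (hxi 5)
      have h4 := congrArg (fun L : V 6 →L[ℝ] ℝ => L h) ((hco 4).unique h1)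
      change fderiv ℝ (FF m N δ t) x h 4 = (m : ℝ) * fderiv ℝ (FF m N δ t) x h 5 - h 5 at h4
      rw [h4, hc5]
    ext i
    fin_cases i
    · exact hci 0 0 fun y => rfl
    · exact hci 1 1 fun y => rfl
    · exact hci 2 2 fun y => rfl
    · exact hci 3 3 fun y => rfl
    · exact hc4
    · exact hc5

end Pool.Agent.Q66.LE
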