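import Pool.Agent.Q66.LEj2b

/-! J2b, part 1: an abstract criterion for a dominated splitting. -/

open Real Set MeasureTheory Filter Topology
open scoped ContDiff

noncomputable section

namespace Pool.Agent.Q66.LE

theorem cont_line {X : Type*} [TopologicalSpace X] {d : ℕ} (e : X → V d) (he : Continuous e)
    (h0 : ∀ x, e x ≠ 0) :
    Continuous fun x => (Submodule.span ℝ {e x}).starProjection := by
  have h : (fun x => (Submodule.span ℝ {e x}).starProjection) =
      fun x => (‖e x‖ ^ 2)⁻¹ • (innerSL ℝ (e x)).smulRight (e x) := by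
    funext x
    ext1 w
    rw [Submodule.starProjection_singleton]
    simp only [_root_.smul_apply, ContinuousLinearMap.smulRight_apply, innerSL_apply_apply]
    rw [smul_smul, div_eq_inv_mul]
    rfl
  rw [h]
  have hn : Continuous fun x => (‖e x‖ ^ 2)⁻¹ :=
    (he.norm.pow 2).inv₀ fun x => (pow_pos (norm_pos_iff.mpr (h0 x)) 2).ne'
  have hs : Continuous fun x => (innerSL ℝ (e x)).smulRight (e x) := by
    have h1 : Continuous fun x => innerSL ℝ (e x) := (innerSL ℝ).continuous.comp he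
    have h2 : Continuous fun q : (V d →L[ℝ] ℝ) × V d => q.1.smulRight q.2 :=
      (ContinuousLinearMap.smulRightL ℝ (V d) (V d)).continuous₂
    exact h2.comp (h1.prodMk he)
  exact hn.smul hs

theorem cont_hyper {X : Type*} [TopologicalSpace X] {d : ℕ} (ξ : X → (V d →L[ℝ] ℝ))
    (hξ : Continuous ξ) (h0 : ∀ x, ξ x ≠ 0) :
    Continuous fun x => (LinearMap.ker (ξ x).toLinearMap).starProjection := by
  set n : X → V d := fun x => (InnerProductSpace.toDual ℝ (V d)).symm (ξ x) with hn
  have hnc : Continuous n := (InnerProductSpace.toDual ℝ (V d)).symm.continuous.comp hξ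
  have hn0 : ∀ x, n x ≠ 0 := by
    intro x h
    apply h0 x
    rw [hn] at h
    simpa using h
  have hk : ∀ x, LinearMap.ker (ξ x).toLinearMap = (Submodule.span ℝ {n x})ᗮ := by
    intro x
    ext w
    rw [LinearMap.mem_ker, Submodule.mem_orthogonal_singleton_iff_inner_right]
    change ξ x w = 0 ↔ _
    rw [hn, InnerProductSpace.toDual_symm_apply]
  have h : (fun x => (LinearMap.ker (ξ x).toLinearMap).starProjection) =
      fun x => ContinuousLinearMap.id ℝ (V d) - (Submodule.span ℝ {n x}).starProjection := by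
    funext x
    rw [show (LinearMap.ker (ξ x).toLinearMap).starProjection =
      ((Submodule.span ℝ {n x})ᗮ).starProjection by simp only [hk]]
    exact Submodule.starProjection_orthogonal _
  rw [h]
  exact continuous_const.sub (cont_line n hnc hn0)

theorem isCompl_line_ker {d : ℕ} (e : V d) (ξ : V d →L[ℝ] ℝ) (h : ξ e ≠ 0) :
    IsCompl (Submodule.span ℝ {e}) (LinearMap.ker ξ.toLinearMap) := by
  constructor
  · rw [Submodule.disjoint_def]
    intro x hx hk
    obtain ⟨c, rfl⟩ := Submodule.mem_span_singleton.mp hx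
    have h1 : ξ (c • e) = 0 := hk
    rw [map_smul, smul_eq_mul] at h1
    rcases mul_eq_zero.mp h1 with h2 | h2
    · rw [h2, zero_smul]
    · exact absurd h2 h
  · rw [codisjoint_iff, eq_top_iff]
    intro x _
    rw [Submodule.mem_sup]
    refine ⟨(ξ x / ξ e) • e, Submodule.smul_mem _ _ (Submodule.mem_span_singleton_self e),
      x - (ξ x / ξ e) • e, ?_, by abel⟩
    change ξ (x - (ξ x / ξ e) • e) = 0
    rw [map_sub, map_smul, smul_eq_mul, div_mul_cancel₀ _ h, sub_self]

/-- abstract criterion -/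
theorem abs_split {d : ℕ} {W : Type} [NormedAddCommGroup W] [NormedSpace ℝ W]
    (F : V d → V d) (hF : Differentiable ℝ F)
    (hsurj : ∀ x, Function.Surjective (fderiv ℝ F x))
    (s : V d →L[ℝ] ℝ) (g : V d →L[ℝ] W) (CR : ℝ) (hCR : ∀ h, ‖h‖ ≤ CR * max |s h| ‖g h‖)
    (A : Tor d → ℝ) (B : Tor d → (W →L[ℝ] ℝ)) (Γ : Tor d → W) (Δ : Tor d → (W →L[ℝ] W))
    (hs : ∀ x h, s (fderiv ℝ F x h) = A (proj x) * s h + B (proj x) (g h))
    (hg : ∀ x h, g (fderiv ℝ F x h) = s h • Γ (proj x) + Δ (proj x) (g h))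
    (a e b : ℝ) (ha : 0 < a) (he : 0 ≤ e) (hA : ∀ p, |A p| ≤ a) (hB : ∀ p, ‖B p‖ ≤ e)
    (hΓ : ∀ p, ‖Γ p‖ ≤ e) (hΔ : ∀ p w, b * ‖w‖ ≤ ‖Δ p w‖) (hab : a + e < b - e)
    (σ : Tor d → W) (hσ1 : ∀ p, ‖σ p‖ ≤ 1)
    (hσ : ∀ x, Γ (proj x) + Δ (proj x) (σ (proj x)) =
      (A (proj x) + B (proj x) (σ (proj x))) • σ (proj (F x)))
    (hc0 : ∀ p, A p + B p (σ p) ≠ 0)
    (θ : Tor d → (W →L[ℝ] ℝ)) (hθ1 : ∀ p, ‖θ p‖ < 1)
    (hθ : ∀ x w, A (proj x) * θ (proj x) w + B (proj x) w =
      θ (proj (F x)) (θ (proj x) w • Γ (proj x) + Δ (proj x) w))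
    (ev : Tor d → V d) (hev : Continuous ev) (hθc : Continuous θ)
    (hes : ∀ p, s (ev p) ≠ 0) (heg : ∀ p, g (ev p) = s (ev p) • σ p)
    (hinj : ∀ h h' : V d, s h = s h' → g h = g h' → h = h') :
    DominatedSplitting F (fun p => Submodule.span ℝ {ev p})
      (fun p => LinearMap.ker (s - (θ p).comp g).toLinearMap) := by
  have hev0 : ∀ p, ev p ≠ 0 := by
    intro p h; apply hes p; rw [h, map_zero]
  have hξe : ∀ p, (s - (θ p).comp g) (ev p) ≠ 0 := by
    intro p
    have h1 : (s - (θ p).comp g) (ev p) = s (ev p) * (1 - θ p (σ p)) := by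
      change s (ev p) - θ p (g (ev p)) = _
      rw [heg, map_smul, smul_eq_mul]; ring
    rw [h1]
    apply mul_ne_zero (hes p)
    have h2 : |θ p (σ p)| < 1 := by
      calc |θ p (σ p)| ≤ ‖θ p‖ * ‖σ p‖ := (θ p).le_opNorm _
        _ ≤ ‖θ p‖ * 1 := mul_le_mul_of_nonneg_left (hσ1 p) (norm_nonneg _)
        _ < 1 := by rw [mul_one]; exact hθ1 p
    have := (abs_lt.mp h2).2
    linarith
  -- image of the line
  have hline : ∀ x, ∃ c : ℝ, c ≠ 0 ∧ fderiv ℝ F x (ev (proj x)) = c • ev (proj (F x)) := by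
    intro x
    refine ⟨s (ev (proj x)) * (A (proj x) + B (proj x) (σ (proj x))) / s (ev (proj (F x))),
      div_ne_zero (mul_ne_zero (hes _) (hc0 _)) (hes _), ?_⟩
    apply hinj
    · rw [hs, map_smul, smul_eq_mul, div_mul_cancel₀ _ (hes _), heg, map_smul, smul_eq_mul]; ring
    · rw [hg, map_smul, heg, heg, smul_smul, div_mul_cancel₀ _ (hes _), map_smul, ← smul_add,
        hσ, smul_smul]
  -- hyperplane forward
  have hfwd : ∀ x h, (s - (θ (proj x)).comp g) h = 0 →
      (s - (θ (proj (F x))).comp g) (fderiv ℝ F x h) = 0 := by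
    intro x h h0
    have h1 : s h = θ (proj x) (g h) := by
      have : s h - θ (proj x) (g h) = 0 := h0
      linarith
    change s (fderiv ℝ F x h) - θ (proj (F x)) (g (fderiv ℝ F x h)) = 0
    rw [hs, hg, h1, hθ x (g h), sub_self]
  refine ⟨fun p => isCompl_line_ker _ _ (hξe p), cont_line _ hev hev0, ?_, ?_, ?_, ?_⟩
  · refine cont_hyper (fun p => s - (θ p).comp g) ?_ ?_
    · refine continuous_const.sub ?_
      exact hθc.clm_comp continuous_const
    · intro p h
      apply hξe p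
      rw [h]; rfl
  · intro x
    obtain ⟨c, hc, hcc⟩ := hline x
    rw [Submodule.map_span, image_singleton]
    change Submodule.span ℝ {fderiv ℝ F x (ev (proj x))} = _
    rw [hcc]
    exact Submodule.span_singleton_smul_eq (IsUnit.mk0 c hc) _
  · intro x
    apply le_antisymm
    · rintro _ ⟨h, hh, rfl⟩
      exact hfwd x h hh
    · intro h' hh'
      obtain ⟨h, rfl⟩ := hsurj x h'
      refine ⟨h, ?_, rfl⟩
      have hcompl := isCompl_line_ker _ _ (hξe (proj x))
      have htop : h ∈ Submodule.span ℝ {ev (proj x)} ⊔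
          LinearMap.ker (s - (θ (proj x)).comp g).toLinearMap := by
        rw [hcompl.sup_eq_top]; trivial
      obtain ⟨h1, hh1, h2, hh2, rfl⟩ := Submodule.mem_sup.mp htop
      obtain ⟨c', rfl⟩ := Submodule.mem_span_singleton.mp hh1
      obtain ⟨c, hc, hcc⟩ := hline x
      have h3 := hfwd x h2 hh2
      have h4 : (s - (θ (proj (F x))).comp g) (fderiv ℝ F x (c' • ev (proj x) + h2)) = 0 := hh'
      rw [map_add, map_add, h3, add_zero, map_smul, hcc, map_smul, map_smul, smul_eq_mul,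
        smul_eq_mul] at h4
      have hc' : c' = 0 := by
        rcases mul_eq_zero.mp h4 with h5 | h5
        · exact h5
        · rcases mul_eq_zero.mp h5 with h6 | h6
          · exact absurd h6 hc
          · exact absurd h6 (hξe _)
      rw [hc', zero_smul, zero_add]
      exact hh2
  · -- domination
    have hCR0 : 0 ≤ |CR| := abs_nonneg _
    have hb0 : 0 < b := by linarith
    set τ : ℝ := (a + e) / (b - e) with hτ
    have hae : 0 < a + e := by linarith
    have hbe : 0 < b - e := by linarith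
    have hτ0 : 0 < τ := div_pos hae hbe
    have hτ1 : τ < 1 := (div_lt_one hbe).mpr hab
    -- line forward: vectors proportional to ev
    have hl : ∀ x h, g h = s h • σ (proj x) →
        g (fderiv ℝ F x h) = s (fderiv ℝ F x h) • σ (proj (F x)) ∧
        |s (fderiv ℝ F x h)| ≤ (a + e) * |s h| := by
      intro x h hh
      have h1 : s (fderiv ℝ F x h) = s h * (A (proj x) + B (proj x) (σ (proj x))) := by
        rw [hs, hh, map_smul, smul_eq_mul]; ring
      constructor
      · rw [h1, hg, hh, map_smul, ← smul_add, hσ, smul_smul]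
      · rw [h1, abs_mul, mul_comm]
        apply mul_le_mul_of_nonneg_right _ (abs_nonneg _)
        refine (abs_add_le _ _).trans (add_le_add (hA _) ?_)
        calc |B (proj x) (σ (proj x))| ≤ ‖B (proj x)‖ * ‖σ (proj x)‖ := (B (proj x)).le_opNorm _
          _ ≤ e * 1 := mul_le_mul (hB _) (hσ1 _) (norm_nonneg _) he
          _ = e := mul_one _
    have hh : ∀ x h, (s - (θ (proj x)).comp g) h = 0 →
        (b - e) * ‖g h‖ ≤ ‖g (fderiv ℝ F x h)‖ := by
      intro x h h0
      have h1 : s h = θ (proj x) (g h) := by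
        have : s h - θ (proj x) (g h) = 0 := h0
        linarith
      have h2 : |s h| ≤ ‖g h‖ := by
        rw [h1]
        calc |θ (proj x) (g h)| ≤ ‖θ (proj x)‖ * ‖g h‖ := (θ (proj x)).le_opNorm _
          _ ≤ 1 * ‖g h‖ := mul_le_mul_of_nonneg_right (hθ1 _).le (norm_nonneg _)
          _ = ‖g h‖ := one_mul _
      rw [hg]
      have h3 : ‖s h • Γ (proj x)‖ ≤ e * ‖g h‖ := by
        rw [norm_smul, Real.norm_eq_abs, mul_comm]
        exact mul_le_mul (hΓ _) h2 (abs_nonneg _) he
      have h4 := hΔ (proj x) (g h)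
      have h5 : ‖Δ (proj x) (g h)‖ - ‖s h • Γ (proj x)‖ ≤ ‖s h • Γ (proj x) + Δ (proj x) (g h)‖ := by
        have := norm_sub_norm_le (Δ (proj x) (g h)) (-(s h • Γ (proj x)))
        rw [norm_neg, sub_neg_eq_add, add_comm] at this
        exact this
      nlinarith
    -- iterates
    have hFn : ∀ n : ℕ, Differentiable ℝ (F^[n]) := by
      intro n
      induction n with
      | zero => exact differentiable_id
      | succ n ih => rw [Function.iterate_succ']; exact hF.comp ih
    have hchain : ∀ (n : ℕ) (x h : V d), fderiv ℝ (F^[n + 1]) x h =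
        fderiv ℝ F (F^[n] x) (fderiv ℝ (F^[n]) x h) := by
      intro n x h
      rw [Function.iterate_succ', fderiv_comp x (hF _) (hFn n x)]
      rfl
    have hit1 : ∀ (n : ℕ) (x u : V d), g u = s u • σ (proj x) →
        g (fderiv ℝ (F^[n]) x u) = s (fderiv ℝ (F^[n]) x u) • σ (proj (F^[n] x)) ∧
        |s (fderiv ℝ (F^[n]) x u)| ≤ (a + e) ^ n * |s u| := by
      intro n x u hu
      induction n with
      | zero =>
        have e0 : fderiv ℝ (F^[0]) x u = u := by
          change fderiv ℝ (id : V d → V d) x u = u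
          rw [fderiv_id]; rfl
        rw [e0, pow_zero, one_mul]
        exact ⟨hu, le_rfl⟩
      | succ n ih =>
        rw [hchain]
        obtain ⟨k1, k2⟩ := hl (F^[n] x) _ ih.1
        refine ⟨?_, ?_⟩
        · rw [k1, Function.iterate_succ_apply']
        · refine k2.trans ?_
          rw [pow_succ', mul_assoc]
          exact mul_le_mul_of_nonneg_left ih.2 hae.le
    have hit2 : ∀ (n : ℕ) (x v : V d), (s - (θ (proj x)).comp g) v = 0 →
        (s - (θ (proj (F^[n] x))).comp g) (fderiv ℝ (F^[n]) x v) = 0 ∧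
        (b - e) ^ n * ‖g v‖ ≤ ‖g (fderiv ℝ (F^[n]) x v)‖ := by
      intro n x v hv
      induction n with
      | zero =>
        have e0 : fderiv ℝ (F^[0]) x v = v := by
          change fderiv ℝ (id : V d → V d) x v = v
          rw [fderiv_id]; rfl
        rw [e0, pow_zero, one_mul]
        exact ⟨hv, le_rfl⟩
      | succ n ih =>
        rw [hchain]
        refine ⟨?_, ?_⟩
        · rw [Function.iterate_succ_apply']
          exact hfwd _ _ ih.1
        · refine le_trans ?_ (hh _ _ ih.1)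
          rw [pow_succ', mul_assoc]
          exact mul_le_mul_of_nonneg_left ih.2 hbe.le
    refine ⟨|CR| * (‖s‖ + 1) * ((‖g‖ + 1) * (|CR| + 1)) + 1, by positivity, τ, hτ0, hτ1, ?_⟩
    intro x n u v hu hv hu1 hv1
    -- u
    have hu' : g u = s u • σ (proj x) := by
      obtain ⟨c, rfl⟩ := Submodule.mem_span_singleton.mp hu
      rw [map_smul, map_smul, heg, smul_smul, smul_eq_mul]
    obtain ⟨p1, p2⟩ := hit1 n x u hu'
    have q1 : ‖fderiv ℝ (F^[n]) x u‖ ≤ |CR| * ((a + e) ^ n * (‖s‖ + 1)) := by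
      refine (hCR _).trans ?_
      have m1 : ‖g (fderiv ℝ (F^[n]) x u)‖ ≤ |s (fderiv ℝ (F^[n]) x u)| := by
        rw [p1, norm_smul, Real.norm_eq_abs]
        exact mul_le_of_le_one_right (abs_nonneg _) (hσ1 _)
      rw [max_eq_left m1]
      have m2 : |s u| ≤ ‖s‖ + 1 := by
        have := s.le_opNorm u
        rw [hu1, mul_one] at this
        rw [Real.norm_eq_abs] at this
        linarith
      have m3 : |s (fderiv ℝ (F^[n]) x u)| ≤ (a + e) ^ n * (‖s‖ + 1) :=
        p2.trans (mul_le_mul_of_nonneg_left m2 (by positivity))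
      exact mul_le_mul (le_abs_self _) m3 (abs_nonneg _) (abs_nonneg _)
    -- v
    obtain ⟨r1, r2⟩ := hit2 n x v hv
    have hsv : |s v| ≤ ‖g v‖ := by
      have h1 : s v = θ (proj x) (g v) := by
        have : s v - θ (proj x) (g v) = 0 := hv
        linarith
      rw [h1]
      calc |θ (proj x) (g v)| ≤ ‖θ (proj x)‖ * ‖g v‖ := (θ (proj x)).le_opNorm _
        _ ≤ 1 * ‖g v‖ := mul_le_mul_of_nonneg_right (hθ1 _).le (norm_nonneg _)
        _ = ‖g v‖ := one_mul _
    have q2 : 1 ≤ (|CR| + 1) * ‖g v‖ := by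
      have h1 := hCR v
      rw [hv1, max_eq_right hsv] at h1
      nlinarith [le_abs_self CR, norm_nonneg (g v)]
    have q3 : (b - e) ^ n * ‖g v‖ ≤ (‖g‖ + 1) * ‖fderiv ℝ (F^[n]) x v‖ := by
      refine r2.trans ((g.le_opNorm _).trans ?_)
      nlinarith [norm_nonneg (fderiv ℝ (F^[n]) x v)]
    have q4 : (b - e) ^ n ≤ (‖g‖ + 1) * (|CR| + 1) * ‖fderiv ℝ (F^[n]) x v‖ := by
      have hp : 0 < (b - e) ^ n := by positivity
      calc (b - e) ^ n ≤ (b - e) ^ n * ((|CR| + 1) * ‖g v‖) := le_mul_of_one_le_right hp.le q2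
        _ = (|CR| + 1) * ((b - e) ^ n * ‖g v‖) := by ring
        _ ≤ (|CR| + 1) * ((‖g‖ + 1) * ‖fderiv ℝ (F^[n]) x v‖) :=
            mul_le_mul_of_nonneg_left q3 (by positivity)
        _ = _ := by ring
    have q5 : (a + e) ^ n = τ ^ n * (b - e) ^ n := by
      rw [hτ, div_pow, div_mul_cancel₀]; positivity
    calc ‖fderiv ℝ (F^[n]) x u‖ ≤ |CR| * ((a + e) ^ n * (‖s‖ + 1)) := q1
      _ = |CR| * (‖s‖ + 1) * τ ^ n * (b - e) ^ n := by rw [q5]; ring
      _ ≤ |CR| * (‖s‖ + 1) * τ ^ n * ((‖g‖ + 1) * (|CR| + 1) * ‖fderiv ℝ (F^[n]) x v‖) :=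
          mul_le_mul_of_nonneg_left q4 (by positivity)
      _ = (|CR| * (‖s‖ + 1) * ((‖g‖ + 1) * (|CR| + 1))) * (τ ^ n * ‖fderiv ℝ (F^[n]) x v‖) := by
          ring
      _ ≤ (|CR| * (‖s‖ + 1) * ((‖g‖ + 1) * (|CR| + 1)) + 1) * (τ ^ n * ‖fderiv ℝ (F^[n]) x v‖) :=
          mul_le_mul_of_nonneg_right (by linarith) (by positivity)
      _ = _ := by ring

end Pool.Agent.Q66.LE
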