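import Pool.Agent.Q66.LEj2c

/-! J2b, part 2: the dominated splitting of the family. -/

open Real Set MeasureTheory Filter Topology
open scoped ContDiff

noncomputable section

namespace Pool.Agent.Q66.LE


abbrev WW := R4 × ℝ

def sF (β γ : ℝ) : V 6 →L[ℝ] ℝ :=
  γ⁻¹ • (β • (EuclideanSpace.proj 5 : V 6 →L[ℝ] ℝ) - (EuclideanSpace.proj 4 : V 6 →L[ℝ] ℝ))
def uF (κ γ : ℝ) : V 6 →L[ℝ] ℝ :=
  γ⁻¹ • ((EuclideanSpace.proj 4 : V 6 →L[ℝ] ℝ) - κ • (EuclideanSpace.proj 5 : V 6 →L[ℝ] ℝ))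
def gF (κ γ : ℝ) : V 6 →L[ℝ] WW := pr4L.prod (uF κ γ)

theorem sF_apply (β γ : ℝ) (h : V 6) : sF β γ h = γ⁻¹ * (β * h 5 - h 4) := rfl
theorem uF_apply (κ γ : ℝ) (h : V 6) : uF κ γ h = γ⁻¹ * (h 4 - κ * h 5) := rfl
theorem gF_apply (κ γ : ℝ) (h : V 6) : gF κ γ h = (pr4 h, uF κ γ h) := by
  change (pr4L h, uF κ γ h) = _
  rw [pr4L_apply]

/-- `B` block -/
def Bf (κ η : ℝ) (om : R4 →L[ℝ] ℝ) : WW →L[ℝ] ℝ :=
  (-κ) • (η • ContinuousLinearMap.snd ℝ R4 ℝ + om.comp (ContinuousLinearMap.fst ℝ R4 ℝ))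

/-- `Δ` block -/
def Df (β η : ℝ) (om : R4 →L[ℝ] ℝ) (Bd : R4 →L[ℝ] R4) : WW →L[ℝ] WW :=
  (ContinuousLinearMap.inl ℝ R4 ℝ).comp (Bd.comp (ContinuousLinearMap.fst ℝ R4 ℝ)) +
  (ContinuousLinearMap.inr ℝ R4 ℝ).comp (β • ((1 + η) • ContinuousLinearMap.snd ℝ R4 ℝ +
    om.comp (ContinuousLinearMap.fst ℝ R4 ℝ)))

/-- inverse of the `Δ` block -/
def Dif (κ η : ℝ) (om : R4 →L[ℝ] ℝ) (Bi : R4 →L[ℝ] R4) : WW →L[ℝ] WW :=
  (ContinuousLinearMap.inl ℝ R4 ℝ).comp (Bi.comp (ContinuousLinearMap.fst ℝ R4 ℝ)) +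
  (ContinuousLinearMap.inr ℝ R4 ℝ).comp ((1 + η)⁻¹ • (κ • ContinuousLinearMap.snd ℝ R4 ℝ -
    om.comp (Bi.comp (ContinuousLinearMap.fst ℝ R4 ℝ))))

theorem Bf_apply (κ η : ℝ) (om : R4 →L[ℝ] ℝ) (w : WW) :
    Bf κ η om w = -κ * (η * w.2 + om w.1) := rfl

theorem Df_apply (β η : ℝ) (om : R4 →L[ℝ] ℝ) (Bd : R4 →L[ℝ] R4) (w : WW) :
    Df β η om Bd w = (Bd w.1, β * ((1 + η) * w.2 + om w.1)) := by
  change ((Bd w.1, (0:ℝ)) : WW) + ((0 : R4), β * ((1 + η) * w.2 + om w.1)) = _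
  rw [Prod.mk_add_mk, add_zero, zero_add]

theorem Dif_apply (κ η : ℝ) (om : R4 →L[ℝ] ℝ) (Bi : R4 →L[ℝ] R4) (w : WW) :
    Dif κ η om Bi w = (Bi w.1, (1 + η)⁻¹ * (κ * w.2 - om (Bi w.1))) := by
  change ((Bi w.1, (0:ℝ)) : WW) + ((0 : R4), (1 + η)⁻¹ * (κ * w.2 - om (Bi w.1))) = _
  rw [Prod.mk_add_mk, add_zero, zero_add]

theorem s_alg {κ β h4 h5 ε a5 aw : ℝ} (hκβ : κ * β = 1) (hγ : β - κ ≠ 0) :
    (β - κ)⁻¹ * (β * (h4 + ε * (a5 * h5 + aw)) - ((κ + β) * (h4 + ε * (a5 * h5 + aw)) - h5)) =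
      κ * (1 - ε * a5 / (β - κ)) * ((β - κ)⁻¹ * (β * h5 - h4)) +
      -κ * (ε * a5 / (β - κ) * ((β - κ)⁻¹ * (h4 - κ * h5)) + ε / (β - κ) * aw) := by
  set g : ℝ := (β - κ)⁻¹ with hg
  have hgg : g * (β - κ) = 1 := inv_mul_cancel₀ hγ
  rw [div_eq_mul_inv, div_eq_mul_inv, ← hg]
  linear_combination (-(g * h5)) * hκβ + κ * ε * a5 * g * h5 * hgg

theorem g_alg {κ β h4 h5 ε a5 aw : ℝ} (hκβ : κ * β = 1) (hγ : β - κ ≠ 0) :
    (β - κ)⁻¹ * (((κ + β) * (h4 + ε * (a5 * h5 + aw)) - h5) -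
      κ * (h4 + ε * (a5 * h5 + aw))) =
      (β - κ)⁻¹ * (β * h5 - h4) * (β * (ε * a5 / (β - κ))) +
      β * ((1 + ε * a5 / (β - κ)) * ((β - κ)⁻¹ * (h4 - κ * h5)) + ε / (β - κ) * aw) := by
  set g : ℝ := (β - κ)⁻¹ with hg
  have hgg : g * (β - κ) = 1 := inv_mul_cancel₀ hγ
  rw [div_eq_mul_inv, div_eq_mul_inv, ← hg]
  linear_combination (g * h5) * hκβ - β * ε * a5 * g * h5 * hgg

theorem split_of (hsig : S_sig) (htht : S_tht) (hblk : S_blk) (hfam : S_fam) : S_split := by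
  obtain ⟨K, hK1, Bd, Bi, h5, hw, cBd, cBi, ch5, chw, hBdi, hBid, hBiK, hh5, hhw, hD⟩ := hblk
  have hK0 : 0 < K := by linarith
  -- choice of m and κ
  obtain ⟨m, hm⟩ := exists_nat_ge (32 * K + 2)
  have hmR : (34:ℝ) ≤ m := by nlinarith
  have hm4 : 4 ≤ m := by
    have : (4:ℝ) ≤ m := by linarith
    exact_mod_cast this
  obtain ⟨κ, β, hκ0, hκβ, hsum, hκ1⟩ : ∃ κ β : ℝ, 0 < κ ∧ κ * β = 1 ∧ κ + β = m ∧ κ ≤ 1 := by
    have hd : 0 ≤ (m:ℝ) ^ 2 - 4 := by nlinarith
    have hs := Real.sq_sqrt hd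
    have hs0 := Real.sqrt_nonneg ((m:ℝ) ^ 2 - 4)
    refine ⟨((m:ℝ) - Real.sqrt ((m:ℝ) ^ 2 - 4)) / 2, ((m:ℝ) + Real.sqrt ((m:ℝ) ^ 2 - 4)) / 2,
      ?_, ?_, ?_, ?_⟩
    · have : Real.sqrt ((m:ℝ) ^ 2 - 4) < m := by
        rw [Real.sqrt_lt' (by linarith)]; linarith
      linarith
    · nlinarith
    · ring
    · have : (m:ℝ) - 2 ≤ Real.sqrt ((m:ℝ) ^ 2 - 4) := by
        apply Real.le_sqrt_of_sq_le; nlinarith
      linarith
  have hβ : 32 * K + 1 ≤ β := by linarith
  have hβ0 : 0 < β := by linarith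
  have hκK : κ * (32 * K) ≤ 1 := by nlinarith
  have hκ32 : κ ≤ 1 / 32 := by nlinarith
  set γ : ℝ := β - κ with hγ
  have hγ1 : 1 ≤ γ := by rw [hγ]; nlinarith
  have hγ0 : 0 < γ := by linarith
  have hβγ : β ≤ 2 * γ := by rw [hγ]; linarith
  set δ : ℝ := 1 / (1000 * K ^ 2) with hδ
  have hδ0 : 0 < δ := by positivity
  have hδK2 : δ * K ^ 2 = 1 / 1000 := by rw [hδ]; field_simp
  have hδK : δ * K ≤ 1 / 1000 := by nlinarith [mul_pos hδ0 hK0]
  have hδ1 : δ ≤ 1 / 1000 := by nlinarith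
  refine ⟨m, hm4, δ, hδ0, by linarith, fun N hN => ?_⟩
  -- bounds of ε
  have hep : ∀ t ∈ Icc (-1:ℝ) 1, 0 ≤ ep N δ t ∧ ep N δ t ≤ δ := by
    intro t ht
    have htp : t ^ (2 * N) ≤ 1 := by
      rw [pow_mul]
      exact pow_le_one₀ (sq_nonneg t) (by nlinarith [ht.1, ht.2])
    have htp0 : 0 ≤ t ^ (2 * N) := by rw [pow_mul]; positivity
    unfold ep
    exact ⟨mul_nonneg hδ0.le htp0, by nlinarith⟩
  set η : ℝ → Tor 6 → ℝ := fun t p => ep N δ t * h5 p / γ with hη
  set om : ℝ → Tor 6 → (R4 →L[ℝ] ℝ) := fun t p => (ep N δ t / γ) • hw p with hom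
  have hηb : ∀ t ∈ Icc (-1:ℝ) 1, ∀ p, |η t p| ≤ δ := by
    intro t ht p
    obtain ⟨e0, e1⟩ := hep t ht
    rw [hη]; simp only
    rw [abs_div, abs_mul, abs_of_nonneg e0, abs_of_pos hγ0, div_le_iff₀ hγ0]
    have := hh5 p
    nlinarith [abs_nonneg (h5 p)]
  have homb : ∀ t ∈ Icc (-1:ℝ) 1, ∀ p, ‖om t p‖ ≤ δ * K := by
    intro t ht p
    obtain ⟨e0, e1⟩ := hep t ht
    rw [hom]; simp only
    rw [norm_smul, Real.norm_of_nonneg (by positivity)]
    have h1 : ep N δ t / γ ≤ δ := by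
      rw [div_le_iff₀ hγ0]; nlinarith
    exact mul_le_mul h1 (hhw p) (norm_nonneg _) hδ0.le
  -- the space X and its homeomorphism
  obtain ⟨hsF, hsG, hGF, hFG, hlF, hlG, hcf, hcg⟩ := hfam m N δ
  have hgf : ∀ t p, gT m N δ t (fT m N δ t p) = p := by
    intro t p
    obtain ⟨x, rfl⟩ : ∃ x, proj x = p := oq_proj.surjective p
    rw [hlF, hlG, hGF]
  have hfg : ∀ t p, fT m N δ t (gT m N δ t p) = p := by
    intro t p
    obtain ⟨x, rfl⟩ : ∃ x, proj x = p := oq_proj.surjective p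
    rw [hlG, hlF, hFG]
  let X := (Icc (-1:ℝ) 1) × Tor 6
  have hval : Continuous fun q : X => ((q.1 : ℝ), q.2) :=
    (continuous_subtype_val.comp continuous_fst).prodMk continuous_snd
  let φ : X ≃ₜ X :=
    { toFun := fun q => (q.1, fT m N δ q.1 q.2)
      invFun := fun q => (q.1, gT m N δ q.1 q.2)
      left_inv := fun q => Prod.ext rfl (hgf _ _)
      right_inv := fun q => Prod.ext rfl (hfg _ _)
      continuous_toFun := continuous_fst.prodMk (hcf.comp hval)
      continuous_invFun := continuous_fst.prodMk (hcg.comp hval) }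
  have cep : Continuous fun q : X => ep N δ q.1 := by
    unfold ep
    exact continuous_const.mul ((continuous_subtype_val.comp continuous_fst).pow _)
  have cη : Continuous fun q : X => η q.1 q.2 :=
    ((cep.mul (ch5.comp continuous_snd))).div_const _
  have com : Continuous fun q : X => om q.1 q.2 :=
    (cep.div_const _).smul (chw.comp continuous_snd)
  -- σ
  have hsig' := hsig X φ (fun q => κ * (1 - η q.1 q.2)) (fun q => -κ * η q.1 q.2)
    (fun q => β * η q.1 q.2) (fun q => β * (1 + η q.1 q.2)) (2 * κ) (2 * β * δ / γ) (2 / β)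
    (continuous_const.mul (continuous_const.sub cη)) (continuous_const.mul cη)
    (continuous_const.mul cη) (continuous_const.mul (continuous_const.add cη))
    (by positivity) (by positivity) (by positivity)
    (by
      intro q
      have h1 := abs_le.mp (hηb q.1 q.1.2 q.2)
      rw [abs_mul, abs_of_pos hκ0, mul_comm]
      apply mul_le_mul_of_nonneg_right _ hκ0.le
      rw [abs_le]; constructor <;> linarith)
    (by
      intro q
      have h1 := hηb q.1 q.1.2 q.2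
      rw [abs_mul, abs_neg, abs_of_pos hκ0, le_div_iff₀ hγ0]
      have h2 : κ * γ ≤ β * 1 := by rw [hγ]; nlinarith
      nlinarith [mul_nonneg hκ0.le (abs_nonneg (η q.1 q.2)), abs_nonneg (η q.1 q.2)])
    (by
      intro q
      have h1 := hηb q.1 q.1.2 q.2
      obtain ⟨e0, e1⟩ := hep q.1 q.1.2
      have h2 : |η q.1 q.2| ≤ δ / γ := by
        rw [hη]; simp only
        rw [abs_div, abs_mul, abs_of_nonneg e0, abs_of_pos hγ0]
        apply div_le_div_of_nonneg_right _ hγ0.le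
        have := hh5 q.2
        nlinarith [abs_nonneg (h5 q.2)]
      rw [abs_mul, abs_of_pos hβ0]
      calc β * |η q.1 q.2| ≤ β * (δ / γ) := mul_le_mul_of_nonneg_left h2 hβ0.le
        _ ≤ 2 * β * δ / γ := by
          rw [mul_div_assoc']
          apply div_le_div_of_nonneg_right _ hγ0.le
          nlinarith [mul_pos hβ0 hδ0])
    (by
      intro q
      have h1 := abs_le.mp (hηb q.1 q.1.2 q.2)
      rw [one_div_div, abs_mul, abs_of_pos hβ0, abs_of_pos (by linarith : 0 < 1 + η q.1 q.2)]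
      nlinarith)
    (by
      have h1 : 2 * β * δ / γ ≤ 4 * δ := by
        rw [div_le_iff₀ hγ0]; nlinarith
      have h2 : 2 / β ≤ 2 / 32 := div_le_div_of_nonneg_left (by norm_num) (by norm_num) (by linarith)
      have h3 : 0 < 2 / β := by positivity
      nlinarith)
  obtain ⟨σ, cσ, hσ1, hσ2, hσe⟩ := hsig'
  -- smallness of σ : β|σ| ≤ 16 δ
  have hσs : ∀ q, β * |σ q| ≤ 16 * δ := by
    intro q
    have h1 := hσ2 q
    have h2 : 2 * β * δ / γ ≤ 4 * δ := by
      rw [div_le_iff₀ hγ0]; nlinarith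
    have h3 : 2 / β * (2 * κ + 2 * β * δ / γ) ≤ 1 / 2 := by
      have h4 : 2 / β ≤ 2 / 32 := div_le_div_of_nonneg_left (by norm_num) (by norm_num) (by linarith)
      have h5 : 0 < 2 / β := by positivity
      have h6 : 0 ≤ 2 * κ + 2 * β * δ / γ := by positivity
      nlinarith
    have h4 : |σ q| * (1 / 2) ≤ |σ q| * (1 - 2 / β * (2 * κ + 2 * β * δ / γ)) :=
      mul_le_mul_of_nonneg_left (by linarith) (abs_nonneg _)
    have h5 : 2 / β * (2 * β * δ / γ) ≤ 2 / β * (4 * δ) :=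
      mul_le_mul_of_nonneg_left h2 (by positivity)
    have h6 : |σ q| * (1 / 2) ≤ 2 / β * (4 * δ) := h4.trans (h1.trans h5)
    have h7 : β * (2 / β * (4 * δ)) = 8 * δ := by field_simp; ring
    have h8 := mul_le_mul_of_nonneg_left h6 hβ0.le
    rw [h7] at h8
    linarith
  have hσt : ∀ q, |σ q| ≤ 1 / 1000 := by
    intro q
    have h1 := hσs q
    have h2 : 32 * |σ q| ≤ β * |σ q| := mul_le_mul_of_nonneg_right (by linarith) (abs_nonneg _)
    linarith
  -- θ
  have hBn : ∀ q : X, ‖Bf κ (η q.1 q.2) (om q.1 q.2)‖ ≤ 2 * δ * K := by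
    intro q
    refine ContinuousLinearMap.opNorm_le_bound _ (by positivity) fun w => ?_
    rw [Bf_apply, norm_mul, norm_neg, Real.norm_of_nonneg hκ0.le, Real.norm_eq_abs]
    have h1 := hηb q.1 q.1.2 q.2
    have h2 := homb q.1 q.1.2 q.2
    have h3 : |w.2| ≤ ‖w‖ := norm_snd_le w
    have h4 : ‖w.1‖ ≤ ‖w‖ := norm_fst_le w
    have h5 : |om q.1 q.2 w.1| ≤ δ * K * ‖w‖ :=
      ((om q.1 q.2).le_opNorm w.1).trans (mul_le_mul h2 h4 (norm_nonneg _) (by positivity))
    have h6 : |η q.1 q.2 * w.2| ≤ δ * K * ‖w‖ := by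
      rw [abs_mul]
      have h7 : |η q.1 q.2| * |w.2| ≤ δ * ‖w‖ := mul_le_mul h1 h3 (abs_nonneg _) hδ0.le
      have h8 : δ * ‖w‖ ≤ δ * K * ‖w‖ := by
        apply mul_le_mul_of_nonneg_right _ (norm_nonneg _); nlinarith
      linarith
    calc κ * |η q.1 q.2 * w.2 + om q.1 q.2 w.1| ≤ 1 * (δ * K * ‖w‖ + δ * K * ‖w‖) :=
          mul_le_mul hκ1 ((abs_add_le _ _).trans (add_le_add h6 h5)) (abs_nonneg _) (by norm_num)
      _ = 2 * δ * K * ‖w‖ := by ring
  have hΓn : ∀ q : X, ‖((0 : R4), β * η q.1 q.2)‖ ≤ 2 * δ * K := by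
    intro q
    rw [Prod.norm_def, norm_zero, max_eq_right (norm_nonneg _), Real.norm_eq_abs, abs_mul,
      abs_of_pos hβ0]
    obtain ⟨e0, e1⟩ := hep q.1 q.1.2
    have h2 : |η q.1 q.2| ≤ δ / γ := by
      rw [hη]; simp only
      rw [abs_div, abs_mul, abs_of_nonneg e0, abs_of_pos hγ0]
      apply div_le_div_of_nonneg_right _ hγ0.le
      have := hh5 q.2
      nlinarith [abs_nonneg (h5 q.2)]
    calc β * |η q.1 q.2| ≤ (2 * γ) * (δ / γ) := mul_le_mul hβγ h2 (abs_nonneg _) (by positivity)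
      _ = 2 * δ := by field_simp
      _ ≤ 2 * δ * K := by nlinarith
  have hηp : ∀ q : X, 1 + η q.1 q.2 ≠ 0 := by
    intro q
    have h1 := abs_le.mp (hηb q.1 q.1.2 q.2)
    have : 0 < 1 + η q.1 q.2 := by linarith
    exact this.ne'
  have hDin : ∀ q : X, ‖Dif κ (η q.1 q.2) (om q.1 q.2) (Bi q.1 q.2)‖ ≤ 2 * K := by
    intro q
    refine ContinuousLinearMap.opNorm_le_bound _ (by positivity) fun w => ?_
    rw [Dif_apply, Prod.norm_def]
    have h1 := abs_le.mp (hηb q.1 q.1.2 q.2)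
    have h2 := homb q.1 q.1.2 q.2
    have h3 : |w.2| ≤ ‖w‖ := norm_snd_le w
    have h4 : ‖w.1‖ ≤ ‖w‖ := norm_fst_le w
    have hw0 := norm_nonneg w
    have h5 : ‖Bi q.1 q.2 w.1‖ ≤ K * ‖w‖ :=
      ((Bi q.1 q.2).le_opNorm w.1).trans (mul_le_mul (hBiK q.1 q.1.2 q.2) h4 (norm_nonneg _) hK0.le)
    apply max_le
    · simp only; nlinarith
    · simp only
      rw [Real.norm_eq_abs, abs_mul, abs_inv, abs_of_pos (by linarith : 0 < 1 + η q.1 q.2)]
      have h6 : |om q.1 q.2 (Bi q.1 q.2 w.1)| ≤ 1 / 1000 * ‖w‖ := by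
        refine ((om q.1 q.2).le_opNorm _).trans ?_
        calc ‖om q.1 q.2‖ * ‖Bi q.1 q.2 w.1‖ ≤ (δ * K) * (K * ‖w‖) :=
              mul_le_mul h2 h5 (norm_nonneg _) (by positivity)
          _ = (δ * K ^ 2) * ‖w‖ := by ring
          _ = 1 / 1000 * ‖w‖ := by rw [hδK2]
      have h7 : |κ * w.2 - om q.1 q.2 (Bi q.1 q.2 w.1)| ≤ 1 / 2 * ‖w‖ := by
        have h8 : |κ * w.2| ≤ 1 / 32 * ‖w‖ := by
          rw [abs_mul, abs_of_pos hκ0]
          exact mul_le_mul hκ32 h3 (abs_nonneg _) (by norm_num)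
        refine (abs_sub _ _).trans ?_
        linarith
      have h9 : (1 + η q.1 q.2)⁻¹ ≤ 2 := by
        rw [inv_le_comm₀ (by linarith) (by norm_num)]; norm_num; linarith
      calc (1 + η q.1 q.2)⁻¹ * |κ * w.2 - om q.1 q.2 (Bi q.1 q.2 w.1)| ≤ 2 * (1 / 2 * ‖w‖) :=
            mul_le_mul h9 h7 (abs_nonneg _) (by norm_num)
        _ ≤ 2 * K * ‖w‖ := by nlinarith
  have hDDi : ∀ (q : X) (w : WW), Df β (η q.1 q.2) (om q.1 q.2) (Bd q.1 q.2)
      (Dif κ (η q.1 q.2) (om q.1 q.2) (Bi q.1 q.2) w) = w := by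
    intro q w
    rw [Dif_apply, Df_apply]
    refine Prod.ext (hBdi _ _ _) ?_
    simp only
    have h1 := hηp q
    field_simp
    linear_combination w.2 * hκβ
  have hDiD : ∀ (q : X) (w : WW), Dif κ (η q.1 q.2) (om q.1 q.2) (Bi q.1 q.2)
      (Df β (η q.1 q.2) (om q.1 q.2) (Bd q.1 q.2) w) = w := by
    intro q w
    rw [Df_apply, Dif_apply]
    refine Prod.ext (hBid _ _ _) ?_
    simp only
    rw [hBid]
    have h1 := hηp q
    field_simp
    linear_combination ((1 + η q.1 q.2) * w.2 + om q.1 q.2 w.1) * hκβ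
  have cBdX : Continuous fun q : X => Bd q.1 q.2 := cBd.comp hval
  have cBiX : Continuous fun q : X => Bi q.1 q.2 := cBi.comp hval
  have c1' : Continuous fun q : X => (om q.1 q.2).comp (ContinuousLinearMap.fst ℝ R4 ℝ) :=
    com.clm_comp continuous_const
  have c2' : Continuous fun q : X => η q.1 q.2 • ContinuousLinearMap.snd ℝ R4 ℝ :=
    cη.smul continuous_const
  have c3' : Continuous fun q : X => (1 + η q.1 q.2) • ContinuousLinearMap.snd ℝ R4 ℝ :=
    (continuous_const.add cη).smul continuous_const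
  have c4' : Continuous fun q : X => (Bd q.1 q.2).comp (ContinuousLinearMap.fst ℝ R4 ℝ) :=
    cBdX.clm_comp continuous_const
  have c5' : Continuous fun q : X => (Bi q.1 q.2).comp (ContinuousLinearMap.fst ℝ R4 ℝ) :=
    cBiX.clm_comp continuous_const
  have c6' : Continuous fun q : X => (om q.1 q.2).comp
      ((Bi q.1 q.2).comp (ContinuousLinearMap.fst ℝ R4 ℝ)) := com.clm_comp c5'
  have c7' : Continuous fun q : X => (1 + η q.1 q.2)⁻¹ • (κ • ContinuousLinearMap.snd ℝ R4 ℝ -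
      (om q.1 q.2).comp ((Bi q.1 q.2).comp (ContinuousLinearMap.fst ℝ R4 ℝ))) :=
    ((continuous_const.add cη).inv₀ hηp).smul (continuous_const.sub c6')
  have c8' : Continuous fun q : X => β • ((1 + η q.1 q.2) • ContinuousLinearMap.snd ℝ R4 ℝ +
      (om q.1 q.2).comp (ContinuousLinearMap.fst ℝ R4 ℝ)) := (c3'.add c1').const_smul β
  have cB : Continuous fun q : X => Bf κ (η q.1 q.2) (om q.1 q.2) := by
    unfold Bf
    exact (c2'.add c1').const_smul (-κ)
  have cΔ : Continuous fun q : X => Df β (η q.1 q.2) (om q.1 q.2) (Bd q.1 q.2) := by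
    unfold Df
    exact (continuous_const.clm_comp c4').add (continuous_const.clm_comp c8')
  have cΔi : Continuous fun q : X => Dif κ (η q.1 q.2) (om q.1 q.2) (Bi q.1 q.2) := by
    unfold Dif
    exact (continuous_const.clm_comp c5').add (continuous_const.clm_comp c7')
  have hab : 2 * κ + 2 * δ * K < 1 / (2 * K) - 2 * δ * K := by
    rw [lt_sub_iff_add_lt, lt_div_iff₀ (by positivity)]
    nlinarith
  have htht' := htht X φ WW (fun q => κ * (1 - η q.1 q.2)) (fun q => Bf κ (η q.1 q.2) (om q.1 q.2))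
    (fun q => ((0 : R4), β * η q.1 q.2)) (fun q => Df β (η q.1 q.2) (om q.1 q.2) (Bd q.1 q.2))
    (fun q => Dif κ (η q.1 q.2) (om q.1 q.2) (Bi q.1 q.2)) (2 * κ) (2 * δ * K) (2 * K)
    (continuous_const.mul (continuous_const.sub cη)) cB
    (continuous_const.prodMk (continuous_const.mul cη)) cΔ cΔi
    (by positivity) (by positivity) (by positivity)
    (by
      intro q
      have h1 := abs_le.mp (hηb q.1 q.1.2 q.2)
      rw [abs_mul, abs_of_pos hκ0, mul_comm]
      apply mul_le_mul_of_nonneg_right _ hκ0.le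
      rw [abs_le]; constructor <;> linarith)
    hBn hΓn hDin hDDi hDiD (by nlinarith)
  obtain ⟨θ, cθ, hθ1, hθe⟩ := htht'
  -- the clamp
  have hle : (-1:ℝ) ≤ 1 := by norm_num
  let cl : ℝ → Icc (-1:ℝ) 1 := projIcc (-1) 1 hle
  have ccl : Continuous cl := continuous_projIcc
  have hcl : ∀ t (ht : t ∈ Ioo (-1:ℝ) 1), cl t = ⟨t, Ioo_subset_Icc_self ht⟩ := fun t ht =>
    projIcc_of_mem hle (Ioo_subset_Icc_self ht)
  let sl : ℝ → Tor 6 → ℝ := fun t p => (κ + β * σ (cl t, p)) / (1 + σ (cl t, p))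
  let e : ℝ → Tor 6 → V 6 := fun t p => WithLp.toLp 2 ![0, 0, 0, 0, sl t p, 1]
  let ξ : ℝ → Tor 6 → (V 6 →L[ℝ] ℝ) := fun t p => sF β γ - (θ (cl t, p)).comp (gF κ γ)
  have h1σ : ∀ q, 0 < 1 + σ q := by
    intro q
    have := (abs_le.mp (hσt q)).1
    linarith
  have ccl2 : Continuous fun q : ℝ × Tor 6 => ((cl q.1, q.2) : X) :=
    (ccl.comp continuous_fst).prodMk continuous_snd
  have csl : Continuous fun q : ℝ × Tor 6 => sl q.1 q.2 := by
    have h1 : Continuous fun q : ℝ × Tor 6 => σ (cl q.1, q.2) := cσ.comp ccl2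
    exact (continuous_const.add (continuous_const.mul h1)).div (continuous_const.add h1)
      fun q => (h1σ _).ne'
  have ce : Continuous fun q : ℝ × Tor 6 => e q.1 q.2 := by
    have h1 : Continuous fun q : ℝ × Tor 6 => (![0, 0, 0, 0, sl q.1 q.2, 1] : Fin 6 → ℝ) := by
      refine continuous_pi fun i => ?_
      fin_cases i
      · exact continuous_const
      · exact continuous_const
      · exact continuous_const
      · exact continuous_const
      · exact csl
      · exact continuous_const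
    exact (PiLp.continuous_toLp 2 _).comp h1
  have he0 : ∀ t p, e t p ≠ 0 := by
    intro t p h
    have : e t p 5 = 0 := by rw [h]; rfl
    change (1:ℝ) = 0 at this
    exact one_ne_zero this
  have cξ : Continuous fun q : ℝ × Tor 6 => ξ q.1 q.2 :=
    continuous_const.sub ((cθ.comp ccl2).clm_comp continuous_const)
  have hes : ∀ t p, sF β γ (e t p) = (1 + σ (cl t, p))⁻¹ := by
    intro t p
    rw [sF_apply]
    change γ⁻¹ * (β * 1 - (κ + β * σ (cl t, p)) / (1 + σ (cl t, p))) = _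
    have := (h1σ (cl t, p)).ne'
    field_simp
    rw [hγ]; ring
  have heg : ∀ t p, gF κ γ (e t p) = sF β γ (e t p) • ((0 : R4), σ (cl t, p)) := by
    intro t p
    rw [gF_apply, hes, Prod.smul_mk, smul_zero]
    refine Prod.ext ?_ ?_
    · funext i
      fin_cases i <;> rfl
    · rw [uF_apply]
      change γ⁻¹ * ((κ + β * σ (cl t, p)) / (1 + σ (cl t, p)) - κ * 1) = _
      have := (h1σ (cl t, p)).ne'
      simp only [smul_eq_mul]
      field_simp
      rw [hγ]; ring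
  have hξ0 : ∀ t p, ξ t p ≠ 0 := by
    intro t p h
    have h1 : ξ t p (e t p) = 0 := by rw [h]; rfl
    have h2 : ξ t p (e t p) = (1 + σ (cl t, p))⁻¹ * (1 - θ (cl t, p) ((0 : R4), σ (cl t, p))) := by
      change sF β γ (e t p) - θ (cl t, p) (gF κ γ (e t p)) = _
      rw [heg, map_smul, hes, smul_eq_mul]; ring
    rw [h1] at h2
    have h3 : |θ (cl t, p) ((0 : R4), σ (cl t, p))| < 1 := by
      have h4 := (θ (cl t, p)).le_opNorm ((0 : R4), σ (cl t, p))
      have h5 : ‖((0 : R4), σ (cl t, p))‖ ≤ 1 := by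
        rw [Prod.norm_def, norm_zero, max_eq_right (norm_nonneg _)]; exact hσ1 _
      have h6 := hθ1 (cl t, p)
      rw [Real.norm_eq_abs] at h4
      nlinarith [norm_nonneg (θ (cl t, p))]
    have h7 : 0 < (1 + σ (cl t, p))⁻¹ := inv_pos.mpr (h1σ _)
    have h8 : 0 < 1 - θ (cl t, p) ((0 : R4), σ (cl t, p)) := by
      have := (abs_lt.mp h3).2
      linarith
    have := mul_pos h7 h8
    linarith
  refine ⟨fun t p => Submodule.span ℝ {e t p}, fun t p => LinearMap.ker (ξ t p).toLinearMap, sl,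
    ?_, ?_, ?_, ?_, ?_, ?_⟩
  · intro t ht
    have htI : t ∈ Icc (-1:ℝ) 1 := Ioo_subset_Icc_self ht
    have hclt := hcl t ht
    have hFt : ContDiff ℝ ∞ (FF m N δ t) := by
      have := hsF.comp (contDiff_const.prodMk contDiff_id : ContDiff ℝ ∞ fun x : V 6 => (t, x))
      exact this
    have hGt : ContDiff ℝ ∞ (GG m N δ t) := by
      have := hsG.comp (contDiff_const.prodMk contDiff_id : ContDiff ℝ ∞ fun x : V 6 => (t, x))
      exact this
    have hFd : Differentiable ℝ (FF m N δ t) := hFt.differentiable (by simp)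
    have hGd : Differentiable ℝ (GG m N δ t) := hGt.differentiable (by simp)
    have hsurj : ∀ x, Function.Surjective (fderiv ℝ (FF m N δ t) x) := by
      intro x v
      refine ⟨fderiv ℝ (GG m N δ t) (FF m N δ t x) v, ?_⟩
      have h1 : HasFDerivAt (FF m N δ t) (fderiv ℝ (FF m N δ t) x)
          (GG m N δ t (FF m N δ t x)) := by
        rw [hGF]; exact (hFd x).hasFDerivAt
      have h2 := h1.comp (FF m N δ t x) (hGd (FF m N δ t x)).hasFDerivAt
      have h3 : FF m N δ t ∘ GG m N δ t = id := funext fun y => hFG t y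
      rw [h3] at h2
      have h4 := h2.unique (hasFDerivAt_id _)
      exact congrArg (fun L : V 6 →L[ℝ] V 6 => L v) h4
    have hφ : ∀ x, φ (⟨t, htI⟩, proj x) = (⟨t, htI⟩, proj (FF m N δ t x)) := by
      intro x
      refine Prod.ext rfl ?_
      exact hlF t x
    have hpt : Continuous fun p : Tor 6 => ((t, p) : ℝ × Tor 6) := by fun_prop
    have hcet : Continuous (e t) :=
      show Continuous ((fun q : ℝ × Tor 6 => e q.1 q.2) ∘ fun p : Tor 6 => ((t, p) : ℝ × Tor 6)) from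
        ce.comp hpt
    have hclt' : Continuous fun p : Tor 6 => ((cl t, p) : X) := by fun_prop
    have hcθt : Continuous fun p : Tor 6 => θ (cl t, p) := cθ.comp hclt'
    refine abs_split (FF m N δ t) hFd hsurj (sF β γ) (gF κ γ) (4 * β + 4) ?_
      (fun p => κ * (1 - η t p)) (fun p => Bf κ (η t p) (om t p)) (fun p => ((0 : R4), β * η t p))
      (fun p => Df β (η t p) (om t p) (Bd t p)) ?_ ?_ (2 * κ) (2 * δ * K) (1 / (2 * K))
      (by positivity) (by positivity) ?_ (fun p => hBn (⟨t, htI⟩, p)) (fun p => hΓn (⟨t, htI⟩, p))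
      ?_ hab (fun p => ((0 : R4), σ (cl t, p))) ?_ ?_ ?_ (fun p => θ (cl t, p))
      (fun p => hθ1 _) ?_ (e t) hcet hcθt ?_ (heg t) ?_
    · -- norm bound
      intro h
      set Mx := max |sF β γ h| ‖gF κ γ h‖ with hMx
      have hM0 : 0 ≤ Mx := le_max_of_le_left (abs_nonneg _)
      have hs1 : |sF β γ h| ≤ Mx := le_max_left _ _
      have hg1 : ‖gF κ γ h‖ ≤ Mx := le_max_right _ _
      rw [gF_apply, Prod.norm_def] at hg1
      have hp1 : ‖pr4 h‖ ≤ Mx := (le_max_left _ _).trans hg1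
      have hu1 : |uF κ γ h| ≤ Mx := (le_max_right _ _).trans hg1
      have hco : ∀ i : Fin 4, |pr4 h i| ≤ Mx := fun i => (norm_le_pi_norm (pr4 h) i).trans hp1
      have h5e : h 5 = sF β γ h + uF κ γ h := by
        rw [sF_apply, uF_apply]; field_simp; rw [hγ]; ring
      have h4e : h 4 = κ * sF β γ h + β * uF κ γ h := by
        rw [sF_apply, uF_apply]; field_simp; rw [hγ]; ring
      have hb5 : |h 5| ≤ (2 * β) * Mx := by
        rw [h5e]
        refine (abs_add_le _ _).trans ?_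
        nlinarith
      have hb4 : |h 4| ≤ (2 * β) * Mx := by
        rw [h4e]
        refine (abs_add_le _ _).trans ?_
        rw [abs_mul, abs_mul, abs_of_pos hκ0, abs_of_pos hβ0]
        have a1 : κ * |sF β γ h| ≤ β * Mx :=
          mul_le_mul (by linarith) hs1 (abs_nonneg _) hβ0.le
        have a2 : β * |uF κ γ h| ≤ β * Mx := mul_le_mul_of_nonneg_left hu1 hβ0.le
        linarith
      have hb0 : ∀ i : Fin 4, |pr4 h i| ≤ Mx := hco
      have hnorm : ‖h‖ ^ 2 ≤ ((4 * β + 4) * Mx) ^ 2 := by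
        rw [EuclideanSpace.norm_sq_eq, Fin.sum_univ_six]
        simp only [Real.norm_eq_abs]
        have c0 : |h 0| ≤ Mx := hb0 0
        have c1 : |h 1| ≤ Mx := hb0 1
        have c2 : |h 2| ≤ Mx := hb0 2
        have c3 : |h 3| ≤ Mx := hb0 3
        have d0 := pow_le_pow_left₀ (abs_nonneg (h 0)) c0 2
        have d1 := pow_le_pow_left₀ (abs_nonneg (h 1)) c1 2
        have d2 := pow_le_pow_left₀ (abs_nonneg (h 2)) c2 2
        have d3 := pow_le_pow_left₀ (abs_nonneg (h 3)) c3 2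
        have d4 := pow_le_pow_left₀ (abs_nonneg (h 4)) hb4 2
        have d5 := pow_le_pow_left₀ (abs_nonneg (h 5)) hb5 2
        have hM2 : 0 ≤ Mx ^ 2 := sq_nonneg _
        have : 4 * Mx ^ 2 + 2 * ((2 * β) * Mx) ^ 2 ≤ ((4 * β + 4) * Mx) ^ 2 := by
          have : ((4 * β + 4) * Mx) ^ 2 = (4 * β + 4) ^ 2 * Mx ^ 2 := by ring
          rw [this, mul_pow]
          nlinarith [mul_nonneg (mul_nonneg hβ0.le hβ0.le) hM2, mul_nonneg hβ0.le hM2]
        linarith
      exact le_of_sq_le_sq hnorm (by positivity)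
    · -- s formula
      intro x h
      rw [sF_apply, hD]
      change γ⁻¹ * (β * (h 4 + ep N δ t * (h5 (proj x) * h 5 + hw (proj x) (pr4 h))) -
        ((m : ℝ) * (h 4 + ep N δ t * (h5 (proj x) * h 5 + hw (proj x) (pr4 h))) - h 5)) =
        κ * (1 - η t (proj x)) * sF β γ h + Bf κ (η t (proj x)) (om t (proj x)) (gF κ γ h)
      rw [Bf_apply, gF_apply]
      change _ = κ * (1 - ep N δ t * h5 (proj x) / γ) * sF β γ h +
        -κ * (ep N δ t * h5 (proj x) / γ * uF κ γ h + (ep N δ t / γ) * hw (proj x) (pr4 h))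
      rw [sF_apply, uF_apply, ← hsum]
      exact s_alg hκβ (by rw [← hγ]; exact hγ0.ne')
    · -- g formula
      intro x h
      rw [gF_apply, gF_apply, Df_apply, hD, Prod.smul_mk, smul_zero, Prod.mk_add_mk, zero_add]
      refine Prod.ext ?_ ?_
      · funext i
        fin_cases i <;> rfl
      · rw [uF_apply]
        change γ⁻¹ * (((m : ℝ) * (h 4 + ep N δ t * (h5 (proj x) * h 5 + hw (proj x) (pr4 h))) -
          h 5) - κ * (h 4 + ep N δ t * (h5 (proj x) * h 5 + hw (proj x) (pr4 h)))) =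
          sF β γ h * (β * (ep N δ t * h5 (proj x) / γ)) + β * ((1 + ep N δ t * h5 (proj x) / γ) *
            uF κ γ h + (ep N δ t / γ) * hw (proj x) (pr4 h))
        rw [sF_apply, uF_apply, ← hsum]
        exact g_alg hκβ (by rw [← hγ]; exact hγ0.ne')
    · intro p
      have h1 := abs_le.mp (hηb t htI p)
      rw [abs_mul, abs_of_pos hκ0, mul_comm]
      apply mul_le_mul_of_nonneg_right _ hκ0.le
      rw [abs_le]; constructor <;> linarith
    · intro p w
      have h1 := hDiD (⟨t, htI⟩, p) w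
      have h2 := (Dif κ (η t p) (om t p) (Bi t p)).le_opNorm (Df β (η t p) (om t p) (Bd t p) w)
      have h3 : Dif κ (η t p) (om t p) (Bi t p) (Df β (η t p) (om t p) (Bd t p) w) = w := h1
      rw [h3] at h2
      have h4 := hDin (⟨t, htI⟩, p)
      have h4' : ‖Dif κ (η t p) (om t p) (Bi t p)‖ ≤ 2 * K := h4
      have h5 : ‖w‖ ≤ 2 * K * ‖Df β (η t p) (om t p) (Bd t p) w‖ :=
        h2.trans (mul_le_mul_of_nonneg_right h4' (norm_nonneg _))
      rw [one_div, inv_mul_le_iff₀ (by positivity)]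
      exact h5
    · intro p
      rw [Prod.norm_def, norm_zero, max_eq_right (norm_nonneg _)]
      exact hσ1 _
    · intro x
      have h1 := hσe (⟨t, htI⟩, proj x)
      rw [hφ] at h1
      simp only at h1 ⊢
      rw [hclt, Df_apply, Bf_apply, Prod.mk_add_mk, Prod.smul_mk, smul_zero, smul_eq_mul]
      simp only [map_zero, add_zero]
      refine Prod.ext ?_ ?_
      · simp
      · simp only
        linear_combination h1
    · intro p
      rw [hclt, Bf_apply]
      simp only [map_zero, add_zero]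
      have h1 := abs_le.mp (hηb t htI p)
      have h2 := abs_le.mp (hσt (⟨t, htI⟩, p))
      have h3 : |η t p * σ (⟨t, htI⟩, p)| ≤ 1 / 1000 := by
        rw [abs_mul]
        have := hηb t htI p
        have := hσt (⟨t, htI⟩, p)
        nlinarith [abs_nonneg (η t p), abs_nonneg (σ (⟨t, htI⟩, p))]
      have h4 := abs_le.mp h3
      have h5 : κ * (1 - η t p) + -κ * (η t p * σ (⟨t, htI⟩, p)) =
        κ * (1 - η t p - η t p * σ (⟨t, htI⟩, p)) := by ring
      rw [h5]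
      have : 0 < 1 - η t p - η t p * σ (⟨t, htI⟩, p) := by linarith
      positivity
    · intro x w
      have h1 := hθe (⟨t, htI⟩, proj x) w
      rw [hφ] at h1
      simp only at h1 ⊢
      rw [hclt]
      exact h1
    · intro p
      rw [hes]
      exact inv_ne_zero (h1σ _).ne'
    · intro h h' hs hg
      rw [gF_apply, gF_apply] at hg
      have g1 : pr4 h = pr4 h' := congrArg Prod.fst hg
      have g2 : uF κ γ h = uF κ γ h' := congrArg Prod.snd hg
      have h5e : ∀ h : V 6, h 5 = sF β γ h + uF κ γ h := by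
        intro h; rw [sF_apply, uF_apply]; field_simp; rw [hγ]; ring
      have h4e : ∀ h : V 6, h 4 = κ * sF β γ h + β * uF κ γ h := by
        intro h; rw [sF_apply, uF_apply]; field_simp; rw [hγ]; ring
      ext i
      fin_cases i
      · exact congrFun g1 0
      · exact congrFun g1 1
      · exact congrFun g1 2
      · exact congrFun g1 3
      · change h 4 = h' 4
        rw [h4e h, h4e h', hs, g2]
      · change h 5 = h' 5
        rw [h5e h, h5e h', hs, g2]
  · exact (cont_line (fun q : ℝ × Tor 6 => e q.1 q.2) ce fun q => he0 _ _).continuousOn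
  · exact (cont_hyper (fun q : ℝ × Tor 6 => ξ q.1 q.2) cξ fun q => hξ0 _ _).continuousOn
  · intro t _ p; rfl
  · intro t _
    have hpt : Continuous fun p : Tor 6 => ((t, p) : ℝ × Tor 6) := by fun_prop
    exact show Continuous ((fun q : ℝ × Tor 6 => sl q.1 q.2) ∘
      fun p : Tor 6 => ((t, p) : ℝ × Tor 6)) from csl.comp hpt
  · intro t _ p
    have h1 := h1σ (cl t, p)
    have h2 := hσs (cl t, p)
    have h3 := hσt (cl t, p)
    have h4 : |β * σ (cl t, p)| ≤ 16 / 1000 := by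
      rw [abs_mul, abs_of_pos hβ0]; linarith
    have h5 := abs_le.mp h4
    have h6 := abs_le.mp h3
    change |(κ + β * σ (cl t, p)) / (1 + σ (cl t, p))| ≤ 1 / 4
    rw [abs_div, abs_of_pos h1, div_le_iff₀ h1, abs_le]
    constructor <;> linarith

end Pool.Agent.Q66.LE
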