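import Pool.Agent.Q66.LEj4

/-! J3: smoothness of the family. -/

open Real Set MeasureTheory Filter Topology
open scoped ContDiff

noncomputable section

namespace Pool.Agent.Q66.LE


theorem smooth_st : ContDiff ℝ ∞ st := by
  unfold st
  exact Real.smoothTransition.contDiff.comp (by fun_prop)

theorem smooth_c1 : ContDiff ℝ ∞ c1 := by unfold c1; exact smooth_st.comp (by fun_prop)
theorem smooth_c2 : ContDiff ℝ ∞ c2 := by unfold c2; exact smooth_st.comp (by fun_prop)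
theorem smooth_al : ContDiff ℝ ∞ al := by unfold al; exact smooth_st.comp (by fun_prop)
theorem smooth_v1 : ContDiff ℝ ∞ v1 := by unfold v1; exact smooth_st.comp (by fun_prop)

theorem smooth_pp : ContDiff ℝ ∞ pp := by
  rw [contDiff_iff_contDiffAt]
  intro x
  by_cases h : 0 < cos (2 * π * x)
  · have hs : sin (2 * π * x) ^ 2 < 1 := by
      have := Real.sin_sq_add_cos_sq (2 * π * x)
      nlinarith [sq_pos_of_pos h]
    have h1 : sin (2 * π * x) ≠ 1 := by intro h; rw [h] at hs; norm_num at hs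
    have h2 : sin (2 * π * x) ≠ -1 := by intro h; rw [h] at hs; norm_num at hs
    have ha : ContDiffAt ℝ ∞ arcsin (sin (2 * π * x)) := Real.contDiffAt_arcsin h2 h1
    have hb : ContDiffAt ℝ ∞ (arcsin ∘ fun x : ℝ => sin (2 * π * x)) x :=
      ContDiffAt.comp x ha (by fun_prop)
    have hc : ContDiffAt ℝ ∞ (fun x : ℝ => st (cos (2 * π * x))) x :=
      (smooth_st.comp (by fun_prop : ContDiff ℝ ∞ fun x : ℝ => cos (2 * π * x))).contDiffAt
    exact (hc.mul hb).div_const _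
  · have hlt : cos (2 * π * x) < 3 / 4 := by linarith
    have hev : pp =ᶠ[𝓝 x] fun _ => 0 := by
      have hopen : ∀ᶠ y in 𝓝 x, cos (2 * π * y) < 3 / 4 := by
        have hc : Continuous fun y : ℝ => cos (2 * π * y) := by fun_prop
        exact hc.continuousAt.eventually (gt_mem_nhds hlt)
      filter_upwards [hopen] with y hy
      unfold pp
      rw [st_zero hy.le]; simp
    exact contDiffAt_const.congr_of_eventuallyEq hev

section
variable {X : Type*} [NormedAddCommGroup X] [NormedSpace ℝ X]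

theorem sm_Lo {c : X → ℝ} {y : X → ℝ × ℝ} (hc : ContDiff ℝ ∞ c)
    (hy : ContDiff ℝ ∞ y) : ContDiff ℝ ∞ fun x => Lo (c x) (y x) := by
  unfold Lo
  exact (contDiff_fst.comp hy).prodMk ((contDiff_snd.comp hy).add
    (hc.mul (smooth_pp.comp (contDiff_fst.comp hy))))

theorem sm_U {c : X → ℝ} {y : X → ℝ × ℝ} (hc : ContDiff ℝ ∞ c)
    (hy : ContDiff ℝ ∞ y) : ContDiff ℝ ∞ fun x => U (c x) (y x) := by
  unfold U
  exact ((contDiff_fst.comp hy).add
    (hc.mul (smooth_pp.comp (contDiff_snd.comp hy)))).prodMk (contDiff_snd.comp hy)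

theorem sm_psi {l : X → ℝ} {y : X → ℝ × ℝ} (hl : ContDiff ℝ ∞ l) (hl0 : ∀ x, l x ≠ 0)
    (hy : ContDiff ℝ ∞ y) : ContDiff ℝ ∞ fun x => psi (l x) (y x) := by
  unfold psi
  exact sm_Lo ((hl.sub contDiff_const).neg.div hl hl0) (sm_U contDiff_const
    (sm_Lo (hl.sub contDiff_const) (sm_U (contDiff_const.div hl hl0) hy)))

theorem sm_psiInv {l : X → ℝ} {y : X → ℝ × ℝ} (hl : ContDiff ℝ ∞ l) (hl0 : ∀ x, l x ≠ 0)
    (hy : ContDiff ℝ ∞ y) : ContDiff ℝ ∞ fun x => psiInv (l x) (y x) := by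
  unfold psiInv
  exact sm_U (contDiff_const.div hl hl0) (sm_Lo (hl.sub contDiff_const).neg
    (sm_U contDiff_const (sm_Lo ((hl.sub contDiff_const).div hl hl0) hy)))

theorem c2_nonneg (x : ℝ) : 0 ≤ c2 x := st_nonneg _

theorem sm_fib {t a : X → ℝ} {y : X → ℝ × ℝ} (ht : ContDiff ℝ ∞ t) (ha : ContDiff ℝ ∞ a)
    (hy : ContDiff ℝ ∞ y) : ContDiff ℝ ∞ fun x => fib (t x) (a x) (y x) := by
  unfold fib
  have h1 : ContDiff ℝ ∞ fun x => psiInv (1 + c1 (a x)) (y x) :=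
    sm_psiInv (contDiff_const.add (smooth_c1.comp ha))
      (fun z => by have := c1_nonneg (a z); positivity) hy
  refine sm_psi (contDiff_const.add (smooth_c2.comp ha))
    (fun z => by have := c2_nonneg (a z); positivity) ?_
  exact ((contDiff_fst.comp h1).add (ht.mul (smooth_al.comp ha))).prodMk (contDiff_snd.comp h1)

theorem sm_fibInv {t a : X → ℝ} {y : X → ℝ × ℝ} (ht : ContDiff ℝ ∞ t) (ha : ContDiff ℝ ∞ a)
    (hy : ContDiff ℝ ∞ y) : ContDiff ℝ ∞ fun x => fibInv (t x) (a x) (y x) := by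
  unfold fibInv
  have h1 : ContDiff ℝ ∞ fun x => psiInv (1 + c2 (a x)) (y x) :=
    sm_psiInv (contDiff_const.add (smooth_c2.comp ha))
      (fun z => by have := c2_nonneg (a z); positivity) hy
  refine sm_psi (contDiff_const.add (smooth_c1.comp ha))
    (fun z => by have := c1_nonneg (a z); positivity) ?_
  exact ((contDiff_fst.comp h1).sub (ht.mul (smooth_al.comp ha))).prodMk (contDiff_snd.comp h1)

end

theorem U_U (c d : ℝ) (y : ℝ × ℝ) : U c (U d y) = U (c + d) y := by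
  unfold U; refine Prod.ext ?_ rfl; simp only []; ring

theorem Lo_Lo (c d : ℝ) (y : ℝ × ℝ) : Lo c (Lo d y) = Lo (c + d) y := by
  unfold Lo; refine Prod.ext rfl ?_; simp only []; ring

theorem U_zero (y : ℝ × ℝ) : U 0 y = y := by unfold U; simp

theorem Lo_zero (y : ℝ × ℝ) : Lo 0 y = y := by unfold Lo; simp

theorem psi_psiInv (l : ℝ) (y : ℝ × ℝ) : psi l (psiInv l y) = y := by
  unfold psi psiInv
  rw [U_U, show -1 / l + 1 / l = 0 by ring, U_zero, Lo_Lo, show l - 1 + -(l - 1) = 0 by ring,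
    Lo_zero, U_U, show (1:ℝ) + -1 = 0 by ring, U_zero, Lo_Lo,
    show -(l - 1) / l + (l - 1) / l = 0 by ring, Lo_zero]

theorem psiInv_psi (l : ℝ) (y : ℝ × ℝ) : psiInv l (psi l y) = y := by
  unfold psi psiInv
  rw [Lo_Lo, show (l - 1) / l + -(l - 1) / l = 0 by ring, Lo_zero, U_U,
    show (-1:ℝ) + 1 = 0 by ring, U_zero, Lo_Lo, show -(l - 1) + (l - 1) = 0 by ring,
    Lo_zero, U_U, show 1 / l + -1 / l = 0 by ring, U_zero]

theorem fibInv_fib (t x : ℝ) (y : ℝ × ℝ) : fibInv t x (fib t x y) = y := by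
  unfold fibInv fib
  rw [psiInv_psi]
  simp only [add_sub_cancel_right]
  exact psi_psiInv _ _

theorem fib_fibInv (t x : ℝ) (y : ℝ × ℝ) : fib t x (fibInv t x y) = y := by
  unfold fibInv fib
  rw [psiInv_psi]
  simp only [sub_add_cancel]
  exact psi_psiInv _ _

/-! lifts -/

/-- the projection of the plane -/
def pj (y : ℝ × ℝ) : UnitAddCircle × UnitAddCircle := ((y.1 : UnitAddCircle), (y.2 : UnitAddCircle))

theorem UT_pj (c : ℝ) (y : ℝ × ℝ) : UT c (pj y) = pj (U c y) := UT_coe c y.1 y.2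
theorem LoT_pj (c : ℝ) (y : ℝ × ℝ) : LoT c (pj y) = pj (Lo c y) := LoT_coe c y.1 y.2
theorem trT_pj (c : ℝ) (y : ℝ × ℝ) : trT c (pj y) = pj (y.1 + c, y.2) := by
  unfold trT pj; rw [AddCircle.coe_add]

theorem psiT_pj (l : ℝ) (y : ℝ × ℝ) : psiT l (pj y) = pj (psi l y) := by
  unfold psiT psi; rw [UT_pj, LoT_pj, UT_pj, LoT_pj]

theorem psiInvT_pj (l : ℝ) (y : ℝ × ℝ) : psiInvT l (pj y) = pj (psiInv l y) := by
  unfold psiInvT psiInv; rw [LoT_pj, UT_pj, LoT_pj, UT_pj]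

theorem fibT_pj (t x : ℝ) (y : ℝ × ℝ) : fibT t (x : UnitAddCircle) (pj y) = pj (fib t x y) := by
  rw [fibT_coe, psiInvT_pj, trT_pj, psiT_pj]; rfl

theorem fibInvT_pj (t x : ℝ) (y : ℝ × ℝ) : fibInvT t (x : UnitAddCircle) (pj y) = pj (fibInv t x y) := by
  unfold fibInvT fibInv
  rw [c1T_coe, c2T_coe, alT_coe, psiInvT_pj, trT_pj, psiT_pj, sub_eq_add_neg]

/-! the smooth lifts -/

theorem sm_coord (i : Fin 6) : ContDiff ℝ ∞ fun q : ℝ × V 6 => q.2 i :=
  (contDiff_piLp_apply (p := 2) (𝕜 := ℝ) (i := i)).comp contDiff_snd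

theorem sm_ep (N : ℕ) (δ : ℝ) : ContDiff ℝ ∞ fun q : ℝ × V 6 => ep N δ q.1 := by
  unfold ep; fun_prop

theorem sm_zz (N : ℕ) (δ : ℝ) : ContDiff ℝ ∞ fun q : ℝ × V 6 => zz N δ q.1 q.2 := by
  unfold zz
  have hs : ContDiff ℝ ∞ fun q : ℝ × V 6 => sin (2 * π * q.2 5) :=
    Real.contDiff_sin.comp (contDiff_const.mul (sm_coord 5))
  have hc : ContDiff ℝ ∞ fun q : ℝ × V 6 => cos (2 * π * q.2 2) :=
    Real.contDiff_cos.comp (contDiff_const.mul (sm_coord 2))
  exact (sm_coord 4).add (((sm_ep N δ).mul ((smooth_v1.comp (sm_coord 0)).mul hc)).mul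
    (hs.div_const _))

theorem sm_fibq : ContDiff ℝ ∞ fun q : ℝ × V 6 => fib q.1 (q.2 0) (q.2 2, q.2 3) :=
  sm_fib contDiff_fst (sm_coord 0) ((sm_coord 2).prodMk (sm_coord 3))

theorem sm_fibInvq : ContDiff ℝ ∞ fun q : ℝ × V 6 =>
    fibInv q.1 (q.2 0 - q.2 1) (q.2 2, q.2 3) :=
  sm_fibInv contDiff_fst ((sm_coord 0).sub (sm_coord 1)) ((sm_coord 2).prodMk (sm_coord 3))

theorem sm_FF (m N : ℕ) (δ : ℝ) : ContDiff ℝ ∞ (fun q : ℝ × V 6 => FF m N δ q.1 q.2) := by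
  rw [contDiff_euclidean]
  intro i
  fin_cases i
  · exact (sm_coord 0).add (sm_coord 1)
  · exact sm_coord 1
  · exact contDiff_fst.comp sm_fibq
  · exact contDiff_snd.comp sm_fibq
  · exact (contDiff_const.mul (sm_zz N δ)).sub (sm_coord 5)
  · exact sm_zz N δ

theorem sm_GG (m N : ℕ) (δ : ℝ) : ContDiff ℝ ∞ (fun q : ℝ × V 6 => GG m N δ q.1 q.2) := by
  rw [contDiff_euclidean]
  intro i
  have h4 : ContDiff ℝ ∞ fun q : ℝ × V 6 => (m : ℝ) * q.2 5 - q.2 4 :=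
    (contDiff_const.mul (sm_coord 5)).sub (sm_coord 4)
  fin_cases i
  · exact (sm_coord 0).sub (sm_coord 1)
  · exact sm_coord 1
  · exact contDiff_fst.comp sm_fibInvq
  · exact contDiff_snd.comp sm_fibInvq
  · have hc : ContDiff ℝ ∞ fun q : ℝ × V 6 =>
        cos (2 * π * (fibInv q.1 (q.2 0 - q.2 1) (q.2 2, q.2 3)).1) :=
      Real.contDiff_cos.comp (contDiff_const.mul (contDiff_fst.comp sm_fibInvq))
    have hs : ContDiff ℝ ∞ fun q : ℝ × V 6 => sin (2 * π * ((m : ℝ) * q.2 5 - q.2 4)) :=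
      Real.contDiff_sin.comp (contDiff_const.mul h4)
    exact (sm_coord 5).sub (((sm_ep N δ).mul ((smooth_v1.comp ((sm_coord 0).sub
      (sm_coord 1))).mul hc)).mul (hs.div_const _))
  · exact h4

theorem GG_FF (m N : ℕ) (δ t : ℝ) (x : V 6) : GG m N δ t (FF m N δ t x) = x := by
  have f0 : FF m N δ t x 0 = x 0 + x 1 := rfl
  have f1 : FF m N δ t x 1 = x 1 := rfl
  have f2 : FF m N δ t x 2 = (fib t (x 0) (x 2, x 3)).1 := rfl
  have f3 : FF m N δ t x 3 = (fib t (x 0) (x 2, x 3)).2 := rfl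
  have f4 : FF m N δ t x 4 = (m : ℝ) * zz N δ t x - x 5 := rfl
  have f5 : FF m N δ t x 5 = zz N δ t x := rfl
  have e0 : x 0 + x 1 - x 1 = x 0 := by ring
  have e5 : (m : ℝ) * zz N δ t x - ((m : ℝ) * zz N δ t x - x 5) = x 5 := by ring
  unfold GG
  rw [f0, f1, f2, f3, f4, f5, e0, e5, Prod.mk.eta, fibInv_fib]
  ext i
  fin_cases i
  · rfl
  · rfl
  · rfl
  · rfl
  · change zz N δ t x - ep N δ t * (v1 (x 0) * cos (2 * π * x 2)) *
      (sin (2 * π * x 5) / (2 * π)) = x 4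
    unfold zz; ring
  · rfl

theorem FF_GG (m N : ℕ) (δ t : ℝ) (x : V 6) : FF m N δ t (GG m N δ t x) = x := by
  set y := GG m N δ t x with hy
  have g0 : y 0 = x 0 - x 1 := rfl
  have g1 : y 1 = x 1 := rfl
  have g2 : y 2 = (fibInv t (x 0 - x 1) (x 2, x 3)).1 := rfl
  have g3 : y 3 = (fibInv t (x 0 - x 1) (x 2, x 3)).2 := rfl
  have g4 : y 4 = x 5 - ep N δ t * (v1 (x 0 - x 1) *
    cos (2 * π * (fibInv t (x 0 - x 1) (x 2, x 3)).1)) *
      (sin (2 * π * ((m : ℝ) * x 5 - x 4)) / (2 * π)) := rfl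
  have g5 : y 5 = (m : ℝ) * x 5 - x 4 := rfl
  have hz : zz N δ t y = x 5 := by
    unfold zz
    rw [g0, g2, g4, g5]; ring
  unfold FF
  rw [hz, g0, g1, g2, g3, g5, Prod.mk.eta, fib_fibInv]
  ext i
  fin_cases i
  · change x 0 - x 1 + x 1 = x 0
    ring
  · rfl
  · rfl
  · rfl
  · change (m : ℝ) * x 5 - ((m : ℝ) * x 5 - x 4) = x 4
    ring
  · rfl

end Pool.Agent.Q66.LE
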