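import Pool.Agent.Q66.LEj3

/-! J3, second part: descent to the torus. -/

open Real Set MeasureTheory Filter Topology
open scoped ContDiff

noncomputable section

namespace Pool.Agent.Q66.LE


theorem sinT_coe (x : ℝ) : sinT (x : UnitAddCircle) = sin (2 * π * x) := per_sinf.lift_coe x
theorem v1T_coe' (x : ℝ) : v1T (x : UnitAddCircle) = v1 x := per_v1.lift_coe x
theorem cosT_coe' (x : ℝ) : cosT (x : UnitAddCircle) = cos (2 * π * x) := per_cosf.lift_coe x

theorem proj_apply' {d : ℕ} (x : V d) (i : Fin d) : proj x i = ((x i : ℝ) : UnitAddCircle) := rfl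

theorem nsmul_coe (m : ℕ) (x : ℝ) : m • (x : UnitAddCircle) = (((m : ℝ) * x : ℝ) : UnitAddCircle) := by
  rw [← AddCircle.coe_nsmul, nsmul_eq_mul]

theorem zzT_proj (N : ℕ) (δ t : ℝ) (x : V 6) : zzT N δ t (proj x) = ((zz N δ t x : ℝ) : UnitAddCircle) := by
  unfold zzT zz
  simp only [proj_apply', v1T_coe', cosT_coe', sinT_coe]
  rw [← AddCircle.coe_add]

theorem fT_proj (m N : ℕ) (δ t : ℝ) (x : V 6) : fT m N δ t (proj x) = proj (FF m N δ t x) := by
  have hf : fibT t (proj x 0) (proj x 2, proj x 3) = pj (fib t (x 0) (x 2, x 3)) :=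
    fibT_pj t (x 0) (x 2, x 3)
  unfold fT
  rw [hf, zzT_proj, nsmul_coe]
  funext i
  fin_cases i
  · change ((x 0 : ℝ) : UnitAddCircle) + ((x 1 : ℝ) : UnitAddCircle) = (((x 0 + x 1 : ℝ)) : UnitAddCircle)
    rw [AddCircle.coe_add]
  · rfl
  · rfl
  · rfl
  · change (((m : ℝ) * zz N δ t x : ℝ) : UnitAddCircle) - ((x 5 : ℝ) : UnitAddCircle) = (((m : ℝ) * zz N δ t x - x 5 : ℝ) : UnitAddCircle)
    rw [AddCircle.coe_sub]
  · rfl

theorem gT_proj (m N : ℕ) (δ t : ℝ) (x : V 6) : gT m N δ t (proj x) = proj (GG m N δ t x) := by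
  have h0 : proj x 0 - proj x 1 = ((x 0 - x 1 : ℝ) : UnitAddCircle) := by
    rw [AddCircle.coe_sub]; rfl
  have hf : fibInvT t ((x 0 - x 1 : ℝ) : UnitAddCircle) (proj x 2, proj x 3) =
      pj (fibInv t (x 0 - x 1) (x 2, x 3)) := fibInvT_pj t (x 0 - x 1) (x 2, x 3)
  have h5 : m • proj x 5 - proj x 4 = (((m : ℝ) * x 5 - x 4 : ℝ) : UnitAddCircle) := by
    rw [proj_apply', proj_apply', nsmul_coe, AddCircle.coe_sub]
  unfold gT
  rw [h0, hf, h5]
  funext i
  fin_cases i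
  · rfl
  · rfl
  · rfl
  · rfl
  · change ((x 5 : ℝ) : UnitAddCircle) - ((ep N δ t * (v1T ((x 0 - x 1 : ℝ) : UnitAddCircle) *
      cosT (((fibInv t (x 0 - x 1) (x 2, x 3)).1 : ℝ) : UnitAddCircle)) *
      (sinT (((m : ℝ) * x 5 - x 4 : ℝ) : UnitAddCircle) / (2 * π)) : ℝ) : UnitAddCircle) =
      ((x 5 - ep N δ t * (v1 (x 0 - x 1) * cos (2 * π * (fibInv t (x 0 - x 1) (x 2, x 3)).1)) *
      (sin (2 * π * ((m : ℝ) * x 5 - x 4)) / (2 * π)) : ℝ) : UnitAddCircle)
    rw [v1T_coe', cosT_coe', sinT_coe, AddCircle.coe_sub]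
  · rfl

theorem cont_co (i : Fin 6) : Continuous fun q : ℝ × Tor 6 => q.2 i :=
  (continuous_apply i).comp continuous_snd

theorem cont_ep (N : ℕ) (δ : ℝ) : Continuous fun q : ℝ × Tor 6 => ep N δ q.1 := by
  unfold ep; fun_prop

theorem cont_zzT (N : ℕ) (δ : ℝ) : Continuous fun q : ℝ × Tor 6 => zzT N δ q.1 q.2 := by
  unfold zzT
  refine (cont_co 4).add (continuous_coe.comp ?_)
  exact ((cont_ep N δ).mul ((continuous_v1T.comp (cont_co 0)).mul
    (continuous_cosT.comp (cont_co 2)))).mul ((continuous_sinT.comp (cont_co 5)).div_const _)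

theorem cont_fT (m N : ℕ) (δ : ℝ) : Continuous (fun q : ℝ × Tor 6 => fT m N δ q.1 q.2) := by
  have hf : Continuous fun q : ℝ × Tor 6 => fibT q.1 (q.2 0) (q.2 2, q.2 3) :=
    cont_fibT continuous_fst (cont_co 0) ((cont_co 2).prodMk (cont_co 3))
  refine continuous_pi fun i => ?_
  fin_cases i
  · exact (cont_co 0).add (cont_co 1)
  · exact cont_co 1
  · exact continuous_fst.comp hf
  · exact continuous_snd.comp hf
  · exact ((cont_zzT N δ).const_smul m).sub (cont_co 5)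
  · exact cont_zzT N δ

theorem cont_gT (m N : ℕ) (δ : ℝ) : Continuous (fun q : ℝ × Tor 6 => gT m N δ q.1 q.2) := by
  have h0 : Continuous fun q : ℝ × Tor 6 => q.2 0 - q.2 1 := (cont_co 0).sub (cont_co 1)
  have hf : Continuous fun q : ℝ × Tor 6 => fibInvT q.1 (q.2 0 - q.2 1) (q.2 2, q.2 3) :=
    cont_fibInvT continuous_fst h0 ((cont_co 2).prodMk (cont_co 3))
  have h5 : Continuous fun q : ℝ × Tor 6 => m • q.2 5 - q.2 4 :=
    ((cont_co 5).const_smul m).sub (cont_co 4)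
  refine continuous_pi fun i => ?_
  fin_cases i
  · exact h0
  · exact cont_co 1
  · exact continuous_fst.comp hf
  · exact continuous_snd.comp hf
  · refine (cont_co 5).sub (continuous_coe.comp ?_)
    exact ((cont_ep N δ).mul ((continuous_v1T.comp h0).mul
      (continuous_cosT.comp (continuous_fst.comp hf)))).mul
      ((continuous_sinT.comp h5).div_const _)
  · exact h5

theorem fam : S_fam := fun m N δ =>
  ⟨sm_FF m N δ, sm_GG m N δ, GG_FF m N δ, FF_GG m N δ, fT_proj m N δ, gT_proj m N δ,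
    cont_fT m N δ, cont_gT m N δ⟩

end Pool.Agent.Q66.LE
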