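import Pool.Agent.Q66.LEj8c

/-! J4: the measure. -/

open Real Set MeasureTheory Filter Topology
open scoped ContDiff

noncomputable section

namespace Pool.Agent.Q66.LE


theorem c1T_nonneg (x : UnitAddCircle) : 0 ≤ c1T x := by
  induction x using QuotientAddGroup.induction_on with
  | H a => exact st_nonneg _
theorem c2T_nonneg (x : UnitAddCircle) : 0 ≤ c2T x := by
  induction x using QuotientAddGroup.induction_on with
  | H a => exact st_nonneg _

/-- continuity of the shears in all variables -/
theorem cont_LoT {X : Type*} [TopologicalSpace X] {c : X → ℝ} {y : X → UnitAddCircle × UnitAddCircle} (hc : Continuous c)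
    (hy : Continuous y) : Continuous fun x => LoT (c x) (y x) := by
  unfold LoT
  refine (continuous_fst.comp hy).prodMk ((continuous_snd.comp hy).add ?_)
  exact continuous_coe.comp (hc.mul (continuous_ppT.comp (continuous_fst.comp hy)))

theorem cont_UT {X : Type*} [TopologicalSpace X] {c : X → ℝ} {y : X → UnitAddCircle × UnitAddCircle} (hc : Continuous c)
    (hy : Continuous y) : Continuous fun x => UT (c x) (y x) := by
  unfold UT
  refine Continuous.prodMk ((continuous_fst.comp hy).add ?_) (continuous_snd.comp hy)
  exact continuous_coe.comp (hc.mul (continuous_ppT.comp (continuous_snd.comp hy)))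

theorem cont_trT {X : Type*} [TopologicalSpace X] {c : X → ℝ} {y : X → UnitAddCircle × UnitAddCircle} (hc : Continuous c)
    (hy : Continuous y) : Continuous fun x => trT (c x) (y x) := by
  unfold trT
  exact Continuous.prodMk ((continuous_fst.comp hy).add (continuous_coe.comp hc))
    (continuous_snd.comp hy)

theorem cont_psiT {X : Type*} [TopologicalSpace X] {l : X → ℝ} {y : X → UnitAddCircle × UnitAddCircle} (hl : Continuous l)
    (hl0 : ∀ x, l x ≠ 0) (hy : Continuous y) : Continuous fun x => psiT (l x) (y x) := by
  unfold psiT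
  exact cont_LoT ((hl.sub continuous_const).neg.div hl hl0) (cont_UT continuous_const
    (cont_LoT (hl.sub continuous_const) (cont_UT (continuous_const.div hl hl0) hy)))

theorem cont_psiInvT {X : Type*} [TopologicalSpace X] {l : X → ℝ} {y : X → UnitAddCircle × UnitAddCircle}
    (hl : Continuous l) (hl0 : ∀ x, l x ≠ 0) (hy : Continuous y) :
    Continuous fun x => psiInvT (l x) (y x) := by
  unfold psiInvT
  exact cont_UT (continuous_const.div hl hl0) (cont_LoT (hl.sub continuous_const).neg
    (cont_UT continuous_const (cont_LoT ((hl.sub continuous_const).div hl hl0) hy)))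

theorem cont_fibT {X : Type*} [TopologicalSpace X] {t : X → ℝ} {x : X → UnitAddCircle} {y : X → UnitAddCircle × UnitAddCircle}
    (ht : Continuous t) (hx : Continuous x) (hy : Continuous y) :
    Continuous fun z => fibT (t z) (x z) (y z) := by
  unfold fibT
  refine cont_psiT (continuous_const.add (continuous_c2T.comp hx))
    (fun z => by have := c2T_nonneg (x z); positivity) ?_
  refine cont_trT (ht.mul (continuous_alT.comp hx)) ?_
  exact cont_psiInvT (continuous_const.add (continuous_c1T.comp hx))
    (fun z => by have := c1T_nonneg (x z); positivity) hy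

theorem cont_fibInvT {X : Type*} [TopologicalSpace X] {t : X → ℝ} {x : X → UnitAddCircle} {y : X → UnitAddCircle × UnitAddCircle}
    (ht : Continuous t) (hx : Continuous x) (hy : Continuous y) :
    Continuous fun z => fibInvT (t z) (x z) (y z) := by
  unfold fibInvT
  refine cont_psiT (continuous_const.add (continuous_c1T.comp hx))
    (fun z => by have := c1T_nonneg (x z); positivity) ?_
  refine cont_trT (ht.mul (continuous_alT.comp hx)).neg ?_
  exact cont_psiInvT (continuous_const.add (continuous_c2T.comp hx))
    (fun z => by have := c2T_nonneg (x z); positivity) hy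

theorem cont_bT : Continuous (fun q : ℝ × Bs => bT q.1 q.2) := by
  unfold bT
  refine Continuous.prodMk (by fun_prop) (Continuous.prodMk (by fun_prop) ?_)
  exact cont_fibT continuous_fst (by fun_prop) (by fun_prop)

theorem cont_vB : Continuous vB := by
  unfold vB
  exact (continuous_v1T.comp continuous_fst).mul (continuous_cosT.comp (by fun_prop))

theorem vB_le (n : Bs) : |vB n| ≤ 1 := by
  unfold vB
  rw [abs_mul]
  refine mul_le_one₀ ?_ (abs_nonneg _) (cosT_le _)
  obtain ⟨x, y⟩ := n
  simp only
  induction x using QuotientAddGroup.induction_on with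
  | H a =>
    change |v1 a| ≤ 1
    rw [abs_of_nonneg (v1_nonneg _)]; exact v1_le_one _

theorem cont_iota : Continuous iota := by
  unfold iota
  refine continuous_pi fun i => ?_
  fin_cases i
  · exact continuous_fst
  · exact continuous_fst.comp continuous_snd
  · exact continuous_fst.comp (continuous_snd.comp continuous_snd)
  · exact continuous_snd.comp (continuous_snd.comp continuous_snd)
  · exact continuous_const
  · exact continuous_const

theorem emb_q (r : ℕ) : emb r (qq r) = emb r 0 := by
  funext y
  unfold emb
  refine Prod.ext ?_ rfl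
  change (((qq r : ℝ) / (qq r : ℝ) : ℝ) : UnitAddCircle) = (((0:ℕ) / (qq r : ℝ) : ℝ) : UnitAddCircle)
  rw [div_self (qq_pos r).ne', Nat.cast_zero, zero_div]
  rw [AddCircle.coe_zero]
  exact (AddCircle.coe_eq_zero_iff (p := (1:ℝ))).mpr ⟨1, by simp⟩

theorem nuq_prob (r : ℕ) : IsProbabilityMeasure (nuq r) := by
  constructor
  unfold nuq
  rw [Measure.smul_apply, Measure.finsetSum_apply]
  have h1 : ∀ j ∈ Finset.range (qq r), (volume : Measure (UnitAddCircle × UnitAddCircle)).map
      (fun y => ((((j : ℝ) / (qq r : ℝ) : ℝ) : UnitAddCircle), (((1 : ℝ) / (qq r : ℝ) : ℝ) : UnitAddCircle), y))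
      (univ : Set Bs) = 1 := by
    intro j _
    change ((volume : Measure (UnitAddCircle × UnitAddCircle)).map (emb r j)) univ = 1
    rw [Measure.map_apply (continuous_emb r j).measurable MeasurableSet.univ, preimage_univ,
      Measure.volume_eq_prod, ← univ_prod_univ, Measure.prod_prod, UnitAddCircle.measure_univ,
      mul_one]
  rw [Finset.sum_congr rfl h1, Finset.sum_const, Finset.card_range, nsmul_eq_mul, mul_one,
    smul_eq_mul]
  apply ENNReal.inv_mul_cancel
  · have := qq_pos r
    have h : qq r ≠ 0 := by intro h; rw [h] at this; simp at this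
    exact_mod_cast h
  · exact ENNReal.natCast_ne_top _

theorem mp_bT_nuq (r : ℕ) (t : ℝ) : MeasurePreserving (bT t) (nuq r) (nuq r) := by
  have hbTc : Continuous (bT t) := cont_bT.comp (continuous_const.prodMk continuous_id)
  refine ⟨hbTc.measurable, ?_⟩
  have hj : ∀ j : ℕ, ((volume : Measure (UnitAddCircle × UnitAddCircle)).map (emb r j)).map (bT t) =
      (volume : Measure (UnitAddCircle × UnitAddCircle)).map (emb r (j + 1)) := by
    intro j
    rw [Measure.map_map hbTc.measurable (continuous_emb r j).measurable]
    have e : bT t ∘ emb r j = emb r (j + 1) ∘ fibT t ((((j : ℕ) : ℝ) / (qq r : ℝ) : ℝ) : UnitAddCircle) :=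
      funext fun y => bT_emb t r j y
    rw [e, ← Measure.map_map (continuous_emb r (j + 1)).measurable (mp_fibT _ _).measurable,
      (mp_fibT _ _).map_eq]
  change ((qq r : ENNReal)⁻¹ • ∑ j ∈ Finset.range (qq r), (volume : Measure (UnitAddCircle × UnitAddCircle)).map
    (emb r j)).map (bT t) = (qq r : ENNReal)⁻¹ • ∑ j ∈ Finset.range (qq r),
      (volume : Measure (UnitAddCircle × UnitAddCircle)).map (emb r j)
  rw [Measure.map_smul, Measure.map_finset_sum hbTc.measurable.aemeasurable]
  congr 1
  rw [Finset.sum_congr rfl fun j _ => hj j]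
  have h1 := Finset.sum_range_succ' (fun j => (volume : Measure (UnitAddCircle × UnitAddCircle)).map (emb r j)) (qq r)
  have h2 := Finset.sum_range_succ (fun j => (volume : Measure (UnitAddCircle × UnitAddCircle)).map (emb r j)) (qq r)
  rw [h2, emb_q] at h1
  ext s hs
  have h3 := congrArg (fun μ : Measure Bs => μ s) h1
  simp only [Measure.add_apply] at h3
  have hfin : ((volume : Measure (UnitAddCircle × UnitAddCircle)).map (emb r 0)) s ≠ ⊤ := by
    have : IsFiniteMeasure ((volume : Measure (UnitAddCircle × UnitAddCircle)).map (emb r 0)) := inferInstance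
    exact measure_ne_top _ _
  exact ((ENNReal.add_left_inj hfin).mp h3).symm

theorem mes : S_mes := by
  have hprob : IsProbabilityMeasure nu := by
    constructor
    unfold nu
    rw [Measure.sum_apply _ MeasurableSet.univ]
    have : ∀ r : ℕ, (((2 : ENNReal)⁻¹ ^ (r + 1)) • nuq r) (univ : Set Bs) =
        (2 : ENNReal)⁻¹ ^ (r + 1) := by
      intro r
      have := nuq_prob r
      rw [Measure.smul_apply, measure_univ, smul_eq_mul, mul_one]
    simp_rw [this]
    have h := ENNReal.tsum_geometric_add_one (2⁻¹ : ENNReal)
    rw [h, ENNReal.one_sub_inv_two, inv_inv]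
    exact ENNReal.inv_mul_cancel (by norm_num) (by norm_num)
  refine ⟨hprob, ?_, cont_iota, cont_bT, cont_vB, vB_le, ?_, ?_⟩
  · intro t
    have hbTc : Continuous (bT t) := cont_bT.comp (continuous_const.prodMk continuous_id)
    refine ⟨hbTc.measurable, ?_⟩
    unfold nu
    rw [Measure.map_sum hbTc.measurable.aemeasurable]
    congr 1
    funext r
    rw [Measure.map_smul, (mp_bT_nuq r t).map_eq]
  · intro k
    unfold corr
    have hit : ∀ k, Continuous fun q : ℝ × Bs => (bT q.1)^[k] q.2 := by
      intro k
      induction k with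
      | zero => exact continuous_snd
      | succ k ih =>
        have : (fun q : ℝ × Bs => (bT q.1)^[k + 1] q.2) =
            (fun q : ℝ × Bs => bT q.1 q.2) ∘ fun q : ℝ × Bs => (q.1, (bT q.1)^[k] q.2) := by
          funext q
          simp only [Function.iterate_succ_apply', Function.comp]
        rw [this]
        exact cont_bT.comp (continuous_fst.prodMk ih)
    refine continuous_of_dominated (bound := fun _ => (1:ℝ)) ?_ ?_ (integrable_const _) ?_
    · intro t
      exact (cont_vB.mul (cont_vB.comp ((hit k).comp
        (continuous_const.prodMk continuous_id)))).aestronglyMeasurable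
    · intro t
      refine Eventually.of_forall fun n => ?_
      rw [norm_mul]; exact mul_le_one₀ (vB_le n) (norm_nonneg _) (vB_le _)
    · refine Eventually.of_forall fun n => ?_
      have h0 : Continuous fun t : ℝ => ((t, n) : ℝ × Bs) := by fun_prop
      have h1 : Continuous fun t : ℝ => (bT t)^[k] n :=
        show Continuous ((fun q : ℝ × Bs => (bT q.1)^[k] q.2) ∘ fun t : ℝ => ((t, n) : ℝ × Bs)) from
          (hit k).comp h0
      have h2 : Continuous fun t : ℝ => vB ((bT t)^[k] n) := cont_vB.comp h1
      exact continuous_const.mul h2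
  · intro m N δ t n
    have hs0 : sinT 0 = 0 := by
      have h1 : sinT ((0:ℝ) : UnitAddCircle) = sin (2 * π * 0) := per_sinf.lift_coe (0:ℝ)
      have h2 : sinT (0:UnitAddCircle) = sinT ((0:ℝ) : UnitAddCircle) := by rw [AddCircle.coe_zero]
      rw [h2, h1, mul_zero, sin_zero]
    have i4 : iota n 4 = 0 := rfl
    have i5 : iota n 5 = 0 := rfl
    have hz : zzT N δ t (iota n) = 0 := by
      unfold zzT
      rw [i4, i5, hs0, zero_div, mul_zero, AddCircle.coe_zero, add_zero]
    have hm0 : m • zzT N δ t (iota n) - iota n 5 = 0 := by
      rw [hz, i5, smul_zero, sub_zero]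
    funext i
    fin_cases i
    · rfl
    · rfl
    · rfl
    · rfl
    · exact hm0
    · exact hz

end Pool.Agent.Q66.LE
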