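import Pool.Agent.Q66.LEStm

/-! Elementary facts on the bump functions and plane maps. -/

open Real Set MeasureTheory Filter Topology
open scoped ContDiff

noncomputable section

namespace Pool.Agent.Q66.LE


theorem st_zero {u : ℝ} (h : u ≤ 3 / 4) : st u = 0 :=
  Real.smoothTransition.zero_of_nonpos (by linarith)

theorem st_one {u : ℝ} (h : 7 / 8 ≤ u) : st u = 1 :=
  Real.smoothTransition.one_of_one_le (by linarith)

theorem st_nonneg (u : ℝ) : 0 ≤ st u := Real.smoothTransition.nonneg _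

theorem st_le_one (u : ℝ) : st u ≤ 1 := Real.smoothTransition.le_one _

theorem c1T_coe (x : ℝ) : c1T (x : UnitAddCircle) = c1 x := per_c1.lift_coe x
theorem c2T_coe (x : ℝ) : c2T (x : UnitAddCircle) = c2 x := per_c2.lift_coe x
theorem alT_coe (x : ℝ) : alT (x : UnitAddCircle) = al x := per_al.lift_coe x
theorem ppT_coe (x : ℝ) : ppT (x : UnitAddCircle) = pp x := per_pp.lift_coe x

theorem UT_UT (c d : ℝ) (y : UnitAddCircle × UnitAddCircle) : UT c (UT d y) = UT (c + d) y := by
  unfold UT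
  refine Prod.ext ?_ rfl
  change y.1 + ((d * ppT y.2 : ℝ) : UnitAddCircle) + ((c * ppT y.2 : ℝ) : UnitAddCircle) = y.1 + (((c + d) * ppT y.2 : ℝ) : UnitAddCircle)
  rw [add_assoc, ← AddCircle.coe_add]
  congr 2; ring

theorem LoT_LoT (c d : ℝ) (y : UnitAddCircle × UnitAddCircle) : LoT c (LoT d y) = LoT (c + d) y := by
  unfold LoT
  refine Prod.ext rfl ?_
  change y.2 + ((d * ppT y.1 : ℝ) : UnitAddCircle) + ((c * ppT y.1 : ℝ) : UnitAddCircle) = y.2 + (((c + d) * ppT y.1 : ℝ) : UnitAddCircle)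
  rw [add_assoc, ← AddCircle.coe_add]
  congr 2; ring

theorem UT_zero (y : UnitAddCircle × UnitAddCircle) : UT 0 y = y := by
  unfold UT; simp

theorem LoT_zero (y : UnitAddCircle × UnitAddCircle) : LoT 0 y = y := by
  unfold LoT; simp

theorem trT_zero (y : UnitAddCircle × UnitAddCircle) : trT 0 y = y := by
  unfold trT; simp

theorem trT_trT (c d : ℝ) (y : UnitAddCircle × UnitAddCircle) : trT c (trT d y) = trT (c + d) y := by
  unfold trT
  refine Prod.ext ?_ rfl
  change y.1 + ((d : ℝ) : UnitAddCircle) + ((c : ℝ) : UnitAddCircle) = y.1 + ((c + d : ℝ) : UnitAddCircle)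
  rw [add_assoc, ← AddCircle.coe_add, add_comm d c]

theorem psiT_psiInvT (l : ℝ) (y : UnitAddCircle × UnitAddCircle) : psiT l (psiInvT l y) = y := by
  unfold psiT psiInvT
  rw [UT_UT, show -1 / l + 1 / l = 0 by ring, UT_zero, LoT_LoT, show l - 1 + -(l - 1) = 0 by ring,
    LoT_zero, UT_UT, show (1:ℝ) + -1 = 0 by ring, UT_zero, LoT_LoT,
    show -(l - 1) / l + (l - 1) / l = 0 by ring, LoT_zero]

theorem psiInvT_psiT (l : ℝ) (y : UnitAddCircle × UnitAddCircle) : psiInvT l (psiT l y) = y := by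
  unfold psiT psiInvT
  rw [LoT_LoT, show (l - 1) / l + -(l - 1) / l = 0 by ring, LoT_zero, UT_UT,
    show (-1:ℝ) + 1 = 0 by ring, UT_zero, LoT_LoT, show -(l - 1) + (l - 1) = 0 by ring,
    LoT_zero, UT_UT, show 1 / l + -1 / l = 0 by ring, UT_zero]

theorem psiT_one (y : UnitAddCircle × UnitAddCircle) : psiT 1 y = y := by
  unfold psiT
  rw [show (1:ℝ) - 1 = 0 by ring, show -(0:ℝ) / 1 = 0 by norm_num, LoT_zero, LoT_zero, UT_UT,
    show (1:ℝ) + -1 / 1 = 0 by norm_num, UT_zero]

theorem psiInvT_one (y : UnitAddCircle × UnitAddCircle) : psiInvT 1 y = y := by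
  have := psiInvT_psiT 1 y
  rwa [psiT_one] at this

/-! near zero -/

theorem pp_lin {x : ℝ} (h : |x| ≤ 1 / 16) : pp x = x := by
  have hx := abs_le.mp h
  have hpi := Real.pi_pos
  have hb : |2 * π * x| ≤ π / 8 := by
    rw [abs_mul, abs_of_pos (by positivity : (0:ℝ) < 2 * π)]
    nlinarith
  have hcos : 7 / 8 ≤ cos (2 * π * x) := by
    rw [← Real.cos_abs]
    have h1 : cos (π / 8) ≤ cos |2 * π * x| :=
      Real.cos_le_cos_of_nonneg_of_le_pi (abs_nonneg _) (by linarith) hb
    have h2 : 7 / 8 ≤ cos (π / 8) := by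
      have h3 := Real.one_sub_sq_div_two_le_cos (x := π / 8)
      have h4 : π < 3.15 := Real.pi_lt_d2
      nlinarith
    linarith
  unfold pp
  rw [st_one hcos, one_mul, Real.arcsin_sin]
  · field_simp
  · have := (abs_le.mp hb).1; linarith
  · have := (abs_le.mp hb).2; linarith

theorem UT_coe (c a b : ℝ) : UT c ((a : UnitAddCircle), (b : UnitAddCircle)) = (((a + c * pp b : ℝ) : UnitAddCircle), (b : UnitAddCircle)) := by
  unfold UT; refine Prod.ext ?_ rfl
  change (a : UnitAddCircle) + ((c * ppT (b : UnitAddCircle) : ℝ) : UnitAddCircle) = _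
  rw [ppT_coe, ← AddCircle.coe_add]

theorem LoT_coe (c a b : ℝ) : LoT c ((a : UnitAddCircle), (b : UnitAddCircle)) = ((a : UnitAddCircle), ((b + c * pp a : ℝ) : UnitAddCircle)) := by
  unfold LoT; refine Prod.ext rfl ?_
  change (b : UnitAddCircle) + ((c * ppT (a : UnitAddCircle) : ℝ) : UnitAddCircle) = _
  rw [ppT_coe, ← AddCircle.coe_add]

theorem psiT_lin {l a b : ℝ} (hl1 : 1 ≤ l) (hl2 : l ≤ 2) (ha : |a| ≤ 1 / 128) (hb : |b| ≤ 1 / 128) :
    psiT l ((a : UnitAddCircle), (b : UnitAddCircle)) = (((l * a : ℝ) : UnitAddCircle), ((b / l : ℝ) : UnitAddCircle)) := by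
  have hl0 : 0 < l := by linarith
  have ha' := abs_le.mp ha
  have hb' := abs_le.mp hb
  have hinv : 0 < 1 / l := by positivity
  have hinv1 : 1 / l ≤ 1 := by rw [div_le_one hl0]; exact hl1
  have hbl : |b / l| ≤ 1 / 128 := by
    rw [abs_div, abs_of_pos hl0]
    calc |b| / l ≤ |b| / 1 := div_le_div_of_nonneg_left (abs_nonneg _) one_pos hl1
      _ ≤ 1 / 128 := by simpa using hb
  have hbl' := abs_le.mp hbl
  unfold psiT
  rw [UT_coe, pp_lin (hb.trans (by norm_num))]
  have e1 : a + -1 / l * b = a - b / l := by ring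
  rw [e1]
  have h1 : |a - b / l| ≤ 1 / 64 := by rw [abs_le]; constructor <;> linarith
  have h1' := abs_le.mp h1
  rw [LoT_coe, pp_lin (h1.trans (by norm_num))]
  have h2 : |b + (l - 1) * (a - b / l)| ≤ 1 / 16 := by
    have : |(l - 1) * (a - b / l)| ≤ 1 / 64 := by
      rw [abs_mul, abs_of_nonneg (by linarith : 0 ≤ l - 1)]
      calc (l - 1) * |a - b / l| ≤ 1 * (1 / 64) :=
            mul_le_mul (by linarith) h1 (abs_nonneg _) (by norm_num)
        _ = 1 / 64 := by norm_num
    have := abs_le.mp this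
    rw [abs_le]; constructor <;> linarith
  have e2 : b + (l - 1) * (a - b / l) = (l - 1) * a + b / l := by field_simp; ring
  rw [UT_coe, pp_lin h2, e2]
  have e3 : a - b / l + 1 * ((l - 1) * a + b / l) = l * a := by ring
  rw [e3, LoT_coe, pp_lin]
  · refine Prod.ext rfl ?_
    change (((l - 1) * a + b / l + -(l - 1) / l * (l * a) : ℝ) : UnitAddCircle) = _
    congr 1
    field_simp; ring
  · rw [abs_mul, abs_of_pos hl0]
    calc l * |a| ≤ 2 * (1 / 128) := mul_le_mul hl2 ha (abs_nonneg _) (by norm_num)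
      _ ≤ 1 / 16 := by norm_num

end Pool.Agent.Q66.LE
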