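import Pool.Agent.Q66.LEj7a

/-! Continuity and measure preservation of the torus maps. -/

open Real Set MeasureTheory Filter Topology
open scoped ContDiff

noncomputable section

namespace Pool.Agent.Q66.LE


instance instSCT' : SecondCountableTopology UnitAddCircle :=
  UniformSpace.secondCountable_of_separable _

theorem continuous_st : Continuous st := by
  unfold st; exact Real.smoothTransition.continuous.comp (by fun_prop)

theorem continuous_c1 : Continuous c1 := by unfold c1; exact continuous_st.comp (by fun_prop)
theorem continuous_c2 : Continuous c2 := by unfold c2; exact continuous_st.comp (by fun_prop)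
theorem continuous_al : Continuous al := by unfold al; exact continuous_st.comp (by fun_prop)
theorem continuous_v1 : Continuous v1 := by unfold v1; exact continuous_st.comp (by fun_prop)
theorem continuous_pp : Continuous pp := by
  unfold pp
  exact ((continuous_st.comp (by fun_prop)).mul
    (Real.continuous_arcsin.comp (by fun_prop))).div_const _

theorem continuous_lift {f : ℝ → ℝ} (hp : Function.Periodic f 1) (hf : Continuous f) :
    Continuous (hp.lift : UnitAddCircle → ℝ) := by
  have hq : IsQuotientMap ((↑) : ℝ → UnitAddCircle) := QuotientAddGroup.isQuotientMap_mk _
  rw [hq.continuous_iff]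
  exact hf

theorem continuous_c1T : Continuous c1T := continuous_lift _ continuous_c1
theorem continuous_c2T : Continuous c2T := continuous_lift _ continuous_c2
theorem continuous_alT : Continuous alT := continuous_lift _ continuous_al
theorem continuous_v1T : Continuous v1T := continuous_lift _ continuous_v1
theorem continuous_ppT : Continuous ppT := continuous_lift _ continuous_pp
theorem continuous_cosT : Continuous cosT := continuous_lift _ (by fun_prop)
theorem continuous_sinT : Continuous sinT := continuous_lift _ (by fun_prop)

theorem continuous_coe : Continuous ((↑) : ℝ → UnitAddCircle) := AddCircle.continuous_mk' 1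

theorem mp_LoT (c : ℝ) : MeasurePreserving (LoT c) (volume : Measure (UnitAddCircle × UnitAddCircle)) volume := by
  have hg : Measurable (Function.uncurry fun (a b : UnitAddCircle) => b + ((c * ppT a : ℝ) : UnitAddCircle)) := by
    have hc : Continuous fun a : UnitAddCircle => ((c * ppT a : ℝ) : UnitAddCircle) :=
      continuous_coe.comp (continuous_const.mul continuous_ppT)
    exact (continuous_snd.add (hc.comp continuous_fst)).measurable
  have := (MeasurePreserving.id (volume : Measure UnitAddCircle)).skew_product (μc := (volume : Measure UnitAddCircle))
    (μd := (volume : Measure UnitAddCircle)) hg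
    (Eventually.of_forall fun a => (measurePreserving_add_right (volume : Measure UnitAddCircle) _).map_eq)
  exact this

theorem mp_UT (c : ℝ) : MeasurePreserving (UT c) (volume : Measure (UnitAddCircle × UnitAddCircle)) volume := by
  have h1 : MeasurePreserving (Prod.swap : UnitAddCircle × UnitAddCircle → UnitAddCircle × UnitAddCircle) volume volume :=
    Measure.measurePreserving_swap
  have : UT c = Prod.swap ∘ LoT c ∘ Prod.swap := by funext y; rfl
  rw [this]
  exact h1.comp ((mp_LoT c).comp h1)

theorem mp_trT (c : ℝ) : MeasurePreserving (trT c) (volume : Measure (UnitAddCircle × UnitAddCircle)) volume := by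
  have h := (measurePreserving_add_right (volume : Measure UnitAddCircle) (c : UnitAddCircle)).prod
    (MeasurePreserving.id (volume : Measure UnitAddCircle))
  exact h

theorem mp_psiT (l : ℝ) : MeasurePreserving (psiT l) (volume : Measure (UnitAddCircle × UnitAddCircle)) volume :=
  (mp_LoT _).comp ((mp_UT _).comp ((mp_LoT _).comp (mp_UT _)))

theorem mp_psiInvT (l : ℝ) : MeasurePreserving (psiInvT l) (volume : Measure (UnitAddCircle × UnitAddCircle)) volume :=
  (mp_UT _).comp ((mp_LoT _).comp ((mp_UT _).comp (mp_LoT _)))

theorem mp_fibT (t : ℝ) (x : UnitAddCircle) :
    MeasurePreserving (fibT t x) (volume : Measure (UnitAddCircle × UnitAddCircle)) volume :=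
  (mp_psiT _).comp ((mp_trT _).comp (mp_psiInvT _))

end Pool.Agent.Q66.LE
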