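import Pool.Agent.Q66.LEj7b

/-! Trigonometric bounds and values of the bumps on the orbit. -/

open Real Set MeasureTheory Filter Topology
open scoped ContDiff

noncomputable section

namespace Pool.Agent.Q66.LE


theorem sqrt2_le : √2 / 2 ≤ (3 / 4 : ℝ) := by
  have h1 : √2 ≤ 1.5 := by
    rw [Real.sqrt_le_left (by norm_num)]; norm_num
  linarith

theorem tL1 {x : ℝ} (h0 : 0 ≤ x) (h1 : x ≤ 1 / 8) : sin (2 * π * x) ≤ 3 / 4 := by
  have hpi := Real.pi_pos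
  have : sin (2 * π * x) ≤ sin (π / 4) := by
    apply Real.sin_le_sin_of_le_of_le_pi_div_two
    · nlinarith
    · linarith
    · nlinarith
  rw [Real.sin_pi_div_four] at this
  linarith [sqrt2_le]

theorem tL2 {x : ℝ} (h0 : 3 / 8 ≤ x) (h1 : x ≤ 1 / 2) : sin (2 * π * x) ≤ 3 / 4 := by
  have h := tL1 (x := 1 / 2 - x) (by linarith) (by linarith)
  have e : 2 * π * (1 / 2 - x) = π - 2 * π * x := by ring
  rwa [e, Real.sin_pi_sub] at h

theorem tL3 {x : ℝ} (h0 : 0 ≤ x) (h1 : x ≤ 1 / 2) : 0 ≤ sin (2 * π * x) := by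
  have hpi := Real.pi_pos
  apply Real.sin_nonneg_of_nonneg_of_le_pi <;> nlinarith

theorem sin_one_sub (x : ℝ) : sin (2 * π * (1 - x)) = -sin (2 * π * x) := by
  have e : 2 * π * (1 - x) = 2 * π - 2 * π * x := by ring
  rw [e, Real.sin_two_pi_sub]

theorem cos_one_sub (x : ℝ) : cos (2 * π * (1 - x)) = cos (2 * π * x) := by
  have e : 2 * π * (1 - x) = 2 * π - 2 * π * x := by ring
  rw [e, Real.cos_two_pi_sub]

theorem tL4 {x : ℝ} (h0 : 0 ≤ x) (h1 : x ≤ 3 / 8) : -cos (2 * π * x) ≤ 3 / 4 := by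
  have hpi := Real.pi_pos
  have h : cos (π - π / 4) ≤ cos (2 * π * x) := by
    apply Real.cos_le_cos_of_nonneg_of_le_pi <;> nlinarith
  rw [Real.cos_pi_sub, Real.cos_pi_div_four] at h
  linarith [sqrt2_le]

theorem tL6 {x : ℝ} (h0 : 1 / 8 ≤ x) (h1 : x ≤ 7 / 8) : cos (2 * π * x) ≤ 3 / 4 := by
  have hpi := Real.pi_pos
  have key : ∀ y : ℝ, 1 / 8 ≤ y → y ≤ 1 / 2 → cos (2 * π * y) ≤ 3 / 4 := by
    intro y hy0 hy1
    have h : cos (2 * π * y) ≤ cos (π / 4) := by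
      apply Real.cos_le_cos_of_nonneg_of_le_pi <;> nlinarith
    rw [Real.cos_pi_div_four] at h
    linarith [sqrt2_le]
  rcases le_total x (1 / 2) with h | h
  · exact key x h0 h
  · rw [← cos_one_sub]; exact key (1 - x) (by linarith) (by linarith)

theorem tL7 {x : ℝ} (h0 : 3 / 16 ≤ x) (h1 : x ≤ 5 / 16) : 7 / 8 ≤ sin (2 * π * x) := by
  have hpi := Real.pi_pos
  have e : sin (2 * π * x) = cos (π / 2 - 2 * π * x) := (Real.cos_pi_div_two_sub _).symm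
  rw [e, ← Real.cos_abs]
  have hb : |π / 2 - 2 * π * x| ≤ π / 8 := by
    rw [abs_le]; constructor <;> nlinarith
  have h1 : cos (π / 8) ≤ cos |π / 2 - 2 * π * x| :=
    Real.cos_le_cos_of_nonneg_of_le_pi (abs_nonneg _) (by linarith) hb
  have h2 : 7 / 8 ≤ cos (π / 8) := by
    have h3 := Real.one_sub_sq_div_two_le_cos (x := π / 8)
    have h4 : π < 3.15 := Real.pi_lt_d2
    nlinarith
  linarith

theorem c1_small {x : ℝ} (h : (0 ≤ x ∧ x ≤ 1 / 8) ∨ (3 / 8 ≤ x ∧ x ≤ 1)) : c1 x = 0 := by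
  apply st_zero
  rcases h with ⟨h0, h1⟩ | ⟨h0, h1⟩
  · exact tL1 h0 h1
  · rcases le_total x (1 / 2) with h | h
    · exact tL2 h0 h
    · have := tL3 (x := 1 - x) (by linarith) (by linarith)
      rw [sin_one_sub] at this
      linarith

theorem c2_sub (x : ℝ) : c2 (1 - x) = c1 x := by
  unfold c2 c1; rw [sin_one_sub, neg_neg]

theorem c2_zero {x : ℝ} (h0 : 0 ≤ x) (h1 : x ≤ 1 / 2) : c2 x = 0 := by
  apply st_zero
  linarith [tL3 h0 h1]

theorem al_zero {x : ℝ} (h : (0 ≤ x ∧ x ≤ 3 / 8) ∨ (5 / 8 ≤ x ∧ x ≤ 1)) : al x = 0 := by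
  apply st_zero
  rcases h with ⟨h0, h1⟩ | ⟨h0, h1⟩
  · exact tL4 h0 h1
  · have := tL4 (x := 1 - x) (by linarith) (by linarith)
    rwa [cos_one_sub] at this

theorem al_nonneg (x : ℝ) : 0 ≤ al x := st_nonneg _

theorem al_half : al (1 / 2) = 1 := by
  apply st_one
  rw [show 2 * π * (1 / 2) = π by ring, Real.cos_pi]; norm_num

theorem v1_zero {x : ℝ} (h0 : 1 / 8 ≤ x) (h1 : x ≤ 7 / 8) : v1 x = 0 := st_zero (tL6 h0 h1)

theorem c1_nonneg (x : ℝ) : 0 ≤ c1 x := st_nonneg _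
theorem c1_le_one (x : ℝ) : c1 x ≤ 1 := st_le_one _

theorem c1_one {x : ℝ} (h0 : 3 / 16 ≤ x) (h1 : x ≤ 5 / 16) : c1 x = 1 := st_one (tL7 h0 h1)

/-! fibre maps -/

theorem fibT_coe (t x : ℝ) (y : UnitAddCircle × UnitAddCircle) :
    fibT t (x : UnitAddCircle) y = psiT (1 + c2 x) (trT (t * al x) (psiInvT (1 + c1 x) y)) := by
  unfold fibT; rw [c1T_coe, c2T_coe, alT_coe]

theorem fib_first {t x : ℝ} (h0 : 0 ≤ x) (h1 : x ≤ 3 / 8) (y : UnitAddCircle × UnitAddCircle) :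
    fibT t (x : UnitAddCircle) y = psiInvT (1 + c1 x) y := by
  rw [fibT_coe, c2_zero h0 (by linarith), al_zero (Or.inl ⟨h0, h1⟩), add_zero, mul_zero, trT_zero,
    psiT_one]

theorem fib_mid {t x : ℝ} (h0 : 3 / 8 ≤ x) (h1 : x ≤ 5 / 8) (y : UnitAddCircle × UnitAddCircle) :
    fibT t (x : UnitAddCircle) y = trT (t * al x) y := by
  have h2 : c2 x = 0 := by
    rcases le_total x (1 / 2) with h | h
    · exact c2_zero (by linarith) h
    · have := c2_sub (1 - x)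
      rw [show 1 - (1 - x) = x by ring] at this
      rw [this]; exact c1_small (Or.inr ⟨by linarith, by linarith⟩)
  rw [fibT_coe, h2, c1_small (Or.inr ⟨h0, by linarith⟩), add_zero, psiT_one, psiInvT_one]

theorem fib_last {t x : ℝ} (h0 : 5 / 8 ≤ x) (h1 : x ≤ 1) (y : UnitAddCircle × UnitAddCircle) :
    fibT t (x : UnitAddCircle) y = psiT (1 + c1 (1 - x)) y := by
  have h2 : c2 x = c1 (1 - x) := by
    have := c2_sub (1 - x)
    rwa [show 1 - (1 - x) = x by ring] at this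
  rw [fibT_coe, h2, c1_small (Or.inr ⟨by linarith, h1⟩), al_zero (Or.inr ⟨h0, h1⟩), mul_zero,
    add_zero, trT_zero, psiInvT_one]

theorem fib_id {t x : ℝ} (h : (0 ≤ x ∧ x ≤ 1 / 8) ∨ (7 / 8 ≤ x ∧ x ≤ 1)) (y : UnitAddCircle × UnitAddCircle) :
    fibT t (x : UnitAddCircle) y = y := by
  rcases h with ⟨h0, h1⟩ | ⟨h0, h1⟩
  · rw [fib_first h0 (by linarith), c1_small (Or.inl ⟨h0, h1⟩), add_zero, psiInvT_one]
  · rw [fib_last (by linarith) h1, c1_small (Or.inl ⟨by linarith, by linarith⟩), add_zero,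
      psiT_one]

end Pool.Agent.Q66.LE
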