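import Pool.Agent.Q66.LEj7c

/-! Bookkeeping of the fibre maps over the orbit. -/

open Real Set MeasureTheory Filter Topology
open scoped ContDiff

noncomputable section

namespace Pool.Agent.Q66.LE


def Wf (q : ℕ) : ℕ → UnitAddCircle × UnitAddCircle → UnitAddCircle × UnitAddCircle
  | 0, y => y
  | i + 1, y => psiInvT (1 + c1 ((i : ℝ) / (q : ℝ))) (Wf q i y)

def Wi (q : ℕ) : ℕ → UnitAddCircle × UnitAddCircle → UnitAddCircle × UnitAddCircle
  | 0, y => y
  | i + 1, y => Wi q i (psiT (1 + c1 ((i : ℝ) / (q : ℝ))) y)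

def Th (q i : ℕ) : ℝ := ∑ j ∈ Finset.range i, al ((j : ℝ) / (q : ℝ))

theorem Wi_Wf (q i : ℕ) (y : UnitAddCircle × UnitAddCircle) : Wi q i (Wf q i y) = y := by
  induction i with
  | zero => rfl
  | succ i ih => rw [Wf, Wi, psiT_psiInvT, ih]

theorem Wf_Wi (q i : ℕ) : ∀ y : UnitAddCircle × UnitAddCircle, Wf q i (Wi q i y) = y := by
  induction i with
  | zero => intro y; rfl
  | succ i ih => intro y; rw [Wf, Wi, ih, psiInvT_psiT]

theorem FI_add (t : ℝ) (q j k l : ℕ) (y : UnitAddCircle × UnitAddCircle) :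
    FI t q j (k + l) y = FI t q (j + k) l (FI t q j k y) := by
  induction l with
  | zero => rfl
  | succ l ih =>
    rw [← add_assoc, FI, FI, ih, add_assoc]

theorem fib_per (t x : ℝ) (n : ℕ) : fibT t (((x + n : ℝ)) : UnitAddCircle) = fibT t (x : UnitAddCircle) := by
  have : (((x + n : ℝ)) : UnitAddCircle) = (x : UnitAddCircle) := by
    rw [AddCircle.coe_add]
    have h : ((n : ℝ) : UnitAddCircle) = 0 := by
      have := AddCircle.coe_eq_zero_iff (p := (1:ℝ)) (x := (n:ℝ))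
      rw [this]
      exact ⟨n, by simp⟩
    rw [h, add_zero]
  rw [this]

theorem FI_per (t : ℝ) {q : ℕ} (hq : 0 < q) (j u k : ℕ) (y : UnitAddCircle × UnitAddCircle) :
    FI t q (j + u * q) k y = FI t q j k y := by
  have hq' : (q : ℝ) ≠ 0 := by positivity
  induction k with
  | zero => rfl
  | succ k ih =>
    rw [FI, FI, ih]
    have : (((j + u * q + k : ℕ) : ℝ) / (q : ℝ) : ℝ) = ((j + k : ℕ) : ℝ) / (q : ℝ) + (u : ℕ) := by
      push_cast; field_simp; ring
    rw [this, fib_per]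

section
variable {R : ℕ} (hR : 1 ≤ R)
include hR

theorem xle {a j b : ℕ} (h1 : a * R ≤ j) (h2 : j ≤ b * R) :
    (a : ℝ) / 16 ≤ (j : ℝ) / ((16 * R : ℕ) : ℝ) ∧ (j : ℝ) / ((16 * R : ℕ) : ℝ) ≤ (b : ℝ) / 16 := by
  have hR' : (0:ℝ) < R := by exact_mod_cast hR
  have h1' : (a:ℝ) * R ≤ j := by exact_mod_cast h1
  have h2' : (j:ℝ) ≤ b * R := by exact_mod_cast h2
  push_cast
  constructor
  · rw [div_le_div_iff₀ (by norm_num) (by positivity)]; nlinarith
  · rw [div_le_div_iff₀ (by positivity) (by norm_num)]; nlinarith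

theorem claimA (t : ℝ) (i : ℕ) (hi : i ≤ 6 * R) (y : UnitAddCircle × UnitAddCircle) :
    FI t (16 * R) 0 i y = Wf (16 * R) i y := by
  induction i with
  | zero => rfl
  | succ i ih =>
    rw [FI, Wf, ih (by omega), zero_add]
    obtain ⟨h1, h2⟩ := xle hR (a := 0) (j := i) (b := 6) (by omega) (by omega)
    rw [fib_first (by simpa using h1) (by norm_num at h2 ⊢; linarith)]

theorem Wf_const_high {i : ℕ} (h1 : 6 * R ≤ i) (h2 : i ≤ 16 * R) (y : UnitAddCircle × UnitAddCircle) :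
    Wf (16 * R) (i + 1) y = Wf (16 * R) i y := by
  obtain ⟨g1, g2⟩ := xle hR (a := 6) (j := i) (b := 16) (by omega) (by omega)
  rw [Wf, c1_small (Or.inr ⟨by norm_num at g1 ⊢; linarith, by norm_num at g2 ⊢; linarith⟩),
    add_zero, psiInvT_one]

theorem Wf_low {i : ℕ} (h2 : i ≤ 2 * R + 1) (y : UnitAddCircle × UnitAddCircle) : Wf (16 * R) i y = y := by
  induction i with
  | zero => rfl
  | succ i ih =>
    obtain ⟨g1, g2⟩ := xle hR (a := 0) (j := i) (b := 2) (by omega) (by omega)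
    rw [Wf, c1_small (Or.inl ⟨by simpa using g1, by norm_num at g2 ⊢; linarith⟩),
      add_zero, psiInvT_one, ih (by omega)]

theorem Th_zero {i : ℕ} (hi : i ≤ 6 * R + 1) : Th (16 * R) i = 0 := by
  unfold Th
  apply Finset.sum_eq_zero
  intro j hj
  have hj' := Finset.mem_range.mp hj
  obtain ⟨g1, g2⟩ := xle hR (a := 0) (j := j) (b := 6) (by omega) (by omega)
  exact al_zero (Or.inl ⟨by simpa using g1, by norm_num at g2 ⊢; linarith⟩)

theorem claimB (t : ℝ) (i : ℕ) (h1 : 6 * R ≤ i) (h2 : i ≤ 10 * R) (y : UnitAddCircle × UnitAddCircle) :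
    FI t (16 * R) 0 i y = trT (t * Th (16 * R) i) (Wf (16 * R) (6 * R + 1) y) := by
  induction i, h1 using Nat.le_induction with
  | base =>
    rw [claimA hR t _ le_rfl, Th_zero hR (by omega), mul_zero, trT_zero,
      Wf_const_high hR le_rfl (by omega)]
  | succ i hi ih =>
    rw [FI, ih (by omega), zero_add]
    obtain ⟨g1, g2⟩ := xle hR (a := 6) (j := i) (b := 10) (by omega) (by omega)
    rw [fib_mid (by norm_num at g1 ⊢; linarith) (by norm_num at g2 ⊢; linarith), trT_trT]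
    congr 1
    rw [Th, Th, Finset.sum_range_succ]; ring

theorem claimC (t : ℝ) (i : ℕ) (h1 : 10 * R ≤ i) (h2 : i ≤ 16 * R) (y : UnitAddCircle × UnitAddCircle) :
    FI t (16 * R) 0 i y = Wf (16 * R) (16 * R - i + 1) (Wi (16 * R) (6 * R + 1)
      (trT (t * Th (16 * R) (10 * R)) (Wf (16 * R) (6 * R + 1) y))) := by
  induction i, h1 using Nat.le_induction with
  | base =>
    rw [claimB hR t _ (by omega) le_rfl, show 16 * R - 10 * R + 1 = 6 * R + 1 by omega, Wf_Wi]
  | succ i hi ih =>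
    rw [FI, ih (by omega), zero_add]
    obtain ⟨g1, g2⟩ := xle hR (a := 10) (j := i) (b := 16) (by omega) (by omega)
    rw [fib_last (by norm_num at g1 ⊢; linarith) (by norm_num at g2 ⊢; linarith)]
    have e : 16 * R - i + 1 = (16 * R - (i + 1) + 1) + 1 := by omega
    rw [e, Wf]
    have e2 : 1 - (i : ℝ) / ((16 * R : ℕ) : ℝ) =
        ((16 * R - (i + 1) + 1 : ℕ) : ℝ) / ((16 * R : ℕ) : ℝ) := by
      have hR' : ((16 * R : ℕ) : ℝ) ≠ 0 := by
        have : 0 < 16 * R := by omega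
        positivity
      have e3 : 16 * R - (i + 1) + 1 = 16 * R - i := by omega
      rw [e3, Nat.cast_sub (by omega)]
      field_simp
    rw [e2, psiT_psiInvT]

/-- one full turn -/
def VV (R : ℕ) (s : ℝ) (y : UnitAddCircle × UnitAddCircle) : UnitAddCircle × UnitAddCircle :=
  Wi (16 * R) (6 * R + 1) (trT s (Wf (16 * R) (6 * R + 1) y))

omit hR in
theorem VV_VV (s s' : ℝ) (y : UnitAddCircle × UnitAddCircle) : VV R s (VV R s' y) = VV R (s' + s) y := by
  unfold VV; rw [Wf_Wi, trT_trT, add_comm s s']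

omit hR in
theorem VV_zero (y : UnitAddCircle × UnitAddCircle) : VV R 0 y = y := by
  unfold VV; rw [trT_zero, Wi_Wf]

theorem claimD (t : ℝ) (i : ℕ) (h1 : 14 * R ≤ i) (h2 : i ≤ 16 * R) (y : UnitAddCircle × UnitAddCircle) :
    FI t (16 * R) 0 i y = VV R (t * Th (16 * R) (10 * R)) y := by
  rw [claimC hR t i (by omega) h2, Wf_low hR (by omega)]; rfl

theorem claimG (t : ℝ) (s : ℕ) (hs : s ≤ 4 * R) (y : UnitAddCircle × UnitAddCircle) :
    FI t (16 * R) (14 * R) s y = y := by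
  induction s with
  | zero => rfl
  | succ s ih =>
    rw [FI, ih (by omega)]
    rcases le_total s (2 * R) with h | h
    · obtain ⟨g1, g2⟩ := xle hR (a := 14) (j := 14 * R + s) (b := 16) (by omega) (by omega)
      rw [fib_id (Or.inr ⟨by norm_num at g1 ⊢; linarith, by norm_num at g2 ⊢; linarith⟩)]
    · obtain ⟨j, rfl⟩ : ∃ j, s = 2 * R + j := ⟨s - 2 * R, by omega⟩
      obtain ⟨g1, g2⟩ := xle hR (a := 0) (j := j) (b := 2) (by omega) (by omega)
      have hR' : ((16 * R : ℕ) : ℝ) ≠ 0 := by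
        have : 0 < 16 * R := by omega
        positivity
      have e : ((14 * R + (2 * R + j) : ℕ) : ℝ) / ((16 * R : ℕ) : ℝ) =
          (j : ℝ) / ((16 * R : ℕ) : ℝ) + (1 : ℕ) := by
        rw [show 14 * R + (2 * R + j) = j + 16 * R by ring, Nat.cast_add, add_div, div_self hR',
          Nat.cast_one]
      rw [e, fib_per, fib_id (Or.inl ⟨by simpa using g1, by norm_num at g2 ⊢; linarith⟩)]

theorem claimH (t : ℝ) (n : ℕ) (y : UnitAddCircle × UnitAddCircle) :
    FI t (16 * R) (14 * R) (n * (16 * R)) y = VV R ((n : ℝ) * (t * Th (16 * R) (10 * R))) y := by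
  have hone : ∀ z, FI t (16 * R) (14 * R) (16 * R) z = VV R (t * Th (16 * R) (10 * R)) z := by
    intro z
    have e : 16 * R = 2 * R + 14 * R := by ring
    conv_lhs => rw [show FI t (16 * R) (14 * R) (16 * R) z =
      FI t (16 * R) (14 * R) (2 * R + 14 * R) z by rw [← e]]
    rw [FI_add, claimG hR t (2 * R) (by omega)]
    have e2 : 14 * R + 2 * R = 0 + 1 * (16 * R) := by ring
    rw [e2, FI_per t (by omega), claimD hR t _ le_rfl (by omega)]
  induction n with
  | zero =>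
    rw [Nat.cast_zero, zero_mul, zero_mul, VV_zero]; rfl
  | succ n ih =>
    rw [show (n + 1) * (16 * R) = n * (16 * R) + 16 * R by ring, FI_add, ih, FI_per t (by omega), hone, VV_VV]
    congr 1; push_cast; ring

theorem v1_mod {j : ℕ} (h : v1 ((j : ℝ) / ((16 * R : ℕ) : ℝ)) ≠ 0) :
    (j + 2 * R) % (16 * R) ≤ 4 * R := by
  by_contra hcon
  push Not at hcon
  apply h
  set u := (j + 2 * R) / (16 * R) with hu
  set s := (j + 2 * R) % (16 * R) with hs
  have hdm : 16 * R * u + s = j + 2 * R := Nat.div_add_mod _ _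
  have hlt : s < 16 * R := Nat.mod_lt _ (by omega)
  have hR' : ((16 * R : ℕ) : ℝ) ≠ 0 := by
    have : 0 < 16 * R := by omega
    positivity
  obtain ⟨g1, g2⟩ := xle hR (a := 2) (j := s - 2 * R) (b := 14) (by omega) (by omega)
  have e : (j : ℝ) / ((16 * R : ℕ) : ℝ) = ((s - 2 * R : ℕ) : ℝ) / ((16 * R : ℕ) : ℝ) + (u : ℝ) := by
    have : j = (s - 2 * R) + 16 * R * u := by omega
    rw [this, Nat.cast_add, add_div]
    congr 1
    rw [Nat.cast_mul]
    field_simp
  rw [e]
  have := per_v1.nat_mul u (((s - 2 * R : ℕ) : ℝ) / ((16 * R : ℕ) : ℝ))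
  rw [mul_one] at this
  rw [this]
  exact v1_zero (by norm_num at g1 ⊢; linarith) (by norm_num at g2 ⊢; linarith)

theorem claimI (t : ℝ) (j k : ℕ) (h1 : v1 ((j : ℝ) / ((16 * R : ℕ) : ℝ)) ≠ 0)
    (h2 : v1 (((j + k : ℕ) : ℝ) / ((16 * R : ℕ) : ℝ)) ≠ 0) (y : UnitAddCircle × UnitAddCircle) :
    FI t (16 * R) j k y = VV R ((((j + k + 2 * R) / (16 * R) - (j + 2 * R) / (16 * R) : ℕ) : ℝ) *
      (t * Th (16 * R) (10 * R))) y := by
  have m1 := v1_mod hR h1
  have m2 := v1_mod hR h2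
  set u := (j + 2 * R) / (16 * R) with hu
  set s := (j + 2 * R) % (16 * R) with hs
  set u' := (j + k + 2 * R) / (16 * R) with hu'
  set s' := (j + k + 2 * R) % (16 * R) with hs'
  have d1 : 16 * R * u + s = j + 2 * R := Nat.div_add_mod _ _
  have d2 : 16 * R * u' + s' = j + k + 2 * R := Nat.div_add_mod _ _
  have huu : u ≤ u' := Nat.div_le_div_right (by omega)
  obtain ⟨n, hn⟩ : ∃ n, u' = u + n := ⟨u' - u, by omega⟩
  have hsub : u' - u = n := by omega
  rw [hsub]
  have e1 : FI t (16 * R) j k y = FI t (16 * R) (14 * R + s) k y := by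
    rw [← FI_per t (by omega : 0 < 16 * R) j 1 k y]
    have : j + 1 * (16 * R) = 14 * R + s + u * (16 * R) := by
      have : u * (16 * R) = 16 * R * u := mul_comm _ _
      omega
    rw [this, FI_per t (by omega)]
  have e2 : FI t (16 * R) (14 * R + s) k y = FI t (16 * R) (14 * R) (s + k) y := by
    rw [FI_add, claimG hR t s m1]
  have e3 : s + k = n * (16 * R) + s' := by
    have : 16 * R * u' = 16 * R * u + n * (16 * R) := by rw [hn]; ring
    omega
  rw [e1, e2, e3, FI_add, claimH hR, FI_per t (by omega), claimG hR t s' m2]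

end

end Pool.Agent.Q66.LE
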