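import Pool.Agent.Q66.LEj7d

/-! J7: the statement `S_fib`. -/

open Real Set MeasureTheory Filter Topology
open scoped ContDiff

noncomputable section

namespace Pool.Agent.Q66.LE


def Lam (q i : ℕ) : ℝ := ∏ j ∈ Finset.range i, (1 + c1 ((j : ℝ) / (q : ℝ)))

theorem one_le_Lam (q i : ℕ) : 1 ≤ Lam q i := by
  induction i with
  | zero => simp [Lam]
  | succ i ih =>
    have h : Lam q (i + 1) = Lam q i * (1 + c1 ((i : ℝ) / (q : ℝ))) := by
      unfold Lam; rw [Finset.prod_range_succ]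
    rw [h]
    nlinarith [c1_nonneg ((i : ℝ) / (q : ℝ))]

theorem mp_Wf (q i : ℕ) : MeasurePreserving (Wf q i) (volume : Measure (UnitAddCircle × UnitAddCircle)) volume := by
  induction i with
  | zero => exact MeasurePreserving.id _
  | succ i ih => exact (mp_psiInvT _).comp ih

theorem mp_Wi (q i : ℕ) : MeasurePreserving (Wi q i) (volume : Measure (UnitAddCircle × UnitAddCircle)) volume := by
  induction i with
  | zero => exact MeasurePreserving.id _
  | succ i ih => exact ih.comp (mp_psiT _)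

/-- `W` as a measurable equivalence -/
def We (q i : ℕ) : (UnitAddCircle × UnitAddCircle) ≃ᵐ (UnitAddCircle × UnitAddCircle) where
  toFun := Wf q i
  invFun := Wi q i
  left_inv := Wi_Wf q i
  right_inv := Wf_Wi q i
  measurable_toFun := (mp_Wf q i).measurable
  measurable_invFun := (mp_Wi q i).measurable

theorem strip (q i : ℕ) : ∀ a b : ℝ, |a| ≤ 1 / (128 * Lam q i) → |b| ≤ 1 / 128 →
    Wi q i ((a : UnitAddCircle), (b : UnitAddCircle)) = (((Lam q i * a : ℝ) : UnitAddCircle), ((b / Lam q i : ℝ) : UnitAddCircle)) := by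
  induction i with
  | zero => intro a b _ _; simp [Wi, Lam]
  | succ i ih =>
    intro a b ha hb
    have hL := one_le_Lam q i
    set l : ℝ := 1 + c1 ((i : ℝ) / (q : ℝ)) with hl
    have hl1 : 1 ≤ l := by linarith [c1_nonneg ((i : ℝ) / (q : ℝ))]
    have hl2 : l ≤ 2 := by linarith [c1_le_one ((i : ℝ) / (q : ℝ))]
    have hLs : Lam q (i + 1) = Lam q i * l := by
      unfold Lam; rw [Finset.prod_range_succ]
    have hl0 : 0 < l := by linarith
    have hL0 : 0 < Lam q i := by linarith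
    rw [hLs] at ha ⊢
    have ha1 : |a| ≤ 1 / 128 := by
      refine ha.trans ?_
      apply one_div_le_one_div_of_le (by norm_num)
      nlinarith
    have ha2 : |l * a| ≤ 1 / (128 * Lam q i) := by
      rw [abs_mul, abs_of_pos hl0]
      calc l * |a| ≤ l * (1 / (128 * (Lam q i * l))) := mul_le_mul_of_nonneg_left ha hl0.le
        _ = 1 / (128 * Lam q i) := by field_simp
    have hb2 : |b / l| ≤ 1 / 128 := by
      rw [abs_div, abs_of_pos hl0]
      calc |b| / l ≤ |b| / 1 := div_le_div_of_nonneg_left (abs_nonneg _) one_pos hl1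
        _ ≤ 1 / 128 := by simpa using hb
    rw [Wi, psiT_lin hl1 hl2 ha1 hb, ih _ _ ha2 hb2]
    refine Prod.ext ?_ ?_
    · change ((Lam q i * (l * a) : ℝ) : UnitAddCircle) = _
      congr 1; ring
    · change ((b / l / Lam q i : ℝ) : UnitAddCircle) = _
      congr 1; field_simp

theorem Lam_ge {R : ℕ} (hR : 1 ≤ R) : (4:ℝ) ^ R ≤ Lam (16 * R) (6 * R + 1) := by
  have hsub : Finset.Icc (3 * R) (5 * R) ⊆ Finset.range (6 * R + 1) := by
    intro j hj
    rw [Finset.mem_Icc] at hj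
    rw [Finset.mem_range]; omega
  unfold Lam
  have h1 : ∏ j ∈ Finset.Icc (3 * R) (5 * R), (1 + c1 ((j : ℝ) / ((16 * R : ℕ) : ℝ))) ≤
      ∏ j ∈ Finset.range (6 * R + 1), (1 + c1 ((j : ℝ) / ((16 * R : ℕ) : ℝ))) := by
    apply Finset.prod_le_prod_of_subset_of_one_le hsub
    · intro j _; linarith [c1_nonneg ((j : ℝ) / ((16 * R : ℕ) : ℝ))]
    · intro j _ _; linarith [c1_nonneg ((j : ℝ) / ((16 * R : ℕ) : ℝ))]
  have h2 : ∏ j ∈ Finset.Icc (3 * R) (5 * R), (1 + c1 ((j : ℝ) / ((16 * R : ℕ) : ℝ))) =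
      2 ^ (2 * R + 1) := by
    rw [Finset.prod_congr rfl (g := fun _ => (2:ℝ))]
    · rw [Finset.prod_const, Nat.card_Icc]; congr 1; omega
    · intro j hj
      rw [Finset.mem_Icc] at hj
      obtain ⟨g1, g2⟩ := xle hR (a := 3) (j := j) (b := 5) (by omega) (by omega)
      rw [c1_one (by norm_num at g1 ⊢; linarith) (by norm_num at g2 ⊢; linarith)]
      norm_num
  rw [h2] at h1
  refine le_trans ?_ h1
  rw [show (4:ℝ) = 2 ^ 2 by norm_num, ← pow_mul]
  exact pow_le_pow_right₀ (by norm_num) (by omega)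

theorem Th_ge {R : ℕ} (hR : 1 ≤ R) : 1 ≤ Th (16 * R) (10 * R) := by
  unfold Th
  have hm : 8 * R ∈ Finset.range (10 * R) := Finset.mem_range.mpr (by omega)
  have h := Finset.single_le_sum (f := fun j : ℕ => al ((j : ℝ) / ((16 * R : ℕ) : ℝ)))
    (fun j _ => al_nonneg _) hm
  refine le_trans ?_ h
  have hR' : (0:ℝ) < R := by exact_mod_cast hR
  have : ((8 * R : ℕ) : ℝ) / ((16 * R : ℕ) : ℝ) = 1 / 2 := by
    push_cast; field_simp; norm_num
  simp only [this, al_half, le_refl]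

theorem fibm : S_fib := by
  intro r
  have hR : 1 ≤ r + 1 := by omega
  refine ⟨We (16 * (r + 1)) (6 * (r + 1) + 1), Th (16 * (r + 1)) (10 * (r + 1)),
    Lam (16 * (r + 1)) (6 * (r + 1) + 1),
    fun j k => (j + k + 2 * (r + 1)) / (16 * (r + 1)) - (j + 2 * (r + 1)) / (16 * (r + 1)),
    mp_Wf _ _, Th_ge hR, Lam_ge hR, ?_, ?_, ?_⟩
  · change (0 + 16 * (r + 1) + 2 * (r + 1)) / (16 * (r + 1)) - (0 + 2 * (r + 1)) / (16 * (r + 1)) = 1
    have h1 : (0 + 2 * (r + 1)) / (16 * (r + 1)) = 0 := Nat.div_eq_of_lt (by omega)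
    have h2 : (0 + 16 * (r + 1) + 2 * (r + 1)) / (16 * (r + 1)) = 1 := by
      rw [show 0 + 16 * (r + 1) + 2 * (r + 1) = 2 * (r + 1) + 16 * (r + 1) by ring,
        Nat.add_div_right _ (by omega), Nat.div_eq_of_lt (by omega)]
    rw [h1, h2]
  · intro a b ha hb
    exact strip _ _ a b ha hb
  · intro j k h1 h2 t y
    exact claimI hR t j k h1 h2 y

end Pool.Agent.Q66.LE
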