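import Pool.Agent.Q66.LEj7e

/-! J8, part a: a trigonometric identity and quadratic form identity. -/

open Real Set MeasureTheory Filter Topology
open scoped ContDiff

noncomputable section

namespace Pool.Agent.Q66.LE


/-- alternating binomial sum of cosines -/
theorem cos_sum (M : ℕ) (x θ : ℝ) :
    ∑ i ∈ Finset.range (4 * M + 1), (-1 : ℝ) ^ i * ((4 * M).choose i : ℝ) * cos (x + i * θ) =
      (2 * sin (θ / 2)) ^ (4 * M) * cos (x + (4 * M : ℕ) * (θ / 2)) := by
  set N := 4 * M with hN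
  set h : ℂ := Complex.exp ((θ / 2 : ℝ) * Complex.I) with hh
  have hne : h ≠ 0 := Complex.exp_ne_zero _
  have hz : ∀ i : ℕ, Complex.exp (((x + i * θ : ℝ) : ℂ) * Complex.I) =
      Complex.exp ((x : ℂ) * Complex.I) * (h ^ 2) ^ i := by
    intro i
    rw [hh, ← Complex.exp_nat_mul, ← Complex.exp_nat_mul, ← Complex.exp_add]
    congr 1; push_cast; ring
  have hsum : ∑ i ∈ Finset.range (N + 1), ((-1 : ℂ) ^ i * (N.choose i : ℂ) *
      Complex.exp (((x + i * θ : ℝ) : ℂ) * Complex.I)) =
      Complex.exp ((x : ℂ) * Complex.I) * (1 - h ^ 2) ^ N := by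
    have hb := (Commute.all (-(h ^ 2)) (1:ℂ)).add_pow N
    have e : (1 - h ^ 2) ^ N = (-(h ^ 2) + 1) ^ N := by ring
    rw [e, hb, Finset.mul_sum]
    refine Finset.sum_congr rfl fun i _ => ?_
    rw [hz, one_pow, mul_one, neg_pow (h ^ 2) i]
    ring
  have hhalf : 1 - h ^ 2 = h * (-2 * Complex.I * (sin (θ / 2) : ℝ)) := by
    have h1 : h = (cos (θ / 2) : ℝ) + (sin (θ / 2) : ℝ) * Complex.I := by
      rw [hh, Complex.exp_mul_I, ← Complex.ofReal_cos, ← Complex.ofReal_sin]
    have h2 : ((cos (θ / 2) : ℝ) : ℂ) ^ 2 + ((sin (θ / 2) : ℝ) : ℂ) ^ 2 = 1 := by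
      rw [← Complex.ofReal_pow, ← Complex.ofReal_pow, ← Complex.ofReal_add,
        Real.cos_sq_add_sin_sq, Complex.ofReal_one]
    rw [h1]
    have hI : Complex.I ^ 2 = -1 := Complex.I_sq
    linear_combination (-1 : ℂ) * h2 + ((sin (θ / 2) : ℝ) : ℂ) ^ 2 * (1:ℂ) * hI
  have hpow : (-2 * Complex.I : ℂ) ^ N = ((2 ^ N : ℝ) : ℂ) := by
    rw [hN, pow_mul, mul_pow, Complex.I_pow_four, pow_mul]
    push_cast; norm_num
  have hfin : Complex.exp ((x : ℂ) * Complex.I) * (1 - h ^ 2) ^ N =
      (((2 * sin (θ / 2)) ^ N : ℝ) : ℂ) *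
        Complex.exp (((x + N * (θ / 2) : ℝ) : ℂ) * Complex.I) := by
    rw [hhalf, mul_pow, mul_pow, hpow]
    have : Complex.exp (((x + N * (θ / 2) : ℝ) : ℂ) * Complex.I) =
        Complex.exp ((x : ℂ) * Complex.I) * h ^ N := by
      rw [hh, ← Complex.exp_nat_mul, ← Complex.exp_add]
      congr 1; push_cast; ring
    rw [this]; push_cast; ring
  have hre := congrArg Complex.re (hsum.trans hfin)
  rw [Complex.re_ofReal_mul, Complex.exp_ofReal_mul_I_re, Complex.re_sum] at hre
  rw [← hre]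
  refine Finset.sum_congr rfl fun i _ => ?_
  have e1 : ((-1 : ℂ) ^ i * (N.choose i : ℂ) *
      Complex.exp (((x + i * θ : ℝ) : ℂ) * Complex.I)) =
      (((-1 : ℝ) ^ i * (N.choose i : ℝ) : ℝ) : ℂ) *
        Complex.exp (((x + i * θ : ℝ) : ℂ) * Complex.I) := by push_cast; ring
  rw [e1, Complex.re_ofReal_mul, Complex.exp_ofReal_mul_I_re]

/-- the quadratic form identity -/
theorem DD_quad (N : ℕ) (f : UnitAddCircle × UnitAddCircle → ℝ) (hf : Measurable f) (hb : ∀ y, |f y| ≤ 1) (c t : ℝ) :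
    DD N (fun t => ∫ y, f y * f (trT (c * t) y)) t =
      ∫ y, (∑ i ∈ Finset.range (N + 1), (-1 : ℝ) ^ i * (N.choose i : ℝ) *
        f (trT (i * (c * t)) y)) ^ 2 := by
  have hm : ∀ s, Measurable fun y => f (trT s y) := fun s => hf.comp (mp_trT s).measurable
  have hint : ∀ s s', Integrable (fun y => f (trT s y) * f (trT s' y))
      (volume : Measure (UnitAddCircle × UnitAddCircle)) := by
    intro s s'
    refine Integrable.of_bound (C := 1) ((hm s).mul (hm s')).aestronglyMeasurable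
      (Eventually.of_forall fun y => ?_)
    rw [norm_mul]
    exact mul_le_one₀ (hb _) (norm_nonneg _) (hb _)
  have hprod : ∀ i j : ℕ, ∫ y, f (trT (i * (c * t)) y) * f (trT (j * (c * t)) y) =
      ∫ y, f y * f (trT (c * (((i : ℝ) - j) * t)) y) := by
    intro i j
    have hmp := mp_trT (j * (c * t))
    have he : MeasurableEmbedding (trT ((j : ℝ) * (c * t))) := by
      refine MeasurableEquiv.measurableEmbedding
        { toFun := trT (j * (c * t)), invFun := trT (-(j * (c * t))),
          left_inv := fun y => by rw [trT_trT]; simp [trT_zero],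
          right_inv := fun y => by rw [trT_trT]; simp [trT_zero],
          measurable_toFun := (mp_trT _).measurable,
          measurable_invFun := (mp_trT _).measurable }
    rw [← hmp.integral_comp he (fun y => f y * f (trT (c * (((i : ℝ) - j) * t)) y))]
    refine integral_congr_ae (Eventually.of_forall fun y => ?_)
    simp only
    rw [trT_trT, show c * (((i : ℝ) - j) * t) + j * (c * t) = i * (c * t) by ring, mul_comm]
  unfold DD
  have hexp : ∀ y, (∑ i ∈ Finset.range (N + 1), (-1 : ℝ) ^ i * (N.choose i : ℝ) *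
      f (trT (i * (c * t)) y)) ^ 2 = ∑ i ∈ Finset.range (N + 1), ∑ j ∈ Finset.range (N + 1),
      ((-1 : ℝ) ^ (i + j) * (N.choose i : ℝ) * (N.choose j : ℝ)) *
        (f (trT (i * (c * t)) y) * f (trT (j * (c * t)) y)) := by
    intro y
    rw [sq, Finset.sum_mul_sum]
    refine Finset.sum_congr rfl fun i _ => Finset.sum_congr rfl fun j _ => ?_
    rw [pow_add]; ring
  simp_rw [hexp]
  rw [integral_finsetSum _ fun i _ => integrable_finsetSum _ fun j _ => (hint _ _).const_mul _]
  refine Finset.sum_congr rfl fun i _ => ?_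
  rw [integral_finsetSum _ fun j _ => (hint _ _).const_mul _]
  refine Finset.sum_congr rfl fun j _ => ?_
  rw [integral_const_mul, hprod]

end Pool.Agent.Q66.LE
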