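import Pool.Agent.Q66.LEj8a

/-! J8, part b: the lower bound from the strip. -/

open Real Set MeasureTheory Filter Topology
open scoped ContDiff

noncomputable section

namespace Pool.Agent.Q66.LE


theorem exists_rep_norm (x : UnitAddCircle) : ∃ a : ℝ, (a : UnitAddCircle) = x ∧ |a| = ‖x‖ := by
  induction x using QuotientAddGroup.induction_on with
  | H a =>
    refine ⟨a - round a, ?_, ?_⟩
    · have h : (((round a : ℤ) : ℝ) : UnitAddCircle) = 0 := by
        rw [AddCircle.coe_eq_zero_iff]
        exact ⟨round a, by simp⟩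
      rw [AddCircle.coe_sub, h, sub_zero]
    · exact (UnitAddCircle.norm_eq (x := a)).symm

theorem cosT_le (x : UnitAddCircle) : |cosT x| ≤ 1 := by
  induction x using QuotientAddGroup.induction_on with
  | H a => exact Real.abs_cos_le_one _

theorem strip_bound (M : ℕ) (hM : 1 ≤ M) : ∃ c : ℝ, 0 < c ∧ ∀ (Λ : ℝ), 1 ≤ Λ →
    ∀ f : UnitAddCircle × UnitAddCircle → ℝ, Measurable f → (∀ y, |f y| ≤ 1) →
    (∀ a b : ℝ, |a| ≤ 1 / (128 * Λ) → |b| ≤ 1 / 128 → f ((a : UnitAddCircle), (b : UnitAddCircle)) = cos (2 * π * (Λ * a))) →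
    c / Λ ≤ ∫ y, (∑ i ∈ Finset.range (4 * M + 1), (-1 : ℝ) ^ i * ((4 * M).choose i : ℝ) *
        f (trT (i * (1 / (256 * (4 * M : ℕ) * Λ))) y)) ^ 2 := by
  set N := 4 * M with hN
  have hN0 : (0:ℝ) < (N : ℕ) := by
    have : 0 < N := by omega
    exact_mod_cast this
  have hN1 : (1:ℝ) ≤ (N : ℕ) := by
    have : 1 ≤ N := by omega
    exact_mod_cast this
  have hpi := Real.pi_pos
  have hpi4 : π < 3.15 := Real.pi_lt_d2
  set s0 : ℝ := sin (π / (128 * N) / 2) with hs0
  have hs0p : 0 < s0 := by
    apply Real.sin_pos_of_pos_of_lt_pi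
    · positivity
    · have : π / (128 * N) / 2 ≤ π / 2 := by
        have : π / (128 * N) ≤ π := div_le_self hpi.le (by nlinarith)
        linarith
      linarith
  set K0 : ℝ := ((2 * s0) ^ N / 2) ^ 2 with hK0
  have hK0p : 0 < K0 := by positivity
  refine ⟨K0 / 8192, by positivity, ?_⟩
  intro Λ hΛ f hf hb hstrip
  have hΛ0 : 0 < Λ := by linarith
  set τ : ℝ := 1 / (256 * (N : ℕ) * Λ) with hτ
  set g : UnitAddCircle × UnitAddCircle → ℝ := fun y => (∑ i ∈ Finset.range (N + 1), (-1 : ℝ) ^ i * (N.choose i : ℝ) *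
        f (trT (i * τ) y)) ^ 2 with hg
  have hgm : Measurable g := by
    apply Measurable.pow_const
    apply Finset.measurable_sum
    intro i _
    exact ((hf.comp (mp_trT _).measurable)).const_mul _
  set S : Set (UnitAddCircle × UnitAddCircle) := Metric.closedBall (0:UnitAddCircle) (1 / (256 * Λ)) ×ˢ Metric.closedBall (0:UnitAddCircle) (1 / 128)
    with hS
  have hSm : MeasurableSet S :=
    Metric.isClosed_closedBall.measurableSet.prod Metric.isClosed_closedBall.measurableSet
  have hvol : (volume : Measure (UnitAddCircle × UnitAddCircle)).real S = 1 / (8192 * Λ) := by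
    have h1 : (volume : Measure UnitAddCircle) (Metric.closedBall (0:UnitAddCircle) (1 / (256 * Λ))) =
        ENNReal.ofReal (2 * (1 / (256 * Λ))) := by
      rw [AddCircle.volume_closedBall, min_eq_right]
      rw [mul_one_div, div_le_one (by positivity)]; nlinarith
    have h2 : (volume : Measure UnitAddCircle) (Metric.closedBall (0:UnitAddCircle) (1 / 128)) =
        ENNReal.ofReal (2 * (1 / 128)) := by
      rw [AddCircle.volume_closedBall, min_eq_right]; norm_num
    rw [measureReal_def, hS, Measure.volume_eq_prod, Measure.prod_prod, h1, h2,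
      ← ENNReal.ofReal_mul (by positivity), ENNReal.toReal_ofReal (by positivity)]
    field_simp; norm_num
  have hlow : ∀ y ∈ S, K0 ≤ g y := by
    rintro ⟨y1, y2⟩ ⟨hy1, hy2⟩
    obtain ⟨a, rfl, ha⟩ := exists_rep_norm y1
    obtain ⟨b, rfl, hbb⟩ := exists_rep_norm y2
    rw [Metric.mem_closedBall, dist_zero_right] at hy1 hy2
    simp only at hy1 hy2
    rw [← ha] at hy1
    rw [← hbb] at hy2
    have hval : ∀ i ∈ Finset.range (N + 1), f (trT (i * τ) ((a : UnitAddCircle), (b : UnitAddCircle))) =
        cos (2 * π * Λ * a + i * (π / (128 * N))) := by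
      intro i hi
      have hiN : (i : ℝ) ≤ N := by
        have := Finset.mem_range.mp hi
        exact_mod_cast (by omega : i ≤ N)
      have e : trT (i * τ) ((a : UnitAddCircle), (b : UnitAddCircle)) = (((a + i * τ : ℝ) : UnitAddCircle), (b : UnitAddCircle)) := by
        unfold trT; rw [AddCircle.coe_add]
      rw [e, hstrip _ _ _ hy2]
      · congr 1
        rw [hτ]; field_simp; ring
      · have hi0 : (0:ℝ) ≤ i := Nat.cast_nonneg i
        have h1 : |(i:ℝ) * τ| ≤ 1 / (256 * Λ) := by
          rw [abs_of_nonneg (by positivity), hτ, mul_one_div]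
          rw [div_le_div_iff₀ (by positivity) (by positivity)]
          nlinarith [mul_le_mul_of_nonneg_right hiN (by positivity : (0:ℝ) ≤ 256 * Λ)]
        calc |a + i * τ| ≤ |a| + |(i:ℝ) * τ| := abs_add_le _ _
          _ ≤ 1 / (256 * Λ) + 1 / (256 * Λ) := add_le_add hy1 h1
          _ = 1 / (128 * Λ) := by field_simp; norm_num
    have hsum : ∑ i ∈ Finset.range (N + 1), (-1 : ℝ) ^ i * (N.choose i : ℝ) *
        f (trT (i * τ) ((a : UnitAddCircle), (b : UnitAddCircle))) =
        (2 * s0) ^ N * cos (2 * π * Λ * a + (N : ℕ) * (π / (128 * N) / 2)) := by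
      rw [Finset.sum_congr rfl fun i hi => by rw [hval i hi]]
      exact cos_sum M _ _
    have hcos : 1 / 2 ≤ cos (2 * π * Λ * a + (N : ℕ) * (π / (128 * N) / 2)) := by
      rw [← Real.cos_abs, ← Real.cos_pi_div_three]
      apply Real.cos_le_cos_of_nonneg_of_le_pi (abs_nonneg _) (by linarith)
      have e1 : ((N : ℕ) : ℝ) * (π / (128 * N) / 2) = π / 256 := by field_simp; norm_num
      rw [e1]
      have e2 : |2 * π * Λ * a| ≤ π / 128 := by
        rw [abs_mul, abs_of_pos (by positivity : 0 < 2 * π * Λ)]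
        calc 2 * π * Λ * |a| ≤ 2 * π * Λ * (1 / (256 * Λ)) :=
              mul_le_mul_of_nonneg_left hy1 (by positivity)
          _ = π / 128 := by field_simp; norm_num
      calc |2 * π * Λ * a + π / 256| ≤ |2 * π * Λ * a| + |π / 256| := abs_add_le _ _
        _ ≤ π / 128 + π / 256 := by rw [abs_of_pos (by positivity : 0 < π / 256)]; linarith
        _ ≤ π / 3 := by linarith
    change K0 ≤ (∑ i ∈ Finset.range (N + 1), (-1 : ℝ) ^ i * (N.choose i : ℝ) *
        f (trT (i * τ) ((a : UnitAddCircle), (b : UnitAddCircle)))) ^ 2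
    rw [hsum, hK0]
    apply pow_le_pow_left₀ (by positivity)
    have : 0 < (2 * s0) ^ N := by positivity
    nlinarith
  have hgi : Integrable g (volume : Measure (UnitAddCircle × UnitAddCircle)) := by
    set B : ℝ := (∑ i ∈ Finset.range (N + 1), (N.choose i : ℝ)) ^ 2 with hB
    refine Integrable.of_bound (C := B) hgm.aestronglyMeasurable (Eventually.of_forall fun y => ?_)
    rw [hg, Real.norm_of_nonneg (sq_nonneg _), hB, ← sq_abs]
    apply pow_le_pow_left₀ (abs_nonneg _)
    refine (Finset.abs_sum_le_sum_abs _ _).trans (Finset.sum_le_sum fun i _ => ?_)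
    rw [abs_mul, abs_mul, abs_pow, abs_neg, abs_one, one_pow, one_mul, Nat.abs_cast]
    exact mul_le_of_le_one_right (Nat.cast_nonneg _) (hb _)
  have h1 : ∫ y in S, g y ≤ ∫ y, g y :=
    setIntegral_le_integral hgi (Eventually.of_forall fun y => sq_nonneg _)
  have h2 : K0 * (volume : Measure (UnitAddCircle × UnitAddCircle)).real S ≤ ∫ y in S, g y :=
    setIntegral_ge_of_const_le_real hSm (measure_ne_top _ _) hlow hgi.integrableOn
  rw [hvol] at h2
  calc K0 / 8192 / Λ = K0 * (1 / (8192 * Λ)) := by field_simp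
    _ ≤ _ := h2.trans h1

end Pool.Agent.Q66.LE
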