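import Pool.Agent.Q66.LEj8b

/-! J8, part c: the correlations and `S_pos`. -/

open Real Set MeasureTheory Filter Topology
open scoped ContDiff

noncomputable section

namespace Pool.Agent.Q66.LE


instance instBS' : BorelSpace Bs := inferInstance

/-- position on the orbit -/
def emb (r j : ℕ) (y : UnitAddCircle × UnitAddCircle) : Bs :=
  ((((j : ℝ) / (qq r : ℝ) : ℝ) : UnitAddCircle), (((1 : ℝ) / (qq r : ℝ) : ℝ) : UnitAddCircle), y)

theorem qq_pos (r : ℕ) : (0:ℝ) < (qq r : ℝ) := by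
  have : 0 < qq r := by unfold qq; omega
  exact_mod_cast this

theorem bT_emb (t : ℝ) (r j : ℕ) (y : UnitAddCircle × UnitAddCircle) :
    bT t (emb r j y) = emb r (j + 1) (fibT t ((((j : ℕ) : ℝ) / (qq r : ℝ) : ℝ) : UnitAddCircle) y) := by
  unfold bT emb
  refine Prod.ext ?_ rfl
  change ((((j : ℝ) / (qq r : ℝ) : ℝ) : UnitAddCircle)) + (((1 : ℝ) / (qq r : ℝ) : ℝ) : UnitAddCircle) = _
  rw [← AddCircle.coe_add]
  congr 1; push_cast; ring

theorem iter_emb (t : ℝ) (r j k : ℕ) (y : UnitAddCircle × UnitAddCircle) :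
    (bT t)^[k] (emb r j y) = emb r (j + k) (FI t (qq r) j k y) := by
  induction k with
  | zero => rfl
  | succ k ih =>
    rw [Function.iterate_succ_apply', ih, bT_emb, FI]; rfl

theorem continuous_emb (r j : ℕ) : Continuous (emb r j) := by
  unfold emb
  exact continuous_const.prodMk (continuous_const.prodMk continuous_id)

/-- the pieces of the correlation -/
def Ic (r j k : ℕ) (t : ℝ) : ℝ := ∫ y : UnitAddCircle × UnitAddCircle, cosT y.1 * cosT (FI t (qq r) j k y).1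

theorem vB_emb (r j : ℕ) (y : UnitAddCircle × UnitAddCircle) : vB (emb r j y) = v1 ((j : ℝ) / (qq r : ℝ)) * cosT y.1 := by
  unfold vB emb
  change v1T (((j : ℝ) / (qq r : ℝ) : ℝ) : UnitAddCircle) * cosT y.1 = _
  rfl

/-- weight of the piece -/
def wt (r j k : ℕ) : ℝ :=
  (qq r : ℝ)⁻¹ * (v1 ((j : ℝ) / (qq r : ℝ)) * v1 (((j + k : ℕ) : ℝ) / (qq r : ℝ)))

theorem v1_nonneg (x : ℝ) : 0 ≤ v1 x := st_nonneg _
theorem v1_le_one (x : ℝ) : v1 x ≤ 1 := st_le_one _

theorem wt_nonneg (r j k : ℕ) : 0 ≤ wt r j k :=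
  mul_nonneg (inv_nonneg.mpr (qq_pos r).le) (mul_nonneg (v1_nonneg _) (v1_nonneg _))

theorem corr_hasSum (hmes : S_mes) (k : ℕ) (t : ℝ) :
    HasSum (fun r : ℕ => (1 / 2 : ℝ) ^ (r + 1) * ∑ j ∈ Finset.range (qq r), wt r j k * Ic r j k t)
      (corr k t) := by
  obtain ⟨hprob, hbT, hic, hbc, hvc, hv1, -, -⟩ := hmes
  have hbTc : Continuous (bT t) := hbc.comp (continuous_const.prodMk continuous_id)
  set F : Bs → ℝ := fun n => vB n * vB ((bT t)^[k] n) with hF
  have hFc : Continuous F := hvc.mul (hvc.comp (hbTc.iterate k))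
  have hFb : ∀ n, ‖F n‖ ≤ 1 := fun n => by
    rw [hF, norm_mul]; exact mul_le_one₀ (hv1 n) (norm_nonneg _) (hv1 _)
  have hFi : Integrable F nu :=
    Integrable.of_bound (C := 1) hFc.aestronglyMeasurable (Eventually.of_forall hFb)
  have h1 := hasSum_integral_measure (μ := fun r : ℕ => ((2 : ENNReal)⁻¹ ^ (r + 1)) • nuq r) hFi
  have h2 : ∀ r : ℕ, ∫ n, F n ∂(((2 : ENNReal)⁻¹ ^ (r + 1)) • nuq r) =
      (1 / 2 : ℝ) ^ (r + 1) * ∑ j ∈ Finset.range (qq r), wt r j k * Ic r j k t := by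
    intro r
    rw [integral_smul_measure]
    have e1 : ((2 : ENNReal)⁻¹ ^ (r + 1)).toReal = (1 / 2 : ℝ) ^ (r + 1) := by
      rw [ENNReal.toReal_pow, ENNReal.toReal_inv]; norm_num
    rw [e1, smul_eq_mul]
    congr 1
    unfold nuq
    rw [integral_smul_measure]
    have hmap : ∀ j : ℕ, IsFiniteMeasure ((volume : Measure (UnitAddCircle × UnitAddCircle)).map (emb r j)) := fun j => by
      infer_instance
    have hint : ∀ j ∈ Finset.range (qq r), Integrable F ((volume : Measure (UnitAddCircle × UnitAddCircle)).map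
        (fun y => ((((j : ℝ) / (qq r : ℝ) : ℝ) : UnitAddCircle), (((1 : ℝ) / (qq r : ℝ) : ℝ) : UnitAddCircle), y))) := by
      intro j _
      have := hmap j
      exact Integrable.of_bound (C := 1) hFc.aestronglyMeasurable (Eventually.of_forall hFb)
    rw [integral_finsetSum_measure hint]
    have e2 : (((qq r : ENNReal))⁻¹).toReal = (qq r : ℝ)⁻¹ := by
      rw [ENNReal.toReal_inv, ENNReal.toReal_natCast]
    rw [e2, smul_eq_mul, Finset.mul_sum]
    refine Finset.sum_congr rfl fun j _ => ?_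
    change (qq r : ℝ)⁻¹ * ∫ a, F a ∂((volume : Measure (UnitAddCircle × UnitAddCircle)).map (emb r j)) = _
    rw [integral_map (continuous_emb r j).measurable.aemeasurable hFc.aestronglyMeasurable]
    have e3 : ∀ y : UnitAddCircle × UnitAddCircle, F (emb r j y) = (v1 ((j : ℝ) / (qq r : ℝ)) *
        v1 (((j + k : ℕ) : ℝ) / (qq r : ℝ))) * (cosT y.1 * cosT (FI t (qq r) j k y).1) := by
      intro y
      change vB (emb r j y) * vB ((bT t)^[k] (emb r j y)) = _
      rw [iter_emb, vB_emb, vB_emb]; ring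
    have e4 : ∫ y : UnitAddCircle × UnitAddCircle, F (emb r j y)
        = (v1 ((j : ℝ) / (qq r : ℝ)) * v1 (((j + k : ℕ) : ℝ) / (qq r : ℝ))) * Ic r j k t := by
      rw [Ic, ← integral_const_mul]
      exact integral_congr_ae (Eventually.of_forall e3)
    rw [e4, wt]; ring
  simp_rw [h2] at h1
  exact h1

/-- pieces are positive definite -/
theorem Ic_eq {r j k : ℕ} {W : (UnitAddCircle × UnitAddCircle) ≃ᵐ (UnitAddCircle × UnitAddCircle)} {c : ℝ} (hW : MeasurePreserving W volume volume)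
    (h : ∀ (t : ℝ) (y : UnitAddCircle × UnitAddCircle), FI t (qq r) j k y = W.symm (trT (c * t) (W y))) (t : ℝ) :
    Ic r j k t = ∫ y, cosT (W.symm y).1 * cosT (W.symm (trT (c * t) y)).1 := by
  unfold Ic
  rw [← hW.integral_comp W.measurableEmbedding
    (fun y => cosT (W.symm y).1 * cosT (W.symm (trT (c * t) y)).1)]
  refine integral_congr_ae (Eventually.of_forall fun y => ?_)
  simp only [MeasurableEquiv.symm_apply_apply, h]

theorem DD_Ic {r j k : ℕ} {W : (UnitAddCircle × UnitAddCircle) ≃ᵐ (UnitAddCircle × UnitAddCircle)} {c : ℝ} (hW : MeasurePreserving W volume volume)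
    (h : ∀ (t : ℝ) (y : UnitAddCircle × UnitAddCircle), FI t (qq r) j k y = W.symm (trT (c * t) (W y))) (N : ℕ) (t : ℝ) :
    DD N (Ic r j k) t = ∫ y, (∑ i ∈ Finset.range (N + 1), (-1 : ℝ) ^ i * (N.choose i : ℝ) *
        cosT (W.symm (trT (i * (c * t)) y)).1) ^ 2 := by
  have hf : Measurable fun y : UnitAddCircle × UnitAddCircle => cosT (W.symm y).1 :=
    continuous_cosT.measurable.comp (measurable_fst.comp W.symm.measurable)
  rw [← DD_quad N (fun y => cosT (W.symm y).1) hf (fun y => cosT_le _) c t]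
  congr 1
  funext s
  exact Ic_eq hW h s

theorem DD_hasSum (hmes : S_mes) (N k : ℕ) (t : ℝ) :
    HasSum (fun r : ℕ => (1 / 2 : ℝ) ^ (r + 1) * ∑ j ∈ Finset.range (qq r),
      wt r j k * DD N (Ic r j k) t) (DD N (corr k) t) := by
  unfold DD
  have e : (fun r : ℕ => (1 / 2 : ℝ) ^ (r + 1) * ∑ j' ∈ Finset.range (qq r),
      wt r j' k * ∑ i ∈ Finset.range (N + 1), ∑ j ∈ Finset.range (N + 1),
      (-1 : ℝ) ^ (i + j) * (N.choose i : ℝ) * (N.choose j : ℝ) *
        Ic r j' k (((i : ℝ) - (j : ℝ)) * t)) =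
      fun r : ℕ => ∑ i ∈ Finset.range (N + 1), ∑ j ∈ Finset.range (N + 1),
      (-1 : ℝ) ^ (i + j) * (N.choose i : ℝ) * (N.choose j : ℝ) *
      ((1 / 2 : ℝ) ^ (r + 1) * ∑ j' ∈ Finset.range (qq r),
        wt r j' k * Ic r j' k (((i : ℝ) - (j : ℝ)) * t)) := by
    funext r
    simp only [Finset.mul_sum]
    rw [Finset.sum_comm]
    refine Finset.sum_congr rfl fun i _ => ?_
    rw [Finset.sum_comm]
    refine Finset.sum_congr rfl fun j _ => Finset.sum_congr rfl fun j' _ => ?_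
    ring
  rw [e]
  exact hasSum_sum fun i _ => hasSum_sum fun j _ => (corr_hasSum hmes k _).mul_left _

theorem term_nonneg (hfib : S_fib) (N k r j : ℕ) (t : ℝ) :
    0 ≤ wt r j k * DD N (Ic r j k) t := by
  by_cases h1 : v1 ((j : ℝ) / (qq r : ℝ)) = 0
  · rw [wt, h1]; simp
  by_cases h2 : v1 (((j + k : ℕ) : ℝ) / (qq r : ℝ)) = 0
  · rw [wt, h2]; simp
  obtain ⟨W, Θ, Λ, w, hW, -, -, -, -, hFI⟩ := hfib r
  have h := hFI j k h1 h2
  have h' : ∀ (t : ℝ) (y : UnitAddCircle × UnitAddCircle), FI t (qq r) j k y =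
      W.symm (trT (((w j k : ℝ) * Θ) * t) (W y)) := by
    intro t y; rw [h t y]; congr 2; ring
  rw [DD_Ic hW h']
  exact mul_nonneg (wt_nonneg _ _ _) (integral_nonneg fun y => sq_nonneg _)

theorem pos (hmes : S_mes) (hfib : S_fib) : S_pos := by
  have hr : ∀ (N k r : ℕ) (t : ℝ), 0 ≤ (1 / 2 : ℝ) ^ (r + 1) * ∑ j ∈ Finset.range (qq r),
      wt r j k * DD N (Ic r j k) t := fun N k r t =>
    mul_nonneg (by positivity) (Finset.sum_nonneg fun j _ => term_nonneg hfib N k r j t)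
  refine ⟨fun N k t => (DD_hasSum hmes N k t).nonneg fun r => hr N k r t, ?_⟩
  intro M hM
  obtain ⟨c, hc, hstrip⟩ := strip_bound M hM
  refine ⟨c, hc, fun r => ?_⟩
  obtain ⟨W, Θ, Λ, w, hW, hΘ, hΛ, hw, hst, hFI⟩ := hfib r
  have hΛ1 : 1 ≤ Λ := le_trans (one_le_pow₀ (by norm_num)) hΛ
  have hΛ0 : 0 < Λ := by linarith
  have hΘ0 : 0 < Θ := by linarith
  have hN1 : (1:ℝ) ≤ ((4 * M : ℕ) : ℝ) := by exact_mod_cast (by omega : 1 ≤ 4 * M)
  set τ : ℝ := 1 / (256 * (4 * M : ℕ) * Λ) with hτ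
  have hτ0 : 0 < τ := by positivity
  refine ⟨Λ, τ / Θ, hΛ, by positivity, ?_, ?_⟩
  · calc τ / Θ ≤ τ / 1 := div_le_div_of_nonneg_left hτ0.le one_pos hΘ
      _ = τ := div_one _
      _ ≤ 1 / Λ := by
        rw [hτ]; apply one_div_le_one_div_of_le hΛ0; nlinarith
  · have hq := qq_pos r
    have hv0 : v1 0 = 1 := st_one (by simp; norm_num)
    have h01 : v1 (((0 : ℕ) : ℝ) / (qq r : ℝ)) = 1 := by simpa using hv0
    have h02 : v1 (((0 + qq r : ℕ) : ℝ) / (qq r : ℝ)) = 1 := by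
      rw [zero_add, div_self hq.ne']
      have := per_v1 0
      rw [zero_add] at this
      rw [this, hv0]
    have h := hFI 0 (qq r) (by rw [h01]; exact one_ne_zero) (by rw [h02]; exact one_ne_zero)
    have h' : ∀ (t : ℝ) (y : UnitAddCircle × UnitAddCircle), FI t (qq r) 0 (qq r) y = W.symm (trT (Θ * t) (W y)) := by
      intro t y; rw [h t y, hw]; congr 2; push_cast; ring
    have hsum := (DD_hasSum hmes (4 * M) (qq r) (τ / Θ))
    have hle := hsum.summable.le_tsum r fun r' _ => hr (4 * M) (qq r) r' (τ / Θ)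
    rw [hsum.tsum_eq] at hle
    refine le_trans ?_ hle
    have hj0 : wt r 0 (qq r) * DD (4 * M) (Ic r 0 (qq r)) (τ / Θ) ≤ ∑ j ∈ Finset.range (qq r),
        wt r j (qq r) * DD (4 * M) (Ic r j (qq r)) (τ / Θ) := by
      apply Finset.single_le_sum (f := fun j => wt r j (qq r) * DD (4 * M) (Ic r j (qq r)) (τ / Θ))
        (fun j _ => term_nonneg hfib _ _ _ _ _)
      rw [Finset.mem_range]; unfold qq; omega
    have hwt : wt r 0 (qq r) = (qq r : ℝ)⁻¹ := by
      rw [wt, h01, h02]; ring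
    rw [hwt, DD_Ic hW h'] at hj0
    have hΘτ : Θ * (τ / Θ) = τ := by field_simp
    rw [hΘτ] at hj0
    have hb := hstrip Λ hΛ1 (fun y => cosT (W.symm y).1)
      (continuous_cosT.measurable.comp (measurable_fst.comp W.symm.measurable))
      (fun y => cosT_le _) (by
        intro a b ha hb
        rw [hst a b ha hb]
        exact per_cosf.lift_coe _)
    have h3 : (qq r : ℝ)⁻¹ * (c / Λ) ≤ ∑ j ∈ Finset.range (qq r),
        wt r j (qq r) * DD (4 * M) (Ic r j (qq r)) (τ / Θ) :=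
      le_trans (mul_le_mul_of_nonneg_left hb (by positivity)) hj0
    calc c / (2 ^ (r + 1) * (qq r : ℝ) * Λ) = (1 / 2 : ℝ) ^ (r + 1) * ((qq r : ℝ)⁻¹ * (c / Λ)) := by
          rw [one_div_pow]; field_simp
      _ ≤ _ := mul_le_mul_of_nonneg_left h3 (by positivity)

end Pool.Agent.Q66.LE
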