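import Pool.Agent.Q66.OsDefs

/-!
# The annulus as a billiard table
-/

set_option autoImplicit false

namespace Q66.Os

open MeasureTheory Set Filter Topology Complex
open scoped ENNReal

/-! ### The annulus -/

/-- The outer boundary circle, traversed counterclockwise. -/
noncomputable def outerCurve : BoundaryCurve where
  γ s := exp (s * I)
  len := 2 * Real.pi
  closed := True
  len_pos := by positivity
  smooth := by
    have : ContDiff ℝ 3 (fun s : ℝ => (s : ℂ)) := Complex.ofRealCLM.contDiff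
    fun_prop
  unit_speed s := by
    have h : HasDerivAt (fun s : ℝ => exp (s * I)) (exp (s * I) * (1 * I)) s := by
      have h1 : HasDerivAt (fun s : ℝ => (s : ℂ) * I) (1 * I) s :=
        (Complex.ofRealCLM.hasDerivAt).mul_const I
      exact h1.cexp
    rw [h.deriv]
    simp [Complex.norm_exp_ofReal_mul_I]
  periodic _ s := by
    push_cast
    rw [add_mul, Complex.exp_add, Complex.exp_two_pi_mul_I, mul_one]

theorem deriv_outer (s : ℝ) : deriv outerCurve.γ s = I * exp (s * I) := by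
  have h : HasDerivAt (fun s : ℝ => exp (s * I)) (exp (s * I) * (1 * I)) s := by
    have h1 : HasDerivAt (fun s : ℝ => (s : ℂ) * I) (1 * I) s :=
      (Complex.ofRealCLM.hasDerivAt).mul_const I
    exact h1.cexp
  have h2 : outerCurve.γ = fun s : ℝ => exp (s * I) := rfl
  rw [h2, h.deriv]; ring

theorem hasDerivAt_inner (ρ : ℝ) (s : ℝ) :
    HasDerivAt (fun s : ℝ => (ρ : ℂ) * exp (-((s / ρ : ℝ) : ℂ) * I))
      ((ρ : ℂ) * (exp (-((s / ρ : ℝ) : ℂ) * I) * (-((1 / ρ : ℝ) : ℂ) * I))) s := by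
  have h0 : HasDerivAt (fun s : ℝ => s / ρ) (1 / ρ) s := (hasDerivAt_id s).div_const ρ
  have h1 : HasDerivAt (fun s : ℝ => ((s / ρ : ℝ) : ℂ)) ((1 / ρ : ℝ) : ℂ) s :=
    h0.ofReal_comp
  exact ((h1.neg.mul_const I).cexp).const_mul _

/-- The inner boundary circle, traversed clockwise. -/
noncomputable def innerCurve (ρ : ℝ) (h0 : 0 < ρ) : BoundaryCurve where
  γ s := (ρ : ℂ) * exp (-((s / ρ : ℝ) : ℂ) * I)
  len := 2 * Real.pi * ρ
  closed := True
  len_pos := by positivity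
  smooth := by
    have : ContDiff ℝ 3 (fun s : ℝ => ((s / ρ : ℝ) : ℂ)) :=
      Complex.ofRealCLM.contDiff.comp (contDiff_id.div_const ρ)
    fun_prop
  unit_speed s := by
    rw [(hasDerivAt_inner ρ s).deriv]
    have : ‖exp (-((s / ρ : ℝ) : ℂ) * I)‖ = 1 := by
      have := Complex.norm_exp_ofReal_mul_I (-(s / ρ))
      push_cast at this ⊢
      exact this
    rw [norm_mul, norm_mul, this, norm_mul, norm_neg, Complex.norm_real, Complex.norm_real,
      Complex.norm_I]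
    rw [Real.norm_of_nonneg h0.le, Real.norm_of_nonneg (by positivity)]
    field_simp
  periodic _ s := by
    have hρ : (ρ : ℂ) ≠ 0 := by exact_mod_cast h0.ne'
    have : (-(((s + 2 * Real.pi * ρ) / ρ : ℝ) : ℂ) * I)
        = -((s / ρ : ℝ) : ℂ) * I - 2 * Real.pi * I := by
      push_cast
      field_simp
      ring
    beta_reduce
    rw [this, Complex.exp_sub, Complex.exp_two_pi_mul_I, div_one]

theorem deriv_inner (ρ : ℝ) (h0 : 0 < ρ) (s : ℝ) :
    deriv (innerCurve ρ h0).γ s = -I * exp (-((s / ρ : ℝ) : ℂ) * I) := by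
  have hρ : (ρ : ℂ) ≠ 0 := by exact_mod_cast h0.ne'
  have h2 : (innerCurve ρ h0).γ = (fun s : ℝ => (ρ : ℂ) * exp (-((s / ρ : ℝ) : ℂ) * I)) := rfl
  rw [h2, (hasDerivAt_inner ρ s).deriv]
  push_cast
  field_simp

/-- The closed annulus. -/
def ann (ρ : ℝ) : Set ℂ := {z : ℂ | ρ ≤ ‖z‖ ∧ ‖z‖ ≤ 1}

theorem ann_eq (ρ : ℝ) : ann ρ = Metric.closedBall 0 1 ∩ (Metric.ball 0 ρ)ᶜ := by
  ext z
  simp [ann, and_comm]

theorem interior_ann (ρ : ℝ) (h0 : 0 < ρ) : interior (ann ρ) = {z : ℂ | ρ < ‖z‖ ∧ ‖z‖ < 1} := by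
  rw [ann_eq, interior_inter, interior_closedBall _ one_ne_zero, interior_compl,
    closure_ball _ h0.ne']
  ext z
  simp [and_comm]

theorem isClosed_ann (ρ : ℝ) : IsClosed (ann ρ) := by
  rw [ann_eq]
  exact Metric.isClosed_closedBall.inter Metric.isOpen_ball.isClosed_compl

theorem frontier_ann (ρ : ℝ) (h0 : 0 < ρ) (h1 : ρ < 1) :
    frontier (ann ρ) = {z : ℂ | ‖z‖ = 1 ∨ ‖z‖ = ρ} := by
  rw [(isClosed_ann ρ).frontier_eq, interior_ann ρ h0]
  ext z
  simp only [ann, Set.mem_sdiff, mem_ofPred_eq, not_and, not_lt]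
  constructor
  · rintro ⟨⟨h2, h3⟩, h4⟩
    rcases h2.lt_or_eq with h | h
    · left; exact le_antisymm h3 (h4 h)
    · right; exact h.symm
  · rintro (h | h)
    · rw [h]; exact ⟨⟨h1.le, le_rfl⟩, fun _ => le_rfl⟩
    · rw [h]; exact ⟨⟨le_rfl, h1.le⟩, fun h' => absurd h' (lt_irrefl _)⟩

theorem isCompact_ann (ρ : ℝ) : IsCompact (ann ρ) := by
  rw [ann_eq]
  exact (isCompact_closedBall 0 1).inter_right Metric.isOpen_ball.isClosed_compl

theorem isConnected_ann (ρ : ℝ) (h0 : 0 < ρ) (h1 : ρ < 1) : IsConnected (interior (ann ρ)) := by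
  rw [interior_ann ρ h0]
  have h : {z : ℂ | ρ < ‖z‖ ∧ ‖z‖ < 1}
      = (fun u : ℝ × ℝ => (u.1 : ℂ) * exp (u.2 * I)) '' (Ioo ρ 1 ×ˢ univ) := by
    ext z
    constructor
    · intro hz
      exact ⟨(‖z‖, arg z), ⟨hz, mem_univ _⟩, norm_mul_exp_arg_mul_I z⟩
    · rintro ⟨⟨t, θ⟩, ⟨ht, -⟩, rfl⟩
      simp only [mem_ofPred_eq, norm_mul, Complex.norm_real, Complex.norm_exp_ofReal_mul_I, mul_one]
      rw [Real.norm_of_nonneg (h0.le.trans ht.1.le)]
      exact ht
  rw [h]
  refine IsConnected.image ?_ _ ?_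
  · exact (isConnected_Ioo h1).prod isConnected_univ
  · apply Continuous.continuousOn
    fun_prop

theorem closure_ann (ρ : ℝ) (h0 : 0 < ρ) (h1 : ρ < 1) : closure (interior (ann ρ)) = ann ρ := by
  apply subset_antisymm
  · exact closure_minimal interior_subset (isClosed_ann ρ)
  · intro z hz
    rw [interior_ann ρ h0, mem_closure_iff_seq_limit]
    obtain ⟨h2, h3⟩ := hz
    have hz0 : 0 < ‖z‖ := h0.trans_le h2
    -- the radii `(1 - a) ‖z‖ + a m`, where `m` is the middle radius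
    set m : ℝ := (ρ + 1) / 2 with hm
    have ha : Tendsto (fun n : ℕ => 1 / ((n : ℝ) + 1)) atTop (𝓝 0) :=
      tendsto_one_div_add_atTop_nhds_zero_nat
    refine ⟨fun n => (((1 - 1 / ((n : ℝ) + 1)) + 1 / ((n : ℝ) + 1) * (m / ‖z‖) : ℝ) : ℂ) * z,
      fun n => ?_, ?_⟩
    · have hn : 0 < 1 / ((n : ℝ) + 1) := by positivity
      have hn1 : 1 / ((n : ℝ) + 1) ≤ 1 := by
        rw [div_le_one (by positivity)]; linarith [(Nat.cast_nonneg n : (0 : ℝ) ≤ n)]
      set a := 1 / ((n : ℝ) + 1)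
      have hpos : 0 ≤ (1 - a) + a * (m / ‖z‖) := by
        have : 0 ≤ m / ‖z‖ := by rw [hm]; positivity
        have := mul_nonneg hn.le this
        linarith
      have : ‖((((1 - a) + a * (m / ‖z‖) : ℝ) : ℂ) * z)‖ = (1 - a) * ‖z‖ + a * m := by
        rw [norm_mul, Complex.norm_real, Real.norm_of_nonneg hpos]
        field_simp
      rw [mem_ofPred_eq, this]
      have hm1 : m < 1 := by rw [hm]; linarith
      have hm2 : ρ < m := by rw [hm]; linarith
      constructor <;> nlinarith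
    · have : Tendsto (fun n : ℕ => ((1 - 1 / ((n : ℝ) + 1)) + 1 / ((n : ℝ) + 1) * (m / ‖z‖) : ℝ))
          atTop (𝓝 ((1 - 0) + 0 * (m / ‖z‖))) := (ha.const_sub 1).add (ha.mul_const _)
      have h4 := ((Complex.continuous_ofReal.tendsto _).comp this).mul_const z
      simpa using h4

theorem exp_eq_one_of {x : ℝ} (h : exp (x * I) = 1) (hx : |x| < 2 * Real.pi) : x = 0 := by
  rw [Complex.exp_eq_one_iff] at h
  obtain ⟨n, hn⟩ := h
  have h2 : x = n * (2 * Real.pi) := by
    have : (x : ℂ) * I = ((n * (2 * Real.pi) : ℝ) : ℂ) * I := by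
      rw [hn]; push_cast; ring
    have := mul_right_cancel₀ I_ne_zero this
    exact_mod_cast this
  have hpi : 0 < 2 * Real.pi := by positivity
  rw [h2, abs_mul, abs_of_pos hpi] at hx
  have h3 : |(n : ℝ)| < 1 := by
    by_contra hc
    push Not at hc
    nlinarith
  have h4 : n = 0 := by
    have : |n| < 1 := by exact_mod_cast h3
    exact Int.abs_lt_one_iff.mp this
  rw [h2, h4]; simp

theorem outer_norm (s : ℝ) : ‖outerCurve.γ s‖ = 1 := Complex.norm_exp_ofReal_mul_I s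

theorem inner_norm (ρ : ℝ) (h0 : 0 < ρ) (s : ℝ) : ‖(innerCurve ρ h0).γ s‖ = ρ := by
  have : ‖exp (-((s / ρ : ℝ) : ℂ) * I)‖ = 1 := by
    have := Complex.norm_exp_ofReal_mul_I (-(s / ρ))
    push_cast at this ⊢
    exact this
  show ‖(ρ : ℂ) * exp (-((s / ρ : ℝ) : ℂ) * I)‖ = ρ
  rw [norm_mul, this, Complex.norm_real, Real.norm_of_nonneg h0.le, mul_one]

theorem outer_surj (z : ℂ) (hz : ‖z‖ = 1) : ∃ s, 0 ≤ s ∧ s < 2 * Real.pi ∧ outerCurve.γ s = z := by
  have h := norm_mul_exp_arg_mul_I z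
  rw [hz] at h
  have hpi : 0 < 2 * Real.pi := by positivity
  refine ⟨toIcoMod hpi 0 (arg z), left_le_toIcoMod hpi 0 _, ?_, ?_⟩
  · have := toIcoMod_lt_right hpi 0 (arg z)
    simpa using this
  · have hp : Function.Periodic outerCurve.γ (2 * Real.pi) := outerCurve.periodic trivial
    have h1 : toIcoMod hpi 0 (arg z) = arg z - toIcoDiv hpi 0 (arg z) • (2 * Real.pi) := rfl
    rw [h1, hp.sub_zsmul_eq]
    show exp (arg z * I) = z
    simpa using h

theorem inner_surj (ρ : ℝ) (h0 : 0 < ρ) (z : ℂ) (hz : ‖z‖ = ρ) :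
    ∃ s, 0 ≤ s ∧ s < 2 * Real.pi * ρ ∧ (innerCurve ρ h0).γ s = z := by
  have h := norm_mul_exp_arg_mul_I z
  rw [hz] at h
  have hpi : 0 < 2 * Real.pi * ρ := by positivity
  refine ⟨toIcoMod hpi 0 (-ρ * arg z), left_le_toIcoMod hpi 0 _, ?_, ?_⟩
  · have := toIcoMod_lt_right hpi 0 (-ρ * arg z)
    simpa using this
  · have hp : Function.Periodic (innerCurve ρ h0).γ (2 * Real.pi * ρ) :=
      (innerCurve ρ h0).periodic trivial
    have h1 : toIcoMod hpi 0 (-ρ * arg z)
        = -ρ * arg z - toIcoDiv hpi 0 (-ρ * arg z) • (2 * Real.pi * ρ) := rfl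
    rw [h1, hp.sub_zsmul_eq]
    show (ρ : ℂ) * exp (-((-ρ * arg z / ρ : ℝ) : ℂ) * I) = z
    have : -((-ρ * arg z / ρ : ℝ) : ℂ) = arg z := by
      have hρ : (ρ : ℂ) ≠ 0 := by exact_mod_cast h0.ne'
      push_cast; field_simp
    rw [this, h]

/-- The annulus as a billiard table. -/
noncomputable def annTable (ρ : ℝ) (h0 : 0 < ρ) (h1 : ρ < 1) : BilliardTable where
  Q := ann ρ
  n := 2
  curve := ![outerCurve, innerCurve ρ h0]
  isCompact := isCompact_ann ρ
  isConnected := isConnected_ann ρ h0 h1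
  closure_interior := closure_ann ρ h0 h1
  frontier_eq := by
    rw [frontier_ann ρ h0 h1]
    ext z
    simp only [mem_ofPred_eq, mem_iUnion, Fin.exists_fin_two, Matrix.cons_val_zero,
      Matrix.cons_val_one, mem_image]
    constructor
    · rintro (h | h)
      · left
        obtain ⟨s, hs0, hs1, hs⟩ := outer_surj z h
        exact ⟨s, ⟨hs0, hs1.le, fun h' => absurd h' hs1.ne⟩, hs⟩
      · right
        obtain ⟨s, hs0, hs1, hs⟩ := inner_surj ρ h0 z h
        exact ⟨s, ⟨hs0, hs1.le, fun h' => absurd h' hs1.ne⟩, hs⟩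
    · rintro (⟨s, -, rfl⟩ | ⟨s, -, rfl⟩)
      · left; exact outer_norm s
      · right; exact inner_norm ρ h0 s
  simple := by
    have hlt : ∀ (c : BoundaryCurve), c.closed → ∀ t ∈ c.par, 0 ≤ t ∧ t < c.len := by
      intro c hc t ht
      exact ⟨ht.1, lt_of_le_of_ne ht.2.1 (fun h => ht.2.2 h hc)⟩
    intro i j s hs t ht hst
    fin_cases i <;> fin_cases j
    · refine ⟨rfl, ?_⟩
      have ht' := hlt outerCurve trivial t ht
      have hs' : 0 ≤ s ∧ s < 2 * Real.pi := ⟨hs.1, hs.2.1⟩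
      have ht'' : 0 ≤ t ∧ t < 2 * Real.pi := ht'
      have h : exp (s * I) = exp (t * I) := hst
      have h2 : exp (((s - t : ℝ) : ℂ) * I) = 1 := by
        push_cast
        rw [sub_mul, Complex.exp_sub, h, div_self (Complex.exp_ne_zero _)]
      have := exp_eq_one_of h2 (by rw [abs_lt]; constructor <;> linarith)
      linarith
    · exfalso
      have h : ‖outerCurve.γ s‖ = ‖(innerCurve ρ h0).γ t‖ := congrArg norm hst
      rw [outer_norm, inner_norm] at h
      linarith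
    · exfalso
      have h : ‖(innerCurve ρ h0).γ s‖ = ‖outerCurve.γ t‖ := congrArg norm hst
      rw [outer_norm, inner_norm] at h
      linarith
    · refine ⟨rfl, ?_⟩
      have ht' := hlt (innerCurve ρ h0) trivial t ht
      have hs' : 0 ≤ s ∧ s < 2 * Real.pi * ρ := ⟨hs.1, hs.2.1⟩
      have ht'' : 0 ≤ t ∧ t < 2 * Real.pi * ρ := ht'
      have hρ : (ρ : ℂ) ≠ 0 := by exact_mod_cast h0.ne'
      have h : (ρ : ℂ) * exp (-((s / ρ : ℝ) : ℂ) * I) = ρ * exp (-((t / ρ : ℝ) : ℂ) * I) := hst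
      have h3 := mul_left_cancel₀ hρ h
      have h2 : exp (((t / ρ - s / ρ : ℝ) : ℂ) * I) = 1 := by
        have : (((t / ρ - s / ρ : ℝ) : ℂ) * I)
            = (-((s / ρ : ℝ) : ℂ) * I) - (-((t / ρ : ℝ) : ℂ) * I) := by push_cast; ring
        rw [this, Complex.exp_sub, h3, div_self (Complex.exp_ne_zero _)]
      have := exp_eq_one_of h2 (by
        rw [← sub_div, abs_div, abs_of_pos h0, div_lt_iff₀ h0, abs_lt]
        constructor <;> linarith)
      rw [← sub_div, div_eq_zero_iff] at this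
      rcases this with h | h
      · linarith
      · exact absurd h h0.ne'
  inward := by
    intro i s hs
    have hE : ∀ᶠ ε : ℝ in 𝓝[>] 0, 0 < ε ∧ ε < 1 - ρ ∧ ε < ρ := by
      have h2 : ∀ᶠ ε : ℝ in 𝓝[>] 0, ε < 1 - ρ :=
        nhdsWithin_le_nhds (eventually_lt_nhds (by linarith))
      have h3 : ∀ᶠ ε : ℝ in 𝓝[>] 0, ε < ρ := nhdsWithin_le_nhds (eventually_lt_nhds h0)
      filter_upwards [h2, h3, self_mem_nhdsWithin] with ε a b c
      exact ⟨c, a, b⟩
    rw [interior_ann ρ h0]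
    fin_cases i
    · filter_upwards [hE] with ε hε
      show (outerCurve.γ s + ε * (I * deriv outerCurve.γ s)) ∈ {z : ℂ | ρ < ‖z‖ ∧ ‖z‖ < 1} ∧
        (outerCurve.γ s - ε * (I * deriv outerCurve.γ s)) ∉ ann ρ
      rw [deriv_outer]
      have e1 : outerCurve.γ s + ε * (I * (I * exp (s * I))) = ((1 - ε : ℝ) : ℂ) * exp (s * I) := by
        show exp (s * I) + ε * (I * (I * exp (s * I))) = ((1 - ε : ℝ) : ℂ) * exp (s * I)
        rw [← mul_assoc I I, I_mul_I]; push_cast; ring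
      have e2 : outerCurve.γ s - ε * (I * (I * exp (s * I))) = ((1 + ε : ℝ) : ℂ) * exp (s * I) := by
        show exp (s * I) - ε * (I * (I * exp (s * I))) = ((1 + ε : ℝ) : ℂ) * exp (s * I)
        rw [← mul_assoc I I, I_mul_I]; push_cast; ring
      rw [e1, e2]
      simp only [mem_ofPred_eq, ann, norm_mul, Complex.norm_real, Complex.norm_exp_ofReal_mul_I,
        mul_one]
      rw [Real.norm_of_nonneg (by linarith), Real.norm_of_nonneg (by linarith)]
      refine ⟨⟨by linarith, by linarith⟩, fun h => by linarith⟩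
    · filter_upwards [hE] with ε hε
      show ((innerCurve ρ h0).γ s + ε * (I * deriv (innerCurve ρ h0).γ s)) ∈
          {z : ℂ | ρ < ‖z‖ ∧ ‖z‖ < 1} ∧
        ((innerCurve ρ h0).γ s - ε * (I * deriv (innerCurve ρ h0).γ s)) ∉ ann ρ
      rw [deriv_inner]
      have hE' : ‖exp (-((s / ρ : ℝ) : ℂ) * I)‖ = 1 := by
        have := Complex.norm_exp_ofReal_mul_I (-(s / ρ))
        push_cast at this ⊢
        exact this
      have e0 : (innerCurve ρ h0).γ s = (ρ : ℂ) * exp (-((s / ρ : ℝ) : ℂ) * I) := rfl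
      have e1 : (innerCurve ρ h0).γ s + ε * (I * (-I * exp (-((s / ρ : ℝ) : ℂ) * I)))
          = ((ρ + ε : ℝ) : ℂ) * exp (-((s / ρ : ℝ) : ℂ) * I) := by
        rw [e0, ← mul_assoc I, mul_neg, I_mul_I]; push_cast; ring
      have e2 : (innerCurve ρ h0).γ s - ε * (I * (-I * exp (-((s / ρ : ℝ) : ℂ) * I)))
          = ((ρ - ε : ℝ) : ℂ) * exp (-((s / ρ : ℝ) : ℂ) * I) := by
        rw [e0, ← mul_assoc I, mul_neg, I_mul_I]; push_cast; ring
      rw [e1, e2]
      simp only [mem_ofPred_eq, ann, norm_mul, Complex.norm_real, hE', mul_one]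
      rw [Real.norm_of_nonneg (by linarith), Real.norm_of_nonneg (by linarith)]
      refine ⟨⟨by linarith, by linarith⟩, fun h => by linarith⟩

end Q66.Os
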