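import Mathlib

/-!
# Billiard tables, billiard maps and the Oseledets integrability condition (MP_94eb8e_an)

The plane `ℝ²` is identified with `ℂ`.
-/

set_option autoImplicit false

namespace Q66.Os

open MeasureTheory Set Filter Topology Complex
open scoped ENNReal

/-- The Euclidean inner product of the plane. -/
def dot (z w : ℂ) : ℝ := z.re * w.re + z.im * w.im

/-- A `C³` boundary curve in the plane, parametrised by arclength.  It is either a smooth closed
curve of length `len` (`closed` holds and `γ` is `len`-periodic), or an arc, namely the image of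
`[0, len]`, whose two end points are corners of the table. -/
structure BoundaryCurve where
  γ : ℝ → ℂ
  len : ℝ
  closed : Prop
  len_pos : 0 < len
  smooth : ContDiff ℝ 3 γ
  unit_speed : ∀ s, ‖deriv γ s‖ = 1
  periodic : closed → Function.Periodic γ len

/-- The parameters of the curve: `[0, len)` for a closed curve and `[0, len]` for an arc. -/
def BoundaryCurve.par (c : BoundaryCurve) : Set ℝ :=
  {s | 0 ≤ s ∧ s ≤ c.len ∧ (s = c.len → ¬ c.closed)}

/-- The parameters of the points that are not corners: `[0, len)` for a closed curve and the open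
interval `(0, len)` for an arc. -/
def BoundaryCurve.reg (c : BoundaryCurve) : Set ℝ :=
  {s | 0 ≤ s ∧ s < c.len ∧ (s = 0 → c.closed)}

/-- A billiard table: a compact set `Q`, the closure of its connected interior, whose boundary is a
finite union of `C³` curves, injectively parametrised by arclength, that meet only at corners (end
points of arcs).  The curves are oriented so that `Q` lies to their left. -/
structure BilliardTable where
  Q : Set ℂ
  n : ℕ
  curve : Fin n → BoundaryCurve
  isCompact : IsCompact Q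
  isConnected : IsConnected (interior Q)
  closure_interior : closure (interior Q) = Q
  frontier_eq : frontier Q = ⋃ i, (curve i).γ '' (curve i).par
  simple : ∀ i j, ∀ s ∈ (curve i).reg, ∀ t ∈ (curve j).par,
    (curve i).γ s = (curve j).γ t → i = j ∧ s = t
  inward : ∀ i, ∀ s ∈ (curve i).reg, ∀ᶠ ε : ℝ in 𝓝[>] 0,
    (curve i).γ s + ε * (I * deriv (curve i).γ s) ∈ interior Q ∧
      (curve i).γ s - ε * (I * deriv (curve i).γ s) ∉ Q

namespace BilliardTable

variable (B : BilliardTable)

/-- The corners: the end points of the arcs. -/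
def corners : Set ℂ :=
  {q | ∃ i, ¬ (B.curve i).closed ∧ (q = (B.curve i).γ 0 ∨ q = (B.curve i).γ (B.curve i).len)}

/-- The end `e = (i, false)` or `(i, true)` of the arc `i` sits at the corner `q`, and the arc leaves
`q` from this end in the direction `u`. -/
def IsEnd (e : Fin B.n × Bool) (q u : ℂ) : Prop :=
  ¬ (B.curve e.1).closed ∧
    ((e.2 = false ∧ q = (B.curve e.1).γ 0 ∧ u = deriv (B.curve e.1).γ 0) ∨
      (e.2 = true ∧ q = (B.curve e.1).γ (B.curve e.1).len ∧
        u = - deriv (B.curve e.1).γ (B.curve e.1).len))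

/-- No cusps: at a corner, no two boundary arcs leave in the same direction. -/
def NoCusps : Prop :=
  ∀ e e' : Fin B.n × Bool, ∀ q u : ℂ, B.IsEnd e q u → B.IsEnd e' q u → e = e'

open Classical in
/-- The inward unit normal at a boundary point that is not a corner (and `0` elsewhere). -/
noncomputable def normal (q : ℂ) : ℂ :=
  if h : ∃ p : Fin B.n × ℝ, p.2 ∈ (B.curve p.1).reg ∧ (B.curve p.1).γ p.2 = q then
    I * deriv (B.curve h.choose.1).γ h.choose.2 else 0

/-- The phase space: a boundary point `q`, not a corner, and a unit vector `v` that does not point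
out of the table. -/
def M : Set (ℂ × ℂ) :=
  {x | x.1 ∈ frontier B.Q ∧ x.1 ∉ B.corners ∧ ‖x.2‖ = 1 ∧ 0 ≤ dot x.2 (B.normal x.1)}

/-- The phase point with coordinates `(r, φ)` on the curve number `i`: the base point is at arclength
`r` and the velocity makes the angle `φ` with the inward normal. -/
noncomputable def pt (i : Fin B.n) (u : ℝ × ℝ) : ℂ × ℂ :=
  ((B.curve i).γ u.1, exp (u.2 * I) * (I * deriv (B.curve i).γ u.1))

/-- The next boundary point on the ray from `x.1` in direction `x.2`. -/
noncomputable def hit (x : ℂ × ℂ) : ℂ :=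
  x.1 + (sInf {t : ℝ | 0 < t ∧ x.1 + t * x.2 ∈ frontier B.Q} : ℝ) * x.2

/-- Elastic reflection of the vector `v` at the boundary point `q`. -/
noncomputable def reflect (q v : ℂ) : ℂ := v - 2 * dot v (B.normal q) * B.normal q

/-- The billiard map. -/
noncomputable def T (x : ℂ × ℂ) : ℂ × ℂ := (B.hit x, B.reflect (B.hit x) x.2)

/-- Time reversal; in coordinates `(r, φ) ↦ (r, -φ)`. -/
noncomputable def J (x : ℂ × ℂ) : ℂ × ℂ := (x.1, - B.reflect x.1 x.2)

/-- The inverse of the billiard map, `T⁻¹ = J ∘ T ∘ J`. -/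
noncomputable def Tinv (x : ℂ × ℂ) : ℂ × ℂ := B.J (B.T (B.J x))

/-- The singular set: tangential collisions, and points whose next or previous collision is at a
corner. -/
def S : Set (ℂ × ℂ) :=
  {x | dot x.2 (B.normal x.1) = 0 ∨ B.hit x ∈ B.corners ∨ B.hit (B.J x) ∈ B.corners}

/-- The entire (two-sided) orbit of `x` is defined and avoids the singular set. -/
def HasRegularOrbit (x : ℂ × ℂ) : Prop :=
  ∃ o : ℤ → ℂ × ℂ, o 0 = x ∧ ∀ k, o k ∈ B.M ∧ o k ∉ B.S ∧ o (k + 1) = B.T (o k)

/-- `A` is the derivative at the phase point `x` of the phase space map `F`, written in the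
coordinates `(r, φ)` near `x` and near `F x`. -/
def IsCoordDeriv (F : ℂ × ℂ → ℂ × ℂ) (x : ℂ × ℂ) (A : ℝ × ℝ →L[ℝ] ℝ × ℝ) : Prop :=
  ∃ (i j : Fin B.n) (p p' : ℝ × ℝ) (f : ℝ × ℝ → ℝ × ℝ),
    p.1 ∈ (B.curve i).reg ∧ p.2 ∈ Icc (-(Real.pi / 2)) (Real.pi / 2) ∧ B.pt i p = x ∧
    p'.1 ∈ (B.curve j).reg ∧ p'.2 ∈ Icc (-(Real.pi / 2)) (Real.pi / 2) ∧ B.pt j p' = F x ∧
    f p = p' ∧ HasFDerivAt f A p ∧ ∀ᶠ u in 𝓝 p, F (B.pt i u) = B.pt j (f u)

/-- `log⁺ ‖D_x F‖`, the derivative being taken in the coordinates `(r, φ)`.  There is at most one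
derivative `A` at `x` (theorem `isCoordDeriv_unique` in `Pool.Agent.Q66.OsUnique`), so the supremum
only serves to pick it; the value is `0` where `F` has no derivative. -/
noncomputable def logNorm (F : ℂ × ℂ → ℂ × ℂ) (x : ℂ × ℂ) : ℝ≥0∞ :=
  ⨆ A : ℝ × ℝ →L[ℝ] ℝ × ℝ, ⨆ _ : B.IsCoordDeriv F x A, ENNReal.ofReal (Real.posLog ‖A‖)

/-- `μ` is an invariant probability measure of the billiard map: it gives full mass to the points
whose entire orbit avoids the singular set, and `T_* μ = μ`. -/
def IsInvariantMeasure (μ : Measure (ℂ × ℂ)) : Prop :=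
  IsProbabilityMeasure μ ∧ (∀ᵐ x ∂μ, B.HasRegularOrbit x) ∧ AEMeasurable B.T μ ∧ μ.map B.T = μ

/-- `μ` gives zero mass to the set of periodic points. -/
def NonPeriodic (μ : Measure (ℂ × ℂ)) : Prop := μ (Function.periodicPts B.T) = 0

end BilliardTable

end Q66.Os
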