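import Pool.Agent.Q66.OsDyn

/-!
# The derivative of the billiard map of the annulus
-/

set_option autoImplicit false

namespace Q66.Os

open MeasureTheory Set Filter Topology Complex
open scoped ENNReal

variable {ρ : ℝ} (h0 : 0 < ρ) (h1 : ρ < 1)

/-- the new angle -/
noncomputable def Psi (ρ φ : ℝ) : ℝ := Real.arcsin (-Real.sin φ / ρ)

theorem c1_sin {φ : ℝ} (hφ : |φ| < Real.pi / 2) : c1 (-Real.sin φ) = Real.cos φ := by
  rw [abs_lt] at hφ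
  rw [c1, neg_sq, Real.cos_eq_sqrt_one_sub_sin_sq hφ.1.le hφ.2.le]

theorem c2_sin {ρ : ℝ} (h0 : 0 < ρ) {ψ : ℝ} (hψ : |ψ| < Real.pi / 2) :
    c2 ρ (ρ * Real.sin ψ) = ρ * Real.cos ψ := by
  rw [abs_lt] at hψ
  rw [c2, Real.cos_eq_sqrt_one_sub_sin_sq hψ.1.le hψ.2.le]
  have : ρ ^ 2 - (ρ * Real.sin ψ) ^ 2 = ρ ^ 2 * (1 - Real.sin ψ ^ 2) := by ring
  rw [this, Real.sqrt_mul (by positivity), Real.sqrt_sq h0.le]

theorem exp_mul_I' (x : ℝ) : exp (x * I) = (Real.cos x : ℂ) + (Real.sin x : ℂ) * I := by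
  rw [Complex.exp_mul_I]; push_cast; rfl

theorem pt_outer {s φ : ℝ} (hφ : |φ| < Real.pi / 2) :
    (annTable ρ h0 h1).pt (0 : Fin 2) (s, φ) = outP (-Real.sin φ) (exp (s * I)) := by
  have h2 : (annTable ρ h0 h1).pt (0 : Fin 2) (s, φ)
      = (outerCurve.γ s, exp (φ * I) * (I * deriv outerCurve.γ s)) := rfl
  rw [h2, deriv_outer, outP, c1_sin hφ]
  ext1
  · rfl
  · show exp (φ * I) * (I * (I * exp (s * I)))
      = exp (s * I) * (-(Real.cos φ : ℂ) + ((-Real.sin φ : ℝ) : ℂ) * I)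
    rw [exp_mul_I' φ, ← mul_assoc I, I_mul_I]
    push_cast
    ring

theorem pt_inner {s ψ : ℝ} (hψ : |ψ| < Real.pi / 2) :
    (annTable ρ h0 h1).pt (1 : Fin 2) (s, ψ)
      = inP ρ (ρ * Real.sin ψ) (exp (-((s / ρ : ℝ) : ℂ) * I)) := by
  have hρ : (ρ : ℂ) ≠ 0 := by exact_mod_cast h0.ne'
  have h2 : (annTable ρ h0 h1).pt (1 : Fin 2) (s, ψ)
      = ((innerCurve ρ h0).γ s, exp (ψ * I) * (I * deriv (innerCurve ρ h0).γ s)) := rfl
  rw [h2, deriv_inner, inP, c2_sin h0 hψ]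
  ext1
  · rfl
  · show exp (ψ * I) * (I * (-I * exp (-((s / ρ : ℝ) : ℂ) * I)))
      = exp (-((s / ρ : ℝ) : ℂ) * I) *
        ((((ρ * Real.cos ψ : ℝ) : ℂ) + ((ρ * Real.sin ψ : ℝ) : ℂ) * I) / ρ)
    rw [exp_mul_I' ψ, ← mul_assoc I, mul_neg, I_mul_I]
    push_cast
    field_simp

theorem abs_arcsin_lt {x : ℝ} (hx : |x| < 1) : |Real.arcsin x| < Real.pi / 2 := by
  rw [abs_lt] at hx ⊢
  exact ⟨Real.neg_pi_div_two_lt_arcsin.mpr hx.1, Real.arcsin_lt_pi_div_two.mpr hx.2⟩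

theorem abs_div_lt {φ : ℝ} (h0 : 0 < ρ) (hs : |Real.sin φ| < ρ) : |(-Real.sin φ / ρ)| < 1 := by
  rw [abs_div, abs_neg, abs_of_pos h0, div_lt_one h0]; exact hs

theorem rho_sin_Psi {φ : ℝ} (h0 : 0 < ρ) (hs : |Real.sin φ| < ρ) :
    ρ * Real.sin (Psi ρ φ) = -Real.sin φ := by
  have h := abs_lt.mp (abs_div_lt h0 hs)
  rw [Psi, Real.sin_arcsin h.1.le h.2.le]
  field_simp

theorem om_exp {φ : ℝ} (h0 : 0 < ρ) (hφ : |φ| < Real.pi / 2) (hs : |Real.sin φ| < ρ) :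
    om ρ (-Real.sin φ) = exp (((φ + Psi ρ φ : ℝ) : ℂ) * I) := by
  have hρ : (ρ : ℂ) ≠ 0 := by exact_mod_cast h0.ne'
  have h3 : |Psi ρ φ| < Real.pi / 2 := abs_arcsin_lt (abs_div_lt h0 hs)
  have h4 := rho_sin_Psi h0 hs
  have h5 : c2 ρ (-Real.sin φ) = ρ * Real.cos (Psi ρ φ) := by
    rw [← h4, c2_sin h0 h3]
  rw [om, c1_sin hφ, h5]
  push_cast
  rw [add_mul, Complex.exp_add, exp_mul_I' φ, exp_mul_I' (Psi ρ φ)]
  have h6 : (ρ : ℂ) * (Real.sin (Psi ρ φ) : ℂ) = -(Real.sin φ : ℂ) := by exact_mod_cast h4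
  push_cast at h6 ⊢
  field_simp
  linear_combination (-(I * (cos φ + I * sin φ))) * h6

theorem om_exp' {φ : ℝ} (h0 : 0 < ρ) (hφ : |φ| < Real.pi / 2) (hs : |Real.sin φ| < ρ) :
    om ρ (Real.sin φ) = exp (((-(φ + Psi ρ φ) : ℝ) : ℂ) * I) := by
  have h2 := om_exp (ρ := ρ) (φ := -φ) h0 (by rwa [abs_neg]) (by rwa [Real.sin_neg, abs_neg])
  rw [Real.sin_neg, neg_neg] at h2
  rw [h2]
  have : Psi ρ (-φ) = -Psi ρ φ := by
    rw [Psi, Psi, Real.sin_neg, neg_neg, ← Real.arcsin_neg, neg_div, neg_neg]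
  rw [this]
  congr 3
  ring

theorem hasDerivAt_Psi {φ : ℝ} (h0 : 0 < ρ) (hs : |Real.sin φ| < ρ) :
    HasDerivAt (Psi ρ) (1 / √(1 - (-Real.sin φ / ρ) ^ 2) * (-Real.cos φ / ρ)) φ := by
  have h := abs_lt.mp (abs_div_lt h0 hs)
  have ha := Real.hasDerivAt_arcsin h.1.ne' h.2.ne
  have hb : HasDerivAt (fun φ => -Real.sin φ / ρ) (-Real.cos φ / ρ) φ :=
    (Real.hasDerivAt_sin φ).neg.div_const ρ
  exact ha.comp φ hb

theorem exists_deriv (F : ℂ × ℂ → ℂ × ℂ) (ε : ℝ)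
    (hF : ∀ φ : ℝ, |φ| < Real.pi / 2 → |Real.sin φ| < ρ → ∀ z : ℂ, ‖z‖ = 1 →
      F (outP (-Real.sin φ) z)
        = inP ρ (-Real.sin φ) (z * exp (((ε * (φ + Psi ρ φ) : ℝ) : ℂ) * I)))
    {p : ℝ} (hp : |p| < ρ) {z : ℂ} (hz : ‖z‖ = 1) :
    ∃ A, (annTable ρ h0 h1).IsCoordDeriv F (outP p z) A ∧ c1 p / c2 ρ p ≤ ‖A‖ := by
  have hρ : (ρ : ℂ) ≠ 0 := by exact_mod_cast h0.ne'
  obtain ⟨s, hs0, hs1, hs⟩ := outer_surj z hz
  have hs' : exp (s * I) = z := hs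
  have hp1 : |(-p)| < 1 := by rw [abs_neg]; linarith
  set φ := Real.arcsin (-p) with hφdef
  have hφ : |φ| < Real.pi / 2 := abs_arcsin_lt hp1
  have hsin : Real.sin φ = -p := by
    have := abs_lt.mp hp1
    rw [hφdef, Real.sin_arcsin this.1.le this.2.le]
  have hsρ : |Real.sin φ| < ρ := by rw [hsin, abs_neg]; exact hp
  have hlen : 0 < 2 * Real.pi * ρ := by positivity
  set D := 1 / √(1 - (-Real.sin φ / ρ) ^ 2) * (-Real.cos φ / ρ) with hD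
  set a := -ρ * (s + ε * (φ + Psi ρ φ)) with ha
  set m : ℤ := toIcoDiv hlen 0 a with hm
  let f : ℝ × ℝ → ℝ × ℝ := fun u =>
    (-ρ * (u.1 + ε * (u.2 + Psi ρ u.2)) - m • (2 * Real.pi * ρ), Psi ρ u.2)
  have hder : HasFDerivAt f
      (((-ρ) • (ContinuousLinearMap.fst ℝ ℝ ℝ +
        ε • (ContinuousLinearMap.snd ℝ ℝ ℝ + D • ContinuousLinearMap.snd ℝ ℝ ℝ))).prod
        (D • ContinuousLinearMap.snd ℝ ℝ ℝ)) (s, φ) := by
    have hP : HasFDerivAt (fun u : ℝ × ℝ => Psi ρ u.2) (D • ContinuousLinearMap.snd ℝ ℝ ℝ) (s, φ) := by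
      have h2 : HasDerivAt (Psi ρ) D φ := hasDerivAt_Psi h0 hsρ
      exact HasDerivAt.comp_hasFDerivAt (f := Prod.snd) (s, φ) h2 hasFDerivAt_snd
    apply HasFDerivAt.prodMk
    · apply HasFDerivAt.sub_const
      apply HasFDerivAt.const_mul
      apply HasFDerivAt.add hasFDerivAt_fst
      apply HasFDerivAt.const_mul
      exact hasFDerivAt_snd.add hP
    · exact hP
  refine ⟨_, ⟨(0 : Fin 2), (1 : Fin 2), (s, φ), f (s, φ), f, ?_, ?_, ?_, ?_, ?_, ?_, rfl, hder, ?_⟩, ?_⟩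
  · exact ⟨hs0, hs1, fun _ => trivial⟩
  · rw [abs_lt] at hφ; exact ⟨hφ.1.le, hφ.2.le⟩
  · rw [pt_outer h0 h1 hφ, hsin, neg_neg, hs']
  · show a - toIcoDiv hlen 0 a • (2 * Real.pi * ρ) ∈ (innerCurve ρ h0).reg
    have h3 : a - toIcoDiv hlen 0 a • (2 * Real.pi * ρ) = toIcoMod hlen 0 a := rfl
    rw [h3]
    refine ⟨left_le_toIcoMod hlen 0 _, ?_, fun _ => trivial⟩
    have := toIcoMod_lt_right hlen 0 a
    simpa [innerCurve] using this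
  · have := abs_lt.mp (abs_arcsin_lt (abs_div_lt h0 hsρ))
    exact ⟨this.1.le, this.2.le⟩
  · -- the point
    have h3 : |Psi ρ φ| < Real.pi / 2 := abs_arcsin_lt (abs_div_lt h0 hsρ)
    have h4 := hF φ hφ hsρ z hz
    rw [hsin, neg_neg] at h4
    rw [h4]
    show (annTable ρ h0 h1).pt (1 : Fin 2) (_, Psi ρ φ) = _
    rw [pt_inner h0 h1 h3, rho_sin_Psi h0 hsρ, hsin, neg_neg]
    congr 1
    rw [← hs', ← Complex.exp_add, ← sub_eq_zero]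
    rw [Complex.exp_eq_exp_iff_exists_int.mpr ⟨m, ?_⟩, sub_self]
    show -(((-ρ * (s + ε * (φ + Psi ρ φ)) - m • (2 * Real.pi * ρ)) / ρ : ℝ) : ℂ) * I = _
    push_cast
    rw [zsmul_eq_mul]
    field_simp
    ring
  · have hev1 : ∀ᶠ u : ℝ × ℝ in 𝓝 (s, φ), |u.2| < Real.pi / 2 :=
      (continuous_snd.abs.continuousAt.eventually_lt_const hφ)
    have hev2 : ∀ᶠ u : ℝ × ℝ in 𝓝 (s, φ), |Real.sin u.2| < ρ :=
      ((Real.continuous_sin.comp continuous_snd).abs.continuousAt.eventually_lt_const hsρ)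
    filter_upwards [hev1, hev2] with u hu1 hu2
    obtain ⟨r, θ⟩ := u
    have h3 : |Psi ρ θ| < Real.pi / 2 := abs_arcsin_lt (abs_div_lt h0 hu2)
    rw [pt_outer h0 h1 hu1, hF θ hu1 hu2 _ (Complex.norm_exp_ofReal_mul_I r)]
    show _ = (annTable ρ h0 h1).pt (1 : Fin 2) (_, Psi ρ θ)
    rw [pt_inner h0 h1 h3, rho_sin_Psi h0 hu2]
    congr 1
    rw [← Complex.exp_add, Complex.exp_eq_exp_iff_exists_int]
    refine ⟨-m, ?_⟩
    show _ = -(((-ρ * (r + ε * (θ + Psi ρ θ)) - m • (2 * Real.pi * ρ)) / ρ : ℝ) : ℂ) * I + _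
    push_cast
    rw [zsmul_eq_mul]
    field_simp
    ring
  · set A := (((-ρ) • (ContinuousLinearMap.fst ℝ ℝ ℝ +
        ε • (ContinuousLinearMap.snd ℝ ℝ ℝ + D • ContinuousLinearMap.snd ℝ ℝ ℝ))).prod
        (D • ContinuousLinearMap.snd ℝ ℝ ℝ)) with hA
    have h3 := A.le_opNorm (0, 1)
    have h4 : ‖((0, 1) : ℝ × ℝ)‖ = 1 := by simp [Prod.norm_def]
    rw [h4, mul_one] at h3
    have h5 : |D| ≤ ‖A (0, 1)‖ := by
      rw [Prod.norm_def]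
      refine le_trans ?_ (le_max_right _ _)
      simp [hA]
    have h6 : |D| = c1 p / c2 ρ p := by
      have e1 : Real.cos φ = c1 p := by
        rw [← c1_sin hφ, hsin, neg_neg]
      have e2 : √(1 - (-Real.sin φ / ρ) ^ 2) = c2 ρ p / ρ := by
        rw [hsin, neg_neg, c2]
        have : 1 - (p / ρ) ^ 2 = (ρ ^ 2 - p ^ 2) / ρ ^ 2 := by field_simp
        rw [this, Real.sqrt_div' _ (by positivity), Real.sqrt_sq h0.le]
      rw [hD, e1, e2]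
      have a1 := c1_pos h0 h1 hp
      have a2 := c2_pos hp
      have e3 : 1 / (c2 ρ p / ρ) * (-c1 p / ρ) = -(c1 p / c2 ρ p) := by field_simp
      rw [e3, abs_neg, abs_of_pos (by positivity)]
    rw [← h6]
    exact h5.trans h3

theorem logNorm_ge (F : ℂ × ℂ → ℂ × ℂ) (ε : ℝ)
    (hF : ∀ φ : ℝ, |φ| < Real.pi / 2 → |Real.sin φ| < ρ → ∀ z : ℂ, ‖z‖ = 1 →
      F (outP (-Real.sin φ) z)
        = inP ρ (-Real.sin φ) (z * exp (((ε * (φ + Psi ρ φ) : ℝ) : ℂ) * I)))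
    {p : ℝ} (hp : |p| < ρ) {z : ℂ} (hz : ‖z‖ = 1) {C : ℝ} (hC : Real.exp C ≤ c1 p / c2 ρ p) :
    ENNReal.ofReal C ≤ (annTable ρ h0 h1).logNorm F (outP p z) := by
  obtain ⟨A, hA, hA2⟩ := exists_deriv h0 h1 F ε hF hp hz
  rw [BilliardTable.logNorm]
  refine le_trans ?_ (le_iSup₂ (f := fun (A : ℝ × ℝ →L[ℝ] ℝ × ℝ)
    (_ : (annTable ρ h0 h1).IsCoordDeriv F (outP p z) A) => ENNReal.ofReal (Real.posLog ‖A‖)) A hA)
  apply ENNReal.ofReal_le_ofReal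
  have h3 : Real.exp C ≤ ‖A‖ := hC.trans hA2
  have h4 : C ≤ Real.log ‖A‖ := by
    rw [Real.le_log_iff_exp_le (lt_of_lt_of_le (Real.exp_pos C) h3)]; exact h3
  exact h4.trans (by rw [Real.posLog_apply]; exact le_max_right _ _)

theorem logNorm_T {p : ℝ} (hp : |p| < ρ) {z : ℂ} (hz : ‖z‖ = 1) {C : ℝ}
    (hC : Real.exp C ≤ c1 p / c2 ρ p) :
    ENNReal.ofReal C ≤ (annTable ρ h0 h1).logNorm (annTable ρ h0 h1).T (outP p z) := by
  apply logNorm_ge h0 h1 _ 1 _ hp hz hC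
  intro φ hφ hs z hz
  have : |(-Real.sin φ)| < ρ := by rwa [abs_neg]
  rw [T_out h0 h1 this hz, om_exp h0 hφ hs, one_mul]

theorem logNorm_Tinv {p : ℝ} (hp : |p| < ρ) {z : ℂ} (hz : ‖z‖ = 1) {C : ℝ}
    (hC : Real.exp C ≤ c1 p / c2 ρ p) :
    ENNReal.ofReal C ≤ (annTable ρ h0 h1).logNorm (annTable ρ h0 h1).Tinv (outP p z) := by
  apply logNorm_ge h0 h1 _ (-1) _ hp hz hC
  intro φ hφ hs z hz
  have : |(-Real.sin φ)| < ρ := by rwa [abs_neg]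
  rw [Tinv_out h0 h1 this hz, neg_neg, om_exp' h0 hφ hs, neg_one_mul]

end Q66.Os
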