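import Pool.Agent.Q66.OsAnn

/-!
# The billiard map of the annulus
-/

set_option autoImplicit false

namespace Q66.Os

open MeasureTheory Set Filter Topology Complex
open scoped ENNReal

/-- cosine of the angle at the outer circle -/
noncomputable def c1 (p : ℝ) : ℝ := √(1 - p ^ 2)
/-- `ρ` times the cosine of the angle at the inner circle -/
noncomputable def c2 (ρ p : ℝ) : ℝ := √(ρ ^ 2 - p ^ 2)
/-- the rotation of one step -/
noncomputable def om (ρ p : ℝ) : ℂ := (c1 p - p * I) * (c2 ρ p + p * I) / ρ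
/-- outer phase point with angular momentum `p` -/
noncomputable def outP (p : ℝ) (z : ℂ) : ℂ × ℂ := (z, z * (-c1 p + p * I))
/-- inner phase point with angular momentum `p` -/
noncomputable def inP (ρ p : ℝ) (z : ℂ) : ℂ × ℂ := (ρ * z, z * ((c2 ρ p + p * I) / ρ))

variable {ρ : ℝ} (h0 : 0 < ρ) (h1 : ρ < 1)

theorem c1_sq {p : ℝ} (h0 : 0 < ρ) (h1 : ρ < 1) (hp : |p| < ρ) : c1 p ^ 2 = 1 - p ^ 2 := by
  rw [c1, Real.sq_sqrt]
  have : p ^ 2 < ρ ^ 2 := sq_lt_sq' (by linarith [neg_abs_le p]) (by linarith [le_abs_self p])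
  nlinarith

theorem c2_sq {p : ℝ} (hp : |p| < ρ) : c2 ρ p ^ 2 = ρ ^ 2 - p ^ 2 := by
  rw [c2, Real.sq_sqrt]
  have : p ^ 2 < ρ ^ 2 := sq_lt_sq' (by linarith [neg_abs_le p]) (by linarith [le_abs_self p])
  linarith

theorem c1_pos {p : ℝ} (h0 : 0 < ρ) (h1 : ρ < 1) (hp : |p| < ρ) : 0 < c1 p := by
  apply Real.sqrt_pos.mpr
  have : p ^ 2 < ρ ^ 2 := sq_lt_sq' (by linarith [neg_abs_le p]) (by linarith [le_abs_self p])
  nlinarith

theorem c2_pos {p : ℝ} (hp : |p| < ρ) : 0 < c2 ρ p := by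
  apply Real.sqrt_pos.mpr
  have : p ^ 2 < ρ ^ 2 := sq_lt_sq' (by linarith [neg_abs_le p]) (by linarith [le_abs_self p])
  linarith

theorem c2_lt_c1 {p : ℝ} (h0 : 0 < ρ) (h1 : ρ < 1) (hp : |p| < ρ) : c2 ρ p < c1 p := by
  have e1 := c1_sq h0 h1 hp
  have e2 := c2_sq hp
  have a1 := c1_pos h0 h1 hp
  have a2 := c2_pos hp
  have : ρ ^ 2 < 1 := by nlinarith
  nlinarith

/-- normal on the outer circle -/
theorem normal_outer (q : ℂ) (hq : ‖q‖ = 1) : (annTable ρ h0 h1).normal q = -q := by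
  have hex : ∃ p : Fin (annTable ρ h0 h1).n × ℝ, p.2 ∈ ((annTable ρ h0 h1).curve p.1).reg ∧
      ((annTable ρ h0 h1).curve p.1).γ p.2 = q := by
    obtain ⟨s, hs0, hs1, hs⟩ := outer_surj q hq
    exact ⟨((0 : Fin 2), s), ⟨hs0, hs1, fun _ => trivial⟩, hs⟩
  rw [BilliardTable.normal, dif_pos hex]
  have hsp := hex.choose_spec
  set P := hex.choose with hP
  obtain ⟨i, s⟩ := P
  change Fin 2 at i
  fin_cases i
  · have h3 : exp (s * I) = q := hsp.2
    show I * deriv outerCurve.γ s = -q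
    rw [deriv_outer, h3, ← mul_assoc, I_mul_I, neg_one_mul]
  · exfalso
    have h3 : (innerCurve ρ h0).γ s = q := hsp.2
    have h4 := inner_norm ρ h0 s
    rw [h3, hq] at h4
    linarith

/-- normal on the inner circle -/
theorem normal_inner (q : ℂ) (hq : ‖q‖ = ρ) : (annTable ρ h0 h1).normal q = q / ρ := by
  have hex : ∃ p : Fin (annTable ρ h0 h1).n × ℝ, p.2 ∈ ((annTable ρ h0 h1).curve p.1).reg ∧
      ((annTable ρ h0 h1).curve p.1).γ p.2 = q := by
    obtain ⟨s, hs0, hs1, hs⟩ := inner_surj ρ h0 q hq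
    exact ⟨((1 : Fin 2), s), ⟨hs0, hs1, fun _ => trivial⟩, hs⟩
  rw [BilliardTable.normal, dif_pos hex]
  have hsp := hex.choose_spec
  set P := hex.choose with hP
  obtain ⟨i, s⟩ := P
  change Fin 2 at i
  fin_cases i
  · exfalso
    have h3 : outerCurve.γ s = q := hsp.2
    have h4 := outer_norm s
    rw [h3, hq] at h4
    linarith
  · have h3 : (ρ : ℂ) * exp (-((s / ρ : ℝ) : ℂ) * I) = q := hsp.2
    have hρ : (ρ : ℂ) ≠ 0 := by exact_mod_cast h0.ne'
    show I * deriv (innerCurve ρ h0).γ s = q / ρ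
    rw [deriv_inner, ← h3, ← mul_assoc, mul_neg, I_mul_I]
    field_simp

theorem frontier_mem (q : ℂ) : q ∈ frontier (annTable ρ h0 h1).Q ↔ ‖q‖ = 1 ∨ ‖q‖ = ρ := by
  have : (annTable ρ h0 h1).Q = ann ρ := rfl
  rw [this, frontier_ann ρ h0 h1]
  rfl

theorem corners_empty : (annTable ρ h0 h1).corners = ∅ := by
  ext q
  simp only [BilliardTable.corners, mem_empty_iff_false, iff_false]
  rintro ⟨i, hi, -⟩
  change Fin 2 at i
  fin_cases i
  · exact hi trivial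
  · exact hi trivial

theorem noCusps : (annTable ρ h0 h1).NoCusps := by
  intro e e' q u he
  exfalso
  obtain ⟨i, b⟩ := e
  change Fin 2 at i
  fin_cases i
  · exact he.1 trivial
  · exact he.1 trivial

theorem norm_sq_out {p : ℝ} (h0 : 0 < ρ) (h1 : ρ < 1) (hp : |p| < ρ) {z : ℂ} (hz : ‖z‖ = 1)
    (t : ℝ) : ‖(outP p z).1 + t * (outP p z).2‖ ^ 2 = (t - c1 p) ^ 2 + p ^ 2 := by
  have h : (outP p z).1 + t * (outP p z).2 = z * ((1 - t * c1 p : ℝ) + (t * p : ℝ) * I) := by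
    simp only [outP]; push_cast; ring
  rw [h, norm_mul, hz, one_mul, ← Complex.normSq_eq_norm_sq, Complex.normSq_add_mul_I]
  have := c1_sq h0 h1 hp
  linear_combination (t ^ 2 - 1) * this

theorem norm_sq_in {p : ℝ} (h0 : 0 < ρ) (hp : |p| < ρ) {z : ℂ} (hz : ‖z‖ = 1)
    (t : ℝ) : ‖(inP ρ p z).1 + t * (inP ρ p z).2‖ ^ 2 = (t + c2 ρ p) ^ 2 + p ^ 2 := by
  have hρ : (ρ : ℂ) ≠ 0 := by exact_mod_cast h0.ne'
  have h : (inP ρ p z).1 + t * (inP ρ p z).2
      = z * ((ρ + t * c2 ρ p / ρ : ℝ) + (t * p / ρ : ℝ) * I) := by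
    simp only [inP]; push_cast; ring
  rw [h, norm_mul, hz, one_mul, ← Complex.normSq_eq_norm_sq, Complex.normSq_add_mul_I]
  have := c2_sq hp
  field_simp
  linear_combination (t ^ 2 - ρ ^ 2) * this

theorem norm_eq_iff_sq {x : ℂ} {a : ℝ} (ha : 0 ≤ a) : ‖x‖ = a ↔ ‖x‖ ^ 2 = a ^ 2 := by
  constructor
  · intro h; rw [h]
  · intro h
    exact (pow_left_inj₀ (norm_nonneg x) ha two_ne_zero).mp h

theorem tau_out {p : ℝ} (hp : |p| < ρ) {z : ℂ} (hz : ‖z‖ = 1) :
    sInf {t : ℝ | 0 < t ∧ (outP p z).1 + t * (outP p z).2 ∈ frontier (annTable ρ h0 h1).Q}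
      = c1 p - c2 ρ p := by
  apply IsLeast.csInf_eq
  have e1 := c1_sq h0 h1 hp
  have e2 := c2_sq hp
  have a1 := c1_pos h0 h1 hp
  have a2 := c2_pos hp
  have a3 := c2_lt_c1 h0 h1 hp
  constructor
  · refine ⟨by linarith, ?_⟩
    rw [frontier_mem]
    right
    rw [norm_eq_iff_sq h0.le, norm_sq_out h0 h1 hp hz]
    linear_combination e2
  · rintro t ⟨ht, hm⟩
    rw [frontier_mem, norm_eq_iff_sq zero_le_one, norm_eq_iff_sq h0.le,
      norm_sq_out h0 h1 hp hz] at hm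
    rcases hm with hm | hm
    · have : t * (t - 2 * c1 p) = 0 := by linear_combination hm - e1
      rcases mul_eq_zero.mp this with h | h
      · linarith
      · linarith
    · have : (t - c1 p - c2 ρ p) * (t - c1 p + c2 ρ p) = 0 := by linear_combination hm - e2
      rcases mul_eq_zero.mp this with h | h
      · linarith
      · linarith

theorem tau_in {p : ℝ} (hp : |p| < ρ) {z : ℂ} (hz : ‖z‖ = 1) :
    sInf {t : ℝ | 0 < t ∧ (inP ρ p z).1 + t * (inP ρ p z).2 ∈ frontier (annTable ρ h0 h1).Q}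
      = c1 p - c2 ρ p := by
  apply IsLeast.csInf_eq
  have e1 := c1_sq h0 h1 hp
  have e2 := c2_sq hp
  have a1 := c1_pos h0 h1 hp
  have a2 := c2_pos hp
  have a3 := c2_lt_c1 h0 h1 hp
  constructor
  · refine ⟨by linarith, ?_⟩
    rw [frontier_mem]
    left
    rw [norm_eq_iff_sq zero_le_one, norm_sq_in h0 hp hz]
    linear_combination e1
  · rintro t ⟨ht, hm⟩
    rw [frontier_mem, norm_eq_iff_sq zero_le_one, norm_eq_iff_sq h0.le,
      norm_sq_in h0 hp hz] at hm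
    rcases hm with hm | hm
    · have : (t + c2 ρ p - c1 p) * (t + c2 ρ p + c1 p) = 0 := by linear_combination hm - e1
      rcases mul_eq_zero.mp this with h | h
      · linarith
      · linarith
    · have : t * (t + 2 * c2 ρ p) = 0 := by linear_combination hm - e2
      rcases mul_eq_zero.mp this with h | h
      · linarith
      · linarith

theorem norm_om {p : ℝ} (h0 : 0 < ρ) (h1 : ρ < 1) (hp : |p| < ρ) : ‖om ρ p‖ = 1 := by
  have e1 := c1_sq h0 h1 hp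
  have e2 := c2_sq hp
  rw [norm_eq_iff_sq zero_le_one, om, norm_div, norm_mul, div_pow, mul_pow,
    ← Complex.normSq_eq_norm_sq, ← Complex.normSq_eq_norm_sq, Complex.norm_real,
    Real.norm_of_nonneg h0.le]
  have h3 : ((c1 p : ℂ) - p * I) = ((c1 p : ℝ) : ℂ) + ((-p : ℝ) : ℂ) * I := by push_cast; ring
  rw [h3, Complex.normSq_add_mul_I, Complex.normSq_add_mul_I]
  have h4 : c1 p ^ 2 + (-p) ^ 2 = 1 := by linear_combination e1
  have h5 : c2 ρ p ^ 2 + p ^ 2 = ρ ^ 2 := by linear_combination e2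
  rw [h4, h5]
  field_simp

theorem om_mul {p : ℝ} (h0 : 0 < ρ) (h1 : ρ < 1) (hp : |p| < ρ) :
    (ρ : ℂ) * om ρ p = 1 + (c1 p - c2 ρ p) * (-c1 p + p * I) := by
  have hρ : (ρ : ℂ) ≠ 0 := by exact_mod_cast h0.ne'
  have e1 : (c1 p : ℂ) ^ 2 = 1 - p ^ 2 := by exact_mod_cast c1_sq h0 h1 hp
  rw [om, mul_div_assoc', mul_div_cancel_left₀ _ hρ]
  have hI : I ^ 2 = -1 := I_sq
  linear_combination e1 - (p : ℂ) ^ 2 * hI

theorem om_mul' {p : ℝ} (h0 : 0 < ρ) (h1 : ρ < 1) (hp : |p| < ρ) :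
    om ρ p = ρ + (c1 p - c2 ρ p) * ((c2 ρ p + p * I) / ρ) := by
  have hρ : (ρ : ℂ) ≠ 0 := by exact_mod_cast h0.ne'
  have e1 : (c1 p : ℂ) ^ 2 = 1 - p ^ 2 := by exact_mod_cast c1_sq h0 h1 hp
  have e2 : (c2 ρ p : ℂ) ^ 2 = ρ ^ 2 - p ^ 2 := by exact_mod_cast c2_sq hp
  rw [om]
  have hI : I ^ 2 = -1 := I_sq
  field_simp
  linear_combination e2 - (p : ℂ) ^ 2 * hI

theorem hit_out {p : ℝ} (hp : |p| < ρ) {z : ℂ} (hz : ‖z‖ = 1) :
    (annTable ρ h0 h1).hit (outP p z) = ρ * (z * om ρ p) := by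
  rw [BilliardTable.hit, tau_out h0 h1 hp hz]
  have := om_mul h0 h1 hp
  simp only [outP]
  push_cast
  linear_combination (-z) * this

theorem hit_in {p : ℝ} (hp : |p| < ρ) {z : ℂ} (hz : ‖z‖ = 1) :
    (annTable ρ h0 h1).hit (inP ρ p z) = z * om ρ p := by
  rw [BilliardTable.hit, tau_in h0 h1 hp hz]
  have := om_mul' h0 h1 hp
  simp only [inP]
  push_cast
  linear_combination (-z) * this

theorem dot_eq (z w : ℂ) : dot z w = (z * (starRingEnd ℂ) w).re := by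
  simp [dot, Complex.mul_re]

theorem conj_of_norm {z : ℂ} (hz : ‖z‖ = 1) : z * (starRingEnd ℂ) z = 1 := by
  rw [Complex.mul_conj, Complex.normSq_eq_norm_sq, hz]; simp

/-- `dot (z w) z = re w` for unit `z`. -/
theorem dot_mul_self {z : ℂ} (hz : ‖z‖ = 1) (w : ℂ) : dot (z * w) z = w.re := by
  rw [dot_eq]
  have : z * w * (starRingEnd ℂ) z = w := by
    rw [mul_comm z w, mul_assoc, conj_of_norm hz, mul_one]
  rw [this]

theorem dot_neg (z w : ℂ) : dot z (-w) = - dot z w := by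
  simp [dot]; ring

theorem T_out {p : ℝ} (hp : |p| < ρ) {z : ℂ} (hz : ‖z‖ = 1) :
    (annTable ρ h0 h1).T (outP p z) = inP ρ p (z * om ρ p) := by
  have hρ : (ρ : ℂ) ≠ 0 := by exact_mod_cast h0.ne'
  have hom := norm_om h0 h1 hp
  have e2 : (c2 ρ p : ℂ) ^ 2 = ρ ^ 2 - p ^ 2 := by exact_mod_cast c2_sq hp
  have hI : I ^ 2 = -1 := I_sq
  have hw : ‖z * om ρ p‖ = 1 := by rw [norm_mul, hz, hom, one_mul]
  rw [BilliardTable.T, hit_out h0 h1 hp hz, BilliardTable.reflect]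
  have hn : (annTable ρ h0 h1).normal (ρ * (z * om ρ p)) = z * om ρ p := by
    rw [normal_inner h0 h1]
    · field_simp
    · rw [norm_mul, hw, Complex.norm_real, Real.norm_of_nonneg h0.le, mul_one]
  rw [hn]
  -- the incoming velocity in terms of the new base point
  have hv : (outP p z).2 = (z * om ρ p) * (-(c2 ρ p - p * I) / ρ) := by
    simp only [outP, om]
    field_simp
    linear_combination (z * (-(c1 p) + p * I)) * (-e2 + (p : ℂ) ^ 2 * hI)
  rw [hv, dot_mul_self hw]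
  have hre : (-((c2 ρ p : ℂ) - p * I) / ρ).re = -(c2 ρ p) / ρ := by
    rw [Complex.div_ofReal_re]
    simp
  rw [hre]
  simp only [inP]
  ext1
  · rfl
  · show z * om ρ p * (-(↑(c2 ρ p) - ↑p * I) / ↑ρ) - 2 * ((-(c2 ρ p) / ρ : ℝ) : ℂ) * (z * om ρ p)
      = z * om ρ p * ((↑(c2 ρ p) + ↑p * I) / ↑ρ)
    push_cast
    ring

theorem T_in {p : ℝ} (hp : |p| < ρ) {z : ℂ} (hz : ‖z‖ = 1) :
    (annTable ρ h0 h1).T (inP ρ p z) = outP p (z * om ρ p) := by
  have hρ : (ρ : ℂ) ≠ 0 := by exact_mod_cast h0.ne'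
  have hom := norm_om h0 h1 hp
  have e1 : (c1 p : ℂ) ^ 2 = 1 - p ^ 2 := by exact_mod_cast c1_sq h0 h1 hp
  have hI : I ^ 2 = -1 := I_sq
  have hw : ‖z * om ρ p‖ = 1 := by rw [norm_mul, hz, hom, one_mul]
  rw [BilliardTable.T, hit_in h0 h1 hp hz, BilliardTable.reflect]
  have hn : (annTable ρ h0 h1).normal (z * om ρ p) = -(z * om ρ p) := by
    rw [normal_outer h0 h1 _ hw]
  rw [hn, dot_neg]
  have hv : (inP ρ p z).2 = (z * om ρ p) * (c1 p + p * I) := by
    simp only [inP, om]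
    field_simp
    linear_combination (z * (c2 ρ p + p * I)) * (-e1 + (p : ℂ) ^ 2 * hI)
  rw [hv, dot_mul_self hw]
  have hre : ((c1 p : ℂ) + p * I).re = c1 p := by simp
  rw [hre]
  simp only [outP]
  ext1
  · rfl
  · show z * om ρ p * (↑(c1 p) + ↑p * I) - 2 * ((-c1 p : ℝ) : ℂ) * -(z * om ρ p)
      = z * om ρ p * (-↑(c1 p) + ↑p * I)
    push_cast
    ring

theorem J_out {p : ℝ} {z : ℂ} (hz : ‖z‖ = 1) :
    (annTable ρ h0 h1).J (outP p z) = outP (-p) z := by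
  rw [BilliardTable.J, BilliardTable.reflect]
  have hn : (annTable ρ h0 h1).normal (outP p z).1 = -z := normal_outer h0 h1 _ hz
  rw [hn, dot_neg]
  have hv : dot (outP p z).2 z = -c1 p := by
    simp only [outP]
    rw [dot_mul_self hz]; simp
  rw [hv]
  ext1
  · rfl
  · simp only [outP, c1]
    push_cast
    rw [neg_sq]
    ring

theorem J_in {p : ℝ} {z : ℂ} (hz : ‖z‖ = 1) :
    (annTable ρ h0 h1).J (inP ρ p z) = inP ρ (-p) z := by
  have hρ : (ρ : ℂ) ≠ 0 := by exact_mod_cast h0.ne'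
  rw [BilliardTable.J, BilliardTable.reflect]
  have hn : (annTable ρ h0 h1).normal (inP ρ p z).1 = z := by
    simp only [inP]
    rw [normal_inner h0 h1]
    · field_simp
    · rw [norm_mul, hz, Complex.norm_real, Real.norm_of_nonneg h0.le, mul_one]
  rw [hn]
  have hv : dot (inP ρ p z).2 z = c2 ρ p / ρ := by
    simp only [inP]
    rw [dot_mul_self hz, Complex.div_ofReal_re]; simp
  rw [hv]
  ext1
  · rfl
  · simp only [inP, c2]
    push_cast
    rw [neg_sq]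
    ring

theorem Tinv_out {p : ℝ} (hp : |p| < ρ) {z : ℂ} (hz : ‖z‖ = 1) :
    (annTable ρ h0 h1).Tinv (outP p z) = inP ρ p (z * om ρ (-p)) := by
  have hp' : |(-p)| < ρ := by rwa [abs_neg]
  rw [BilliardTable.Tinv, J_out h0 h1 hz, T_out h0 h1 hp' hz, J_in h0 h1, neg_neg]
  rw [norm_mul, hz, norm_om h0 h1 hp', one_mul]

end Q66.Os
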