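import Pool.Agent.Q66.OsMeas

/-!
# The final statement for the annulus
-/

set_option autoImplicit false

namespace Q66.Os

open MeasureTheory Set Filter Topology Complex
open scoped ENNReal

variable {ρ : ℝ} (h0 : 0 < ρ) (h1 : ρ < 1)

theorem good_out {p : ℝ} (hp : |p| < ρ) {z : ℂ} (hz : ‖z‖ = 1) :
    outP p z ∈ (annTable ρ h0 h1).M ∧ outP p z ∉ (annTable ρ h0 h1).S := by
  have a1 := c1_pos h0 h1 hp
  have hdot : dot (outP p z).2 ((annTable ρ h0 h1).normal (outP p z).1) = c1 p := by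
    have hn : (annTable ρ h0 h1).normal (outP p z).1 = -z := normal_outer h0 h1 _ hz
    rw [hn, dot_neg]
    simp only [outP]
    rw [dot_mul_self hz]; simp
  constructor
  · refine ⟨?_, ?_, ?_, ?_⟩
    · rw [frontier_mem]; left; exact hz
    · rw [corners_empty]; exact fun h => h
    · rw [norm_eq_iff_sq zero_le_one]
      simp only [outP]
      rw [norm_mul, hz, one_mul, ← Complex.normSq_eq_norm_sq]
      have h3 : (-(c1 p : ℂ) + p * I) = ((-c1 p : ℝ) : ℂ) + ((p : ℝ) : ℂ) * I := by push_cast; ring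
      rw [h3, Complex.normSq_add_mul_I]
      linear_combination c1_sq h0 h1 hp
    · rw [hdot]; exact a1.le
  · rintro (h | h | h)
    · rw [hdot] at h; exact a1.ne' h
    · rw [corners_empty] at h; exact h
    · rw [corners_empty] at h; exact h

theorem good_in {p : ℝ} (hp : |p| < ρ) {z : ℂ} (hz : ‖z‖ = 1) :
    inP ρ p z ∈ (annTable ρ h0 h1).M ∧ inP ρ p z ∉ (annTable ρ h0 h1).S := by
  have hρ : (ρ : ℂ) ≠ 0 := by exact_mod_cast h0.ne'
  have a2 := c2_pos hp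
  have hdot : dot (inP ρ p z).2 ((annTable ρ h0 h1).normal (inP ρ p z).1) = c2 ρ p / ρ := by
    have hn : (annTable ρ h0 h1).normal (inP ρ p z).1 = z := by
      rw [normal_inner h0 h1 _ (norm_inP h0 p hz)]
      simp only [inP]
      field_simp
    rw [hn]
    simp only [inP]
    rw [dot_mul_self hz, Complex.div_ofReal_re]; simp
  constructor
  · refine ⟨?_, ?_, ?_, ?_⟩
    · rw [frontier_mem]; right; exact norm_inP h0 p hz
    · rw [corners_empty]; exact fun h => h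
    · rw [norm_eq_iff_sq zero_le_one]
      simp only [inP]
      rw [norm_mul, hz, one_mul, norm_div, div_pow, ← Complex.normSq_eq_norm_sq,
        Complex.normSq_add_mul_I, Complex.norm_real, Real.norm_of_nonneg h0.le]
      have := c2_sq hp
      field_simp
      linear_combination this
    · rw [hdot]; positivity
  · rintro (h | h | h)
    · rw [hdot] at h
      have : 0 < c2 ρ p / ρ := by positivity
      exact this.ne' h
    · rw [corners_empty] at h; exact h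
    · rw [corners_empty] at h; exact h

/-- alternate between the two circles -/
noncomputable def orb (ρ p : ℝ) (a : TT) (b : Bool) (t : TT) (k : ℤ) : ℂ × ℂ :=
  if (Even k ↔ b = true) then oA p (t + k • a) else iA ρ p (t + k • a)

theorem T_orb {p : ℝ} (hp : |p| < ρ) {a : TT} (ha : E a = om ρ p) (b : Bool) (t : TT) (k : ℤ) :
    (annTable ρ h0 h1).T (orb ρ p a b t k) = orb ρ p a b t (k + 1) := by
  have hk : t + k • a + a = t + (k + 1) • a := by rw [add_zsmul, one_zsmul, add_assoc]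
  have hpar : (Even (k + 1) ↔ b = true) ↔ ¬ (Even k ↔ b = true) := by
    rw [Int.even_add_one]; tauto
  unfold orb
  by_cases h : (Even k ↔ b = true)
  · rw [if_pos h, if_neg (by rw [hpar]; exact not_not.mpr h), T_oA h0 h1 hp ha, hk]
  · rw [if_neg h, if_pos (hpar.mpr h), T_iA h0 h1 hp ha, hk]

theorem orb_good {p : ℝ} (hp : |p| < ρ) (a : TT) (b : Bool) (t : TT) (k : ℤ) :
    orb ρ p a b t k ∈ (annTable ρ h0 h1).M ∧ orb ρ p a b t k ∉ (annTable ρ h0 h1).S := by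
  unfold orb
  split_ifs
  · exact good_out h0 h1 hp (norm_E _)
  · exact good_in h0 h1 hp (norm_E _)

theorem Gam_eq_orb (ρ p : ℝ) (a : TT) {x : ℂ × ℂ} (hx : x ∈ Gam ρ p) :
    ∃ b t, orb ρ p a b t 0 = x := by
  rcases hx with ⟨t, rfl⟩ | ⟨t, rfl⟩
  · exact ⟨true, t, by simp [orb]⟩
  · exact ⟨false, t, by simp [orb]⟩

theorem regular_of_mem (P : ℕ → ℝ) (hP : ∀ k, |P k| < ρ) {x : ℂ × ℂ} (hx : x ∈ GAM ρ P) :
    (annTable ρ h0 h1).HasRegularOrbit x := by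
  obtain ⟨k, hk⟩ := mem_iUnion.mp hx
  obtain ⟨a, ha⟩ := E_surj (norm_om h0 h1 (hP k))
  obtain ⟨b, t, rfl⟩ := Gam_eq_orb ρ (P k) a hk
  refine ⟨orb ρ (P k) a b t, rfl, fun j => ⟨?_, ?_, ?_⟩⟩
  · exact (orb_good h0 h1 (hP k) a b t j).1
  · exact (orb_good h0 h1 (hP k) a b t j).2
  · exact (T_orb h0 h1 (hP k) ha b t j).symm

theorem iterate_orb {p : ℝ} (hp : |p| < ρ) {a : TT} (ha : E a = om ρ p) (b : Bool) (t : TT)
    (n : ℕ) : (annTable ρ h0 h1).T^[n] (orb ρ p a b t 0) = orb ρ p a b t n := by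
  induction n with
  | zero => rfl
  | succ n ih =>
    rw [Function.iterate_succ_apply', ih, T_orb h0 h1 hp ha]
    push_cast; rfl

theorem E_zsmul (a : TT) (n : ℕ) : E (n • a) = E a ^ n := by
  induction n with
  | zero => simp [E]
  | succ n ih => rw [succ_nsmul, E_add, ih, pow_succ]

theorem norm_oA (p : ℝ) (t : TT) : ‖(oA p t).1‖ = 1 := norm_E t

theorem norm_iA (h0 : 0 < ρ) (p : ℝ) (t : TT) : ‖(iA ρ p t).1‖ = ρ := norm_inP h0 p (norm_E t)

theorem not_periodic (P : ℕ → ℝ) (hP : ∀ k, |P k| < ρ)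
    (hroot : ∀ k, ∀ n : ℕ, 0 < n → om ρ (P k) ^ n ≠ 1) {x : ℂ × ℂ} (hx : x ∈ GAM ρ P) :
    x ∉ Function.periodicPts (annTable ρ h0 h1).T := by
  have hρ : (ρ : ℂ) ≠ 0 := by exact_mod_cast h0.ne'
  obtain ⟨k, hk⟩ := mem_iUnion.mp hx
  obtain ⟨a, ha⟩ := E_surj (norm_om h0 h1 (hP k))
  obtain ⟨b, t, rfl⟩ := Gam_eq_orb ρ (P k) a hk
  rintro ⟨n, hn, hper⟩
  have h := iterate_orb h0 h1 (hP k) ha b t n
  rw [hper.eq] at h
  have hE : E (t + (n : ℤ) • a) = E t * om ρ (P k) ^ n := by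
    rw [natCast_zsmul, E_add, E_zsmul, ha]
  have hne : E t ≠ 0 := by
    intro h'
    have := norm_E t
    rw [h', norm_zero] at this
    exact zero_ne_one this
  have hfin : E (t + (n : ℤ) • a) ≠ E t := by
    intro h'
    rw [hE] at h'
    exact hroot k n hn (mul_left_cancel₀ hne (by rw [h', mul_one]))
  unfold orb at h
  rw [zero_zsmul, add_zero] at h
  by_cases hb : b = true
  · by_cases he : Even (n : ℤ)
    · rw [if_pos (by simp [hb]), if_pos (by simp [hb, he])] at h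
      exact hfin (congrArg Prod.fst h).symm
    · rw [if_pos (by simp [hb]), if_neg (by simp [hb, he])] at h
      have h2 := congrArg (fun x : ℂ × ℂ => ‖x.1‖) h
      simp only [norm_oA, norm_iA h0] at h2
      exact h1.ne h2.symm
  · by_cases he : Even (n : ℤ)
    · rw [if_neg (by simp [hb]), if_neg (by simp [hb, he])] at h
      have h2 : (ρ : ℂ) * E t = ρ * E (t + (n : ℤ) • a) := congrArg Prod.fst h
      exact hfin (mul_left_cancel₀ hρ h2).symm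
    · rw [if_neg (by simp [hb]), if_pos (by simp [hb, he])] at h
      have h2 := congrArg (fun x : ℂ × ℂ => ‖x.1‖) h
      simp only [norm_oA, norm_iA h0] at h2
      exact h1.ne h2

theorem countable_roots : {z : ℂ | ∃ n : ℕ, 0 < n ∧ z ^ n = 1}.Countable := by
  have : {z : ℂ | ∃ n : ℕ, 0 < n ∧ z ^ n = 1} ⊆
      ⋃ n : ℕ, ((Polynomial.nthRoots n (1 : ℂ)).toFinset : Set ℂ) := by
    rintro z ⟨n, hn, hz⟩
    refine mem_iUnion.mpr ⟨n, ?_⟩
    rw [Finset.mem_coe, Multiset.mem_toFinset, Polynomial.mem_nthRoots hn]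
    exact hz
  exact (countable_iUnion fun n => (Finset.countable_toSet _)).mono this

theorem om_re (p : ℝ) : (om ρ p).re = (c1 p * c2 ρ p + p ^ 2) / ρ := by
  rw [om, Complex.div_ofReal_re]
  congr 1
  simp [Complex.mul_re]
  ring

theorem p_of_om (h0 : 0 < ρ) (h1 : ρ < 1) {p : ℝ} (hp0 : 0 < p) (hp : p < ρ) :
    p = ρ * √((1 - (om ρ p).re ^ 2) / (1 + ρ ^ 2 - 2 * ρ * (om ρ p).re)) := by
  have hp' : |p| < ρ := by rwa [abs_of_pos hp0]
  have e1 := c1_sq h0 h1 hp'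
  have e2 := c2_sq hp'
  set c := (om ρ p).re with hc
  have hcn : c ≤ 1 := by
    have := Complex.re_le_norm (om ρ p)
    rwa [norm_om h0 h1 hp'] at this
  have hcr : ρ * c = c1 p * c2 ρ p + p ^ 2 := by
    rw [hc, om_re]; field_simp
  have hden : 0 < 1 + ρ ^ 2 - 2 * ρ * c := by nlinarith [sq_nonneg (1 - ρ), mul_pos h0 (sub_pos.mpr h1)]
  have hkey : p ^ 2 * (1 + ρ ^ 2 - 2 * ρ * c) = ρ ^ 2 * (1 - c ^ 2) := by
    have h3 : (ρ * c - p ^ 2) ^ 2 = (1 - p ^ 2) * (ρ ^ 2 - p ^ 2) := by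
      rw [hcr, ← e1, ← e2]; ring
    linear_combination h3
  have h4 : (1 - c ^ 2) / (1 + ρ ^ 2 - 2 * ρ * c) = (p / ρ) ^ 2 := by
    rw [div_pow, div_eq_div_iff hden.ne' (by positivity)]
    linear_combination -hkey
  rw [h4, Real.sqrt_sq (by positivity)]
  field_simp

theorem exists_p (h0 : 0 < ρ) (h1 : ρ < 1) (C : ℝ) :
    ∃ p, 0 < p ∧ p < ρ ∧ Real.exp C ≤ c1 p / c2 ρ p ∧ ∀ n : ℕ, 0 < n → om ρ p ^ n ≠ 1 := by
  set δ := (1 - ρ ^ 2) * Real.exp (-(2 * C)) with hδ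
  have hρ2 : ρ ^ 2 < 1 := by nlinarith
  have hδ0 : 0 < δ := mul_pos (by linarith) (Real.exp_pos _)
  set q := max 0 (ρ - δ / (2 * ρ)) with hq
  have hqρ : q < ρ := by
    rw [hq, max_lt_iff]
    refine ⟨h0, ?_⟩
    have : 0 < δ / (2 * ρ) := by positivity
    linarith
  -- the bad set is countable
  have hbad : {p : ℝ | (0 < p ∧ p < ρ) ∧ ∃ n : ℕ, 0 < n ∧ om ρ p ^ n = 1}.Countable := by
    have hsub : {p : ℝ | (0 < p ∧ p < ρ) ∧ ∃ n : ℕ, 0 < n ∧ om ρ p ^ n = 1} ⊆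
        (fun z : ℂ => ρ * √((1 - z.re ^ 2) / (1 + ρ ^ 2 - 2 * ρ * z.re))) ''
          {z : ℂ | ∃ n : ℕ, 0 < n ∧ z ^ n = 1} := by
      rintro p ⟨⟨hp0, hp1⟩, hn⟩
      exact ⟨om ρ p, hn, (p_of_om h0 h1 hp0 hp1).symm⟩
    exact (countable_roots.image _).mono hsub
  have hex : ∃ p ∈ Ioo q ρ, ¬ p ∈ {p : ℝ | (0 < p ∧ p < ρ) ∧ ∃ n : ℕ, 0 < n ∧ om ρ p ^ n = 1} := by
    by_contra hcon
    push Not at hcon
    have hc : (Ioo q ρ).Countable := hbad.mono hcon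
    have := hc.measure_zero volume
    rw [Real.volume_Ioo, ENNReal.ofReal_eq_zero] at this
    linarith
  obtain ⟨p, ⟨hp1, hp2⟩, hp3⟩ := hex
  have hp0 : 0 < p := lt_of_le_of_lt (le_max_left _ _) hp1
  have hp' : |p| < ρ := by rwa [abs_of_pos hp0]
  refine ⟨p, hp0, hp2, ?_, ?_⟩
  · have e1 := c1_sq h0 h1 hp'
    have e2 := c2_sq hp'
    have a1 := c1_pos h0 h1 hp'
    have a2 := c2_pos hp'
    have h3 : ρ - δ / (2 * ρ) < p := lt_of_le_of_lt (le_max_right _ _) hp1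
    have h4 : c2 ρ p ^ 2 ≤ δ := by
      rw [e2]
      have h5 : ρ - p < δ / (2 * ρ) := by linarith
      rw [lt_div_iff₀ (by positivity)] at h5
      nlinarith
    have h6 : 1 - ρ ^ 2 ≤ c1 p ^ 2 := by rw [e1]; nlinarith
    rw [le_div_iff₀ a2]
    have h7 : (Real.exp C * c2 ρ p) ^ 2 ≤ c1 p ^ 2 := by
      calc (Real.exp C * c2 ρ p) ^ 2 = Real.exp (2 * C) * c2 ρ p ^ 2 := by
            rw [mul_pow, ← Real.exp_nat_mul]; push_cast; ring
        _ ≤ Real.exp (2 * C) * δ := by gcongr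
        _ = 1 - ρ ^ 2 := by
            rw [hδ, mul_comm, mul_assoc, ← Real.exp_add]
            have : -(2 * C) + 2 * C = 0 := by ring
            rw [this, Real.exp_zero, mul_one]
        _ ≤ c1 p ^ 2 := h6
    exact (pow_le_pow_iff_left₀ (by positivity) a1.le two_ne_zero).mp h7
  · intro n hn h
    exact hp3 ⟨⟨hp0, hp2⟩, n, hn, h⟩

theorem om_neg {p : ℝ} (h0 : 0 < ρ) (h1 : ρ < 1) (hp : |p| < ρ) : om ρ p * om ρ (-p) = 1 := by
  have hρ : (ρ : ℂ) ≠ 0 := by exact_mod_cast h0.ne'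
  have e1 : (c1 p : ℂ) ^ 2 = 1 - p ^ 2 := by exact_mod_cast c1_sq h0 h1 hp
  have e2 : (c2 ρ p : ℂ) ^ 2 = ρ ^ 2 - p ^ 2 := by exact_mod_cast c2_sq hp
  have e3 : c1 (-p) = c1 p := by rw [c1, c1, neg_sq]
  have e4 : c2 ρ (-p) = c2 ρ p := by rw [c2, c2, neg_sq]
  have hI : I ^ 2 = -1 := I_sq
  rw [om, om, e3, e4]
  push_cast
  have e5 : ((c1 p : ℂ) - p * I) * (c1 p - -p * I) = 1 := by
    linear_combination e1 - (p : ℂ) ^ 2 * hI
  have e6 : ((c2 ρ p : ℂ) + p * I) * (c2 ρ p + -p * I) = ρ ^ 2 := by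
    linear_combination e2 - (p : ℂ) ^ 2 * hI
  have e7 : ((c1 p : ℂ) - p * I) * (c2 ρ p + p * I) / ρ *
      ((c1 p - -p * I) * (c2 ρ p + -p * I) / ρ)
      = (((c1 p : ℂ) - p * I) * (c1 p - -p * I)) *
        (((c2 ρ p : ℂ) + p * I) * (c2 ρ p + -p * I)) / ρ ^ 2 := by
    field_simp
  rw [e7, e5, e6]
  field_simp

theorem Tinv_in {p : ℝ} (hp : |p| < ρ) {z : ℂ} (hz : ‖z‖ = 1) :
    (annTable ρ h0 h1).Tinv (inP ρ p z) = outP p (z * om ρ (-p)) := by
  have hp' : |(-p)| < ρ := by rwa [abs_neg]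
  rw [BilliardTable.Tinv, J_in h0 h1 hz, T_in h0 h1 hp' hz, J_out h0 h1, neg_neg]
  rw [norm_mul, hz, norm_om h0 h1 hp', one_mul]

theorem inverse_of_mem (P : ℕ → ℝ) (hP : ∀ k, |P k| < ρ) {x : ℂ × ℂ} (hx : x ∈ GAM ρ P) :
    (annTable ρ h0 h1).T ((annTable ρ h0 h1).Tinv x) = x ∧
      (annTable ρ h0 h1).Tinv ((annTable ρ h0 h1).T x) = x := by
  obtain ⟨k, hk⟩ := mem_iUnion.mp hx
  have hp := hP k
  have hp' : |(-P k)| < ρ := by rwa [abs_neg]
  have h3 := om_neg h0 h1 hp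
  have h4 : om ρ (-P k) * om ρ (P k) = 1 := by rw [mul_comm]; exact h3
  have hn : ∀ z : ℂ, ‖z‖ = 1 → ‖z * om ρ (-P k)‖ = 1 := fun z hz => by
    rw [norm_mul, hz, norm_om h0 h1 hp', one_mul]
  have hn' : ∀ z : ℂ, ‖z‖ = 1 → ‖z * om ρ (P k)‖ = 1 := fun z hz => by
    rw [norm_mul, hz, norm_om h0 h1 hp, one_mul]
  rcases hk with ⟨t, rfl⟩ | ⟨t, rfl⟩
  · have hz := norm_E t
    rw [oA]
    constructor
    · rw [Tinv_out h0 h1 hp hz, T_in h0 h1 hp (hn _ hz), mul_assoc, h4, mul_one]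
    · rw [T_out h0 h1 hp hz, Tinv_in h0 h1 hp (hn' _ hz), mul_assoc, h3, mul_one]
  · have hz := norm_E t
    rw [iA]
    constructor
    · rw [Tinv_in h0 h1 hp hz, T_out h0 h1 hp (hn _ hz), mul_assoc, h4, mul_one]
    · rw [T_in h0 h1 hp hz, Tinv_out h0 h1 hp (hn' _ hz), mul_assoc, h3, mul_one]

/-- The main theorem. -/
theorem main (ρ : ℝ) (h0 : 0 < ρ) (h1 : ρ < 1) :
    ∃ B : BilliardTable, B.Q = {z : ℂ | ρ ≤ ‖z‖ ∧ ‖z‖ ≤ 1} ∧ B.corners = ∅ ∧ B.NoCusps ∧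
      ∃ μ : Measure (ℂ × ℂ), B.IsInvariantMeasure μ ∧ B.NonPeriodic μ ∧
        (∀ᵐ x ∂μ, B.T (B.Tinv x) = x ∧ B.Tinv (B.T x) = x) ∧
        ∫⁻ x, B.logNorm B.T x ∂μ = ⊤ ∧ ∫⁻ x, B.logNorm B.Tinv x ∂μ = ⊤ := by
  choose P hP0 hP1 hP2 hP3 using fun k : ℕ => exists_p h0 h1 ((2 : ℝ) ^ (k + 2))
  have hP : ∀ k, |P k| < ρ := fun k => by rw [abs_of_pos (hP0 k)]; exact hP1 k
  have hTG := T_eq_G h0 h1 P hP
  refine ⟨annTable ρ h0 h1, rfl, corners_empty h0 h1, noCusps h0 h1, MU ρ P,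
    ⟨inferInstance, ?_, ?_, ?_⟩, ?_, ?_, ?_, ?_⟩
  · filter_upwards [MU_ae ρ P] with x hx
    exact regular_of_mem h0 h1 P hP hx
  · exact (measurable_G ρ).aemeasurable.congr hTG.symm
  · rw [Measure.map_congr hTG, MU_map h0 h1 P hP]
  · refine measure_mono_null ?_ (MU_compl ρ P)
    intro x hx hx'
    exact not_periodic h0 h1 P hP hP3 hx' hx
  · filter_upwards [MU_ae ρ P] with x hx
    exact inverse_of_mem h0 h1 P hP hx
  · exact lintegral_MU _ fun k t => logNorm_T h0 h1 (hP k) (norm_E t) (hP2 k)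
  · exact lintegral_MU _ fun k t => logNorm_Tinv h0 h1 (hP k) (norm_E t) (hP2 k)

end Q66.Os
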