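import Pool.Agent.Q66.OsDeriv

/-!
# The invariant measures
-/

set_option autoImplicit false

namespace Q66.Os

open MeasureTheory Set Filter Topology Complex
open scoped ENNReal

/-- the circle `ℝ / 2π` -/
noncomputable local instance instTwoPi : Fact (0 < 2 * Real.pi) := Fact.mk Real.two_pi_pos

/-- `ℝ / 2π` -/
abbrev TT := AddCircle (2 * Real.pi)

/-- the embedding of the circle in the plane -/
noncomputable def E (t : TT) : ℂ := (AddCircle.toCircle t : ℂ)

theorem norm_E (t : TT) : ‖E t‖ = 1 := Circle.norm_coe _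

theorem E_add (s t : TT) : E (s + t) = E s * E t := by
  simp [E, AddCircle.toCircle_add]

theorem E_coe (s : ℝ) : E (s : TT) = exp (s * I) := by
  rw [E, AddCircle.toCircle_apply_mk, Circle.coe_exp]
  congr 2
  have : (2 * Real.pi / (2 * Real.pi)) = 1 := div_self (by positivity)
  rw [this, one_mul]

theorem continuous_E : Continuous E :=
  continuous_subtype_val.comp AddCircle.continuous_toCircle

theorem E_surj {w : ℂ} (hw : ‖w‖ = 1) : ∃ a : TT, E a = w := by
  refine ⟨((arg w : ℝ) : TT), ?_⟩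
  rw [E_coe]
  have := norm_mul_exp_arg_mul_I w
  rw [hw] at this
  simpa using this

variable {ρ : ℝ} (h0 : 0 < ρ) (h1 : ρ < 1)

theorem continuous_c1 : Continuous c1 := by
  unfold c1; fun_prop

theorem continuous_c2 (ρ : ℝ) : Continuous (c2 ρ) := by
  unfold c2; fun_prop

theorem continuous_om (ρ : ℝ) : Continuous (om ρ) := by
  have h1 := continuous_c1
  have h2 := continuous_c2 ρ
  have e1 : Continuous (fun p : ℝ => (c1 p : ℂ)) := Complex.continuous_ofReal.comp h1
  have e2 : Continuous (fun p : ℝ => (c2 ρ p : ℂ)) := Complex.continuous_ofReal.comp h2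
  have e3 : Continuous (fun p : ℝ => (p : ℂ)) := Complex.continuous_ofReal
  unfold om
  fun_prop

theorem continuous_outP : Continuous (fun x : ℝ × ℂ => outP x.1 x.2) := by
  have h1 := continuous_c1
  have e1 : Continuous (fun x : ℝ × ℂ => (c1 x.1 : ℂ)) :=
    Complex.continuous_ofReal.comp (h1.comp continuous_fst)
  have e3 : Continuous (fun x : ℝ × ℂ => (x.1 : ℂ)) := Complex.continuous_ofReal.comp continuous_fst
  unfold outP
  fun_prop

theorem continuous_inP (ρ : ℝ) : Continuous (fun x : ℝ × ℂ => inP ρ x.1 x.2) := by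
  have h1 := continuous_c2 ρ
  have e1 : Continuous (fun x : ℝ × ℂ => (c2 ρ x.1 : ℂ)) :=
    Complex.continuous_ofReal.comp (h1.comp continuous_fst)
  have e3 : Continuous (fun x : ℝ × ℂ => (x.1 : ℂ)) := Complex.continuous_ofReal.comp continuous_fst
  unfold inP
  fun_prop

/-- the outer circle of phase points with angular momentum `p` -/
noncomputable def oA (p : ℝ) (t : TT) : ℂ × ℂ := outP p (E t)
/-- the inner circle of phase points with angular momentum `p` -/
noncomputable def iA (ρ p : ℝ) (t : TT) : ℂ × ℂ := inP ρ p (E t)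

theorem continuous_oA (p : ℝ) : Continuous (oA p) :=
  continuous_outP.comp (continuous_const.prodMk continuous_E)

theorem continuous_iA (ρ p : ℝ) : Continuous (iA ρ p) :=
  (continuous_inP ρ).comp (continuous_const.prodMk continuous_E)

/-- a measurable function that agrees with the billiard map on the points that we use -/
noncomputable def G (ρ : ℝ) (x : ℂ × ℂ) : ℂ × ℂ :=
  if ‖x.1‖ = 1 then inP ρ ((starRingEnd ℂ) x.1 * x.2).im
      (x.1 * om ρ ((starRingEnd ℂ) x.1 * x.2).im)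
    else outP ((starRingEnd ℂ) x.1 * x.2).im
      (x.1 / ρ * om ρ ((starRingEnd ℂ) x.1 * x.2).im)

theorem measurable_G (ρ : ℝ) : Measurable (G ρ) := by
  have hm : Continuous (fun x : ℂ × ℂ => ((starRingEnd ℂ) x.1 * x.2).im) := by
    have : Continuous (fun x : ℂ × ℂ => (starRingEnd ℂ) x.1) :=
      Complex.continuous_conj.comp continuous_fst
    fun_prop
  have ho : Continuous (fun x : ℂ × ℂ => om ρ ((starRingEnd ℂ) x.1 * x.2).im) :=
    (continuous_om ρ).comp hm
  apply Measurable.ite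
  · exact measurableSet_eq_fun (by fun_prop) (by fun_prop)
  · apply Continuous.measurable
    exact (continuous_inP ρ).comp (hm.prodMk (continuous_fst.mul ho))
  · apply Continuous.measurable
    refine continuous_outP.comp (hm.prodMk (Continuous.mul ?_ ho))
    fun_prop

theorem mom_out (p : ℝ) {z : ℂ} (hz : ‖z‖ = 1) :
    ((starRingEnd ℂ) (outP p z).1 * (outP p z).2).im = p := by
  simp only [outP]
  rw [← mul_assoc, mul_comm ((starRingEnd ℂ) z), conj_of_norm hz]
  simp

theorem mom_in (h0 : 0 < ρ) (p : ℝ) {z : ℂ} (hz : ‖z‖ = 1) :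
    ((starRingEnd ℂ) (inP ρ p z).1 * (inP ρ p z).2).im = p := by
  have hρ : (ρ : ℂ) ≠ 0 := by exact_mod_cast h0.ne'
  simp only [inP]
  have : (starRingEnd ℂ) (ρ * z) * (z * ((c2 ρ p + p * I) / ρ)) = c2 ρ p + p * I := by
    rw [map_mul, Complex.conj_ofReal]
    have h2 := conj_of_norm hz
    field_simp
    linear_combination (c2 ρ p + p * I) * h2
  rw [this]
  simp

theorem G_out (p : ℝ) {z : ℂ} (hz : ‖z‖ = 1) : G ρ (outP p z) = inP ρ p (z * om ρ p) := by
  rw [G, mom_out p hz, if_pos (show ‖(outP p z).1‖ = 1 from hz)]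
  rfl

theorem norm_inP (h0 : 0 < ρ) (p : ℝ) {z : ℂ} (hz : ‖z‖ = 1) : ‖(inP ρ p z).1‖ = ρ := by
  show ‖(ρ : ℂ) * z‖ = ρ
  rw [norm_mul, hz, Complex.norm_real, Real.norm_of_nonneg h0.le, mul_one]

theorem G_in (h0 : 0 < ρ) (h1 : ρ < 1) (p : ℝ) {z : ℂ} (hz : ‖z‖ = 1) :
    G ρ (inP ρ p z) = outP p (z * om ρ p) := by
  have hρ : (ρ : ℂ) ≠ 0 := by exact_mod_cast h0.ne'
  rw [G, mom_in h0 p hz, if_neg]
  · congr 1
    simp only [inP]
    field_simp
  · rw [norm_inP h0 p hz]
    exact h1.ne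

/-- the invariant circles: the parameter `a` of the rotation -/
theorem G_oA {p : ℝ} {a : TT} (ha : E a = om ρ p) (t : TT) : G ρ (oA p t) = iA ρ p (t + a) := by
  rw [oA, iA, G_out p (norm_E t), E_add, ha]

theorem G_iA (h0 : 0 < ρ) (h1 : ρ < 1) {p : ℝ} {a : TT} (ha : E a = om ρ p) (t : TT) :
    G ρ (iA ρ p t) = oA p (t + a) := by
  rw [oA, iA, G_in h0 h1 p (norm_E t), E_add, ha]

theorem T_oA {p : ℝ} (hp : |p| < ρ) {a : TT} (ha : E a = om ρ p) (t : TT) :
    (annTable ρ h0 h1).T (oA p t) = iA ρ p (t + a) := by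
  rw [oA, iA, T_out h0 h1 hp (norm_E t), E_add, ha]

theorem T_iA {p : ℝ} (hp : |p| < ρ) {a : TT} (ha : E a = om ρ p) (t : TT) :
    (annTable ρ h0 h1).T (iA ρ p t) = oA p (t + a) := by
  rw [oA, iA, T_in h0 h1 hp (norm_E t), E_add, ha]

/-- the normalised Lebesgue measure of the circle -/
noncomputable def lam : Measure TT := AddCircle.haarAddCircle

instance : IsProbabilityMeasure lam := by unfold lam; infer_instance

theorem lam_map (a : TT) : lam.map (fun t => t + a) = lam := by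
  have : (lam).IsAddRightInvariant := by unfold lam; infer_instance
  exact map_add_right_eq_self lam a

/-- the invariant measure on the circles with angular momentum `p` -/
noncomputable def mup (ρ p : ℝ) : Measure (ℂ × ℂ) :=
  (2⁻¹ : ℝ≥0∞) • (lam.map (oA p) + lam.map (iA ρ p))

theorem mup_map (h0 : 0 < ρ) (h1 : ρ < 1) {p : ℝ} {a : TT} (ha : E a = om ρ p) :
    (mup ρ p).map (G ρ) = mup ρ p := by
  have hG := measurable_G ρ
  have ho := (continuous_oA p).measurable
  have hi := (continuous_iA ρ p).measurable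
  have hadd : Measurable (fun t : TT => t + a) := measurable_add_const a
  rw [mup, Measure.map_smul, Measure.map_add _ _ hG, Measure.map_map hG ho, Measure.map_map hG hi]
  have e1 : G ρ ∘ oA p = iA ρ p ∘ (fun t => t + a) := funext fun t => G_oA ha t
  have e2 : G ρ ∘ iA ρ p = oA p ∘ (fun t => t + a) := funext fun t => G_iA h0 h1 ha t
  rw [e1, e2, ← Measure.map_map hi hadd, ← Measure.map_map ho hadd, lam_map, add_comm]

instance (ρ p : ℝ) : IsProbabilityMeasure (mup ρ p) := by
  have ho := (continuous_oA p).measurable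
  have hi := (continuous_iA ρ p).measurable
  constructor
  rw [mup, Measure.smul_apply, Measure.add_apply, Measure.map_apply ho MeasurableSet.univ,
    Measure.map_apply hi MeasurableSet.univ]
  simp only [preimage_univ, measure_univ, smul_eq_mul]
  rw [one_add_one_eq_two]
  exact ENNReal.inv_mul_cancel two_ne_zero ENNReal.ofNat_ne_top

/-- the points of the two invariant circles -/
def Gam (ρ p : ℝ) : Set (ℂ × ℂ) := range (oA p) ∪ range (iA ρ p)

theorem isClosed_Gam (ρ p : ℝ) : IsClosed (Gam ρ p) :=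
  (isCompact_range (continuous_oA p)).isClosed.union (isCompact_range (continuous_iA ρ p)).isClosed

theorem mup_compl (ρ p : ℝ) : mup ρ p (Gam ρ p)ᶜ = 0 := by
  have ho := (continuous_oA p).measurable
  have hi := (continuous_iA ρ p).measurable
  have hm : MeasurableSet (Gam ρ p)ᶜ := (isClosed_Gam ρ p).measurableSet.compl
  rw [mup, Measure.smul_apply, Measure.add_apply, Measure.map_apply ho hm,
    Measure.map_apply hi hm]
  have e1 : oA p ⁻¹' (Gam ρ p)ᶜ = ∅ := by
    ext t; simp [Gam]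
  have e2 : iA ρ p ⁻¹' (Gam ρ p)ᶜ = ∅ := by
    ext t; simp [Gam]
  rw [e1, e2]; simp

/-- The sum of the measures. -/
noncomputable def MU (ρ : ℝ) (P : ℕ → ℝ) : Measure (ℂ × ℂ) :=
  Measure.sum fun k => ((2⁻¹ : ℝ≥0∞) ^ (k + 1)) • mup ρ (P k)

theorem geom_sum : ∑' k : ℕ, (2⁻¹ : ℝ≥0∞) ^ (k + 1) = 1 := by
  have h : ∀ k : ℕ, (2⁻¹ : ℝ≥0∞) ^ (k + 1) = 2⁻¹ * 2⁻¹ ^ k := fun k => by rw [pow_succ, mul_comm]
  simp_rw [h]
  rw [ENNReal.tsum_mul_left, ENNReal.tsum_geometric, ENNReal.one_sub_inv_two, inv_inv]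
  exact ENNReal.inv_mul_cancel two_ne_zero ENNReal.ofNat_ne_top

instance (ρ : ℝ) (P : ℕ → ℝ) : IsProbabilityMeasure (MU ρ P) := by
  constructor
  rw [MU, Measure.sum_apply _ MeasurableSet.univ]
  simp only [Measure.smul_apply, measure_univ, smul_eq_mul, mul_one]
  exact geom_sum

/-- all the points that carry the measure -/
def GAM (ρ : ℝ) (P : ℕ → ℝ) : Set (ℂ × ℂ) := ⋃ k, Gam ρ (P k)

theorem MU_compl (ρ : ℝ) (P : ℕ → ℝ) : MU ρ P (GAM ρ P)ᶜ = 0 := by
  have hm : MeasurableSet (GAM ρ P)ᶜ :=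
    (MeasurableSet.iUnion fun k => (isClosed_Gam ρ (P k)).measurableSet).compl
  rw [MU, Measure.sum_apply _ hm, ENNReal.tsum_eq_zero]
  intro k
  rw [Measure.smul_apply, smul_eq_mul]
  have : mup ρ (P k) (GAM ρ P)ᶜ = 0 := by
    refine measure_mono_null ?_ (mup_compl ρ (P k))
    exact compl_subset_compl.mpr (subset_iUnion (fun k => Gam ρ (P k)) k)
  rw [this, mul_zero]

theorem MU_ae (ρ : ℝ) (P : ℕ → ℝ) : ∀ᵐ x ∂(MU ρ P), x ∈ GAM ρ P := MU_compl ρ P

theorem MU_map (h0 : 0 < ρ) (h1 : ρ < 1) (P : ℕ → ℝ) (hP : ∀ k, |P k| < ρ) :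
    (MU ρ P).map (G ρ) = MU ρ P := by
  rw [MU, Measure.map_sum (measurable_G ρ).aemeasurable]
  congr 1
  funext k
  obtain ⟨a, ha⟩ := E_surj (norm_om h0 h1 (hP k))
  rw [Measure.map_smul, mup_map h0 h1 ha]

theorem T_eq_G (P : ℕ → ℝ) (hP : ∀ k, |P k| < ρ) :
    (annTable ρ h0 h1).T =ᵐ[MU ρ P] G ρ := by
  filter_upwards [MU_ae ρ P] with x hx
  obtain ⟨k, hk⟩ := mem_iUnion.mp hx
  obtain ⟨a, ha⟩ := E_surj (norm_om h0 h1 (hP k))
  rcases hk with ⟨t, rfl⟩ | ⟨t, rfl⟩
  · rw [T_oA h0 h1 (hP k) ha, G_oA ha]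
  · rw [T_iA h0 h1 (hP k) ha, G_iA h0 h1 ha]

/-- infinite integral -/
theorem lintegral_MU {P : ℕ → ℝ} (f : ℂ × ℂ → ℝ≥0∞)
    (hf : ∀ k t, ENNReal.ofReal (2 ^ (k + 2)) ≤ f (oA (P k) t)) :
    ∫⁻ x, f x ∂(MU ρ P) = ⊤ := by
  rw [MU, lintegral_sum_measure]
  have key : ∀ k, (1 : ℝ≥0∞) ≤ ∫⁻ x, f x ∂(((2⁻¹ : ℝ≥0∞) ^ (k + 1)) • mup ρ (P k)) := by
    intro k
    have ho := (continuous_oA (P k)).measurable
    have hK : MeasurableSet (range (oA (P k))) :=
      (isCompact_range (continuous_oA (P k))).isClosed.measurableSet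
    rw [lintegral_smul_measure, mup, lintegral_smul_measure, lintegral_add_measure]
    have h3 : ENNReal.ofReal (2 ^ (k + 2)) ≤ ∫⁻ x, f x ∂(lam.map (oA (P k))) := by
      calc ENNReal.ofReal (2 ^ (k + 2))
          = ENNReal.ofReal (2 ^ (k + 2)) * (lam.map (oA (P k))) (range (oA (P k))) := by
            rw [Measure.map_apply ho hK]
            have : oA (P k) ⁻¹' range (oA (P k)) = univ := by ext t; simp
            rw [this, measure_univ, mul_one]
        _ = ∫⁻ x, (range (oA (P k))).indicator (fun _ => ENNReal.ofReal (2 ^ (k + 2))) x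
              ∂(lam.map (oA (P k))) := (lintegral_indicator_const hK _).symm
        _ ≤ ∫⁻ x, f x ∂(lam.map (oA (P k))) := by
            apply lintegral_mono
            intro x
            by_cases hx : x ∈ range (oA (P k))
            · rw [indicator_of_mem hx]
              obtain ⟨t, rfl⟩ := hx
              exact hf k t
            · rw [indicator_of_notMem hx]
              exact bot_le
    simp only [smul_eq_mul]
    calc (1 : ℝ≥0∞) = 2⁻¹ ^ (k + 1) * (2⁻¹ * ENNReal.ofReal (2 ^ (k + 2))) := by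
          rw [ENNReal.ofReal_pow (by norm_num), ENNReal.ofReal_ofNat, ← mul_assoc, ← pow_succ,
            ← mul_pow, ENNReal.inv_mul_cancel two_ne_zero ENNReal.ofNat_ne_top, one_pow]
      _ ≤ _ := by
          gcongr
          exact h3.trans (le_add_right le_rfl)
  rw [← top_le_iff]
  calc (⊤ : ℝ≥0∞) = ∑' _ : ℕ, 1 := by
        rw [ENNReal.tsum_const_eq_top_of_ne_zero one_ne_zero]
    _ ≤ _ := ENNReal.tsum_le_tsum key

end Q66.Os
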