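import Pool.Agent.Q66.OsDefs

/-!
# The derivative in the coordinates `(r, φ)` is unique
-/

set_option autoImplicit false

namespace Q66.Os

open MeasureTheory Set Filter Topology Complex
open scoped ENNReal

theorem reg_subset_par (c : BoundaryCurve) : c.reg ⊆ c.par := fun _ hs =>
  ⟨hs.1, hs.2.1.le, fun h => absurd h hs.2.1.ne⟩

theorem exp_inj {a b : ℝ} (ha : a ∈ Icc (-(Real.pi / 2)) (Real.pi / 2))
    (hb : b ∈ Icc (-(Real.pi / 2)) (Real.pi / 2)) (h : exp (a * I) = exp (b * I)) : a = b := by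
  rw [Complex.exp_eq_exp_iff_exists_int] at h
  obtain ⟨n, hn⟩ := h
  have h2 : a - b = n * (2 * Real.pi) := by
    have : ((a - b : ℝ) : ℂ) * I = ((n * (2 * Real.pi) : ℝ) : ℂ) * I := by
      push_cast; linear_combination hn
    have := mul_right_cancel₀ I_ne_zero this
    exact_mod_cast this
  have hpi := Real.pi_pos
  have h3 : |(n : ℝ)| < 1 := by
    rw [abs_lt]
    constructor
    · by_contra hc
      push Not at hc
      nlinarith [ha.1, ha.2, hb.1, hb.2]
    · by_contra hc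
      push Not at hc
      nlinarith [ha.1, ha.2, hb.1, hb.2]
  have h4 : n = 0 := by
    have : |n| < 1 := by exact_mod_cast h3
    exact Int.abs_lt_one_iff.mp this
  rw [h4] at h2
  push_cast at h2
  linarith

theorem pt_inj (B : BilliardTable) {i j : Fin B.n} {p q : ℝ × ℝ} (hp : p.1 ∈ (B.curve i).reg)
    (hp2 : p.2 ∈ Icc (-(Real.pi / 2)) (Real.pi / 2)) (hq : q.1 ∈ (B.curve j).reg)
    (hq2 : q.2 ∈ Icc (-(Real.pi / 2)) (Real.pi / 2)) (h : B.pt i p = B.pt j q) :
    i = j ∧ p = q := by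
  obtain ⟨hij, hs⟩ := B.simple i j p.1 hp q.1 (reg_subset_par _ hq) (congrArg Prod.fst h)
  subst hij
  refine ⟨rfl, Prod.ext hs ?_⟩
  apply exp_inj hp2 hq2
  have h2 : exp (p.2 * I) * (I * deriv (B.curve i).γ p.1)
      = exp (q.2 * I) * (I * deriv (B.curve i).γ q.1) := congrArg Prod.snd h
  rw [hs] at h2
  have hne : I * deriv (B.curve i).γ q.1 ≠ 0 := by
    refine mul_ne_zero I_ne_zero ?_
    intro h0
    have := (B.curve i).unit_speed q.1
    rw [h0, norm_zero] at this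
    exact zero_ne_one this
  exact mul_right_cancel₀ hne h2

theorem pt_hasFDeriv (B : BilliardTable) (j : Fin B.n) (p : ℝ × ℝ) :
    ∃ L : ℝ × ℝ →L[ℝ] ℂ × ℂ, HasFDerivAt (B.pt j) L p ∧ Function.Injective L := by
  have hγ : HasDerivAt (B.curve j).γ (deriv (B.curve j).γ p.1) p.1 :=
    ((B.curve j).smooth.differentiable (by norm_num)).differentiableAt.hasDerivAt
  have hγ2 : HasDerivAt (deriv (B.curve j).γ) (deriv (deriv (B.curve j).γ) p.1) p.1 := by
    have h3 : ContDiff ℝ (2 + 1) (B.curve j).γ := by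
      have := (B.curve j).smooth
      norm_num at this ⊢
      exact this
    have h2 : ContDiff ℝ 2 (deriv (B.curve j).γ) := (contDiff_succ_iff_deriv.mp h3).2.2
    exact (h2.differentiable (by norm_num)).differentiableAt.hasDerivAt
  have hexp : HasDerivAt (fun s : ℝ => exp (s * I)) (exp (p.2 * I) * (1 * I)) p.2 := by
    have h1 : HasDerivAt (fun s : ℝ => (s : ℂ) * I) (1 * I) p.2 :=
      (Complex.ofRealCLM.hasDerivAt).mul_const I
    exact h1.cexp
  have e1 : HasFDerivAt (fun u : ℝ × ℝ => (B.curve j).γ u.1) _ p :=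
    hγ.hasFDerivAt.comp p hasFDerivAt_fst
  have e2 : HasFDerivAt (fun u : ℝ × ℝ => deriv (B.curve j).γ u.1) _ p :=
    hγ2.hasFDerivAt.comp p hasFDerivAt_fst
  have e3 : HasFDerivAt (fun u : ℝ × ℝ => exp (u.2 * I)) _ p :=
    hexp.hasFDerivAt.comp p hasFDerivAt_snd
  have e4 := e3.mul (e2.const_mul I)
  refine ⟨_, e1.prodMk e4, ?_⟩
  have hne : deriv (B.curve j).γ p.1 ≠ 0 := by
    intro h0
    have := (B.curve j).unit_speed p.1
    rw [h0, norm_zero] at this
    exact zero_ne_one this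
  rw [injective_iff_map_eq_zero]
  rintro ⟨a, b⟩ hab
  have h1 := congrArg Prod.fst hab
  have h2 := congrArg Prod.snd hab
  simp at h1
  rcases h1 with h1 | h1
  · subst h1
    simp [hne] at h2
    simp [h2]
  · exact absurd h1 hne

/-- The derivative of a phase space map in the coordinates `(r, φ)` is unique. -/
theorem isCoordDeriv_unique (B : BilliardTable) (F : ℂ × ℂ → ℂ × ℂ) (x : ℂ × ℂ)
    (A A' : ℝ × ℝ →L[ℝ] ℝ × ℝ) (h : B.IsCoordDeriv F x A) (h' : B.IsCoordDeriv F x A') :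
    A = A' := by
  obtain ⟨i, j, p, q, f, hp, hp2, hpx, hq, hq2, hqx, hfq, hA, hev⟩ := h
  obtain ⟨i', j', p', q', f', hp', hp2', hpx', hq', hq2', hqx', hfq', hA', hev'⟩ := h'
  obtain ⟨rfl, rfl⟩ := pt_inj B hp hp2 hp' hp2' (hpx.trans hpx'.symm)
  obtain ⟨rfl, rfl⟩ := pt_inj B hq hq2 hq' hq2' (hqx.trans hqx'.symm)
  obtain ⟨L, hL, hinj⟩ := pt_hasFDeriv B j q
  have h1 : HasFDerivAt (fun u => B.pt j (f u)) (L.comp A) p :=
    HasFDerivAt.comp (g := B.pt j) (g' := L) p (by rw [hfq]; exact hL) hA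
  have h2 : HasFDerivAt (fun u => B.pt j (f' u)) (L.comp A') p :=
    HasFDerivAt.comp (g := B.pt j) (g' := L) p (by rw [hfq']; exact hL) hA'
  have h3 : (fun u => B.pt j (f u)) =ᶠ[𝓝 p] fun u => B.pt j (f' u) := by
    filter_upwards [hev, hev'] with u hu hu'
    rw [← hu, ← hu']
  have h4 := h1.unique (h2.congr_of_eventuallyEq h3)
  refine ContinuousLinearMap.ext fun u => ?_
  apply hinj
  exact congrArg (fun M : ℝ × ℝ →L[ℝ] ℂ × ℂ => M u) h4

end Q66.Os
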