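import Mathlib

set_option autoImplicit false
set_option linter.unusedSectionVars false
open Set Filter Topology MeasureTheory

namespace Q66.Rg

variable {E : Type*} [NormedAddCommGroup E] [NormedSpace ℝ E]

/-- Continuous functions on `[0,1]`. -/
abbrev CI (E : Type*) [NormedAddCommGroup E] := C(Set.Icc (0:ℝ) 1, E)

/-- Extension to the line. -/
noncomputable def ext (u : CI E) : ℝ → E := Set.IccExtend zero_le_one u

lemma ext_cont (u : CI E) : Continuous (ext u) := u.continuous.Icc_extend'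

lemma ext_apply (u : CI E) (t : Set.Icc (0:ℝ) 1) : ext u t = u t := Set.IccExtend_val _ _ _

lemma ext_mem (u : CI E) {t : ℝ} (h : t ∈ Set.Icc (0:ℝ) 1) : ext u t = u ⟨t, h⟩ :=
  Set.IccExtend_of_mem _ _ h

lemma ext_eq (u : CI E) (t : ℝ) : ext u t = u (Set.projIcc 0 1 zero_le_one t) := rfl

lemma norm_ext_le (u : CI E) (t : ℝ) : ‖ext u t‖ ≤ ‖u‖ := u.norm_coe_le_norm _

/-- The point `1`. -/
def o1 : Set.Icc (0:ℝ) 1 := ⟨1, by norm_num, le_rfl⟩
/-- The point `0`. -/
def o0 : Set.Icc (0:ℝ) 1 := ⟨0, le_rfl, by norm_num⟩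

/-- Volterra integration. -/
noncomputable def VV : CI E →L[ℝ] CI E :=
  LinearMap.mkContinuous
    { toFun := fun q => ⟨fun t => ∫ r in (0:ℝ)..(t : ℝ), ext q r, by
        have h : Continuous fun t : ℝ => ∫ r in (0:ℝ)..t, ext q r :=
          intervalIntegral.continuous_primitive
            (fun a b => (ext_cont q).intervalIntegrable a b) 0
        exact h.comp continuous_subtype_val⟩
      map_add' := fun p q => by
        ext t
        show ∫ r in (0:ℝ)..(t : ℝ), ext (p + q) r = _ + _
        have : ∀ r, ext (p + q) r = ext p r + ext q r := fun r => rfl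
        simp_rw [this]
        exact intervalIntegral.integral_add ((ext_cont p).intervalIntegrable _ _)
          ((ext_cont q).intervalIntegrable _ _)
      map_smul' := fun c q => by
        ext t
        show ∫ r in (0:ℝ)..(t : ℝ), ext (c • q) r = _
        have : ∀ r, ext (c • q) r = c • ext q r := fun r => rfl
        simp_rw [this]
        exact intervalIntegral.integral_smul _ _ } 1 (fun q => by
      rw [one_mul, ContinuousMap.norm_le _ (norm_nonneg _)]
      intro t
      show ‖∫ r in (0:ℝ)..(t : ℝ), ext q r‖ ≤ ‖q‖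
      have h := intervalIntegral.norm_integral_le_of_norm_le_const (a := 0) (b := (t : ℝ)) (C := ‖q‖)
        (f := ext q) (fun r _ => norm_ext_le q r)
      rw [sub_zero, abs_of_nonneg t.2.1] at h
      exact h.trans (mul_le_of_le_one_right (norm_nonneg _) t.2.2))

lemma VV_apply (q : CI E) (t : Set.Icc (0:ℝ) 1) : VV q t = ∫ r in (0:ℝ)..(t : ℝ), ext q r := rfl

lemma VV_norm_le_int (q : CI E) : ‖VV q‖ ≤ ∫ r in (0:ℝ)..1, ‖ext q r‖ := by
  have h0 : 0 ≤ ∫ r in (0:ℝ)..1, ‖ext q r‖ :=
    intervalIntegral.integral_nonneg zero_le_one (fun _ _ => norm_nonneg _)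
  rw [ContinuousMap.norm_le _ h0]
  intro t
  rw [VV_apply]
  refine (intervalIntegral.norm_integral_le_integral_norm t.2.1).trans ?_
  refine intervalIntegral.integral_mono_interval le_rfl t.2.1 t.2.2
    (Eventually.of_forall fun _ => norm_nonneg _) ?_
  exact (ext_cont q).norm.intervalIntegrable _ _

/-- Multiplication operator, linear in the symbol. -/
noncomputable def mulOp : CI (E →L[ℝ] E) →L[ℝ] CI E →L[ℝ] CI E :=
  LinearMap.mkContinuous₂
    (LinearMap.mk₂ ℝ (fun (A : CI (E →L[ℝ] E)) (h : CI E) =>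
      (⟨fun t => A t (h t), A.continuous.clm_apply h.continuous⟩ : CI E))
      (fun A B h => by ext t; rfl) (fun c A h => by ext t; rfl)
      (fun A h k => by ext t; simp) (fun c A h => by ext t; simp)) 1
    (fun A h => by
      rw [one_mul, ContinuousMap.norm_le _ (by positivity)]
      intro t
      show ‖A t (h t)‖ ≤ _
      exact ((A t).le_opNorm _).trans (mul_le_mul (A.norm_coe_le_norm t) (h.norm_coe_le_norm t)
        (norm_nonneg _) (norm_nonneg _)))

lemma mulOp_apply (A : CI (E →L[ℝ] E)) (h : CI E) (t : Set.Icc (0:ℝ) 1) :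
    mulOp A h t = A t (h t) := rfl

/-- Composition operator. -/
noncomputable def Nem (f : E → E) (hf : Continuous f) (u : CI E) : CI E := ⟨fun t => f (u t), hf.comp u.continuous⟩

lemma Nem_apply (f : E → E) (hf : Continuous f) (u : CI E) (t : Set.Icc (0:ℝ) 1) :
    Nem f hf u t = f (u t) := rfl

/-- Derivative along `u`. -/
noncomputable def dN (f : E → E) (hf : ContDiff ℝ 1 f) (u : CI E) : CI (E →L[ℝ] E) :=
  ⟨fun t => fderiv ℝ f (u t), (hf.continuous_fderiv one_ne_zero).comp u.continuous⟩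

lemma dN_apply (f : E → E) (hf : ContDiff ℝ 1 f) (u : CI E) (t : Set.Icc (0:ℝ) 1) :
    dN f hf u t = fderiv ℝ f (u t) := rfl

/-- Uniform continuity of a continuous function near a compact set. -/
lemma unif_near {F : Type*} [NormedAddCommGroup F] {g : E → F} (hg : Continuous g) {K : Set E}
    (hK : IsCompact K) {ε : ℝ} (hε : 0 < ε) :
    ∃ δ > 0, ∀ x ∈ K, ∀ y, ‖y - x‖ < δ → ‖g y - g x‖ < ε := by
  have h := hK.uniformContinuousAt_of_continuousAt g (fun x _ => hg.continuousAt)
    (Metric.dist_mem_uniformity hε)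
  obtain ⟨δ, hδ, h2⟩ := Metric.mem_uniformity_dist.1 h
  refine ⟨δ, hδ, fun x hx y hxy => ?_⟩
  have h3 := h2 (a := x) (b := y) (by rw [dist_comm, dist_eq_norm]; exact hxy) hx
  have h4 : dist (g x) (g y) < ε := h3
  rw [← dist_eq_norm, dist_comm]
  exact h4

lemma compact_range (u : CI E) : IsCompact (Set.range u) := isCompact_range u.continuous

/-- The composition operator is strictly differentiable. -/
lemma nem_strict (f : E → E) (hf : ContDiff ℝ 1 f) (u : CI E) :
    HasStrictFDerivAt (Nem f hf.continuous) (mulOp (dN f hf u)) u := by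
  refine .of_isLittleO ?_
  rw [Asymptotics.isLittleO_iff]
  intro c hc
  obtain ⟨δ, hδ, h⟩ := unif_near (hf.continuous_fderiv one_ne_zero) (compact_range u) hc
  have hb : Metric.ball u δ ×ˢ Metric.ball u δ ∈ 𝓝 (u, u) :=
    prod_mem_nhds (Metric.ball_mem_nhds u hδ) (Metric.ball_mem_nhds u hδ)
  filter_upwards [hb] with p hp
  rw [ContinuousMap.norm_le _ (by positivity)]
  intro t
  have hpt : ∀ q : CI E, q ∈ Metric.ball u δ → q t ∈ Metric.ball (u t) δ := by
    intro q hq
    rw [Metric.mem_ball] at hq ⊢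
    exact lt_of_le_of_lt (ContinuousMap.dist_apply_le_dist t) hq
  have h1 := (convex_ball (u t) δ).norm_image_sub_le_of_norm_fderiv_le' (𝕜 := ℝ) (f := f)
    (φ := fderiv ℝ f (u t)) (C := c) (x := p.2 t) (y := p.1 t)
    (fun x _ => (hf.differentiable one_ne_zero).differentiableAt)
    (fun x hx => (h (u t) ⟨t, rfl⟩ x (by rw [← dist_eq_norm]; exact hx)).le)
    (hpt _ hp.2) (hpt _ hp.1)
  have h2 : ‖p.1 t - p.2 t‖ ≤ ‖p.1 - p.2‖ := (p.1 - p.2).norm_coe_le_norm t
  refine le_trans (le_of_eq ?_) (h1.trans (mul_le_mul_of_nonneg_left h2 hc.le))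
  rfl

/-- Continuity of the derivative symbol. -/
lemma dN_cont (f : E → E) (hf : ContDiff ℝ 1 f) : Continuous (dN f hf) := by
  rw [Metric.continuous_iff]
  intro u c hc
  obtain ⟨δ, hδ, h⟩ := unif_near (hf.continuous_fderiv one_ne_zero) (compact_range u) (half_pos hc)
  refine ⟨δ, hδ, fun v hv => ?_⟩
  refine lt_of_le_of_lt ?_ (half_lt_self hc)
  rw [ContinuousMap.dist_le (half_pos hc).le]
  intro t
  rw [dist_eq_norm]
  refine (h (u t) ⟨t, rfl⟩ (v t) ?_).le
  rw [← dist_eq_norm]
  exact lt_of_le_of_lt (ContinuousMap.dist_apply_le_dist t) hv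

lemma Nem_cont (f : E → E) (hf : Continuous f) : Continuous (Nem f hf) := by
  rw [Metric.continuous_iff]
  intro u c hc
  obtain ⟨δ, hδ, h⟩ := unif_near hf (compact_range u) (half_pos hc)
  refine ⟨δ, hδ, fun v hv => ?_⟩
  refine lt_of_le_of_lt ?_ (half_lt_self hc)
  rw [ContinuousMap.dist_le (half_pos hc).le]
  intro t
  rw [dist_eq_norm]
  refine (h (u t) ⟨t, rfl⟩ (v t) ?_).le
  rw [← dist_eq_norm]
  exact lt_of_le_of_lt (ContinuousMap.dist_apply_le_dist t) hv

end Q66.Rg
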