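import Pool.Agent.Q66.Rg1

set_option autoImplicit false
set_option linter.unusedSectionVars false
open Set Filter Topology MeasureTheory

namespace Q66.Rg

variable {E : Type*} [NormedAddCommGroup E] [NormedSpace ℝ E]

/-- Unknowns: function, initial point, period. -/
abbrev WW (E : Type*) [NormedAddCommGroup E] := CI E × E × ℝ

/-- Constant functions. -/
noncomputable def cst : E →L[ℝ] CI E :=
  LinearMap.mkContinuous
    { toFun := fun x => ContinuousMap.const _ x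
      map_add' := fun x y => by ext t; rfl
      map_smul' := fun c x => by ext t; rfl } 1 (fun x => by
      rw [one_mul, ContinuousMap.norm_le _ (norm_nonneg _)]
      intro t
      exact le_rfl)

lemma cst_apply (x : E) (t : Set.Icc (0:ℝ) 1) : cst x t = x := rfl

/-- Evaluation at `1`. -/
noncomputable def ev1 : CI E →L[ℝ] E := ContinuousMap.evalCLM ℝ o1

lemma ev1_apply (u : CI E) : ev1 u = u o1 := rfl

/-- Main part. -/
noncomputable def L0 (ℓ : E →L[ℝ] ℝ) : WW E →L[ℝ] WW E :=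
  (ContinuousLinearMap.fst ℝ (CI E) (E × ℝ) -
    cst.comp ((ContinuousLinearMap.fst ℝ E ℝ).comp (ContinuousLinearMap.snd ℝ (CI E) (E × ℝ)))).prod
  ((ev1.comp (ContinuousLinearMap.fst ℝ (CI E) (E × ℝ)) -
    (ContinuousLinearMap.fst ℝ E ℝ).comp (ContinuousLinearMap.snd ℝ (CI E) (E × ℝ))).prod
    (ℓ.comp ((ContinuousLinearMap.fst ℝ E ℝ).comp (ContinuousLinearMap.snd ℝ (CI E) (E × ℝ)))))

lemma L0_apply (ℓ : E →L[ℝ] ℝ) (w : WW E) :
    L0 ℓ w = (w.1 - cst w.2.1, w.1 o1 - w.2.1, ℓ w.2.1) := rfl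

/-- Inclusion. -/
noncomputable def inlW : CI E →L[ℝ] WW E := ContinuousLinearMap.inl ℝ (CI E) (E × ℝ)

lemma inlW_apply (u : CI E) : inlW u = (u, 0, 0) := rfl

lemma norm_inlW (u : CI E) : ‖inlW u‖ = ‖u‖ := by
  rw [inlW_apply, Prod.norm_def, Prod.norm_def]
  simp

/-- The linearised operator. -/
noncomputable def Lop (ℓ : E →L[ℝ] ℝ) (A : CI (E →L[ℝ] E)) (b : CI E) (τ : ℝ) : WW E →L[ℝ] WW E :=
  L0 ℓ - τ • (inlW.comp (VV.comp ((mulOp A).comp (ContinuousLinearMap.fst ℝ (CI E) (E × ℝ))))) -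
    ((ContinuousLinearMap.snd ℝ E ℝ).comp
      (ContinuousLinearMap.snd ℝ (CI E) (E × ℝ))).smulRight (inlW (VV b))

lemma Lop_apply (ℓ : E →L[ℝ] ℝ) (A : CI (E →L[ℝ] E)) (b : CI E) (τ : ℝ) (w : WW E) :
    Lop ℓ A b τ w = (w.1 - cst w.2.1 - τ • VV (mulOp A w.1) - w.2.2 • VV b,
      w.1 o1 - w.2.1, ℓ w.2.1) := by
  unfold Lop
  simp only [sub_apply, smul_apply, L0_apply,
    ContinuousLinearMap.comp_apply, inlW_apply, ContinuousLinearMap.smulRight_apply]
  ext1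
  · simp
  · simp

lemma Lop_cont (ℓ : E →L[ℝ] ℝ) : Continuous fun p : CI (E →L[ℝ] E) × CI E × ℝ =>
    Lop ℓ p.1 p.2.1 p.2.2 := by
  unfold Lop
  refine (continuous_const.sub ?_).sub ?_
  · refine (continuous_snd.comp continuous_snd).smul ?_
    have h1 : Continuous fun p : CI (E →L[ℝ] E) × CI E × ℝ => mulOp p.1 :=
      mulOp.continuous.comp continuous_fst
    exact continuous_const.clm_comp (continuous_const.clm_comp (h1.clm_comp continuous_const))
  · have h1 : Continuous fun p : CI (E →L[ℝ] E) × CI E × ℝ => inlW (VV p.2.1) :=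
      inlW.continuous.comp (VV.continuous.comp (continuous_fst.comp continuous_snd))
    exact (ContinuousLinearMap.smulRightL ℝ (WW E) (WW E)
      ((ContinuousLinearMap.snd ℝ E ℝ).comp
      (ContinuousLinearMap.snd ℝ (CI E) (E × ℝ)))).continuous.comp h1

/-- The nonlinear map. -/
noncomputable def HH (ℓ : E →L[ℝ] ℝ) (c : ℝ) (f : E → E) (hf : Continuous f) (g : E → E)
    (hg : Continuous g) (w : WW E × ℝ) : WW E :=
  L0 ℓ w.1 - (0, 0, c) - inlW (w.1.2.2 • VV (Nem f hf w.1.1 + w.2 • Nem g hg w.1.1))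

lemma HH_strict (ℓ : E →L[ℝ] ℝ) (c : ℝ) (f : E → E) (hf : ContDiff ℝ 1 f) (g : E → E)
    (hg : ContDiff ℝ 1 g) (w0 : WW E) :
    HasStrictFDerivAt (HH ℓ c f hf.continuous g hg.continuous)
      ((Lop ℓ (dN f hf w0.1) (Nem f hf.continuous w0.1) w0.2.2).comp
          (ContinuousLinearMap.fst ℝ (WW E) ℝ) -
        (ContinuousLinearMap.snd ℝ (WW E) ℝ).smulRight
          (inlW (w0.2.2 • VV (Nem g hg.continuous w0.1)))) (w0, 0) := by
  have hfst : HasStrictFDerivAt (fun w : WW E × ℝ => w.1.1)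
      ((ContinuousLinearMap.fst ℝ (CI E) (E × ℝ)).comp (ContinuousLinearMap.fst ℝ (WW E) ℝ)) (w0, 0) :=
    ((ContinuousLinearMap.fst ℝ (CI E) (E × ℝ)).comp
      (ContinuousLinearMap.fst ℝ (WW E) ℝ)).hasStrictFDerivAt
  have hτ : HasStrictFDerivAt (fun w : WW E × ℝ => w.1.2.2)
      (((ContinuousLinearMap.snd ℝ E ℝ).comp (ContinuousLinearMap.snd ℝ (CI E) (E × ℝ))).comp
        (ContinuousLinearMap.fst ℝ (WW E) ℝ)) (w0, 0) :=
    (((ContinuousLinearMap.snd ℝ E ℝ).comp (ContinuousLinearMap.snd ℝ (CI E) (E × ℝ))).comp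
        (ContinuousLinearMap.fst ℝ (WW E) ℝ)).hasStrictFDerivAt
  have hs : HasStrictFDerivAt (fun w : WW E × ℝ => w.2) (ContinuousLinearMap.snd ℝ (WW E) ℝ) (w0, 0) :=
    (ContinuousLinearMap.snd ℝ (WW E) ℝ).hasStrictFDerivAt
  have h1 : HasStrictFDerivAt (fun w : WW E × ℝ => Nem f hf.continuous w.1.1) _ (w0, 0) :=
    (nem_strict f hf w0.1).comp (w0, (0:ℝ)) hfst
  have h2 : HasStrictFDerivAt (fun w : WW E × ℝ => Nem g hg.continuous w.1.1) _ (w0, 0) :=
    (nem_strict g hg w0.1).comp (w0, (0:ℝ)) hfst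
  have h3 := hs.smul h2
  have h4 := (VV (E := E)).hasStrictFDerivAt.comp (w0, (0:ℝ)) (h1.add h3)
  have h5 := hτ.smul h4
  have h6 := (inlW (E := E)).hasStrictFDerivAt.comp (w0, (0:ℝ)) h5
  have h7 := (((L0 ℓ).comp (ContinuousLinearMap.fst ℝ (WW E) ℝ)).hasStrictFDerivAt
    (x := (w0, (0:ℝ)))).sub_const (0, 0, c)
  have h8 := h7.sub h6
  refine HasStrictFDerivAt.congr_fderiv h8 ?_
  refine ContinuousLinearMap.ext fun p => ?_
  obtain ⟨w, s⟩ := p
  change L0 ℓ w - inlW (w0.2.2 • VV (mulOp (dN f hf w0.1) w.1 +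
      ((0:ℝ) • mulOp (dN g hg w0.1) w.1 + s • Nem g hg.continuous w0.1)) +
      w.2.2 • VV (Nem f hf.continuous w0.1 + (0:ℝ) • Nem g hg.continuous w0.1)) =
    Lop ℓ (dN f hf w0.1) (Nem f hf.continuous w0.1) w0.2.2 w -
      s • inlW (w0.2.2 • VV (Nem g hg.continuous w0.1))
  rw [Lop_apply, L0_apply, inlW_apply, inlW_apply, zero_smul, zero_smul, zero_add, add_zero,
    map_add, map_smul]
  ext1
  · simp only [Prod.fst_sub, Prod.smul_fst]
    rw [smul_add, smul_smul, smul_smul, mul_comm s]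
    abel
  · simp

end Q66.Rg
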