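import Pool.Agent.Q66.Rg2

set_option autoImplicit false
set_option linter.unusedSectionVars false
open Set Filter Topology MeasureTheory

namespace Q66.Rg

variable {E : Type*} [NormedAddCommGroup E] [NormedSpace ℝ E]

/-- Closed orbit in scaled time. -/
structure Orb (f : E → E) (hf : Continuous f) (u : CI E) (τ : ℝ) : Prop where
  pos : 0 < τ
  eq : u = cst (u o0) + τ • VV (Nem f hf u)
  per : u o1 = u o0

/-- Perturbed field. -/
def pf (f g : E → E) (s : ℝ) (x : E) : E := f x + s • g x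

lemma pf_contDiff {f g : E → E} (hf : ContDiff ℝ 1 f) (hg : ContDiff ℝ 1 g) (s : ℝ) :
    ContDiff ℝ 1 (pf f g s) := hf.add (contDiff_const.smul hg)

lemma Nem_pf {f g : E → E} (hf : ContDiff ℝ 1 f) (hg : ContDiff ℝ 1 g) (s : ℝ) (u : CI E) :
    Nem (pf f g s) (pf_contDiff hf hg s).continuous u =
      Nem f hf.continuous u + s • Nem g hg.continuous u := by
  ext t; rfl

lemma dN_pf {f g : E → E} (hf : ContDiff ℝ 1 f) (hg : ContDiff ℝ 1 g) (s : ℝ) (u : CI E) :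
    dN (pf f g s) (pf_contDiff hf hg s) u = dN f hf u + s • dN g hg u := by
  ext1 t
  show fderiv ℝ (fun x => f x + s • g x) (u t) = fderiv ℝ f (u t) + s • fderiv ℝ g (u t)
  have hf1 : DifferentiableAt ℝ f (u t) := (hf.differentiable one_ne_zero).differentiableAt
  have hg1 : DifferentiableAt ℝ g (u t) := (hg.differentiable one_ne_zero).differentiableAt
  exact (hf1.hasFDerivAt.add (hg1.hasFDerivAt.const_smul s)).fderiv

lemma VV_zero (q : CI E) : VV q o0 = 0 := by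
  rw [VV_apply]
  show ∫ r in (0:ℝ)..0, ext q r = 0
  simp

lemma HH_zero (ℓ : E →L[ℝ] ℝ) (c : ℝ) {f g : E → E} (hf : ContDiff ℝ 1 f) (hg : ContDiff ℝ 1 g)
    {w : WW E} {s : ℝ} (h : HH ℓ c f hf.continuous g hg.continuous (w, s) = 0) (hτ : 0 < w.2.2) :
    Orb (pf f g s) (pf_contDiff hf hg s).continuous w.1 w.2.2 ∧ ℓ (w.1 o0) = c := by
  unfold HH at h
  simp only [L0_apply, inlW_apply] at h
  have h1 := congrArg Prod.fst h
  have h2 := congrArg (fun x => x.2.1) h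
  have h3 := congrArg (fun x => x.2.2) h
  simp only [Prod.fst_sub, Prod.snd_sub, sub_zero, Prod.fst_zero, Prod.snd_zero] at h1 h2 h3
  have h4 : w.1 = cst w.2.1 + w.2.2 • VV (Nem f hf.continuous w.1 + s • Nem g hg.continuous w.1) := by
    rw [sub_sub, sub_eq_zero] at h1
    exact h1
  have h5 : w.1 o0 = w.2.1 := by
    have := congrArg (fun q : CI E => q o0) h4
    simp only [ContinuousMap.add_apply, ContinuousMap.smul_apply, VV_zero, smul_zero, add_zero,
      cst_apply] at this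
    exact this
  refine ⟨⟨hτ, ?_, ?_⟩, ?_⟩
  · rw [Nem_pf hf hg, h5]; exact h4
  · rw [h5]; exact sub_eq_zero.1 h2
  · rw [h5]; exact sub_eq_zero.1 h3

lemma HH_orb (ℓ : E →L[ℝ] ℝ) {f g : E → E} (hf : ContDiff ℝ 1 f) (hg : ContDiff ℝ 1 g)
    {u : CI E} {τ : ℝ} (ho : Orb f hf.continuous u τ) :
    HH ℓ (ℓ (u o0)) f hf.continuous g hg.continuous ((u, u o0, τ), 0) = 0 := by
  unfold HH
  simp only [L0_apply, inlW_apply, zero_smul, add_zero]
  ext1
  · simp only [Prod.fst_sub, sub_zero, Prod.fst_zero]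
    rw [sub_sub, sub_eq_zero]
    exact ho.eq
  · ext1
    · simp [ho.per]
    · simp

lemma bij_nhds [CompleteSpace E] {L : WW E →L[ℝ] WW E} (h : Function.Bijective L) :
    {M : WW E →L[ℝ] WW E | Function.Bijective M} ∈ 𝓝 L := by
  let e := ContinuousLinearEquiv.ofBijective L (LinearMap.ker_eq_bot.2 h.1)
    (LinearMap.range_eq_top.2 h.2)
  have h1 := ContinuousLinearEquiv.nhds e
  have h2 : (e : WW E →L[ℝ] WW E) = L := ContinuousLinearMap.ext fun x => rfl
  rw [h2] at h1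
  filter_upwards [h1] with M hM
  obtain ⟨e', rfl⟩ := hM
  exact e'.bijective

/-- Perturbation of a nondegenerate closed orbit. -/
theorem perturb [CompleteSpace E] (ℓ : E →L[ℝ] ℝ) {f : E → E} (hf : ContDiff ℝ 1 f) {u : CI E} {τ : ℝ}
    (ho : Orb f hf.continuous u τ)
    (hb : Function.Bijective (Lop ℓ (dN f hf u) (Nem f hf.continuous u) τ)) :
    ∃ K : ℝ, 0 ≤ K ∧ ∀ (g : E → E) (hg : ContDiff ℝ 1 g) (ε : ℝ), 0 < ε →
      ∀ᶠ s in 𝓝 (0:ℝ), ∃ (u' : CI E) (τ' : ℝ),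
        Orb (pf f g s) (pf_contDiff hf hg s).continuous u' τ' ∧ ℓ (u' o0) = ℓ (u o0) ∧
        Function.Bijective (Lop ℓ (dN (pf f g s) (pf_contDiff hf hg s) u')
          (Nem (pf f g s) (pf_contDiff hf hg s).continuous u') τ') ∧
        ‖u' - u‖ ≤ |s| * (K * ‖VV (Nem g hg.continuous u)‖ + ε) ∧
        |τ' - τ| ≤ |s| * (K * ‖VV (Nem g hg.continuous u)‖ + ε) := by
  set L := Lop ℓ (dN f hf u) (Nem f hf.continuous u) τ with hL
  let e := ContinuousLinearEquiv.ofBijective L (LinearMap.ker_eq_bot.2 hb.1)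
    (LinearMap.range_eq_top.2 hb.2)
  have he : ∀ x, e x = L x := fun x => rfl
  refine ⟨‖(e.symm : WW E →L[ℝ] WW E)‖ * τ, mul_nonneg (norm_nonneg _) ho.pos.le, ?_⟩
  intro g hg ε hε
  set w0 : WW E := (u, u o0, τ) with hw0
  set k : WW E := inlW (τ • VV (Nem g hg.continuous u)) with hk
  set H := HH ℓ (ℓ (u o0)) f hf.continuous g hg.continuous with hH
  -- the extended map
  set Ψ : WW E × ℝ → WW E × ℝ := fun w => (H w, w.2) with hΨ
  let T1 : WW E × ℝ →L[ℝ] WW E × ℝ := (L.comp (ContinuousLinearMap.fst ℝ (WW E) ℝ) -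
        (ContinuousLinearMap.snd ℝ (WW E) ℝ).smulRight k).prod (ContinuousLinearMap.snd ℝ (WW E) ℝ)
  let T2 : WW E × ℝ →L[ℝ] WW E × ℝ := ((e.symm : WW E →L[ℝ] WW E).comp
      (ContinuousLinearMap.fst ℝ (WW E) ℝ + (ContinuousLinearMap.snd ℝ (WW E) ℝ).smulRight k)).prod
      (ContinuousLinearMap.snd ℝ (WW E) ℝ)
  have hT1 : ∀ w s, T1 (w, s) = (L w - s • k, s) := fun w s => rfl
  have hT2 : ∀ w s, T2 (w, s) = (e.symm (w + s • k), s) := fun w s => rfl
  have hl : Function.LeftInverse T2 T1 := by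
    rintro ⟨w, s⟩
    rw [hT1, hT2, sub_add_cancel, ← he, e.symm_apply_apply]
  have hr : Function.RightInverse T2 T1 := by
    rintro ⟨w, s⟩
    rw [hT2, hT1, ← he, e.apply_symm_apply, add_sub_cancel_right]
  let Φ : (WW E × ℝ) ≃L[ℝ] (WW E × ℝ) := ContinuousLinearEquiv.equivOfInverse T1 T2 hl hr
  have hΦ : (Φ : (WW E × ℝ) →L[ℝ] (WW E × ℝ)) = T1 := ContinuousLinearMap.ext fun x => rfl
  have hstrict : HasStrictFDerivAt Ψ (Φ : (WW E × ℝ) →L[ℝ] (WW E × ℝ)) (w0, (0:ℝ)) := by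
    rw [hΦ]
    exact (HH_strict ℓ (ℓ (u o0)) f hf g hg w0).prodMk
      (ContinuousLinearMap.snd ℝ (WW E) ℝ).hasStrictFDerivAt
  have hΨ0 : Ψ (w0, 0) = (0, 0) := by
    rw [hΨ]
    simp only
    rw [hH, HH_orb ℓ hf hg ho]
  have hright := hstrict.eventually_right_inverse
  have hinv := hstrict.to_localInverse
  have himg := hstrict.localInverse_apply_image
  rw [hΨ0] at hright hinv himg
  set G := hstrict.localInverse Ψ Φ (w0, 0) with hG
  have hc : Tendsto (fun s : ℝ => ((0 : WW E), s)) (𝓝 0) (𝓝 (0, 0)) :=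
    (continuous_const.prodMk continuous_id).tendsto' _ _ rfl
  have hev := hc.eventually hright
  have hd : HasFDerivAt (fun s : ℝ => G ((0 : WW E), s))
      ((Φ.symm : (WW E × ℝ) →L[ℝ] (WW E × ℝ)).comp (ContinuousLinearMap.inr ℝ (WW E) ℝ)) 0 := by
    have h1 : HasFDerivAt G (Φ.symm : (WW E × ℝ) →L[ℝ] (WW E × ℝ))
      ((ContinuousLinearMap.inr ℝ (WW E) ℝ) 0) := by
      have : (ContinuousLinearMap.inr ℝ (WW E) ℝ) 0 = (0, 0) := rfl
      rw [this]; exact hinv.hasFDerivAt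
    exact h1.comp (0:ℝ) (ContinuousLinearMap.inr ℝ (WW E) ℝ).hasFDerivAt
  have hcont : Tendsto (fun s : ℝ => G ((0 : WW E), s)) (𝓝 0) (𝓝 (w0, 0)) := by
    have := hd.continuousAt.tendsto
    rwa [himg] at this
  have hτ : Tendsto (fun s : ℝ => (G ((0 : WW E), s)).1.2.2) (𝓝 0) (𝓝 τ) :=
    ((continuous_snd.comp (continuous_snd.comp continuous_fst)).tendsto (w0, (0:ℝ))).comp hcont
  have hu : Tendsto (fun s : ℝ => (G ((0 : WW E), s)).1.1) (𝓝 0) (𝓝 u) :=
    ((continuous_fst.comp continuous_fst).tendsto (w0, (0:ℝ))).comp hcont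
  -- bijectivity
  have hbij : ∀ᶠ s in 𝓝 (0:ℝ), Function.Bijective (Lop ℓ
      (dN (pf f g s) (pf_contDiff hf hg s) (G ((0 : WW E), s)).1.1)
      (Nem (pf f g s) (pf_contDiff hf hg s).continuous (G ((0 : WW E), s)).1.1)
      (G ((0 : WW E), s)).1.2.2) := by
    have ha : Tendsto (fun s : ℝ => dN (pf f g s) (pf_contDiff hf hg s) (G ((0 : WW E), s)).1.1)
        (𝓝 0) (𝓝 (dN f hf u)) := by
      simp_rw [dN_pf hf hg]
      have h1 := ((dN_cont f hf).tendsto u).comp hu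
      have h2 := (tendsto_id (α := ℝ) (x := 𝓝 0)).smul (((dN_cont g hg).tendsto u).comp hu)
      have h3 := h1.add h2
      simpa using h3
    have hb2 : Tendsto (fun s : ℝ => Nem (pf f g s) (pf_contDiff hf hg s).continuous
        (G ((0 : WW E), s)).1.1) (𝓝 0) (𝓝 (Nem f hf.continuous u)) := by
      simp_rw [Nem_pf hf hg]
      have h1 := ((Nem_cont f hf.continuous).tendsto u).comp hu
      have h2 := (tendsto_id (α := ℝ) (x := 𝓝 0)).smul (((Nem_cont g hg.continuous).tendsto u).comp hu)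
      have h3 := h1.add h2
      simpa using h3
    have h4 := ((Lop_cont ℓ).tendsto (dN f hf u, Nem f hf.continuous u, τ)).comp
      (ha.prodMk_nhds (hb2.prodMk_nhds hτ))
    exact h4.eventually (bij_nhds hb)
  have hsmall := hd.isLittleO
  rw [Asymptotics.isLittleO_iff] at hsmall
  have hsm := hsmall hε
  have hτpos : ∀ᶠ s in 𝓝 (0:ℝ), 0 < (G ((0 : WW E), s)).1.2.2 := hτ.eventually (lt_mem_nhds ho.pos)
  filter_upwards [hev, hbij, hsm, hτpos] with s h1 h2 h3 h4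
  have h5 : (G ((0 : WW E), s)).2 = s := congrArg Prod.snd h1
  have h6 : H (G ((0 : WW E), s)) = 0 := congrArg Prod.fst h1
  have h7 : H ((G ((0 : WW E), s)).1, s) = 0 := by
    have h50 : ((G ((0 : WW E), s)).1, s) = G ((0 : WW E), s) := Prod.ext rfl h5.symm
    rw [h50]; exact h6
  obtain ⟨h8, h9⟩ := HH_zero ℓ (ℓ (u o0)) hf hg h7 h4
  have h10 : ‖(G ((0 : WW E), s)).1 - w0‖ ≤
      |s| * (‖(e.symm : WW E →L[ℝ] WW E)‖ * τ * ‖VV (Nem g hg.continuous u)‖ + ε) := by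
    have e1 : ((Φ.symm : (WW E × ℝ) →L[ℝ] (WW E × ℝ)).comp (ContinuousLinearMap.inr ℝ (WW E) ℝ)) (s - 0)
        = (s • e.symm k, s) := by
      rw [sub_zero]
      show (e.symm (0 + s • k), s) = _
      rw [zero_add, map_smul]
    rw [e1, himg, sub_zero, Real.norm_eq_abs] at h3
    have h11 : ‖(G ((0 : WW E), s)).1 - w0 - s • e.symm k‖ ≤ ε * |s| := by
      refine le_trans ?_ h3
      exact norm_fst_le (G ((0 : WW E), s) - (w0, 0) - (s • e.symm k, s))
    have h12 : ‖s • e.symm k‖ ≤ |s| * (‖(e.symm : WW E →L[ℝ] WW E)‖ * τ * ‖VV (Nem g hg.continuous u)‖) := by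
      rw [norm_smul, Real.norm_eq_abs]
      refine mul_le_mul_of_nonneg_left ?_ (abs_nonneg _)
      refine ((e.symm : WW E →L[ℝ] WW E).le_opNorm k).trans ?_
      rw [hk, norm_inlW, norm_smul, Real.norm_eq_abs, abs_of_pos ho.pos, mul_assoc]
    have h13 := norm_add_le ((G ((0 : WW E), s)).1 - w0 - s • e.symm k) (s • e.symm k)
    rw [sub_add_cancel] at h13
    rw [mul_add]
    linarith
  refine ⟨(G ((0 : WW E), s)).1.1, (G ((0 : WW E), s)).1.2.2, h8, h9, h2, ?_, ?_⟩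
  · refine le_trans ?_ h10
    exact norm_fst_le ((G ((0 : WW E), s)).1 - w0)
  · refine le_trans ?_ h10
    rw [← Real.norm_eq_abs]
    exact (norm_snd_le ((G ((0 : WW E), s)).1 - w0).2).trans (norm_snd_le _)

end Q66.Rg
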