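import Pool.Agent.Q66.Rg3

set_option autoImplicit false
set_option linter.unusedSectionVars false
open Set Filter Topology MeasureTheory

namespace Q66.Rg

variable {E : Type*} [NormedAddCommGroup E] [NormedSpace ℝ E]

/-- Restriction of a function on the line. -/
noncomputable def resC (y : ℝ → E) (hy : Continuous y) : CI E := ⟨fun t => y t, hy.comp continuous_subtype_val⟩

lemma ext_res (y : ℝ → E) (hy : Continuous y) {t : ℝ} (ht : t ∈ Set.Icc (0:ℝ) 1) :
    ext (resC y hy) t = y t := by
  rw [ext_mem _ ht]; rfl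

lemma ext_Nem (f : E → E) (hf : Continuous f) (u : CI E) (t : ℝ) :
    ext (Nem f hf u) t = f (ext u t) := rfl

lemma orb_of_sol [CompleteSpace E] {f : E → E} (hf : Continuous f) {y : ℝ → E} {τ : ℝ} (hτ : 0 < τ)
    (hy : ∀ t, HasDerivAt y (τ • f (y t)) t) (hper : ∀ t, y (t + 1) = y t) (hyc : Continuous y) :
    Orb f hf (resC y hyc) τ := by
  refine ⟨hτ, ?_, ?_⟩
  · ext1 t
    show y t = y ((o0 : Set.Icc (0:ℝ) 1) : ℝ) + τ • VV (Nem f hf (resC y hyc)) t
    rw [VV_apply]
    have h1 : ∫ r in (0:ℝ)..(t : ℝ), ext (Nem f hf (resC y hyc)) r = ∫ r in (0:ℝ)..(t : ℝ), f (y r) := by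
      refine intervalIntegral.integral_congr fun r hr => ?_
      rw [uIcc_of_le t.2.1] at hr
      simp only [ext_Nem]
      rw [ext_res y hyc ⟨hr.1, hr.2.trans t.2.2⟩]
    have h2 := intervalIntegral.integral_eq_sub_of_hasDerivAt (a := 0) (b := (t : ℝ))
      (fun r _ => hy r) (Continuous.intervalIntegrable (by fun_prop) _ _)
    rw [intervalIntegral.integral_smul] at h2
    rw [h1, h2]
    show y t = y 0 + (y t - y 0)
    abel
  · show y 1 = y 0
    have := hper 0
    rwa [zero_add] at this

/-- Periodic extension. -/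
noncomputable def perx (u : CI E) (t : ℝ) : E := ext u (Int.fract t)

lemma perx_per (u : CI E) (t : ℝ) : perx u (t + 1) = perx u t := by
  rw [perx, perx, Int.fract_add_one]

lemma perx_cont {u : CI E} (h : u o1 = u o0) : Continuous (perx u) := by
  have h1 : ContinuousOn (ext u) (Set.Icc 0 1) := (ext_cont u).continuousOn
  refine h1.comp_fract'' ?_
  have e0 : ext u 0 = u o0 := ext_apply u o0
  have e1 : ext u 1 = u o1 := ext_apply u o1
  rw [e0, e1, h]

lemma perx_eq {u : CI E} (h : u o1 = u o0) {t : ℝ} (ht : t ∈ Set.Icc (0:ℝ) 1) :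
    perx u t = ext u t := by
  rcases ht.2.lt_or_eq with h1 | h1
  · rw [perx, Int.fract_eq_self.2 ⟨ht.1, h1⟩]
  · rw [h1, perx, Int.fract_one]
    have e0 : ext u 0 = u o0 := ext_apply u o0
    have e1 : ext u 1 = u o1 := ext_apply u o1
    rw [e0, e1, h]

lemma perx_sol [CompleteSpace E] {f : E → E} {hf : Continuous f} {u : CI E} {τ : ℝ}
    (ho : Orb f hf u τ) (t : ℝ) : HasDerivAt (perx u) (τ • f (perx u t)) t := by
  have hc := perx_cont ho.per
  have hcf : Continuous fun t => f (perx u t) := hf.comp hc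
  -- the integral representation
  have h01 : ∀ t ∈ Set.Icc (0:ℝ) 1, perx u t = perx u 0 + τ • ∫ r in (0:ℝ)..t, f (perx u r) := by
    intro t ht
    have h1 := congrArg (fun q : CI E => q ⟨t, ht⟩) ho.eq
    simp only [ContinuousMap.add_apply, ContinuousMap.smul_apply, cst_apply, VV_apply] at h1
    have h2 : ∫ r in (0:ℝ)..t, ext (Nem f hf u) r = ∫ r in (0:ℝ)..t, f (perx u r) := by
      refine intervalIntegral.integral_congr fun r hr => ?_
      rw [uIcc_of_le ht.1] at hr
      simp only [ext_Nem]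
      rw [perx_eq ho.per ⟨hr.1, hr.2.trans ht.2⟩]
    rw [h2] at h1
    rw [perx_eq ho.per ht, ext_mem _ ht, h1]
    congr 1
    rw [perx_eq ho.per ⟨le_rfl, zero_le_one⟩]
    exact (ext_apply u o0).symm
  have hint : ∫ r in (0:ℝ)..1, f (perx u r) = 0 := by
    have h1 := h01 1 ⟨zero_le_one, le_rfl⟩
    have h2 := perx_per u 0
    rw [zero_add] at h2
    rw [h2] at h1
    have h3 : τ • ∫ r in (0:ℝ)..1, f (perx u r) = 0 := by
      have := h1.symm
      rwa [add_eq_left] at this
    exact (smul_eq_zero.1 h3).resolve_left ho.pos.ne'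
  have hperf : Function.Periodic (fun t => f (perx u t)) 1 := fun t => by
    simp only [perx_per]
  have hGper : Function.Periodic (fun t => ∫ r in (0:ℝ)..t, f (perx u r)) 1 := by
    intro t
    simp only
    have h1 := intervalIntegral.integral_add_adjacent_intervals (hcf.intervalIntegrable 0 t)
      (hcf.intervalIntegrable t (t + 1)) (μ := volume)
    have h2 := hperf.intervalIntegral_add_eq t 0
    rw [zero_add, hint] at h2
    rw [← h1, h2, add_zero]
  have hall : ∀ t, perx u t = perx u 0 + τ • ∫ r in (0:ℝ)..t, f (perx u r) := by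
    intro t
    have h1 := h01 (Int.fract t) ⟨Int.fract_nonneg t, (Int.fract_lt_one t).le⟩
    have h2 : perx u (Int.fract t) = perx u t := by
      rw [perx, Int.fract_fract]; rfl
    have h3 : ∫ r in (0:ℝ)..(Int.fract t), f (perx u r) = ∫ r in (0:ℝ)..t, f (perx u r) := by
      have h4 := hGper.sub_int_mul_eq (x := t) ⌊t⌋
      simp only [mul_one] at h4
      exact h4
    rw [← h2, h1, h3]
  have hd : HasDerivAt (fun t => perx u 0 + τ • ∫ r in (0:ℝ)..t, f (perx u r))
      (τ • f (perx u t)) t :=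
    ((hcf.integral_hasStrictDerivAt 0 t).hasDerivAt.const_smul τ).const_add _
  exact hd.congr_of_eventuallyEq (Eventually.of_forall hall)

end Q66.Rg
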