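import Pool.Agent.Q66.Rg4
import Pool.Agent.Helper27.Har.P_global_ode

set_option autoImplicit false
set_option linter.unusedSectionVars false
open Set Filter Topology MeasureTheory

namespace Q66.Rg

variable {E : Type*} [NormedAddCommGroup E] [NormedSpace ℝ E]

lemma VV_deriv [CompleteSpace E] (q : CI E) (t : ℝ) :
    HasDerivAt (fun t => ∫ r in (0:ℝ)..t, ext q r) (ext q t) t :=
  ((ext_cont q).integral_hasStrictDerivAt 0 t).hasDerivAt

lemma volterra_inj [CompleteSpace E] (A : CI (E →L[ℝ] E)) (τ : ℝ) (d : CI E)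
    (h : d = τ • VV (mulOp A d)) : d = 0 := by
  set D : ℝ → E := fun t => ∫ r in (0:ℝ)..t, ext (mulOp A d) r with hD
  have hd : ∀ t ∈ Set.Icc (0:ℝ) 1, ext d t = τ • D t := by
    intro t ht
    have h1 := congrArg (fun q : CI E => q ⟨t, ht⟩) h
    simp only [ContinuousMap.smul_apply, VV_apply] at h1
    rw [ext_mem _ ht, h1]
  have h0 := eq_zero_of_abs_deriv_le_mul_abs_self_of_eq_zero_right (f := D)
    (f' := fun t => ext (mulOp A d) t) (K := ‖A‖ * |τ|) (a := 0) (b := 1)
    (fun t _ => (VV_deriv (mulOp A d) t).continuousAt.continuousWithinAt)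
    (fun t _ => (VV_deriv (mulOp A d) t).hasDerivWithinAt)
    (by simp [hD]) (fun t ht => by
      have ht' : t ∈ Set.Icc (0:ℝ) 1 := ⟨ht.1, ht.2.le⟩
      have e1 : ext (mulOp A d) t = A ⟨t, ht'⟩ (ext d t) := by
        rw [ext_mem _ ht', ext_mem _ ht', mulOp_apply]
      rw [e1, hd t ht']
      refine ((A ⟨t, ht'⟩).le_opNorm _).trans ?_
      rw [norm_smul, Real.norm_eq_abs, mul_assoc]
      exact mul_le_mul_of_nonneg_right (A.norm_coe_le_norm _) (by positivity))
  ext1 t
  have := hd t t.2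
  rw [ext_apply, h0 t t.2, smul_zero] at this
  exact this

lemma volterra_surj [CompleteSpace E] (A : CI (E →L[ℝ] E)) (τ : ℝ) (q : CI E) :
    ∃ h : CI E, h = q + τ • VV (mulOp A h) := by
  obtain ⟨φ, h0, hφ⟩ := Haraux.global_ode (fun t z => τ • (ext A t) (z + ext q t))
    (⟨|τ| * ‖A‖, by positivity⟩ : NNReal) (fun t => by
      refine LipschitzWith.of_dist_le_mul fun x y => ?_
      rw [dist_eq_norm, dist_eq_norm, ← smul_sub, ← map_sub, add_sub_add_right_eq_sub, norm_smul,
        Real.norm_eq_abs]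
      show _ ≤ |τ| * ‖A‖ * ‖x - y‖
      rw [mul_assoc]
      refine mul_le_mul_of_nonneg_left ?_ (abs_nonneg _)
      exact ((ext A t).le_opNorm _).trans (mul_le_mul_of_nonneg_right (norm_ext_le A t) (norm_nonneg _)))
    (by
      have h1 := ext_cont A
      have h2 := ext_cont q
      unfold Function.uncurry
      simp only
      exact ((h1.comp continuous_fst).clm_apply
        (continuous_snd.add (h2.comp continuous_fst))).const_smul τ) 0
  have hc : Continuous φ := continuous_iff_continuousAt.2 fun t => (hφ t).continuousAt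
  refine ⟨q + resC φ hc, ?_⟩
  congr 1
  ext1 t
  show φ t = τ • VV (mulOp A (q + resC φ hc)) t
  rw [VV_apply]
  have h2 := intervalIntegral.integral_eq_sub_of_hasDerivAt (a := 0) (b := (t : ℝ))
      (fun r _ => hφ r) (Continuous.intervalIntegrable (by
        have h1 := ext_cont A
        have h2 := ext_cont q
        exact (h1.clm_apply (hc.add h2)).const_smul τ) _ _)
  rw [intervalIntegral.integral_smul, h0, sub_zero] at h2
  rw [← h2]
  congr 1
  refine intervalIntegral.integral_congr fun r hr => ?_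
  rw [uIcc_of_le t.2.1] at hr
  have hr' : r ∈ Set.Icc (0:ℝ) 1 := ⟨hr.1, hr.2.trans t.2.2⟩
  rw [ext_mem _ hr', ext_mem _ hr', ext_mem _ hr', mulOp_apply]
  congr 1
  show φ r + q ⟨r, hr'⟩ = q ⟨r, hr'⟩ + φ r
  rw [add_comm]

/-- Surjectivity follows from injectivity. -/
lemma Lop_surj [FiniteDimensional ℝ E] (ℓ : E →L[ℝ] ℝ) (A : CI (E →L[ℝ] E)) (b : CI E) (τ : ℝ)
    (hinj : ∀ w, Lop ℓ A b τ w = 0 → w = 0) : Function.Bijective (Lop ℓ A b τ) := by
  have : CompleteSpace E := FiniteDimensional.complete ℝ E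
  refine ⟨(injective_iff_map_eq_zero _).2 hinj, ?_⟩
  -- the Volterra resolvent
  let V : CI E →ₗ[ℝ] CI E := (τ • VV.comp (mulOp A) : CI E →L[ℝ] CI E).toLinearMap
  have hV : ∀ h, V h = τ • VV (mulOp A h) := fun h => rfl
  have hbij : Function.Bijective (LinearMap.id - V : CI E →ₗ[ℝ] CI E) := by
    constructor
    · rw [injective_iff_map_eq_zero]
      intro d hd
      refine volterra_inj A τ d ?_
      rw [LinearMap.sub_apply, LinearMap.id_apply, hV, sub_eq_zero] at hd
      exact hd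
    · intro q
      obtain ⟨h, hh⟩ := volterra_surj A τ q
      refine ⟨h, ?_⟩
      rw [LinearMap.sub_apply, LinearMap.id_apply, hV]
      nth_rewrite 1 [hh]
      rw [add_sub_cancel_right]
  let R : CI E ≃ₗ[ℝ] CI E := (LinearEquiv.ofBijective _ hbij).symm
  have hR : ∀ q, R q - τ • VV (mulOp A (R q)) = q := fun q =>
    (LinearEquiv.ofBijective _ hbij).apply_symm_apply q
  -- the reduced finite dimensional map
  let Θ : E × ℝ →ₗ[ℝ] E × ℝ :=
    ((ev1.toLinearMap.comp (R.toLinearMap.comp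
      ((cst.toLinearMap.comp (LinearMap.fst ℝ E ℝ)) + (LinearMap.snd ℝ E ℝ).smulRight (VV b)))) -
      LinearMap.fst ℝ E ℝ).prod (ℓ.toLinearMap.comp (LinearMap.fst ℝ E ℝ))
  have hΘ : ∀ η σ, Θ (η, σ) = ((R (cst η + σ • VV b)) o1 - η, ℓ η) := fun η σ => rfl
  have hΘi : Function.Injective Θ := by
    rw [injective_iff_map_eq_zero]
    rintro ⟨η, σ⟩ h
    rw [hΘ] at h
    have h1 : (R (cst η + σ • VV b)) o1 - η = 0 := congrArg Prod.fst h
    have h2 : ℓ η = 0 := congrArg Prod.snd h
    have h3 := hinj (R (cst η + σ • VV b), η, σ) (by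
      rw [Lop_apply]
      simp only
      rw [h1, h2]
      have h4 := hR (cst η + σ • VV b)
      have h5 : R (cst η + σ • VV b) - cst η - τ • VV (mulOp A (R (cst η + σ • VV b))) - σ • VV b = 0 := by
        rw [sub_eq_iff_eq_add] at h4
        nth_rewrite 1 [h4]
        abel
      rw [h5]
      rfl)
    have h6 : (η, σ) = (0 : E × ℝ) := congrArg Prod.snd h3
    exact h6
  have hΘs : Function.Surjective Θ := LinearMap.injective_iff_surjective.1 hΘi
  rintro ⟨k, ζ, ρ⟩
  obtain ⟨⟨η, σ⟩, h⟩ := hΘs (ζ - (R k) o1, ρ)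
  rw [hΘ] at h
  have h1 : (R (cst η + σ • VV b)) o1 - η = ζ - (R k) o1 := congrArg Prod.fst h
  have h2 : ℓ η = ρ := congrArg Prod.snd h
  refine ⟨(R (cst η + σ • VV b + k), η, σ), ?_⟩
  rw [Lop_apply]
  simp only
  have h4 := hR (cst η + σ • VV b + k)
  have h5 : R (cst η + σ • VV b + k) - cst η - τ • VV (mulOp A (R (cst η + σ • VV b + k))) -
      σ • VV b = k := by
    rw [sub_eq_iff_eq_add] at h4
    nth_rewrite 1 [h4]
    abel
  have h6 : (R (cst η + σ • VV b + k)) o1 - η = ζ := by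
    rw [map_add, ContinuousMap.add_apply]
    have : (R (cst η + σ • VV b)) o1 + (R k) o1 - η = ((R (cst η + σ • VV b)) o1 - η) + (R k) o1 := by
      abel
    rw [this, h1]
    abel
  rw [h5, h6, h2]

/-- From a solution of the linear equation to the Volterra equation. -/
lemma volterra_of_sol [CompleteSpace E] {f : E → E} (hf : ContDiff ℝ 1 f) {y : ℝ → E} {τ : ℝ}
    (hyc : Continuous y) {W : ℝ → E} (hW : ∀ t, HasDerivAt W (τ • fderiv ℝ f (y t) (W t)) t)
    (hWc : Continuous W) : resC W hWc = cst (W 0) +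
      τ • VV (mulOp (dN f hf (resC y hyc)) (resC W hWc)) := by
  ext1 t
  show W t = W 0 + τ • VV (mulOp (dN f hf (resC y hyc)) (resC W hWc)) t
  rw [VV_apply]
  have h1 : ∫ r in (0:ℝ)..(t : ℝ), ext (mulOp (dN f hf (resC y hyc)) (resC W hWc)) r =
      ∫ r in (0:ℝ)..(t : ℝ), fderiv ℝ f (y r) (W r) := by
    refine intervalIntegral.integral_congr fun r hr => ?_
    rw [uIcc_of_le t.2.1] at hr
    have hr' : r ∈ Set.Icc (0:ℝ) 1 := ⟨hr.1, hr.2.trans t.2.2⟩
    rw [ext_mem _ hr']
    rfl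
  have hc : Continuous fun r => τ • fderiv ℝ f (y r) (W r) :=
    (((hf.continuous_fderiv one_ne_zero).comp hyc).clm_apply hWc).const_smul τ
  have h2 := intervalIntegral.integral_eq_sub_of_hasDerivAt (a := 0) (b := (t : ℝ))
    (fun r _ => hW r) (hc.intervalIntegrable _ _)
  rw [intervalIntegral.integral_smul] at h2
  rw [h1, h2]
  abel

lemma ker_one [FiniteDimensional ℝ E] {M : E →ₗ[ℝ] E} (hM : M.charpoly.rootMultiplicity 1 = 1)
    {f0 η : E} {σ : ℝ} (hf0 : f0 ≠ 0) (h1 : M f0 = f0) (h2 : M η + σ • f0 = η) :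
    ∃ c : ℝ, η = c • f0 := by
  have h3 : f0 ∈ Module.End.maxGenEigenspace M 1 := by
    rw [Module.End.mem_maxGenEigenspace]
    refine ⟨1, ?_⟩
    simp [h1]
  have h4 : η ∈ Module.End.maxGenEigenspace M 1 := by
    rw [Module.End.mem_maxGenEigenspace]
    refine ⟨2, ?_⟩
    have h5 : (M - (1:ℝ) • 1) η = -(σ • f0) := by
      rw [LinearMap.sub_apply, LinearMap.smul_apply, Module.End.one_apply, one_smul]
      nth_rewrite 2 [← h2]
      abel
    have h6 : (M - (1:ℝ) • 1) f0 = 0 := by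
      rw [LinearMap.sub_apply, LinearMap.smul_apply, Module.End.one_apply, one_smul, h1, sub_self]
    rw [pow_two, Module.End.mul_apply, h5, map_neg, map_smul, h6, smul_zero, neg_zero]
  have h7 : Module.finrank ℝ (Module.End.maxGenEigenspace M 1) = 1 := by
    rw [LinearMap.finrank_maxGenEigenspace_eq, hM]
  obtain ⟨c, hc⟩ := (finrank_eq_one_iff_of_nonzero' (⟨f0, h3⟩ : Module.End.maxGenEigenspace M 1)
    (by intro h; exact hf0 (congrArg Subtype.val h))).1 h7 ⟨η, h4⟩
  exact ⟨c, (congrArg Subtype.val hc).symm⟩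

/-- Simple multiplier one gives nondegeneracy. -/
theorem nd_of_mult [FiniteDimensional ℝ E] (ℓ : E →L[ℝ] ℝ) {f : E → E} (hf : ContDiff ℝ 1 f)
    {y : ℝ → E} {τ : ℝ} (hyc : Continuous y)
    (hy : ∀ t, HasDerivAt y (τ • f (y t)) t) (hper : ∀ t, y (t + 1) = y t)
    {M : E →ₗ[ℝ] E} (hM : ∀ v, ∃ W : ℝ → E, W 0 = v ∧
      (∀ t, HasDerivAt W (τ • fderiv ℝ f (y t) (W t)) t) ∧ W 1 = M v)
    (hmult : M.charpoly.rootMultiplicity 1 = 1) (hℓ : ℓ (f (y 0)) ≠ 0) :
    Function.Bijective (Lop ℓ (dN f hf (resC y hyc)) (Nem f hf.continuous (resC y hyc)) τ) := by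
  have : CompleteSpace E := FiniteDimensional.complete ℝ E
  have hy1 : y 1 = y 0 := by have := hper 0; rwa [zero_add] at this
  have hf0 : f (y 0) ≠ 0 := by
    intro h; apply hℓ; rw [h, map_zero]
  set A := dN f hf (resC y hyc) with hA
  set b := Nem f hf.continuous (resC y hyc) with hb
  -- derivative of `f ∘ y`
  have hfy : ∀ t, HasDerivAt (fun t => f (y t)) (τ • fderiv ℝ f (y t) (f (y t))) t := by
    intro t
    have h1 : HasFDerivAt f (fderiv ℝ f (y t)) (y t) :=
      ((hf.differentiable one_ne_zero).differentiableAt).hasFDerivAt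
    have h2 := h1.comp_hasDerivAt t (hy t)
    rw [map_smul] at h2
    exact h2
  have hfyc : Continuous fun t => f (y t) := hf.continuous.comp hyc
  have hMf0 : M (f (y 0)) = f (y 0) := by
    obtain ⟨W, hW0, hW, hW1⟩ := hM (f (y 0))
    have hWc : Continuous W := continuous_iff_continuousAt.2 fun t => (hW t).continuousAt
    have e1 := volterra_of_sol hf hyc hW hWc
    have e2 := volterra_of_sol hf hyc hfy hfyc
    rw [hW0] at e1
    have e3 : resC W hWc - resC _ hfyc = 0 := by
      apply volterra_inj A τ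
      rw [map_sub, map_sub, smul_sub]
      nth_rewrite 1 [e1, e2]
      abel
    have e4 := congrArg (fun q : CI E => q o1) e3
    have e5 : W 1 - f (y 1) = 0 := e4
    rw [hW1, hy1, sub_eq_zero] at e5
    exact e5
  refine Lop_surj ℓ A b τ ?_
  rintro ⟨h, η, σ⟩ hw
  rw [Lop_apply] at hw
  simp only at hw
  have w1 : h - cst η - τ • VV (mulOp A h) - σ • VV b = 0 := congrArg Prod.fst hw
  have w2 : h o1 - η = 0 := congrArg (fun p => p.2.1) hw
  have w3 : ℓ η = 0 := congrArg (fun p => p.2.2) hw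
  obtain ⟨W, hW0, hW, hW1⟩ := hM η
  have hWc : Continuous W := continuous_iff_continuousAt.2 fun t => (hW t).continuousAt
  have e1 := volterra_of_sol hf hyc hW hWc
  rw [hW0] at e1
  -- the particular solution
  have hp : ∀ t, HasDerivAt (fun t : ℝ => t • f (y t)) (f (y t) + τ • fderiv ℝ f (y t) (t • f (y t))) t := by
    intro t
    have := (hasDerivAt_id t).smul (hfy t)
    refine this.congr_deriv ?_
    simp only [id]
    rw [map_smul, one_smul, smul_comm, add_comm]
  have hpc : Continuous fun t : ℝ => t • f (y t) := continuous_id.smul hfyc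
  have e2 : resC (fun t : ℝ => t • f (y t)) hpc = VV b + τ • VV (mulOp A (resC _ hpc)) := by
    ext1 t
    show (t : ℝ) • f (y t) = VV b t + τ • VV (mulOp A (resC _ hpc)) t
    rw [VV_apply, VV_apply]
    have i1 : ∫ r in (0:ℝ)..(t : ℝ), ext b r = ∫ r in (0:ℝ)..(t : ℝ), f (y r) := by
      refine intervalIntegral.integral_congr fun r hr => ?_
      rw [uIcc_of_le t.2.1] at hr
      have hr' : r ∈ Set.Icc (0:ℝ) 1 := ⟨hr.1, hr.2.trans t.2.2⟩
      rw [ext_mem _ hr']
      rfl
    have i2 : ∫ r in (0:ℝ)..(t : ℝ), ext (mulOp A (resC _ hpc)) r =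
        ∫ r in (0:ℝ)..(t : ℝ), fderiv ℝ f (y r) (r • f (y r)) := by
      refine intervalIntegral.integral_congr fun r hr => ?_
      rw [uIcc_of_le t.2.1] at hr
      have hr' : r ∈ Set.Icc (0:ℝ) 1 := ⟨hr.1, hr.2.trans t.2.2⟩
      rw [ext_mem _ hr']
      rfl
    have c2 : Continuous fun r => fderiv ℝ f (y r) (r • f (y r)) :=
      ((hf.continuous_fderiv one_ne_zero).comp hyc).clm_apply hpc
    have c3 : Continuous fun r => τ • fderiv ℝ f (y r) (r • f (y r)) := c2.const_smul τ
    have h2 := intervalIntegral.integral_eq_sub_of_hasDerivAt (a := 0) (b := (t : ℝ))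
      (fun r _ => hp r) ((hfyc.add c3).intervalIntegrable _ _)
    rw [intervalIntegral.integral_add (hfyc.intervalIntegrable _ _)
      (c3.intervalIntegrable _ _), intervalIntegral.integral_smul] at h2
    rw [i1, i2, h2]
    simp
  have e3 : h - resC W hWc - σ • resC _ hpc = 0 := by
    apply volterra_inj A τ
    have w1' : h = cst η + τ • VV (mulOp A h) + σ • VV b := by
      rw [sub_eq_zero, sub_eq_iff_eq_add, sub_eq_iff_eq_add] at w1
      exact w1.trans (by abel)
    have k1 : τ • VV (mulOp A (h - resC W hWc - σ • resC _ hpc)) = τ • VV (mulOp A h) -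
      τ • VV (mulOp A (resC W hWc)) - σ • (τ • VV (mulOp A (resC _ hpc))) := by
      rw [map_sub, map_sub, map_smul, map_sub, map_sub, map_smul, smul_sub, smul_sub, smul_comm τ σ]
    rw [k1]
    have k2 : τ • VV (mulOp A h) = h - cst η - σ • VV b := by
      nth_rewrite 2 [w1']; abel
    have k3 : τ • VV (mulOp A (resC W hWc)) = resC W hWc - cst η := by
      rw [eq_sub_iff_add_eq, add_comm]; exact e1.symm
    have k4 : τ • VV (mulOp A (resC _ hpc)) = resC _ hpc - VV b := by
      rw [eq_sub_iff_add_eq, add_comm]; exact e2.symm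
    rw [k2, k3, k4, smul_sub]
    abel
  have e4 : h o1 - W 1 - σ • ((1:ℝ) • f (y 1)) = 0 := congrArg (fun q : CI E => q o1) e3
  rw [sub_eq_zero.1 w2, hW1, hy1, one_smul] at e4
  have e5 : M η + σ • f (y 0) = η := by
    rw [sub_sub, sub_eq_zero] at e4
    exact e4.symm
  obtain ⟨c, hc⟩ := ker_one hmult hf0 hMf0 e5
  have hc0 : c = 0 := by
    rw [hc, map_smul, smul_eq_mul] at w3
    exact (mul_eq_zero.1 w3).resolve_right hℓ
  have hη : η = 0 := by rw [hc, hc0, zero_smul]
  have hσ : σ = 0 := by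
    rw [hη, map_zero, zero_add] at e5
    exact (smul_eq_zero.1 e5).resolve_right hf0
  have hh : h = 0 := by
    apply volterra_inj A τ
    rw [hη, hσ, map_zero, zero_smul, sub_zero, sub_zero, sub_eq_zero] at w1
    exact w1
  rw [hh, hη, hσ]
  rfl

end Q66.Rg
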