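import Pool.Agent.Q66.RgDefs

set_option autoImplicit false
open Set Filter Topology

namespace Q66.RigidSynchrony

variable {𝒩 : Network} {k : 𝒩.NT → ℕ}

/-- Nodes. -/
abbrev Nd (𝒩 : Network) := Σ i, 𝒩.Node i

/-! ### The relation `Same` -/

lemma same_refl {m : ℕ} (u : Fin m → ℝ) : Same u u := ⟨rfl, fun _ => rfl⟩

lemma same_iff_eq {m : ℕ} {u v : Fin m → ℝ} : Same u v ↔ u = v :=
  ⟨fun ⟨_, hj⟩ => funext hj, fun h => h ▸ same_refl u⟩

lemma same_symm {m n : ℕ} {u : Fin m → ℝ} {v : Fin n → ℝ} (h : Same u v) : Same v u := by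
  obtain ⟨h1, h2⟩ := h
  subst h1
  exact ⟨rfl, fun j => (h2 j).symm⟩

lemma same_trans {m n l : ℕ} {u : Fin m → ℝ} {v : Fin n → ℝ} {w : Fin l → ℝ} (h : Same u v)
    (h' : Same v w) : Same u w := by
  obtain ⟨h1, h2⟩ := h
  obtain ⟨h3, h4⟩ := h'
  subst h1
  subst h3
  exact ⟨rfl, fun j => (h2 j).trans (h4 j)⟩

lemma same_sub {m n : ℕ} {u u' : Fin m → ℝ} {v v' : Fin n → ℝ} (h : Same u v) (h' : Same u' v') :
    Same (u - u') (v - v') := by
  obtain ⟨h1, h2⟩ := h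
  obtain ⟨_, h4⟩ := h'
  subst h1
  exact ⟨rfl, fun j => by simp only [Pi.sub_apply]; rw [h2 j, h4 j]⟩

lemma same_add {m n : ℕ} {u u' : Fin m → ℝ} {v v' : Fin n → ℝ} (h : Same u v) (h' : Same u' v') :
    Same (u + u') (v + v') := by
  obtain ⟨h1, h2⟩ := h
  obtain ⟨_, h4⟩ := h'
  subst h1
  exact ⟨rfl, fun j => by simp only [Pi.add_apply]; rw [h2 j, h4 j]⟩

lemma same_smul {m n : ℕ} {u : Fin m → ℝ} {v : Fin n → ℝ} (c : ℝ) (h : Same u v) :
    Same (c • u) (c • v) := by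
  obtain ⟨h1, h2⟩ := h
  subst h1
  exact ⟨rfl, fun j => by simp only [Pi.smul_apply]; rw [h2 j]⟩

lemma same_norm {m n : ℕ} {u : Fin m → ℝ} {v : Fin n → ℝ} (h : Same u v) : ‖u‖ = ‖v‖ := by
  obtain ⟨h1, h2⟩ := h
  subst h1
  have : u = v := funext h2
  rw [this]

lemma same_zero {m n : ℕ} (h : m = n) : Same (0 : Fin m → ℝ) (0 : Fin n → ℝ) := by
  subst h; exact same_refl _

lemma same_closed (c d : Nd 𝒩) : IsClosed {w : St 𝒩 k | Same (w c.1 c.2) (w d.1 d.2)} := by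
  by_cases h : k c.1 = k d.1
  · have : {w : St 𝒩 k | Same (w c.1 c.2) (w d.1 d.2)} =
        ⋂ j : Fin (k c.1), {w : St 𝒩 k | w c.1 c.2 j = w d.1 d.2 (Fin.cast h j)} := by
      ext w
      simp only [mem_ofPred_eq, mem_iInter]
      exact ⟨fun ⟨_, h2⟩ => h2, fun h2 => ⟨h, h2⟩⟩
    rw [this]
    exact isClosed_iInter fun j => isClosed_eq (by fun_prop) (by fun_prop)
  · have : {w : St 𝒩 k | Same (w c.1 c.2) (w d.1 d.2)} = ∅ := by
      ext w
      simp only [mem_ofPred_eq, mem_empty_iff_false, iff_false]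
      exact fun ⟨h1, _⟩ => h h1
    rw [this]
    exact isClosed_empty

/-! ### Admissible fields -/

lemma contDiff_coord (i : 𝒩.NT) (c : 𝒩.Node i) : ContDiff ℝ 1 (fun x : St 𝒩 k => x i c) :=
  ((ContinuousLinearMap.proj (R := ℝ) (φ := fun _ : 𝒩.Node i => Fin (k i) → ℝ) c).comp
    (ContinuousLinearMap.proj (R := ℝ) (φ := fun i => 𝒩.Node i → Fin (k i) → ℝ) i)).contDiff

lemma contDiff_inp (i : 𝒩.NT) (c : 𝒩.Node i) :
    ContDiff ℝ 1 (fun x : St 𝒩 k => (x i c, inp x i c)) := by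
  refine ContDiff.prodMk ?_ ?_
  · exact contDiff_coord i c
  · refine contDiff_pi.2 fun a => contDiff_pi.2 fun e => ?_
    exact contDiff_coord (𝒩.src i a) (𝒩.tail i c a e)

lemma Admissible.contDiff {f : St 𝒩 k → St 𝒩 k} (h : Admissible f) : ContDiff ℝ 1 f := by
  obtain ⟨F, ⟨h1, -⟩, h3⟩ := h
  refine contDiff_pi.2 fun i => contDiff_pi.2 fun c => ?_
  have : (fun x => f x i c) = fun x => F i c (x i c, inp x i c) := funext fun x => h1 x i c
  rw [this]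
  exact (h3 i c).comp (contDiff_inp i c)

lemma Admissible.weakly {f : St 𝒩 k → St 𝒩 k} (h : Admissible f) : WeaklyAdmissible f := by
  refine ⟨h.contDiff, ?_⟩
  obtain ⟨F, h1, -⟩ := h
  exact ⟨F, h1⟩

lemma Represents.add {F G : ∀ (i : 𝒩.NT) (c : 𝒩.Node i), (Fin (k i) → ℝ) × InSt 𝒩 k i c → Fin (k i) → ℝ}
    {f g : St 𝒩 k → St 𝒩 k} (hf : Represents F f) (hg : Represents G g) (s : ℝ) :
    Represents (fun i c z => F i c z + s • G i c z) (fun x => f x + s • g x) := by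
  refine ⟨fun x i c => ?_, fun i c d β y z => ?_⟩
  · show f x i c + s • g x i c = _
    rw [hf.1, hg.1]
  · simp only
    rw [hf.2 i c d β, hg.2 i c d β]

lemma Admissible.add {f g : St 𝒩 k → St 𝒩 k} (hf : Admissible f) (hg : Admissible g) (s : ℝ) :
    Admissible (fun x => f x + s • g x) := by
  obtain ⟨F, h1, h2⟩ := hf
  obtain ⟨G, h3, h4⟩ := hg
  exact ⟨_, h1.add h3 s, fun i c => (h2 i c).add ((h4 i c).const_smul s)⟩

lemma WeaklyAdmissible.add {f g : St 𝒩 k → St 𝒩 k} (hf : WeaklyAdmissible f) (hg : WeaklyAdmissible g)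
    (s : ℝ) : WeaklyAdmissible (fun x => f x + s • g x) := by
  obtain ⟨h0, F, h1⟩ := hf
  obtain ⟨h2, G, h3⟩ := hg
  exact ⟨h0.add (h2.const_smul s), _, h1.add h3 s⟩

/-- Bounded admissible perturbations. -/
def GG (g : St 𝒩 k → St 𝒩 k) : Prop :=
  Admissible g ∧ ∃ B : NNReal, (∀ x, ‖g x‖ ≤ B) ∧ LipschitzWith B g

lemma GG.add_smul {f g : St 𝒩 k → St 𝒩 k} (hf : GG f) (hg : GG g) (s : ℝ) :
    GG (fun x => f x + s • g x) := by
  obtain ⟨h1, B, h2, h3⟩ := hf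
  obtain ⟨h4, B', h5, h6⟩ := hg
  refine ⟨h1.add h4 s, B + ‖s‖₊ * B', fun x => ?_, ?_⟩
  · refine (norm_add_le _ _).trans ?_
    rw [norm_smul]
    push_cast
    exact add_le_add (h2 x) (mul_le_mul_of_nonneg_left (h5 x) (norm_nonneg _))
  · exact h3.add ((lipschitzWith_smul s).comp h6)

lemma GG.zero : GG (fun _ => 0 : St 𝒩 k → St 𝒩 k) := by
  refine ⟨⟨fun _ _ _ => 0, ⟨fun _ _ _ => rfl, fun _ _ _ _ _ _ => rfl⟩, fun _ _ => contDiff_const⟩,
    0, fun x => by simp, LipschitzWith.const' 0⟩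

lemma GG.fderiv_le {g : St 𝒩 k → St 𝒩 k} (hg : GG g) : ∃ B : ℝ, 0 ≤ B ∧ (∀ x, ‖g x‖ ≤ B) ∧
    ∀ x, ‖fderiv ℝ g x‖ ≤ B := by
  obtain ⟨h1, B, h2, h3⟩ := hg
  exact ⟨B, B.2, h2, fun x => norm_fderiv_le_of_lipschitz ℝ h3⟩

/-! ### The invariant subspaces of balanced relations -/

/-- The states which respect a relation. -/
def Respects (R : Rel 𝒩) (x : St 𝒩 k) : Prop := ∀ c d, R c d → Same (x c.1 c.2) (x d.1 d.2)

lemma respects_field {R : Rel 𝒩} (hR : Balanced R) {f : St 𝒩 k → St 𝒩 k} (hf : WeaklyAdmissible f)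
    {x : St 𝒩 k} (hx : Respects R x) : Respects R (f x) := by
  obtain ⟨-, F, h1, h2⟩ := hf
  rintro ⟨i, c⟩ ⟨j, d⟩ hcd
  have hij : i = j := hR.1 _ _ hcd
  subst hij
  obtain ⟨β, hβ⟩ := hR.2 i c d hcd
  have e1 : x i c = x i d := same_iff_eq.1 (hx _ _ hcd)
  have e2 : (fun a e => inp x i d a (β a e)) = inp x i c := by
    funext a e
    have h3 := hx _ _ (hβ a e)
    exact (same_iff_eq.1 h3).symm
  refine same_iff_eq.2 ?_
  show f x i c = f x i d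
  rw [h1, h1, h2 i c d β, e1, e2]

end Q66.RigidSynchrony
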