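import Pool.Agent.Q66.RgBump
import Pool.Agent.Q66.Rg4

set_option autoImplicit false
open Set Filter Topology MeasureTheory Q66.Rg

namespace Q66.RigidSynchrony

variable {𝒩 : Network} {k : 𝒩.NT → ℕ}

lemma norm_cp_le (w : St 𝒩 k) (i : 𝒩.NT) (c : 𝒩.Node i) : ‖w i c‖ ≤ ‖w‖ :=
  (norm_le_pi_norm (w i) c).trans (norm_le_pi_norm w i)

lemma hasDerivAt_cp {γ : ℝ → St 𝒩 k} {v : St 𝒩 k} {t : ℝ} (hγ : HasDerivAt γ v t) (i : 𝒩.NT)
    (c : 𝒩.Node i) (j : Fin (k i)) : HasDerivAt (fun r => γ r i c j) (v i c j) t :=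
  hasDerivAt_pi.1 (hasDerivAt_pi.1 (hasDerivAt_pi.1 hγ i) c) j

lemma same_deriv {γ : ℝ → St 𝒩 k} {v : St 𝒩 k} {t : ℝ} (hγ : HasDerivAt γ v t) {c d : Nd 𝒩}
    (h : ∀ᶠ r in 𝓝 t, Same (γ r c.1 c.2) (γ r d.1 d.2)) : Same (v c.1 c.2) (v d.1 d.2) := by
  obtain ⟨h0, -⟩ := h.self_of_nhds
  refine ⟨h0, fun j => ?_⟩
  have hc := hasDerivAt_cp hγ c.1 c.2 j
  have hd := hasDerivAt_cp hγ d.1 d.2 (Fin.cast h0 j)
  have heq : (fun r => γ r c.1 c.2 j) =ᶠ[𝓝 t] fun r => γ r d.1 d.2 (Fin.cast h0 j) := by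
    filter_upwards [h] with r hr
    obtain ⟨_, h2⟩ := hr
    exact h2 j
  exact (hc.congr_of_eventuallyEq heq.symm).unique hd

lemma ext_deriv {f : St 𝒩 k → St 𝒩 k} {hf : Continuous f} {u : CI (St 𝒩 k)} {τ : ℝ}
    (ho : Orb f hf u τ) {t : ℝ} (h0 : 0 < t) (h1 : t < 1) :
    HasDerivAt (ext u) (τ • f (ext u t)) t := by
  have h2 := perx_sol ho t
  rw [perx_eq ho.per ⟨h0.le, h1.le⟩] at h2
  refine h2.congr_of_eventuallyEq ?_
  filter_upwards [Ioo_mem_nhds h0 h1] with r hr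
  exact (perx_eq ho.per ⟨hr.1.le, hr.2.le⟩).symm

/-- The local situation at a minimal pattern. -/
structure Loc (f : St 𝒩 k → St 𝒩 k) (hf : ContDiff ℝ 1 f) (u : CI (St 𝒩 k)) (τ t0 η K : ℝ) :
    Prop where
  wad : WeaklyAdmissible f
  orb : Orb f hf.continuous u τ
  K0 : 0 ≤ K
  η0 : 0 < η
  sub : ∀ t, |t - t0| < η → 0 < t ∧ t < 1
  pat : ∀ t, |t - t0| < η → ∀ c d : Nd 𝒩,
    Same (ext u t c.1 c.2) (ext u t d.1 d.2) ↔ Same (ext u t0 c.1 c.2) (ext u t0 d.1 d.2)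
  st : ∀ t, |t - t0| < η → ∀ c : Nd 𝒩,
    f (ext u t) c.1 c.2 = 0 ↔ f (ext u t0) c.1 c.2 = 0
  pert : ∀ (g : St 𝒩 k → St 𝒩 k) (hg : GG g) (ε : ℝ), 0 < ε → ∀ᶠ s in 𝓝 (0:ℝ),
    ∃ (u' : CI (St 𝒩 k)) (τ' : ℝ),
      Orb (pf f g s) (pf_contDiff hf hg.1.contDiff s).continuous u' τ' ∧
      ‖u' - u‖ ≤ |s| * (K * ‖VV (Nem g hg.1.contDiff.continuous u)‖ + ε) ∧
      (∀ t, |t - t0| < η → ∀ c d : Nd 𝒩, Same (ext u t0 c.1 c.2) (ext u t0 d.1 d.2) →
        Same (ext u' t c.1 c.2) (ext u' t d.1 d.2)) ∧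
      (∀ t, |t - t0| < η → ∀ c : Nd 𝒩, f (ext u t0) c.1 c.2 = 0 →
        pf f g s (ext u' t) c.1 c.2 = 0)

lemma near_J {t0 η t : ℝ} (ht : |t - t0| < η) : ∀ᶠ r in 𝓝 t, |r - t0| < η :=
  (isOpen_lt (by fun_prop : Continuous fun r : ℝ => |r - t0|) continuous_const).mem_nhds ht

/-- synchronous nodes have the same velocities -/
lemma Loc.same_f {f : St 𝒩 k → St 𝒩 k} {hf : ContDiff ℝ 1 f} {u : CI (St 𝒩 k)} {τ t0 η K : ℝ}
    (H : Loc f hf u τ t0 η K) {t : ℝ} (ht : |t - t0| < η) {c d : Nd 𝒩}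
    (hP : Same (ext u t0 c.1 c.2) (ext u t0 d.1 d.2)) :
    Same (f (ext u t) c.1 c.2) (f (ext u t) d.1 d.2) := by
  obtain ⟨h0, h1⟩ := H.sub t ht
  have h2 := same_deriv (c := c) (d := d) (ext_deriv H.orb h0 h1) (by
    filter_upwards [near_J ht] with r hr
    exact (H.pat r hr c d).2 hP)
  have h3 := same_smul τ⁻¹ h2
  have h4 : ∀ (c : Nd 𝒩), τ⁻¹ • ((τ • f (ext u t)) c.1 c.2) = f (ext u t) c.1 c.2 := by
    intro c
    show τ⁻¹ • (τ • f (ext u t) c.1 c.2) = _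
    rw [smul_smul, inv_mul_cancel₀ H.orb.pos.ne', one_smul]
  rwa [h4, h4] at h3

lemma Loc.stat_iff {f : St 𝒩 k → St 𝒩 k} {hf : ContDiff ℝ 1 f} {u : CI (St 𝒩 k)} {τ t0 η K : ℝ}
    (H : Loc f hf u τ t0 η K) {c d : Nd 𝒩} (hP : Same (ext u t0 c.1 c.2) (ext u t0 d.1 d.2)) :
    f (ext u t0) c.1 c.2 = 0 ↔ f (ext u t0) d.1 d.2 = 0 := by
  have h := same_norm (H.same_f (t := t0) (by simpa using H.η0) hP)
  rw [← norm_eq_zero, h, norm_eq_zero]

lemma nem_lip {f : St 𝒩 k → St 𝒩 k} (hf : ContDiff ℝ 1 f) (u : CI (St 𝒩 k)) :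
    ∃ L ρ : ℝ, 0 ≤ L ∧ 0 < ρ ∧ ∀ u', ‖u' - u‖ < ρ → ∀ t,
      ‖f (ext u' t) - f (ext u t)‖ ≤ L * ‖u' - u‖ := by
  obtain ⟨L, hL0, hL⟩ := (nem_strict f hf u).hasFDerivAt.isBigO_sub.exists_nonneg
  rw [Asymptotics.IsBigOWith] at hL
  obtain ⟨ρ, hρ, h⟩ := Metric.eventually_nhds_iff.1 hL
  refine ⟨L, ρ, hL0, hρ, fun u' hu' t => ?_⟩
  have h1 := h (y := u') (by rw [dist_eq_norm]; exact hu')
  refine le_trans ?_ h1
  have h2 := norm_ext_le (Nem f hf.continuous u' - Nem f hf.continuous u) t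
  exact h2

theorem Loc.key {f : St 𝒩 k → St 𝒩 k} {hf : ContDiff ℝ 1 f} {u : CI (St 𝒩 k)} {τ t0 η K : ℝ}
    (H : Loc f hf u τ t0 η K) : ∃ Λ : ℝ, 0 ≤ Λ ∧ ∀ (g : St 𝒩 k → St 𝒩 k) (hg : GG g) (t : ℝ),
      |t - t0| < η →
      (∀ c d : Nd 𝒩, Same (ext u t0 c.1 c.2) (ext u t0 d.1 d.2) →
        ‖g (ext u t) c.1 c.2‖ ≤ ‖g (ext u t) d.1 d.2‖ +
          Λ * ‖VV (Nem g hg.1.contDiff.continuous u)‖) ∧
      (∀ c : Nd 𝒩, f (ext u t0) c.1 c.2 = 0 →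
        ‖g (ext u t) c.1 c.2‖ ≤ Λ * ‖VV (Nem g hg.1.contDiff.continuous u)‖) := by
  obtain ⟨L, ρ, hL0, hρ, hL⟩ := nem_lip hf u
  refine ⟨2 * L * K, by have := H.K0; positivity, fun g hg t ht => ?_⟩
  set q := ‖VV (Nem g hg.1.contDiff.continuous u)‖ with hq
  have hq0 : 0 ≤ q := norm_nonneg _
  have hK0 := H.K0
  obtain ⟨-, B, hB1, hB2⟩ := id hg
  -- for every ε there is a good s
  have main : ∀ ε : ℝ, 0 < ε → ∃ (s : ℝ) (u' : CI (St 𝒩 k)) (τ' : ℝ), 0 < |s| ∧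
      Orb (pf f g s) (pf_contDiff hf hg.1.contDiff s).continuous u' τ' ∧
      ‖f (ext u' t) - f (ext u t)‖ ≤ |s| * (L * (K * q + ε)) ∧
      ‖g (ext u' t) - g (ext u t)‖ ≤ ε ∧
      (∀ t, |t - t0| < η → ∀ c d : Nd 𝒩, Same (ext u t0 c.1 c.2) (ext u t0 d.1 d.2) →
        Same (ext u' t c.1 c.2) (ext u' t d.1 d.2)) ∧
      (∀ t, |t - t0| < η → ∀ c : Nd 𝒩, f (ext u t0) c.1 c.2 = 0 →
        pf f g s (ext u' t) c.1 c.2 = 0) := by
    intro ε hε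
    have hKq : 0 < K * q + ε := by positivity
    have htd : Tendsto (fun s : ℝ => |s| * (K * q + ε)) (𝓝 0) (𝓝 0) := by
      have : Continuous fun s : ℝ => |s| * (K * q + ε) := by fun_prop
      simpa using this.tendsto 0
    have e1 : ∀ᶠ s in 𝓝 (0:ℝ), |s| * (K * q + ε) < ρ := htd.eventually (gt_mem_nhds hρ)
    have e2 : ∀ᶠ s in 𝓝 (0:ℝ), |s| * (K * q + ε) < ε / (B + 1) :=
      htd.eventually (gt_mem_nhds (by positivity))
    have e3 := (H.pert g hg ε hε).and (e1.and e2)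
    have e4 : ∀ᶠ s in 𝓝[≠] (0:ℝ), s ≠ 0 := self_mem_nhdsWithin
    obtain ⟨s, ⟨⟨u', τ', h1, h2, h3, h4⟩, h5, h6⟩, h7⟩ :=
      ((e3.filter_mono nhdsWithin_le_nhds).and e4).exists
    refine ⟨s, u', τ', abs_pos.2 h7, h1, ?_, ?_, h3, h4⟩
    · refine (hL u' (h2.trans_lt h5) t).trans ?_
      calc L * ‖u' - u‖ ≤ L * (|s| * (K * q + ε)) := mul_le_mul_of_nonneg_left h2 hL0
        _ = _ := by ring
    · have h8 := hB2.dist_le_mul (ext u' t) (ext u t)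
      rw [dist_eq_norm, dist_eq_norm] at h8
      have h9 : ‖ext u' t - ext u t‖ ≤ ‖u' - u‖ := norm_ext_le (u' - u) t
      have h10 : ‖ext u' t - ext u t‖ ≤ ε / (B + 1) := h9.trans (h2.trans h6.le)
      have hB0 : (0:ℝ) ≤ B := B.2
      calc ‖g (ext u' t) - g (ext u t)‖ ≤ B * (ε / (B + 1)) :=
            h8.trans (mul_le_mul_of_nonneg_left h10 hB0)
        _ ≤ (B + 1) * (ε / (B + 1)) := by gcongr; linarith
        _ = ε := by field_simp
  obtain ⟨ht0, ht1⟩ := H.sub t ht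
  constructor
  · intro c d hP
    have hf1 := H.same_f ht hP
    have hlim : ∀ ε : ℝ, 0 < ε → ‖g (ext u t) c.1 c.2‖ ≤
        ‖g (ext u t) d.1 d.2‖ + 2 * L * K * q + (2 * L + 2) * ε := by
      intro ε hε
      obtain ⟨s, u', τ', hs, ho, h1, h2, h3, -⟩ := main ε hε
      have h4 : Same (pf f g s (ext u' t) c.1 c.2) (pf f g s (ext u' t) d.1 d.2) := by
        have h5 := same_deriv (c := c) (d := d) (ext_deriv ho ht0 ht1) (by
          filter_upwards [near_J ht] with r hr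
          exact h3 r hr c d hP)
        have h6 := same_smul τ'⁻¹ h5
        have h7 : ∀ (c : Nd 𝒩), τ'⁻¹ • ((τ' • pf f g s (ext u' t)) c.1 c.2) =
            pf f g s (ext u' t) c.1 c.2 := by
          intro c
          show τ'⁻¹ • (τ' • pf f g s (ext u' t) c.1 c.2) = _
          rw [smul_smul, inv_mul_cancel₀ ho.pos.ne', one_smul]
        rwa [h7, h7] at h6
      have h5 := same_norm (same_sub h4 hf1)
      set X : St 𝒩 k := f (ext u' t) - f (ext u t) with hX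
      have h6 : ∀ c : Nd 𝒩, pf f g s (ext u' t) c.1 c.2 - f (ext u t) c.1 c.2 =
          X c.1 c.2 + s • g (ext u' t) c.1 c.2 := by
        intro c
        show f (ext u' t) c.1 c.2 + s • g (ext u' t) c.1 c.2 - f (ext u t) c.1 c.2 =
          (f (ext u' t) c.1 c.2 - f (ext u t) c.1 c.2) + s • g (ext u' t) c.1 c.2
        abel
      rw [h6, h6] at h5
      have h7 : ‖X c.1 c.2‖ ≤ |s| * (L * (K * q + ε)) := (norm_cp_le X _ _).trans h1
      have h8 : ‖X d.1 d.2‖ ≤ |s| * (L * (K * q + ε)) := (norm_cp_le X _ _).trans h1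
      have h9 : ‖s • g (ext u' t) c.1 c.2‖ ≤
          ‖X c.1 c.2 + s • g (ext u' t) c.1 c.2‖ + ‖X c.1 c.2‖ := by
        have := norm_sub_le (X c.1 c.2 + s • g (ext u' t) c.1 c.2) (X c.1 c.2)
        rwa [add_sub_cancel_left] at this
      have h10 := norm_add_le (X d.1 d.2) (s • g (ext u' t) d.1 d.2)
      rw [norm_smul, Real.norm_eq_abs] at h9 h10
      have h11 : |s| * ‖g (ext u' t) c.1 c.2‖ ≤
          |s| * (‖g (ext u' t) d.1 d.2‖ + 2 * (L * (K * q + ε))) := by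
        have : |s| * (‖g (ext u' t) d.1 d.2‖ + 2 * (L * (K * q + ε))) =
          |s| * ‖g (ext u' t) d.1 d.2‖ + (|s| * (L * (K * q + ε)) + |s| * (L * (K * q + ε))) := by
          ring
        rw [this]
        linarith
      have h12 := le_of_mul_le_mul_left h11 hs
      set Y : St 𝒩 k := g (ext u' t) - g (ext u t) with hY
      have h13 : ‖Y c.1 c.2‖ ≤ ε := (norm_cp_le Y _ _).trans h2
      have h14 : ‖Y d.1 d.2‖ ≤ ε := (norm_cp_le Y _ _).trans h2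
      have h15 : ‖g (ext u t) c.1 c.2‖ ≤ ‖g (ext u' t) c.1 c.2‖ + ‖Y c.1 c.2‖ := by
        have := norm_sub_le (g (ext u' t) c.1 c.2) (Y c.1 c.2)
        have e : g (ext u' t) c.1 c.2 - Y c.1 c.2 = g (ext u t) c.1 c.2 := by
          show g (ext u' t) c.1 c.2 - (g (ext u' t) c.1 c.2 - g (ext u t) c.1 c.2) = _
          abel
        rwa [e] at this
      have h16 : ‖g (ext u' t) d.1 d.2‖ ≤ ‖g (ext u t) d.1 d.2‖ + ‖Y d.1 d.2‖ := by
        have := norm_add_le (g (ext u t) d.1 d.2) (Y d.1 d.2)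
        have e : g (ext u t) d.1 d.2 + Y d.1 d.2 = g (ext u' t) d.1 d.2 := by
          show g (ext u t) d.1 d.2 + (g (ext u' t) d.1 d.2 - g (ext u t) d.1 d.2) = _
          abel
        rwa [e] at this
      nlinarith
    refine le_of_forall_pos_le_add fun ε hε => ?_
    have hL2 : 0 < 2 * L + 2 := by positivity
    have h1 := hlim (ε / (2 * L + 2)) (by positivity)
    rwa [mul_div_cancel₀ _ hL2.ne'] at h1
  · intro c hS
    have hf1 := (H.st t ht c).2 hS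
    have hlim : ∀ ε : ℝ, 0 < ε → ‖g (ext u t) c.1 c.2‖ ≤
        2 * L * K * q + (2 * L + 2) * ε := by
      intro ε hε
      obtain ⟨s, u', τ', hs, ho, h1, h2, -, h3⟩ := main ε hε
      have h4 := h3 t ht c hS
      set X : St 𝒩 k := f (ext u' t) - f (ext u t) with hX
      have h5 : s • g (ext u' t) c.1 c.2 = - X c.1 c.2 := by
        have h6 : f (ext u' t) c.1 c.2 + s • g (ext u' t) c.1 c.2 = 0 := h4
        show _ = - (f (ext u' t) c.1 c.2 - f (ext u t) c.1 c.2)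
        rw [hf1, sub_zero]
        exact eq_neg_of_add_eq_zero_right h6
      have h7 : ‖X c.1 c.2‖ ≤ |s| * (L * (K * q + ε)) := (norm_cp_le X _ _).trans h1
      have h8 := congrArg norm h5
      rw [norm_neg, norm_smul, Real.norm_eq_abs] at h8
      rw [← h8] at h7
      have h12 := le_of_mul_le_mul_left h7 hs
      set Y : St 𝒩 k := g (ext u' t) - g (ext u t) with hY
      have h13 : ‖Y c.1 c.2‖ ≤ ε := (norm_cp_le Y _ _).trans h2
      have h15 : ‖g (ext u t) c.1 c.2‖ ≤ ‖g (ext u' t) c.1 c.2‖ + ‖Y c.1 c.2‖ := by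
        have := norm_sub_le (g (ext u' t) c.1 c.2) (Y c.1 c.2)
        have e : g (ext u' t) c.1 c.2 - Y c.1 c.2 = g (ext u t) c.1 c.2 := by
          show g (ext u' t) c.1 c.2 - (g (ext u' t) c.1 c.2 - g (ext u t) c.1 c.2) = _
          abel
        rwa [e] at this
      have h17 : 0 ≤ L * (K * q) := by positivity
      have h18 : 0 ≤ L * ε := by positivity
      nlinarith
    refine le_of_forall_pos_le_add fun ε hε => ?_
    have hL2 : 0 < 2 * L + 2 := by positivity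
    have h1 := hlim (ε / (2 * L + 2)) (by positivity)
    rwa [mul_div_cancel₀ _ hL2.ne'] at h1

end Q66.RigidSynchrony
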