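import Pool.Agent.Q66.RgB1

set_option autoImplicit false
open Set Filter Topology MeasureTheory Q66.Rg

namespace Q66.RigidSynchrony

variable {𝒩 : Network} {k : 𝒩.NT → ℕ}

lemma cont_cp (u : CI (St 𝒩 k)) (i : 𝒩.NT) (c : 𝒩.Node i) : Continuous fun r => ext u r i c :=
  (continuous_apply c).comp ((continuous_apply i).comp (ext_cont u))

lemma Loc.exists_time {f : St 𝒩 k → St 𝒩 k} {hf : ContDiff ℝ 1 f} {u : CI (St 𝒩 k)} {τ t0 η K : ℝ}
    (H : Loc f hf u τ t0 η K) {c : Nd 𝒩} (hc : f (ext u t0) c.1 c.2 ≠ 0) :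
    ∃ t1, |t1 - t0| < η ∧ ∀ l : 𝒩.Node c.1,
      volume {r | r ∈ Set.Icc (0:ℝ) 1 ∧ ext u r c.1 l = ext u t1 c.1 c.2} = 0 := by
  obtain ⟨j, hj⟩ : ∃ j, f (ext u t0) c.1 c.2 j ≠ 0 := by
    by_contra h
    push Not at h
    exact hc (funext h)
  have hJ0 : |t0 - t0| < η := by simpa using H.η0
  obtain ⟨h0, h1⟩ := H.sub t0 hJ0
  have hd := hasDerivAt_cp (ext_deriv H.orb h0 h1) c.1 c.2 j
  have hne : (τ • f (ext u t0)) c.1 c.2 j ≠ 0 := by
    show τ * f (ext u t0) c.1 c.2 j ≠ 0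
    exact mul_ne_zero H.orb.pos.ne' hj
  have e1 : ∀ᶠ r in 𝓝[≠] t0, ext u r c.1 c.2 j ≠ ext u t0 c.1 c.2 j := hd.eventually_ne hne
  have e2 := (near_J hJ0).filter_mono (nhdsWithin_le_nhds (s := {t0}ᶜ))
  obtain ⟨t2, h2, h3⟩ := (e1.and e2).exists
  -- the countable set of bad values
  have hcount : ∀ l : 𝒩.Node c.1, Set.Countable {v : ℝ |
      0 < (volume.restrict (Set.Icc (0:ℝ) 1)) {r : ℝ | ext u r c.1 l j = v}} := by
    intro l
    refine Measure.countable_meas_level_set_pos (μ := volume.restrict (Set.Icc (0:ℝ) 1))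
      (g := fun r => ext u r c.1 l j) ?_
    exact ((continuous_apply j).comp (cont_cp u c.1 l)).measurable
  have hcU : Set.Countable (⋃ l : 𝒩.Node c.1, {v : ℝ |
      0 < (volume.restrict (Set.Icc (0:ℝ) 1)) {r : ℝ | ext u r c.1 l j = v}}) :=
    Set.countable_iUnion hcount
  have hiv := intermediate_value_uIcc (f := fun r => ext u r c.1 c.2 j) (a := t0) (b := t2)
    ((continuous_apply j).comp (cont_cp u c.1 c.2)).continuousOn
  have hnc : ∃ v ∈ Set.uIcc (ext u t0 c.1 c.2 j) (ext u t2 c.1 c.2 j), v ∉ (⋃ l : 𝒩.Node c.1, {v : ℝ |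
      0 < (volume.restrict (Set.Icc (0:ℝ) 1)) {r : ℝ | ext u r c.1 l j = v}}) := by
    by_contra hcon
    push Not at hcon
    have h4 : volume (Set.uIcc (ext u t0 c.1 c.2 j) (ext u t2 c.1 c.2 j)) = 0 :=
      (hcU.mono hcon).measure_zero volume
    rw [Real.volume_interval, ENNReal.ofReal_eq_zero] at h4
    have h5 : 0 < |ext u t2 c.1 c.2 j - ext u t0 c.1 c.2 j| := abs_pos.2 (sub_ne_zero.2 h2)
    linarith
  obtain ⟨v, hv1, hv2⟩ := hnc
  obtain ⟨t1, ht1, hv3⟩ := hiv hv1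
  simp only at hv3
  refine ⟨t1, ?_, fun l => ?_⟩
  · have h4 : |t1 - t0| ≤ |t2 - t0| := Set.abs_sub_left_of_mem_uIcc ht1
    exact h4.trans_lt h3
  · have h4 : (volume.restrict (Set.Icc (0:ℝ) 1)) {r : ℝ | ext u r c.1 l j = v} = 0 := by
      by_contra h
      exact hv2 (Set.mem_iUnion.2 ⟨l, pos_iff_ne_zero.2 h⟩)
    refine measure_mono_null ?_ (le_antisymm
      ((Measure.le_restrict_apply (Set.Icc (0:ℝ) 1) {r : ℝ | ext u r c.1 l j = v}).trans_eq h4) zero_le)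
    rintro r ⟨hr1, hr2⟩
    refine ⟨?_, hr1⟩
    show ext u r c.1 l j = v
    rw [hr2, hv3]

lemma mass_small (u : CI (St 𝒩 k)) (j : 𝒩.NT) (b : Fin (k j) → ℝ)
    (hb : ∀ l : 𝒩.Node j, volume {r | r ∈ Set.Icc (0:ℝ) 1 ∧ ext u r j l = b} = 0) {θ : ℝ}
    (hθ : 0 < θ) : ∃ ε1 > 0, ∀ ε, ε ≤ ε1 →
      (volume {r | r ∈ Set.Icc (0:ℝ) 1 ∧ ∃ l : 𝒩.Node j, ‖ext u r j l - b‖ < ε}).toReal < θ := by
  set A : ℝ → Set ℝ := fun ε => {r | r ∈ Set.Icc (0:ℝ) 1 ∧ ∃ l : 𝒩.Node j, ‖ext u r j l - b‖ < ε} with hA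
  have hmono : ∀ ε ε', ε ≤ ε' → A ε ⊆ A ε' := by
    rintro ε ε' h r ⟨h1, l, h2⟩
    exact ⟨h1, l, h2.trans_le h⟩
  have hfin : ∀ ε, volume (A ε) ≠ ⊤ := by
    intro ε
    refine ne_top_of_le_ne_top ?_ (measure_mono (fun r hr => hr.1) : volume (A ε) ≤ volume (Set.Icc (0:ℝ) 1))
    simp
  have hmeas : ∀ ε, MeasurableSet (A ε) := by
    intro ε
    have : A ε = Set.Icc (0:ℝ) 1 ∩ ⋃ l : 𝒩.Node j, {r | ‖ext u r j l - b‖ < ε} := by
      ext r
      simp only [hA, mem_inter_iff, mem_iUnion, mem_ofPred_eq]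
    rw [this]
    refine measurableSet_Icc.inter (MeasurableSet.iUnion fun l => ?_)
    exact (isOpen_lt ((cont_cp u j l).sub continuous_const).norm continuous_const).measurableSet
  have hlim := tendsto_measure_iInter_atTop (μ := volume) (s := fun n : ℕ => A (1 / ((n:ℝ) + 1)))
    (fun n => (hmeas _).nullMeasurableSet) (fun n m hnm => hmono _ _ (by
      have : (n:ℝ) ≤ m := by exact_mod_cast hnm
      gcongr)) ⟨0, hfin _⟩
  have hzero : volume (⋂ n : ℕ, A (1 / ((n:ℝ) + 1))) = 0 := by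
    refine measure_mono_null (t := ⋃ l : 𝒩.Node j, {r | r ∈ Set.Icc (0:ℝ) 1 ∧ ext u r j l = b}) ?_
      (measure_iUnion_null hb)
    intro r hr
    rw [mem_iInter] at hr
    by_contra hcon
    rw [mem_iUnion] at hcon
    push Not at hcon
    have h1 : ∀ l : 𝒩.Node j, 0 < ‖ext u r j l - b‖ := by
      intro l
      rw [norm_pos_iff, sub_ne_zero]
      intro h
      exact hcon l ⟨(hr 0).1, h⟩
    have h2 : ∀ᶠ n : ℕ in atTop, ∀ l : 𝒩.Node j, 1 / ((n:ℝ) + 1) < ‖ext u r j l - b‖ :=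
      eventually_all.2 fun l => tendsto_one_div_add_atTop_nhds_zero_nat.eventually
        (gt_mem_nhds (h1 l))
    obtain ⟨n, hn⟩ := h2.exists
    obtain ⟨-, l, hl⟩ := hr n
    exact absurd hl (not_lt.2 (hn l).le)
  rw [hzero] at hlim
  have hlim2 := (ENNReal.tendsto_toReal ENNReal.zero_ne_top).comp hlim
  have h3 : ∀ᶠ n : ℕ in atTop, (volume (A (1 / ((n:ℝ) + 1)))).toReal < θ :=
    hlim2.eventually (gt_mem_nhds (by simpa using hθ))
  obtain ⟨n, hn⟩ := h3.exists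
  refine ⟨1 / ((n:ℝ) + 1), by positivity, fun ε hε => ?_⟩
  refine lt_of_le_of_lt ?_ hn
  exact ENNReal.toReal_mono (hfin _) (measure_mono (hmono _ _ hε))

lemma bump_mass (u : CI (St 𝒩 k)) (w : St 𝒩 k) (i : 𝒩.NT) (c : 𝒩.Node i) (j : 𝒩.NT)
    (b : Fin (k j) → ℝ)
    (hb : ∀ l : 𝒩.Node j, volume {r | r ∈ Set.Icc (0:ℝ) 1 ∧ ext u r j l = b} = 0)
    (hloc : ∀ (ε : ℝ) (hε : 0 < ε) (r : ℝ) (d : 𝒩.Node i),
      bS w i c hε d (ext u r i d, inp (ext u r) i d) ≠ 0 → ∃ l : 𝒩.Node j, ‖ext u r j l - b‖ < ε)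
    {θ : ℝ} (hθ : 0 < θ) : ∃ ε1 > 0, ∀ (ε : ℝ) (hε : 0 < ε), ε ≤ ε1 → ∀ v : Fin (k i) → ℝ, ‖v‖ ≤ 1 →
      ‖VV (Nem (bG w i c hε v) (bG_GG w i c hε v).1.contDiff.continuous u)‖ ≤ θ := by
  set C : ℝ := ∑ d : 𝒩.Node i, (Fintype.card (InIso 𝒩 i c d) : ℝ) with hC
  have hC0 : 0 ≤ C := Finset.sum_nonneg fun _ _ => Nat.cast_nonneg _
  obtain ⟨ε1, hε1, h1⟩ := mass_small u j b hb (θ := θ / (C + 1)) (by positivity)
  refine ⟨ε1, hε1, fun ε hε hle v hv => ?_⟩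
  have h2 := h1 ε hle
  set A : Set ℝ := {r | r ∈ Set.Icc (0:ℝ) 1 ∧ ∃ l : 𝒩.Node j, ‖ext u r j l - b‖ < ε} with hA
  have hmeas : MeasurableSet A := by
    have : A = Set.Icc (0:ℝ) 1 ∩ ⋃ l : 𝒩.Node j, {r | ‖ext u r j l - b‖ < ε} := by
      ext r
      simp only [hA, mem_inter_iff, mem_iUnion, mem_ofPred_eq]
    rw [this]
    refine measurableSet_Icc.inter (MeasurableSet.iUnion fun l => ?_)
    exact (isOpen_lt ((cont_cp u j l).sub continuous_const).norm continuous_const).measurableSet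
  have hAfin : volume A ≠ ⊤ := by
    refine ne_top_of_le_ne_top ?_ (measure_mono (fun r hr => hr.1) : volume A ≤ volume (Set.Icc (0:ℝ) 1))
    simp
  set q := Nem (bG w i c hε v) (bG_GG w i c hε v).1.contDiff.continuous u with hq
  refine (VV_norm_le_int q).trans ?_
  have hpt : ∀ r ∈ Set.Ioc (0:ℝ) 1, ‖ext q r‖ ≤ A.indicator (fun _ => C) r := by
    intro r hr
    have e : ext q r = bG w i c hε v (ext u r) := rfl
    rw [e]
    by_cases hrA : r ∈ A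
    · rw [indicator_of_mem hrA]
      refine (bG_norm_le w i c hε v _).trans ?_
      exact mul_le_of_le_one_right hC0 hv
    · rw [indicator_of_notMem hrA]
      have hz : bG w i c hε v (ext u r) = 0 := by
        funext i' d
        by_cases hi : i' = i
        · subst hi
          rw [bG_self]
          have : bS w i' c hε d (ext u r i' d, inp (ext u r) i' d) = 0 := by
            by_contra hne
            exact hrA ⟨⟨hr.1.le, hr.2⟩, hloc ε hε r d hne⟩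
          rw [this, zero_smul]
          rfl
        · rw [bG_other _ _ _ _ _ _ hi]
          rfl
      rw [hz, norm_zero]
  rw [intervalIntegral.integral_of_le zero_le_one]
  have h3 : ∫ r in Set.Ioc (0:ℝ) 1, ‖ext q r‖ ≤ ∫ r in Set.Ioc (0:ℝ) 1, A.indicator (fun _ => C) r := by
    refine setIntegral_mono_on ?_ ?_ measurableSet_Ioc hpt
    · exact ((ext_cont q).norm.integrableOn_Icc (a := 0) (b := 1)).mono_set Ioc_subset_Icc_self
    · refine Integrable.indicator ?_ hmeas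
      exact integrableOn_const (by simp)
  refine h3.trans ?_
  rw [integral_indicator_const _ hmeas, smul_eq_mul]
  have h4 : (volume.restrict (Set.Ioc (0:ℝ) 1)).real A ≤ (volume A).toReal :=
    ENNReal.toReal_mono hAfin (Measure.restrict_apply_le _ _)
  calc (volume.restrict (Set.Ioc (0:ℝ) 1)).real A * C ≤ θ / (C + 1) * C :=
        mul_le_mul_of_nonneg_right (h4.trans h2.le) hC0
    _ ≤ θ / (C + 1) * (C + 1) := by gcongr; linarith
    _ = θ := by field_simp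

/-- a vector of norm one -/
lemma exists_unit {m : ℕ} (hm : 0 < m) : ∃ v : Fin m → ℝ, ‖v‖ = 1 := by
  have : Nonempty (Fin m) := ⟨⟨0, hm⟩⟩
  exact ⟨fun _ => 1, by rw [pi_norm_const]; simp⟩

theorem Loc.upstream (hk : ∀ i, 0 < k i) {f : St 𝒩 k → St 𝒩 k} {hf : ContDiff ℝ 1 f}
    {u : CI (St 𝒩 k)} {τ t0 η K : ℝ} (H : Loc f hf u τ t0 η K) {i : 𝒩.NT} {c : 𝒩.Node i}
    (hc : f (ext u t0) i c = 0) (a : 𝒩.AT i) (e : 𝒩.In i c a) :
    f (ext u t0) (𝒩.src i a) (𝒩.tail i c a e) = 0 := by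
  by_contra hne
  obtain ⟨Λ, hΛ, hkey⟩ := H.key
  obtain ⟨t1, ht1, hnull⟩ := H.exists_time (c := ⟨𝒩.src i a, 𝒩.tail i c a e⟩) hne
  obtain ⟨v, hv⟩ := exists_unit (hk i)
  obtain ⟨ε1, hε1, hmass⟩ := bump_mass u (ext u t1) i c (𝒩.src i a)
    (ext u t1 (𝒩.src i a) (𝒩.tail i c a e)) hnull (fun ε hε r d hb => by
      obtain ⟨-, β, hβ⟩ := bS_ne hb
      exact ⟨_, hβ a e⟩) (θ := 1 / (2 * (Λ + 1))) (by positivity)
  have h1 := hmass ε1 hε1 le_rfl v hv.le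
  have h2 := (hkey (bG (ext u t1) i c hε1 v) (bG_GG _ _ _ _ _) t1 ht1).2 ⟨i, c⟩ hc
  simp only at h2
  rw [bG_self, norm_smul, hv, mul_one, Real.norm_eq_abs, abs_of_nonneg (bS_nonneg _ _ _ _ _ _)] at h2
  have h3 := bS_self (ext u t1) i c hε1
  have h4 : Λ * (1 / (2 * (Λ + 1))) < 1 := by
    rw [mul_one_div, div_lt_one (by positivity)]; linarith
  have h5 := mul_le_mul_of_nonneg_left h1 hΛ
  linarith

/-- Matching of the input sets up to a relation. -/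
def Matched (R : Rel 𝒩) (i : 𝒩.NT) (c d : 𝒩.Node i) : Prop :=
  ∃ β : InIso 𝒩 i c d, ∀ (a : 𝒩.AT i) (e : 𝒩.In i c a),
      R ⟨𝒩.src i a, 𝒩.tail i c a e⟩ ⟨𝒩.src i a, 𝒩.tail i d a (β a e)⟩

/-- The relation of being equal at a state. -/
def PP (w : St 𝒩 k) : Rel 𝒩 := fun c d => Same (w c.1 c.2) (w d.1 d.2)

/-- separation of the distinct values -/
lemma exists_sep (w : St 𝒩 k) : ∃ ε0 > 0, ∀ (i : 𝒩.NT) (c d : 𝒩.Node i), ‖w i c - w i d‖ < ε0 →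
    w i c = w i d := by
  have h1 : ∀ p : (Σ i, 𝒩.Node i × 𝒩.Node i), ∀ᶠ ε in 𝓝[>] (0:ℝ),
      ‖w p.1 p.2.1 - w p.1 p.2.2‖ < ε → w p.1 p.2.1 = w p.1 p.2.2 := by
    intro p
    by_cases h : w p.1 p.2.1 = w p.1 p.2.2
    · exact Eventually.of_forall fun _ _ => h
    · have h2 : 0 < ‖w p.1 p.2.1 - w p.1 p.2.2‖ := norm_pos_iff.2 (sub_ne_zero.2 h)
      filter_upwards [(gt_mem_nhds h2 : ∀ᶠ ε in 𝓝 (0:ℝ), _).filter_mono nhdsWithin_le_nhds] with ε h3 h4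
      exact absurd h4 (not_lt.2 h3.le)
  have h2 := eventually_all.2 h1
  obtain ⟨ε, h3, h4⟩ := (h2.and (self_mem_nhdsWithin : ∀ᶠ ε in 𝓝[>] (0:ℝ), ε ∈ Set.Ioi 0)).exists
  exact ⟨ε, h4, fun i c d h => h3 ⟨i, c, d⟩ h⟩

lemma bS_sep {w : St 𝒩 k} {ε0 : ℝ} (h0 : ∀ (i : 𝒩.NT) (c d : 𝒩.Node i), ‖w i c - w i d‖ < ε0 →
    w i c = w i d) {ε : ℝ} (hε : 0 < ε) (hle : ε ≤ ε0) {i : 𝒩.NT} {c d : 𝒩.Node i}
    (h : bS w i c hε d (w i d, inp w i d) ≠ 0) : w i c = w i d ∧ Matched (PP w) i c d := by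
  obtain ⟨h1, β, hβ⟩ := bS_ne h
  refine ⟨(h0 _ _ _ (h1.trans_le hle)).symm, β, fun a e => ?_⟩
  have h2 := h0 _ _ _ ((hβ a e).trans_le hle)
  exact same_iff_eq.2 h2.symm

theorem Loc.moving (hk : ∀ i, 0 < k i) {f : St 𝒩 k → St 𝒩 k} {hf : ContDiff ℝ 1 f}
    {u : CI (St 𝒩 k)} {τ t0 η K : ℝ} (H : Loc f hf u τ t0 η K) {i j : 𝒩.NT} {c : 𝒩.Node i}
    {d : 𝒩.Node j} (hP : Same (ext u t0 i c) (ext u t0 j d)) (hc : f (ext u t0) i c ≠ 0) :
    ∃ h : i = j, Matched (PP (ext u t0)) j (h ▸ c) d := by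
  obtain ⟨Λ, hΛ, hkey⟩ := H.key
  obtain ⟨t1, ht1, hnull⟩ := H.exists_time (c := ⟨i, c⟩) hc
  obtain ⟨v, hv⟩ := exists_unit (hk i)
  obtain ⟨ε0, hε0, hsep⟩ := exists_sep (ext u t1)
  obtain ⟨ε1, hε1, hmass⟩ := bump_mass u (ext u t1) i c i (ext u t1 i c) hnull
    (fun ε hε r d hb => ⟨d, (bS_ne hb).1⟩) (θ := 1 / (2 * (Λ + 1))) (by positivity)
  have hε : 0 < min ε0 ε1 := lt_min hε0 hε1
  have h1 := hmass _ hε (min_le_right _ _) v hv.le
  have h2 := (hkey (bG (ext u t1) i c hε v) (bG_GG _ _ _ _ _) t1 ht1).1 ⟨i, c⟩ ⟨j, d⟩ hP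
  simp only at h2
  rw [bG_self, norm_smul, hv, mul_one, Real.norm_eq_abs, abs_of_nonneg (bS_nonneg _ _ _ _ _ _)] at h2
  have h3 := bS_self (ext u t1) i c hε
  have h4 : Λ * (1 / (2 * (Λ + 1))) < 1 := by
    rw [mul_one_div, div_lt_one (by positivity)]; linarith
  have h5 := mul_le_mul_of_nonneg_left h1 hΛ
  have h6 : ‖bG (ext u t1) i c hε v (ext u t1) j d‖ ≠ 0 := by
    intro h
    rw [h] at h2
    linarith
  have hij : i = j := by
    by_contra hij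
    exact h6 (by rw [bG_other _ _ _ _ _ _ (Ne.symm hij), norm_zero])
  subst hij
  refine ⟨rfl, ?_⟩
  rw [bG_self] at h6
  have h7 : bS (ext u t1) i c hε d (ext u t1 i d, inp (ext u t1) i d) ≠ 0 := by
    intro h
    exact h6 (by rw [h, zero_smul, norm_zero])
  obtain ⟨-, β, hβ⟩ := bS_sep hsep hε (min_le_left _ _) h7
  exact ⟨β, fun a e => (H.pat t1 ht1 _ _).1 (hβ a e)⟩

end Q66.RigidSynchrony
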