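import Pool.Agent.Q66.RgB2

set_option autoImplicit false
open Set Filter Topology MeasureTheory Q66.Rg

namespace Q66.RigidSynchrony

variable {𝒩 : Network} {k : 𝒩.NT → ℕ}

/-- The subspace of states vanishing off `S` and respecting `R`. -/
def subR (k : 𝒩.NT → ℕ) (S : Nd 𝒩 → Prop) (R : Rel 𝒩) (hR : ∀ c d, R c d → k c.1 = k d.1) :
    Submodule ℝ (St 𝒩 k) where
  carrier := {w | (∀ c : Nd 𝒩, ¬ S c → w c.1 c.2 = 0) ∧
    ∀ c d : Nd 𝒩, R c d → Same (w c.1 c.2) (w d.1 d.2)}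
  zero_mem' := ⟨fun _ _ => rfl, fun c d h => same_zero (hR c d h)⟩
  add_mem' := fun {x y} hx hy => ⟨fun c hc => by
      show x c.1 c.2 + y c.1 c.2 = 0
      rw [hx.1 c hc, hy.1 c hc, add_zero], fun c d h => same_add (hx.2 c d h) (hy.2 c d h)⟩
  smul_mem' := fun r x hx => ⟨fun c hc => by
      show r • x c.1 c.2 = 0
      rw [hx.1 c hc, smul_zero], fun c d h => same_smul r (hx.2 c d h)⟩

lemma mem_subR {S : Nd 𝒩 → Prop} {R : Rel 𝒩} {hR : ∀ c d, R c d → k c.1 = k d.1} {w : St 𝒩 k} :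
    w ∈ subR k S R hR ↔ (∀ c : Nd 𝒩, ¬ S c → w c.1 c.2 = 0) ∧
      ∀ c d : Nd 𝒩, R c d → Same (w c.1 c.2) (w d.1 d.2) := Iff.rfl

open Classical in
/-- Truncation of states to `S`. -/
noncomputable def prS (S : Nd 𝒩 → Prop) : St 𝒩 k →ₗ[ℝ] St 𝒩 k where
  toFun w := fun i c => if S ⟨i, c⟩ then w i c else 0
  map_add' x y := by
    funext i c
    by_cases h : S ⟨i, c⟩
    · simp [h]
    · simp [h]
  map_smul' r x := by
    funext i c
    by_cases h : S ⟨i, c⟩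
    · simp [h]
    · simp [h]

lemma prS_pos {S : Nd 𝒩 → Prop} (w : St 𝒩 k) {c : Nd 𝒩} (h : S c) :
    prS S w c.1 c.2 = w c.1 c.2 := by
  classical
  exact if_pos h

lemma prS_neg {S : Nd 𝒩 → Prop} (w : St 𝒩 k) {c : Nd 𝒩} (h : ¬ S c) :
    prS S w c.1 c.2 = 0 := by
  classical
  exact if_neg h

lemma st_ext {x y : St 𝒩 k} (h : ∀ c : Nd 𝒩, x c.1 c.2 = y c.1 c.2) : x = y := by
  funext i c
  exact h ⟨i, c⟩

lemma st_norm_le {x : St 𝒩 k} {r : ℝ} (hr : 0 ≤ r) (h : ∀ c : Nd 𝒩, ‖x c.1 c.2‖ ≤ r) : ‖x‖ ≤ r := by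
  rw [pi_norm_le_iff_of_nonneg hr]
  intro i
  rw [pi_norm_le_iff_of_nonneg hr]
  intro c
  exact h ⟨i, c⟩

/-- values of an admissible field on an upstream closed set of nodes -/
lemma field_congr {f : St 𝒩 k → St 𝒩 k} (hf : WeaklyAdmissible f) {S : Nd 𝒩 → Prop}
    (hup : ∀ (i : 𝒩.NT) (c : 𝒩.Node i), S ⟨i, c⟩ → ∀ (a : 𝒩.AT i) (e : 𝒩.In i c a),
      S ⟨𝒩.src i a, 𝒩.tail i c a e⟩) {x y : St 𝒩 k}
    (h : ∀ c : Nd 𝒩, S c → x c.1 c.2 = y c.1 c.2) {c : Nd 𝒩} (hc : S c) :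
    f x c.1 c.2 = f y c.1 c.2 := by
  obtain ⟨-, F, h1, -⟩ := hf
  obtain ⟨i, c⟩ := c
  show f x i c = f y i c
  rw [h1, h1]
  have e1 : x i c = y i c := h ⟨i, c⟩ hc
  have e2 : inp x i c = inp y i c := by
    funext a e
    exact h ⟨_, _⟩ (hup i c hc a e)
  rw [e1, e2]

lemma Loc.lin_mem {f : St 𝒩 k → St 𝒩 k} {hf : ContDiff ℝ 1 f}
    {u : CI (St 𝒩 k)} {τ t0 η K : ℝ} (H : Loc f hf u τ t0 η K) {S : Nd 𝒩 → Prop}
    (hS : ∀ c, S c ↔ f (ext u t0) c.1 c.2 = 0)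
    (hup : ∀ (i : 𝒩.NT) (c : 𝒩.Node i), S ⟨i, c⟩ → ∀ (a : 𝒩.AT i) (e : 𝒩.In i c a),
      S ⟨𝒩.src i a, 𝒩.tail i c a e⟩) (hR : ∀ c d : Nd 𝒩, PP (ext u t0) c d → k c.1 = k d.1)
    (g : St 𝒩 k → St 𝒩 k) (hg : GG g) :
    prS S (g (ext u t0)) ∈ (subR k S (PP (ext u t0)) hR).map
      ((prS S) ∘ₗ (fderiv ℝ f (ext u t0)).toLinearMap) := by
  have ht0 : |t0 - t0| < η := by simpa using H.η0
  set w0 := ext u t0 with hw0
  set V := (subR k S (PP w0) hR).map ((prS S) ∘ₗ (fderiv ℝ f w0).toLinearMap) with hV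
  have hcl : IsClosed (V : Set (St 𝒩 k)) := V.closed_of_finiteDimensional
  rw [← SetLike.mem_coe, ← hcl.closure_eq, Metric.mem_closure_iff]
  intro ε hε
  set q := ‖VV (Nem g hg.1.contDiff.continuous u)‖ with hq
  have hq0 : 0 ≤ q := norm_nonneg _
  have hK0 := H.K0
  obtain ⟨-, B, hB1, hB2⟩ := id hg
  have hB0 : (0:ℝ) ≤ B := B.2
  have hKq : 0 < K * q + 1 := by positivity
  -- differentiability
  have hdiff : HasFDerivAt f (fderiv ℝ f w0) w0 :=
    (hf.differentiable one_ne_zero).differentiableAt.hasFDerivAt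
  have hlo := hdiff.isLittleO
  rw [Asymptotics.isLittleO_iff] at hlo
  have hc0 : 0 < ε / (4 * (K * q + 1)) := by positivity
  obtain ⟨ρ, hρ, hlo2⟩ := Metric.eventually_nhds_iff.1 (hlo hc0)
  have htd : Tendsto (fun s : ℝ => |s| * (K * q + 1)) (𝓝 0) (𝓝 0) := by
    have : Continuous fun s : ℝ => |s| * (K * q + 1) := by fun_prop
    simpa using this.tendsto 0
  have e1 : ∀ᶠ s in 𝓝 (0:ℝ), |s| * (K * q + 1) < ρ := htd.eventually (gt_mem_nhds hρ)
  have e2 : ∀ᶠ s in 𝓝 (0:ℝ), |s| * (K * q + 1) < ε / (4 * (B + 1)) :=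
    htd.eventually (gt_mem_nhds (by positivity))
  have e3 := (H.pert g hg 1 one_pos).and (e1.and e2)
  have e4 : ∀ᶠ s in 𝓝[≠] (0:ℝ), s ≠ 0 := self_mem_nhdsWithin
  obtain ⟨s, ⟨⟨u', τ', ho, h2, h3, h4⟩, h5, h6⟩, h7⟩ :=
    ((e3.filter_mono nhdsWithin_le_nhds).and e4).exists
  set w' := ext u' t0 with hw'
  have hww : ‖w' - w0‖ ≤ |s| * (K * q + 1) := (norm_ext_le (u' - u) t0).trans h2
  set z : St 𝒩 k := w0 + prS S (w' - w0) with hz
  have hzw : ‖z - w0‖ ≤ |s| * (K * q + 1) := by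
    rw [hz, add_sub_cancel_left]
    refine (st_norm_le (norm_nonneg _) fun c => ?_).trans hww
    by_cases hc : S c
    · rw [prS_pos _ hc]
      exact norm_cp_le _ _ _
    · rw [prS_neg _ hc, norm_zero]
      exact norm_nonneg _
  have hzS : ∀ c : Nd 𝒩, S c → z c.1 c.2 = w' c.1 c.2 := by
    intro c hc
    show w0 c.1 c.2 + prS S (w' - w0) c.1 c.2 = _
    rw [prS_pos _ hc]
    show w0 c.1 c.2 + (w' c.1 c.2 - w0 c.1 c.2) = _
    abel
  set hh : St 𝒩 k := (-s⁻¹) • (z - w0) with hhh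
  have hmem : hh ∈ subR k S (PP w0) hR := by
    refine Submodule.smul_mem _ _ ?_
    rw [hz, add_sub_cancel_left]
    refine ⟨fun c hc => prS_neg _ hc, fun c d hcd => ?_⟩
    by_cases hc : S c
    · have hd : S d := (hS d).2 ((H.stat_iff hcd).1 ((hS c).1 hc))
      rw [prS_pos _ hc, prS_pos _ hd]
      exact same_sub (h3 t0 ht0 c d hcd) hcd
    · have hd : ¬ S d := fun hd => hc ((hS c).2 ((H.stat_iff hcd).2 ((hS d).1 hd)))
      rw [prS_neg _ hc, prS_neg _ hd]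
      exact same_zero (hR c d hcd)
  refine ⟨((prS S) ∘ₗ (fderiv ℝ f w0).toLinearMap) hh, Submodule.mem_map_of_mem hmem, ?_⟩
  rw [dist_eq_norm]
  have hs0 : 0 < |s| := abs_pos.2 h7
  have hlo3 := hlo2 (y := z) (by rw [dist_eq_norm]; exact hzw.trans_lt h5)
  refine lt_of_le_of_lt (st_norm_le (r := ε / 2) (by positivity) fun c => ?_) (half_lt_self hε)
  show ‖prS S (g w0) c.1 c.2 - prS S (fderiv ℝ f w0 hh) c.1 c.2‖ ≤ ε / 2
  by_cases hc : S c
  · rw [prS_pos _ hc, prS_pos _ hc]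
    have h8 : f w' c.1 c.2 + s • g w' c.1 c.2 = 0 := h4 t0 ht0 c ((hS c).1 hc)
    have h9 : f z c.1 c.2 = f w' c.1 c.2 := field_congr H.wad hup hzS hc
    have h10 : f w0 c.1 c.2 = 0 := (hS c).1 hc
    set X : St 𝒩 k := f z - f w0 - fderiv ℝ f w0 (z - w0) with hX
    have h11 : ‖X‖ ≤ ε / (4 * (K * q + 1)) * (|s| * (K * q + 1)) :=
      hlo3.trans (mul_le_mul_of_nonneg_left hzw hc0.le)
    have h12 : ε / (4 * (K * q + 1)) * (|s| * (K * q + 1)) = |s| * (ε / 4) := by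
      field_simp
    rw [h12] at h11
    have h13 : g w0 c.1 c.2 - fderiv ℝ f w0 hh c.1 c.2 =
        (g w0 - g w') c.1 c.2 + (-s⁻¹) • X c.1 c.2 := by
      have e5 : fderiv ℝ f w0 hh = (-s⁻¹) • fderiv ℝ f w0 (z - w0) := by
        rw [hhh, map_smul]
      rw [e5]
      funext j
      show g w0 c.1 c.2 j - (-s⁻¹) * (fderiv ℝ f w0 (z - w0)) c.1 c.2 j =
        (g w0 c.1 c.2 j - g w' c.1 c.2 j) +
          (-s⁻¹) * (f z c.1 c.2 j - f w0 c.1 c.2 j - (fderiv ℝ f w0 (z - w0)) c.1 c.2 j)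
      have a1 : f z c.1 c.2 j = - (s * g w' c.1 c.2 j) := by
        rw [h9]
        have := congrFun h8 j
        have a0 : f w' c.1 c.2 j + s * g w' c.1 c.2 j = 0 := this
        linarith
      have a2 : f w0 c.1 c.2 j = 0 := congrFun h10 j
      rw [a1, a2]
      field_simp
      ring
    rw [h13]
    have h14 : ‖(g w0 - g w') c.1 c.2‖ ≤ ε / 4 := by
      refine (norm_cp_le _ _ _).trans ?_
      have h15 := hB2.dist_le_mul w0 w'
      rw [dist_eq_norm, dist_eq_norm, norm_sub_rev w0 w'] at h15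
      refine h15.trans ((mul_le_mul_of_nonneg_left (hww.trans h6.le) hB0).trans ?_)
      calc (B:ℝ) * (ε / (4 * (B + 1))) ≤ (B + 1) * (ε / (4 * (B + 1))) := by gcongr; linarith
        _ = ε / 4 := by field_simp
    have h15 : ‖(-s⁻¹) • X c.1 c.2‖ ≤ ε / 4 := by
      rw [norm_smul, norm_neg, norm_inv, Real.norm_eq_abs]
      calc |s|⁻¹ * ‖X c.1 c.2‖ ≤ |s|⁻¹ * (|s| * (ε / 4)) :=
            mul_le_mul_of_nonneg_left ((norm_cp_le _ _ _).trans h11) (by positivity)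
        _ = ε / 4 := by field_simp
    refine (norm_add_le _ _).trans ?_
    linarith
  · rw [prS_neg _ hc, prS_neg _ hc, sub_zero, norm_zero]
    positivity

lemma GG.sum {ι : Type*} (s : Finset ι) (g : ι → St 𝒩 k → St 𝒩 k) (h : ∀ i ∈ s, GG (g i)) :
    GG (fun x => ∑ i ∈ s, g i x) := by
  classical
  induction s using Finset.induction_on with
  | empty => simpa using GG.zero
  | insert a s ha ih =>
    have h1 := (h a (Finset.mem_insert_self a s)).add_smul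
      (ih fun i hi => h i (Finset.mem_insert_of_mem hi)) 1
    have h2 : (fun x => ∑ i ∈ insert a s, g i x) = fun x => g a x + (1:ℝ) • ∑ i ∈ s, g i x := by
      funext x
      rw [Finset.sum_insert ha, one_smul]
    rw [h2]
    exact h1

lemma bG_add (w : St 𝒩 k) (i : 𝒩.NT) (c : 𝒩.Node i) {ε : ℝ} (hε : 0 < ε) (v v' : Fin (k i) → ℝ)
    (x : St 𝒩 k) : bG w i c hε (v + v') x = bG w i c hε v x + bG w i c hε v' x := by
  funext j d
  show bG w i c hε (v + v') x j d = bG w i c hε v x j d + bG w i c hε v' x j d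
  by_cases hj : j = i
  · subst hj
    rw [bG_self, bG_self, bG_self, smul_add]
  · rw [bG_other _ _ _ _ _ _ hj, bG_other _ _ _ _ _ _ hj, bG_other _ _ _ _ _ _ hj, add_zero]

lemma bG_smul (w : St 𝒩 k) (i : 𝒩.NT) (c : 𝒩.Node i) {ε : ℝ} (hε : 0 < ε) (r : ℝ)
    (v : Fin (k i) → ℝ) (x : St 𝒩 k) : bG w i c hε (r • v) x = r • bG w i c hε v x := by
  funext j d
  show bG w i c hε (r • v) x j d = r • bG w i c hε v x j d
  by_cases hj : j = i
  · subst hj
    rw [bG_self, bG_self, smul_comm]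
  · rw [bG_other _ _ _ _ _ _ hj, bG_other _ _ _ _ _ _ hj, smul_zero]

/-- The relation `P` together with matching of inputs. -/
def Eqv (w : St 𝒩 k) : Rel 𝒩 := fun c d =>
  PP w c d ∧ ∃ (i : 𝒩.NT) (c' d' : 𝒩.Node i), c = ⟨i, c'⟩ ∧ d = ⟨i, d'⟩ ∧ Matched (PP w) i c' d'

lemma Eqv.refl (w : St 𝒩 k) (c : Nd 𝒩) : Eqv w c c :=
  ⟨same_refl _, c.1, c.2, c.2, rfl, rfl, fun _ => Equiv.refl _, fun _ _ => same_refl _⟩

lemma Eqv.symm {w : St 𝒩 k} {c d : Nd 𝒩} (h : Eqv w c d) : Eqv w d c := by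
  obtain ⟨h1, i, c', d', rfl, rfl, β, hβ⟩ := h
  refine ⟨same_symm h1, i, d', c', rfl, rfl, fun a => (β a).symm, fun a e => ?_⟩
  have h2 := hβ a ((β a).symm e)
  rw [Equiv.apply_symm_apply] at h2
  exact same_symm h2

lemma Eqv.trans {w : St 𝒩 k} {c d l : Nd 𝒩} (h : Eqv w c d) (h' : Eqv w d l) : Eqv w c l := by
  obtain ⟨h1, i, c', d', rfl, rfl, β, hβ⟩ := h
  obtain ⟨h2, j, d2, l', h3, rfl, γ, hγ⟩ := h'
  cases h3
  refine ⟨same_trans h1 h2, i, c', l', rfl, rfl, fun a => (β a).trans (γ a), fun a e => ?_⟩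
  exact same_trans (hβ a e) (hγ a (β a e))

lemma Eqv.dim {w : St 𝒩 k} {c d : Nd 𝒩} (h : Eqv w c d) : k c.1 = k d.1 := h.1.1

open Classical in
/-- Superposition of bumps. -/
noncomputable def gS (w : St 𝒩 k) (S : Nd 𝒩 → Prop) {ε : ℝ} (hε : 0 < ε) (G : St 𝒩 k) (x : St 𝒩 k) :
    St 𝒩 k := ∑ c : Nd 𝒩, if S c then bG w c.1 c.2 hε (G c.1 c.2) x else 0

lemma gS_GG (w : St 𝒩 k) (S : Nd 𝒩 → Prop) {ε : ℝ} (hε : 0 < ε) (G : St 𝒩 k) : GG (gS w S hε G) := by
  classical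
  refine GG.sum Finset.univ (fun c x => if S c then bG w c.1 c.2 hε (G c.1 c.2) x else 0) fun c _ => ?_
  by_cases h : S c
  · simp only [if_pos h]
    exact bG_GG _ _ _ _ _
  · simp only [if_neg h]
    exact GG.zero

lemma gS_value {w : St 𝒩 k} {ε0 : ℝ} (h0 : ∀ (i : 𝒩.NT) (c d : 𝒩.Node i), ‖w i c - w i d‖ < ε0 →
    w i c = w i d) {ε : ℝ} (hε : 0 < ε) (hle : ε ≤ ε0) (S : Nd 𝒩 → Prop) {G : St 𝒩 k}
    (hG : ∀ c d : Nd 𝒩, Eqv w c d → Same (G c.1 c.2) (G d.1 d.2)) (l : Nd 𝒩) :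
    ∃ κ : ℝ, 0 ≤ κ ∧ gS w S hε G w l.1 l.2 = κ • G l.1 l.2 ∧ (S l → 1 ≤ κ) := by
  classical
  have h1 : ∀ c : Nd 𝒩, ∃ κ : ℝ, 0 ≤ κ ∧
      (if S c then bG w c.1 c.2 hε (G c.1 c.2) w else 0) l.1 l.2 = κ • G l.1 l.2 ∧
      (c = l → S l → 1 ≤ κ) := by
    intro c
    by_cases hc : S c
    · rw [if_pos hc]
      obtain ⟨i, c⟩ := c
      obtain ⟨j, l⟩ := l
      simp only
      by_cases hij : i = j
      · subst hij
        refine ⟨bS w i c hε l (w i l, inp w i l), bS_nonneg _ _ _ _ _ _, ?_, ?_⟩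
        · rw [bG_self]
          by_cases hz : bS w i c hε l (w i l, inp w i l) = 0
          · rw [hz, zero_smul, zero_smul]
          · obtain ⟨h2, h3⟩ := bS_sep h0 hε hle hz
            have h4 : Eqv w ⟨i, c⟩ ⟨i, l⟩ := ⟨same_iff_eq.2 h2, i, c, l, rfl, rfl, h3⟩
            have h5 : G i c = G i l := same_iff_eq.1 (hG ⟨i, c⟩ ⟨i, l⟩ h4)
            rw [h5]
        · intro h _
          cases h
          exact bS_self w i c hε
      · refine ⟨0, le_rfl, ?_, ?_⟩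
        · rw [bG_other _ _ _ _ _ _ (Ne.symm hij), zero_smul]
        · intro h
          exact absurd (congrArg Sigma.fst h) hij
    · rw [if_neg hc]
      refine ⟨0, le_rfl, ?_, fun h h' => absurd (h ▸ h') hc⟩
      rw [zero_smul]
      rfl
  choose κ hκ0 hκ1 hκ2 using h1
  refine ⟨∑ c, κ c, Finset.sum_nonneg fun c _ => hκ0 c, ?_, fun hl => ?_⟩
  · unfold gS
    rw [Finset.sum_smul, Finset.sum_apply, Finset.sum_apply]
    exact Finset.sum_congr rfl fun c _ => hκ1 c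
  · exact (hκ2 l rfl hl).trans (Finset.single_le_sum (f := κ) (fun c _ => hκ0 c) (Finset.mem_univ l))

/-- The linear map `G ↦ g_G(w)`. -/
noncomputable def gL (w : St 𝒩 k) (S : Nd 𝒩 → Prop) {ε : ℝ} (hε : 0 < ε) : St 𝒩 k →ₗ[ℝ] St 𝒩 k where
  toFun G := gS w S hε G w
  map_add' G G' := by
    classical
    unfold gS
    rw [← Finset.sum_add_distrib]
    refine Finset.sum_congr rfl fun c _ => ?_
    by_cases h : S c
    · rw [if_pos h, if_pos h, if_pos h]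
      exact bG_add _ _ _ _ _ _ _
    · rw [if_neg h, if_neg h, if_neg h, add_zero]
  map_smul' r G := by
    classical
    unfold gS
    rw [RingHom.id_apply, Finset.smul_sum]
    refine Finset.sum_congr rfl fun c _ => ?_
    by_cases h : S c
    · rw [if_pos h, if_pos h]
      exact bG_smul _ _ _ _ _ _ _
    · rw [if_neg h, if_neg h, smul_zero]

theorem Loc.stationary (hk : ∀ i, 0 < k i) {f : St 𝒩 k → St 𝒩 k} {hf : ContDiff ℝ 1 f}
    {u : CI (St 𝒩 k)} {τ t0 η K : ℝ} (H : Loc f hf u τ t0 η K) {c d : Nd 𝒩}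
    (hP : PP (ext u t0) c d) (hc : f (ext u t0) c.1 c.2 = 0) : Eqv (ext u t0) c d := by
  classical
  by_contra hne
  set w0 := ext u t0 with hw0
  set S : Nd 𝒩 → Prop := fun c => f w0 c.1 c.2 = 0 with hS
  have hup : ∀ (i : 𝒩.NT) (c : 𝒩.Node i), S ⟨i, c⟩ → ∀ (a : 𝒩.AT i) (e : 𝒩.In i c a),
      S ⟨𝒩.src i a, 𝒩.tail i c a e⟩ := fun i c hc a e => H.upstream hk hc a e
  have hR : ∀ c d : Nd 𝒩, PP w0 c d → k c.1 = k d.1 := fun c d h => h.1
  have hR' : ∀ c d : Nd 𝒩, Eqv w0 c d → k c.1 = k d.1 := fun c d h => h.dim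
  set D := subR k S (PP w0) hR with hD
  set D' := subR k S (Eqv w0) hR' with hD'
  have hle : D ≤ D' := fun w hw => ⟨hw.1, fun c d h => hw.2 c d h.1⟩
  have hcS : S c := hc
  -- strictness
  have hlt : D < D' := by
    refine lt_of_le_of_ne hle fun heq => ?_
    obtain ⟨v, hv⟩ := exists_unit (hk c.1)
    let w : St 𝒩 k := fun i l => if h : Eqv w0 c ⟨i, l⟩ then (fun m => v (Fin.cast h.dim.symm m)) else 0
    have hw : w ∈ D' := by
      refine ⟨fun l hl => ?_, fun l l' hll => ?_⟩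
      · show (if h : Eqv w0 c ⟨l.1, l.2⟩ then (fun m => v (Fin.cast h.dim.symm m)) else 0) = 0
        rw [dif_neg]
        intro h
        exact hl ((H.stat_iff h.1).1 hcS)
      · by_cases h : Eqv w0 c l
        · have h' : Eqv w0 c l' := h.trans hll
          show Same (if h : Eqv w0 c ⟨l.1, l.2⟩ then (fun m => v (Fin.cast h.dim.symm m)) else 0)
            (if h : Eqv w0 c ⟨l'.1, l'.2⟩ then (fun m => v (Fin.cast h.dim.symm m)) else 0)
          rw [dif_pos h, dif_pos h']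
          exact ⟨hll.dim, fun j => rfl⟩
        · have h' : ¬ Eqv w0 c l' := fun h' => h (h'.trans hll.symm)
          show Same (if h : Eqv w0 c ⟨l.1, l.2⟩ then (fun m => v (Fin.cast h.dim.symm m)) else 0)
            (if h : Eqv w0 c ⟨l'.1, l'.2⟩ then (fun m => v (Fin.cast h.dim.symm m)) else 0)
          rw [dif_neg h, dif_neg h']
          exact same_zero hll.dim
    rw [← heq] at hw
    have h1 := same_norm (hw.2 c d hP)
    have h2 : w c.1 c.2 = v := by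
      show (if h : Eqv w0 c ⟨c.1, c.2⟩ then (fun m => v (Fin.cast h.dim.symm m)) else 0) = v
      rw [dif_pos (Eqv.refl w0 c)]
      rfl
    have h3 : w d.1 d.2 = 0 := by
      show (if h : Eqv w0 c ⟨d.1, d.2⟩ then (fun m => v (Fin.cast h.dim.symm m)) else 0) = 0
      rw [dif_neg hne]
    rw [h2, h3, hv, norm_zero] at h1
    exact one_ne_zero h1
  -- the injective map
  obtain ⟨ε0, hε0, hsep⟩ := exists_sep w0
  set V := D.map ((prS S) ∘ₗ (fderiv ℝ f w0).toLinearMap) with hV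
  have hmem : ∀ G : D', gL w0 S hε0 G.1 ∈ V := by
    intro G
    have h1 := H.lin_mem (S := S) (fun _ => Iff.rfl) hup hR (gS w0 S hε0 G.1) (gS_GG _ _ _ _)
    have h2 : prS S (gS w0 S hε0 G.1 w0) = gL w0 S hε0 G.1 := by
      refine st_ext fun l => ?_
      by_cases hl : S l
      · rw [prS_pos _ hl]; rfl
      · rw [prS_neg _ hl]
        obtain ⟨κ, -, h3, -⟩ := gS_value hsep hε0 le_rfl S (G := G.1) G.2.2 l
        show 0 = gS w0 S hε0 G.1 w0 l.1 l.2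
        rw [h3, G.2.1 l hl, smul_zero]
    rw [← h2]
    exact h1
  let Γ : D' →ₗ[ℝ] V := LinearMap.codRestrict V ((gL w0 S hε0).comp D'.subtype) hmem
  have hinj : Function.Injective Γ := by
    rw [injective_iff_map_eq_zero]
    intro G hG
    have h1 : gS w0 S hε0 G.1 w0 = 0 := congrArg Subtype.val hG
    refine Subtype.ext (st_ext fun l => ?_)
    show G.1 l.1 l.2 = 0
    by_cases hl : S l
    · obtain ⟨κ, -, h3, h4⟩ := gS_value hsep hε0 le_rfl S (G := G.1) G.2.2 l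
      rw [h1] at h3
      have h5 : κ • G.1 l.1 l.2 = 0 := h3.symm
      exact (smul_eq_zero.1 h5).resolve_left (by have := h4 hl; positivity)
    · exact G.2.1 l hl
  have h1 : Module.finrank ℝ D' ≤ Module.finrank ℝ V := LinearMap.finrank_le_finrank_of_injective hinj
  have h2 : Module.finrank ℝ V ≤ Module.finrank ℝ D := Submodule.finrank_map_le _ _
  have h3 : Module.finrank ℝ D < Module.finrank ℝ D' := Submodule.finrank_lt_finrank_of_lt hlt
  omega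

/-- At a minimal pattern, the pattern is balanced. -/
theorem Loc.balanced (hk : ∀ i, 0 < k i) {f : St 𝒩 k → St 𝒩 k} {hf : ContDiff ℝ 1 f}
    {u : CI (St 𝒩 k)} {τ t0 η K : ℝ} (H : Loc f hf u τ t0 η K) : Balanced (PP (ext u t0)) := by
  have key : ∀ c d : Nd 𝒩, PP (ext u t0) c d → Eqv (ext u t0) c d := by
    rintro ⟨i, c⟩ ⟨j, d⟩ h
    by_cases hc : f (ext u t0) i c = 0
    · exact H.stationary hk h hc
    · obtain ⟨h1, h2⟩ := H.moving hk (i := i) (j := j) (c := c) (d := d) h hc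
      subst h1
      exact ⟨h, i, c, d, rfl, rfl, h2⟩
  refine ⟨fun c d h => ?_, fun i c d h => ?_⟩
  · obtain ⟨-, i, c', d', rfl, rfl, -⟩ := key c d h
    rfl
  · obtain ⟨-, i', c', d', h1, h2, h3⟩ := key _ _ h
    cases h1
    cases h2
    exact h3

end Q66.RigidSynchrony
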