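import Pool.Agent.Q66.RgA

set_option autoImplicit false
open Set Filter Topology

namespace Q66.RigidSynchrony

variable {𝒩 : Network} {k : 𝒩.NT → ℕ}

noncomputable section

/-- Real bump function. -/
def bp {m : ℕ} (p : Fin m → ℝ) {ε : ℝ} (hε : 0 < ε) : ContDiffBump p :=
  ⟨ε / 2, ε, half_pos hε, half_lt_self hε⟩

lemma bp_self {m : ℕ} (p : Fin m → ℝ) {ε : ℝ} (hε : 0 < ε) : bp p hε p = 1 :=
  (bp p hε).one_of_mem_closedBall (Metric.mem_closedBall_self (half_pos hε).le)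

lemma bp_nonneg {m : ℕ} (p : Fin m → ℝ) {ε : ℝ} (hε : 0 < ε) (x : Fin m → ℝ) : 0 ≤ bp p hε x :=
  (bp p hε).nonneg

lemma bp_le {m : ℕ} (p : Fin m → ℝ) {ε : ℝ} (hε : 0 < ε) (x : Fin m → ℝ) : bp p hε x ≤ 1 :=
  (bp p hε).le_one

lemma bp_ne {m : ℕ} {p : Fin m → ℝ} {ε : ℝ} {hε : 0 < ε} {x : Fin m → ℝ} (h : bp p hε x ≠ 0) :
    ‖x - p‖ < ε := by
  have h1 : x ∈ Function.support (bp p hε) := h
  rw [(bp p hε).support_eq] at h1
  rwa [← dist_eq_norm]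

instance isoFin (i : 𝒩.NT) (c d : 𝒩.Node i) : Fintype (InIso 𝒩 i c d) := Fintype.ofFinite _

/-- Symmetrised bump. -/
def bS (w : St 𝒩 k) (i : 𝒩.NT) (c : 𝒩.Node i) {ε : ℝ} (hε : 0 < ε) (d : 𝒩.Node i)
    (z : (Fin (k i) → ℝ) × InSt 𝒩 k i d) : ℝ :=
  bp (w i c) hε z.1 * ∑ β : InIso 𝒩 i c d, ∏ a : 𝒩.AT i, ∏ e : 𝒩.In i c a,
    bp (w (𝒩.src i a) (𝒩.tail i c a e)) hε (z.2 a (β a e))

lemma bS_nonneg (w : St 𝒩 k) (i : 𝒩.NT) (c : 𝒩.Node i) {ε : ℝ} (hε : 0 < ε) (d : 𝒩.Node i)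
    (z : (Fin (k i) → ℝ) × InSt 𝒩 k i d) : 0 ≤ bS w i c hε d z := by
  unfold bS
  refine mul_nonneg (bp_nonneg _ _ _) (Finset.sum_nonneg fun β _ => Finset.prod_nonneg fun a _ =>
    Finset.prod_nonneg fun e _ => bp_nonneg _ _ _)

lemma bS_le (w : St 𝒩 k) (i : 𝒩.NT) (c : 𝒩.Node i) {ε : ℝ} (hε : 0 < ε) (d : 𝒩.Node i)
    (z : (Fin (k i) → ℝ) × InSt 𝒩 k i d) : bS w i c hε d z ≤ Fintype.card (InIso 𝒩 i c d) := by
  unfold bS
  have h1 : ∑ β : InIso 𝒩 i c d, ∏ a : 𝒩.AT i, ∏ e : 𝒩.In i c a,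
    bp (w (𝒩.src i a) (𝒩.tail i c a e)) hε (z.2 a (β a e)) ≤ ∑ β : InIso 𝒩 i c d, 1 := by
    refine Finset.sum_le_sum fun β _ => ?_
    refine Finset.prod_le_one (fun a _ => Finset.prod_nonneg fun e _ => bp_nonneg _ _ _) fun a _ => ?_
    exact Finset.prod_le_one (fun e _ => bp_nonneg _ _ _) fun e _ => bp_le _ _ _
  have h2 : ∑ β : InIso 𝒩 i c d, (1:ℝ) = Fintype.card (InIso 𝒩 i c d) := by simp
  rw [h2] at h1
  calc _ ≤ 1 * (Fintype.card (InIso 𝒩 i c d) : ℝ) :=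
        mul_le_mul (bp_le _ _ _) h1 (Finset.sum_nonneg fun β _ => Finset.prod_nonneg fun a _ =>
          Finset.prod_nonneg fun e _ => bp_nonneg _ _ _) zero_le_one
    _ = _ := one_mul _

lemma bS_self (w : St 𝒩 k) (i : 𝒩.NT) (c : 𝒩.Node i) {ε : ℝ} (hε : 0 < ε) :
    1 ≤ bS w i c hε c (w i c, inp w i c) := by
  unfold bS
  rw [bp_self, one_mul]
  have h1 : ∏ a : 𝒩.AT i, ∏ e : 𝒩.In i c a, bp (w (𝒩.src i a) (𝒩.tail i c a e)) hε
      ((w i c, inp w i c).2 a ((fun a => Equiv.refl _ : InIso 𝒩 i c c) a e)) = 1 := by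
    refine Finset.prod_eq_one fun a _ => Finset.prod_eq_one fun e _ => ?_
    exact bp_self _ _
  rw [← h1]
  exact Finset.single_le_sum (f := fun β : InIso 𝒩 i c c => ∏ a : 𝒩.AT i, ∏ e : 𝒩.In i c a,
    bp (w (𝒩.src i a) (𝒩.tail i c a e)) hε ((w i c, inp w i c).2 a (β a e)))
    (fun β _ => Finset.prod_nonneg fun a _ => Finset.prod_nonneg fun e _ => bp_nonneg _ _ _)
    (Finset.mem_univ (fun a => Equiv.refl _ : InIso 𝒩 i c c))

lemma bS_ne {w : St 𝒩 k} {i : 𝒩.NT} {c : 𝒩.Node i} {ε : ℝ} {hε : 0 < ε} {d : 𝒩.Node i}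
    {z : (Fin (k i) → ℝ) × InSt 𝒩 k i d} (h : bS w i c hε d z ≠ 0) :
    ‖z.1 - w i c‖ < ε ∧ ∃ β : InIso 𝒩 i c d, ∀ a e,
      ‖z.2 a (β a e) - w (𝒩.src i a) (𝒩.tail i c a e)‖ < ε := by
  unfold bS at h
  have h1 := left_ne_zero_of_mul h
  have h2 := right_ne_zero_of_mul h
  refine ⟨bp_ne h1, ?_⟩
  obtain ⟨β, -, hβ⟩ := Finset.exists_ne_zero_of_sum_ne_zero h2
  refine ⟨β, fun a e => ?_⟩
  have h3 := Finset.prod_ne_zero_iff.1 hβ a (Finset.mem_univ _)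
  exact bp_ne (Finset.prod_ne_zero_iff.1 h3 e (Finset.mem_univ _))

lemma bS_contDiff (w : St 𝒩 k) (i : 𝒩.NT) (c : 𝒩.Node i) {ε : ℝ} (hε : 0 < ε) (d : 𝒩.Node i) :
    ContDiff ℝ 1 (bS w i c hε d) := by
  unfold bS
  refine ContDiff.mul ?_ ?_
  · exact (bp (w i c) hε).contDiff.comp contDiff_fst
  · refine ContDiff.sum fun β _ => contDiff_prod fun a _ => contDiff_prod fun e _ => ?_
    refine (bp (w (𝒩.src i a) (𝒩.tail i c a e)) hε).contDiff.comp ?_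
    exact (((ContinuousLinearMap.proj (R := ℝ) (φ := fun _ : 𝒩.In i d a => Fin (k (𝒩.src i a)) → ℝ)
      (β a e)).comp (ContinuousLinearMap.proj (R := ℝ)
      (φ := fun a => 𝒩.In i d a → Fin (k (𝒩.src i a)) → ℝ) a)).contDiff).comp contDiff_snd

lemma bS_iso (w : St 𝒩 k) (i : 𝒩.NT) (c : 𝒩.Node i) {ε : ℝ} (hε : 0 < ε) (d d' : 𝒩.Node i)
    (γ : InIso 𝒩 i d d') (y : Fin (k i) → ℝ) (z : InSt 𝒩 k i d') :
    bS w i c hε d' (y, z) = bS w i c hε d (y, fun a e => z a (γ a e)) := by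
  unfold bS
  congr 1
  symm
  refine Fintype.sum_equiv
    { toFun := fun β a => (β a).trans (γ a)
      invFun := fun β a => (β a).trans (γ a).symm
      left_inv := fun β => by funext a; ext e; simp
      right_inv := fun β => by funext a; ext e; simp } _ _ fun β => ?_
  rfl

lemma bS_compact (w : St 𝒩 k) (i : 𝒩.NT) (c : 𝒩.Node i) {ε : ℝ} (hε : 0 < ε) (d : 𝒩.Node i) :
    HasCompactSupport (bS w i c hε d) := by
  refine HasCompactSupport.of_support_subset_isCompact (K := Metric.closedBall 0 (‖w‖ + ε))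
    (isCompact_closedBall _ _) fun z hz => ?_
  obtain ⟨h1, β, hβ⟩ := bS_ne hz
  rw [mem_closedBall_zero_iff, Prod.norm_def, max_le_iff]
  have hw : ∀ j (l : 𝒩.Node j), ‖w j l‖ ≤ ‖w‖ := fun j l =>
    (norm_le_pi_norm (w j) l).trans (norm_le_pi_norm w j)
  have key : ∀ {m : ℕ} (p q : Fin m → ℝ), ‖p - q‖ < ε → ‖q‖ ≤ ‖w‖ → ‖p‖ ≤ ‖w‖ + ε := by
    intro m p q h h'
    have := norm_add_le (p - q) q
    rw [sub_add_cancel] at this
    linarith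
  refine ⟨key _ _ h1 (hw _ _), ?_⟩
  have hpos : 0 ≤ ‖w‖ + ε := by positivity
  rw [pi_norm_le_iff_of_nonneg hpos]
  intro a
  rw [pi_norm_le_iff_of_nonneg hpos]
  intro e
  have h2 := hβ a ((β a).symm e)
  rw [Equiv.apply_symm_apply] at h2
  exact key _ _ h2 (hw _ _)

/-- Component functions of the bump field. -/
def bF (w : St 𝒩 k) (i : 𝒩.NT) (c : 𝒩.Node i) {ε : ℝ} (hε : 0 < ε) (v : Fin (k i) → ℝ) :
    ∀ (j : 𝒩.NT) (d : 𝒩.Node j), (Fin (k j) → ℝ) × InSt 𝒩 k j d → Fin (k j) → ℝ :=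
  open Classical in
  Function.update (β := fun j => ∀ d : 𝒩.Node j, (Fin (k j) → ℝ) × InSt 𝒩 k j d → Fin (k j) → ℝ)
    (fun _ _ _ => 0) i (fun d z => bS w i c hε d z • v)

lemma bF_self (w : St 𝒩 k) (i : 𝒩.NT) (c : 𝒩.Node i) {ε : ℝ} (hε : 0 < ε) (v : Fin (k i) → ℝ)
    (d : 𝒩.Node i) (z : (Fin (k i) → ℝ) × InSt 𝒩 k i d) :
    bF w i c hε v i d z = bS w i c hε d z • v := by
  classical
  unfold bF
  rw [Function.update_self]

lemma bF_ne (w : St 𝒩 k) (i : 𝒩.NT) (c : 𝒩.Node i) {ε : ℝ} (hε : 0 < ε) (v : Fin (k i) → ℝ)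
    {j : 𝒩.NT} (hj : j ≠ i) (d : 𝒩.Node j) (z : (Fin (k j) → ℝ) × InSt 𝒩 k j d) :
    bF w i c hε v j d z = 0 := by
  classical
  unfold bF
  rw [Function.update_of_ne hj]

/-- The bump field. -/
def bG (w : St 𝒩 k) (i : 𝒩.NT) (c : 𝒩.Node i) {ε : ℝ} (hε : 0 < ε) (v : Fin (k i) → ℝ)
    (x : St 𝒩 k) : St 𝒩 k := fun j d => bF w i c hε v j d (x j d, inp x j d)

lemma bG_self (w : St 𝒩 k) (i : 𝒩.NT) (c : 𝒩.Node i) {ε : ℝ} (hε : 0 < ε) (v : Fin (k i) → ℝ)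
    (x : St 𝒩 k) (d : 𝒩.Node i) : bG w i c hε v x i d = bS w i c hε d (x i d, inp x i d) • v :=
  bF_self w i c hε v d _

lemma bG_other (w : St 𝒩 k) (i : 𝒩.NT) (c : 𝒩.Node i) {ε : ℝ} (hε : 0 < ε) (v : Fin (k i) → ℝ)
    (x : St 𝒩 k) {j : 𝒩.NT} (hj : j ≠ i) (d : 𝒩.Node j) : bG w i c hε v x j d = 0 :=
  bF_ne w i c hε v hj d _

lemma bF_contDiff (w : St 𝒩 k) (i : 𝒩.NT) (c : 𝒩.Node i) {ε : ℝ} (hε : 0 < ε) (v : Fin (k i) → ℝ)
    (j : 𝒩.NT) (d : 𝒩.Node j) : ContDiff ℝ 1 (bF w i c hε v j d) := by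
  by_cases hj : j = i
  · subst hj
    have : bF w j c hε v j d = fun z => bS w j c hε d z • v := funext fun z => bF_self _ _ _ _ _ _ _
    rw [this]
    exact (bS_contDiff w j c hε d).smul contDiff_const
  · have : bF w i c hε v j d = fun z => 0 := funext fun z => bF_ne _ _ _ _ _ hj _ _
    rw [this]
    exact contDiff_const

lemma bF_compact (w : St 𝒩 k) (i : 𝒩.NT) (c : 𝒩.Node i) {ε : ℝ} (hε : 0 < ε) (v : Fin (k i) → ℝ)
    (j : 𝒩.NT) (d : 𝒩.Node j) : HasCompactSupport (bF w i c hε v j d) := by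
  by_cases hj : j = i
  · subst hj
    have : bF w j c hε v j d = fun z => bS w j c hε d z • v := funext fun z => bF_self _ _ _ _ _ _ _
    rw [this]
    exact (bS_compact w j c hε d).smul_right
  · have : bF w i c hε v j d = 0 := funext fun z => bF_ne _ _ _ _ _ hj _ _
    rw [this]
    exact HasCompactSupport.zero

lemma bG_admissible (w : St 𝒩 k) (i : 𝒩.NT) (c : 𝒩.Node i) {ε : ℝ} (hε : 0 < ε) (v : Fin (k i) → ℝ) :
    Admissible (bG w i c hε v) := by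
  refine ⟨bF w i c hε v, ⟨fun _ _ _ => rfl, ?_⟩, bF_contDiff w i c hε v⟩
  intro j d d' γ y z
  by_cases hj : j = i
  · subst hj
    rw [bF_self, bF_self, bS_iso w j c hε d d' γ y z]
  · rw [bF_ne _ _ _ _ _ hj, bF_ne _ _ _ _ _ hj]

lemma bG_norm_le (w : St 𝒩 k) (i : 𝒩.NT) (c : 𝒩.Node i) {ε : ℝ} (hε : 0 < ε) (v : Fin (k i) → ℝ)
    (x : St 𝒩 k) : ‖bG w i c hε v x‖ ≤ (∑ d : 𝒩.Node i, (Fintype.card (InIso 𝒩 i c d) : ℝ)) * ‖v‖ := by
  have hpos : 0 ≤ (∑ d : 𝒩.Node i, (Fintype.card (InIso 𝒩 i c d) : ℝ)) * ‖v‖ := by positivity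
  rw [pi_norm_le_iff_of_nonneg hpos]
  intro j
  rw [pi_norm_le_iff_of_nonneg hpos]
  intro d
  by_cases hj : j = i
  · subst hj
    rw [bG_self, norm_smul, Real.norm_eq_abs, abs_of_nonneg (bS_nonneg _ _ _ _ _ _)]
    refine mul_le_mul_of_nonneg_right ((bS_le _ _ _ _ _ _).trans ?_) (norm_nonneg _)
    exact Finset.single_le_sum (f := fun d => (Fintype.card (InIso 𝒩 j c d) : ℝ))
      (fun _ _ => Nat.cast_nonneg _) (Finset.mem_univ d)
  · rw [bG_other _ _ _ _ _ _ hj, norm_zero]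
    exact hpos

lemma dist_inp_le (x y : St 𝒩 k) (j : 𝒩.NT) (d : 𝒩.Node j) :
    dist ((x j d, inp x j d) : (Fin (k j) → ℝ) × InSt 𝒩 k j d) (y j d, inp y j d) ≤ dist x y := by
  have h : ∀ j (l : 𝒩.Node j), dist (x j l) (y j l) ≤ dist x y := fun j l =>
    (dist_le_pi_dist (x j) (y j) l).trans (dist_le_pi_dist x y j)
  rw [Prod.dist_eq, max_le_iff]
  refine ⟨h _ _, ?_⟩
  rw [dist_pi_le_iff dist_nonneg]
  intro a
  rw [dist_pi_le_iff dist_nonneg]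
  intro e
  exact h _ _

lemma bG_GG (w : St 𝒩 k) (i : 𝒩.NT) (c : 𝒩.Node i) {ε : ℝ} (hε : 0 < ε) (v : Fin (k i) → ℝ) :
    GG (bG w i c hε v) := by
  refine ⟨bG_admissible w i c hε v, ?_⟩
  have h1 : ∀ (j : 𝒩.NT) (d : 𝒩.Node j), ∃ C, LipschitzWith C (bF w i c hε v j d) := fun j d =>
    ContDiff.lipschitzWith_of_hasCompactSupport (bF_compact w i c hε v j d)
      (bF_contDiff w i c hε v j d) one_ne_zero
  choose C hC using h1
  set B1 : NNReal := ∑ j : 𝒩.NT, ∑ d : 𝒩.Node j, C j d with hB1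
  set B2 : NNReal := ⟨(∑ d : 𝒩.Node i, (Fintype.card (InIso 𝒩 i c d) : ℝ)) * ‖v‖, by positivity⟩ with hB2
  refine ⟨B1 + B2, fun x => ?_, ?_⟩
  · refine (bG_norm_le w i c hε v x).trans ?_
    push_cast
    exact le_add_of_nonneg_left B1.2
  · have h2 : ∀ j d, C j d ≤ B1 := by
      intro j d
      rw [hB1]
      refine le_trans ?_ (Finset.single_le_sum (f := fun j => ∑ d : 𝒩.Node j, C j d)
        (fun _ _ => zero_le) (Finset.mem_univ j))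
      exact Finset.single_le_sum (f := fun d => C j d) (fun _ _ => zero_le) (Finset.mem_univ d)
    refine LipschitzWith.weaken (K := B1) ?_ (le_add_of_nonneg_right zero_le)
    refine LipschitzWith.of_dist_le_mul fun x y => ?_
    have hpos : 0 ≤ (B1 : ℝ) * dist x y := by positivity
    rw [dist_pi_le_iff hpos]
    intro j
    rw [dist_pi_le_iff hpos]
    intro d
    refine ((hC j d).dist_le_mul _ _).trans ?_
    exact mul_le_mul (by exact_mod_cast h2 j d) (dist_inp_le x y j d) dist_nonneg B1.2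

end

end Q66.RigidSynchrony
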