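import Pool.Agent.Q66.RgB3

set_option autoImplicit false
open Set Filter Topology MeasureTheory Q66.Rg

namespace Q66.RigidSynchrony

section flow

variable {E : Type*} [NormedAddCommGroup E] [NormedSpace ℝ E] [FiniteDimensional ℝ E]

/-- Invariant subspaces are invariant under the flow. -/
lemma flow_inv (V : Submodule ℝ E) {f : E → E} (hf : ContDiff ℝ 1 f) (hV : ∀ x ∈ V, f x ∈ V)
    {y : ℝ → E} {τ : ℝ} (hy : ∀ t, HasDerivAt y (τ • f (y t)) t) {t0 : ℝ} (h0 : y t0 ∈ V)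
    {t : ℝ} (ht : t0 ≤ t) : y t ∈ V := by
  obtain ⟨W, hW⟩ := Submodule.exists_isCompl V
  set π : E →ₗ[ℝ] E := V.projection W hW with hπ
  have hπV : ∀ x, π x ∈ V := fun x => Submodule.projection_apply_mem hW x
  have hπf : ∀ x ∈ V, π x = x := fun x hx => Submodule.projection_apply_of_mem_left hW hx
  set P : E →L[ℝ] E := π.toContinuousLinearMap with hP
  have hPπ : ∀ x, P x = π x := fun x => rfl
  have hyc : Continuous y := continuous_iff_continuousAt.2 fun t => (hy t).continuousAt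
  -- a compact convex set
  have hK1 : IsCompact (y '' Set.Icc t0 t) := isCompact_Icc.image hyc
  have hK2 : IsCompact ((fun x => P (y x)) '' Set.Icc t0 t) :=
    isCompact_Icc.image (P.continuous.comp hyc)
  obtain ⟨R, hR⟩ := (hK1.union hK2).isBounded.subset_closedBall (0:E)
  have hbc : IsCompact (Metric.closedBall (0:E) R) := isCompact_closedBall _ _
  obtain ⟨C, hC⟩ := (hbc.image (hf.continuous_fderiv one_ne_zero)).isBounded.exists_norm_le
  have hlip : ∀ a ∈ Metric.closedBall (0:E) R, ∀ b ∈ Metric.closedBall (0:E) R,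
      ‖f b - f a‖ ≤ C * ‖b - a‖ := by
    intro a ha b hb
    exact (convex_closedBall (0:E) R).norm_image_sub_le_of_norm_fderiv_le (𝕜 := ℝ)
      (fun x _ => (hf.differentiable one_ne_zero).differentiableAt)
      (fun x hx => hC _ ⟨x, hx, rfl⟩) ha hb
  set z : ℝ → E := fun s => y s - P (y s) with hz
  have hzd : ∀ s, HasDerivAt z (τ • f (y s) - P (τ • f (y s))) s := fun s =>
    (hy s).sub (P.hasFDerivAt.comp_hasDerivAt s (hy s))
  have h1 := eq_zero_of_abs_deriv_le_mul_abs_self_of_eq_zero_right (f := z)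
    (f' := fun s => τ • f (y s) - P (τ • f (y s))) (K := |τ| * ((1 + ‖P‖) * C)) (a := t0) (b := t)
    (continuous_iff_continuousAt.2 fun s => (hzd s).continuousAt).continuousOn
    (fun s _ => (hzd s).hasDerivWithinAt) (by
      show y t0 - P (y t0) = 0
      rw [hPπ, hπf _ h0, sub_self]) (fun s hs => by
      have hs' : s ∈ Set.Icc t0 t := ⟨hs.1, hs.2.le⟩
      have e1 := hlip (P (y s)) (hR (Or.inr ⟨s, hs', rfl⟩)) (y s) (hR (Or.inl ⟨s, hs', rfl⟩))
      have e2 : P (f (P (y s))) = f (P (y s)) := hπf _ (hV _ (hπV _))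
      have e3 : τ • f (y s) - P (τ • f (y s)) =
          τ • ((f (y s) - f (P (y s))) - P (f (y s) - f (P (y s)))) := by
        rw [map_sub, e2, map_smul, smul_sub, smul_sub, smul_sub]
        abel
      rw [e3, norm_smul, Real.norm_eq_abs, mul_assoc]
      refine mul_le_mul_of_nonneg_left ?_ (abs_nonneg _)
      refine (norm_sub_le _ _).trans ?_
      have e4 : ‖P (f (y s) - f (P (y s)))‖ ≤ ‖P‖ * ‖f (y s) - f (P (y s))‖ := P.le_opNorm _
      calc ‖f (y s) - f (P (y s))‖ + ‖P (f (y s) - f (P (y s)))‖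
          ≤ (1 + ‖P‖) * ‖f (y s) - f (P (y s))‖ := by linarith
        _ ≤ (1 + ‖P‖) * (C * ‖z s‖) := mul_le_mul_of_nonneg_left e1 (by positivity)
        _ = (1 + ‖P‖) * C * ‖z s‖ := by ring)
  have h2 := h1 t ⟨ht, le_rfl⟩
  have h3 : y t = P (y t) := sub_eq_zero.1 h2
  rw [h3]
  exact hπV _

lemma flow_inv_per (V : Submodule ℝ E) {f : E → E} (hf : ContDiff ℝ 1 f) (hV : ∀ x ∈ V, f x ∈ V)
    {y : ℝ → E} {τ : ℝ} (hy : ∀ t, HasDerivAt y (τ • f (y t)) t) {T : ℝ} (hT : 0 < T)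
    (hper : ∀ t, y (t + T) = y t) {t0 : ℝ} (h0 : y t0 ∈ V) (t : ℝ) : y t ∈ V := by
  have hp : Function.Periodic y T := hper
  obtain ⟨n, hn⟩ := exists_nat_ge ((t0 - t) / T)
  rw [div_le_iff₀ hT] at hn
  have h1 : y (t + n * T) = y t := hp.nat_mul n t
  rw [← h1]
  exact flow_inv V hf hV hy h0 (by linarith)

/-- the velocity of a nonconstant periodic solution does not vanish -/
lemma vel_ne {f : E → E} (hf : ContDiff ℝ 1 f) {x : ℝ → E} {T : ℝ}
    (hx : ∀ t, HasDerivAt x (f (x t)) t) (hT : 0 < T) (hper : ∀ t, x (t + T) = x t)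
    (hne : ∃ t, x t ≠ x 0) : f (x 0) ≠ 0 := by
  intro h0
  obtain ⟨t, ht⟩ := hne
  have hf' : ContDiff ℝ 1 (fun z => f (z + x 0)) := hf.comp (contDiff_id.add contDiff_const)
  have h1 := flow_inv_per (⊥ : Submodule ℝ E) hf' (fun z hz => by
      rw [Submodule.mem_bot] at hz ⊢
      rw [hz, zero_add, h0]) (y := fun t => x t - x 0) (τ := 1) (fun t => by
      rw [one_smul, sub_add_cancel]
      exact (hx t).sub_const _) hT (fun t => by rw [hper]) (t0 := 0) (by simp) t
  rw [Submodule.mem_bot] at h1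
  exact ht (sub_eq_zero.1 h1)

end flow

variable {𝒩 : Network} {k : 𝒩.NT → ℕ}

lemma synch_all {f : St 𝒩 k → St 𝒩 k} {hf : ContDiff ℝ 1 f} (hw : WeaklyAdmissible f)
    {u : CI (St 𝒩 k)} {τ : ℝ} (ho : Orb f hf.continuous u τ) {t0 : ℝ} (h0 : 0 < t0) (h1 : t0 < 1)
    (hB : Balanced (PP (ext u t0))) {c d : Nd 𝒩} (h : PP (ext u t0) c d) (t : ℝ) :
    Same (perx u t c.1 c.2) (perx u t d.1 d.2) := by
  have hR : ∀ c d : Nd 𝒩, PP (ext u t0) c d → k c.1 = k d.1 := fun c d h => h.1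
  have h2 := flow_inv_per (subR k (fun _ => True) (PP (ext u t0)) hR) hf (fun x hx =>
    ⟨fun c hc => absurd trivial hc, fun c d h => respects_field hB hw (fun c d h => hx.2 c d h) c d h⟩)
    (perx_sol ho) one_pos (perx_per u) (t0 := t0) (by
      rw [perx_eq ho.per ⟨h0.le, h1.le⟩]
      exact ⟨fun c hc => absurd trivial hc, fun c d h => h⟩) t
  exact h2.2 c d h

end Q66.RigidSynchrony
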