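import Pool.Agent.Q66.RgC1

set_option autoImplicit false
open Set Filter Topology MeasureTheory Q66.Rg

namespace Q66.RigidSynchrony

variable {𝒩 : Network} {k : 𝒩.NT → ℕ}

/-- Small admissible perturbations of `f` together with a nondegenerate closed orbit in a given
open set. -/
structure Fam (f : St 𝒩 k → St 𝒩 k) (ℓ : St 𝒩 k →L[ℝ] ℝ) (δ : ℝ) (U : Set (CI (St 𝒩 k) × ℝ))
    (f' : St 𝒩 k → St 𝒩 k) (hf' : ContDiff ℝ 1 f') (u : CI (St 𝒩 k)) (τ : ℝ) : Prop where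
  gg : GG (fun x => f' x - f x)
  bd : ∃ B < δ, ∀ x, ‖f' x - f x‖ ≤ B ∧ ‖fderiv ℝ f' x - fderiv ℝ f x‖ ≤ B
  mem : (u, τ) ∈ U
  orb : Orb f' hf'.continuous u τ
  bij : Function.Bijective (Lop ℓ (dN f' hf' u) (Nem f' hf'.continuous u) τ)

lemma Fam.weakly {f : St 𝒩 k → St 𝒩 k} (hw : WeaklyAdmissible f) {ℓ : St 𝒩 k →L[ℝ] ℝ} {δ : ℝ}
    {U : Set (CI (St 𝒩 k) × ℝ)} {f' : St 𝒩 k → St 𝒩 k} {hf' : ContDiff ℝ 1 f'}
    {u : CI (St 𝒩 k)} {τ : ℝ} (F : Fam f ℓ δ U f' hf' u τ) : WeaklyAdmissible f' := by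
  have h1 := hw.add F.gg.1.weakly 1
  have h2 : (fun x => f x + (1:ℝ) • (f' x - f x)) = f' := by
    funext x
    rw [one_smul]
    abel
  rwa [h2] at h1

lemma Fam.step {f : St 𝒩 k → St 𝒩 k} {ℓ : St 𝒩 k →L[ℝ] ℝ} {δ : ℝ}
    {U : Set (CI (St 𝒩 k) × ℝ)} (hU : IsOpen U) {f' : St 𝒩 k → St 𝒩 k} {hf' : ContDiff ℝ 1 f'}
    {u : CI (St 𝒩 k)} {τ : ℝ} (F : Fam f ℓ δ U f' hf' u τ) :
    ∃ K : ℝ, 0 ≤ K ∧ ∀ (g : St 𝒩 k → St 𝒩 k) (hg : GG g) (ε : ℝ), 0 < ε → ∀ᶠ s in 𝓝 (0:ℝ),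
      ∃ (u' : CI (St 𝒩 k)) (τ' : ℝ),
        Fam f ℓ δ U (pf f' g s) (pf_contDiff hf' hg.1.contDiff s) u' τ' ∧
        ‖u' - u‖ ≤ |s| * (K * ‖VV (Nem g hg.1.contDiff.continuous u)‖ + ε) := by
  obtain ⟨K, hK0, hK⟩ := perturb ℓ hf' F.orb F.bij
  refine ⟨K, hK0, fun g hg ε hε => ?_⟩
  set q := ‖VV (Nem g hg.1.contDiff.continuous u)‖ with hq
  have hq0 : 0 ≤ q := norm_nonneg _
  obtain ⟨B, hBδ, hB⟩ := F.bd
  obtain ⟨Bg, hBg0, hBg1, hBg2⟩ := hg.fderiv_le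
  have e1 : ∀ᶠ s in 𝓝 (0:ℝ), B + |s| * Bg < δ := by
    have : Tendsto (fun s : ℝ => B + |s| * Bg) (𝓝 0) (𝓝 B) := by
      have h : Continuous fun s : ℝ => B + |s| * Bg := by fun_prop
      simpa using h.tendsto 0
    exact this.eventually (gt_mem_nhds hBδ)
  obtain ⟨ρ, hρ, hρU⟩ := Metric.isOpen_iff.1 hU (u, τ) F.mem
  have e2 : ∀ᶠ s in 𝓝 (0:ℝ), |s| * (K * q + ε) < ρ := by
    have : Tendsto (fun s : ℝ => |s| * (K * q + ε)) (𝓝 0) (𝓝 0) := by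
      have h : Continuous fun s : ℝ => |s| * (K * q + ε) := by fun_prop
      simpa using h.tendsto 0
    exact this.eventually (gt_mem_nhds hρ)
  filter_upwards [hK g hg.1.contDiff ε hε, e1, e2] with s hs h1 h2
  obtain ⟨u', τ', ho, -, hb, h3, h4⟩ := hs
  refine ⟨u', τ', ⟨?_, ⟨B + |s| * Bg, h1, fun x => ⟨?_, ?_⟩⟩, ?_, ho, hb⟩, h3⟩
  · have h5 := F.gg.add_smul hg s
    have h6 : (fun x => (f' x - f x) + s • g x) = fun x => pf f' g s x - f x := by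
      funext x
      show _ = f' x + s • g x - f x
      abel
    rwa [h6] at h5
  · have h5 : pf f' g s x - f x = (f' x - f x) + s • g x := by
      show f' x + s • g x - f x = _
      abel
    rw [h5]
    refine (norm_add_le _ _).trans (add_le_add (hB x).1 ?_)
    rw [norm_smul, Real.norm_eq_abs]
    exact mul_le_mul_of_nonneg_left (hBg1 x) (abs_nonneg _)
  · have h5 : fderiv ℝ (pf f' g s) x = fderiv ℝ f' x + s • fderiv ℝ g x := by
      have hf1 : DifferentiableAt ℝ f' x := (hf'.differentiable one_ne_zero).differentiableAt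
      have hg1 : DifferentiableAt ℝ g x := (hg.1.contDiff.differentiable one_ne_zero).differentiableAt
      exact (hf1.hasFDerivAt.add (hg1.hasFDerivAt.const_smul s)).fderiv
    have h6 : fderiv ℝ (pf f' g s) x - fderiv ℝ f x = (fderiv ℝ f' x - fderiv ℝ f x) +
        s • fderiv ℝ g x := by
      rw [h5]; abel
    rw [h6]
    refine (norm_add_le _ _).trans (add_le_add (hB x).2 ?_)
    rw [norm_smul, Real.norm_eq_abs]
    exact mul_le_mul_of_nonneg_left (hBg2 x) (abs_nonneg _)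
  · refine hρU ?_
    rw [Metric.mem_ball, Prod.dist_eq, max_lt_iff, dist_eq_norm, dist_eq_norm, Real.norm_eq_abs]
    exact ⟨h3.trans_lt h2, h4.trans_lt h2⟩

open Classical in
/-- The synchronous pairs. -/
noncomputable def fP (w : St 𝒩 k) : Finset (Nd 𝒩 × Nd 𝒩) :=
  Finset.univ.filter fun p => PP w p.1 p.2

open Classical in
/-- The stationary nodes. -/
noncomputable def fS (v : St 𝒩 k) : Finset (Nd 𝒩) :=
  Finset.univ.filter fun c => v c.1 c.2 = 0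

lemma mem_fP {w : St 𝒩 k} {c d : Nd 𝒩} : (c, d) ∈ fP w ↔ PP w c d := by
  classical
  simp [fP]

lemma mem_fS {v : St 𝒩 k} {c : Nd 𝒩} : c ∈ fS v ↔ v c.1 c.2 = 0 := by
  classical
  simp [fS]

/-- The count. -/
noncomputable def cnt (w v : St 𝒩 k) : ℕ := (fP w).card + (fS v).card

lemma cnt_near (w0 v0 : St 𝒩 k) : ∃ ρ > 0, ∀ w v : St 𝒩 k, ‖w - w0‖ < ρ → ‖v - v0‖ < ρ →
    cnt w0 v0 ≤ cnt w v →
      (∀ c d : Nd 𝒩, PP w c d ↔ PP w0 c d) ∧ ∀ c : Nd 𝒩, v c.1 c.2 = 0 ↔ v0 c.1 c.2 = 0 := by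
  have h1 : ∀ᶠ w in 𝓝 w0, ∀ p : Nd 𝒩 × Nd 𝒩, PP w p.1 p.2 → PP w0 p.1 p.2 := by
    refine eventually_all.2 fun p => ?_
    by_cases h : PP w0 p.1 p.2
    · exact Eventually.of_forall fun _ _ => h
    · have : {w : St 𝒩 k | Same (w p.1.1 p.1.2) (w p.2.1 p.2.2)}ᶜ ∈ 𝓝 w0 :=
        (same_closed p.1 p.2).isOpen_compl.mem_nhds h
      filter_upwards [this] with w hw h'
      exact absurd h' hw
  have h2 : ∀ᶠ v in 𝓝 v0, ∀ c : Nd 𝒩, v c.1 c.2 = 0 → v0 c.1 c.2 = 0 := by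
    refine eventually_all.2 fun c => ?_
    by_cases h : v0 c.1 c.2 = 0
    · exact Eventually.of_forall fun _ _ => h
    · have hc : Continuous fun v : St 𝒩 k => v c.1 c.2 := by fun_prop
      have : {v : St 𝒩 k | v c.1 c.2 = 0}ᶜ ∈ 𝓝 v0 :=
        (isClosed_eq hc continuous_const).isOpen_compl.mem_nhds h
      filter_upwards [this] with v hv h'
      exact absurd h' hv
  obtain ⟨r1, hr1, h3⟩ := Metric.eventually_nhds_iff.1 h1
  obtain ⟨r2, hr2, h4⟩ := Metric.eventually_nhds_iff.1 h2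
  refine ⟨min r1 r2, lt_min hr1 hr2, fun w v hw hv hcnt => ?_⟩
  have h5 := h3 (y := w) (by rw [dist_eq_norm]; exact hw.trans_le (min_le_left _ _))
  have h6 := h4 (y := v) (by rw [dist_eq_norm]; exact hv.trans_le (min_le_right _ _))
  have s1 : fP w ⊆ fP w0 := fun p hp => mem_fP.2 (h5 p (mem_fP.1 hp))
  have s2 : fS v ⊆ fS v0 := fun c hc => mem_fS.2 (h6 c (mem_fS.1 hc))
  have c1 := Finset.card_le_card s1
  have c2 := Finset.card_le_card s2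
  unfold cnt at hcnt
  have e1 : fP w = fP w0 := Finset.eq_of_subset_of_card_le s1 (by omega)
  have e2 : fS v = fS v0 := Finset.eq_of_subset_of_card_le s2 (by omega)
  refine ⟨fun c d => ?_, fun c => ?_⟩
  · rw [← mem_fP, ← mem_fP, e1]
  · rw [← mem_fS, ← mem_fS, e2]

theorem core (hk : ∀ i, 0 < k i) {f : St 𝒩 k → St 𝒩 k} (hw : WeaklyAdmissible f)
    (ℓ : St 𝒩 k →L[ℝ] ℝ) {δ : ℝ} (hδ : 0 < δ) {U : Set (CI (St 𝒩 k) × ℝ)} (hU : IsOpen U)
    {u0 : CI (St 𝒩 k)} {τ0 : ℝ} (hmem : (u0, τ0) ∈ U) (horb : Orb f hw.1.continuous u0 τ0)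
    (hbij : Function.Bijective (Lop ℓ (dN f hw.1 u0) (Nem f hw.1.continuous u0) τ0)) :
    ∃ (f' : St 𝒩 k → St 𝒩 k) (hf' : ContDiff ℝ 1 f') (u : CI (St 𝒩 k)) (τ : ℝ),
      Fam f ℓ δ U f' hf' u τ ∧ Balanced (fun c d : Nd 𝒩 =>
        ∀ t, Same (perx u t c.1 c.2) (perx u t d.1 d.2)) := by
  classical
  have hex : ∃ n : ℕ, ∃ (f' : St 𝒩 k → St 𝒩 k) (hf' : ContDiff ℝ 1 f') (u : CI (St 𝒩 k)) (τ t : ℝ),
      Fam f ℓ δ U f' hf' u τ ∧ 0 < t ∧ t < 1 ∧ cnt (ext u t) (f' (ext u t)) = n := by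
    refine ⟨_, f, hw.1, u0, τ0, 1 / 2, ⟨?_, ⟨0, hδ, fun x => by simp⟩, hmem, horb, hbij⟩,
      by norm_num, by norm_num, rfl⟩
    have h : (fun x => f x - f x) = fun _ => (0 : St 𝒩 k) := by funext x; exact sub_self _
    rw [h]
    exact GG.zero
  obtain ⟨f1, hf1, u1, τ1, t0, F, ht0, ht1, hcnt⟩ := Nat.find_spec hex
  have hmin : ∀ (f' : St 𝒩 k → St 𝒩 k) (hf' : ContDiff ℝ 1 f') (u : CI (St 𝒩 k)) (τ t : ℝ),
      Fam f ℓ δ U f' hf' u τ → 0 < t → t < 1 →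
      cnt (ext u1 t0) (f1 (ext u1 t0)) ≤ cnt (ext u t) (f' (ext u t)) := by
    intro f' hf' u τ t hF h0 h1
    rw [hcnt]
    exact Nat.find_min' hex ⟨f', hf', u, τ, t, hF, h0, h1, rfl⟩
  obtain ⟨ρ, hρ, hnear⟩ := cnt_near (ext u1 t0) (f1 (ext u1 t0))
  obtain ⟨K, hK0, hstep⟩ := F.step hU
  obtain ⟨L, ρ2, hL0, hρ2, hlip⟩ := nem_lip hf1 u1
  -- the time interval
  have e1 : ∀ᶠ t in 𝓝 t0, (0 < t ∧ t < 1) ∧ ‖ext u1 t - ext u1 t0‖ < ρ / 2 ∧
      ‖f1 (ext u1 t) - f1 (ext u1 t0)‖ < ρ / 2 := by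
    have a1 : ∀ᶠ t in 𝓝 t0, 0 < t ∧ t < 1 := Ioo_mem_nhds ht0 ht1
    have a2 : ∀ᶠ t in 𝓝 t0, ‖ext u1 t - ext u1 t0‖ < ρ / 2 := by
      have h : Continuous fun t => ‖ext u1 t - ext u1 t0‖ :=
        ((ext_cont u1).sub continuous_const).norm
      exact (h.tendsto' t0 0 (by simp)).eventually (gt_mem_nhds (half_pos hρ))
    have a3 : ∀ᶠ t in 𝓝 t0, ‖f1 (ext u1 t) - f1 (ext u1 t0)‖ < ρ / 2 := by
      have h : Continuous fun t => ‖f1 (ext u1 t) - f1 (ext u1 t0)‖ :=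
        ((hf1.continuous.comp (ext_cont u1)).sub continuous_const).norm
      exact (h.tendsto' t0 0 (by simp)).eventually (gt_mem_nhds (half_pos hρ))
    exact a1.and (a2.and a3)
  obtain ⟨η, hη, hJ⟩ := Metric.eventually_nhds_iff.1 e1
  have hJ' : ∀ t, |t - t0| < η → (0 < t ∧ t < 1) ∧ ‖ext u1 t - ext u1 t0‖ < ρ / 2 ∧
      ‖f1 (ext u1 t) - f1 (ext u1 t0)‖ < ρ / 2 := fun t ht => hJ (by rw [Real.dist_eq]; exact ht)
  have hLoc : Loc f1 hf1 u1 τ1 t0 η K := by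
    refine ⟨F.weakly hw, F.orb, hK0, hη, fun t ht => (hJ' t ht).1, fun t ht => ?_, fun t ht => ?_, ?_⟩
    · obtain ⟨⟨h0, h1⟩, h2, h3⟩ := hJ' t ht
      exact (hnear _ _ (h2.trans (half_lt_self hρ)) (h3.trans (half_lt_self hρ))
        (hmin f1 hf1 u1 τ1 t F h0 h1)).1
    · obtain ⟨⟨h0, h1⟩, h2, h3⟩ := hJ' t ht
      exact (hnear _ _ (h2.trans (half_lt_self hρ)) (h3.trans (half_lt_self hρ))
        (hmin f1 hf1 u1 τ1 t F h0 h1)).2
    · intro g hg ε hε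
      set q := ‖VV (Nem g hg.1.contDiff.continuous u1)‖ with hq
      obtain ⟨Bg, hBg0, hBg1, -⟩ := hg.fderiv_le
      have b1 : ∀ᶠ s in 𝓝 (0:ℝ), |s| * (K * q + ε) < ρ / 2 := by
        have : Tendsto (fun s : ℝ => |s| * (K * q + ε)) (𝓝 0) (𝓝 0) := by
          have h : Continuous fun s : ℝ => |s| * (K * q + ε) := by fun_prop
          simpa using h.tendsto 0
        exact this.eventually (gt_mem_nhds (half_pos hρ))
      have b2 : ∀ᶠ s in 𝓝 (0:ℝ), |s| * (K * q + ε) < ρ2 := by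
        have : Tendsto (fun s : ℝ => |s| * (K * q + ε)) (𝓝 0) (𝓝 0) := by
          have h : Continuous fun s : ℝ => |s| * (K * q + ε) := by fun_prop
          simpa using h.tendsto 0
        exact this.eventually (gt_mem_nhds hρ2)
      have b3 : ∀ᶠ s in 𝓝 (0:ℝ), L * (|s| * (K * q + ε)) + |s| * Bg < ρ / 2 := by
        have : Tendsto (fun s : ℝ => L * (|s| * (K * q + ε)) + |s| * Bg) (𝓝 0) (𝓝 0) := by
          have h : Continuous fun s : ℝ => L * (|s| * (K * q + ε)) + |s| * Bg := by fun_prop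
          simpa using h.tendsto 0
        exact this.eventually (gt_mem_nhds (half_pos hρ))
      filter_upwards [hstep g hg ε hε, b1, b2, b3] with s hs c1 c2 c3
      obtain ⟨u', τ', hF', h1⟩ := hs
      have key : ∀ t, |t - t0| < η →
          (∀ c d : Nd 𝒩, PP (ext u' t) c d ↔ PP (ext u1 t0) c d) ∧
          ∀ c : Nd 𝒩, pf f1 g s (ext u' t) c.1 c.2 = 0 ↔ f1 (ext u1 t0) c.1 c.2 = 0 := by
        intro t ht
        obtain ⟨⟨h0, h01⟩, h2, h3⟩ := hJ' t ht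
        refine hnear _ _ ?_ ?_ (hmin _ _ u' τ' t hF' h0 h01)
        · have h4 : ‖ext u' t - ext u1 t‖ ≤ ‖u' - u1‖ := norm_ext_le (u' - u1) t
          have h5 := norm_add_le (ext u' t - ext u1 t) (ext u1 t - ext u1 t0)
          rw [sub_add_sub_cancel] at h5
          linarith
        · have h4 := hlip u' (h1.trans_lt c2) t
          have h5 : L * ‖u' - u1‖ ≤ L * (|s| * (K * q + ε)) := mul_le_mul_of_nonneg_left h1 hL0
          have h6 : ‖s • g (ext u' t)‖ ≤ |s| * Bg := by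
            rw [norm_smul, Real.norm_eq_abs]
            exact mul_le_mul_of_nonneg_left (hBg1 _) (abs_nonneg _)
          have h7 : pf f1 g s (ext u' t) - f1 (ext u1 t0) =
              (f1 (ext u' t) - f1 (ext u1 t)) + (s • g (ext u' t)) +
                (f1 (ext u1 t) - f1 (ext u1 t0)) := by
            show f1 (ext u' t) + s • g (ext u' t) - f1 (ext u1 t0) = _
            abel
          rw [h7]
          have h8 := norm_add₃_le (a := f1 (ext u' t) - f1 (ext u1 t)) (b := s • g (ext u' t))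
            (c := f1 (ext u1 t) - f1 (ext u1 t0))
          linarith
      exact ⟨u', τ', hF'.orb, h1, fun t ht c d h => ((key t ht).1 c d).2 h,
        fun t ht c h => ((key t ht).2 c).2 h⟩
  have hB := hLoc.balanced hk
  refine ⟨f1, hf1, u1, τ1, F, ?_⟩
  have hrel : (fun c d : Nd 𝒩 => ∀ t, Same (perx u1 t c.1 c.2) (perx u1 t d.1 d.2)) =
      PP (ext u1 t0) := by
    funext c d
    refine propext ⟨fun h => ?_, fun h t =>
      synch_all (hf := hf1) (F.weakly hw) F.orb ht0 ht1 hB h t⟩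
    have h1 := h t0
    rw [perx_eq F.orb.per ⟨ht0.le, ht1.le⟩] at h1
    exact h1
  rw [hrel]
  exact hB

end Q66.RigidSynchrony
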