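import Pool.Agent.Q66.RgC2
import Pool.Agent.Q66.Rg5

set_option autoImplicit false
open Set Filter Topology MeasureTheory Q66.Rg

namespace Q66.RigidSynchrony

variable {𝒩 : Network} {k : 𝒩.NT → ℕ}

/-- time rescaled solution -/
lemma scaled_deriv {f : St 𝒩 k → St 𝒩 k} {x : ℝ → St 𝒩 k} {T : ℝ}
    (hx : ∀ t, HasDerivAt x (f (x t)) t) (t : ℝ) :
    HasDerivAt (fun t => x (T * t)) (T • f (x (T * t))) t := by
  have h1 : HasDerivAt (fun t : ℝ => T * t) T t := by
    simpa using (hasDerivAt_id t).const_mul T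
  exact (hx (T * t)).scomp t h1

theorem transfer (hk : ∀ i, 0 < k i) {f : St 𝒩 k → St 𝒩 k} (hw : WeaklyAdmissible f)
    {x : ℝ → St 𝒩 k} {T : ℝ} (hx : IsPeriodicOrbit f x T) (hh : Hyperbolic f x T) {δ : ℝ}
    (hδ : 0 < δ) :
    ∃ (f' : St 𝒩 k → St 𝒩 k) (x' : ℝ → St 𝒩 k) (T' : ℝ), GG (fun y => f' y - f y) ∧
      (∀ y, ‖f' y - f y‖ < δ ∧ ‖fderiv ℝ f' y - fderiv ℝ f y‖ < δ) ∧
      IsPeriodicOrbit f' x' T' ∧ |T' - T| < δ ∧ (∀ t ∈ Set.Icc 0 T, ‖x' t - x t‖ < δ) ∧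
      (∀ c d, Pattern x' c d → Pattern x c d) ∧ Balanced (Pattern x') := by
  obtain ⟨hd, hT, hper, hne⟩ := hx
  have hf := hw.1
  have hxc : Continuous x := continuous_iff_continuousAt.2 fun t => (hd t).continuousAt
  set y : ℝ → St 𝒩 k := fun t => x (T * t) with hy
  have hyc : Continuous y := hxc.comp (continuous_const.mul continuous_id)
  have hyd : ∀ t, HasDerivAt y (T • f (y t)) t := fun t => scaled_deriv hd t
  have hyper : ∀ t, y (t + 1) = y t := fun t => by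
    show x (T * (t + 1)) = x (T * t)
    rw [mul_add, mul_one, hper]
  have hxy : ∀ t, x t = y (t / T) := fun t => by
    show x t = x (T * (t / T))
    rw [mul_div_cancel₀ _ hT.ne']
  set u0 : CI (St 𝒩 k) := resC y hyc with hu0
  have horb : Orb f hf.continuous u0 T := orb_of_sol hf.continuous hT hyd hyper hyc
  have hpy : ∀ t, perx u0 t = y t := by
    intro t
    have h1 : perx u0 t = y (Int.fract t) := by
      rw [perx]
      exact ext_res y hyc ⟨Int.fract_nonneg t, (Int.fract_lt_one t).le⟩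
    rw [h1]
    have hp : Function.Periodic y 1 := hyper
    have h2 := hp.sub_int_mul_eq (x := t) ⌊t⌋
    rw [mul_one] at h2
    exact h2
  -- nondegeneracy
  have hv : f (x 0) ≠ 0 := vel_ne hf hd hT hper hne
  obtain ⟨ℓ, -, hℓ⟩ := exists_dual_vector ℝ (f (x 0)) (norm_ne_zero_iff.2 hv)
  obtain ⟨M, hM, hmult, -⟩ := hh
  have hbij : Function.Bijective (Lop ℓ (dN f hf u0) (Nem f hf.continuous u0) T) := by
    refine nd_of_mult ℓ hf hyc hyd hyper (M := M) (fun v => ?_) hmult ?_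
    · obtain ⟨w, hw0, hwd, hwT⟩ := hM v
      refine ⟨fun t => w (T * t), by simpa using hw0, fun t => ?_, by simpa using hwT⟩
      have h1 : HasDerivAt (fun t : ℝ => T * t) T t := by
        simpa using (hasDerivAt_id t).const_mul T
      exact (hwd (T * t)).scomp t h1
    · show ℓ (f (x (T * 0))) ≠ 0
      rw [mul_zero, hℓ]
      exact norm_ne_zero_iff.2 hv
  -- the open set
  have hev : ∀ᶠ p : CI (St 𝒩 k) × ℝ in 𝓝 (u0, T), |p.2 - T| < δ ∧ 0 < p.2 ∧
      (∀ t ∈ Set.Icc 0 T, ‖perx p.1 (t / p.2) - x t‖ < δ) ∧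
      (∀ c d : Nd 𝒩, (∀ t, Same (perx p.1 t c.1 c.2) (perx p.1 t d.1 d.2)) → Pattern x c d) ∧
      ∃ t, perx p.1 t ≠ perx p.1 0 := by
    have hfst : Tendsto (fun p : CI (St 𝒩 k) × ℝ => p.1) (𝓝 (u0, T)) (𝓝 u0) := continuous_fst.tendsto _
    have hsnd : Tendsto (fun p : CI (St 𝒩 k) × ℝ => p.2) (𝓝 (u0, T)) (𝓝 T) := continuous_snd.tendsto _
    have a1 : ∀ᶠ p : CI (St 𝒩 k) × ℝ in 𝓝 (u0, T), |p.2 - T| < δ := by
      have : Tendsto (fun p : CI (St 𝒩 k) × ℝ => |p.2 - T|) (𝓝 (u0, T)) (𝓝 0) := by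
        have := ((hsnd.sub_const T).abs)
        simpa using this
      exact this.eventually (gt_mem_nhds hδ)
    have a2 : ∀ᶠ p : CI (St 𝒩 k) × ℝ in 𝓝 (u0, T), 0 < p.2 := hsnd.eventually (lt_mem_nhds hT)
    have a3 : ∀ᶠ p : CI (St 𝒩 k) × ℝ in 𝓝 (u0, T), ‖p.1 - u0‖ < δ / 2 := by
      have : Tendsto (fun p : CI (St 𝒩 k) × ℝ => ‖p.1 - u0‖) (𝓝 (u0, T)) (𝓝 0) := by
        have := (hfst.sub_const u0).norm
        simpa using this
      exact this.eventually (gt_mem_nhds (half_pos hδ))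
    set C : ℝ := T * ‖Nem f hf.continuous u0‖ with hC
    have hC0 : 0 ≤ C := by positivity
    have a4 : ∀ᶠ p : CI (St 𝒩 k) × ℝ in 𝓝 (u0, T), C * (T * |p.2⁻¹ - T⁻¹|) < δ / 2 := by
      have : Tendsto (fun p : CI (St 𝒩 k) × ℝ => C * (T * |p.2⁻¹ - T⁻¹|)) (𝓝 (u0, T)) (𝓝 0) := by
        have h1 := (((hsnd.inv₀ hT.ne').sub_const T⁻¹).abs.const_mul T).const_mul C
        simpa using h1
      exact this.eventually (gt_mem_nhds (half_pos hδ))
    have a5 : ∀ᶠ p : CI (St 𝒩 k) × ℝ in 𝓝 (u0, T), ∀ q : Nd 𝒩 × Nd 𝒩,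
        (∀ t, Same (perx p.1 t q.1.1 q.1.2) (perx p.1 t q.2.1 q.2.2)) → Pattern x q.1 q.2 := by
      refine eventually_all.2 fun q => ?_
      by_cases h : Pattern x q.1 q.2
      · exact Eventually.of_forall fun _ _ => h
      · unfold Pattern at h
        push Not at h
        obtain ⟨t, ht⟩ := h
        have hc : Continuous fun p : CI (St 𝒩 k) × ℝ => perx p.1 (t / T) := by
          unfold perx
          have h1 : Continuous fun u : CI (St 𝒩 k) => ext u (Int.fract (t / T)) := by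
            simp only [ext_eq]
            exact continuous_eval_const (F := CI (St 𝒩 k)) _
          exact h1.comp continuous_fst
        have h2 : {w : St 𝒩 k | Same (w q.1.1 q.1.2) (w q.2.1 q.2.2)}ᶜ ∈ 𝓝 (perx u0 (t / T)) := by
          refine (same_closed q.1 q.2).isOpen_compl.mem_nhds ?_
          rw [hpy, ← hxy]
          exact ht
        filter_upwards [hc.continuousAt.preimage_mem_nhds h2] with p hp hcon
        exact absurd (hcon (t / T)) hp
    have a6 : ∀ᶠ p : CI (St 𝒩 k) × ℝ in 𝓝 (u0, T), ∃ t, perx p.1 t ≠ perx p.1 0 := by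
      obtain ⟨t, ht⟩ := hne
      have hc : ∀ s : ℝ, Continuous fun p : CI (St 𝒩 k) × ℝ => perx p.1 s := by
        intro s
        unfold perx
        have h1 : Continuous fun u : CI (St 𝒩 k) => ext u (Int.fract s) := by
          simp only [ext_eq]
          exact continuous_eval_const (F := CI (St 𝒩 k)) _
        exact h1.comp continuous_fst
      have h2 : {p : CI (St 𝒩 k) × ℝ | perx p.1 (t / T) = perx p.1 0}ᶜ ∈ 𝓝 (u0, T) := by
        refine (isClosed_eq (hc _) (hc _)).isOpen_compl.mem_nhds ?_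
        show ¬ perx u0 (t / T) = perx u0 0
        have e0 : y 0 = x 0 := by show x (T * 0) = x 0; rw [mul_zero]
        rw [hpy, hpy, ← hxy, e0]
        exact ht
      filter_upwards [h2] with p hp
      exact ⟨t / T, hp⟩
    filter_upwards [a1, a2, a3, a4, a5, a6] with p b1 b2 b3 b4 b5 b6
    refine ⟨b1, b2, fun t ht => ?_, fun c d h => b5 (c, d) h, b6⟩
    have c1 : ‖perx p.1 (t / p.2) - perx u0 (t / p.2)‖ ≤ ‖p.1 - u0‖ := norm_ext_le (p.1 - u0) _
    have hlip : LipschitzWith (⟨C, hC0⟩ : NNReal) y := by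
      refine lipschitzWith_of_nnnorm_deriv_le (𝕜 := ℝ) (fun t => (hyd t).differentiableAt) fun t => ?_
      rw [(hyd t).deriv, ← NNReal.coe_le_coe, coe_nnnorm, norm_smul, Real.norm_eq_abs, abs_of_pos hT]
      show T * ‖f (y t)‖ ≤ C
      refine mul_le_mul_of_nonneg_left ?_ hT.le
      rw [← hpy]
      exact norm_ext_le (Nem f hf.continuous u0) (Int.fract t)
    have c2 := hlip.dist_le_mul (t / p.2) (t / T)
    rw [dist_eq_norm, Real.dist_eq] at c2
    have c3 : |t / p.2 - t / T| ≤ T * |p.2⁻¹ - T⁻¹| := by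
      rw [div_eq_mul_inv, div_eq_mul_inv, ← mul_sub, abs_mul, abs_of_nonneg ht.1]
      exact mul_le_mul_of_nonneg_right ht.2 (abs_nonneg _)
    have c4 : ‖y (t / p.2) - y (t / T)‖ ≤ C * (T * |p.2⁻¹ - T⁻¹|) :=
      c2.trans (mul_le_mul_of_nonneg_left c3 hC0)
    have c5 := norm_add_le (perx p.1 (t / p.2) - perx u0 (t / p.2)) (y (t / p.2) - y (t / T))
    have c6 : (perx p.1 (t / p.2) - perx u0 (t / p.2)) + (y (t / p.2) - y (t / T)) =
        perx p.1 (t / p.2) - x t := by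
      rw [hpy, ← hxy t]
      abel
    rw [c6] at c5
    linarith
  obtain ⟨U, hUsub, hUopen, hUmem⟩ := mem_nhds_iff.1 hev
  obtain ⟨f', hf', u, τ, F, hB⟩ := core hk hw ℓ hδ hUopen hUmem horb hbij
  obtain ⟨b1, b2, b3, b4, b5⟩ := hUsub F.mem
  simp only at b1 b2 b3 b4 b5
  have hpat : ∀ c d : Nd 𝒩, Pattern (fun t => perx u (t / τ)) c d ↔
      ∀ t, Same (perx u t c.1 c.2) (perx u t d.1 d.2) := by
    intro c d
    refine ⟨fun h t => ?_, fun h t => h (t / τ)⟩
    have h1 := h (τ * t)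
    simp only at h1
    rwa [mul_div_cancel_left₀ _ b2.ne'] at h1
  refine ⟨f', fun t => perx u (t / τ), τ, F.gg, ?_, ⟨fun t => ?_, b2, fun t => ?_, ?_⟩, b1, b3,
    fun c d h => b4 c d ((hpat c d).1 h), ?_⟩
  · obtain ⟨B, hBδ, hB1⟩ := F.bd
    exact fun y => ⟨(hB1 y).1.trans_lt hBδ, (hB1 y).2.trans_lt hBδ⟩
  · have h1 : HasDerivAt (fun t : ℝ => t / τ) τ⁻¹ t := by
      simpa using (hasDerivAt_id t).div_const τ
    have h2 := (perx_sol F.orb (t / τ)).scomp t h1
    rw [smul_smul, inv_mul_cancel₀ b2.ne', one_smul] at h2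
    exact h2
  · show perx u ((t + τ) / τ) = perx u (t / τ)
    rw [add_div, div_self b2.ne', perx_per]
  · obtain ⟨t, ht⟩ := b5
    refine ⟨τ * t, ?_⟩
    show perx u (τ * t / τ) ≠ perx u (0 / τ)
    rwa [mul_div_cancel_left₀ _ b2.ne', zero_div]
  · have hrel : Pattern (fun t => perx u (t / τ)) = fun c d : Nd 𝒩 =>
        ∀ t, Same (perx u t c.1 c.2) (perx u t d.1 d.2) := by
      funext c d
      exact propext (hpat c d)
    rw [hrel]
    exact hB

lemma admissible_of_sub {f f' : St 𝒩 k → St 𝒩 k} (hf : Admissible f) (hg : GG (fun y => f' y - f y)) :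
    Admissible f' := by
  have h1 := hf.add hg.1 1
  have h2 : (fun x => f x + (1:ℝ) • (f' x - f x)) = f' := by
    funext x
    rw [one_smul]
    abel
  rwa [h2] at h1

lemma weaklyAdmissible_of_sub {f f' : St 𝒩 k → St 𝒩 k} (hf : WeaklyAdmissible f)
    (hg : GG (fun y => f' y - f y)) : WeaklyAdmissible f' := by
  have h1 := hf.add hg.1.weakly 1
  have h2 : (fun x => f x + (1:ℝ) • (f' x - f x)) = f' := by
    funext x
    rw [one_smul]
    abel
  rwa [h2] at h1

theorem main (hk : ∀ i, 0 < k i) {f : St 𝒩 k → St 𝒩 k} (hw : WeaklyAdmissible f)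
    {x : ℝ → St 𝒩 k} {T : ℝ} (hx : IsPeriodicOrbit f x T) (hh : Hyperbolic f x T)
    (Adm : (St 𝒩 k → St 𝒩 k) → Prop) (hAdm : ∀ f', GG (fun y => f' y - f y) → Adm f') :
    (RigidIn Adm Pattern f x T → Balanced (Pattern x)) ∧
    (RigidIn Adm TypedPattern f x T → Balanced (TypedPattern x)) := by
  constructor
  · rintro ⟨δ, hδ, hr⟩
    obtain ⟨f', x', T', h1, h2, h3, h4, h5, h6, h7⟩ := transfer hk hw hx hh hδ
    have h8 := hr f' (hAdm f' h1) h2 x' T' h3 ⟨h4, h5⟩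
    have h9 : Pattern x = Pattern x' := by
      funext c d
      exact propext ⟨h8 c d, h6 c d⟩
    rw [h9]
    exact h7
  · rintro ⟨δ, hδ, hr⟩
    obtain ⟨f', x', T', h1, h2, h3, h4, h5, h6, h7⟩ := transfer hk hw hx hh hδ
    have h8 := hr f' (hAdm f' h1) h2 x' T' h3 ⟨h4, h5⟩
    have h9 : TypedPattern x = Pattern x' := by
      funext c d
      exact propext ⟨fun h => (h8 c d h).2, fun h => ⟨h7.1 c d h, h6 c d h⟩⟩
    rw [h9]
    exact h7

end Q66.RigidSynchrony
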