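import Mathlib

set_option autoImplicit false

namespace Q66.RigidSynchrony

/-- A finite network. `NT` is the set of node types and `Node i` the set of nodes of type `i`.
Arrow types are listed by the type of the head: `AT i` is the set of arrow types whose arrows have
heads of node type `i`, and `src i a` is the node type of the tails of the arrows of type `a`
(so arrows of equal type have heads of equal type and tails of equal type). `In i c a` is the set of
arrows of type `a` whose head is the node `c`, and `tail i c a e` is the tail of such an arrow.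
The input set of `c` is the disjoint union of the sets `In i c a` over `a : AT i`; multiple arrows
and arrows from a node to itself are allowed. -/
structure Network where
  NT : Type
  Node : NT → Type
  AT : NT → Type
  src : ∀ i : NT, AT i → NT
  In : ∀ i : NT, Node i → AT i → Type
  tail : ∀ (i : NT) (c : Node i) (a : AT i), In i c a → Node (src i a)
  [fNT : Fintype NT]
  [fNode : ∀ i, Fintype (Node i)]
  [fAT : ∀ i, Fintype (AT i)]
  [fIn : ∀ i c a, Fintype (In i c a)]

attribute [instance] Network.fNT Network.fNode Network.fAT Network.fIn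

variable (𝒩 : Network) (k : 𝒩.NT → ℕ)

/-- The total state space: every node of type `i` has state space `ℝ ^ (k i)`. -/
abbrev St := ∀ i : 𝒩.NT, 𝒩.Node i → Fin (k i) → ℝ

/-- The space of the states of the tails of the arrows in the input set of `c`. -/
abbrev InSt (i : 𝒩.NT) (c : 𝒩.Node i) :=
  ∀ a : 𝒩.AT i, 𝒩.In i c a → Fin (k (𝒩.src i a)) → ℝ

/-- An input isomorphism `I(c) → I(d)`: a type-preserving bijection of the input sets. -/
abbrev InIso (i : 𝒩.NT) (c d : 𝒩.Node i) := ∀ a : 𝒩.AT i, 𝒩.In i c a ≃ 𝒩.In i d a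

variable {𝒩 k}

/-- The states at the tails of the arrows in the input set of `c`. -/
def inp (x : St 𝒩 k) (i : 𝒩.NT) (c : 𝒩.Node i) : InSt 𝒩 k i c :=
  fun a e => x (𝒩.src i a) (𝒩.tail i c a e)

/-- The family of functions `F` represents the vector field `f` and is invariant under
relabelling of the tail variables by input isomorphisms. -/
def Represents (F : ∀ (i : 𝒩.NT) (c : 𝒩.Node i), (Fin (k i) → ℝ) × InSt 𝒩 k i c → Fin (k i) → ℝ)
    (f : St 𝒩 k → St 𝒩 k) : Prop :=
  (∀ x i c, f x i c = F i c (x i c, inp x i c)) ∧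
  ∀ (i : 𝒩.NT) (c d : 𝒩.Node i) (β : InIso 𝒩 i c d) (y : Fin (k i) → ℝ) (z : InSt 𝒩 k i d),
    F i d (y, z) = F i c (y, fun a e => z a (β a e))

/-- Admissible `C¹` vector fields. -/
def Admissible (f : St 𝒩 k → St 𝒩 k) : Prop :=
  ∃ F, Represents F f ∧ ∀ (i : 𝒩.NT) (c : 𝒩.Node i), ContDiff ℝ 1 (F i c)

/-- Variant of admissibility: the functions of own state and tail states are arbitrary, only the
resulting vector field is required to be `C¹` (this makes a difference only for multiple arrows). -/
def WeaklyAdmissible (f : St 𝒩 k → St 𝒩 k) : Prop :=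
  ContDiff ℝ 1 f ∧ ∃ F, Represents F f

section Generic

variable {E : Type} [NormedAddCommGroup E] [NormedSpace ℝ E]

/-- `x` is a non-constant periodic solution of `x' = f(x)` with period `T`. -/
def IsPeriodicOrbit (f : E → E) (x : ℝ → E) (T : ℝ) : Prop :=
  (∀ t, HasDerivAt x (f (x t)) t) ∧ 0 < T ∧ (∀ t, x (t + T) = x t) ∧ ∃ t, x t ≠ x 0

/-- `M` is the monodromy operator: the time-`T` map of the variational equation along `x`. -/
def IsMonodromy (f : E → E) (x : ℝ → E) (T : ℝ) (M : E →ₗ[ℝ] E) : Prop :=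
  ∀ v, ∃ w : ℝ → E, w 0 = v ∧ (∀ t, HasDerivAt w (fderiv ℝ f (x t) (w t)) t) ∧ w T = M v

/-- Hyperbolicity: the only Floquet multiplier (complex eigenvalue of the monodromy operator) on the
unit circle is `1`, and it is simple (a simple root of the characteristic polynomial). -/
def Hyperbolic [FiniteDimensional ℝ E] (f : E → E) (x : ℝ → E) (T : ℝ) : Prop :=
  ∃ M : E →ₗ[ℝ] E, IsMonodromy f x T M ∧ M.charpoly.rootMultiplicity 1 = 1 ∧
    ∀ z : ℂ, (M.charpoly.map (algebraMap ℝ ℂ)).IsRoot z → ‖z‖ = 1 → z = 1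

/-- The `C¹` distance of `f'` and `f` is less than `δ`. -/
def FieldClose (δ : ℝ) (f f' : E → E) : Prop :=
  ∀ y, ‖f' y - f y‖ < δ ∧ ‖fderiv ℝ f' y - fderiv ℝ f y‖ < δ

/-- `x'` (with period `T'`) is `δ`-close to the orbit `x` of period `T`. -/
def OrbitClose (δ : ℝ) (x : ℝ → E) (T : ℝ) (x' : ℝ → E) (T' : ℝ) : Prop :=
  |T' - T| < δ ∧ ∀ t ∈ Set.Icc 0 T, ‖x' t - x t‖ < δ

end Generic

/-- Equality of two states of nodes (which makes sense when the state spaces coincide). -/
def Same {m n : ℕ} (u : Fin m → ℝ) (v : Fin n → ℝ) : Prop :=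
  ∃ h : m = n, ∀ j : Fin m, u j = v (Fin.cast h j)

/-- Relations on the set of all nodes. -/
abbrev Rel (𝒩 : Network) := (Σ i, 𝒩.Node i) → (Σ i, 𝒩.Node i) → Prop

/-- The synchrony pattern of `x`, where nodes of different types are compared too if their state
spaces have the same dimension. -/
def Pattern (x : ℝ → St 𝒩 k) : Rel 𝒩 := fun c d => ∀ t, Same (x t c.1 c.2) (x t d.1 d.2)

/-- The synchrony pattern of `x`, where only nodes of the same type are compared. -/
def TypedPattern (x : ℝ → St 𝒩 k) : Rel 𝒩 := fun c d => c.1 = d.1 ∧ Pattern x c d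

/-- The synchrony pattern `Pat x` of the periodic orbit `x` of `f` is rigid, within the class `Adm` of
vector fields: for every `f'` in the class which is sufficiently `C¹`-close to `f`, the periodic orbit
`x'` of `f'` near `x` has all the synchronies of `x`. -/
def RigidIn (Adm : (St 𝒩 k → St 𝒩 k) → Prop) (Pat : (ℝ → St 𝒩 k) → Rel 𝒩)
    (f : St 𝒩 k → St 𝒩 k) (x : ℝ → St 𝒩 k) (T : ℝ) : Prop :=
  ∃ δ > 0, ∀ f' : St 𝒩 k → St 𝒩 k, Adm f' → FieldClose δ f f' →
    ∀ (x' : ℝ → St 𝒩 k) (T' : ℝ), IsPeriodicOrbit f' x' T' → OrbitClose δ x T x' T' →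
      ∀ c d, Pat x c d → Pat x' c d

/-- Balanced relations: related nodes have the same type, and their input sets are matched by an
input isomorphism which maps every arrow to an arrow with a related tail. -/
def Balanced (R : Rel 𝒩) : Prop :=
  (∀ c d, R c d → c.1 = d.1) ∧
  ∀ (i : 𝒩.NT) (c d : 𝒩.Node i), R ⟨i, c⟩ ⟨i, d⟩ → ∃ β : InIso 𝒩 i c d,
    ∀ (a : 𝒩.AT i) (e : 𝒩.In i c a),
      R ⟨𝒩.src i a, 𝒩.tail i c a e⟩ ⟨𝒩.src i a, 𝒩.tail i d a (β a e)⟩

end Q66.RigidSynchrony
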