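import Mathlib

/-!
# Sign matrices and Schur multiplier norms, I: maximising a linear functional over the
orthogonal group
-/

set_option autoImplicit false

open Finset
open scoped Matrix

namespace Q66.SN

variable {ι : Type*} [Fintype ι] [DecidableEq ι]

/-- The value `∑ u i * M i j * v j * V i j`. -/
noncomputable def val (M : Matrix ι ι ℝ) (u v : ι → ℝ) (V : Matrix ι ι ℝ) : ℝ :=
  ∑ i, ∑ j, u i * M i j * v j * V i j

/-- The pairing `∑ V i j * A i j`. -/
noncomputable def pr (V A : Matrix ι ι ℝ) : ℝ := ∑ i, ∑ j, V i j * A i j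

theorem pr_eq_trace (V A : Matrix ι ι ℝ) : pr V A = (Vᵀ * A).trace := by
  unfold pr Matrix.trace
  rw [Finset.sum_comm]
  refine Finset.sum_congr rfl fun j _ => ?_
  simp [Matrix.mul_apply, Matrix.diag]

theorem orth_entry_le {V : Matrix ι ι ℝ} (hV : Vᵀ * V = 1) (i j : ι) : |V i j| ≤ 1 := by
  have h1 : (Vᵀ * V) j j = 1 := by rw [hV]; simp
  rw [Matrix.mul_apply] at h1
  have h2 : V i j ^ 2 ≤ 1 := by
    rw [← h1]
    have := Finset.single_le_sum (f := fun k => Vᵀ j k * V k j)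
      (fun k _ => by simp only [Matrix.transpose_apply]; exact mul_self_nonneg _) (Finset.mem_univ i)
    simp only [Matrix.transpose_apply] at this
    simp only [Matrix.transpose_apply]
    nlinarith [this]
  exact (abs_le_one_iff_mul_self_le_one).2 (by nlinarith)

theorem isCompact_orth : IsCompact {V : ι → ι → ℝ | (Matrix.of V)ᵀ * (Matrix.of V) = 1} := by
  have hcl : IsClosed {V : ι → ι → ℝ | (Matrix.of V)ᵀ * (Matrix.of V) = 1} := by
    have : {V : ι → ι → ℝ | (Matrix.of V)ᵀ * (Matrix.of V) = 1} =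
        ⋂ i, ⋂ j, {V : ι → ι → ℝ | ∑ k, V k i * V k j = (1 : Matrix ι ι ℝ) i j} := by
      ext V
      simp only [Set.mem_ofPred_eq, Set.mem_iInter]
      rw [← Matrix.ext_iff]
      rfl
    rw [this]
    refine isClosed_iInter fun i => isClosed_iInter fun j => ?_
    exact isClosed_eq (by fun_prop) continuous_const
  refine IsCompact.of_isClosed_subset (isCompact_Icc (a := fun _ _ => (-1 : ℝ)) (b := fun _ _ => 1))
    hcl ?_
  intro V hV
  rw [Set.mem_Icc]
  have h := fun i j => abs_le.1 (orth_entry_le (V := Matrix.of V) hV i j)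
  exact ⟨fun i j => (h i j).1, fun i j => (h i j).2⟩

theorem exists_orth_max (A : Matrix ι ι ℝ) :
    ∃ V : Matrix ι ι ℝ, Vᵀ * V = 1 ∧ ∀ V' : Matrix ι ι ℝ, V'ᵀ * V' = 1 → pr V' A ≤ pr V A := by
  have hc : ContinuousOn (fun V : ι → ι → ℝ => pr (Matrix.of V) A)
      {V : ι → ι → ℝ | (Matrix.of V)ᵀ * (Matrix.of V) = 1} := by
    apply Continuous.continuousOn
    unfold pr
    simp only [Matrix.of_apply]
    fun_prop
  have hne : {V : ι → ι → ℝ | (Matrix.of V)ᵀ * (Matrix.of V) = 1}.Nonempty := by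
    refine ⟨fun i j => (1 : Matrix ι ι ℝ) i j, ?_⟩
    simp only [Set.mem_ofPred_eq]
    have : (Matrix.of fun i j => (1 : Matrix ι ι ℝ) i j) = 1 := rfl
    rw [this]; simp
  obtain ⟨V, hV, hmax⟩ := isCompact_orth.exists_isMaxOn hne hc
  refine ⟨Matrix.of V, hV, fun V' hV' => ?_⟩
  exact hmax (a := fun i j => V' i j) hV'

/-- Reflections. -/
theorem refl_orth {k : ι → ℝ} (hk : ∑ i, k i * k i = 1) :
    ((1 : Matrix ι ι ℝ) - (2 : ℝ) • Matrix.vecMulVec k k)ᵀ *
      ((1 : Matrix ι ι ℝ) - (2 : ℝ) • Matrix.vecMulVec k k) = 1 := by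
  have ht : (Matrix.vecMulVec k k)ᵀ = Matrix.vecMulVec k k := by
    rw [Matrix.transpose_vecMulVec]
  have hm : Matrix.vecMulVec k k * Matrix.vecMulVec k k = Matrix.vecMulVec k k := by
    rw [Matrix.vecMulVec_mul_vecMulVec]
    have : k ⬝ᵥ k = 1 := hk
    rw [this]; simp
  rw [Matrix.transpose_sub, Matrix.transpose_smul, ht, Matrix.transpose_one]
  rw [sub_mul, mul_sub, mul_sub]
  simp only [one_mul, mul_one, smul_mul_assoc, mul_smul_comm, hm]
  module

theorem quad_nonneg_of_max {A V : Matrix ι ι ℝ} (hV : Vᵀ * V = 1)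
    (hmax : ∀ V' : Matrix ι ι ℝ, V'ᵀ * V' = 1 → pr V' A ≤ pr V A) (k : ι → ℝ) :
    0 ≤ k ⬝ᵥ ((Vᵀ * A) *ᵥ k) := by
  -- first for unit vectors
  have unit : ∀ k : ι → ℝ, ∑ i, k i * k i = 1 → 0 ≤ k ⬝ᵥ ((Vᵀ * A) *ᵥ k) := by
    intro k hk
    have h1 := hmax (V * ((1 : Matrix ι ι ℝ) - (2 : ℝ) • Matrix.vecMulVec k k)) (by
      rw [Matrix.transpose_mul, Matrix.mul_assoc, ← Matrix.mul_assoc Vᵀ, hV, Matrix.one_mul]
      exact refl_orth hk)
    rw [pr_eq_trace, pr_eq_trace, Matrix.transpose_mul, Matrix.mul_assoc] at h1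
    rw [Matrix.transpose_sub, Matrix.transpose_smul, Matrix.transpose_vecMulVec,
      Matrix.transpose_one, sub_mul, one_mul, Matrix.trace_sub, smul_mul_assoc, Matrix.trace_smul]
      at h1
    have h2 : (Matrix.vecMulVec k k * (Vᵀ * A)).trace = k ⬝ᵥ ((Vᵀ * A) *ᵥ k) := by
      rw [Matrix.vecMulVec_mul, Matrix.trace_vecMulVec, Matrix.dotProduct_mulVec,
        dotProduct_comm]
    rw [h2] at h1
    simp only [smul_eq_mul] at h1
    linarith
  by_cases h0 : ∑ i, k i * k i = 0
  · have hk : k = 0 := by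
      funext i
      have := (Finset.sum_eq_zero_iff_of_nonneg (fun i _ => mul_self_nonneg (k i))).1 h0 i
        (Finset.mem_univ i)
      simpa using this
    rw [hk]; simp
  · have hpos : 0 < ∑ i, k i * k i :=
      lt_of_le_of_ne (Finset.sum_nonneg fun i _ => mul_self_nonneg _) (Ne.symm h0)
    set s := Real.sqrt (∑ i, k i * k i) with hs
    have hs0 : 0 < s := Real.sqrt_pos.2 hpos
    have hss : s * s = ∑ i, k i * k i := Real.mul_self_sqrt hpos.le
    have h1 := unit (s⁻¹ • k) (by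
      simp only [Pi.smul_apply, smul_eq_mul]
      have : ∀ i, s⁻¹ * k i * (s⁻¹ * k i) = (s * s)⁻¹ * (k i * k i) := by
        intro i; rw [mul_inv]; ring
      rw [Finset.sum_congr rfl fun i _ => this i, ← Finset.mul_sum, hss,
        inv_mul_cancel₀ h0])
    rw [Matrix.mulVec_smul, dotProduct_smul, smul_dotProduct] at h1
    simp only [smul_eq_mul] at h1
    have h3 : s⁻¹ * (s⁻¹ * (k ⬝ᵥ ((Vᵀ * A) *ᵥ k))) * (s * s) = k ⬝ᵥ ((Vᵀ * A) *ᵥ k) := by
      field_simp
    rw [← h3]
    exact mul_nonneg h1 (mul_self_nonneg s)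

theorem symm_of_max {A V : Matrix ι ι ℝ} (hV : Vᵀ * V = 1)
    (hmax : ∀ V' : Matrix ι ι ℝ, V'ᵀ * V' = 1 → pr V' A ≤ pr V A) : (Vᵀ * A)ᵀ = Vᵀ * A := by
  set P := Vᵀ * A with hP
  ext j i
  rw [Matrix.transpose_apply]
  by_cases hij : i = j
  · rw [hij]
  -- rotations in the plane of `i, j`
  have key : ∀ c s : ℝ, c ^ 2 + s ^ 2 = 1 →
      (c - 1) * (P i i + P j j) + s * (P i j - P j i) ≤ 0 := by
    intro c s hcs
    set D : Matrix ι ι ℝ := Matrix.single i i 1 + Matrix.single j j 1 with hD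
    set S : Matrix ι ι ℝ := Matrix.single i j 1 - Matrix.single j i 1 with hS
    have hji : j ≠ i := fun h => hij h.symm
    have hDD : D * D = D := by
      simp only [hD, add_mul, mul_add, Matrix.single_mul_single_same]
      rw [Matrix.single_mul_single_of_ne _ _ _ _ hij, Matrix.single_mul_single_of_ne _ _ _ _ hji]
      simp
    have hDS : D * S = S := by
      simp only [hD, hS, add_mul, mul_sub, Matrix.single_mul_single_same]
      rw [Matrix.single_mul_single_of_ne _ _ _ _ hij, Matrix.single_mul_single_of_ne _ _ _ _ hji]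
      simp
    have hSD : S * D = S := by
      simp only [hD, hS, sub_mul, mul_add, Matrix.single_mul_single_same]
      rw [Matrix.single_mul_single_of_ne _ _ _ _ hij, Matrix.single_mul_single_of_ne _ _ _ _ hji]
      simp only [mul_one]
      abel
    have hSS : S * S = - D := by
      simp only [hD, hS, sub_mul, mul_sub, Matrix.single_mul_single_same]
      rw [Matrix.single_mul_single_of_ne _ _ _ _ hij, Matrix.single_mul_single_of_ne _ _ _ _ hji]
      simp only [mul_one]
      abel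
    have hDt : Dᵀ = D := by simp [hD, Matrix.transpose_add]
    have hSt : Sᵀ = - S := by simp [hS, Matrix.transpose_sub]
    set G : Matrix ι ι ℝ := 1 + (c - 1) • D + s • S with hG
    have hGt : Gᵀ = 1 + (c - 1) • D - s • S := by
      rw [hG, Matrix.transpose_add, Matrix.transpose_add, Matrix.transpose_smul,
        Matrix.transpose_smul, hDt, hSt, Matrix.transpose_one]
      module
    have hGG : Gᵀ * G = 1 := by
      have h2 : (2 * (c - 1) + (c - 1) * (c - 1) + s * s) = 0 := by nlinarith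
      have h3 : Gᵀ * G = 1 + (2 * (c - 1) + (c - 1) * (c - 1) + s * s) • D := by
        rw [hGt, hG]
        simp only [sub_mul, add_mul, mul_add, one_mul, mul_one, smul_mul_assoc, mul_smul_comm,
          hDD, hDS, hSD, hSS]
        module
      rw [h3, h2, zero_smul, add_zero]
    have h1 := hmax (V * G) (by
      rw [Matrix.transpose_mul, Matrix.mul_assoc, ← Matrix.mul_assoc Vᵀ, hV, Matrix.one_mul, hGG])
    rw [pr_eq_trace, pr_eq_trace, Matrix.transpose_mul, Matrix.mul_assoc, ← hP, hGt] at h1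
    rw [sub_mul, add_mul, one_mul, smul_mul_assoc, smul_mul_assoc, Matrix.trace_sub,
      Matrix.trace_add, Matrix.trace_smul, Matrix.trace_smul] at h1
    have hDP : (D * P).trace = P i i + P j j := by
      rw [hD, add_mul, Matrix.trace_add, Matrix.trace_single_mul, Matrix.trace_single_mul]
      simp
    have hSP : (S * P).trace = P j i - P i j := by
      rw [hS, sub_mul, Matrix.trace_sub, Matrix.trace_single_mul, Matrix.trace_single_mul]
      simp
    rw [hDP, hSP] at h1
    simp only [smul_eq_mul] at h1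
    nlinarith [h1]
  -- deduce symmetry
  set K := P i i + P j j
  set d := P i j - P j i with hd
  have key2 : ∀ t : ℝ, t * d ≤ t ^ 2 * K := by
    intro t
    have h1 : (0 : ℝ) < 1 + t ^ 2 := by positivity
    have h2 := key ((1 - t ^ 2) / (1 + t ^ 2)) (2 * t / (1 + t ^ 2)) (by
      field_simp; ring)
    have h3 : ((1 - t ^ 2) / (1 + t ^ 2) - 1) * K + 2 * t / (1 + t ^ 2) * d =
        (2 / (1 + t ^ 2)) * (t * d - t ^ 2 * K) := by
      field_simp; ring
    rw [h3] at h2
    have h4 : (0 : ℝ) < 2 / (1 + t ^ 2) := by positivity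
    nlinarith [h2, h4]
  have hK : 0 ≤ K := by
    have := key2 1
    have := key2 (-1)
    nlinarith
  have hd0 : d = 0 := by
    by_contra hne
    have h1 := key2 (d / (2 * (K + 1)))
    have h2 : (0 : ℝ) < K + 1 := by linarith
    have h3 : d / (2 * (K + 1)) * d = d ^ 2 / (2 * (K + 1)) := by ring
    have h4 : (d / (2 * (K + 1))) ^ 2 * K = d ^ 2 * K / (4 * (K + 1) ^ 2) := by
      field_simp; ring
    rw [h3, h4, div_le_div_iff₀ (by positivity) (by positivity)] at h1
    have h5 : 0 < d ^ 2 := by positivity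
    nlinarith [mul_pos h5 h2, mul_nonneg h5.le hK, mul_pos (mul_pos h5 h2) h2]
  rw [hd] at hd0
  linarith

theorem psd_of_max {A V : Matrix ι ι ℝ} (hV : Vᵀ * V = 1)
    (hmax : ∀ V' : Matrix ι ι ℝ, V'ᵀ * V' = 1 → pr V' A ≤ pr V A) : (Vᵀ * A).PosSemidef := by
  refine Matrix.PosSemidef.of_dotProduct_mulVec_nonneg ?_ ?_
  · rw [Matrix.IsHermitian, Matrix.conjTranspose_eq_transpose_of_trivial]
    exact symm_of_max hV hmax
  · intro x
    have := quad_nonneg_of_max hV hmax x
    simpa using this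

/-- A contraction pairs with `A` at most as much as the maximal orthogonal matrix. -/
theorem contraction_le {A V D : Matrix ι ι ℝ} (hV : Vᵀ * V = 1)
    (hmax : ∀ V' : Matrix ι ι ℝ, V'ᵀ * V' = 1 → pr V' A ≤ pr V A)
    (hD : ∀ x y : ι → ℝ, x ⬝ᵥ (D *ᵥ y) ≤ (x ⬝ᵥ x + y ⬝ᵥ y) / 2) : pr D A ≤ pr V A := by
  obtain ⟨m, w, hw⟩ := (Matrix.posSemidef_iff_eq_sum_vecMulVec).1 (psd_of_max hV hmax)
  have hVV : V * Vᵀ = 1 := mul_eq_one_comm.1 hV
  have hA : A = V * (∑ i, Matrix.vecMulVec (w i) (star (w i))) := by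
    rw [← hw, ← Matrix.mul_assoc, hVV, Matrix.one_mul]
  have hstar : ∀ i, star (w i) = w i := fun i => by funext j; simp
  rw [pr_eq_trace, pr_eq_trace, hw]
  have h1 : (Dᵀ * A).trace = ∑ i, (V *ᵥ w i) ⬝ᵥ (D *ᵥ w i) := by
    rw [hA, ← Matrix.mul_assoc, Matrix.mul_sum, Matrix.trace_sum]
    refine Finset.sum_congr rfl fun i _ => ?_
    rw [hstar, Matrix.mul_vecMulVec, Matrix.trace_vecMulVec, ← Matrix.mulVec_mulVec,
      Matrix.mulVec_transpose, ← Matrix.dotProduct_mulVec]
  have h2 : (∑ i, Matrix.vecMulVec (w i) (star (w i))).trace = ∑ i, w i ⬝ᵥ w i := by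
    rw [Matrix.trace_sum]
    refine Finset.sum_congr rfl fun i _ => ?_
    rw [hstar, Matrix.trace_vecMulVec]
  rw [h1, h2]
  refine Finset.sum_le_sum fun i _ => ?_
  have h3 := hD (V *ᵥ w i) (w i)
  have h4 : (V *ᵥ w i) ⬝ᵥ (V *ᵥ w i) = w i ⬝ᵥ w i := by
    rw [Matrix.dotProduct_mulVec, ← Matrix.mulVec_transpose, Matrix.mulVec_mulVec, hV,
      Matrix.one_mulVec]
  rw [h4] at h3
  linarith

end Q66.SN
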