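import Pool.Agent.Q66.SN3

/-!
# Sign matrices and Schur multiplier norms, IV: reduction of `r_n` to a real maximum
-/

set_option autoImplicit false

open Finset
open scoped Matrix Matrix.Norms.L2Operator

namespace Q66.SN

variable {ι : Type*} [Fintype ι] [DecidableEq ι]

/-- The Euclidean norm of a complex vector. -/
noncomputable def en (x : ι → ℂ) : ℝ := ‖(WithLp.toLp 2 x : EuclideanSpace ℂ ι)‖

theorem en_sq (x : ι → ℂ) : en x ^ 2 = ∑ i, ‖x i‖ ^ 2 := by
  rw [en, EuclideanSpace.norm_sq_eq]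

theorem en_nonneg (x : ι → ℂ) : 0 ≤ en x := norm_nonneg _

theorem bil_le (A : Matrix ι ι ℂ) (x y : ι → ℂ) :
    ‖∑ i, ∑ j, x i * A i j * y j‖ ≤ ‖A‖ * en x * en y := by
  have h1 : ∑ i, ∑ j, x i * A i j * y j =
      inner ℂ (WithLp.toLp 2 (fun i => (starRingEnd ℂ) (x i)) : EuclideanSpace ℂ ι)
        ((EuclideanSpace.equiv ι ℂ).symm (A *ᵥ y)) := by
    rw [PiLp.inner_apply]
    refine Finset.sum_congr rfl fun i _ => ?_
    simp only [RCLike.inner_apply]
    simp
    rw [show (A *ᵥ y) i = ∑ j, A i j * y j from rfl, Finset.sum_mul]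
    exact Finset.sum_congr rfl fun j _ => by ring
  rw [h1]
  have h2 := norm_inner_le_norm (𝕜 := ℂ)
    (WithLp.toLp 2 (fun i => (starRingEnd ℂ) (x i)) : EuclideanSpace ℂ ι)
    ((EuclideanSpace.equiv ι ℂ).symm (A *ᵥ y))
  have h3 := Matrix.l2_opNorm_mulVec A (WithLp.toLp 2 y : EuclideanSpace ℂ ι)
  have h4 : ‖(WithLp.toLp 2 (fun i => (starRingEnd ℂ) (x i)) : EuclideanSpace ℂ ι)‖ = en x := by
    have e : ‖(WithLp.toLp 2 (fun i => (starRingEnd ℂ) (x i)) : EuclideanSpace ℂ ι)‖ ^ 2 =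
        en x ^ 2 := by
      rw [EuclideanSpace.norm_sq_eq, en_sq]
      simp
    exact (pow_left_inj₀ (norm_nonneg _) (en_nonneg x) two_ne_zero).1 e
  rw [h4] at h2
  calc _ ≤ en x * ‖((EuclideanSpace.equiv ι ℂ).symm (A *ᵥ y))‖ := h2
    _ ≤ en x * (‖A‖ * en y) := mul_le_mul_of_nonneg_left h3 (en_nonneg x)
    _ = _ := by ring

theorem opNorm_le_of_bil {T : Matrix ι ι ℂ} {ρ : ℝ} (hρ : 0 ≤ ρ)
    (h : ∀ x y : ι → ℂ, ‖∑ i, ∑ j, x i * T i j * y j‖ ≤ ρ * en x * en y) : ‖T‖ ≤ ρ := by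
  rw [← Matrix.l2_opNorm_toEuclideanCLM]
  refine ContinuousLinearMap.opNorm_le_bound _ hρ fun y => ?_
  set z := Matrix.toEuclideanCLM (n := ι) (𝕜 := ℂ) T y with hz
  have hzi : ∀ i, z i = ∑ j, T i j * y j := by
    intro i
    rw [hz]
    simp [Matrix.ofLp_toEuclideanCLM, Matrix.mulVec, dotProduct]
  have h1 := h (fun i => (starRingEnd ℂ) (z i)) (fun j => y j)
  have h2 : ∑ i, ∑ j, (starRingEnd ℂ) (z i) * T i j * y j = ((‖z‖ ^ 2 : ℝ) : ℂ) := by
    rw [EuclideanSpace.norm_sq_eq]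
    push_cast
    refine Finset.sum_congr rfl fun i _ => ?_
    rw [← Complex.conj_mul' (z i)]
    have h6 : (starRingEnd ℂ) (z i) * z i = (starRingEnd ℂ) (z i) * ∑ j, T i j * y j := by
      rw [← hzi i]
    rw [h6, Finset.mul_sum]
    exact Finset.sum_congr rfl fun j _ => by ring
  rw [h2] at h1
  have h3 : ‖((‖z‖ ^ 2 : ℝ) : ℂ)‖ = ‖z‖ ^ 2 := by
    rw [Complex.norm_real, Real.norm_of_nonneg (by positivity)]
  have h4 : en (fun i => (starRingEnd ℂ) (z i)) = ‖z‖ := by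
    have e : en (fun i => (starRingEnd ℂ) (z i)) ^ 2 = ‖z‖ ^ 2 := by
      rw [EuclideanSpace.norm_sq_eq, en_sq]
      simp
    exact (pow_left_inj₀ (en_nonneg _) (norm_nonneg _) two_ne_zero).1 e
  have h5 : en (fun j => y j) = ‖y‖ := rfl
  rw [h3, h4, h5] at h1
  by_cases hz0 : ‖z‖ = 0
  · rw [hz0]; positivity
  · have hzp : 0 < ‖z‖ := lt_of_le_of_ne (norm_nonneg _) (Ne.symm hz0)
    have : ‖z‖ * ‖z‖ ≤ ‖z‖ * (ρ * ‖y‖) := by nlinarith [h1]
    exact le_of_mul_le_mul_left this hzp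

/-- Every complex number is its absolute value times a unimodular number. -/
theorem exists_phase (z : ℂ) : ∃ p : ℂ, ‖p‖ = 1 ∧ z = (‖z‖ : ℂ) * p := by
  by_cases h : z = 0
  · exact ⟨1, by simp, by simp [h]⟩
  · have hz : (‖z‖ : ℂ) ≠ 0 := by
      simpa using h
    refine ⟨z / (‖z‖ : ℂ), ?_, ?_⟩
    · rw [norm_div]; simp [h]
    · field_simp

/-- The upper bound for the Schur multiplier norm. -/
theorem schur_upper {M : Matrix ι ι ℝ} {ρ : ℝ} (hρ : 0 ≤ ρ)
    (h : ∀ (V : Matrix ι ι ℝ) (u v : ι → ℝ), Vᵀ * V = 1 → ∑ i, u i * u i = 1 →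
      ∑ i, v i * v i = 1 → val M u v V ≤ ρ) {A : Matrix ι ι ℂ} (hA : ‖A‖ ≤ 1) :
    ‖(M.map (fun t => (t : ℂ))) ⊙ A‖ ≤ ρ := by
  refine opNorm_le_of_bil hρ fun x y => ?_
  by_cases hx0 : en x = 0
  · have : ∀ i, x i = 0 := by
      intro i
      have h1 := en_sq x
      rw [hx0] at h1
      have h2 := (Finset.sum_eq_zero_iff_of_nonneg
        (fun i _ => by positivity : ∀ i ∈ Finset.univ, 0 ≤ ‖x i‖ ^ 2)).1
        (by rw [← h1]; norm_num) i (Finset.mem_univ i)
      simpa using h2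
    simp [this, hx0]
  by_cases hy0 : en y = 0
  · have : ∀ i, y i = 0 := by
      intro i
      have h1 := en_sq y
      rw [hy0] at h1
      have h2 := (Finset.sum_eq_zero_iff_of_nonneg
        (fun i _ => by positivity : ∀ i ∈ Finset.univ, 0 ≤ ‖y i‖ ^ 2)).1
        (by rw [← h1]; norm_num) i (Finset.mem_univ i)
      simpa using h2
    simp [this, hy0]
  have hX : 0 < en x := lt_of_le_of_ne (en_nonneg x) (Ne.symm hx0)
  have hY : 0 < en y := lt_of_le_of_ne (en_nonneg y) (Ne.symm hy0)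
  choose p hp1 hp using fun i => exists_phase (x i)
  choose q hq1 hq using fun i => exists_phase (y i)
  set z : ℂ := ∑ i, ∑ j, x i * ((M.map (fun t => (t : ℂ))) ⊙ A) i j * y j with hz
  obtain ⟨e, he1, he⟩ := exists_phase ((starRingEnd ℂ) z)
  -- `e * z = ‖z‖`
  have hez : e * z = (‖z‖ : ℂ) := by
    have h1 : z = (‖z‖ : ℂ) * (starRingEnd ℂ) e := by
      have := congrArg (starRingEnd ℂ) he
      simpa using this
    have h2 : e * (starRingEnd ℂ) e = 1 := by
      rw [Complex.mul_conj, Complex.normSq_eq_norm_sq, he1]; norm_num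
    calc e * z = e * ((‖z‖ : ℂ) * (starRingEnd ℂ) e) := by rw [← h1]
      _ = (‖z‖ : ℂ) * (e * (starRingEnd ℂ) e) := by ring
      _ = _ := by rw [h2, mul_one]
  set D : Matrix ι ι ℝ := Matrix.of fun i j => (e * p i * A i j * q j).re with hD
  set u : ι → ℝ := fun i => ‖x i‖ / en x with hu
  set v : ι → ℝ := fun i => ‖y i‖ / en y with hv
  have hu1 : ∑ i, u i * u i = 1 := by
    have : ∀ i, u i * u i = ‖x i‖ ^ 2 / en x ^ 2 := fun i => by rw [hu]; ring
    rw [Finset.sum_congr rfl fun i _ => this i, ← Finset.sum_div, ← en_sq]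
    field_simp
  have hv1 : ∑ i, v i * v i = 1 := by
    have : ∀ i, v i * v i = ‖y i‖ ^ 2 / en y ^ 2 := fun i => by rw [hv]; ring
    rw [Finset.sum_congr rfl fun i _ => this i, ← Finset.sum_div, ← en_sq]
    field_simp
  set A0 : Matrix ι ι ℝ := Matrix.of fun i j => u i * M i j * v j with hA0
  have hzD : ‖z‖ = en x * en y * pr D A0 := by
    have h1 : (e * z).re = ‖z‖ := by rw [hez]; simp
    rw [← h1, hz, Finset.mul_sum, Complex.re_sum]
    unfold pr
    rw [Finset.mul_sum]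
    refine Finset.sum_congr rfl fun i _ => ?_
    rw [Finset.mul_sum, Complex.re_sum, Finset.mul_sum]
    refine Finset.sum_congr rfl fun j _ => ?_
    simp only [Matrix.hadamard_apply, Matrix.map_apply, hD, hA0, Matrix.of_apply, hu, hv]
    have h2 : e * (x i * ((M i j : ℂ) * A i j) * y j) =
        ((‖x i‖ * M i j * ‖y j‖ : ℝ) : ℂ) * (e * p i * A i j * q j) := by
      conv_lhs => rw [hp i, hq j]
      push_cast; ring
    rw [h2, Complex.re_ofReal_mul]
    field_simp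
  have hDc : ∀ a b : ι → ℝ, a ⬝ᵥ (D *ᵥ b) ≤ (a ⬝ᵥ a + b ⬝ᵥ b) / 2 := by
    intro a b
    have h1 := bil_le A (fun i => (a i : ℂ) * (e * p i)) (fun j => q j * (b j : ℂ))
    have h2 : a ⬝ᵥ (D *ᵥ b) =
        (∑ i, ∑ j, (a i : ℂ) * (e * p i) * A i j * (q j * (b j : ℂ))).re := by
      rw [Complex.re_sum]
      simp only [dotProduct, Matrix.mulVec]
      refine Finset.sum_congr rfl fun i _ => ?_
      rw [Complex.re_sum, Finset.mul_sum]
      refine Finset.sum_congr rfl fun j _ => ?_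
      simp only [hD, Matrix.of_apply]
      have : (a i : ℂ) * (e * p i) * A i j * (q j * (b j : ℂ)) =
          ((a i * b j : ℝ) : ℂ) * (e * p i * A i j * q j) := by push_cast; ring
      rw [this, Complex.re_ofReal_mul]
      ring
    have h3 : en (fun i => (a i : ℂ) * (e * p i)) ^ 2 = a ⬝ᵥ a := by
      rw [en_sq]
      refine Finset.sum_congr rfl fun i _ => ?_
      rw [norm_mul, norm_mul, he1, hp1, Complex.norm_real]
      simp [pow_two]
    have h4 : en (fun j => q j * (b j : ℂ)) ^ 2 = b ⬝ᵥ b := by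
      rw [en_sq]
      refine Finset.sum_congr rfl fun i _ => ?_
      rw [norm_mul, hq1, Complex.norm_real]
      simp [pow_two]
    set a' := en (fun i => (a i : ℂ) * (e * p i))
    set b' := en (fun j => q j * (b j : ℂ))
    have ha' : 0 ≤ a' := en_nonneg _
    have hb' : 0 ≤ b' := en_nonneg _
    rw [h2, ← h3, ← h4]
    calc _ ≤ ‖∑ i, ∑ j, (a i : ℂ) * (e * p i) * A i j * (q j * (b j : ℂ))‖ :=
          Complex.re_le_norm _
      _ ≤ ‖A‖ * a' * b' := h1
      _ ≤ 1 * a' * b' := by gcongr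
      _ ≤ _ := by nlinarith [sq_nonneg (a' - b')]
  obtain ⟨V, hV, hmax⟩ := exists_orth_max A0
  have h1 := contraction_le hV hmax hDc
  have h2 : pr V A0 = val M u v V := by
    unfold pr val
    refine Finset.sum_congr rfl fun i _ => Finset.sum_congr rfl fun j _ => ?_
    simp only [hA0, Matrix.of_apply]; ring
  rw [h2] at h1
  have h3 := h V u v hV hu1 hv1
  rw [hzD]
  calc en x * en y * pr D A0 ≤ en x * en y * ρ :=
        mul_le_mul_of_nonneg_left (h1.trans h3) (by positivity)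
    _ = ρ * en x * en y := by ring

/-- Real orthogonal matrices have norm at most one. -/
theorem norm_orth_le {V : Matrix ι ι ℝ} (hV : Vᵀ * V = 1) :
    ‖V.map (fun t => (t : ℂ))‖ ≤ 1 := by
  refine opNorm_le_of_bil zero_le_one fun x y => ?_
  -- `x^T V y` with `‖V y‖ = ‖y‖`
  set Vc : Matrix ι ι ℂ := V.map (fun t => (t : ℂ)) with hVc
  have hVV : Vcᴴ * Vc = 1 := by
    ext i j
    have h1 : (Vᵀ * V) i j = (1 : Matrix ι ι ℝ) i j := by rw [hV]
    rw [Matrix.mul_apply] at h1 ⊢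
    simp only [Matrix.conjTranspose_apply, hVc, Matrix.map_apply, Matrix.transpose_apply] at h1 ⊢
    have h2 : ∀ k, star ((V k i : ℝ) : ℂ) * ((V k j : ℝ) : ℂ) = ((V k i * V k j : ℝ) : ℂ) := by
      intro k; simp
    rw [Finset.sum_congr rfl fun k _ => h2 k, ← Complex.ofReal_sum, h1, Matrix.one_apply,
      Matrix.one_apply]
    split_ifs <;> simp
  have h1 : ‖Vc‖ * ‖Vc‖ = ‖(1 : Matrix ι ι ℂ)‖ := by
    rw [← Matrix.l2_opNorm_conjTranspose_mul_self, hVV]
  have h2 : ‖(1 : Matrix ι ι ℂ)‖ ≤ 1 := by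
    rw [← Matrix.diagonal_one, Matrix.l2_opNorm_diagonal]
    exact (pi_norm_le_iff_of_nonneg zero_le_one).2 fun i => by simp
  have h3 : ‖Vc‖ ≤ 1 := by nlinarith [norm_nonneg Vc]
  calc _ ≤ ‖Vc‖ * en x * en y := bil_le Vc x y
    _ ≤ 1 * en x * en y := by gcongr <;> exact en_nonneg _

theorem val_le_norm {M V : Matrix ι ι ℝ} {u v : ι → ℝ} (hu : ∑ i, u i * u i = 1)
    (hv : ∑ i, v i * v i = 1) :
    val M u v V ≤ ‖(M.map (fun t => (t : ℂ))) ⊙ (V.map (fun t => (t : ℂ)))‖ := by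
  have h1 := bil_le ((M.map (fun t => (t : ℂ))) ⊙ (V.map (fun t => (t : ℂ))))
    (fun i => (u i : ℂ)) (fun i => (v i : ℂ))
  have h2 : ∑ i, ∑ j, (u i : ℂ) * ((M.map (fun t => (t : ℂ))) ⊙ (V.map (fun t => (t : ℂ)))) i j *
      (v j : ℂ) = ((val M u v V : ℝ) : ℂ) := by
    unfold val
    push_cast
    refine Finset.sum_congr rfl fun i _ => Finset.sum_congr rfl fun j _ => ?_
    simp only [Matrix.hadamard_apply, Matrix.map_apply]
    ring
  have h3 : en (fun i => (u i : ℂ)) = 1 := by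
    have : en (fun i => (u i : ℂ)) ^ 2 = 1 ^ 2 := by
      rw [en_sq, one_pow, ← hu]
      refine Finset.sum_congr rfl fun i _ => ?_
      rw [Complex.norm_real]; simp [pow_two]
    exact (pow_left_inj₀ (en_nonneg _) zero_le_one two_ne_zero).1 this
  have h4 : en (fun i => (v i : ℂ)) = 1 := by
    have : en (fun i => (v i : ℂ)) ^ 2 = 1 ^ 2 := by
      rw [en_sq, one_pow, ← hv]
      refine Finset.sum_congr rfl fun i _ => ?_
      rw [Complex.norm_real]; simp [pow_two]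
    exact (pow_left_inj₀ (en_nonneg _) zero_le_one two_ne_zero).1 this
  rw [h2, h3, h4, mul_one, mul_one, Complex.norm_real] at h1
  exact (le_abs_self _).trans h1

end Q66.SN
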