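import Pool.Agent.H719R2.PIR.Fin

/-!
# A collar of the unit circle with one further elliptic leaf
-/

open Set Complex Polynomial
open scoped ContDiff Real ComplexConjugate

namespace Pool.Agent.Q66.TwoEll

open Pool.Agent.H719R2.PIB
open Pool.Agent.H719R2 (PIR.ee PIR.ee_norm PIR.ee_ne)

/-- The real quadratic function `d |z|² + Re (e z²) + Re (b z) + a`. -/
noncomputable def quad (d : ℝ) (e b : ℂ) (a : ℝ) (z : ℂ) : ℝ :=
  d * normSq z + (e * z ^ 2).re + (b * z).re + a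

/-- Restriction to the unit circle. -/
noncomputable def T0 (A : ℝ) (b e : ℂ) (p : ℂ) : ℝ := A + (b * p + e * p ^ 2).re

/-- Derivative along the unit circle. -/
noncomputable def T1 (b e : ℂ) (p : ℂ) : ℝ := -(b * p + 2 * (e * p ^ 2)).im

/-- The quadratic coefficient on the tangent line. -/
noncomputable def T2 (d : ℝ) (e : ℂ) (p : ℂ) : ℝ := d - (e * p ^ 2).re

lemma quad_tangent (d : ℝ) (e b : ℂ) (a : ℝ) {p : ℂ} (hp : ‖p‖ = 1) (t : ℝ) :
    quad d e b a (p + t • (I * p)) = T0 (d + a) b e p + T1 b e p * t + T2 d e p * t ^ 2 := by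
  have hn : p.re * p.re + p.im * p.im = 1 := by
    have : normSq p = 1 := by rw [normSq_eq_norm_sq, hp]; norm_num
    rwa [normSq_apply] at this
  unfold quad T0 T1 T2
  simp only [normSq_apply, add_re, add_im, mul_re, mul_im, pow_two, real_smul, ofReal_re,
    ofReal_im, I_re, I_im, re_ofNat, im_ofNat]
  linear_combination (d * (1 + t * t)) * hn

lemma T0_hasDeriv (A : ℝ) (b e : ℂ) (Θ : ℝ) :
    HasDerivAt (fun Θ : ℝ => T0 A b e (PIR.ee Θ)) (T1 b e (PIR.ee Θ)) Θ := by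
  have h1 : HasDerivAt (fun Θ : ℝ => PIR.ee Θ) (PIR.ee Θ * I) Θ := by
    have h2 : HasDerivAt (fun Θ : ℝ => (Θ : ℂ) * I) (1 * I) Θ :=
      (HasDerivAt.ofReal_comp (hasDerivAt_id Θ)).mul_const I
    simpa [PIR.ee] using h2.cexp
  have h3 : HasDerivAt (fun Θ : ℝ => b * PIR.ee Θ + e * PIR.ee Θ ^ 2)
      (b * (PIR.ee Θ * I) + e * (2 * PIR.ee Θ ^ 1 * (PIR.ee Θ * I))) Θ := by
    have h4 := h1.pow 2
    exact ((h1.const_mul b).add (h4.const_mul e)).congr_deriv (by push_cast; ring)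
  have h5 := (reCLM.hasFDerivAt.comp_hasDerivAt Θ h3).const_add A
  refine h5.congr_deriv ?_
  unfold T1
  simp only [reCLM_apply, add_re, add_im, mul_re, mul_im, pow_one, pow_two, I_re, I_im,
    re_ofNat, im_ofNat]
  ring

/-- The sum of the inverse roots. -/
lemma inv_add {q0 q1 q2 s t : ℝ} (h0 : q0 ≠ 0) (hs : s ≠ 0) (ht : t ≠ 0) (hst : s ≠ t)
    (h1 : q0 + q1 * s + q2 * s ^ 2 = 0) (h2 : q0 + q1 * t + q2 * t ^ 2 = 0) :
    s⁻¹ + t⁻¹ = -q1 / q0 := by
  have h3 : q1 + q2 * (s + t) = 0 := by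
    have h4 : (s - t) * (q1 + q2 * (s + t)) = 0 := by linear_combination h1 - h2
    exact (mul_eq_zero.1 h4).resolve_left (sub_ne_zero.2 hst)
  have h5 : q0 = q2 * (s * t) := by linear_combination h1 - s * h3
  rw [inv_add_inv hs ht, div_eq_div_iff (mul_ne_zero hs ht) h0]
  linear_combination (s * t) * h3 + (s + t) * h5

/-- A projective tangent involution has constant sum of inverses. -/
lemma inv_add_of_projective {Y : ℂ → ℝ} {p : ℂ} (hp : ProjectiveInvolution Y p) :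
    ∃ k : ℝ, ∀ s t : ℝ, s < 0 → 0 < t → Y (p + t • (I * p)) ≤ 1 →
      Y (p + s • (I * p)) = Y (p + t • (I * p)) → s⁻¹ + t⁻¹ = k := by
  obtain ⟨a, c, d, had, h⟩ := hp
  refine ⟨c / a, fun s t hs ht h1 h2 => ?_⟩
  obtain ⟨e1, e2, e3, e4⟩ := h s t hs ht h1 h2
  have ha : a ≠ 0 := left_ne_zero_of_mul had
  rw [div_eq_iff e1] at e2
  rw [div_eq_iff e3] at e4
  have hst : t - s ≠ 0 := by
    have : 0 < t - s := by linarith
    exact this.ne'
  have h3 : d = -a := by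
    have : (t - s) * (d + a) = 0 := by linear_combination e4 - e2
    have := (mul_eq_zero.1 this).resolve_left hst
    linarith
  rw [inv_add_inv hs.ne ht.ne', div_eq_div_iff (mul_ne_zero hs.ne ht.ne') ha]
  rw [h3] at e2
  linear_combination e2

section

variable {Y : ℂ → ℝ}

/-- The two points of a leaf on a tangent line. -/
lemma exists_pair (h : IsCollar Y) {c : ℝ} (h0 : 0 < c) (h1 : c ≤ 1) (Θ : ℝ) :
    ∃ s t : ℝ, s < 0 ∧ 0 < t ∧ Y (PIR.ee Θ + t • (I * PIR.ee Θ)) = c ∧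
      Y (PIR.ee Θ + s • (I * PIR.ee Θ)) = c := by
  refine ⟨S Y (-1) c Θ, S Y 1 c Θ, S_neg h h0 h1 Θ, S_pos h h0 h1 Θ, ?_, ?_⟩
  · rw [point_eq]; exact Y_Z h h0 h1 Θ (σ := 1) (by norm_num)
  · rw [point_eq]; exact Y_Z h h0 h1 Θ (σ := -1) (by norm_num)

lemma T0_ne (h : IsCollar Y) {c : ℝ} (h0 : 0 < c) {d a : ℝ} {e b : ℂ}
    (hE : {z | Y z = c} = {z | quad d e b a z = 0}) {p : ℂ} (hp : ‖p‖ = 1) :
    T0 (d + a) b e p ≠ 0 := by
  intro h1
  have h2 : p ∈ {z | quad d e b a z = 0} := by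
    have := quad_tangent d e b a hp 0
    rw [zero_smul, add_zero] at this
    show quad d e b a p = 0
    rw [this, h1]; ring
  rw [← hE] at h2
  have h3 : Y p = c := h2
  rw [(h.leaf_zero p).2 hp] at h3
  exact h0.ne h3

lemma sum_eq (h : IsCollar Y) {c : ℝ} (h0 : 0 < c) (h1 : c ≤ 1) {d a : ℝ} {e b : ℂ}
    (hE : {z | Y z = c} = {z | quad d e b a z = 0}) {p : ℂ} (hp : ‖p‖ = 1)
    {k : ℝ} (hk : ∀ s t : ℝ, s < 0 → 0 < t → Y (p + t • (I * p)) ≤ 1 →
      Y (p + s • (I * p)) = Y (p + t • (I * p)) → s⁻¹ + t⁻¹ = k) :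
    k = -T1 b e p / T0 (d + a) b e p := by
  obtain ⟨Θ, rfl⟩ := exists_ee hp
  obtain ⟨s, t, hs, ht, e1, e2⟩ := exists_pair h h0 h1 Θ
  rw [← hk s t hs ht (by rw [e1]; exact h1) (by rw [e1, e2])]
  have q1 : PIR.ee Θ + t • (I * PIR.ee Θ) ∈ {z | quad d e b a z = 0} := by
    rw [← hE]; exact e1
  have q2 : PIR.ee Θ + s • (I * PIR.ee Θ) ∈ {z | quad d e b a z = 0} := by
    rw [← hE]; exact e2
  have q1' : quad d e b a (PIR.ee Θ + t • (I * PIR.ee Θ)) = 0 := q1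
  have q2' : quad d e b a (PIR.ee Θ + s • (I * PIR.ee Θ)) = 0 := q2
  rw [quad_tangent d e b a hp] at q1' q2'
  exact inv_add (T0_ne h h0 hE hp) hs.ne ht.ne' (by linarith) q2' q1'

/-- A conic leaf makes the tangent involutions rational. -/
theorem rational_of_conic (h : IsCollar Y) (hp : ∀ p : ℂ, ‖p‖ = 1 → ProjectiveInvolution Y p)
    {c : ℝ} (h0 : 0 < c) (h1 : c ≤ 1) {d a : ℝ} {e b : ℂ}
    (hE : {z | Y z = c} = {z | quad d e b a z = 0}) : RationalInvolutions Y := by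
  refine ⟨C (I * conj e) + C (I / 2 * conj b) * X - C (I / 2 * b) * X ^ 3 - C (I * e) * X ^ 4,
    C (conj e / 2) + C (conj b / 2) * X + C ((d + a : ℝ) : ℂ) * X ^ 2 + C (b / 2) * X ^ 3 +
      C (e / 2) * X ^ 4, fun p hp1 => ?_⟩
  have hpp : p * conj p = 1 := by
    rw [mul_conj, normSq_eq_norm_sq, hp1]; norm_num
  have hp0 : p ≠ 0 := by
    intro h; rw [h] at hp1; simp at hp1
  have hD : (C (conj e / 2) + C (conj b / 2) * X + C ((d + a : ℝ) : ℂ) * X ^ 2 +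
      C (b / 2) * X ^ 3 + C (e / 2) * X ^ 4 : ℂ[X]).eval p =
      p ^ 2 * ((T0 (d + a) b e p : ℝ) : ℂ) := by
    have e1 : ((T0 (d + a) b e p : ℝ) : ℂ) = ((d + a : ℝ) : ℂ) +
        ((b * p + e * p ^ 2) + conj (b * p + e * p ^ 2)) / 2 := by
      rw [← re_eq_add_conj]
      unfold T0
      push_cast; ring
    rw [e1]
    simp only [eval_add, eval_mul, eval_C, eval_X, eval_pow, map_add, map_mul, map_pow]
    linear_combination (-(conj b / 2 * p) - conj e / 2 * (p * conj p + 1)) * hpp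
  have hN : (C (I * conj e) + C (I / 2 * conj b) * X - C (I / 2 * b) * X ^ 3 -
      C (I * e) * X ^ 4 : ℂ[X]).eval p = p ^ 2 * ((-T1 b e p : ℝ) : ℂ) := by
    have e1 : ((-T1 b e p : ℝ) : ℂ) =
        ((b * p + 2 * (e * p ^ 2)) - conj (b * p + 2 * (e * p ^ 2))) / (2 * I) := by
      rw [← im_eq_sub_conj]
      unfold T1
      push_cast; ring
    rw [e1]
    have hI : (2 * I : ℂ) ≠ 0 := mul_ne_zero two_ne_zero I_ne_zero
    rw [mul_div_assoc', eq_div_iff hI]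
    simp only [eval_add, eval_sub, eval_mul, eval_C, eval_X, eval_pow, map_add, map_mul, map_pow,
      Complex.conj_ofNat]
    linear_combination (2 * conj e + conj b * p - b * p ^ 3 - 2 * e * p ^ 4) * I_sq +
      (conj b * p + 2 * conj e * (1 + p * conj p)) * hpp
  obtain ⟨k, hk⟩ := inv_add_of_projective (hp p hp1)
  have hT := T0_ne h h0 hE hp1
  refine ⟨?_, fun s t hs ht h5 h6 => ?_⟩
  · rw [hD]
    exact mul_ne_zero (pow_ne_zero 2 hp0) (by exact_mod_cast hT)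
  · rw [hk s t hs ht h5 h6, sum_eq h h0 h1 hE hp1 hk, hN, hD,
      mul_div_mul_left _ _ (pow_ne_zero 2 hp0)]
    push_cast
    ring

end

lemma T0_inj {A A' : ℝ} {b b' e e' : ℂ}
    (h : ∀ p : ℂ, ‖p‖ = 1 → T0 A b e p = T0 A' b' e' p) : A = A' ∧ b = b' ∧ e = e' := by
  have h1 := h 1 (by simp)
  have h2 := h (-1) (by simp)
  have h3 := h I (by simp)
  have h4 := h (-I) (by simp)
  have h5 := h (3 / 5 + 4 / 5 * I) (by
    have : ‖(3 / 5 + 4 / 5 * I : ℂ)‖ ^ 2 = 1 := by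
      rw [← normSq_eq_norm_sq, normSq_apply]; norm_num
    exact (pow_eq_one_iff_of_nonneg (norm_nonneg _) (by norm_num)).1 this)
  unfold T0 at h1 h2 h3 h4 h5
  norm_num [pow_two] at h1 h2 h3 h4 h5
  refine ⟨by linarith, Complex.ext (by linarith) (by linarith), Complex.ext (by linarith)
    (by linarith)⟩

/-- **Two elliptic leaves.** -/
theorem leaves {Y : ℂ → ℝ} (h : IsCollar Y)
    (hp : ∀ p : ℂ, ‖p‖ = 1 → ProjectiveInvolution Y p)
    {c : ℝ} (h0 : 0 < c) (h1 : c ≤ 1) {d a : ℝ} {e b : ℂ}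
    (hE : {z | Y z = c} = {z | quad d e b a z = 0}) :
    ∀ c', 0 ≤ c' → c' ≤ 1 → ∃ lam mu : ℝ, |mu| * ‖e‖ < |lam + mu * d| ∧
      {z | Y z = c'} = {z | lam * (normSq z - 1) + mu * quad d e b a z = 0} := by
  obtain ⟨κ, η, ζ, hpos, hleaf⟩ := rational_rigidity h (rational_of_conic h hp h0 h1 hE)
  obtain ⟨s, hs0, -, hs⟩ := hleaf c h0.le h1
  have hg : ∀ p : ℂ, T0 κ η ζ p = κ + (η * p + ζ * p ^ 2).re := fun p => rfl
  have hE' : {z | Y z = c} =
      {z | quad 1 (-(s : ℂ) * ζ) (-(s : ℂ) * η) (-1 - s * κ) z = 0} := by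
    rw [hs]
    ext z
    simp only [mem_ofPred_eq]
    unfold quad
    have e1 : (-(s : ℂ) * ζ * z ^ 2).re = -s * (ζ * z ^ 2).re := by
      rw [mul_assoc, ← ofReal_neg, re_ofReal_mul]
    have e2 : (-(s : ℂ) * η * z).re = -s * (η * z).re := by
      rw [mul_assoc, ← ofReal_neg, re_ofReal_mul]
    rw [e1, e2, add_re]
    constructor <;> intro h5 <;> linarith
  have hT0 : ∀ p, T0 (1 + (-1 - s * κ)) (-(s : ℂ) * η) (-(s : ℂ) * ζ) p = -s * T0 κ η ζ p := by
    intro p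
    unfold T0
    have e1 : (-(s : ℂ) * η * p + -(s : ℂ) * ζ * p ^ 2) =
        ((-s : ℝ) : ℂ) * (η * p + ζ * p ^ 2) := by push_cast; ring
    rw [e1, re_ofReal_mul]; ring
  have hT1 : ∀ p, T1 (-(s : ℂ) * η) (-(s : ℂ) * ζ) p = -s * T1 η ζ p := by
    intro p
    unfold T1
    have e1 : (-(s : ℂ) * η * p + 2 * (-(s : ℂ) * ζ * p ^ 2)) =
        ((-s : ℝ) : ℂ) * (η * p + 2 * (ζ * p ^ 2)) := by push_cast; ring
    rw [e1, im_ofReal_mul]; ring
  have hcross : ∀ p : ℂ, ‖p‖ = 1 →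
      T1 b e p * T0 κ η ζ p - T0 (d + a) b e p * T1 η ζ p = 0 := by
    intro p hp1
    obtain ⟨k, hk⟩ := inv_add_of_projective (hp p hp1)
    have k1 := sum_eq h h0 h1 hE hp1 hk
    have k2 := sum_eq h h0 h1 hE' hp1 hk
    have n1 := T0_ne h h0 hE hp1
    have n2 := T0_ne h h0 hE' hp1
    rw [hT0] at n2
    rw [hT0, hT1] at k2
    have hs' : (-s) ≠ 0 := left_ne_zero_of_mul n2
    have hg' := right_ne_zero_of_mul n2
    rw [k1] at k2
    rw [div_eq_div_iff n1 n2] at k2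
    have h6 : (-s) * (T1 b e p * T0 κ η ζ p - T0 (d + a) b e p * T1 η ζ p) = 0 := by
      linear_combination -k2
    exact (mul_eq_zero.1 h6).resolve_left hs'
  have hgpos : ∀ p : ℂ, ‖p‖ = 1 → T0 κ η ζ p ≠ 0 := fun p hp1 => (hpos p hp1).ne'
  set f : ℝ → ℝ := fun Θ => T0 (d + a) b e (PIR.ee Θ) / T0 κ η ζ (PIR.ee Θ) with hf
  have hder : ∀ Θ, HasDerivAt f 0 Θ := by
    intro Θ
    have hn := hgpos _ (PIR.ee_norm Θ)
    refine ((T0_hasDeriv (d + a) b e Θ).div (T0_hasDeriv κ η ζ Θ) hn).congr_deriv ?_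
    rw [hcross _ (PIR.ee_norm Θ), zero_div]
  have hconst : ∀ Θ, f Θ = f 0 := fun Θ =>
    is_const_of_deriv_eq_zero (fun x => (hder x).differentiableAt) (fun x => (hder x).deriv) Θ 0
  set k := f 0 with hk
  have hprop : ∀ p : ℂ, ‖p‖ = 1 → T0 (d + a) b e p = T0 (k * κ) (k * η) (k * ζ) p := by
    intro p hp1
    obtain ⟨Θ, rfl⟩ := exists_ee hp1
    have h5 := hconst Θ
    rw [hf] at h5
    simp only at h5
    rw [div_eq_iff (hgpos _ hp1)] at h5
    rw [h5]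
    unfold T0
    have e1 : ((k : ℂ) * η * PIR.ee Θ + (k : ℂ) * ζ * PIR.ee Θ ^ 2) =
        ((k : ℝ) : ℂ) * (η * PIR.ee Θ + ζ * PIR.ee Θ ^ 2) := by ring
    rw [e1, re_ofReal_mul]; ring
  obtain ⟨r1, r2, r3⟩ := T0_inj hprop
  have hk0 : k ≠ 0 := by
    intro h5
    have h6 := T0_ne h h0 hE (p := 1) (by simp)
    apply h6
    rw [hprop 1 (by simp), h5]
    simp [T0]
  have hquad : ∀ z, quad d e b a z = d * (normSq z - 1) + k * (κ + (η * z + ζ * z ^ 2).re) := by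
    intro z
    unfold quad
    rw [r2, r3]
    have e1 : ((k : ℂ) * ζ * z ^ 2).re = k * (ζ * z ^ 2).re := by
      rw [mul_assoc, re_ofReal_mul]
    have e2 : ((k : ℂ) * η * z).re = k * (η * z).re := by
      rw [mul_assoc, re_ofReal_mul]
    rw [e1, e2, add_re]
    linear_combination r1
  intro c' hc0 hc1
  obtain ⟨s', hs'0, hs'1, hs'⟩ := hleaf c' hc0 hc1
  refine ⟨k + s' * d, -s', ?_, ?_⟩
  · have e1 : k + s' * d + -s' * d = k := by ring
    rw [e1, abs_neg, abs_of_nonneg hs'0, r3, norm_mul, norm_real, Real.norm_eq_abs]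
    have h5 : 0 < |k| := abs_pos.2 hk0
    nlinarith
  · rw [hs']
    ext z
    simp only [mem_ofPred_eq]
    rw [hquad]
    constructor
    · intro h5
      linear_combination k * h5
    · intro h5
      have h6 : k * ((normSq z - 1) - s' * (κ + (η * z + ζ * z ^ 2).re)) = 0 := by
        linear_combination h5
      have := (mul_eq_zero.1 h6).resolve_left hk0
      linarith

end Pool.Agent.Q66.TwoEll
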