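import Mathlib

set_option linter.unusedSectionVars false
set_option linter.unusedSimpArgs false

open Filter Topology
open scoped ZeroAtInfty

namespace Q66WC

variable {𝕜 : Type} [RCLike 𝕜] {G : Type} [TopologicalSpace G] [DiscreteTopology G]

/-- Element of `c₀(G)` from a function tending to zero. -/
def mk0 (f : G → 𝕜) (h : Tendsto f cofinite (𝓝 0)) : C₀(G, 𝕜) :=
  ⟨⟨f, continuous_of_discreteTopology⟩, by rw [cocompact_eq_cofinite]; exact h⟩

@[simp] lemma mk0_apply (f : G → 𝕜) (h : Tendsto f cofinite (𝓝 0)) (g : G) : mk0 f h g = f g := rfl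

lemma tendsto_zero (f : C₀(G, 𝕜)) : Tendsto f cofinite (𝓝 0) := by
  have := f.zero_at_infty'
  rw [cocompact_eq_cofinite] at this
  exact this

lemma norm_le_of {f : C₀(G, 𝕜)} {C : ℝ} (hC : 0 ≤ C) (h : ∀ g, ‖f g‖ ≤ C) : ‖f‖ ≤ C := by
  rw [← ZeroAtInftyContinuousMap.norm_toBCF_eq_norm, BoundedContinuousFunction.norm_le hC]
  exact h

lemma apply_le_norm (f : C₀(G, 𝕜)) (g : G) : ‖f g‖ ≤ ‖f‖ := by
  rw [← ZeroAtInftyContinuousMap.norm_toBCF_eq_norm]
  exact f.toBCF.norm_coe_le_norm g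

section single

variable [DecidableEq G]

/-- unit vector -/
def e (g : G) : C₀(G, 𝕜) := mk0 (Pi.single g 1) (by
  apply tendsto_nhds_of_eventually_eq
  have : ({g}ᶜ : Set G) ∈ cofinite := (Set.finite_singleton g).compl_mem_cofinite
  filter_upwards [this] with a ha
  exact Pi.single_eq_of_ne (by simpa using ha) _)

lemma e_apply (g a : G) : (e g : C₀(G, 𝕜)) a = if a = g then 1 else 0 := by
  show (Pi.single g (1:𝕜) : G → 𝕜) a = _
  rw [Pi.single_apply]

lemma sum_apply (s : Finset G) (c : G → 𝕜) (a : G) :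
    (∑ g ∈ s, c g • (e g : C₀(G, 𝕜))) a = if a ∈ s then c a else 0 := by
  have h1 : (∑ g ∈ s, c g • (e g : C₀(G, 𝕜))) a = ∑ g ∈ s, (c g • (e g : C₀(G, 𝕜))) a := by
    induction s using Finset.induction_on with
    | empty => simp
    | insert b s hb ih => rw [Finset.sum_insert hb, Finset.sum_insert hb,
        ZeroAtInftyContinuousMap.add_apply, ih]
  rw [h1]
  simp only [ZeroAtInftyContinuousMap.smul_apply, e_apply, smul_eq_mul, mul_ite, mul_one, mul_zero]
  rw [Finset.sum_ite_eq]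

/-- `∑ ‖f (e g)‖ ≤ ‖f‖` over finite sets -/
lemma sum_dual_le (f : C₀(G, 𝕜) →L[𝕜] 𝕜) (s : Finset G) : ∑ g ∈ s, ‖f (e g)‖ ≤ ‖f‖ := by
  classical
  choose u hu1 hu2 using fun g : G => RCLike.exists_norm_eq_mul_self (f (e g))
  have h1 : f (∑ g ∈ s, u g • (e g : C₀(G, 𝕜))) = ((∑ g ∈ s, ‖f (e g)‖ : ℝ) : 𝕜) := by
    rw [map_sum, RCLike.ofReal_sum]
    apply Finset.sum_congr rfl
    intro g _
    rw [map_smul, smul_eq_mul, hu2]
  have h2 : ‖∑ g ∈ s, u g • (e g : C₀(G, 𝕜))‖ ≤ 1 := by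
    apply norm_le_of zero_le_one
    intro a
    rw [sum_apply]
    split_ifs
    · rw [hu1]
    · simp
  have h3 := f.le_opNorm (∑ g ∈ s, u g • (e g : C₀(G, 𝕜)))
  rw [h1, RCLike.norm_ofReal, abs_of_nonneg (by positivity)] at h3
  calc _ ≤ _ := h3
    _ ≤ ‖f‖ * 1 := by gcongr
    _ = ‖f‖ := mul_one _

lemma exists_finset (x : C₀(G, 𝕜)) {ε : ℝ} (hε : 0 < ε) :
    ∃ s : Finset G, ∀ g, g ∉ s → ‖x g‖ < ε := by
  have h := (tendsto_zero x).eventually (Metric.ball_mem_nhds 0 hε)
  rw [Filter.eventually_cofinite] at h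
  refine ⟨h.toFinset, fun g hg => ?_⟩
  rw [Set.Finite.mem_toFinset] at hg
  simp only [Metric.mem_ball, dist_zero_right, Set.mem_ofPred_eq, not_not] at hg
  exact hg

lemma approx_finite (x : C₀(G, 𝕜)) {ε : ℝ} (hε : 0 < ε) :
    ∃ s : Finset G, ‖x - ∑ g ∈ s, x g • (e g : C₀(G, 𝕜))‖ ≤ ε := by
  obtain ⟨s, hs⟩ := exists_finset x hε
  refine ⟨s, norm_le_of hε.le fun a => ?_⟩
  rw [ZeroAtInftyContinuousMap.sub_apply, sum_apply]
  split_ifs with h
  · simpa using hε.le
  · rw [sub_zero]; exact (hs a h).le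

end single

/-- evaluation functional -/
noncomputable def evL (g : G) : C₀(G, 𝕜) →L[𝕜] 𝕜 :=
  LinearMap.mkContinuous
    { toFun := fun x => x g
      map_add' := fun _ _ => rfl
      map_smul' := fun _ _ => rfl } 1
    (fun x => by simpa using apply_le_norm x g)

@[simp] lemma evL_apply (g : G) (x : C₀(G, 𝕜)) : evL g x = x g := rfl

section wc

/-- weighted composition operator `(W x) g = w g * x (φ g)`. -/
noncomputable def wcomp (φ : G → G) (hφ : Function.Injective φ) (w : G → ℝ) (C : ℝ)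
    (hw : ∀ g, |w g| ≤ C) : C₀(G, 𝕜) →L[𝕜] C₀(G, 𝕜) :=
  LinearMap.mkContinuous
    { toFun := fun x => mk0 (fun g => (w g : 𝕜) * x (φ g)) (by
        have h1 : Tendsto (fun g => x (φ g)) cofinite (𝓝 0) :=
          (tendsto_zero x).comp hφ.tendsto_cofinite
        rw [tendsto_zero_iff_norm_tendsto_zero] at h1 ⊢
        have h2 : Tendsto (fun g => C * ‖x (φ g)‖) cofinite (𝓝 0) := by
          simpa using h1.const_mul C
        refine squeeze_zero (fun g => norm_nonneg _) (fun g => ?_) h2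
        rw [norm_mul, RCLike.norm_ofReal]
        exact mul_le_mul_of_nonneg_right (hw g) (norm_nonneg _))
      map_add' := fun x y => by
        ext g; simp [mul_add]
      map_smul' := fun c x => by
        ext g; simp only [mk0_apply, ZeroAtInftyContinuousMap.smul_apply, smul_eq_mul,
          RingHom.id_apply]; ring }
    C (fun x => by
      by_cases hG : Nonempty G
      · obtain ⟨g0⟩ := hG
        have hC : 0 ≤ C := (abs_nonneg _).trans (hw g0)
        apply norm_le_of (mul_nonneg hC (norm_nonneg _))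
        intro g
        show ‖(w g : 𝕜) * x (φ g)‖ ≤ _
        rw [norm_mul, RCLike.norm_ofReal]
        exact mul_le_mul (hw g) (apply_le_norm x _) (norm_nonneg _) hC
      · have h0 : ∀ z : C₀(G, 𝕜), ‖z‖ = 0 := fun z =>
          le_antisymm (norm_le_of le_rfl fun g => (hG ⟨g⟩).elim) (norm_nonneg _)
        rw [h0, h0, mul_zero])

lemma wcomp_apply (φ : G → G) (hφ : Function.Injective φ) (w : G → ℝ) (C : ℝ)
    (hw : ∀ g, |w g| ≤ C) (x : C₀(G, 𝕜)) (g : G) :
    wcomp φ hφ w C hw x g = (w g : 𝕜) * x (φ g) := rfl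

variable [DecidableEq G]

lemma wcomp_denseRange (φ : G → G) (hφ : Function.Injective φ) (w : G → ℝ) (C : ℝ)
    (hw : ∀ g, |w g| ≤ C) (hw0 : ∀ g, w g ≠ 0) :
    DenseRange (wcomp φ hφ w C hw : C₀(G, 𝕜) →L[𝕜] C₀(G, 𝕜)) := by
  rw [Metric.denseRange_iff]
  intro y r hr
  obtain ⟨s, hs⟩ := approx_finite y (half_pos hr)
  refine ⟨∑ g ∈ s, (y g / (w g : 𝕜)) • e (φ g), ?_⟩
  have h1 : wcomp φ hφ w C hw (∑ g ∈ s, (y g / (w g : 𝕜)) • e (φ g)) =
      ∑ g ∈ s, y g • (e g : C₀(G, 𝕜)) := by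
    rw [map_sum]
    apply Finset.sum_congr rfl
    intro g _
    rw [map_smul]
    ext a
    rw [ZeroAtInftyContinuousMap.smul_apply, ZeroAtInftyContinuousMap.smul_apply, wcomp_apply,
      e_apply, e_apply]
    simp only [hφ.eq_iff]
    split_ifs with h
    · subst h
      have : (w a : 𝕜) ≠ 0 := by exact_mod_cast hw0 a
      simp only [smul_eq_mul, mul_one]
      field_simp
    · simp
  rw [h1, dist_eq_norm]
  linarith

lemma wcomp_compact (φ : G → G) (hφ : Function.Injective φ) (w : G → ℝ) (C : ℝ)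
    (hw : ∀ g, |w g| ≤ C) (hw0 : Tendsto w cofinite (𝓝 0)) :
    IsCompactOperator (wcomp φ hφ w C hw : C₀(G, 𝕜) →L[𝕜] C₀(G, 𝕜)) := by
  classical
  -- finite rank operators
  let F : Finset G → (C₀(G, 𝕜) →L[𝕜] C₀(G, 𝕜)) := fun s =>
    ∑ g ∈ s, (evL (φ g)).smulRight ((w g : 𝕜) • (e g : C₀(G, 𝕜)))
  have hF : ∀ s x a, F s x a = if a ∈ s then (w a : 𝕜) * x (φ a) else 0 := by
    intro s x a
    have : F s x = ∑ g ∈ s, ((w g : 𝕜) * x (φ g)) • (e g : C₀(G, 𝕜)) := by
      simp only [F, _root_.sum_apply, ContinuousLinearMap.smulRight_apply, evL_apply]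
      apply Finset.sum_congr rfl
      intro g _
      rw [smul_smul, mul_comm]
    rw [this, sum_apply]
  have hFc : ∀ s, IsCompactOperator (F s) := by
    intro s
    have h1 : ∀ g : G, IsCompactOperator
        ((evL (φ g)).smulRight ((w g : 𝕜) • (e g : C₀(G, 𝕜))) : C₀(G, 𝕜) →L[𝕜] C₀(G, 𝕜)) := by
      intro g
      have h2 : IsCompactOperator (evL (φ g) : C₀(G, 𝕜) →L[𝕜] 𝕜) :=
        isCompactOperator_of_locallyCompactSpace_dom (evL (φ g) : C₀(G, 𝕜) →L[𝕜] 𝕜)
      have h3 := h2.continuous_comp (g := fun c : 𝕜 => c • ((w g : 𝕜) • (e g : C₀(G, 𝕜))))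
        (by fun_prop)
      exact h3
    induction s using Finset.induction_on with
    | empty =>
      simp only [F, Finset.sum_empty]
      exact isCompactOperator_zero
    | insert b s hb ih =>
      simp only [F] at ih ⊢
      rw [Finset.sum_insert hb]
      exact (h1 b).add ih
  -- convergence
  have hlim : Tendsto F atTop (𝓝 (wcomp φ hφ w C hw)) := by
    refine (tendsto_iff_norm_sub_tendsto_zero (E := C₀(G, 𝕜) →L[𝕜] C₀(G, 𝕜))
      (f := F) (a := atTop) (b := wcomp φ hφ w C hw)).2 ?_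
    rw [Metric.tendsto_atTop]
    intro ε hε
    have h1 := hw0.eventually (Metric.ball_mem_nhds 0 (half_pos hε))
    rw [Filter.eventually_cofinite] at h1
    refine ⟨h1.toFinset, fun s hs => ?_⟩
    rw [dist_zero_right, norm_norm]
    have h2 : ‖F s - wcomp φ hφ w C hw‖ ≤ ε / 2 := by
      apply ContinuousLinearMap.opNorm_le_bound _ (by positivity)
      intro x
      apply norm_le_of (by positivity)
      intro a
      rw [ContinuousLinearMap.sub_apply, ZeroAtInftyContinuousMap.sub_apply, hF, wcomp_apply]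
      split_ifs with h
      · rw [sub_self, norm_zero]; positivity
      · rw [zero_sub, norm_neg, norm_mul, RCLike.norm_ofReal]
        have h3 : |w a| ≤ ε / 2 := by
          by_contra hcon
          apply h
          apply hs
          rw [Set.Finite.mem_toFinset]
          simp only [Metric.mem_ball, dist_zero_right, Real.norm_eq_abs, Set.mem_ofPred_eq]
          intro h4; linarith
        exact mul_le_mul h3 (apply_le_norm x _) (norm_nonneg _) (by positivity)
    linarith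
  exact isCompactOperator_of_tendsto hlim (Eventually.of_forall hFc)

end wc

/-- weak density criterion -/
lemma dense_weak {X : Type} [NormedAddCommGroup X] [NormedSpace 𝕜 X] (S : Set X)
    (h : ∀ (F : Finset (X →L[𝕜] 𝕜)) (y : X) (ε : ℝ), 0 < ε → ∃ z ∈ S, ∀ f ∈ F, ‖f (z - y)‖ < ε) :
    Dense (toWeakSpace 𝕜 X '' S) := by
  intro y
  refine (mem_closure_iff_nhds_basis (X := WeakBilin (topDualPairing 𝕜 X).flip)
    (((topDualPairing 𝕜 X).flip.weakBilin_withSeminorms).hasBasis_ball (x := y))).2 ?_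
  rintro ⟨F, ε⟩ hε
  obtain ⟨z, hz, hz2⟩ := h F ((toWeakSpace 𝕜 X).symm y) ε hε
  refine ⟨toWeakSpace 𝕜 X z, ⟨z, hz, rfl⟩, ?_⟩
  refine Seminorm.finset_sup_apply_lt hε ?_
  intro f hf
  exact hz2 f hf

end Q66WC
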