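import Mathlib
import Pool.Agent.Q66.WC1

set_option linter.unusedSectionVars false
set_option linter.unusedSimpArgs false

open Filter Topology
open scoped ZeroAtInfty

namespace Q66WC

/-! ### arithmetic of powers of three -/

lemma pow3_lt {a b : ℕ} (h : a < b) : 3 * (3 : ℤ) ^ a ≤ 3 ^ b := by
  rw [← pow_succ']
  exact pow_le_pow_right₀ (by norm_num) h

lemma pow3_pos (a : ℕ) : (0 : ℤ) < 3 ^ a := by positivity

/-- uniqueness of the exponent -/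
lemma exp_unique {p : ℤ} {a b : ℕ} (ha : 9 * |p - 3 ^ a| ≤ 3 ^ a) (hb : 9 * |p - 3 ^ b| ≤ 3 ^ b) :
    a = b := by
  rcases lt_trichotomy a b with h | h | h
  · have h1 := pow3_lt h
    have h2 := pow3_pos a
    have h3 := le_abs_self (p - 3 ^ a)
    have h4 := neg_abs_le (p - 3 ^ b)
    omega
  · exact h
  · have h1 := pow3_lt h
    have h2 := pow3_pos b
    have h3 := le_abs_self (p - 3 ^ b)
    have h4 := neg_abs_le (p - 3 ^ a)
    omega

lemma outside {n : ℤ} {a a' : ℕ} (h : 9 * |n + 3 ^ a - 3 ^ a'| ≤ 3 ^ a') (hne : a' ≠ a) :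
    3 ^ a < 9 * |n| := by
  rcases lt_or_gt_of_ne hne with h0 | h0
  · have h1 := pow3_lt h0
    have h2 := pow3_pos a'
    have h3 := le_abs_self (n + 3 ^ a - 3 ^ a')
    have h4 := neg_abs_le n
    omega
  · have h1 := pow3_lt h0
    have h2 := pow3_pos a
    have h3 := neg_abs_le (n + 3 ^ a - 3 ^ a')
    have h4 := le_abs_self n
    omega

lemma disj_aux {n j : ℤ} {a b a' b' : ℕ} (_hj : 0 ≤ j) (hjb : 9 * j ≤ 3 ^ b) (hab : b < a)
    (h1 : 9 * |n + 3 ^ a - 3 ^ a'| ≤ 3 ^ a') (h1' : |n + 3 ^ a - 3 ^ a'| ≤ j) (hne : a' ≠ a)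
    (h2 : 9 * |n + 3 ^ b - 3 ^ b'| ≤ 3 ^ b') (h2' : |n + 3 ^ b - 3 ^ b'| ≤ j) (_hne' : b' ≠ b) :
    False := by
  have pa := pow3_pos a
  have pb := pow3_pos b
  have pa' := pow3_pos a'
  have pb' := pow3_pos b'
  have hab' := pow3_lt hab
  have e1 := le_abs_self (n + 3 ^ a - 3 ^ a')
  have e2 := neg_abs_le (n + 3 ^ a - 3 ^ a')
  have e3 := le_abs_self (n + 3 ^ b - 3 ^ b')
  have e4 := neg_abs_le (n + 3 ^ b - 3 ^ b')
  rcases lt_or_gt_of_ne hne with h0 | h0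
  · have h3 := pow3_lt h0
    omega
  · have h3 := pow3_lt h0
    rcases lt_trichotomy b' a' with h4 | h4 | h4
    · have h5 := pow3_lt h4
      omega
    · subst h4
      omega
    · have h5 := pow3_lt h4
      omega

/-- Data of the construction. -/
structure Data (𝕜 : Type) [RCLike 𝕜] (I : Type) where
  β : ℤ → I → ℝ
  hβ : ∀ n k, 0 < β n k
  C : ℝ
  hC : ∀ n k, β (n + 1) k / β n k ≤ C
  τ : ℕ → ℕ
  N : ℕ → ℕ
  hτ : ∀ j, τ (j + 1) = τ j + N j + 1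
  hτ9 : ∀ j, 9 * j ≤ 3 ^ (τ j + 1)
  y : ℕ → (ℤ × I →₀ 𝕜)
  hy : ∀ j g, y j g ≠ 0 → |g.1| ≤ j
  c : ℕ → ℝ
  hc : ∀ a, 0 < c a

namespace Data

variable {𝕜 : Type} [RCLike 𝕜] {I : Type} (D : Data 𝕜 I)

def InCopy (p : ℤ) (j a : ℕ) : Prop := D.τ j + 1 ≤ a ∧ a ≤ D.τ j + D.N j ∧ |p - 3 ^ a| ≤ j

lemma τ_mono : StrictMono D.τ := strictMono_nat_of_lt_succ fun j => by rw [D.hτ]; omega

lemma stage_unique {a j j' : ℕ} (h1 : D.τ j + 1 ≤ a) (h2 : a ≤ D.τ j + D.N j)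
    (h1' : D.τ j' + 1 ≤ a) (h2' : a ≤ D.τ j' + D.N j') : j = j' := by
  rcases lt_trichotomy j j' with h | h | h
  · have h3 := D.τ_mono.monotone (Nat.succ_le_of_lt h)
    simp only [Nat.succ_eq_add_one] at h3
    rw [D.hτ] at h3; omega
  · exact h
  · have h3 := D.τ_mono.monotone (Nat.succ_le_of_lt h)
    simp only [Nat.succ_eq_add_one] at h3
    rw [D.hτ] at h3; omega

lemma nine {j a : ℕ} (h : D.τ j + 1 ≤ a) : 9 * (j : ℤ) ≤ 3 ^ a := by
  have h1 := D.hτ9 j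
  have h2 : 3 ^ (D.τ j + 1) ≤ 3 ^ a := Nat.pow_le_pow_right (by norm_num) h
  exact_mod_cast h1.trans h2

lemma InCopy.nine {p : ℤ} {j a : ℕ} (h : D.InCopy p j a) : 9 * |p - 3 ^ a| ≤ 3 ^ a := by
  have h1 := D.nine h.1
  have h2 := h.2.2
  omega

lemma unique {p : ℤ} {j a j' a' : ℕ} (h : D.InCopy p j a) (h' : D.InCopy p j' a') :
    j = j' ∧ a = a' := by
  have h1 := exp_unique (InCopy.nine D h) (InCopy.nine D h')
  subst h1
  exact ⟨D.stage_unique h.1 h.2.1 h'.1 h'.2.1, rfl⟩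

open Classical in
/-- coordinates of the vector -/
noncomputable def xf (g : ℤ × I) : 𝕜 :=
  if h : ∃ q : ℕ × ℕ, D.InCopy g.1 q.1 q.2 then
    ((D.c h.choose.2 * (D.β (g.1 - 3 ^ h.choose.2) g.2 / D.β g.1 g.2) : ℝ) : 𝕜) *
      D.y h.choose.1 (g.1 - 3 ^ h.choose.2, g.2)
  else 0

lemma xf_of {p : ℤ} {j a : ℕ} (h : D.InCopy p j a) (k : I) :
    D.xf (p, k) = ((D.c a * (D.β (p - 3 ^ a) k / D.β p k) : ℝ) : 𝕜) * D.y j (p - 3 ^ a, k) := by
  classical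
  unfold xf
  have hex : ∃ q : ℕ × ℕ, D.InCopy (p, k).1 q.1 q.2 := ⟨(j, a), h⟩
  rw [dif_pos hex]
  obtain ⟨h1, h2⟩ := D.unique h hex.choose_spec
  rw [← h1, ← h2]

lemma xf_ne {p : ℤ} {k : I} (h : D.xf (p, k) ≠ 0) :
    ∃ j a, D.InCopy p j a ∧ D.y j (p - 3 ^ a, k) ≠ 0 := by
  classical
  by_cases hex : ∃ q : ℕ × ℕ, D.InCopy p q.1 q.2
  · obtain ⟨⟨j, a⟩, hq⟩ := hex
    refine ⟨j, a, hq, fun h0 => h ?_⟩
    rw [D.xf_of hq, h0, mul_zero]
  · exfalso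
    apply h
    unfold xf
    rw [dif_neg hex]

variable [TopologicalSpace I] [DiscreteTopology I]

/-- the shift. -/
noncomputable def T : C₀(ℤ × I, 𝕜) →L[𝕜] C₀(ℤ × I, 𝕜) :=
  wcomp (fun g => (g.1 + 1, g.2)) (fun g g' h => by
    simp only [Prod.mk.injEq, add_left_inj] at h
    exact Prod.ext h.1 h.2) (fun g => D.β (g.1 + 1) g.2 / D.β g.1 g.2) D.C
    (fun g => by
      rw [abs_of_pos (div_pos (D.hβ _ _) (D.hβ _ _))]
      exact D.hC _ _)

lemma T_apply (x : C₀(ℤ × I, 𝕜)) (n : ℤ) (k : I) :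
    D.T x (n, k) = ((D.β (n + 1) k / D.β n k : ℝ) : 𝕜) * x (n + 1, k) := rfl

lemma T_pow (m : ℕ) (x : C₀(ℤ × I, 𝕜)) (n : ℤ) (k : I) :
    (D.T ^ m) x (n, k) = ((D.β (n + m) k / D.β n k : ℝ) : 𝕜) * x (n + m, k) := by
  induction m generalizing n with
  | zero =>
    have : D.β n k ≠ 0 := (D.hβ n k).ne'
    simp [this]
  | succ m ih =>
    rw [pow_succ']
    show D.T ((D.T ^ m) x) (n, k) = _
    rw [T_apply, ih]
    have e1 : n + 1 + (m : ℤ) = n + ((m + 1 : ℕ) : ℤ) := by push_cast; ring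
    rw [e1, ← mul_assoc, ← RCLike.ofReal_mul]
    congr 2
    have h1 : D.β n k ≠ 0 := (D.hβ n k).ne'
    have h2 : D.β (n + 1) k ≠ 0 := (D.hβ (n + 1) k).ne'
    field_simp

variable [DecidableEq I]

noncomputable def Y (j : ℕ) : C₀(ℤ × I, 𝕜) := ∑ g ∈ (D.y j).support, D.y j g • e g

lemma Y_apply (j : ℕ) (g : ℤ × I) : D.Y j g = D.y j g := by
  unfold Y
  rw [sum_apply]
  split_ifs with h
  · rfl
  · rw [Finsupp.notMem_support_iff] at h; exact h.symm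

/-- exceptional positions -/
noncomputable def P (j a : ℕ) : Finset (ℤ × I) :=
  (Finset.range (j + 1)).biUnion fun j' => (Finset.Icc (D.τ j' + 1) (D.τ j' + D.N j')).biUnion
    fun a' => if a' = a then ∅ else (D.y j').support.image fun g => (3 ^ a' + g.1 - 3 ^ a, g.2)

lemma mem_P {j a : ℕ} {n : ℤ} {k : I} : (n, k) ∈ D.P j a ↔
    ∃ j' a', j' ≤ j ∧ a' ≠ a ∧ D.InCopy (n + 3 ^ a) j' a' ∧ D.y j' (n + 3 ^ a - 3 ^ a', k) ≠ 0 := by
  unfold P
  simp only [Finset.mem_biUnion, Finset.mem_range, Finset.mem_Icc]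
  constructor
  · rintro ⟨j', hj', a', ha', hmem⟩
    split_ifs at hmem with h
    · simp at hmem
    · rw [Finset.mem_image] at hmem
      obtain ⟨g, hg, hg2⟩ := hmem
      rw [Prod.mk.injEq] at hg2
      obtain ⟨hg3, hg4⟩ := hg2
      rw [Finsupp.mem_support_iff] at hg
      have h5 : n + 3 ^ a - 3 ^ a' = g.1 := by rw [← hg3]; ring
      refine ⟨j', a', by omega, h, ⟨ha'.1, ha'.2, ?_⟩, ?_⟩
      · rw [h5]; exact D.hy j' g hg
      · rw [h5, ← hg4]; exact hg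
  · rintro ⟨j', a', hj', hne, hin, hy⟩
    refine ⟨j', by omega, a', ⟨hin.1, hin.2.1⟩, ?_⟩
    rw [if_neg hne, Finset.mem_image]
    refine ⟨(n + 3 ^ a - 3 ^ a', k), ?_, ?_⟩
    · rw [Finsupp.mem_support_iff]; exact hy
    · simp only [Prod.mk.injEq, and_true]; ring

lemma P_disjoint {j a b : ℕ} (_ha : D.τ j + 1 ≤ a) (hb : D.τ j + 1 ≤ b) (hab : b < a) :
    Disjoint (D.P j a) (D.P j b) := by
  rw [Finset.disjoint_left]
  rintro ⟨n, k⟩ h1 h2
  rw [mem_P] at h1 h2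
  obtain ⟨j1, a', hj1, hne, hin, -⟩ := h1
  obtain ⟨j2, b', hj2, hne', hin', -⟩ := h2
  have hj1' : (j1 : ℤ) ≤ j := by exact_mod_cast hj1
  have hj2' : (j2 : ℤ) ≤ j := by exact_mod_cast hj2
  exact disj_aux (n := n) (j := j) (by positivity) (D.nine hb) hab (InCopy.nine D hin)
    (hin.2.2.trans hj1') hne (InCopy.nine D hin') (hin'.2.2.trans hj2') hne'

/-- the main approximation. -/
theorem approx (X : C₀(ℤ × I, 𝕜)) (hX : ∀ g, X g = D.xf g) (j : ℕ) (hN : 0 < D.N j) {M : ℝ}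
    (hM0 : 0 ≤ M)
    (hM : ∀ a, D.τ j + 1 ≤ a → a ≤ D.τ j + D.N j → ∀ g ∈ D.P j a,
      ‖(D.T ^ (3 ^ a)) X g‖ ≤ D.c a * M)
    (hMN : (j + 1) * M ≤ D.N j)
    (hfar : ∀ a, D.τ j + 1 ≤ a → a ≤ D.τ j + D.N j → ∀ n k j' a', j < j' →
      D.InCopy (n + 3 ^ a) j' a' → ‖(D.T ^ (3 ^ a)) X (n, k)‖ ≤ D.c a / (j + 1))
    (F : Finset (C₀(ℤ × I, 𝕜) →L[𝕜] 𝕜)) :
    ∃ a, ∀ f ∈ F, ‖f (((D.c a)⁻¹ : ℝ) • (D.T ^ (3 ^ a)) X - D.Y j)‖ ≤
      2 / (j + 1) * ∑ f ∈ F, ‖f‖ := by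
  classical
  set S := Finset.Icc (D.τ j + 1) (D.τ j + D.N j) with hS
  have hScard : S.card = D.N j := by rw [hS, Nat.card_Icc]; omega
  have hSne : S.Nonempty := by rw [← Finset.card_pos, hScard]; exact hN
  -- the sum over all copies
  have hsum : ∑ a ∈ S, ∑ g ∈ D.P j a, ∑ f ∈ F, ‖f (e g)‖ ≤ ∑ f ∈ F, ‖f‖ := by
    have h1 : ∑ a ∈ S, ∑ g ∈ D.P j a, ∑ f ∈ F, ‖f (e g)‖ =
        ∑ f ∈ F, ∑ g ∈ S.biUnion (D.P j), ‖f (e g)‖ := by
      rw [← Finset.sum_biUnion, Finset.sum_comm]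
      intro a ha b hb hab
      have ha' := Finset.mem_Icc.1 (Finset.mem_coe.1 ha)
      have hb' := Finset.mem_Icc.1 (Finset.mem_coe.1 hb)
      rcases lt_or_gt_of_ne hab with h | h
      · exact (D.P_disjoint hb'.1 ha'.1 h).symm
      · exact D.P_disjoint ha'.1 hb'.1 h
    rw [h1]
    exact Finset.sum_le_sum fun f _ => sum_dual_le f _
  have hNr : (0 : ℝ) < D.N j := by exact_mod_cast hN
  obtain ⟨a, haS, ha⟩ : ∃ a ∈ S, ∑ g ∈ D.P j a, ∑ f ∈ F, ‖f (e g)‖ ≤ (∑ f ∈ F, ‖f‖) / D.N j := by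
    apply Finset.exists_le_of_sum_le hSne
    rw [Finset.sum_const, hScard, nsmul_eq_mul]
    rw [mul_div_cancel₀ _ hNr.ne']
    exact hsum
  rw [hS, Finset.mem_Icc] at haS
  refine ⟨a, fun f hf => ?_⟩
  have hca := D.hc a
  set z := (D.T ^ (3 ^ a)) X with hz
  set g0 : C₀(ℤ × I, 𝕜) := ∑ g ∈ D.P j a, (((D.c a)⁻¹ : ℝ) • z g) • e g with hg0
  have hnot : ∀ n j' a', D.InCopy (n + 3 ^ a) j' a' → a' ≠ a → ∀ k, D.y j (n, k) = 0 := by
    intro n j' a' hin hne k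
    by_contra hcon
    have h1 := D.hy j _ hcon
    have h2 := outside (InCopy.nine D hin) hne
    have h3 := D.nine haS.1
    simp only at h1
    omega
  have hh : ‖((D.c a)⁻¹ : ℝ) • z - D.Y j - g0‖ ≤ 1 / (j + 1) := by
    apply norm_le_of (by positivity)
    rintro ⟨n, k⟩
    have hval : (((D.c a)⁻¹ : ℝ) • z - D.Y j - g0) (n, k) =
        ((D.c a)⁻¹ : ℝ) • z (n, k) - D.y j (n, k) -
          if (n, k) ∈ D.P j a then ((D.c a)⁻¹ : ℝ) • z (n, k) else 0 := by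
      rw [ZeroAtInftyContinuousMap.sub_apply, ZeroAtInftyContinuousMap.sub_apply,
        ZeroAtInftyContinuousMap.smul_apply, Y_apply, hg0,
        sum_apply (D.P j a) (fun g => ((D.c a)⁻¹ : ℝ) • z g)]
    rw [hval]
    by_cases hP : (n, k) ∈ D.P j a
    · rw [if_pos hP]
      obtain ⟨j', a', -, hne, hin, -⟩ := D.mem_P.1 hP
      rw [hnot n j' a' hin hne k]
      simp only [sub_zero, sub_self, norm_zero]
      positivity
    · rw [if_neg hP, sub_zero]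
      have hzv : z (n, k) = ((D.β (n + (3 ^ a : ℕ)) k / D.β n k : ℝ) : 𝕜) *
          X (n + (3 ^ a : ℕ), k) := by rw [hz, T_pow]
      have e3 : (((3 ^ a : ℕ) : ℤ)) = 3 ^ a := by push_cast; rfl
      rw [e3] at hzv
      by_cases hx : D.xf (n + 3 ^ a, k) = 0
      · have hy0 : D.y j (n, k) = 0 := by
          by_contra hcon
          have h1 := D.hy j _ hcon
          simp only at h1
          have hin : D.InCopy (n + 3 ^ a) j a := ⟨haS.1, haS.2, by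
            rw [add_sub_cancel_right]; exact h1⟩
          rw [D.xf_of hin] at hx
          rw [add_sub_cancel_right, mul_eq_zero] at hx
          rcases hx with hx | hx
          · rw [RCLike.ofReal_eq_zero] at hx
            have := mul_pos hca (div_pos (D.hβ n k) (D.hβ (n + 3 ^ a) k))
            exact this.ne' hx
          · exact hcon hx
        rw [hzv, hX, hx, hy0]
        simp only [mul_zero, smul_zero, sub_zero, norm_zero]
        positivity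
      · obtain ⟨j', a', hin, hyne⟩ := D.xf_ne hx
        by_cases haa : a' = a
        · subst haa
          have hjj : j' = j := D.stage_unique hin.1 hin.2.1 haS.1 haS.2
          subst hjj
          rw [hzv, hX, D.xf_of hin, add_sub_cancel_right]
          have h1 : (((D.c a')⁻¹ : ℝ) • (((D.β (n + 3 ^ a') k / D.β n k : ℝ) : 𝕜) *
              (((D.c a' * (D.β n k / D.β (n + 3 ^ a') k) : ℝ) : 𝕜) * D.y j' (n, k)))) =
              D.y j' (n, k) := by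
            rw [← mul_assoc, ← RCLike.ofReal_mul, ← smul_mul_assoc, RCLike.real_smul_ofReal,
              ← RCLike.ofReal_mul]
            have h2 : (D.c a')⁻¹ * (D.β (n + 3 ^ a') k / D.β n k *
                (D.c a' * (D.β n k / D.β (n + 3 ^ a') k))) = 1 := by
              have h3 := (D.hβ n k).ne'
              have h4 := (D.hβ (n + 3 ^ a') k).ne'
              have h5 := hca.ne'
              field_simp
            rw [h2, RCLike.ofReal_one, one_mul]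
          rw [h1, sub_self, norm_zero]
          positivity
        · have hjj : j < j' := by
            by_contra hcon
            exact hP (D.mem_P.2 ⟨j', a', not_lt.1 hcon, haa, hin, hyne⟩)
          rw [hnot n j' a' hin haa k, sub_zero, norm_smul, Real.norm_eq_abs,
            abs_of_pos (inv_pos.2 hca)]
          have h1 := hfar a haS.1 haS.2 n k j' a' hjj hin
          calc (D.c a)⁻¹ * ‖z (n, k)‖ ≤ (D.c a)⁻¹ * (D.c a / (j + 1)) :=
                mul_le_mul_of_nonneg_left h1 (inv_pos.2 hca).le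
            _ = 1 / (j + 1) := by field_simp
  have hg : ‖f g0‖ ≤ M * ∑ g ∈ D.P j a, ‖f (e g)‖ := by
    rw [hg0, map_sum, Finset.mul_sum]
    refine (norm_sum_le _ _).trans (Finset.sum_le_sum fun g hg => ?_)
    rw [map_smul, smul_eq_mul, norm_mul]
    apply mul_le_mul_of_nonneg_right _ (norm_nonneg _)
    rw [norm_smul, Real.norm_eq_abs, abs_of_pos (inv_pos.2 hca)]
    have h1 := hM a haS.1 haS.2 g hg
    calc (D.c a)⁻¹ * ‖z g‖ ≤ (D.c a)⁻¹ * (D.c a * M) :=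
          mul_le_mul_of_nonneg_left h1 (inv_pos.2 hca).le
      _ = M := by field_simp
  have hjr : (0 : ℝ) < (j : ℝ) + 1 := by positivity
  have hle : ∑ g ∈ D.P j a, ‖f (e g)‖ ≤ (∑ f ∈ F, ‖f‖) / D.N j := by
    refine le_trans (Finset.sum_le_sum fun g _ => ?_) ha
    exact Finset.single_le_sum (f := fun f : C₀(ℤ × I, 𝕜) →L[𝕜] 𝕜 => ‖f (e g)‖)
      (fun _ _ => norm_nonneg _) hf
  have hsumnn : 0 ≤ ∑ f ∈ F, ‖f‖ := Finset.sum_nonneg fun f _ => f.opNorm_nonneg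
  have hfle : ‖f‖ ≤ ∑ f ∈ F, ‖f‖ :=
    Finset.single_le_sum (f := fun f : C₀(ℤ × I, 𝕜) →L[𝕜] 𝕜 => ‖f‖)
      (fun f _ => f.opNorm_nonneg) hf
  have hdec : ((D.c a)⁻¹ : ℝ) • z - D.Y j = (((D.c a)⁻¹ : ℝ) • z - D.Y j - g0) + g0 := by abel
  rw [hdec, map_add]
  refine (norm_add_le _ _).trans ?_
  have h1 : ‖f (((D.c a)⁻¹ : ℝ) • z - D.Y j - g0)‖ ≤ (∑ f ∈ F, ‖f‖) * (1 / (j + 1)) := by
    refine (f.le_opNorm _).trans ?_
    exact mul_le_mul hfle hh (norm_nonneg _) hsumnn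
  have h2 : ‖f g0‖ ≤ (∑ f ∈ F, ‖f‖) * (1 / (j + 1)) := by
    refine hg.trans ?_
    calc M * ∑ g ∈ D.P j a, ‖f (e g)‖ ≤ M * ((∑ f ∈ F, ‖f‖) / D.N j) :=
          mul_le_mul_of_nonneg_left hle hM0
      _ = (∑ f ∈ F, ‖f‖) * (M / D.N j) := by ring
      _ ≤ (∑ f ∈ F, ‖f‖) * (1 / (j + 1)) := by
          apply mul_le_mul_of_nonneg_left _ hsumnn
          rw [div_le_div_iff₀ hNr hjr]
          linarith
  calc _ ≤ (∑ f ∈ F, ‖f‖) * (1 / (j + 1)) + (∑ f ∈ F, ‖f‖) * (1 / (j + 1)) := add_le_add h1 h2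
    _ = 2 / (j + 1) * ∑ f ∈ F, ‖f‖ := by ring

end Data

end Q66WC
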