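import Mathlib
import Pool.Agent.Q66.WC2

set_option linter.unusedSectionVars false
set_option linter.unusedSimpArgs false

open Filter Topology
open scoped ZeroAtInfty

namespace Q66WC

/-! ### the block index -/

/-- The index `j` of the block `[3 ^ τ j, 3 ^ τ (j+1))` containing `m`. -/
def J (τ : ℕ → ℕ) (m : ℕ) : ℕ := Nat.findGreatest (fun j => 3 ^ τ j ≤ m) m

section J

variable {τ : ℕ → ℕ} (hτ : StrictMono τ)

lemma J_le_self (m : ℕ) : J τ m ≤ m := Nat.findGreatest_le m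

include hτ

lemma le_J {j m : ℕ} (h : 3 ^ τ j ≤ m) : j ≤ J τ m := by
  refine Nat.le_findGreatest (P := fun j => 3 ^ τ j ≤ m) ?_ h
  have h1 : j ≤ τ j := hτ.id_le j
  have h2 : τ j < 3 ^ τ j := Nat.lt_pow_self (by norm_num)
  omega

lemma J_le {j m : ℕ} (h : m < 3 ^ τ (j + 1)) : J τ m ≤ j := by
  by_contra hcon
  have h1 : 0 < J τ m := by omega
  have h2 : 3 ^ τ (J τ m) ≤ m := Nat.findGreatest_of_ne_zero (P := fun j => 3 ^ τ j ≤ m) rfl h1.ne'
  have h3 : τ (j + 1) ≤ τ (J τ m) := hτ.monotone (by omega)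
  have h4 : 3 ^ τ (j + 1) ≤ 3 ^ τ (J τ m) := Nat.pow_le_pow_right (by norm_num) h3
  omega

lemma J_eq {j m : ℕ} (h1 : 3 ^ τ j ≤ m) (h2 : m < 3 ^ τ (j + 1)) : J τ m = j :=
  le_antisymm (J_le hτ h2) (le_J hτ h1)

lemma lt_next (m : ℕ) : m < 3 ^ τ (J τ m + 1) := by
  by_contra hcon
  have := le_J hτ (not_lt.1 hcon)
  omega

lemma J_mono {m n : ℕ} (h : m ≤ n) : J τ m ≤ J τ n := by
  rcases Nat.eq_zero_or_pos (J τ m) with h0 | h0
  · omega
  · have h2 : 3 ^ τ (J τ m) ≤ m :=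
      Nat.findGreatest_of_ne_zero (P := fun j => 3 ^ τ j ≤ m) rfl h0.ne'
    exact le_J hτ (h2.trans h)

lemma J_succ (m : ℕ) : J τ (m + 1) ≤ J τ m + 1 := by
  apply J_le hτ
  have h1 := lt_next hτ m
  have h2 : τ (J τ m + 1) < τ (J τ m + 1 + 1) := hτ (by omega)
  have h3 : 3 ^ τ (J τ m + 1) < 3 ^ τ (J τ m + 1 + 1) := Nat.pow_lt_pow_right (by norm_num) h2
  omega

lemma J_tendsto : Tendsto (J τ) atTop atTop := by
  apply tendsto_atTop_atTop_of_monotone (fun _ _ h => J_mono hτ h)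
  intro b
  exact ⟨3 ^ τ b, le_J hτ le_rfl⟩

end J

/-! ### targets -/

section targets

variable {𝕜 : Type} [RCLike 𝕜] {G : Type} [TopologicalSpace G] [DiscreteTopology G] [DecidableEq G]

/-- the vector of a finitely supported function -/
noncomputable def vec (v : G →₀ 𝕜) : C₀(G, 𝕜) := ∑ g ∈ v.support, v g • e g

lemma vec_apply (v : G →₀ 𝕜) (g : G) : vec v g = v g := by
  unfold vec
  rw [sum_apply]
  split_ifs with h
  · rfl
  · rw [Finsupp.notMem_support_iff] at h; exact h.symm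

/-- A sequence of finitely supported functions which is dense, with infinite repetitions. -/
lemma exists_targets [Countable G] : ∃ v : ℕ → (G →₀ 𝕜), ∀ (y : C₀(G, 𝕜)) (ε : ℝ), 0 < ε →
    ∃ w : G →₀ 𝕜, ‖vec w - y‖ < ε ∧ ∀ j0, ∃ j, j0 ≤ j ∧ v j = w := by
  classical
  obtain ⟨φ, hφ⟩ : ∃ φ : ℕ → 𝕜, DenseRange φ := TopologicalSpace.exists_dense_seq 𝕜
  let ψ : ℕ → 𝕜 := fun n => if n = 0 then 0 else φ (n - 1)
  have hψ0 : ψ 0 = 0 := by simp [ψ]
  have hψ : ∀ z : 𝕜, ∀ ε : ℝ, 0 < ε → ∃ n, ‖ψ n - z‖ < ε := by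
    intro z ε hε
    obtain ⟨n, hn⟩ := hφ.exists_dist_lt z hε
    refine ⟨n + 1, ?_⟩
    simp only [ψ, Nat.add_eq_zero_iff, one_ne_zero, and_false, if_false, Nat.add_sub_cancel]
    rw [← dist_eq_norm, dist_comm]; exact hn
  obtain ⟨s, hs⟩ : ∃ s : ℕ → (G →₀ ℕ), Function.Surjective s :=
    (countable_iff_exists_surjective.1 inferInstance)
  refine ⟨fun j => (s (Nat.unpair j).1).mapRange ψ hψ0, fun y ε hε => ?_⟩
  obtain ⟨t, ht⟩ := exists_finset y (half_pos hε)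
  choose n hn using fun g => hψ (y g) (ε / 2) (half_pos hε)
  let q : G →₀ ℕ := Finsupp.onFinset t (fun g => if g ∈ t then n g else 0) (fun g hg => by
    by_contra h; exact hg (by simp [h]))
  refine ⟨q.mapRange ψ hψ0, ?_, ?_⟩
  · have : ‖vec (q.mapRange ψ hψ0) - y‖ ≤ ε / 2 := by
      apply norm_le_of (by positivity)
      intro g
      rw [ZeroAtInftyContinuousMap.sub_apply, vec_apply, Finsupp.mapRange_apply]
      by_cases hg : g ∈ t
      · have : q g = n g := by simp [q, hg]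
        rw [this]; exact (hn g).le
      · have : q g = 0 := by simp [q, hg]
        rw [this, hψ0, zero_sub, norm_neg]; exact (ht g hg).le
    linarith
  · intro j0
    obtain ⟨i, hi⟩ := hs q
    refine ⟨Nat.pair i j0, Nat.right_le_pair i j0, ?_⟩
    show (s (Nat.unpair (Nat.pair i j0)).1).mapRange ψ hψ0 = _
    rw [Nat.unpair_pair]
    simp only
    rw [hi]

/-- Targets which satisfy in addition a condition that every vector satisfies eventually. -/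
lemma exists_targets' [Countable G] (adm : ℕ → (G →₀ 𝕜) → Prop)
    (hadm : ∀ w, ∀ᶠ j in atTop, adm j w) (hadm0 : ∀ j, adm j 0) :
    ∃ v : ℕ → (G →₀ 𝕜), (∀ j, adm j (v j)) ∧ ∀ (y : C₀(G, 𝕜)) (ε : ℝ), 0 < ε → ∀ j0,
      ∃ j, j0 ≤ j ∧ ‖vec (v j) - y‖ < ε := by
  classical
  obtain ⟨v, hv⟩ := exists_targets (𝕜 := 𝕜) (G := G)
  refine ⟨fun j => if adm j (v j) then v j else 0, fun j => ?_, fun y ε hε j0 => ?_⟩
  · simp only
    split_ifs with h
    · exact h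
    · exact hadm0 j
  · obtain ⟨w, hw, hinf⟩ := hv y ε hε
    obtain ⟨j1, hj1⟩ := eventually_atTop.1 (hadm w)
    obtain ⟨j, hj, hvj⟩ := hinf (max j0 j1)
    refine ⟨j, (le_max_left _ _).trans hj, ?_⟩
    have h1 : adm j (v j) := by rw [hvj]; exact hj1 j ((le_max_right _ _).trans hj)
    simp only
    rw [if_pos h1, hvj]
    exact hw

end targets

namespace Data

variable {𝕜 : Type} [RCLike 𝕜] {I : Type} (D : Data 𝕜 I)

variable [TopologicalSpace I] [DiscreteTopology I] [DecidableEq I]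

/-- membership in `c₀` -/
lemma xf_tendsto (h : ∀ p k j a, D.InCopy p j a → ‖D.xf (p, k)‖ ≤ 1 / (j + 1)) :
    Tendsto D.xf cofinite (𝓝 0) := by
  classical
  rw [Metric.tendsto_nhds]
  intro ε hε
  rw [Filter.eventually_cofinite]
  obtain ⟨j0, hj0⟩ := exists_nat_one_div_lt hε
  apply Set.Finite.subset (((D.P j0 0).image fun g => (g.1 + 1, g.2)).finite_toSet)
  rintro ⟨p, k⟩ hp
  simp only [dist_zero_right, Set.mem_ofPred_eq, not_lt] at hp
  have hne : D.xf (p, k) ≠ 0 := by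
    intro h0; rw [h0, norm_zero] at hp; linarith
  obtain ⟨j, a, hin, hy⟩ := D.xf_ne hne
  have h1 := h p k j a hin
  have hj : j ≤ j0 := by
    by_contra hcon
    have h2 : (1 : ℝ) / (j + 1) ≤ 1 / (j0 + 1) := by
      apply one_div_le_one_div_of_le (by positivity)
      have : (j0 : ℝ) ≤ j := by exact_mod_cast (not_le.1 hcon).le
      linarith
    linarith
  rw [Finset.mem_coe, Finset.mem_image]
  refine ⟨(p - 1, k), ?_, by simp⟩
  rw [mem_P]
  have e1 : p - 1 + 3 ^ 0 = p := by ring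
  refine ⟨j, a, hj, ?_, ?_, ?_⟩
  · have := hin.1; omega
  · rw [e1]; exact hin
  · rw [e1]; exact hy

/-- The vector. -/
noncomputable def X (h : ∀ p k j a, D.InCopy p j a → ‖D.xf (p, k)‖ ≤ 1 / (j + 1)) :
    C₀(ℤ × I, 𝕜) := mk0 D.xf (D.xf_tendsto h)

lemma Y_eq_vec (j : ℕ) : D.Y j = vec (D.y j) := rfl

/-- weak approximation of all vectors. -/
theorem weak_approx (X : C₀(ℤ × I, 𝕜))
    (hd : ∀ (y : C₀(ℤ × I, 𝕜)) (ε : ℝ), 0 < ε → ∀ j0, ∃ j, j0 ≤ j ∧ ‖vec (D.y j) - y‖ < ε)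
    (happ : ∀ (j : ℕ) (F : Finset (C₀(ℤ × I, 𝕜) →L[𝕜] 𝕜)),
      ∃ a, ∀ f ∈ F, ‖f (((D.c a)⁻¹ : ℝ) • (D.T ^ (3 ^ a)) X - D.Y j)‖ ≤
      2 / (j + 1) * ∑ f ∈ F, ‖f‖)
    (F : Finset (C₀(ℤ × I, 𝕜) →L[𝕜] 𝕜)) (y : C₀(ℤ × I, 𝕜)) (ε : ℝ) (hε : 0 < ε) :
    ∃ a, ∀ f ∈ F, ‖f (((D.c a)⁻¹ : ℝ) • (D.T ^ (3 ^ a)) X - y)‖ < ε := by
  classical
  have hsumnn : 0 ≤ ∑ f ∈ F, ‖f‖ := Finset.sum_nonneg fun f _ => f.opNorm_nonneg
  set K := ∑ f ∈ F, ‖f‖ with hK
  have hKp : 0 < K + 1 := by linarith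
  obtain ⟨j0, hj0⟩ := exists_nat_one_div_lt (show 0 < ε / (4 * (K + 1)) by positivity)
  obtain ⟨j, hj, hjy⟩ := hd y (ε / (4 * (K + 1))) (by positivity) j0
  obtain ⟨a, ha⟩ := happ j F
  refine ⟨a, fun f hf => ?_⟩
  have h1 := ha f hf
  have hfle : ‖f‖ ≤ K :=
    Finset.single_le_sum (f := fun f : C₀(ℤ × I, 𝕜) →L[𝕜] 𝕜 => ‖f‖)
      (fun f _ => f.opNorm_nonneg) hf
  have h2 : (1 : ℝ) / (j + 1) ≤ 1 / (j0 + 1) := by
    apply one_div_le_one_div_of_le (by positivity)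
    have : (j0 : ℝ) ≤ j := by exact_mod_cast hj
    linarith
  have h3 : 2 / ((j : ℝ) + 1) * K ≤ ε / 2 := by
    have h4 : (1 : ℝ) / (j + 1) ≤ ε / (4 * (K + 1)) := by linarith
    calc 2 / ((j : ℝ) + 1) * K = 2 * (1 / (j + 1)) * K := by ring
      _ ≤ 2 * (ε / (4 * (K + 1))) * K := by gcongr
      _ ≤ 2 * (ε / (4 * (K + 1))) * (K + 1) := by
          apply mul_le_mul_of_nonneg_left (by linarith) (by positivity)
      _ = ε / 2 := by field_simp; ring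
  have h5 : ‖f (D.Y j - y)‖ ≤ ε / 4 := by
    refine (f.le_opNorm _).trans ?_
    calc ‖f‖ * ‖D.Y j - y‖ ≤ (K + 1) * (ε / (4 * (K + 1))) := by
          apply mul_le_mul (by linarith) hjy.le (norm_nonneg _) hKp.le
      _ = ε / 4 := by field_simp
  have hdec : ((D.c a)⁻¹ : ℝ) • (D.T ^ (3 ^ a)) X - y =
      (((D.c a)⁻¹ : ℝ) • (D.T ^ (3 ^ a)) X - D.Y j) + (D.Y j - y) := by abel
  rw [hdec, map_add]
  have := norm_add_le (f (((D.c a)⁻¹ : ℝ) • (D.T ^ (3 ^ a)) X - D.Y j)) (f (D.Y j - y))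
  linarith

/-- the operator is not supercyclic if one row is symmetric. -/
theorem not_supercyclic (k0 : I) (hsym : ∀ n, D.β (-n) k0 * D.β n k0 = 1) (x : C₀(ℤ × I, 𝕜)) :
    ¬ Dense {z | ∃ (c : 𝕜) (n : ℕ), z = c • (D.T ^ n) x} := by
  intro hd
  have key : ∀ u : C₀(ℤ × I, 𝕜), ∃ (c : 𝕜) (n : ℕ), ‖c • (D.T ^ n) x - u‖ < 1 / 64 := by
    intro u
    obtain ⟨z, ⟨c, n, rfl⟩, hz⟩ := hd.exists_dist_lt u (show (0:ℝ) < 1 / 64 by norm_num)
    refine ⟨c, n, ?_⟩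
    rw [← dist_eq_norm, dist_comm]; exact hz
  obtain ⟨c1, n1, h1⟩ := key (e (0, k0))
  obtain ⟨c2, n2, h2⟩ := key (e (0, k0) + (1 / 8 : 𝕜) • e (1, k0))
  -- moduli
  set b : ℤ → ℝ := fun n => D.β n k0 with hb
  have hbp : ∀ n, 0 < b n := fun n => D.hβ n k0
  set v : ℤ → ℝ := fun n => ‖x (n, k0)‖ with hv
  have hv0 : ∀ n, 0 ≤ v n := fun n => norm_nonneg _
  have hval : ∀ (c : 𝕜) (n : ℕ) (m : ℤ), ‖(c • (D.T ^ n) x) (m, k0)‖ =
      ‖c‖ * (b (m + n) / b m * v (m + n)) := by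
    intro c n m
    rw [ZeroAtInftyContinuousMap.smul_apply, T_pow, norm_smul, norm_mul, RCLike.norm_ofReal,
      abs_of_pos (div_pos (hbp _) (hbp _))]
  have hsm : ∀ (c : 𝕜) (n : ℕ) (u : C₀(ℤ × I, 𝕜)) (m : ℤ), ‖c • (D.T ^ n) x - u‖ < 1 / 64 →
      |‖c‖ * (b (m + n) / b m * v (m + n)) - ‖u (m, k0)‖| ≤ 1 / 64 := by
    intro c n u m h
    rw [← hval]
    refine (abs_norm_sub_norm_le _ _).trans ?_
    rw [← ZeroAtInftyContinuousMap.sub_apply]
    exact (apply_le_norm _ _).trans h.le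
  have ev1 : ∀ m : ℤ, ‖(e (0, k0) : C₀(ℤ × I, 𝕜)) (m, k0)‖ = if m = 0 then 1 else 0 := by
    intro m
    rw [e_apply]
    by_cases hm : m = 0 <;> simp [hm]
  have ev2 : ∀ m : ℤ, ‖(e (0, k0) + (1 / 8 : 𝕜) • e (1, k0) : C₀(ℤ × I, 𝕜)) (m, k0)‖ =
      if m = 0 then 1 else if m = 1 then 1 / 8 else 0 := by
    intro m
    rw [ZeroAtInftyContinuousMap.add_apply, ZeroAtInftyContinuousMap.smul_apply, e_apply, e_apply]
    by_cases hm : m = 0
    · simp [hm]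
    · by_cases hm1 : m = 1
      · simp [hm1]
      · simp [hm, hm1]
  have b0 : b 0 = 1 := by
    have h3 := hsym 0
    rw [neg_zero] at h3
    have h4 := hbp 0
    simp only [hb] at h4 ⊢
    nlinarith
  have A1 := hsm c1 n1 _ 0 h1
  have A2 := hsm c2 n2 _ 0 h2
  rw [ev1, if_pos rfl, zero_add, b0, div_one] at A1
  rw [ev2, if_pos rfl, zero_add, b0, div_one] at A2
  obtain ⟨A1l, A1u⟩ := abs_le.1 A1
  obtain ⟨A2l, A2u⟩ := abs_le.1 A2
  rcases lt_trichotomy n1 n2 with hlt | heq | hlt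
  · -- d = n2 - n1
    set d : ℤ := (n2 : ℤ) - n1 with hdd
    have hd0 : 0 < d := by omega
    have B1 := hsm c1 n1 _ d h1
    have B2 := hsm c2 n2 _ (-d) h2
    have e1 : d + (n1 : ℤ) = n2 := by omega
    have e2 : -d + (n2 : ℤ) = n1 := by omega
    rw [ev1, if_neg (by omega), sub_zero, e1] at B1
    rw [ev2, if_neg (by omega), if_neg (by omega), sub_zero, e2] at B2
    have B1' := (abs_le.1 B1).2
    have B2' := (abs_le.1 B2).2
    have hbd : b (-d) * b d = 1 := hsym d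
    have hprod : (‖c1‖ * (b n2 / b d * v n2)) * (‖c2‖ * (b n1 / b (-d) * v n1)) =
        (‖c1‖ * (b n1 * v n1)) * (‖c2‖ * (b n2 * v n2)) := by
      have : b n2 / b d * (b n1 / b (-d)) = b n2 * b n1 := by
        rw [div_mul_div_comm, mul_comm (b d), hbd, div_one]
      linear_combination (‖c1‖ * ‖c2‖ * v n2 * v n1) * this
    have hp1 : 0 ≤ ‖c1‖ * (b n2 / b d * v n2) :=
      mul_nonneg (norm_nonneg _) (mul_nonneg (div_pos (hbp _) (hbp _)).le (hv0 _))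
    have hp2 : 0 ≤ ‖c2‖ * (b n1 / b (-d) * v n1) :=
      mul_nonneg (norm_nonneg _) (mul_nonneg (div_pos (hbp _) (hbp _)).le (hv0 _))
    nlinarith [mul_le_mul B1' B2' hp2 (by norm_num), mul_le_mul (sub_le_iff_le_add.1 (by linarith :
      (63:ℝ)/64 - 0 ≤ ‖c1‖ * (b n1 * v n1))) (by linarith :
      (63:ℝ)/64 ≤ ‖c2‖ * (b n2 * v n2)) (by norm_num) (by linarith)]
  · subst heq
    have B1 := hsm c1 n1 _ 1 h1
    have B2 := hsm c2 n1 _ 1 h2
    rw [ev1, if_neg (by norm_num), sub_zero] at B1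
    rw [ev2, if_neg (by norm_num), if_pos rfl] at B2
    have B1' := (abs_le.1 B1).2
    have B2' := (abs_le.1 B2).1
    have hprod : (‖c1‖ * (b n1 * v n1)) * (‖c2‖ * (b (1 + n1) / b 1 * v (1 + n1))) =
        (‖c1‖ * (b (1 + n1) / b 1 * v (1 + n1))) * (‖c2‖ * (b n1 * v n1)) := by ring
    have hp1 : 0 ≤ ‖c1‖ * (b (1 + n1) / b 1 * v (1 + n1)) :=
      mul_nonneg (norm_nonneg _) (mul_nonneg (div_pos (hbp _) (hbp _)).le (hv0 _))
    have hL : (63:ℝ)/64 * (7/64) ≤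
        (‖c1‖ * (b n1 * v n1)) * (‖c2‖ * (b (1 + n1) / b 1 * v (1 + n1))) := by
      apply mul_le_mul (by linarith) (by linarith) (by norm_num) (by linarith)
    have hR : (‖c1‖ * (b (1 + n1) / b 1 * v (1 + n1))) * (‖c2‖ * (b n1 * v n1)) ≤
        (1/64) * (65/64) := by
      apply mul_le_mul (by linarith) (by linarith) (by linarith) (by norm_num)
    rw [hprod] at hL
    linarith
  · set d : ℤ := (n1 : ℤ) - n2 with hdd
    have hd0 : 0 < d := by omega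
    have B2 := hsm c2 n2 _ d h2
    have B1 := hsm c1 n1 _ (-d) h1
    have e1 : d + (n2 : ℤ) = n1 := by omega
    have e2 : -d + (n1 : ℤ) = n2 := by omega
    rw [ev1, if_neg (by omega), sub_zero, e2] at B1
    have B1' := (abs_le.1 B1).2
    have hu : ‖(e (0, k0) + (1 / 8 : 𝕜) • e (1, k0) : C₀(ℤ × I, 𝕜)) (d, k0)‖ ≤ 1 / 8 := by
      rw [ev2, if_neg (by omega)]
      split_ifs <;> norm_num
    rw [e1] at B2
    have B2' := (abs_le.1 B2).2
    have hbd : b (-d) * b d = 1 := hsym d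
    have hprod : (‖c2‖ * (b n1 / b d * v n1)) * (‖c1‖ * (b n2 / b (-d) * v n2)) =
        (‖c1‖ * (b n1 * v n1)) * (‖c2‖ * (b n2 * v n2)) := by
      have : b n1 / b d * (b n2 / b (-d)) = b n1 * b n2 := by
        rw [div_mul_div_comm, mul_comm (b d), hbd, div_one]
      linear_combination (‖c1‖ * ‖c2‖ * v n2 * v n1) * this
    have hp1 : 0 ≤ ‖c2‖ * (b n1 / b d * v n1) :=
      mul_nonneg (norm_nonneg _) (mul_nonneg (div_pos (hbp _) (hbp _)).le (hv0 _))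
    have hp2 : 0 ≤ ‖c1‖ * (b n2 / b (-d) * v n2) :=
      mul_nonneg (norm_nonneg _) (mul_nonneg (div_pos (hbp _) (hbp _)).le (hv0 _))
    have hR : (‖c2‖ * (b n1 / b d * v n1)) * (‖c1‖ * (b n2 / b (-d) * v n2)) ≤
        (9/64) * (1/64) := by
      apply mul_le_mul (by linarith) (by linarith) hp2 (by norm_num)
    have hL : (63:ℝ)/64 * (63/64) ≤ (‖c1‖ * (b n1 * v n1)) * (‖c2‖ * (b n2 * v n2)) := by
      apply mul_le_mul (by linarith) (by linarith) (by norm_num) (by linarith)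
    rw [hprod] at hR
    linarith

end Data

end Q66WC
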