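import Mathlib
import Pool.Agent.Q66.WC3

set_option linter.unusedSectionVars false
set_option linter.unusedSimpArgs false

open Filter Topology
open scoped ZeroAtInfty

namespace Q66WC

namespace ExB

def N (j : ℕ) : ℕ := (j + 1) * 8 ^ j

def τ : ℕ → ℕ
  | 0 => 1
  | j + 1 => τ j + N j + 1

lemma τ_succ (j : ℕ) : τ (j + 1) = τ j + N j + 1 := rfl

lemma τ_mono : StrictMono τ := strictMono_nat_of_lt_succ fun j => by rw [τ_succ]; omega

lemma τ_ge (j : ℕ) : j + 1 ≤ τ j := by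
  induction j with
  | zero => simp [τ]
  | succ j ih => rw [τ_succ]; omega

lemma nine_le (j : ℕ) : 9 * j ≤ 3 ^ (τ j + 1) := by
  have h1 : 3 ^ (j + 2) ≤ 3 ^ (τ j + 1) := Nat.pow_le_pow_right (by norm_num) (by
    have := τ_ge j; omega)
  have h2 : j < 3 ^ j := Nat.lt_pow_self (by norm_num)
  have h3 : 3 ^ (j + 2) = 9 * 3 ^ j := by ring
  omega

/-- block index of `|n|`. -/
def jj (n : ℤ) : ℕ := J τ n.natAbs

/-- exponents. -/
def f (k : ℕ) (n : ℤ) : ℤ :=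
  if 0 ≤ n then ((jj n / 2 ^ k : ℕ) : ℤ) else -(2 * (jj n : ℤ) - ((jj n / 2 ^ k : ℕ) : ℤ))

lemma f_le (k : ℕ) (n : ℤ) : f k n ≤ jj n := by
  unfold f
  have : jj n / 2 ^ k ≤ jj n := Nat.div_le_self _ _
  generalize jj n / 2 ^ k = d at *
  split_ifs <;> omega

lemma f_le_abs (k : ℕ) (n : ℤ) : f k n ≤ |n| := by
  have h1 := f_le k n
  have h2 : jj n ≤ n.natAbs := J_le_self _
  rw [Int.abs_eq_natAbs]
  omega

lemma f_ge (k : ℕ) (n : ℤ) : -(2 * (jj n : ℤ)) ≤ f k n := by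
  unfold f
  have : jj n / 2 ^ k ≤ jj n := Nat.div_le_self _ _
  generalize jj n / 2 ^ k = d at *
  split_ifs <;> omega

lemma f_step (k : ℕ) (n : ℤ) : f k (n + 1) - f k n ≤ 2 := by
  unfold f
  have hp : 0 < 2 ^ k := by positivity
  have hdiv : ∀ a b : ℕ, a ≤ b + 1 → a / 2 ^ k ≤ b / 2 ^ k + 1 := by
    intro a b h
    calc a / 2 ^ k ≤ (b + 2 ^ k) / 2 ^ k := Nat.div_le_div_right (by omega)
      _ = b / 2 ^ k + 1 := Nat.add_div_right b hp
  by_cases h0 : 0 ≤ n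
  · have h1 : 0 ≤ n + 1 := by omega
    rw [if_pos h0, if_pos h1]
    have h2 : jj (n + 1) ≤ jj n + 1 := by
      unfold jj
      have : (n + 1).natAbs = n.natAbs + 1 := by omega
      rw [this]; exact J_succ τ_mono _
    have := hdiv _ _ h2
    generalize jj n / 2 ^ k = d at *
    generalize jj (n + 1) / 2 ^ k = d' at *
    omega
  · by_cases h1 : 0 ≤ n + 1
    · have h2 : n = -1 := by omega
      subst h2
      have h3 : jj (-1 + 1) = 0 := by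
        have : jj (-1 + 1) ≤ (0 : ℤ).natAbs := J_le_self _
        simpa using this
      have h4 : jj (-1) ≤ 1 := by
        have : jj (-1) ≤ (-1 : ℤ).natAbs := J_le_self _
        simpa using this
      rw [if_neg h0, if_pos h1, h3]
      simp only [Nat.zero_div]
      generalize jj (-1) / 2 ^ k = d at *
      omega
    · rw [if_neg h0, if_neg h1]
      have h2 : jj n ≤ jj (n + 1) + 1 := by
        unfold jj
        have : n.natAbs = (n + 1).natAbs + 1 := by omega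
        rw [this]; exact J_succ τ_mono _
      have h3 : jj (n + 1) ≤ jj n := by
        unfold jj
        apply J_mono τ_mono
        omega
      have h4 : jj (n + 1) / 2 ^ k ≤ jj n / 2 ^ k := Nat.div_le_div_right h3
      have h5 := hdiv _ _ h2
      generalize jj n / 2 ^ k = d at *
      generalize jj (n + 1) / 2 ^ k = d' at *
      omega

lemma f_anti (k : ℕ) (n : ℤ) : f k n - f (k + 1) n = ((jj n / 2 ^ k : ℕ) : ℤ) -
    ((jj n / 2 ^ (k + 1) : ℕ) : ℤ) := by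
  unfold f
  split_ifs <;> omega

lemma f_diff (k : ℕ) (n : ℤ) : ((jj n / 2 ^ (k + 1) : ℕ) : ℤ) ≤ f k n - f (k + 1) n := by
  rw [f_anti]
  have h1 : jj n / 2 ^ (k + 1) = jj n / 2 ^ k / 2 := by rw [pow_succ, Nat.div_div_eq_div_mul]
  rw [h1]
  generalize jj n / 2 ^ k = d at *
  omega

lemma f_zero (n : ℤ) : f 0 (-n) + f 0 n = 0 := by
  unfold f
  have h1 : jj (-n) = jj n := by unfold jj; rw [Int.natAbs_neg]
  rw [h1]
  simp only [pow_zero, Nat.div_one]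
  rcases lt_trichotomy n 0 with h | h | h
  · rw [if_pos (by omega), if_neg (by omega)]; ring
  · subst h
    have h3 : jj 0 = 0 := by
      have : jj 0 ≤ (0 : ℤ).natAbs := J_le_self _
      simpa using this
    simp [h3]
  · rw [if_neg (by omega), if_pos (by omega)]; ring

noncomputable def β (n : ℤ) (k : ℕ) : ℝ := 2 ^ (f k n - (k : ℤ) ^ 2)

lemma β_pos (n : ℤ) (k : ℕ) : 0 < β n k := by unfold β; positivity

lemma β_div (n m : ℤ) (k : ℕ) : β n k / β m k = 2 ^ (f k n - f k m) := by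
  unfold β
  rw [← zpow_sub₀ (by norm_num)]
  congr 1; ring

/-- admissible targets -/
def adm (𝕜 : Type) [RCLike 𝕜] (j : ℕ) (w : ℤ × ℕ →₀ 𝕜) : Prop :=
  ∀ g, w g ≠ 0 → |g.1| ≤ j ∧ ‖w g‖ * 2 ^ g.1.natAbs * (j + 1) ≤ 2 ^ (j / 2 ^ g.2)

lemma ev_aux (K : ℝ) (k : ℕ) : ∀ᶠ j : ℕ in atTop, K * (j + 1) ≤ 2 ^ (j / 2 ^ k) := by
  have hp : 0 < 2 ^ k := by positivity
  -- (m+1) C ≤ 2 ^ m eventually
  have h1 : ∀ C : ℝ, ∀ᶠ m : ℕ in atTop, C * (m + 1) ≤ 2 ^ m := by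
    intro C
    have h2 : Tendsto (fun m : ℕ => (m : ℝ) * (1 / 2) ^ m) atTop (𝓝 0) :=
      tendsto_self_mul_const_pow_of_lt_one (by norm_num) (by norm_num)
    have h3 : Tendsto (fun m : ℕ => ((1 : ℝ) / 2) ^ m) atTop (𝓝 0) :=
      tendsto_pow_atTop_nhds_zero_of_lt_one (by norm_num) (by norm_num)
    have h4 : Tendsto (fun m : ℕ => C * ((m : ℝ) * (1 / 2) ^ m + (1 / 2) ^ m)) atTop (𝓝 0) := by
      simpa using (h2.add h3).const_mul C
    filter_upwards [h4.eventually_lt_const (show (0:ℝ) < 1 by norm_num)] with m hm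
    have h5 : (0:ℝ) < 2 ^ m := by positivity
    have h6 : ((1:ℝ) / 2) ^ m * 2 ^ m = 1 := by rw [← mul_pow]; norm_num
    calc C * (m + 1) = C * (m + 1) * (((1:ℝ) / 2) ^ m * 2 ^ m) := by rw [h6, mul_one]
      _ = (C * ((m : ℝ) * (1 / 2) ^ m + (1 / 2) ^ m)) * 2 ^ m := by ring
      _ ≤ 1 * 2 ^ m := by apply mul_le_mul_of_nonneg_right hm.le h5.le
      _ = 2 ^ m := one_mul _
  have h2 : Tendsto (fun j : ℕ => j / 2 ^ k) atTop atTop :=
    Nat.tendsto_div_const_atTop hp.ne'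
  filter_upwards [h2.eventually (h1 (|K| * 2 ^ k))] with j hj
  refine le_trans ?_ hj
  have h3 : (j : ℝ) + 1 ≤ 2 ^ k * (((j / 2 ^ k : ℕ) : ℝ) + 1) := by
    have h4 : j < 2 ^ k * (j / 2 ^ k + 1) := Nat.lt_mul_div_succ j hp
    have h5 : j + 1 ≤ 2 ^ k * (j / 2 ^ k + 1) := h4
    exact_mod_cast h5
  calc K * (j + 1) ≤ |K| * (j + 1) := by
        apply mul_le_mul_of_nonneg_right (le_abs_self K) (by positivity)
    _ ≤ |K| * (2 ^ k * (((j / 2 ^ k : ℕ) : ℝ) + 1)) := by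
        apply mul_le_mul_of_nonneg_left h3 (abs_nonneg K)
    _ = |K| * 2 ^ k * (((j / 2 ^ k : ℕ) : ℝ) + 1) := by ring

lemma adm_ev (𝕜 : Type) [RCLike 𝕜] (w : ℤ × ℕ →₀ 𝕜) : ∀ᶠ j in atTop, adm 𝕜 j w := by
  have h1 : ∀ g ∈ w.support, ∀ᶠ j : ℕ in atTop, |g.1| ≤ j ∧
      ‖w g‖ * 2 ^ g.1.natAbs * (j + 1) ≤ (2:ℝ) ^ (j / 2 ^ g.2) := by
    intro g _
    filter_upwards [eventually_ge_atTop g.1.natAbs, ev_aux (‖w g‖ * 2 ^ g.1.natAbs) g.2] with j h2 h3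
    exact ⟨by rw [Int.abs_eq_natAbs]; omega, h3⟩
  have h2 := (Filter.eventually_all_finset w.support).2 h1
  filter_upwards [h2] with j hj g hg
  exact hj g (Finsupp.mem_support_iff.2 hg)

lemma adm_zero (𝕜 : Type) [RCLike 𝕜] (j : ℕ) : adm 𝕜 j 0 := fun _ hg => (hg rfl).elim

/-- the data -/
noncomputable def D {𝕜 : Type} [RCLike 𝕜] (v : ℕ → (ℤ × ℕ →₀ 𝕜)) (hv : ∀ j, adm 𝕜 j (v j)) :
    Data 𝕜 ℕ where
  β := β
  hβ := β_pos
  C := 4
  hC := fun n k => by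
    rw [β_div]
    calc (2:ℝ) ^ (f k (n + 1) - f k n) ≤ 2 ^ (2 : ℤ) :=
          zpow_le_zpow_right₀ (by norm_num) (f_step k n)
      _ = 4 := by norm_num
  τ := τ
  N := N
  hτ := τ_succ
  hτ9 := nine_le
  y := v
  hy := fun j g hg => (hv j g hg).1
  c := fun _ => 1
  hc := fun _ => one_pos

variable {𝕜 : Type} [RCLike 𝕜] (v : ℕ → (ℤ × ℕ →₀ 𝕜)) (hv : ∀ j, adm 𝕜 j (v j))

/-- block of a position near a copy -/
lemma jj_copy {p : ℤ} {j a : ℕ} (h : (D v hv).InCopy p j a) : 0 < p ∧ jj p = j ∧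
    p < 3 ^ τ (j + 1) := by
  obtain ⟨h1, h2, h3⟩ := h
  change τ j + 1 ≤ a at h1
  change a ≤ τ j + N j at h2
  have h4 : 9 * (j : ℤ) ≤ 3 ^ a := by
    have h5 := nine_le j
    have h6 : 3 ^ (τ j + 1) ≤ 3 ^ a := Nat.pow_le_pow_right (by norm_num) h1
    exact_mod_cast h5.trans h6
  have h5 : 3 * (3:ℤ) ^ τ j ≤ 3 ^ a := pow3_lt (by omega)
  have h6 : 3 * (3:ℤ) ^ a ≤ 3 ^ τ (j + 1) := pow3_lt (by rw [τ_succ]; omega)
  have h7 := pow3_pos (τ j)
  have h8 := le_abs_self (p - 3 ^ a)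
  have h9 := neg_abs_le (p - 3 ^ a)
  refine ⟨by omega, ?_, by omega⟩
  unfold jj
  apply J_eq τ_mono
  · zify; rw [abs_of_nonneg (by omega)]; omega
  · zify; rw [abs_of_nonneg (by omega)]; omega

include hv in
lemma y_bound {j : ℕ} {s : ℤ} {k : ℕ} : ‖v j (s, k)‖ * 2 ^ s.natAbs * (j + 1) ≤ 2 ^ (j / 2 ^ k) := by
  by_cases h : v j (s, k) = 0
  · rw [h, norm_zero, zero_mul, zero_mul]; positivity
  · exact (hv j _ h).2

include hv in
/-- the basic bound: a block `j` point `n ≥ 0` -/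
lemma val_bound {j : ℕ} {s n : ℤ} {k : ℕ} (hn : 0 ≤ n) (hj : jj n = j) :
    2 ^ (f k s - f k n) * ‖v j (s, k)‖ ≤ 1 / (j + 1) := by
  have h1 : f k n = ((j / 2 ^ k : ℕ) : ℤ) := by unfold f; rw [if_pos hn, hj]
  have h2 := f_le_abs k s
  have h3 := y_bound v hv (j := j) (s := s) (k := k)
  rw [le_div_iff₀ (by positivity)]
  calc 2 ^ (f k s - f k n) * ‖v j (s, k)‖ * (j + 1)
      ≤ 2 ^ (|s| - f k n) * ‖v j (s, k)‖ * (j + 1) := by
        gcongr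
        · norm_num
    _ = (‖v j (s, k)‖ * 2 ^ s.natAbs * (j + 1)) * ((2:ℝ) ^ (f k n))⁻¹ := by
        have : (2:ℝ) ^ |s| = 2 ^ s.natAbs := by
          rw [← zpow_natCast, Int.natCast_natAbs]
        rw [zpow_sub₀ (by norm_num), this]; ring
    _ ≤ 2 ^ (j / 2 ^ k) * ((2:ℝ) ^ (f k n))⁻¹ := by
        apply mul_le_mul_of_nonneg_right h3 (by positivity)
    _ = 1 := by
        rw [h1, zpow_natCast]
        exact mul_inv_cancel₀ (by positivity)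

lemma xf_bound (p : ℤ) (k j a : ℕ) (h : (D v hv).InCopy p j a) :
    ‖(D v hv).xf (p, k)‖ ≤ 1 / (j + 1) := by
  obtain ⟨h1, h2, -⟩ := jj_copy v hv h
  rw [(D v hv).xf_of h]
  show ‖((1 * (β (p - 3 ^ a) k / β p k) : ℝ) : 𝕜) * v j (p - 3 ^ a, k)‖ ≤ _
  rw [one_mul, β_div, norm_mul, RCLike.norm_ofReal, abs_of_pos (by positivity)]
  exact val_bound v hv h1.le h2

/-- the vector -/
noncomputable def X : C₀(ℤ × ℕ, 𝕜) := (D v hv).X (xf_bound v hv)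

theorem approxB (j : ℕ) (F : Finset (C₀(ℤ × ℕ, 𝕜) →L[𝕜] 𝕜)) :
    ∃ a, ∀ f ∈ F, ‖f ((((D v hv).c a)⁻¹ : ℝ) • ((D v hv).T ^ (3 ^ a)) (X v hv) - (D v hv).Y j)‖ ≤
      2 / (j + 1) * ∑ f ∈ F, ‖f‖ := by
  apply (D v hv).approx (X v hv) (fun g => rfl) j (M := 8 ^ j)
  · show 0 < N j
    unfold N; positivity
  · positivity
  · intro a ha1 ha2 g hg
    obtain ⟨n, k⟩ := g
    obtain ⟨j', a', hj', hne, hin, hy⟩ := (D v hv).mem_P.1 hg
    rw [(D v hv).T_pow]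
    have e3 : (((3 ^ a : ℕ) : ℤ)) = 3 ^ a := by push_cast; rfl
    rw [e3]
    show ‖((β (n + 3 ^ a) k / β n k : ℝ) : 𝕜) * (D v hv).xf (n + 3 ^ a, k)‖ ≤ 1 * 8 ^ j
    rw [β_div, norm_mul, RCLike.norm_ofReal, abs_of_pos (by positivity), one_mul]
    have h1 : ‖(D v hv).xf (n + 3 ^ a, k)‖ ≤ 1 := by
      refine (xf_bound v hv _ _ _ _ hin).trans ?_
      rw [div_le_one (by positivity)]
      have : (0:ℝ) ≤ j' := by positivity
      linarith
    obtain ⟨hpos, hjj, hlt⟩ := jj_copy v hv hin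
    have h2 : f k (n + 3 ^ a) ≤ j := by
      have := f_le k (n + 3 ^ a)
      rw [hjj] at this
      omega
    have h3 : -(2 * (j : ℤ)) ≤ f k n := by
      have h4 := f_ge k n
      have h5 : jj n ≤ j := by
        unfold jj
        apply J_le τ_mono
        change a ≤ τ j + N j at ha2
        have h6 : 3 * (3:ℤ) ^ a ≤ 3 ^ τ (j + 1) := pow3_lt (by rw [τ_succ]; omega)
        have h7 : (3:ℤ) ^ τ (j' + 1) ≤ 3 ^ τ (j + 1) :=
          pow_le_pow_right₀ (by norm_num) (τ_mono.monotone (by omega))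
        have h8 := pow3_pos a
        zify
        rw [abs_lt]
        constructor <;> omega
      omega
    calc 2 ^ (f k (n + 3 ^ a) - f k n) * ‖(D v hv).xf (n + 3 ^ a, k)‖
        ≤ 2 ^ (3 * (j : ℤ)) * 1 := by
          apply mul_le_mul _ h1 (norm_nonneg _) (by positivity)
          exact zpow_le_zpow_right₀ (by norm_num) (by omega)
      _ = 8 ^ j := by
          rw [mul_one, zpow_mul, zpow_natCast]
          norm_num
  · show ((j : ℝ) + 1) * 8 ^ j ≤ ((N j : ℕ) : ℝ)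
    unfold N
    push_cast
    exact le_rfl
  · intro a ha1 ha2 n k j' a' hjj' hin
    rw [(D v hv).T_pow]
    have e3 : (((3 ^ a : ℕ) : ℤ)) = 3 ^ a := by push_cast; rfl
    rw [e3]
    show ‖((β (n + 3 ^ a) k / β n k : ℝ) : 𝕜) * (D v hv).xf (n + 3 ^ a, k)‖ ≤ 1 / (j + 1)
    rw [(D v hv).xf_of hin]
    show ‖((β (n + 3 ^ a) k / β n k : ℝ) : 𝕜) * (((1 * (β (n + 3 ^ a - 3 ^ a') k /
      β (n + 3 ^ a) k) : ℝ) : 𝕜) * v j' (n + 3 ^ a - 3 ^ a', k))‖ ≤ 1 / (j + 1)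
    set s := n + 3 ^ a - 3 ^ a' with hs
    have h0 := (β_pos (n + 3 ^ a) k).ne'
    have h0' := (β_pos n k).ne'
    rw [← mul_assoc, ← RCLike.ofReal_mul, one_mul]
    have e1 : β (n + 3 ^ a) k / β n k * (β s k / β (n + 3 ^ a) k) = β s k / β n k := by
      field_simp
    rw [e1, β_div, norm_mul, RCLike.norm_ofReal, abs_of_pos (by positivity)]
    -- `n` is in block `j'`
    obtain ⟨h1, h2, h3⟩ := hin
    change τ j' + 1 ≤ a' at h1
    change a' ≤ τ j' + N j' at h2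
    change a ≤ τ j + N j at ha2
    have h4 : 9 * (j' : ℤ) ≤ 3 ^ a' := by
      have h5 := nine_le j'
      have h6 : 3 ^ (τ j' + 1) ≤ 3 ^ a' := Nat.pow_le_pow_right (by norm_num) h1
      exact_mod_cast h5.trans h6
    have h5 : 3 * (3:ℤ) ^ τ j' ≤ 3 ^ a' := pow3_lt (by omega)
    have h6 : 3 * (3:ℤ) ^ a' ≤ 3 ^ τ (j' + 1) := pow3_lt (by rw [τ_succ]; omega)
    have h10 : a < τ j' := by
      have h11 : τ (j + 1) ≤ τ j' := τ_mono.monotone hjj'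
      rw [τ_succ] at h11; omega
    have h12 : 3 * (3:ℤ) ^ a ≤ 3 ^ τ j' := pow3_lt h10
    have h7 := pow3_pos (τ j')
    have h13 := pow3_pos a
    have h8 := le_abs_self (n + 3 ^ a - 3 ^ a')
    have h9 := neg_abs_le (n + 3 ^ a - 3 ^ a')
    have hn0 : 0 ≤ n := by omega
    have hjn : jj n = j' := by
      unfold jj
      apply J_eq τ_mono
      · zify; rw [abs_of_nonneg hn0]; omega
      · zify; rw [abs_of_nonneg hn0]; omega
    refine (val_bound v hv hn0 hjn).trans ?_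
    apply one_div_le_one_div_of_le (by positivity)
    have : (j : ℝ) ≤ j' := by exact_mod_cast hjj'.le
    linarith

/-- the commuting compact operator -/
noncomputable def S (𝕜 : Type) [RCLike 𝕜] : C₀(ℤ × ℕ, 𝕜) →L[𝕜] C₀(ℤ × ℕ, 𝕜) :=
  wcomp (fun g => (g.1, g.2 + 1)) (fun g g' h => by
    simp only [Prod.mk.injEq, add_left_inj] at h
    exact Prod.ext h.1 h.2) (fun g => β g.1 (g.2 + 1) / β g.1 g.2) 1
    (fun g => by
      rw [abs_of_pos (div_pos (β_pos _ _) (β_pos _ _)), div_le_one (β_pos _ _)]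
      unfold β
      apply zpow_le_zpow_right₀ (by norm_num)
      have h1 := f_diff g.2 g.1
      have h2 : (0 : ℤ) ≤ ((jj g.1 / 2 ^ (g.2 + 1) : ℕ) : ℤ) := Int.natCast_nonneg _
      have h3 : (0 : ℤ) ≤ (g.2 : ℤ) := Int.natCast_nonneg _
      push_cast
      nlinarith)

lemma S_apply (x : C₀(ℤ × ℕ, 𝕜)) (n : ℤ) (k : ℕ) :
    S 𝕜 x (n, k) = ((β n (k + 1) / β n k : ℝ) : 𝕜) * x (n, k + 1) := rfl

lemma S_dense : DenseRange (S 𝕜) := by
  apply wcomp_denseRange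
  intro g
  exact (div_pos (β_pos _ _) (β_pos _ _)).ne'

lemma S_compact : IsCompactOperator (S 𝕜) := by
  apply wcomp_compact
  rw [Metric.tendsto_nhds]
  intro ε hε
  rw [Filter.eventually_cofinite]
  obtain ⟨L, hL⟩ := exists_pow_lt_of_lt_one hε (show (1:ℝ) / 2 < 1 by norm_num)
  set B : ℕ := 2 ^ (L + 1) * (L + 1) with hB
  apply Set.Finite.subset
    ((Finset.Icc (-(3:ℤ) ^ τ B) (3 ^ τ B) ×ˢ Finset.range (L + 1)).finite_toSet)
  rintro ⟨n, k⟩ hp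
  simp only [dist_zero_right, Set.mem_ofPred_eq, not_lt, Real.norm_eq_abs] at hp
  rw [abs_of_pos (div_pos (β_pos _ _) (β_pos _ _))] at hp
  have hw : β n (k + 1) / β n k = 2 ^ (-(f k n - f (k + 1) n + (2 * k + 1))) := by
    unfold β
    rw [← zpow_sub₀ (by norm_num)]
    congr 1; push_cast; ring
  rw [hw] at hp
  have h1 : f k n - f (k + 1) n + (2 * k + 1) ≤ L := by
    by_contra hcon
    have h2 : -(f k n - f (k + 1) n + (2 * k + 1)) ≤ -(L : ℤ) := by omega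
    have h3 : (2:ℝ) ^ (-(f k n - f (k + 1) n + (2 * k + 1))) ≤ 2 ^ (-(L : ℤ)) :=
      zpow_le_zpow_right₀ (by norm_num) h2
    have h4 : (2:ℝ) ^ (-(L : ℤ)) = (1 / 2) ^ L := by
      rw [zpow_neg, zpow_natCast, one_div, inv_pow]
    rw [h4] at h3
    linarith
  have h2 := f_diff k n
  have h2' : (0 : ℤ) ≤ ((jj n / 2 ^ (k + 1) : ℕ) : ℤ) := Int.natCast_nonneg _
  have hk : k ≤ L := by
    generalize ((jj n / 2 ^ (k + 1) : ℕ) : ℤ) = d at *
    omega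
  have h3 : jj n / 2 ^ (k + 1) ≤ L := by
    generalize jj n / 2 ^ (k + 1) = d at *
    omega
  have h4 : jj n < B := by
    have h5 : jj n < 2 ^ (k + 1) * (jj n / 2 ^ (k + 1) + 1) := Nat.lt_mul_div_succ _ (by positivity)
    have h6 : 2 ^ (k + 1) * (jj n / 2 ^ (k + 1) + 1) ≤ 2 ^ (L + 1) * (L + 1) :=
      Nat.mul_le_mul (Nat.pow_le_pow_right (by norm_num) (by omega)) (by omega)
    omega
  have h5 : n.natAbs < 3 ^ τ B := by
    by_contra hcon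
    have := le_J τ_mono (not_lt.1 hcon)
    unfold jj at h4
    omega
  zify at h5
  rw [abs_lt] at h5
  simp only [Finset.coe_product, Finset.coe_Icc, Finset.coe_range, Set.mem_prod, Set.mem_Icc,
    Set.mem_Iio]
  refine ⟨⟨by omega, by omega⟩, by omega⟩

lemma S_comm : (D v hv).T * S 𝕜 = S 𝕜 * (D v hv).T := by
  ext x g
  obtain ⟨n, k⟩ := g
  show (D v hv).T (S 𝕜 x) (n, k) = S 𝕜 ((D v hv).T x) (n, k)
  rw [(D v hv).T_apply, S_apply, S_apply, (D v hv).T_apply]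
  show ((β (n + 1) k / β n k : ℝ) : 𝕜) * (((β (n + 1) (k + 1) / β (n + 1) k : ℝ) : 𝕜) *
    x (n + 1, k + 1)) = ((β n (k + 1) / β n k : ℝ) : 𝕜) * (((β (n + 1) (k + 1) /
      β n (k + 1) : ℝ) : 𝕜) * x (n + 1, k + 1))
  rw [← mul_assoc, ← mul_assoc, ← RCLike.ofReal_mul, ← RCLike.ofReal_mul]
  congr 2
  have h1 := (β_pos n k).ne'
  have h2 := (β_pos (n + 1) k).ne'
  have h3 := (β_pos n (k + 1)).ne'
  field_simp

end ExB

/-- **Example B.** -/
theorem exampleB (𝕜 : Type) [RCLike 𝕜] : ∃ (T S : C₀(ℤ × ℕ, 𝕜) →L[𝕜] C₀(ℤ × ℕ, 𝕜)),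
    IsCompactOperator S ∧ DenseRange S ∧ T * S = S * T ∧
    (∃ x : C₀(ℤ × ℕ, 𝕜), Dense (toWeakSpace 𝕜 (C₀(ℤ × ℕ, 𝕜)) '' Set.range fun n : ℕ => (T ^ n) x)) ∧
    ∀ x : C₀(ℤ × ℕ, 𝕜), ¬ Dense {z | ∃ (c : 𝕜) (n : ℕ), z = c • (T ^ n) x} := by
  obtain ⟨v, hv, hd⟩ := exists_targets' (𝕜 := 𝕜) (G := ℤ × ℕ) (ExB.adm 𝕜) (ExB.adm_ev 𝕜)
    (ExB.adm_zero 𝕜)
  refine ⟨(ExB.D v hv).T, ExB.S 𝕜, ExB.S_compact, ExB.S_dense, ExB.S_comm v hv,
    ⟨ExB.X v hv, ?_⟩, fun x => (ExB.D v hv).not_supercyclic 0 ?_ x⟩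
  · apply dense_weak
    intro F y ε hε
    obtain ⟨a, ha⟩ := (ExB.D v hv).weak_approx (ExB.X v hv) hd (ExB.approxB v hv) F y ε hε
    refine ⟨((ExB.D v hv).T ^ (3 ^ a)) (ExB.X v hv), ⟨3 ^ a, rfl⟩, fun f hf => ?_⟩
    have h1 := ha f hf
    have h2 : (((ExB.D v hv).c a)⁻¹ : ℝ) = 1 := by
      show ((1:ℝ))⁻¹ = 1
      norm_num
    rw [h2, one_smul] at h1
    exact h1
  · intro n
    show ExB.β (-n) 0 * ExB.β n 0 = 1
    unfold ExB.β
    rw [← zpow_add₀ (by norm_num)]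
    have := ExB.f_zero n
    have h2 : ExB.f 0 (-n) - ((0:ℕ) : ℤ) ^ 2 + (ExB.f 0 n - ((0:ℕ) : ℤ) ^ 2) = 0 := by
      push_cast; linarith
    rw [h2, zpow_zero]

end Q66WC
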