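import Mathlib
import Pool.Agent.Q66.WC3

set_option linter.unusedSectionVars false
set_option linter.unusedSimpArgs false

open Filter Topology
open scoped ZeroAtInfty

namespace Q66WC

namespace ExA

def gg (j : ℕ) : ℕ := (j + 1) ^ 4

/-- number of copies, as a function of the index and the size of the previous ones -/
def NN (j t : ℕ) : ℕ := (j + 1) * 2 ^ (j * 3 ^ t + j ^ 2 + gg j)

def τ : ℕ → ℕ
  | 0 => 1
  | j + 1 => τ j + NN j (τ j) + 1

def N (j : ℕ) : ℕ := NN j (τ j)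

lemma τ_succ (j : ℕ) : τ (j + 1) = τ j + N j + 1 := rfl

lemma τ_mono : StrictMono τ := strictMono_nat_of_lt_succ fun j => by rw [τ_succ]; omega

lemma τ_ge (j : ℕ) : j + 1 ≤ τ j := by
  induction j with
  | zero => simp [τ]
  | succ j ih => rw [τ_succ]; omega

lemma nine_le (j : ℕ) : 9 * j ≤ 3 ^ (τ j + 1) := by
  have h1 : 3 ^ (j + 2) ≤ 3 ^ (τ j + 1) := Nat.pow_le_pow_right (by norm_num) (by
    have := τ_ge j; omega)
  have h2 : j < 3 ^ j := Nat.lt_pow_self (by norm_num)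
  have h3 : 3 ^ (j + 2) = 9 * 3 ^ j := by ring
  omega

/-- `∑_{k=1}^n J k` -/
def EN (n : ℕ) : ℕ := ∑ k ∈ Finset.range n, J τ (k + 1)

lemma EN_succ (n : ℕ) : EN (n + 1) = EN n + J τ (n + 1) := Finset.sum_range_succ _ _

lemma EN_zero : EN 0 = 0 := rfl

lemma EN_mono {a b : ℕ} (h : a ≤ b) : EN a ≤ EN b := by
  unfold EN
  exact Finset.sum_le_sum_of_subset (Finset.range_subset_range.2 h)

lemma EN_super (a b : ℕ) : EN a + EN b ≤ EN (a + b) := by
  induction b with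
  | zero => simp [EN_zero]
  | succ b ih =>
    rw [← add_assoc, EN_succ, EN_succ]
    have : J τ (b + 1) ≤ J τ (a + b + 1) := J_mono τ_mono (by omega)
    omega

lemma EN_add_le {j a c : ℕ} (h : a + c < 3 ^ τ (j + 1)) : EN (a + c) ≤ EN a + j * c := by
  induction c with
  | zero => simp
  | succ c ih =>
    have h1 := ih (by omega)
    rw [← add_assoc, EN_succ]
    have h2 : J τ (a + c + 1) ≤ j := J_le τ_mono (by omega)
    have h3 : j * (c + 1) = j * c + j := by ring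
    omega

lemma EN_ge (j a : ℕ) : j * a ≤ EN a + j * 3 ^ τ j := by
  induction a with
  | zero => simp
  | succ a ih =>
    by_cases h : 3 ^ τ j ≤ a + 1
    · have h1 : j ≤ J τ (a + 1) := le_J τ_mono h
      rw [EN_succ]
      have h3 : j * (a + 1) = j * a + j := by ring
      omega
    · have h2 : j * (a + 1) ≤ j * 3 ^ τ j := Nat.mul_le_mul_left _ (by omega)
      omega

lemma EN_le_sq (n : ℕ) : EN n ≤ n * n := by
  unfold EN
  calc ∑ k ∈ Finset.range n, J τ (k + 1) ≤ ∑ k ∈ Finset.range n, n := by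
        apply Finset.sum_le_sum
        intro k hk
        rw [Finset.mem_range] at hk
        exact (J_le_self _).trans (by omega)
    _ = n * n := by simp

/-- exponents on the integers -/
def E (n : ℤ) : ℤ := if 0 ≤ n then (EN n.natAbs : ℤ) else -(EN n.natAbs : ℤ)

lemma E_nonneg {n : ℤ} (h : 0 ≤ n) : E n = EN n.natAbs := by unfold E; rw [if_pos h]

lemma E_neg' {n : ℤ} (h : n < 0) : E n = -(EN n.natAbs : ℤ) := by
  unfold E; rw [if_neg (by omega)]

lemma E_neg (n : ℤ) : E (-n) + E n = 0 := by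
  rcases lt_trichotomy n 0 with h | h | h
  · rw [E_nonneg (by omega), E_neg' h, Int.natAbs_neg]; ring
  · subst h; simp [E, EN_zero]
  · rw [E_neg' (by omega), E_nonneg h.le, Int.natAbs_neg]; ring

lemma E_step (n : ℤ) : (J τ n.natAbs : ℤ) ≤ E (n + 1) - E n := by
  by_cases h : 0 ≤ n
  · rw [E_nonneg h, E_nonneg (by omega)]
    have h1 : (n + 1).natAbs = n.natAbs + 1 := by omega
    rw [h1, EN_succ]
    have : J τ n.natAbs ≤ J τ (n.natAbs + 1) := J_mono τ_mono (by omega)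
    push_cast; omega
  · have h1 : n.natAbs = (n + 1).natAbs + 1 := by omega
    rw [E_neg' (show n < 0 by omega)]
    by_cases h2 : 0 ≤ n + 1
    · have h3 : n = -1 := by omega
      subst h3
      rw [E_nonneg h2]
      simp [EN]
    · rw [E_neg' (show n + 1 < 0 by omega), h1, EN_succ]
      push_cast; omega

lemma E_le_EN (n : ℤ) : E n ≤ EN n.natAbs := by
  unfold E; split_ifs <;> omega

lemma E_ge_EN (n : ℤ) : -(EN n.natAbs : ℤ) ≤ E n := by
  unfold E; split_ifs <;> omega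

noncomputable def β (n : ℤ) (_ : Unit) : ℝ := 2 ^ (-E n)

lemma β_pos (n : ℤ) (k : Unit) : 0 < β n k := by unfold β; positivity

lemma β_div (n m : ℤ) (k : Unit) : β n k / β m k = 2 ^ (E m - E n) := by
  unfold β
  rw [← zpow_sub₀ (by norm_num)]
  congr 1; ring

/-- admissible targets -/
def adm (𝕜 : Type) [RCLike 𝕜] (j : ℕ) (w : ℤ × Unit →₀ 𝕜) : Prop :=
  ∀ g, w g ≠ 0 → |g.1| ≤ j ∧ ‖w g‖ ≤ 2 ^ j

lemma adm_ev (𝕜 : Type) [RCLike 𝕜] (w : ℤ × Unit →₀ 𝕜) : ∀ᶠ j in atTop, adm 𝕜 j w := by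
  have h1 : ∀ g ∈ w.support, ∀ᶠ j : ℕ in atTop, |g.1| ≤ j ∧ ‖w g‖ ≤ (2:ℝ) ^ j := by
    intro g _
    have h2 : Tendsto (fun j : ℕ => (2:ℝ) ^ j) atTop atTop :=
      tendsto_pow_atTop_atTop_of_one_lt (by norm_num)
    filter_upwards [eventually_ge_atTop g.1.natAbs, h2.eventually_ge_atTop ‖w g‖] with j h3 h4
    exact ⟨by rw [Int.abs_eq_natAbs]; omega, h4⟩
  have h2 := (Filter.eventually_all_finset w.support).2 h1
  filter_upwards [h2] with j hj g hg
  exact hj g (Finsupp.mem_support_iff.2 hg)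

lemma adm_zero (𝕜 : Type) [RCLike 𝕜] (j : ℕ) : adm 𝕜 j 0 := fun _ hg => (hg rfl).elim

/-- scaling -/
noncomputable def cc (a : ℕ) : ℝ := 2 ^ (-((EN (3 ^ a + J τ (3 ^ a)) + gg (J τ (3 ^ a)) : ℕ) : ℤ))

lemma J_pow {j a : ℕ} (h1 : τ j + 1 ≤ a) (h2 : a ≤ τ j + N j) : J τ (3 ^ a) = j := by
  apply J_eq τ_mono
  · exact Nat.pow_le_pow_right (by norm_num) (by omega)
  · exact Nat.pow_lt_pow_right (by norm_num) (by rw [τ_succ]; omega)

lemma cc_eq {j a : ℕ} (h1 : τ j + 1 ≤ a) (h2 : a ≤ τ j + N j) :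
    cc a = 2 ^ (-((EN (3 ^ a + j) + gg j : ℕ) : ℤ)) := by
  unfold cc; rw [J_pow h1 h2]

/-- the data -/
noncomputable def D {𝕜 : Type} [RCLike 𝕜] (v : ℕ → (ℤ × Unit →₀ 𝕜)) (hv : ∀ j, adm 𝕜 j (v j)) :
    Data 𝕜 Unit where
  β := β
  hβ := β_pos
  C := 1
  hC := fun n k => by
    rw [β_div]
    have h1 := E_step n
    calc (2:ℝ) ^ (E n - E (n + 1)) ≤ 2 ^ (0 : ℤ) :=
          zpow_le_zpow_right₀ (by norm_num) (by omega)
      _ = 1 := by norm_num
  τ := τ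
  N := N
  hτ := τ_succ
  hτ9 := nine_le
  y := v
  hy := fun j g hg => (hv j g hg).1
  c := cc
  hc := fun a => by unfold cc; positivity

variable {𝕜 : Type} [RCLike 𝕜] (v : ℕ → (ℤ × Unit →₀ 𝕜)) (hv : ∀ j, adm 𝕜 j (v j))

include hv in
lemma y_bound {j : ℕ} {g : ℤ × Unit} : ‖v j g‖ ≤ 2 ^ j := by
  by_cases h : v j g = 0
  · rw [h, norm_zero]; positivity
  · exact (hv j _ h).2

/-- facts about the position of a copy -/
lemma copy_facts {p : ℤ} {j a : ℕ} (h : (D v hv).InCopy p j a) :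
    τ j + 1 ≤ a ∧ a ≤ τ j + N j ∧ |p - 3 ^ a| ≤ j ∧ 9 * (j : ℤ) ≤ 3 ^ a ∧
      3 * (3:ℤ) ^ τ j ≤ 3 ^ a ∧ 3 * (3:ℤ) ^ a ≤ 3 ^ τ (j + 1) := by
  obtain ⟨h1, h2, h3⟩ := h
  change τ j + 1 ≤ a at h1
  change a ≤ τ j + N j at h2
  refine ⟨h1, h2, h3, ?_, pow3_lt (by omega), pow3_lt (by rw [τ_succ]; omega)⟩
  have h5 := nine_le j
  have h6 : 3 ^ (τ j + 1) ≤ 3 ^ a := Nat.pow_le_pow_right (by norm_num) h1
  exact_mod_cast h5.trans h6

lemma gg_ge (j : ℕ) : j ^ 2 + 2 * j ≤ gg j := by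
  unfold gg
  have : (j + 1) ^ 4 = j ^ 4 + 4 * j ^ 3 + 6 * j ^ 2 + 4 * j + 1 := by ring
  rw [this]
  have h1 : 0 ≤ j ^ 4 := by positivity
  have h2 : 0 ≤ j ^ 3 := by positivity
  nlinarith

lemma gg_step {j j' : ℕ} (h : j < j') : 2 * j' ^ 2 + 2 * j' + gg j ≤ gg j' := by
  have h1 : gg j ≤ j' ^ 4 := by
    unfold gg
    exact Nat.pow_le_pow_left (by omega) 4
  have h2 : gg j' = j' ^ 4 + 4 * j' ^ 3 + 6 * j' ^ 2 + 4 * j' + 1 := by unfold gg; ring
  have h3 : 0 ≤ j' ^ 3 := by positivity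
  rw [h2]
  nlinarith

lemma two_pow_ge (j : ℕ) : (2:ℝ) ^ (-(j : ℤ)) ≤ 1 / (j + 1) := by
  rw [zpow_neg, zpow_natCast, ← one_div]
  apply one_div_le_one_div_of_le (by positivity)
  have : j + 1 ≤ 2 ^ j := Nat.lt_two_pow_self
  exact_mod_cast this

lemma xf_bound (p : ℤ) (k : Unit) (j a : ℕ) (h : (D v hv).InCopy p j a) :
    ‖(D v hv).xf (p, k)‖ ≤ 1 / (j + 1) := by
  obtain ⟨h1, h2, h3, h4, h5, h6⟩ := copy_facts v hv h
  rw [(D v hv).xf_of h]
  show ‖((cc a * (β (p - 3 ^ a) k / β p k) : ℝ) : 𝕜) * v j (p - 3 ^ a, k)‖ ≤ _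
  rw [β_div, cc_eq h1 h2, norm_mul, RCLike.norm_ofReal, abs_of_pos (by positivity),
    ← zpow_add₀ (by norm_num)]
  refine le_trans ?_ (two_pow_ge j)
  have hy := y_bound v hv (j := j) (g := (p - 3 ^ a, k))
  calc (2:ℝ) ^ (-((EN (3 ^ a + j) + gg j : ℕ) : ℤ) + (E p - E (p - 3 ^ a))) * ‖v j (p - 3 ^ a, k)‖
      ≤ 2 ^ (-((EN (3 ^ a + j) + gg j : ℕ) : ℤ) + (E p - E (p - 3 ^ a))) * 2 ^ (j : ℤ) := by
        rw [zpow_natCast]
        exact mul_le_mul_of_nonneg_left hy (by positivity)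
    _ = 2 ^ (-((EN (3 ^ a + j) + gg j : ℕ) : ℤ) + (E p - E (p - 3 ^ a)) + j) := by
        rw [← zpow_add₀ (by norm_num)]
    _ ≤ 2 ^ (-(j : ℤ)) := by
        apply zpow_le_zpow_right₀ (by norm_num)
        have e1 : E p ≤ EN (3 ^ a + j) := by
          refine (E_le_EN p).trans ?_
          have : p.natAbs ≤ 3 ^ a + j := by
            have h8 := abs_le.1 h3
            have h9 := pow3_pos a
            zify
            rw [abs_of_nonneg (by omega)]
            omega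
          exact_mod_cast EN_mono this
        have e2 : -E (p - 3 ^ a) ≤ j * j := by
          have h7 := E_ge_EN (p - 3 ^ a)
          have h8 : EN (p - 3 ^ a).natAbs ≤ EN j := EN_mono (by
            rw [Int.abs_eq_natAbs] at h3; omega)
          have h9 := EN_le_sq j
          have h10 : ((EN (p - 3 ^ a).natAbs : ℕ) : ℤ) ≤ ((j * j : ℕ) : ℤ) := by
            exact_mod_cast h8.trans h9
          push_cast at h10
          omega
        have e3 := gg_ge j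
        zify at e3
        push_cast
        nlinarith

/-- the vector -/
noncomputable def X : C₀(ℤ × Unit, 𝕜) := (D v hv).X (xf_bound v hv)

theorem approxA (j : ℕ) (F : Finset (C₀(ℤ × Unit, 𝕜) →L[𝕜] 𝕜)) :
    ∃ a, ∀ f ∈ F, ‖f ((((D v hv).c a)⁻¹ : ℝ) • ((D v hv).T ^ (3 ^ a)) (X v hv) - (D v hv).Y j)‖ ≤
      2 / (j + 1) * ∑ f ∈ F, ‖f‖ := by
  refine (D v hv).approx (X v hv) (fun g => rfl) j (M := 2 ^ (j * 3 ^ τ j + j ^ 2 + gg j))
    ?_ ?_ ?_ ?_ ?_ F
  · show 0 < N j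
    unfold N NN; positivity
  · positivity
  · intro a ha1 ha2 g hg
    change τ j + 1 ≤ a at ha1
    change a ≤ τ j + N j at ha2
    obtain ⟨n, k⟩ := g
    obtain ⟨j', a', hj', hne, hin, hy⟩ := (D v hv).mem_P.1 hg
    rw [(D v hv).T_pow]
    have e3 : (((3 ^ a : ℕ) : ℤ)) = 3 ^ a := by push_cast; rfl
    rw [e3]
    show ‖((β (n + 3 ^ a) k / β n k : ℝ) : 𝕜) * (D v hv).xf (n + 3 ^ a, k)‖ ≤
      cc a * 2 ^ (j * 3 ^ τ j + j ^ 2 + gg j)
    rw [β_div, norm_mul, RCLike.norm_ofReal, abs_of_pos (by positivity), cc_eq ha1 ha2]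
    have h1 : ‖(D v hv).xf (n + 3 ^ a, k)‖ ≤ 1 := by
      refine (xf_bound v hv _ _ _ _ hin).trans ?_
      rw [div_le_one (by positivity)]
      have : (0:ℝ) ≤ j' := by positivity
      linarith
    obtain ⟨q1, q2, q3, q4, q5, q6⟩ := copy_facts v hv hin
    have hle : (3:ℤ) ^ τ (j' + 1) ≤ 3 ^ τ (j + 1) :=
      pow_le_pow_right₀ (by norm_num) (τ_mono.monotone (by omega))
    have ha3 : 3 * (3:ℤ) ^ a ≤ 3 ^ τ (j + 1) := pow3_lt (by rw [τ_succ]; omega)
    have hj9 : 9 * (j:ℤ) ≤ 3 ^ a := by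
      have h5 := nine_le j
      have h6 : 3 ^ (τ j + 1) ≤ 3 ^ a := Nat.pow_le_pow_right (by norm_num) ha1
      exact_mod_cast h5.trans h6
    have q7 := pow3_pos a'
    have q8 := pow3_pos a
    have q9 := abs_le.1 q3
    have hkey : E n - E (n + 3 ^ a) + EN (3 ^ a + j) ≤ ((j * 3 ^ τ j + j ^ 2 : ℕ) : ℤ) := by
      have hp0 : 0 ≤ n + 3 ^ a := by omega
      rw [E_nonneg hp0]
      by_cases hn : 0 ≤ n
      · rw [E_nonneg hn]
        have r1 : EN n.natAbs + EN (3 ^ a) ≤ EN (n + 3 ^ a).natAbs := by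
          have : (n + 3 ^ a).natAbs = n.natAbs + 3 ^ a := by
            zify; rw [abs_of_nonneg hp0, abs_of_nonneg hn]
          rw [this]; exact EN_super _ _
        have r2 : EN (3 ^ a + j) ≤ EN (3 ^ a) + j * j := by
          apply EN_add_le
          zify; omega
        have r3 : j * j ≤ j * 3 ^ τ j + j ^ 2 := by
          have : j * j = j ^ 2 := by ring
          omega
        zify at r1 r2 r3 ⊢
        linarith
      · rw [E_neg' (by omega)]
        set b := n.natAbs with hb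
        have hb1 : b ≤ 3 ^ a := by
          zify; rw [hb]; zify; rw [abs_of_neg (by omega)]; omega
        have hb2 : (n + 3 ^ a).natAbs = 3 ^ a - b := by
          zify [hb1]; rw [hb]; zify; rw [abs_of_nonneg hp0, abs_of_neg (by omega)]; ring
        rw [hb2]
        have r2 : EN (3 ^ a + j) ≤ EN (3 ^ a - b) + j * (b + j) := by
          have : 3 ^ a + j = 3 ^ a - b + (b + j) := by omega
          rw [this]
          apply EN_add_le
          rw [← this]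
          zify; omega
        have r3 := EN_ge j b
        have r4 : j * (b + j) = j * b + j ^ 2 := by ring
        rw [r4] at r2
        zify at r2 r3 ⊢
        linarith
    calc 2 ^ (E n - E (n + 3 ^ a)) * ‖(D v hv).xf (n + 3 ^ a, k)‖
        ≤ 2 ^ (E n - E (n + 3 ^ a)) * 1 := by
          apply mul_le_mul_of_nonneg_left h1 (by positivity)
      _ ≤ 2 ^ (-((EN (3 ^ a + j) + gg j : ℕ) : ℤ) + ((j * 3 ^ τ j + j ^ 2 + gg j : ℕ) : ℤ)) := by
          rw [mul_one]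
          apply zpow_le_zpow_right₀ (by norm_num)
          push_cast at hkey ⊢
          linarith
      _ = 2 ^ (-((EN (3 ^ a + j) + gg j : ℕ) : ℤ)) * 2 ^ (j * 3 ^ τ j + j ^ 2 + gg j) := by
          rw [zpow_add₀ (by norm_num), zpow_natCast]
  · show ((j : ℝ) + 1) * 2 ^ (j * 3 ^ τ j + j ^ 2 + gg j) ≤ ((N j : ℕ) : ℝ)
    unfold N NN
    push_cast
    exact le_rfl
  · intro a ha1 ha2 n k j' a' hjj' hin
    change τ j + 1 ≤ a at ha1
    change a ≤ τ j + N j at ha2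
    rw [(D v hv).T_pow]
    have e3 : (((3 ^ a : ℕ) : ℤ)) = 3 ^ a := by push_cast; rfl
    rw [e3]
    obtain ⟨q1, q2, q3, q4, q5, q6⟩ := copy_facts v hv hin
    show ‖((β (n + 3 ^ a) k / β n k : ℝ) : 𝕜) * (D v hv).xf (n + 3 ^ a, k)‖ ≤ cc a / (j + 1)
    rw [(D v hv).xf_of hin]
    show ‖((β (n + 3 ^ a) k / β n k : ℝ) : 𝕜) * (((cc a' * (β (n + 3 ^ a - 3 ^ a') k /
      β (n + 3 ^ a) k) : ℝ) : 𝕜) * v j' (n + 3 ^ a - 3 ^ a', k))‖ ≤ cc a / (j + 1)
    set s := n + 3 ^ a - 3 ^ a' with hs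
    have h0 := (β_pos (n + 3 ^ a) k).ne'
    have h0' := (β_pos n k).ne'
    rw [← mul_assoc, ← RCLike.ofReal_mul]
    have e1 : β (n + 3 ^ a) k / β n k * (cc a' * (β s k / β (n + 3 ^ a) k)) =
        cc a' * (β s k / β n k) := by
      field_simp
    rw [e1, β_div, cc_eq q1 q2, cc_eq ha1 ha2, norm_mul, RCLike.norm_ofReal,
      abs_of_pos (by positivity), ← zpow_add₀ (by norm_num)]
    have h10 : a < τ j' := by
      have h11 : τ (j + 1) ≤ τ j' := τ_mono.monotone hjj'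
      rw [τ_succ] at h11; omega
    have h12 : 3 * (3:ℤ) ^ a ≤ 3 ^ τ j' := pow3_lt h10
    have h7 := pow3_pos (τ j')
    have h13 := pow3_pos a
    have h8 := abs_le.1 q3
    have hjj'' : (j : ℤ) < j' := by exact_mod_cast hjj'
    have hn0 : 0 ≤ n := by omega
    have hy := y_bound v hv (j := j') (g := (s, k))
    have hkey : E n + EN (3 ^ a + j) ≤ EN (3 ^ a' + j') + j' * j' := by
      rw [E_nonneg hn0]
      have r1 := EN_super n.natAbs (3 ^ a + j)
      have r2 : EN (n.natAbs + (3 ^ a + j)) ≤ EN (3 ^ a' + j' + j) := by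
        apply EN_mono
        zify; rw [abs_of_nonneg hn0]; omega
      have r3 : EN (3 ^ a' + j' + j) ≤ EN (3 ^ a' + j') + j' * j := by
        apply EN_add_le
        zify; omega
      have r4 : j' * j ≤ j' * j' := Nat.mul_le_mul_left _ hjj'.le
      have := (r1.trans r2).trans (r3.trans (Nat.add_le_add_left r4 _))
      exact_mod_cast this
    have hs2 : -E s ≤ j' * j' := by
      have h7 := E_ge_EN s
      have h8 : EN s.natAbs ≤ EN j' := EN_mono (by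
        rw [Int.abs_eq_natAbs] at q3; omega)
      have h9 := EN_le_sq j'
      have h10 : ((EN s.natAbs : ℕ) : ℤ) ≤ ((j' * j' : ℕ) : ℤ) := by
        exact_mod_cast h8.trans h9
      push_cast at h10
      omega
    calc (2:ℝ) ^ (-((EN (3 ^ a' + j') + gg j' : ℕ) : ℤ) + (E n - E s)) * ‖v j' (s, k)‖
        ≤ 2 ^ (-((EN (3 ^ a' + j') + gg j' : ℕ) : ℤ) + (E n - E s)) * 2 ^ (j' : ℤ) := by
          rw [zpow_natCast]
          exact mul_le_mul_of_nonneg_left hy (by positivity)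
      _ = 2 ^ (-((EN (3 ^ a' + j') + gg j' : ℕ) : ℤ) + (E n - E s) + j') := by
          rw [← zpow_add₀ (by norm_num)]
      _ ≤ 2 ^ (-((EN (3 ^ a + j) + gg j : ℕ) : ℤ) + -(j : ℤ)) := by
          apply zpow_le_zpow_right₀ (by norm_num)
          have e4 := gg_step hjj'
          zify at e4
          push_cast
          nlinarith
      _ = 2 ^ (-((EN (3 ^ a + j) + gg j : ℕ) : ℤ)) * 2 ^ (-(j : ℤ)) := by
          rw [zpow_add₀ (by norm_num)]
      _ ≤ 2 ^ (-((EN (3 ^ a + j) + gg j : ℕ) : ℤ)) * (1 / (j + 1)) := by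
          apply mul_le_mul_of_nonneg_left (two_pow_ge j) (by positivity)
      _ = 2 ^ (-((EN (3 ^ a + j) + gg j : ℕ) : ℤ)) / (j + 1) := by ring

lemma T_compact : IsCompactOperator (D v hv).T := by
  unfold Data.T
  apply wcomp_compact
  rw [Metric.tendsto_nhds]
  intro ε hε
  rw [Filter.eventually_cofinite]
  obtain ⟨L, hL⟩ := exists_pow_lt_of_lt_one hε (show (1:ℝ) / 2 < 1 by norm_num)
  apply Set.Finite.subset
    ((Finset.Icc (-(3:ℤ) ^ τ L) (3 ^ τ L) ×ˢ (Finset.univ : Finset Unit)).finite_toSet)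
  rintro ⟨n, k⟩ hp
  simp only [dist_zero_right, Set.mem_ofPred_eq, not_lt, Real.norm_eq_abs] at hp
  change ε ≤ |β (n + 1) k / β n k| at hp
  rw [abs_of_pos (div_pos (β_pos _ _) (β_pos _ _)), β_div] at hp
  have h1 : J τ n.natAbs < L := by
    by_contra hcon
    have h2 := E_step n
    have h3 : (2:ℝ) ^ (E n - E (n + 1)) ≤ 2 ^ (-(L : ℤ)) :=
      zpow_le_zpow_right₀ (by norm_num) (by omega)
    have h4 : (2:ℝ) ^ (-(L : ℤ)) = (1 / 2) ^ L := by
      rw [zpow_neg, zpow_natCast, one_div, inv_pow]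
    rw [h4] at h3
    linarith
  have h5 : n.natAbs < 3 ^ τ L := by
    by_contra hcon
    have := le_J τ_mono (not_lt.1 hcon)
    omega
  zify at h5
  rw [abs_lt] at h5
  simp only [Finset.coe_product, Finset.coe_Icc, Finset.coe_univ, Set.mem_prod, Set.mem_Icc,
    Set.mem_univ, and_true]
  exact ⟨by omega, by omega⟩

lemma T_dense : DenseRange (D v hv).T := by
  unfold Data.T
  apply wcomp_denseRange
  intro g
  exact (div_pos (β_pos (g.1 + 1) g.2) (β_pos g.1 g.2)).ne'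

end ExA

/-- **Example A.** -/
theorem exampleA (𝕜 : Type) [RCLike 𝕜] : ∃ T : C₀(ℤ × Unit, 𝕜) →L[𝕜] C₀(ℤ × Unit, 𝕜),
    IsCompactOperator T ∧ DenseRange T ∧
    (∃ x : C₀(ℤ × Unit, 𝕜), Dense (toWeakSpace 𝕜 (C₀(ℤ × Unit, 𝕜)) ''
      {z | ∃ (c : 𝕜) (n : ℕ), z = c • (T ^ n) x})) ∧
    ∀ x : C₀(ℤ × Unit, 𝕜), ¬ Dense {z | ∃ (c : 𝕜) (n : ℕ), z = c • (T ^ n) x} := by
  obtain ⟨v, hv, hd⟩ := exists_targets' (𝕜 := 𝕜) (G := ℤ × Unit) (ExA.adm 𝕜) (ExA.adm_ev 𝕜)
    (ExA.adm_zero 𝕜)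
  refine ⟨(ExA.D v hv).T, ExA.T_compact v hv, ExA.T_dense v hv,
    ⟨ExA.X v hv, ?_⟩, fun x => (ExA.D v hv).not_supercyclic () ?_ x⟩
  · apply dense_weak
    intro F y ε hε
    obtain ⟨a, ha⟩ := (ExA.D v hv).weak_approx (ExA.X v hv) hd (ExA.approxA v hv) F y ε hε
    refine ⟨(((ExA.D v hv).c a)⁻¹ : ℝ) • ((ExA.D v hv).T ^ (3 ^ a)) (ExA.X v hv),
      ⟨((((ExA.D v hv).c a)⁻¹ : ℝ) : 𝕜), 3 ^ a, ?_⟩, ha⟩
    ext g
    rw [ZeroAtInftyContinuousMap.smul_apply, ZeroAtInftyContinuousMap.smul_apply,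
      RCLike.real_smul_eq_coe_mul, smul_eq_mul]
  · intro n
    show ExA.β (-n) () * ExA.β n () = 1
    unfold ExA.β
    rw [← zpow_add₀ (by norm_num)]
    have := ExA.E_neg n
    have h2 : -ExA.E (-n) + -ExA.E n = 0 := by linarith
    rw [h2, zpow_zero]

end Q66WC
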